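import Mathlib

/-!
MP_d1b55a_co, P1: two Abel identities.
-/

open Polynomial Finset

namespace MP_d1b55a

/-- `e i c = (X + c)^i / i!` -/
noncomputable def eP (i : ℕ) (c : ℚ) : ℚ[X] := C (1 / (i.factorial : ℚ)) * (X + C c) ^ i

theorem eP_zero (c : ℚ) : eP 0 c = 1 := by simp [eP]

theorem eP_der (i : ℕ) (c : ℚ) : derivative (eP (i + 1) c) = eP i c := by
  unfold eP
  rw [derivative_C_mul, derivative_X_add_C_pow, Nat.factorial_succ]
  rw [← mul_assoc]
  have : C (1 / (((i + 1) * i.factorial : ℕ) : ℚ)) * C ((i + 1 : ℕ) : ℚ) =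
      C (1 / (i.factorial : ℚ)) := by
    rw [← C_mul]
    congr 1
    have h1 : (i.factorial : ℚ) ≠ 0 := by exact_mod_cast i.factorial_ne_zero
    have h2 : ((i : ℚ) + 1) ≠ 0 := by positivity
    push_cast
    field_simp
  rw [this]
  simp

theorem eP_comp (i : ℕ) (c : ℚ) : (eP i c).comp (X + 1) = eP i (c + 1) := by
  unfold eP
  rw [mul_comp, C_comp, pow_comp, add_comp, X_comp, C_comp]
  congr 2
  rw [C_add, C_1]
  ring

theorem eP_eval (i : ℕ) (c x : ℚ) : (eP i c).eval x = (x + c) ^ i / (i.factorial : ℚ) := by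
  simp [eP]
  ring

theorem comp_sum' {ι : Type*} (s : Finset ι) (f : ι → ℚ[X]) (q : ℚ[X]) :
    (∑ i ∈ s, f i).comp q = ∑ i ∈ s, (f i).comp q := by
  simp

theorem fam_uniq (F R : ℕ → ℚ[X]) (h0 : F 0 = R 0)
    (hF : ∀ n, derivative (F (n + 1)) = (F n).comp (X + 1))
    (hR : ∀ n, derivative (R (n + 1)) = (R n).comp (X + 1))
    (he : ∀ n : ℕ, (F (n + 1)).eval (-((n : ℚ) + 1)) = (R (n + 1)).eval (-((n : ℚ) + 1))) :
    ∀ n, F n = R n := by
  intro n
  induction n with
  | zero => exact h0
  | succ n ih =>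
    have hd : derivative (F (n + 1) - R (n + 1)) = 0 := by
      rw [derivative_sub, hF, hR, ih, sub_self]
    have h1 := derivative_eq_zero.mp hd
    rw [natDegree_eq_zero] at h1
    obtain ⟨c, hc⟩ := h1
    have h2 := congrArg (eval (-((n : ℚ) + 1))) hc
    rw [eval_sub, he n, sub_self, eval_C] at h2
    rw [h2, C_0] at hc
    exact (sub_eq_zero.mp hc.symm)

/-- the left hand family -/
noncomputable def FF (c : ℕ → ℚ) (n : ℕ) : ℚ[X] :=
  ∑ k ∈ Finset.range (n + 1), C (c k) * eP (n - k) ((n : ℚ) - k)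

theorem FF_der (c : ℕ → ℚ) (n : ℕ) : derivative (FF c (n + 1)) = (FF c n).comp (X + 1) := by
  unfold FF
  rw [derivative_sum, Finset.sum_range_succ, comp_sum']
  rw [Nat.sub_self, eP_zero, mul_one, derivative_C, add_zero]
  apply Finset.sum_congr rfl
  intro k hk
  rw [Finset.mem_range] at hk
  have h1 : n + 1 - k = (n - k) + 1 := by omega
  rw [derivative_C_mul, h1, eP_der, mul_comp, C_comp, eP_comp]
  congr 2
  push_cast
  ring

theorem alt_sum (n j : ℕ) : ∑ k ∈ Finset.range (n + 1), (-1 : ℚ) ^ (n - k) * (n.choose k : ℚ) *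
    (k : ℚ) ^ j = (fwdDiff (1 : ℚ))^[n] (fun r : ℚ => r ^ j) 0 := by
  rw [fwdDiff_iter_eq_sum_shift]
  apply Finset.sum_congr rfl
  intro k _
  simp

/-- first Abel identity: `∑_{k=1}^n T_k G_{n-k} = G_n` -/
theorem abel1 (n : ℕ) (hn : 1 ≤ n) :
    ∑ k ∈ Finset.range (n + 1), ((k : ℚ) ^ k / (k * (k.factorial : ℚ))) *
      (((n - k : ℕ) : ℚ) ^ (n - k) / ((n - k).factorial : ℚ)) = (n : ℚ) ^ n / (n.factorial : ℚ) := by
  set c : ℕ → ℚ := fun k => (k : ℚ) ^ k / (k * (k.factorial : ℚ)) with hc
  set R : ℕ → ℚ[X] := fun n => if n = 0 then 0 else eP (n - 1) (n : ℚ) with hR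
  have key : ∀ n, FF c n = R n := by
    apply fam_uniq
    · simp [FF, R, c]
    · exact FF_der c
    · intro n
      rcases n with _ | n
      · simp [R, eP]
      · simp only [R, Nat.succ_ne_zero, if_false]
        have h1 : n + 1 + 1 - 1 = n + 1 := by omega
        have h2 : n + 1 - 1 = n := by omega
        rw [h1, h2, eP_der, eP_comp]
        push_cast
        rfl
    · intro n
      rcases n with _ | n
      · simp [FF, R, c, eP, Finset.sum_range_succ]
      · simp only [R, Nat.succ_ne_zero, if_false]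
        have h1 : n + 1 + 1 - 1 = n + 1 := by omega
        rw [h1, eP_eval]
        have h3 : (-(((n + 1 : ℕ) : ℚ) + 1) + ((n + 1 + 1 : ℕ) : ℚ)) = 0 := by push_cast; ring
        rw [h3, zero_pow (by omega), zero_div]
        have h4 := alt_sum (n + 2) (n + 1)
        rw [fwdDiff_iter_pow_eq_zero_of_lt (by omega), Pi.zero_apply] at h4
        unfold FF
        rw [eval_finsetSum]
        have h5 : (((n + 2).factorial : ℚ)) ≠ 0 := by exact_mod_cast (n + 2).factorial_ne_zero
        have h6 : ((n + 2).factorial : ℚ) * (∑ i ∈ Finset.range (n + 1 + 1 + 1),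
          (C (c i) * eP (n + 1 + 1 - i) (((n + 1 + 1 : ℕ) : ℚ) - i)).eval
            (-(((n + 1 : ℕ) : ℚ) + 1))) = 0 := by
          rw [← h4, Finset.mul_sum]
          apply Finset.sum_congr rfl
          intro k hk
          rw [Finset.mem_range] at hk
          rw [eval_mul, eval_C, eP_eval]
          have h7 : (-(((n + 1 : ℕ) : ℚ) + 1) + (((n + 1 + 1 : ℕ) : ℚ) - k)) = (-1) * k := by
            push_cast; ring
          rw [h7, mul_pow]
          have h8 : ((n + 2).choose k : ℚ) * (k.factorial * (n + 2 - k).factorial : ℚ)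
              = (n + 2).factorial := by
            have := Nat.choose_mul_factorial_mul_factorial (n := n + 2) (k := k) (by omega)
            rw [← this]; push_cast; ring
          rw [← h8]
          have h9 : (k.factorial : ℚ) ≠ 0 := by exact_mod_cast k.factorial_ne_zero
          have h10 : ((n + 2 - k).factorial : ℚ) ≠ 0 := by
            exact_mod_cast (n + 2 - k).factorial_ne_zero
          have h11 : n + 1 + 1 - k = n + 2 - k := by omega
          rw [h11]
          simp only [c]
          rcases Nat.eq_zero_or_pos k with rfl | hk0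
          · simp
          · have h12 : (k : ℚ) ≠ 0 := by positivity
            have h13 : (k : ℚ) ^ k * (k : ℚ) ^ (n + 2 - k) = (k : ℚ) ^ (n + 1) * k := by
              rw [← pow_add, ← pow_succ]; congr 1; omega
            field_simp
            linear_combination ((n + 2).choose k : ℚ) * h13
        exact (mul_eq_zero.mp h6).resolve_left h5
  have h1 := congrArg (eval 0) (key n)
  obtain ⟨m, rfl⟩ : ∃ m, n = m + 1 := ⟨n - 1, by omega⟩
  simp only [R, Nat.succ_ne_zero, if_false] at h1
  have h2 : m + 1 - 1 = m := by omega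
  rw [h2, eP_eval, zero_add] at h1
  unfold FF at h1
  rw [eval_finsetSum] at h1
  rw [Nat.factorial_succ]
  have h3 : ((m + 1 : ℕ) : ℚ) ^ (m + 1) / (((m + 1) * m.factorial : ℕ) : ℚ) =
      ((m + 1 : ℕ) : ℚ) ^ m / (m.factorial : ℚ) := by
    have h9 : (m.factorial : ℚ) ≠ 0 := by exact_mod_cast m.factorial_ne_zero
    have h10 : ((m : ℚ) + 1) ≠ 0 := by positivity
    push_cast
    field_simp
    ring
  rw [h3, ← h1]
  apply Finset.sum_congr rfl
  intro k hk
  rw [Finset.mem_range] at hk
  rw [eval_mul, eval_C, eP_eval, zero_add]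
  have h4 : (((m + 1 - k : ℕ)) : ℚ) = ((m + 1 : ℕ) : ℚ) - k := by
    rw [Nat.cast_sub (by omega)]
  rw [h4]

/-- second Abel identity: `∑_k G_k G_{n-k} = ∑_{i ≤ n} n^i/i!` -/
theorem abel2 (n : ℕ) :
    ∑ k ∈ Finset.range (n + 1), ((k : ℚ) ^ k / (k.factorial : ℚ)) *
      (((n - k : ℕ) : ℚ) ^ (n - k) / ((n - k).factorial : ℚ)) =
      ∑ i ∈ Finset.range (n + 1), (n : ℚ) ^ i / (i.factorial : ℚ) := by
  set c : ℕ → ℚ := fun k => (k : ℚ) ^ k / (k.factorial : ℚ) with hc
  set R : ℕ → ℚ[X] := fun n => ∑ i ∈ Finset.range (n + 1), eP i (n : ℚ) with hR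
  have key : ∀ n, FF c n = R n := by
    apply fam_uniq
    · simp [FF, R, c, eP_zero]
    · exact FF_der c
    · intro n
      simp only [R]
      rw [derivative_sum, Finset.sum_range_succ', eP_zero, derivative_one, add_zero,
        comp_sum']
      apply Finset.sum_congr rfl
      intro i _
      rw [eP_der, eP_comp]
      push_cast
      rfl
    · intro n
      simp only [R]
      have h4 := alt_sum (n + 1) (n + 1)
      rw [fwdDiff_iter_eq_factorial] at h4
      rw [eval_finsetSum, Finset.sum_range_succ']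
      have h5 : (((n + 1).factorial : ℚ)) ≠ 0 := by exact_mod_cast (n + 1).factorial_ne_zero
      rw [Finset.sum_eq_zero, eP_zero, eval_one, zero_add]
      · unfold FF
        rw [eval_finsetSum]
        apply mul_left_cancel₀ h5
        have h4' : (((n + 1).factorial : ℚ → ℚ)) 0 = ((n + 1).factorial : ℚ) := by simp
        rw [h4'] at h4
        rw [mul_one, Finset.mul_sum]
        refine Eq.trans ?_ h4
        apply Finset.sum_congr rfl
        intro k hk
        rw [Finset.mem_range] at hk
        rw [eval_mul, eval_C, eP_eval]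
        have h7 : (-((n : ℚ) + 1) + (((n + 1 : ℕ) : ℚ) - k)) = (-1) * k := by
          push_cast; ring
        rw [h7, mul_pow]
        have h8 : ((n + 1).choose k : ℚ) * (k.factorial * (n + 1 - k).factorial : ℚ)
            = (n + 1).factorial := by
          have := Nat.choose_mul_factorial_mul_factorial (n := n + 1) (k := k) (by omega)
          rw [← this]; push_cast; ring
        rw [← h8]
        have h9 : (k.factorial : ℚ) ≠ 0 := by exact_mod_cast k.factorial_ne_zero
        have h10 : ((n + 1 - k).factorial : ℚ) ≠ 0 := by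
          exact_mod_cast (n + 1 - k).factorial_ne_zero
        have h13 : (k : ℚ) ^ k * (k : ℚ) ^ (n + 1 - k) = (k : ℚ) ^ (n + 1) := by
          rw [← pow_add]; congr 1; omega
        simp only [c]
        field_simp
        linear_combination ((n + 1).choose k : ℚ) * h13
      · intro i _
        rw [eP_eval]
        have : (-((n : ℚ) + 1) + ((n + 1 : ℕ) : ℚ)) = 0 := by push_cast; ring
        rw [this, zero_pow (by omega), zero_div]
  have h1 := congrArg (eval 0) (key n)
  simp only [R] at h1
  unfold FF at h1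
  rw [eval_finsetSum, eval_finsetSum] at h1
  simp only [eval_mul, eval_C, eP_eval, zero_add] at h1
  rw [← h1]
  apply Finset.sum_congr rfl
  intro k hk
  rw [Finset.mem_range] at hk
  have h4 : (((n - k : ℕ)) : ℚ) = (n : ℚ) - k := by
    rw [Nat.cast_sub (by omega)]
  rw [h4]

end MP_d1b55a
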