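import Pool.Agent.Lib.MP_d1b55a_co.Regime1

/-!
MP_d1b55a_co, P1: the reduction. `Good θ`: all ratios `a_{m+1}/a_m` at `e^{iθ}` avoid `(-∞,0]`.
* `good_of_power_sums`: from one index `n` (Regime I up to `n`, dominance of one power sum term at
  `n` and `n+1`) to `Good θ`.
* `av_ne_zero`: `Good θ` for all `0 < θ ≤ π` implies `a_m(y) ≠ 0` for `|y| ≤ 1`.
-/

open Finset Polynomial

namespace MP_d1b55a

/-- the point `e^{iθ}` -/
noncomputable def yy (θ : ℝ) : ℂ := Complex.exp ((θ : ℂ) * Complex.I)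

/-- `a_m ≠ 0` and `a_{m+1}/a_m ∉ (-∞,0]` at `y` -/
def GoodAt (m : ℕ) (y : ℂ) : Prop :=
  av m y ≠ 0 ∧ ∀ l : ℝ, 0 ≤ l → av (m + 1) y + (l : ℂ) * av m y ≠ 0

def Good (θ : ℝ) : Prop := ∀ m, 1 ≤ m → GoodAt m (yy θ)

/-- a number in polar form with angle of modulus `< π` is not in `(-∞,0]` -/
theorem polar_add_ne_zero (ρ ω l : ℝ) (hρ : 0 < ρ) (hω : |ω| < Real.pi) (hl : 0 ≤ l) :
    (ρ : ℂ) * Complex.exp ((ω : ℂ) * Complex.I) + (l : ℂ) ≠ 0 := by
  intro h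
  have him := congrArg Complex.im h
  have hre := congrArg Complex.re h
  rw [Complex.add_im, Complex.im_ofReal_mul, Complex.exp_ofReal_mul_I_im, Complex.ofReal_im,
    Complex.zero_im, add_zero] at him
  rw [Complex.add_re, Complex.re_ofReal_mul, Complex.exp_ofReal_mul_I_re, Complex.ofReal_re,
    Complex.zero_re] at hre
  have hs : Real.sin ω = 0 := by
    rcases mul_eq_zero.mp him with h1 | h1
    · exact absurd h1 hρ.ne'
    · exact h1
  have h0 : ω = 0 := by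
    rw [abs_lt] at hω
    exact (Real.sin_eq_zero_iff_of_lt_of_lt hω.1 hω.2).mp hs
  rw [h0, Real.cos_zero, mul_one] at hre
  linarith

theorem goodAt_of_polar (m : ℕ) (y : ℂ) (h0 : av m y ≠ 0) (ρ ω : ℝ) (hρ : 0 < ρ)
    (hω : |ω| < Real.pi)
    (h : av (m + 1) y = (ρ : ℂ) * Complex.exp ((ω : ℂ) * Complex.I) * av m y) : GoodAt m y := by
  refine ⟨h0, fun l hl h1 => ?_⟩
  rw [h, ← add_mul] at h1
  rcases mul_eq_zero.mp h1 with h2 | h2
  · exact polar_add_ne_zero ρ ω l hρ hω hl h2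
  · exact h0 h2

/-- the argument of `1 + E` -/
theorem one_add_polar (E : ℂ) (e : ℝ) (hE : ‖E‖ ≤ e) (he : e < 1) :
    1 + E ≠ 0 ∧ ∃ α : ℝ, |α| ≤ Real.arcsin e ∧
      1 + E = ((‖1 + E‖ : ℝ) : ℂ) * Complex.exp ((α : ℂ) * Complex.I) := by
  have hE1 : ‖E‖ < 1 := lt_of_le_of_lt hE he
  have hne : 1 + E ≠ 0 := by
    intro h
    have : E = -1 := by linear_combination h
    rw [this] at hE1
    simp at hE1
  refine ⟨hne, (1 + E).arg, ?_, (Complex.norm_mul_exp_arg_mul_I _).symm⟩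
  have hmem := Complex.arg_one_add_mem_Ioo hE1
  set α := (1 + E).arg with hα
  set r := ‖1 + E‖ with hr
  have hpol : 1 + E = (r : ℂ) * Complex.exp ((α : ℂ) * Complex.I) :=
    (Complex.norm_mul_exp_arg_mul_I _).symm
  have hsin : Real.sin α ^ 2 ≤ ‖E‖ ^ 2 := by
    have hEE : E = (r : ℂ) * Complex.exp ((α : ℂ) * Complex.I) - 1 := by
      rw [← hpol]; ring
    rw [Complex.sq_norm, Complex.normSq_apply]
    have h1 : E.re = r * Real.cos α - 1 := by
      rw [hEE, Complex.sub_re, Complex.re_ofReal_mul, Complex.exp_ofReal_mul_I_re, Complex.one_re]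
    have h2 : E.im = r * Real.sin α := by
      rw [hEE, Complex.sub_im, Complex.im_ofReal_mul, Complex.exp_ofReal_mul_I_im, Complex.one_im,
        sub_zero]
    rw [h1, h2]
    have h3 := Real.sin_sq_add_cos_sq α
    nlinarith [sq_nonneg (r - Real.cos α)]
  have hn : 0 ≤ ‖E‖ := norm_nonneg E
  have h1 : |Real.sin α| ≤ ‖E‖ := abs_le_of_sq_le_sq hsin hn
  have h2 : Real.sin |α| ≤ e := by
    have h3 : Real.sin |α| ≤ |Real.sin α| := by
      rcases le_total 0 α with h | h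
      · rw [abs_of_nonneg h]; exact le_abs_self _
      · rw [abs_of_nonpos h, Real.sin_neg]; exact neg_le_abs _
    linarith
  rw [Real.le_arcsin_iff_sin_le' ]
  · exact h2
  · constructor
    · have := abs_nonneg α
      have := Real.pi_pos
      linarith
    · rw [abs_le]
      exact ⟨hmem.1.le, hmem.2.le⟩

/-- dominance of one term persists -/
theorem tail_mono {M : ℕ} (z : Fin M → ℂ) (k0 : Fin M) (n m : ℕ) (hnm : n ≤ m)
    (e : ℝ) (he : e < 1) (hz : z k0 ≠ 0)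
    (h : ∑ k ∈ Finset.univ.erase k0, ‖z k‖ ^ n ≤ e * ‖z k0‖ ^ n) :
    ∑ k ∈ Finset.univ.erase k0, ‖z k‖ ^ m ≤ e * ‖z k0‖ ^ m := by
  have hz0 : 0 < ‖z k0‖ := norm_pos_iff.mpr hz
  have hle : ∀ k ∈ Finset.univ.erase k0, ‖z k‖ ≤ ‖z k0‖ := by
    intro k hk
    by_contra hcon
    rw [not_le] at hcon
    have h1 : ‖z k‖ ^ n ≤ ∑ k ∈ Finset.univ.erase k0, ‖z k‖ ^ n :=
      Finset.single_le_sum (f := fun k => ‖z k‖ ^ n) (fun i _ => by positivity) hk
    have h2 : ‖z k0‖ ^ n ≤ ‖z k‖ ^ n := pow_le_pow_left₀ hz0.le hcon.le n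
    have h3 : 0 < ‖z k0‖ ^ n := by positivity
    nlinarith
  have h1 : ∑ k ∈ Finset.univ.erase k0, ‖z k‖ ^ m ≤
      ∑ k ∈ Finset.univ.erase k0, ‖z k‖ ^ n * ‖z k0‖ ^ (m - n) := by
    apply Finset.sum_le_sum
    intro k hk
    have h2 : ‖z k‖ ^ m = ‖z k‖ ^ n * ‖z k‖ ^ (m - n) := by
      rw [← pow_add]; congr 1; omega
    rw [h2]
    apply mul_le_mul_of_nonneg_left _ (by positivity)
    exact pow_le_pow_left₀ (norm_nonneg _) (hle k hk) _
  rw [← Finset.sum_mul] at h1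
  have h3 : ‖z k0‖ ^ m = ‖z k0‖ ^ n * ‖z k0‖ ^ (m - n) := by
    rw [← pow_add]; congr 1; omega
  rw [h3, ← mul_assoc]
  exact h1.trans (mul_le_mul_of_nonneg_right h (by positivity))

/-- `p_m = z_0^m (1 + E)` -/
theorem pv_factor {M : ℕ} (z : Fin M → ℂ) (k0 : Fin M) (m : ℕ) (p : ℂ)
    (e : ℝ) (hz : z k0 ≠ 0) (hp : ∑ k, z k ^ m = p)
    (h : ∑ k ∈ Finset.univ.erase k0, ‖z k‖ ^ m ≤ e * ‖z k0‖ ^ m) :
    ∃ E : ℂ, ‖E‖ ≤ e ∧ p = z k0 ^ m * (1 + E) := by
  have hz0 : z k0 ^ m ≠ 0 := pow_ne_zero m hz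
  refine ⟨(∑ k ∈ Finset.univ.erase k0, z k ^ m) / z k0 ^ m, ?_, ?_⟩
  · rw [norm_div, norm_pow, div_le_iff₀ (by positivity)]
    refine (norm_sum_le _ _).trans ?_
    simp only [norm_pow]
    exact h
  · rw [← hp, ← Finset.add_sum_erase _ _ (Finset.mem_univ k0)]
    field_simp

/-- the data of Regime II at one index `n`: power sums with one dominant term -/
def Dom (y : ℂ) (n : ℕ) (e1 e2 : ℝ) : Prop :=
  ∀ N : ℕ, ∃ (M : ℕ) (z : Fin M → ℂ) (k0 : Fin M),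
    (∀ j, 1 ≤ j → j ≤ N → ∑ k, z k ^ j = pv j y) ∧ z k0 ≠ 0 ∧
    ∑ k ∈ Finset.univ.erase k0, ‖z k‖ ^ n ≤ e1 * ‖z k0‖ ^ n ∧
    ∑ k ∈ Finset.univ.erase k0, ‖z k‖ ^ (n + 1) ≤ e2 * ‖z k0‖ ^ (n + 1)

/-- **Regime II**: from dominance at `n` and `n + 1` and the argument of `a_{n+1}/a_n` to all
`m ≥ n`. -/
theorem goodAt_of_dom (y : ℂ) (hy : y ≠ 1) (n : ℕ) (hn : 1 ≤ n) (e1 e2 : ℝ) (he1 : e1 < 1)
    (he2 : e2 ≤ e1) (hD : Dom y n e1 e2) (ρ γ : ℝ) (hρ : 0 < ρ)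
    (hr : av (n + 1) y = (ρ : ℂ) * Complex.exp ((γ : ℂ) * Complex.I) * av n y)
    (hγ : |γ| + 2 * Real.arcsin e1 + 2 * Real.arcsin e2 < Real.pi) :
    ∀ m, n ≤ m → GoodAt m y := by
  intro m hm
  obtain ⟨M, z, k0, hps, hz, h1, h2⟩ := hD (m + 1)
  have hy1 : (1 - y) ≠ 0 := sub_ne_zero.mpr (Ne.symm hy)
  have he2' : e2 < 1 := lt_of_le_of_lt he2 he1
  have hz0 : 0 < ‖z k0‖ := norm_pos_iff.mpr hz
  have he1n : 0 ≤ e1 := by
    have h3 : 0 ≤ ∑ k ∈ Finset.univ.erase k0, ‖z k‖ ^ n :=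
      Finset.sum_nonneg fun k _ => by positivity
    by_contra hcon
    rw [not_le] at hcon
    have : 0 < ‖z k0‖ ^ n := by positivity
    nlinarith
  have he2n : 0 ≤ e2 := by
    have h3 : 0 ≤ ∑ k ∈ Finset.univ.erase k0, ‖z k‖ ^ (n + 1) :=
      Finset.sum_nonneg fun k _ => by positivity
    by_contra hcon
    rw [not_le] at hcon
    have : 0 < ‖z k0‖ ^ (n + 1) := by positivity
    nlinarith
  -- the value at every `j ∈ [n, m+1]`
  have hval : ∀ j, n ≤ j → j ≤ m + 1 → ∀ e : ℝ, e < 1 →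
      (∑ k ∈ Finset.univ.erase k0, ‖z k‖ ^ j ≤ e * ‖z k0‖ ^ j) →
      ∃ (s α : ℝ), 0 < s ∧ |α| ≤ Real.arcsin e ∧
        pv j y = z k0 ^ j * ((s : ℂ) * Complex.exp ((α : ℂ) * Complex.I)) := by
    intro j hj hj2 e he hle
    obtain ⟨E, hE, hpE⟩ := pv_factor z k0 j (pv j y) e hz (hps j (by omega) hj2) hle
    obtain ⟨hne, α, hα, hpol⟩ := one_add_polar E e hE he
    exact ⟨‖1 + E‖, α, norm_pos_iff.mpr hne, hα, by rw [hpE, ← hpol]⟩
  have htail : ∀ j, n + 1 ≤ j →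
      ∑ k ∈ Finset.univ.erase k0, ‖z k‖ ^ j ≤ e2 * ‖z k0‖ ^ j := fun j hj =>
    tail_mono z k0 (n + 1) j hj e2 he2' hz h2
  have hpv : ∀ j, 1 ≤ j → pv (j + 1) y = (1 - y) ^ j * av (j + 1) y := by
    intro j hj
    unfold pv
    rw [Nat.add_sub_cancel]
  have hpvn : ∀ j, 1 ≤ j → (1 - y) * pv j y = (1 - y) ^ j * av j y := by
    intro j hj
    unfold pv
    rw [← mul_assoc, ← pow_succ']
    congr 2
    omega
  obtain ⟨sn, αn, hsn, hαn, hpn⟩ := hval n le_rfl (by omega) e1 he1 h1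
  obtain ⟨sn', αn', hsn', hαn', hpn'⟩ := hval (n + 1) (by omega) (by omega) e2 he2' h2
  have harc : Real.arcsin e2 ≤ Real.arcsin e1 := Real.arcsin_le_arcsin he2
  -- `a_j ≠ 0` for `j ≥ n`
  have hav : ∀ j, n ≤ j → (∃ (s α : ℝ), 0 < s ∧
        pv j y = z k0 ^ j * ((s : ℂ) * Complex.exp ((α : ℂ) * Complex.I))) → av j y ≠ 0 := by
    rintro j hj ⟨s, α, hs, hp⟩ h0
    have : pv j y = 0 := by unfold pv; rw [h0, mul_zero]
    rw [this] at hp
    have h3 : z k0 ^ j * ((s : ℂ) * Complex.exp ((α : ℂ) * Complex.I)) ≠ 0 := by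
      apply mul_ne_zero (pow_ne_zero _ hz)
      apply mul_ne_zero
      · exact_mod_cast hs.ne'
      · exact Complex.exp_ne_zero _
    exact h3 hp.symm
  rcases eq_or_lt_of_le hm with rfl | hlt
  · -- `m = n`
    have ha1 := Real.arcsin_nonneg.mpr he1n
    have ha2 := Real.arcsin_nonneg.mpr he2n
    exact goodAt_of_polar n y (hav n le_rfl ⟨sn, αn, hsn, hpn⟩) ρ γ hρ (by linarith) hr
  · obtain ⟨sm, αm, hsm, hαm, hpm⟩ := hval m hm (by omega) e2 he2' (htail m (by omega))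
    obtain ⟨sm', αm', hsm', hαm', hpm'⟩ := hval (m + 1) (by omega) le_rfl e2 he2'
      (htail (m + 1) (by omega))
    have havm := hav m hm ⟨sm, αm, hsm, hpm⟩
    -- `z_0 sn' e^{iαn'} = (1-y) ρ e^{iγ} sn e^{iαn}`
    have hA : z k0 * ((sn' : ℂ) * Complex.exp ((αn' : ℂ) * Complex.I)) =
        (1 - y) * ((ρ : ℂ) * Complex.exp ((γ : ℂ) * Complex.I)) *
          ((sn : ℂ) * Complex.exp ((αn : ℂ) * Complex.I)) := by
      have h3 : pv (n + 1) y = (1 - y) * ((ρ : ℂ) * Complex.exp ((γ : ℂ) * Complex.I)) *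
          pv n y := by
        rw [hpv n hn, hr]
        have := hpvn n hn
        linear_combination (-(ρ : ℂ) * Complex.exp ((γ : ℂ) * Complex.I)) * this
      rw [hpn, hpn'] at h3
      apply mul_left_cancel₀ (pow_ne_zero n hz)
      linear_combination h3
    have hB : (1 - y) * av (m + 1) y * ((sm : ℂ) * Complex.exp ((αm : ℂ) * Complex.I)) =
        z k0 * ((sm' : ℂ) * Complex.exp ((αm' : ℂ) * Complex.I)) * av m y := by
      have h3 := hpv m (by omega)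
      have h4 := hpvn m (by omega)
      rw [hpm'] at h3
      rw [hpm] at h4
      apply mul_left_cancel₀ (mul_ne_zero (pow_ne_zero m hz) (pow_ne_zero m hy1))
      linear_combination (-(1 - y) * ((sm : ℂ) * Complex.exp ((αm : ℂ) * Complex.I)) * z k0 ^ m) * h3
        + (z k0 ^ (m + 1) * ((sm' : ℂ) * Complex.exp ((αm' : ℂ) * Complex.I))) * h4
    have hC : ((sm : ℂ) * sn' * Complex.exp (((αm + αn' : ℝ) : ℂ) * Complex.I)) * av (m + 1) y =
        ((ρ : ℂ) * sn * sm' * Complex.exp (((γ + αn + αm' : ℝ) : ℂ) * Complex.I)) * av m y := by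
      have e1 : Complex.exp (((αm + αn' : ℝ) : ℂ) * Complex.I) =
          Complex.exp ((αm : ℂ) * Complex.I) * Complex.exp ((αn' : ℂ) * Complex.I) := by
        rw [← Complex.exp_add]; congr 1; push_cast; ring
      have e2 : Complex.exp (((γ + αn + αm' : ℝ) : ℂ) * Complex.I) =
          Complex.exp ((γ : ℂ) * Complex.I) * Complex.exp ((αn : ℂ) * Complex.I) *
            Complex.exp ((αm' : ℂ) * Complex.I) := by
        rw [← Complex.exp_add, ← Complex.exp_add]; congr 1; push_cast; ring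
      rw [e1, e2]
      apply mul_left_cancel₀ hy1
      linear_combination ((sn' : ℂ) * Complex.exp ((αn' : ℂ) * Complex.I)) * hB +
        ((sm' : ℂ) * Complex.exp ((αm' : ℂ) * Complex.I) * av m y) * hA
    have hsm0 : (sm : ℂ) ≠ 0 := by exact_mod_cast hsm.ne'
    have hsn0 : (sn' : ℂ) ≠ 0 := by exact_mod_cast hsn'.ne'
    apply goodAt_of_polar m y havm (ρ * sn * sm' / (sm * sn')) (γ + αn + αm' - αm - αn')
      (by positivity)
    · have t1 : |γ + αn + αm' - αm - αn'| ≤ |γ| + |αn| + |αm'| + |αm| + |αn'| := by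
        have a1 := abs_sub (γ + αn + αm' - αm) αn'
        have a2 := abs_sub (γ + αn + αm') αm
        have a3 := abs_add_le (γ + αn) αm'
        have a4 := abs_add_le γ αn
        linarith
      linarith
    · have hne : ((sm : ℂ) * sn' * Complex.exp (((αm + αn' : ℝ) : ℂ) * Complex.I)) ≠ 0 :=
        mul_ne_zero (mul_ne_zero hsm0 hsn0) (Complex.exp_ne_zero _)
      apply mul_left_cancel₀ hne
      rw [hC]
      have e3 : Complex.exp (((γ + αn + αm' : ℝ) : ℂ) * Complex.I) =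
          Complex.exp (((αm + αn' : ℝ) : ℂ) * Complex.I) *
            Complex.exp (((γ + αn + αm' - αm - αn' : ℝ) : ℂ) * Complex.I) := by
        rw [← Complex.exp_add]; congr 1; push_cast; ring
      rw [e3]
      push_cast
      field_simp

end MP_d1b55a
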