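import Mathlib

/-!
MP_d1b55a_co, small `θ`: `θ = ε³`, `h = ε²`, `w_n = n h`, `x_n = n θ / 2`.
On the circle `v = exp (B h) / (e θ)` one has `F(x) * conj-F(x) = A(B) / ε` and
`d/dB log F = - i/ε + i E(B)/A(B)`.
-/

open Finset

namespace MP_d1b55a

/-- `G_n = n^n e^{-n} / n!` -/
noncomputable def Gn (n : ℕ) : ℝ := (n : ℝ) ^ n * Real.exp (-(n : ℝ)) / n.factorial

/-- `x_n = n ε³ / 2` -/
noncomputable def xn (ε : ℝ) (n : ℕ) : ℝ := (n : ℝ) * ε ^ 3 / 2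

/-- `w_n = n ε²` -/
noncomputable def wn (ε : ℝ) (n : ℕ) : ℝ := (n : ℝ) * ε ^ 2

/-- `S_n = (sin x_n / x_n)^n` -/
noncomputable def Sn (ε : ℝ) (n : ℕ) : ℝ := Real.sinc (xn ε n) ^ n

/-- `K_n = S_n κ(x_n)`, `κ(x) = 1 - x cot x - i x`, `K_0 = 0` -/
noncomputable def Kn (ε : ℝ) (n : ℕ) : ℂ :=
  if n = 0 then 0 else
    ((Sn ε n : ℝ) : ℂ) * (1 - Complex.I * ((xn ε n : ℝ) : ℂ)) -
      ((Real.sinc (xn ε n) ^ (n - 1) * Real.cos (xn ε n) : ℝ) : ℂ)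

/-- `A_j(B) = ε ∑ G_n S_n w_n^j exp (B w_n)` -/
noncomputable def Asum (ε : ℝ) (j : ℕ) (B : ℂ) : ℂ :=
  (ε : ℂ) * ∑' n : ℕ, ((Gn n * Sn ε n * wn ε n ^ j : ℝ) : ℂ) * Complex.exp (B * ((wn ε n : ℝ) : ℂ))

/-- `E_j(B) = [j = 0] + ∑ G_n K_n w_n^j exp (B w_n)` -/
noncomputable def Esum (ε : ℝ) (j : ℕ) (B : ℂ) : ℂ :=
  (if j = 0 then 1 else 0) +
    ∑' n : ℕ, ((Gn n * wn ε n ^ j : ℝ) : ℂ) * Kn ε n * Complex.exp (B * ((wn ε n : ℝ) : ℂ))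

/-- `(E/A)''` -/
noncomputable def H2 (ε : ℝ) (B : ℂ) : ℂ :=
  Esum ε 2 B / Asum ε 0 B - 2 * Esum ε 1 B * Asum ε 1 B / Asum ε 0 B ^ 2 -
    Esum ε 0 B * Asum ε 2 B / Asum ε 0 B ^ 2 + 2 * Esum ε 0 B * Asum ε 1 B ^ 2 / Asum ε 0 B ^ 3

/-- approximate position of the zero -/
noncomputable def Bz (ε : ℝ) : ℂ := ⟨0.9279, -1.6071 + ε / 6⟩

/-- the pole term: `∂_B² [h / (1 - exp (- h (B - Bz)))]` -/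
noncomputable def gpole (ε : ℝ) (B : ℂ) : ℂ :=
  ((ε ^ 6 : ℝ) : ℂ) * Complex.exp (-((ε ^ 2 : ℝ) : ℂ) * (B - Bz ε)) *
    (1 + Complex.exp (-((ε ^ 2 : ℝ) : ℂ) * (B - Bz ε))) /
    (1 - Complex.exp (-((ε ^ 2 : ℝ) : ℂ) * (B - Bz ε))) ^ 3

/-- the point `5/4 + i s` -/
noncomputable def Bs (s : ℝ) : ℂ := ⟨5 / 4, s⟩

/-- `F_j(x) = ∑ n^j y^{C(n,2)} x^n / n!` -/
noncomputable def FD (j : ℕ) (y x : ℂ) : ℂ :=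
  ∑' n : ℕ, (n : ℂ) ^ j * y ^ (n * (n - 1) / 2) * x ^ n / (n.factorial : ℂ)

/-- the point `x` on the circle that belongs to `B` -/
noncomputable def xB (ε : ℝ) (B : ℂ) : ℂ :=
  -Complex.I * Complex.exp (Complex.I * ((ε ^ 3 / 2 : ℝ) : ℂ)) *
    Complex.exp (B * ((ε ^ 2 : ℝ) : ℂ)) / (((Real.exp 1 * ε ^ 3 : ℝ)) : ℂ)

end MP_d1b55a
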