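import Pool.Agent.Lib.MP_d1b55a_co.Mahler
import Pool.Agent.Lib.MP_d1b55a_co.SDefs
import Pool.Agent.Lib.MP_d1b55a_co.Reduction

/-!
MP_d1b55a_co, the circle `|x| = Rc ε = e^{(5/4) ε²} / (e ε³)`: definitions.
-/

open Finset

namespace MP_d1b55a

/-- radius of the circle that belongs to `Re B = 5/4` -/
noncomputable def Rc (ε : ℝ) : ℝ := Real.exp (5 / 4 * ε ^ 2) / (Real.exp 1 * ε ^ 3)

open Classical in
/-- number of roots in the open disc of radius `R`, with multiplicity -/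
noncomputable def cnt (P : Polynomial ℂ) (R : ℝ) : ℕ := Multiset.card (P.roots.filter (fun r => ‖r‖ < R))

/-- `X d/dX` -/
noncomputable def Dx (P : Polynomial ℂ) : Polynomial ℂ := Polynomial.X * Polynomial.derivative P

/-- `D² (D P / P)`, `D = x d/dx` -/
noncomputable def H3 (P : Polynomial ℂ) (x : ℂ) : ℂ :=
  (Dx (Dx (Dx P))).eval x / P.eval x - 3 * (Dx (Dx P)).eval x * (Dx P).eval x / P.eval x ^ 2 +
    2 * ((Dx P).eval x / P.eval x) ^ 3

/-- power sums of the numbers `z = -1/r` -/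
noncomputable def psz (P : Polynomial ℂ) (m : ℕ) : ℂ := (P.roots.map (fun r => ((-r)⁻¹) ^ m)).sum

/-- `D² (x/(x - r)) = X (1 + X)/(1 - X)³`, `X = r/x` -/
noncomputable def gx (r x : ℂ) : ℂ := (r / x) * (1 + r / x) / (1 - r / x) ^ 3

/-- the point `R e^{it}` -/
noncomputable def cp (R t : ℝ) : ℂ := (R : ℂ) * Complex.exp ((t : ℂ) * Complex.I)

end MP_d1b55a
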