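import Pool.Agent.Lib.MP_d1b55a_co.CI1a

/-!
CI1. Contour identity for polynomials. PROOF. P = C a ∏ (X - r) (splits over ℂ), so for P(x) ≠ 0: Dx P/P = ∑ x/(x - r)
(Polynomial.eval_derivative_div_eval_of_ne_zero_of_splits or induction over the multiset) and applying D = x d/dx twice:
H3 P x = ∑_r gx r x (as H3 P = D² of (Dx P/P): differentiate, or check H3 (P Q) = H3 P + H3 Q and H3 (X - C r) = gx r by ring/field_simp).
On |x| = R, x = R e^{it}:
|r| < R: gx r x = ∑_{j ≥ 1} j² (r/x)^j (|r/x| < 1), so ∫_0^{2π} gx r x e^{-imt} dt = 0 for m ≥ 1 (all frequencies are negative);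
|r| > R: gx r x = - ∑_{j ≥ 1} j² (x/r)^j, so ∫_0^{2π} gx r x e^{-imt} dt = - 2π m² (R/r)^m.
(Alternatively by Cauchy: ∮ gx r x x^{-m-1} dx: for |r| < R the integrand is O(x^{-m-2}) analytic outside, for |r| > R use the residue at 0.)
With cnt P R = 1 let r0 be the root inside, z = (-r0)⁻¹, |z| > 1/R. The others have |r| > R. So
- 2π m² R^m ∑_{r ≠ r0} r^{-m} = ∫ (H3 P - gx ρ) e^{-imt} dt (the terms of r0 and of ρ vanish), and
|psz P m - z^m| = |∑_{r ≠ r0} r^{-m}| ≤ R^{-m} m^{-2} (1/2π) ∫ |H3 P - gx ρ|.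
-/

open Finset

namespace MP_d1b55a

theorem CI1_hasSum (X : ℂ) (hX : ‖X‖ < 1) :
    HasSum (fun n : ℕ => ((n : ℂ) + 1) ^ 2 * X ^ (n + 1)) (X * (1 + X) / (1 - X) ^ 3) := by
  have h1 := hasSum_choose_mul_geometric_of_norm_lt_one 2 hX
  have h2 := hasSum_choose_mul_geometric_of_norm_lt_one 1 hX
  have h3 := ((h1.mul_left 2).sub h2).mul_left X
  have hne : 1 - X ≠ 0 := by
    intro h
    have : X = 1 := by linear_combination -h
    rw [this] at hX
    simp at hX
  have hval : X * (2 * (1 / (1 - X) ^ (2 + 1)) - 1 / (1 - X) ^ (1 + 1)) =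
      X * (1 + X) / (1 - X) ^ 3 := by
    field_simp
    ring
  rw [hval] at h3
  have hfun : (fun n : ℕ => ((n : ℂ) + 1) ^ 2 * X ^ (n + 1)) =
      fun n : ℕ => X * (2 * (((n + 2).choose 2 : ℕ) * X ^ n) - ((n + 1).choose 1 : ℕ) * X ^ n) := by
    funext n
    have hc : (2 : ℂ) * (((n + 2).choose 2 : ℕ) : ℂ) = ((n : ℂ) + 2) * ((n : ℂ) + 1) := by
      have h := Nat.add_choose_mul_factorial_mul_factorial n 2
      have hd : (n + 2).choose 2 * 2 = (n + 2) * (n + 1) := by
        rw [Nat.choose_two_right]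
        have : 2 ∣ (n + 2) * (n + 2 - 1) := (Nat.even_mul_pred_self (n + 2)).two_dvd
        rw [Nat.div_mul_cancel this]
        rfl
      have hd' : (((n + 2).choose 2 : ℕ) : ℂ) * 2 = ((n : ℂ) + 2) * ((n : ℂ) + 1) := by
        exact_mod_cast hd
      linear_combination hd'
    have hc1 : (((n + 1).choose 1 : ℕ) : ℂ) = (n : ℂ) + 1 := by
      rw [Nat.choose_one_right]
      push_cast
      ring
    rw [hc1]
    linear_combination (-(X * X ^ n)) * hc
  rw [hfun]
  exact h3

theorem CI1_exp_int (k : ℤ) :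
    ∫ t in (0 : ℝ)..(2 * Real.pi), Complex.exp ((k : ℂ) * t * Complex.I) =
      if k = 0 then 2 * (Real.pi : ℂ) else 0 := by
  by_cases hk : k = 0
  · rw [if_pos hk, hk]
    simp
  · rw [if_neg hk]
    have hc : (k : ℂ) * Complex.I ≠ 0 := by
      apply mul_ne_zero _ Complex.I_ne_zero
      exact_mod_cast hk
    have h1 : (fun t : ℝ => Complex.exp ((k : ℂ) * t * Complex.I)) =
        fun t : ℝ => Complex.exp (((k : ℂ) * Complex.I) * t) := by
      funext t
      congr 1
      ring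
    rw [h1, integral_exp_mul_complex hc]
    have h2 : Complex.exp ((k : ℂ) * Complex.I * ((2 * Real.pi : ℝ) : ℂ)) = 1 := by
      have := Complex.exp_int_mul_two_pi_mul_I k
      rw [← this]
      congr 1
      push_cast
      ring
    rw [h2]
    simp

theorem CI1_cp_norm (R t : ℝ) (hR : 0 ≤ R) : ‖cp R t‖ = R := by
  unfold cp
  rw [norm_mul, Complex.norm_exp_ofReal_mul_I, mul_one, Complex.norm_real, Real.norm_eq_abs,
    abs_of_nonneg hR]

theorem CI1_cp_continuous (R : ℝ) : Continuous (cp R) := by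
  unfold cp
  fun_prop

/-- termwise integration -/
theorem CI1_fourier_series (q : ℂ) (hq : ‖q‖ < 1) (s : ℤ) (m : ℕ) :
    HasSum (fun n : ℕ => ((n : ℂ) + 1) ^ 2 * q ^ (n + 1) *
        (if s * ((n : ℤ) + 1) - m = 0 then 2 * (Real.pi : ℂ) else 0))
      (∫ t in (0 : ℝ)..(2 * Real.pi),
        ((q * Complex.exp ((s : ℂ) * t * Complex.I)) *
          (1 + q * Complex.exp ((s : ℂ) * t * Complex.I)) /
          (1 - q * Complex.exp ((s : ℂ) * t * Complex.I)) ^ 3) *
          Complex.exp (-((m : ℂ) * t * Complex.I))) := by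
  have hnorm : ∀ t : ℝ, ‖q * Complex.exp ((s : ℂ) * t * Complex.I)‖ = ‖q‖ := by
    intro t
    rw [norm_mul]
    have : (s : ℂ) * t * Complex.I = (((s : ℝ) * t : ℝ) : ℂ) * Complex.I := by
      push_cast
      ring
    rw [this, Complex.norm_exp_ofReal_mul_I, mul_one]
  have hterm : ∀ n : ℕ, ∫ t in (0 : ℝ)..(2 * Real.pi), (((n : ℂ) + 1) ^ 2 *
      (q * Complex.exp ((s : ℂ) * t * Complex.I)) ^ (n + 1)) *
        Complex.exp (-((m : ℂ) * t * Complex.I)) = ((n : ℂ) + 1) ^ 2 * q ^ (n + 1) *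
        (if s * ((n : ℤ) + 1) - m = 0 then 2 * (Real.pi : ℂ) else 0) := by
    intro n
    rw [← CI1_exp_int, ← intervalIntegral.integral_const_mul]
    apply intervalIntegral.integral_congr
    intro t _
    simp only
    rw [mul_pow, ← Complex.exp_nat_mul]
    have : Complex.exp (((s * ((n : ℤ) + 1) - m : ℤ) : ℂ) * t * Complex.I) =
        Complex.exp (((n + 1 : ℕ) : ℂ) * ((s : ℂ) * t * Complex.I)) *
          Complex.exp (-((m : ℂ) * t * Complex.I)) := by
      rw [← Complex.exp_add]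
      congr 1
      push_cast
      ring
    rw [this]
    ring
  have hmain := intervalIntegral.hasSum_integral_of_dominated_convergence
    (μ := MeasureTheory.volume) (a := (0 : ℝ)) (b := 2 * Real.pi)
    (F := fun (n : ℕ) (t : ℝ) => (((n : ℂ) + 1) ^ 2 *
      (q * Complex.exp ((s : ℂ) * t * Complex.I)) ^ (n + 1)) *
        Complex.exp (-((m : ℂ) * t * Complex.I)))
    (f := fun t : ℝ => ((q * Complex.exp ((s : ℂ) * t * Complex.I)) *
          (1 + q * Complex.exp ((s : ℂ) * t * Complex.I)) /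
          (1 - q * Complex.exp ((s : ℂ) * t * Complex.I)) ^ 3) *
          Complex.exp (-((m : ℂ) * t * Complex.I)))
    (fun n _ => ((n : ℝ) + 1) ^ 2 * ‖q‖ ^ (n + 1))
    (fun n => (by fun_prop : Continuous _).aestronglyMeasurable) ?_ ?_ ?_ ?_
  · simpa only [hterm] using hmain
  · intro n
    refine Filter.Eventually.of_forall (fun t _ => ?_)
    rw [norm_mul, norm_mul, norm_pow, norm_pow, hnorm]
    have h1 : ‖Complex.exp (-((m : ℂ) * t * Complex.I))‖ = 1 := by
      have : -((m : ℂ) * t * Complex.I) = ((-(m * t) : ℝ) : ℂ) * Complex.I := by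
        push_cast
        ring
      rw [this, Complex.norm_exp_ofReal_mul_I]
    have h2 : ‖((n : ℂ) + 1)‖ = (n : ℝ) + 1 := by
      have : ((n : ℂ) + 1) = ((n + 1 : ℕ) : ℂ) := by push_cast; ring
      rw [this, Complex.norm_natCast]
      push_cast
      ring
    rw [h1, h2, mul_one]
  · refine Filter.Eventually.of_forall (fun t _ => ?_)
    have hq' : ‖((‖q‖ : ℝ) : ℂ)‖ < 1 := by
      rw [Complex.norm_real, norm_norm]
      exact hq
    have h := (CI1_hasSum ((‖q‖ : ℝ) : ℂ) hq').summable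
    have h' : Summable (fun n : ℕ => (((((n : ℝ) + 1) ^ 2 * ‖q‖ ^ (n + 1) : ℝ)) : ℂ)) := by
      refine h.congr (fun n => ?_)
      push_cast
      ring
    exact Complex.summable_ofReal.mp h'
  · exact intervalIntegrable_const
  · refine Filter.Eventually.of_forall (fun t _ => ?_)
    have h := CI1_hasSum (q * Complex.exp ((s : ℂ) * t * Complex.I)) (by rw [hnorm]; exact hq)
    exact h.mul_right _

theorem gx_fourier_in (r : ℂ) (R : ℝ) (hr : ‖r‖ < R) (m : ℕ) (hm : 1 ≤ m) :
    ∫ t in (0 : ℝ)..(2 * Real.pi), gx r (cp R t) * Complex.exp (-((m : ℂ) * t * Complex.I)) = 0 := by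
  have hR : 0 < R := lt_of_le_of_lt (norm_nonneg r) hr
  have hRc : (R : ℂ) ≠ 0 := by exact_mod_cast hR.ne'
  have hq : ‖r / (R : ℂ)‖ < 1 := by
    rw [norm_div, Complex.norm_real, Real.norm_eq_abs, abs_of_pos hR, div_lt_one hR]
    exact hr
  have h := CI1_fourier_series (r / R) hq (-1) m
  have hz : (fun n : ℕ => ((n : ℂ) + 1) ^ 2 * (r / R) ^ (n + 1) *
        (if (-1 : ℤ) * ((n : ℤ) + 1) - m = 0 then 2 * (Real.pi : ℂ) else 0)) = fun _ => 0 := by
    funext n
    rw [if_neg (by omega), mul_zero]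
  rw [hz] at h
  have h0 := h.unique hasSum_zero
  rw [← h0]
  apply intervalIntegral.integral_congr
  intro t _
  simp only
  have hX : r / cp R t = r / R * Complex.exp (((-1 : ℤ) : ℂ) * t * Complex.I) := by
    unfold cp
    have he : Complex.exp (((-1 : ℤ) : ℂ) * t * Complex.I) * Complex.exp ((t : ℂ) * Complex.I) = 1 := by
      rw [← Complex.exp_add]
      have : ((-1 : ℤ) : ℂ) * t * Complex.I + (t : ℂ) * Complex.I = 0 := by
        push_cast
        ring
      rw [this, Complex.exp_zero]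
    have hne : Complex.exp ((t : ℂ) * Complex.I) ≠ 0 := Complex.exp_ne_zero _
    rw [div_eq_iff (mul_ne_zero hRc hne)]
    calc r = r / (R : ℂ) * R * (Complex.exp (((-1 : ℤ) : ℂ) * t * Complex.I) *
          Complex.exp ((t : ℂ) * Complex.I)) := by
          rw [he, mul_one, div_mul_cancel₀ _ hRc]
      _ = _ := by ring
  unfold gx
  rw [hX]

theorem gx_fourier_out (r : ℂ) (R : ℝ) (hR : 0 < R) (hr : R < ‖r‖) (m : ℕ) (hm : 1 ≤ m) :
    ∫ t in (0 : ℝ)..(2 * Real.pi), gx r (cp R t) * Complex.exp (-((m : ℂ) * t * Complex.I)) =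
      -(2 * Real.pi * (m : ℂ) ^ 2 * ((R : ℂ) / r) ^ m) := by
  have hr0 : 0 < ‖r‖ := lt_trans hR hr
  have hrc : r ≠ 0 := norm_pos_iff.mp hr0
  have hRc : (R : ℂ) ≠ 0 := by exact_mod_cast hR.ne'
  have hq : ‖(R : ℂ) / r‖ < 1 := by
    rw [norm_div, Complex.norm_real, Real.norm_eq_abs, abs_of_pos hR, div_lt_one hr0]
    exact hr
  have h := CI1_fourier_series (R / r) hq 1 m
  obtain ⟨k, rfl⟩ : ∃ k, m = k + 1 := ⟨m - 1, by omega⟩
  have hz : HasSum (fun n : ℕ => ((n : ℂ) + 1) ^ 2 * ((R : ℂ) / r) ^ (n + 1) *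
        (if (1 : ℤ) * ((n : ℤ) + 1) - ((k + 1 : ℕ) : ℤ) = 0 then 2 * (Real.pi : ℂ) else 0))
      (((k : ℂ) + 1) ^ 2 * ((R : ℂ) / r) ^ (k + 1) * (2 * (Real.pi : ℂ))) := by
    have h1 := hasSum_single (f := fun n : ℕ => ((n : ℂ) + 1) ^ 2 * ((R : ℂ) / r) ^ (n + 1) *
        (if (1 : ℤ) * ((n : ℤ) + 1) - ((k + 1 : ℕ) : ℤ) = 0 then 2 * (Real.pi : ℂ) else 0)) k
      (by
        intro n hn
        rw [if_neg (by push_cast; omega), mul_zero])
    rw [if_pos (by push_cast; ring)] at h1
    exact h1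
  have h0 := h.unique hz
  have hI : ∫ t in (0 : ℝ)..(2 * Real.pi), gx r (cp R t) *
        Complex.exp (-(((k + 1 : ℕ) : ℂ) * t * Complex.I)) =
      -∫ t in (0 : ℝ)..(2 * Real.pi),
        (((R : ℂ) / r * Complex.exp (((1 : ℤ) : ℂ) * t * Complex.I)) *
          (1 + (R : ℂ) / r * Complex.exp (((1 : ℤ) : ℂ) * t * Complex.I)) /
          (1 - (R : ℂ) / r * Complex.exp (((1 : ℤ) : ℂ) * t * Complex.I)) ^ 3) *
          Complex.exp (-(((k + 1 : ℕ) : ℂ) * t * Complex.I)) := by
    rw [← intervalIntegral.integral_neg]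
    apply intervalIntegral.integral_congr
    intro t _
    simp only
    have hne : Complex.exp ((t : ℂ) * Complex.I) ≠ 0 := Complex.exp_ne_zero _
    have hcast : (((1 : ℤ) : ℂ) * t * Complex.I) = (t : ℂ) * Complex.I := by
      push_cast
      ring
    rw [hcast]
    have hxr : (R : ℂ) * Complex.exp ((t : ℂ) * Complex.I) ≠ r := by
      intro h
      have := congrArg norm h
      rw [norm_mul, Complex.norm_exp_ofReal_mul_I, mul_one, Complex.norm_real, Real.norm_eq_abs,
        abs_of_pos hR] at this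
      linarith
    unfold gx cp
    set x := (R : ℂ) * Complex.exp ((t : ℂ) * Complex.I) with hx
    have hx0 : x ≠ 0 := mul_ne_zero hRc hne
    have hY : (R : ℂ) / r * Complex.exp ((t : ℂ) * Complex.I) = x / r := by
      rw [hx]
      ring
    rw [hY]
    have h1 : (1 : ℂ) - r / x = (x - r) / x := by field_simp
    have h2 : (1 : ℂ) - x / r = -((x - r) / r) := by
      field_simp
      ring
    have h3 : x - r ≠ 0 := sub_ne_zero.mpr hxr
    rw [h1, h2]
    field_simp
    ring
  rw [hI, h0]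
  push_cast
  ring

theorem CI1_gx_continuous (r : ℂ) (R : ℝ) (hR : 0 < R) (hr : ‖r‖ ≠ R) :
    Continuous (fun t : ℝ => gx r (cp R t)) := by
  have hne : ∀ t : ℝ, cp R t ≠ 0 := by
    intro t h
    have := CI1_cp_norm R t hR.le
    rw [h, norm_zero] at this
    linarith
  have hne2 : ∀ t : ℝ, (1 - r / cp R t) ^ 3 ≠ 0 := by
    intro t
    apply pow_ne_zero
    intro h
    have h1 : r / cp R t = 1 := by linear_combination -h
    rw [div_eq_one_iff_eq (hne t)] at h1
    apply hr
    rw [h1, CI1_cp_norm R t hR.le]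
  unfold gx
  have hc := CI1_cp_continuous R
  have h1 : Continuous (fun t : ℝ => r / cp R t) := continuous_const.div hc hne
  exact (h1.mul (continuous_const.add h1)).div ((continuous_const.sub h1).pow 3) hne2

theorem CI1_sum_out (R : ℝ) (hR : 0 < R) (m : ℕ) (hm : 1 ≤ m) (s : Multiset ℂ)
    (hs : ∀ r ∈ s, R < ‖r‖) :
    Continuous (fun t : ℝ => (s.map (fun r => gx r (cp R t))).sum) ∧
    ∫ t in (0 : ℝ)..(2 * Real.pi), (s.map (fun r => gx r (cp R t))).sum *
        Complex.exp (-((m : ℂ) * t * Complex.I)) =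
      -(2 * Real.pi * (m : ℂ) ^ 2 * (s.map (fun r => ((R : ℂ) / r) ^ m)).sum) := by
  induction s using Multiset.induction_on with
  | empty =>
    refine ⟨?_, ?_⟩
    · simpa using continuous_const
    · simp
  | cons r s ih =>
    obtain ⟨h1, h2⟩ := ih (fun q hq => hs q (Multiset.mem_cons_of_mem hq))
    have hr : R < ‖r‖ := hs r (Multiset.mem_cons_self r s)
    have hc := CI1_gx_continuous r R hR hr.ne'
    simp only [Multiset.map_cons, Multiset.sum_cons]
    refine ⟨hc.add h1, ?_⟩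
    have he : Continuous (fun t : ℝ => Complex.exp (-((m : ℂ) * t * Complex.I))) := by fun_prop
    have h3 : ∀ t : ℝ, (gx r (cp R t) + (s.map (fun r => gx r (cp R t))).sum) *
        Complex.exp (-((m : ℂ) * t * Complex.I)) =
        gx r (cp R t) * Complex.exp (-((m : ℂ) * t * Complex.I)) +
          (s.map (fun r => gx r (cp R t))).sum * Complex.exp (-((m : ℂ) * t * Complex.I)) := by
      intro t
      ring
    simp only [h3]
    have k1 : Continuous (fun t : ℝ => gx r (cp R t) *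
        Complex.exp (-((m : ℂ) * t * Complex.I))) := hc.mul he
    have k2 : Continuous (fun t : ℝ => (s.map (fun r => gx r (cp R t))).sum *
        Complex.exp (-((m : ℂ) * t * Complex.I))) := h1.mul he
    rw [intervalIntegral.integral_add (k1.intervalIntegrable _ _)
      (k2.intervalIntegrable _ _), h2, gx_fourier_out r R hR hr m hm]
    ring

open Classical in
theorem CI1_split (P : Polynomial ℂ) (R : ℝ) (hne : ∀ x : ℂ, ‖x‖ = R → P.eval x ≠ 0)
    (hP0 : P ≠ 0) (hc : cnt P R = 1) :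
    ∃ (r0 : ℂ) (s : Multiset ℂ), P.roots = r0 ::ₘ s ∧ ‖r0‖ < R ∧ ∀ r ∈ s, R < ‖r‖ := by
  unfold cnt at hc
  obtain ⟨r0, hr0⟩ := Multiset.card_eq_one.mp hc
  have hmem : r0 ∈ P.roots.filter (fun r => ‖r‖ < R) := by
    rw [hr0]
    exact Multiset.mem_singleton_self r0
  have hsplit := Multiset.filter_add_not (fun r : ℂ => ‖r‖ < R) P.roots
  refine ⟨r0, P.roots.filter (fun r => ¬ ‖r‖ < R), ?_, (Multiset.mem_filter.mp hmem).2, ?_⟩
  · rw [← Multiset.singleton_add, ← hr0]
    exact hsplit.symm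
  · intro r hr
    have h1 := Multiset.mem_filter.mp hr
    have h2 : P.eval r = 0 := (Polynomial.mem_roots hP0).mp h1.1
    rcases lt_or_eq_of_le (not_lt.mp h1.2) with h3 | h3
    · exact h3
    · exact absurd h2 (hne r h3.symm)

theorem CI1 (P : Polynomial ℂ) (hP0 : P.coeff 0 ≠ 0) (R : ℝ) (hR : 0 < R)
    (hne : ∀ x : ℂ, ‖x‖ = R → P.eval x ≠ 0) (hc : cnt P R = 1) (ρ : ℂ) (hρ : ‖ρ‖ < R) :
    ∃ z : ℂ, 1 / R < ‖z‖ ∧ ∀ m : ℕ, 1 ≤ m → ‖psz P m - z ^ m‖ ≤ (1 / R) ^ m / (m : ℝ) ^ 2 *
      ((1 / (2 * Real.pi)) * ∫ t in (0 : ℝ)..(2 * Real.pi), ‖H3 P (cp R t) - gx ρ (cp R t)‖) := by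
  have hPne : P ≠ 0 := by
    intro h
    rw [h] at hP0
    simp at hP0
  obtain ⟨r0, s, hroots, hr0, hs⟩ := CI1_split P R hne hPne hc
  have hr00 : r0 ≠ 0 := by
    intro h
    have h1 : r0 ∈ P.roots := by
      rw [hroots]
      exact Multiset.mem_cons_self r0 s
    have h2 : P.eval r0 = 0 := (Polynomial.mem_roots hPne).mp h1
    rw [h, ← Polynomial.coeff_zero_eq_eval_zero] at h2
    exact hP0 h2
  have hr0n : 0 < ‖r0‖ := norm_pos_iff.mpr hr00
  refine ⟨(-r0)⁻¹, ?_, ?_⟩
  · rw [norm_inv, norm_neg, one_div]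
    exact inv_strictAnti₀ hr0n hr0
  · intro m hm
    have hmpos : (0 : ℝ) < m := by exact_mod_cast hm
    have hpi := Real.pi_pos
    have hRc : (R : ℂ) ≠ 0 := by exact_mod_cast hR.ne'
    -- the sum over the outer roots
    have hpsz : psz P m - ((-r0)⁻¹) ^ m =
        ((-1) ^ m / (R : ℂ) ^ m) * (s.map (fun r => ((R : ℂ) / r) ^ m)).sum := by
      unfold psz
      rw [hroots, Multiset.map_cons, Multiset.sum_cons, add_sub_cancel_left,
        ← Multiset.sum_map_mul_left]
      congr 1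
      apply Multiset.map_congr rfl
      intro r hr
      have hrne : r ≠ 0 := by
        have := hs r hr
        exact norm_pos_iff.mp (lt_trans hR this)
      rw [inv_pow, neg_pow, div_pow, mul_inv]
      have h1 : ((-1 : ℂ) ^ m)⁻¹ = (-1) ^ m := by
        rw [← inv_pow]
        norm_num
      rw [h1]
      field_simp
    obtain ⟨hcont, hint⟩ := CI1_sum_out R hR m hm s hs
    have hc0 := CI1_gx_continuous r0 R hR hr0.ne
    have hcρ := CI1_gx_continuous ρ R hR hρ.ne
    have he : Continuous (fun t : ℝ => Complex.exp (-((m : ℂ) * t * Complex.I))) := by fun_prop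
    have hH : ∀ t : ℝ, H3 P (cp R t) = gx r0 (cp R t) + (s.map (fun r => gx r (cp R t))).sum := by
      intro t
      have hn := CI1_cp_norm R t hR.le
      have hx0 : cp R t ≠ 0 := by
        intro h
        rw [h, norm_zero] at hn
        linarith
      rw [H3_eq_sum P (cp R t) (hne _ hn) hx0, hroots, Multiset.map_cons, Multiset.sum_cons]
    have hint2 : ∫ t in (0 : ℝ)..(2 * Real.pi), (H3 P (cp R t) - gx ρ (cp R t)) *
        Complex.exp (-((m : ℂ) * t * Complex.I)) =
        -(2 * Real.pi * (m : ℂ) ^ 2 * (s.map (fun r => ((R : ℂ) / r) ^ m)).sum) := by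
      have h3 : ∀ t : ℝ, (H3 P (cp R t) - gx ρ (cp R t)) *
          Complex.exp (-((m : ℂ) * t * Complex.I)) =
          (gx r0 (cp R t) * Complex.exp (-((m : ℂ) * t * Complex.I)) +
            (s.map (fun r => gx r (cp R t))).sum * Complex.exp (-((m : ℂ) * t * Complex.I))) -
            gx ρ (cp R t) * Complex.exp (-((m : ℂ) * t * Complex.I)) := by
        intro t
        rw [hH]
        ring
      simp only [h3]
      have k1 : Continuous (fun t : ℝ => gx r0 (cp R t) *
          Complex.exp (-((m : ℂ) * t * Complex.I))) := hc0.mul he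
      have k2 : Continuous (fun t : ℝ => (s.map (fun r => gx r (cp R t))).sum *
          Complex.exp (-((m : ℂ) * t * Complex.I))) := hcont.mul he
      have k3 : Continuous (fun t : ℝ => gx ρ (cp R t) *
          Complex.exp (-((m : ℂ) * t * Complex.I))) := hcρ.mul he
      have k4 : Continuous (fun t : ℝ => gx r0 (cp R t) *
          Complex.exp (-((m : ℂ) * t * Complex.I)) + (s.map (fun r => gx r (cp R t))).sum *
          Complex.exp (-((m : ℂ) * t * Complex.I))) := k1.add k2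
      rw [intervalIntegral.integral_sub (k4.intervalIntegrable _ _)
          (k3.intervalIntegrable _ _),
        intervalIntegral.integral_add (k1.intervalIntegrable _ _)
          (k2.intervalIntegrable _ _), hint,
        gx_fourier_in r0 R hr0 m hm, gx_fourier_in ρ R hρ m hm]
      ring
    have hnorm : ‖∫ t in (0 : ℝ)..(2 * Real.pi), (H3 P (cp R t) - gx ρ (cp R t)) *
        Complex.exp (-((m : ℂ) * t * Complex.I))‖ ≤
        ∫ t in (0 : ℝ)..(2 * Real.pi), ‖H3 P (cp R t) - gx ρ (cp R t)‖ := by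
      refine le_trans (intervalIntegral.norm_integral_le_integral_norm (by positivity)) ?_
      apply le_of_eq
      apply intervalIntegral.integral_congr
      intro t _
      simp only
      rw [norm_mul]
      have : -((m : ℂ) * t * Complex.I) = ((-(m * t) : ℝ) : ℂ) * Complex.I := by
        push_cast
        ring
      rw [this, Complex.norm_exp_ofReal_mul_I, mul_one]
    rw [hint2, norm_neg] at hnorm
    have hn1 : ‖2 * (Real.pi : ℂ) * (m : ℂ) ^ 2 * (s.map (fun r => ((R : ℂ) / r) ^ m)).sum‖ =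
        2 * Real.pi * (m : ℝ) ^ 2 * ‖(s.map (fun r => ((R : ℂ) / r) ^ m)).sum‖ := by
      rw [norm_mul, norm_mul, norm_mul, norm_pow, Complex.norm_natCast, Complex.norm_real,
        Real.norm_eq_abs, abs_of_pos hpi]
      norm_num
    rw [hn1] at hnorm
    rw [hpsz, norm_mul, norm_div, norm_pow, norm_pow, norm_neg, norm_one, one_pow,
      Complex.norm_real, Real.norm_eq_abs, abs_of_pos hR]
    have hRm : 0 < R ^ m := pow_pos hR m
    have hm2 : (0 : ℝ) < (m : ℝ) ^ 2 := pow_pos hmpos 2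
    have hS : ‖(s.map (fun r => ((R : ℂ) / r) ^ m)).sum‖ ≤
        (∫ t in (0 : ℝ)..(2 * Real.pi), ‖H3 P (cp R t) - gx ρ (cp R t)‖) /
          (2 * Real.pi * (m : ℝ) ^ 2) := by
      rw [le_div_iff₀ (by positivity)]
      linarith [hnorm]
    calc 1 / R ^ m * ‖(s.map (fun r => ((R : ℂ) / r) ^ m)).sum‖
        ≤ 1 / R ^ m * ((∫ t in (0 : ℝ)..(2 * Real.pi), ‖H3 P (cp R t) - gx ρ (cp R t)‖) /
          (2 * Real.pi * (m : ℝ) ^ 2)) := mul_le_mul_of_nonneg_left hS (by positivity)
      _ = _ := by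
        rw [one_div_pow]
        field_simp

end MP_d1b55a
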