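import Pool.Agent.Lib.MP_d1b55a_co.CDefs

/-!
CI1a. The third logarithmic derivative of a polynomial is the sum of the terms of the roots.
`H3 (P Q) = H3 P + H3 Q` and `H3 (X - C r) = gx r`; induction over the multiset of the roots.
-/

open Finset

namespace MP_d1b55a

theorem CI1a_Dx_mul (P Q : Polynomial ℂ) : Dx (P * Q) = Dx P * Q + P * Dx Q := by
  unfold Dx
  rw [Polynomial.derivative_mul]
  ring

theorem CI1a_Dx_add (P Q : Polynomial ℂ) : Dx (P + Q) = Dx P + Dx Q := by
  unfold Dx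
  rw [Polynomial.derivative_add]
  ring

theorem CI1a_Dx_C (a : ℂ) : Dx (Polynomial.C a) = 0 := by
  unfold Dx
  simp

theorem CI1a_Dx_zero : Dx (0 : Polynomial ℂ) = 0 := by
  unfold Dx
  simp

theorem CI1a_Dx_X : Dx (Polynomial.X : Polynomial ℂ) = Polynomial.X := by
  unfold Dx
  simp

theorem CI1a_Dx_X_sub_C (r : ℂ) : Dx (Polynomial.X - Polynomial.C r) = Polynomial.X := by
  unfold Dx
  simp

theorem CI1a_H3_mul (P Q : Polynomial ℂ) (x : ℂ) (hP : P.eval x ≠ 0) (hQ : Q.eval x ≠ 0) :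
    H3 (P * Q) x = H3 P x + H3 Q x := by
  unfold H3
  simp only [CI1a_Dx_mul, CI1a_Dx_add, Polynomial.eval_add, Polynomial.eval_mul]
  field_simp
  ring

theorem CI1a_H3_C (a x : ℂ) : H3 (Polynomial.C a) x = 0 := by
  unfold H3
  simp [CI1a_Dx_C, CI1a_Dx_zero]

theorem CI1a_H3_X_sub_C (r x : ℂ) (hx0 : x ≠ 0) (hxr : x ≠ r) :
    H3 (Polynomial.X - Polynomial.C r) x = gx r x := by
  have h1 : x - r ≠ 0 := sub_ne_zero.mpr hxr
  have h2 : 1 - r / x ≠ 0 := by
    intro h
    have h' : r / x = 1 := by linear_combination -h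
    rw [div_eq_one_iff_eq hx0] at h'
    exact h1 (by rw [h']; ring)
  unfold H3 gx
  simp only [CI1a_Dx_X_sub_C, CI1a_Dx_X, Polynomial.eval_sub, Polynomial.eval_X,
    Polynomial.eval_C]
  have h3 : 1 - r / x = (x - r) / x := by field_simp
  rw [h3]
  field_simp
  ring

theorem CI1a_multiset (x : ℂ) (hx0 : x ≠ 0) (s : Multiset ℂ) (hs : ∀ r ∈ s, x ≠ r) :
    ((s.map (fun r => Polynomial.X - Polynomial.C r)).prod).eval x ≠ 0 ∧
      H3 ((s.map (fun r => Polynomial.X - Polynomial.C r)).prod) x =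
        (s.map (fun r => gx r x)).sum := by
  induction s using Multiset.induction_on with
  | empty =>
    refine ⟨by simp, ?_⟩
    have h := CI1a_H3_C 1 x
    simpa using h
  | cons r s ih =>
    obtain ⟨h1, h2⟩ := ih (fun q hq => hs q (Multiset.mem_cons_of_mem hq))
    have hr : x ≠ r := hs r (Multiset.mem_cons_self r s)
    have h3 : (Polynomial.X - Polynomial.C r).eval x ≠ 0 := by
      rw [Polynomial.eval_sub, Polynomial.eval_X, Polynomial.eval_C]
      exact sub_ne_zero.mpr hr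
    rw [Multiset.map_cons, Multiset.prod_cons, Multiset.map_cons, Multiset.sum_cons]
    refine ⟨?_, ?_⟩
    · rw [Polynomial.eval_mul]
      exact mul_ne_zero h3 h1
    · rw [CI1a_H3_mul _ _ x h3 h1, h2, CI1a_H3_X_sub_C r x hx0 hr]

theorem H3_eq_sum (P : Polynomial ℂ) (x : ℂ) (hx : P.eval x ≠ 0) (hx0 : x ≠ 0) :
    H3 P x = (P.roots.map (fun r => gx r x)).sum := by
  have hP0 : P ≠ 0 := by
    intro h
    rw [h] at hx
    simp at hx
  have hlc : P.leadingCoeff ≠ 0 := Polynomial.leadingCoeff_ne_zero.mpr hP0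
  have hroots : ∀ r ∈ P.roots, x ≠ r := by
    intro r hr hxr
    rw [Polynomial.mem_roots hP0] at hr
    apply hx
    rw [hxr]
    exact hr
  obtain ⟨h1, h2⟩ := CI1a_multiset x hx0 P.roots hroots
  have hfac : P = Polynomial.C P.leadingCoeff *
      (P.roots.map (fun r => Polynomial.X - Polynomial.C r)).prod :=
    (IsAlgClosed.splits P).eq_prod_roots
  have hC : (Polynomial.C P.leadingCoeff).eval x ≠ 0 := by
    rw [Polynomial.eval_C]
    exact hlc
  have h4 : H3 P x = H3 (Polynomial.C P.leadingCoeff *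
      (P.roots.map (fun r => Polynomial.X - Polynomial.C r)).prod) x := congrArg (fun Q => H3 Q x) hfac
  rw [h4, CI1a_H3_mul _ _ x hC h1, CI1a_H3_C, zero_add, h2]

end MP_d1b55a
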