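import Pool.Agent.Lib.MP_d1b55a_co.CI2a

/-!
CI2. The limit M → ∞ on the circle. On the circle |x| = Rc ε we have FD 0 ≠ 0, hence |FD 0| ≥ c > 0, and the polynomials converge
uniformly; H3 (FM ..) is bounded there and converges pointwise to the same expression with FD j, which is I/ε⁶ H2 ε (Bs s) at the
point xB ε (Bs s); dominated convergence and the substitution `CI2a_subst`.
-/

open Finset

namespace MP_d1b55a

theorem CI2_norm_yy (θ : ℝ) : ‖yy θ‖ = 1 := by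
  unfold yy
  exact Complex.norm_exp_ofReal_mul_I θ

theorem CI2_Rc_pos (ε : ℝ) (h0 : 0 < ε) : 0 < Rc ε := by
  unfold Rc
  positivity

/-- pointwise convergence -/
theorem CI2_tendsto (j : ℕ) (y x : ℂ) (hy : ‖y‖ ≤ 1) :
    Filter.Tendsto (fun M : ℕ => (Dx^[j] (FM y M)).eval x) Filter.atTop (nhds (FD j y x)) := by
  rw [Metric.tendsto_atTop]
  intro δ hδ
  obtain ⟨M0, hM0⟩ := FM_approx j ‖x‖ (δ / 2) (norm_nonneg x) (by positivity)
  refine ⟨M0, fun M hM => ?_⟩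
  rw [dist_comm, dist_eq_norm]
  exact (hM0 M hM y x hy le_rfl).trans_lt (by linarith)

/-- continuity on balls -/
theorem CI2_continuous (j : ℕ) (y : ℂ) (hy : ‖y‖ ≤ 1) (R : ℝ) (hR : 0 ≤ R) :
    ContinuousOn (FD j y) (Metric.closedBall 0 R) := by
  have h1 : TendstoUniformlyOn (fun (M : ℕ) (x : ℂ) => (Dx^[j] (FM y M)).eval x) (FD j y)
      Filter.atTop (Metric.closedBall 0 R) := by
    rw [Metric.tendstoUniformlyOn_iff]
    intro δ hδ
    obtain ⟨M0, hM0⟩ := FM_approx j R (δ / 2) hR (by positivity)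
    filter_upwards [Filter.eventually_ge_atTop M0] with M hM x hx
    rw [dist_eq_norm]
    exact (hM0 M hM y x hy (by simpa using hx)).trans_lt (by linarith)
  exact h1.continuousOn (Filter.Eventually.of_forall (fun M => (Polynomial.continuous _).continuousOn)).frequently

theorem CI2_bound (c K : ℝ) (hc : 0 < c) (hK : 0 ≤ K) (p0 p1 p2 p3 : ℂ) (h0 : c ≤ ‖p0‖)
    (h1 : ‖p1‖ ≤ K) (h2 : ‖p2‖ ≤ K) (h3 : ‖p3‖ ≤ K) :
    ‖p3 / p0 - 3 * p2 * p1 / p0 ^ 2 + 2 * (p1 / p0) ^ 3‖ ≤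
      K / c + 3 * K * K / c ^ 2 + 2 * (K / c) ^ 3 := by
  have e1 : ‖p3 / p0‖ ≤ K / c := by
    rw [norm_div]
    exact div_le_div₀ hK h3 hc h0
  have e2 : ‖3 * p2 * p1 / p0 ^ 2‖ ≤ 3 * K * K / c ^ 2 := by
    rw [norm_div, norm_mul, norm_mul, norm_pow]
    have : ‖(3 : ℂ)‖ = 3 := by simp
    rw [this]
    refine div_le_div₀ (by positivity) ?_ (by positivity) (pow_le_pow_left₀ hc.le h0 2)
    exact mul_le_mul (mul_le_mul_of_nonneg_left h2 (by norm_num)) h1 (norm_nonneg _) (by positivity)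
  have e3 : ‖2 * (p1 / p0) ^ 3‖ ≤ 2 * (K / c) ^ 3 := by
    rw [norm_mul, norm_pow, norm_div]
    have : ‖(2 : ℂ)‖ = 2 := by simp
    rw [this]
    refine mul_le_mul_of_nonneg_left (pow_le_pow_left₀ (by positivity) ?_ 3) (by norm_num)
    exact div_le_div₀ hK h1 hc h0
  refine (norm_add_le _ _).trans (add_le_add ((norm_sub_le _ _).trans (add_le_add e1 e2)) e3)

theorem CI2 (ε : ℝ) (h0 : 0 < ε) (h1 : ε ^ 3 ≤ 3 / 1000)
    (hne : ∀ s : ℝ, |s| ≤ Real.pi / ε ^ 2 → Asum ε 0 (Bs s) ≠ 0) (C : ℝ)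
    (hC : (∫ s in (-(Real.pi / ε ^ 2))..(Real.pi / ε ^ 2),
      ‖Complex.I * H2 ε (Bs s) - gpole ε (Bs s)‖) < C) :
    ∃ M0 : ℕ, ∀ M : ℕ, M0 ≤ M →
      (∀ x : ℂ, ‖x‖ = Rc ε → (FM (yy (ε ^ 3)) M).eval x ≠ 0) ∧
      (∫ t in (0 : ℝ)..(2 * Real.pi), ‖H3 (FM (yy (ε ^ 3)) M) (cp (Rc ε) t) -
        gx (xB ε (Bz ε)) (cp (Rc ε) t)‖) ≤ C / ε ^ 4 := by
  have hpi : ε ^ 3 ≤ Real.pi := h1.trans (by linarith [Real.pi_gt_three])
  set y : ℂ := yy (ε ^ 3) with hy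
  have hy1 : ‖y‖ ≤ 1 := (CI2_norm_yy _).le
  set R : ℝ := Rc ε with hR
  have hR0 : 0 < R := CI2_Rc_pos ε h0
  have hcp : ∀ t : ℝ, ‖cp R t‖ = R := by
    intro t
    unfold cp
    rw [norm_mul, Complex.norm_exp_ofReal_mul_I, mul_one, Complex.norm_real, Real.norm_of_nonneg hR0.le]
  have hcpc : Continuous (cp R) := by
    unfold cp
    fun_prop
  -- nonvanishing on the circle
  have hF0 : ∀ x : ℂ, ‖x‖ = R → FD 0 y x ≠ 0 := by
    intro x hx
    obtain ⟨s, hs, rfl⟩ := exists_xB ε h0 x hx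
    exact FD_ne_zero ε h0 hpi _ (hne s hs)
  have hsub : Metric.sphere (0 : ℂ) R ⊆ Metric.closedBall 0 R := Metric.sphere_subset_closedBall
  have hcont : ∀ j, ContinuousOn (FD j y) (Metric.sphere 0 R) := fun j =>
    (CI2_continuous j y hy1 R hR0.le).mono hsub
  have hcomp : IsCompact (Metric.sphere (0 : ℂ) R) := isCompact_sphere 0 R
  have hnonempty : (Metric.sphere (0 : ℂ) R).Nonempty := ⟨cp R 0, by simp [hcp]⟩
  obtain ⟨x0, hx0, hmin⟩ := hcomp.exists_isMinOn hnonempty (hcont 0).norm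
  set c : ℝ := ‖FD 0 y x0‖ with hc
  have hc0 : 0 < c := norm_pos_iff.2 (hF0 x0 (by simpa using hx0))
  have hcle : ∀ x : ℂ, ‖x‖ = R → c ≤ ‖FD 0 y x‖ := fun x hx =>
    hmin (show x ∈ Metric.sphere (0 : ℂ) R by simpa using hx)
  have hbd : ∀ j : ℕ, ∃ K : ℝ, 0 ≤ K ∧ ∀ x : ℂ, ‖x‖ = R → ‖FD j y x‖ ≤ K := by
    intro j
    obtain ⟨K, hK⟩ := hcomp.exists_bound_of_continuousOn (hcont j)
    refine ⟨|K|, abs_nonneg K, fun x hx => (hK x (by simpa using hx)).trans (le_abs_self K)⟩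
  obtain ⟨K1, hK1, hb1⟩ := hbd 1
  obtain ⟨K2, hK2, hb2⟩ := hbd 2
  obtain ⟨K3, hK3, hb3⟩ := hbd 3
  obtain ⟨N0, hN0⟩ := FM_approx 0 R (c / 2) hR0.le (by positivity)
  obtain ⟨N1, hN1⟩ := FM_approx 1 R 1 hR0.le one_pos
  obtain ⟨N2, hN2⟩ := FM_approx 2 R 1 hR0.le one_pos
  obtain ⟨N3, hN3⟩ := FM_approx 3 R 1 hR0.le one_pos
  set K : ℝ := K1 + K2 + K3 + 1 with hKdef
  set N : ℕ := N0 + N1 + N2 + N3 with hN
  have hlow : ∀ M : ℕ, N ≤ M → ∀ x : ℂ, ‖x‖ = R → c / 2 ≤ ‖(FM y M).eval x‖ := by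
    intro M hM x hx
    have h2 := hN0 M (by omega) y x hy1 hx.le
    rw [Function.iterate_zero, id_eq] at h2
    have h3 := hcle x hx
    have h4 : ‖FD 0 y x‖ ≤ ‖FD 0 y x - (FM y M).eval x‖ + ‖(FM y M).eval x‖ := by
      have := norm_add_le (FD 0 y x - (FM y M).eval x) ((FM y M).eval x)
      rwa [sub_add_cancel] at this
    linarith
  have hup : ∀ j : ℕ, ∀ Kj : ℝ, Kj + 1 ≤ K → (∀ x : ℂ, ‖x‖ = R → ‖FD j y x‖ ≤ Kj) → ∀ M : ℕ,
      (∀ x : ℂ, ‖x‖ ≤ R → ‖FD j y x - (Dx^[j] (FM y M)).eval x‖ ≤ 1) →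
      ∀ x : ℂ, ‖x‖ = R → ‖(Dx^[j] (FM y M)).eval x‖ ≤ K := by
    intro j Kj hKj hb M hM x hx
    have h2 := hM x hx.le
    have h3 := hb x hx
    have h4 : ‖(Dx^[j] (FM y M)).eval x‖ ≤ ‖FD j y x‖ + ‖FD j y x - (Dx^[j] (FM y M)).eval x‖ := by
      have := norm_sub_le (FD j y x) (FD j y x - (Dx^[j] (FM y M)).eval x)
      rwa [sub_sub_cancel] at this
    linarith
  have hup1 : ∀ M : ℕ, N ≤ M → ∀ x : ℂ, ‖x‖ = R → ‖(Dx (FM y M)).eval x‖ ≤ K := fun M hM =>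
    hup 1 K1 (by rw [hKdef]; linarith) hb1 M (fun x hx => hN1 M (by omega) y x hy1 hx)
  have hup2 : ∀ M : ℕ, N ≤ M → ∀ x : ℂ, ‖x‖ = R → ‖(Dx (Dx (FM y M))).eval x‖ ≤ K := fun M hM =>
    hup 2 K2 (by rw [hKdef]; linarith) hb2 M (fun x hx => hN2 M (by omega) y x hy1 hx)
  have hup3 : ∀ M : ℕ, N ≤ M → ∀ x : ℂ, ‖x‖ = R → ‖(Dx (Dx (Dx (FM y M)))).eval x‖ ≤ K := fun M hM =>
    hup 3 K3 (by rw [hKdef]; linarith) hb3 M (fun x hx => hN3 M (by omega) y x hy1 hx)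
  have hK0 : 0 ≤ K := by rw [hKdef]; positivity
  set ρ : ℂ := xB ε (Bz ε) with hρ
  have hρR : ‖ρ‖ < R := rho_lt ε h0
  -- the function gx on the circle
  have hgx : Continuous fun t : ℝ => gx ρ (cp R t) := by
    have hn : ∀ t : ℝ, cp R t ≠ 0 := fun t h => by
      have := hcp t
      rw [h, norm_zero] at this
      linarith
    have hq : Continuous fun t : ℝ => ρ / cp R t := continuous_const.div hcpc hn
    have hd : ∀ t : ℝ, (1 - ρ / cp R t) ^ 3 ≠ 0 := by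
      intro t
      refine pow_ne_zero 3 (fun h => ?_)
      have h2 : ρ / cp R t = 1 := by linear_combination -h
      have h3 : ‖ρ / cp R t‖ < 1 := by
        rw [norm_div, hcp, div_lt_one hR0]
        exact hρR
      rw [h2, norm_one] at h3
      exact lt_irrefl _ h3
    unfold gx
    exact (hq.mul (continuous_const.add hq)).div ((continuous_const.sub hq).pow 3) hd
  -- the limit function
  set L : ℂ → ℂ := fun x => FD 3 y x / FD 0 y x - 3 * FD 2 y x * FD 1 y x / FD 0 y x ^ 2 +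
    2 * (FD 1 y x / FD 0 y x) ^ 3 with hL
  have hlim : ∀ x : ℂ, ‖x‖ = R →
      Filter.Tendsto (fun M : ℕ => H3 (FM y M) x) Filter.atTop (nhds (L x)) := by
    intro x hx
    have t0 := CI2_tendsto 0 y x hy1
    have t1 := CI2_tendsto 1 y x hy1
    have t2 := CI2_tendsto 2 y x hy1
    have t3 := CI2_tendsto 3 y x hy1
    have hne0 := hF0 x hx
    exact ((t3.div t0 hne0).sub (((t2.const_mul 3).mul t1).div (t0.pow 2) (pow_ne_zero 2 hne0))).add
      (((t1.div t0 hne0).pow 3).const_mul 2)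
  have hmeas : ∀ M : ℕ, Continuous fun t : ℝ => (Dx (Dx (Dx (FM y M)))).eval (cp R t) := fun M =>
    (Polynomial.continuous _).comp hcpc
  have hH3meas : ∀ M : ℕ, Measurable fun t : ℝ => H3 (FM y M) (cp R t) := by
    intro M
    have m0 : Measurable fun t : ℝ => (FM y M).eval (cp R t) := ((Polynomial.continuous _).comp hcpc).measurable
    have m1 : Measurable fun t : ℝ => (Dx (FM y M)).eval (cp R t) := ((Polynomial.continuous _).comp hcpc).measurable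
    have m2 : Measurable fun t : ℝ => (Dx (Dx (FM y M))).eval (cp R t) := ((Polynomial.continuous _).comp hcpc).measurable
    have m3 : Measurable fun t : ℝ => (Dx (Dx (Dx (FM y M)))).eval (cp R t) := ((Polynomial.continuous _).comp hcpc).measurable
    unfold H3
    exact ((m3.div m0).sub (((m2.const_mul 3).mul m1).div (m0.pow_const 2))).add
      (((m1.div m0).pow_const 3).const_mul 2)
  set BB : ℝ := K / (c / 2) + 3 * K * K / (c / 2) ^ 2 + 2 * (K / (c / 2)) ^ 3 with hBB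
  have htend : Filter.Tendsto (fun M : ℕ => ∫ t in (0 : ℝ)..(2 * Real.pi),
      ‖H3 (FM y M) (cp R t) - gx ρ (cp R t)‖) Filter.atTop
      (nhds (∫ t in (0 : ℝ)..(2 * Real.pi), ‖L (cp R t) - gx ρ (cp R t)‖)) := by
    refine intervalIntegral.tendsto_integral_filter_of_dominated_convergence
      (fun t => BB + ‖gx ρ (cp R t)‖) ?_ ?_ ?_ ?_
    · exact Filter.Eventually.of_forall (fun M =>
        ((hH3meas M).sub hgx.measurable).norm.aestronglyMeasurable)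
    · filter_upwards [Filter.eventually_ge_atTop N] with M hM
      refine MeasureTheory.ae_of_all _ (fun t _ => ?_)
      rw [norm_norm]
      refine (norm_sub_le _ _).trans (add_le_add ?_ le_rfl)
      exact CI2_bound (c / 2) K (by positivity) hK0 _ _ _ _ (hlow M hM _ (hcp t))
        (hup1 M hM _ (hcp t)) (hup2 M hM _ (hcp t)) (hup3 M hM _ (hcp t))
    · exact (continuous_const.add hgx.norm).intervalIntegrable _ _
    · exact MeasureTheory.ae_of_all _ (fun t _ => ((hlim _ (hcp t)).sub_const _).norm)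
  have hval : (∫ t in (0 : ℝ)..(2 * Real.pi), ‖L (cp R t) - gx ρ (cp R t)‖) < C / ε ^ 4 := by
    have hs := CI2a_subst ε h0 (fun x => ‖L x - gx ρ x‖)
    rw [← hR] at hs
    rw [hs]
    have hi : (∫ s in (-(Real.pi / ε ^ 2))..(Real.pi / ε ^ 2),
        ‖L (xB ε (Bs s)) - gx ρ (xB ε (Bs s))‖) =
        (1 / ε ^ 6) * ∫ s in (-(Real.pi / ε ^ 2))..(Real.pi / ε ^ 2),
          ‖Complex.I * H2 ε (Bs s) - gpole ε (Bs s)‖ := by
      rw [← intervalIntegral.integral_const_mul]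
      refine intervalIntegral.integral_congr (fun s hs => ?_)
      have hp : 0 ≤ Real.pi / ε ^ 2 := by positivity
      rw [Set.uIcc_of_le (by linarith)] at hs
      have hs' : |s| ≤ Real.pi / ε ^ 2 := abs_le.2 hs
      have e1 : L (xB ε (Bs s)) = Complex.I / ((ε ^ 6 : ℝ) : ℂ) * H2 ε (Bs s) :=
        FD_log ε h0 hpi (Bs s) (hne s hs')
      have e2 : gx ρ (xB ε (Bs s)) = gpole ε (Bs s) / ((ε ^ 6 : ℝ) : ℂ) := gx_gpole ε h0 (Bs s)
      simp only [e1, e2]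
      have e3 : Complex.I / ((ε ^ 6 : ℝ) : ℂ) * H2 ε (Bs s) - gpole ε (Bs s) / ((ε ^ 6 : ℝ) : ℂ) =
          (Complex.I * H2 ε (Bs s) - gpole ε (Bs s)) / ((ε ^ 6 : ℝ) : ℂ) := by ring
      rw [e3, norm_div, Complex.norm_real, Real.norm_of_nonneg (by positivity)]
      ring
    rw [hi]
    have e4 : ε ^ 2 * (1 / ε ^ 6 * ∫ s in (-(Real.pi / ε ^ 2))..(Real.pi / ε ^ 2),
        ‖Complex.I * H2 ε (Bs s) - gpole ε (Bs s)‖) =
        (∫ s in (-(Real.pi / ε ^ 2))..(Real.pi / ε ^ 2),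
        ‖Complex.I * H2 ε (Bs s) - gpole ε (Bs s)‖) / ε ^ 4 := by
      field_simp
    rw [e4]
    exact div_lt_div_of_pos_right hC (by positivity)
  have hev := htend.eventually (gt_mem_nhds hval)
  obtain ⟨N', hN'⟩ := Filter.eventually_atTop.1 hev
  refine ⟨max N N', fun M hM => ⟨fun x hx h => ?_, (hN' M ((le_max_right _ _).trans hM)).le⟩⟩
  have := hlow M ((le_max_left _ _).trans hM) x hx
  rw [h, norm_zero] at this
  linarith

end MP_d1b55a
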