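import Pool.Agent.Lib.MP_d1b55a_co.FDefs

/-!
FS. Convergence and derivatives of the sums. ε > 0 fixed. With a_n = |sinc x_n|^(n-1):
|S_n| ≤ a_n, |K_n| ≤ 3 a_n (|sinc x| ≤ 1, |sinc x| |x| ≤ 1), 0 ≤ G_n ≤ 1 (n! ≥ (n/e)^n), and
a_n e^{ρ w_n} is eventually at most a geometric sequence, so everything converges
super-exponentially, locally uniformly in B; termwise derivative
(hasDerivAt_tsum_of_isPreconnected).
`Asum_far`: e^{(5/4+is) w} = e^{1.27 w} (qs)^n, w = n ε².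
Conjugation: Asum (conj B) = conj (Asum B).
-/

open Finset

namespace MP_d1b55a

theorem Gn_nonneg (n : ℕ) : 0 ≤ Gn n := by
  unfold Gn
  positivity

theorem Gn_le_one (n : ℕ) : Gn n ≤ 1 := by
  unfold Gn
  have h := Real.pow_div_factorial_le_exp (n : ℝ) (Nat.cast_nonneg n) n
  calc (n : ℝ) ^ n * Real.exp (-(n : ℝ)) / n.factorial
      = (n : ℝ) ^ n / n.factorial * Real.exp (-(n : ℝ)) := by ring
    _ ≤ Real.exp (n : ℝ) * Real.exp (-(n : ℝ)) :=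
        mul_le_mul_of_nonneg_right h (Real.exp_pos _).le
    _ = 1 := by rw [← Real.exp_add]; simp

theorem fs_wn_nonneg (ε : ℝ) (n : ℕ) : 0 ≤ wn ε n := by
  unfold wn
  positivity

theorem fs_sinc_mul_abs (x : ℝ) : |Real.sinc x| * |x| ≤ 1 := by
  by_cases hx : x = 0
  · simp [hx]
  · rw [Real.sinc_of_ne_zero hx, abs_div, div_mul_cancel₀ _ (abs_pos.2 hx).ne']
    exact Real.abs_sin_le_one x

/-- the dominating sequence -/
noncomputable def fs_a (ε : ℝ) (n : ℕ) : ℝ := |Real.sinc (xn ε n)| ^ (n - 1)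

theorem fs_a_nonneg (ε : ℝ) (n : ℕ) : 0 ≤ fs_a ε n := by
  unfold fs_a
  positivity

theorem fs_Sn_le (ε : ℝ) (n : ℕ) : |Sn ε n| ≤ fs_a ε n := by
  unfold Sn fs_a
  rw [abs_pow]
  exact pow_le_pow_of_le_one (abs_nonneg _) (Real.abs_sinc_le_one _) (Nat.sub_le n 1)

theorem fs_Kn_le (ε : ℝ) (n : ℕ) : ‖Kn ε n‖ ≤ 3 * fs_a ε n := by
  unfold Kn
  split_ifs with h
  · rw [norm_zero]
    have := fs_a_nonneg ε n
    linarith
  · obtain ⟨m, rfl⟩ := Nat.exists_eq_succ_of_ne_zero h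
    have e1 : ‖((Sn ε (m + 1) : ℝ) : ℂ) * (1 - Complex.I * ((xn ε (m + 1) : ℝ) : ℂ))‖ ≤
        2 * fs_a ε (m + 1) := by
      rw [norm_mul, Complex.norm_real, Real.norm_eq_abs]
      have e2 : ‖(1 : ℂ) - Complex.I * ((xn ε (m + 1) : ℝ) : ℂ)‖ ≤ 1 + |xn ε (m + 1)| := by
        refine (norm_sub_le _ _).trans ?_
        rw [norm_one, norm_mul, Complex.norm_I, one_mul, Complex.norm_real, Real.norm_eq_abs]
      have e3 : |Sn ε (m + 1)| = fs_a ε (m + 1) * |Real.sinc (xn ε (m + 1))| := by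
        unfold Sn fs_a
        rw [abs_pow, pow_succ, Nat.add_sub_cancel]
      have e4 := fs_sinc_mul_abs (xn ε (m + 1))
      have e5 := Real.abs_sinc_le_one (xn ε (m + 1))
      have e6 := fs_a_nonneg ε (m + 1)
      calc |Sn ε (m + 1)| * ‖(1 : ℂ) - Complex.I * ((xn ε (m + 1) : ℝ) : ℂ)‖
          ≤ |Sn ε (m + 1)| * (1 + |xn ε (m + 1)|) :=
            mul_le_mul_of_nonneg_left e2 (abs_nonneg _)
        _ = fs_a ε (m + 1) * (|Real.sinc (xn ε (m + 1))| +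
            |Real.sinc (xn ε (m + 1))| * |xn ε (m + 1)|) := by rw [e3]; ring
        _ ≤ fs_a ε (m + 1) * 2 := mul_le_mul_of_nonneg_left (by linarith) e6
        _ = 2 * fs_a ε (m + 1) := by ring
    have e7 : ‖((Real.sinc (xn ε (m + 1)) ^ (m + 1 - 1) * Real.cos (xn ε (m + 1)) : ℝ) : ℂ)‖ ≤
        fs_a ε (m + 1) := by
      rw [Complex.norm_real, Real.norm_eq_abs, abs_mul, abs_pow]
      have e8 := Real.abs_cos_le_one (xn ε (m + 1))
      calc |Real.sinc (xn ε (m + 1))| ^ (m + 1 - 1) * |Real.cos (xn ε (m + 1))|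
          ≤ |Real.sinc (xn ε (m + 1))| ^ (m + 1 - 1) * 1 :=
            mul_le_mul_of_nonneg_left e8 (by positivity)
        _ = fs_a ε (m + 1) := by rw [mul_one]; rfl
    refine (norm_sub_le _ _).trans ?_
    linarith

theorem fs_a_summable (ε : ℝ) (h0 : 0 < ε) (ρ : ℝ) :
    Summable fun n : ℕ => fs_a ε n * Real.exp (ρ * wn ε n) := by
  set R : ℝ := Real.exp (ρ * ε ^ 2) with hR
  have hR0 : 0 < R := Real.exp_pos _
  have hg : Summable fun n : ℕ => 2 * R * (1 / 2 : ℝ) ^ n :=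
    (summable_geometric_of_lt_one (by norm_num) (by norm_num)).mul_left _
  refine hg.of_norm_bounded_eventually_nat ?_
  filter_upwards [Filter.eventually_ge_atTop (max 1 ⌈4 * R / ε ^ 3⌉₊)] with n hn
  have hn1 : 1 ≤ n := (le_max_left _ _).trans hn
  have hn2 : 4 * R / ε ^ 3 ≤ n := (Nat.le_ceil _).trans (by exact_mod_cast (le_max_right _ _).trans hn)
  obtain ⟨m, rfl⟩ : ∃ m, n = m + 1 := ⟨n - 1, by omega⟩
  have hx : 2 * R ≤ xn ε (m + 1) := by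
    rw [div_le_iff₀ (by positivity)] at hn2
    unfold xn
    linarith
  have hx0 : 0 < xn ε (m + 1) := by linarith
  have hs : |Real.sinc (xn ε (m + 1))| ≤ 1 / (2 * R) := by
    have h1 := fs_sinc_mul_abs (xn ε (m + 1))
    rw [abs_of_pos hx0] at h1
    rw [le_div_iff₀ (by positivity)]
    exact (mul_le_mul_of_nonneg_left hx (abs_nonneg _)).trans h1
  have hexp : Real.exp (ρ * wn ε (m + 1)) = R ^ (m + 1) := by
    rw [hR, ← Real.exp_nat_mul]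
    congr 1
    unfold wn
    ring
  rw [Real.norm_of_nonneg (mul_nonneg (fs_a_nonneg _ _) (Real.exp_pos _).le), hexp]
  unfold fs_a
  rw [Nat.add_sub_cancel]
  calc |Real.sinc (xn ε (m + 1))| ^ m * R ^ (m + 1) ≤ (1 / (2 * R)) ^ m * R ^ (m + 1) := by
        gcongr
    _ = 2 * R * (1 / 2) ^ (m + 1) := by
        rw [pow_succ R, pow_succ (1 / 2 : ℝ)]
        have : (1 / (2 * R)) ^ m * R ^ m = (1 / 2) ^ m := by
          rw [← mul_pow]
          congr 1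
          field_simp
        calc (1 / (2 * R)) ^ m * (R ^ m * R) = ((1 / (2 * R)) ^ m * R ^ m) * R := by ring
          _ = (1 / 2) ^ m * R := by rw [this]
          _ = _ := by ring

/-- decay of a coefficient sequence -/
def fs_H (ε : ℝ) (c : ℕ → ℂ) : Prop :=
  ∀ ρ : ℝ, Summable fun n : ℕ => ‖c n‖ * Real.exp (ρ * wn ε n)

theorem fs_H_of_le {ε : ℝ} (h0 : 0 < ε) {c : ℕ → ℂ} {C : ℝ} (h : ∀ n, ‖c n‖ ≤ C * fs_a ε n) :
    fs_H ε c := by
  intro ρ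
  refine ((fs_a_summable ε h0 ρ).mul_left C).of_nonneg_of_le (fun n => by positivity) (fun n => ?_)
  calc ‖c n‖ * Real.exp (ρ * wn ε n) ≤ (C * fs_a ε n) * Real.exp (ρ * wn ε n) :=
        mul_le_mul_of_nonneg_right (h n) (Real.exp_pos _).le
    _ = C * (fs_a ε n * Real.exp (ρ * wn ε n)) := by ring

theorem fs_H_pow {ε : ℝ} {c : ℕ → ℂ} (h : fs_H ε c) (j : ℕ) :
    fs_H ε (fun n => ((wn ε n : ℝ) : ℂ) ^ j * c n) := by
  intro ρ
  refine ((h (ρ + 1)).mul_left (j.factorial : ℝ)).of_nonneg_of_le (fun n => by positivity)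
    (fun n => ?_)
  have hw := fs_wn_nonneg ε n
  have h1 : wn ε n ^ j ≤ j.factorial * Real.exp (wn ε n) := by
    have h2 := Real.pow_div_factorial_le_exp (wn ε n) hw j
    rw [div_le_iff₀ (by positivity)] at h2
    linarith
  rw [norm_mul, norm_pow, Complex.norm_real, Real.norm_of_nonneg hw, add_mul, one_mul,
    Real.exp_add]
  calc wn ε n ^ j * ‖c n‖ * Real.exp (ρ * wn ε n)
      ≤ (j.factorial * Real.exp (wn ε n)) * ‖c n‖ * Real.exp (ρ * wn ε n) := by gcongr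
    _ = j.factorial * (‖c n‖ * (Real.exp (ρ * wn ε n) * Real.exp (wn ε n))) := by ring

theorem fs_norm_exp (B : ℂ) (w : ℝ) : ‖Complex.exp (B * (w : ℂ))‖ = Real.exp (B.re * w) := by
  rw [Complex.norm_exp]
  simp

theorem fs_summable {ε : ℝ} {c : ℕ → ℂ} (h : fs_H ε c) (B : ℂ) :
    Summable fun n : ℕ => ‖c n * Complex.exp (B * ((wn ε n : ℝ) : ℂ))‖ := by
  refine (h B.re).congr (fun n => ?_)
  rw [norm_mul, fs_norm_exp]

theorem fs_hasDerivAt {ε : ℝ} {c : ℕ → ℂ} (h : fs_H ε c) (B : ℂ) :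
    HasDerivAt (fun B : ℂ => ∑' n : ℕ, c n * Complex.exp (B * ((wn ε n : ℝ) : ℂ)))
      (∑' n : ℕ, (((wn ε n : ℝ) : ℂ) * c n) * Complex.exp (B * ((wn ε n : ℝ) : ℂ))) B := by
  have h1 := fs_H_pow h 1
  have hu := h1 (‖B‖ + 1)
  refine hasDerivAt_tsum_of_isPreconnected
    (g := fun n (z : ℂ) => c n * Complex.exp (z * ((wn ε n : ℝ) : ℂ)))
    (g' := fun n (z : ℂ) => (((wn ε n : ℝ) : ℂ) * c n) * Complex.exp (z * ((wn ε n : ℝ) : ℂ)))
    (y₀ := B) hu (t := Metric.ball (0 : ℂ) (‖B‖ + 1)) Metric.isOpen_ball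
    (convex_ball (0 : ℂ) (‖B‖ + 1)).isPreconnected ?_ ?_ ?_ ?_ ?_
  · intro n y _
    have h2 : HasDerivAt (fun z : ℂ => z * ((wn ε n : ℝ) : ℂ)) ((wn ε n : ℝ) : ℂ) y := by
      simpa using (hasDerivAt_id y).mul_const ((wn ε n : ℝ) : ℂ)
    have h3 := (h2.cexp).const_mul (c n)
    have e : (((wn ε n : ℝ) : ℂ) * c n) * Complex.exp (y * ((wn ε n : ℝ) : ℂ)) =
        c n * (Complex.exp (y * ((wn ε n : ℝ) : ℂ)) * ((wn ε n : ℝ) : ℂ)) := by ring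
    rw [e]
    exact h3
  · intro n y hy
    rw [norm_mul, fs_norm_exp]
    simp only [pow_one]
    refine mul_le_mul_of_nonneg_left (Real.exp_le_exp.2 ?_) (norm_nonneg _)
    refine mul_le_mul_of_nonneg_right ?_ (fs_wn_nonneg ε n)
    have h4 : y.re ≤ ‖y‖ := Complex.re_le_norm y
    have h5 : ‖y‖ < ‖B‖ + 1 := by simpa using hy
    linarith
  · simp
  · exact (fs_summable h B).of_norm
  · simp

theorem fs_HA (ε : ℝ) (h0 : 0 < ε) : fs_H ε (fun n => ((Gn n * Sn ε n : ℝ) : ℂ)) := by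
  refine fs_H_of_le (C := 1) h0 (fun n => ?_)
  rw [Complex.norm_real, Real.norm_eq_abs, abs_mul, abs_of_nonneg (Gn_nonneg n)]
  exact mul_le_mul (Gn_le_one n) (fs_Sn_le ε n) (abs_nonneg _) zero_le_one

theorem fs_HE (ε : ℝ) (h0 : 0 < ε) : fs_H ε (fun n => ((Gn n : ℝ) : ℂ) * Kn ε n) := by
  refine fs_H_of_le (C := 3) h0 (fun n => ?_)
  rw [norm_mul, Complex.norm_real, Real.norm_eq_abs, abs_of_nonneg (Gn_nonneg n)]
  have h1 := mul_le_mul (Gn_le_one n) (fs_Kn_le ε n) (norm_nonneg _) zero_le_one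
  linarith

theorem fs_A_eq (ε : ℝ) (j n : ℕ) : ((Gn n * Sn ε n * wn ε n ^ j : ℝ) : ℂ) =
    ((wn ε n : ℝ) : ℂ) ^ j * ((Gn n * Sn ε n : ℝ) : ℂ) := by
  push_cast
  ring

theorem fs_E_eq (ε : ℝ) (j n : ℕ) : ((Gn n * wn ε n ^ j : ℝ) : ℂ) * Kn ε n =
    ((wn ε n : ℝ) : ℂ) ^ j * (((Gn n : ℝ) : ℂ) * Kn ε n) := by
  push_cast
  ring

theorem Asum_summable (ε : ℝ) (h0 : 0 < ε) (j : ℕ) (B : ℂ) :
    Summable fun n : ℕ => ‖((Gn n * Sn ε n * wn ε n ^ j : ℝ) : ℂ) *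
      Complex.exp (B * ((wn ε n : ℝ) : ℂ))‖ := by
  refine (fs_summable (fs_H_pow (fs_HA ε h0) j) B).congr (fun n => ?_)
  rw [fs_A_eq]

theorem Esum_summable (ε : ℝ) (h0 : 0 < ε) (j : ℕ) (B : ℂ) :
    Summable fun n : ℕ => ‖((Gn n * wn ε n ^ j : ℝ) : ℂ) * Kn ε n *
      Complex.exp (B * ((wn ε n : ℝ) : ℂ))‖ := by
  refine (fs_summable (fs_H_pow (fs_HE ε h0) j) B).congr (fun n => ?_)
  rw [fs_E_eq]

theorem Asum_hasDerivAt (ε : ℝ) (h0 : 0 < ε) (j : ℕ) (B : ℂ) :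
    HasDerivAt (Asum ε j) (Asum ε (j + 1) B) B := by
  have h1 := (fs_hasDerivAt (fs_H_pow (fs_HA ε h0) j) B).const_mul (ε : ℂ)
  have e1 : Asum ε j = fun z : ℂ => (ε : ℂ) * ∑' n : ℕ, ((wn ε n : ℝ) : ℂ) ^ j *
      ((Gn n * Sn ε n : ℝ) : ℂ) * Complex.exp (z * ((wn ε n : ℝ) : ℂ)) := by
    funext z
    unfold Asum
    congr 1
    exact tsum_congr (fun n => by rw [fs_A_eq])
  have e2 : Asum ε (j + 1) B = (ε : ℂ) * ∑' n : ℕ, ((wn ε n : ℝ) : ℂ) *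
      (((wn ε n : ℝ) : ℂ) ^ j * ((Gn n * Sn ε n : ℝ) : ℂ)) *
      Complex.exp (B * ((wn ε n : ℝ) : ℂ)) := by
    unfold Asum
    congr 1
    exact tsum_congr (fun n => by rw [fs_A_eq, pow_succ']; ring)
  rw [e1, e2]
  exact h1

theorem Esum_hasDerivAt (ε : ℝ) (h0 : 0 < ε) (j : ℕ) (B : ℂ) :
    HasDerivAt (Esum ε j) (Esum ε (j + 1) B) B := by
  have h1 := (fs_hasDerivAt (fs_H_pow (fs_HE ε h0) j) B).const_add (if j = 0 then (1 : ℂ) else 0)
  have e1 : Esum ε j = fun z : ℂ => (if j = 0 then (1 : ℂ) else 0) +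
      ∑' n : ℕ, ((wn ε n : ℝ) : ℂ) ^ j * (((Gn n : ℝ) : ℂ) * Kn ε n) *
      Complex.exp (z * ((wn ε n : ℝ) : ℂ)) := by
    funext z
    unfold Esum
    congr 1
    exact tsum_congr (fun n => by rw [fs_E_eq])
  have e2 : Esum ε (j + 1) B = ∑' n : ℕ, ((wn ε n : ℝ) : ℂ) *
      (((wn ε n : ℝ) : ℂ) ^ j * (((Gn n : ℝ) : ℂ) * Kn ε n)) *
      Complex.exp (B * ((wn ε n : ℝ) : ℂ)) := by
    unfold Esum
    rw [if_neg (Nat.succ_ne_zero j), zero_add]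
    exact tsum_congr (fun n => by rw [fs_E_eq, pow_succ']; ring)
  rw [e1, e2]
  exact h1

theorem Asum_conj (ε : ℝ) (j : ℕ) (B : ℂ) :
    Asum ε j (starRingEnd ℂ B) = starRingEnd ℂ (Asum ε j B) := by
  unfold Asum
  rw [map_mul, Complex.conj_ofReal, Complex.conj_tsum]
  congr 1
  refine tsum_congr (fun n => ?_)
  rw [map_mul, Complex.conj_ofReal, ← Complex.exp_conj, map_mul, Complex.conj_ofReal]

theorem norm_qs (ε s : ℝ) : ‖qs ε s‖ = Real.exp (-(ε ^ 2 / 50)) := by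
  unfold qs
  rw [Complex.norm_exp]
  congr 1
  rw [Complex.re_ofReal_mul]
  ring

theorem fs_qs_pow (ε s : ℝ) (n : ℕ) :
    ((Real.exp (127 / 100 * wn ε n) : ℝ) : ℂ) * qs ε s ^ n =
      Complex.exp (Bs s * ((wn ε n : ℝ) : ℂ)) := by
  unfold qs
  rw [← Complex.exp_nat_mul, Complex.ofReal_exp, ← Complex.exp_add]
  congr 1
  apply Complex.ext
  · simp [Bs, wn]
    ring
  · simp [Bs, wn]
    ring

theorem Asum_far (ε : ℝ) (h0 : 0 < ε) (j : ℕ) (s : ℝ) :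
    Asum ε j (Bs s) = (ε : ℂ) * ∑' n : ℕ, ((Gn n : ℝ) : ℂ) * gA ε j n * qs ε s ^ n := by
  unfold Asum
  congr 1
  refine tsum_congr (fun n => ?_)
  rw [← fs_qs_pow]
  unfold gA
  push_cast
  ring

theorem Esum_far (ε : ℝ) (h0 : 0 < ε) (j : ℕ) (s : ℝ) :
    Esum ε j (Bs s) = (if j = 0 then 1 else 0) +
      (ε : ℂ) * ∑' n : ℕ, ((Gn n : ℝ) : ℂ) * gE ε j n * qs ε s ^ n := by
  unfold Esum
  congr 1
  rw [← tsum_mul_left]
  refine tsum_congr (fun n => ?_)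
  rw [← fs_qs_pow]
  unfold gE
  have h1 : (ε : ℂ) ≠ 0 := by exact_mod_cast h0.ne'
  push_cast
  field_simp

end MP_d1b55a
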