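import Pool.Agent.Lib.MP_d1b55a_co.LogDeriv

/-!
SId. The logarithmic derivative identity, from `LogDeriv.lean` (Cauchy products).
-/

open Finset

namespace MP_d1b55a

theorem FD_summable (j : ℕ) (y x : ℂ) (hy : ‖y‖ ≤ 1) :
    Summable fun n : ℕ => ‖(n : ℂ) ^ j * y ^ (n * (n - 1) / 2) * x ^ n / (n.factorial : ℂ)‖ := by
  refine Summable.of_nonneg_of_le (fun n => norm_nonneg _) (fun n => ?_) (LD_summable ‖x‖ j)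
  rw [norm_div, norm_mul, norm_mul, norm_pow, norm_pow, norm_pow, Complex.norm_natCast,
    Complex.norm_natCast, abs_norm]
  have h1 : ‖y‖ ^ (n * (n - 1) / 2) ≤ 1 := pow_le_one₀ (norm_nonneg y) hy
  have h2 : (0 : ℝ) ≤ (n : ℝ) ^ j * (1 / (n.factorial : ℝ)) * ‖x‖ ^ n := by positivity
  calc (n : ℝ) ^ j * ‖y‖ ^ (n * (n - 1) / 2) * ‖x‖ ^ n / (n.factorial : ℝ)
      = ((n : ℝ) ^ j * (1 / (n.factorial : ℝ)) * ‖x‖ ^ n) * ‖y‖ ^ (n * (n - 1) / 2) := by ring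
    _ ≤ ((n : ℝ) ^ j * (1 / (n.factorial : ℝ)) * ‖x‖ ^ n) * 1 :=
        mul_le_mul_of_nonneg_left h1 h2
    _ = _ := mul_one _

theorem FD_ne_zero (ε : ℝ) (h0 : 0 < ε) (_h1 : ε ^ 3 ≤ Real.pi) (B : ℂ) (hA : Asum ε 0 B ≠ 0) :
    FD 0 (yy (ε ^ 3)) (xB ε B) ≠ 0 :=
  FD_ne_zero_of_Asum ε h0 B hA

theorem FD_log (ε : ℝ) (h0 : 0 < ε) (_h1 : ε ^ 3 ≤ Real.pi) (B : ℂ) (hA : Asum ε 0 B ≠ 0) :
    FD 3 (yy (ε ^ 3)) (xB ε B) / FD 0 (yy (ε ^ 3)) (xB ε B) -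
      3 * FD 2 (yy (ε ^ 3)) (xB ε B) * FD 1 (yy (ε ^ 3)) (xB ε B) / FD 0 (yy (ε ^ 3)) (xB ε B) ^ 2 +
      2 * (FD 1 (yy (ε ^ 3)) (xB ε B) / FD 0 (yy (ε ^ 3)) (xB ε B)) ^ 3 =
    Complex.I / ((ε ^ 6 : ℝ) : ℂ) * H2 ε B :=
  logDeriv3_eq ε h0 B hA

end MP_d1b55a
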