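import Pool.Agent.Lib.MP_d1b55a_co.CDefs
import Pool.Agent.Lib.MP_d1b55a_co.SId
import Pool.Agent.Lib.MP_d1b55a_co.FS

/-!
CI2a. First part of CI2: approximation of `FD j y` by the polynomials `FM y M`, and the parametrisation of the circle
`|x| = Rc ε` by `s ↦ xB ε (Bs s)`.
-/

open Finset

namespace MP_d1b55a

theorem CI2a_Dx_iter (y : ℂ) (M j : ℕ) :
    Dx^[j] (FM y M) = ∑ n ∈ Finset.range (M + 1),
      Polynomial.monomial n ((n : ℂ) ^ j * (y ^ (n.choose 2) / (n.factorial : ℂ))) := by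
  induction j with
  | zero =>
    rw [Function.iterate_zero, id_eq]
    unfold FM
    refine Finset.sum_congr rfl (fun n _ => ?_)
    rw [pow_zero, one_mul]
  | succ j ih =>
    rw [Function.iterate_succ_apply', ih]
    unfold Dx
    rw [Polynomial.derivative_sum, Finset.mul_sum]
    refine Finset.sum_congr rfl (fun n _ => ?_)
    rw [Polynomial.derivative_monomial]
    rcases n with _ | n
    · simp
    · rw [Nat.add_sub_cancel, Polynomial.X_mul_monomial]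
      congr 1
      rw [pow_succ]
      ring

theorem FM_eval (y : ℂ) (M j : ℕ) (x : ℂ) :
    (Dx^[j] (FM y M)).eval x =
      ∑ n ∈ Finset.range (M + 1), (n : ℂ) ^ j * y ^ (n * (n - 1) / 2) * x ^ n / (n.factorial : ℂ) := by
  rw [CI2a_Dx_iter, Polynomial.eval_finsetSum]
  refine Finset.sum_congr rfl (fun n _ => ?_)
  rw [Polynomial.eval_monomial, Nat.choose_two_right]
  ring

/-- uniform approximation, all `|y| ≤ 1`, `|x| ≤ R` -/
theorem FM_approx (j : ℕ) (R δ : ℝ) (hR : 0 ≤ R) (hδ : 0 < δ) :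
    ∃ M0 : ℕ, ∀ M : ℕ, M0 ≤ M → ∀ y x : ℂ, ‖y‖ ≤ 1 → ‖x‖ ≤ R →
      ‖FD j y x - (Dx^[j] (FM y M)).eval x‖ ≤ δ := by
  have hs := LD_summable R j
  set b : ℕ → ℝ := fun n => (n : ℝ) ^ j * (1 / (n.factorial : ℝ)) * |R| ^ n with hb
  have ht : Filter.Tendsto (fun i => ∑' k, b (k + i)) Filter.atTop (nhds 0) :=
    tendsto_sum_nat_add b
  have hev : ∀ᶠ i in Filter.atTop, ∑' k, b (k + i) < δ := ht.eventually (gt_mem_nhds hδ)
  obtain ⟨M0, hM0⟩ := Filter.eventually_atTop.1 hev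
  refine ⟨M0, fun M hM y x hy hx => ?_⟩
  have hsum := FD_summable j y x hy
  have h1 : FD j y x - (Dx^[j] (FM y M)).eval x =
      ∑' k : ℕ, ((k + (M + 1) : ℕ) : ℂ) ^ j * y ^ ((k + (M + 1)) * ((k + (M + 1)) - 1) / 2) *
        x ^ (k + (M + 1)) / ((k + (M + 1)).factorial : ℂ) := by
    rw [FM_eval]
    unfold FD
    rw [← hsum.of_norm.sum_add_tsum_nat_add (M + 1)]
    ring
  rw [h1]
  have hb' : Summable fun k => b (k + (M + 1)) := (summable_nat_add_iff (M + 1)).2 hs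
  refine (tsum_of_norm_bounded hb'.hasSum (fun k => ?_)).trans (hM0 (M + 1) (by omega)).le
  rw [hb, norm_div, norm_mul, norm_mul, norm_pow, norm_pow, norm_pow, Complex.norm_natCast,
    Complex.norm_natCast]
  have e1 : ‖y‖ ^ ((k + (M + 1)) * ((k + (M + 1)) - 1) / 2) ≤ 1 := pow_le_one₀ (norm_nonneg y) hy
  have e2 : ‖x‖ ^ (k + (M + 1)) ≤ |R| ^ (k + (M + 1)) :=
    pow_le_pow_left₀ (norm_nonneg x) (hx.trans (le_abs_self R)) _
  have e3 : (0 : ℝ) < ((k + (M + 1)).factorial : ℝ) := by exact_mod_cast Nat.factorial_pos _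
  rw [div_le_iff₀ e3]
  have e4 : (0 : ℝ) ≤ ((k + (M + 1) : ℕ) : ℝ) ^ j := by positivity
  calc ((k + (M + 1) : ℕ) : ℝ) ^ j * ‖y‖ ^ ((k + (M + 1)) * ((k + (M + 1)) - 1) / 2) *
        ‖x‖ ^ (k + (M + 1))
      ≤ ((k + (M + 1) : ℕ) : ℝ) ^ j * 1 * |R| ^ (k + (M + 1)) :=
        mul_le_mul (mul_le_mul_of_nonneg_left e1 e4) e2 (by positivity) (by positivity)
    _ = ((k + (M + 1) : ℕ) : ℝ) ^ j * (1 / ((k + (M + 1)).factorial : ℝ)) *
        |R| ^ (k + (M + 1)) * ((k + (M + 1)).factorial : ℝ) := by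
        field_simp

theorem CI2a_norm_xB (ε : ℝ) (h0 : 0 < ε) (B : ℂ) :
    ‖xB ε B‖ = Real.exp (B.re * ε ^ 2) / (Real.exp 1 * ε ^ 3) := by
  unfold xB
  have h1 : 0 < Real.exp 1 * ε ^ 3 := by positivity
  rw [norm_div, norm_mul, norm_mul, norm_neg, Complex.norm_I, one_mul, Complex.norm_exp,
    Complex.norm_exp, Complex.norm_real, Real.norm_of_nonneg h1.le]
  have e1 : (Complex.I * ((ε ^ 3 / 2 : ℝ) : ℂ)).re = 0 := by
    rw [mul_comm, Complex.re_ofReal_mul, Complex.I_re, mul_zero]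
  have e2 : (B * ((ε ^ 2 : ℝ) : ℂ)).re = B.re * ε ^ 2 := by
    rw [Complex.re_mul_ofReal]
  rw [e1, e2, Real.exp_zero, one_mul]

theorem rho_lt (ε : ℝ) (h0 : 0 < ε) : ‖xB ε (Bz ε)‖ < Rc ε := by
  rw [CI2a_norm_xB ε h0]
  unfold Rc
  have h1 : 0 < Real.exp 1 * ε ^ 3 := by positivity
  refine div_lt_div_of_pos_right (Real.exp_lt_exp.2 ?_) h1
  have : (Bz ε).re = 0.9279 := rfl
  rw [this]
  have h2 : 0 < ε ^ 2 := by positivity
  nlinarith

theorem norm_xB (ε s : ℝ) (h0 : 0 < ε) : ‖xB ε (Bs s)‖ = Rc ε := by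
  rw [CI2a_norm_xB ε h0]
  rfl

theorem CI2a_div (ε : ℝ) (h0 : 0 < ε) (B B' : ℂ) :
    xB ε B' / xB ε B = Complex.exp (-((ε ^ 2 : ℝ) : ℂ) * (B - B')) := by
  have h1 : (((Real.exp 1 * ε ^ 3 : ℝ)) : ℂ) ≠ 0 := by
    rw [Complex.ofReal_ne_zero]; positivity
  have h2 : Complex.exp (Complex.I * ((ε ^ 3 / 2 : ℝ) : ℂ)) ≠ 0 := Complex.exp_ne_zero _
  have h3 : Complex.exp (B * ((ε ^ 2 : ℝ) : ℂ)) ≠ 0 := Complex.exp_ne_zero _
  have h4 : Complex.exp (-((ε ^ 2 : ℝ) : ℂ) * (B - B')) =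
      Complex.exp (B' * ((ε ^ 2 : ℝ) : ℂ)) / Complex.exp (B * ((ε ^ 2 : ℝ) : ℂ)) := by
    rw [← Complex.exp_sub]
    congr 1
    ring
  rw [h4]
  unfold xB
  have h5 : Complex.I ≠ 0 := Complex.I_ne_zero
  generalize (((Real.exp 1 * ε ^ 3 : ℝ)) : ℂ) = c at h1 ⊢
  field_simp

theorem gx_gpole (ε : ℝ) (h0 : 0 < ε) (B : ℂ) :
    gx (xB ε (Bz ε)) (xB ε B) = gpole ε B / ((ε ^ 6 : ℝ) : ℂ) := by
  have h1 : ((ε ^ 6 : ℝ) : ℂ) ≠ 0 := by
    rw [Complex.ofReal_ne_zero]; positivity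
  unfold gx gpole
  rw [CI2a_div ε h0]
  generalize Complex.exp (-((ε ^ 2 : ℝ) : ℂ) * (B - Bz ε)) = e
  generalize ((ε ^ 6 : ℝ) : ℂ) = c at h1 ⊢
  rw [eq_div_iff h1]
  ring

theorem CI2a_cp (ε : ℝ) (h0 : 0 < ε) (s : ℝ) :
    cp (Rc ε) (ε ^ 2 * s + (-(Real.pi / 2) + ε ^ 3 / 2)) = xB ε (Bs s) := by
  have h1 : (((Real.exp 1 * ε ^ 3 : ℝ)) : ℂ) ≠ 0 := by
    rw [Complex.ofReal_ne_zero]; positivity
  have hI : Complex.exp (((-(Real.pi / 2) : ℝ) : ℂ) * Complex.I) = -Complex.I := by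
    have : ((-(Real.pi / 2) : ℝ) : ℂ) * Complex.I = -((Real.pi / 2 : ℂ) * Complex.I) := by
      push_cast; ring
    rw [this, Complex.exp_neg, Complex.exp_pi_div_two_mul_I]
    rw [Complex.inv_I]
  have hB : Complex.exp (Bs s * ((ε ^ 2 : ℝ) : ℂ)) =
      ((Real.exp (5 / 4 * ε ^ 2) : ℝ) : ℂ) * Complex.exp (((ε ^ 2 * s : ℝ) : ℂ) * Complex.I) := by
    rw [Complex.ofReal_exp, ← Complex.exp_add]
    congr 1
    apply Complex.ext
    · simp [Bs]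
      ring
    · simp [Bs]
      ring
  unfold cp xB Rc
  rw [hB, ← hI]
  have hsplit : (((ε ^ 2 * s + (-(Real.pi / 2) + ε ^ 3 / 2) : ℝ)) : ℂ) * Complex.I =
      ((-(Real.pi / 2) : ℝ) : ℂ) * Complex.I + Complex.I * ((ε ^ 3 / 2 : ℝ) : ℂ) +
        ((ε ^ 2 * s : ℝ) : ℂ) * Complex.I := by
    push_cast; ring
  rw [hsplit, Complex.exp_add, Complex.exp_add, Complex.ofReal_div]
  field_simp

/-- every point of the circle -/
theorem exists_xB (ε : ℝ) (h0 : 0 < ε) (x : ℂ) (hx : ‖x‖ = Rc ε) :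
    ∃ s : ℝ, |s| ≤ Real.pi / ε ^ 2 ∧ x = xB ε (Bs s) := by
  set d : ℝ := -(Real.pi / 2) + ε ^ 3 / 2 with hd
  set w : ℂ := x * Complex.exp (((-d : ℝ) : ℂ) * Complex.I) with hw
  have hε2 : 0 < ε ^ 2 := by positivity
  refine ⟨w.arg / ε ^ 2, ?_, ?_⟩
  · rw [abs_div, abs_of_pos hε2]
    exact div_le_div_of_nonneg_right (Complex.abs_arg_le_pi w) hε2.le
  · rw [← CI2a_cp ε h0]
    unfold cp
    rw [← hd]
    have e1 : ε ^ 2 * (w.arg / ε ^ 2) = w.arg := by field_simp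
    have e2 : ((ε ^ 2 * (w.arg / ε ^ 2) + d : ℝ) : ℂ) * Complex.I =
        (w.arg : ℂ) * Complex.I + (d : ℂ) * Complex.I := by
      rw [e1]; push_cast; ring
    have e3 : ‖w‖ = Rc ε := by
      rw [hw, norm_mul, Complex.norm_exp_ofReal_mul_I, mul_one, hx]
    rw [e2, Complex.exp_add, ← mul_assoc, ← e3, Complex.norm_mul_exp_arg_mul_I, hw, mul_assoc,
      ← Complex.exp_add]
    have e4 : ((-d : ℝ) : ℂ) * Complex.I + (d : ℂ) * Complex.I = 0 := by push_cast; ring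
    rw [e4, Complex.exp_zero, mul_one]

theorem CI2a_periodic (R : ℝ) : Function.Periodic (cp R) (2 * Real.pi) := by
  intro t
  unfold cp
  congr 1
  have : (((t + 2 * Real.pi : ℝ)) : ℂ) * Complex.I = (t : ℂ) * Complex.I + 2 * Real.pi * Complex.I := by
    push_cast; ring
  rw [this, Complex.exp_add, Complex.exp_two_pi_mul_I, mul_one]

theorem CI2a_subst (ε : ℝ) (h0 : 0 < ε) (f : ℂ → ℝ) :
    ∫ t in (0 : ℝ)..(2 * Real.pi), f (cp (Rc ε) t) =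
      ε ^ 2 * ∫ s in (-(Real.pi / ε ^ 2))..(Real.pi / ε ^ 2), f (xB ε (Bs s)) := by
  have hε2 : ε ^ 2 ≠ 0 := by positivity
  set d : ℝ := -(Real.pi / 2) + ε ^ 3 / 2 with hd
  have h1 := intervalIntegral.smul_integral_comp_mul_add (a := -(Real.pi / ε ^ 2))
    (b := Real.pi / ε ^ 2) (fun t => f (cp (Rc ε) t)) (ε ^ 2) d
  rw [smul_eq_mul] at h1
  have h2 : (∫ s in (-(Real.pi / ε ^ 2))..(Real.pi / ε ^ 2), f (xB ε (Bs s))) =
      ∫ s in (-(Real.pi / ε ^ 2))..(Real.pi / ε ^ 2), f (cp (Rc ε) (ε ^ 2 * s + d)) := by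
    refine intervalIntegral.integral_congr (fun s _ => ?_)
    simp only [hd, CI2a_cp ε h0]
  rw [h2, h1]
  have hp : Function.Periodic (fun t => f (cp (Rc ε) t)) (2 * Real.pi) := by
    intro t
    simp only [CI2a_periodic (Rc ε) t]
  have e1 : ε ^ 2 * -(Real.pi / ε ^ 2) + d = -Real.pi + d := by field_simp
  have e2 : ε ^ 2 * (Real.pi / ε ^ 2) + d = (-Real.pi + d) + 2 * Real.pi := by field_simp; ring
  rw [e1, e2, hp.intervalIntegral_add_eq (-Real.pi + d) 0, zero_add]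

theorem circle_subst (ε : ℝ) (h0 : 0 < ε) (f : ℂ → ℝ) (hf : ContinuousOn f (Metric.sphere 0 (Rc ε))) :
    ∫ t in (0 : ℝ)..(2 * Real.pi), f (cp (Rc ε) t) =
      ε ^ 2 * ∫ s in (-(Real.pi / ε ^ 2))..(Real.pi / ε ^ 2), f (xB ε (Bs s)) :=
  CI2a_subst ε h0 f

end MP_d1b55a
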