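import Pool.Agent.Lib.MP_d1b55a_co.CI2

/-!
CI3. The number of roots inside does not depend on ε. PROOF. (1) Argument principle for a polynomial without roots on |x| = R:
∮_{|x|=R} P'/P dx = 2πi cnt P R: P'/P = ∑ 1/(x - r); circleIntegral.integral_sub_inv_of_mem_ball for |r| < R, 0 for |r| > R (Cauchy).
(2) K = {(ε, x) : ε1 ≤ ε ≤ ε2, |x| = Rc ε} = image of [ε1,ε2] × [0,2π] under (ε,t) ↦ (ε, cp (Rc ε) t), compact; FD 0 (yy (ε^3)) x is continuous
in (ε, x) (uniform limit of polynomials, `FM_approx`) and ≠ 0, so |FD 0| ≥ c > 0 on K; by `FM_approx` |FM| ≥ c/2 on K for M ≥ M1.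
(3) For M ≥ max M1 M2: ε ↦ cnt (FM (yy (ε^3)) M) (Rc ε) = (1/2πi) ∫_0^{2π} (P'/P)(cp (Rc ε) t) i cp (Rc ε) t dt is continuous on [ε1, ε2]
(integrand jointly continuous: intervalIntegral.continuous_parametric_... on a compact set), ℕ-valued, hence constant
(IsPreconnected.constant / intermediate value), = 1 at ε2.
-/

open Finset

namespace MP_d1b55a

theorem ci3_norm_cp (R t : ℝ) (hR : 0 < R) : ‖cp R t‖ = R := by
  rw [cp, norm_mul, Complex.norm_exp_ofReal_mul_I, mul_one, Complex.norm_real,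
    Real.norm_of_nonneg hR.le]

theorem ci3_cont_cp (R : ℝ) : Continuous (fun t : ℝ => cp R t) := by
  unfold cp
  fun_prop

theorem ci3_one (R : ℝ) (hR : 0 < R) (r : ℂ) (hr : ‖r‖ ≠ R) :
    ∫ t in (0 : ℝ)..(2 * Real.pi), cp R t / (cp R t - r) =
      if ‖r‖ < R then 2 * (Real.pi : ℂ) else 0 := by
  have h1 : (∮ z in C(0, R), (z - r)⁻¹) =
      Complex.I * ∫ t in (0 : ℝ)..(2 * Real.pi), cp R t / (cp R t - r) := by
    rw [circleIntegral, ← intervalIntegral.integral_const_mul]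
    congr 1
    ext t
    rw [deriv_circleMap, circleMap_zero, smul_eq_mul, cp]
    ring
  split_ifs with h
  · have h2 := circleIntegral.integral_sub_inv_of_mem_ball (c := 0) (w := r) (R := R)
      (by simpa using h)
    rw [h1] at h2
    have h3 : Complex.I * (∫ t in (0 : ℝ)..(2 * Real.pi), cp R t / (cp R t - r)) =
        Complex.I * (2 * (Real.pi : ℂ)) := by
      rw [h2]
      ring
    exact mul_left_cancel₀ Complex.I_ne_zero h3
  · have h3 : R < ‖r‖ := lt_of_le_of_ne (not_lt.1 h) (Ne.symm hr)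
    have h2 : (∮ z in C(0, R), (z - r)⁻¹) = 0 := by
      apply DiffContOnCl.circleIntegral_eq_zero hR.le
      apply DifferentiableOn.diffContOnCl
      intro z hz
      have hz' : z ∈ Metric.closedBall (0 : ℂ) R := Metric.closure_ball_subset_closedBall hz
      rw [mem_closedBall_zero_iff] at hz'
      have hne : z - r ≠ 0 := by
        intro h0
        rw [sub_eq_zero] at h0
        rw [h0] at hz'
        linarith
      have h4 : DifferentiableAt ℂ (fun z : ℂ => z - r) z := by fun_prop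
      exact (h4.fun_inv hne).differentiableWithinAt
    rw [h1] at h2
    exact (mul_eq_zero.1 h2).resolve_left Complex.I_ne_zero

open Classical in
theorem ci3_multi (R : ℝ) (hR : 0 < R) (s : Multiset ℂ) (hs : ∀ r ∈ s, ‖r‖ ≠ R) :
    Continuous (fun t : ℝ => (s.map (fun r => cp R t / (cp R t - r))).sum) ∧
    ∫ t in (0 : ℝ)..(2 * Real.pi), (s.map (fun r => cp R t / (cp R t - r))).sum =
      2 * (Real.pi : ℂ) * ((Multiset.card (s.filter (fun r => ‖r‖ < R)) : ℕ) : ℂ) := by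
  induction s using Multiset.induction_on with
  | empty => simp [continuous_const]
  | cons r s ih =>
    obtain ⟨hc, hi⟩ := ih (fun r' hr' => hs r' (Multiset.mem_cons_of_mem hr'))
    have hr := hs r (Multiset.mem_cons_self r s)
    have hcr : Continuous (fun t : ℝ => cp R t / (cp R t - r)) := by
      have hc1 : Continuous (fun t : ℝ => cp R t - r) := (ci3_cont_cp R).sub continuous_const
      apply (ci3_cont_cp R).div hc1
      intro t h0
      rw [sub_eq_zero] at h0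
      apply hr
      rw [← h0]
      exact ci3_norm_cp R t hR
    simp only [Multiset.map_cons, Multiset.sum_cons]
    refine ⟨hcr.add hc, ?_⟩
    rw [intervalIntegral.integral_add (hcr.intervalIntegrable _ _) (hc.intervalIntegrable _ _),
      hi, ci3_one R hR r hr]
    by_cases h : ‖r‖ < R
    · rw [if_pos h, Multiset.filter_cons_of_pos (p := fun r : ℂ => ‖r‖ < R) s h, Multiset.card_cons]
      push_cast
      ring
    · rw [if_neg h, Multiset.filter_cons_of_neg (p := fun r : ℂ => ‖r‖ < R) s h, zero_add]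

theorem cnt_integral (P : Polynomial ℂ) (R : ℝ) (hR : 0 < R)
    (hne : ∀ x : ℂ, ‖x‖ = R → P.eval x ≠ 0) :
    ∫ t in (0 : ℝ)..(2 * Real.pi), (Dx P).eval (cp R t) / P.eval (cp R t) =
      2 * Real.pi * (cnt P R : ℂ) := by
  have hP : ∀ r ∈ P.roots, ‖r‖ ≠ R := by
    intro r hr h
    exact hne r h (Polynomial.isRoot_of_mem_roots hr)
  have h1 := (ci3_multi R hR P.roots hP).2
  rw [cnt, ← h1]
  congr 1
  ext t
  have hx := hne (cp R t) (ci3_norm_cp R t hR)
  have h2 := (IsAlgClosed.splits P).eval_derivative_div_eval_of_ne_zero hx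
  rw [Dx, Polynomial.eval_mul, Polynomial.eval_X, mul_div_assoc, h2, ← Multiset.sum_map_mul_left]
  congr 1
  apply Multiset.map_congr rfl
  intro r _
  rw [mul_one_div]

/-- clamping to `[ε1, ε2]` -/
noncomputable def ci3cl (ε1 ε2 ε : ℝ) : ℝ := max ε1 (min ε ε2)

theorem ci3_eval_cont (ε1 ε2 : ℝ) (h0 : 0 < ε1) (M j : ℕ) :
    Continuous (fun q : ℝ × ℝ => (Dx^[j] (FM (yy (ci3cl ε1 ε2 q.1 ^ 3)) M)).eval
      (cp (Rc (ci3cl ε1 ε2 q.1)) q.2)) := by
  simp only [FM_eval]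
  have hcl : Continuous (fun q : ℝ × ℝ => ci3cl ε1 ε2 q.1) := by
    unfold ci3cl
    fun_prop
  have hpos : ∀ q : ℝ × ℝ, 0 < ci3cl ε1 ε2 q.1 := fun q => lt_of_lt_of_le h0 (le_max_left _ _)
  have hRc : Continuous (fun q : ℝ × ℝ => Rc (ci3cl ε1 ε2 q.1)) := by
    unfold Rc
    apply Continuous.div
    · exact Real.continuous_exp.comp (continuous_const.mul (hcl.pow 2))
    · exact continuous_const.mul (hcl.pow 3)
    · intro q
      have := hpos q
      have := Real.exp_pos 1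
      positivity
  have hyy : Continuous (fun q : ℝ × ℝ => yy (ci3cl ε1 ε2 q.1 ^ 3)) := by
    unfold yy
    exact Complex.continuous_exp.comp
      ((Complex.continuous_ofReal.comp (hcl.pow 3)).mul continuous_const)
  have hcp : Continuous (fun q : ℝ × ℝ => cp (Rc (ci3cl ε1 ε2 q.1)) q.2) := by
    unfold cp
    apply Continuous.mul
    · exact Complex.continuous_ofReal.comp hRc
    · exact Complex.continuous_exp.comp
        ((Complex.continuous_ofReal.comp continuous_snd).mul continuous_const)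
  refine continuous_finset_sum _ (fun n _ => ?_)
  exact ((continuous_const.mul (hyy.pow _)).mul (hcp.pow n)).div_const _

theorem ci3_norm_yy (θ : ℝ) : ‖yy θ‖ = 1 := by
  rw [yy, Complex.norm_exp_ofReal_mul_I]

theorem CI3 (ε1 ε2 : ℝ) (h0 : 0 < ε1) (h12 : ε1 ≤ ε2)
    (hne : ∀ ε : ℝ, ε1 ≤ ε → ε ≤ ε2 → ∀ x : ℂ, ‖x‖ = Rc ε → FD 0 (yy (ε ^ 3)) x ≠ 0) (M2 : ℕ)
    (h : ∀ M : ℕ, M2 ≤ M → cnt (FM (yy (ε2 ^ 3)) M) (Rc ε2) = 1) :
    ∃ M1 : ℕ, ∀ M : ℕ, M1 ≤ M → cnt (FM (yy (ε1 ^ 3)) M) (Rc ε1) = 1 := by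
  have hcl1 : ∀ ε, ε1 ≤ ci3cl ε1 ε2 ε := fun ε => le_max_left _ _
  have hcl2 : ∀ ε, ci3cl ε1 ε2 ε ≤ ε2 := fun ε => max_le h12 (min_le_right _ _)
  have hclpos : ∀ ε, 0 < ci3cl ε1 ε2 ε := fun ε => lt_of_lt_of_le h0 (hcl1 ε)
  have hRpos : ∀ ε, 0 < Rc (ci3cl ε1 ε2 ε) := by
    intro ε
    have := hclpos ε
    have := Real.exp_pos (5 / 4 * ci3cl ε1 ε2 ε ^ 2)
    have := Real.exp_pos 1
    rw [Rc]
    positivity
  set G : ℝ × ℝ → ℂ := fun q => FD 0 (yy (ci3cl ε1 ε2 q.1 ^ 3)) (cp (Rc (ci3cl ε1 ε2 q.1)) q.2)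
    with hG
  have hGne : ∀ q, G q ≠ 0 := fun q => hne _ (hcl1 _) (hcl2 _) _ (ci3_norm_cp _ _ (hRpos _))
  set S : Set (ℝ × ℝ) := Set.Icc ε1 ε2 ×ˢ Set.Icc (0 : ℝ) (2 * Real.pi) with hS
  have hSc : IsCompact S := isCompact_Icc.prod isCompact_Icc
  -- a bound for the radius
  obtain ⟨Rmax, hRmax⟩ : ∃ Rmax : ℝ, ∀ ε, Rc (ci3cl ε1 ε2 ε) ≤ Rmax := by
    refine ⟨Real.exp (5 / 4 * ε2 ^ 2) / (Real.exp 1 * ε1 ^ 3), fun ε => ?_⟩
    rw [Rc]
    have h1 := hclpos ε
    have he := Real.exp_pos 1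
    apply div_le_div₀ (Real.exp_pos _).le
    · apply Real.exp_le_exp.2
      have := pow_le_pow_left₀ h1.le (hcl2 ε) 2
      linarith
    · positivity
    · apply mul_le_mul_of_nonneg_left _ he.le
      exact pow_le_pow_left₀ h0.le (hcl1 ε) 3
  have hRmax0 : 0 ≤ Rmax := le_trans (hRpos ε1).le (hRmax ε1)
  -- uniform convergence
  have happ : ∀ δ : ℝ, 0 < δ → ∃ M0 : ℕ, ∀ M : ℕ, M0 ≤ M → ∀ q : ℝ × ℝ,
      ‖G q - (FM (yy (ci3cl ε1 ε2 q.1 ^ 3)) M).eval (cp (Rc (ci3cl ε1 ε2 q.1)) q.2)‖ ≤ δ := by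
    intro δ hδ
    obtain ⟨M0, hM0⟩ := FM_approx 0 Rmax δ hRmax0 hδ
    refine ⟨M0, fun M hM q => ?_⟩
    have := hM0 M hM (yy (ci3cl ε1 ε2 q.1 ^ 3)) (cp (Rc (ci3cl ε1 ε2 q.1)) q.2)
      (ci3_norm_yy _).le ((ci3_norm_cp _ _ (hRpos _)).le.trans (hRmax _))
    simpa using this
  have hGc : Continuous G := by
    have htu : TendstoUniformly (fun (M : ℕ) (q : ℝ × ℝ) =>
        (FM (yy (ci3cl ε1 ε2 q.1 ^ 3)) M).eval (cp (Rc (ci3cl ε1 ε2 q.1)) q.2)) G
        Filter.atTop := by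
      rw [Metric.tendstoUniformly_iff]
      intro δ hδ
      obtain ⟨M0, hM0⟩ := happ (δ / 2) (by positivity)
      filter_upwards [Filter.eventually_ge_atTop M0] with M hM q
      rw [dist_eq_norm]
      have := hM0 M hM q
      linarith
    refine htu.continuous (Filter.Frequently.of_forall (fun M => ?_))
    have := ci3_eval_cont ε1 ε2 h0 M 0
    simpa using this
  -- a positive lower bound on the compact set
  obtain ⟨c, hc, hcle⟩ : ∃ c : ℝ, 0 < c ∧ ∀ q ∈ S, c ≤ ‖G q‖ := by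
    have hSne : S.Nonempty := ⟨(ε1, 0), ⟨Set.left_mem_Icc.2 h12,
      Set.left_mem_Icc.2 Real.two_pi_pos.le⟩⟩
    obtain ⟨q0, hq0, hmin⟩ := hSc.exists_isMinOn hSne hGc.norm.continuousOn
    exact ⟨‖G q0‖, norm_pos_iff.2 (hGne q0), fun q hq => hmin hq⟩
  obtain ⟨M0, hM0⟩ := happ (c / 2) (by positivity)
  refine ⟨max M0 M2, fun M hM => ?_⟩
  have hMM0 : M0 ≤ M := le_trans (le_max_left _ _) hM
  have hMM2 : M2 ≤ M := le_trans (le_max_right _ _) hM
  -- no zeros of the polynomials on the circles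
  have hPne : ∀ ε : ℝ, ∀ x : ℂ, ‖x‖ = Rc (ci3cl ε1 ε2 ε) →
      (FM (yy (ci3cl ε1 ε2 ε ^ 3)) M).eval x ≠ 0 := by
    intro ε x hx hev
    have hx0 : x ≠ 0 := by
      rw [← norm_pos_iff, hx]
      exact hRpos ε
    -- x = cp R t with t in [0, 2 π]
    obtain ⟨t, ht, htx⟩ : ∃ t ∈ Set.Icc (0 : ℝ) (2 * Real.pi), cp (Rc (ci3cl ε1 ε2 ε)) t = x := by
      have h1 : x ∈ circleMap 0 (Rc (ci3cl ε1 ε2 ε)) '' Set.Ioc 0 (2 * Real.pi) := by
        rw [image_circleMap_Ioc, mem_sphere_zero_iff_norm, hx, abs_of_pos (hRpos ε)]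
      obtain ⟨t, ht, htx⟩ := h1
      refine ⟨t, Set.Ioc_subset_Icc_self ht, ?_⟩
      rw [← htx, circleMap_zero, cp]
    set e' : ℝ := ci3cl ε1 ε2 ε with he'
    have hidem : ci3cl ε1 ε2 e' = e' := by
      have h1 := hcl1 ε
      have h2 := hcl2 ε
      rw [← he'] at h1 h2
      rw [ci3cl, min_eq_left h2, max_eq_right h1]
    have hq : ((e', t) : ℝ × ℝ) ∈ S := ⟨⟨hcl1 ε, hcl2 ε⟩, ht⟩
    have h1 := hcle _ hq
    have h2 := hM0 M hMM0 (e', t)
    simp only [hidem] at h2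
    rw [htx, hev, sub_zero] at h2
    linarith
  -- the number of roots is continuous
  set Nn : ℝ → ℕ := fun ε => cnt (FM (yy (ci3cl ε1 ε2 ε ^ 3)) M) (Rc (ci3cl ε1 ε2 ε)) with hNn
  have hint : ∀ ε : ℝ, ∫ t in (0 : ℝ)..(2 * Real.pi),
      (Dx (FM (yy (ci3cl ε1 ε2 ε ^ 3)) M)).eval (cp (Rc (ci3cl ε1 ε2 ε)) t) /
        (FM (yy (ci3cl ε1 ε2 ε ^ 3)) M).eval (cp (Rc (ci3cl ε1 ε2 ε)) t) =
      2 * Real.pi * (Nn ε : ℂ) := fun ε => cnt_integral _ _ (hRpos ε) (hPne ε)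
  have hcont1 : Continuous (fun ε : ℝ => 2 * (Real.pi : ℂ) * (Nn ε : ℂ)) := by
    simp only [← hint]
    apply intervalIntegral.continuous_parametric_intervalIntegral_of_continuous'
    have hnum := ci3_eval_cont ε1 ε2 h0 M 1
    have hden := ci3_eval_cont ε1 ε2 h0 M 0
    simp only [Function.iterate_one] at hnum
    simp only [Function.iterate_zero, id_eq] at hden
    exact hnum.div hden (fun q => hPne q.1 _ (ci3_norm_cp _ _ (hRpos _)))
  have hcont2 : Continuous (fun ε : ℝ => (Nn ε : ℝ)) := by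
    have h1 : (fun ε : ℝ => (Nn ε : ℝ)) =
        fun ε => (2 * (Real.pi : ℂ) * (Nn ε : ℂ)).re / (2 * Real.pi) := by
      ext ε
      have hpi := Real.pi_pos
      have h2 : (2 * (Real.pi : ℂ) * (Nn ε : ℂ)).re = 2 * Real.pi * (Nn ε : ℝ) := by
        have h3 : (2 * (Real.pi : ℂ) * (Nn ε : ℂ)) = ((2 * Real.pi * (Nn ε : ℝ) : ℝ) : ℂ) := by
          push_cast
          ring
        rw [h3, Complex.ofReal_re]
      rw [h2]
      field_simp
    rw [h1]
    exact (Complex.continuous_re.comp hcont1).div_const _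
  have hcont3 : Continuous Nn := Nat.isClosedEmbedding_coe_real.isEmbedding.continuous_iff.2 hcont2
  have hconst : Nn ε1 = Nn ε2 :=
    isPreconnected_univ.constant hcont3.continuousOn (Set.mem_univ _) (Set.mem_univ _)
  have he1 : ci3cl ε1 ε2 ε1 = ε1 := by
    rw [ci3cl, min_eq_left h12, max_self]
  have he2 : ci3cl ε1 ε2 ε2 = ε2 := by
    rw [ci3cl, min_self, max_eq_right h12]
  simp only [hNn, he1, he2] at hconst
  rw [hconst]
  exact h M hMM2

end MP_d1b55a
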