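import Pool.Agent.Lib.MP_d1b55a_co.Final

/-!
CI4. Reduction with one power. PROOF: copy `goodAt_of_dom` (Reduction.lean) and `good_of_regimes` (Final.lean): there the
hypothesis Dom is used only through `hval`, i.e. pv j y = z^j (1 + E), |E| ≤ e, for n ≤ j ≤ m + 1 (`one_add_polar`). Here E = pv j y/z^j - 1 directly,
with e1 = e2 = e.
-/

open Finset

namespace MP_d1b55a

theorem ci4_goodAt (y : ℂ) (hy : y ≠ 1) (n : ℕ) (hn : 1 ≤ n) (e : ℝ) (he : e < 1)
    (hE : ∀ N : ℕ, ∃ z : ℂ, z ≠ 0 ∧ ∀ j : ℕ, n ≤ j → j ≤ N →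
      ‖pv j y - z ^ j‖ ≤ e * ‖z‖ ^ j) (ρ γ : ℝ) (hρ : 0 < ρ)
    (hr : av (n + 1) y = (ρ : ℂ) * Complex.exp ((γ : ℂ) * Complex.I) * av n y)
    (hγ : |γ| + 4 * Real.arcsin e < Real.pi) :
    ∀ m, n ≤ m → GoodAt m y := by
  intro m hm
  obtain ⟨z, hz, hzj⟩ := hE (m + 1)
  have hy1 : (1 - y) ≠ 0 := sub_ne_zero.mpr (Ne.symm hy)
  have hz0 : 0 < ‖z‖ := norm_pos_iff.mpr hz
  have hen : 0 ≤ e := by
    have h1 := (norm_nonneg _).trans (hzj n le_rfl (by omega))
    by_contra hcon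
    rw [not_le] at hcon
    have : 0 < ‖z‖ ^ n := by positivity
    nlinarith
  -- the value at every `j ∈ [n, m+1]`
  have hval : ∀ j, n ≤ j → j ≤ m + 1 →
      ∃ (s α : ℝ), 0 < s ∧ |α| ≤ Real.arcsin e ∧
        pv j y = z ^ j * ((s : ℂ) * Complex.exp ((α : ℂ) * Complex.I)) := by
    intro j hj hj2
    have hzp : z ^ j ≠ 0 := pow_ne_zero j hz
    have hEle : ‖pv j y / z ^ j - 1‖ ≤ e := by
      have h1 : pv j y / z ^ j - 1 = (pv j y - z ^ j) / z ^ j := by
        field_simp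
      rw [h1, norm_div, norm_pow, div_le_iff₀ (by positivity)]
      exact hzj j hj hj2
    obtain ⟨hne, α, hα, hpol⟩ := one_add_polar (pv j y / z ^ j - 1) e hEle he
    refine ⟨‖1 + (pv j y / z ^ j - 1)‖, α, norm_pos_iff.mpr hne, hα, ?_⟩
    rw [← hpol]
    field_simp
    ring
  have hpv : ∀ j, 1 ≤ j → pv (j + 1) y = (1 - y) ^ j * av (j + 1) y := by
    intro j hj
    unfold pv
    rw [Nat.add_sub_cancel]
  have hpvn : ∀ j, 1 ≤ j → (1 - y) * pv j y = (1 - y) ^ j * av j y := by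
    intro j hj
    unfold pv
    rw [← mul_assoc, ← pow_succ']
    congr 2
    omega
  obtain ⟨sn, αn, hsn, hαn, hpn⟩ := hval n le_rfl (by omega)
  obtain ⟨sn', αn', hsn', hαn', hpn'⟩ := hval (n + 1) (by omega) (by omega)
  -- `a_j ≠ 0` for `j ≥ n`
  have hav : ∀ j, n ≤ j → (∃ (s α : ℝ), 0 < s ∧
        pv j y = z ^ j * ((s : ℂ) * Complex.exp ((α : ℂ) * Complex.I))) → av j y ≠ 0 := by
    rintro j hj ⟨s, α, hs, hp⟩ h0
    have : pv j y = 0 := by unfold pv; rw [h0, mul_zero]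
    rw [this] at hp
    have h3 : z ^ j * ((s : ℂ) * Complex.exp ((α : ℂ) * Complex.I)) ≠ 0 := by
      apply mul_ne_zero (pow_ne_zero _ hz)
      apply mul_ne_zero
      · exact_mod_cast hs.ne'
      · exact Complex.exp_ne_zero _
    exact h3 hp.symm
  rcases eq_or_lt_of_le hm with rfl | hlt
  · -- `m = n`
    have ha1 := Real.arcsin_nonneg.mpr hen
    exact goodAt_of_polar n y (hav n le_rfl ⟨sn, αn, hsn, hpn⟩) ρ γ hρ (by linarith) hr
  · obtain ⟨sm, αm, hsm, hαm, hpm⟩ := hval m hm (by omega)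
    obtain ⟨sm', αm', hsm', hαm', hpm'⟩ := hval (m + 1) (by omega) le_rfl
    have havm := hav m hm ⟨sm, αm, hsm, hpm⟩
    -- `z_0 sn' e^{iαn'} = (1-y) ρ e^{iγ} sn e^{iαn}`
    have hA : z * ((sn' : ℂ) * Complex.exp ((αn' : ℂ) * Complex.I)) =
        (1 - y) * ((ρ : ℂ) * Complex.exp ((γ : ℂ) * Complex.I)) *
          ((sn : ℂ) * Complex.exp ((αn : ℂ) * Complex.I)) := by
      have h3 : pv (n + 1) y = (1 - y) * ((ρ : ℂ) * Complex.exp ((γ : ℂ) * Complex.I)) *
          pv n y := by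
        rw [hpv n hn, hr]
        have := hpvn n hn
        linear_combination (-(ρ : ℂ) * Complex.exp ((γ : ℂ) * Complex.I)) * this
      rw [hpn, hpn'] at h3
      apply mul_left_cancel₀ (pow_ne_zero n hz)
      linear_combination h3
    have hB : (1 - y) * av (m + 1) y * ((sm : ℂ) * Complex.exp ((αm : ℂ) * Complex.I)) =
        z * ((sm' : ℂ) * Complex.exp ((αm' : ℂ) * Complex.I)) * av m y := by
      have h3 := hpv m (by omega)
      have h4 := hpvn m (by omega)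
      rw [hpm'] at h3
      rw [hpm] at h4
      apply mul_left_cancel₀ (mul_ne_zero (pow_ne_zero m hz) (pow_ne_zero m hy1))
      linear_combination (-(1 - y) * ((sm : ℂ) * Complex.exp ((αm : ℂ) * Complex.I)) * z ^ m) * h3
        + (z ^ (m + 1) * ((sm' : ℂ) * Complex.exp ((αm' : ℂ) * Complex.I))) * h4
    have hC : ((sm : ℂ) * sn' * Complex.exp (((αm + αn' : ℝ) : ℂ) * Complex.I)) * av (m + 1) y =
        ((ρ : ℂ) * sn * sm' * Complex.exp (((γ + αn + αm' : ℝ) : ℂ) * Complex.I)) * av m y := by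
      have e1 : Complex.exp (((αm + αn' : ℝ) : ℂ) * Complex.I) =
          Complex.exp ((αm : ℂ) * Complex.I) * Complex.exp ((αn' : ℂ) * Complex.I) := by
        rw [← Complex.exp_add]; congr 1; push_cast; ring
      have e2 : Complex.exp (((γ + αn + αm' : ℝ) : ℂ) * Complex.I) =
          Complex.exp ((γ : ℂ) * Complex.I) * Complex.exp ((αn : ℂ) * Complex.I) *
            Complex.exp ((αm' : ℂ) * Complex.I) := by
        rw [← Complex.exp_add, ← Complex.exp_add]; congr 1; push_cast; ring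
      rw [e1, e2]
      apply mul_left_cancel₀ hy1
      linear_combination ((sn' : ℂ) * Complex.exp ((αn' : ℂ) * Complex.I)) * hB +
        ((sm' : ℂ) * Complex.exp ((αm' : ℂ) * Complex.I) * av m y) * hA
    have hsm0 : (sm : ℂ) ≠ 0 := by exact_mod_cast hsm.ne'
    have hsn0 : (sn' : ℂ) ≠ 0 := by exact_mod_cast hsn'.ne'
    apply goodAt_of_polar m y havm (ρ * sn * sm' / (sm * sn')) (γ + αn + αm' - αm - αn')
      (by positivity)
    · have t1 : |γ + αn + αm' - αm - αn'| ≤ |γ| + |αn| + |αm'| + |αm| + |αn'| := by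
        have a1 := abs_sub (γ + αn + αm' - αm) αn'
        have a2 := abs_sub (γ + αn + αm') αm
        have a3 := abs_add_le (γ + αn) αm'
        have a4 := abs_add_le γ αn
        linarith
      linarith
    · have hne : ((sm : ℂ) * sn' * Complex.exp (((αm + αn' : ℝ) : ℂ) * Complex.I)) ≠ 0 :=
        mul_ne_zero (mul_ne_zero hsm0 hsn0) (Complex.exp_ne_zero _)
      apply mul_left_cancel₀ hne
      rw [hC]
      have e3 : Complex.exp (((γ + αn + αm' : ℝ) : ℂ) * Complex.I) =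
          Complex.exp (((αm + αn' : ℝ) : ℂ) * Complex.I) *
            Complex.exp (((γ + αn + αm' - αm - αn' : ℝ) : ℂ) * Complex.I) := by
        rw [← Complex.exp_add]; congr 1; push_cast; ring
      rw [e3]
      push_cast
      field_simp

theorem good_of_power (θ : ℝ) (h0 : 0 < θ) (hpi : θ ≤ Real.pi) (n : ℕ) (hn : 1 ≤ n)
    (hV : ∀ m, 1 ≤ m → m ≤ n + 1 → θ ^ 2 * VA m < (Real.pi / 2) ^ 2)
    (hA : ∀ m, 1 ≤ m → m < n → |θ * (EA (m + 1) - EA m)| + dl m θ + dl (m + 1) θ < Real.pi)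
    (e : ℝ) (he : e < 1)
    (hE : ∀ N : ℕ, ∃ z : ℂ, z ≠ 0 ∧ ∀ j : ℕ, n ≤ j → j ≤ N →
      ‖pv j (yy θ) - z ^ j‖ ≤ e * ‖z‖ ^ j)
    (hR : |θ * (EA (n + 1) - EA n)| + dl n θ + dl (n + 1) θ + 4 * Real.arcsin e < Real.pi) :
    Good θ := by
  intro m hm
  rcases lt_or_ge m n with hlt | hge
  · obtain ⟨ρ, γ, hρ, hγ, hne, hr⟩ := regime1_ratio m hm θ (hV m hm (by omega))
      (hV (m + 1) (by omega) (by omega))
    exact goodAt_of_polar m _ hne ρ γ hρ (lt_of_le_of_lt hγ (hA m hm hlt)) hr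
  · obtain ⟨ρ, γ, hρ, hγ, hne, hr⟩ := regime1_ratio n hn θ (hV n hn (by omega))
      (hV (n + 1) (by omega) (by omega))
    exact ci4_goodAt (yy θ) (yy_ne_one θ h0 hpi) n hn e he hE ρ γ hρ hr
      (by linarith) m hge

end MP_d1b55a
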