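import Pool.Agent.Lib.MP_d1b55a_co.Reduction

/-!
MP_d1b55a_co, P1: `Good θ` from Regime I + dominance; zero-freeness of the closed unit disc from
`Good θ` on the circle (open mapping theorem).
-/

open Finset Polynomial

namespace MP_d1b55a

theorem regime1_ratio (m : ℕ) (hm : 1 ≤ m) (θ : ℝ) (h1 : θ ^ 2 * VA m < (Real.pi / 2) ^ 2)
    (h2 : θ ^ 2 * VA (m + 1) < (Real.pi / 2) ^ 2) :
    ∃ ρ γ : ℝ, 0 < ρ ∧ |γ| ≤ |θ * (EA (m + 1) - EA m)| + dl m θ + dl (m + 1) θ ∧
      av m (yy θ) ≠ 0 ∧
      av (m + 1) (yy θ) = (ρ : ℂ) * Complex.exp ((γ : ℂ) * Complex.I) * av m (yy θ) := by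
  obtain ⟨ψ, hψ, hne, hp⟩ := av_polar m hm θ h1
  obtain ⟨ψ', hψ', hne', hp'⟩ := av_polar (m + 1) (by omega) θ h2
  have hy : Complex.exp ((θ : ℂ) * Complex.I) = yy θ := rfl
  rw [hy] at hne hp hne' hp'
  have hn : 0 < ‖av m (yy θ)‖ := norm_pos_iff.mpr hne
  have hn' : 0 < ‖av (m + 1) (yy θ)‖ := norm_pos_iff.mpr hne'
  refine ⟨‖av (m + 1) (yy θ)‖ / ‖av m (yy θ)‖, θ * (EA (m + 1) - EA m) + ψ' - ψ, by positivity,
    ?_, hne, ?_⟩
  · have a1 := abs_sub (θ * (EA (m + 1) - EA m) + ψ') ψ
    have a2 := abs_add_le (θ * (EA (m + 1) - EA m)) ψ'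
    linarith
  · have e1 : Complex.exp (((θ * EA (m + 1) + ψ' : ℝ) : ℂ) * Complex.I) =
        Complex.exp (((θ * (EA (m + 1) - EA m) + ψ' - ψ : ℝ) : ℂ) * Complex.I) *
          Complex.exp (((θ * EA m + ψ : ℝ) : ℂ) * Complex.I) := by
      rw [← Complex.exp_add]; congr 1; push_cast; ring
    set r := ‖av m (yy θ)‖ with hr
    set r' := ‖av (m + 1) (yy θ)‖ with hr'
    have hnc : (r : ℂ) ≠ 0 := by exact_mod_cast hn.ne'
    rw [hp', hp, e1]
    push_cast
    field_simp

theorem yy_ne_one (θ : ℝ) (h0 : 0 < θ) (hpi : θ ≤ Real.pi) : yy θ ≠ 1 := by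
  intro h
  have hre := congrArg Complex.re h
  unfold yy at hre
  rw [Complex.exp_ofReal_mul_I_re, Complex.one_re] at hre
  have hp := Real.pi_pos
  have := (Real.cos_eq_one_iff_of_lt_of_lt (by linarith) (by linarith)).mp hre
  linarith

/-- `Good θ` from one index `n`. -/
theorem good_of_regimes (θ : ℝ) (h0 : 0 < θ) (hpi : θ ≤ Real.pi) (n : ℕ) (hn : 1 ≤ n)
    (hV : ∀ m, 1 ≤ m → m ≤ n + 1 → θ ^ 2 * VA m < (Real.pi / 2) ^ 2)
    (hA : ∀ m, 1 ≤ m → m < n →
      |θ * (EA (m + 1) - EA m)| + dl m θ + dl (m + 1) θ < Real.pi)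
    (e1 e2 : ℝ) (he1 : e1 < 1) (he2 : e2 ≤ e1) (hD : Dom (yy θ) n e1 e2)
    (hR : |θ * (EA (n + 1) - EA n)| + dl n θ + dl (n + 1) θ + 2 * Real.arcsin e1 +
      2 * Real.arcsin e2 < Real.pi) : Good θ := by
  intro m hm
  rcases lt_or_ge m n with hlt | hge
  · obtain ⟨ρ, γ, hρ, hγ, hne, hr⟩ := regime1_ratio m hm θ (hV m hm (by omega))
      (hV (m + 1) (by omega) (by omega))
    exact goodAt_of_polar m _ hne ρ γ hρ (lt_of_le_of_lt hγ (hA m hm hlt)) hr
  · obtain ⟨ρ, γ, hρ, hγ, hne, hr⟩ := regime1_ratio n hn θ (hV n hn (by omega))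
      (hV (n + 1) (by omega) (by omega))
    exact goodAt_of_dom (yy θ) (yy_ne_one θ h0 hpi) n hn e1 e2 he1 he2 hD ρ γ hρ hr
      (by linarith) m hge

/-- variant: exact information on the ratios up to `n` instead of Regime I -/
theorem good_of_dom (θ : ℝ) (h0 : 0 < θ) (hpi : θ ≤ Real.pi) (n : ℕ) (hn : 1 ≤ n)
    (hI : ∀ m, 1 ≤ m → m < n → GoodAt m (yy θ))
    (e1 e2 : ℝ) (he1 : e1 < 1) (he2 : e2 ≤ e1) (hD : Dom (yy θ) n e1 e2)
    (ρ γ : ℝ) (hρ : 0 < ρ)
    (hr : av (n + 1) (yy θ) = (ρ : ℂ) * Complex.exp ((γ : ℂ) * Complex.I) * av n (yy θ))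
    (hγ : |γ| + 2 * Real.arcsin e1 + 2 * Real.arcsin e2 < Real.pi) : Good θ := by
  intro m hm
  rcases lt_or_ge m n with hlt | hge
  · exact hI m hm hlt
  · exact goodAt_of_dom (yy θ) (yy_ne_one θ h0 hpi) n hn e1 e2 he1 he2 hD ρ γ hρ hr hγ m hge

/-! ### symmetry, value at `1` -/

theorem av_conj (n : ℕ) (y : ℂ) : av n (starRingEnd ℂ y) = starRingEnd ℂ (av n y) := by
  unfold av
  rw [aeval_eq_sum_range, aeval_eq_sum_range, map_sum]
  apply Finset.sum_congr rfl
  intro j _
  rw [Algebra.smul_def, Algebra.smul_def, map_mul, map_pow, eq_ratCast]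
  congr 1
  exact (map_ratCast (starRingEnd ℂ) _).symm

theorem av_at_one (n : ℕ) : av n 1 = ((a1 n : ℚ) : ℂ) := by
  unfold av a1
  have h : (1 : ℂ) = algebraMap ℚ ℂ 1 := by simp
  rw [h, aeval_algebraMap_apply_eq_algebraMap_eval]
  simp

theorem goodAt_one (m : ℕ) (hm : 1 ≤ m) : GoodAt m 1 := by
  have h1 := a1_pos m hm
  have h2 := a1_pos (m + 1) (by omega)
  refine ⟨?_, fun l hl h => ?_⟩
  · rw [av_at_one]
    exact_mod_cast h1.ne'
  · rw [av_at_one, av_at_one] at h
    have h3 : ((a1 (m + 1) : ℚ) : ℝ) + l * ((a1 m : ℚ) : ℝ) = 0 := by exact_mod_cast h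
    have h4 : (0 : ℝ) < ((a1 m : ℚ) : ℝ) := by exact_mod_cast h1
    have h5 : (0 : ℝ) < ((a1 (m + 1) : ℚ) : ℝ) := by exact_mod_cast h2
    nlinarith [mul_nonneg hl h4.le]

theorem goodAt_conj (m : ℕ) (y : ℂ) (h : GoodAt m y) : GoodAt m (starRingEnd ℂ y) := by
  refine ⟨?_, fun l hl h1 => ?_⟩
  · rw [av_conj]
    intro h1
    exact h.1 ((map_eq_zero _).mp h1)
  · apply h.2 l hl
    rw [av_conj, av_conj] at h1
    have h2 : starRingEnd ℂ (av (m + 1) y + (l : ℂ) * av m y) = 0 := by
      rw [map_add, map_mul, Complex.conj_ofReal]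
      exact h1
    exact (map_eq_zero _).mp h2

/-- the whole circle from the upper half -/
theorem goodAt_circle (H : ∀ θ : ℝ, 0 < θ → θ ≤ Real.pi → Good θ) (m : ℕ) (hm : 1 ≤ m)
    (y : ℂ) (hy : ‖y‖ = 1) : GoodAt m y := by
  have hpol : y = Complex.exp ((y.arg : ℂ) * Complex.I) := by
    have := Complex.norm_mul_exp_arg_mul_I y
    rw [hy, Complex.ofReal_one, one_mul] at this
    exact this.symm
  rcases lt_trichotomy y.arg 0 with h | h | h
  · have h1 := H (-y.arg) (by linarith) (by have := Complex.neg_pi_lt_arg y; linarith) m hm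
    have h2 := goodAt_conj m _ h1
    have h3 : starRingEnd ℂ (yy (-y.arg)) = y := by
      unfold yy
      rw [← Complex.exp_conj, map_mul, Complex.conj_ofReal, Complex.conj_I]
      conv_rhs => rw [hpol]
      congr 1
      push_cast
      ring
    rwa [h3] at h2
  · rw [h] at hpol
    have : y = 1 := by rw [hpol]; simp
    rw [this]
    exact goodAt_one m hm
  · have h1 := H y.arg h (Complex.arg_le_pi y) m hm
    have h3 : yy y.arg = y := hpol.symm
    rwa [h3] at h1

theorem av_analyticAt (n : ℕ) (y : ℂ) : AnalyticAt ℂ (av n) y := by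
  have : av n = fun y => eval y ((aP n).map (algebraMap ℚ ℂ)) := by
    funext y
    simp [av, eval_map_algebraMap]
  rw [this]
  exact (Polynomial.differentiable _).analyticAt y

theorem av_continuous (n : ℕ) : Continuous (av n) := by
  rw [continuous_iff_continuousAt]
  intro y
  exact (av_analyticAt n y).continuousAt

/-- **Zero-freeness of the closed disc.** -/
theorem av_ne_zero (H : ∀ θ : ℝ, 0 < θ → θ ≤ Real.pi → Good θ) (m : ℕ) (hm : 1 ≤ m) :
    ∀ y : ℂ, ‖y‖ ≤ 1 → av m y ≠ 0 := by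
  induction m, hm using Nat.le_induction with
  | base => intro y _; rw [av_one]; exact one_ne_zero
  | succ m hm ih =>
    intro y0 hy0 hzero
    set f : ℂ → ℂ := fun y => av (m + 1) y / av m y with hf
    have hfc : ∀ y : ℂ, ‖y‖ ≤ 1 → ContinuousAt f y := fun y hy =>
      ((av_continuous (m + 1)).continuousAt).div ((av_continuous m).continuousAt) (ih y hy)
    have hfa : ∀ y : ℂ, ‖y‖ ≤ 1 → AnalyticAt ℂ f y := fun y hy =>
      (av_analyticAt (m + 1) y).div (av_analyticAt m y) (ih y hy)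
    -- the set of `l` with `f y = -l` somewhere in the closed disc
    set K : Set ℂ := Metric.closedBall (0 : ℂ) 1 with hK
    have hKc : IsCompact K := isCompact_closedBall 0 1
    have hmemK : ∀ y, y ∈ K ↔ ‖y‖ ≤ 1 := fun y => by simp [hK]
    have hfcont : ContinuousOn f K := fun y hy => (hfc y ((hmemK y).mp hy)).continuousWithinAt
    set S : Set ℂ := K ∩ f ⁻¹' {w : ℂ | w.im = 0 ∧ w.re ≤ 0} with hS
    have hclosed : IsClosed {w : ℂ | w.im = 0 ∧ w.re ≤ 0} :=
      (isClosed_eq Complex.continuous_im continuous_const).inter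
        (isClosed_le Complex.continuous_re continuous_const)
    have hSc : IsCompact S := by
      have h1 : IsClosed S := hfcont.preimage_isClosed_of_isClosed hKc.isClosed hclosed
      exact hKc.of_isClosed_subset h1 Set.inter_subset_left
    have hSne : S.Nonempty := by
      refine ⟨y0, (hmemK y0).mpr hy0, ?_⟩
      have : f y0 = 0 := by simp [hf, hzero]
      simp [this]
    obtain ⟨y1, hy1S, hmin⟩ := hSc.exists_isMinOn hSne
      (f := fun y => (f y).re) ((Complex.continuous_re.comp_continuousOn hfcont).mono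
        Set.inter_subset_left)
    have hy1K : ‖y1‖ ≤ 1 := (hmemK y1).mp hy1S.1
    have hy1f : (f y1).im = 0 ∧ (f y1).re ≤ 0 := hy1S.2
    -- on the circle `f` avoids the ray
    have hcirc : ∀ y : ℂ, ‖y‖ = 1 → ¬ ((f y).im = 0 ∧ (f y).re ≤ 0) := by
      rintro y hy ⟨him, hre⟩
      have hg := goodAt_circle H m hm y hy
      apply hg.2 (-(f y).re) (by linarith)
      have h1 : f y = (((f y).re : ℝ) : ℂ) := by
        apply Complex.ext
        · simp
        · simp [him]
      have h2 : av (m + 1) y = f y * av m y := by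
        simp only [hf]
        rw [div_mul_cancel₀ _ hg.1]
      rw [h2]
      conv_lhs => rw [h1]
      push_cast
      simp
    have hy1lt : ‖y1‖ < 1 := by
      rcases lt_or_eq_of_le hy1K with h | h
      · exact h
      · exact absurd hy1f (hcirc y1 h)
    rcases (hfa y1 hy1K).eventually_constant_or_nhds_le_map_nhds with hconst | hopen
    · -- constant
      have hball : Set.EqOn f (fun _ => f y1) (Metric.ball (0 : ℂ) 1) := by
        apply AnalyticOnNhd.eqOn_of_preconnected_of_eventuallyEq (𝕜 := ℂ) (z₀ := y1)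
        · intro y hy
          apply hfa y
          have : ‖y‖ < 1 := by simpa using hy
          exact this.le
        · exact analyticOnNhd_const
        · exact (convex_ball (0 : ℂ) 1).isPreconnected
        · simpa using hy1lt
        · exact hconst
      -- continuity at 1
      have h1 : f 1 = f y1 := by
        have hseq : Filter.Tendsto (fun k : ℕ => f (((1 - 1 / ((k : ℝ) + 1) : ℝ)) : ℂ))
            Filter.atTop (nhds (f 1)) := by
          have hc : ContinuousAt f 1 := hfc 1 (by simp)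
          apply hc.tendsto.comp
          have h2 : Filter.Tendsto (fun k : ℕ => (1 - 1 / ((k : ℝ) + 1) : ℝ)) Filter.atTop
              (nhds 1) := by
            have := tendsto_one_div_add_atTop_nhds_zero_nat (𝕜 := ℝ)
            simpa using this.const_sub 1
          have h3 : Filter.Tendsto (fun k : ℕ => (((1 - 1 / ((k : ℝ) + 1) : ℝ)) : ℂ)) Filter.atTop
              (nhds ((1 : ℝ) : ℂ)) := (Complex.continuous_ofReal.tendsto 1).comp h2
          rwa [Complex.ofReal_one] at h3
        have hval : ∀ k : ℕ, f (((1 - 1 / ((k : ℝ) + 1) : ℝ)) : ℂ) = f y1 := by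
          intro k
          apply hball
          rw [Metric.mem_ball, dist_zero_right, Complex.norm_real, Real.norm_eq_abs]
          have hk : (0 : ℝ) < (k : ℝ) + 1 := by positivity
          have h4 : 0 < 1 / ((k : ℝ) + 1) := by positivity
          have h5 : 1 / ((k : ℝ) + 1) ≤ 1 := by
            rw [div_le_one hk]
            have : (0 : ℝ) ≤ k := by positivity
            linarith
          rw [abs_of_nonneg (by linarith)]
          linarith
        rw [funext hval] at hseq
        exact (tendsto_nhds_unique hseq tendsto_const_nhds)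
      have := hcirc 1 (by simp)
      rw [h1] at this
      exact this hy1f
    · -- open
      have hUnhds : Metric.ball (0 : ℂ) 1 ∈ nhds y1 :=
        Metric.isOpen_ball.mem_nhds (by simpa using hy1lt)
      have himg : f '' Metric.ball (0 : ℂ) 1 ∈ nhds (f y1) :=
        hopen (Filter.image_mem_map hUnhds)
      rw [Metric.mem_nhds_iff] at himg
      obtain ⟨ε, hε, hsub⟩ := himg
      have hpt : f y1 - ((ε / 2 : ℝ) : ℂ) ∈ f '' Metric.ball (0 : ℂ) 1 := by
        apply hsub
        rw [Metric.mem_ball, dist_eq_norm]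
        have : f y1 - ((ε / 2 : ℝ) : ℂ) - f y1 = -((ε / 2 : ℝ) : ℂ) := by ring
        rw [this, norm_neg, Complex.norm_real, Real.norm_eq_abs, abs_of_pos (by linarith)]
        linarith
      obtain ⟨y2, hy2, hfy2⟩ := hpt
      have hy2' : ‖y2‖ < 1 := by simpa using hy2
      have hy2S : y2 ∈ S := by
        refine ⟨(hmemK y2).mpr hy2'.le, ?_⟩
        rw [Set.mem_preimage, hfy2]
        constructor
        · rw [Complex.sub_im, Complex.ofReal_im, hy1f.1, sub_zero]
        · rw [Complex.sub_re, Complex.ofReal_re]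
          linarith [hy1f.2]
      have h6 := hmin hy2S
      change (f y1).re ≤ (f y2).re at h6
      rw [hfy2, Complex.sub_re, Complex.ofReal_re] at h6
      linarith

end MP_d1b55a
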