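import Pool.Agent.Lib.MP_d1b55a_co.QBound
import Pool.Agent.Lib.MP_d1b55a_co.Final

/-!
MP_d1b55a_co, P1: the small `θ` wrapper. `h = θ^(2/3)` (given by `θ^2 = h^3`), `h ≤ 1/20`,
one index `n` with `n h ≤ 18 / 5`.
* `good_small`: dominance with `e ≤ 1/2` at `n`, `n+1` implies `Good θ`.
* `pv_lower`, `pv_lower_num`: lower bound of `|p_n|` in units of `(e θ)^n`.
-/

namespace MP_d1b55a

theorem var_small (θ h : ℝ) (hh0 : 0 < h) (hh : h ≤ 1 / 20) (hθh : θ ^ 2 = h ^ 3)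
    (m : ℕ) (hm : 1 ≤ m) (W : ℝ) (hW : (m : ℝ) * h ≤ W) :
    θ ^ 2 * VA m ≤ 1199 / 50000 * W ^ 3 + W ^ 2 / 720 := by
  have h1 := VA_le m hm
  have hpi := Real.pi_gt_d4
  have hw0 : 0 ≤ (m : ℝ) * h := by positivity
  have hW0 : 0 ≤ W := hw0.trans hW
  have h2 : θ ^ 2 * VA m ≤ θ ^ 2 * ((5 / 12 - Real.pi / 8) * (m : ℝ) ^ 3 + (m : ℝ) ^ 2 / 36) :=
    mul_le_mul_of_nonneg_left h1 (sq_nonneg θ)
  have h3 : θ ^ 2 * ((5 / 12 - Real.pi / 8) * (m : ℝ) ^ 3 + (m : ℝ) ^ 2 / 36) =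
      (5 / 12 - Real.pi / 8) * ((m : ℝ) * h) ^ 3 + ((m : ℝ) * h) ^ 2 * h / 36 := by
    rw [hθh]; ring
  rw [h3] at h2
  have h4 : ((m : ℝ) * h) ^ 3 ≤ W ^ 3 := pow_le_pow_left₀ hw0 hW 3
  have h5 : ((m : ℝ) * h) ^ 2 ≤ W ^ 2 := pow_le_pow_left₀ hw0 hW 2
  have h6 : (5 / 12 - Real.pi / 8) * ((m : ℝ) * h) ^ 3 ≤ 1199 / 50000 * W ^ 3 := by
    apply mul_le_mul _ h4 (by positivity) (by norm_num)
    norm_num at hpi ⊢
    linarith
  have h7 : ((m : ℝ) * h) ^ 2 * h / 36 ≤ W ^ 2 / 720 := by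
    have : ((m : ℝ) * h) ^ 2 * h ≤ W ^ 2 * (1 / 20) := mul_le_mul h5 hh hh0.le (by positivity)
    linarith
  linarith

theorem dl_small (n : ℕ) (θ : ℝ) (h : θ ^ 2 * VA n ≤ 237 / 200) : dl n θ ≤ 11 / 25 := by
  unfold dl
  have hpi := Real.pi_gt_d4
  have hpi2 := Real.pi_lt_d4
  have h1 : (1.131 : ℝ) ≤ √((Real.pi / 2) ^ 2 - θ ^ 2 * VA n) := by
    apply Real.le_sqrt_of_sq_le
    have h2 : (3.1415 / 2 : ℝ) ^ 2 ≤ (Real.pi / 2) ^ 2 :=
      pow_le_pow_left₀ (by norm_num) (by linarith) 2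
    norm_num at h2 h ⊢
    linarith
  norm_num at h1 hpi2 ⊢
  linarith

theorem incr_small (θ h : ℝ) (h0 : 0 < θ) (hh0 : 0 < h) (hh : h ≤ 1 / 20) (hθh : θ ^ 2 = h ^ 3)
    (m : ℕ) (hm : 1 ≤ m) (hmh : (m : ℝ) * h ≤ 18 / 5) :
    |θ * (EA (m + 1) - EA m)| ≤ 189 / 2000 := by
  rw [abs_mul, abs_of_pos h0]
  have h1 := EA_incr m hm
  have hm' : (1 : ℝ) ≤ m := by exact_mod_cast hm
  have hpi := Real.pi_gt_d4
  have hpi2 := Real.pi_lt_d4
  have hpi3 := Real.pi_gt_three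
  set x := √(Real.pi * m / 2) with hx
  have hxx : x * x = Real.pi * m / 2 := Real.mul_self_sqrt (by positivity)
  have hx1 : 1.22 ≤ x := by
    rw [hx]
    apply Real.le_sqrt_of_sq_le
    have : 3 * 1 ≤ Real.pi * m := mul_le_mul hpi3.le hm' (by norm_num) Real.pi_pos.le
    norm_num
    linarith
  have h2 : 13 * Real.pi / (48 * x) ≤ 7 / 3 := by
    rw [div_le_iff₀ (by positivity)]
    norm_num at hpi2
    linarith
  have h3 : |EA (m + 1) - EA m| ≤ 19 / 24 * x := by linarith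
  have h4 : θ * |EA (m + 1) - EA m| ≤ θ * (19 / 24 * x) := mul_le_mul_of_nonneg_left h3 h0.le
  have h5 : θ * x ≤ 0.119 := by
    apply abs_le_of_sq_le_sq' _ (by norm_num) |>.2
    have : (θ * x) ^ 2 = h ^ 2 * (Real.pi / 2) * (m * h) := by
      calc (θ * x) ^ 2 = θ ^ 2 * (x * x) := by ring
        _ = h ^ 2 * (Real.pi / 2) * (m * h) := by rw [hθh, hxx]; ring
    rw [this]
    have h6 : h ^ 2 ≤ (1 / 20) ^ 2 := pow_le_pow_left₀ hh0.le hh 2
    have h7 : h ^ 2 * (Real.pi / 2) ≤ (1 / 20) ^ 2 * (3.1416 / 2) :=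
      mul_le_mul h6 (by linarith) (by positivity) (by norm_num)
    have h8 : h ^ 2 * (Real.pi / 2) * (m * h) ≤ (1 / 20) ^ 2 * (3.1416 / 2) * (18 / 5) :=
      mul_le_mul h7 hmh (by positivity) (by norm_num)
    norm_num at h8 ⊢
    linarith
  norm_num at h5 ⊢
  linarith

theorem arcsin_half : Real.arcsin (1 / 2) = Real.pi / 6 := by
  rw [← Real.sin_pi_div_six]
  apply Real.arcsin_sin
  · have := Real.pi_pos; linarith
  · have := Real.pi_pos; linarith

/-- **Small `θ`**: dominance with ratio `1/2` at one index `n ≤ 18 / 5 θ^(-2/3)` suffices. -/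
theorem good_small (θ h : ℝ) (h0 : 0 < θ) (hh0 : 0 < h) (hh : h ≤ 1 / 20) (hθh : θ ^ 2 = h ^ 3)
    (n : ℕ) (hn : 1 ≤ n) (hnh : (n : ℝ) * h ≤ 18 / 5) (e : ℝ) (he : e ≤ 1 / 2)
    (hD : Dom (yy θ) n e e) : Good θ := by
  have hpi := Real.pi_gt_d4
  have hθpi : θ ≤ Real.pi := by
    have h1 : θ ^ 2 ≤ 1 := by
      rw [hθh]
      calc h ^ 3 ≤ 1 ^ 3 := pow_le_pow_left₀ hh0.le (by linarith) 3
        _ = 1 := by norm_num
    have h2 : θ ≤ 1 := by nlinarith
    norm_num at hpi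
    linarith
  have hVm : ∀ m, 1 ≤ m → m ≤ n + 1 → θ ^ 2 * VA m ≤ 237 / 200 := by
    intro m hm hmn
    have hmn' : (m : ℝ) ≤ n + 1 := by exact_mod_cast hmn
    have h1 : (m : ℝ) * h ≤ 73 / 20 := by
      have : (m : ℝ) * h ≤ (n + 1) * h := mul_le_mul_of_nonneg_right hmn' hh0.le
      have : ((n : ℝ) + 1) * h = n * h + h := by ring
      norm_num at hnh ⊢
      linarith
    have h2 := var_small θ h hh0 hh hθh m hm (73 / 20) h1
    norm_num at h2 ⊢
    linarith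
  have hpi2 : (237 / 200 : ℝ) < (Real.pi / 2) ^ 2 := by
    have h2 : (3.1415 / 2 : ℝ) ^ 2 ≤ (Real.pi / 2) ^ 2 :=
      pow_le_pow_left₀ (by norm_num) (by linarith) 2
    norm_num at h2 ⊢
    linarith
  have harc : Real.arcsin e ≤ Real.pi / 6 := by
    rw [← arcsin_half]
    exact Real.arcsin_le_arcsin he
  apply good_of_regimes θ h0 hθpi n hn
  · intro m hm hmn
    exact lt_of_le_of_lt (hVm m hm hmn) hpi2
  · intro m hm hmn
    have h1 := incr_small θ h h0 hh0 hh hθh m hm (by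
      have : (m : ℝ) * h ≤ n * h :=
        mul_le_mul_of_nonneg_right (by exact_mod_cast hmn.le) hh0.le
      linarith)
    have h2 := dl_small m θ (hVm m hm (by omega))
    have h3 := dl_small (m + 1) θ (hVm (m + 1) (by omega) (by omega))
    norm_num at hpi
    linarith
  · exact lt_of_le_of_lt he (by norm_num)
  · exact le_refl e
  · exact hD
  · have h1 := incr_small θ h h0 hh0 hh hθh n hn hnh
    have h2 := dl_small n θ (hVm n hn (by omega))
    have h3 := dl_small (n + 1) θ (hVm (n + 1) (by omega) le_rfl)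
    norm_num at hpi
    linarith

/-! ### lower bound of `|p_n|` -/

theorem stirling_upper (n : ℕ) (hn : 1 ≤ n) :
    Real.log (Stirling.stirlingSeq n) - 1 / (12 * n) ≤ Real.log (√Real.pi) := by
  set f : ℕ → ℝ := fun k => Real.log (Stirling.stirlingSeq (k + 1)) - 1 / (12 * ((k : ℝ) + 1))
    with hf
  have hmono : Monotone f := by
    apply monotone_nat_of_le_succ
    intro k
    have h := Stirling.log_stirlingSeq_sdiff_le (k + 1)
    simp only [hf]
    have h2 : (1 : ℝ) / (12 * ((k + 1 : ℕ) : ℝ) * (((k + 1 : ℕ) : ℝ) + 1)) =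
        1 / (12 * ((k : ℝ) + 1)) - 1 / (12 * (((k + 1 : ℕ) : ℝ) + 1)) := by
      push_cast
      field_simp
      ring
    rw [h2] at h
    linarith
  have hlim : Filter.Tendsto f Filter.atTop (nhds (Real.log (√Real.pi) - 0)) := by
    apply Filter.Tendsto.sub
    · have h1 : Filter.Tendsto (fun k : ℕ => Stirling.stirlingSeq (k + 1)) Filter.atTop
          (nhds (√Real.pi)) :=
        Stirling.tendsto_stirlingSeq_sqrt_pi.comp (Filter.tendsto_add_atTop_nat 1)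
      exact ((Real.continuousAt_log (by positivity)).tendsto).comp h1
    · have h2 := tendsto_one_div_add_atTop_nhds_zero_nat (𝕜 := ℝ)
      have h3 := h2.const_mul (1 / 12 : ℝ)
      rw [mul_zero] at h3
      refine h3.congr ?_
      intro k
      field_simp
  rw [sub_zero] at hlim
  have h1 := hmono.ge_of_tendsto hlim (n - 1)
  simp only [hf] at h1
  have h2 : n - 1 + 1 = n := by omega
  have h3 : ((n - 1 : ℕ) : ℝ) + 1 = n := by
    rw [Nat.cast_sub hn]; push_cast; ring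
  rw [h2, h3] at h1
  exact h1

theorem factorial_upper (n : ℕ) (hn : 1 ≤ n) : (n.factorial : ℝ) ≤
    √(2 * Real.pi * n) * ((n : ℝ) / Real.exp 1) ^ n * Real.exp (1 / (12 * n)) := by
  have hn' : (0 : ℝ) < n := by exact_mod_cast hn
  have h := stirling_upper n hn
  have hpos : 0 < Stirling.stirlingSeq n := by
    have : n = (n - 1) + 1 := by omega
    rw [this]
    exact Stirling.stirlingSeq'_pos _
  have h1 : Stirling.stirlingSeq n ≤ √Real.pi * Real.exp (1 / (12 * n)) := by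
    rw [← Real.log_le_log_iff hpos (by positivity), Real.log_mul (by positivity) (by positivity),
      Real.log_exp]
    linarith
  unfold Stirling.stirlingSeq at h1
  rw [div_le_iff₀ (by positivity)] at h1
  refine h1.trans (le_of_eq ?_)
  have : √(2 * Real.pi * n) = √Real.pi * √(2 * n) := by
    rw [← Real.sqrt_mul Real.pi_pos.le]
    congr 1
    ring
  rw [this]
  ring

theorem norm_one_sub_yy (θ : ℝ) (h0 : 0 ≤ θ) (h1 : θ ≤ 2 * Real.pi) :
    ‖1 - yy θ‖ = 2 * Real.sin (θ / 2) := by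
  have hs : 0 ≤ Real.sin (θ / 2) := Real.sin_nonneg_of_nonneg_of_le_pi (by linarith) (by linarith)
  have h2 : ‖1 - yy θ‖ ^ 2 = (2 * Real.sin (θ / 2)) ^ 2 := by
    rw [Complex.sq_norm, Complex.normSq_apply]
    unfold yy
    rw [Complex.sub_re, Complex.sub_im, Complex.exp_ofReal_mul_I_re, Complex.exp_ofReal_mul_I_im,
      Complex.one_re, Complex.one_im]
    have h3 : Real.cos θ = 1 - 2 * Real.sin (θ / 2) ^ 2 := by
      have h2 := Real.cos_two_mul (θ / 2)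
      have h4 := Real.sin_sq_add_cos_sq (θ / 2)
      have h5 : 2 * (θ / 2) = θ := by ring
      rw [h5] at h2
      linarith
    have h5 := Real.sin_sq_add_cos_sq θ
    nlinarith
  exact (pow_left_inj₀ (norm_nonneg _) (by positivity) (by norm_num)).mp h2

/-- lower bound of `|p_n(e^{iθ})|` -/
theorem norm_pv_ge (n : ℕ) (hn : 1 ≤ n) (θ : ℝ) (h0 : 0 ≤ θ) (hpi : θ ≤ Real.pi)
    (h : θ ^ 2 * VA n ≤ (Real.pi / 2) ^ 2) :
    (2 * Real.sin (θ / 2)) ^ (n - 1) * ((a1 n : ℝ) * Real.cos (√(θ ^ 2 * VA n))) ≤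
      ‖pv n (yy θ)‖ := by
  unfold pv
  rw [norm_mul, norm_pow, norm_one_sub_yy θ h0 (by have := Real.pi_pos; linarith)]
  have hs : 0 ≤ Real.sin (θ / 2) := Real.sin_nonneg_of_nonneg_of_le_pi (by linarith)
    (by linarith [Real.pi_pos])
  apply mul_le_mul_of_nonneg_left _ (by positivity)
  exact norm_av_ge n hn θ h

/-- lower bound of `|p_n|` in units of `(e θ)^n` -/
theorem pv_lower (n : ℕ) (hn : 1 ≤ n) (θ : ℝ) (h0 : 0 < θ) (hθ1 : θ ≤ 1)
    (h : θ ^ 2 * VA n ≤ (Real.pi / 2) ^ 2) :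
    (Real.exp 1 * θ) ^ n * (Real.cos (√(θ ^ 2 * VA n)) * (1 - n * θ ^ 2 / 16) *
      Real.exp (-(1 / (12 * n))) / (√(2 * Real.pi) * √(θ ^ 2 * (n : ℝ) ^ 3))) ≤
      ‖pv n (yy θ)‖ := by
  have hn' : (1 : ℝ) ≤ n := by exact_mod_cast hn
  have hn0 : (0 : ℝ) < n := by linarith
  have hpi3 := Real.pi_gt_three
  refine le_trans ?_ (norm_pv_ge n hn θ h0.le (by linarith) h)
  have hcos : 0 ≤ Real.cos (√(θ ^ 2 * VA n)) := by
    apply Real.cos_nonneg_of_neg_pi_div_two_le_of_le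
    · have := Real.sqrt_nonneg (θ ^ 2 * VA n)
      linarith
    · rw [← Real.sqrt_sq (by positivity : (0 : ℝ) ≤ Real.pi / 2)]
      exact Real.sqrt_le_sqrt h
  set c := Real.cos (√(θ ^ 2 * VA n)) with hc
  -- `2 sin(θ/2) ≥ θ (1 - θ²/16)`
  have hsin : θ * (1 - θ ^ 2 / 16) ≤ 2 * Real.sin (θ / 2) := by
    have h2 := Real.sin_gt_sub_cube (x := θ / 2) (by linarith)
    have h3 : 2 * (θ / 2 - (θ / 2) ^ 3 / 6) = θ * (1 - θ ^ 2 / 16) + θ ^ 3 / 48 := by ring
    have h4 : 0 ≤ θ ^ 3 / 48 := by positivity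
    linarith
  have hθ2 : θ ^ 2 ≤ 1 := by nlinarith
  have hb0 : 0 ≤ 1 - θ ^ 2 / 16 := by linarith
  have hpow : θ ^ (n - 1) * (1 - n * θ ^ 2 / 16) ≤ (2 * Real.sin (θ / 2)) ^ (n - 1) := by
    have h2 : (θ * (1 - θ ^ 2 / 16)) ^ (n - 1) ≤ (2 * Real.sin (θ / 2)) ^ (n - 1) :=
      pow_le_pow_left₀ (by positivity) hsin _
    refine le_trans ?_ h2
    rw [mul_pow]
    apply mul_le_mul_of_nonneg_left _ (by positivity)
    have h3 := one_add_mul_le_pow (a := -(θ ^ 2 / 16)) (by linarith) (n - 1)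
    have h4 : (1 : ℝ) + -(θ ^ 2 / 16) = 1 - θ ^ 2 / 16 := by ring
    rw [h4] at h3
    refine le_trans ?_ h3
    have h5 : ((n - 1 : ℕ) : ℝ) ≤ n := by
      rw [Nat.cast_sub hn]; push_cast; linarith
    have h6 : ((n - 1 : ℕ) : ℝ) * (θ ^ 2 / 16) ≤ n * (θ ^ 2 / 16) :=
      mul_le_mul_of_nonneg_right h5 (by positivity)
    have h7 : (n : ℝ) * θ ^ 2 / 16 = n * (θ ^ 2 / 16) := by ring
    rw [h7]
    have h8 : (((n - 1 : ℕ) : ℝ)) * -(θ ^ 2 / 16) = -(((n - 1 : ℕ) : ℝ) * (θ ^ 2 / 16)) := by ring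
    rw [h8]
    linarith
  -- factorial
  have hfac := factorial_upper n hn
  have hfpos : (0 : ℝ) < n.factorial := by exact_mod_cast n.factorial_pos
  have ha1 : (a1 n : ℝ) = (n : ℝ) ^ n / (n * (n.factorial : ℝ)) := by
    rw [a1_formula]; push_cast; rfl
  have he : 0 < Real.exp 1 := Real.exp_pos 1
  have hs2 : √(2 * Real.pi * n) = √(2 * Real.pi) * √n := by
    rw [Real.sqrt_mul (by positivity)]
  have hs3 : √(θ ^ 2 * (n : ℝ) ^ 3) = θ * (n * √n) := by
    rw [Real.sqrt_mul (by positivity), Real.sqrt_sq h0.le]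
    congr 1
    have : (n : ℝ) ^ 3 = n ^ 2 * n := by ring
    rw [this, Real.sqrt_mul (by positivity), Real.sqrt_sq hn0.le]
  have hlow : Real.exp 1 ^ n * Real.exp (-(1 / (12 * n))) / (n * (√(2 * Real.pi) * √n)) ≤
      (a1 n : ℝ) := by
    rw [ha1, div_le_div_iff₀ (by positivity) (by positivity)]
    have h2 : Real.exp 1 ^ n * Real.exp (-(1 / (12 * n))) * (n * (n.factorial : ℝ)) ≤
        Real.exp 1 ^ n * Real.exp (-(1 / (12 * n))) * (n * (√(2 * Real.pi * n) *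
          ((n : ℝ) / Real.exp 1) ^ n * Real.exp (1 / (12 * n)))) := by
      apply mul_le_mul_of_nonneg_left _ (by positivity)
      exact mul_le_mul_of_nonneg_left hfac hn0.le
    refine h2.trans (le_of_eq ?_)
    rw [hs2, div_pow]
    have h3 : Real.exp (-(1 / (12 * (n : ℝ)))) * Real.exp (1 / (12 * n)) = 1 := by
      rw [← Real.exp_add]; simp
    have h4 : Real.exp 1 ^ n ≠ 0 := by positivity
    field_simp
    linear_combination h3
  rcases le_or_gt (1 - n * θ ^ 2 / 16) 0 with hneg | hposi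
  · have : (Real.exp 1 * θ) ^ n * (c * (1 - n * θ ^ 2 / 16) *
      Real.exp (-(1 / (12 * n))) / (√(2 * Real.pi) * √(θ ^ 2 * (n : ℝ) ^ 3))) ≤ 0 := by
      apply mul_nonpos_of_nonneg_of_nonpos (by positivity)
      apply div_nonpos_of_nonpos_of_nonneg _ (by positivity)
      apply mul_nonpos_of_nonpos_of_nonneg _ (by positivity)
      exact mul_nonpos_of_nonneg_of_nonpos hcos hneg
    refine this.trans ?_
    have hs : 0 ≤ Real.sin (θ / 2) := Real.sin_nonneg_of_nonneg_of_le_pi (by linarith)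
      (by linarith)
    have : 0 ≤ (a1 n : ℝ) := by exact_mod_cast (a1_pos n hn).le
    positivity
  · have h9 : θ ^ (n - 1) * (1 - n * θ ^ 2 / 16) * ((Real.exp 1 ^ n *
        Real.exp (-(1 / (12 * n))) / (n * (√(2 * Real.pi) * √n))) * c) ≤
        (2 * Real.sin (θ / 2)) ^ (n - 1) * ((a1 n : ℝ) * c) := by
      apply mul_le_mul hpow _ (by positivity) _
      · exact mul_le_mul_of_nonneg_right hlow hcos
      · have hs : 0 ≤ Real.sin (θ / 2) := Real.sin_nonneg_of_nonneg_of_le_pi (by linarith)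
          (by linarith)
        positivity
    refine le_trans (le_of_eq ?_) h9
    rw [hs3, mul_pow]
    have h10 : θ ^ n = θ ^ (n - 1) * θ := by
      rw [← pow_succ]; congr 1; omega
    rw [h10]
    field_simp

/-- cosine lower bound by repeated doubling -/
theorem cos_small (x : ℝ) (hx0 : 0 ≤ x) (hx : x ≤ 10663 / 10000) : 0.483 ≤ Real.cos x := by
  have h1 : Real.cos (10663 / 10000) ≤ Real.cos x := by
    apply Real.cos_le_cos_of_nonneg_of_le_pi hx0 _ hx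
    have := Real.pi_gt_three
    linarith
  refine le_trans ?_ h1
  have hd : ∀ y c : ℝ, 0 ≤ c → c ≤ Real.cos y → 2 * c ^ 2 - 1 ≤ Real.cos (2 * y) := by
    intro y c hc hcy
    rw [Real.cos_two_mul]
    have : c ^ 2 ≤ Real.cos y ^ 2 := pow_le_pow_left₀ hc hcy 2
    linarith
  have s0 : (0.997779 : ℝ) ≤ Real.cos (10663 / 160000) := by
    have := Real.one_sub_sq_div_two_le_cos (x := (10663 / 160000 : ℝ))
    refine le_trans ?_ this
    norm_num
  have s1 : (0.991125 : ℝ) ≤ Real.cos (10663 / 80000) := by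
    have := hd _ _ (by norm_num) s0
    have e : (2 : ℝ) * (10663 / 160000) = 10663 / 80000 := by norm_num
    rw [e] at this
    refine le_trans ?_ this
    norm_num
  have s2 : (0.964657 : ℝ) ≤ Real.cos (10663 / 40000) := by
    have := hd _ _ (by norm_num) s1
    have e : (2 : ℝ) * (10663 / 80000) = 10663 / 40000 := by norm_num
    rw [e] at this
    refine le_trans ?_ this
    norm_num
  have s3 : (0.861126 : ℝ) ≤ Real.cos (10663 / 20000) := by
    have := hd _ _ (by norm_num) s2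
    have e : (2 : ℝ) * (10663 / 40000) = 10663 / 20000 := by norm_num
    rw [e] at this
    refine le_trans ?_ this
    norm_num
  have := hd _ _ (by norm_num) s3
  have e : (2 : ℝ) * (10663 / 20000) = 10663 / 10000 := by norm_num
  rw [e] at this
  refine le_trans ?_ this
  norm_num

/-- numerical form: `|p_n| ≥ 0.028 (eθ)^n` for `n h ≤ 3.6`, `n ≥ 30`, `h ≤ 1/20` -/
theorem pv_lower_num (θ h : ℝ) (h0 : 0 < θ) (hh0 : 0 < h) (hh : h ≤ 1 / 20) (hθh : θ ^ 2 = h ^ 3)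
    (n : ℕ) (hn : 30 ≤ n) (hnh : (n : ℝ) * h ≤ 18 / 5) :
    (Real.exp 1 * θ) ^ n * 0.028 ≤ ‖pv n (yy θ)‖ := by
  have hn1 : 1 ≤ n := by omega
  have hn' : (30 : ℝ) ≤ n := by exact_mod_cast hn
  have hn0 : (0 : ℝ) < n := by linarith
  have hpi := Real.pi_gt_d4
  have hpi2 := Real.pi_lt_d4
  have hv := var_small θ h hh0 hh hθh n hn1 (18 / 5) hnh
  have hv2 : θ ^ 2 * VA n ≤ (10663 / 10000) ^ 2 := by
    refine hv.trans ?_
    norm_num
  have hpisq : ((10663 / 10000 : ℝ)) ^ 2 ≤ (Real.pi / 2) ^ 2 := by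
    apply pow_le_pow_left₀ (by norm_num)
    norm_num at hpi
    linarith
  have hθ2 : θ ^ 2 ≤ 1 / 8000 := by
    rw [hθh]
    calc h ^ 3 ≤ (1 / 20) ^ 3 := pow_le_pow_left₀ hh0.le hh 3
      _ = 1 / 8000 := by norm_num
  have hθ1 : θ ≤ 1 := by nlinarith
  refine le_trans ?_ (pv_lower n hn1 θ h0 hθ1 (hv2.trans hpisq))
  have he : 0 < Real.exp 1 := Real.exp_pos 1
  apply mul_le_mul_of_nonneg_left _ (by positivity)
  have hcos : 0.483 ≤ Real.cos (√(θ ^ 2 * VA n)) := by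
    apply cos_small _ (Real.sqrt_nonneg _)
    rw [Real.sqrt_le_left (by norm_num)]
    exact hv2
  have hfac1 : 0.9994 ≤ 1 - n * θ ^ 2 / 16 := by
    have h1 : (n : ℝ) * θ ^ 2 = (n * h) * h ^ 2 := by rw [hθh]; ring
    have h2 : h ^ 2 ≤ (1 / 20) ^ 2 := pow_le_pow_left₀ hh0.le hh 2
    have h3 : ((n : ℝ) * h) * h ^ 2 ≤ 18 / 5 * (1 / 20) ^ 2 :=
      mul_le_mul hnh h2 (by positivity) (by norm_num)
    rw [h1]
    norm_num at h3 ⊢
    linarith
  have hexp : 0.9972 ≤ Real.exp (-(1 / (12 * n))) := by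
    have h1 := Real.add_one_le_exp (-(1 / (12 * (n : ℝ))))
    have h2 : 1 / (12 * (n : ℝ)) ≤ 1 / 360 := by
      apply one_div_le_one_div_of_le (by norm_num)
      linarith
    norm_num at h2 ⊢
    norm_num at h1
    linarith
  have hden : √(2 * Real.pi) * √(θ ^ 2 * (n : ℝ) ^ 3) ≤ 17.125 := by
    rw [← Real.sqrt_mul (by positivity), Real.sqrt_le_left (by norm_num)]
    have h1 : θ ^ 2 * (n : ℝ) ^ 3 = (n * h) ^ 3 := by rw [hθh]; ring
    have h3 : ((n : ℝ) * h) ^ 3 ≤ (18 / 5) ^ 3 := pow_le_pow_left₀ (by positivity) hnh 3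
    rw [h1]
    have h4 : 2 * Real.pi * ((n : ℝ) * h) ^ 3 ≤ 2 * 3.1416 * (18 / 5) ^ 3 := by
      apply mul_le_mul _ h3 (by positivity) (by norm_num)
      linarith
    refine h4.trans ?_
    norm_num
  have hden0 : 0 < √(2 * Real.pi) * √(θ ^ 2 * (n : ℝ) ^ 3) := by positivity
  rw [le_div_iff₀ hden0]
  have h1 : (0.483 : ℝ) * 0.9994 ≤ Real.cos (√(θ ^ 2 * VA n)) * (1 - n * θ ^ 2 / 16) :=
    mul_le_mul hcos hfac1 (by norm_num) (le_trans (by norm_num) hcos)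
  have h2 : (0.483 : ℝ) * 0.9994 * 0.9972 ≤ Real.cos (√(θ ^ 2 * VA n)) *
      (1 - n * θ ^ 2 / 16) * Real.exp (-(1 / (12 * n))) :=
    mul_le_mul h1 hexp (by norm_num) (le_trans (by norm_num) h1)
  refine le_trans ?_ h2
  have h3 : 0.028 * (√(2 * Real.pi) * √(θ ^ 2 * (n : ℝ) ^ 3)) ≤ 0.028 * 17.125 :=
    mul_le_mul_of_nonneg_left hden (by norm_num)
  refine h3.trans ?_
  norm_num

end MP_d1b55a
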