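import Pool.Agent.Lib.MP_d1b55a_co.CI4
import Pool.Agent.Lib.MP_d1b55a_co.CDefs
import Pool.Agent.Lib.MP_d1b55a_co.Small

/-!
CI5. Numbers. θ = ε³ ≤ .003, h = ε² ≤ .020802 (θ² = h³), n = ⌊4/h⌋: 3.979 ≤ n h ≤ 4, n ≥ 191. Compare Small.lean (good_small, pv_lower_num) with W = 4.
(1) θ² VA m ≤ 1.5434 for m ≤ n, ≤ 1.568 for m ≤ n + 1 (VA_le: (5/12 - π/8) W³ + W² h/36, W = 4, 4.0209), < (π/2)² = 2.467;
dl n ≤ .6097, dl (n+1) ≤ .6226, sum ≤ 1.233 (and dl m ≤ dl of these for m ≤ n); |θ (EA (m+1) - EA m)| ≤ .045 for m h ≤ 4 (EA_incr; about θ sqrt(π m/2)·3/4+..).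
(2) |pv n| ≥ .01605 (e θ)^n (pv_lower: cos(1.2424) ≥ .3224, sqrt(2π)*8 ≤ 20.054, 1 - nθ²/16 ≥ .9998, e^{-1/(12n)} ≥ .9995).
(3) Error at j: (1/Rc)^j/j² * 70/(2π ε⁴) = (eθ)^j e^{-(5/4) j h} 70/(2π (jh)²). At j = n: e^{-4.97375} ≤ .006918, 2π*3.979² ≥ 99.47: ≤ .00487 (eθ)^n
≤ .3035 |pv n|, so |z|^n ≥ (1 - .3035) |pv n| and error ≤ .436 |z|^n. For j ≥ n: error_j ≤ error_n ((1/Rc)^{j-n}) and |z| > 1/Rc, so error_j ≤ .44 |z|^j.
(4) good_of_power with e = .44: arcsin .44 ≤ .4557 (sin .4557 ≥ .44): .045 + 1.233 + 1.823 = 3.101 < π.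
-/

open Finset

namespace MP_d1b55a

theorem ci5_var (θ h : ℝ) (hh0 : 0 < h) (hh : h ≤ 10401 / 500000) (hθh : θ ^ 2 = h ^ 3)
    (m : ℕ) (hm : 1 ≤ m) (W : ℝ) (hW : (m : ℝ) * h ≤ W) :
    θ ^ 2 * VA m ≤ 1199 / 50000 * W ^ 3 + W ^ 2 * (10401 / 500000) / 36 := by
  have h1 := VA_le m hm
  have hpi := Real.pi_gt_d4
  have hw0 : 0 ≤ (m : ℝ) * h := by positivity
  have hW0 : 0 ≤ W := hw0.trans hW
  have h2 : θ ^ 2 * VA m ≤ θ ^ 2 * ((5 / 12 - Real.pi / 8) * (m : ℝ) ^ 3 + (m : ℝ) ^ 2 / 36) :=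
    mul_le_mul_of_nonneg_left h1 (sq_nonneg θ)
  have h3 : θ ^ 2 * ((5 / 12 - Real.pi / 8) * (m : ℝ) ^ 3 + (m : ℝ) ^ 2 / 36) =
      (5 / 12 - Real.pi / 8) * ((m : ℝ) * h) ^ 3 + ((m : ℝ) * h) ^ 2 * h / 36 := by
    rw [hθh]; ring
  rw [h3] at h2
  have h4 : ((m : ℝ) * h) ^ 3 ≤ W ^ 3 := pow_le_pow_left₀ hw0 hW 3
  have h5 : ((m : ℝ) * h) ^ 2 ≤ W ^ 2 := pow_le_pow_left₀ hw0 hW 2
  have h6 : (5 / 12 - Real.pi / 8) * ((m : ℝ) * h) ^ 3 ≤ 1199 / 50000 * W ^ 3 := by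
    apply mul_le_mul _ h4 (by positivity) (by norm_num)
    norm_num at hpi ⊢
    linarith
  have h7 : ((m : ℝ) * h) ^ 2 * h / 36 ≤ W ^ 2 * (10401 / 500000) / 36 := by
    have : ((m : ℝ) * h) ^ 2 * h ≤ W ^ 2 * (10401 / 500000) :=
      mul_le_mul h5 hh hh0.le (by positivity)
    linarith
  linarith

theorem ci5_dl (n : ℕ) (θ : ℝ) (h : θ ^ 2 * VA n ≤ 15682 / 10000) : dl n θ ≤ 6227 / 10000 := by
  unfold dl
  have hpi := Real.pi_gt_d4
  have hpi2 := Real.pi_lt_d4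
  have h1 : (0.94815 : ℝ) ≤ √((Real.pi / 2) ^ 2 - θ ^ 2 * VA n) := by
    apply Real.le_sqrt_of_sq_le
    have h2 : (3.1415 / 2 : ℝ) ^ 2 ≤ (Real.pi / 2) ^ 2 :=
      pow_le_pow_left₀ (by norm_num) (by linarith) 2
    norm_num at h2 h ⊢
    linarith
  norm_num at h1 hpi2 ⊢
  linarith

theorem ci5_incr (θ h : ℝ) (h0 : 0 < θ) (hh0 : 0 < h) (hh : h ≤ 10401 / 500000)
    (hθh : θ ^ 2 = h ^ 3)
    (m : ℕ) (hm : 1 ≤ m) (hmh : (m : ℝ) * h ≤ 4) :
    |θ * (EA (m + 1) - EA m)| ≤ 42 / 1000 := by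
  rw [abs_mul, abs_of_pos h0]
  have h1 := EA_incr m hm
  have hm' : (1 : ℝ) ≤ m := by exact_mod_cast hm
  have hpi := Real.pi_gt_d4
  have hpi2 := Real.pi_lt_d4
  have hpi3 := Real.pi_gt_three
  set x := √(Real.pi * m / 2) with hx
  have hxx : x * x = Real.pi * m / 2 := Real.mul_self_sqrt (by positivity)
  have hx1 : 1.22 ≤ x := by
    rw [hx]
    apply Real.le_sqrt_of_sq_le
    have : 3 * 1 ≤ Real.pi * m := mul_le_mul hpi3.le hm' (by norm_num) Real.pi_pos.le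
    norm_num
    linarith
  have h2 : 13 * Real.pi / (48 * x) ≤ 7 / 3 := by
    rw [div_le_iff₀ (by positivity)]
    norm_num at hpi2
    linarith
  have h3 : |EA (m + 1) - EA m| ≤ 19 / 24 * x := by linarith
  have h4 : θ * |EA (m + 1) - EA m| ≤ θ * (19 / 24 * x) := mul_le_mul_of_nonneg_left h3 h0.le
  have h5 : θ * x ≤ 0.0522 := by
    apply abs_le_of_sq_le_sq' _ (by norm_num) |>.2
    have : (θ * x) ^ 2 = h ^ 2 * (Real.pi / 2) * (m * h) := by
      calc (θ * x) ^ 2 = θ ^ 2 * (x * x) := by ring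
        _ = h ^ 2 * (Real.pi / 2) * (m * h) := by rw [hθh, hxx]; ring
    rw [this]
    have h6 : h ^ 2 ≤ (10401 / 500000) ^ 2 := pow_le_pow_left₀ hh0.le hh 2
    have h7 : h ^ 2 * (Real.pi / 2) ≤ (10401 / 500000) ^ 2 * (3.1416 / 2) :=
      mul_le_mul h6 (by linarith) (by positivity) (by norm_num)
    have h8 : h ^ 2 * (Real.pi / 2) * (m * h) ≤ (10401 / 500000) ^ 2 * (3.1416 / 2) * 4 :=
      mul_le_mul h7 hmh (by positivity) (by norm_num)
    norm_num at h8 ⊢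
    linarith
  norm_num at h5 ⊢
  linarith

/-- `cos x ≥ .3222` for `0 ≤ x ≤ 1.2426` -/
theorem ci5_cos (x : ℝ) (hx0 : 0 ≤ x) (hx : x ≤ 12426 / 10000) : 0.3222 ≤ Real.cos x := by
  have hpi := Real.pi_gt_d4
  have hpi2 := Real.pi_lt_d4
  have h1 : Real.cos (12426 / 10000) ≤ Real.cos x := by
    apply Real.cos_le_cos_of_nonneg_of_le_pi hx0 _ hx
    have := Real.pi_gt_three
    linarith
  refine le_trans ?_ h1
  rw [← Real.sin_pi_div_two_sub]
  set y := Real.pi / 2 - 12426 / 10000 with hy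
  have hy1 : (0.32815 : ℝ) ≤ y := by norm_num at hpi ⊢; linarith
  have hy2 : y ≤ 0.3282 := by norm_num at hpi2 ⊢; linarith
  have hs := Real.sin_gt_sub_cube (x := y) (by linarith)
  have hc : y ^ 3 ≤ (0.3282 : ℝ) ^ 3 := pow_le_pow_left₀ (by linarith) hy2 3
  norm_num at hc hy1 ⊢
  linarith

/-- `e^{-t} ≤ .006918` for `t ≥ 4.9739975` -/
theorem ci5_exp (t : ℝ) (ht : 49739975 / 10000000 ≤ t) : Real.exp (-t) ≤ 0.006918 := by
  have h1 : (144.553 : ℝ) ≤ Real.exp t := by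
    have h2 : Real.exp (5 + (-(26003 / 1000000))) ≤ Real.exp t := by
      apply Real.exp_le_exp.mpr
      norm_num at ht ⊢
      linarith
    refine le_trans ?_ h2
    rw [Real.exp_add]
    have h3 : (148.413 : ℝ) ≤ Real.exp 5 := by
      have h4 : Real.exp 5 = Real.exp 1 ^ 5 := by
        rw [← Real.exp_nat_mul]; norm_num
      rw [h4]
      have h5 := Real.exp_one_gt_d9
      calc (148.413 : ℝ) ≤ 2.7182818283 ^ 5 := by norm_num
        _ ≤ Real.exp 1 ^ 5 := pow_le_pow_left₀ (by norm_num) h5.le 5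
    have h6 := Real.add_one_le_exp (-(26003 / 1000000 : ℝ))
    have h7 : (0.973997 : ℝ) ≤ Real.exp (-(26003 / 1000000)) := by
      norm_num at h6 ⊢
      linarith
    calc (144.553 : ℝ) ≤ 148.413 * 0.973997 := by norm_num
      _ ≤ _ := mul_le_mul h3 h7 (by norm_num) (Real.exp_pos _).le
  rw [Real.exp_neg]
  calc (Real.exp t)⁻¹ ≤ (144.553 : ℝ)⁻¹ := inv_anti₀ (by norm_num) h1
    _ ≤ 0.006918 := by norm_num

theorem ci5_pv (θ h : ℝ) (h0 : 0 < θ) (hh0 : 0 < h) (hh : h ≤ 10401 / 500000)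
    (hθh : θ ^ 2 = h ^ 3)
    (n : ℕ) (hn : 191 ≤ n) (hnh : (n : ℝ) * h ≤ 4) :
    (Real.exp 1 * θ) ^ n * 0.01605 ≤ ‖pv n (yy θ)‖ := by
  have hn1 : 1 ≤ n := by omega
  have hn' : (191 : ℝ) ≤ n := by exact_mod_cast hn
  have hn0 : (0 : ℝ) < n := by linarith
  have hpi := Real.pi_gt_d4
  have hpi2 := Real.pi_lt_d4
  have hv := ci5_var θ h hh0 hh hθh n hn1 4 hnh
  have hv2 : θ ^ 2 * VA n ≤ (12426 / 10000) ^ 2 := by
    refine hv.trans ?_
    norm_num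
  have hpisq : ((12426 / 10000 : ℝ)) ^ 2 ≤ (Real.pi / 2) ^ 2 := by
    apply pow_le_pow_left₀ (by norm_num)
    norm_num at hpi
    linarith
  have hθ2 : θ ^ 2 ≤ 1 / 8000 := by
    rw [hθh]
    calc h ^ 3 ≤ (10401 / 500000) ^ 3 := pow_le_pow_left₀ hh0.le hh 3
      _ ≤ 1 / 8000 := by norm_num
  have hθ1 : θ ≤ 1 := by nlinarith
  refine le_trans ?_ (pv_lower n hn1 θ h0 hθ1 (hv2.trans hpisq))
  have he : 0 < Real.exp 1 := Real.exp_pos 1
  apply mul_le_mul_of_nonneg_left _ (by positivity)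
  have hcos : 0.3222 ≤ Real.cos (√(θ ^ 2 * VA n)) := by
    apply ci5_cos _ (Real.sqrt_nonneg _)
    rw [Real.sqrt_le_left (by norm_num)]
    exact hv2
  have hfac1 : 0.99989 ≤ 1 - n * θ ^ 2 / 16 := by
    have h1 : (n : ℝ) * θ ^ 2 = (n * h) * h ^ 2 := by rw [hθh]; ring
    have h2 : h ^ 2 ≤ (10401 / 500000) ^ 2 := pow_le_pow_left₀ hh0.le hh 2
    have h3 : ((n : ℝ) * h) * h ^ 2 ≤ 4 * (10401 / 500000) ^ 2 :=
      mul_le_mul hnh h2 (by positivity) (by norm_num)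
    rw [h1]
    norm_num at h3 ⊢
    linarith
  have hexp : 0.9995 ≤ Real.exp (-(1 / (12 * n))) := by
    have h1 := Real.add_one_le_exp (-(1 / (12 * (n : ℝ))))
    have h2 : 1 / (12 * (n : ℝ)) ≤ 1 / (12 * 191) := by
      apply one_div_le_one_div_of_le (by norm_num)
      linarith
    norm_num at h2 ⊢
    norm_num at h1
    linarith
  have hden : √(2 * Real.pi) * √(θ ^ 2 * (n : ℝ) ^ 3) ≤ 20.054 := by
    rw [← Real.sqrt_mul (by positivity), Real.sqrt_le_left (by norm_num)]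
    have h1 : θ ^ 2 * (n : ℝ) ^ 3 = (n * h) ^ 3 := by rw [hθh]; ring
    have h3 : ((n : ℝ) * h) ^ 3 ≤ 4 ^ 3 := pow_le_pow_left₀ (by positivity) hnh 3
    rw [h1]
    have h4 : 2 * Real.pi * ((n : ℝ) * h) ^ 3 ≤ 2 * 3.1416 * 4 ^ 3 := by
      apply mul_le_mul _ h3 (by positivity) (by norm_num)
      linarith
    refine h4.trans ?_
    norm_num
  have hden0 : 0 < √(2 * Real.pi) * √(θ ^ 2 * (n : ℝ) ^ 3) := by positivity
  rw [le_div_iff₀ hden0]
  have h1 : (0.3222 : ℝ) * 0.99989 ≤ Real.cos (√(θ ^ 2 * VA n)) * (1 - n * θ ^ 2 / 16) :=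
    mul_le_mul hcos hfac1 (by norm_num) (le_trans (by norm_num) hcos)
  have h2 : (0.3222 : ℝ) * 0.99989 * 0.9995 ≤ Real.cos (√(θ ^ 2 * VA n)) *
      (1 - n * θ ^ 2 / 16) * Real.exp (-(1 / (12 * n))) :=
    mul_le_mul h1 hexp (by norm_num) (le_trans (by norm_num) h1)
  refine le_trans ?_ h2
  have h3 : 0.01605 * (√(2 * Real.pi) * √(θ ^ 2 * (n : ℝ) ^ 3)) ≤ 0.01605 * 20.054 :=
    mul_le_mul_of_nonneg_left hden (by norm_num)
  refine h3.trans ?_
  norm_num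

theorem ci5_arcsin : Real.arcsin (44 / 100) ≤ 46 / 100 := by
  have hpi := Real.pi_gt_three
  rw [Real.arcsin_le_iff_le_sin ⟨by norm_num, by norm_num⟩ ⟨by linarith, by linarith⟩]
  have hs := Real.sin_gt_sub_cube (x := (46 / 100 : ℝ)) (by norm_num)
  norm_num at hs ⊢
  linarith

theorem good_of_circle (ε : ℝ) (h0 : 0 < ε) (h1 : ε ^ 3 ≤ 3 / 1000)
    (hC : ∀ N : ℕ, ∃ z : ℂ, 1 / Rc ε < ‖z‖ ∧ ∀ j : ℕ, 1 ≤ j → j ≤ N →
      ‖pv j (yy (ε ^ 3)) - z ^ j‖ ≤ (1 / Rc ε) ^ j / (j : ℝ) ^ 2 * (70 / (2 * Real.pi * ε ^ 4))) :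
    Good (ε ^ 3) := by
  have hpi := Real.pi_gt_d4
  have hpi2 := Real.pi_lt_d4
  have hpi3 := Real.pi_gt_three
  have hθ0 : 0 < ε ^ 3 := by positivity
  have hh0 : 0 < ε ^ 2 := by positivity
  have hθh : (ε ^ 3) ^ 2 = (ε ^ 2) ^ 3 := by ring
  have hh : ε ^ 2 ≤ 10401 / 500000 := by
    by_contra hcon
    rw [not_le] at hcon
    have h2 : (10401 / 500000 : ℝ) ^ 3 < (ε ^ 2) ^ 3 := pow_lt_pow_left₀ hcon (by norm_num) (by norm_num)
    have h3 : (ε ^ 3) ^ 2 ≤ (3 / 1000) ^ 2 := pow_le_pow_left₀ hθ0.le h1 2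
    rw [← hθh] at h2
    norm_num at h2 h3
    linarith
  set h := ε ^ 2 with hh_def
  set θ := ε ^ 3 with hθ_def
  have hθpi : θ ≤ Real.pi := by linarith
  set n : ℕ := ⌊4 / h⌋₊ with hn_def
  have hn1 : (n : ℝ) ≤ 4 / h := Nat.floor_le (by positivity)
  have hn2 : 4 / h < n + 1 := Nat.lt_floor_add_one _
  have hnh : (n : ℝ) * h ≤ 4 := (le_div_iff₀ hh0).mp hn1
  have hnh2 : 4 < ((n : ℝ) + 1) * h := (div_lt_iff₀ hh0).mp hn2
  have hnh3 : (3979198 / 1000000 : ℝ) ≤ (n : ℝ) * h := by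
    have : ((n : ℝ) + 1) * h = n * h + h := by ring
    norm_num at hh ⊢
    linarith
  have hn191 : 191 ≤ n := by
    by_contra hcon
    have h2 : (n : ℝ) ≤ 190 := by
      have : n ≤ 190 := by omega
      exact_mod_cast this
    have h3 : (n : ℝ) * h ≤ 190 * (10401 / 500000) := mul_le_mul h2 hh hh0.le (by norm_num)
    norm_num at h3 hnh3
    linarith
  have hn : 1 ≤ n := by omega
  have hVm : ∀ m, 1 ≤ m → m ≤ n + 1 → θ ^ 2 * VA m ≤ 15682 / 10000 := by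
    intro m hm hmn
    have hmn' : (m : ℝ) ≤ n + 1 := by exact_mod_cast hmn
    have h1 : (m : ℝ) * h ≤ 4020802 / 1000000 := by
      have : (m : ℝ) * h ≤ (n + 1) * h := mul_le_mul_of_nonneg_right hmn' hh0.le
      have : ((n : ℝ) + 1) * h = n * h + h := by ring
      norm_num at hh ⊢
      linarith
    have h2 := ci5_var θ h hh0 hh hθh m hm (4020802 / 1000000) h1
    norm_num at h2 ⊢
    linarith
  have hpisq : (15682 / 10000 : ℝ) < (Real.pi / 2) ^ 2 := by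
    have h2 : (3.1415 / 2 : ℝ) ^ 2 ≤ (Real.pi / 2) ^ 2 :=
      pow_le_pow_left₀ (by norm_num) (by linarith) 2
    norm_num at h2 ⊢
    linarith
  have hincr : ∀ m, 1 ≤ m → m ≤ n → |θ * (EA (m + 1) - EA m)| ≤ 42 / 1000 := by
    intro m hm hmn
    apply ci5_incr θ h hθ0 hh0 hh hθh m hm
    have : (m : ℝ) * h ≤ n * h := mul_le_mul_of_nonneg_right (by exact_mod_cast hmn) hh0.le
    linarith
  have hdl : ∀ m, 1 ≤ m → m ≤ n + 1 → dl m θ ≤ 6227 / 10000 := fun m hm hmn =>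
    ci5_dl m θ (hVm m hm hmn)
  have hRc : 0 < Rc ε := by unfold Rc; positivity
  apply good_of_power θ hθ0 hθpi n hn
  · intro m hm hmn
    exact lt_of_le_of_lt (hVm m hm hmn) hpisq
  · intro m hm hmn
    have a1 := hincr m hm hmn.le
    have a2 := hdl m hm (by omega)
    have a3 := hdl (m + 1) (by omega) (by omega)
    norm_num at hpi
    linarith
  · show (44 / 100 : ℝ) < 1
    norm_num
  · intro N
    obtain ⟨z, hz, hzj⟩ := hC (max N n)
    have hz0 : 0 < ‖z‖ := lt_trans (by positivity) hz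
    refine ⟨z, norm_pos_iff.mp hz0, ?_⟩
    -- the error at `n`
    set K : ℝ := 70 / (2 * Real.pi * ε ^ 4) with hK
    have hK0 : 0 < K := by positivity
    set A : ℝ := (Real.exp 1 * θ) ^ n with hA
    have hA0 : 0 < A := by positivity
    have hpvn := ci5_pv θ h hθ0 hh0 hh hθh n hn191 hnh
    have hinv : 1 / Rc ε = (Real.exp 1 * θ) * Real.exp (-(5 / 4 * h)) := by
      unfold Rc
      rw [← hh_def, ← hθ_def, Real.exp_neg]
      field_simp
    have hn0 : (0 : ℝ) < n := by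
      have : (191 : ℝ) ≤ n := by exact_mod_cast hn191
      linarith
    have herr : (1 / Rc ε) ^ n / (n : ℝ) ^ 2 * K ≤ A * 0.00487 := by
      have e1 : (1 / Rc ε) ^ n / (n : ℝ) ^ 2 * K =
          A * (Real.exp (-(5 / 4 * (n * h))) * (70 / (2 * Real.pi * (n * h) ^ 2))) := by
        rw [hinv, mul_pow, ← Real.exp_nat_mul, hK, hA]
        have e2 : (n : ℝ) * -(5 / 4 * h) = -(5 / 4 * (n * h)) := by ring
        have e3 : ε ^ 4 = h ^ 2 := by rw [hh_def]; ring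
        rw [e2, e3]
        field_simp
      rw [e1]
      apply mul_le_mul_of_nonneg_left _ hA0.le
      have e4 : Real.exp (-(5 / 4 * (n * h))) ≤ 0.006918 := by
        apply ci5_exp
        norm_num at hnh3 ⊢
        linarith
      have e5 : 70 / (2 * Real.pi * (n * h) ^ 2) ≤ 70 / 99.48 := by
        apply div_le_div_of_nonneg_left (by norm_num) (by norm_num)
        have e6 : (3979198 / 1000000 : ℝ) ^ 2 ≤ (n * h) ^ 2 := pow_le_pow_left₀ (by norm_num) hnh3 2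
        have e7 : 2 * 3.1415 * (3979198 / 1000000 : ℝ) ^ 2 ≤ 2 * Real.pi * (n * h) ^ 2 :=
          mul_le_mul (by linarith) e6 (by norm_num) (by positivity)
        refine le_trans ?_ e7
        norm_num
      calc Real.exp (-(5 / 4 * (n * h))) * (70 / (2 * Real.pi * (n * h) ^ 2)) ≤
          0.006918 * (70 / 99.48) := mul_le_mul e4 e5 (by positivity) (by norm_num)
        _ ≤ 0.00487 := by norm_num
    have hzn := hzj n hn (le_max_right _ _)
    have hzn2 : A * 0.01118 ≤ ‖z‖ ^ n := by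
      have b1 : ‖pv n (yy θ)‖ ≤ ‖pv n (yy θ) - z ^ n‖ + ‖z ^ n‖ := by
        have := norm_add_le (pv n (yy θ) - z ^ n) (z ^ n)
        simpa using this
      rw [norm_pow] at b1
      have b2 := hzn.trans herr
      have b3 : A * 0.01118 = A * 0.01605 - A * 0.00487 := by ring
      rw [b3]
      linarith
    have hen : (1 / Rc ε) ^ n / (n : ℝ) ^ 2 * K ≤ 44 / 100 * ‖z‖ ^ n := by
      refine herr.trans ?_
      have : A * 0.00487 ≤ 44 / 100 * (A * 0.01118) := by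
        have : 44 / 100 * (A * 0.01118) = A * (44 / 100 * 0.01118) := by ring
        rw [this]
        apply mul_le_mul_of_nonneg_left _ hA0.le
        norm_num
      refine this.trans ?_
      apply mul_le_mul_of_nonneg_left hzn2 (by norm_num)
    intro j hj hjN
    have hj1 : 1 ≤ j := by omega
    refine (hzj j hj1 (hjN.trans (le_max_left _ _))).trans ?_
    have hjn : (n : ℝ) ≤ j := by exact_mod_cast hj
    have c1 : (1 / Rc ε) ^ j / (j : ℝ) ^ 2 * K ≤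
        ((1 / Rc ε) ^ n / (n : ℝ) ^ 2 * K) * (1 / Rc ε) ^ (j - n) := by
      have c2 : (1 / Rc ε) ^ j = (1 / Rc ε) ^ n * (1 / Rc ε) ^ (j - n) := by
        rw [← pow_add]; congr 1; omega
      have c3 : (1 / Rc ε) ^ j / (j : ℝ) ^ 2 ≤ (1 / Rc ε) ^ j / (n : ℝ) ^ 2 := by
        apply div_le_div_of_nonneg_left (by positivity) (by positivity)
        exact pow_le_pow_left₀ hn0.le hjn 2
      calc (1 / Rc ε) ^ j / (j : ℝ) ^ 2 * K ≤ (1 / Rc ε) ^ j / (n : ℝ) ^ 2 * K :=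
            mul_le_mul_of_nonneg_right c3 hK0.le
        _ = _ := by rw [c2]; ring
    refine c1.trans ?_
    have c4 : (1 / Rc ε) ^ (j - n) ≤ ‖z‖ ^ (j - n) :=
      pow_le_pow_left₀ (by positivity) hz.le _
    have c5 : ‖z‖ ^ j = ‖z‖ ^ n * ‖z‖ ^ (j - n) := by
      rw [← pow_add]; congr 1; omega
    rw [c5, ← mul_assoc]
    exact mul_le_mul hen c4 (by positivity) (by positivity)
  · have a1 := hincr n hn le_rfl
    have a2 := hdl n hn (by omega)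
    have a3 := hdl (n + 1) (by omega) le_rfl
    have a4 := ci5_arcsin
    norm_num at hpi
    linarith

end MP_d1b55a
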