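import Pool.Agent.Lib.MP_d1b55a_co.FA8

/-!
FA9. The far arc. Part I: |H2| ≤ |E_2|/A + 2|E_1||A_1|/A² + |E_0||A_2|/A² + 2|E_0||A_1|²/A³ ≤
8.81 s^{-3/2} + 7.39 s^{-2} + 11.3 s^{-3}; integral over [12, 1/h] ≤ 8.81*2*(1/sqrt 12 - ε) + 7.39/12 + 11.3/288
= 5.742 - 17.6 ε. Part II: (π - 1)/h * 5.8 ε³ = 12.43 ε. Sum ≤ 5.8.
Continuity of s ↦ H2 ε (Bs s) from FS (`Asum_hasDerivAt`, ...).
-/

open Finset

namespace MP_d1b55a

theorem far_ne_zero (ε : ℝ) (h0 : 0 < ε) (h1 : ε ^ 3 ≤ 3 / 1000) (s : ℝ) (hs : 12 ≤ |s|)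
    (hs1 : |s| ≤ Real.pi / ε ^ 2) : Asum ε 0 (Bs s) ≠ 0 := by
  have hh : 0 < ε ^ 2 := by positivity
  rcases le_total (|s| * ε ^ 2) 1 with h | h
  · have h2 := (far_I ε h0 h1 s hs h).1
    intro h3
    rw [h3, norm_zero] at h2
    have h4 : 0 < |s| := by linarith
    have h5 : 0 < 0.65 / Real.sqrt |s| := by positivity
    linarith
  · exact (far_II ε h0 h1 s h ((le_div_iff₀ hh).1 hs1)).1

theorem FA9_H2_bound (E0 E1 E2 A0 A1 A2 : ℂ) (q : ℝ) (hq : 0 < q)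
    (a0 : 0.65 / q ≤ ‖A0‖) (a1 : ‖A1‖ ≤ 0.54 / q ^ 3) (a2 : ‖A2‖ ≤ 2.75 / q ^ 5)
    (e0 : ‖E0‖ ≤ 1.02) (e1 : ‖E1‖ ≤ 4.4 / q ^ 5) (e2 : ‖E2‖ ≤ 4.8 / q ^ 5) :
    ‖E2 / A0 - 2 * E1 * A1 / A0 ^ 2 - E0 * A2 / A0 ^ 2 + 2 * E0 * A1 ^ 2 / A0 ^ 3‖ ≤
      8.81 / q ^ 3 + 7.39 / q ^ 4 + 11.3 / q ^ 6 := by
  set x : ℝ := ‖A0‖⁻¹ with hx
  have hx0 : 0 ≤ x := by positivity
  have hx1 : x ≤ q / 0.65 := by
    rw [hx]
    have h2 : 0 < 0.65 / q := by positivity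
    have := inv_anti₀ h2 a0
    rwa [inv_div] at this
  have t1 : ‖E2 / A0‖ ≤ 4.8 / q ^ 5 * (q / 0.65) := by
    rw [norm_div, div_eq_mul_inv]
    gcongr
  have t2 : ‖2 * E1 * A1 / A0 ^ 2‖ ≤ 2 * (4.4 / q ^ 5) * (0.54 / q ^ 3) * (q / 0.65) ^ 2 := by
    rw [norm_div, norm_mul, norm_mul, norm_pow, div_eq_mul_inv, ← inv_pow, Complex.norm_ofNat]
    gcongr
  have t3 : ‖E0 * A2 / A0 ^ 2‖ ≤ 1.02 * (2.75 / q ^ 5) * (q / 0.65) ^ 2 := by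
    rw [norm_div, norm_mul, norm_pow, div_eq_mul_inv, ← inv_pow]
    gcongr
  have t4 : ‖2 * E0 * A1 ^ 2 / A0 ^ 3‖ ≤ 2 * 1.02 * (0.54 / q ^ 3) ^ 2 * (q / 0.65) ^ 3 := by
    rw [norm_div, norm_mul, norm_mul, norm_pow, norm_pow, div_eq_mul_inv, ← inv_pow,
      Complex.norm_ofNat]
    gcongr
  have n1 : ‖E2 / A0 - 2 * E1 * A1 / A0 ^ 2 - E0 * A2 / A0 ^ 2 + 2 * E0 * A1 ^ 2 / A0 ^ 3‖ ≤
      ‖E2 / A0‖ + ‖2 * E1 * A1 / A0 ^ 2‖ + ‖E0 * A2 / A0 ^ 2‖ + ‖2 * E0 * A1 ^ 2 / A0 ^ 3‖ := by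
    refine (norm_add_le _ _).trans ?_
    gcongr
    refine (norm_sub_le _ _).trans ?_
    gcongr
    exact norm_sub_le _ _
  have q1 : 4.8 / q ^ 5 * (q / 0.65) = (4.8 / 0.65) / q ^ 4 := by
    field_simp
  have q2 : 2 * (4.4 / q ^ 5) * (0.54 / q ^ 3) * (q / 0.65) ^ 2 =
      (2 * 4.4 * 0.54 / 0.65 ^ 2) / q ^ 6 := by
    field_simp
  have q3 : 1.02 * (2.75 / q ^ 5) * (q / 0.65) ^ 2 = (1.02 * 2.75 / 0.65 ^ 2) / q ^ 3 := by
    field_simp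
  have q4 : 2 * 1.02 * (0.54 / q ^ 3) ^ 2 * (q / 0.65) ^ 3 =
      (2 * 1.02 * 0.54 ^ 2 / 0.65 ^ 3) / q ^ 3 := by
    field_simp
  have r1 : (4.8 / 0.65 : ℝ) / q ^ 4 ≤ 7.39 / q ^ 4 := by
    gcongr; norm_num
  have r2 : (2 * 4.4 * 0.54 / 0.65 ^ 2 : ℝ) / q ^ 6 ≤ 11.3 / q ^ 6 := by
    gcongr; norm_num
  have r3 : (1.02 * 2.75 / 0.65 ^ 2 : ℝ) / q ^ 3 + (2 * 1.02 * 0.54 ^ 2 / 0.65 ^ 3) / q ^ 3 ≤
      8.81 / q ^ 3 := by
    rw [← add_div]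
    gcongr; norm_num
  linarith

theorem FA9_pt (ε : ℝ) (h0 : 0 < ε) (h1 : ε ^ 3 ≤ 3 / 1000) (s t : ℝ) (hst : |t| = s)
    (hs : 12 ≤ s) (hs1 : s * ε ^ 2 ≤ 1) :
    ‖H2 ε (Bs t)‖ ≤ 8.81 / (s * Real.sqrt s) + 7.39 / s ^ 2 + 11.3 / s ^ 3 := by
  have hs0 : 0 < s := by linarith
  obtain ⟨a0, a1, a2, e0, e1, e2⟩ := far_I ε h0 h1 t (by rw [hst]; exact hs) (by rw [hst]; exact hs1)
  have ht2 : t ^ 2 = s ^ 2 := by rw [← hst, sq_abs]
  rw [hst] at a0 a1 a2 e1 e2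
  rw [ht2] at a2 e1 e2
  set q : ℝ := Real.sqrt s with hq
  have hq0 : 0 < q := Real.sqrt_pos.2 hs0
  have hqs : q ^ 2 = s := Real.sq_sqrt hs0.le
  have c3 : s * q = q ^ 3 := by rw [← hqs]; ring
  have c5 : s ^ 2 * q = q ^ 5 := by rw [← hqs]; ring
  have c4 : s ^ 2 = q ^ 4 := by rw [← hqs]; ring
  have c6 : s ^ 3 = q ^ 6 := by rw [← hqs]; ring
  rw [c3] at a1
  rw [c5] at a2 e1 e2
  rw [c3, c6]
  have := FA9_H2_bound (Esum ε 0 (Bs t)) (Esum ε 1 (Bs t)) (Esum ε 2 (Bs t)) (Asum ε 0 (Bs t))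
    (Asum ε 1 (Bs t)) (Asum ε 2 (Bs t)) q hq0 a0 a1 a2 e0 e1 e2
  rw [c4]
  exact this

theorem FA9_Bs_cont : Continuous Bs := by
  have : Bs = fun s : ℝ => ((5 / 4 : ℝ) : ℂ) + (s : ℂ) * Complex.I := by
    funext s
    apply Complex.ext <;> simp [Bs]
  rw [this]
  fun_prop

theorem FA9_H2_cont (ε : ℝ) (h0 : 0 < ε) (B : ℂ) (hB : Asum ε 0 B ≠ 0) :
    ContinuousAt (H2 ε) B := by
  have cA : ∀ j, ContinuousAt (Asum ε j) B := fun j => (Asum_hasDerivAt ε h0 j B).continuousAt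
  have cE : ∀ j, ContinuousAt (Esum ε j) B := fun j => (Esum_hasDerivAt ε h0 j B).continuousAt
  have : H2 ε = fun B => Esum ε 2 B / Asum ε 0 B - 2 * Esum ε 1 B * Asum ε 1 B / Asum ε 0 B ^ 2 -
    Esum ε 0 B * Asum ε 2 B / Asum ε 0 B ^ 2 + 2 * Esum ε 0 B * Asum ε 1 B ^ 2 / Asum ε 0 B ^ 3 := by
    funext B; rfl
  rw [this]
  refine ContinuousAt.add (ContinuousAt.sub (ContinuousAt.sub ?_ ?_) ?_) ?_
  · exact (cE 2).div (cA 0) hB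
  · exact ((continuousAt_const.mul (cE 1)).mul (cA 1)).div ((cA 0).pow 2) (pow_ne_zero 2 hB)
  · exact ((cE 0).mul (cA 2)).div ((cA 0).pow 2) (pow_ne_zero 2 hB)
  · exact ((continuousAt_const.mul (cE 0)).mul ((cA 1).pow 2)).div ((cA 0).pow 3)
      (pow_ne_zero 3 hB)

theorem FA9_sqrt_inv (ε : ℝ) (h0 : 0 < ε) : Real.sqrt (1 / ε ^ 2) = 1 / ε := by
  rw [Real.sqrt_div zero_le_one, Real.sqrt_one, Real.sqrt_sq h0.le]

theorem FA9_eps (ε : ℝ) (h0 : 0 < ε) (h1 : ε ^ 3 ≤ 3 / 1000) :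
    ε ≤ 0.14423 ∧ ε ^ 2 ≤ 0.02081 := by
  have ha : ε ≤ 0.14423 := by
    by_contra hc
    push Not at hc
    have : (0.14423 : ℝ) ^ 3 < ε ^ 3 := by gcongr
    norm_num at this h1
    linarith
  have hb : ε ^ 2 ≤ 0.02081 := by
    have : ε ^ 2 ≤ 0.14423 ^ 2 := by gcongr
    refine this.trans (by norm_num)
  exact ⟨ha, hb⟩

theorem FA9_deriv (s : ℝ) (hs : 0 < s) :
    HasDerivAt (fun s : ℝ => -(17.62 * (Real.sqrt s)⁻¹) - 7.39 * s⁻¹ - 5.65 * (s ^ 2)⁻¹)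
      (8.81 / (s * Real.sqrt s) + 7.39 / s ^ 2 + 11.3 / s ^ 3) s := by
  have hq : 0 < Real.sqrt s := Real.sqrt_pos.2 hs
  have hqs : Real.sqrt s ^ 2 = s := Real.sq_sqrt hs.le
  have d1 := (Real.hasDerivAt_sqrt hs.ne').fun_inv hq.ne'
  have d2 := hasDerivAt_inv hs.ne'
  have d3 := (hasDerivAt_pow 2 s).fun_inv (pow_ne_zero 2 hs.ne')
  have d := (((d1.const_mul (17.62 : ℝ)).fun_neg).fun_sub (d2.const_mul (7.39 : ℝ))).fun_sub
    (d3.const_mul (5.65 : ℝ))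
  refine d.congr_deriv ?_
  symm
  rw [hqs]
  have e1 : 8.81 / (s * Real.sqrt s) = -(17.62 * (-(1 / (2 * Real.sqrt s)) / s)) := by
    field_simp
    norm_num
  rw [e1]
  field_simp
  norm_num
  ring

theorem FA9_int_le (f F F' : ℝ → ℝ) (a b : ℝ) (hab : a ≤ b)
    (hf : ContinuousOn f (Set.Icc a b)) (hF : ∀ x ∈ Set.Icc a b, HasDerivAt F (F' x) x)
    (hF' : ContinuousOn F' (Set.Icc a b)) (hle : ∀ x ∈ Set.Icc a b, f x ≤ F' x) :
    ∫ x in a..b, f x ≤ F b - F a := by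
  have i1 : IntervalIntegrable f MeasureTheory.volume a b := by
    apply ContinuousOn.intervalIntegrable
    rwa [Set.uIcc_of_le hab]
  have i2 : IntervalIntegrable F' MeasureTheory.volume a b := by
    apply ContinuousOn.intervalIntegrable
    rwa [Set.uIcc_of_le hab]
  have h2 : ∫ x in a..b, F' x = F b - F a := by
    apply intervalIntegral.integral_eq_sub_of_hasDerivAt _ i2
    intro x hx
    rw [Set.uIcc_of_le hab] at hx
    exact hF x hx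
  rw [← h2]
  exact intervalIntegral.integral_mono_on hab i1 i2 hle

theorem FA9_int (ε : ℝ) (h0 : 0 < ε) (h1 : ε ^ 3 ≤ 3 / 1000) (b : ℝ → ℝ) (hb : Continuous b)
    (hb1 : ∀ s, 0 ≤ s → |b s| = s) :
    (∫ s in (12 : ℝ)..(Real.pi / ε ^ 2), ‖H2 ε (Bs (b s))‖) ≤ 5.8 := by
  obtain ⟨e1, e2⟩ := FA9_eps ε h0 h1
  have hh : 0 < ε ^ 2 := by positivity
  have hpi := Real.pi_gt_three
  have hpi2 := Real.pi_lt_d2
  have k1 : (12 : ℝ) ≤ 1 / ε ^ 2 := by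
    rw [le_div_iff₀ hh]; linarith
  have k2 : 1 / ε ^ 2 ≤ Real.pi / ε ^ 2 := by gcongr; linarith
  have cont : ∀ x y : ℝ, 12 ≤ x → y ≤ Real.pi / ε ^ 2 →
      ContinuousOn (fun s => ‖H2 ε (Bs (b s))‖) (Set.Icc x y) := by
    intro x y hx hy s hs
    apply ContinuousAt.continuousWithinAt
    apply ContinuousAt.norm
    have hs0 : 0 ≤ s := by linarith [hs.1]
    have hne : Asum ε 0 (Bs (b s)) ≠ 0 := by
      apply far_ne_zero ε h0 h1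
      · rw [hb1 s hs0]; linarith [hs.1]
      · rw [hb1 s hs0]; linarith [hs.2]
    have := FA9_H2_cont ε h0 (Bs (b s)) hne
    exact ContinuousAt.comp (f := fun s => Bs (b s)) this
      (FA9_Bs_cont.comp hb).continuousAt
  have i1 : IntervalIntegrable (fun s => ‖H2 ε (Bs (b s))‖) MeasureTheory.volume 12 (1 / ε ^ 2) := by
    apply ContinuousOn.intervalIntegrable
    rw [Set.uIcc_of_le k1]
    exact cont _ _ le_rfl k2
  have i2 : IntervalIntegrable (fun s => ‖H2 ε (Bs (b s))‖) MeasureTheory.volume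
      (1 / ε ^ 2) (Real.pi / ε ^ 2) := by
    apply ContinuousOn.intervalIntegrable
    rw [Set.uIcc_of_le k2]
    exact cont _ _ k1 le_rfl
  rw [← intervalIntegral.integral_add_adjacent_intervals i1 i2]
  have b1 := FA9_int_le (fun s => ‖H2 ε (Bs (b s))‖)
    (fun s : ℝ => -(17.62 * (Real.sqrt s)⁻¹) - 7.39 * s⁻¹ - 5.65 * (s ^ 2)⁻¹)
    (fun s : ℝ => 8.81 / (s * Real.sqrt s) + 7.39 / s ^ 2 + 11.3 / s ^ 3) 12 (1 / ε ^ 2) k1
    (cont _ _ le_rfl k2) (fun s hs => FA9_deriv s (by linarith [hs.1]))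
    (by
      intro s hs
      have hs0 : 0 < s := by linarith [hs.1]
      have hq : 0 < Real.sqrt s := Real.sqrt_pos.2 hs0
      apply ContinuousAt.continuousWithinAt
      refine ContinuousAt.add (ContinuousAt.add ?_ ?_) ?_
      · exact continuousAt_const.div (continuousAt_id.mul Real.continuous_sqrt.continuousAt)
          (mul_pos hs0 hq).ne'
      · exact continuousAt_const.div (continuousAt_id.pow 2) (pow_pos hs0 2).ne'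
      · exact continuousAt_const.div (continuousAt_id.pow 3) (pow_pos hs0 3).ne')
    (by
      intro s hs
      exact FA9_pt ε h0 h1 s (b s) (hb1 s (by linarith [hs.1])) hs.1
        ((le_div_iff₀ hh).1 hs.2))
  have b2 := FA9_int_le (fun s => ‖H2 ε (Bs (b s))‖)
    (fun s : ℝ => 5.8 * ε ^ 3 * s) (fun _ => 5.8 * ε ^ 3) (1 / ε ^ 2) (Real.pi / ε ^ 2) k2
    (cont _ _ k1 le_rfl) (fun s _ => by
      have := (hasDerivAt_id s).const_mul (5.8 * ε ^ 3)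
      simpa using this) continuousOn_const
    (by
      intro s hs
      have hs0 : 0 ≤ s := by linarith [hs.1]
      exact (far_II ε h0 h1 (b s) (by rw [hb1 s hs0]; exact (div_le_iff₀ hh).1 hs.1)
        (by rw [hb1 s hs0]; exact (le_div_iff₀ hh).1 hs.2)).2)
  rw [FA9_sqrt_inv ε h0] at b1
  have s12 : (Real.sqrt 12)⁻¹ ≤ 0.28868 := by
    have h2 : 3.4641 ≤ Real.sqrt 12 := by
      apply Real.le_sqrt_of_sq_le
      norm_num
    have h3 := inv_anti₀ (by norm_num : (0 : ℝ) < 3.4641) h2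
    refine h3.trans ?_
    norm_num
  have z1 : (1 / ε)⁻¹ = ε := by rw [one_div, inv_inv]
  have z2 : (1 / ε ^ 2)⁻¹ = ε ^ 2 := by rw [one_div, inv_inv]
  have z3 : ((1 / ε ^ 2) ^ 2)⁻¹ = ε ^ 4 := by
    rw [one_div, inv_pow, inv_inv]; ring
  have z4 : 5.8 * ε ^ 3 * (Real.pi / ε ^ 2) - 5.8 * ε ^ 3 * (1 / ε ^ 2) = 5.8 * (Real.pi - 1) * ε := by
    field_simp
  rw [z1, z2, z3] at b1
  rw [z4] at b2
  have h4 : 0 ≤ ε ^ 4 := by positivity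
  have h5 : 5.8 * (Real.pi - 1) * ε ≤ 5.8 * 2.15 * ε := by
    gcongr; linarith
  norm_num at b1 b2 s12 h5 ⊢
  nlinarith

theorem far_integral (ε : ℝ) (h0 : 0 < ε) (h1 : ε ^ 3 ≤ 3 / 1000) :
    (∫ s in (12 : ℝ)..(Real.pi / ε ^ 2), ‖H2 ε (Bs s)‖) ≤ 5.8 ∧
    (∫ s in (12 : ℝ)..(Real.pi / ε ^ 2), ‖H2 ε (Bs (-s))‖) ≤ 5.8 := by
  refine ⟨FA9_int ε h0 h1 (fun s => s) continuous_id (fun s hs => abs_of_nonneg hs),
    FA9_int ε h0 h1 (fun s => -s) continuous_neg (fun s hs => by rw [abs_neg, abs_of_nonneg hs])⟩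

theorem FA9_sin (x : ℝ) (h0 : 0 ≤ x) (h1 : x ≤ 1.6) : x / 2 ≤ Real.sin x := by
  have hpi := Real.pi_gt_d2
  have hpi2 := Real.pi_lt_d2
  rcases le_total x (Real.pi / 2) with h | h
  · have h2 := Real.mul_le_sin h0 h
    have h3 : 1 / 2 ≤ 2 / Real.pi := by
      rw [div_le_div_iff₀ (by norm_num) Real.pi_pos]
      linarith
    have h4 : 1 / 2 * x ≤ 2 / Real.pi * x := by gcongr
    linarith
  · have h2 := Real.mul_le_sin (x := Real.pi - x) (by linarith) (by linarith)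
    rw [Real.sin_pi_sub] at h2
    have h3 : 0.98 ≤ 2 / Real.pi * (Real.pi - x) := by
      rw [div_mul_eq_mul_div, le_div_iff₀ Real.pi_pos]
      linarith
    linarith

theorem FA9_one_sub (r θ : ℝ) (hr : 0 < r) (hθ : |θ| ≤ 3.2) :
    r * |θ| / 2 ≤ ‖1 - ((r ^ 2 : ℝ) : ℂ) * Complex.exp ((θ : ℂ) * Complex.I)‖ := by
  have hsq : ‖1 - ((r ^ 2 : ℝ) : ℂ) * Complex.exp ((θ : ℂ) * Complex.I)‖ ^ 2 =
      (1 - r ^ 2) ^ 2 + 4 * r ^ 2 * Real.sin (θ / 2) ^ 2 := by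
    have e : 1 - ((r ^ 2 : ℝ) : ℂ) * Complex.exp ((θ : ℂ) * Complex.I) =
        ((1 - r ^ 2 * Real.cos θ : ℝ) : ℂ) + ((-(r ^ 2 * Real.sin θ) : ℝ) : ℂ) * Complex.I := by
      rw [Complex.exp_mul_I]
      push_cast
      ring
    rw [e, ← Complex.normSq_eq_norm_sq, Complex.normSq_add_mul_I]
    have h2 : Real.cos θ = 1 - 2 * Real.sin (θ / 2) ^ 2 := by
      have := Real.cos_two_mul (θ / 2)
      rw [show 2 * (θ / 2) = θ by ring] at this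
      rw [this]
      nlinarith [Real.sin_sq_add_cos_sq (θ / 2)]
    have h3 : (1 - r ^ 2 * Real.cos θ) ^ 2 + (-(r ^ 2 * Real.sin θ)) ^ 2 =
        1 - 2 * r ^ 2 * Real.cos θ + r ^ 4 * (Real.sin θ ^ 2 + Real.cos θ ^ 2) := by ring
    rw [h3, Real.sin_sq_add_cos_sq, h2]
    ring
  have hs : |θ| / 4 ≤ |Real.sin (θ / 2)| := by
    have h2 := FA9_sin (|θ| / 2) (by positivity) (by linarith)
    have h3 : |Real.sin (θ / 2)| = |Real.sin (|θ| / 2)| := by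
      rcases abs_cases θ with ⟨h, _⟩ | ⟨h, _⟩
      · rw [h]
      · rw [h, neg_div, Real.sin_neg, abs_neg]
    rw [h3]
    refine le_trans (by linarith) (le_abs_self _)
  have hs2 : (|θ| / 4) ^ 2 ≤ Real.sin (θ / 2) ^ 2 := by
    rw [← sq_abs (Real.sin (θ / 2))]
    gcongr
  apply le_of_sq_le_sq _ (norm_nonneg _)
  rw [hsq]
  have h5 : 4 * r ^ 2 * (|θ| / 4) ^ 2 ≤ 4 * r ^ 2 * Real.sin (θ / 2) ^ 2 := by gcongr
  nlinarith [sq_nonneg (1 - r ^ 2)]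

theorem FA9_exp (ε t : ℝ) :
    Complex.exp (-((ε ^ 2 : ℝ) : ℂ) * (Bs t - Bz ε)) =
      (((Real.exp (-(ε ^ 2 * 0.16105))) ^ 2 : ℝ) : ℂ) *
        Complex.exp (((-(ε ^ 2 * (t + 1.6071 - ε / 6)) : ℝ) : ℂ) * Complex.I) := by
  rw [← Real.exp_nat_mul, Complex.ofReal_exp, ← Complex.exp_add]
  congr 1
  apply Complex.ext
  · simp [Bs, Bz]
    norm_num
    ring
  · simp [Bs, Bz]
    ring

theorem FA9_gp (ε : ℝ) (h0 : 0 < ε) (h1 : ε ^ 3 ≤ 3 / 1000) (s t : ℝ) (hst : |t| = s)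
    (hs : 12 ≤ s) (hs1 : s ≤ Real.pi / ε ^ 2) :
    1 - Complex.exp (-((ε ^ 2 : ℝ) : ℂ) * (Bs t - Bz ε)) ≠ 0 ∧
    ‖gpole ε (Bs t)‖ ≤ 16.1 / (s - 2) ^ 3 := by
  obtain ⟨e1, e2⟩ := FA9_eps ε h0 h1
  have hh : 0 < ε ^ 2 := by positivity
  have hpi2 := Real.pi_lt_d2
  have hs2 : 0 < s - 2 := by linarith
  set r : ℝ := Real.exp (-(ε ^ 2 * 0.16105)) with hr
  have hr0 : 0 < r := Real.exp_pos _
  have hr1 : r ≤ 1 := by
    rw [hr, Real.exp_le_one_iff]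
    have : 0 ≤ ε ^ 2 * 0.16105 := by positivity
    linarith
  have hr2 : 0.9966 ≤ r := by
    have := Real.add_one_le_exp (-(ε ^ 2 * 0.16105))
    rw [← hr] at this
    norm_num at this ⊢
    linarith
  set θ : ℝ := -(ε ^ 2 * (t + 1.6071 - ε / 6)) with hθ
  have ha : |t + 1.6071 - ε / 6| ≤ s + 1.6071 := by
    rw [← hst, abs_le]
    have := neg_abs_le t
    have := le_abs_self t
    constructor <;> norm_num <;> linarith
  have hb : s - 2 ≤ |t + 1.6071 - ε / 6| := by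
    have h2 : |t| ≤ |t + 1.6071 - ε / 6| + |ε / 6 - 1.6071| := by
      have := abs_add_le (t + 1.6071 - ε / 6) (ε / 6 - 1.6071)
      rwa [show t + 1.6071 - ε / 6 + (ε / 6 - 1.6071) = t by ring] at this
    have h3 : |ε / 6 - 1.6071| ≤ 2 := by
      rw [abs_le]; constructor <;> norm_num <;> linarith
    rw [hst] at h2
    linarith
  have habs : |θ| = ε ^ 2 * |t + 1.6071 - ε / 6| := by
    rw [hθ, abs_neg, abs_mul, abs_of_pos hh]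
  have hθ1 : |θ| ≤ 3.2 := by
    rw [habs]
    have h2 : ε ^ 2 * |t + 1.6071 - ε / 6| ≤ ε ^ 2 * (s + 1.6071) := by gcongr
    have h3 : s * ε ^ 2 ≤ Real.pi := (le_div_iff₀ hh).1 hs1
    norm_num at h2 ⊢
    linarith
  have hθ2 : ε ^ 2 * (s - 2) ≤ |θ| := by
    rw [habs]; gcongr
  have key := FA9_one_sub r θ hr0 hθ1
  have hz := FA9_exp ε t
  rw [← hr, ← hθ] at hz
  have hkey : r * (ε ^ 2 * (s - 2)) / 2 ≤
      ‖1 - Complex.exp (-((ε ^ 2 : ℝ) : ℂ) * (Bs t - Bz ε))‖ := by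
    rw [hz]
    refine le_trans ?_ key
    gcongr
  have hpos : 0 < r * (ε ^ 2 * (s - 2)) / 2 := by positivity
  have hne : 1 - Complex.exp (-((ε ^ 2 : ℝ) : ℂ) * (Bs t - Bz ε)) ≠ 0 := by
    intro h
    rw [h, norm_zero] at hkey
    linarith
  refine ⟨hne, ?_⟩
  have hnz : ‖Complex.exp (-((ε ^ 2 : ℝ) : ℂ) * (Bs t - Bz ε))‖ = r ^ 2 := by
    rw [hz, norm_mul, Complex.norm_exp_ofReal_mul_I, mul_one, Complex.norm_real,
      Real.norm_eq_abs, abs_of_nonneg (by positivity)]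
  have hn1 : ‖1 + Complex.exp (-((ε ^ 2 : ℝ) : ℂ) * (Bs t - Bz ε))‖ ≤ 2 := by
    refine (norm_add_le _ _).trans ?_
    rw [hnz, norm_one]
    have : r ^ 2 ≤ 1 := pow_le_one₀ hr0.le hr1
    linarith
  unfold gpole
  rw [norm_div, norm_mul, norm_mul, norm_pow, hnz, Complex.norm_real, Real.norm_eq_abs,
    abs_of_nonneg (by positivity : (0 : ℝ) ≤ ε ^ 6)]
  have hd : (r * (ε ^ 2 * (s - 2)) / 2) ^ 3 ≤
      ‖1 - Complex.exp (-((ε ^ 2 : ℝ) : ℂ) * (Bs t - Bz ε))‖ ^ 3 := by gcongr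
  have hd0 : 0 < (r * (ε ^ 2 * (s - 2)) / 2) ^ 3 := by positivity
  calc ε ^ 6 * r ^ 2 * ‖1 + Complex.exp (-((ε ^ 2 : ℝ) : ℂ) * (Bs t - Bz ε))‖ /
        ‖1 - Complex.exp (-((ε ^ 2 : ℝ) : ℂ) * (Bs t - Bz ε))‖ ^ 3
      ≤ ε ^ 6 * r ^ 2 * 2 / (r * (ε ^ 2 * (s - 2)) / 2) ^ 3 := by gcongr
    _ = (16 / r) / (s - 2) ^ 3 := by
        field_simp
        norm_num
    _ ≤ 16.1 / (s - 2) ^ 3 := by
        gcongr
        rw [div_le_iff₀ hr0]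
        norm_num at hr2 ⊢
        linarith

theorem FA9_gint (ε : ℝ) (h0 : 0 < ε) (h1 : ε ^ 3 ≤ 3 / 1000) (b : ℝ → ℝ) (hb : Continuous b)
    (hb1 : ∀ s, 0 ≤ s → |b s| = s) :
    (∫ s in (12 : ℝ)..(Real.pi / ε ^ 2), ‖gpole ε (Bs (b s))‖) ≤ 0.1 := by
  obtain ⟨e1, e2⟩ := FA9_eps ε h0 h1
  have hh : 0 < ε ^ 2 := by positivity
  have hpi := Real.pi_gt_three
  have k1 : (12 : ℝ) ≤ Real.pi / ε ^ 2 := by
    rw [le_div_iff₀ hh]; linarith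
  have cB : Continuous fun s => Bs (b s) := FA9_Bs_cont.comp hb
  have c1 : Continuous fun s => Complex.exp (-((ε ^ 2 : ℝ) : ℂ) * (Bs (b s) - Bz ε)) := by
    fun_prop
  have b1 := FA9_int_le (fun s => ‖gpole ε (Bs (b s))‖)
    (fun s : ℝ => -(8.05 * ((s - 2) ^ 2)⁻¹))
    (fun s : ℝ => 16.1 / (s - 2) ^ 3) 12 (Real.pi / ε ^ 2) k1
    (by
      intro s hs
      apply ContinuousAt.continuousWithinAt
      apply ContinuousAt.norm
      have hne := (FA9_gp ε h0 h1 s (b s) (hb1 s (by linarith [hs.1])) hs.1 hs.2).1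
      unfold gpole
      refine ContinuousAt.div ?_ ?_ (pow_ne_zero 3 hne)
      · exact (continuousAt_const.mul c1.continuousAt).mul (continuousAt_const.add c1.continuousAt)
      · exact (continuousAt_const.sub c1.continuousAt).pow 3)
    (by
      intro s hs
      have hs2 : 0 < s - 2 := by linarith [hs.1]
      have d := ((((hasDerivAt_id s).sub_const 2).fun_pow 2).fun_inv
        (pow_pos hs2 2).ne').const_mul (8.05 : ℝ) |>.fun_neg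
      refine d.congr_deriv ?_
      simp only [id]
      field_simp
      norm_num
      ring)
    (by
      intro s hs
      have hs2 : 0 < s - 2 := by linarith [hs.1]
      apply ContinuousAt.continuousWithinAt
      exact continuousAt_const.div ((continuousAt_id.sub continuousAt_const).pow 3)
        (pow_pos hs2 3).ne')
    (by
      intro s hs
      exact (FA9_gp ε h0 h1 s (b s) (hb1 s (by linarith [hs.1])) hs.1 hs.2).2)
  refine b1.trans ?_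
  have h7 : 0 ≤ ((Real.pi / ε ^ 2 - 2) ^ 2)⁻¹ := by positivity
  generalize ((Real.pi / ε ^ 2 - 2) ^ 2)⁻¹ = X at h7 ⊢
  norm_num
  linarith

/-- the pole term is small on the far arc: |gpole| ≤ ε⁶ (cosh..)/(4 |sin(ε² (|s| - 2)/2)|³) ≤ C/(|s|-2)³ -/
theorem far_gpole (ε : ℝ) (h0 : 0 < ε) (h1 : ε ^ 3 ≤ 3 / 1000) :
    (∫ s in (12 : ℝ)..(Real.pi / ε ^ 2), ‖gpole ε (Bs s)‖) ≤ 0.1 ∧
    (∫ s in (12 : ℝ)..(Real.pi / ε ^ 2), ‖gpole ε (Bs (-s))‖) ≤ 0.1 := by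
  refine ⟨FA9_gint ε h0 h1 (fun s => s) continuous_id (fun s hs => abs_of_nonneg hs),
    FA9_gint ε h0 h1 (fun s => -s) continuous_neg (fun s hs => by rw [abs_neg, abs_of_nonneg hs])⟩

end MP_d1b55a
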