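import Pool.Agent.Lib.MP_d1b55a_co.Defs

/-!
MP_d1b55a_co: Jensen / Landau bounds for the moduli of the roots of
`F_M(x) = ∑_{n ≤ M} y^(n choose 2) x^n / n!`.
-/

open Polynomial Finset Real

namespace MP_d1b55a

/-- `F_M(x) = ∑_{n ≤ M} y^(n choose 2) x^n / n!` -/
noncomputable def FM (y : ℂ) (M : ℕ) : Polynomial ℂ :=
  ∑ n ∈ Finset.range (M + 1), Polynomial.monomial n (y ^ (n.choose 2) / (n.factorial : ℂ))

/-- `N_M(R) = ∑_k log⁺ (R / |ξ_k|)`, where `-ξ_k` are the roots of `F_M` -/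
noncomputable def NM (y : ℂ) (M : ℕ) (R : ℝ) : ℝ :=
  ((FM y M).roots.map (fun r => Real.posLog (R / ‖r‖))).sum

theorem FM_coeff (y : ℂ) (M n : ℕ) :
    (FM y M).coeff n = if n ≤ M then y ^ (n.choose 2) / (n.factorial : ℂ) else 0 := by
  unfold FM
  rw [Polynomial.finsetSum_coeff]
  simp only [Polynomial.coeff_monomial]
  rw [Finset.sum_ite_eq']
  simp

theorem FM_coeff_zero (y : ℂ) (M : ℕ) : (FM y M).coeff 0 = 1 := by
  rw [FM_coeff]; simp

/-- logarithmic Mahler measure of a rescaled polynomial with constant coefficient `1` -/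
theorem logMahler_comp (p : Polynomial ℂ) (hp : p.coeff 0 = 1) (κ : ℂ) (hκ : κ ≠ 0) :
    (p.comp (C κ * X)).logMahlerMeasure =
      (p.roots.map (fun r => Real.posLog (‖κ‖ / ‖r‖))).sum := by
  have hp0 : p ≠ 0 := by
    rintro rfl; simp at hp
  have hfac : p = C p.leadingCoeff * (p.roots.map (fun r => X - C r)).prod :=
    (IsAlgClosed.splits p).eq_prod_roots
  have hlc : p.leadingCoeff ≠ 0 := leadingCoeff_ne_zero.mpr hp0
  have hr0 : ∀ r ∈ p.roots, r ≠ 0 := by
    rintro r hr rfl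
    rw [mem_roots hp0, IsRoot.def, ← coeff_zero_eq_eval_zero, hp] at hr
    exact one_ne_zero hr
  -- the norm of the constant coefficient
  have hconst : ‖p.leadingCoeff‖ * (p.roots.map (fun r => ‖r‖)).prod = 1 := by
    have h1 : p.coeff 0 = p.leadingCoeff * (p.roots.map (fun r => -r)).prod := by
      rw [coeff_zero_eq_eval_zero]
      conv_lhs => rw [hfac]
      rw [eval_mul, eval_C, eval_multiset_prod, Multiset.map_map]
      simp
    have h2 := congrArg norm (hp.symm.trans h1)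
    rw [norm_one, norm_mul] at h2
    rw [h2]
    congr 1
    have h3 := map_multiset_prod (normHom : ℂ →*₀ ℝ) (p.roots.map (fun r => -r))
    rw [Multiset.map_map] at h3
    change ‖(p.roots.map (fun r => -r)).prod‖ = _ at h3
    rw [h3]
    congr 1
    apply Multiset.map_congr rfl
    intro r _
    simp [normHom]
  have hcomp : p.comp (C κ * X) =
      C p.leadingCoeff * (p.roots.map (fun r => C κ * X + C (-r))).prod := by
    conv_lhs => rw [hfac]
    rw [mul_comp, C_comp, multiset_prod_comp, Multiset.map_map]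
    simp [sub_eq_add_neg]
  have hM : (p.comp (C κ * X)).mahlerMeasure =
      ‖p.leadingCoeff‖ * (p.roots.map (fun r => max ‖κ‖ ‖r‖)).prod := by
    rw [hcomp, mahlerMeasure_mul, mahlerMeasure_const, prod_mahlerMeasure_eq_mahlerMeasure_prod,
      Multiset.map_map]
    congr 2
    apply Multiset.map_congr rfl
    intro r _
    simp only [Function.comp]
    rw [mahlerMeasure_C_mul_X_add_C hκ, norm_neg]
  rw [logMahlerMeasure_eq_log_MahlerMeasure, hM]
  have hdiv : ‖p.leadingCoeff‖ * (p.roots.map (fun r => max ‖κ‖ ‖r‖)).prod =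
      (p.roots.map (fun r => max 1 (‖κ‖ / ‖r‖))).prod := by
    have : (p.roots.map (fun r => max ‖κ‖ ‖r‖)).prod =
        (p.roots.map (fun r => ‖r‖)).prod * (p.roots.map (fun r => max 1 (‖κ‖ / ‖r‖))).prod := by
      rw [← Multiset.prod_map_mul]
      congr 1
      apply Multiset.map_congr rfl
      intro r hr
      have hr' : 0 < ‖r‖ := norm_pos_iff.mpr (hr0 r hr)
      rw [mul_max_of_nonneg _ _ hr'.le, mul_one, mul_div_cancel₀ _ hr'.ne', max_comm]
    rw [this, ← mul_assoc, hconst, one_mul]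
  rw [hdiv, Real.log_multiset_prod]
  · rw [Multiset.map_map]
    congr 1
    apply Multiset.map_congr rfl
    intro r _
    simp only [Function.comp]
    rw [posLog_eq_log_max_one (by positivity)]
  · intro x hx
    rw [Multiset.mem_map] at hx
    obtain ⟨r, _, rfl⟩ := hx
    positivity

theorem NM_eq (y : ℂ) (M : ℕ) (κ : ℂ) (hκ : κ ≠ 0) :
    ((FM y M).comp (C κ * X)).logMahlerMeasure = NM y M ‖κ‖ :=
  logMahler_comp _ (FM_coeff_zero y M) κ hκ


theorem comp_coeff (p : Polynomial ℂ) (κ : ℂ) (n : ℕ) :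
    (p.comp (C κ * X)).coeff n = p.coeff n * κ ^ n := by
  rw [comp_C_mul_X_coeff]

theorem FM_comp_coeff_norm_le (y : ℂ) (hy : ‖y‖ ≤ 1) (M n : ℕ) (κ : ℂ) :
    ‖((FM y M).comp (C κ * X)).coeff n‖ ≤ ‖κ‖ ^ n / (n.factorial : ℝ) := by
  rw [comp_coeff, FM_coeff, norm_mul, norm_pow]
  split_ifs with h
  · rw [norm_div, norm_pow, Complex.norm_natCast, div_mul_eq_mul_div]
    gcongr
    calc ‖y‖ ^ n.choose 2 * ‖κ‖ ^ n ≤ 1 * ‖κ‖ ^ n := by
          gcongr
          exact pow_le_one₀ (norm_nonneg y) hy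
      _ = ‖κ‖ ^ n := one_mul _
  · rw [norm_zero, zero_mul]
    positivity

/-- trivial bound: `N_M(R) ≤ R` -/
theorem N3 (y : ℂ) (hy : ‖y‖ ≤ 1) (M : ℕ) (R : ℝ) (hR : 0 < R) : NM y M R ≤ R := by
  have hκ : ((R : ℂ)) ≠ 0 := by exact_mod_cast hR.ne'
  have h1 := NM_eq y M (R : ℂ) hκ
  have hn : ‖(R : ℂ)‖ = R := by rw [Complex.norm_real, Real.norm_of_nonneg hR.le]
  rw [hn] at h1
  rw [← h1, logMahlerMeasure_eq_log_MahlerMeasure]
  have hp0 : (FM y M).comp (C (R : ℂ) * X) ≠ 0 := by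
    intro h
    have h2 := congrArg (fun p => p.coeff 0) h
    simp only [comp_coeff, FM_coeff_zero] at h2
    simp at h2
  have hpos := mahlerMeasure_pos_of_ne_zero hp0
  rw [Real.log_le_iff_le_exp hpos]
  calc _ ≤ ((FM y M).comp (C (R : ℂ) * X)).sum fun _ a ↦ ‖a‖ := mahlerMeasure_le_sum_norm_coeff _
    _ ≤ ∑ n ∈ Finset.range (M + 1), R ^ n / (n.factorial : ℝ) := by
        rw [Polynomial.sum_def]
        refine (Finset.sum_le_sum_of_subset_of_nonneg (t := Finset.range (M + 1)) ?_ ?_).trans ?_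
        · intro n hn'
          rw [Polynomial.mem_support_iff, comp_coeff, FM_coeff] at hn'
          rw [Finset.mem_range]
          by_contra hcon
          apply hn'
          rw [if_neg (by omega), zero_mul]
        · intros; positivity
        · apply Finset.sum_le_sum
          intro n _
          have := FM_comp_coeff_norm_le y hy M n (R : ℂ)
          rwa [hn] at this
    _ ≤ Real.exp R := Real.sum_le_exp_of_nonneg hR.le _

/-- conjugation does not change the moduli of the roots -/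
theorem NM_conj (y : ℂ) (M : ℕ) (R : ℝ) : NM ((starRingEnd ℂ) y) M R = NM y M R := by
  have h1 : FM ((starRingEnd ℂ) y) M = (FM y M).map (starRingEnd ℂ) := by
    ext n
    rw [coeff_map, FM_coeff, FM_coeff]
    split_ifs <;> simp
  unfold NM
  rw [h1, Polynomial.Splits.roots_map (IsAlgClosed.splits _), Multiset.map_map]
  congr 1
  apply Multiset.map_congr rfl
  intro r _
  simp

/-- coefficients of the (rescaled) product `F(x;y) F(-x y^(-1-c);1/y)` -/
noncomputable def ph (θ c ρ : ℝ) (n : ℕ) : ℝ :=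
  (ρ * Real.sin (((n : ℝ) + c) * θ / 2) / Real.sin (θ / 2)) ^ n / (n.factorial : ℝ)

/-- coefficients of `Φ * B` -/
noncomputable def dd (θ c ρ : ℝ) (B : Polynomial ℝ) (n : ℕ) : ℝ :=
  ∑ k ∈ Finset.HasAntidiagonal.antidiagonal n, ph θ c ρ k.1 * B.coeff k.2

theorem Phi_coeff (θ c R : ℝ) (M n : ℕ) (hn : n ≤ M) :
    (((FM (Complex.exp (θ * Complex.I)) M).comp
        (C ((R : ℂ) * Complex.exp ((θ * (1 + c) / 2 - π / 2 : ℝ) * Complex.I)) * X)) *
      ((FM ((starRingEnd ℂ) (Complex.exp (θ * Complex.I))) M).comp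
        (C ((starRingEnd ℂ) ((R : ℂ) * Complex.exp ((θ * (1 + c) / 2 - π / 2 : ℝ) * Complex.I)))
          * X))).coeff n
      = (((2 * R * Real.sin (((n : ℝ) + c) * θ / 2)) ^ n / (n.factorial : ℝ) : ℝ) : ℂ) := by
  rw [Polynomial.coeff_mul]
  set ψ : ℝ := ((n : ℝ) + c) * θ / 2 - π / 2 with hψ
  have hterm : ∀ k ∈ Finset.HasAntidiagonal.antidiagonal n,
      ((FM (Complex.exp (θ * Complex.I)) M).comp
        (C ((R : ℂ) * Complex.exp ((θ * (1 + c) / 2 - π / 2 : ℝ) * Complex.I)) * X)).coeff k.1 *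
      ((FM ((starRingEnd ℂ) (Complex.exp (θ * Complex.I))) M).comp
        (C ((starRingEnd ℂ) ((R : ℂ) * Complex.exp ((θ * (1 + c) / 2 - π / 2 : ℝ) * Complex.I)))
          * X)).coeff k.2 =
      (R : ℂ) ^ n / (n.factorial : ℂ) * ((Complex.exp (ψ * Complex.I)) ^ k.1 *
        (Complex.exp (-ψ * Complex.I)) ^ k.2 * (n.choose k.1 : ℂ)) := by
    intro k hk
    rw [Finset.HasAntidiagonal.mem_antidiagonal] at hk
    have h1 : k.1 ≤ M := by omega
    have h2 : k.2 ≤ M := by omega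
    rw [comp_coeff, comp_coeff, FM_coeff, FM_coeff, if_pos h1, if_pos h2]
    rw [map_mul, Complex.conj_ofReal, ← Complex.exp_conj, ← Complex.exp_conj]
    simp only [map_mul, Complex.conj_ofReal, Complex.conj_I]
    rw [mul_pow, mul_pow]
    simp only [← Complex.exp_nat_mul]
    have hch : (n.choose k.1 : ℂ) = (n.factorial : ℂ) / ((k.1.factorial : ℂ) * (k.2.factorial : ℂ)) := by
      have h3 : n.choose k.1 * k.1.factorial * k.2.factorial = n.factorial := by
        have h4 := Nat.choose_mul_factorial_mul_factorial (show k.1 ≤ n by omega)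
        rwa [show n - k.1 = k.2 by omega] at h4
      have h5 : (k.1.factorial : ℂ) ≠ 0 := by exact_mod_cast Nat.factorial_ne_zero _
      have h6 : (k.2.factorial : ℂ) ≠ 0 := by exact_mod_cast Nat.factorial_ne_zero _
      rw [eq_div_iff (mul_ne_zero h5 h6), ← mul_assoc]
      exact_mod_cast h3
    rw [hch]
    have hf1 : (k.1.factorial : ℂ) ≠ 0 := by exact_mod_cast Nat.factorial_ne_zero _
    have hf2 : (k.2.factorial : ℂ) ≠ 0 := by exact_mod_cast Nat.factorial_ne_zero _
    have hf : (n.factorial : ℂ) ≠ 0 := by exact_mod_cast Nat.factorial_ne_zero _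
    have hexp : Complex.exp ((k.1.choose 2 : ℕ) * (θ * Complex.I)) *
        Complex.exp ((k.1 : ℕ) * (((θ * (1 + c) / 2 - π / 2 : ℝ) : ℂ) * Complex.I)) *
        (Complex.exp ((k.2.choose 2 : ℕ) * (θ * -Complex.I)) *
        Complex.exp ((k.2 : ℕ) * (((θ * (1 + c) / 2 - π / 2 : ℝ) : ℂ) * -Complex.I))) =
        Complex.exp ((k.1 : ℕ) * (ψ * Complex.I)) * Complex.exp ((k.2 : ℕ) * (-ψ * Complex.I)) := by
      rw [← Complex.exp_add, ← Complex.exp_add, ← Complex.exp_add, ← Complex.exp_add]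
      congr 1
      rw [hψ, ← hk]
      have e1 : ((k.1.choose 2 : ℕ) : ℂ) = (k.1 : ℂ) * ((k.1 : ℂ) - 1) / 2 := by
        rw [Nat.cast_choose_two]
      have e2 : ((k.2.choose 2 : ℕ) : ℂ) = (k.2 : ℂ) * ((k.2 : ℂ) - 1) / 2 := by
        rw [Nat.cast_choose_two]
      rw [e1, e2]
      push_cast
      ring
    have hR : (R : ℂ) ^ n = (R : ℂ) ^ k.1 * (R : ℂ) ^ k.2 := by rw [← pow_add, hk]
    rw [hR]
    calc _ = (R : ℂ) ^ k.1 * (R : ℂ) ^ k.2 / ((k.1.factorial : ℂ) * (k.2.factorial : ℂ)) *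
          (Complex.exp ((k.1.choose 2 : ℕ) * (θ * Complex.I)) *
        Complex.exp ((k.1 : ℕ) * (((θ * (1 + c) / 2 - π / 2 : ℝ) : ℂ) * Complex.I)) *
        (Complex.exp ((k.2.choose 2 : ℕ) * (θ * -Complex.I)) *
        Complex.exp ((k.2 : ℕ) * (((θ * (1 + c) / 2 - π / 2 : ℝ) : ℂ) * -Complex.I)))) := by
          field_simp
      _ = _ := by
          rw [hexp]
          field_simp
  rw [Finset.sum_congr rfl hterm, ← Finset.mul_sum]
  have hbin := (Commute.all (Complex.exp (ψ * Complex.I)) (Complex.exp (-ψ * Complex.I))).add_pow' n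
  have hcos : Complex.exp (ψ * Complex.I) + Complex.exp (-ψ * Complex.I) =
      ((2 * Real.sin (((n : ℝ) + c) * θ / 2) : ℝ) : ℂ) := by
    have h1 : Real.cos ψ = Real.sin (((n : ℝ) + c) * θ / 2) := by
      rw [hψ, Real.cos_sub_pi_div_two]
    rw [← h1]
    have h2 := Complex.two_cos (ψ : ℂ)
    push_cast
    rw [h2]
  rw [hcos] at hbin
  have hsum : ∑ k ∈ Finset.HasAntidiagonal.antidiagonal n, ((Complex.exp (ψ * Complex.I)) ^ k.1 *
        (Complex.exp (-ψ * Complex.I)) ^ k.2 * (n.choose k.1 : ℂ)) =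
      ((2 * Real.sin (((n : ℝ) + c) * θ / 2) : ℝ) : ℂ) ^ n := by
    rw [hbin]
    apply Finset.sum_congr rfl
    intro k _
    rw [nsmul_eq_mul]
    ring
  rw [hsum]
  push_cast
  ring

theorem Phi_coeff_norm_le (y : ℂ) (hy : ‖y‖ ≤ 1) (κ : ℂ) (M n : ℕ) :
    ‖(((FM y M).comp (C κ * X)) * ((FM ((starRingEnd ℂ) y) M).comp
        (C ((starRingEnd ℂ) κ) * X))).coeff n‖ ≤ (2 * ‖κ‖) ^ n / (n.factorial : ℝ) := by
  rw [Polynomial.coeff_mul]
  have h1 : ∀ k ∈ Finset.HasAntidiagonal.antidiagonal n,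
      ‖((FM y M).comp (C κ * X)).coeff k.1 * ((FM ((starRingEnd ℂ) y) M).comp
        (C ((starRingEnd ℂ) κ) * X)).coeff k.2‖ ≤
      ‖κ‖ ^ k.1 * ‖κ‖ ^ k.2 * (n.choose k.1 : ℝ) / (n.factorial : ℝ) := by
    intro k hk
    rw [Finset.HasAntidiagonal.mem_antidiagonal] at hk
    rw [norm_mul]
    have a1 := FM_comp_coeff_norm_le y hy M k.1 κ
    have a2 := FM_comp_coeff_norm_le ((starRingEnd ℂ) y) (by simpa using hy) M k.2
      ((starRingEnd ℂ) κ)
    rw [Complex.norm_conj] at a2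
    have h3 : n.choose k.1 * k.1.factorial * k.2.factorial = n.factorial := by
      have h4 := Nat.choose_mul_factorial_mul_factorial (show k.1 ≤ n by omega)
      rwa [show n - k.1 = k.2 by omega] at h4
    have h3' : (n.choose k.1 : ℝ) * k.1.factorial * k.2.factorial = n.factorial := by
      exact_mod_cast h3
    have p1 : (0:ℝ) < k.1.factorial := by exact_mod_cast Nat.factorial_pos _
    have p2 : (0:ℝ) < k.2.factorial := by exact_mod_cast Nat.factorial_pos _
    have p3 : (0:ℝ) < n.factorial := by exact_mod_cast Nat.factorial_pos _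
    calc _ ≤ (‖κ‖ ^ k.1 / (k.1.factorial : ℝ)) * (‖κ‖ ^ k.2 / (k.2.factorial : ℝ)) := by
          gcongr
      _ = _ := by
          rw [← h3']
          have p4 : (n.choose k.1 : ℝ) ≠ 0 := by
            have := Nat.choose_pos (show k.1 ≤ n by omega)
            exact_mod_cast this.ne'
          field_simp
  calc _ ≤ ∑ k ∈ Finset.HasAntidiagonal.antidiagonal n,
        ‖κ‖ ^ k.1 * ‖κ‖ ^ k.2 * (n.choose k.1 : ℝ) / (n.factorial : ℝ) :=
        norm_sum_le_of_le _ h1
    _ = (2 * ‖κ‖) ^ n / (n.factorial : ℝ) := by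
        rw [← Finset.sum_div]
        congr 1
        have hbin := (Commute.all ‖κ‖ ‖κ‖).add_pow' n
        rw [two_mul, hbin]
        apply Finset.sum_congr rfl
        intro k _
        rw [nsmul_eq_mul]
        ring

theorem abs_ph_le (θ c ρ : ℝ) (hs : 0 < Real.sin (θ / 2)) (hρ : 0 < ρ) (n : ℕ) :
    |ph θ c ρ n| ≤ (2 * (ρ / (2 * Real.sin (θ / 2)))) ^ n / (n.factorial : ℝ) := by
  unfold ph
  rw [abs_div, abs_pow, Nat.abs_cast]
  gcongr
  rw [abs_div, abs_of_pos hs, abs_mul, abs_of_pos hρ]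
  have h := Real.abs_sin_le_one (((n : ℝ) + c) * θ / 2)
  calc ρ * |Real.sin (((n : ℝ) + c) * θ / 2)| / Real.sin (θ / 2) ≤ ρ * 1 / Real.sin (θ / 2) := by
        gcongr
    _ = 2 * (ρ / (2 * Real.sin (θ / 2))) := by field_simp

/-- auxiliary majorant of the coefficients of `Φ * B` -/
noncomputable def bbm (R : ℝ) (B : Polynomial ℝ) (n : ℕ) : ℝ :=
  ∑ k ∈ Finset.HasAntidiagonal.antidiagonal n, R ^ k.1 / (k.1.factorial : ℝ) * |B.coeff k.2|

theorem bbm_nonneg (R : ℝ) (hR : 0 ≤ R) (B : Polynomial ℝ) (n : ℕ) : 0 ≤ bbm R B n := by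
  unfold bbm
  positivity

theorem summable_bbm (R : ℝ) (hR : 0 ≤ R) (B : Polynomial ℝ) : Summable (bbm R B) := by
  have h1 : Summable (fun n : ℕ => ‖R ^ n / (n.factorial : ℝ)‖) :=
    (Real.summable_pow_div_factorial R).norm
  have h2 : Summable (fun n : ℕ => ‖(|B.coeff n| : ℝ)‖) := by
    apply Summable.norm
    apply summable_of_ne_finset_zero (s := B.support)
    intro n hn
    rw [Polynomial.notMem_support_iff] at hn
    rw [hn, abs_zero]
  have h3 := summable_norm_sum_mul_antidiagonal_of_summable_norm h1 h2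
  refine h3.congr ?_
  intro n
  rw [Real.norm_of_nonneg]
  · rfl
  · positivity

theorem summable_sq_of_nonneg (f : ℕ → ℝ) (hf : Summable f) (h0 : ∀ n, 0 ≤ f n) :
    Summable (fun n => f n ^ 2) := by
  have h1 := hf.mul_of_nonneg hf h0 h0
  have h2 := h1.comp_injective (i := fun n : ℕ => (n, n)) (fun a b h => by simpa using h)
  refine h2.congr ?_
  intro n
  simp [Function.comp, sq]

theorem abs_dd_le (θ c ρ : ℝ) (hs : 0 < Real.sin (θ / 2)) (hρ : 0 < ρ) (B : Polynomial ℝ)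
    (n : ℕ) : |dd θ c ρ B n| ≤ bbm (2 * (ρ / (2 * Real.sin (θ / 2)))) B n := by
  unfold dd bbm
  refine (Finset.abs_sum_le_sum_abs _ _).trans ?_
  apply Finset.sum_le_sum
  intro k _
  rw [abs_mul]
  gcongr
  exact abs_ph_le θ c ρ hs hρ k.1

theorem summable_dd_sq (θ c ρ : ℝ) (hs : 0 < Real.sin (θ / 2)) (hρ : 0 < ρ) (B : Polynomial ℝ) :
    Summable (fun n => (dd θ c ρ B n) ^ 2) := by
  have hR : 0 ≤ 2 * (ρ / (2 * Real.sin (θ / 2))) := by positivity
  have h1 := summable_sq_of_nonneg _ (summable_bbm _ hR B) (bbm_nonneg _ hR B)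
  refine Summable.of_nonneg_of_le (fun n => sq_nonneg _) (fun n => ?_) h1
  exact sq_le_sq' (by
    have := abs_le.mp (abs_dd_le θ c ρ hs hρ B n)
    linarith [this.1]) ((abs_le.mp (abs_dd_le θ c ρ hs hρ B n)).2)

/-- **Jensen / Landau**: bound of `∑_k log⁺ (ρ / |z_k|)`, `z_k = (1-y) ξ_k`, by the `ℓ²` norm of the
coefficients of `Φ * B`, for every polynomial `B` with `B 0 = 1`. -/
theorem N2 (θ c ρ : ℝ) (hs : 0 < Real.sin (θ / 2)) (hρ : 0 < ρ) (B : Polynomial ℝ)
    (hB : B.coeff 0 = 1) (T : ℝ) (hT : ∑' n, (dd θ c ρ B n) ^ 2 < Real.exp (4 * T)) :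
    ∃ M0 : ℕ, ∀ M ≥ M0,
      NM (Complex.exp (θ * Complex.I)) M (ρ / (2 * Real.sin (θ / 2))) ≤ T := by
  set R : ℝ := ρ / (2 * Real.sin (θ / 2)) with hR
  have hRpos : 0 < R := by positivity
  set y : ℂ := Complex.exp (θ * Complex.I) with hy
  have hyn : ‖y‖ = 1 := Complex.norm_exp_ofReal_mul_I θ
  set φ0 : ℝ := θ * (1 + c) / 2 - π / 2 with hφ
  set κ : ℂ := (R : ℂ) * Complex.exp ((φ0 : ℝ) * Complex.I) with hκ
  have hκn : ‖κ‖ = R := by
    rw [hκ, norm_mul, Complex.norm_exp_ofReal_mul_I, mul_one, Complex.norm_real,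
      Real.norm_of_nonneg hRpos.le]
  have hκ0 : κ ≠ 0 := by
    rw [← norm_pos_iff, hκn]; exact hRpos
  have h2R : 0 ≤ 2 * R := by positivity
  have hsb := summable_sq_of_nonneg _ (summable_bbm _ h2R B) (bbm_nonneg _ h2R B)
  have hsd : Summable (fun n => (dd θ c ρ B n) ^ 2) := summable_dd_sq θ c ρ hs hρ B
  have htail := _root_.tendsto_sum_nat_add (fun n => (bbm (2 * R) B n) ^ 2)
  set ε : ℝ := Real.exp (4 * T) - ∑' n, (dd θ c ρ B n) ^ 2 with hε
  have hεpos : 0 < ε := by rw [hε]; linarith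
  have hev := (htail.eventually (gt_mem_nhds hεpos))
  rw [Filter.eventually_atTop] at hev
  obtain ⟨M0, hM0⟩ := hev
  refine ⟨M0, fun M hM => ?_⟩
  have htl := hM0 (M + 1) (by omega)
  set P : Polynomial ℂ := (FM y M).comp (C κ * X) with hP
  set P' : Polynomial ℂ := (FM ((starRingEnd ℂ) y) M).comp (C ((starRingEnd ℂ) κ) * X) with hP'
  set BC : Polynomial ℂ := B.map (algebraMap ℝ ℂ) with hBC
  -- coefficients of the product
  have hc1 : ∀ n ≤ M, (P * P' * BC).coeff n = ((dd θ c ρ B n : ℝ) : ℂ) := by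
    intro n hn
    rw [Polynomial.coeff_mul]
    unfold dd
    push_cast
    apply Finset.sum_congr rfl
    intro k hk
    rw [Finset.HasAntidiagonal.mem_antidiagonal] at hk
    have h1 := Phi_coeff θ c R M k.1 (by omega)
    rw [← hy, ← hφ, ← hκ, ← hP, ← hP'] at h1
    rw [h1, hBC, Polynomial.coeff_map]
    have h2 : 2 * R * Real.sin (((k.1 : ℝ) + c) * θ / 2) =
        ρ * Real.sin (((k.1 : ℝ) + c) * θ / 2) / Real.sin (θ / 2) := by
      rw [hR]; field_simp
    rw [h2]
    simp [ph]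
  have hc2 : ∀ n, ‖(P * P' * BC).coeff n‖ ≤ bbm (2 * R) B n := by
    intro n
    rw [Polynomial.coeff_mul]
    unfold bbm
    apply norm_sum_le_of_le
    intro k _
    rw [norm_mul]
    have h1 := Phi_coeff_norm_le y hyn.le κ M k.1
    rw [hκn] at h1
    have h2 : ‖BC.coeff k.2‖ = |B.coeff k.2| := by
      rw [hBC, Polynomial.coeff_map]
      simp
    rw [h2]
    gcongr
  -- the ℓ² norm
  have hnorm : ∑ i ∈ (P * P' * BC).support, ‖(P * P' * BC).coeff i‖ ^ 2 < Real.exp (4 * T) := by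
    have hg : Summable (fun n => if n ≤ M then 0 else (bbm (2 * R) B n) ^ 2) := by
      refine Summable.of_nonneg_of_le (fun n => ?_) (fun n => ?_) hsb
      · split_ifs
        · exact le_refl _
        · positivity
      · split_ifs
        · positivity
        · exact le_refl _
    have h1 : ∑ i ∈ (P * P' * BC).support, ‖(P * P' * BC).coeff i‖ ^ 2 ≤
        ∑' n, ((dd θ c ρ B n) ^ 2 + if n ≤ M then 0 else (bbm (2 * R) B n) ^ 2) := by
      refine le_trans ?_ ((hsd.add hg).sum_le_tsum (P * P' * BC).support ?_)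
      · apply Finset.sum_le_sum
        intro i _
        split_ifs with h
        · rw [hc1 i h, Complex.norm_real, Real.norm_eq_abs, sq_abs, add_zero]
        · have := hc2 i
          have h0 : 0 ≤ ‖(P * P' * BC).coeff i‖ := norm_nonneg _
          nlinarith [sq_nonneg (dd θ c ρ B i)]
      · intro i _
        split_ifs <;> positivity
    have h2 : ∑' n, ((dd θ c ρ B n) ^ 2 + if n ≤ M then 0 else (bbm (2 * R) B n) ^ 2) =
        ∑' n, (dd θ c ρ B n) ^ 2 + ∑' n, (if n ≤ M then 0 else (bbm (2 * R) B n) ^ 2) :=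
      hsd.tsum_add hg
    have h3 : ∑' n, (if n ≤ M then 0 else (bbm (2 * R) B n) ^ 2) =
        ∑' n, (bbm (2 * R) B (n + (M + 1))) ^ 2 := by
      have h4 := hg.sum_add_tsum_nat_add (M + 1)
      have h5 : ∑ i ∈ Finset.range (M + 1), (if i ≤ M then 0 else (bbm (2 * R) B i) ^ 2) = 0 := by
        apply Finset.sum_eq_zero
        intro i hi
        rw [Finset.mem_range] at hi
        rw [if_pos (by omega)]
      rw [h5, zero_add] at h4
      rw [← h4]
      congr 1
      ext i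
      rw [if_neg (by omega)]
    rw [h2, h3] at h1
    have h6 : ∑' n, (bbm (2 * R) B (n + (M + 1))) ^ 2 < ε := htl
    rw [hε] at h6
    linarith
  have hL := mahlerMeasure_le_sqrt_sum_sq_norm_coeff (P * P' * BC)
  have hL2 : (P * P' * BC).mahlerMeasure ≤ Real.exp (2 * T) := by
    refine hL.trans ?_
    rw [show Real.exp (2 * T) = Real.sqrt (Real.exp (4 * T)) by
      rw [show (4 : ℝ) * T = 2 * T + 2 * T by ring, Real.exp_add,
        Real.sqrt_mul_self (Real.exp_pos _).le]]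
    exact Real.sqrt_le_sqrt hnorm.le
  rw [mahlerMeasure_mul, mahlerMeasure_mul] at hL2
  have hBm : 1 ≤ BC.mahlerMeasure := by
    have := norm_coeff_le_choose_mul_mahlerMeasure 0 BC
    rw [hBC, Polynomial.coeff_map, hB] at this
    simpa using this
  have hcoef0 : ∀ (y' κ' : ℂ), ((FM y' M).comp (C κ' * X)) ≠ 0 := by
    intro y' κ' h
    have h2 := congrArg (fun p => p.coeff 0) h
    simp only [comp_coeff, FM_coeff_zero] at h2
    simp at h2
  have hPm : P.mahlerMeasure = Real.exp (NM y M R) := by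
    have h1 := NM_eq y M κ hκ0
    rw [hκn, logMahlerMeasure_eq_log_MahlerMeasure] at h1
    rw [← h1, Real.exp_log (mahlerMeasure_pos_of_ne_zero (hcoef0 y κ))]
  have hPm' : P'.mahlerMeasure = Real.exp (NM y M R) := by
    have hκ0' : (starRingEnd ℂ) κ ≠ 0 := by simpa using hκ0
    have h1 := NM_eq ((starRingEnd ℂ) y) M ((starRingEnd ℂ) κ) hκ0'
    rw [Complex.norm_conj, hκn, NM_conj, logMahlerMeasure_eq_log_MahlerMeasure] at h1
    rw [← h1, Real.exp_log (mahlerMeasure_pos_of_ne_zero (hcoef0 _ _))]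
  rw [hPm, hPm', ← Real.exp_add] at hL2
  have h7 : Real.exp (NM y M R + NM y M R) ≤ Real.exp (2 * T) := by
    refine le_trans ?_ hL2
    nlinarith [Real.exp_pos (NM y M R + NM y M R)]
  have h8 := Real.exp_le_exp.mp h7
  linarith

end MP_d1b55a
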