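import Pool.Agent.Lib.MP_d1b55a_co.PR2
import Pool.Agent.Lib.MP_d1b55a_co.Mahler

/-!
PR3. Newton identities for the truncation FM: the power sums of the reciprocals of the roots of
`F_M(x) = ∑_{n ≤ M} y^(n choose 2) x^n / n!` are `(1-y)^(j-1) a_j(y)` for `1 ≤ j ≤ M`:
compare `F_M' = F_M ∑_k z_k/(1 + z_k x)` with `F' = F L` (PR2).
-/

open Polynomial Finset

namespace MP_d1b55a

/-- generating series of the power sums -/
noncomputable def nn1P (s : Multiset ℂ) : PowerSeries ℂ :=
  PowerSeries.mk (fun j => (-1) ^ j * (s.map (fun z => z ^ (j + 1))).sum)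

theorem nn1_single (a : ℂ) :
    (1 + PowerSeries.C a * PowerSeries.X) * nn1P {a} = PowerSeries.C a := by
  ext n
  rw [add_mul, one_mul, map_add, mul_assoc, PowerSeries.coeff_C_mul]
  rcases n with _ | n
  · simp [nn1P]
  · rw [PowerSeries.coeff_succ_X_mul, PowerSeries.coeff_C, if_neg (Nat.succ_ne_zero n)]
    simp only [nn1P, PowerSeries.coeff_mk, Multiset.map_singleton, Multiset.sum_singleton]
    ring

theorem nn1_cons (a : ℂ) (s : Multiset ℂ) : nn1P (a ::ₘ s) = nn1P {a} + nn1P s := by
  ext n
  simp only [nn1P, PowerSeries.coeff_mk, map_add, Multiset.map_cons, Multiset.sum_cons,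
    Multiset.map_singleton, Multiset.sum_singleton]
  ring

/-- logarithmic derivative of a product -/
theorem nn1_prod (s : Multiset ℂ) :
    PowerSeries.derivative ℂ (s.map (fun z => 1 + PowerSeries.C z * PowerSeries.X)).prod =
      (s.map (fun z => 1 + PowerSeries.C z * PowerSeries.X)).prod * nn1P s := by
  induction s using Multiset.induction_on with
  | empty =>
    have h0 : nn1P 0 = 0 := by
      ext n
      simp [nn1P]
    rw [h0]
    simp
  | cons a s ih =>
    rw [Multiset.map_cons, Multiset.prod_cons, Derivation.leibniz, ih, nn1_cons]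
    have hd : PowerSeries.derivative ℂ (1 + PowerSeries.C a * PowerSeries.X) =
        PowerSeries.C a := by
      ext n
      rw [PowerSeries.coeff_derivative]
      rcases n with _ | n
      · simp [PowerSeries.coeff_one]
      · simp [PowerSeries.coeff_one, PowerSeries.coeff_X, PowerSeries.coeff_C]
    have hs := nn1_single a
    rw [hd, smul_eq_mul, smul_eq_mul]
    linear_combination (-(s.map (fun z => 1 + PowerSeries.C z * PowerSeries.X)).prod) * hs

/-- `F_M` as a product -/
theorem nn1_FM_prod (y : ℂ) (M : ℕ) :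
    ((FM y M : Polynomial ℂ) : PowerSeries ℂ) =
      (((FM y M).roots.map (fun r => (-r)⁻¹)).map
        (fun z => 1 + PowerSeries.C z * PowerSeries.X)).prod := by
  set p := FM y M with hp
  have hc : p.coeff 0 = 1 := FM_coeff_zero y M
  have hp0 : p ≠ 0 := by
    intro h
    rw [h] at hc
    simp at hc
  have hfac : p = C p.leadingCoeff * (p.roots.map (fun r => X - C r)).prod :=
    (IsAlgClosed.splits p).eq_prod_roots
  have hr0 : ∀ r ∈ p.roots, r ≠ 0 := by
    intro r hr h0
    rw [mem_roots hp0, h0, IsRoot.def, ← coeff_zero_eq_eval_zero, hc] at hr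
    exact one_ne_zero hr
  have hprod : p.leadingCoeff * (p.roots.map (fun r => -r)).prod = 1 := by
    have h1 := congrArg (fun q => Polynomial.eval 0 q) hfac
    simp only [eval_mul, eval_C] at h1
    rw [← coeff_zero_eq_eval_zero, hc, eval_multiset_prod, Multiset.map_map] at h1
    rw [h1]
    congr 2
    apply Multiset.map_congr rfl
    intro r _
    simp
  have key : ∀ s : Multiset ℂ, (∀ r ∈ s, r ≠ 0) →
      ((s.map (fun r => X - C r)).prod : Polynomial ℂ) =
        C (s.map (fun r => -r)).prod *
          ((s.map (fun r => (-r)⁻¹)).map (fun z => 1 + C z * X)).prod := by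
    intro s
    induction s using Multiset.induction_on with
    | empty => intro _; simp
    | cons a s ih =>
      intro hs
      have ha : a ≠ 0 := hs a (Multiset.mem_cons_self a s)
      rw [Multiset.map_cons, Multiset.prod_cons, ih (fun r hr => hs r (Multiset.mem_cons_of_mem hr))]
      simp only [Multiset.map_cons, Multiset.prod_cons]
      have e : (X - C a : Polynomial ℂ) = C (-a) * (1 + C ((-a)⁻¹) * X) := by
        rw [mul_add, mul_one, ← mul_assoc, ← C_mul, mul_inv_cancel₀ (neg_ne_zero.mpr ha), C_1,
          one_mul, C_neg]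
        ring
      rw [e, C_mul]
      ring
  have h2 : p = ((p.roots.map (fun r => (-r)⁻¹)).map (fun z => 1 + C z * X)).prod := by
    conv_lhs => rw [hfac, key p.roots hr0, ← mul_assoc, ← C_mul, hprod, C_1, one_mul]
  conv_lhs => rw [h2]
  rw [← Polynomial.coeToPowerSeries.ringHom_apply, map_multiset_prod, Multiset.map_map]
  congr 1
  apply Multiset.map_congr rfl
  intro z _
  simp [Polynomial.coeToPowerSeries.ringHom_apply]

theorem nn1_coeff (y : ℂ) (M : ℕ) : ∀ j, j + 1 ≤ M →
    PowerSeries.coeff j (nn1P ((FM y M).roots.map (fun r => (-r)⁻¹))) =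
      PowerSeries.coeff j (nn1L y) := by
  set s := (FM y M).roots.map (fun r => (-r)⁻¹) with hs
  have hFM := nn1_FM_prod y M
  have hd : PowerSeries.derivative ℂ ((FM y M : Polynomial ℂ) : PowerSeries ℂ) =
      ((FM y M : Polynomial ℂ) : PowerSeries ℂ) * nn1P s := by
    rw [hFM]
    exact nn1_prod s
  have hF := nn1_main y
  have hc : ∀ n, n ≤ M → PowerSeries.coeff n ((FM y M : Polynomial ℂ) : PowerSeries ℂ) =
      PowerSeries.coeff n (nn1F y) := by
    intro n hn
    rw [Polynomial.coeff_coe, FM_coeff, if_pos hn]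
    simp [nn1F]
  intro j
  induction j using Nat.strong_induction_on with
  | _ j ih =>
    intro hj
    have h1 := congrArg (PowerSeries.coeff j) hd
    have h2 := congrArg (PowerSeries.coeff j) hF
    rw [PowerSeries.coeff_derivative, PowerSeries.coeff_mul,
      Finset.Nat.sum_antidiagonal_eq_sum_range_succ
        (fun p q => (PowerSeries.coeff p) ((FM y M : Polynomial ℂ) : PowerSeries ℂ) *
          (PowerSeries.coeff q) (nn1P s)), Finset.sum_range_succ'] at h1
    rw [PowerSeries.coeff_derivative, PowerSeries.coeff_mul,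
      Finset.Nat.sum_antidiagonal_eq_sum_range_succ
        (fun p q => (PowerSeries.coeff p) (nn1F y) *
          (PowerSeries.coeff q) (nn1L y)), Finset.sum_range_succ'] at h2
    rw [hc (j + 1) (by omega), h2] at h1
    have e : ∀ k ∈ Finset.range j,
        (PowerSeries.coeff (k + 1)) ((FM y M : Polynomial ℂ) : PowerSeries ℂ) *
          (PowerSeries.coeff (j - (k + 1))) (nn1P s) =
        (PowerSeries.coeff (k + 1)) (nn1F y) * (PowerSeries.coeff (j - (k + 1))) (nn1L y) := by
      intro k hk
      rw [Finset.mem_range] at hk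
      rw [hc (k + 1) (by omega), ih (j - (k + 1)) (by omega) (by omega)]
    rw [Finset.sum_congr rfl e, hc 0 (by omega)] at h1
    have h0 : (PowerSeries.coeff 0) (nn1F y) = 1 := by simp [nn1F]
    rw [h0, one_mul, one_mul] at h1
    exact (add_left_cancel h1).symm

/-- **N1** -/
theorem N1 (y : ℂ) (M j : ℕ) (hj : 1 ≤ j) (hM : j ≤ M) :
    ((FM y M).roots.map (fun r => ((-r)⁻¹) ^ j)).sum = pv j y := by
  obtain ⟨i, rfl⟩ : ∃ i, j = i + 1 := ⟨j - 1, by omega⟩
  have h := nn1_coeff y M i hM
  simp only [nn1P, nn1L, PowerSeries.coeff_mk, Multiset.map_map, Function.comp_def] at h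
  have hm : ((-1 : ℂ)) ^ i ≠ 0 := pow_ne_zero _ (by norm_num)
  rw [mul_assoc] at h
  have h3 := mul_left_cancel₀ hm h
  rw [h3]
  unfold pv
  simp

end MP_d1b55a
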