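import Pool.Agent.Lib.MP_d1b55a_co.KDS
import Pool.Agent.Lib.MP_d1b55a_co.PR3
import Pool.Agent.Lib.MP_d1b55a_co.CDefs

/-!
MP_d1b55a_co, P4: at the angle `.003` exactly one root of `F_M` is small, for all large `M`.
-/

open Finset Polynomial

namespace MP_d1b55a.K

open MP_d1b55a

theorem n1_holds : N1Stmt := fun y M j h1 h2 => N1 y M j h1 h2

theorem le_exp_of_pow {Q : ℕ} (hQ : 1 ≤ Q) (n : ℕ) (hn : 1 ≤ n) (a : ℕ) (C : ℝ)
    (h : qq Q ^ a * C ^ n ≤ 1) : C ≤ Real.exp ((a : ℝ) * (LL Q / n)) := by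
  have hn' : (0 : ℝ) < n := by exact_mod_cast hn
  have hq := pow_pos (qq_pos hQ) a
  have h1 : Real.exp ((a : ℝ) * (LL Q / n)) ^ n = (qq Q ^ a)⁻¹ := by
    rw [← Real.exp_nat_mul, ← exp_LL hQ, ← Real.exp_neg]
    congr 1
    field_simp
  have h2 : C ^ n ≤ Real.exp ((a : ℝ) * (LL Q / n)) ^ n := by
    rw [h1, ← one_div, le_div_iff₀ hq]
    linarith
  exact le_of_pow_le_pow_left₀ (by omega) (Real.exp_pos _).le h2

theorem card_filter_real (s : Multiset ℂ) (p : ℂ → Prop) [DecidablePred p] :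
    ((s.filter p).card : ℝ) = (s.map (fun r => if p r then (1 : ℝ) else 0)).sum := by
  induction s using Multiset.induction_on with
  | empty => simp
  | cons a s ih =>
    by_cases h : p a
    · rw [Multiset.filter_cons_of_pos _ h, Multiset.card_cons, Multiset.map_cons,
        Multiset.sum_cons, if_pos h, ← ih]
      push_cast; ring
    · rw [Multiset.filter_cons_of_neg _ h, Multiset.map_cons, Multiset.sum_cons, if_neg h, ← ih,
        zero_add]

open Classical in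
/-- **root count at the angle `.003`** -/
theorem root_count_aux : ∃ M0 : ℕ, ∀ M ≥ M0, ∀ R : ℝ, 125.1 ≤ R → R ≤ 126.1 →
    ((FM (yy 0.003) M).roots.filter (fun r => ‖r‖ < R)).card = 1 := by
  have hpi : (0.003 : ℝ) ≤ Real.pi := by linarith [Real.pi_gt_three]
  have hsb := Real.sin_bound (x := 0.00075) (by rw [abs_of_nonneg] <;> norm_num)
  rw [abs_of_nonneg (show (0 : ℝ) ≤ 0.00075 by norm_num)] at hsb
  have hsb' := abs_le.mp hsb
  have hsl : (0.00074999992968748 : ℝ) ≤ Real.sin 0.00075 := by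
    have := hsb'.1
    norm_num at this ⊢
    linarith
  have hsu : Real.sin 0.00075 ≤ 0.00074999992968752 := by
    have := hsb'.2
    norm_num at this ⊢
    linarith
  have hc2 : Real.cos 0.0015 = 1 - 2 * Real.sin 0.00075 ^ 2 := by
    have h1 : (0.0015 : ℝ) = 2 * 0.00075 := by norm_num
    rw [h1, Real.cos_two_mul, Real.cos_sq']
    ring
  have hs1 : (0.00074999992968748 : ℝ) ^ 2 ≤ Real.sin 0.00075 ^ 2 :=
    pow_le_pow_left₀ (by norm_num) hsl 2
  have hs2 : Real.sin 0.00075 ^ 2 ≤ (0.00074999992968752 : ℝ) ^ 2 :=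
    pow_le_pow_left₀ (by linarith) hsu 2
  have hhalf : (0.003 : ℝ) / 2 = 0.0015 := by norm_num
  have hone : (c6.one : ℝ) = 2 ^ 56 := by norm_num [c6]
  have hc0 : (zS.c0 : ℝ) = 72057512973149842 := by norm_num [zS]
  have hc1 : (zS.c1 : ℝ) = 16384 := by norm_num [zS]
  obtain ⟨ℓ, hℓ, hlo, hhi, M0, hM⟩ := cell_sep n1_holds c6 c6_ok zS zS_A zS_X0 zS_X1 zS_F 0.003
    (by norm_num) hpi
    (by rw [hc0, hc1, hone, hhalf, hc2]; norm_num at hs1 hs2 ⊢; linarith)
    (by rw [hc0, hc1, hone, hhalf, hc2]; norm_num at hs1 hs2 ⊢; linarith)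
  refine ⟨M0, fun M hMM R hR1 hR2 => ?_⟩
  obtain ⟨m, z, k0, hz0, _, hz2, _, hz4, hz5⟩ := hM M hMM
  have hℓ2 : 0 < ℓ / 2 := by positivity
  have hL : zS.N.L = LL 63 / (385 : ℕ) := rfl
  have hυ : (zS.N.υ : ℝ) = (3 : ℕ) := rfl
  have hw : (zS.N.w : ℝ) = (227 : ℕ) := rfl
  have hru : Real.exp (zS.N.υ * zS.N.L) ≤ 524353 / 524288 := by
    rw [hυ, hL]
    apply exp_le_of_pow (by norm_num) 385 (by norm_num) 3 _ (by norm_num)
    unfold qq
    rw [div_pow, div_pow, div_mul_div_comm, le_div_iff₀ (by positivity), one_mul]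
    have h : (63 + 1) ^ 3 * 524288 ^ 385 ≤ 63 ^ 3 * 524353 ^ 385 := by decide +kernel
    exact_mod_cast h
  have hrw : 1058355 / 1048576 ≤ Real.exp (zS.N.w * zS.N.L) := by
    rw [hw, hL]
    apply le_exp_of_pow (by norm_num) 385 (by norm_num) 227
    unfold qq
    rw [div_pow, div_pow, div_mul_div_comm, div_le_one (by positivity)]
    have h : 63 ^ 227 * 1058355 ^ 385 ≤ (63 + 1) ^ 227 * 1048576 ^ 385 := by decide +kernel
    exact_mod_cast h
  have hlo' : (18016741308898419476 : ℝ) / 2 ^ 57 ≤ ℓ / 2 := by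
    refine le_trans (le_of_eq ?_) hlo
    rw [hone]
    norm_num [zS]
  have hhi' : ℓ / 2 ≤ (18016744903409143019 : ℝ) / 2 ^ 57 := by
    refine le_trans hhi (le_of_eq ?_)
    rw [hone]
    have : sml zS.lp + sml zS.ln = 18016744903409143019 := by decide +kernel
    rw [this]
    norm_num
  have hnorm : ∀ k, ‖-(z k)⁻¹‖ = Real.exp (-Real.log ‖z k‖) := by
    intro k
    rw [norm_neg, norm_inv, Real.exp_neg, Real.exp_log (norm_pos_iff.mpr (hz0 k))]
  have hsmall : ‖-(z k0)⁻¹‖ < R := by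
    rw [hnorm]
    have h1 : Real.exp (-Real.log ‖z k0‖) ≤ (ℓ / 2) * Real.exp (zS.N.υ * zS.N.L) := by
      have h0 := Real.exp_le_exp.mpr hz4
      rwa [Real.exp_add, Real.exp_log hℓ2] at h0
    have h2 : (ℓ / 2) * Real.exp (zS.N.υ * zS.N.L) ≤ (18016744903409143019 : ℝ) / 2 ^ 57 * (524353 / 524288) :=
      mul_le_mul hhi' hru (Real.exp_pos _).le (by norm_num)
    have h3 : (18016744903409143019 : ℝ) / 2 ^ 57 * (524353 / 524288) < 125.1 := by norm_num
    linarith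
  have hbig : ∀ k, k ≠ k0 → ¬ ‖-(z k)⁻¹‖ < R := by
    intro k hk
    rw [hnorm, not_lt]
    have h1 : (ℓ / 2) * Real.exp (zS.N.w * zS.N.L) ≤ Real.exp (-Real.log ‖z k‖) := by
      have h0 := Real.exp_le_exp.mpr (hz5 k hk)
      rwa [Real.exp_add, Real.exp_log hℓ2] at h0
    have h2 : (18016741308898419476 : ℝ) / 2 ^ 57 * (1058355 / 1048576) ≤ (ℓ / 2) * Real.exp (zS.N.w * zS.N.L) :=
      mul_le_mul hlo' hrw (by norm_num) hℓ2.le
    have h3 : (126.1 : ℝ) < (18016741308898419476 : ℝ) / 2 ^ 57 * (1058355 / 1048576) := by norm_num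
    linarith
  have hcard : (((FM (yy 0.003) M).roots.filter (fun r => ‖r‖ < R)).card : ℝ) = 1 := by
    rw [card_filter_real, hz2, ← Finset.add_sum_erase _ _ (Finset.mem_univ k0), if_pos hsmall,
      Finset.sum_eq_zero, add_zero]
    intro k hk
    rw [if_neg (hbig k (Finset.ne_of_mem_erase hk))]
  exact_mod_cast hcard

end MP_d1b55a.K

namespace MP_d1b55a

/-- **root count at the angle `.003`**: exactly one root of `F_M` in the disc of radius `R` -/
theorem root_count : ∃ M0 : ℕ, ∀ M : ℕ, M0 ≤ M → ∀ R : ℝ, 125.1 ≤ R → R ≤ 126.1 →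
    cnt (FM (yy 0.003) M) R = 1 := by
  obtain ⟨M0, h⟩ := K.root_count_aux
  exact ⟨M0, fun M hM R h1 h2 => h M hM R h1 h2⟩

end MP_d1b55a
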