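import Pool.Agent.Lib.MP_d1b55a_co.NA0

/-! MP_d1b55a_co, near arc NA8: the pole term. True size of the left side: `2e-8`. Enough:
`|y^3 Q(1+Q) - 2(1-Q)^3| ≤ C |y|^5`, `Q = e^{-y}`, `y = h (B - Bz)`, `|y| ≤ 0.31`, `|B - Bz| ≥ 0.32`,
`|1-Q| ≥ 0.8 |y|`: error `h^2 * C / |B-Bz| * ..`. -/

namespace MP_d1b55a

theorem na8_eps (ε : ℝ) (_ : 0 < ε) (h1 : ε ^ 3 ≤ 3 / 1000) : ε ≤ 1443 / 10000 := by
  by_contra h
  push Not at h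
  have h2 : (1443 / 10000 : ℝ) ^ 3 < ε ^ 3 := pow_lt_pow_left₀ h (by norm_num) (by norm_num)
  norm_num at h2
  linarith

theorem na8_f (y : ℂ) (hy : ‖y‖ ≤ 3 / 10) :
    ‖y ^ 3 * (Complex.exp (-y) * (1 + Complex.exp (-y))) - 2 * (1 - Complex.exp (-y)) ^ 3‖ ≤
      21 / 10 * ‖y‖ ^ 7 := by
  have hr0 : 0 ≤ ‖y‖ := norm_nonneg y
  have e2 : Complex.exp (-(2 * y)) = Complex.exp (-y) ^ 2 := by
    rw [← Complex.exp_nat_mul]; congr 1; push_cast; ring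
  have e3 : Complex.exp (-(3 * y)) = Complex.exp (-y) ^ 3 := by
    rw [← Complex.exp_nat_mul]; congr 1; push_cast; ring
  have n1 : ‖-y‖ = ‖y‖ := norm_neg y
  have n2 : ‖-(2 * y)‖ = 2 * ‖y‖ := by rw [norm_neg, norm_mul]; norm_num
  have n3 : ‖-(3 * y)‖ = 3 * ‖y‖ := by rw [norm_neg, norm_mul]; norm_num
  have b1 := Complex.exp_bound (x := -y) (by rw [n1]; linarith) (n := 4) (by norm_num)
  have b2 := Complex.exp_bound (x := -(2 * y)) (by rw [n2]; linarith) (n := 4) (by norm_num)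
  have c1 := Complex.exp_bound (x := -y) (by rw [n1]; linarith) (n := 7) (by norm_num)
  have c2 := Complex.exp_bound (x := -(2 * y)) (by rw [n2]; linarith) (n := 7) (by norm_num)
  have c3 := Complex.exp_bound (x := -(3 * y)) (by rw [n3]; linarith) (n := 7) (by norm_num)
  rw [n1] at b1 c1
  rw [n2] at b2 c2
  rw [n3] at c3
  simp only [Finset.sum_range_succ, Finset.sum_range_zero] at b1 b2 c1 c2 c3
  rw [e2] at b2 c2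
  rw [e3] at c3
  norm_num [Nat.factorial] at b1 b2 c1 c2 c3
  obtain ⟨E, hE⟩ : ∃ E : ℂ, E = Complex.exp (-y) := ⟨_, rfl⟩
  rw [← hE] at b1 b2 c1 c2 c3 ⊢
  obtain ⟨r1, hr1⟩ : ∃ r1 : ℂ, r1 = E - (1 - y + y ^ 2 / 2 + (-y) ^ 3 / 6) := ⟨_, rfl⟩
  obtain ⟨r2, hr2⟩ : ∃ r2 : ℂ, r2 = E ^ 2 - (1 - 2 * y + (2 * y) ^ 2 / 2 + (-(2 * y)) ^ 3 / 6) :=
    ⟨_, rfl⟩
  obtain ⟨s1, hs1⟩ : ∃ s1 : ℂ, s1 = E - (1 - y + y ^ 2 / 2 + (-y) ^ 3 / 6 + y ^ 4 / 24 +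
    (-y) ^ 5 / 120 + y ^ 6 / 720) := ⟨_, rfl⟩
  obtain ⟨s2, hs2⟩ : ∃ s2 : ℂ, s2 = E ^ 2 - (1 - 2 * y + (2 * y) ^ 2 / 2 + (-(2 * y)) ^ 3 / 6 +
    (2 * y) ^ 4 / 24 + (-(2 * y)) ^ 5 / 120 + (2 * y) ^ 6 / 720) := ⟨_, rfl⟩
  obtain ⟨s3, hs3⟩ : ∃ s3 : ℂ, s3 = E ^ 3 - (1 - 3 * y + (3 * y) ^ 2 / 2 + (-(3 * y)) ^ 3 / 6 +
    (3 * y) ^ 4 / 24 + (-(3 * y)) ^ 5 / 120 + (3 * y) ^ 6 / 720) := ⟨_, rfl⟩
  have B1 : ‖r1‖ ≤ ‖y‖ ^ 4 * (5 / 96) := by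
    refine le_trans (le_of_eq ?_) (b1.trans (le_of_eq ?_))
    · rw [hr1]; congr 1
    · ring
  have B2 : ‖r2‖ ≤ (2 * ‖y‖) ^ 4 * (5 / 96) := by
    refine le_trans (le_of_eq ?_) (b2.trans (le_of_eq ?_))
    · rw [hr2]; congr 1
    · ring
  have C1 : ‖s1‖ ≤ ‖y‖ ^ 7 * (8 / 35280) := by
    refine le_trans (le_of_eq ?_) (c1.trans (le_of_eq ?_))
    · rw [hs1]; congr 1
    · ring
  have C2 : ‖s2‖ ≤ (2 * ‖y‖) ^ 7 * (8 / 35280) := by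
    refine le_trans (le_of_eq ?_) (c2.trans (le_of_eq ?_))
    · rw [hs2]; congr 1
    · ring
  have C3 : ‖s3‖ ≤ (3 * ‖y‖) ^ 7 * (8 / 35280) := by
    refine le_trans (le_of_eq ?_) (c3.trans (le_of_eq ?_))
    · rw [hs3]; congr 1
    · ring
  have hf : y ^ 3 * (E * (1 + E)) - 2 * (1 - E) ^ 3 =
      y ^ 3 * r1 + y ^ 3 * r2 + 6 * s1 + -(6 * s2) + 2 * s3 := by
    rw [hr1, hr2, hs1, hs2, hs3]
    ring
  rw [hf]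
  have t1 : ‖y ^ 3 * r1‖ ≤ ‖y‖ ^ 7 * (5 / 96) := by
    rw [norm_mul, norm_pow]
    calc ‖y‖ ^ 3 * ‖r1‖ ≤ ‖y‖ ^ 3 * (‖y‖ ^ 4 * (5 / 96)) :=
          mul_le_mul_of_nonneg_left B1 (by positivity)
      _ = _ := by ring
  have t2 : ‖y ^ 3 * r2‖ ≤ ‖y‖ ^ 7 * (80 / 96) := by
    rw [norm_mul, norm_pow]
    calc ‖y‖ ^ 3 * ‖r2‖ ≤ ‖y‖ ^ 3 * ((2 * ‖y‖) ^ 4 * (5 / 96)) :=
          mul_le_mul_of_nonneg_left B2 (by positivity)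
      _ = _ := by ring
  have t3 : ‖6 * s1‖ ≤ ‖y‖ ^ 7 * (48 / 35280) := by
    rw [norm_mul]
    calc ‖(6 : ℂ)‖ * ‖s1‖ ≤ 6 * (‖y‖ ^ 7 * (8 / 35280)) := by
          apply mul_le_mul _ C1 (norm_nonneg _) (by norm_num)
          norm_num
      _ = _ := by ring
  have t4 : ‖-(6 * s2)‖ ≤ ‖y‖ ^ 7 * (6144 / 35280) := by
    rw [norm_neg, norm_mul]
    calc ‖(6 : ℂ)‖ * ‖s2‖ ≤ 6 * ((2 * ‖y‖) ^ 7 * (8 / 35280)) := by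
          apply mul_le_mul _ C2 (norm_nonneg _) (by norm_num)
          norm_num
      _ = _ := by ring
  have t5 : ‖2 * s3‖ ≤ ‖y‖ ^ 7 * (34992 / 35280) := by
    rw [norm_mul]
    calc ‖(2 : ℂ)‖ * ‖s3‖ ≤ 2 * ((3 * ‖y‖) ^ 7 * (8 / 35280)) := by
          apply mul_le_mul _ C3 (norm_nonneg _) (by norm_num)
          norm_num
      _ = _ := by ring
  have hp : 0 ≤ ‖y‖ ^ 7 := by positivity
  calc ‖y ^ 3 * r1 + y ^ 3 * r2 + 6 * s1 + -(6 * s2) + 2 * s3‖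
      ≤ ‖y ^ 3 * r1‖ + ‖y ^ 3 * r2‖ + ‖6 * s1‖ + ‖-(6 * s2)‖ + ‖2 * s3‖ := by
        refine (norm_add_le _ _).trans (add_le_add_left ?_ _)
        refine (norm_add_le _ _).trans (add_le_add_left ?_ _)
        refine (norm_add_le _ _).trans (add_le_add_left ?_ _)
        exact norm_add_le _ _
    _ ≤ ‖y‖ ^ 7 * (5 / 96) + ‖y‖ ^ 7 * (80 / 96) + ‖y‖ ^ 7 * (48 / 35280) +
        ‖y‖ ^ 7 * (6144 / 35280) + ‖y‖ ^ 7 * (34992 / 35280) := by linarith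
    _ ≤ 21 / 10 * ‖y‖ ^ 7 := by nlinarith

theorem na8_q (y : ℂ) (hy : ‖y‖ ≤ 3 / 10) : 76 / 100 * ‖y‖ ≤ ‖1 - Complex.exp (-y)‖ := by
  have n1 : ‖-y‖ = ‖y‖ := norm_neg y
  have b1 := Complex.exp_bound (x := -y) (by rw [n1]; linarith) (n := 2) (by norm_num)
  rw [n1] at b1
  simp only [Finset.sum_range_succ, Finset.sum_range_zero] at b1
  norm_num [Nat.factorial] at b1
  have h2 : ‖y‖ ≤ ‖1 - Complex.exp (-y)‖ + ‖Complex.exp (-y) - (1 + -y)‖ := by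
    calc ‖y‖ = ‖(1 - Complex.exp (-y)) + (Complex.exp (-y) - (1 + -y))‖ := by
          congr 1; ring
      _ ≤ _ := norm_add_le _ _
  have hr0 : 0 ≤ ‖y‖ := norm_nonneg y
  have h3 : ‖Complex.exp (-y) - (1 + -y)‖ ≤ ‖y‖ ^ 2 * (3 / 4) := by
    refine le_trans (le_of_eq ?_) (b1.trans (le_of_eq ?_))
    · congr 1
    · ring
  nlinarith

theorem na_gpole (ε : ℝ) (h0 : 0 < ε) (h1 : ε ^ 3 ≤ 3 / 1000) (s : ℝ) (hs : |s| ≤ 12) :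
    ‖gpole ε (Bs s) - 2 / (Bs s - Bz ε) ^ 3‖ ≤ 1 / 1000 := by
  have he := na8_eps ε h0 h1
  obtain ⟨u, hu⟩ : ∃ u : ℂ, u = Bs s - Bz ε := ⟨_, rfl⟩
  have hre : u.re = 0.3221 := by
    rw [hu]; unfold Bs Bz; simp; norm_num
  have him : u.im = s + 1.6071 - ε / 6 := by
    rw [hu]; unfold Bs Bz; simp; ring
  have hs' := abs_le.1 hs
  have ha : ‖u‖ ≤ 14 := by
    refine (Complex.norm_le_abs_re_add_abs_im u).trans ?_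
    rw [hre, him]
    have h3 : |s + 1.6071 - ε / 6| ≤ 13.65 := by
      rw [abs_le]
      constructor <;> norm_num <;> linarith
    have h4 : |(0.3221 : ℝ)| = 0.3221 := by norm_num
    rw [h4]
    norm_num at h3 ⊢
    linarith
  have ha0 : 0 < ‖u‖ := by
    rw [norm_pos_iff]
    intro h
    rw [h] at hre
    norm_num at hre
  obtain ⟨y, hy⟩ : ∃ y : ℂ, y = ((ε ^ 2 : ℝ) : ℂ) * u := ⟨_, rfl⟩
  have hε2 : 0 < ε ^ 2 := by positivity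
  have hε2' : ε ^ 2 ≤ 209 / 10000 := by nlinarith
  have hyn : ‖y‖ = ε ^ 2 * ‖u‖ := by
    rw [hy, norm_mul, Complex.norm_real, Real.norm_eq_abs, abs_of_pos hε2]
  have hy3 : ‖y‖ ≤ 3 / 10 := by
    rw [hyn]
    nlinarith
  have hy0 : 0 < ‖y‖ := by rw [hyn]; positivity
  have hf := na8_f y hy3
  have hq := na8_q y hy3
  obtain ⟨Q, hQ⟩ : ∃ Q : ℂ, Q = Complex.exp (-y) := ⟨_, rfl⟩
  rw [← hQ] at hf hq
  have hq0 : 0 < ‖1 - Q‖ := lt_of_lt_of_le (by positivity) hq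
  have hQ1 : 1 - Q ≠ 0 := norm_pos_iff.1 hq0
  have hu0 : u ≠ 0 := norm_pos_iff.1 ha0
  have hg : gpole ε (Bs s) = ((ε ^ 6 : ℝ) : ℂ) * Q * (1 + Q) / (1 - Q) ^ 3 := by
    unfold gpole
    rw [← hu, hQ, hy, neg_mul]
  have hd : gpole ε (Bs s) - 2 / (Bs s - Bz ε) ^ 3 =
      (y ^ 3 * (Q * (1 + Q)) - 2 * (1 - Q) ^ 3) / (u ^ 3 * (1 - Q) ^ 3) := by
    rw [hg, ← hu, hy]
    push_cast
    field_simp
  rw [hd, norm_div, norm_mul, norm_pow, norm_pow]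
  rw [div_le_iff₀ (by positivity)]
  refine hf.trans ?_
  have h5 : (76 / 100 * ‖y‖) ^ 3 ≤ ‖1 - Q‖ ^ 3 := pow_le_pow_left₀ (by positivity) hq 3
  have h6 : 1 / 1000 * (‖u‖ ^ 3 * (76 / 100 * ‖y‖) ^ 3) ≤ 1 / 1000 * (‖u‖ ^ 3 * ‖1 - Q‖ ^ 3) := by
    apply mul_le_mul_of_nonneg_left _ (by norm_num)
    exact mul_le_mul_of_nonneg_left h5 (by positivity)
  refine le_trans ?_ h6
  have h7 : ‖y‖ ^ 4 ≤ (209 / 10000) ^ 3 * (14 * ‖u‖ ^ 3) := by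
    rw [hyn, mul_pow]
    have h8 : (ε ^ 2) ^ 4 ≤ (209 / 10000) ^ 4 := pow_le_pow_left₀ hε2.le hε2' 4
    calc (ε ^ 2) ^ 4 * ‖u‖ ^ 4 ≤ (209 / 10000) ^ 4 * (14 * ‖u‖ ^ 3) := by
          apply mul_le_mul h8 _ (by positivity) (by positivity)
          calc ‖u‖ ^ 4 = ‖u‖ * ‖u‖ ^ 3 := by ring
            _ ≤ 14 * ‖u‖ ^ 3 := mul_le_mul_of_nonneg_right ha (by positivity)
      _ ≤ _ := by
          have : (0 : ℝ) ≤ 14 * ‖u‖ ^ 3 := by positivity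
          nlinarith
  calc 21 / 10 * ‖y‖ ^ 7 = 21 / 10 * ‖y‖ ^ 3 * ‖y‖ ^ 4 := by ring
    _ ≤ 21 / 10 * ‖y‖ ^ 3 * ((209 / 10000) ^ 3 * (14 * ‖u‖ ^ 3)) :=
        mul_le_mul_of_nonneg_left h7 (by positivity)
    _ ≤ 1 / 1000 * (‖u‖ ^ 3 * (76 / 100 * ‖y‖) ^ 3) := by
        have h9 : 0 ≤ ‖y‖ ^ 3 * ‖u‖ ^ 3 := by positivity
        nlinarith

end MP_d1b55a
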