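import Pool.Agent.Lib.MP_d1b55a_co.NA6
import Pool.Agent.Lib.MP_d1b55a_co.NK0
import Pool.Agent.Lib.MP_d1b55a_co.NK1
import Pool.Agent.Lib.MP_d1b55a_co.NK2
import Pool.Agent.Lib.MP_d1b55a_co.NK3
import Pool.Agent.Lib.MP_d1b55a_co.NK4
import Pool.Agent.Lib.MP_d1b55a_co.NK5
import Pool.Agent.Lib.MP_d1b55a_co.NK6
import Pool.Agent.Lib.MP_d1b55a_co.NK7
import Pool.Agent.Lib.MP_d1b55a_co.NK8
import Pool.Agent.Lib.MP_d1b55a_co.NK9

/-! MP_d1b55a_co, near arc NB: the numerical cell certificate. -/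

open MeasureTheory intervalIntegral

namespace MP_d1b55a

/-- tolerances for `Esum` against `nE0` -/
noncomputable def tE : ℕ → ℝ := fun j => [16 / 10000, 59 / 10000, 326 / 10000].getD j 0

/-- the third logarithmic derivative from the values of `A_j`, `E_j` -/
noncomputable def nG (a e : ℕ → ℂ) : ℂ :=
  Complex.I * (e 2 / a 0 - 2 * e 1 * a 1 / a 0 ^ 2 - e 0 * a 2 / a 0 ^ 2 +
    2 * e 0 * a 1 ^ 2 / a 0 ^ 3)

theorem tA_le (j : ℕ) (hj : j ≤ 2) : tA j ≤ K.tolA j := by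
  unfold tA K.tolA
  interval_cases j <;> norm_num

theorem tE_le (j : ℕ) (hj : j ≤ 2) : tE j ≤ K.tolE j := by
  unfold tE K.tolE
  interval_cases j <;> norm_num

theorem cells_sum : ∀ i < 16, K.smB K.nb0 i + K.smB K.nb1 i + K.smB K.nb2 i + K.smB K.nb3 i +
    K.smB K.nb4 i + K.smB K.nb5 i + K.smB K.nb6 i + K.smB K.nb7 i + K.smB K.nb8 i +
    K.smB K.nb9 i ≤ 57 * 65536 := by decide +kernel

/-- gluing of two adjacent intervals -/
theorem glue {F : ℝ → ℂ} (hF : ∀ x y : ℝ, -12 ≤ x → x ≤ y → y ≤ 12 →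
    IntervalIntegrable (fun s => ‖F s‖) volume x y) (x y z A B : ℝ) (hx : -12 ≤ x) (hxy : x ≤ y)
    (hyz : y ≤ z) (hz : z ≤ 12) (h1 : ∫ s in x..y, ‖F s‖ ≤ A) (h2 : ∫ s in y..z, ‖F s‖ ≤ B) :
    ∫ s in x..z, ‖F s‖ ≤ A + B := by
  rw [← intervalIntegral.integral_add_adjacent_intervals (hF x y hx hxy (hyz.trans hz))
    (hF y z (hx.trans hxy) hyz hz)]
  exact add_le_add h1 h2

theorem na_cells (ε : ℝ) (h0 : 0 < ε) (h1 : ε ^ 3 ≤ 3 / 1000) (a e : ℝ → ℕ → ℂ)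
    (ha : ∀ s, |s| ≤ 12 → ∀ j ≤ 2, ‖a s j - nA0 ε j (Bs s)‖ ≤ tA j)
    (he : ∀ s, |s| ≤ 12 → ∀ j ≤ 2, ‖e s j - nE0 ε j (Bs s)‖ ≤ tE j)
    (hca : ∀ j, Continuous fun s => a s j) (hce : ∀ j, Continuous fun s => e s j) :
    (∀ s, |s| ≤ 12 → a s 0 ≠ 0) ∧
    ∫ s in (-12 : ℝ)..12, ‖nG (a s) (e s) - 2 / (Bs s - Bz ε) ^ 3‖ ≤ 57 := by
  obtain ⟨i0, hi0, hi⟩ := K.exists_inC ε h0 h1
  have ha' : ∀ s, |s| ≤ 12 → ∀ j ≤ 2, ‖a s j - nA0 ε j (Bs s)‖ ≤ K.tolA j :=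
    fun s hs j hj => (ha s hs j hj).trans (tA_le j hj)
  have he' : ∀ s, |s| ≤ 12 → ∀ j ≤ 2, ‖e s j - nE0 ε j (Bs s)‖ ≤ K.tolE j :=
    fun s hs j hj => (he s hs j hj).trans (tE_le j hj)
  have key := fun (L : List K.SC) (hL : L ≠ []) (p q : ℕ) (h : K.blkF K.cN L p q = true) =>
    K.blkF_spec i0 hi0 hi hca hce ha' he' L hL p q h
  obtain ⟨-, a0, b0⟩ := key K.nb0 (by simp [K.nb0]) _ _ K.nb0_ok
  obtain ⟨-, a1, b1⟩ := key K.nb1 (by simp [K.nb1]) _ _ K.nb1_ok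
  obtain ⟨-, a2, b2⟩ := key K.nb2 (by simp [K.nb2]) _ _ K.nb2_ok
  obtain ⟨-, a3, b3⟩ := key K.nb3 (by simp [K.nb3]) _ _ K.nb3_ok
  obtain ⟨-, a4, b4⟩ := key K.nb4 (by simp [K.nb4]) _ _ K.nb4_ok
  obtain ⟨-, a5, b5⟩ := key K.nb5 (by simp [K.nb5]) _ _ K.nb5_ok
  obtain ⟨-, a6, b6⟩ := key K.nb6 (by simp [K.nb6]) _ _ K.nb6_ok
  obtain ⟨-, a7, b7⟩ := key K.nb7 (by simp [K.nb7]) _ _ K.nb7_ok
  obtain ⟨-, a8, b8⟩ := key K.nb8 (by simp [K.nb8]) _ _ K.nb8_ok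
  obtain ⟨-, a9, b9⟩ := key K.nb9 (by simp [K.nb9]) _ _ K.nb9_ok
  norm_num at a0 a1 a2 a3 a4 a5 a6 a7 a8 a9 b0 b1 b2 b3 b4 b5 b6 b7 b8 b9
  have hne : ∀ s, |s| ≤ 12 → a s 0 ≠ 0 := by
    intro s hs
    have h2 := abs_le.mp hs
    rcases le_total s (-38 / 5) with c0 | c0
    · exact a0 s (by linarith) (by linarith)
    rcases le_total s (-4) with c1 | c1
    · exact a1 s (by linarith) (by linarith)
    rcases le_total s (-29 / 10) with c2 | c2
    · exact a2 s (by linarith) (by linarith)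
    rcases le_total s (-17 / 10) with c3 | c3
    · exact a3 s (by linarith) (by linarith)
    rcases le_total s (-3 / 5) with c4 | c4
    · exact a4 s (by linarith) (by linarith)
    rcases le_total s (1 / 2) with c5 | c5
    · exact a5 s (by linarith) (by linarith)
    rcases le_total s (17 / 10) with c6 | c6
    · exact a6 s (by linarith) (by linarith)
    rcases le_total s (14 / 5) with c7 | c7
    · exact a7 s (by linarith) (by linarith)
    rcases le_total s (38 / 5) with c8 | c8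
    · exact a8 s (by linarith) (by linarith)
    · exact a9 s (by linarith) (by linarith)
  refine ⟨hne, ?_⟩
  have hF : ∀ x y : ℝ, -12 ≤ x → x ≤ y → y ≤ 12 →
      IntervalIntegrable (fun s => ‖K.Fs ε a e s‖) volume x y := by
    intro x y hx hxy hy
    apply ContinuousOn.intervalIntegrable
    intro s hs
    rw [Set.uIcc_of_le hxy] at hs
    exact (K.Fs_cont hca hce s (hne s (abs_le.mpr ⟨hx.trans hs.1, hs.2.trans hy⟩))).norm.continuousWithinAt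
  have hsum := cells_sum i0 hi0
  have hsum' : ((K.smB K.nb0 i0 + K.smB K.nb1 i0 + K.smB K.nb2 i0 + K.smB K.nb3 i0 +
    K.smB K.nb4 i0 + K.smB K.nb5 i0 + K.smB K.nb6 i0 + K.smB K.nb7 i0 + K.smB K.nb8 i0 +
    K.smB K.nb9 i0 : ℕ) : ℝ) ≤ ((57 * 65536 : ℕ) : ℝ) := by exact_mod_cast hsum
  push_cast at hsum'
  have g1 := glue hF _ _ _ _ _ (by norm_num) (by norm_num) (by norm_num) (by norm_num) b0 b1
  have g2 := glue hF _ _ _ _ _ (by norm_num) (by norm_num) (by norm_num) (by norm_num) g1 b2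
  have g3 := glue hF _ _ _ _ _ (by norm_num) (by norm_num) (by norm_num) (by norm_num) g2 b3
  have g4 := glue hF _ _ _ _ _ (by norm_num) (by norm_num) (by norm_num) (by norm_num) g3 b4
  have g5 := glue hF _ _ _ _ _ (by norm_num) (by norm_num) (by norm_num) (by norm_num) g4 b5
  have g6 := glue hF _ _ _ _ _ (by norm_num) (by norm_num) (by norm_num) (by norm_num) g5 b6
  have g7 := glue hF _ _ _ _ _ (by norm_num) (by norm_num) (by norm_num) (by norm_num) g6 b7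
  have g8 := glue hF _ _ _ _ _ (by norm_num) (by norm_num) (by norm_num) (by norm_num) g7 b8
  have g9 := glue hF _ _ _ _ _ (by norm_num) (by norm_num) (by norm_num) (by norm_num) g8 b9
  refine le_trans (le_of_eq ?_) (g9.trans ?_)
  · apply intervalIntegral.integral_congr
    intro s _
    rfl
  · linarith

end MP_d1b55a
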