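import Pool.Agent.Lib.MP_d1b55a_co.NA7
import Pool.Agent.Lib.MP_d1b55a_co.NA8
import Pool.Agent.Lib.MP_d1b55a_co.NB

/-! MP_d1b55a_co, near arc NC: assembly. -/

open MeasureTheory intervalIntegral

namespace MP_d1b55a

theorem nc_eps (ε : ℝ) (h0 : 0 < ε) (h1 : ε ^ 3 ≤ 3 / 1000) : ε ≤ 1443 / 10000 := by
  by_contra h
  push Not at h
  have : (1443 / 10000 : ℝ) ^ 3 < ε ^ 3 := pow_lt_pow_left₀ h (by norm_num) (by norm_num)
  norm_num at this
  linarith

theorem nc_E (ε : ℝ) (h0 : 0 < ε) (h1 : ε ^ 3 ≤ 3 / 1000) (j : ℕ) (hj : j ≤ 2) (s : ℝ)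
    (hs : |s| ≤ 12) : ‖Esum ε j (Bs s) - nE0 ε j (Bs s)‖ ≤ tE j := by
  have hE := na_E ε h0 h1 j hj s
  have a1 := na_A ε h0 h1 (j + 1) (by omega) s hs
  have a2 := na_A ε h0 h1 (j + 2) (by omega) s hs
  have a4 := na_A ε h0 h1 (j + 4) (by omega) s hs
  have he := nc_eps ε h0 h1
  set A1 := Asum ε (j + 1) (Bs s) with hA1
  set A2 := Asum ε (j + 2) (Bs s) with hA2
  set A4 := Asum ε (j + 4) (Bs s) with hA4
  set N1 := nA0 ε (j + 1) (Bs s) with hN1
  set N2 := nA0 ε (j + 2) (Bs s) with hN2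
  set N4 := nA0 ε (j + 4) (Bs s) with hN4
  have hsum : Esum ε j (Bs s) - nE0 ε j (Bs s) =
      (Esum ε j (Bs s) - ((if j = 0 then 1 else 0) - Complex.I / 2 * A1 + (ε : ℂ) / 12 * A2 +
        (ε : ℂ) ^ 3 / 720 * A4)) + (-(Complex.I / 2) * (A1 - N1) + (ε : ℂ) / 12 * (A2 - N2) +
        (ε : ℂ) ^ 3 / 720 * (A4 - N4)) := by
    unfold nE0
    rw [← hN1, ← hN2, ← hN4]
    ring
  rw [hsum]
  have n1 : ‖-(Complex.I / 2) * (A1 - N1)‖ ≤ 1 / 2 * tA (j + 1) := by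
    rw [norm_mul, norm_neg, norm_div, Complex.norm_I]
    have : ‖(2 : ℂ)‖ = 2 := by simp
    rw [this]
    exact mul_le_mul_of_nonneg_left a1 (by norm_num)
  have n2 : ‖(ε : ℂ) / 12 * (A2 - N2)‖ ≤ 1443 / 120000 * tA (j + 2) := by
    rw [norm_mul, norm_div, Complex.norm_real, Real.norm_of_nonneg h0.le]
    have : ‖(12 : ℂ)‖ = 12 := by simp
    rw [this]
    exact mul_le_mul (by linarith) a2 (norm_nonneg _) (by norm_num)
  have n4 : ‖(ε : ℂ) ^ 3 / 720 * (A4 - N4)‖ ≤ 3 / 720000 * tA (j + 4) := by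
    rw [norm_mul, norm_div, norm_pow, Complex.norm_real, Real.norm_of_nonneg h0.le]
    have : ‖(720 : ℂ)‖ = 720 := by simp
    rw [this]
    exact mul_le_mul (by linarith) a4 (norm_nonneg _) (by norm_num)
  have hb : dEt j + (1 / 2 * tA (j + 1) + 1443 / 120000 * tA (j + 2) + 3 / 720000 * tA (j + 4)) ≤
      tE j := by
    unfold dEt tA tE
    interval_cases j <;> norm_num
  refine (norm_add_le _ _).trans ((add_le_add hE ((norm_add_le _ _).trans
    (add_le_add ((norm_add_le _ _).trans (add_le_add n1 n2)) n4))).trans ?_)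
  linarith

theorem nc_cont_Bs : Continuous Bs := by
  have : Bs = fun s : ℝ => ((5 / 4 : ℝ) : ℂ) + (s : ℂ) * Complex.I := by
    funext s
    apply Complex.ext <;> simp [Bs]
  rw [this]
  fun_prop

theorem nc_contA (ε : ℝ) (h0 : 0 < ε) (j : ℕ) : Continuous fun s => Asum ε j (Bs s) := by
  have : Continuous (Asum ε j) :=
    continuous_iff_continuousAt.2 fun B => (Asum_hasDerivAt ε h0 j B).continuousAt
  exact this.comp nc_cont_Bs

theorem nc_contE (ε : ℝ) (h0 : 0 < ε) (j : ℕ) : Continuous fun s => Esum ε j (Bs s) := by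
  have : Continuous (Esum ε j) :=
    continuous_iff_continuousAt.2 fun B => (Esum_hasDerivAt ε h0 j B).continuousAt
  exact this.comp nc_cont_Bs

theorem nc_main (ε : ℝ) (h0 : 0 < ε) (h1 : ε ^ 3 ≤ 3 / 1000) :
    (∀ s, |s| ≤ 12 → Asum ε 0 (Bs s) ≠ 0) ∧
    ∫ s in (-12 : ℝ)..12, ‖Complex.I * H2 ε (Bs s) - 2 / (Bs s - Bz ε) ^ 3‖ ≤ 57 :=
  na_cells ε h0 h1 (fun s j => Asum ε j (Bs s)) (fun s j => Esum ε j (Bs s))
    (fun s hs j hj => na_A ε h0 h1 j (by omega) s hs)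
    (fun s hs j hj => nc_E ε h0 h1 j hj s hs) (nc_contA ε h0) (nc_contE ε h0)

theorem near_ne_zero (ε : ℝ) (h0 : 0 < ε) (h1 : ε ^ 3 ≤ 3 / 1000) (s : ℝ) (hs : |s| ≤ 12) :
    Asum ε 0 (Bs s) ≠ 0 := (nc_main ε h0 h1).1 s hs

theorem nc_re (ε s : ℝ) : (Bs s - Bz ε).re = 3221 / 10000 := by
  simp [Bs, Bz]; norm_num

theorem nc_sub_ne (ε s : ℝ) : Bs s - Bz ε ≠ 0 := by
  intro h
  have := nc_re ε s
  rw [h] at this
  norm_num at this

theorem nc_exp_ne (ε : ℝ) (h0 : 0 < ε) (s : ℝ) :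
    1 - Complex.exp (-((ε ^ 2 : ℝ) : ℂ) * (Bs s - Bz ε)) ≠ 0 := by
  intro h
  have h2 : Complex.exp (-((ε ^ 2 : ℝ) : ℂ) * (Bs s - Bz ε)) = 1 := by
    linear_combination -h
  have h3 := congrArg norm h2
  rw [Complex.norm_exp, norm_one] at h3
  have h4 : (-((ε ^ 2 : ℝ) : ℂ) * (Bs s - Bz ε)).re = -(ε ^ 2 * (3221 / 10000)) := by
    have : -((ε ^ 2 : ℝ) : ℂ) = ((-(ε ^ 2) : ℝ) : ℂ) := by push_cast; ring
    rw [this, Complex.re_ofReal_mul, nc_re]
    ring
  rw [h4, Real.exp_eq_one_iff] at h3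
  nlinarith [pow_pos h0 2]

theorem near_integral (ε : ℝ) (h0 : 0 < ε) (h1 : ε ^ 3 ≤ 3 / 1000) :
    ∫ s in (-12 : ℝ)..12, ‖Complex.I * H2 ε (Bs s) - gpole ε (Bs s)‖ ≤ 58 := by
  have hne := (nc_main ε h0 h1).1
  have hint := (nc_main ε h0 h1).2
  have hBs := nc_cont_Bs
  have cH : ContinuousOn (fun s => H2 ε (Bs s)) (Set.uIcc (-12) 12) := by
    have hs : ∀ s ∈ Set.uIcc (-12 : ℝ) 12, Asum ε 0 (Bs s) ≠ 0 := by
      intro s hs
      rw [Set.uIcc_of_le (by norm_num)] at hs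
      exact hne s (abs_le.2 hs)
    unfold H2
    have cA := fun j => (nc_contA ε h0 j).continuousOn (s := Set.uIcc (-12 : ℝ) 12)
    have cE := fun j => (nc_contE ε h0 j).continuousOn (s := Set.uIcc (-12 : ℝ) 12)
    refine ContinuousOn.add (ContinuousOn.sub (ContinuousOn.sub ?_ ?_) ?_) ?_
    · exact (cE 2).div (cA 0) hs
    · exact ((continuousOn_const.mul (cE 1)).mul (cA 1)).div ((cA 0).pow 2)
        fun s h => pow_ne_zero 2 (hs s h)
    · exact ((cE 0).mul (cA 2)).div ((cA 0).pow 2) fun s h => pow_ne_zero 2 (hs s h)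
    · exact ((continuousOn_const.mul (cE 0)).mul ((cA 1).pow 2)).div ((cA 0).pow 3)
        fun s h => pow_ne_zero 3 (hs s h)
  have cG : Continuous fun s => gpole ε (Bs s) := by
    unfold gpole
    have h2 : Continuous fun s => Complex.exp (-((ε ^ 2 : ℝ) : ℂ) * (Bs s - Bz ε)) :=
      Complex.continuous_exp.comp (continuous_const.mul (hBs.sub continuous_const))
    exact ((continuous_const.mul h2).mul (continuous_const.add h2)).div
      ((continuous_const.sub h2).pow 3) fun s => pow_ne_zero 3 (nc_exp_ne ε h0 s)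
  have cP : Continuous fun s => 2 / (Bs s - Bz ε) ^ 3 :=
    continuous_const.div ((hBs.sub continuous_const).pow 3) fun s =>
      pow_ne_zero 3 (nc_sub_ne ε s)
  have i1 : IntervalIntegrable (fun s => ‖Complex.I * H2 ε (Bs s) - gpole ε (Bs s)‖) volume
      (-12) 12 := ((continuousOn_const.mul cH).sub cG.continuousOn).norm.intervalIntegrable
  have i2 : IntervalIntegrable (fun s => ‖Complex.I * H2 ε (Bs s) - 2 / (Bs s - Bz ε) ^ 3‖ + 1 / 1000)
      volume (-12) 12 :=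
    (((continuousOn_const.mul cH).sub cP.continuousOn).norm.add continuousOn_const).intervalIntegrable
  have i3 : IntervalIntegrable (fun s => ‖Complex.I * H2 ε (Bs s) - 2 / (Bs s - Bz ε) ^ 3‖)
      volume (-12) 12 :=
    ((continuousOn_const.mul cH).sub cP.continuousOn).norm.intervalIntegrable
  have hle : ∫ s in (-12 : ℝ)..12, ‖Complex.I * H2 ε (Bs s) - gpole ε (Bs s)‖ ≤
      ∫ s in (-12 : ℝ)..12, (‖Complex.I * H2 ε (Bs s) - 2 / (Bs s - Bz ε) ^ 3‖ + 1 / 1000) := by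
    apply integral_mono_on (by norm_num) i1 i2
    intro s hs
    have hg := na_gpole ε h0 h1 s (abs_le.2 hs)
    have e : Complex.I * H2 ε (Bs s) - gpole ε (Bs s) =
        (Complex.I * H2 ε (Bs s) - 2 / (Bs s - Bz ε) ^ 3) -
        (gpole ε (Bs s) - 2 / (Bs s - Bz ε) ^ 3) := by ring
    rw [e]
    exact (norm_sub_le _ _).trans (add_le_add le_rfl hg)
  rw [integral_add i3 (continuous_const.intervalIntegrable _ _), intervalIntegral.integral_const] at hle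
  have : (12 - (-12 : ℝ)) • (1 / 1000 : ℝ) = 24 / 1000 := by rw [smul_eq_mul]; norm_num
  rw [this] at hle
  linarith

end MP_d1b55a
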