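import Pool.Agent.Lib.MP_d1b55a_co.CI1
import Pool.Agent.Lib.MP_d1b55a_co.CI2
import Pool.Agent.Lib.MP_d1b55a_co.CI3
import Pool.Agent.Lib.MP_d1b55a_co.CI5
import Pool.Agent.Lib.MP_d1b55a_co.FA9
import Pool.Agent.Lib.MP_d1b55a_co.NC
import Pool.Agent.Lib.MP_d1b55a_co.PR3
import Pool.Agent.Lib.MP_d1b55a_co.KRoot

/-!
CI6. Assembly of the small `θ` side: `Good (ε³)` for `0 < ε`, `ε³ ≤ 3/1000`.
-/

open Finset MeasureTheory intervalIntegral

namespace MP_d1b55a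

theorem CI6_ne (ε : ℝ) (h0 : 0 < ε) (h1 : ε ^ 3 ≤ 3 / 1000) (s : ℝ)
    (hs : |s| ≤ Real.pi / ε ^ 2) : Asum ε 0 (Bs s) ≠ 0 := by
  rcases le_total |s| 12 with h | h
  · exact near_ne_zero ε h0 h1 s h
  · exact far_ne_zero ε h0 h1 s h hs

theorem CI6_gp_cont (ε : ℝ) (h0 : 0 < ε) : Continuous fun s : ℝ => gpole ε (Bs s) := by
  have cB : Continuous Bs := FA9_Bs_cont
  have c1 : Continuous fun s => Complex.exp (-((ε ^ 2 : ℝ) : ℂ) * (Bs s - Bz ε)) := by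
    fun_prop
  unfold gpole
  refine Continuous.div ?_ ?_ ?_
  · exact (continuous_const.mul c1).mul (continuous_const.add c1)
  · exact (continuous_const.sub c1).pow 3
  · intro s
    apply pow_ne_zero 3
    intro h
    have h2 : Complex.exp (-((ε ^ 2 : ℝ) : ℂ) * (Bs s - Bz ε)) = 1 := (sub_eq_zero.1 h).symm
    have h3 := congrArg norm h2
    rw [Complex.norm_exp, norm_one, Real.exp_eq_one_iff] at h3
    have h4 : (-((ε ^ 2 : ℝ) : ℂ) * (Bs s - Bz ε)).re = -(ε ^ 2 * (5 / 4 - 0.9279)) := by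
      simp [Bs, Bz, -Complex.ofReal_pow]
    rw [h4] at h3
    have h5 : 0 < ε ^ 2 * (5 / 4 - 0.9279) := by
      apply mul_pos (pow_pos h0 2); norm_num
    linarith

theorem CI6_cont (ε : ℝ) (h0 : 0 < ε) (h1 : ε ^ 3 ≤ 3 / 1000) :
    ContinuousOn (fun s : ℝ => H2 ε (Bs s)) (Set.Icc (-(Real.pi / ε ^ 2)) (Real.pi / ε ^ 2)) := by
  intro s hs
  apply ContinuousAt.continuousWithinAt
  have hne := CI6_ne ε h0 h1 s (abs_le.2 ⟨hs.1, hs.2⟩)
  exact ContinuousAt.comp (g := H2 ε) (f := Bs) (FA9_H2_cont ε h0 (Bs s) hne)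
    FA9_Bs_cont.continuousAt

theorem CI6_int (ε : ℝ) (h0 : 0 < ε) (h1 : ε ^ 3 ≤ 3 / 1000) :
    (∫ s in (-(Real.pi / ε ^ 2))..(Real.pi / ε ^ 2),
      ‖Complex.I * H2 ε (Bs s) - gpole ε (Bs s)‖) < 70 := by
  obtain ⟨e1, e2⟩ := FA9_eps ε h0 h1
  have hh : 0 < ε ^ 2 := by positivity
  have hpi := Real.pi_gt_three
  have k1 : (12 : ℝ) ≤ Real.pi / ε ^ 2 := by
    rw [le_div_iff₀ hh]; linarith
  set L := Real.pi / ε ^ 2 with hL
  have cH := CI6_cont ε h0 h1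
  have cg := CI6_gp_cont ε h0
  have cf : ContinuousOn (fun s : ℝ => ‖Complex.I * H2 ε (Bs s) - gpole ε (Bs s)‖)
      (Set.Icc (-L) L) :=
    ((continuousOn_const.mul cH).sub cg.continuousOn).norm
  have int : ∀ a b : ℝ, -L ≤ a → a ≤ b → b ≤ L →
      IntervalIntegrable (fun s : ℝ => ‖Complex.I * H2 ε (Bs s) - gpole ε (Bs s)‖) volume a b := by
    intro a b ha hab hb
    apply ContinuousOn.intervalIntegrable
    rw [Set.uIcc_of_le hab]
    exact cf.mono (Set.Icc_subset_Icc ha hb)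
  have cH1 : ∀ a b : ℝ, -L ≤ a → a ≤ b → b ≤ L →
      IntervalIntegrable (fun s : ℝ => ‖H2 ε (Bs s)‖) volume a b := by
    intro a b ha hab hb
    apply ContinuousOn.intervalIntegrable
    rw [Set.uIcc_of_le hab]
    exact (cH.mono (Set.Icc_subset_Icc ha hb)).norm
  have cg1 : ∀ a b : ℝ, IntervalIntegrable (fun s : ℝ => ‖gpole ε (Bs s)‖) volume a b :=
    fun a b => cg.norm.intervalIntegrable a b
  have split : (∫ s in (-L)..L, ‖Complex.I * H2 ε (Bs s) - gpole ε (Bs s)‖) =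
      (∫ s in (-L)..(-12), ‖Complex.I * H2 ε (Bs s) - gpole ε (Bs s)‖) +
      (∫ s in (-12 : ℝ)..12, ‖Complex.I * H2 ε (Bs s) - gpole ε (Bs s)‖) +
      (∫ s in (12 : ℝ)..L, ‖Complex.I * H2 ε (Bs s) - gpole ε (Bs s)‖) := by
    rw [integral_add_adjacent_intervals (int (-L) (-12) le_rfl (by linarith) (by linarith))
      (int (-12) 12 (by linarith) (by norm_num) k1),
      integral_add_adjacent_intervals (int (-L) 12 le_rfl (by linarith) k1)
        (int 12 L (by linarith) k1 le_rfl)]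
  obtain ⟨f1, f2⟩ := far_integral ε h0 h1
  obtain ⟨g1, g2⟩ := far_gpole ε h0 h1
  have hpt : ∀ s : ℝ, ‖Complex.I * H2 ε (Bs s) - gpole ε (Bs s)‖ ≤
      ‖H2 ε (Bs s)‖ + ‖gpole ε (Bs s)‖ := by
    intro s
    refine (norm_sub_le _ _).trans ?_
    rw [norm_mul, Complex.norm_I, one_mul]
  have r1 : (∫ s in (12 : ℝ)..L, ‖Complex.I * H2 ε (Bs s) - gpole ε (Bs s)‖) ≤ 5.8 + 0.1 := by
    have h2 := integral_mono_on k1 (int 12 L (by linarith) k1 le_rfl)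
      ((cH1 12 L (by linarith) k1 le_rfl).add (cg1 12 L)) (fun s _ => hpt s)
    refine h2.trans ?_
    have h3 := integral_add (cH1 12 L (by linarith) k1 le_rfl) (cg1 12 L)
    refine (le_of_eq h3).trans ?_
    linarith
  have r2 : (∫ s in (-L)..(-12), ‖Complex.I * H2 ε (Bs s) - gpole ε (Bs s)‖) ≤ 5.8 + 0.1 := by
    have h2 := integral_mono_on (show -L ≤ -12 by linarith)
      (int (-L) (-12) le_rfl (by linarith) (by linarith))
      ((cH1 (-L) (-12) le_rfl (by linarith) (by linarith)).add (cg1 (-L) (-12)))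
      (fun s _ => hpt s)
    refine h2.trans ?_
    have h3 := integral_add (cH1 (-L) (-12) le_rfl (by linarith) (by linarith)) (cg1 (-L) (-12))
    refine (le_of_eq h3).trans ?_
    have t1 : (∫ s in (-L)..(-12), ‖H2 ε (Bs s)‖) = ∫ s in (12 : ℝ)..L, ‖H2 ε (Bs (-s))‖ := by
      rw [integral_comp_neg (fun s => ‖H2 ε (Bs s)‖)]
    have t2 : (∫ s in (-L)..(-12), ‖gpole ε (Bs s)‖) = ∫ s in (12 : ℝ)..L, ‖gpole ε (Bs (-s))‖ := by
      rw [integral_comp_neg (fun s => ‖gpole ε (Bs s)‖)]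
    rw [t1, t2]
    linarith
  have hn := near_integral ε h0 h1
  rw [split]
  norm_num at r1 r2
  linarith

theorem CI6_Rc (x : ℝ) (h0 : 0 < x) (h3 : x ^ 3 = 0.003) : 125.8 ≤ Rc x ∧ Rc x ≤ 125.9 := by
  have e1 := Real.exp_one_gt_d9
  have e2 := Real.exp_one_lt_d9
  have h6 : (x ^ 2) ^ 3 = 9e-6 := by
    have : (x ^ 2) ^ 3 = (x ^ 3) ^ 2 := by ring
    rw [this, h3]; norm_num
  have hx2 : 0 < x ^ 2 := pow_pos h0 2
  have hu : x ^ 2 ≤ 0.020801 := by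
    by_contra hc
    push Not at hc
    have h2 : (0.020801 : ℝ) ^ 3 < (x ^ 2) ^ 3 := pow_lt_pow_left₀ hc (by norm_num) (by norm_num)
    rw [h6] at h2
    norm_num at h2
  have hl : 0.0208 ≤ x ^ 2 := by
    by_contra hc
    push Not at hc
    have h2 : (x ^ 2) ^ 3 < (0.0208 : ℝ) ^ 3 := pow_lt_pow_left₀ hc hx2.le (by norm_num)
    rw [h6] at h2
    norm_num at h2
  have hd : 0 < Real.exp 1 * x ^ 3 := by positivity
  unfold Rc
  constructor
  · rw [le_div_iff₀ hd, h3]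
    have h4 : 0.026 + 0.026 ^ 2 / 2 + 1 ≤ Real.exp (5 / 4 * x ^ 2) := by
      have h5 : Real.exp 0.026 ≤ Real.exp (5 / 4 * x ^ 2) := Real.exp_le_exp.2 (by linarith)
      have h7 := Real.quadratic_le_exp_of_nonneg (x := 0.026) (by norm_num)
      linarith
    norm_num at h4 e2 ⊢
    linarith
  · rw [div_le_iff₀ hd, h3]
    have h4 : Real.exp (5 / 4 * x ^ 2) ≤ 1.02636 := by
      have h5 : Real.exp (5 / 4 * x ^ 2) ≤ Real.exp 0.02601 := Real.exp_le_exp.2 (by linarith)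
      refine h5.trans ?_
      exact FA8_exp _ _ (by norm_num) (by norm_num) (by norm_num)
    norm_num at h4 e1 ⊢
    linarith

/-- the cube root of `3/1000` -/
theorem CI6_eps2 : ∃ ε2 : ℝ, 0 < ε2 ∧ ε2 ^ 3 = 0.003 ∧ 125.8 ≤ Rc ε2 ∧ Rc ε2 ≤ 125.9 := by
  have h3 : ((0.003 : ℝ) ^ ((1 : ℝ) / 3)) ^ 3 = 0.003 := by
    rw [← Real.rpow_natCast, ← Real.rpow_mul (by norm_num)]
    norm_num
  have h0 : (0 : ℝ) < (0.003 : ℝ) ^ ((1 : ℝ) / 3) := by positivity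
  exact ⟨_, h0, h3, (CI6_Rc _ h0 h3).1, (CI6_Rc _ h0 h3).2⟩

theorem good_small_circle (ε : ℝ) (h0 : 0 < ε) (h1 : ε ^ 3 ≤ 3 / 1000) : Good (ε ^ 3) := by
  obtain ⟨ε2, h20, h23, hRa, hRb⟩ := CI6_eps2
  have hle : ε ≤ ε2 := by
    by_contra hc
    push Not at hc
    have := pow_lt_pow_left₀ hc h20.le (show (3 : ℕ) ≠ 0 by norm_num)
    rw [h23] at this
    norm_num at this h1
    linarith
  have hne : ∀ ε' : ℝ, ε ≤ ε' → ε' ≤ ε2 → ∀ x : ℂ, ‖x‖ = Rc ε' → FD 0 (yy (ε' ^ 3)) x ≠ 0 := by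
    intro ε' ha hb x hx
    have h0' : 0 < ε' := lt_of_lt_of_le h0 ha
    have h1' : ε' ^ 3 ≤ 3 / 1000 := by
      have := pow_le_pow_left₀ h0'.le hb 3
      rw [h23] at this
      norm_num at this ⊢
      exact this
    obtain ⟨s, hs, rfl⟩ := exists_xB ε' h0' x hx
    exact FD_ne_zero ε' h0' (h1'.trans (by linarith [Real.pi_gt_three])) _ (CI6_ne ε' h0' h1' s hs)
  obtain ⟨M2, hM2⟩ := root_count
  obtain ⟨M1, hM1⟩ := CI3 ε ε2 h0 hle hne M2 (by
    intro M hM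
    rw [h23]
    exact hM2 M hM _ (by norm_num at hRa ⊢; linarith) (by norm_num at hRb ⊢; linarith))
  obtain ⟨M0, hM0⟩ := CI2 ε h0 h1 (fun s hs => CI6_ne ε h0 h1 s hs) 70 (CI6_int ε h0 h1)
  apply good_of_circle ε h0 h1
  intro N
  set M := max (max M0 M1) N with hM
  obtain ⟨hP, hI⟩ := hM0 M ((le_max_left _ _).trans (le_max_left _ _))
  have hR : 0 < Rc ε := by unfold Rc; positivity
  have hP0 : (FM (yy (ε ^ 3)) M).coeff 0 ≠ 0 := by
    rw [FM_coeff_zero]; exact one_ne_zero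
  obtain ⟨z, hz, hzm⟩ := CI1 (FM (yy (ε ^ 3)) M) hP0 (Rc ε) hR hP
    (hM1 M ((le_max_right _ _).trans (le_max_left _ _))) (xB ε (Bz ε)) (rho_lt ε h0)
  refine ⟨z, hz, fun j hj hjN => ?_⟩
  have h3 := hzm j hj
  have h4 : psz (FM (yy (ε ^ 3)) M) j = pv j (yy (ε ^ 3)) :=
    N1 _ M j hj (hjN.trans (le_max_right _ _))
  rw [h4] at h3
  refine h3.trans ?_
  refine mul_le_mul_of_nonneg_left ?_ (by positivity)
  have h5 := mul_le_mul_of_nonneg_left hI (by positivity : (0 : ℝ) ≤ 1 / (2 * Real.pi))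
  refine h5.trans (le_of_eq ?_)
  field_simp

theorem good_small_theta (θ : ℝ) (h0 : 0 < θ) (h1 : θ ≤ 3 / 1000) : Good θ := by
  have h2 : (θ ^ ((1 : ℝ) / 3)) ^ 3 = θ := by
    rw [← Real.rpow_natCast, ← Real.rpow_mul h0.le]
    norm_num
  have := good_small_circle (θ ^ ((1 : ℝ) / 3)) (by positivity) (by rw [h2]; exact h1)
  rw [h2] at this
  exact this

end MP_d1b55a
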