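import Mathlib

/-!
MP_d1b55a_co: the chord lemma. From upper bounds of `N(b) = ∑_k (b - g_k)⁺` at finitely many
nodes and the trivial bound `N(b) ≤ exp b` beyond the last one, together with a lower bound of
`∑_k exp (- n g_k)`, the smallest `g_k` is isolated and the rest of the sum is small.
-/

open Finset Real

namespace MP_d1b55a

section Chord

variable {ι : Type*} [Fintype ι]

/-- `ψ(g) = exp (- n g)` -/
noncomputable def psi (n : ℕ) (g : ℝ) : ℝ := Real.exp (-(n : ℝ) * g)

theorem psi_pos (n : ℕ) (g : ℝ) : 0 < psi n g := Real.exp_pos _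

theorem psi_anti (n : ℕ) {a b : ℝ} (h : a ≤ b) : psi n b ≤ psi n a := by
  unfold psi
  apply Real.exp_le_exp.mpr
  have : (0 : ℝ) ≤ n := Nat.cast_nonneg n
  nlinarith

theorem psi_add (n : ℕ) (a b : ℝ) : psi n (a + b) = psi n a * psi n b := by
  unfold psi; rw [← Real.exp_add]; congr 1; ring

/-- tangent line inequality -/
theorem psi_tangent (n : ℕ) (a b : ℝ) : psi n a - (n : ℝ) * psi n a * (b - a) ≤ psi n b := by
  have h1 : psi n b = psi n a * Real.exp (-(n : ℝ) * (b - a)) := by
    unfold psi; rw [← Real.exp_add]; congr 1; ring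
  rw [h1]
  have h2 := Real.add_one_le_exp (-(n : ℝ) * (b - a))
  have h3 := psi_pos n a
  nlinarith

/-- slope of the chord -/
noncomputable def slp (n : ℕ) (b c : ℝ) : ℝ := (psi n b - psi n c) / (c - b)

theorem slp_nonneg (n : ℕ) {b c : ℝ} (h : b < c) : 0 ≤ slp n b c := by
  unfold slp
  apply div_nonneg
  · have := psi_anti n h.le; linarith
  · linarith

theorem slp_mul (n : ℕ) {b c : ℝ} (h : b < c) : slp n b c * (c - b) = psi n b - psi n c := by
  unfold slp
  rw [div_mul_cancel₀]
  have : 0 < c - b := by linarith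
  exact this.ne'

/-- `n ψ(c) ≤ slope ≤ n ψ(b)` -/
theorem slp_ge (n : ℕ) {b c : ℝ} (h : b < c) : (n : ℝ) * psi n c ≤ slp n b c := by
  unfold slp
  rw [le_div_iff₀ (by linarith)]
  have := psi_tangent n c b
  nlinarith

theorem slp_le (n : ℕ) {b c : ℝ} (h : b < c) : slp n b c ≤ (n : ℝ) * psi n b := by
  unfold slp
  rw [div_le_iff₀ (by linarith)]
  have := psi_tangent n b c
  nlinarith

/-- the chord lies above the graph -/
theorem psi_le_chord (n : ℕ) {b c g : ℝ} (h : b < c) (h1 : b ≤ g) (h2 : g ≤ c) :
    psi n g ≤ psi n c + slp n b c * (c - g) := by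
  have hs := slp_mul n h
  rcases eq_or_lt_of_le h1 with rfl | h1'
  · rw [hs]; linarith
  rcases eq_or_lt_of_le h2 with rfl | h2'
  · simp
  have a1 := slp_le n (show g < c by linarith)
  have a2 := slp_ge n (show b < g by linarith)
  have a3 := slp_mul n (show g < c by linarith)
  have a4 := slp_mul n (show b < g by linarith)
  have a5 : slp n g c ≤ slp n b g := a1.trans a2
  have a6 : slp n b c * (c - b) = slp n b g * (g - b) + slp n g c * (c - g) := by
    rw [hs, a3, a4]; ring
  have a7 : slp n g c ≤ slp n b c := by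
    by_contra hcon
    push Not at hcon
    have : slp n b c * (c - b) < slp n b g * (g - b) + slp n g c * (c - g) := by
      have e1 : slp n b c * (g - b) < slp n b g * (g - b) := by
        apply mul_lt_mul_of_pos_right _ (by linarith)
        linarith
      have e2 : slp n b c * (c - g) < slp n g c * (c - g) := by
        apply mul_lt_mul_of_pos_right hcon (by linarith)
      nlinarith
    linarith
  have a8 : slp n g c * (c - g) ≤ slp n b c * (c - g) := by
    apply mul_le_mul_of_nonneg_right a7 (by linarith)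
  linarith

/-- `N(b) = ∑ (b - g_k)⁺` -/
noncomputable def NC (g : ι → ℝ) (b : ℝ) : ℝ := ∑ k, max (b - g k) 0

/-- `S(b) = ∑ ψ(max g_k b)` -/
noncomputable def SS (n : ℕ) (g : ι → ℝ) (b : ℝ) : ℝ := ∑ k, psi n (max (g k) b)

theorem NC_nonneg (g : ι → ℝ) (b : ℝ) : 0 ≤ NC g b :=
  Finset.sum_nonneg fun _ _ => le_max_right _ _

theorem key_step (n : ℕ) (g : ι → ℝ) {b c : ℝ} (h : b < c) :
    SS n g b ≤ SS n g c + slp n b c * (NC g c - NC g b) := by
  unfold SS NC
  rw [← Finset.sum_sub_distrib, Finset.mul_sum, ← Finset.sum_add_distrib]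
  apply Finset.sum_le_sum
  intro k _
  rcases le_total (g k) b with h1 | h1
  · rw [max_eq_right h1, max_eq_right (h1.trans h.le), max_eq_left (by linarith),
      max_eq_left (by linarith)]
    have := slp_mul n h
    nlinarith
  · rcases le_total (g k) c with h2 | h2
    · rw [max_eq_left h1, max_eq_right h2, max_eq_left (by linarith), max_eq_right (by linarith)]
      have := psi_le_chord n h h1 h2
      linarith
    · rw [max_eq_left h1, max_eq_left h2, max_eq_right (by linarith), max_eq_right (by linarith)]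
      simp

/-- iteration over nodes -/
theorem chord_iter (n : ℕ) (g : ι → ℝ) (G : ℕ → ℝ) (J : ℕ) (hG : ∀ i < J, G i < G (i + 1)) :
    SS n g (G 0) ≤ SS n g (G J) + ∑ i ∈ Finset.range J,
      slp n (G i) (G (i + 1)) * (NC g (G (i + 1)) - NC g (G i)) := by
  induction J with
  | zero => simp
  | succ J ih =>
    rw [Finset.sum_range_succ]
    have h1 := ih (fun i hi => hG i (by omega))
    have h2 := key_step n g (hG J (by omega))
    linarith

/-- Abel summation of the previous bound: `t i` is the slope on `[G i, G (i+1)]`, `t J` is free. -/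
theorem abel_sum (N t : ℕ → ℝ) (J : ℕ) :
    ∑ i ∈ Finset.range J, t i * (N (i + 1) - N i) =
      - t 0 * N 0 + ∑ i ∈ Finset.range J, (t i - t (i + 1)) * N (i + 1) + t J * N J := by
  induction J with
  | zero => simp
  | succ J ih =>
    rw [Finset.sum_range_succ, Finset.sum_range_succ, ih]
    ring

/-- constant of the tail -/
noncomputable def KT (n : ℕ) (G D : ℝ) : ℝ :=
  psi n G * Real.exp G * (1 - Real.exp (-(n : ℝ) * D)) ^ 2 * Real.exp D /
    (D * (1 - Real.exp (-((n : ℝ) - 1) * D)))

/-- slope at the beginning of the tail -/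
noncomputable def s0T (n : ℕ) (G D : ℝ) : ℝ := psi n G * (1 - Real.exp (-(n : ℝ) * D)) / D

theorem SS_tendsto (n : ℕ) (hn : 1 ≤ n) (g : ι → ℝ) (G D : ℝ) (hD : 0 < D) :
    Filter.Tendsto (fun i : ℕ => SS n g (G + i * D)) Filter.atTop (nhds 0) := by
  have h0 : ∀ i : ℕ, 0 ≤ SS n g (G + i * D) := fun i =>
    Finset.sum_nonneg fun k _ => (psi_pos n _).le
  have h1 : ∀ i : ℕ, SS n g (G + i * D) ≤ (Fintype.card ι : ℝ) * psi n (G + i * D) := by
    intro i
    unfold SS
    calc _ ≤ ∑ _k : ι, psi n (G + i * D) :=
          Finset.sum_le_sum fun k _ => psi_anti n (le_max_right _ _)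
      _ = _ := by simp
  have hn' : (0 : ℝ) < n := by exact_mod_cast (by omega : 0 < n)
  have h2 : Filter.Tendsto (fun i : ℕ => psi n (G + i * D)) Filter.atTop (nhds 0) := by
    unfold psi
    apply Real.tendsto_exp_atBot.comp
    have h3 : Filter.Tendsto (fun i : ℕ => G + (i : ℝ) * D) Filter.atTop Filter.atTop :=
      Filter.tendsto_atTop_add_const_left _ _
        (tendsto_natCast_atTop_atTop.atTop_mul_const hD)
    exact (Filter.Tendsto.const_mul_atTop_of_neg (by linarith) h3)
  have h3 : Filter.Tendsto (fun i : ℕ => (Fintype.card ι : ℝ) * psi n (G + i * D))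
      Filter.atTop (nhds 0) := by
    simpa using h2.const_mul (Fintype.card ι : ℝ)
  exact squeeze_zero h0 h1 h3

theorem tail_bound (n : ℕ) (hn : 2 ≤ n) (g : ι → ℝ) (G D : ℝ) (hD : 0 < D)
    (htriv : ∀ b, G ≤ b → NC g b ≤ Real.exp b) :
    SS n g G + s0T n G D * NC g G ≤ KT n G D := by
  have hn' : (2 : ℝ) ≤ n := by exact_mod_cast hn
  set a : ℝ := Real.exp (-(n : ℝ) * D) with ha
  have ha1 : a < 1 := by
    rw [ha, Real.exp_lt_one_iff]; nlinarith
  have ha0 : 0 < a := Real.exp_pos _
  set r : ℝ := Real.exp (-((n : ℝ) - 1) * D) with hr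
  have hr1 : r < 1 := by
    rw [hr, Real.exp_lt_one_iff]; nlinarith
  have hr0 : 0 < r := Real.exp_pos _
  have har : a * Real.exp D = r := by
    rw [ha, hr, ← Real.exp_add]; congr 1; ring
  -- slopes
  have hpsi : ∀ i : ℕ, psi n (G + i * D) = psi n G * a ^ i := by
    intro i
    rw [psi_add]
    congr 1
    unfold psi
    rw [ha, ← Real.exp_nat_mul]
    congr 1; ring
  have hslp : ∀ i : ℕ, slp n (G + i * D) (G + (i + 1 : ℕ) * D) = s0T n G D * a ^ i := by
    intro i
    unfold slp s0T
    rw [hpsi, hpsi, pow_succ]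
    have : G + ((i + 1 : ℕ) : ℝ) * D - (G + i * D) = D := by push_cast; ring
    rw [this, ← ha]
    ring
  have hmain : ∀ J : ℕ, SS n g G + s0T n G D * NC g G ≤ SS n g (G + J * D) + KT n G D +
      s0T n G D * a ^ J * Real.exp (G + J * D) := by
    intro J
    have h1 := chord_iter n g (fun i : ℕ => G + i * D) J (by
      intro i _
      push_cast
      nlinarith)
    have h2 := abel_sum (fun i : ℕ => NC g (G + i * D)) (fun i : ℕ => s0T n G D * a ^ i) J
    have h3 : ∑ i ∈ Finset.range J, slp n (G + i * D) (G + (i + 1 : ℕ) * D) *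
        (NC g (G + (i + 1 : ℕ) * D) - NC g (G + i * D)) =
        ∑ i ∈ Finset.range J, s0T n G D * a ^ i *
          (NC g (G + (i + 1 : ℕ) * D) - NC g (G + i * D)) := by
      apply Finset.sum_congr rfl
      intro i _
      rw [hslp]
    have hs0 : 0 ≤ s0T n G D := by
      unfold s0T
      have := psi_pos n G
      apply div_nonneg _ hD.le
      apply mul_nonneg this.le
      rw [← ha]; linarith
    have h4 : ∑ i ∈ Finset.range J, (s0T n G D * a ^ i - s0T n G D * a ^ (i + 1)) *
        NC g (G + (i + 1 : ℕ) * D) ≤ KT n G D := by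
      have h5 : ∀ i ∈ Finset.range J, (s0T n G D * a ^ i - s0T n G D * a ^ (i + 1)) *
        NC g (G + (i + 1 : ℕ) * D) ≤ (s0T n G D * (1 - a) * Real.exp G * Real.exp D) * r ^ i := by
        intro i _
        have e1 : NC g (G + (i + 1 : ℕ) * D) ≤ Real.exp (G + (i + 1 : ℕ) * D) := by
          apply htriv
          have : (0 : ℝ) ≤ ((i + 1 : ℕ) : ℝ) * D := by positivity
          linarith
        have e2 : Real.exp (G + (i + 1 : ℕ) * D) = Real.exp G * Real.exp D * (Real.exp D) ^ i := by
          rw [← Real.exp_nat_mul, ← Real.exp_add, ← Real.exp_add]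
          congr 1; push_cast; ring
        have e3 : s0T n G D * a ^ i - s0T n G D * a ^ (i + 1) = s0T n G D * (1 - a) * a ^ i := by
          rw [pow_succ]; ring
        rw [e3]
        have e4 : 0 ≤ s0T n G D * (1 - a) * a ^ i := by
          have : 0 ≤ 1 - a := by linarith
          positivity
        calc _ ≤ s0T n G D * (1 - a) * a ^ i * Real.exp (G + (i + 1 : ℕ) * D) :=
              mul_le_mul_of_nonneg_left e1 e4
          _ = _ := by rw [e2, ← har, mul_pow]; ring
      calc _ ≤ ∑ i ∈ Finset.range J, (s0T n G D * (1 - a) * Real.exp G * Real.exp D) * r ^ i :=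
            Finset.sum_le_sum h5
        _ = (s0T n G D * (1 - a) * Real.exp G * Real.exp D) * ∑ i ∈ Finset.range J, r ^ i := by
            rw [Finset.mul_sum]
        _ ≤ (s0T n G D * (1 - a) * Real.exp G * Real.exp D) * (1 / (1 - r)) := by
            apply mul_le_mul_of_nonneg_left
            · rw [geom_sum_eq hr1.ne, ← neg_div_neg_eq, neg_sub, neg_sub]
              apply div_le_div_of_nonneg_right _ (by linarith)
              have : 0 < r ^ J := pow_pos hr0 _
              linarith
            · have : 0 ≤ 1 - a := by linarith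
              positivity
        _ = KT n G D := by
            unfold KT s0T
            rw [← ha, ← hr]
            have h1r : 1 - r ≠ 0 := by
              have : 0 < 1 - r := by linarith
              exact this.ne'
            field_simp
    have h6 : s0T n G D * a ^ J * NC g (G + J * D) ≤ s0T n G D * a ^ J * Real.exp (G + J * D) := by
      apply mul_le_mul_of_nonneg_left
      · apply htriv
        have : (0 : ℝ) ≤ (J : ℝ) * D := by positivity
        linarith
      · positivity
    simp only [Nat.cast_zero, zero_mul, add_zero, pow_zero, mul_one] at h1 h2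
    rw [h3, h2] at h1
    linarith
  have hlim1 := SS_tendsto n (by omega) g G D hD
  have hlim2 : Filter.Tendsto (fun J : ℕ => s0T n G D * a ^ J * Real.exp (G + J * D))
      Filter.atTop (nhds 0) := by
    have h1 : ∀ J : ℕ, s0T n G D * a ^ J * Real.exp (G + J * D) =
        (s0T n G D * Real.exp G) * r ^ J := by
      intro J
      have h5 : Real.exp ((J : ℝ) * D) = Real.exp D ^ J := by rw [← Real.exp_nat_mul]
      rw [← har, mul_pow, Real.exp_add, h5]
      ring
    simp_rw [h1]
    have := (tendsto_pow_atTop_nhds_zero_of_lt_one hr0.le hr1).const_mul (s0T n G D * Real.exp G)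
    simpa using this
  have hlim : Filter.Tendsto (fun J : ℕ => SS n g (G + J * D) + KT n G D +
      s0T n G D * a ^ J * Real.exp (G + J * D)) Filter.atTop (nhds (KT n G D)) := by
    have := (hlim1.add_const (KT n G D)).add hlim2
    simpa using this
  exact ge_of_tendsto' hlim hmain

/-- slopes of the piecewise linear majorant: chords for `i < J`, `s0T` for `i = J` -/
noncomputable def tt (n : ℕ) (G : ℕ → ℝ) (J : ℕ) (D : ℝ) (i : ℕ) : ℝ :=
  if i < J then slp n (G i) (G (i + 1)) else s0T n (G J) D

theorem s0T_le (n : ℕ) (G D : ℝ) (hD : 0 < D) : s0T n G D ≤ (n : ℝ) * psi n G := by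
  unfold s0T
  rw [div_le_iff₀ hD]
  have h1 := Real.add_one_le_exp (-(n : ℝ) * D)
  have h2 := psi_pos n G
  nlinarith

theorem s0T_nonneg (n : ℕ) (G D : ℝ) (hD : 0 < D) : 0 ≤ s0T n G D := by
  unfold s0T
  have h1 : Real.exp (-(n : ℝ) * D) ≤ 1 := by
    rw [Real.exp_le_one_iff]
    have : (0 : ℝ) ≤ n := Nat.cast_nonneg n
    nlinarith
  apply div_nonneg _ hD.le
  apply mul_nonneg (psi_pos n G).le
  linarith

theorem tt_anti (n : ℕ) (G : ℕ → ℝ) (J : ℕ) (hG : ∀ i < J, G i < G (i + 1)) (D : ℝ) (hD : 0 < D)
    (i : ℕ) (hi : i < J) : tt n G J D (i + 1) ≤ tt n G J D i := by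
  unfold tt
  rw [if_pos hi]
  have h1 := slp_ge n (hG i hi)
  split_ifs with h
  · exact (slp_le n (hG (i + 1) h)).trans h1
  · have : i + 1 = J := by omega
    rw [this] at h1 ⊢
    exact (s0T_le n (G J) D hD).trans h1

/-- bound of `S(G 0)` by the values of `N` at the nodes -/
theorem SS_le (n : ℕ) (hn : 2 ≤ n) (g : ι → ℝ) (G : ℕ → ℝ) (J : ℕ)
    (hG : ∀ i < J, G i < G (i + 1)) (D : ℝ) (hD : 0 < D)
    (htriv : ∀ b, G J ≤ b → NC g b ≤ Real.exp b) (U : ℕ → ℝ)
    (hU : ∀ i, 1 ≤ i → i ≤ J → NC g (G i) ≤ U i) :
    SS n g (G 0) ≤ - tt n G J D 0 * NC g (G 0) +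
      ∑ i ∈ Finset.range J, (tt n G J D i - tt n G J D (i + 1)) * U (i + 1) + KT n (G J) D := by
  have h1 := chord_iter n g G J hG
  have h2 := tail_bound n hn g (G J) D hD htriv
  have h3 := abel_sum (fun i => NC g (G i)) (tt n G J D) J
  have h4 : ∑ i ∈ Finset.range J, slp n (G i) (G (i + 1)) * (NC g (G (i + 1)) - NC g (G i)) =
      ∑ i ∈ Finset.range J, tt n G J D i * (NC g (G (i + 1)) - NC g (G i)) := by
    apply Finset.sum_congr rfl
    intro i hi
    rw [Finset.mem_range] at hi
    unfold tt
    rw [if_pos hi]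
  have h5 : tt n G J D J = s0T n (G J) D := by unfold tt; simp
  have h6 : ∑ i ∈ Finset.range J, (tt n G J D i - tt n G J D (i + 1)) * NC g (G (i + 1)) ≤
      ∑ i ∈ Finset.range J, (tt n G J D i - tt n G J D (i + 1)) * U (i + 1) := by
    apply Finset.sum_le_sum
    intro i hi
    rw [Finset.mem_range] at hi
    apply mul_le_mul_of_nonneg_left (hU (i + 1) (by omega) (by omega))
    have := tt_anti n G J hG D hD i hi
    linarith
  rw [h4, h3, h5] at h1
  linarith

/-- `Aff(x)` of the chord lemma -/
noncomputable def Aff (n : ℕ) (G T : ℕ → ℝ) (J : ℕ) (D x : ℝ) : ℝ :=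
  - psi n (G 0) - tt n G J D 0 * (T 0 - G 0 + x) +
    ∑ i ∈ Finset.range J, (tt n G J D i - tt n G J D (i + 1)) * (T (i + 1) - G (i + 1) + x) +
    KT n (G J) D

theorem Aff_add (n : ℕ) (G T : ℕ → ℝ) (J : ℕ) (D x y : ℝ) :
    Aff n G T J D (x + y) = Aff n G T J D x - s0T n (G J) D * y := by
  unfold Aff
  have h1 : ∑ i ∈ Finset.range J, (tt n G J D i - tt n G J D (i + 1)) *
      (T (i + 1) - G (i + 1) + (x + y)) =
      ∑ i ∈ Finset.range J, (tt n G J D i - tt n G J D (i + 1)) * (T (i + 1) - G (i + 1) + x) +
      (tt n G J D 0 - tt n G J D J) * y := by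
    have h2 : ∑ i ∈ Finset.range J, (tt n G J D i - tt n G J D (i + 1)) =
        tt n G J D 0 - tt n G J D J := Finset.sum_range_sub' _ _
    rw [← h2, Finset.sum_mul, ← Finset.sum_add_distrib]
    apply Finset.sum_congr rfl
    intro i _
    ring
  have h5 : tt n G J D J = s0T n (G J) D := by unfold tt; simp
  rw [h1, h5]
  ring

/-- telescoping identity -/
theorem tt_telescope (n : ℕ) (G : ℕ → ℝ) (J : ℕ) (hG : ∀ i < J, G i < G (i + 1)) (D c : ℝ) :
    - tt n G J D 0 * (G 0 - c) + ∑ i ∈ Finset.range J,
      (tt n G J D i - tt n G J D (i + 1)) * (G (i + 1) - c) + s0T n (G J) D * (G J - c) =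
      psi n (G 0) - psi n (G J) := by
  have h1 := abel_sum (fun i => G i - c) (tt n G J D) J
  have h5 : tt n G J D J = s0T n (G J) D := by unfold tt; simp
  rw [h5] at h1
  rw [← h1]
  have h2 : ∑ i ∈ Finset.range J, tt n G J D i * (G (i + 1) - c - (G i - c)) =
      ∑ i ∈ Finset.range J, (psi n (G i) - psi n (G (i + 1))) := by
    apply Finset.sum_congr rfl
    intro i hi
    rw [Finset.mem_range] at hi
    unfold tt
    rw [if_pos hi, ← slp_mul n (hG i hi)]
    ring
  rw [h2, Finset.sum_range_sub']

/-- a value between `a` and `b` -/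
theorem psi_sub_le (n : ℕ) {a b g : ℝ} (hab : a < b) (h1 : a ≤ g) :
    psi n (g) - psi n (max g b) ≤ slp n a b * max (b - g) 0 := by
  rcases le_total g b with h | h
  · rw [max_eq_right h, max_eq_left (by linarith)]
    have := psi_le_chord n hab h1 h
    linarith
  · rw [max_eq_left h, max_eq_right (by linarith)]
    simp

theorem exists_min_image' [Nonempty ι] (g : ι → ℝ) : ∃ k0, ∀ k, g k0 ≤ g k :=
  Finite.exists_min g

/-- **Chord lemma.** -/
theorem chord_lemma [DecidableEq ι] (n : ℕ) (hn : 2 ≤ n) (g : ι → ℝ) (G T : ℕ → ℝ) (J : ℕ)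
    (hG : ∀ i < J, G i < G (i + 1)) (D : ℝ) (hD : 0 < D)
    (htriv : ∀ b, G J ≤ b → NC g b ≤ Real.exp b)
    (hT : ∀ i ≤ J, NC g (G i) ≤ T i) (hT0 : 0 < T 0)
    (P E u c : ℝ) (hc : c = G 0 - T 0 / 2) (hu : u < c)
    (hP : P ≤ ∑ k, psi n (g k))
    (hsep : psi n u + psi n (2 * c - u) + Aff n G T J D u < P)
    (hE : psi n (2 * c - u) + Aff n G T J D u ≤ E * psi n u)
    (hs : s0T n (G J) D ≤ (n : ℝ) * Aff n G T J D u) :
    ∃ k0, psi n u ≤ psi n (g k0) ∧ ∑ k ∈ Finset.univ.erase k0, psi n (g k) ≤ E * psi n (g k0) := by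
  have hn' : (2 : ℝ) ≤ n := by exact_mod_cast hn
  have hs0 := s0T_nonneg n (G J) D hD
  have hAff0 : 0 ≤ Aff n G T J D u := by
    by_contra hcon
    push Not at hcon
    nlinarith
  have hPpos : 0 < P := by
    have h1 := psi_pos n u
    have h2 := psi_pos n (2 * c - u)
    linarith
  have hne : Nonempty ι := by
    by_contra hcon
    rw [not_nonempty_iff] at hcon
    simp at hP
    linarith
  -- monotonicity of the two point function
  have hcosh : ∀ x, u ≤ x → x ≤ c →
      psi n x + psi n (2 * c - x) ≤ psi n u + psi n (2 * c - u) := by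
    intro x hx1 hx2
    have e1 : psi n x = psi n u * psi n (x - u) := by
      rw [← psi_add]; congr 1; ring
    have e2 : psi n (2 * c - u) = psi n (2 * c - x) * psi n (x - u) := by
      rw [← psi_add]; congr 1; ring
    have e3 : psi n (x - u) ≤ 1 := by
      unfold psi
      rw [Real.exp_le_one_iff]
      nlinarith
    have e4 : psi n (2 * c - x) ≤ psi n u := psi_anti n (by linarith)
    have e5 := psi_pos n (x - u)
    rw [e1, e2]
    nlinarith [psi_pos n (2 * c - x), psi_pos n u]
  obtain ⟨k0, hk0⟩ := exists_min_image' g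
  have hsum : ∑ k, psi n (g k) = psi n (g k0) + ∑ k ∈ Finset.univ.erase k0, psi n (g k) :=
    (Finset.add_sum_erase Finset.univ (fun k => psi n (g k)) (Finset.mem_univ k0)).symm
  by_cases hcase : g k0 ≤ c
  · -- the smallest one is below `c`
    have hg0 : g k0 < G 0 := by rw [hc] at hcase; linarith
    -- the others
    let κ := {k : ι // k ≠ k0}
    let g' : κ → ℝ := fun k => g k.1
    have hsplit : ∀ (F : ι → ℝ), ∑ k ∈ Finset.univ.erase k0, F k = ∑ k : κ, F k.1 := by
      intro F
      rw [← Finset.sum_subtype (Finset.univ.erase k0) (p := fun k => k ≠ k0)]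
      intro x
      simp
    have hNN : ∀ b, NC g b = max (b - g k0) 0 + NC g' b := by
      intro b
      unfold NC
      rw [← Finset.add_sum_erase _ _ (Finset.mem_univ k0), hsplit]
    have hGmono : ∀ i ≤ J, G 0 ≤ G i := by
      intro i
      induction i with
      | zero => intro _; exact le_refl _
      | succ i ih => intro hi; exact (ih (by omega)).trans (hG i (by omega)).le
    have hU : ∀ i, 1 ≤ i → i ≤ J → NC g' (G i) ≤ T i - G i + g k0 := by
      intro i _ hi
      have h1 := hT i hi
      rw [hNN, max_eq_left (by linarith [hGmono i hi])] at h1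
      linarith
    have hU0 : NC g' (G 0) ≤ T 0 - G 0 + g k0 := by
      have h1 := hT 0 (Nat.zero_le _)
      rw [hNN, max_eq_left (by linarith)] at h1
      linarith
    have htriv' : ∀ b, G J ≤ b → NC g' b ≤ Real.exp b := by
      intro b hb
      have h1 := htriv b hb
      rw [hNN] at h1
      have := le_max_right (b - g k0) 0
      linarith
    have hSS := SS_le n hn g' G J hG D hD htriv' (fun i => T i - G i + g k0) hU
    -- lower bound of the other values
    set l0 := T 0 - G 0 + g k0 with hl0
    have hl0n : 0 ≤ l0 := (NC_nonneg g' (G 0)).trans hU0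
    have hlow : ∀ k : κ, 2 * c - g k0 ≤ g' k ∨ G 0 ≤ g' k := by
      intro k
      by_cases h : G 0 ≤ g' k
      · exact Or.inr h
      · left
        push Not at h
        have h1 : max (G 0 - g' k) 0 ≤ NC g' (G 0) := by
          unfold NC
          exact Finset.single_le_sum (f := fun k : κ => max (G 0 - g' k) 0)
            (fun _ _ => le_max_right _ _) (Finset.mem_univ k)
        rw [max_eq_left (by linarith)] at h1
        rw [hc]
        linarith
    have hrest : ∑ k ∈ Finset.univ.erase k0, psi n (g k) ≤
        psi n (2 * c - g k0) + Aff n G T J D (g k0) := by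
      rw [hsplit]
      have h0 : G 0 - l0 = 2 * c - g k0 := by rw [hc, hl0]; ring
      -- reduce to a bound with the slope
      have hbound : ∑ k : κ, psi n (g k.1) ≤ SS n g' (G 0) +
          (psi n (2 * c - g k0) - psi n (G 0)) - tt n G J D 0 * (l0 - NC g' (G 0)) := by
        rcases eq_or_lt_of_le hl0n with h | h
        · -- no other value below `G 0`
          have hz : NC g' (G 0) = 0 := le_antisymm (hU0.trans h.symm.le) (NC_nonneg _ _)
          have hall : ∀ k : κ, G 0 ≤ g' k := by
            intro k
            rcases hlow k with h1 | h1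
            · rw [← h0, ← h] at h1; linarith
            · exact h1
          have e1 : ∑ k : κ, psi n (g k.1) = SS n g' (G 0) := by
            unfold SS
            apply Finset.sum_congr rfl
            intro k _
            rw [max_eq_left (hall k)]
          rw [e1, hz, ← h0, ← h]
          simp
        · have hlt : 2 * c - g k0 < G 0 := by rw [← h0]; linarith
          have e1 : ∑ k : κ, psi n (g k.1) - SS n g' (G 0) ≤
              slp n (2 * c - g k0) (G 0) * NC g' (G 0) := by
            unfold SS NC
            rw [← Finset.sum_sub_distrib, Finset.mul_sum]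
            apply Finset.sum_le_sum
            intro k _
            apply psi_sub_le n hlt
            rcases hlow k with h1 | h1
            · exact h1
            · linarith
          have e2 : tt n G J D 0 ≤ slp n (2 * c - g k0) (G 0) := by
            have f1 := slp_ge n hlt
            have f2 : tt n G J D 0 ≤ (n : ℝ) * psi n (G 0) := by
              unfold tt
              split_ifs with hJ
              · exact slp_le n (hG 0 hJ)
              · have : J = 0 := by omega
                rw [this]
                exact s0T_le n (G 0) D hD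
            linarith
          have e3 := slp_mul n hlt
          have e4 : G 0 - (2 * c - g k0) = l0 := by rw [← h0]; ring
          rw [e4] at e3
          nlinarith
      have hAffeq : Aff n G T J D (g k0) = - psi n (G 0) - tt n G J D 0 * l0 +
          ∑ i ∈ Finset.range J, (tt n G J D i - tt n G J D (i + 1)) *
            (T (i + 1) - G (i + 1) + g k0) + KT n (G J) D := rfl
      rw [hAffeq]
      have hSS' : SS n g' (G 0) ≤ - tt n G J D 0 * NC g' (G 0) +
        ∑ i ∈ Finset.range J, (tt n G J D i - tt n G J D (i + 1)) *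
          (T (i + 1) - G (i + 1) + g k0) + KT n (G J) D := hSS
      nlinarith
    -- the smallest one is `≤ u`
    have hgu : g k0 ≤ u := by
      by_contra hcon
      push Not at hcon
      have e1 := hcosh (g k0) hcon.le hcase
      have e2 := Aff_add n G T J D u (g k0 - u)
      rw [show u + (g k0 - u) = g k0 by ring] at e2
      have e3 : 0 ≤ s0T n (G J) D * (g k0 - u) := mul_nonneg hs0 (by linarith)
      rw [hsum] at hP
      linarith
    refine ⟨k0, psi_anti n hgu, hrest.trans ?_⟩
    -- final comparison
    have e2 := Aff_add n G T J D u (g k0 - u)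
    rw [show u + (g k0 - u) = g k0 by ring] at e2
    set y := u - g k0 with hy
    have hy0 : 0 ≤ y := by rw [hy]; linarith
    have e3 : psi n (g k0) = psi n u * Real.exp ((n : ℝ) * y) := by
      unfold psi; rw [← Real.exp_add]; congr 1; rw [hy]; ring
    have e4 : psi n (2 * c - g k0) ≤ psi n (2 * c - u) := psi_anti n (by linarith)
    have e5 : 1 + (n : ℝ) * y ≤ Real.exp ((n : ℝ) * y) := by
      have := Real.add_one_le_exp ((n : ℝ) * y); linarith
    have e6 : Aff n G T J D (g k0) ≤ Aff n G T J D u * Real.exp ((n : ℝ) * y) := by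
      rw [e2]
      have : - s0T n (G J) D * (g k0 - u) = s0T n (G J) D * y := by rw [hy]; ring
      have h7 : s0T n (G J) D * y ≤ (n : ℝ) * Aff n G T J D u * y :=
        mul_le_mul_of_nonneg_right hs hy0
      nlinarith
    have e7 : psi n (2 * c - u) ≤ psi n (2 * c - u) * Real.exp ((n : ℝ) * y) := by
      have h8 : 1 ≤ Real.exp ((n : ℝ) * y) := by
        apply Real.one_le_exp
        have : (0 : ℝ) ≤ n := by linarith
        positivity
      nlinarith [psi_pos n (2 * c - u)]
    calc _ ≤ (psi n (2 * c - u) + Aff n G T J D u) * Real.exp ((n : ℝ) * y) := by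
          rw [add_mul]; linarith
      _ ≤ E * psi n u * Real.exp ((n : ℝ) * y) :=
          mul_le_mul_of_nonneg_right hE (Real.exp_pos _).le
      _ = E * psi n (g k0) := by rw [e3]; ring
  · -- all values are `> c` : contradiction
    exfalso
    push Not at hcase
    have hall : ∀ k, c < g k := fun k => hcase.trans_le (hk0 k)
    have hcG : c < G 0 := by rw [hc]; linarith
    have hSS := SS_le n hn g G J hG D hD htriv T (fun i _ hi => hT i hi)
    have e1 : ∑ k, psi n (g k) - SS n g (G 0) ≤ slp n c (G 0) * NC g (G 0) := by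
      unfold SS NC
      rw [← Finset.sum_sub_distrib, Finset.mul_sum]
      apply Finset.sum_le_sum
      intro k _
      exact psi_sub_le n hcG (hall k).le
    have e2 : tt n G J D 0 ≤ slp n c (G 0) := by
      have f1 := slp_ge n hcG
      have f2 : tt n G J D 0 ≤ (n : ℝ) * psi n (G 0) := by
        unfold tt
        split_ifs with hJ
        · exact slp_le n (hG 0 hJ)
        · have : J = 0 := by omega
          rw [this]
          exact s0T_le n (G 0) D hD
      linarith
    have e3 := slp_mul n hcG
    have e4 : G 0 - c = T 0 / 2 := by rw [hc]; ring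
    have e5 := hT 0 (Nat.zero_le _)
    have e6 := hcosh c hu.le (le_refl c)
    rw [show 2 * c - c = c by ring] at e6
    have e7 := Aff_add n G T J D u (c - u)
    rw [show u + (c - u) = c by ring] at e7
    have e8 : 0 ≤ s0T n (G J) D * (c - u) := mul_nonneg hs0 (by linarith)
    have e9 : Aff n G T J D c = - psi n (G 0) - tt n G J D 0 * (T 0 - G 0 + c) +
          ∑ i ∈ Finset.range J, (tt n G J D i - tt n G J D (i + 1)) *
            (T (i + 1) - G (i + 1) + c) + KT n (G J) D := rfl
    have e10 : ∑ i ∈ Finset.range J, (tt n G J D i - tt n G J D (i + 1)) *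
            (T (i + 1) - G (i + 1) + c) =
        ∑ i ∈ Finset.range J, (tt n G J D i - tt n G J D (i + 1)) * T (i + 1) -
        ∑ i ∈ Finset.range J, (tt n G J D i - tt n G J D (i + 1)) * (G (i + 1) - c) := by
      rw [← Finset.sum_sub_distrib]
      apply Finset.sum_congr rfl
      intro i _; ring
    have e11 := tt_telescope n G J hG D c
    have e12 : 0 ≤ s0T n (G J) D * (G J - c) := by
      apply mul_nonneg hs0
      have hGmono : ∀ i ≤ J, G 0 ≤ G i := by
        intro i
        induction i with
        | zero => intro _; exact le_refl _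
        | succ i ih => intro hi; exact (ih (by omega)).trans (hG i (by omega)).le
      linarith [hGmono J (le_refl _)]
    have e13 := psi_pos n (G J)
    have e14 : ∑ k, psi n (g k) ≤ 2 * (psi n c - psi n (G 0)) - tt n G J D 0 * T 0 +
        ∑ i ∈ Finset.range J, (tt n G J D i - tt n G J D (i + 1)) * T (i + 1) + KT n (G J) D := by
      have f1 : slp n c (G 0) * T 0 = 2 * (psi n c - psi n (G 0)) := by
        rw [e4] at e3; linarith
      have f2 : (slp n c (G 0) - tt n G J D 0) * NC g (G 0) ≤
          (slp n c (G 0) - tt n G J D 0) * T 0 :=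
        mul_le_mul_of_nonneg_left e5 (by linarith)
      nlinarith
    rw [e10] at e9
    nlinarith

end Chord

end MP_d1b55a
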