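import Mathlib

/-!
MP_d1b55a_co: the polynomials `aP n = I_n(y)/(n-1)!` (I_n = inversion enumerator of trees),
defined by `aP 1 = 1` and `(n+1) * aP (n+2) = ∑_{k=1}^{n+1} [k] * aP k * aP (n+2-k)`.
-/

open Polynomial Finset

namespace MP_d1b55a

/-- the `q`-integer `[k] = 1 + X + ... + X^(k-1)` -/
noncomputable def qn (k : ℕ) : Polynomial ℚ := ∑ j ∈ Finset.range k, X ^ j

/-- `aP n = I_n(y)/(n-1)!` for `n ≥ 1`, `aP 0 = 0`. -/
noncomputable def aP : ℕ → Polynomial ℚ
  | 0 => 0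
  | 1 => 1
  | (n + 2) => C (1 / ((n : ℚ) + 1)) *
      ∑ k : Fin (n + 1), qn (k.1 + 1) * aP (k.1 + 1) * aP (n + 1 - k.1)
termination_by n => n
decreasing_by all_goals omega

theorem aP_zero : aP 0 = 0 := by rw [aP]

theorem aP_one : aP 1 = 1 := by rw [aP]

theorem aP_succ (n : ℕ) : aP (n + 2) = C (1 / ((n : ℚ) + 1)) *
      ∑ k ∈ Finset.range (n + 1), qn (k + 1) * aP (k + 1) * aP (n + 1 - k) := by
  rw [aP, Finset.sum_range]

theorem aP_rec (n : ℕ) : C ((n : ℚ) + 1) * aP (n + 2) =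
      ∑ k ∈ Finset.range (n + 1), qn (k + 1) * aP (k + 1) * aP (n + 1 - k) := by
  rw [aP_succ, ← mul_assoc, ← C_mul]
  have : ((n : ℚ) + 1) * (1 / ((n : ℚ) + 1)) = 1 := by
    field_simp
  rw [this, C_1, one_mul]

/-- the value `a_n(y)` at a complex number `y` -/
noncomputable def av (n : ℕ) (y : ℂ) : ℂ := aeval y (aP n)

theorem av_zero (y : ℂ) : av 0 y = 0 := by simp [av, aP_zero]

theorem av_one (y : ℂ) : av 1 y = 1 := by simp [av, aP_one]

theorem av_rec (n : ℕ) (y : ℂ) : ((n : ℂ) + 1) * av (n + 2) y =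
      ∑ k ∈ Finset.range (n + 1), (∑ j ∈ Finset.range (k + 1), y ^ j) * av (k + 1) y *
        av (n + 1 - k) y := by
  have h := congrArg (aeval y) (aP_rec n)
  simpa [av, qn, map_sum] using h

/-- any sequence with the same recursion is `av · y` (interface with the combinatorial side) -/
theorem av_unique (y : ℂ) (a : ℕ → ℂ) (h1 : a 1 = 1)
    (hrec : ∀ n : ℕ, ((n : ℂ) + 1) * a (n + 2) =
      ∑ k ∈ Finset.range (n + 1), (∑ j ∈ Finset.range (k + 1), y ^ j) * a (k + 1) *
        a (n + 1 - k)) : ∀ n, 1 ≤ n → a n = av n y := by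
  intro n
  induction n using Nat.strong_induction_on with
  | _ n ih =>
    intro hn
    obtain rfl | ⟨m, rfl⟩ : n = 1 ∨ ∃ m, n = m + 2 := by
      rcases n with _ | _ | m
      · omega
      · exact Or.inl rfl
      · exact Or.inr ⟨m, rfl⟩
    · rw [h1, av_one]
    · have hne : ((m : ℂ) + 1) ≠ 0 := by exact_mod_cast Nat.succ_ne_zero m
      apply mul_left_cancel₀ hne
      rw [hrec, av_rec]
      apply Finset.sum_congr rfl
      intro k hk
      rw [Finset.mem_range] at hk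
      rw [ih (k + 1) (by omega) (by omega), ih (m + 1 - k) (by omega) (by omega)]

/-- power sums of the reciprocals of the roots: `p_n = (1-y)^(n-1) a_n(y)` (n ≥ 1) -/
noncomputable def pv (n : ℕ) (y : ℂ) : ℂ := (1 - y) ^ (n - 1) * av n y

/-- values at `1` of `aP`, of its derivative, of its second derivative -/
noncomputable def a1 (n : ℕ) : ℚ := (aP n).eval 1
noncomputable def b1 (n : ℕ) : ℚ := (derivative (aP n)).eval 1
noncomputable def d1 (n : ℕ) : ℚ := (derivative (derivative (aP n))).eval 1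

/-- Ramanujan's function `1 + Q(n) = ∑_{j ≥ 0} n (n-1) ... (n-j+1) / n^j` -/
noncomputable def Q1 (n : ℕ) : ℚ := ∑ j ∈ Finset.range (n + 1), (n.descFactorial j : ℚ) / (n : ℚ) ^ j

/-- mean and second moment of the number of inversions -/
noncomputable def EA (n : ℕ) : ℝ := ((b1 n / a1 n : ℚ) : ℝ)
noncomputable def VA (n : ℕ) : ℝ := (((d1 n + b1 n) / a1 n - (b1 n / a1 n) ^ 2 : ℚ) : ℝ)

end MP_d1b55a
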