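import Pool.Agent.Lib.MP_d1b55a_co.FDefs

/-!
FA1. `G_n = (1/π) ∫_0^π gv(v)^n dv` (Nuttall, Bouwkamp), `0 ≤ gv ≤ 1`.

`z(v) = v cot v + i v`, `e^{z}/z = e gv`. `FA1_K n` is a primitive of
`e^{nz} z^{-n-1} - (n^n/n!) z^{-1}` on `ℂ ∖ {0}`; `D(v) = K(z(v)) - K(conj z(v))` has derivative
`2 i ((e gv)^n - n^n/n!)` and tends to `0` at both ends.
-/

open Finset

namespace MP_d1b55a

theorem gv_nonneg (v : ℝ) (h0 : 0 ≤ v) (h1 : v ≤ Real.pi) : 0 ≤ gv v := by
  unfold gv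
  have := Real.sin_nonneg_of_nonneg_of_le_pi h0 h1
  positivity

theorem FA1_vcos_le (v : ℝ) (h0 : 0 < v) (h1 : v < Real.pi) : v * Real.cos v ≤ Real.sin v := by
  rcases lt_or_ge v (Real.pi / 2) with h | h
  · have hc : 0 < Real.cos v := Real.cos_pos_of_mem_Ioo ⟨by linarith, h⟩
    have ht := (Real.lt_tan h0 h).le
    rw [Real.tan_eq_sin_div_cos, le_div_iff₀ hc] at ht
    exact ht
  · have hc : Real.cos v ≤ 0 :=
      Real.cos_nonpos_of_pi_div_two_le_of_le h (by linarith [Real.pi_pos])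
    have hs : 0 ≤ Real.sin v := Real.sin_nonneg_of_nonneg_of_le_pi h0.le h1.le
    nlinarith

theorem gv_le_one (v : ℝ) (h0 : 0 ≤ v) (h1 : v ≤ Real.pi) : gv v ≤ 1 := by
  rcases h0.eq_or_lt with rfl | h0'
  · simp [gv]
  rcases h1.eq_or_lt with rfl | h1'
  · simp [gv]
  have hs : 0 < Real.sin v := Real.sin_pos_of_pos_of_lt_pi h0' h1'
  have h2 : v * Real.cos v / Real.sin v - 1 ≤ 0 := by
    rw [sub_nonpos, div_le_one hs]
    exact FA1_vcos_le v h0' h1'
  have h3 : Real.exp (v * Real.cos v / Real.sin v - 1) ≤ 1 := Real.exp_le_one_iff.2 h2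
  unfold gv
  rw [div_le_one h0']
  calc Real.exp (v * Real.cos v / Real.sin v - 1) * Real.sin v ≤ 1 * Real.sin v :=
        mul_le_mul_of_nonneg_right h3 hs.le
    _ ≤ v := by rw [one_mul]; exact Real.sin_le h0

theorem gv_measurable : Measurable gv := by
  unfold gv
  exact ((((measurable_id.mul Real.measurable_cos).div Real.measurable_sin).sub_const 1).exp.mul
    Real.measurable_sin).div measurable_id

/-- the entire remainder -/
noncomputable def FA1_r (n : ℕ) (z : ℂ) : ℂ :=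
  ∑' m : ℕ, ((n : ℂ) ^ (m + (n + 1)) / ((m + (n + 1)).factorial : ℂ)) * z ^ m

theorem FA1_term_le (n : ℕ) (R : ℝ) (z : ℂ) (hz : ‖z‖ ≤ R) (m : ℕ) :
    ‖((n : ℂ) ^ (m + (n + 1)) / ((m + (n + 1)).factorial : ℂ)) * z ^ m‖ ≤
      (n : ℝ) ^ (n + 1) * (((n : ℝ) * R) ^ m / (m.factorial : ℝ)) := by
  rw [norm_mul, norm_div, norm_pow, norm_pow, Complex.norm_natCast, Complex.norm_natCast]
  have h1 : (m.factorial : ℝ) ≤ ((m + (n + 1)).factorial : ℝ) := by
    exact_mod_cast Nat.factorial_le (Nat.le_add_right m (n + 1))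
  have h2 : (0 : ℝ) < (m.factorial : ℝ) := by exact_mod_cast Nat.factorial_pos m
  have h3 : ‖z‖ ^ m ≤ R ^ m := pow_le_pow_left₀ (norm_nonneg z) hz m
  calc (n : ℝ) ^ (m + (n + 1)) / ((m + (n + 1)).factorial : ℝ) * ‖z‖ ^ m
      ≤ (n : ℝ) ^ (m + (n + 1)) / (m.factorial : ℝ) * R ^ m := by
        apply mul_le_mul _ h3 (by positivity) (by positivity)
        exact div_le_div_of_nonneg_left (by positivity) h2 h1
    _ = (n : ℝ) ^ (n + 1) * (((n : ℝ) * R) ^ m / (m.factorial : ℝ)) := by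
        rw [mul_pow, pow_add]; ring

theorem FA1_r_diff (n : ℕ) : Differentiable ℂ (FA1_r n) := by
  intro z
  have hU : IsOpen (Metric.ball (0 : ℂ) (‖z‖ + 1)) := Metric.isOpen_ball
  have hz : z ∈ Metric.ball (0 : ℂ) (‖z‖ + 1) := by
    rw [mem_ball_zero_iff]; linarith
  have hsum : Summable fun m : ℕ =>
      (n : ℝ) ^ (n + 1) * (((n : ℝ) * (‖z‖ + 1)) ^ m / (m.factorial : ℝ)) :=
    (Real.summable_pow_div_factorial _).mul_left _
  have h := Complex.differentiableOn_tsum_of_summable_norm (U := Metric.ball (0 : ℂ) (‖z‖ + 1))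
    (F := fun (m : ℕ) (w : ℂ) =>
      ((n : ℂ) ^ (m + (n + 1)) / ((m + (n + 1)).factorial : ℂ)) * w ^ m) hsum
    (fun m => ((differentiable_id.pow m).const_mul _).differentiableOn) hU
    (fun m w hw => by
      rw [mem_ball_zero_iff] at hw
      exact FA1_term_le n (‖z‖ + 1) w hw.le m)
  exact (h z hz).differentiableAt (hU.mem_nhds hz)

theorem FA1_exp (n : ℕ) (z : ℂ) : Complex.exp ((n : ℂ) * z) =
    ∑ k ∈ Finset.range (n + 1), ((n : ℂ) ^ k / (k.factorial : ℂ)) * z ^ k +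
      z ^ (n + 1) * FA1_r n z := by
  have h := NormedSpace.expSeries_div_hasSum_exp (𝔸 := ℂ) ((n : ℂ) * z)
  rw [← Complex.exp_eq_exp_ℂ] at h
  have h2 := h.summable.sum_add_tsum_nat_add (n + 1)
  rw [h.tsum_eq] at h2
  rw [← h2]
  congr 1
  · refine Finset.sum_congr rfl (fun k _ => ?_)
    rw [mul_pow]; ring
  · unfold FA1_r
    rw [← tsum_mul_left]
    refine tsum_congr (fun m => ?_)
    rw [mul_pow, pow_add z]; ring

/-- a primitive of the remainder -/
theorem FA1_prim (n : ℕ) : ∃ P : ℂ → ℂ, ∀ z, HasDerivAt P (FA1_r n z) z := by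
  obtain ⟨P, hP⟩ := (FA1_r_diff n).isExactOn_univ
  exact ⟨P, fun z => by simpa using hP z (Set.mem_univ z)⟩

/-- primitive of `e^{nz} z^{-n-1} - (n^n/n!) z^{-1}` on `ℂ ∖ {0}` -/
theorem FA1_K (n : ℕ) : ∃ K : ℂ → ℂ, ∀ z : ℂ, z ≠ 0 →
    HasDerivAt K (Complex.exp ((n : ℂ) * z) / z ^ (n + 1) -
      ((n : ℂ) ^ n / (n.factorial : ℂ)) / z) z := by
  obtain ⟨P, hP⟩ := FA1_prim n
  refine ⟨fun z => (∑ k ∈ Finset.range n, ((n : ℂ) ^ k / (k.factorial : ℂ)) *
    (z ^ ((k : ℤ) - (n : ℤ)) / ((k : ℂ) - (n : ℂ)))) + P z, fun z hz => ?_⟩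
  have h1 : HasDerivAt (fun z : ℂ => ∑ k ∈ Finset.range n, ((n : ℂ) ^ k / (k.factorial : ℂ)) *
      (z ^ ((k : ℤ) - (n : ℤ)) / ((k : ℂ) - (n : ℂ))))
      (∑ k ∈ Finset.range n, ((n : ℂ) ^ k / (k.factorial : ℂ)) *
        (z ^ k / z ^ (n + 1))) z := by
    apply HasDerivAt.fun_sum
    intro k hk
    rw [Finset.mem_range] at hk
    apply HasDerivAt.const_mul
    have hne : ((k : ℂ) - (n : ℂ)) ≠ 0 := by
      rw [sub_ne_zero]; exact_mod_cast hk.ne
    have h2 := (hasDerivAt_zpow ((k : ℤ) - (n : ℤ)) z (Or.inl hz)).div_const ((k : ℂ) - (n : ℂ))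
    refine h2.congr_deriv ?_
    have h3 : z ^ ((k : ℤ) - (n : ℤ) - 1) = z ^ k / z ^ (n + 1) := by
      rw [show (k : ℤ) - (n : ℤ) - 1 = (k : ℤ) - ((n + 1 : ℕ) : ℤ) by push_cast; ring,
        zpow_sub₀ hz, zpow_natCast, zpow_natCast]
    rw [h3]
    push_cast
    field_simp
  refine (h1.add (hP z)).congr_deriv ?_
  rw [FA1_exp, Finset.sum_range_succ]
  have hz' : z ^ (n + 1) ≠ 0 := pow_ne_zero _ hz
  rw [Finset.sum_congr rfl (fun k _ => (mul_div_assoc ((n : ℂ) ^ k / (k.factorial : ℂ)) (z ^ k)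
    (z ^ (n + 1))).symm), ← Finset.sum_div]
  rw [add_div, add_div, mul_div_cancel_left₀ _ hz']
  have : ((n : ℂ) ^ n / (n.factorial : ℂ)) * z ^ n / z ^ (n + 1) =
      ((n : ℂ) ^ n / (n.factorial : ℂ)) / z := by
    rw [pow_succ]; field_simp
  rw [this]; ring

/-- the curve -/
noncomputable def FA1_z (v : ℝ) : ℂ := ((v * Real.cos v / Real.sin v : ℝ) : ℂ) + (v : ℂ) * Complex.I

theorem FA1_z_eq (v : ℝ) (hs : Real.sin v ≠ 0) :
    FA1_z v = ((v / Real.sin v : ℝ) : ℂ) * Complex.exp ((v : ℂ) * Complex.I) := by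
  unfold FA1_z
  rw [Complex.exp_mul_I, ← Complex.ofReal_cos, ← Complex.ofReal_sin]
  have : (Real.sin v : ℂ) ≠ 0 := by exact_mod_cast hs
  push_cast at *
  field_simp

theorem FA1_z_ne (v : ℝ) (h0 : 0 < v) : FA1_z v ≠ 0 := by
  intro h
  have h1 := congrArg Complex.im h
  unfold FA1_z at h1
  rw [Complex.add_im, Complex.ofReal_im, Complex.im_ofReal_mul, Complex.I_im, mul_one, Complex.zero_im, zero_add] at h1
  exact h0.ne' h1

theorem FA1_expz (v : ℝ) (h0 : 0 < v) (hs : 0 < Real.sin v) :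
    Complex.exp (FA1_z v) / FA1_z v = ((Real.exp 1 * gv v : ℝ) : ℂ) := by
  have h1 : Complex.exp (FA1_z v) = ((Real.exp (v * Real.cos v / Real.sin v) : ℝ) : ℂ) *
      Complex.exp ((v : ℂ) * Complex.I) := by
    unfold FA1_z
    rw [Complex.exp_add, Complex.ofReal_exp]
  rw [h1, FA1_z_eq v hs.ne']
  have h2 : Complex.exp ((v : ℂ) * Complex.I) ≠ 0 := Complex.exp_ne_zero _
  rw [mul_div_mul_right _ _ h2, ← Complex.ofReal_div]
  congr 1
  unfold gv
  rw [Real.exp_sub]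
  have h3 := (Real.exp_pos 1).ne'
  field_simp

theorem FA1_z_deriv (v : ℝ) (h0 : 0 < v) (hs : 0 < Real.sin v) :
    HasDerivAt FA1_z (FA1_z v * (((1 / v - Real.cos v / Real.sin v : ℝ) : ℂ) + Complex.I)) v := by
  have h1 : HasDerivAt (fun v : ℝ => v * Real.cos v / Real.sin v)
      (((1 * Real.cos v + v * (-Real.sin v)) * Real.sin v - v * Real.cos v * Real.cos v) /
        Real.sin v ^ 2) v :=
    ((hasDerivAt_id v).mul (Real.hasDerivAt_cos v)).div (Real.hasDerivAt_sin v) hs.ne'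
  have h2 : HasDerivAt (fun v : ℝ => (v : ℂ) * Complex.I) (1 * Complex.I) v :=
    (Complex.ofRealCLM.hasDerivAt.mul_const Complex.I)
  have h3 := h1.ofReal_comp.add h2
  refine h3.congr_deriv ?_
  unfold FA1_z
  have h4 : (v : ℂ) ≠ 0 := by exact_mod_cast h0.ne'
  have h5 : (Real.sin v : ℂ) ≠ 0 := by exact_mod_cast hs.ne'
  have h6 : (Real.sin v : ℂ) ^ 2 + (Real.cos v : ℂ) ^ 2 = 1 := by
    exact_mod_cast Real.sin_sq_add_cos_sq v
  push_cast at *
  field_simp
  ring_nf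
  rw [Complex.I_sq]
  linear_combination (-(v : ℂ) ^ 2 * 0) * h6

theorem FA1_z_conj (v : ℝ) : (starRingEnd ℂ) (FA1_z v) =
    ((v * Real.cos v / Real.sin v : ℝ) : ℂ) - (v : ℂ) * Complex.I := by
  unfold FA1_z
  rw [map_add, map_mul, Complex.conj_ofReal, Complex.conj_ofReal, Complex.conj_I]
  ring

/-- `D' = 2 i ((e gv)^n - n^n/n!)` -/
theorem FA1_D_deriv (n : ℕ) (K : ℂ → ℂ) (hK : ∀ z : ℂ, z ≠ 0 →
    HasDerivAt K (Complex.exp ((n : ℂ) * z) / z ^ (n + 1) -
      ((n : ℂ) ^ n / (n.factorial : ℂ)) / z) z) (v : ℝ) (h0 : 0 < v) (h1 : v < Real.pi) :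
    HasDerivAt (fun v : ℝ => K (FA1_z v) - K ((starRingEnd ℂ) (FA1_z v)))
      (2 * Complex.I * (((Real.exp 1 * gv v) ^ n - (n : ℝ) ^ n / (n.factorial : ℝ) : ℝ) : ℂ)) v := by
  have hs : 0 < Real.sin v := Real.sin_pos_of_pos_of_lt_pi h0 h1
  have hz := FA1_z_ne v h0
  have hzc : (starRingEnd ℂ) (FA1_z v) ≠ 0 := by
    intro h
    apply hz
    rw [← Complex.conj_conj (FA1_z v), h, map_zero]
  have hd := FA1_z_deriv v h0 hs
  have hdc : HasDerivAt (fun v : ℝ => (starRingEnd ℂ) (FA1_z v))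
      ((starRingEnd ℂ) (FA1_z v * (((1 / v - Real.cos v / Real.sin v : ℝ) : ℂ) + Complex.I))) v :=
    hd.star
  have e1 := (hK (FA1_z v) hz).comp v hd
  have e2 := (hK ((starRingEnd ℂ) (FA1_z v)) hzc).comp v hdc
  refine (e1.sub e2).congr_deriv ?_
  have hE := FA1_expz v h0 hs
  have hEc : Complex.exp ((starRingEnd ℂ) (FA1_z v)) / (starRingEnd ℂ) (FA1_z v) =
      ((Real.exp 1 * gv v : ℝ) : ℂ) := by
    have h5 := congrArg (starRingEnd ℂ) hE
    rw [map_div₀, ← Complex.exp_conj, Complex.conj_ofReal] at h5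
    exact h5
  have key : ∀ w : ℂ, w ≠ 0 → Complex.exp w / w = ((Real.exp 1 * gv v : ℝ) : ℂ) →
      (Complex.exp ((n : ℂ) * w) / w ^ (n + 1) - ((n : ℂ) ^ n / (n.factorial : ℂ)) / w) * w =
      (((Real.exp 1 * gv v) ^ n - (n : ℝ) ^ n / (n.factorial : ℝ) : ℝ) : ℂ) := by
    intro w hw h
    have h3 : ((Real.exp 1 * gv v : ℝ) : ℂ) ^ n = Complex.exp ((n : ℂ) * w) / w ^ n := by
      rw [← h, div_pow, ← Complex.exp_nat_mul]
    rw [Complex.ofReal_sub, Complex.ofReal_pow, h3]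
    have h4 : Complex.exp ((n : ℂ) * w) / w ^ (n + 1) * w = Complex.exp ((n : ℂ) * w) / w ^ n := by
      rw [pow_succ]; field_simp
    rw [sub_mul, h4, div_mul_cancel₀ _ hw]
    push_cast
    ring
  have k1 := key _ hz hE
  have k2 := key _ hzc hEc
  rw [map_mul, map_add, Complex.conj_ofReal, Complex.conj_I]
  linear_combination (((1 / v - Real.cos v / Real.sin v : ℝ) : ℂ) + Complex.I) * k1 -
    (((1 / v - Real.cos v / Real.sin v : ℝ) : ℂ) - Complex.I) * k2

theorem FA1_z_tendsto : Filter.Tendsto FA1_z (nhdsWithin 0 (Set.Ioi 0)) (nhds 1) := by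
  have h1 : ContinuousAt (fun v : ℝ => ((Real.cos v / Real.sinc v : ℝ) : ℂ) +
      (v : ℂ) * Complex.I) 0 := by
    apply ContinuousAt.add
    · apply Complex.continuous_ofReal.continuousAt.comp
      apply ContinuousAt.div Real.continuous_cos.continuousAt Real.continuous_sinc.continuousAt
      rw [Real.sinc_zero]; exact one_ne_zero
    · exact (Complex.continuous_ofReal.mul continuous_const).continuousAt
  have h2 : Filter.Tendsto (fun v : ℝ => ((Real.cos v / Real.sinc v : ℝ) : ℂ) +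
      (v : ℂ) * Complex.I) (nhdsWithin 0 (Set.Ioi 0)) (nhds 1) := by
    have h3 := h1.tendsto.mono_left (nhdsWithin_le_nhds (s := Set.Ioi (0 : ℝ)))
    simpa using h3
  refine h2.congr' ?_
  filter_upwards [self_mem_nhdsWithin] with v hv
  have hv' : v ≠ 0 := (Set.mem_Ioi.1 hv).ne'
  unfold FA1_z
  congr 2
  rw [Real.sinc_of_ne_zero hv', div_div_eq_mul_div, mul_comm v]

theorem FA1_D_zero (K : ℂ → ℂ) (hK : ContinuousAt K 1) :
    Filter.Tendsto (fun v : ℝ => K (FA1_z v) - K ((starRingEnd ℂ) (FA1_z v)))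
      (nhdsWithin 0 (Set.Ioi 0)) (nhds 0) := by
  have h1 : Filter.Tendsto (fun v : ℝ => K (FA1_z v)) (nhdsWithin 0 (Set.Ioi 0)) (nhds (K 1)) :=
    hK.tendsto.comp FA1_z_tendsto
  have h2 : Filter.Tendsto (fun v : ℝ => K ((starRingEnd ℂ) (FA1_z v)))
      (nhdsWithin 0 (Set.Ioi 0)) (nhds (K 1)) := by
    refine hK.tendsto.comp ?_
    have h3 := (Complex.continuous_conj.tendsto 1).comp FA1_z_tendsto
    rw [map_one] at h3
    exact h3
  simpa using h1.sub h2

theorem FA1_L_tendsto : Filter.Tendsto (fun v : ℝ => -(v * Real.cos v / Real.sin v))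
    (nhdsWithin Real.pi (Set.Iio Real.pi)) Filter.atTop := by
  have h1 : Filter.Tendsto (fun v : ℝ => -(v * Real.cos v))
      (nhdsWithin Real.pi (Set.Iio Real.pi)) (nhds Real.pi) := by
    have h2 : Continuous (fun v : ℝ => -(v * Real.cos v)) :=
      (continuous_id.mul Real.continuous_cos).neg
    have h3 := (h2.tendsto Real.pi).mono_left (nhdsWithin_le_nhds (s := Set.Iio Real.pi))
    simpa using h3
  have h4 : Filter.Tendsto (fun v : ℝ => (Real.sin v)⁻¹)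
      (nhdsWithin Real.pi (Set.Iio Real.pi)) Filter.atTop := by
    apply Filter.Tendsto.comp tendsto_inv_nhdsGT_zero
    apply tendsto_nhdsWithin_of_tendsto_nhds_of_eventually_within
    · have h3 := (Real.continuous_sin.tendsto Real.pi).mono_left
        (nhdsWithin_le_nhds (s := Set.Iio Real.pi))
      rw [Real.sin_pi] at h3
      exact h3
    · have hpos : ∀ᶠ v : ℝ in nhdsWithin Real.pi (Set.Iio Real.pi), 0 < v :=
        Filter.Eventually.filter_mono nhdsWithin_le_nhds (lt_mem_nhds Real.pi_pos)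
      filter_upwards [hpos, self_mem_nhdsWithin] with v h5 h6
      exact Real.sin_pos_of_pos_of_lt_pi h5 h6
  have h7 := h1.pos_mul_atTop Real.pi_pos h4
  refine h7.congr (fun v => ?_)
  rw [← neg_div, div_eq_mul_inv]

theorem FA1_D_pi (n : ℕ) (K : ℂ → ℂ) (hK : ∀ z : ℂ, z ≠ 0 →
    HasDerivAt K (Complex.exp ((n : ℂ) * z) / z ^ (n + 1) -
      ((n : ℂ) ^ n / (n.factorial : ℂ)) / z) z) :
    Filter.Tendsto (fun v : ℝ => K (FA1_z v) - K ((starRingEnd ℂ) (FA1_z v)))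
      (nhdsWithin Real.pi (Set.Iio Real.pi)) (nhds 0) := by
  have hΛ := FA1_L_tendsto
  have hC : (0 : ℝ) ≤ (n : ℝ) ^ n / (n.factorial : ℝ) := by positivity
  have hb : Filter.Tendsto (fun v : ℝ => (1 + (n : ℝ) ^ n / (n.factorial : ℝ)) * (2 * Real.pi) *
      (-(v * Real.cos v / Real.sin v))⁻¹) (nhdsWithin Real.pi (Set.Iio Real.pi)) (nhds 0) := by
    have := (tendsto_inv_atTop_zero.comp hΛ).const_mul
      ((1 + (n : ℝ) ^ n / (n.factorial : ℝ)) * (2 * Real.pi))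
    rw [mul_zero] at this
    exact this
  refine squeeze_zero_norm' ?_ hb
  have hpos : ∀ᶠ v : ℝ in nhdsWithin Real.pi (Set.Iio Real.pi), 0 < v :=
    Filter.Eventually.filter_mono nhdsWithin_le_nhds (lt_mem_nhds Real.pi_pos)
  filter_upwards [hΛ.eventually_ge_atTop 1, hpos, self_mem_nhdsWithin] with v h1 h2 h3
  have h3' : v < Real.pi := h3
  set L := -(v * Real.cos v / Real.sin v) with hL
  have hconv : Convex ℝ {w : ℂ | w.re ≤ -L} := convex_halfSpace_re_le _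
  have hLpos : 0 < L := by linarith
  have hbd : ∀ w ∈ {w : ℂ | w.re ≤ -L}, ‖Complex.exp ((n : ℂ) * w) / w ^ (n + 1) -
      ((n : ℂ) ^ n / (n.factorial : ℂ)) / w‖ ≤ (1 + (n : ℝ) ^ n / (n.factorial : ℝ)) / L := by
    intro w hw
    have hw' : w.re ≤ -L := hw
    have hwn : L ≤ ‖w‖ := by
      have := Complex.abs_re_le_norm w
      have h4 : -w.re ≤ |w.re| := neg_le_abs _
      linarith
    have hwn1 : 1 ≤ ‖w‖ := by linarith
    have e1 : ‖Complex.exp ((n : ℂ) * w)‖ ≤ 1 := by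
      rw [Complex.norm_exp]
      apply Real.exp_le_one_iff.2
      have : ((n : ℂ) * w).re = (n : ℝ) * w.re := by simp
      rw [this]
      have hn : (0 : ℝ) ≤ (n : ℝ) := Nat.cast_nonneg n
      have : w.re ≤ 0 := by linarith
      exact mul_nonpos_of_nonneg_of_nonpos hn this
    have e2 : ‖w‖ ≤ ‖w ^ (n + 1)‖ := by
      rw [norm_pow]
      exact le_self_pow₀ hwn1 (Nat.succ_ne_zero n)
    have e3 : ‖Complex.exp ((n : ℂ) * w) / w ^ (n + 1)‖ ≤ 1 / L := by
      rw [norm_div]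
      exact div_le_div₀ zero_le_one e1 hLpos (hwn.trans e2)
    have e4 : ‖((n : ℂ) ^ n / (n.factorial : ℂ)) / w‖ ≤
        ((n : ℝ) ^ n / (n.factorial : ℝ)) / L := by
      rw [norm_div, norm_div, norm_pow, Complex.norm_natCast, Complex.norm_natCast]
      exact div_le_div_of_nonneg_left hC hLpos hwn
    calc _ ≤ ‖Complex.exp ((n : ℂ) * w) / w ^ (n + 1)‖ +
        ‖((n : ℂ) ^ n / (n.factorial : ℂ)) / w‖ := norm_sub_le _ _
      _ ≤ 1 / L + ((n : ℝ) ^ n / (n.factorial : ℝ)) / L := add_le_add e3 e4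
      _ = _ := by ring
  have hder : ∀ w ∈ {w : ℂ | w.re ≤ -L}, HasDerivWithinAt K
      (Complex.exp ((n : ℂ) * w) / w ^ (n + 1) - ((n : ℂ) ^ n / (n.factorial : ℂ)) / w)
      {w : ℂ | w.re ≤ -L} w := by
    intro w hw
    have hw' : w.re ≤ -L := hw
    have hne : w ≠ 0 := by
      rintro rfl
      rw [Complex.zero_re] at hw'
      linarith
    exact (hK w hne).hasDerivWithinAt
  have hz1 : FA1_z v ∈ {w : ℂ | w.re ≤ -L} := by
    change (FA1_z v).re ≤ -L
    unfold FA1_z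
    rw [Complex.add_re, Complex.ofReal_re, Complex.re_ofReal_mul, Complex.I_re, hL]
    linarith
  have hz2 : (starRingEnd ℂ) (FA1_z v) ∈ {w : ℂ | w.re ≤ -L} := by
    change ((starRingEnd ℂ) (FA1_z v)).re ≤ -L
    rw [Complex.conj_re]
    exact hz1
  have hmv := hconv.norm_image_sub_le_of_norm_hasDerivWithin_le hder hbd hz2 hz1
  refine hmv.trans ?_
  have hdist : ‖FA1_z v - (starRingEnd ℂ) (FA1_z v)‖ ≤ 2 * Real.pi := by
    rw [FA1_z_conj]
    unfold FA1_z
    have : ((v * Real.cos v / Real.sin v : ℝ) : ℂ) + (v : ℂ) * Complex.I -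
      (((v * Real.cos v / Real.sin v : ℝ) : ℂ) - (v : ℂ) * Complex.I) =
      ((2 * v : ℝ) : ℂ) * Complex.I := by push_cast; ring
    rw [this, norm_mul, Complex.norm_I, mul_one, Complex.norm_real, Real.norm_eq_abs,
      abs_of_pos (by positivity)]
    linarith
  calc (1 + (n : ℝ) ^ n / (n.factorial : ℝ)) / L * ‖FA1_z v - (starRingEnd ℂ) (FA1_z v)‖
      ≤ (1 + (n : ℝ) ^ n / (n.factorial : ℝ)) / L * (2 * Real.pi) :=
        mul_le_mul_of_nonneg_left hdist (by positivity)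
    _ = (1 + (n : ℝ) ^ n / (n.factorial : ℝ)) * (2 * Real.pi) * L⁻¹ := by
        rw [div_eq_mul_inv]; ring

theorem Gn_integral (n : ℕ) :
    Gn n = (1 / Real.pi) * ∫ v in (0 : ℝ)..Real.pi, gv v ^ n := by
  obtain ⟨K, hK⟩ := FA1_K n
  have hint : IntervalIntegrable (fun v => gv v ^ n) MeasureTheory.volume 0 Real.pi := by
    have h1 : IntervalIntegrable (fun _ : ℝ => (1 : ℝ)) MeasureTheory.volume 0 Real.pi :=
      intervalIntegrable_const
    refine h1.mono_fun' (gv_measurable.pow_const n).aestronglyMeasurable ?_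
    rw [Set.uIoc_of_le Real.pi_pos.le]
    refine (MeasureTheory.ae_restrict_mem measurableSet_Ioc).mono (fun v hv => ?_)
    change ‖gv v ^ n‖ ≤ 1
    rw [Real.norm_eq_abs, abs_of_nonneg (pow_nonneg (gv_nonneg v hv.1.le hv.2) n)]
    exact pow_le_one₀ (gv_nonneg v hv.1.le hv.2) (gv_le_one v hv.1.le hv.2)
  have hint2 : IntervalIntegrable (fun v => (Real.exp 1 * gv v) ^ n -
      (n : ℝ) ^ n / (n.factorial : ℝ)) MeasureTheory.volume 0 Real.pi := by
    have h1 : IntervalIntegrable (fun v => (Real.exp 1) ^ n * gv v ^ n -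
      (n : ℝ) ^ n / (n.factorial : ℝ)) MeasureTheory.volume 0 Real.pi :=
      (hint.const_mul _).sub intervalIntegrable_const
    simpa only [mul_pow] using h1
  have hint3 : IntervalIntegrable (fun v => 2 * Complex.I *
      (((Real.exp 1 * gv v) ^ n - (n : ℝ) ^ n / (n.factorial : ℝ) : ℝ) : ℂ))
      MeasureTheory.volume 0 Real.pi := by
    have h1 : IntervalIntegrable (fun v => (((Real.exp 1 * gv v) ^ n -
        (n : ℝ) ^ n / (n.factorial : ℝ) : ℝ) : ℂ)) MeasureTheory.volume 0 Real.pi :=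
      ⟨MeasureTheory.Integrable.ofReal hint2.1, MeasureTheory.Integrable.ofReal hint2.2⟩
    exact h1.const_mul _
  have hFTC := intervalIntegral.integral_eq_sub_of_hasDerivAt_of_tendsto Real.pi_pos
    (f := fun v : ℝ => K (FA1_z v) - K ((starRingEnd ℂ) (FA1_z v)))
    (f' := fun v => 2 * Complex.I *
      (((Real.exp 1 * gv v) ^ n - (n : ℝ) ^ n / (n.factorial : ℝ) : ℝ) : ℂ))
    (fun v hv => FA1_D_deriv n K hK v hv.1 hv.2) hint3
    (FA1_D_zero K (hK 1 one_ne_zero).continuousAt) (FA1_D_pi n K hK)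
  rw [sub_zero, intervalIntegral.integral_const_mul, intervalIntegral.integral_ofReal] at hFTC
  have h2I : (2 * Complex.I : ℂ) ≠ 0 := mul_ne_zero two_ne_zero Complex.I_ne_zero
  have h0 := (mul_eq_zero.1 hFTC).resolve_left h2I
  have h1 : ∫ v in (0 : ℝ)..Real.pi, ((Real.exp 1 * gv v) ^ n -
      (n : ℝ) ^ n / (n.factorial : ℝ)) = 0 := by exact_mod_cast h0
  have h2 : ∫ v in (0 : ℝ)..Real.pi, ((Real.exp 1 * gv v) ^ n -
      (n : ℝ) ^ n / (n.factorial : ℝ)) = (Real.exp 1) ^ n * (∫ v in (0 : ℝ)..Real.pi, gv v ^ n) -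
      Real.pi * ((n : ℝ) ^ n / (n.factorial : ℝ)) := by
    simp only [mul_pow]
    rw [intervalIntegral.integral_sub (hint.const_mul _) intervalIntegrable_const,
      intervalIntegral.integral_const_mul, intervalIntegral.integral_const]
    simp
  rw [h2] at h1
  have hpi := Real.pi_pos.ne'
  have he : Real.exp (n : ℝ) = Real.exp 1 ^ n := by
    rw [← Real.exp_nat_mul, mul_one]
  have hen : Real.exp 1 ^ n ≠ 0 := pow_ne_zero _ (Real.exp_pos 1).ne'
  have h3 : ∫ v in (0 : ℝ)..Real.pi, gv v ^ n =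
      Real.pi * ((n : ℝ) ^ n / (n.factorial : ℝ)) / Real.exp 1 ^ n := by
    field_simp
    field_simp at h1
    linarith
  rw [h3]
  unfold Gn
  rw [Real.exp_neg, he]
  field_simp

end MP_d1b55a
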