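import Pool.Agent.Lib.MP_d1b55a_co.FA1

/-!
FA2. Euler transform: for `|X| < 1` and bounded `f`,
`∑ f_n X^n = ∑_{i<K} (dlt^[i] f) 0 X^i/(1-X)^{i+1} + (X/(1-X))^K ∑ (dlt^[K] f)_n X^n`;
put `X = gv v * q` and integrate over `v` with FA1.
-/

open Finset

namespace MP_d1b55a

/-- exchange of sum and integral -/
theorem FA2_exch (a : ℕ → ℂ) (ha : Summable fun n => ‖a n‖) (F : ℝ → ℂ)
    (hF : ∀ v ∈ Set.Ioc (0 : ℝ) Real.pi, HasSum (fun n => a n * ((gv v : ℝ) : ℂ) ^ n) (F v)) :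
    HasSum (fun n => ((Gn n : ℝ) : ℂ) * a n)
      ((1 / Real.pi : ℂ) * ∫ v in (0 : ℝ)..Real.pi, F v) := by
  have hI : Set.uIoc (0 : ℝ) Real.pi = Set.Ioc 0 Real.pi := Set.uIoc_of_le Real.pi_pos.le
  have h := intervalIntegral.hasSum_integral_of_dominated_convergence
    (μ := MeasureTheory.volume) (a := (0 : ℝ)) (b := Real.pi)
    (F := fun (n : ℕ) (v : ℝ) => a n * ((gv v : ℝ) : ℂ) ^ n) (f := F)
    (fun (n : ℕ) (_ : ℝ) => ‖a n‖)
    (fun n => (((Complex.measurable_ofReal.comp gv_measurable).pow_const n).const_mul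
      (a n)).aestronglyMeasurable)
    (fun n => Filter.Eventually.of_forall (fun v hv => by
      rw [hI] at hv
      rw [norm_mul, norm_pow, Complex.norm_real, Real.norm_eq_abs,
        abs_of_nonneg (gv_nonneg v hv.1.le hv.2)]
      exact mul_le_of_le_one_right (norm_nonneg _)
        (pow_le_one₀ (gv_nonneg v hv.1.le hv.2) (gv_le_one v hv.1.le hv.2))))
    (Filter.Eventually.of_forall (fun v _ => ha))
    intervalIntegrable_const
    (Filter.Eventually.of_forall (fun v hv => hF v (by rwa [hI] at hv)))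
  have h2 := h.mul_left (1 / Real.pi : ℂ)
  refine h2.congr_fun (fun n => ?_)
  rw [Gn_integral n, intervalIntegral.integral_const_mul]
  have h3 : ∫ v in (0 : ℝ)..Real.pi, ((gv v : ℝ) : ℂ) ^ n =
      ((∫ v in (0 : ℝ)..Real.pi, gv v ^ n : ℝ) : ℂ) := by
    rw [← intervalIntegral.integral_ofReal]
    simp only [Complex.ofReal_pow]
  rw [h3]
  push_cast
  ring

theorem FA2_norm_gvq (q : ℂ) (v : ℝ) (hv : v ∈ Set.Ioc (0 : ℝ) Real.pi) :
    ‖((gv v : ℝ) : ℂ) * q‖ ≤ ‖q‖ := by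
  rw [norm_mul, Complex.norm_real, Real.norm_eq_abs, abs_of_nonneg (gv_nonneg v hv.1.le hv.2)]
  exact mul_le_of_le_one_left (norm_nonneg _) (gv_le_one v hv.1.le hv.2)

theorem FA2_den_pos (q : ℂ) (_hq : ‖q‖ < 1) (v : ℝ) (hv : v ∈ Set.Ioc (0 : ℝ) Real.pi) :
    1 - ‖q‖ ≤ ‖1 - ((gv v : ℝ) : ℂ) * q‖ := by
  have h := norm_sub_norm_le (1 : ℂ) (((gv v : ℝ) : ℂ) * q)
  rw [norm_one] at h
  have := FA2_norm_gvq q v hv
  linarith

theorem FA2_integrable (m : ℕ) (q : ℂ) (hq : ‖q‖ < 1) :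
    IntervalIntegrable (fun v => (‖1 - ((gv v : ℝ) : ℂ) * q‖⁻¹) ^ m)
      MeasureTheory.volume 0 Real.pi := by
  have h1 : IntervalIntegrable (fun _ : ℝ => ((1 - ‖q‖)⁻¹) ^ m) MeasureTheory.volume 0 Real.pi :=
    intervalIntegrable_const
  have hm : Measurable (fun v => (‖1 - ((gv v : ℝ) : ℂ) * q‖⁻¹) ^ m) :=
    (((Complex.measurable_ofReal.comp gv_measurable).mul_const q).const_sub 1).norm.inv.pow_const m
  refine h1.mono_fun' hm.aestronglyMeasurable ?_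
  rw [Set.uIoc_of_le Real.pi_pos.le]
  refine (MeasureTheory.ae_restrict_mem measurableSet_Ioc).mono (fun v hv => ?_)
  change ‖(‖1 - ((gv v : ℝ) : ℂ) * q‖⁻¹) ^ m‖ ≤ ((1 - ‖q‖)⁻¹) ^ m
  rw [Real.norm_eq_abs, abs_of_nonneg (by positivity)]
  apply pow_le_pow_left₀ (by positivity)
  exact inv_anti₀ (by linarith) (FA2_den_pos q hq v hv)

/-- the bound of the integral -/
theorem FA2_bound (m : ℕ) (q : ℂ) (hq : ‖q‖ < 1) (F : ℝ → ℂ) (B : ℝ)
    (hF : ∀ v ∈ Set.Ioc (0 : ℝ) Real.pi, ‖F v‖ ≤ B * (‖1 - ((gv v : ℝ) : ℂ) * q‖⁻¹) ^ m) :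
    ‖(1 / Real.pi : ℂ) * ∫ v in (0 : ℝ)..Real.pi, F v‖ ≤ B * Wm m q := by
  have h1 := intervalIntegral.norm_integral_le_of_norm_le Real.pi_pos.le
    (f := F) (g := fun v => B * (‖1 - ((gv v : ℝ) : ℂ) * q‖⁻¹) ^ m)
    (μ := MeasureTheory.volume)
    (Filter.Eventually.of_forall (fun v hv => hF v hv)) ((FA2_integrable m q hq).const_mul B)
  rw [intervalIntegral.integral_const_mul] at h1
  rw [norm_mul, norm_div, norm_one, Complex.norm_real, Real.norm_eq_abs,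
    abs_of_pos Real.pi_pos]
  unfold Wm
  calc 1 / Real.pi * ‖∫ v in (0 : ℝ)..Real.pi, F v‖
      ≤ 1 / Real.pi * (B * ∫ v in (0 : ℝ)..Real.pi, (‖1 - ((gv v : ℝ) : ℂ) * q‖⁻¹) ^ m) :=
        mul_le_mul_of_nonneg_left h1 (by have := Real.pi_pos; positivity)
    _ = _ := by ring

theorem Wm_nonneg (m : ℕ) (q : ℂ) : 0 ≤ Wm m q := by
  unfold Wm
  have hpi := Real.pi_pos
  apply mul_nonneg (by positivity)
  exact intervalIntegral.integral_nonneg hpi.le (fun v _ => by positivity)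

theorem FA2_choose (i : ℕ) (X : ℂ) (hX : ‖X‖ < 1) :
    HasSum (fun n : ℕ => (n.choose i : ℂ) * X ^ n) (X ^ i / (1 - X) ^ (i + 1)) := by
  have h := (hasSum_choose_mul_geometric_of_norm_lt_one i hX).mul_left (X ^ i)
  have h2 : HasSum (fun n : ℕ => ((n + i).choose i : ℂ) * X ^ (n + i))
      (X ^ i / (1 - X) ^ (i + 1)) := by
    rw [mul_one_div] at h
    refine h.congr_fun (fun n => ?_)
    rw [pow_add]; ring
  have h3 := (hasSum_nat_add_iff (f := fun n : ℕ => (n.choose i : ℂ) * X ^ n) i).1 h2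
  have h4 : ∑ j ∈ Finset.range i, (j.choose i : ℂ) * X ^ j = 0 := by
    apply Finset.sum_eq_zero
    intro j hj
    rw [Finset.mem_range] at hj
    rw [Nat.choose_eq_zero_of_lt hj]; simp
  rw [h4, add_zero] at h3
  exact h3

theorem FA2_choose_summable (i : ℕ) (q : ℂ) (hq : ‖q‖ < 1) :
    Summable (fun n : ℕ => ‖(n.choose i : ℂ) * q ^ n‖) := by
  have hq' : ‖((‖q‖ : ℝ) : ℂ)‖ < 1 := by
    rw [Complex.norm_real, norm_norm]; exact hq
  have h := (FA2_choose i ((‖q‖ : ℝ) : ℂ) hq').summable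
  have h2 : Summable (fun n : ℕ => ((((n.choose i : ℕ) : ℝ) * ‖q‖ ^ n : ℝ) : ℂ)) := by
    refine h.congr (fun n => ?_)
    push_cast; rfl
  have h3 := Complex.summable_ofReal.1 h2
  refine h3.congr (fun n => ?_)
  rw [norm_mul, norm_pow, Complex.norm_natCast]

/-- differences of a bounded sequence are bounded -/
theorem FA2_dlt_bound (f : ℕ → ℂ) (C : ℝ) (hf : ∀ n, ‖f n‖ ≤ C) (K : ℕ) :
    ∀ n, ‖dlt^[K] f n‖ ≤ 2 ^ K * C := by
  induction K with
  | zero => intro n; simpa using hf n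
  | succ K ih =>
    intro n
    rw [Function.iterate_succ_apply']
    unfold dlt
    calc ‖dlt^[K] f (n + 1) - dlt^[K] f n‖ ≤ ‖dlt^[K] f (n + 1)‖ + ‖dlt^[K] f n‖ :=
          norm_sub_le _ _
      _ ≤ 2 ^ K * C + 2 ^ K * C := add_le_add (ih (n + 1)) (ih n)
      _ = 2 ^ (K + 1) * C := by ring

theorem FA2_summable (g : ℕ → ℂ) (C : ℝ) (hg : ∀ n, ‖g n‖ ≤ C) (X : ℂ) (hX : ‖X‖ < 1) :
    Summable (fun n => ‖g n * X ^ n‖) := by
  refine Summable.of_nonneg_of_le (fun n => norm_nonneg _) (fun n => ?_)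
    ((summable_geometric_of_lt_one (norm_nonneg X) hX).mul_left C)
  rw [norm_mul, norm_pow]
  exact mul_le_mul_of_nonneg_right (hg n) (by positivity)

/-- one step of the Euler transform -/
theorem FA2_step (g : ℕ → ℂ) (C : ℝ) (hg : ∀ n, ‖g n‖ ≤ C) (X : ℂ) (hX : ‖X‖ < 1) :
    (1 - X) * (∑' n, g n * X ^ n) = g 0 + X * ∑' n, dlt g n * X ^ n := by
  have h1 := (FA2_summable g C hg X hX).of_norm
  have h2 := (FA2_summable (fun n => g (n + 1)) C (fun n => hg (n + 1)) X hX).of_norm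
  have h3 : ∑' n, dlt g n * X ^ n = (∑' n, g (n + 1) * X ^ n) - ∑' n, g n * X ^ n := by
    rw [← h2.tsum_sub h1]
    refine tsum_congr (fun n => ?_)
    unfold dlt; ring
  have h4 : ∑' n, g n * X ^ n = g 0 + X * ∑' n, g (n + 1) * X ^ n := by
    rw [h1.tsum_eq_zero_add, ← tsum_mul_left]
    simp only [pow_zero, mul_one]
    congr 1
    refine tsum_congr (fun n => ?_)
    rw [pow_succ]; ring
  rw [h3]
  linear_combination h4

/-- the Euler transform with remainder -/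
theorem FA2_euler (K : ℕ) (f : ℕ → ℂ) (C : ℝ) (hf : ∀ n, ‖f n‖ ≤ C) (X : ℂ) (hX : ‖X‖ < 1) :
    ∑' n, f n * X ^ n = ∑ i ∈ Finset.range K, dlt^[i] f 0 * (X ^ i / (1 - X) ^ (i + 1)) +
      (X / (1 - X)) ^ K * ∑' n, dlt^[K] f n * X ^ n := by
  have h1X : 1 - X ≠ 0 := by
    intro h
    have : X = 1 := by linear_combination -h
    rw [this, norm_one] at hX
    exact lt_irrefl _ hX
  induction K with
  | zero => simp
  | succ K ih =>
    rw [ih, Finset.sum_range_succ]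
    have hs := FA2_step (dlt^[K] f) (2 ^ K * C) (FA2_dlt_bound f C hf K) X hX
    rw [Function.iterate_succ_apply']
    have h2 : ∑' n, dlt^[K] f n * X ^ n =
        (dlt^[K] f 0 + X * ∑' n, dlt (dlt^[K] f) n * X ^ n) / (1 - X) := by
      rw [← hs]; field_simp
    rw [h2, div_pow, div_pow, pow_succ, pow_succ]
    field_simp
    ring

theorem ug_norm_le (i : ℕ) (q : ℂ) (hq : ‖q‖ < 1) : ‖ug i q‖ ≤ Wm (i + 1) q := by
  have h := FA2_exch (fun n => (n.choose i : ℂ) * q ^ n) (FA2_choose_summable i q hq)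
    (fun v => (((gv v : ℝ) : ℂ) * q) ^ i / (1 - ((gv v : ℝ) : ℂ) * q) ^ (i + 1))
    (fun v hv => by
      have h1 := FA2_choose i (((gv v : ℝ) : ℂ) * q) ((FA2_norm_gvq q v hv).trans_lt hq)
      refine h1.congr_fun (fun n => ?_)
      rw [mul_pow]; ring)
  have h2 : ug i q = (1 / Real.pi : ℂ) * ∫ v in (0 : ℝ)..Real.pi,
      (((gv v : ℝ) : ℂ) * q) ^ i / (1 - ((gv v : ℝ) : ℂ) * q) ^ (i + 1) := by
    rw [← h.tsum_eq]
    unfold ug
    refine tsum_congr (fun n => ?_)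
    ring
  rw [h2, ← one_mul (Wm (i + 1) q)]
  refine FA2_bound (i + 1) q hq _ 1 (fun v hv => ?_)
  rw [one_mul, norm_div, norm_pow, norm_pow, inv_pow, div_eq_mul_inv]
  have h3 : ‖((gv v : ℝ) : ℂ) * q‖ ^ i ≤ 1 :=
    pow_le_one₀ (norm_nonneg _) ((FA2_norm_gvq q v hv).trans hq.le)
  exact mul_le_of_le_one_left (by positivity) h3

theorem euler_bound (K : ℕ) (q : ℂ) (hq : ‖q‖ < 1) (f : ℕ → ℂ) (C : ℝ) (hf : ∀ n, ‖f n‖ ≤ C)
    (hs : Summable fun n => ‖dlt^[K] f n‖) :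
    ‖(∑' n : ℕ, ((Gn n : ℝ) : ℂ) * f n * q ^ n) -
      ∑ i ∈ Finset.range K, dlt^[i] f 0 * ug i q‖ ≤ (∑' n : ℕ, ‖dlt^[K] f n‖) * Wm K q := by
  -- the three exchanges
  have hA := FA2_exch (fun n => f n * q ^ n) (FA2_summable f C hf q hq)
    (fun v => ∑' n, f n * (((gv v : ℝ) : ℂ) * q) ^ n)
    (fun v hv => by
      have h1 := (FA2_summable f C hf (((gv v : ℝ) : ℂ) * q)
        ((FA2_norm_gvq q v hv).trans_lt hq)).of_norm.hasSum
      refine h1.congr_fun (fun n => ?_)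
      rw [mul_pow]; ring)
  have hBi : ∀ i, HasSum (fun n : ℕ => ((Gn n : ℝ) : ℂ) * ((n.choose i : ℂ) * q ^ n)) (ug i q) := by
    intro i
    have h := FA2_exch (fun n => (n.choose i : ℂ) * q ^ n) (FA2_choose_summable i q hq)
      (fun v => (((gv v : ℝ) : ℂ) * q) ^ i / (1 - ((gv v : ℝ) : ℂ) * q) ^ (i + 1))
      (fun v hv => by
        have h1 := FA2_choose i (((gv v : ℝ) : ℂ) * q) ((FA2_norm_gvq q v hv).trans_lt hq)
        refine h1.congr_fun (fun n => ?_)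
        rw [mul_pow]; ring)
    have h2 := h.summable.hasSum
    have h3 : ug i q = ∑' n : ℕ, ((Gn n : ℝ) : ℂ) * ((n.choose i : ℂ) * q ^ n) := by
      unfold ug
      refine tsum_congr (fun n => ?_)
      ring
    rw [h3]
    exact h2
  have hB : HasSum (fun n : ℕ => ∑ i ∈ Finset.range K, dlt^[i] f 0 *
      (((Gn n : ℝ) : ℂ) * ((n.choose i : ℂ) * q ^ n)))
      (∑ i ∈ Finset.range K, dlt^[i] f 0 * ug i q) :=
    hasSum_sum (fun i _ => (hBi i).mul_left _)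
  have hD : Summable (fun n : ℕ => ‖f n * q ^ n -
      ∑ i ∈ Finset.range K, dlt^[i] f 0 * ((n.choose i : ℂ) * q ^ n)‖) := by
    have h1 := FA2_summable f C hf q hq
    have h2 : Summable (fun n : ℕ => ∑ i ∈ Finset.range K,
        ‖dlt^[i] f 0‖ * ‖(n.choose i : ℂ) * q ^ n‖) :=
      summable_sum (fun i _ => (FA2_choose_summable i q hq).mul_left _)
    refine Summable.of_nonneg_of_le (fun n => norm_nonneg _) (fun n => ?_) (h1.add h2)
    refine (norm_sub_le _ _).trans (add_le_add le_rfl ?_)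
    refine (norm_sum_le _ _).trans (Finset.sum_le_sum (fun i _ => ?_))
    rw [norm_mul]
  have hC := FA2_exch _ hD
    (fun v => ((((gv v : ℝ) : ℂ) * q) / (1 - ((gv v : ℝ) : ℂ) * q)) ^ K *
      ∑' n, dlt^[K] f n * (((gv v : ℝ) : ℂ) * q) ^ n)
    (fun v hv => by
      have hX := (FA2_norm_gvq q v hv).trans_lt hq
      have h1 := (FA2_summable f C hf (((gv v : ℝ) : ℂ) * q) hX).of_norm.hasSum
      have h2 : HasSum (fun n : ℕ => ∑ i ∈ Finset.range K, dlt^[i] f 0 *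
          ((n.choose i : ℂ) * (((gv v : ℝ) : ℂ) * q) ^ n))
          (∑ i ∈ Finset.range K, dlt^[i] f 0 *
            ((((gv v : ℝ) : ℂ) * q) ^ i / (1 - ((gv v : ℝ) : ℂ) * q) ^ (i + 1))) :=
        hasSum_sum (fun i _ => (FA2_choose i _ hX).mul_left _)
      have h3 := h1.sub h2
      rw [FA2_euler K f C hf _ hX, add_sub_cancel_left] at h3
      refine h3.congr_fun (fun n => ?_)
      rw [sub_mul, Finset.sum_mul]
      congr 1
      · rw [mul_pow]; ring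
      · refine Finset.sum_congr rfl (fun i _ => ?_)
        rw [mul_pow]; ring)
  have hE : (∑' n : ℕ, ((Gn n : ℝ) : ℂ) * f n * q ^ n) -
      ∑ i ∈ Finset.range K, dlt^[i] f 0 * ug i q =
      (1 / Real.pi : ℂ) * ∫ v in (0 : ℝ)..Real.pi,
        ((((gv v : ℝ) : ℂ) * q) / (1 - ((gv v : ℝ) : ℂ) * q)) ^ K *
        ∑' n, dlt^[K] f n * (((gv v : ℝ) : ℂ) * q) ^ n := by
    rw [← hC.tsum_eq, ← hB.tsum_eq]
    have hA' : Summable (fun n : ℕ => ((Gn n : ℝ) : ℂ) * f n * q ^ n) := by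
      refine hA.summable.congr (fun n => ?_)
      ring
    rw [← hA'.tsum_sub hB.summable]
    refine tsum_congr (fun n => ?_)
    rw [mul_sub, Finset.mul_sum]
    congr 1
    · ring
    · refine Finset.sum_congr rfl (fun i _ => ?_)
      ring
  rw [hE]
  refine FA2_bound K q hq _ _ (fun v hv => ?_)
  have hX := (FA2_norm_gvq q v hv).trans hq.le
  rw [norm_mul, norm_pow, norm_div, div_pow, mul_comm, inv_pow]
  have h1 : ‖((gv v : ℝ) : ℂ) * q‖ ^ K / ‖1 - ((gv v : ℝ) : ℂ) * q‖ ^ K ≤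
      (‖1 - ((gv v : ℝ) : ℂ) * q‖ ^ K)⁻¹ := by
    rw [div_eq_mul_inv]
    exact mul_le_of_le_one_left (by positivity) (pow_le_one₀ (norm_nonneg _) hX)
  have h2 : ‖∑' n, dlt^[K] f n * (((gv v : ℝ) : ℂ) * q) ^ n‖ ≤ ∑' n : ℕ, ‖dlt^[K] f n‖ := by
    refine tsum_of_norm_bounded hs.hasSum (fun n => ?_)
    rw [norm_mul, norm_pow]
    exact mul_le_of_le_one_right (norm_nonneg _) (pow_le_one₀ (norm_nonneg _) hX)
  exact mul_le_mul h2 h1 (by positivity) (tsum_nonneg (fun n => norm_nonneg _))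

end MP_d1b55a
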