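import Pool.Agent.Lib.MP_d1b55a_co.FA2

/-!
FA3. Bounds of `Wm`. PROOF. q = r e^{iφ}, X = x q, x = gv v ∈ [0,1]: 1/(1-X) has real part
(1 - x r cos φ)/|1-X|^2 and imaginary part x r sin φ/|1-X|^2, so Re + cot φ * Im = 1/|1-X|^2; integrate:
W_2 = Re (ug 0 q) + cot φ Im (ug 0 q) ≤ |ug 0 q| sqrt (1 + cot² φ) = |ug 0 q| / sin φ. And |1 - X| ≥ sin φ
(distance from 1 to the ray), so W_m ≤ W_2 / (sin φ)^{m-2}. For π/2 ≤ φ ≤ π: Re X ≤ 0, |1-X| ≥ 1.
For -φ: everything is invariant under conjugation.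
-/

open Finset

namespace MP_d1b55a

theorem fa3_ug_conj (i : ℕ) (q : ℂ) : ug i (starRingEnd ℂ q) = starRingEnd ℂ (ug i q) := by
  unfold ug
  rw [Complex.conj_tsum]
  refine tsum_congr (fun n => ?_)
  rw [map_mul, map_mul, map_pow, Complex.conj_ofReal, map_natCast]

theorem ug_conj (i : ℕ) (q : ℂ) : ‖ug i (starRingEnd ℂ q)‖ = ‖ug i q‖ := by
  rw [fa3_ug_conj, Complex.norm_conj]

theorem Wm_conj (m : ℕ) (q : ℂ) : Wm m (starRingEnd ℂ q) = Wm m q := by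
  unfold Wm
  congr 1
  congr 1
  funext v
  have : (1 : ℂ) - ((gv v : ℝ) : ℂ) * starRingEnd ℂ q =
      starRingEnd ℂ (1 - ((gv v : ℝ) : ℂ) * q) := by
    rw [map_sub, map_one, map_mul, Complex.conj_ofReal]
  rw [this, Complex.norm_conj]

theorem fa3_norm_q {r φ : ℝ} (hr0 : 0 < r) {q : ℂ}
    (hq : q = (r : ℂ) * Complex.exp ((φ : ℂ) * Complex.I)) : ‖q‖ = r := by
  rw [hq, norm_mul, Complex.norm_exp_ofReal_mul_I, mul_one, Complex.norm_real,
    Real.norm_of_nonneg hr0.le]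

theorem fa3_q_re {r φ : ℝ} {q : ℂ}
    (hq : q = (r : ℂ) * Complex.exp ((φ : ℂ) * Complex.I)) : q.re = r * Real.cos φ := by
  rw [hq, Complex.re_ofReal_mul, Complex.exp_ofReal_mul_I_re]

theorem fa3_q_im {r φ : ℝ} {q : ℂ}
    (hq : q = (r : ℂ) * Complex.exp ((φ : ℂ) * Complex.I)) : q.im = r * Real.sin φ := by
  rw [hq, Complex.im_ofReal_mul, Complex.exp_ofReal_mul_I_im]

/-- the distance of `1` to the ray -/
theorem fa3_sin_le {r φ : ℝ} {q : ℂ} (hs : 0 ≤ Real.sin φ)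
    (hq : q = (r : ℂ) * Complex.exp ((φ : ℂ) * Complex.I)) (x : ℝ) :
    Real.sin φ ≤ ‖1 - (x : ℂ) * q‖ := by
  rw [← abs_of_nonneg hs, ← abs_of_nonneg (norm_nonneg (1 - (x : ℂ) * q))]
  apply sq_le_sq.1
  rw [← Complex.normSq_eq_norm_sq, Complex.normSq_apply]
  have h1 : (1 - (x : ℂ) * q).re = 1 - x * (r * Real.cos φ) := by
    rw [Complex.sub_re, Complex.one_re, Complex.re_ofReal_mul, fa3_q_re hq]
  have h2 : (1 - (x : ℂ) * q).im = -(x * (r * Real.sin φ)) := by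
    rw [Complex.sub_im, Complex.one_im, Complex.im_ofReal_mul, fa3_q_im hq]
    ring
  rw [h1, h2]
  have h3 := Real.sin_sq_add_cos_sq φ
  nlinarith [sq_nonneg (x * r - Real.cos φ)]

/-- the real part of `(1 - i cot φ) / (1 - x q)` -/
theorem fa3_re {r φ : ℝ} {q : ℂ} (hs : 0 < Real.sin φ)
    (hq : q = (r : ℂ) * Complex.exp ((φ : ℂ) * Complex.I)) (x : ℝ) :
    ((⟨1, -(Real.cos φ / Real.sin φ)⟩ : ℂ) * (1 - (x : ℂ) * q)⁻¹).re =
      (‖1 - (x : ℂ) * q‖⁻¹) ^ 2 := by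
  have h1 : (1 - (x : ℂ) * q).re = 1 - x * (r * Real.cos φ) := by
    rw [Complex.sub_re, Complex.one_re, Complex.re_ofReal_mul, fa3_q_re hq]
  have h2 : (1 - (x : ℂ) * q).im = -(x * (r * Real.sin φ)) := by
    rw [Complex.sub_im, Complex.one_im, Complex.im_ofReal_mul, fa3_q_im hq]
    ring
  have hpos : 0 < ‖1 - (x : ℂ) * q‖ := lt_of_lt_of_le hs (fa3_sin_le hs.le hq x)
  have hN : Complex.normSq (1 - (x : ℂ) * q) = ‖1 - (x : ℂ) * q‖ ^ 2 :=
    Complex.normSq_eq_norm_sq _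
  rw [Complex.mul_re, Complex.inv_re, Complex.inv_im, hN, h1, h2, inv_pow]
  have hne : ‖1 - (x : ℂ) * q‖ ^ 2 ≠ 0 := by positivity
  field_simp
  ring

theorem fa3_c_norm {φ : ℝ} (hs : 0 < Real.sin φ) :
    ‖(⟨1, -(Real.cos φ / Real.sin φ)⟩ : ℂ)‖ = 1 / Real.sin φ := by
  rw [Complex.norm_def, Complex.normSq_mk]
  have h3 := Real.sin_sq_add_cos_sq φ
  have : (1 : ℝ) * 1 + -(Real.cos φ / Real.sin φ) * -(Real.cos φ / Real.sin φ) =
      (1 / Real.sin φ) ^ 2 := by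
    field_simp
    linarith
  rw [this, Real.sqrt_sq (by positivity)]

theorem fa3_integrable (q : ℂ) (hq : ‖q‖ < 1) :
    IntervalIntegrable (fun v => (1 - ((gv v : ℝ) : ℂ) * q)⁻¹) MeasureTheory.volume 0
      Real.pi := by
  refine (FA2_integrable 1 q hq).mono_fun' ?_ ?_
  · exact (((Complex.measurable_ofReal.comp gv_measurable).mul_const q).const_sub 1).inv.aestronglyMeasurable
  · refine Filter.Eventually.of_forall (fun v => ?_)
    simp only [norm_inv, pow_one]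
    exact le_rfl

theorem fa3_ug_zero (q : ℂ) (hq : ‖q‖ < 1) :
    ug 0 q = (1 / Real.pi : ℂ) * ∫ v in (0 : ℝ)..Real.pi, (1 - ((gv v : ℝ) : ℂ) * q)⁻¹ := by
  have h := FA2_exch (fun n => q ^ n) (by
      refine (summable_geometric_of_lt_one (norm_nonneg q) hq).congr (fun n => ?_)
      rw [norm_pow])
    (fun v => (1 - ((gv v : ℝ) : ℂ) * q)⁻¹)
    (fun v hv => by
      have h1 := hasSum_geometric_of_norm_lt_one ((FA2_norm_gvq q v hv).trans_lt hq)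
      refine h1.congr_fun (fun n => ?_)
      rw [mul_pow]; ring)
  rw [← h.tsum_eq]
  unfold ug
  refine tsum_congr (fun n => ?_)
  simp

theorem fa3_W2 (r φ : ℝ) (hr0 : 0 < r) (hr1 : r < 1) (hs : 0 < Real.sin φ)
    (q : ℂ) (hq : q = (r : ℂ) * Complex.exp ((φ : ℂ) * Complex.I)) :
    Wm 2 q ≤ ‖ug 0 q‖ / Real.sin φ := by
  have hq1 : ‖q‖ < 1 := by rw [fa3_norm_q hr0 hq]; exact hr1
  set c : ℂ := ⟨1, -(Real.cos φ / Real.sin φ)⟩ with hc
  have hint := (fa3_integrable q hq1).const_mul c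
  have h1 : Wm 2 q = (c * ug 0 q).re := by
    have h2 := Complex.reCLM.intervalIntegral_comp_comm hint
    have h3 : c * ug 0 q = ((1 / Real.pi : ℝ) : ℂ) *
        ∫ v in (0 : ℝ)..Real.pi, c * (1 - ((gv v : ℝ) : ℂ) * q)⁻¹ := by
      rw [fa3_ug_zero q hq1, intervalIntegral.integral_const_mul]
      push_cast
      ring
    rw [h3, Complex.re_ofReal_mul]
    unfold Wm
    congr 1
    rw [Complex.reCLM_apply] at h2
    rw [← h2]
    congr 1
    funext v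
    rw [Complex.reCLM_apply, fa3_re hs hq]
  rw [h1]
  refine (Complex.re_le_norm _).trans (le_of_eq ?_)
  rw [norm_mul, fa3_c_norm hs]
  ring

theorem Wm_le_sin (m : ℕ) (hm : 2 ≤ m) (r φ : ℝ) (hr0 : 0 < r) (hr1 : r < 1) (h0 : 0 < φ)
    (h1 : φ ≤ Real.pi / 2) (q : ℂ) (hq : q = (r : ℂ) * Complex.exp ((φ : ℂ) * Complex.I)) :
    Wm m q ≤ ‖ug 0 q‖ / Real.sin φ ^ (m - 1) := by
  have hpi := Real.pi_pos
  have hs : 0 < Real.sin φ := Real.sin_pos_of_pos_of_lt_pi h0 (by linarith)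
  have hq1 : ‖q‖ < 1 := by rw [fa3_norm_q hr0 hq]; exact hr1
  obtain ⟨k, rfl⟩ : ∃ k, m = k + 2 := ⟨m - 2, by omega⟩
  have h2 : Wm (k + 2) q ≤ (1 / Real.sin φ) ^ k * Wm 2 q := by
    unfold Wm
    have h3 : ∫ v in (0 : ℝ)..Real.pi, (‖1 - ((gv v : ℝ) : ℂ) * q‖⁻¹) ^ (k + 2) ≤
        ∫ v in (0 : ℝ)..Real.pi, (1 / Real.sin φ) ^ k *
          (‖1 - ((gv v : ℝ) : ℂ) * q‖⁻¹) ^ 2 := by
      refine intervalIntegral.integral_mono_on hpi.le (FA2_integrable (k + 2) q hq1)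
        ((FA2_integrable 2 q hq1).const_mul _) (fun v _ => ?_)
      rw [pow_add]
      refine mul_le_mul_of_nonneg_right ?_ (by positivity)
      refine pow_le_pow_left₀ (by positivity) ?_ k
      rw [one_div]
      exact inv_anti₀ hs (fa3_sin_le hs.le hq (gv v))
    rw [intervalIntegral.integral_const_mul] at h3
    calc (1 / Real.pi) * ∫ v in (0 : ℝ)..Real.pi, (‖1 - ((gv v : ℝ) : ℂ) * q‖⁻¹) ^ (k + 2)
        ≤ (1 / Real.pi) * ((1 / Real.sin φ) ^ k *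
          ∫ v in (0 : ℝ)..Real.pi, (‖1 - ((gv v : ℝ) : ℂ) * q‖⁻¹) ^ 2) :=
          mul_le_mul_of_nonneg_left h3 (by positivity)
      _ = _ := by ring
  have h4 := fa3_W2 r φ hr0 hr1 hs q hq
  have h5 : (1 / Real.sin φ) ^ k * Wm 2 q ≤ (1 / Real.sin φ) ^ k * (‖ug 0 q‖ / Real.sin φ) :=
    mul_le_mul_of_nonneg_left h4 (by positivity)
  refine h2.trans (h5.trans (le_of_eq ?_))
  rw [show k + 2 - 1 = k + 1 by omega, pow_succ, one_div, inv_pow]
  field_simp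

theorem Wm_le_one (m : ℕ) (r φ : ℝ) (hr0 : 0 < r) (hr1 : r < 1) (h0 : Real.pi / 2 ≤ φ)
    (h1 : φ ≤ Real.pi) (q : ℂ) (hq : q = (r : ℂ) * Complex.exp ((φ : ℂ) * Complex.I)) :
    Wm m q ≤ 1 := by
  have hpi := Real.pi_pos
  have hq1 : ‖q‖ < 1 := by rw [fa3_norm_q hr0 hq]; exact hr1
  have hc : Real.cos φ ≤ 0 := Real.cos_nonpos_of_pi_div_two_le_of_le h0 (by linarith)
  unfold Wm
  have h3 : ∫ v in (0 : ℝ)..Real.pi, (‖1 - ((gv v : ℝ) : ℂ) * q‖⁻¹) ^ m ≤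
      ∫ _ in (0 : ℝ)..Real.pi, (1 : ℝ) := by
    refine intervalIntegral.integral_mono_on hpi.le (FA2_integrable m q hq1)
      intervalIntegrable_const (fun v hv => ?_)
    refine pow_le_one₀ (by positivity) ?_
    refine inv_le_one_of_one_le₀ ?_
    have h4 : (1 : ℝ) ≤ (1 - ((gv v : ℝ) : ℂ) * q).re := by
      rw [Complex.sub_re, Complex.one_re, Complex.re_ofReal_mul, fa3_q_re hq]
      have h5 : gv v * (r * Real.cos φ) ≤ 0 :=
        mul_nonpos_of_nonneg_of_nonpos (gv_nonneg v hv.1 hv.2)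
          (mul_nonpos_of_nonneg_of_nonpos hr0.le hc)
      linarith
    exact h4.trans (Complex.re_le_norm _)
  rw [intervalIntegral.integral_const, sub_zero, smul_eq_mul, mul_one] at h3
  calc (1 / Real.pi) * ∫ v in (0 : ℝ)..Real.pi, (‖1 - ((gv v : ℝ) : ℂ) * q‖⁻¹) ^ m
      ≤ (1 / Real.pi) * Real.pi := mul_le_mul_of_nonneg_left h3 (by positivity)
    _ = 1 := by field_simp

end MP_d1b55a
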