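import Pool.Agent.Lib.MP_d1b55a_co.Series
import Pool.Agent.Lib.MP_d1b55a_co.Abel

/-!
MP_d1b55a_co, P1: explicit value, mean and variance of the number of tree inversions.
-/

open Finset

namespace MP_d1b55a

open PowerSeries

theorem a1_formula (n : ℕ) : a1 n = (n : ℚ) ^ n / (n * (n.factorial : ℚ)) := by
  induction n using Nat.strong_induction_on with
  | _ n ih =>
    rcases n with _ | _ | m
    · simp [jets_zero]
    · simp [jets_one]
    · have hne : ((m : ℚ) + 1) ≠ 0 := by positivity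
      apply mul_left_cancel₀ hne
      rw [a1_rec]
      have h1 := abel1 (m + 2) (by omega)
      rw [← Finset.sum_flip] at h1
      rw [Finset.sum_range_succ, Finset.sum_range_succ'] at h1
      have h2 : ∀ k ∈ Finset.range (m + 1), ((k : ℚ) + 1) * a1 (k + 1) * a1 (m + 1 - k) =
          ((m + 2 - (k + 1) : ℕ) : ℚ) ^ (m + 2 - (k + 1)) /
            (((m + 2 - (k + 1) : ℕ) : ℚ) * ((m + 2 - (k + 1)).factorial : ℚ)) *
          (((m + 2 - (m + 2 - (k + 1)) : ℕ) : ℚ) ^ (m + 2 - (m + 2 - (k + 1))) /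
            ((m + 2 - (m + 2 - (k + 1))).factorial : ℚ)) := by
        intro k hk
        rw [Finset.mem_range] at hk
        have e1 : m + 2 - (k + 1) = m + 1 - k := by omega
        have e2 : m + 2 - (m + 1 - k) = k + 1 := by omega
        rw [ih (k + 1) (by omega), ih (m + 1 - k) (by omega), e1, e2]
        have h3 : ((k : ℚ) + 1) ≠ 0 := by positivity
        have h4 : ((k + 1).factorial : ℚ) ≠ 0 := by exact_mod_cast (k + 1).factorial_ne_zero
        have h5 : ((k : ℚ) + 1) * (((k + 1 : ℕ) : ℚ) ^ (k + 1) /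
            (((k + 1 : ℕ) : ℚ) * ((k + 1).factorial : ℚ))) =
            ((k + 1 : ℕ) : ℚ) ^ (k + 1) / ((k + 1).factorial : ℚ) := by
          push_cast
          field_simp
        rw [h5, mul_comm]
      rw [Finset.sum_congr rfl h2]
      have e3 : m + 2 - (m + 2) = 0 := by omega
      have e4 : m + 2 - 0 = m + 2 := by omega
      rw [e3, e4, e3] at h1
      simp only [Nat.cast_zero, pow_zero, Nat.factorial_zero, Nat.cast_one, zero_mul, div_zero,
        add_zero, div_one, mul_one] at h1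
      have h6 : ((m + 2 : ℕ) : ℚ) ≠ 0 := by positivity
      have h7 : ((m + 2).factorial : ℚ) ≠ 0 := by exact_mod_cast (m + 2).factorial_ne_zero
      have h8 : ((m : ℚ) + 1) * (((m + 2 : ℕ) : ℚ) ^ (m + 2) / (((m + 2 : ℕ) : ℚ) *
          ((m + 2).factorial : ℚ))) = ((m + 2 : ℕ) : ℚ) ^ (m + 2) / ((m + 2).factorial : ℚ) -
          ((m + 2 : ℕ) : ℚ) ^ (m + 2) / (((m + 2 : ℕ) : ℚ) * ((m + 2).factorial : ℚ)) := by
        field_simp
        push_cast
        ring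
      rw [h8, ← h1]
      ring

theorem a1_pos (n : ℕ) (hn : 1 ≤ n) : 0 < a1 n := by
  rw [a1_formula]
  have : (0 : ℚ) < n := by exact_mod_cast hn
  positivity

theorem coeff_T (n : ℕ) : coeff n sT = a1 n := by simp [sT]

theorem coeff_U (n : ℕ) : coeff n sU = (n : ℚ) ^ n / (n.factorial : ℚ) := by
  unfold sU
  rw [map_add, coeff_th, coeff_T, a1_formula]
  rcases n with _ | n
  · simp
  · rw [coeff_one]
    have h : ((n + 1 : ℕ) : ℚ) ≠ 0 := by positivity
    have h7 : ((n + 1).factorial : ℚ) ≠ 0 := by exact_mod_cast (n + 1).factorial_ne_zero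
    rw [if_neg (Nat.succ_ne_zero n), zero_add]
    field_simp

theorem coeff_U2 (n : ℕ) : coeff n (sU ^ 2) = (n : ℚ) ^ n / (n.factorial : ℚ) * Q1 n := by
  rw [sq, coeff_mul, Finset.Nat.sum_antidiagonal_eq_sum_range_succ_mk]
  simp only [coeff_U]
  rw [abel2, ← Finset.sum_flip]
  unfold Q1
  rw [Finset.mul_sum]
  apply Finset.sum_congr rfl
  intro k hk
  rw [Finset.mem_range] at hk
  rcases Nat.eq_zero_or_pos n with rfl | hn
  · have : k = 0 := by omega
    subst this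
    simp
  · have h1 : (n : ℚ) ≠ 0 := by positivity
    have h2 : ((n - k).factorial : ℚ) * (n.descFactorial k : ℚ) = (n.factorial : ℚ) := by
      exact_mod_cast Nat.factorial_mul_descFactorial (by omega : k ≤ n)
    have h3 : ((n - k).factorial : ℚ) ≠ 0 := by exact_mod_cast (n - k).factorial_ne_zero
    have h4 : (n.factorial : ℚ) ≠ 0 := by exact_mod_cast n.factorial_ne_zero
    have h5 : (n : ℚ) ^ (n - k) * (n : ℚ) ^ k = (n : ℚ) ^ n := by
      rw [← pow_add]; congr 1; omega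
    field_simp
    rw [← h5, ← h2]
    ring

/-- `U^(k+3) = U^(k+2) + (1/(k+1)) θ U^(k+1)` on coefficients -/
theorem coeff_U_step (n k : ℕ) : coeff n (sU ^ (k + 3)) =
    coeff n (sU ^ (k + 2)) + (n : ℚ) / ((k : ℚ) + 1) * coeff n (sU ^ (k + 1)) := by
  have h := congrArg (coeff n) (th_U_pow k)
  have hc : (((k + 1 : ℕ)) : ℚ⟦X⟧) = PowerSeries.C ((k + 1 : ℕ) : ℚ) := by simp
  rw [coeff_th, hc, coeff_C_mul, map_sub] at h
  have hne : ((k : ℚ) + 1) ≠ 0 := by positivity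
  push_cast at h
  field_simp
  linarith

theorem b1_formula (n : ℕ) (hn : 1 ≤ n) : b1 n = a1 n * (((n : ℚ) * Q1 n - 3 * n + 1) / 2) := by
  have h := congrArg (coeff n) closedB
  have hTU := T_mul_U
  have h2 : (sU - 1) ^ 2 * sT = sU ^ 2 - PowerSeries.C (3 : ℚ) * sU + PowerSeries.C (2 : ℚ) + sT := by
    have c3 : PowerSeries.C (3 : ℚ) = (3 : ℚ⟦X⟧) := map_ofNat (PowerSeries.C (R := ℚ)) 3
    have c2 : PowerSeries.C (2 : ℚ) = (2 : ℚ⟦X⟧) := map_ofNat (PowerSeries.C (R := ℚ)) 2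
    rw [c3, c2]
    linear_combination (sU - 2) * hTU
  have c2 : (2 : ℚ⟦X⟧) = PowerSeries.C (2 : ℚ) := (map_ofNat (PowerSeries.C (R := ℚ)) 2).symm
  rw [h2, c2, coeff_C_mul, map_add, map_add, map_sub, coeff_C_mul, coeff_U2, coeff_U, coeff_T,
    coeff_C, if_neg (by omega)] at h
  have h3 : coeff n sB = b1 n := by simp [sB]
  rw [h3] at h
  have h4 : (n : ℚ) ^ n / (n.factorial : ℚ) = n * a1 n := by
    rw [a1_formula]
    have h1 : (n : ℚ) ≠ 0 := by positivity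
    have h4 : (n.factorial : ℚ) ≠ 0 := by exact_mod_cast n.factorial_ne_zero
    field_simp
  rw [h4] at h
  linear_combination h / 2

theorem d1_formula (n : ℕ) (hn : 1 ≤ n) : d1 n = a1 n *
    ((5 * (n : ℚ) ^ 3 + 26 * (n : ℚ) ^ 2 - 14 * (n : ℚ) ^ 2 * Q1 n - n - 2) / 12) := by
  have h := congrArg (coeff n) closedD
  have hTU := T_mul_U
  have c2 : PowerSeries.C (2 : ℚ) = (2 : ℚ⟦X⟧) := map_ofNat (PowerSeries.C (R := ℚ)) 2
  have c15 : PowerSeries.C (15 : ℚ) = (15 : ℚ⟦X⟧) := map_ofNat (PowerSeries.C (R := ℚ)) 15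
  have c53 : PowerSeries.C (53 : ℚ) = (53 : ℚ⟦X⟧) := map_ofNat (PowerSeries.C (R := ℚ)) 53
  have c64 : PowerSeries.C (64 : ℚ) = (64 : ℚ⟦X⟧) := map_ofNat (PowerSeries.C (R := ℚ)) 64
  have c26 : PowerSeries.C (26 : ℚ) = (26 : ℚ⟦X⟧) := map_ofNat (PowerSeries.C (R := ℚ)) 26
  have c12 : PowerSeries.C (12 : ℚ) = (12 : ℚ⟦X⟧) := map_ofNat (PowerSeries.C (R := ℚ)) 12
  have h2 : cD = PowerSeries.C (15 : ℚ) * sU ^ 5 - PowerSeries.C (53 : ℚ) * sU ^ 4
      + PowerSeries.C (64 : ℚ) * sU ^ 3 - PowerSeries.C (26 : ℚ) * sU ^ 2 - sU + 1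
      - PowerSeries.C (2 : ℚ) * sT := by
    rw [c15, c53, c64, c26, c2]
    unfold cD
    linear_combination (15 * sU ^ 4 - 38 * sU ^ 3 + 26 * sU ^ 2 - 1) * hTU
  rw [h2, ← c12, coeff_C_mul] at h
  simp only [map_add, map_sub, coeff_C_mul] at h
  have s5 := coeff_U_step n 2
  have s4 := coeff_U_step n 1
  have s3 := coeff_U_step n 0
  have h1c : coeff n (1 : ℚ⟦X⟧) = 0 := by rw [coeff_one, if_neg (by omega)]
  norm_num at s5 s4 s3
  have h3 : coeff n sD = d1 n := by simp [sD]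
  have h4 : (n : ℚ) ^ n / (n.factorial : ℚ) = n * a1 n := by
    rw [a1_formula]
    have h1 : (n : ℚ) ≠ 0 := by positivity
    have h4 : (n.factorial : ℚ) ≠ 0 := by exact_mod_cast n.factorial_ne_zero
    field_simp
  have hu1 : coeff n sU = n * a1 n := by rw [coeff_U, h4]
  have hu2 : coeff n (sU ^ 2) = n * a1 n * Q1 n := by rw [coeff_U2, h4]
  rw [h3, h1c, coeff_T, s5, s4, s3, hu2, hu1] at h
  linear_combination h / 12

theorem EA_formula (n : ℕ) (hn : 1 ≤ n) : EA n = ((n : ℝ) * (Q1 n : ℝ) - 3 * n + 1) / 2 := by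
  unfold EA
  have h := a1_pos n hn
  have h1 : b1 n / a1 n = ((n : ℚ) * Q1 n - 3 * n + 1) / 2 := by
    rw [b1_formula n hn]
    field_simp
  rw [h1]
  push_cast
  ring

theorem VA_formula (n : ℕ) (hn : 1 ≤ n) : VA n =
    (5 * (n : ℝ) ^ 3 - 3 * (n : ℝ) ^ 2 * (Q1 n : ℝ) ^ 2 + 4 * (n : ℝ) ^ 2 * (Q1 n : ℝ)
      - (n : ℝ) ^ 2 - n + 1) / 12 := by
  unfold VA
  have h := a1_pos n hn
  have h1 : b1 n / a1 n = ((n : ℚ) * Q1 n - 3 * n + 1) / 2 := by
    rw [b1_formula n hn]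
    field_simp
  have h2 : d1 n / a1 n =
      (5 * (n : ℚ) ^ 3 + 26 * (n : ℚ) ^ 2 - 14 * (n : ℚ) ^ 2 * Q1 n - n - 2) / 12 := by
    rw [d1_formula n hn]
    field_simp
  rw [add_div, h1, h2]
  push_cast
  ring

end MP_d1b55a
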