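import Pool.Agent.Lib.MP_d1b55a_co.FDefs
import Pool.Agent.Lib.MP_d1b55a_co.Moments

/-!
FA4. Facts on the tree function. With u = ug 0 q = ∑ G_n q^n, |q| < 1, D = q d/dq:
T(q) = ∑_{n ≥ 1} (G_n/n) q^n, |T| ≤ ∑ G_n/n = 1, u (1 - T) = 1, T e^{1-T} = q, i.e. with p = 1 - T:
u p = 1, (1-p) e^p = q. PROOF: formal identities (Series.lean has them for power series over ℚ
with n^n/n!: substitute q/e); T e^{-T} / q is constant on rays.
D T = u T, D u = u^3 - u^2, ∑ G_n n^j q^n = D^j u; C(n,2) = (n²-n)/2, C(n,3) = (n³ - 3n² + 2n)/6.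
D²u = 3u⁵ - 5u⁴ + 2u³, D³u = 15u⁷ - 35u⁶ + 26u⁵ - 6u⁴.
-/

open Finset

namespace MP_d1b55a

open PowerSeries

/-- value of a power series at `r` -/
noncomputable def fa4_ev (f : ℚ⟦X⟧) (r : ℂ) : ℂ := ∑' n, ((coeff n f : ℚ) : ℂ) * r ^ n

/-- absolute convergence at `r` -/
def fa4_S (f : ℚ⟦X⟧) (r : ℂ) : Prop := Summable fun n => ‖((coeff n f : ℚ) : ℂ) * r ^ n‖

theorem fa4_term (f g : ℚ⟦X⟧) (r : ℂ) (n : ℕ) :
    ((coeff n (f * g) : ℚ) : ℂ) * r ^ n = ∑ kl ∈ antidiagonal n,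
      (((coeff kl.1 f : ℚ) : ℂ) * r ^ kl.1) * (((coeff kl.2 g : ℚ) : ℂ) * r ^ kl.2) := by
  rw [coeff_mul]
  push_cast
  rw [Finset.sum_mul]
  refine Finset.sum_congr rfl fun kl hkl => ?_
  rw [Finset.HasAntidiagonal.mem_antidiagonal] at hkl
  rw [← hkl, pow_add]
  ring

theorem fa4_mul {f g : ℚ⟦X⟧} {r : ℂ} (hf : fa4_S f r) (hg : fa4_S g r) :
    fa4_S (f * g) r ∧ fa4_ev (f * g) r = fa4_ev f r * fa4_ev g r := by
  constructor
  · have h := summable_norm_sum_mul_antidiagonal_of_summable_norm hf hg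
    refine h.congr fun n => ?_
    rw [fa4_term]
  · unfold fa4_ev
    rw [tsum_mul_tsum_eq_tsum_sum_antidiagonal_of_summable_norm hf hg]
    exact tsum_congr fun n => fa4_term f g r n

theorem fa4_pow {f : ℚ⟦X⟧} {r : ℂ} (hf : fa4_S f r) (k : ℕ) :
    fa4_S (f ^ (k + 1)) r ∧ fa4_ev (f ^ (k + 1)) r = fa4_ev f r ^ (k + 1) := by
  induction k with
  | zero => simpa using hf
  | succ k ih =>
    rw [pow_succ f (k + 1), pow_succ (fa4_ev f r) (k + 1)]
    have := fa4_mul ih.1 hf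
    rw [ih.2] at this
    exact this

theorem fa4_coeff (n : ℕ) (q : ℂ) : ((coeff n sU : ℚ) : ℂ) * (q * Complex.exp (-1)) ^ n =
    ((Gn n : ℝ) : ℂ) * q ^ n := by
  rw [coeff_U, mul_pow, ← Complex.exp_nat_mul]
  unfold Gn
  push_cast
  rw [show (n : ℂ) * -1 = -(n : ℂ) by ring]
  ring

theorem fa4_Gn_nonneg (n : ℕ) : 0 ≤ Gn n := by
  unfold Gn
  positivity

theorem fa4_Gn_le (n : ℕ) : Gn n ≤ 1 := by
  unfold Gn
  have h := Real.pow_div_factorial_le_exp (n : ℝ) (Nat.cast_nonneg n) n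
  calc (n : ℝ) ^ n * Real.exp (-(n : ℝ)) / n.factorial
      = (n : ℝ) ^ n / n.factorial * Real.exp (-(n : ℝ)) := by ring
    _ ≤ Real.exp (n : ℝ) * Real.exp (-(n : ℝ)) :=
        mul_le_mul_of_nonneg_right h (Real.exp_pos _).le
    _ = 1 := by rw [← Real.exp_add]; simp

theorem fa4_SU {q : ℂ} (hq : ‖q‖ < 1) : fa4_S sU (q * Complex.exp (-1)) := by
  unfold fa4_S
  refine (summable_geometric_of_lt_one (norm_nonneg q) hq).of_nonneg_of_le
    (fun n => norm_nonneg _) (fun n => ?_)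
  rw [fa4_coeff, norm_mul, norm_pow, Complex.norm_real, Real.norm_of_nonneg (fa4_Gn_nonneg n)]
  calc Gn n * ‖q‖ ^ n ≤ 1 * ‖q‖ ^ n := by
        gcongr
        exact fa4_Gn_le n
    _ = ‖q‖ ^ n := one_mul _

theorem fa4_ug (i : ℕ) (q : ℂ) :
    ug i q = ∑' n : ℕ, (n.choose i : ℂ) *
      (((coeff n sU : ℚ) : ℂ) * (q * Complex.exp (-1)) ^ n) := by
  unfold ug
  refine tsum_congr fun n => ?_
  rw [fa4_coeff]
  ring

theorem fa4_ug_zero (q : ℂ) : ug 0 q = fa4_ev sU (q * Complex.exp (-1)) := by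
  rw [fa4_ug]
  unfold fa4_ev
  refine tsum_congr fun n => ?_
  rw [Nat.choose_zero_right]
  simp

theorem fa4_step (n k : ℕ) : (n : ℂ) * ((coeff n (sU ^ (k + 1)) : ℚ) : ℂ) =
    ((k : ℂ) + 1) * (((coeff n (sU ^ (k + 3)) : ℚ) : ℂ) - ((coeff n (sU ^ (k + 2)) : ℚ) : ℂ)) := by
  rw [coeff_U_step n k]
  have h : ((k : ℂ) + 1) ≠ 0 := by exact_mod_cast Nat.succ_ne_zero k
  push_cast
  field_simp
  ring

theorem ug_one (q : ℂ) (hq : ‖q‖ < 1) : ug 1 q = ug 0 q ^ 3 - ug 0 q ^ 2 := by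
  have hU := fa4_SU hq
  set r := q * Complex.exp (-1) with hr
  have h3 := fa4_pow hU 2
  have h2 := fa4_pow hU 1
  rw [fa4_ug, fa4_ug_zero, ← hr, ← h3.2, ← h2.2]
  unfold fa4_ev
  rw [← (h3.1.of_norm).tsum_sub h2.1.of_norm]
  refine tsum_congr fun n => ?_
  have s0 := fa4_step n 0
  norm_num at s0 ⊢
  linear_combination r ^ n * s0

theorem ug_two (q : ℂ) (hq : ‖q‖ < 1) :
    ug 2 q = (3 * ug 0 q ^ 5 - 5 * ug 0 q ^ 4 + ug 0 q ^ 3 + ug 0 q ^ 2) / 2 := by
  have hU := fa4_SU hq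
  set r := q * Complex.exp (-1) with hr
  have h5 := fa4_pow hU 4
  have h4 := fa4_pow hU 3
  have h3 := fa4_pow hU 2
  have h2 := fa4_pow hU 1
  rw [fa4_ug, fa4_ug_zero, ← hr, ← h5.2, ← h4.2, ← h3.2, ← h2.2]
  unfold fa4_ev
  rw [← tsum_mul_left, ← tsum_mul_left,
    ← (h5.1.of_norm.mul_left 3).tsum_sub (h4.1.of_norm.mul_left 5),
    ← ((h5.1.of_norm.mul_left 3).sub (h4.1.of_norm.mul_left 5)).tsum_add h3.1.of_norm,
    ← (((h5.1.of_norm.mul_left 3).sub (h4.1.of_norm.mul_left 5)).add h3.1.of_norm).tsum_add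
      h2.1.of_norm, ← tsum_div_const]
  refine tsum_congr fun n => ?_
  have s0 := fa4_step n 0
  have s1 := fa4_step n 1
  have s2 := fa4_step n 2
  have hc : (n.choose 2 : ℂ) = (n : ℂ) * (n - 1) / 2 := Nat.cast_choose_two ℂ n
  rw [hc]
  norm_num at s0 s1 s2 ⊢
  linear_combination r ^ n * (((n : ℂ) - 1) / 2 * s0 + (1 / 2) * s2 - (1 / 2) * s1)

theorem fa4_choose_three (n : ℕ) : (n.choose 3 : ℂ) = (n : ℂ) * (n - 1) * (n - 2) / 6 := by
  induction n with
  | zero => simp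
  | succ n ih =>
    rw [Nat.choose_succ_succ, Nat.cast_add, ih]
    have hc : (n.choose 2 : ℂ) = (n : ℂ) * (n - 1) / 2 := Nat.cast_choose_two ℂ n
    rw [hc]
    push_cast
    ring

theorem ug_three (q : ℂ) (hq : ‖q‖ < 1) :
    ug 3 q = (15 * ug 0 q ^ 7 - 35 * ug 0 q ^ 6 + 17 * ug 0 q ^ 5 + 9 * ug 0 q ^ 4 -
      4 * ug 0 q ^ 3 - 2 * ug 0 q ^ 2) / 6 := by
  have hU := fa4_SU hq
  set r := q * Complex.exp (-1) with hr
  have h7 := fa4_pow hU 6
  have h6 := fa4_pow hU 5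
  have h5 := fa4_pow hU 4
  have h4 := fa4_pow hU 3
  have h3 := fa4_pow hU 2
  have h2 := fa4_pow hU 1
  rw [fa4_ug, fa4_ug_zero, ← hr, ← h7.2, ← h6.2, ← h5.2, ← h4.2, ← h3.2, ← h2.2]
  have a7 := h7.1.of_norm.hasSum.mul_left (15 : ℂ)
  have a6 := h6.1.of_norm.hasSum.mul_left (35 : ℂ)
  have a5 := h5.1.of_norm.hasSum.mul_left (17 : ℂ)
  have a4 := h4.1.of_norm.hasSum.mul_left (9 : ℂ)
  have a3 := h3.1.of_norm.hasSum.mul_left (4 : ℂ)
  have a2 := h2.1.of_norm.hasSum.mul_left (2 : ℂ)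
  have hs := (((((a7.sub a6).add a5).add a4).sub a3).sub a2).div_const (6 : ℂ)
  unfold fa4_ev
  refine Eq.trans (tsum_congr fun n => ?_) hs.tsum_eq
  have s0 := fa4_step n 0
  have s1 := fa4_step n 1
  have s2 := fa4_step n 2
  have s3 := fa4_step n 3
  have s4 := fa4_step n 4
  rw [fa4_choose_three]
  norm_num at s0 s1 s2 s3 s4 ⊢
  -- `n(n-1)(n-2) U = (n-1)(n-2)(U³ - U²)` and so on
  linear_combination r ^ n / 6 * (((n : ℂ) - 1) * ((n : ℂ) - 2) * s0 + ((n : ℂ) - 3) * s2 -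
    ((n : ℂ) - 3) * s1 + 3 * s4 - 5 * s3 + 2 * s2)

/-! ### the tree function -/

/-- coefficients of the tree function -/
noncomputable def fa4_c (n : ℕ) : ℂ := ((coeff n sT : ℚ) : ℂ) * Complex.exp (-1) ^ n

theorem fa4_c_zero : fa4_c 0 = 0 := by
  unfold fa4_c
  rw [coeff_T, jets_zero.1]
  simp

theorem fa4_c_one : fa4_c 1 = Complex.exp (-1) := by
  unfold fa4_c
  rw [coeff_T, jets_one.1]
  simp

theorem fa4_c_eq (n : ℕ) : fa4_c n = ((Gn n / n : ℝ) : ℂ) := by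
  unfold fa4_c
  rw [coeff_T, a1_formula, ← Complex.exp_nat_mul]
  unfold Gn
  push_cast
  rw [show (n : ℂ) * -1 = -(n : ℂ) by ring]
  by_cases hn : (n : ℂ) = 0
  · rw [hn]
    simp
  · have : (n.factorial : ℂ) ≠ 0 := by exact_mod_cast Nat.factorial_ne_zero n
    field_simp

theorem fa4_c_norm (n : ℕ) : ‖fa4_c n‖ ≤ 1 := by
  rw [fa4_c_eq, Complex.norm_real, Real.norm_of_nonneg (div_nonneg (fa4_Gn_nonneg n)
    (Nat.cast_nonneg n))]
  rcases Nat.eq_zero_or_pos n with h | h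
  · rw [h]; simp
  · rw [div_le_one (by exact_mod_cast h)]
    have : (1 : ℝ) ≤ n := by exact_mod_cast h
    exact (fa4_Gn_le n).trans this

/-- the tree function -/
noncomputable def fa4_T (q : ℂ) : ℂ := ∑' n, fa4_c n * q ^ n

theorem fa4_T_eq (q : ℂ) : fa4_T q = fa4_ev sT (q * Complex.exp (-1)) := by
  unfold fa4_T fa4_ev fa4_c
  refine tsum_congr fun n => ?_
  rw [mul_pow]
  ring

theorem fa4_ST {q : ℂ} (hq : ‖q‖ < 1) : fa4_S sT (q * Complex.exp (-1)) := by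
  unfold fa4_S
  refine (summable_geometric_of_lt_one (norm_nonneg q) hq).of_nonneg_of_le
    (fun n => norm_nonneg _) (fun n => ?_)
  have h : ((coeff n sT : ℚ) : ℂ) * (q * Complex.exp (-1)) ^ n = fa4_c n * q ^ n := by
    unfold fa4_c
    rw [mul_pow]
    ring
  rw [h, norm_mul, norm_pow]
  calc ‖fa4_c n‖ * ‖q‖ ^ n ≤ 1 * ‖q‖ ^ n := by
        gcongr
        exact fa4_c_norm n
    _ = ‖q‖ ^ n := one_mul _

theorem fa4_uT {q : ℂ} (hq : ‖q‖ < 1) : fa4_T q * ug 0 q = ug 0 q - 1 := by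
  have hU := fa4_SU hq
  have hT := fa4_ST hq
  have h := (fa4_mul hT hU).2
  rw [T_mul_U] at h
  rw [fa4_T_eq, fa4_ug_zero, ← h]
  unfold fa4_ev
  have h1 : ∀ n : ℕ, ((coeff n (sU - 1) : ℚ) : ℂ) * (q * Complex.exp (-1)) ^ n =
      ((coeff n sU : ℚ) : ℂ) * (q * Complex.exp (-1)) ^ n - (if n = 0 then 1 else 0) := by
    intro n
    rw [map_sub, coeff_one]
    by_cases hn : n = 0
    · subst hn
      simp
    · rw [if_neg hn, if_neg hn]
      simp
  rw [tsum_congr h1, (hU.of_norm).tsum_sub (hasSum_ite_eq 0 (1 : ℂ)).summable,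
    (hasSum_ite_eq 0 (1 : ℂ)).tsum_eq]

/-- derivative of the tree function -/
noncomputable def fa4_T' (q : ℂ) : ℂ := ∑' n : ℕ, (n : ℂ) * fa4_c n * q ^ (n - 1)

theorem fa4_hasDerivAt {q : ℂ} (hq : ‖q‖ < 1) : HasDerivAt fa4_T (fa4_T' q) q := by
  obtain ⟨ρ, h1, h2⟩ := exists_between hq
  have hρ0 : 0 < ρ := (norm_nonneg q).trans_lt h1
  have hsum : Summable fun n : ℕ => (n : ℝ) * ρ ^ (n - 1) := by
    have h3 : Summable fun n : ℕ => (n : ℝ) ^ 1 * ρ ^ n :=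
      summable_pow_mul_geometric_of_norm_lt_one 1 (by rwa [Real.norm_of_nonneg hρ0.le])
    have h4 := h3.mul_left ρ⁻¹
    refine h4.congr fun n => ?_
    rcases n with _ | n
    · simp
    · rw [Nat.add_sub_cancel, pow_one, pow_succ]
      field_simp
  refine hasDerivAt_tsum_of_isPreconnected (𝕜 := ℂ) (F := ℂ) (u := fun n : ℕ => (n : ℝ) * ρ ^ (n - 1))
    (g := fun (n : ℕ) (y : ℂ) => fa4_c n * y ^ n)
    (g' := fun (n : ℕ) (y : ℂ) => (n : ℂ) * fa4_c n * y ^ (n - 1))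
    (t := Metric.ball (0 : ℂ) ρ) (y₀ := 0) hsum
    Metric.isOpen_ball (convex_ball (0 : ℂ) ρ).isPreconnected (fun n y _ => ?_) (fun n y hy => ?_)
    (Metric.mem_ball_self hρ0) ?_ (by simpa using h1)
  · have := (hasDerivAt_pow n y).const_mul (fa4_c n)
    refine this.congr_deriv ?_
    ring
  · rw [norm_mul, norm_mul, norm_pow, Complex.norm_natCast]
    have hy' : ‖y‖ ≤ ρ := by
      have := Metric.mem_ball.1 hy
      rw [dist_zero_right] at this
      exact this.le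
    calc (n : ℝ) * ‖fa4_c n‖ * ‖y‖ ^ (n - 1) ≤ (n : ℝ) * 1 * ρ ^ (n - 1) := by
          gcongr
          exact fa4_c_norm n
      _ = _ := by ring
  · refine summable_of_ne_finset_zero (s := {0}) fun n hn => ?_
    rw [Finset.mem_singleton] at hn
    rw [zero_pow hn, mul_zero]

/-- `q T' = u - 1` -/
theorem fa4_qT' {q : ℂ} (hq : ‖q‖ < 1) : q * fa4_T' q = ug 0 q - 1 := by
  have hU := fa4_SU hq
  have h1 : ∀ n : ℕ, ((coeff n sU : ℚ) : ℂ) * (q * Complex.exp (-1)) ^ n -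
      (if n = 0 then 1 else 0) = q * ((n : ℂ) * fa4_c n * q ^ (n - 1)) := by
    intro n
    have h2 : ((coeff n sU : ℚ) : ℂ) = (if n = 0 then 1 else 0) + (n : ℂ) *
        ((coeff n sT : ℚ) : ℂ) := by
      unfold sU
      rw [map_add, coeff_th, coeff_one]
      split_ifs
      · push_cast
        ring
      · push_cast
        ring
    rcases n with _ | n
    · rw [h2]
      simp
    · rw [h2]
      unfold fa4_c
      simp only [Nat.add_sub_cancel, Nat.add_one_ne_zero, if_false]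
      rw [mul_pow]
      ring
  unfold fa4_T'
  rw [← tsum_mul_left, ← tsum_congr h1, fa4_ug_zero]
  unfold fa4_ev
  rw [(hU.of_norm).tsum_sub (hasSum_ite_eq 0 (1 : ℂ)).summable,
    (hasSum_ite_eq 0 (1 : ℂ)).tsum_eq]

theorem fa4_T_zero : fa4_T 0 = 0 := by
  unfold fa4_T
  rw [tsum_eq_single 0]
  · rw [fa4_c_zero, zero_mul]
  · intro n hn
    rw [zero_pow hn, mul_zero]

theorem fa4_T'_zero : fa4_T' 0 = Complex.exp (-1) := by
  unfold fa4_T'
  rw [tsum_eq_single 1]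
  · simp [fa4_c_one]
  · intro n hn
    rcases n with _ | _ | n
    · simp
    · exact absurd rfl hn
    · rw [Nat.add_sub_cancel, zero_pow (Nat.succ_ne_zero n), mul_zero]

/-- `T e^{-T} = q / e` -/
theorem fa4_Texp {q : ℂ} (hq : ‖q‖ < 1) :
    fa4_T q * Complex.exp (-fa4_T q) = q * Complex.exp (-1) := by
  -- the function on the ray
  set F : ℝ → ℂ := fun t => fa4_T ((t : ℂ) * q) * Complex.exp (-fa4_T ((t : ℂ) * q)) / t with hF
  have hn : ∀ t : ℝ, 0 ≤ t → t ≤ 1 → ‖(t : ℂ) * q‖ < 1 := by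
    intro t h0 h1
    rw [norm_mul, Complex.norm_real, Real.norm_of_nonneg h0]
    calc t * ‖q‖ ≤ 1 * ‖q‖ := by gcongr
      _ < 1 := by rwa [one_mul]
  have hT : ∀ t : ℝ, 0 ≤ t → t ≤ 1 →
      HasDerivAt (fun t : ℝ => fa4_T ((t : ℂ) * q)) (fa4_T' ((t : ℂ) * q) * q) t := by
    intro t h0 h1
    have e1 : HasDerivAt (fun s : ℂ => s * q) q (t : ℂ) := by
      simpa using (hasDerivAt_id (t : ℂ)).mul_const q
    have e2 := (fa4_hasDerivAt (hn t h0 h1)).comp (t : ℂ) e1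
    exact e2.comp_ofReal
  have hd : ∀ t : ℝ, 0 < t → t ≤ 1 → HasDerivAt F 0 t := by
    intro t h0 h1
    have ht : (t : ℂ) ≠ 0 := by exact_mod_cast h0.ne'
    have e1 := hT t h0.le h1
    have e2 := (e1.mul e1.neg.cexp).div (hasDerivAt_id t).ofReal_comp ht
    refine e2.congr_deriv ?_
    have e3 := fa4_qT' (hn t h0.le h1)
    have e4 := fa4_uT (hn t h0.le h1)
    set T := fa4_T ((t : ℂ) * q)
    set T' := fa4_T' ((t : ℂ) * q)
    set u := ug 0 ((t : ℂ) * q)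
    have e5 : (T' * q * Complex.exp (-T) + T * (Complex.exp (-T) * -(T' * q))) * (t : ℂ) -
        T * Complex.exp (-T) * 1 = 0 := by
      have e6 : (t : ℂ) * q * T' * (1 - T) = T := by
        rw [e3]
        have : u * (1 - T) = 1 := by linear_combination -e4
        linear_combination this
      linear_combination Complex.exp (-T) * e6
    simp only [id, Complex.ofReal_one]
    rw [div_eq_zero_iff]
    left
    exact e5
  have hconst : ∀ a : ℝ, 0 < a → a ≤ 1 → F 1 = F a := by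
    intro a h0 h1
    refine constant_of_has_deriv_right_zero (a := a) (b := 1) ?_ ?_ 1 ⟨h1, le_rfl⟩
    · intro t ht
      exact (hd t (h0.trans_le ht.1) ht.2).continuousAt.continuousWithinAt
    · intro t ht
      exact (hd t (h0.trans_le ht.1) ht.2.le).hasDerivWithinAt
  -- the limit at `0`
  have hlim : Filter.Tendsto F (nhdsWithin 0 (Set.Ioi 0)) (nhds (Complex.exp (-1) * q)) := by
    have e1 := (hT 0 le_rfl zero_le_one).tendsto_slope_zero_right
    have e2 : Filter.Tendsto (fun t : ℝ => Complex.exp (-fa4_T ((t : ℂ) * q)))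
        (nhdsWithin 0 (Set.Ioi 0)) (nhds 1) := by
      have e3 : ContinuousAt (fun t : ℝ => Complex.exp (-fa4_T ((t : ℂ) * q))) 0 :=
        (hT 0 le_rfl zero_le_one).continuousAt.neg.cexp
      have e4 := e3.tendsto.mono_left (nhdsWithin_le_nhds (s := Set.Ioi 0))
      simpa [fa4_T_zero] using e4
    have e5 := e1.mul e2
    simp only [Complex.ofReal_zero, zero_mul, fa4_T'_zero, mul_one] at e5
    refine e5.congr' ?_
    filter_upwards [self_mem_nhdsWithin] with t ht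
    simp only [hF, zero_add, fa4_T_zero, sub_zero]
    rw [Complex.real_smul, Complex.ofReal_inv]
    ring
  have hF1 : Filter.Tendsto F (nhdsWithin 0 (Set.Ioi 0)) (nhds (F 1)) := by
    refine tendsto_const_nhds.congr' ?_
    filter_upwards [Ioc_mem_nhdsGT (zero_lt_one : (0 : ℝ) < 1)] with t ht
    exact hconst t ht.1 ht.2
  have h := tendsto_nhds_unique hF1 hlim
  simp only [hF, Complex.ofReal_one, one_mul, div_one] at h
  rw [h, mul_comm]

theorem fa4_T_norm {q : ℂ} (hq : ‖q‖ < 1) : ‖fa4_T q‖ ≤ 1 := by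
  set x : ℝ := ‖q‖ with hx
  have hx0 : 0 ≤ x := norm_nonneg q
  have hxn : ‖((x : ℝ) : ℂ)‖ < 1 := by rwa [Complex.norm_real, Real.norm_of_nonneg hx0]
  have hsT : Summable fun n : ℕ => Gn n / n * x ^ n := by
    refine (summable_geometric_of_lt_one hx0 hq).of_nonneg_of_le (fun n => ?_) (fun n => ?_)
    · exact mul_nonneg (div_nonneg (fa4_Gn_nonneg n) (Nat.cast_nonneg n)) (pow_nonneg hx0 n)
    · have h1 := fa4_c_norm n
      rw [fa4_c_eq, Complex.norm_real, Real.norm_of_nonneg (div_nonneg (fa4_Gn_nonneg n)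
        (Nat.cast_nonneg n))] at h1
      calc Gn n / n * x ^ n ≤ 1 * x ^ n := by gcongr
        _ = x ^ n := one_mul _
  have hsU : Summable fun n : ℕ => Gn n * x ^ n := by
    refine (summable_geometric_of_lt_one hx0 hq).of_nonneg_of_le (fun n => ?_) (fun n => ?_)
    · exact mul_nonneg (fa4_Gn_nonneg n) (pow_nonneg hx0 n)
    · calc Gn n * x ^ n ≤ 1 * x ^ n := by
            gcongr
            exact fa4_Gn_le n
        _ = x ^ n := one_mul _
  set Tx : ℝ := ∑' n : ℕ, Gn n / n * x ^ n with hTx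
  set Ux : ℝ := ∑' n : ℕ, Gn n * x ^ n with hUx
  have h1 : fa4_T ((x : ℝ) : ℂ) = ((Tx : ℝ) : ℂ) := by
    unfold fa4_T
    rw [hTx, Complex.ofReal_tsum]
    refine tsum_congr fun n => ?_
    rw [fa4_c_eq]
    push_cast
    ring
  have h2 : ug 0 ((x : ℝ) : ℂ) = ((Ux : ℝ) : ℂ) := by
    unfold ug
    rw [hUx, Complex.ofReal_tsum]
    refine tsum_congr fun n => ?_
    rw [Nat.choose_zero_right]
    push_cast
    ring
  have h3 := fa4_uT hxn
  rw [h1, h2] at h3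
  have h4 : Tx * Ux = Ux - 1 := by exact_mod_cast h3
  have h5 : 1 ≤ Ux := by
    have h6 := hsU.le_tsum 0 (fun n _ => mul_nonneg (fa4_Gn_nonneg n) (pow_nonneg hx0 n))
    have h7 : Gn 0 * x ^ 0 = 1 := by
      unfold Gn
      simp
    rw [h7] at h6
    exact h6
  have h8 : Tx ≤ 1 := by
    by_contra hlt
    push Not at hlt
    nlinarith
  have h9 : ‖fa4_T q‖ ≤ Tx := by
    unfold fa4_T
    refine tsum_of_norm_bounded hsT.hasSum fun n => ?_
    rw [norm_mul, norm_pow, fa4_c_eq, Complex.norm_real, Real.norm_of_nonneg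
      (div_nonneg (fa4_Gn_nonneg n) (Nat.cast_nonneg n))]
  exact h9.trans h8

theorem ug_T (q : ℂ) (hq : ‖q‖ < 1) :
    ∃ p : ℂ, ug 0 q * p = 1 ∧ (1 - p) * Complex.exp p = q ∧ ‖1 - p‖ ≤ 1 := by
  refine ⟨1 - fa4_T q, ?_, ?_, ?_⟩
  · have := fa4_uT hq
    linear_combination -this
  · have h := fa4_Texp hq
    rw [sub_sub_cancel, show (1 : ℂ) - fa4_T q = 1 + -fa4_T q by ring, Complex.exp_add]
    have h2 : Complex.exp 1 * Complex.exp (-1) = 1 := by
      rw [← Complex.exp_add]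
      simp
    calc fa4_T q * (Complex.exp 1 * Complex.exp (-fa4_T q))
        = Complex.exp 1 * (fa4_T q * Complex.exp (-fa4_T q)) := by ring
      _ = Complex.exp 1 * (q * Complex.exp (-1)) := by rw [h]
      _ = q * (Complex.exp 1 * Complex.exp (-1)) := by ring
      _ = q := by rw [h2, mul_one]
  · rw [sub_sub_cancel]
    exact fa4_T_norm hq

end MP_d1b55a
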