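import Pool.Agent.Lib.MP_d1b55a_co.FA4

/-!
FA5. Two sided bounds of u_i by λ, λ² = 2|1 - q|. PROOF. u = 1/p, T = 1 - p, |T| ≤ 1, α = Re p ≥ 0,
|T| = |q| e^{-α} ≤ e^{-α}. 1 - q = 1 - (1-p)e^p = p² J, J = ∫_0^1 t e^{pt} dt.
(i) |J| ≥ 1/2: β = |Im p|, |1-p| ≤ 1 gives β² ≤ 2α, β ≤ 1; |J| ≥ Re (e^{-2iβ/3} J) (sign of Im p) =
∫ t e^{αt} cos(β(t - 2/3)) dt ≥ ∫ t (1+αt)(1 - β²(t-2/3)²/2) = 1/2 + α/3 - β²/72 - αβ²/135 ≥ 1/2.
Hence |p|² ≤ 2|1-q| = λ²: (a).
(ii) |J| ≤ ∫ t e^{αt} dt = ∑ α^k/(k!(k+2)) ≤ (1/2) exp(2α/3 + α²/18) (compare coefficients), so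
|u|² = |J|/|1-q| ≤ λ^{-2} exp(2α/3+α²/18), |u| ≤ λ^{-1} exp(α/3 + α²/36), 0 ≤ α ≤ |p| ≤ λ: (b).
u_1 = u³T, u_2 = u⁴T²(3u+1)/2, u_3 = u⁵T³(15u²+10u+2)/6 (from FA4, u - 1 = uT):
|u_1| ≤ λ^{-3} e^{α + α²/12 - α}: (c). |u_2| ≤ |u|^5|T|²(3+|p|)/2 ≤ λ^{-5} e^{5α/3+5α²/36-2α}(3+λ)/2: (d).
|u_3| ≤ |u|^7|T|³(15+10|p|+2|p|²)/6: (e).
-/

open Finset

namespace MP_d1b55a

open intervalIntegral

/-- `J = ∫_0^1 t e^{pt} dt` -/
noncomputable def fa5_J (p : ℂ) : ℂ := ∫ t in (0 : ℝ)..1, (t : ℂ) * Complex.exp (p * t)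

theorem fa5_J_eq (p : ℂ) : p ^ 2 * fa5_J p = 1 - (1 - p) * Complex.exp p := by
  have h : ∀ t : ℝ, HasDerivAt (fun t : ℝ => (p * (t : ℂ) - 1) * Complex.exp (p * (t : ℂ)))
      (p ^ 2 * ((t : ℂ) * Complex.exp (p * t))) t := by
    intro t
    have h1 : HasDerivAt (fun z : ℂ => p * z) p ((t : ℝ) : ℂ) := by
      simpa using (hasDerivAt_id ((t : ℝ) : ℂ)).const_mul p
    have h2 : HasDerivAt (fun z : ℂ => (p * z - 1) * Complex.exp (p * z))
        (p * Complex.exp (p * t) + (p * t - 1) * (Complex.exp (p * t) * p)) ((t : ℝ) : ℂ) :=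
      (h1.sub_const 1).mul h1.cexp
    have h3 := h2.comp_ofReal
    refine h3.congr_deriv ?_
    ring
  unfold fa5_J
  rw [← intervalIntegral.integral_const_mul,
    intervalIntegral.integral_eq_sub_of_hasDerivAt (fun t _ => h t)
      (Continuous.intervalIntegrable (by fun_prop) _ _)]
  simp
  ring

theorem fa5_lower (p : ℂ) (hp : ‖1 - p‖ ≤ 1) : 1 / 2 ≤ ‖fa5_J p‖ := by
  set a := p.re with ha
  set b := p.im with hb
  have h1 : a ^ 2 + b ^ 2 ≤ 2 * a := by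
    have h2 : ‖1 - p‖ ^ 2 ≤ 1 := by
      have := norm_nonneg (1 - p)
      nlinarith
    rw [← Complex.normSq_eq_norm_sq, Complex.normSq_apply] at h2
    simp only [Complex.sub_re, Complex.one_re, Complex.sub_im, Complex.one_im] at h2
    nlinarith
  have ha0 : 0 ≤ a := by nlinarith
  have hb1 : b ^ 2 ≤ 1 := by nlinarith [sq_nonneg (a - 1)]
  have hb2 : b ^ 2 ≤ 2 * a := by nlinarith
  have hr : (Complex.exp (-(2 * b / 3 : ℝ) * Complex.I) * fa5_J p).re =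
      ∫ t in (0 : ℝ)..1, t * Real.exp (a * t) * Real.cos (b * (t - 2 / 3)) := by
    unfold fa5_J
    rw [← intervalIntegral.integral_const_mul]
    have hI : IntervalIntegrable (fun t : ℝ => Complex.exp (-(2 * b / 3 : ℝ) * Complex.I) *
        ((t : ℂ) * Complex.exp (p * t))) MeasureTheory.volume 0 1 :=
      Continuous.intervalIntegrable (by fun_prop) _ _
    have h3 := Complex.reCLM.intervalIntegral_comp_comm hI
    simp only [Complex.reCLM_apply] at h3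
    rw [← h3]
    refine intervalIntegral.integral_congr fun t _ => ?_
    show (Complex.exp (-(2 * b / 3 : ℝ) * Complex.I) * ((t : ℂ) * Complex.exp (p * t))).re =
      t * Real.exp (a * t) * Real.cos (b * (t - 2 / 3))
    have h4 : Complex.exp (-(2 * b / 3 : ℝ) * Complex.I) * ((t : ℂ) * Complex.exp (p * t)) =
        (t : ℂ) * (Complex.exp (((a * t : ℝ) : ℂ)) *
          Complex.exp (((b * (t - 2 / 3) : ℝ) : ℂ) * Complex.I)) := by
      have h5 : p = (a : ℂ) + (b : ℂ) * Complex.I := (Complex.re_add_im p).symm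
      rw [← Complex.exp_add, show Complex.exp (-(2 * b / 3 : ℝ) * Complex.I) *
        ((t : ℂ) * Complex.exp (p * t)) = (t : ℂ) * (Complex.exp (-(2 * b / 3 : ℝ) * Complex.I) *
        Complex.exp (p * t)) by ring, ← Complex.exp_add]
      congr 2
      conv_lhs => rw [h5]
      push_cast
      ring
    rw [h4, Complex.re_ofReal_mul, ← Complex.ofReal_exp, Complex.re_ofReal_mul,
      Complex.exp_ofReal_mul_I_re]
    ring
  have hlow : (1 / 2 : ℝ) ≤ ∫ t in (0 : ℝ)..1, t * Real.exp (a * t) * Real.cos (b * (t - 2 / 3)) := by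
    have h6 : ∀ t ∈ Set.Icc (0 : ℝ) 1, t * (1 + a * t) * (1 - b ^ 2 * (t - 2 / 3) ^ 2 / 2) ≤
        t * Real.exp (a * t) * Real.cos (b * (t - 2 / 3)) := by
      intro t ht
      obtain ⟨ht0, ht1⟩ := ht
      have h7 : 1 - (b * (t - 2 / 3)) ^ 2 / 2 ≤ Real.cos (b * (t - 2 / 3)) :=
        Real.one_sub_sq_div_two_le_cos
      have h8 : 1 + a * t ≤ Real.exp (a * t) := by
        have := Real.add_one_le_exp (a * t)
        linarith
      have h9 : (t - 2 / 3) ^ 2 ≤ 1 := by nlinarith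
      have h10 : 0 ≤ 1 - b ^ 2 * (t - 2 / 3) ^ 2 / 2 := by
        nlinarith [mul_le_mul hb1 h9 (sq_nonneg _) zero_le_one]
      have h11 : 1 - b ^ 2 * (t - 2 / 3) ^ 2 / 2 ≤ Real.cos (b * (t - 2 / 3)) := by
        refine le_trans (le_of_eq ?_) h7
        ring
      have h12 : 0 ≤ 1 + a * t := by positivity
      exact mul_le_mul (mul_le_mul_of_nonneg_left h8 ht0) h11 h10 (by positivity)
    have h13 : ∫ t in (0 : ℝ)..1, t * (1 + a * t) * (1 - b ^ 2 * (t - 2 / 3) ^ 2 / 2) =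
        1 / 2 + a / 3 - b ^ 2 / 72 - a * b ^ 2 / 135 := by
      have h14 : ∀ t : ℝ, HasDerivAt (fun t : ℝ => t ^ 2 / 2 + a * t ^ 3 / 3 -
          b ^ 2 / 2 * (t ^ 4 / 4 - 4 / 9 * t ^ 3 + 2 / 9 * t ^ 2) -
          a * b ^ 2 / 2 * (t ^ 5 / 5 - t ^ 4 / 3 + 4 / 27 * t ^ 3))
          (t * (1 + a * t) * (1 - b ^ 2 * (t - 2 / 3) ^ 2 / 2)) t := by
        intro t
        have hh : ∀ n : ℕ, HasDerivAt (fun t : ℝ => t ^ n) (n * t ^ (n - 1)) t := fun n =>
          hasDerivAt_pow n t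
        have := ((((hh 2).div_const 2).add (((hh 3).const_mul a).div_const 3)).sub
          (((((hh 4).div_const 4).sub ((hh 3).const_mul (4 / 9))).add
            ((hh 2).const_mul (2 / 9))).const_mul (b ^ 2 / 2))).sub
          (((((hh 5).div_const 5).sub ((hh 4).div_const 3)).add
            ((hh 3).const_mul (4 / 27))).const_mul (a * b ^ 2 / 2))
        refine this.congr_deriv ?_
        push_cast
        ring
      rw [intervalIntegral.integral_eq_sub_of_hasDerivAt (fun t _ => h14 t)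
        (Continuous.intervalIntegrable (by fun_prop) _ _)]
      ring
    have h15 := intervalIntegral.integral_mono_on (μ := MeasureTheory.volume) (zero_le_one' ℝ)
      (Continuous.intervalIntegrable (by fun_prop) _ _)
      (Continuous.intervalIntegrable (by fun_prop) _ _) h6
    rw [h13] at h15
    refine le_trans ?_ h15
    nlinarith [mul_le_mul_of_nonneg_left hb1 ha0]
  have h16 : ‖Complex.exp (-(2 * b / 3 : ℝ) * Complex.I) * fa5_J p‖ = ‖fa5_J p‖ := by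
    rw [norm_mul, ← Complex.ofReal_neg, Complex.norm_exp_ofReal_mul_I, one_mul]
  rw [← h16]
  refine le_trans ?_ (Complex.re_le_norm _)
  rw [hr]
  exact hlow

theorem fa5_exp_le {x : ℝ} (hx : x ≤ 1) : Real.exp x ≤ 1 + x + x ^ 2 := by
  rcases le_or_gt (-1) x with h | h
  · have := Real.abs_exp_sub_one_sub_id_le (abs_le.2 ⟨h, hx⟩)
    have h2 := (abs_le.1 this).2
    linarith
  · have h1 : Real.exp x ≤ 1 := Real.exp_le_one_iff.2 (by linarith)
    nlinarith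

theorem fa5_upper (p : ℂ) (hp : ‖1 - p‖ ≤ 1) :
    ‖fa5_J p‖ ≤ 1 / 2 * Real.exp (2 * p.re / 3 + p.re ^ 2 / 18) := by
  set a := p.re with ha
  have h1 : a ^ 2 ≤ 2 * a := by
    have h2 : ‖1 - p‖ ^ 2 ≤ 1 := by
      have := norm_nonneg (1 - p)
      nlinarith
    rw [← Complex.normSq_eq_norm_sq, Complex.normSq_apply] at h2
    simp only [Complex.sub_re, Complex.one_re, Complex.sub_im, Complex.one_im] at h2
    nlinarith [sq_nonneg p.im]
  have ha0 : 0 ≤ a := by nlinarith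
  have ha2 : a ≤ 2 := by
    by_contra h
    push Not at h
    nlinarith
  have h3 : ‖fa5_J p‖ ≤ ∫ t in (0 : ℝ)..1, Real.exp (2 * a / 3) *
      (t * (1 + a * (t - 2 / 3) + (a * (t - 2 / 3)) ^ 2)) := by
    unfold fa5_J
    refine intervalIntegral.norm_integral_le_of_norm_le zero_le_one ?_
      (Continuous.intervalIntegrable (by fun_prop) _ _)
    refine Filter.Eventually.of_forall fun t ht => ?_
    obtain ⟨ht0, ht1⟩ := ht
    rw [norm_mul, Complex.norm_real, Real.norm_of_nonneg ht0.le, Complex.norm_exp]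
    have h4 : (p * (t : ℂ)).re = 2 * a / 3 + a * (t - 2 / 3) := by
      rw [Complex.re_mul_ofReal]
      ring
    rw [h4, Real.exp_add]
    have h5 : a * (t - 2 / 3) ≤ 1 := by nlinarith
    have h6 := fa5_exp_le h5
    calc t * (Real.exp (2 * a / 3) * Real.exp (a * (t - 2 / 3)))
        ≤ t * (Real.exp (2 * a / 3) * (1 + a * (t - 2 / 3) + (a * (t - 2 / 3)) ^ 2)) := by
          gcongr
      _ = _ := by ring
  have h7 : ∫ t in (0 : ℝ)..1, Real.exp (2 * a / 3) *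
      (t * (1 + a * (t - 2 / 3) + (a * (t - 2 / 3)) ^ 2)) =
      Real.exp (2 * a / 3) * (1 / 2 + a ^ 2 / 36) := by
    have h14 : ∀ t : ℝ, HasDerivAt (fun t : ℝ => Real.exp (2 * a / 3) * (t ^ 2 / 2 +
        a * (t ^ 3 / 3 - t ^ 2 / 3) + a ^ 2 * (t ^ 4 / 4 - 4 / 9 * t ^ 3 + 2 / 9 * t ^ 2)))
        (Real.exp (2 * a / 3) * (t * (1 + a * (t - 2 / 3) + (a * (t - 2 / 3)) ^ 2))) t := by
      intro t
      have hh : ∀ n : ℕ, HasDerivAt (fun t : ℝ => t ^ n) (n * t ^ (n - 1)) t := fun n =>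
        hasDerivAt_pow n t
      have := ((((hh 2).div_const 2).add ((((hh 3).div_const 3).sub
        ((hh 2).div_const 3)).const_mul a)).add
        (((((hh 4).div_const 4).sub ((hh 3).const_mul (4 / 9))).add
          ((hh 2).const_mul (2 / 9))).const_mul (a ^ 2))).const_mul (Real.exp (2 * a / 3))
      refine this.congr_deriv ?_
      push_cast
      ring
    rw [intervalIntegral.integral_eq_sub_of_hasDerivAt (fun t _ => h14 t)
      (Continuous.intervalIntegrable (by fun_prop) _ _)]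
    ring
  rw [h7] at h3
  refine h3.trans ?_
  rw [Real.exp_add]
  have h8 : 1 + a ^ 2 / 18 ≤ Real.exp (a ^ 2 / 18) := by
    have := Real.add_one_le_exp (a ^ 2 / 18)
    linarith
  have h9 : 0 < Real.exp (2 * a / 3) := Real.exp_pos _
  nlinarith

theorem ug_bounds (q : ℂ) (hq : ‖q‖ < 1) (l : ℝ) (hl : 0 < l) (hl2 : l ^ 2 = 2 * ‖1 - q‖) :
    1 / l ≤ ‖ug 0 q‖ ∧
    ‖ug 0 q‖ ≤ Real.exp (l / 3 + l ^ 2 / 36) / l ∧
    ‖ug 1 q‖ ≤ Real.exp (l ^ 2 / 12) / l ^ 3 ∧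
    ‖ug 2 q‖ ≤ (3 + l) / 2 * Real.exp (5 * l ^ 2 / 36) / l ^ 5 ∧
    ‖ug 3 q‖ ≤ (15 + 10 * l + 2 * l ^ 2) / 6 * Real.exp (7 * l ^ 2 / 36) / l ^ 7 := by
  obtain ⟨p, hup, hpq, hp1⟩ := ug_T q hq
  set u := ug 0 q with hu
  set a := p.re with ha
  have hnup : ‖u‖ * ‖p‖ = 1 := by rw [← norm_mul, hup, norm_one]
  have hp0 : 0 < ‖p‖ := by
    rcases (norm_nonneg p).lt_or_eq with h | h
    · exact h
    · rw [← h, mul_zero] at hnup
      exact absurd hnup (by norm_num)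
  have hu0 : 0 < ‖u‖ := by
    rcases (norm_nonneg u).lt_or_eq with h | h
    · exact h
    · rw [← h, zero_mul] at hnup
      exact absurd hnup (by norm_num)
  have hJ : 1 - q = p ^ 2 * fa5_J p := by rw [fa5_J_eq, hpq]
  have hnJ : ‖1 - q‖ = ‖p‖ ^ 2 * ‖fa5_J p‖ := by rw [hJ, norm_mul, norm_pow]
  have hlow := fa5_lower p hp1
  have hupp := fa5_upper p hp1
  rw [← ha] at hupp
  have h1 : a ^ 2 ≤ 2 * a := by
    have h2 : ‖1 - p‖ ^ 2 ≤ 1 := by
      have := norm_nonneg (1 - p)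
      nlinarith
    rw [← Complex.normSq_eq_norm_sq, Complex.normSq_apply] at h2
    simp only [Complex.sub_re, Complex.one_re, Complex.sub_im, Complex.one_im] at h2
    nlinarith [sq_nonneg p.im]
  have ha0 : 0 ≤ a := by nlinarith
  have hpl : ‖p‖ ≤ l := by
    refine le_of_sq_le_sq ?_ hl.le
    rw [hl2, hnJ]
    nlinarith [sq_nonneg ‖p‖]
  have hal : a ≤ l := (Complex.re_le_norm p).trans hpl
  have hlp : l ≤ ‖p‖ * Real.exp (a / 3 + a ^ 2 / 36) := by
    refine le_of_sq_le_sq ?_ (by positivity)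
    rw [mul_pow, ← Real.exp_nat_mul, hl2, hnJ]
    have h3 : ((2 : ℕ) : ℝ) * (a / 3 + a ^ 2 / 36) = 2 * a / 3 + a ^ 2 / 18 := by
      push_cast
      ring
    rw [h3]
    nlinarith [sq_nonneg ‖p‖, mul_le_mul_of_nonneg_left hupp (sq_nonneg ‖p‖)]
  have hT : ‖1 - p‖ ≤ Real.exp (-a) := by
    have h4 : ‖1 - p‖ * Real.exp a = ‖q‖ := by
      rw [← hpq, norm_mul, Complex.norm_exp]
    rw [Real.exp_neg, ← one_div, le_div_iff₀ (Real.exp_pos a), h4]
    exact hq.le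
  have hu1 : ‖u‖ ≤ Real.exp (a / 3 + a ^ 2 / 36) / l := by
    rw [le_div_iff₀ hl]
    calc ‖u‖ * l ≤ ‖u‖ * (‖p‖ * Real.exp (a / 3 + a ^ 2 / 36)) := by gcongr
      _ = ‖u‖ * ‖p‖ * Real.exp (a / 3 + a ^ 2 / 36) := by ring
      _ = _ := by rw [hnup, one_mul]
  have hu1T : u - 1 = u * (1 - p) := by linear_combination hup
  have ha2l : a ^ 2 ≤ l ^ 2 := by gcongr
  -- the general estimate
  have hgen : ∀ (n m : ℕ), n ≤ 3 * m → ‖u‖ ^ n * ‖1 - p‖ ^ m ≤
      Real.exp (n * l ^ 2 / 36) / l ^ n := by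
    intro n m hnm
    calc ‖u‖ ^ n * ‖1 - p‖ ^ m ≤ (Real.exp (a / 3 + a ^ 2 / 36) / l) ^ n * Real.exp (-a) ^ m := by
          gcongr
      _ = Real.exp (n * (a / 3 + a ^ 2 / 36) + m * (-a)) / l ^ n := by
          rw [div_pow, Real.exp_add (n * (a / 3 + a ^ 2 / 36)), ← Real.exp_nat_mul,
            ← Real.exp_nat_mul]
          ring
      _ ≤ Real.exp (n * l ^ 2 / 36) / l ^ n := by
          refine div_le_div_of_nonneg_right (Real.exp_le_exp.2 ?_) (pow_nonneg hl.le n)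
          have h5 : (n : ℝ) ≤ 3 * m := by exact_mod_cast hnm
          have h6 : (n : ℝ) * a ^ 2 ≤ n * l ^ 2 := by gcongr
          nlinarith
  refine ⟨?_, ?_, ?_, ?_, ?_⟩
  · rw [div_le_iff₀ hl, ← hnup]
    gcongr
  · refine hu1.trans ?_
    gcongr
  · have h7 : ug 1 q = u ^ 3 * (1 - p) := by
      rw [ug_one q hq, ← hu]
      linear_combination (u ^ 2) * hu1T
    rw [h7, norm_mul, norm_pow]
    have h8 := hgen 3 1 (by norm_num)
    rw [pow_one] at h8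
    refine h8.trans (le_of_eq ?_)
    congr 2
    push_cast
    ring
  · have h7 : ug 2 q = u ^ 5 * (1 - p) ^ 2 * ((3 + p) / 2) := by
      rw [ug_two q hq, ← hu]
      linear_combination (5 * u ^ 4 - u ^ 3 * (u * p + 1) -
        u ^ 2 * ((u * p) ^ 2 + u * p + 1)) / 2 * hup
    rw [h7, norm_mul, norm_mul, norm_pow, norm_pow]
    have h8 := hgen 5 2 (by norm_num)
    have h9 : ‖(3 + p) / 2‖ ≤ (3 + l) / 2 := by
      rw [norm_div, Complex.norm_ofNat]
      gcongr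
      refine (norm_add_le _ _).trans ?_
      rw [Complex.norm_ofNat]
      gcongr
    calc ‖u‖ ^ 5 * ‖1 - p‖ ^ 2 * ‖(3 + p) / 2‖ ≤
        Real.exp (((5 : ℕ) : ℝ) * l ^ 2 / 36) / l ^ 5 * ((3 + l) / 2) := by gcongr
      _ = _ := by
        push_cast
        ring
  · have h7 : ug 3 q = u ^ 7 * (1 - p) ^ 3 * ((15 + 10 * p + 2 * p ^ 2) / 6) := by
      rw [ug_three q hq, ← hu]
      linear_combination (35 * u ^ 6 - 17 * u ^ 5 * (1 + u * p) -
        9 * u ^ 4 * (1 + u * p + (u * p) ^ 2) + 4 * u ^ 3 * (1 + u * p + (u * p) ^ 2 + (u * p) ^ 3) +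
        2 * u ^ 2 * (1 + u * p + (u * p) ^ 2 + (u * p) ^ 3 + (u * p) ^ 4)) / 6 * hup
    rw [h7, norm_mul, norm_mul, norm_pow, norm_pow]
    have h8 := hgen 7 3 (by norm_num)
    have h9 : ‖(15 + 10 * p + 2 * p ^ 2) / 6‖ ≤ (15 + 10 * l + 2 * l ^ 2) / 6 := by
      rw [norm_div, Complex.norm_ofNat]
      gcongr
      refine (norm_add_le _ _).trans ?_
      refine add_le_add ((norm_add_le _ _).trans ?_) ?_
      · rw [norm_mul, Complex.norm_ofNat, Complex.norm_ofNat]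
        gcongr
      · rw [norm_mul, Complex.norm_ofNat, norm_pow]
        gcongr
    calc ‖u‖ ^ 7 * ‖1 - p‖ ^ 3 * ‖(15 + 10 * p + 2 * p ^ 2) / 6‖ ≤
        Real.exp (((7 : ℕ) : ℝ) * l ^ 2 / 36) / l ^ 7 * ((15 + 10 * l + 2 * l ^ 2) / 6) := by gcongr
      _ = _ := by
        push_cast
        ring

end MP_d1b55a
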