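import Pool.Agent.Lib.MP_d1b55a_co.FDefs

/-!
FB2. The complex extensions. csinc = dslope sin 0 is entire (differentiableOn_dslope), csinc z = sin z / z off 0,
csinc 0 = 1. PROOF of the bounds. Power series: |csinc x - 1 + x²/6| ≤ |x|⁴ ∑_{k≥2} |x|^{2k-4}/(2k+1)! ≤ |x|⁴/117 (|x| ≤ 11/10)
(or Mathlib's exponential remainder bounds for sin). |csinc x - 1| ≤ |x|²/6 + |x|⁴/117 ≤ 1/4 for |x| ≤ 11/10.
|log (1+u) - u| ≤ |u|²/(2(1-|u|)) (Complex.norm_log_one_add_sub_self_le), for |x| ≤ 1: |u| ≤ .1753 |x|², so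
|log (csinc x) + x²/6| ≤ |x|⁴ (1/117 + .0187) ≤ |x|⁴/36. Multiply by ζ/ε², x = ζ ε/2:
|Scx| = exp (Re (ζ/ε² log)) ≤ exp (- Re ζ³/24 + ε² |ζ|⁵/576).
kapx: 1 - cos x/csinc x = (csinc x - cos x)/csinc x, |csinc x - cos x| ≤ |x|²/3 + |x|⁴/30 + ... ≤ .37 |x|², |csinc x| ≥ .82.
Values at w_n: for 0 ≤ x ≤ 11/10 real, sinc x > 0, exp (n log (sinc x)) = sinc x ^ n; Kn = S_n (1 - cos x/sinc x - i x).
-/

open Finset

namespace MP_d1b55a

theorem FB2_tail (f : ℕ → ℂ) (s : ℂ) (hf : HasSum f s) (N : ℕ) (C r : ℝ) (hr0 : 0 ≤ r) (hr : r < 1)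
    (hb : ∀ n, ‖f (n + N)‖ ≤ C * r ^ n) : ‖s - ∑ i ∈ Finset.range N, f i‖ ≤ C * (1 - r)⁻¹ :=
  HasSum.norm_le_of_bounded ((hasSum_nat_add_iff' N).mpr hf)
    ((hasSum_geometric_of_lt_one hr0 hr).mul_left C) hb

theorem FB2_fact5 (n : ℕ) : 120 * (42 : ℝ) ^ n ≤ ((2 * (n + 2) + 1).factorial : ℝ) := by
  induction n with
  | zero => norm_num [Nat.factorial]
  | succ n ih =>
    have h : ((2 * (n + 1 + 2) + 1).factorial : ℝ) =
        (2 * n + 7) * ((2 * n + 6) * ((2 * (n + 2) + 1).factorial : ℝ)) := by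
      have : 2 * (n + 1 + 2) + 1 = (2 * (n + 2) + 1) + 1 + 1 := by ring
      rw [this, Nat.factorial_succ, Nat.factorial_succ]
      push_cast
      ring
    rw [h, pow_succ]
    have hp : (0 : ℝ) < ((2 * (n + 2) + 1).factorial : ℝ) := by positivity
    have hn : (0 : ℝ) ≤ n := by positivity
    nlinarith [mul_nonneg hn hp.le, mul_nonneg (mul_nonneg hn hn) hp.le]

theorem FB2_fact4 (n : ℕ) : 24 * (30 : ℝ) ^ n ≤ ((2 * (n + 2)).factorial : ℝ) := by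
  induction n with
  | zero => norm_num [Nat.factorial]
  | succ n ih =>
    have h : ((2 * (n + 1 + 2)).factorial : ℝ) =
        (2 * n + 6) * ((2 * n + 5) * ((2 * (n + 2)).factorial : ℝ)) := by
      have : 2 * (n + 1 + 2) = (2 * (n + 2)) + 1 + 1 := by ring
      rw [this, Nat.factorial_succ, Nat.factorial_succ]
      push_cast
      ring
    rw [h, pow_succ]
    have hp : (0 : ℝ) < ((2 * (n + 2)).factorial : ℝ) := by positivity
    have hn : (0 : ℝ) ≤ n := by positivity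
    nlinarith [mul_nonneg hn hp.le, mul_nonneg (mul_nonneg hn hn) hp.le]

theorem FB2_sin (x : ℂ) (hx : ‖x‖ ≤ 11 / 10) :
    ‖Complex.sin x - (x - x ^ 3 / 6)‖ ≤ ‖x‖ ^ 5 / 116 := by
  set r := ‖x‖ with hr
  have hr0 : 0 ≤ r := norm_nonneg _
  have hr2 : r ^ 2 ≤ 1.21 := by nlinarith
  have h := FB2_tail _ _ (Complex.hasSum_sin x) 2 (r ^ 5 / 120) (r ^ 2 / 42) (by positivity)
    (by linarith) (fun n => by
      rw [norm_div, norm_mul, norm_pow, norm_pow, norm_neg, norm_one, one_pow, one_mul,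
        Complex.norm_natCast, ← hr]
      have h5 := FB2_fact5 n
      have hp : (0 : ℝ) < 120 * (42 : ℝ) ^ n := by positivity
      calc r ^ (2 * (n + 2) + 1) / ((2 * (n + 2) + 1).factorial : ℝ) ≤
          r ^ (2 * (n + 2) + 1) / (120 * (42 : ℝ) ^ n) := by gcongr
        _ = r ^ 5 / 120 * (r ^ 2 / 42) ^ n := by
          rw [div_pow, ← pow_mul]
          field_simp
          ring)
  have h2 : ∑ i ∈ Finset.range 2, (-1 : ℂ) ^ i * x ^ (2 * i + 1) / ((2 * i + 1).factorial : ℂ) =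
      x - x ^ 3 / 6 := by
    simp [Finset.sum_range_succ, Nat.factorial]
    ring
  rw [h2] at h
  refine h.trans ?_
  have h3 : (1 - r ^ 2 / 42)⁻¹ ≤ 120 / 116 := by
    rw [inv_le_comm₀ (by linarith) (by norm_num)]
    norm_num
    linarith
  calc r ^ 5 / 120 * (1 - r ^ 2 / 42)⁻¹ ≤ r ^ 5 / 120 * (120 / 116) := by gcongr
    _ = r ^ 5 / 116 := by ring

theorem FB2_cos (x : ℂ) (hx : ‖x‖ ≤ 1) :
    ‖Complex.cos x - (1 - x ^ 2 / 2)‖ ≤ ‖x‖ ^ 4 / 20 := by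
  set r := ‖x‖ with hr
  have hr0 : 0 ≤ r := norm_nonneg _
  have hr2 : r ^ 2 ≤ 1 := by nlinarith
  have h := FB2_tail _ _ (Complex.hasSum_cos x) 2 (r ^ 4 / 24) (r ^ 2 / 30) (by positivity)
    (by linarith) (fun n => by
      rw [norm_div, norm_mul, norm_pow, norm_pow, norm_neg, norm_one, one_pow, one_mul,
        Complex.norm_natCast, ← hr]
      have h5 := FB2_fact4 n
      have hp : (0 : ℝ) < 24 * (30 : ℝ) ^ n := by positivity
      calc r ^ (2 * (n + 2)) / ((2 * (n + 2)).factorial : ℝ) ≤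
          r ^ (2 * (n + 2)) / (24 * (30 : ℝ) ^ n) := by gcongr
        _ = r ^ 4 / 24 * (r ^ 2 / 30) ^ n := by
          rw [div_pow, ← pow_mul]
          field_simp
          ring)
  have h2 : ∑ i ∈ Finset.range 2, (-1 : ℂ) ^ i * x ^ (2 * i) / ((2 * i).factorial : ℂ) =
      1 - x ^ 2 / 2 := by
    simp [Finset.sum_range_succ, Nat.factorial]
    ring
  rw [h2] at h
  refine h.trans ?_
  have h3 : (1 - r ^ 2 / 30)⁻¹ ≤ 24 / 20 := by
    rw [inv_le_comm₀ (by linarith) (by norm_num)]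
    norm_num
    linarith
  calc r ^ 4 / 24 * (1 - r ^ 2 / 30)⁻¹ ≤ r ^ 4 / 24 * (24 / 20) := by gcongr
    _ = r ^ 4 / 20 := by ring

theorem FB2_csinc_zero : csinc 0 = 1 := by
  unfold csinc
  rw [dslope_same, Complex.deriv_sin, Complex.cos_zero]

theorem FB2_csinc_of_ne (x : ℂ) (hx : x ≠ 0) : csinc x = Complex.sin x / x := by
  unfold csinc
  rw [dslope_of_ne _ hx, slope_def_field, Complex.sin_zero, sub_zero, sub_zero]

theorem FB2_csinc_mul (x : ℂ) : csinc x * x = Complex.sin x := by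
  by_cases hx : x = 0
  · subst hx; simp
  · rw [FB2_csinc_of_ne x hx, div_mul_cancel₀ _ hx]

theorem FB2_csinc (x : ℂ) (hx : ‖x‖ ≤ 11 / 10) :
    ‖csinc x - (1 - x ^ 2 / 6)‖ ≤ ‖x‖ ^ 4 / 116 := by
  by_cases h0 : x = 0
  · subst h0; simp [FB2_csinc_zero]
  · have hp : 0 < ‖x‖ := norm_pos_iff.mpr h0
    have h := FB2_sin x hx
    have h2 : Complex.sin x - (x - x ^ 3 / 6) = (csinc x - (1 - x ^ 2 / 6)) * x := by
      rw [← FB2_csinc_mul x]; ring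
    rw [h2, norm_mul] at h
    have h3 : ‖x‖ ^ 5 / 116 = ‖x‖ ^ 4 / 116 * ‖x‖ := by ring
    rw [h3] at h
    exact le_of_mul_le_mul_right h hp

theorem FB2_csinc1 (x : ℂ) (hx : ‖x‖ ≤ 11 / 10) :
    ‖csinc x - 1‖ ≤ ‖x‖ ^ 2 / 6 + ‖x‖ ^ 4 / 116 := by
  have h := FB2_csinc x hx
  have h2 : csinc x - 1 = (csinc x - (1 - x ^ 2 / 6)) - x ^ 2 / 6 := by ring
  rw [h2]
  refine (norm_sub_le _ _).trans ?_
  rw [norm_div, norm_pow]
  norm_num
  linarith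

theorem csinc_near (x : ℂ) (hx : ‖x‖ ≤ 11 / 10) : ‖csinc x - 1‖ ≤ 1 / 4 := by
  refine (FB2_csinc1 x hx).trans ?_
  have hr0 : 0 ≤ ‖x‖ := norm_nonneg _
  have h2 : ‖x‖ ^ 2 ≤ 1.21 := by nlinarith
  have h4 : ‖x‖ ^ 4 ≤ 1.4641 := by
    have : ‖x‖ ^ 4 = (‖x‖ ^ 2) ^ 2 := by ring
    rw [this]; nlinarith [sq_nonneg ‖x‖]
  linarith

theorem FB2_csinc_ne (x : ℂ) (hx : ‖x‖ ≤ 11 / 10) : csinc x ≠ 0 := by
  intro h
  have := csinc_near x hx
  rw [h] at this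
  norm_num at this

theorem FB2_csinc_slit (x : ℂ) (hx : ‖x‖ ≤ 11 / 10) : csinc x ∈ Complex.slitPlane := by
  rw [Complex.mem_slitPlane_iff]
  left
  have h := csinc_near x hx
  have h2 := (abs_le.mp (Complex.abs_re_le_norm (csinc x - 1))).1
  rw [Complex.sub_re, Complex.one_re] at h2
  linarith

theorem FB2_csinc_real (x : ℝ) : csinc ((x : ℝ) : ℂ) = ((Real.sinc x : ℝ) : ℂ) := by
  by_cases hx : x = 0
  · subst hx; simp [FB2_csinc_zero]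
  · rw [FB2_csinc_of_ne _ (by exact_mod_cast hx), Real.sinc_of_ne_zero hx]
    push_cast
    rfl

theorem FB2_csinc_diff : Differentiable ℂ csinc := by
  have h : DifferentiableOn ℂ (dslope Complex.sin 0) Set.univ :=
    (Complex.differentiableOn_dslope Filter.univ_mem).mpr Complex.differentiable_sin.differentiableOn
  exact fun x => (h x (Set.mem_univ x)).differentiableAt Filter.univ_mem

theorem FB2_norm_arg (ε : ℝ) (h0 : 0 < ε) (z : ℂ) (hz : ‖z‖ ≤ 11 / 5 / ε) :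
    ‖z * ((ε / 2 : ℝ) : ℂ)‖ ≤ 11 / 10 := by
  rw [norm_mul, Complex.norm_real, Real.norm_eq_abs, abs_of_pos (by positivity)]
  rw [le_div_iff₀ h0] at hz
  linarith

theorem FB2_Scx_diff (ε : ℝ) (h0 : 0 < ε) :
    DifferentiableOn ℂ (Scx ε) (Metric.ball 0 (11 / 5 / ε)) := by
  unfold Scx
  apply DifferentiableOn.cexp
  apply DifferentiableOn.mul
  · fun_prop
  · apply DifferentiableOn.clog
    · exact (FB2_csinc_diff.comp (by fun_prop)).differentiableOn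
    · intro z hz
      rw [mem_ball_zero_iff] at hz
      exact FB2_csinc_slit _ (FB2_norm_arg ε h0 z hz.le)

theorem gAx_diff (ε : ℝ) (h0 : 0 < ε) (j : ℕ) :
    DifferentiableOn ℂ (gAx ε j) (Metric.ball 0 (11 / 5 / ε)) := by
  unfold gAx
  exact DifferentiableOn.mul (by fun_prop) (FB2_Scx_diff ε h0)

theorem gEx_diff (ε : ℝ) (h0 : 0 < ε) (j : ℕ) :
    DifferentiableOn ℂ (gEx ε j) (Metric.ball 0 (11 / 5 / ε)) := by
  unfold gEx
  apply DifferentiableOn.mul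
  · exact DifferentiableOn.mul (by fun_prop) (FB2_Scx_diff ε h0)
  · apply DifferentiableOn.div_const
    unfold kapx
    apply DifferentiableOn.sub
    · apply DifferentiableOn.sub
      · fun_prop
      · apply DifferentiableOn.div
        · fun_prop
        · exact (FB2_csinc_diff.comp (by fun_prop)).differentiableOn
        · intro z hz
          rw [mem_ball_zero_iff] at hz
          exact FB2_csinc_ne _ (FB2_norm_arg ε h0 z hz.le)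
    · fun_prop

theorem FB2_arg (ε : ℝ) (n : ℕ) :
    ((wn ε n : ℝ) : ℂ) * ((ε / 2 : ℝ) : ℂ) = ((xn ε n : ℝ) : ℂ) := by
  rw [← Complex.ofReal_mul]
  congr 1
  unfold wn xn
  ring

theorem FB2_xn_le (ε : ℝ) (h0 : 0 < ε) (n : ℕ) (hn : wn ε n < 11 / 5 / ε) :
    ‖((xn ε n : ℝ) : ℂ)‖ ≤ 11 / 10 := by
  rw [← FB2_arg]
  apply FB2_norm_arg ε h0
  rw [Complex.norm_real, Real.norm_eq_abs, abs_of_nonneg (by unfold wn; positivity)]
  exact hn.le

theorem FB2_Scx_wn (ε : ℝ) (h0 : 0 < ε) (n : ℕ) (hn : wn ε n < 11 / 5 / ε) :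
    Scx ε ((wn ε n : ℝ) : ℂ) = ((Sn ε n : ℝ) : ℂ) := by
  have hne := FB2_csinc_ne _ (FB2_xn_le ε h0 n hn)
  unfold Scx Sn
  rw [FB2_arg]
  have h1 : ((wn ε n : ℝ) : ℂ) / ((ε ^ 2 : ℝ) : ℂ) = (n : ℂ) := by
    rw [← Complex.ofReal_div]
    have : wn ε n / ε ^ 2 = n := by unfold wn; field_simp
    rw [this]
    push_cast
    rfl
  rw [h1, Complex.exp_nat_mul, Complex.exp_log hne, FB2_csinc_real]
  push_cast
  rfl

theorem gAx_wn (ε : ℝ) (h0 : 0 < ε) (j n : ℕ) (hn : wn ε n < 11 / 5 / ε) :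
    gAx ε j ((wn ε n : ℝ) : ℂ) = gA ε j n := by
  unfold gAx gA
  rw [FB2_Scx_wn ε h0 n hn]
  push_cast
  ring

theorem gEx_wn (ε : ℝ) (h0 : 0 < ε) (j n : ℕ) (hn : wn ε n < 11 / 5 / ε) :
    gEx ε j ((wn ε n : ℝ) : ℂ) = gE ε j n := by
  have hne := FB2_csinc_ne _ (FB2_xn_le ε h0 n hn)
  have hεc : (ε : ℂ) ≠ 0 := by exact_mod_cast h0.ne'
  unfold gEx gE
  rw [FB2_Scx_wn ε h0 n hn, FB2_arg]
  by_cases h : n = 0
  · subst h
    have hx : xn ε 0 = 0 := by unfold xn; simp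
    unfold Kn kapx
    rw [hx]
    simp [FB2_csinc_zero]
  · obtain ⟨m, rfl⟩ : ∃ m, n = m + 1 := ⟨n - 1, by omega⟩
    unfold Kn kapx Sn
    rw [if_neg h, FB2_csinc_real, Nat.add_sub_cancel]
    rw [FB2_csinc_real] at hne
    push_cast
    field_simp
    ring

theorem FB2_log (x : ℂ) (hx : ‖x‖ ≤ 1) :
    ‖Complex.log (csinc x) + x ^ 2 / 6‖ ≤ ‖x‖ ^ 4 / 36 := by
  have h1 := FB2_csinc x (by linarith)
  have h2 := FB2_csinc1 x (by linarith)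
  set r := ‖x‖ with hr
  have hr0 : 0 ≤ r := norm_nonneg _
  have hr2 : r ^ 2 ≤ 1 := by nlinarith
  have hrp : 0 ≤ r ^ 2 := by positivity
  have hr4 : r ^ 4 ≤ r ^ 2 := by
    have : r ^ 4 = r ^ 2 * r ^ 2 := by ring
    rw [this]; nlinarith [sq_nonneg r]
  set u := csinc x - 1 with hu
  have hu1 : ‖u‖ ≤ 0.1753 * r ^ 2 := by linarith
  have hu2 : ‖u‖ ≤ 0.1753 := by linarith
  have hu0 : 0 ≤ ‖u‖ := norm_nonneg _
  have h3 := Complex.norm_log_one_add_sub_self_le (z := u) (by linarith)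
  have h4 : (1 - ‖u‖)⁻¹ ≤ 1.2126 := by
    rw [inv_le_comm₀ (by linarith) (by norm_num)]
    norm_num
    linarith
  have h5 : ‖u‖ ^ 2 ≤ 0.03074 * r ^ 4 := by
    have : ‖u‖ ^ 2 ≤ (0.1753 * r ^ 2) ^ 2 := by gcongr
    nlinarith [sq_nonneg (r ^ 2)]
  have h6 : ‖Complex.log (1 + u) - u‖ ≤ 0.03074 * r ^ 4 * 1.2126 / 2 := by
    refine h3.trans ?_
    have : 0 ≤ (1 - ‖u‖)⁻¹ := inv_nonneg.mpr (by linarith)
    gcongr
  have h7 : Complex.log (csinc x) + x ^ 2 / 6 =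
      (Complex.log (1 + u) - u) + (csinc x - (1 - x ^ 2 / 6)) := by
    rw [hu, add_sub_cancel]
    ring
  rw [h7]
  refine (norm_add_le _ _).trans ?_
  have hp : 0 ≤ r ^ 4 := by positivity
  linarith

theorem FB2_re_cube (z : ℂ) : (z ^ 3).re = z.re ^ 3 - 3 * z.re * z.im ^ 2 := by
  simp [pow_succ, Complex.mul_re, Complex.mul_im]
  ring

theorem FB2_Scx_bound (ε : ℝ) (h0 : 0 < ε) (z : ℂ) (hz : ‖z‖ ≤ 2 / ε) :
    ‖Scx ε z‖ ≤ Real.exp (-(z.re ^ 3 - 3 * z.re * z.im ^ 2) / 24 + ε ^ 2 * ‖z‖ ^ 5 / 576) := by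
  unfold Scx
  rw [Complex.norm_exp, Real.exp_le_exp]
  have hεc : (ε : ℂ) ≠ 0 := by exact_mod_cast h0.ne'
  set x := z * ((ε / 2 : ℝ) : ℂ) with hx
  have hxn : ‖x‖ = ‖z‖ * (ε / 2) := by
    rw [hx, norm_mul, Complex.norm_real, Real.norm_eq_abs, abs_of_pos (by positivity)]
  have hx1 : ‖x‖ ≤ 1 := by
    rw [hxn]
    rw [le_div_iff₀ h0] at hz
    linarith
  have h := FB2_log x hx1
  have h2 : z / ((ε ^ 2 : ℝ) : ℂ) * Complex.log (csinc x) =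
      ((-(1 / 24) : ℝ) : ℂ) * z ^ 3 + z / ((ε ^ 2 : ℝ) : ℂ) * (Complex.log (csinc x) + x ^ 2 / 6) := by
    rw [hx]
    push_cast
    field_simp
    ring
  rw [h2, Complex.add_re, Complex.re_ofReal_mul, FB2_re_cube]
  have h3 := Complex.re_le_norm (z / ((ε ^ 2 : ℝ) : ℂ) * (Complex.log (csinc x) + x ^ 2 / 6))
  have h4 : ‖z / ((ε ^ 2 : ℝ) : ℂ) * (Complex.log (csinc x) + x ^ 2 / 6)‖ ≤
      ε ^ 2 * ‖z‖ ^ 5 / 576 := by
    rw [norm_mul, norm_div, Complex.norm_real, Real.norm_eq_abs, abs_of_pos (by positivity)]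
    calc ‖z‖ / ε ^ 2 * ‖Complex.log (csinc x) + x ^ 2 / 6‖ ≤ ‖z‖ / ε ^ 2 * (‖x‖ ^ 4 / 36) := by
          gcongr
      _ = ε ^ 2 * ‖z‖ ^ 5 / 576 := by
          rw [hxn]
          field_simp
          ring
  linarith

theorem gAx_bound (ε : ℝ) (h0 : 0 < ε) (j : ℕ) (z : ℂ) (hz : ‖z‖ ≤ 2 / ε) :
    ‖gAx ε j z‖ ≤ ‖z‖ ^ j *
      Real.exp (127 / 100 * z.re - (z.re ^ 3 - 3 * z.re * z.im ^ 2) / 24 + ε ^ 2 * ‖z‖ ^ 5 / 576) := by
  unfold gAx
  rw [norm_mul, norm_mul, norm_pow, Complex.norm_exp, mul_assoc]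
  have h1 : ((127 / 100 : ℂ) * z).re = 127 / 100 * z.re := by
    rw [show (127 / 100 : ℂ) = (((127 / 100 : ℝ)) : ℂ) by push_cast; rfl, Complex.re_ofReal_mul]
  rw [h1]
  have h2 := FB2_Scx_bound ε h0 z hz
  have h3 : Real.exp (127 / 100 * z.re - (z.re ^ 3 - 3 * z.re * z.im ^ 2) / 24 +
      ε ^ 2 * ‖z‖ ^ 5 / 576) = Real.exp (127 / 100 * z.re) *
      Real.exp (-(z.re ^ 3 - 3 * z.re * z.im ^ 2) / 24 + ε ^ 2 * ‖z‖ ^ 5 / 576) := by
    rw [← Real.exp_add]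
    congr 1
    ring
  rw [h3]
  gcongr

theorem FB2_kapx (x : ℂ) (hx : ‖x‖ ≤ 1) : ‖kapx x‖ ≤ 8 / 5 * ‖x‖ := by
  have hne := FB2_csinc_ne x (by linarith)
  have h1 := FB2_csinc x (by linarith)
  have h2 := FB2_csinc1 x (by linarith)
  have h3 := FB2_cos x hx
  set r := ‖x‖ with hr
  have hr0 : 0 ≤ r := norm_nonneg _
  have hr2 : r ^ 2 ≤ r := by nlinarith
  have hr21 : r ^ 2 ≤ 1 := by linarith
  have hrp : 0 ≤ r ^ 2 := by positivity
  have hr4 : r ^ 4 ≤ r ^ 2 := by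
    have : r ^ 4 = r ^ 2 * r ^ 2 := by ring
    rw [this]; nlinarith [sq_nonneg r]
  have hd : ‖csinc x - Complex.cos x‖ ≤ 0.4 * r ^ 2 := by
    have e : csinc x - Complex.cos x = (csinc x - (1 - x ^ 2 / 6)) -
        (Complex.cos x - (1 - x ^ 2 / 2)) + x ^ 2 / 3 := by ring
    rw [e]
    refine (norm_add_le _ _).trans ?_
    have e2 := norm_sub_le (csinc x - (1 - x ^ 2 / 6)) (Complex.cos x - (1 - x ^ 2 / 2))
    have e3 : ‖x ^ 2 / 3‖ = r ^ 2 / 3 := by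
      rw [norm_div, norm_pow, ← hr]; norm_num
    rw [e3]
    linarith
  have hc : 0.8 ≤ ‖csinc x‖ := by
    have e : (1 : ℂ) = csinc x - (csinc x - 1) := by ring
    have e2 := norm_sub_le (csinc x) (csinc x - 1)
    rw [← e, norm_one] at e2
    linarith
  have hk : kapx x = (csinc x - Complex.cos x) / csinc x - Complex.I * x := by
    unfold kapx
    field_simp
  rw [hk]
  refine (norm_sub_le _ _).trans ?_
  rw [norm_div, norm_mul, Complex.norm_I, one_mul, ← hr]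
  have hq : ‖csinc x - Complex.cos x‖ / ‖csinc x‖ ≤ 0.5 * r ^ 2 := by
    rw [div_le_iff₀ (by linarith)]
    nlinarith [sq_nonneg r]
  linarith

theorem gEx_bound (ε : ℝ) (h0 : 0 < ε) (j : ℕ) (z : ℂ) (hz : ‖z‖ ≤ 2 / ε) :
    ‖gEx ε j z‖ ≤ 4 / 5 * ‖z‖ ^ (j + 1) *
      Real.exp (127 / 100 * z.re - (z.re ^ 3 - 3 * z.re * z.im ^ 2) / 24 + ε ^ 2 * ‖z‖ ^ 5 / 576) := by
  have h1 := gAx_bound ε h0 j z hz
  have hxn : ‖z * ((ε / 2 : ℝ) : ℂ)‖ = ‖z‖ * (ε / 2) := by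
    rw [norm_mul, Complex.norm_real, Real.norm_eq_abs, abs_of_pos (by positivity)]
  have hx1 : ‖z * ((ε / 2 : ℝ) : ℂ)‖ ≤ 1 := by
    rw [hxn]
    rw [le_div_iff₀ h0] at hz
    linarith
  have h2 := FB2_kapx _ hx1
  rw [hxn] at h2
  have h3 : gEx ε j z = gAx ε j z * (kapx (z * ((ε / 2 : ℝ) : ℂ)) / (ε : ℂ)) := rfl
  rw [h3, norm_mul, norm_div, Complex.norm_real, Real.norm_eq_abs, abs_of_pos h0]
  have h4 : ‖kapx (z * ((ε / 2 : ℝ) : ℂ))‖ / ε ≤ 4 / 5 * ‖z‖ := by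
    rw [div_le_iff₀ h0]
    linarith
  set E := Real.exp (127 / 100 * z.re - (z.re ^ 3 - 3 * z.re * z.im ^ 2) / 24 +
    ε ^ 2 * ‖z‖ ^ 5 / 576) with hE
  calc ‖gAx ε j z‖ * (‖kapx (z * ((ε / 2 : ℝ) : ℂ))‖ / ε) ≤ (‖z‖ ^ j * E) * (4 / 5 * ‖z‖) := by
        gcongr
    _ = 4 / 5 * ‖z‖ ^ (j + 1) * E := by ring

end MP_d1b55a
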