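import Pool.Agent.Lib.MP_d1b55a_co.FDefs

/-!
FB3. Numeric bounds on a strip. With ρ = sqrt (x²+y²), P = 1.27 x - (x³ - 3 x y²)/24 + h ρ⁵/576, y² ≤ 25/4.
True maxima of ρ^k e^P (k = 0..3): 279, 1369, 6918, 35915 at (x, |y|) = (4.14, 2.5), (4.30, 2.5), (4.48, 2.5), (4.62, 2.5), h = .0209.
PROOF: ρ^k ≤ ρ0^k exp (k (ρ²/ρ0² - 1)/2); the last term is at most `a x³ + b` on each of the intervals
[0,5], [5,6], [6,8], [8,8.5], [8.5,10], [10,∞); then cubic inequalities.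
-/

open Finset

namespace MP_d1b55a

lemma FB3_pow (r r0 : ℝ) (hr : 0 ≤ r) (hr0 : 0 < r0) (k : ℕ) :
    r ^ k ≤ r0 ^ k * Real.exp (k * ((r ^ 2 / r0 ^ 2 - 1) / 2)) := by
  have h1 : r / r0 ≤ Real.exp ((r ^ 2 / r0 ^ 2 - 1) / 2) := by
    refine le_of_pow_le_pow_left₀ two_ne_zero (Real.exp_pos _).le ?_
    rw [← Real.exp_nat_mul]
    have h2 := Real.add_one_le_exp (r ^ 2 / r0 ^ 2 - 1)
    have h3 : ((2 : ℕ) : ℝ) * ((r ^ 2 / r0 ^ 2 - 1) / 2) = r ^ 2 / r0 ^ 2 - 1 := by push_cast; ring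
    rw [h3, div_pow]
    linarith
  have h4 : r ≤ r0 * Real.exp ((r ^ 2 / r0 ^ 2 - 1) / 2) := by
    rw [div_le_iff₀ hr0] at h1
    linarith
  calc r ^ k ≤ (r0 * Real.exp ((r ^ 2 / r0 ^ 2 - 1) / 2)) ^ k := pow_le_pow_left₀ hr h4 k
    _ = _ := by rw [mul_pow, ← Real.exp_nat_mul]

lemma FB3_T (h x r c H : ℝ) (hr : 0 ≤ r) (hx : 0 ≤ x) (hc : 0 ≤ c) (hH : 0 ≤ H) (hrc : r ^ 2 ≤ (c * x) ^ 2)
    (hh : h * r ^ 2 ≤ H) : h * r ^ 5 / 576 ≤ H * c ^ 3 / 576 * x ^ 3 := by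
  have h1 : r ≤ c * x := le_of_pow_le_pow_left₀ two_ne_zero (by positivity) hrc
  have h2 : r ^ 3 ≤ (c * x) ^ 3 := pow_le_pow_left₀ hr h1 3
  have h3 : h * r ^ 5 ≤ H * (c * x) ^ 3 := by
    calc h * r ^ 5 = h * r ^ 2 * r ^ 3 := by ring
      _ ≤ H * r ^ 3 := mul_le_mul_of_nonneg_right hh (by positivity)
      _ ≤ H * (c * x) ^ 3 := mul_le_mul_of_nonneg_left h2 hH
  have h4 : H * c ^ 3 / 576 * x ^ 3 = H * (c * x) ^ 3 / 576 := by ring
  rw [h4]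
  exact div_le_div_of_nonneg_right h3 (by norm_num)

lemma FB3_e1 : Real.exp 1 ≤ 2.7182818286 := Real.exp_one_lt_d9.le

lemma FB3_num (a b : ℝ) (N M : ℕ) (hM : 0 < M) (hb : 0 ≤ b) (ha : a * M = N)
    (h : (2.7182818286 : ℝ) ^ N ≤ b ^ M) : Real.exp a ≤ b := by
  refine le_of_pow_le_pow_left₀ hM.ne' hb ?_
  rw [← Real.exp_nat_mul]
  have h1 : (M : ℝ) * a = N * 1 := by rw [mul_comm, ha, mul_one]
  rw [h1, Real.exp_nat_mul]
  exact (pow_le_pow_left₀ (Real.exp_pos _).le FB3_e1 N).trans h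

lemma FB3_cub (x x1 : ℝ) (hx : x1 ≤ x) :
    x1 ^ 3 + 3 * x1 ^ 2 * (x - x1) + 3 * x1 * (x - x1) ^ 2 ≤ x ^ 3 := by
  have h := pow_nonneg (sub_nonneg.mpr hx) 3
  nlinarith

/-- the exponent on the right half of the strip without the last term -/
lemma FB3_P (x y : ℝ) (hx : 0 ≤ x) (hy : y ^ 2 ≤ 25 / 4) :
    127 / 100 * x - (x ^ 3 - 3 * x * y ^ 2) / 24 ≤ 2.05125 * x - x ^ 3 / 24 := by
  have := mul_le_mul_of_nonneg_left hy hx
  nlinarith

lemma FB3_right (h x y r : ℝ) (h0 : 0 ≤ h) (h1 : h ≤ 0.0209) (hx : 0 ≤ x) (hx8 : x ≤ 8) (hr : 0 ≤ r)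
    (hr2 : r ^ 2 = x ^ 2 + y ^ 2) (hy : y ^ 2 ≤ 25 / 4) (k : ℕ) (hk : k ≤ 3) :
    (127 / 100 * x - (x ^ 3 - 3 * x * y ^ 2) / 24 + h * r ^ 5 / 576) +
      k * ((r ^ 2 / 5 ^ 2 - 1) / 2) ≤ ![57 / 10, 113 / 20, 17 / 3, 40 / 7] ⟨k, by omega⟩ := by
  have hP := FB3_P x y hx hy
  have hr3 : r ^ 2 ≤ x ^ 2 + 25 / 4 := by linarith
  have hk0 : (0 : ℝ) ≤ k := Nat.cast_nonneg k
  have hK : (k : ℝ) * ((r ^ 2 / 5 ^ 2 - 1) / 2) ≤ k * ((x ^ 2 - 18.75) / 50) := by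
    refine mul_le_mul_of_nonneg_left ?_ hk0
    linarith
  have hx3 : 0 ≤ x ^ 3 := by positivity
  rcases le_total x 5 with hx5 | hx5
  · have hT : h * r ^ 5 / 576 ≤ 0.0016 * x ^ 3 + 0.0128 := by
      have e1 : r ≤ (r ^ 2 + 25) / 10 := by nlinarith [sq_nonneg (r - 5)]
      have e2 : r ^ 5 ≤ (x ^ 2 + 25 / 4) ^ 2 * ((x ^ 2 + 25 / 4 + 25) / 10) := by
        calc r ^ 5 = (r ^ 2) ^ 2 * r := by ring
          _ ≤ (r ^ 2) ^ 2 * ((r ^ 2 + 25) / 10) := mul_le_mul_of_nonneg_left e1 (by positivity)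
          _ ≤ _ := by gcongr
      have e3 : x ^ 4 ≤ 5 * x ^ 3 := by nlinarith
      have e4 : x ^ 6 ≤ 125 * x ^ 3 := by
        have : x ^ 3 ≤ 5 ^ 3 := pow_le_pow_left₀ hx hx5 3
        nlinarith
      have e5 : x ^ 2 ≤ x ^ 3 / 6 + 16 / 3 := by
        nlinarith [mul_nonneg hx (sq_nonneg (x - 4)), sq_nonneg (x - 4)]
      have e6 : (x ^ 2 + 25 / 4) ^ 2 * ((x ^ 2 + 25 / 4 + 25) / 10) ≤ 41.6 * x ^ 3 + 352 := by
        nlinarith
      have e7 : h * r ^ 5 ≤ 0.0209 * (41.6 * x ^ 3 + 352) := by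
        calc h * r ^ 5 ≤ 0.0209 * r ^ 5 := mul_le_mul_of_nonneg_right h1 (by positivity)
          _ ≤ _ := mul_le_mul_of_nonneg_left (e2.trans e6) (by norm_num)
      linarith
    interval_cases k
    · simp only [Nat.cast_zero, zero_mul] at hK ⊢
      simp
      nlinarith [mul_nonneg hx (sq_nonneg (x - 4.13)), sq_nonneg (x - 4.13)]
    · simp only [Nat.cast_one, one_mul] at hK ⊢
      simp
      nlinarith [mul_nonneg hx (sq_nonneg (x - 4.3)), sq_nonneg (x - 4.3)]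
    · push_cast at hK ⊢
      simp
      nlinarith [mul_nonneg hx (sq_nonneg (x - 4.45)), sq_nonneg (x - 4.45)]
    · push_cast at hK ⊢
      simp
      nlinarith [mul_nonneg hx (sq_nonneg (x - 4.65)), sq_nonneg (x - 4.65)]
  rcases le_total x 6 with hx6 | hx6
  · have hT := FB3_T h x r 1.1181 0.884 hr hx (by norm_num) (by norm_num) (by nlinarith) (by nlinarith)
    norm_num at hT
    interval_cases k
    · simp only [Nat.cast_zero, zero_mul] at hK ⊢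
      simp
      linarith [FB3_cub x 5 hx5, sq_nonneg (x - 5)]
    · simp only [Nat.cast_one, one_mul] at hK ⊢
      simp
      linarith [FB3_cub x 5 hx5, sq_nonneg (x - 5)]
    · push_cast at hK ⊢
      simp
      linarith [FB3_cub x 5 hx5, sq_nonneg (x - 5)]
    · push_cast at hK ⊢
      simp
      linarith [FB3_cub x 5 hx5, sq_nonneg (x - 5)]
  · have hT := FB3_T h x r 1.08335 1.469 hr hx (by norm_num) (by norm_num) (by nlinarith) (by nlinarith)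
    norm_num at hT
    interval_cases k
    · simp only [Nat.cast_zero, zero_mul] at hK ⊢
      simp
      linarith [FB3_cub x 6 hx6, sq_nonneg (x - 6)]
    · simp only [Nat.cast_one, one_mul] at hK ⊢
      simp
      linarith [FB3_cub x 6 hx6, sq_nonneg (x - 6)]
    · push_cast at hK ⊢
      simp
      linarith [FB3_cub x 6 hx6, sq_nonneg (x - 6)]
    · push_cast at hK ⊢
      simp
      linarith [FB3_cub x 6 hx6, sq_nonneg (x - 6)]

lemma FB3_y {y : ℝ} (hy : |y| ≤ 5 / 2) : y ^ 2 ≤ 25 / 4 := by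
  have := sq_le_sq' (abs_le.mp hy).1 (abs_le.mp hy).2
  nlinarith

theorem strip_tail (h x y : ℝ) (h0 : 0 ≤ h) (h1 : h ≤ 0.0209) (hx : 8 ≤ x)
    (hy : |y| ≤ 5 / 2) (hz : h * (x ^ 2 + y ^ 2) ≤ 4) (k : ℕ) (hk : k ≤ 3) :
    Real.sqrt (x ^ 2 + y ^ 2) ^ k *
      Real.exp (127 / 100 * x - (x ^ 3 - 3 * x * y ^ 2) / 24 +
        h * Real.sqrt (x ^ 2 + y ^ 2) ^ 5 / 576) ≤ 25 * Real.exp (-(2 * (x - 8))) := by
  have hy2 := FB3_y hy
  set r := Real.sqrt (x ^ 2 + y ^ 2) with hrd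
  have hr : 0 ≤ r := Real.sqrt_nonneg _
  have hr2 : r ^ 2 = x ^ 2 + y ^ 2 := Real.sq_sqrt (by positivity)
  have hr3 : r ^ 2 ≤ x ^ 2 + 25 / 4 := by linarith
  have hx0 : 0 ≤ x := by linarith
  have hP := FB3_P x y hx0 hy2
  have hr1 : 1 ≤ r := by
    by_contra hcon
    push Not at hcon
    nlinarith [sq_nonneg y]
  have hk3 : r ^ k ≤ r ^ 3 := pow_le_pow_right₀ hr1 hk
  have hpow := FB3_pow r (42 / 5) hr (by norm_num) 3
  have hK : ((3 : ℕ) : ℝ) * ((r ^ 2 / (42 / 5) ^ 2 - 1) / 2) ≤ 3 * ((x ^ 2 + 25 / 4) * (25 / 1764) - 1) / 2 := by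
    push_cast
    norm_num
    linarith
  have hE : (127 / 100 * x - (x ^ 3 - 3 * x * y ^ 2) / 24 + h * r ^ 5 / 576) +
      ((3 : ℕ) : ℝ) * ((r ^ 2 / (42 / 5) ^ 2 - 1) / 2) ≤ -(16 / 5) - (2 * (x - 8)) := by
    push_cast at hK ⊢
    rcases le_total x 8.5 with hx5 | hx5
    · have hT := FB3_T h x r 1.0477 1.641 hr hx0 (by norm_num) (by norm_num) (by nlinarith) (by nlinarith)
      norm_num at hT
      linarith [FB3_cub x 8 hx, sq_nonneg (x - 8)]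
    rcases le_total x 10 with hx10 | hx10
    · have hT := FB3_T h x r 1.0424 2.221 hr hx0 (by norm_num) (by norm_num) (by nlinarith) (by nlinarith)
      norm_num at hT
      linarith [FB3_cub x 8.5 hx5, sq_nonneg (x - 8.5)]
    · have hT := FB3_T h x r 1.0308 4 hr hx0 (by norm_num) (by norm_num) (by nlinarith) (by rw [hr2]; exact hz)
      norm_num at hT
      linarith [FB3_cub x 10 hx10, sq_nonneg (x - 10)]
  have hnum : ((42 / 5) : ℝ) ^ 3 * Real.exp (-(16 / 5)) ≤ 25 := by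
    have h3 : Real.exp (-(16 / 5)) ≤ 25 / 592.704 := by
      rw [Real.exp_neg]
      rw [inv_le_comm₀ (Real.exp_pos _) (by norm_num)]
      refine le_of_pow_le_pow_left₀ (n := 5) (by norm_num) (Real.exp_pos _).le ?_
      rw [← Real.exp_nat_mul]
      have h1 : ((5 : ℕ) : ℝ) * (16 / 5) = ((16 : ℕ) : ℝ) * 1 := by norm_num
      rw [h1, Real.exp_nat_mul]
      refine le_trans ?_ (pow_le_pow_left₀ (by norm_num) Real.exp_one_gt_d9.le 16)
      norm_num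
    calc (42 / 5 : ℝ) ^ 3 * Real.exp (-(16 / 5)) ≤ (42 / 5) ^ 3 * (25 / 592.704) :=
          mul_le_mul_of_nonneg_left h3 (by norm_num)
      _ = 25 := by norm_num
  calc r ^ k * Real.exp (127 / 100 * x - (x ^ 3 - 3 * x * y ^ 2) / 24 + h * r ^ 5 / 576)
      ≤ ((42 / 5) ^ 3 * Real.exp (((3 : ℕ) : ℝ) * ((r ^ 2 / (42 / 5) ^ 2 - 1) / 2))) *
        Real.exp (127 / 100 * x - (x ^ 3 - 3 * x * y ^ 2) / 24 + h * r ^ 5 / 576) :=
        mul_le_mul_of_nonneg_right (hk3.trans hpow) (Real.exp_pos _).le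
    _ = (42 / 5) ^ 3 * Real.exp ((127 / 100 * x - (x ^ 3 - 3 * x * y ^ 2) / 24 + h * r ^ 5 / 576) +
        ((3 : ℕ) : ℝ) * ((r ^ 2 / (42 / 5) ^ 2 - 1) / 2)) := by
        rw [mul_assoc, ← Real.exp_add, add_comm (((3 : ℕ) : ℝ) * ((r ^ 2 / (42 / 5) ^ 2 - 1) / 2))]
    _ ≤ (42 / 5) ^ 3 * Real.exp (-(16 / 5) - (2 * (x - 8))) :=
        mul_le_mul_of_nonneg_left (Real.exp_le_exp.mpr hE) (by norm_num)
    _ = ((42 / 5) ^ 3 * Real.exp (-(16 / 5))) * Real.exp (-(2 * (x - 8))) := by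
        rw [mul_assoc, ← Real.exp_add]; ring_nf
    _ ≤ 25 * Real.exp (-(2 * (x - 8))) := mul_le_mul_of_nonneg_right hnum (Real.exp_pos _).le

lemma FB3_num2 (k : ℕ) (hk : k ≤ 3) :
    5 ^ k * Real.exp (![57 / 10, 113 / 20, 17 / 3, 40 / 7] ⟨k, by omega⟩) ≤
      (![300, 1450, 7300, 38000] ⟨k, by omega⟩ : ℝ) := by
  interval_cases k
  · have := FB3_num (57 / 10) 300 57 10 (by norm_num) (by norm_num) (by norm_num) (by norm_num)
    simp
    linarith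
  · have := FB3_num (113 / 20) 290 113 20 (by norm_num) (by norm_num) (by norm_num) (by norm_num)
    simp
    linarith
  · have := FB3_num (17 / 3) 292 17 3 (by norm_num) (by norm_num) (by norm_num) (by norm_num)
    simp
    linarith
  · have := FB3_num (40 / 7) 304 40 7 (by norm_num) (by norm_num) (by norm_num) (by norm_num)
    simp
    linarith

theorem strip_bound (h x y : ℝ) (h0 : 0 ≤ h) (h1 : h ≤ 0.0209) (hx : -(5 / 2) ≤ x)
    (hy : |y| ≤ 5 / 2) (hz : h * (x ^ 2 + y ^ 2) ≤ 4) (k : ℕ) (hk : k ≤ 3) :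
    Real.sqrt (x ^ 2 + y ^ 2) ^ k *
      Real.exp (127 / 100 * x - (x ^ 3 - 3 * x * y ^ 2) / 24 +
        h * Real.sqrt (x ^ 2 + y ^ 2) ^ 5 / 576) ≤ ![300, 1450, 7300, 38000] ⟨k, by omega⟩ := by
  have hmin : (300 : ℝ) ≤ ![300, 1450, 7300, 38000] ⟨k, by omega⟩ := by
    interval_cases k <;> norm_num
  rcases le_total 8 x with hx8 | hx8
  · have h2 := strip_tail h x y h0 h1 hx8 hy hz k hk
    have h3 : Real.exp (-(2 * (x - 8))) ≤ 1 := Real.exp_le_one_iff.mpr (by linarith)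
    linarith
  have hy2 := FB3_y hy
  set r := Real.sqrt (x ^ 2 + y ^ 2) with hrd
  have hr : 0 ≤ r := Real.sqrt_nonneg _
  have hr2 : r ^ 2 = x ^ 2 + y ^ 2 := Real.sq_sqrt (by positivity)
  rcases le_total 0 x with hx0 | hx0
  · have hR := FB3_right h x y r h0 h1 hx0 hx8 hr hr2 hy2 k hk
    have hpow := FB3_pow r 5 hr (by norm_num) k
    calc r ^ k * Real.exp (127 / 100 * x - (x ^ 3 - 3 * x * y ^ 2) / 24 + h * r ^ 5 / 576)
        ≤ (5 ^ k * Real.exp (k * ((r ^ 2 / 5 ^ 2 - 1) / 2))) *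
          Real.exp (127 / 100 * x - (x ^ 3 - 3 * x * y ^ 2) / 24 + h * r ^ 5 / 576) :=
          mul_le_mul_of_nonneg_right hpow (Real.exp_pos _).le
      _ = 5 ^ k * Real.exp ((127 / 100 * x - (x ^ 3 - 3 * x * y ^ 2) / 24 + h * r ^ 5 / 576) +
          k * ((r ^ 2 / 5 ^ 2 - 1) / 2)) := by
          rw [mul_assoc, ← Real.exp_add, add_comm ((k : ℝ) * ((r ^ 2 / 5 ^ 2 - 1) / 2))]
      _ ≤ 5 ^ k * Real.exp (![57 / 10, 113 / 20, 17 / 3, 40 / 7] ⟨k, by omega⟩) :=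
          mul_le_mul_of_nonneg_left (Real.exp_le_exp.mpr hR) (by positivity)
      _ ≤ _ := FB3_num2 k hk
  · have hx2 : x ^ 2 ≤ 25 / 4 := by nlinarith
    have hr4 : r ≤ 4 := by
      by_contra hcon
      push Not at hcon
      nlinarith
    have h5 : r ^ 5 ≤ 4 ^ 5 := pow_le_pow_left₀ hr hr4 5
    have hT : h * r ^ 5 / 576 ≤ 1 / 20 := by
      have : h * r ^ 5 ≤ 0.0209 * 4 ^ 5 := mul_le_mul h1 h5 (by positivity) (by norm_num)
      linarith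
    have hE : 127 / 100 * x - (x ^ 3 - 3 * x * y ^ 2) / 24 + h * r ^ 5 / 576 ≤ 1 := by
      have e1 : 3 * x * y ^ 2 ≤ 0 := by nlinarith [sq_nonneg y]
      have e2 : -x ^ 3 ≤ -(25 / 4 * x) := by nlinarith
      linarith
    have hk3 : r ^ k ≤ 4 ^ k := pow_le_pow_left₀ hr hr4 k
    have he : Real.exp (127 / 100 * x - (x ^ 3 - 3 * x * y ^ 2) / 24 + h * r ^ 5 / 576) ≤ 3 := by
      refine (Real.exp_le_exp.mpr hE).trans ?_
      linarith [Real.exp_one_lt_d9]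
    have h6 : (4 : ℝ) ^ k ≤ 4 ^ 3 := pow_le_pow_right₀ (by norm_num) hk
    calc r ^ k * Real.exp (127 / 100 * x - (x ^ 3 - 3 * x * y ^ 2) / 24 + h * r ^ 5 / 576)
        ≤ 4 ^ 3 * 3 := mul_le_mul (hk3.trans h6) he (Real.exp_pos _).le (by norm_num)
      _ ≤ 300 := by norm_num
      _ ≤ _ := hmin

theorem disc_bound (h x y : ℝ) (h0 : 0 ≤ h) (h1 : h ≤ 0.0209) (hz : x ^ 2 + y ^ 2 ≤ 81 / 16) :
    Real.exp (127 / 100 * x - (x ^ 3 - 3 * x * y ^ 2) / 24 +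
        h * Real.sqrt (x ^ 2 + y ^ 2) ^ 5 / 576) ≤ 12 := by
  set r := Real.sqrt (x ^ 2 + y ^ 2) with hrd
  have hr : 0 ≤ r := Real.sqrt_nonneg _
  have hr2 : r ^ 2 = x ^ 2 + y ^ 2 := Real.sq_sqrt (by positivity)
  have hr4 : r ≤ 9 / 4 := by
    by_contra hcon
    push Not at hcon
    nlinarith
  have h5 : r ^ 5 ≤ (9 / 4) ^ 5 := pow_le_pow_left₀ hr hr4 5
  have hT : h * r ^ 5 / 576 ≤ 1 / 450 := by
    have : h * r ^ 5 ≤ 0.0209 * (9 / 4) ^ 5 := mul_le_mul h1 h5 (by positivity) (by norm_num)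
    norm_num at this ⊢
    linarith
  have hE : 127 / 100 * x - (x ^ 3 - 3 * x * y ^ 2) / 24 + h * r ^ 5 / 576 ≤ 57 / 23 := by
    rcases le_total 0 x with hx0 | hx0
    · have e1 : x * y ^ 2 ≤ x * (81 / 16 - x ^ 2) := mul_le_mul_of_nonneg_left (by linarith) hx0
      nlinarith [mul_nonneg hx0 (sq_nonneg (x - 1.951)), sq_nonneg (x - 1.951)]
    · have e1 : 3 * x * y ^ 2 ≤ 0 := by nlinarith [sq_nonneg y]
      have e2 : -x ^ 3 ≤ -(81 / 16 * x) := by nlinarith [sq_nonneg y]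
      linarith
  exact (Real.exp_le_exp.mpr hE).trans
    (FB3_num (57 / 23) 12 57 23 (by norm_num) (by norm_num) (by norm_num) (by norm_num))

end MP_d1b55a
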