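import Pool.Agent.Lib.MP_d1b55a_co.FDefs

/-!
FB4. The crude tail. ε ≤ .14423. x = x_n = w_n ε/2. For x ≤ π: 0 ≤ sinc x ≤ e^{-x²/6} (product for the sine),
S_n ≤ e^{-w³/24}, |K_n| ≤ sinc^{n-1} (sinc (1 + x) + |cos|) ≤ e^{-x²(n-1)/6} (2 + x) ≤ 5.2 (2 + x) e^{-w³/24} (e^{π²/6} ≤ 5.2).
For x ≥ π: |sinc x| ≤ 1/x ≤ 1/π ≤ 1/e.
In both cases e^{1.27 w} times the bound is at most e^{113.97 - 14.13 w} (tangent of w³/24 at w = 11.1).
Condition w ≥ 2/ε - 11/4 ≥ 11.1: (2 + x)/ε = 2/ε + w/2 ≤ 3/2 w + 11/4 ≤ 7/4 w.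
w^m ≤ 11.1^m e^{m (w/11.1 - 1)}; geometric series.
-/

open Finset

namespace MP_d1b55a

lemma FB4_sinc (x : ℝ) (hx : 0 ≤ x) (hx1 : x ≤ Real.pi) :
    0 ≤ Real.sinc x ∧ Real.sinc x ≤ Real.exp (-(x ^ 2 / 6)) := by
  rcases hx.eq_or_lt with h | h
  · rw [← h]; simp
  have hpi := Real.pi_pos
  rw [Real.sinc_of_ne_zero h.ne']
  refine ⟨div_nonneg (Real.sin_nonneg_of_nonneg_of_le_pi hx hx1) hx, ?_⟩
  rw [div_le_iff₀ h]
  set t := x / Real.pi with ht
  have ht0 : 0 ≤ t := by positivity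
  have ht1 : t ≤ 1 := (div_le_one hpi).mpr hx1
  have hxt : x = Real.pi * t := by rw [ht]; field_simp
  have h1 := Real.tendsto_euler_sin_prod t
  have h2 : Filter.Tendsto (fun n : ℕ => Real.pi * t *
      Real.exp (-(t ^ 2) * ∑ j ∈ range n, (1 : ℝ) / ((j : ℝ) + 1) ^ 2)) Filter.atTop
      (nhds (Real.pi * t * Real.exp (-(t ^ 2) * (Real.pi ^ 2 / 6)))) := by
    have h3 : HasSum (fun j : ℕ => (1 : ℝ) / ((j : ℝ) + 1) ^ 2) (Real.pi ^ 2 / 6) := by
      have h4 := hasSum_zeta_two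
      rw [← hasSum_nat_add_iff' 1] at h4
      simpa using h4
    have h5 := h3.tendsto_sum_nat
    exact ((Real.continuous_exp.tendsto _).comp (h5.const_mul _)).const_mul _
  have h6 : Real.sin (Real.pi * t) ≤ Real.pi * t * Real.exp (-(t ^ 2) * (Real.pi ^ 2 / 6)) := by
    refine le_of_tendsto_of_tendsto' h1 h2 fun n => ?_
    refine mul_le_mul_of_nonneg_left ?_ (by positivity)
    rw [Finset.mul_sum, Real.exp_sum]
    refine Finset.prod_le_prod (fun j _ => ?_) (fun j _ => ?_)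
    · have : t ^ 2 / ((j : ℝ) + 1) ^ 2 ≤ 1 := by
        rw [div_le_one (by positivity)]
        have : t ≤ (j : ℝ) + 1 := by
          have := Nat.cast_nonneg (α := ℝ) j
          linarith
        exact pow_le_pow_left₀ ht0 this 2
      linarith
    · have := Real.add_one_le_exp (-(t ^ 2) * (1 / ((j : ℝ) + 1) ^ 2))
      have h7 : -(t ^ 2) * (1 / ((j : ℝ) + 1) ^ 2) = -(t ^ 2 / ((j : ℝ) + 1) ^ 2) := by ring
      rw [h7] at this ⊢
      linarith
  rw [hxt, mul_comm (Real.exp _)]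
  refine h6.trans (le_of_eq ?_)
  congr 2
  ring

lemma FB4_sinc_big (x : ℝ) (hx1 : Real.pi ≤ x) : |Real.sinc x| ≤ Real.exp (-1) := by
  have hpi := Real.pi_gt_three
  have hx : 0 < x := by linarith
  rw [Real.sinc_of_ne_zero hx.ne', abs_div, abs_of_pos hx, div_le_iff₀ hx, Real.exp_neg,
    ← div_eq_inv_mul, le_div_iff₀ (Real.exp_pos 1)]
  have h1 := Real.abs_sin_le_one x
  have h2 := Real.exp_one_lt_d9
  have h3 := Real.exp_pos 1
  calc |Real.sin x| * Real.exp 1 ≤ 1 * Real.exp 1 := mul_le_mul_of_nonneg_right h1 h3.le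
    _ ≤ x := by linarith

lemma FB4_eps (ε : ℝ) (h0 : 0 < ε) (h1 : ε ^ 3 ≤ 3 / 1000) : ε * 6.93 ≤ 1 := by
  by_contra hcon
  push Not at hcon
  have : 1 / 6.93 < ε := by rw [div_lt_iff₀ (by norm_num)]; linarith
  have h2 : (1 / 6.93 : ℝ) ^ 3 < ε ^ 3 := pow_lt_pow_left₀ this (by norm_num) (by norm_num)
  norm_num at h2
  linarith

/-- the tangent of the cubic -/
lemma FB4_tan (w : ℝ) (hw : 0 ≤ w) :
    127 / 100 * w - w ^ 3 / 24 ≤ 113.97 - 14.13 * w := by
  nlinarith [mul_nonneg hw (sq_nonneg (w - 11.1)), sq_nonneg (w - 11.1)]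

lemma FB4_sinc_pow (ε : ℝ) (h0 : 0 < ε) (h1 : ε ^ 3 ≤ 3 / 1000) (n : ℕ) :
    |Real.sinc (xn ε n)| ^ n * Real.exp (127 / 100 * wn ε n) ≤
      Real.exp (113.97 - 14.13 * wn ε n) := by
  have hx : 0 ≤ xn ε n := by unfold xn; positivity
  have hw : 0 ≤ wn ε n := by unfold wn; positivity
  rcases le_total (xn ε n) Real.pi with hpi | hpi
  · obtain ⟨hs0, hs1⟩ := FB4_sinc _ hx hpi
    rw [abs_of_nonneg hs0]
    calc Real.sinc (xn ε n) ^ n * Real.exp (127 / 100 * wn ε n) ≤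
        Real.exp (-(xn ε n ^ 2 / 6)) ^ n * Real.exp (127 / 100 * wn ε n) :=
          mul_le_mul_of_nonneg_right (pow_le_pow_left₀ hs0 hs1 n) (Real.exp_pos _).le
      _ = Real.exp (127 / 100 * wn ε n - wn ε n ^ 3 / 24) := by
          rw [← Real.exp_nat_mul, ← Real.exp_add]
          congr 1
          unfold xn wn
          ring
      _ ≤ _ := Real.exp_le_exp.mpr (FB4_tan _ hw)
  · have h2 := FB4_sinc_big _ hpi
    calc |Real.sinc (xn ε n)| ^ n * Real.exp (127 / 100 * wn ε n) ≤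
        Real.exp (-1) ^ n * Real.exp (127 / 100 * wn ε n) :=
          mul_le_mul_of_nonneg_right (pow_le_pow_left₀ (abs_nonneg _) h2 n) (Real.exp_pos _).le
      _ = Real.exp (127 / 100 * wn ε n - n) := by
          rw [← Real.exp_nat_mul, ← Real.exp_add]
          congr 1
          ring
      _ ≤ _ := by
          refine Real.exp_le_exp.mpr ?_
          have he := FB4_eps ε h0 h1
          have h3 : ε ^ 2 * 48 ≤ 1 := by nlinarith
          have h4 : wn ε n * 48 ≤ n := by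
            unfold wn
            have := mul_le_mul_of_nonneg_left h3 (Nat.cast_nonneg (α := ℝ) n)
            nlinarith
          norm_num
          linarith

lemma FB4_S (ε : ℝ) (h0 : 0 < ε) (h1 : ε ^ 3 ≤ 3 / 1000) (j n : ℕ) :
    ‖gA ε j n‖ ≤ wn ε n ^ j * Real.exp (113.97 - 14.13 * wn ε n) := by
  have hw : 0 ≤ wn ε n := by unfold wn; positivity
  unfold gA Sn
  rw [Complex.norm_real, Real.norm_eq_abs, abs_mul, abs_mul, abs_of_nonneg (by positivity : 0 ≤ wn ε n ^ j),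
    abs_of_pos (Real.exp_pos _), abs_pow, mul_assoc]
  refine mul_le_mul_of_nonneg_left ?_ (by positivity)
  rw [mul_comm]
  exact FB4_sinc_pow ε h0 h1 n

lemma FB4_num (a b : ℝ) (N M : ℕ) (hM : 0 < M) (hb : 0 ≤ b) (ha : a * M = N)
    (h : (2.7182818286 : ℝ) ^ N ≤ b ^ M) : Real.exp a ≤ b := by
  refine le_of_pow_le_pow_left₀ hM.ne' hb ?_
  rw [← Real.exp_nat_mul]
  have h1 : (M : ℝ) * a = N * 1 := by rw [mul_comm, ha, mul_one]
  rw [h1, Real.exp_nat_mul]
  exact (pow_le_pow_left₀ (Real.exp_pos _).le Real.exp_one_lt_d9.le N).trans h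

/-- one factor less -/
lemma FB4_sinc_pow' (ε : ℝ) (h0 : 0 < ε) (h1 : ε ^ 3 ≤ 3 / 1000) (n : ℕ) (hn : n ≠ 0) :
    |Real.sinc (xn ε n)| ^ (n - 1) * Real.exp (127 / 100 * wn ε n) ≤
      5.2 * Real.exp (113.97 - 14.13 * wn ε n) := by
  have hx : 0 ≤ xn ε n := by unfold xn; positivity
  have hw : 0 ≤ wn ε n := by unfold wn; positivity
  have hn1 : ((n - 1 : ℕ) : ℝ) = n - 1 := by
    rw [Nat.cast_sub (Nat.one_le_iff_ne_zero.mpr hn)]; simp
  rcases le_total (xn ε n) Real.pi with hpi | hpi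
  · obtain ⟨hs0, hs1⟩ := FB4_sinc _ hx hpi
    rw [abs_of_nonneg hs0]
    have h5 : Real.exp (xn ε n ^ 2 / 6) ≤ 5.2 := by
      have h6 : xn ε n ^ 2 / 6 ≤ 28 / 17 := by
        have := pow_le_pow_left₀ hx (hpi.trans Real.pi_lt_d4.le) 2
        norm_num at this ⊢
        linarith
      refine (Real.exp_le_exp.mpr h6).trans ?_
      exact FB4_num (28 / 17) 5.2 28 17 (by norm_num) (by norm_num) (by norm_num) (by norm_num)
    calc Real.sinc (xn ε n) ^ (n - 1) * Real.exp (127 / 100 * wn ε n) ≤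
        Real.exp (-(xn ε n ^ 2 / 6)) ^ (n - 1) * Real.exp (127 / 100 * wn ε n) :=
          mul_le_mul_of_nonneg_right (pow_le_pow_left₀ hs0 hs1 _) (Real.exp_pos _).le
      _ = Real.exp (xn ε n ^ 2 / 6) * Real.exp (127 / 100 * wn ε n - wn ε n ^ 3 / 24) := by
          rw [← Real.exp_nat_mul, ← Real.exp_add, ← Real.exp_add, hn1]
          congr 1
          unfold xn wn
          ring
      _ ≤ _ := mul_le_mul h5 (Real.exp_le_exp.mpr (FB4_tan _ hw)) (Real.exp_pos _).le (by norm_num)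
  · have h2 := FB4_sinc_big _ hpi
    calc |Real.sinc (xn ε n)| ^ (n - 1) * Real.exp (127 / 100 * wn ε n) ≤
        Real.exp (-1) ^ (n - 1) * Real.exp (127 / 100 * wn ε n) :=
          mul_le_mul_of_nonneg_right (pow_le_pow_left₀ (abs_nonneg _) h2 _) (Real.exp_pos _).le
      _ = Real.exp 1 * Real.exp (127 / 100 * wn ε n - n) := by
          rw [← Real.exp_nat_mul, ← Real.exp_add, ← Real.exp_add, hn1]
          congr 1
          ring
      _ ≤ _ := by
          refine mul_le_mul (by linarith [Real.exp_one_lt_d9]) (Real.exp_le_exp.mpr ?_) (Real.exp_pos _).le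
            (by norm_num)
          have he := FB4_eps ε h0 h1
          have h3 : ε ^ 2 * 48 ≤ 1 := by nlinarith
          have h4 : wn ε n * 48 ≤ n := by
            unfold wn
            have := mul_le_mul_of_nonneg_left h3 (Nat.cast_nonneg (α := ℝ) n)
            nlinarith
          norm_num
          linarith

lemma FB4_K (ε : ℝ) (h0 : 0 < ε) (h1 : ε ^ 3 ≤ 3 / 1000) (j n : ℕ) :
    ‖gE ε j n‖ ≤ 5.2 * (2 / ε + wn ε n / 2) * (wn ε n ^ j * Real.exp (113.97 - 14.13 * wn ε n)) := by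
  have hw : 0 ≤ wn ε n := by unfold wn; positivity
  have hx : 0 ≤ xn ε n := by unfold xn; positivity
  by_cases hn : n = 0
  · unfold gE Kn
    rw [if_pos hn, mul_zero, norm_zero]
    positivity
  unfold gE Kn Sn
  rw [if_neg hn, norm_mul, Complex.norm_real, Real.norm_eq_abs,
    abs_of_nonneg (by positivity : 0 ≤ wn ε n ^ j * Real.exp (127 / 100 * wn ε n) / ε)]
  have h2 : ‖((Real.sinc (xn ε n) ^ n : ℝ) : ℂ) * (1 - Complex.I * ((xn ε n : ℝ) : ℂ)) -
      ((Real.sinc (xn ε n) ^ (n - 1) * Real.cos (xn ε n) : ℝ) : ℂ)‖ ≤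
      |Real.sinc (xn ε n)| ^ (n - 1) * (2 + xn ε n) := by
    refine (norm_sub_le _ _).trans ?_
    rw [norm_mul, Complex.norm_real, Complex.norm_real, Real.norm_eq_abs, Real.norm_eq_abs, abs_mul,
      abs_pow, abs_pow]
    have h3 : ‖(1 - Complex.I * ((xn ε n : ℝ) : ℂ))‖ ≤ 1 + xn ε n := by
      refine (norm_sub_le _ _).trans ?_
      rw [norm_mul, Complex.norm_I, Complex.norm_real, Real.norm_eq_abs, abs_of_nonneg hx]
      simp
    have h4 : |Real.sinc (xn ε n)| ^ n ≤ |Real.sinc (xn ε n)| ^ (n - 1) :=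
      pow_le_pow_of_le_one (abs_nonneg _) (Real.abs_sinc_le_one _) (Nat.sub_le _ _)
    have h5 : |Real.sinc (xn ε n)| ^ n * ‖(1 - Complex.I * ((xn ε n : ℝ) : ℂ))‖ ≤
        |Real.sinc (xn ε n)| ^ (n - 1) * (1 + xn ε n) :=
      mul_le_mul h4 h3 (norm_nonneg _) (by positivity)
    have h6 : |Real.sinc (xn ε n)| ^ (n - 1) * |Real.cos (xn ε n)| ≤
        |Real.sinc (xn ε n)| ^ (n - 1) * 1 :=
      mul_le_mul_of_nonneg_left (Real.abs_cos_le_one _) (by positivity)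
    linarith
  have hxw : (2 + xn ε n) / ε = 2 / ε + wn ε n / 2 := by
    unfold xn wn
    field_simp
  calc wn ε n ^ j * Real.exp (127 / 100 * wn ε n) / ε * _ ≤
      wn ε n ^ j * Real.exp (127 / 100 * wn ε n) / ε * (|Real.sinc (xn ε n)| ^ (n - 1) * (2 + xn ε n)) :=
        mul_le_mul_of_nonneg_left h2 (by positivity)
    _ = (2 + xn ε n) / ε * wn ε n ^ j *
        (|Real.sinc (xn ε n)| ^ (n - 1) * Real.exp (127 / 100 * wn ε n)) := by ring
    _ ≤ (2 + xn ε n) / ε * wn ε n ^ j * (5.2 * Real.exp (113.97 - 14.13 * wn ε n)) :=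
        mul_le_mul_of_nonneg_left (FB4_sinc_pow' ε h0 h1 n hn) (by positivity)
    _ = _ := by rw [hxw]; ring

/-- powers against the exponential -/
lemma FB4_pow (w : ℝ) (hw : 0 ≤ w) (m : ℕ) (hm : m ≤ 3) :
    w ^ m * Real.exp (113.97 - 14.13 * w) ≤
      (11.1 ^ m * Real.exp (113.97 - m)) * Real.exp (-(13.85 * w)) := by
  have h1 : w ≤ 11.1 * Real.exp (w / 11.1 - 1) := by
    have := Real.add_one_le_exp (w / 11.1 - 1)
    have h2 : w / 11.1 ≤ Real.exp (w / 11.1 - 1) := by linarith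
    rw [div_le_iff₀ (by norm_num)] at h2
    linarith
  have hm3 : (m : ℝ) ≤ 3 := by exact_mod_cast hm
  calc w ^ m * Real.exp (113.97 - 14.13 * w) ≤
      (11.1 * Real.exp (w / 11.1 - 1)) ^ m * Real.exp (113.97 - 14.13 * w) :=
        mul_le_mul_of_nonneg_right (pow_le_pow_left₀ hw h1 m) (Real.exp_pos _).le
    _ = 11.1 ^ m * Real.exp (m * (w / 11.1 - 1) + (113.97 - 14.13 * w)) := by
        rw [mul_pow, mul_assoc, ← Real.exp_nat_mul, ← Real.exp_add]
    _ ≤ 11.1 ^ m * Real.exp ((113.97 - m) + -(13.85 * w)) := by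
        refine mul_le_mul_of_nonneg_left (Real.exp_le_exp.mpr ?_) (by positivity)
        have h3 : (m : ℝ) * (w / 11.1) ≤ 0.28 * w := by
          have := mul_le_mul_of_nonneg_right hm3 hw
          have h4 : (m : ℝ) * (w / 11.1) = m * w / 11.1 := by ring
          rw [h4, div_le_iff₀ (by norm_num)]
          nlinarith
        nlinarith
    _ = _ := by rw [Real.exp_add]; ring

lemma FB4_geo (ε : ℝ) (h0 : 0 < ε) : Summable fun n : ℕ => Real.exp (-(13.85 * wn ε n)) := by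
  have h1 : ∀ n : ℕ, Real.exp (-(13.85 * wn ε n)) = Real.exp (-(13.85 * ε ^ 2)) ^ n := by
    intro n
    rw [← Real.exp_nat_mul]
    congr 1
    unfold wn
    ring
  simp_rw [h1]
  refine summable_geometric_of_lt_one (Real.exp_pos _).le ?_
  rw [Real.exp_lt_one_iff]
  have : 0 < ε ^ 2 := by positivity
  linarith

theorem gA_summable (ε : ℝ) (h0 : 0 < ε) (h1 : ε ^ 3 ≤ 3 / 1000) (j : ℕ) (hj : j ≤ 2) :
    Summable fun n => ‖gA ε j n‖ := by
  refine Summable.of_nonneg_of_le (fun n => norm_nonneg _) (fun n => ?_)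
    ((FB4_geo ε h0).mul_left (11.1 ^ j * Real.exp (113.97 - j)))
  have hw : 0 ≤ wn ε n := by unfold wn; positivity
  exact (FB4_S ε h0 h1 j n).trans (FB4_pow _ hw j (by omega))

theorem gE_summable (ε : ℝ) (h0 : 0 < ε) (h1 : ε ^ 3 ≤ 3 / 1000) (j : ℕ) (hj : j ≤ 2) :
    Summable fun n => ‖gE ε j n‖ := by
  refine Summable.of_nonneg_of_le (fun n => norm_nonneg _) (fun n => ?_)
    (((FB4_geo ε h0).mul_left (11.1 ^ j * Real.exp (113.97 - j))).mul_left (5.2 * (2 / ε)) |>.add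
      (((FB4_geo ε h0).mul_left (11.1 ^ (j + 1) * Real.exp (113.97 - ((j + 1 : ℕ) : ℝ)))).mul_left 2.6))
  have hw : 0 ≤ wn ε n := by unfold wn; positivity
  refine (FB4_K ε h0 h1 j n).trans ?_
  have h2 := FB4_pow _ hw j (by omega)
  have h3 := FB4_pow _ hw (j + 1) (by omega)
  calc 5.2 * (2 / ε + wn ε n / 2) * (wn ε n ^ j * Real.exp (113.97 - 14.13 * wn ε n))
      = 5.2 * (2 / ε) * (wn ε n ^ j * Real.exp (113.97 - 14.13 * wn ε n)) +
        2.6 * (wn ε n ^ (j + 1) * Real.exp (113.97 - 14.13 * wn ε n)) := by ring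
    _ ≤ _ := by
        refine add_le_add ?_ ?_
        · exact mul_le_mul_of_nonneg_left h2 (by positivity)
        · exact mul_le_mul_of_nonneg_left h3 (by norm_num)

lemma FB4_geosum (ε w0 : ℝ) (h0 : 0 < ε) :
    (Summable fun n : ℕ => (if w0 ≤ wn ε n then Real.exp (-(13.85 * wn ε n)) else 0)) ∧
    ∑' n : ℕ, (if w0 ≤ wn ε n then Real.exp (-(13.85 * wn ε n)) else 0) ≤
      Real.exp (-(13.85 * w0)) * (1 + 1 / (13.85 * ε ^ 2)) := by
  have he2 : 0 < ε ^ 2 := by positivity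
  set t : ℝ := 13.85 * ε ^ 2 with ht
  have ht0 : 0 < t := by positivity
  set r : ℝ := Real.exp (-t) with hr
  have hr0 : 0 < r := Real.exp_pos _
  have hr1 : r < 1 := by rw [hr, Real.exp_lt_one_iff]; linarith
  set f : ℕ → ℝ := fun n => (if w0 ≤ wn ε n then Real.exp (-(13.85 * wn ε n)) else 0) with hf
  have hsum : Summable f := by
    refine Summable.of_nonneg_of_le (fun n => ?_) (fun n => ?_) (FB4_geo ε h0)
    · rw [hf]
      dsimp only
      split_ifs
      · exact (Real.exp_pos _).le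
      · exact le_rfl
    · rw [hf]
      dsimp only
      split_ifs
      · exact le_rfl
      · exact (Real.exp_pos _).le
  refine ⟨hsum, ?_⟩
  set N := ⌈w0 / ε ^ 2⌉₊ with hN
  have h2 := hsum.sum_add_tsum_nat_add N
  have h3 : ∑ i ∈ range N, f i = 0 := by
    refine Finset.sum_eq_zero fun i hi => ?_
    rw [mem_range, hN, Nat.lt_ceil, lt_div_iff₀ he2] at hi
    rw [hf]
    dsimp only
    rw [if_neg]
    unfold wn
    linarith
  have hNw : w0 ≤ N * ε ^ 2 := by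
    rw [← div_le_iff₀ he2]
    exact Nat.le_ceil _
  have h4 : ∀ i : ℕ, f (i + N) ≤ r ^ i * Real.exp (-(13.85 * w0)) := by
    intro i
    rw [hf]
    dsimp only
    split_ifs
    · rw [hr, ← Real.exp_nat_mul, ← Real.exp_add]
      refine Real.exp_le_exp.mpr ?_
      unfold wn
      rw [ht]
      push_cast
      nlinarith
    · positivity
  have h5 : Summable fun i : ℕ => r ^ i * Real.exp (-(13.85 * w0)) :=
    (summable_geometric_of_lt_one hr0.le hr1).mul_right _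
  have h6 : ∑' i : ℕ, f (i + N) ≤ (1 - r)⁻¹ * Real.exp (-(13.85 * w0)) := by
    calc ∑' i : ℕ, f (i + N) ≤ ∑' i : ℕ, r ^ i * Real.exp (-(13.85 * w0)) :=
          Summable.tsum_le_tsum h4 ((summable_nat_add_iff N).mpr hsum) h5
      _ = _ := by rw [tsum_mul_right, tsum_geometric_of_lt_one hr0.le hr1]
  have h7 : (1 - r)⁻¹ ≤ 1 + 1 / t := by
    have h8 : r * (1 + t) ≤ 1 := by
      have h9 := Real.add_one_le_exp t
      have h10 : r * Real.exp t = 1 := by rw [hr, ← Real.exp_add]; simp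
      nlinarith
    rw [inv_le_comm₀ (by linarith) (by positivity)]
    have h11 : (1 + 1 / t)⁻¹ = t / (1 + t) := by field_simp; ring
    rw [h11, div_le_iff₀ (by linarith)]
    linarith
  rw [h3, zero_add] at h2
  rw [← h2]
  calc _ ≤ _ := h6
    _ ≤ (1 + 1 / t) * Real.exp (-(13.85 * w0)) := mul_le_mul_of_nonneg_right h7 (Real.exp_pos _).le
    _ = _ := by ring

lemma FB4_eps22 (ε : ℝ) (h0 : 0 < ε) (h1 : ε ^ 3 ≤ 3 / 1000) :
    Real.exp (-(13.85 * (2 / ε - 11 / 4))) * (1 + 1 / (13.85 * ε ^ 2)) ≤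
      0.0931 * 6.93 ^ 24 * Real.exp (-153.8) * ε ^ 22 := by
  have he := FB4_eps ε h0 h1
  set u : ℝ := 1 / ε with hu
  have hue : u * ε = 1 := by rw [hu]; field_simp
  have hu1 : 6.93 ≤ u := by rw [hu, le_div_iff₀ h0]; linarith
  have hu0 : 0 < u := by linarith
  have h2 : 2 / ε = 2 * u := by rw [hu]; ring
  have h3 : 1 / (13.85 * ε ^ 2) = u ^ 2 / 13.85 := by rw [hu]; field_simp
  rw [h2, h3]
  have h4 : 1 + u ^ 2 / 13.85 ≤ 0.0931 * u ^ 2 := by
    have : (48 : ℝ) ≤ u ^ 2 := by nlinarith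
    norm_num at this ⊢
    linarith
  have h5 : u ≤ 6.93 * Real.exp (u / 6.93 - 1) := by
    have := Real.add_one_le_exp (u / 6.93 - 1)
    have h6 : u / 6.93 ≤ Real.exp (u / 6.93 - 1) := by linarith
    rw [div_le_iff₀ (by norm_num)] at h6
    linarith
  have h6 : u ^ 24 ≤ 6.93 ^ 24 * Real.exp (24 * (u / 6.93 - 1)) := by
    calc u ^ 24 ≤ (6.93 * Real.exp (u / 6.93 - 1)) ^ 24 := pow_le_pow_left₀ hu0.le h5 24
      _ = _ := by rw [mul_pow, ← Real.exp_nat_mul]; norm_num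
  have h7 : u ^ 22 * ε ^ 22 = 1 := by rw [← mul_pow, hue, one_pow]
  calc Real.exp (-(13.85 * (2 * u - 11 / 4))) * (1 + u ^ 2 / 13.85)
      ≤ Real.exp (-(13.85 * (2 * u - 11 / 4))) * (0.0931 * u ^ 2) :=
        mul_le_mul_of_nonneg_left h4 (Real.exp_pos _).le
    _ = 0.0931 * u ^ 24 * Real.exp (-(13.85 * (2 * u - 11 / 4))) * ε ^ 22 := by
        have : u ^ 24 * ε ^ 22 = u ^ 2 := by
          calc u ^ 24 * ε ^ 22 = u ^ 2 * (u ^ 22 * ε ^ 22) := by ring
            _ = u ^ 2 := by rw [h7, mul_one]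
        calc Real.exp (-(13.85 * (2 * u - 11 / 4))) * (0.0931 * u ^ 2)
            = Real.exp (-(13.85 * (2 * u - 11 / 4))) * (0.0931 * (u ^ 24 * ε ^ 22)) := by rw [this]
          _ = _ := by ring
    _ ≤ 0.0931 * (6.93 ^ 24 * Real.exp (24 * (u / 6.93 - 1))) *
        Real.exp (-(13.85 * (2 * u - 11 / 4))) * ε ^ 22 := by
        gcongr
    _ = 0.0931 * 6.93 ^ 24 * Real.exp (24 * (u / 6.93 - 1) + -(13.85 * (2 * u - 11 / 4))) * ε ^ 22 := by
        rw [Real.exp_add]; ring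
    _ ≤ _ := by
        have h8 : 24 * (u / 6.93 - 1) + -(13.85 * (2 * u - 11 / 4)) ≤ -153.8 := by
          have h9 : u / 6.93 = u * (100 / 693) := by ring
          rw [h9]
          norm_num at hu1 ⊢
          linarith
        have := Real.exp_le_exp.mpr h8
        gcongr

lemma FB4_const (m : ℕ) (hm : m ≤ 3) :
    4096 * (11.1 ^ m * Real.exp (113.97 - m)) * (0.0931 * 6.93 ^ 24 * Real.exp (-153.8)) ≤
      (![7e5, 3e6, 12e6, 46e6] ⟨m, by omega⟩ : ℝ) := by
  have h1 : Real.exp (113.97 - m) * Real.exp (-153.8) ≤ (1 / 2.7182818283 : ℝ) ^ (39 + m) := by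
    rw [← Real.exp_add]
    have h2 : (113.97 - (m : ℝ) + -153.8) ≤ ((39 + m : ℕ) : ℝ) * (-1) := by
      push_cast
      norm_num
      linarith
    refine (Real.exp_le_exp.mpr h2).trans ?_
    rw [Real.exp_nat_mul]
    refine pow_le_pow_left₀ (Real.exp_pos _).le ?_ _
    rw [Real.exp_neg, one_div]
    exact inv_anti₀ (by norm_num) Real.exp_one_gt_d9.le
  calc 4096 * (11.1 ^ m * Real.exp (113.97 - m)) * (0.0931 * 6.93 ^ 24 * Real.exp (-153.8))
      = 4096 * 11.1 ^ m * (0.0931 * 6.93 ^ 24) * (Real.exp (113.97 - m) * Real.exp (-153.8)) := by ring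
    _ ≤ 4096 * 11.1 ^ m * (0.0931 * 6.93 ^ 24) * (1 / 2.7182818283 : ℝ) ^ (39 + m) := by
        gcongr
    _ ≤ _ := by
        interval_cases m <;> norm_num

/-- the tail with the power `m` -/
lemma FB4_tail (ε : ℝ) (h0 : 0 < ε) (h1 : ε ^ 3 ≤ 3 / 1000) (m : ℕ) (hm : m ≤ 3) (c : ℝ) (hc : 0 ≤ c)
    (f : ℕ → ℝ) (hf0 : ∀ n, 0 ≤ f n)
    (hf : ∀ n, 2 / ε - 11 / 4 ≤ wn ε n → f n ≤ c * (wn ε n ^ m * Real.exp (113.97 - 14.13 * wn ε n))) :
    4096 * ∑' n : ℕ, (if 2 / ε - 11 / 4 ≤ wn ε n then f n else 0) ≤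
      c * (![7e5, 3e6, 12e6, 46e6] ⟨m, by omega⟩ : ℝ) * ε ^ 22 := by
  obtain ⟨h2, h3⟩ := FB4_geosum ε (2 / ε - 11 / 4) h0
  set K : ℝ := 11.1 ^ m * Real.exp (113.97 - m) with hK
  have hK0 : 0 ≤ K := by positivity
  have h4 : ∀ n : ℕ, (if 2 / ε - 11 / 4 ≤ wn ε n then f n else 0) ≤
      c * K * (if 2 / ε - 11 / 4 ≤ wn ε n then Real.exp (-(13.85 * wn ε n)) else 0) := by
    intro n
    have hw : 0 ≤ wn ε n := by unfold wn; positivity
    split_ifs with hif
    · refine (hf n hif).trans ?_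
      have := mul_le_mul_of_nonneg_left (FB4_pow _ hw m hm) hc
      rw [← hK] at this
      linarith
    · simp
  have h5 : Summable fun n : ℕ => (if 2 / ε - 11 / 4 ≤ wn ε n then f n else 0) := by
    refine Summable.of_nonneg_of_le (fun n => ?_) h4 (h2.mul_left (c * K))
    split_ifs
    · exact hf0 n
    · exact le_rfl
  have h6 := Summable.tsum_le_tsum h4 h5 (h2.mul_left (c * K))
  rw [tsum_mul_left] at h6
  have h7 := FB4_eps22 ε h0 h1
  have h8 := FB4_const m hm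
  rw [← hK] at h8
  calc 4096 * ∑' n : ℕ, (if 2 / ε - 11 / 4 ≤ wn ε n then f n else 0)
      ≤ 4096 * (c * K * (0.0931 * 6.93 ^ 24 * Real.exp (-153.8) * ε ^ 22)) := by
        refine mul_le_mul_of_nonneg_left (h6.trans ?_) (by norm_num)
        exact mul_le_mul_of_nonneg_left (h3.trans h7) (by positivity)
    _ = c * (4096 * K * (0.0931 * 6.93 ^ 24 * Real.exp (-153.8))) * ε ^ 22 := by ring
    _ ≤ _ := by
        refine mul_le_mul_of_nonneg_right ?_ (by positivity)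
        exact mul_le_mul_of_nonneg_left h8 hc

theorem gA_tail (ε : ℝ) (h0 : 0 < ε) (h1 : ε ^ 3 ≤ 3 / 1000) (j : ℕ) (hj : j ≤ 2) :
    4096 * ∑' n : ℕ, (if 2 / ε - 11 / 4 ≤ wn ε n then ‖gA ε j n‖ else 0) ≤
      ![1e7, 1e8, 5e8] ⟨j, by omega⟩ * ε ^ 22 := by
  have h2 := FB4_tail ε h0 h1 j (by omega) 1 zero_le_one (fun n => ‖gA ε j n‖) (fun n => norm_nonneg _)
    (fun n _ => by rw [one_mul]; exact FB4_S ε h0 h1 j n)
  refine h2.trans ?_
  refine mul_le_mul_of_nonneg_right ?_ (by positivity)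
  interval_cases j <;> norm_num

theorem gE_tail (ε : ℝ) (h0 : 0 < ε) (h1 : ε ^ 3 ≤ 3 / 1000) (j : ℕ) (hj : j ≤ 2) :
    4096 * ∑' n : ℕ, (if 2 / ε - 11 / 4 ≤ wn ε n then ‖gE ε j n‖ else 0) ≤
      ![1e8, 5e8, 3e9] ⟨j, by omega⟩ * ε ^ 22 := by
  have h2 := FB4_tail ε h0 h1 (j + 1) (by omega) 9.1 (by norm_num) (fun n => ‖gE ε j n‖)
    (fun n => norm_nonneg _) (fun n hn => by
      refine (FB4_K ε h0 h1 j n).trans ?_
      have he := FB4_eps ε h0 h1
      have h3 : 13.86 ≤ 2 / ε := by rw [le_div_iff₀ h0]; linarith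
      have h4 : 11.1 ≤ wn ε n := by
        norm_num at h3 ⊢
        linarith
      have h5 : 5.2 * (2 / ε + wn ε n / 2) ≤ 9.1 * wn ε n := by
        norm_num at h4 ⊢
        linarith
      calc 5.2 * (2 / ε + wn ε n / 2) * (wn ε n ^ j * Real.exp (113.97 - 14.13 * wn ε n))
          ≤ 9.1 * wn ε n * (wn ε n ^ j * Real.exp (113.97 - 14.13 * wn ε n)) :=
            mul_le_mul_of_nonneg_right h5 (mul_nonneg (pow_nonneg (by linarith) _) (Real.exp_pos _).le)
        _ = _ := by ring)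
  refine h2.trans ?_
  refine mul_le_mul_of_nonneg_right ?_ (by positivity)
  interval_cases j <;> norm_num

end MP_d1b55a
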