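import Pool.Agent.Lib.MP_d1b55a_co.FB1
import Pool.Agent.Lib.MP_d1b55a_co.FB2
import Pool.Agent.Lib.MP_d1b55a_co.FB3
import Pool.Agent.Lib.MP_d1b55a_co.FB4

/-!
FA6. Smoothness of the sequences gA, gE. θ = ε³ ≤ .003, h = ε² ≤ .02081, 2/ε ≥ 13.86. PROOF.
Let k = j for gA, k = j + 1 (and factor 4/5) for gE, M = ![300,1450,7300,38000] k.
(1) n with w_n ≤ 10.5 (at most 10.5/h + 1 of them): `dlt_shift`, `dlt_le_of_disc` with a = w_n, R = 5/2, U = ball 0 (11/5/ε)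
(|ζ| ≤ w_n + 12 h + 5/2 ≤ 13.3 ≤ 2/ε), `gAx_bound`, `strip_bound` (Re ζ ≥ -5/2, |Im ζ| ≤ 5/2, h|ζ|² ≤ 4):
|dlt^12 g n| ≤ 12!/(5/2)^12 h^12 M, 12!/(5/2)^12 ≤ 8037.
(2) 10.5 < w_n < 2/ε - 11/4: Re ζ ≥ w_n - 5/2 ≥ 8: `strip_tail`: ≤ 8037 h^12 * 25 * e^{-2(w_n - 10.5)}, geometric sum
≤ 25 * 8037 h^12 /(1 - e^{-2h}) ≤ 8037 * 13 h^11. (12 h ≤ 1/4, so w_n + 12 h + 5/2 ≤ 2/ε.)
(3) w_n ≥ 2/ε - 11/4: `dlt_le_choose`, sum of |dlt^12 g n| ≤ 4096 * sum of |g m| over w_m ≥ 2/ε - 11/4: `gA_tail`.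
Sum for A: h^11 8037 (10.53 M + 13) + (1e7, 1e8, 5e8) ε^22 ≤ CA ε^22: 2.6e7 + 1e7 ≤ 6e7, 1.23e8 + 1e8 ≤ 3e8,
6.2e8 + 5e8 ≤ 1.5e9; E: 9.9e7 + 1e8 ≤ 2.5e8, 5.0e8 + 5e8 ≤ 1.2e9, 2.6e9 + 3e9 ≤ 6e9.
(4) `g_dlt_zero`: `dlt_le_of_disc` with a = 0, R = 2, k = i ≤ 11, discs inside |ζ| ≤ 11 h + 2 ≤ 9/4: `disc_bound`:
|gAx| ≤ 12 (9/4)^j ≤ (12, 27, 60.8) ≤ (15, 35, 80); |gEx| ≤ .8*12*(9/4)^(j+1) ≤ (21.6, 48.6, 109.4) ≤ (28, 65, 150).
-/

open Finset

namespace MP_d1b55a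

theorem FA6_eps (ε : ℝ) (h0 : 0 < ε) (h1 : ε ^ 3 ≤ 3 / 1000) :
    ε ≤ 0.14423 ∧ ε ^ 2 ≤ 0.02081 ∧ 13.86 ≤ 2 / ε := by
  have ha : ε ≤ 0.14423 := by
    by_contra hc
    push Not at hc
    have : (0.14423 : ℝ) ^ 3 < ε ^ 3 := by gcongr
    norm_num at this h1
    linarith
  have hb : ε ^ 2 ≤ 0.02081 := by
    have : ε ^ 2 ≤ 0.14423 ^ 2 := by gcongr
    refine this.trans (by norm_num)
  refine ⟨ha, hb, ?_⟩
  rw [le_div_iff₀ h0]
  nlinarith

theorem FA6_congr (f f' : ℕ → ℂ) (k : ℕ) : ∀ n : ℕ, (∀ m ≤ k, f (n + m) = f' (n + m)) →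
    dlt^[k] f n = dlt^[k] f' n := by
  induction k with
  | zero =>
    intro n h
    have := h 0 le_rfl
    simpa using this
  | succ k ih =>
    intro n h
    rw [Function.iterate_succ_apply', Function.iterate_succ_apply']
    show dlt^[k] f (n + 1) - dlt^[k] f n = dlt^[k] f' (n + 1) - dlt^[k] f' n
    rw [ih n (fun m hm => h m (by omega)), ih (n + 1) (fun m hm => by
      have := h (m + 1) (by omega)
      rw [show n + 1 + m = n + (m + 1) by ring]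
      exact this)]

theorem FA6_disc (ε : ℝ) (g : ℕ → ℂ) (G : ℂ → ℂ) (h0 : 0 < ε) (k n : ℕ) (R M : ℝ) (hR : 0 < R)
    (hd : DifferentiableOn ℂ G (Metric.ball 0 (11 / 5 / ε)))
    (hw : ∀ n, wn ε n < 11 / 5 / ε → G ((wn ε n : ℝ) : ℂ) = g n)
    (hn : wn ε n + k * ε ^ 2 + R < 11 / 5 / ε)
    (hM : ∀ t ∈ Set.Icc (wn ε n) (wn ε n + k * ε ^ 2), ∀ z ∈ Metric.sphere (t : ℂ) R, ‖G z‖ ≤ M) :
    ‖dlt^[k] g n‖ ≤ (k.factorial : ℝ) / R ^ k * (ε ^ 2) ^ k * M := by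
  have hwn : 0 ≤ wn ε n := by unfold wn; positivity
  rw [dlt_shift]
  have e : dlt^[k] (fun m => g (n + m)) 0 =
      dlt^[k] (fun m : ℕ => G (((wn ε n + m * ε ^ 2 : ℝ)) : ℂ)) 0 := by
    apply FA6_congr
    intro m hm
    simp only [zero_add]
    have hmk : (m : ℝ) ≤ k := by exact_mod_cast hm
    have hwm : wn ε (n + m) = wn ε n + m * ε ^ 2 := by
      unfold wn; push_cast; ring
    rw [← hwm, hw]
    rw [hwm]
    have : (m : ℝ) * ε ^ 2 ≤ k * ε ^ 2 := by gcongr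
    linarith
  rw [e]
  refine dlt_le_of_disc G k (wn ε n) (ε ^ 2) R M (by positivity) hR _ Metric.isOpen_ball hd ?_ hM
  intro t ht z hz
  rw [Metric.mem_closedBall] at hz
  rw [Metric.mem_ball, dist_zero_right]
  have h2 : ‖z‖ ≤ ‖z - t‖ + ‖(t : ℂ)‖ := by
    have := norm_add_le (z - t) (t : ℂ)
    simpa using this
  rw [← dist_eq_norm] at h2
  have h3 : ‖(t : ℂ)‖ = t := by
    rw [Complex.norm_real, Real.norm_eq_abs, abs_of_nonneg (hwn.trans ht.1)]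
  have := ht.2
  linarith

theorem FA6_sphere (t R : ℝ) (z : ℂ) (ht : 0 ≤ t) (hz : z ∈ Metric.sphere (t : ℂ) R) :
    ‖z‖ ≤ t + R ∧ t - R ≤ z.re ∧ |z.im| ≤ R := by
  rw [Metric.mem_sphere, dist_eq_norm] at hz
  have h2 : ‖z‖ ≤ ‖z - t‖ + ‖(t : ℂ)‖ := by
    have := norm_add_le (z - t) (t : ℂ)
    simpa using this
  have h3 : ‖(t : ℂ)‖ = t := by
    rw [Complex.norm_real, Real.norm_eq_abs, abs_of_nonneg ht]
  have h4 := Complex.abs_re_le_norm (z - t)
  have h5 := Complex.abs_im_le_norm (z - t)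
  simp only [Complex.sub_re, Complex.ofReal_re, Complex.sub_im, Complex.ofReal_im, sub_zero] at h4 h5
  have := (abs_le.1 h4).1
  refine ⟨by linarith, by linarith, by linarith⟩

theorem FA6_gen (ε : ℝ) (h0 : 0 < ε) (h1 : ε ^ 3 ≤ 3 / 1000) (g : ℕ → ℂ) (G : ℂ → ℂ) (M T : ℝ)
    (hM0 : 0 ≤ M)
    (hs : Summable fun n => ‖g n‖)
    (hd : DifferentiableOn ℂ G (Metric.ball 0 (11 / 5 / ε)))
    (hw : ∀ n, wn ε n < 11 / 5 / ε → G ((wn ε n : ℝ) : ℂ) = g n)
    (hM : ∀ z : ℂ, ‖z‖ ≤ 2 / ε → -(5 / 2) ≤ z.re → |z.im| ≤ 5 / 2 → ‖G z‖ ≤ M)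
    (hE : ∀ z : ℂ, ‖z‖ ≤ 2 / ε → 8 ≤ z.re → |z.im| ≤ 5 / 2 →
      ‖G z‖ ≤ 25 * Real.exp (-(2 * (z.re - 8))))
    (hT : 4096 * ∑' n : ℕ, (if 2 / ε - 11 / 4 ≤ wn ε n then ‖g n‖ else 0) ≤ T) :
    Summable (fun n => ‖dlt^[12] g n‖) ∧
    ∑' n : ℕ, ‖dlt^[12] g n‖ ≤ 8037 * ε ^ 22 * (10.53 * M + 13.03) + T := by
  obtain ⟨e1, e2, e3⟩ := FA6_eps ε h0 h1
  have hh : 0 < ε ^ 2 := by positivity
  have hwpos : ∀ n, 0 ≤ wn ε n := fun n => by unfold wn; positivity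
  have hlt : 2 / ε < 11 / 5 / ε := by gcongr; norm_num
  have hfac : ((Nat.factorial 12 : ℕ) : ℝ) / (5 / 2) ^ 12 ≤ 8037 := by
    norm_num [Nat.factorial]
  set K : ℝ := 8037 * (ε ^ 2) ^ 12 with hK
  have hK0 : 0 ≤ K := by positivity
  -- pointwise bounds
  have p1 : ∀ n, wn ε n ≤ 10.5 → ‖dlt^[12] g n‖ ≤ K * M := by
    intro n hn
    have := FA6_disc ε g G h0 12 n (5 / 2) M (by norm_num) hd hw (by
      push_cast
      linarith) (by
      intro t ht z hz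
      push_cast at ht
      obtain ⟨a1, a2, a3⟩ := FA6_sphere t (5 / 2) z ((hwpos n).trans ht.1) hz
      have := ht.1
      have := ht.2
      have := hwpos n
      exact hM z (by linarith) (by linarith) a3)
    refine this.trans ?_
    have : ((Nat.factorial 12 : ℕ) : ℝ) / (5 / 2) ^ 12 * (ε ^ 2) ^ 12 * M ≤
        8037 * (ε ^ 2) ^ 12 * M := by gcongr
    exact this
  have p2 : ∀ n, 10.5 < wn ε n → wn ε n < 2 / ε - 11 / 4 →
      ‖dlt^[12] g n‖ ≤ K * (25 * Real.exp (-(2 * (wn ε n - 10.5)))) := by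
    intro n hn hn2
    have := FA6_disc ε g G h0 12 n (5 / 2) (25 * Real.exp (-(2 * (wn ε n - 10.5))))
      (by norm_num) hd hw (by
      push_cast
      linarith) (by
      intro t ht z hz
      push_cast at ht
      obtain ⟨a1, a2, a3⟩ := FA6_sphere t (5 / 2) z ((hwpos n).trans ht.1) hz
      have := ht.1
      have := ht.2
      have := hwpos n
      refine (hE z (by linarith) (by linarith) a3).trans ?_
      have hx : Real.exp (-(2 * (z.re - 8))) ≤ Real.exp (-(2 * (wn ε n - 10.5))) :=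
        Real.exp_le_exp.2 (by linarith)
      linarith)
    refine this.trans ?_
    have : ((Nat.factorial 12 : ℕ) : ℝ) / (5 / 2) ^ 12 * (ε ^ 2) ^ 12 *
        (25 * Real.exp (-(2 * (wn ε n - 10.5)))) ≤
        8037 * (ε ^ 2) ^ 12 * (25 * Real.exp (-(2 * (wn ε n - 10.5)))) := by gcongr
    exact this
  set u : ℕ → ℝ := fun n => if 2 / ε - 11 / 4 ≤ wn ε n then ‖g n‖ else 0 with hu
  have hu0 : ∀ n, 0 ≤ u n := fun n => by
    simp only [hu]; split_ifs <;> positivity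
  have hus : Summable u := by
    refine Summable.of_nonneg_of_le hu0 (fun n => ?_) hs
    simp only [hu]; split_ifs
    · exact le_rfl
    · positivity
  have p3 : ∀ n, 2 / ε - 11 / 4 ≤ wn ε n →
      ‖dlt^[12] g n‖ ≤ ∑ i ∈ Finset.range (12 + 1), (Nat.choose 12 i : ℝ) * u (n + i) := by
    intro n hn
    refine (dlt_le_choose 12 g n).trans (Finset.sum_le_sum fun i _ => ?_)
    have : 2 / ε - 11 / 4 ≤ wn ε (n + i) := by
      refine hn.trans ?_
      unfold wn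
      gcongr
      omega
    simp only [hu, this, if_true]
    exact le_rfl
  -- the three majorants
  set N : ℕ := ⌊10.5 / ε ^ 2⌋₊ + 1 with hN
  have hNw : ∀ n, N ≤ n ↔ 10.5 < wn ε n := by
    intro n
    rw [hN, Nat.succ_le_iff, Nat.floor_lt (by positivity), div_lt_iff₀ hh]
    rfl
  have hNle : (N : ℝ) * ε ^ 2 ≤ 10.5 + ε ^ 2 := by
    have : (⌊10.5 / ε ^ 2⌋₊ : ℝ) ≤ 10.5 / ε ^ 2 := Nat.floor_le (by positivity)
    rw [le_div_iff₀ hh] at this
    rw [hN]; push_cast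
    linarith
  have hNgt : 10.5 < (N : ℝ) * ε ^ 2 := by
    have := (hNw N).1 le_rfl
    exact this
  set a : ℕ → ℝ := fun n => if n < N then K * M else 0 with ha
  set r : ℝ := Real.exp (-(2 * ε ^ 2)) with hr
  have hr0 : 0 < r := Real.exp_pos _
  have hr1 : r < 1 := by
    rw [hr, Real.exp_lt_one_iff]
    linarith
  set b : ℕ → ℝ := fun n => if N ≤ n then K * 25 * r ^ (n - N) else 0 with hb
  set c : ℕ → ℝ := fun n => ∑ i ∈ Finset.range (12 + 1), (Nat.choose 12 i : ℝ) * u (n + i) with hc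
  have hale : ∀ n, 0 ≤ a n := fun n => by simp only [ha]; split_ifs <;> positivity
  have hble : ∀ n, 0 ≤ b n := fun n => by simp only [hb]; split_ifs <;> positivity
  have hcle : ∀ n, 0 ≤ c n := fun n => by
    simp only [hc]
    exact Finset.sum_nonneg fun i _ => mul_nonneg (by positivity) (hu0 _)
  have hpt : ∀ n, ‖dlt^[12] g n‖ ≤ a n + b n + c n := by
    intro n
    by_cases hA : n < N
    · have h2 : ¬ 10.5 < wn ε n := by
        rw [← hNw]; omega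
      have h3 := p1 n (not_lt.1 h2)
      have h4 : a n = K * M := by simp only [ha, hA, if_true]
      have := hble n
      have := hcle n
      linarith
    · have h2 : 10.5 < wn ε n := (hNw n).1 (by omega)
      by_cases hB : wn ε n < 2 / ε - 11 / 4
      · have h3 := p2 n h2 hB
        have h4 : b n = K * 25 * r ^ (n - N) := by
          simp only [hb]
          rw [if_pos (by omega)]
        have h5 : Real.exp (-(2 * (wn ε n - 10.5))) ≤ r ^ (n - N) := by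
          rw [hr, ← Real.exp_nat_mul]
          rw [Real.exp_le_exp]
          rw [Nat.cast_sub (by omega)]
          unfold wn
          nlinarith
        have h6 : K * (25 * Real.exp (-(2 * (wn ε n - 10.5)))) ≤ K * 25 * r ^ (n - N) := by
          rw [← mul_assoc]
          gcongr
        have := hale n
        have := hcle n
        linarith
      · have h3 := p3 n (not_lt.1 hB)
        have := hale n
        have := hble n
        have h4 : c n = ∑ i ∈ Finset.range (12 + 1), (Nat.choose 12 i : ℝ) * u (n + i) := rfl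
        linarith
  -- sums
  have sa : HasSum a (N * (K * M)) := by
    have h2 : HasSum a (∑ n ∈ Finset.range N, a n) := by
      apply hasSum_sum_of_ne_finset_zero
      intro n hn
      rw [Finset.mem_range] at hn
      simp only [ha, hn, if_false]
    have h3 : ∑ n ∈ Finset.range N, a n = N * (K * M) := by
      rw [Finset.sum_congr rfl (g := fun _ => K * M)]
      · simp
      · intro n hn
        rw [Finset.mem_range] at hn
        simp only [ha, hn, if_true]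
    rwa [h3] at h2
  have sb : HasSum b (K * 25 * (1 - r)⁻¹) := by
    have h2 : HasSum (fun n => b (n + N)) (K * 25 * (1 - r)⁻¹) := by
      have h3 := (hasSum_geometric_of_lt_one hr0.le hr1).mul_left (K * 25)
      have h4 : (fun n => b (n + N)) = fun n => K * 25 * r ^ n := by
        funext n
        show (if N ≤ n + N then K * 25 * r ^ (n + N - N) else 0) = K * 25 * r ^ n
        rw [if_pos (by omega), Nat.add_sub_cancel]
      rw [h4]
      exact h3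
    rw [hasSum_nat_add_iff] at h2
    have h3 : ∑ i ∈ Finset.range N, b i = 0 := by
      apply Finset.sum_eq_zero
      intro n hn
      rw [Finset.mem_range] at hn
      simp only [hb]
      rw [if_neg (by omega)]
    rwa [h3, add_zero] at h2
  have sc1 : ∀ i : ℕ, Summable (fun n => u (n + i)) := fun i => (summable_nat_add_iff i).2 hus
  have sc2 : ∀ i : ℕ, ∑' n, u (n + i) ≤ ∑' n, u n := by
    intro i
    rw [← hus.sum_add_tsum_nat_add i]
    have : 0 ≤ ∑ k ∈ Finset.range i, u k := Finset.sum_nonneg fun k _ => hu0 k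
    linarith
  have sc : Summable c := by
    apply summable_sum
    intro i _
    exact (sc1 i).mul_left _
  have tc : ∑' n, c n ≤ 4096 * ∑' n, u n := by
    have h2 : ∑' n, c n = ∑ i ∈ Finset.range (12 + 1), (Nat.choose 12 i : ℝ) * ∑' n, u (n + i) := by
      show ∑' n, (∑ i ∈ Finset.range (12 + 1), (Nat.choose 12 i : ℝ) * u (n + i)) = _
      rw [Summable.tsum_finsetSum (fun i _ => (sc1 i).mul_left _)]
      refine Finset.sum_congr rfl fun i _ => ?_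
      rw [tsum_mul_left]
    rw [h2]
    have h3 : ∑ i ∈ Finset.range (12 + 1), (Nat.choose 12 i : ℝ) * ∑' n, u (n + i) ≤
        ∑ i ∈ Finset.range (12 + 1), (Nat.choose 12 i : ℝ) * ∑' n, u n := by
      refine Finset.sum_le_sum fun i _ => ?_
      exact mul_le_mul_of_nonneg_left (sc2 i) (by positivity)
    refine h3.trans ?_
    rw [← Finset.sum_mul]
    have h4 : ∑ i ∈ Finset.range (12 + 1), (Nat.choose 12 i : ℝ) = 4096 := by
      have := Nat.sum_range_choose 12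
      exact_mod_cast this
    rw [h4]
  have sabc : Summable (fun n => a n + b n + c n) := (sa.summable.add sb.summable).add sc
  have sF : Summable (fun n => ‖dlt^[12] g n‖) :=
    Summable.of_nonneg_of_le (fun n => norm_nonneg _) hpt sabc
  refine ⟨sF, ?_⟩
  have t1 : ∑' n : ℕ, ‖dlt^[12] g n‖ ≤ ∑' n, (a n + b n + c n) := sF.tsum_le_tsum hpt sabc
  have t2 : ∑' n, (a n + b n + c n) = N * (K * M) + K * 25 * (1 - r)⁻¹ + ∑' n, c n := by
    rw [Summable.tsum_add (sa.summable.add sb.summable) sc, Summable.tsum_add sa.summable sb.summable,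
      sa.tsum_eq, sb.tsum_eq]
  have t3 : N * (K * M) ≤ 8037 * ε ^ 22 * (10.53 * M) := by
    have : (N : ℝ) * (K * M) = 8037 * ε ^ 22 * ((N * ε ^ 2) * M) := by
      rw [hK]; ring
    rw [this]
    gcongr
    linarith
  have t4 : K * 25 * (1 - r)⁻¹ ≤ 8037 * ε ^ 22 * 13.03 := by
    have h2 : (1 + 2 * ε ^ 2) * r ≤ 1 := by
      have h3 : 1 + 2 * ε ^ 2 ≤ Real.exp (2 * ε ^ 2) := by
        have := Real.add_one_le_exp (2 * ε ^ 2)
        linarith
      have h4 : Real.exp (2 * ε ^ 2) * r = 1 := by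
        rw [hr, ← Real.exp_add]; simp
      calc (1 + 2 * ε ^ 2) * r ≤ Real.exp (2 * ε ^ 2) * r := by gcongr
        _ = 1 := h4
    have h5 : 0 < 1 - r := by linarith
    rw [← div_eq_mul_inv, div_le_iff₀ h5]
    have h6 : 2 * ε ^ 2 ≤ (1 + 2 * ε ^ 2) * (1 - r) := by nlinarith
    have h7 : K * 25 = 8037 * ε ^ 22 * (25 * ε ^ 2) := by rw [hK]; ring
    rw [h7]
    have h8 : 25 * ε ^ 2 ≤ 13.03 * (1 - r) := by nlinarith
    have h9 : 0 ≤ 8037 * ε ^ 22 := by positivity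
    calc 8037 * ε ^ 22 * (25 * ε ^ 2) ≤ 8037 * ε ^ 22 * (13.03 * (1 - r)) := by gcongr
      _ = 8037 * ε ^ 22 * 13.03 * (1 - r) := by ring
  linarith

theorem gA_bdd (ε : ℝ) (h0 : 0 < ε) (h1 : ε ^ 3 ≤ 3 / 1000) (j : ℕ) (hj : j ≤ 2) :
    ∃ C : ℝ, ∀ n, ‖gA ε j n‖ ≤ C := by
  have hs := gA_summable ε h0 h1 j hj
  exact ⟨∑' n, ‖gA ε j n‖, fun n => hs.le_tsum n fun m _ => norm_nonneg _⟩

theorem gE_bdd (ε : ℝ) (h0 : 0 < ε) (h1 : ε ^ 3 ≤ 3 / 1000) (j : ℕ) (hj : j ≤ 2) :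
    ∃ C : ℝ, ∀ n, ‖gE ε j n‖ ≤ C := by
  have hs := gE_summable ε h0 h1 j hj
  exact ⟨∑' n, ‖gE ε j n‖, fun n => hs.le_tsum n fun m _ => norm_nonneg _⟩

theorem FA6_sq (ε : ℝ) (h0 : 0 < ε) (z : ℂ) (hz : ‖z‖ ≤ 2 / ε) :
    ε ^ 2 * (z.re ^ 2 + z.im ^ 2) ≤ 4 := by
  have h2 : z.re ^ 2 + z.im ^ 2 = ‖z‖ ^ 2 := by
    rw [← Complex.normSq_eq_norm_sq, Complex.normSq_apply]; ring
  rw [h2]
  have h3 : ε * ‖z‖ ≤ 2 := by
    rw [le_div_iff₀ h0] at hz
    linarith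
  have h4 : 0 ≤ ε * ‖z‖ := by positivity
  nlinarith

theorem FA6_norm (z : ℂ) : ‖z‖ = Real.sqrt (z.re ^ 2 + z.im ^ 2) := by
  rw [Complex.norm_eq_sqrt_sq_add_sq]

theorem gA_dlt12 (ε : ℝ) (h0 : 0 < ε) (h1 : ε ^ 3 ≤ 3 / 1000) (j : ℕ) (hj : j ≤ 2) :
    Summable (fun n => ‖dlt^[12] (gA ε j) n‖) ∧
    ∑' n : ℕ, ‖dlt^[12] (gA ε j) n‖ ≤ ![6e7, 3e8, 1.5e9] ⟨j, by omega⟩ * ε ^ 22 := by
  obtain ⟨e1, e2, e3⟩ := FA6_eps ε h0 h1
  have key := FA6_gen ε h0 h1 (gA ε j) (gAx ε j) (![300, 1450, 7300, 38000] ⟨j, by omega⟩)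
    (![1e7, 1e8, 5e8] ⟨j, by omega⟩ * ε ^ 22) (by
      interval_cases j <;> norm_num) (gA_summable ε h0 h1 j hj) (gAx_diff ε h0 j)
    (fun n hn => gAx_wn ε h0 j n hn)
    (by
      intro z hz hre him
      refine (gAx_bound ε h0 j z hz).trans ?_
      have := strip_bound (ε ^ 2) z.re z.im (by positivity) (by linarith) hre him
        (FA6_sq ε h0 z hz) j (by omega)
      rw [← FA6_norm] at this
      exact this)
    (by
      intro z hz hre him
      refine (gAx_bound ε h0 j z hz).trans ?_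
      have := strip_tail (ε ^ 2) z.re z.im (by positivity) (by linarith) hre him
        (FA6_sq ε h0 z hz) j (by omega)
      rw [← FA6_norm] at this
      exact this)
    (gA_tail ε h0 h1 j hj)
  refine ⟨key.1, key.2.trans ?_⟩
  have h22 : 0 ≤ ε ^ 22 := by positivity
  interval_cases j
  · norm_num
    nlinarith
  · norm_num
    nlinarith
  · norm_num
    nlinarith

theorem gE_dlt12 (ε : ℝ) (h0 : 0 < ε) (h1 : ε ^ 3 ≤ 3 / 1000) (j : ℕ) (hj : j ≤ 2) :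
    Summable (fun n => ‖dlt^[12] (gE ε j) n‖) ∧
    ∑' n : ℕ, ‖dlt^[12] (gE ε j) n‖ ≤ ![2.5e8, 1.2e9, 6e9] ⟨j, by omega⟩ * ε ^ 22 := by
  obtain ⟨e1, e2, e3⟩ := FA6_eps ε h0 h1
  have key := FA6_gen ε h0 h1 (gE ε j) (gEx ε j)
    (4 / 5 * ![300, 1450, 7300, 38000] ⟨j + 1, by omega⟩)
    (![1e8, 5e8, 3e9] ⟨j, by omega⟩ * ε ^ 22) (by
      interval_cases j <;> norm_num) (gE_summable ε h0 h1 j hj) (gEx_diff ε h0 j)
    (fun n hn => gEx_wn ε h0 j n hn)
    (by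
      intro z hz hre him
      refine (gEx_bound ε h0 j z hz).trans ?_
      have := strip_bound (ε ^ 2) z.re z.im (by positivity) (by linarith) hre him
        (FA6_sq ε h0 z hz) (j + 1) (by omega)
      rw [← FA6_norm] at this
      rw [mul_assoc]
      gcongr)
    (by
      intro z hz hre him
      refine (gEx_bound ε h0 j z hz).trans ?_
      have := strip_tail (ε ^ 2) z.re z.im (by positivity) (by linarith) hre him
        (FA6_sq ε h0 z hz) (j + 1) (by omega)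
      rw [← FA6_norm] at this
      rw [mul_assoc]
      have hp := Real.exp_pos (-(2 * (z.re - 8)))
      linarith)
    (gE_tail ε h0 h1 j hj)
  refine ⟨key.1, key.2.trans ?_⟩
  have h22 : 0 ≤ ε ^ 22 := by positivity
  interval_cases j
  · norm_num
    nlinarith
  · norm_num
    nlinarith
  · norm_num
    nlinarith

theorem FA6_ball (ε : ℝ) (h0 : 0 < ε) (h1 : ε ^ 3 ≤ 3 / 1000) (i : ℕ) (hi : i ≤ 11) :
    wn ε 0 + i * ε ^ 2 + 2 ≤ 9 / 4 := by
  obtain ⟨e1, e2, e3⟩ := FA6_eps ε h0 h1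
  have h2 : (i : ℝ) ≤ 11 := by exact_mod_cast hi
  have h3 : wn ε 0 = 0 := by simp [wn]
  have h4 : (i : ℝ) * ε ^ 2 ≤ 11 * 0.02081 := by
    gcongr
  rw [h3]
  norm_num at h4 ⊢
  linarith

theorem FA6_pow (j : ℕ) (x E : ℝ) (hx : 0 ≤ x) (hx1 : x ≤ 9 / 4) (hE : E ≤ 12) (hE0 : 0 ≤ E) :
    x ^ j * E ≤ (9 / 4) ^ j * 12 := by
  gcongr

theorem gA_dlt_zero (ε : ℝ) (h0 : 0 < ε) (h1 : ε ^ 3 ≤ 3 / 1000) (j : ℕ) (hj : j ≤ 2) (i : ℕ)
    (hi : i ≤ 11) :
    ‖dlt^[i] (gA ε j) 0‖ ≤ (i.factorial : ℝ) / 2 ^ i * ![15, 35, 80] ⟨j, by omega⟩ * ε ^ (2 * i) := by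
  obtain ⟨e1, e2, e3⟩ := FA6_eps ε h0 h1
  have hlt : 2 / ε < 11 / 5 / ε := by gcongr; norm_num
  have hb := FA6_ball ε h0 h1 i hi
  have hw0 : wn ε 0 = 0 := by simp [wn]
  have := FA6_disc ε (gA ε j) (gAx ε j) h0 i 0 2 (![15, 35, 80] ⟨j, by omega⟩) (by norm_num)
    (gAx_diff ε h0 j) (fun n hn => gAx_wn ε h0 j n hn) (by linarith) (by
      intro t ht z hz
      obtain ⟨a1, a2, a3⟩ := FA6_sphere t 2 z (by rw [hw0] at ht; exact ht.1) hz
      have h2 := ht.2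
      have hz94 : ‖z‖ ≤ 9 / 4 := by linarith
      refine (gAx_bound ε h0 j z (by linarith)).trans ?_
      have hsq : z.re ^ 2 + z.im ^ 2 ≤ 81 / 16 := by
        have h3 : z.re ^ 2 + z.im ^ 2 = ‖z‖ ^ 2 := by
          rw [← Complex.normSq_eq_norm_sq, Complex.normSq_apply]; ring
        rw [h3]
        have := norm_nonneg z
        nlinarith
      have h4 := disc_bound (ε ^ 2) z.re z.im (by positivity) (by linarith) hsq
      rw [← FA6_norm] at h4
      have h5 := FA6_pow j ‖z‖ _ (norm_nonneg z) hz94 h4 (Real.exp_pos _).le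
      refine h5.trans ?_
      interval_cases j <;> norm_num)
  rw [pow_mul]
  refine this.trans (le_of_eq ?_)
  ring

theorem gE_dlt_zero (ε : ℝ) (h0 : 0 < ε) (h1 : ε ^ 3 ≤ 3 / 1000) (j : ℕ) (hj : j ≤ 2) (i : ℕ)
    (hi : i ≤ 11) :
    ‖dlt^[i] (gE ε j) 0‖ ≤ (i.factorial : ℝ) / 2 ^ i * ![28, 65, 150] ⟨j, by omega⟩ * ε ^ (2 * i) := by
  obtain ⟨e1, e2, e3⟩ := FA6_eps ε h0 h1
  have hlt : 2 / ε < 11 / 5 / ε := by gcongr; norm_num
  have hb := FA6_ball ε h0 h1 i hi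
  have hw0 : wn ε 0 = 0 := by simp [wn]
  have := FA6_disc ε (gE ε j) (gEx ε j) h0 i 0 2 (![28, 65, 150] ⟨j, by omega⟩) (by norm_num)
    (gEx_diff ε h0 j) (fun n hn => gEx_wn ε h0 j n hn) (by linarith) (by
      intro t ht z hz
      obtain ⟨a1, a2, a3⟩ := FA6_sphere t 2 z (by rw [hw0] at ht; exact ht.1) hz
      have h2 := ht.2
      have hz94 : ‖z‖ ≤ 9 / 4 := by linarith
      refine (gEx_bound ε h0 j z (by linarith)).trans ?_
      have hsq : z.re ^ 2 + z.im ^ 2 ≤ 81 / 16 := by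
        have h3 : z.re ^ 2 + z.im ^ 2 = ‖z‖ ^ 2 := by
          rw [← Complex.normSq_eq_norm_sq, Complex.normSq_apply]; ring
        rw [h3]
        have := norm_nonneg z
        nlinarith
      have h4 := disc_bound (ε ^ 2) z.re z.im (by positivity) (by linarith) hsq
      rw [← FA6_norm] at h4
      have h5 := FA6_pow (j + 1) ‖z‖ _ (norm_nonneg z) hz94 h4 (Real.exp_pos _).le
      rw [mul_assoc]
      have h6 : (4 / 5 : ℝ) * ((9 / 4) ^ (j + 1) * 12) ≤ ![28, 65, 150] ⟨j, by omega⟩ := by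
        interval_cases j <;> norm_num
      linarith)
  rw [pow_mul]
  refine this.trans (le_of_eq ?_)
  ring

end MP_d1b55a
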