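import Pool.Agent.Lib.MP_d1b55a_co.FDefs

/-!
FA7. The first three differences at 0, sharp. h = ε² ≤ .02081 (ε³ ≤ .003). Let E_n = e^{1.27 n h} S_n, n ≤ 3:
S_1 ≥ 1 - h³/23, S_n ≥ 1 - n³h³/23 (sinc x ≥ 1 - x²/6, Bernoulli), S_n ≤ 1; e^{1.27h} - 1 ≤ 1.2872 h.
A_0: dlt: E_1 - 1 in [1.27h - .., 1.2872h]; dlt²: E_2 - 2E_1 + 1 = (e^{1.27h}-1)² + O(h³) (terms S_n-1: ≤ .45 h³);
dlt³: (e-1)³ + O(h³): ≤ 2.14h³ + 2.4h³. A_j: g_n = (n h)^j E_n directly, n ≤ 3.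
E_j: K_n/ε: |K_n| ≤ 1.04 x_n, x_n = n h ε/2, so |K_n/ε| ≤ .52 n h; differences by the triangle inequality.
(E_0, i = 2,3 come from FA6.)
-/

open Finset

namespace MP_d1b55a


/-! auxiliary real estimates -/

theorem FA7_h_le (ε : ℝ) (h0 : 0 < ε) (h1 : ε ^ 3 ≤ 3 / 1000) : ε ≤ 0.1443 ∧ ε ^ 2 ≤ 0.02083 := by
  have h2 : ε ≤ 0.1443 := by
    by_contra hc
    push Not at hc
    have : (0.1443 : ℝ) ^ 3 < ε ^ 3 := by gcongr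
    norm_num at this h1
    linarith
  refine ⟨h2, ?_⟩
  have : ε ^ 2 ≤ (0.1443 : ℝ) ^ 2 := by gcongr
  norm_num at this ⊢
  linarith

theorem FA7_exp (h : ℝ) (h0 : 0 < h) (h1 : h ≤ 0.02083) :
    1.27 * h ≤ Real.exp (127 / 100 * h) - 1 ∧ Real.exp (127 / 100 * h) - 1 ≤ 1.2872 * h := by
  constructor
  · have := Real.add_one_le_exp (127 / 100 * h)
    linarith
  · have h2 := Real.exp_bound' (x := 127 / 100 * h) (by positivity) (by linarith) (n := 3) (by norm_num)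
    simp only [Finset.sum_range_succ, Finset.sum_range_zero] at h2
    norm_num [Nat.factorial] at h2
    have h3 : h ^ 2 ≤ 0.02083 * h := by nlinarith
    have h4 : h ^ 3 ≤ 0.02083 ^ 2 * h := by
      have : h ^ 3 = h ^ 2 * h := by ring
      rw [this]
      have : h ^ 2 ≤ 0.02083 ^ 2 := by gcongr
      nlinarith
    nlinarith

theorem FA7_sinc_lower (x : ℝ) (h0 : 0 < x) (h1 : x ≤ 0.01) : 1 - x ^ 2 * (24 / 138) ≤ Real.sinc x := by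
  rw [Real.sinc_of_ne_zero h0.ne', le_div_iff₀ h0]
  have h2 := Real.sin_bound (x := x) (by rw [abs_of_pos h0]; linarith)
  rw [abs_of_pos h0] at h2
  have h3 := (abs_le.mp h2).1
  have h4 : x ^ 5 ≤ x ^ 3 * 0.0001 := by
    have : x ^ 5 = x ^ 3 * x ^ 2 := by ring
    rw [this]
    have : x ^ 2 ≤ 0.0001 := by nlinarith
    gcongr
  have h5 : 0 < x ^ 3 := by positivity
  nlinarith

theorem FA7_Sn (ε : ℝ) (h0 : 0 < ε) (h1 : ε ^ 3 ≤ 3 / 1000) (n : ℕ) (hn : 1 ≤ n) (hn3 : n ≤ 3) :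
    1 - (n : ℝ) ^ 3 * (ε ^ 2) ^ 3 / 23 ≤ Sn ε n ∧ Sn ε n ≤ 1 := by
  have hn' : (1 : ℝ) ≤ n := by exact_mod_cast hn
  have hn3' : (n : ℝ) ≤ 3 := by exact_mod_cast hn3
  have hx0 : 0 < xn ε n := by
    unfold xn; positivity
  have hx1 : xn ε n ≤ 0.01 := by
    unfold xn
    have : (n : ℝ) * ε ^ 3 ≤ 3 * (3 / 1000) := by gcongr
    norm_num at this ⊢
    linarith
  have hs := FA7_sinc_lower (xn ε n) hx0 hx1
  have hx2 : xn ε n ^ 2 * (24 / 138) ≤ 1 := by nlinarith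
  unfold Sn
  constructor
  · have hb := one_add_mul_le_pow (a := -(xn ε n ^ 2 * (24 / 138))) (by linarith) n
    have h2 : (1 + -(xn ε n ^ 2 * (24 / 138))) ^ n ≤ Real.sinc (xn ε n) ^ n := by
      apply pow_le_pow_left₀ (by linarith)
      linarith
    refine le_trans ?_ (le_trans hb h2)
    apply le_of_eq
    unfold xn
    ring
  · have : |Real.sinc (xn ε n) ^ n| ≤ 1 := by
      rw [abs_pow]
      exact pow_le_one₀ (abs_nonneg _) (Real.abs_sinc_le_one _)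
    exact (abs_le.mp this).2

theorem FA7_Kn (ε : ℝ) (h0 : 0 < ε) (h1 : ε ^ 3 ≤ 3 / 1000) (n : ℕ) (hn : 1 ≤ n) (hn3 : n ≤ 3) :
    ‖Kn ε n‖ ≤ 1.005 * (n * ε ^ 3 / 2) := by
  have hn' : (1 : ℝ) ≤ n := by exact_mod_cast hn
  have hn3' : (n : ℝ) ≤ 3 := by exact_mod_cast hn3
  have hx0 : 0 < xn ε n := by
    unfold xn; positivity
  have hx1 : xn ε n ≤ 0.01 := by
    unfold xn
    have : (n : ℝ) * ε ^ 3 ≤ 3 * (3 / 1000) := by gcongr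
    norm_num at this ⊢
    linarith
  have hxe : (n * ε ^ 3 / 2 : ℝ) = xn ε n := by unfold xn; ring
  rw [hxe]
  set x := xn ε n with hx
  have hs := FA7_sinc_lower x hx0 hx1
  have hs1 := Real.sinc_le_one x
  have hsabs := Real.abs_sinc_le_one x
  have hc := Real.one_sub_sq_div_two_le_cos (x := x)
  have hc1 := Real.cos_le_one x
  have hkey : Kn ε n = ((Real.sinc x ^ (n - 1) : ℝ) : ℂ) *
      (((Real.sinc x - Real.cos x : ℝ) : ℂ) - Complex.I * ((x * Real.sinc x : ℝ) : ℂ)) := by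
    unfold Kn Sn
    rw [if_neg (by omega)]
    obtain ⟨m, rfl⟩ : ∃ m, n = m + 1 := ⟨n - 1, by omega⟩
    rw [← hx]
    rw [Nat.add_sub_cancel]
    push_cast
    ring
  rw [hkey, norm_mul, Complex.norm_real, Real.norm_eq_abs, abs_pow]
  have h2 : |Real.sinc x| ^ (n - 1) ≤ 1 := pow_le_one₀ (abs_nonneg _) hsabs
  have h3 : ‖((Real.sinc x - Real.cos x : ℝ) : ℂ) - Complex.I * ((x * Real.sinc x : ℝ) : ℂ)‖ ≤
      1.005 * x := by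
    refine le_trans (norm_sub_le _ _) ?_
    rw [norm_mul, Complex.norm_I, one_mul, Complex.norm_real, Complex.norm_real, Real.norm_eq_abs,
      Real.norm_eq_abs]
    have h4 : |Real.sinc x - Real.cos x| ≤ x ^ 2 / 2 := by
      rw [abs_le]
      constructor
      · nlinarith
      · nlinarith
    have h5 : |x * Real.sinc x| ≤ x := by
      rw [abs_mul, abs_of_pos hx0]
      nlinarith
    nlinarith
  calc |Real.sinc x| ^ (n - 1) * ‖((Real.sinc x - Real.cos x : ℝ) : ℂ) -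
        Complex.I * ((x * Real.sinc x : ℝ) : ℂ)‖ ≤ 1 * (1.005 * x) := by
        gcongr
    _ = 1.005 * x := by ring

theorem FA7_expw (ε : ℝ) (n : ℕ) :
    Real.exp (127 / 100 * wn ε n) = Real.exp (127 / 100 * ε ^ 2) ^ n := by
  rw [← Real.exp_nat_mul]
  congr 1
  unfold wn
  ring

theorem FA7_dlt1 (f : ℕ → ℂ) : dlt^[1] f 0 = f 1 - f 0 := by
  simp [dlt]

theorem FA7_dlt2 (f : ℕ → ℂ) : dlt^[2] f 0 = f 2 - 2 * f 1 + f 0 := by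
  simp only [Function.iterate_succ, Function.iterate_zero, Function.comp, id, dlt]
  norm_num
  ring

theorem FA7_dlt3 (f : ℕ → ℂ) : dlt^[3] f 0 = f 3 - 3 * f 2 + 3 * f 1 - f 0 := by
  simp only [Function.iterate_succ, Function.iterate_zero, Function.comp, id, dlt]
  norm_num
  ring

theorem FA7_pack (ε : ℝ) (h0 : 0 < ε) (h1 : ε ^ 3 ≤ 3 / 1000) :
    ∃ h t a b c : ℝ, h = ε ^ 2 ∧ 0 < h ∧ h ≤ 0.02083 ∧ t = Real.exp (127 / 100 * ε ^ 2) - 1 ∧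
      1.27 * h ≤ t ∧ t ≤ 1.2872 * h ∧ a = 1 - Sn ε 1 ∧ b = 1 - Sn ε 2 ∧ c = 1 - Sn ε 3 ∧
      0 ≤ a ∧ a ≤ h ^ 3 / 23 ∧ 0 ≤ b ∧ b ≤ 8 * h ^ 3 / 23 ∧ 0 ≤ c ∧ c ≤ 27 * h ^ 3 / 23 := by
  obtain ⟨hε, hh⟩ := FA7_h_le ε h0 h1
  have hp : 0 < ε ^ 2 := by positivity
  obtain ⟨e1, e2⟩ := FA7_exp (ε ^ 2) hp hh
  have s1 := FA7_Sn ε h0 h1 1 le_rfl (by norm_num)
  have s2 := FA7_Sn ε h0 h1 2 (by norm_num) (by norm_num)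
  have s3 := FA7_Sn ε h0 h1 3 (by norm_num) (by norm_num)
  refine ⟨ε ^ 2, _, _, _, _, rfl, hp, hh, rfl, e1, e2, rfl, rfl, rfl, ?_, ?_, ?_, ?_, ?_, ?_⟩
  · linarith [s1.2]
  · have := s1.1; norm_num at this ⊢; linarith
  · linarith [s2.2]
  · have := s2.1; norm_num at this ⊢; linarith
  · linarith [s3.2]
  · have := s3.1; norm_num at this ⊢; linarith

theorem FA7_gA (ε : ℝ) (j n : ℕ) (h t s : ℝ) (hh : h = ε ^ 2)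
    (ht : t = Real.exp (127 / 100 * ε ^ 2) - 1) (hs : s = 1 - Sn ε n) :
    gA ε j n = (((n * h) ^ j * (1 + t) ^ n * (1 - s) : ℝ) : ℂ) := by
  unfold gA
  rw [FA7_expw]
  have : Real.exp (127 / 100 * ε ^ 2) = 1 + t := by rw [ht]; ring
  rw [this, hs, hh]
  congr 1
  unfold wn
  ring

theorem FA7_gA_zero (ε : ℝ) (j : ℕ) : gA ε j 0 = if j = 0 then 1 else 0 := by
  unfold gA wn Sn
  split_ifs with h
  · subst h; simp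
  · simp [h]

theorem FA7_gE_zero (ε : ℝ) (j : ℕ) : gE ε j 0 = 0 := by
  unfold gE Kn
  simp

theorem FA7_gE_norm (ε : ℝ) (h0 : 0 < ε) (h1 : ε ^ 3 ≤ 3 / 1000) (j n : ℕ) (hn : 1 ≤ n)
    (hn3 : n ≤ 3) (h t : ℝ) (hh : h = ε ^ 2) (ht : t = Real.exp (127 / 100 * ε ^ 2) - 1) :
    ‖gE ε j n‖ ≤ (n * h) ^ (j + 1) * ((1 + t) ^ n * 0.5025) := by
  have hK := FA7_Kn ε h0 h1 n hn hn3
  unfold gE
  rw [FA7_expw]
  have h2 : Real.exp (127 / 100 * ε ^ 2) = 1 + t := by rw [ht]; ring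
  have ht0 : 0 < 1 + t := by rw [← h2]; positivity
  rw [h2, norm_mul, Complex.norm_real, Real.norm_eq_abs]
  have hw : wn ε n = n * h := by unfold wn; rw [hh]
  rw [hw]
  have hn' : (0 : ℝ) < n := by exact_mod_cast hn
  have hhp : 0 < h := by rw [hh]; positivity
  have hpos : 0 ≤ (n * h) ^ j * (1 + t) ^ n / ε := by positivity
  rw [abs_of_nonneg hpos]
  calc (n * h) ^ j * (1 + t) ^ n / ε * ‖Kn ε n‖ ≤
      (n * h) ^ j * (1 + t) ^ n / ε * (1.005 * (n * ε ^ 3 / 2)) := by gcongr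
    _ = (n * h) ^ (j + 1) * ((1 + t) ^ n * 0.5025) := by
      rw [hh]
      field_simp
      ring

theorem FA7_n1 (f : ℕ → ℂ) (r0 r1 m y K M : ℝ) (h0 : f 0 = (r0 : ℂ)) (h1 : f 1 = (r1 : ℂ))
    (hx : r1 - r0 = m * y) (hM : M = m * K) (hm : 0 ≤ m) (l : -K ≤ y) (u : y ≤ K) :
    ‖dlt^[1] f 0‖ ≤ M := by
  rw [FA7_dlt1, h0, h1, ← Complex.ofReal_sub, Complex.norm_real, Real.norm_eq_abs, hx, abs_mul,
    abs_of_nonneg hm, hM]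
  exact mul_le_mul_of_nonneg_left (abs_le.mpr ⟨l, u⟩) hm

theorem FA7_n2 (f : ℕ → ℂ) (r0 r1 r2 m y K M : ℝ) (h0 : f 0 = (r0 : ℂ)) (h1 : f 1 = (r1 : ℂ))
    (h2 : f 2 = (r2 : ℂ)) (hx : r2 - 2 * r1 + r0 = m * y) (hM : M = m * K) (hm : 0 ≤ m)
    (l : -K ≤ y) (u : y ≤ K) : ‖dlt^[2] f 0‖ ≤ M := by
  have : f 2 - 2 * f 1 + f 0 = ((r2 - 2 * r1 + r0 : ℝ) : ℂ) := by
    rw [h0, h1, h2]; push_cast; ring
  rw [FA7_dlt2, this, Complex.norm_real, Real.norm_eq_abs, hx, abs_mul, abs_of_nonneg hm, hM]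
  exact mul_le_mul_of_nonneg_left (abs_le.mpr ⟨l, u⟩) hm

theorem FA7_n3 (f : ℕ → ℂ) (r0 r1 r2 r3 m y K M : ℝ) (h0 : f 0 = (r0 : ℂ)) (h1 : f 1 = (r1 : ℂ))
    (h2 : f 2 = (r2 : ℂ)) (h3 : f 3 = (r3 : ℂ)) (hx : r3 - 3 * r2 + 3 * r1 - r0 = m * y)
    (hM : M = m * K) (hm : 0 ≤ m) (l : -K ≤ y) (u : y ≤ K) : ‖dlt^[3] f 0‖ ≤ M := by
  have : f 3 - 3 * f 2 + 3 * f 1 - f 0 = ((r3 - 3 * r2 + 3 * r1 - r0 : ℝ) : ℂ) := by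
    rw [h0, h1, h2, h3]; push_cast; ring
  rw [FA7_dlt3, this, Complex.norm_real, Real.norm_eq_abs, hx, abs_mul, abs_of_nonneg hm, hM]
  exact mul_le_mul_of_nonneg_left (abs_le.mpr ⟨l, u⟩) hm

theorem FA7_facts (h t a b c : ℝ) (hp : 0 < h) (hle : h ≤ 0.02083) (t1 : 1.27 * h ≤ t)
    (t2 : t ≤ 1.2872 * h) (a0 : 0 ≤ a) (a1 : a ≤ h ^ 3 / 23) (b0 : 0 ≤ b) (b1 : b ≤ 8 * h ^ 3 / 23)
    (c0 : 0 ≤ c) (c1 : c ≤ 27 * h ^ 3 / 23) :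
    0 ≤ t ∧ t ≤ 0.02682 ∧ h ^ 2 ≤ 0.02083 * h ∧ h ^ 3 ≤ 0.02083 * h ^ 2 ∧ 0 < h ^ 2 ∧ 0 < h ^ 3 ∧
      0 ≤ t ^ 2 ∧ t ^ 2 ≤ 1.65689 * h ^ 2 ∧ 0 ≤ t ^ 3 ∧ t ^ 3 ≤ 2.1328 * h ^ 3 ∧
      0 ≤ (1 + t) * a ∧ (1 + t) * a ≤ 1.03 * (h ^ 3 / 23) ∧
      0 ≤ (1 + t) ^ 2 * b ∧ (1 + t) ^ 2 * b ≤ 1.0544 * (8 * h ^ 3 / 23) ∧
      0 ≤ (1 + t) ^ 3 * c ∧ (1 + t) ^ 3 * c ≤ 1.0827 * (27 * h ^ 3 / 23) := by
  have t0 : 0 ≤ t := by nlinarith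
  have tle : t ≤ 0.02682 := by nlinarith
  have hh2 : h ^ 2 ≤ 0.02083 * h := by nlinarith
  have hh3 : h ^ 3 ≤ 0.02083 * h ^ 2 := by nlinarith [sq_nonneg h]
  have hp2 : 0 < h ^ 2 := by positivity
  have hp3 : 0 < h ^ 3 := by positivity
  have tt : t ^ 2 ≤ 1.65689 * h ^ 2 := by nlinarith
  have ttt : t ^ 3 ≤ 2.1328 * h ^ 3 := by
    have : t ^ 3 ≤ (1.2872 * h) ^ 3 := by gcongr
    nlinarith
  have p2 : (1 + t) ^ 2 ≤ 1.0544 :=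
    (pow_le_pow_left₀ (by linarith) (by linarith : 1 + t ≤ 1.02682) 2).trans (by norm_num)
  have p3 : (1 + t) ^ 3 ≤ 1.0827 :=
    (pow_le_pow_left₀ (by linarith) (by linarith : 1 + t ≤ 1.02682) 3).trans (by norm_num)
  have p2' : 0 ≤ (1 + t) ^ 2 := by positivity
  have p3' : 0 ≤ (1 + t) ^ 3 := by positivity
  have m1 : (1 + t) * a ≤ 1.03 * (h ^ 3 / 23) := by gcongr; linarith
  have m2 : (1 + t) ^ 2 * b ≤ 1.0544 * (8 * h ^ 3 / 23) := by gcongr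
  have m3 : (1 + t) ^ 3 * c ≤ 1.0827 * (27 * h ^ 3 / 23) := by gcongr
  refine ⟨t0, tle, hh2, hh3, hp2, hp3, by positivity, tt, by positivity, ttt, by positivity, m1,
    by positivity, m2, by positivity, m3⟩

theorem gA0_small (ε : ℝ) (h0 : 0 < ε) (h1 : ε ^ 3 ≤ 3 / 1000) :
    gA ε 0 0 = 1 ∧ ‖dlt^[1] (gA ε 0) 0‖ ≤ 1.29 * ε ^ 2 ∧ ‖dlt^[2] (gA ε 0) 0‖ ≤ 1.67 * ε ^ 4 ∧
      ‖dlt^[3] (gA ε 0) 0‖ ≤ 4.6 * ε ^ 6 := by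
  obtain ⟨h, t, a, b, c, hh, hp, hle, ht, t1, t2, ha, hb, hc, a0, a1, b0, b1, c0, c1⟩ :=
    FA7_pack ε h0 h1
  have e4 : ε ^ 4 = h ^ 2 := by rw [hh]; ring
  have e6 : ε ^ 6 = h ^ 3 := by rw [hh]; ring
  have g1 := FA7_gA ε 0 1 h t a hh ht ha
  have g2 := FA7_gA ε 0 2 h t b hh ht hb
  have g3 := FA7_gA ε 0 3 h t c hh ht hc
  have g0 : gA ε 0 0 = ((1 : ℝ) : ℂ) := by rw [FA7_gA_zero]; simp
  obtain ⟨t0, tle, hh2, hh3, hp2, hp3, tt0, tt, ttt0, ttt, m1', m1, m2', m2, m3', m3⟩ :=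
    FA7_facts h t a b c hp hle t1 t2 a0 a1 b0 b1 c0 c1
  rw [← hh, e4, e6]
  refine ⟨by rw [g0]; simp, ?_, ?_, ?_⟩
  · refine FA7_n1 _ _ _ 1 (t - (1 + t) * a) _ _ g0 g1 (by push_cast; ring) (one_mul _).symm
      zero_le_one ?_ ?_ <;> linarith
  · refine FA7_n2 _ _ _ _ 1 (t ^ 2 - (1 + t) ^ 2 * b + 2 * ((1 + t) * a)) _ _ g0 g1 g2
      (by push_cast; ring) (one_mul _).symm zero_le_one ?_ ?_ <;> linarith
  · refine FA7_n3 _ _ _ _ _ 1 (t ^ 3 - (1 + t) ^ 3 * c + 3 * ((1 + t) ^ 2 * b) -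
      3 * ((1 + t) * a)) _ _ g0 g1 g2 g3 (by push_cast; ring) (one_mul _).symm zero_le_one ?_ ?_
      <;> linarith

theorem gA1_small (ε : ℝ) (h0 : 0 < ε) (h1 : ε ^ 3 ≤ 3 / 1000) :
    gA ε 1 0 = 0 ∧ ‖dlt^[1] (gA ε 1) 0‖ ≤ 1.03 * ε ^ 2 ∧ ‖dlt^[2] (gA ε 1) 0‖ ≤ 2.66 * ε ^ 4 ∧
      ‖dlt^[3] (gA ε 1) 0‖ ≤ 5.2 * ε ^ 6 := by
  obtain ⟨h, t, a, b, c, hh, hp, hle, ht, t1, t2, ha, hb, hc, a0, a1, b0, b1, c0, c1⟩ :=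
    FA7_pack ε h0 h1
  have e4 : ε ^ 4 = h ^ 2 := by rw [hh]; ring
  have e6 : ε ^ 6 = h ^ 3 := by rw [hh]; ring
  have g1 := FA7_gA ε 1 1 h t a hh ht ha
  have g2 := FA7_gA ε 1 2 h t b hh ht hb
  have g3 := FA7_gA ε 1 3 h t c hh ht hc
  have g0 : gA ε 1 0 = ((0 : ℝ) : ℂ) := by rw [FA7_gA_zero]; simp
  obtain ⟨t0, tle, hh2, hh3, hp2, hp3, tt0, tt, ttt0, ttt, m1', m1, m2', m2, m3', m3⟩ :=
    FA7_facts h t a b c hp hle t1 t2 a0 a1 b0 b1 c0 c1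
  rw [← hh, e4, e6]
  refine ⟨by rw [g0]; simp, ?_, ?_, ?_⟩
  · refine FA7_n1 _ _ _ h (1 + t - (1 + t) * a) 1.03 _ g0 g1 (by push_cast; ring) (by ring)
      hp.le ?_ ?_ <;> linarith
  · refine FA7_n2 _ _ _ _ h (2 * (t + t ^ 2 - (1 + t) ^ 2 * b + (1 + t) * a)) (2.66 * h) _
      g0 g1 g2 (by push_cast; ring) (by ring) hp.le ?_ ?_ <;> linarith
  · refine FA7_n3 _ _ _ _ _ h (3 * (t ^ 2 + t ^ 3 - (1 + t) ^ 3 * c + 2 * ((1 + t) ^ 2 * b) -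
      (1 + t) * a)) (5.2 * h ^ 2) _ g0 g1 g2 g3 (by push_cast; ring) (by ring) hp.le ?_ ?_
      <;> linarith

theorem gA2_small (ε : ℝ) (h0 : 0 < ε) (h1 : ε ^ 3 ≤ 3 / 1000) :
    gA ε 2 0 = 0 ∧ ‖dlt^[1] (gA ε 2) 0‖ ≤ 1.03 * ε ^ 4 ∧ ‖dlt^[2] (gA ε 2) 0‖ ≤ 2.23 * ε ^ 4 ∧
      ‖dlt^[3] (gA ε 2) 0‖ ≤ 8.4 * ε ^ 6 := by
  obtain ⟨h, t, a, b, c, hh, hp, hle, ht, t1, t2, ha, hb, hc, a0, a1, b0, b1, c0, c1⟩ :=
    FA7_pack ε h0 h1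
  have e4 : ε ^ 4 = h ^ 2 := by rw [hh]; ring
  have e6 : ε ^ 6 = h ^ 3 := by rw [hh]; ring
  have g1 := FA7_gA ε 2 1 h t a hh ht ha
  have g2 := FA7_gA ε 2 2 h t b hh ht hb
  have g3 := FA7_gA ε 2 3 h t c hh ht hc
  have g0 : gA ε 2 0 = ((0 : ℝ) : ℂ) := by rw [FA7_gA_zero]; simp
  obtain ⟨t0, tle, hh2, hh3, hp2, hp3, tt0, tt, ttt0, ttt, m1', m1, m2', m2, m3', m3⟩ :=
    FA7_facts h t a b c hp hle t1 t2 a0 a1 b0 b1 c0 c1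
  rw [e4, e6]
  refine ⟨by rw [g0]; simp, ?_, ?_, ?_⟩
  · refine FA7_n1 _ _ _ (h ^ 2) (1 + t - (1 + t) * a) 1.03 _ g0 g1 (by push_cast; ring) (by ring)
      hp2.le ?_ ?_ <;> linarith
  · refine FA7_n2 _ _ _ _ (h ^ 2) (2 * (1 + 3 * t + 2 * t ^ 2 - 2 * ((1 + t) ^ 2 * b) +
      (1 + t) * a)) 2.23 _ g0 g1 g2 (by push_cast; ring) (by ring) hp2.le ?_ ?_ <;> linarith
  · refine FA7_n3 _ _ _ _ _ (h ^ 2) (3 * (2 * t + 5 * t ^ 2 + 3 * t ^ 3 -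
      3 * ((1 + t) ^ 3 * c) + 4 * ((1 + t) ^ 2 * b) -
      (1 + t) * a)) (8.4 * h) _ g0 g1 g2 g3 (by push_cast; ring) (by ring) hp2.le ?_ ?_
      <;> linarith

theorem FA7_t (ε : ℝ) (h0 : 0 < ε) (h1 : ε ^ 3 ≤ 3 / 1000) :
    ∃ h t : ℝ, h = ε ^ 2 ∧ 0 < h ∧ t = Real.exp (127 / 100 * ε ^ 2) - 1 ∧ 0 ≤ t ∧ t ≤ 0.02682 ∧
      (1 + t) ^ 2 ≤ 1.0544 ∧ (1 + t) ^ 3 ≤ 1.0827 := by
  obtain ⟨h, t, a, b, c, hh, hp, hle, ht, t1, t2, ha, hb, hc, a0, a1, b0, b1, c0, c1⟩ :=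
    FA7_pack ε h0 h1
  have t0 : 0 ≤ t := by nlinarith
  have tle : t ≤ 0.02682 := by nlinarith
  exact ⟨h, t, hh, hp, ht, t0, tle,
    (pow_le_pow_left₀ (by linarith) (by linarith : 1 + t ≤ 1.02682) 2).trans (by norm_num),
    (pow_le_pow_left₀ (by linarith) (by linarith : 1 + t ≤ 1.02682) 3).trans (by norm_num)⟩

theorem gE0_small (ε : ℝ) (h0 : 0 < ε) (h1 : ε ^ 3 ≤ 3 / 1000) :
    gE ε 0 0 = 0 ∧ ‖dlt^[1] (gE ε 0) 0‖ ≤ 0.54 * ε ^ 2 := by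
  obtain ⟨h, t, hh, hp, ht, t0, tle, p2, p3⟩ := FA7_t ε h0 h1
  refine ⟨FA7_gE_zero ε 0, ?_⟩
  have n1 := FA7_gE_norm ε h0 h1 0 1 le_rfl (by norm_num) h t hh ht
  rw [FA7_dlt1, FA7_gE_zero, sub_zero, ← hh]
  refine n1.trans ?_
  norm_num
  nlinarith

theorem gE1_small (ε : ℝ) (h0 : 0 < ε) (h1 : ε ^ 3 ≤ 3 / 1000) :
    gE ε 1 0 = 0 ∧ ‖dlt^[1] (gE ε 1) 0‖ ≤ 0.54 * ε ^ 4 ∧ ‖dlt^[2] (gE ε 1) 0‖ ≤ 3.5 * ε ^ 4 := by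
  obtain ⟨h, t, hh, hp, ht, t0, tle, p2, p3⟩ := FA7_t ε h0 h1
  have e4 : ε ^ 4 = h ^ 2 := by rw [hh]; ring
  have hp2 : 0 < h ^ 2 := by positivity
  have n1 := FA7_gE_norm ε h0 h1 1 1 le_rfl (by norm_num) h t hh ht
  have n2 := FA7_gE_norm ε h0 h1 1 2 (by norm_num) (by norm_num) h t hh ht
  have n1' : ‖gE ε 1 1‖ ≤ 0.54 * h ^ 2 := by
    refine n1.trans ?_
    push_cast
    nlinarith
  have n2' : ‖gE ε 1 2‖ ≤ 2.12 * h ^ 2 := by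
    refine n2.trans ?_
    push_cast
    nlinarith
  rw [e4]
  refine ⟨FA7_gE_zero ε 1, ?_, ?_⟩
  · rw [FA7_dlt1, FA7_gE_zero, sub_zero]
    exact n1'
  · rw [FA7_dlt2, FA7_gE_zero, add_zero]
    refine (norm_sub_le _ _).trans ?_
    rw [norm_mul]
    norm_num
    linarith

theorem gE2_small (ε : ℝ) (h0 : 0 < ε) (h1 : ε ^ 3 ≤ 3 / 1000) :
    gE ε 2 0 = 0 ∧ ‖dlt^[1] (gE ε 2) 0‖ ≤ 0.54 * ε ^ 6 ∧ ‖dlt^[2] (gE ε 2) 0‖ ≤ 5.8 * ε ^ 6 ∧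
      ‖dlt^[3] (gE ε 2) 0‖ ≤ 32 * ε ^ 6 := by
  obtain ⟨h, t, hh, hp, ht, t0, tle, p2, p3⟩ := FA7_t ε h0 h1
  have e6 : ε ^ 6 = h ^ 3 := by rw [hh]; ring
  have hp3 : 0 < h ^ 3 := by positivity
  have n1 := FA7_gE_norm ε h0 h1 2 1 le_rfl (by norm_num) h t hh ht
  have n2 := FA7_gE_norm ε h0 h1 2 2 (by norm_num) (by norm_num) h t hh ht
  have n3 := FA7_gE_norm ε h0 h1 2 3 (by norm_num) (by norm_num) h t hh ht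
  have n1' : ‖gE ε 2 1‖ ≤ 0.54 * h ^ 3 := by
    refine n1.trans ?_
    push_cast
    nlinarith
  have n2' : ‖gE ε 2 2‖ ≤ 4.24 * h ^ 3 := by
    refine n2.trans ?_
    push_cast
    nlinarith
  have n3' : ‖gE ε 2 3‖ ≤ 14.7 * h ^ 3 := by
    refine n3.trans ?_
    push_cast
    nlinarith
  rw [e6]
  refine ⟨FA7_gE_zero ε 2, ?_, ?_, ?_⟩
  · rw [FA7_dlt1, FA7_gE_zero, sub_zero]
    exact n1'
  · rw [FA7_dlt2, FA7_gE_zero, add_zero]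
    refine (norm_sub_le _ _).trans ?_
    rw [norm_mul]
    norm_num
    linarith
  · rw [FA7_dlt3, FA7_gE_zero, sub_zero]
    refine (norm_add_le _ _).trans ?_
    refine (add_le_add_left (norm_sub_le _ _) _).trans ?_
    rw [norm_mul, norm_mul]
    norm_num
    linarith

end MP_d1b55a
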