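import Pool.Agent.Lib.MP_d1b55a_co.FA8N

/-!
FA8. Pointwise bounds on the far arc, `12 ≤ |s| ≤ π/ε²`.
-/

open Finset

namespace MP_d1b55a

theorem FA8_poly (ε s u Φ U0 t0 c1 c2 c3 v4 v11 a0 a1 a2 a3 ws w12 : ℝ) (h0 : 0 < ε)
    (hu0 : 0 < u) (hs : |s| * u ^ 2 = 1) (hφ : |s| * ε ^ 2 ≤ Φ) (ht : u ^ 2 ≤ t0) (hU0 : 0 ≤ U0)
    (hU : t0 ≤ U0 ^ 2) (hc1 : 0 ≤ c1) (hc2 : 0 ≤ c2) (hc3 : 0 ≤ c3) (hv4 : 0 ≤ v4) (hv11 : 0 ≤ v11)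
    (ha1 : 0 ≤ a1) (ha2 : 0 ≤ a2)
    (e0 : 0.7071 * u ≤ ε * a0) (e1 : ε ^ 3 * a1 ≤ c1 * u ^ 3) (e2 : ε ^ 5 * a2 ≤ c2 * u ^ 5)
    (e3 : ε ^ 7 * a3 ≤ c3 * u ^ 7) (e4 : ε * ws ≤ v4 * u ^ 9)
    (e5 : ε * (ε ^ 22 * w12) ≤ v11 * u ^ 9)
    (g0 : 1.29 * c1 * t0 + 1.67 * c2 * t0 ^ 2 + 4.6 * c3 * t0 ^ 3 + (15 * v4 + 6e7 * v11) * t0 ^ 4 ≤
      0.0571)
    (g1 : 1.03 * c1 + 2.66 * c2 * t0 + 5.2 * c3 * t0 ^ 2 + (35 * v4 + 3e8 * v11) * t0 ^ 3 ≤ 0.54)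
    (g2 : 1.03 * Φ * c1 + 2.23 * c2 + 8.4 * c3 * t0 + (80 * v4 + 1.5e9 * v11) * t0 ^ 2 ≤ 2.75)
    (g3 : (0.54 * c1 * t0 + 14 * c2 * t0 ^ 2 + 21 * c3 * t0 ^ 3 + (28 * v4 + 2.5e8 * v11) * t0 ^ 4) *
      U0 ≤ 0.02)
    (g4 : 0.54 * Φ * c1 + 3.5 * c2 + 48.75 * c3 * t0 + (65 * v4 + 1.2e9 * v11) * t0 ^ 2 ≤ 4.4)
    (g5 : 0.54 * Φ ^ 2 * c1 * t0 + 5.8 * Φ * c2 * t0 + 32 * c3 * t0 +
      (150 * v4 + 6e9 * v11) * t0 ^ 2 ≤ 4.8) :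
    0.65 * u ≤ ε * a0 - ε * (1.29 * ε ^ 2 * a1 + 1.67 * ε ^ 4 * a2 +
      4.6 * ε ^ 6 * a3 + 15 * ws + 6e7 * ε ^ 22 * w12) ∧
    ε * (1.03 * ε ^ 2 * a1 + 2.66 * ε ^ 4 * a2 + 5.2 * ε ^ 6 * a3 + 35 * ws +
      3e8 * ε ^ 22 * w12) ≤ 0.54 * u ^ 3 ∧
    ε * (1.03 * ε ^ 4 * a1 + 2.23 * ε ^ 4 * a2 + 8.4 * ε ^ 6 * a3 + 80 * ws +
      1.5e9 * ε ^ 22 * w12) ≤ 2.75 * u ^ 5 ∧
    1 + ε * (0.54 * ε ^ 2 * a1 + 14 * ε ^ 4 * a2 + 21 * ε ^ 6 * a3 + 28 * ws +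
      2.5e8 * ε ^ 22 * w12) ≤ 1.02 ∧
    ε * (0.54 * ε ^ 4 * a1 + 3.5 * ε ^ 4 * a2 + 48.75 * ε ^ 6 * a3 + 65 * ws +
      1.2e9 * ε ^ 22 * w12) ≤ 4.4 * u ^ 5 ∧
    ε * (0.54 * ε ^ 6 * a1 + 5.8 * ε ^ 6 * a2 + 32 * ε ^ 6 * a3 + 150 * ws +
      6e9 * ε ^ 22 * w12) ≤ 4.8 * u ^ 5 := by
  have hh : ε ^ 2 ≤ Φ * u ^ 2 := by
    have := mul_le_mul_of_nonneg_right hφ (sq_nonneg u)
    have h2 : |s| * ε ^ 2 * u ^ 2 = ε ^ 2 * (|s| * u ^ 2) := by ring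
    rw [h2, hs, mul_one] at this
    exact this
  have hΦ : 0 ≤ Φ := le_trans (by positivity) hφ
  have ht0 : 0 ≤ t0 := le_trans (sq_nonneg u) ht
  have huU : u ≤ U0 := (abs_le_of_sq_le_sq' (ht.trans hU) hU0).2
  have p1 : u ^ 2 ≤ t0 := ht
  have p2 : u ^ 4 ≤ t0 ^ 2 := by
    have := pow_le_pow_left₀ (sq_nonneg u) ht 2
    rw [← pow_mul] at this; exact this
  have p3 : u ^ 6 ≤ t0 ^ 3 := by
    have := pow_le_pow_left₀ (sq_nonneg u) ht 3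
    rw [← pow_mul] at this; exact this
  have p4 : u ^ 8 ≤ t0 ^ 4 := by
    have := pow_le_pow_left₀ (sq_nonneg u) ht 4
    rw [← pow_mul] at this; exact this
  have u3 := pow_pos hu0 3
  have u5 := pow_pos hu0 5
  refine ⟨?_, ?_, ?_, ?_, ?_, ?_⟩
  · have q1 := mul_le_mul_of_nonneg_left p1 (by positivity : 0 ≤ 1.29 * c1)
    have q2 := mul_le_mul_of_nonneg_left p2 (by positivity : 0 ≤ 1.67 * c2)
    have q3 := mul_le_mul_of_nonneg_left p3 (by positivity : 0 ≤ 4.6 * c3)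
    have q4 := mul_le_mul_of_nonneg_left p4 (by positivity : 0 ≤ 15 * v4 + 6e7 * v11)
    have q : 1.29 * c1 * u ^ 2 + 1.67 * c2 * u ^ 4 + 4.6 * c3 * u ^ 6 +
        (15 * v4 + 6e7 * v11) * u ^ 8 ≤ 0.0571 := by linarith
    have q' := mul_le_mul_of_nonneg_left q hu0.le
    have r : ε * (1.29 * ε ^ 2 * a1 + 1.67 * ε ^ 4 * a2 + 4.6 * ε ^ 6 * a3 + 15 * ws +
        6e7 * ε ^ 22 * w12) = 1.29 * (ε ^ 3 * a1) + 1.67 * (ε ^ 5 * a2) + 4.6 * (ε ^ 7 * a3) +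
        15 * (ε * ws) + 6e7 * (ε * (ε ^ 22 * w12)) := by ring
    rw [r]
    have r2 : u * (1.29 * c1 * u ^ 2 + 1.67 * c2 * u ^ 4 + 4.6 * c3 * u ^ 6 +
        (15 * v4 + 6e7 * v11) * u ^ 8) = 1.29 * (c1 * u ^ 3) + 1.67 * (c2 * u ^ 5) +
        4.6 * (c3 * u ^ 7) + 15 * (v4 * u ^ 9) + 6e7 * (v11 * u ^ 9) := by ring
    rw [r2] at q'
    linarith
  · have q1 := mul_le_mul_of_nonneg_left p1 (by positivity : 0 ≤ 2.66 * c2)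
    have q2 := mul_le_mul_of_nonneg_left p2 (by positivity : 0 ≤ 5.2 * c3)
    have q3 := mul_le_mul_of_nonneg_left p3 (by positivity : 0 ≤ 35 * v4 + 3e8 * v11)
    have q : 1.03 * c1 + 2.66 * c2 * u ^ 2 + 5.2 * c3 * u ^ 4 +
        (35 * v4 + 3e8 * v11) * u ^ 6 ≤ 0.54 := by linarith
    have q' := mul_le_mul_of_nonneg_left q u3.le
    have r : ε * (1.03 * ε ^ 2 * a1 + 2.66 * ε ^ 4 * a2 + 5.2 * ε ^ 6 * a3 + 35 * ws +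
        3e8 * ε ^ 22 * w12) = 1.03 * (ε ^ 3 * a1) + 2.66 * (ε ^ 5 * a2) + 5.2 * (ε ^ 7 * a3) +
        35 * (ε * ws) + 3e8 * (ε * (ε ^ 22 * w12)) := by ring
    rw [r]
    have r2 : u ^ 3 * (1.03 * c1 + 2.66 * c2 * u ^ 2 + 5.2 * c3 * u ^ 4 +
        (35 * v4 + 3e8 * v11) * u ^ 6) = 1.03 * (c1 * u ^ 3) + 2.66 * (c2 * u ^ 5) +
        5.2 * (c3 * u ^ 7) + 35 * (v4 * u ^ 9) + 3e8 * (v11 * u ^ 9) := by ring
    rw [r2] at q'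
    linarith
  · have q1 := mul_le_mul_of_nonneg_left p1 (by positivity : 0 ≤ 8.4 * c3)
    have q2 := mul_le_mul_of_nonneg_left p2 (by positivity : 0 ≤ 80 * v4 + 1.5e9 * v11)
    have q : 1.03 * Φ * c1 + 2.23 * c2 + 8.4 * c3 * u ^ 2 +
        (80 * v4 + 1.5e9 * v11) * u ^ 4 ≤ 2.75 := by linarith
    have q' := mul_le_mul_of_nonneg_left q u5.le
    have r : ε * (1.03 * ε ^ 4 * a1 + 2.23 * ε ^ 4 * a2 + 8.4 * ε ^ 6 * a3 + 80 * ws +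
        1.5e9 * ε ^ 22 * w12) = 1.03 * (ε ^ 2 * (ε ^ 3 * a1)) + 2.23 * (ε ^ 5 * a2) +
        8.4 * (ε ^ 7 * a3) + 80 * (ε * ws) + 1.5e9 * (ε * (ε ^ 22 * w12)) := by ring
    have r1 : ε ^ 2 * (ε ^ 3 * a1) ≤ Φ * u ^ 2 * (c1 * u ^ 3) :=
      mul_le_mul hh e1 (by positivity) (by positivity)
    rw [r]
    have r2 : u ^ 5 * (1.03 * Φ * c1 + 2.23 * c2 + 8.4 * c3 * u ^ 2 +
        (80 * v4 + 1.5e9 * v11) * u ^ 4) = 1.03 * (Φ * u ^ 2 * (c1 * u ^ 3)) +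
        2.23 * (c2 * u ^ 5) + 8.4 * (c3 * u ^ 7) + 80 * (v4 * u ^ 9) +
        1.5e9 * (v11 * u ^ 9) := by ring
    rw [r2] at q'
    linarith
  · have q1 := mul_le_mul_of_nonneg_left p1 (by positivity : 0 ≤ 0.54 * c1)
    have q2 := mul_le_mul_of_nonneg_left p2 (by positivity : 0 ≤ 14 * c2)
    have q3 := mul_le_mul_of_nonneg_left p3 (by positivity : 0 ≤ 21 * c3)
    have q4 := mul_le_mul_of_nonneg_left p4 (by positivity : 0 ≤ 28 * v4 + 2.5e8 * v11)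
    have q : 0.54 * c1 * u ^ 2 + 14 * c2 * u ^ 4 + 21 * c3 * u ^ 6 +
        (28 * v4 + 2.5e8 * v11) * u ^ 8 ≤ 0.54 * c1 * t0 + 14 * c2 * t0 ^ 2 + 21 * c3 * t0 ^ 3 +
        (28 * v4 + 2.5e8 * v11) * t0 ^ 4 := by linarith
    have q' : (0.54 * c1 * u ^ 2 + 14 * c2 * u ^ 4 + 21 * c3 * u ^ 6 +
        (28 * v4 + 2.5e8 * v11) * u ^ 8) * u ≤ 0.02 :=
      (mul_le_mul q huU hu0.le (by positivity)).trans g3
    have r : ε * (0.54 * ε ^ 2 * a1 + 14 * ε ^ 4 * a2 + 21 * ε ^ 6 * a3 + 28 * ws +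
        2.5e8 * ε ^ 22 * w12) = 0.54 * (ε ^ 3 * a1) + 14 * (ε ^ 5 * a2) + 21 * (ε ^ 7 * a3) +
        28 * (ε * ws) + 2.5e8 * (ε * (ε ^ 22 * w12)) := by ring
    rw [r]
    have r2 : (0.54 * c1 * u ^ 2 + 14 * c2 * u ^ 4 + 21 * c3 * u ^ 6 +
        (28 * v4 + 2.5e8 * v11) * u ^ 8) * u = 0.54 * (c1 * u ^ 3) + 14 * (c2 * u ^ 5) +
        21 * (c3 * u ^ 7) + 28 * (v4 * u ^ 9) + 2.5e8 * (v11 * u ^ 9) := by ring
    rw [r2] at q'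
    linarith
  · have q1 := mul_le_mul_of_nonneg_left p1 (by positivity : 0 ≤ 48.75 * c3)
    have q2 := mul_le_mul_of_nonneg_left p2 (by positivity : 0 ≤ 65 * v4 + 1.2e9 * v11)
    have q : 0.54 * Φ * c1 + 3.5 * c2 + 48.75 * c3 * u ^ 2 +
        (65 * v4 + 1.2e9 * v11) * u ^ 4 ≤ 4.4 := by linarith
    have q' := mul_le_mul_of_nonneg_left q u5.le
    have r : ε * (0.54 * ε ^ 4 * a1 + 3.5 * ε ^ 4 * a2 + 48.75 * ε ^ 6 * a3 + 65 * ws +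
        1.2e9 * ε ^ 22 * w12) = 0.54 * (ε ^ 2 * (ε ^ 3 * a1)) + 3.5 * (ε ^ 5 * a2) +
        48.75 * (ε ^ 7 * a3) + 65 * (ε * ws) + 1.2e9 * (ε * (ε ^ 22 * w12)) := by ring
    have r1 : ε ^ 2 * (ε ^ 3 * a1) ≤ Φ * u ^ 2 * (c1 * u ^ 3) :=
      mul_le_mul hh e1 (by positivity) (by positivity)
    rw [r]
    have r2 : u ^ 5 * (0.54 * Φ * c1 + 3.5 * c2 + 48.75 * c3 * u ^ 2 +
        (65 * v4 + 1.2e9 * v11) * u ^ 4) = 0.54 * (Φ * u ^ 2 * (c1 * u ^ 3)) +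
        3.5 * (c2 * u ^ 5) + 48.75 * (c3 * u ^ 7) + 65 * (v4 * u ^ 9) +
        1.2e9 * (v11 * u ^ 9) := by ring
    rw [r2] at q'
    linarith
  · have q0 := mul_le_mul_of_nonneg_left p1 (by positivity : 0 ≤ 0.54 * Φ ^ 2 * c1)
    have q00 := mul_le_mul_of_nonneg_left p1 (by positivity : 0 ≤ 5.8 * Φ * c2)
    have q1 := mul_le_mul_of_nonneg_left p1 (by positivity : 0 ≤ 32 * c3)
    have q2 := mul_le_mul_of_nonneg_left p2 (by positivity : 0 ≤ 150 * v4 + 6e9 * v11)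
    have q : 0.54 * Φ ^ 2 * c1 * u ^ 2 + 5.8 * Φ * c2 * u ^ 2 + 32 * c3 * u ^ 2 +
        (150 * v4 + 6e9 * v11) * u ^ 4 ≤ 4.8 := by linarith
    have q' := mul_le_mul_of_nonneg_left q u5.le
    have r : ε * (0.54 * ε ^ 6 * a1 + 5.8 * ε ^ 6 * a2 + 32 * ε ^ 6 * a3 + 150 * ws +
        6e9 * ε ^ 22 * w12) = 0.54 * ((ε ^ 2) ^ 2 * (ε ^ 3 * a1)) +
        5.8 * (ε ^ 2 * (ε ^ 5 * a2)) +
        32 * (ε ^ 7 * a3) + 150 * (ε * ws) + 6e9 * (ε * (ε ^ 22 * w12)) := by ring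
    have r1 : (ε ^ 2) ^ 2 * (ε ^ 3 * a1) ≤ (Φ * u ^ 2) ^ 2 * (c1 * u ^ 3) :=
      mul_le_mul (pow_le_pow_left₀ (sq_nonneg ε) hh 2) e1 (by positivity) (by positivity)
    have r1' : ε ^ 2 * (ε ^ 5 * a2) ≤ Φ * u ^ 2 * (c2 * u ^ 5) :=
      mul_le_mul hh e2 (by positivity) (by positivity)
    rw [r]
    have r2 : u ^ 5 * (0.54 * Φ ^ 2 * c1 * u ^ 2 + 5.8 * Φ * c2 * u ^ 2 + 32 * c3 * u ^ 2 +
        (150 * v4 + 6e9 * v11) * u ^ 4) = 0.54 * ((Φ * u ^ 2) ^ 2 * (c1 * u ^ 3)) +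
        5.8 * (Φ * u ^ 2 * (c2 * u ^ 5)) + 32 * (c3 * u ^ 7) + 150 * (v4 * u ^ 9) +
        6e9 * (v11 * u ^ 9) := by ring
    rw [r2] at q'
    linarith


theorem FA8_exp (x U : ℝ) (h0 : 0 ≤ x) (h1 : x ≤ 1)
    (hU : 1 + x + x ^ 2 / 2 + x ^ 3 / 6 + x ^ 4 / 24 + x ^ 5 / 120 + x ^ 6 * 7 / 4320 ≤ U) :
    Real.exp x ≤ U := by
  have := Real.exp_bound' h0 h1 (n := 6) (by norm_num)
  refine this.trans (le_trans (le_of_eq ?_) hU)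
  simp [Finset.sum_range_succ, Nat.factorial]
  ring

theorem FA8_box (ε s : ℝ) (h0 : 0 < ε) (h1 : ε ^ 3 ≤ 3 / 1000) (hs : 12 ≤ |s|)
    (Φ m Λ k1 c1 c2 c3 w0 v4 v11 t0 U1 U2 U3 U0 V : ℝ) (hφ : |s| * ε ^ 2 ≤ Φ) (hΦ : Φ ≤ 1)
    (hm0 : 0 < m) (hm : 1 ≤ 2 * m ^ 2 * (0.9997 * (1 - Φ ^ 2 / 24))) (hΛ0 : 0 ≤ Λ)
    (hΛ : 2.00002 * Φ ≤ Λ ^ 2) (hk0 : 0 ≤ k1) (hk : 1 ≤ k1 * (1 - Φ ^ 2 / 6))
    (hU0 : Real.exp (Λ / 3 + Λ ^ 2 / 36) ≤ U0) (hU1 : Real.exp (Λ ^ 2 / 12) ≤ U1)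
    (hU2 : Real.exp (5 * Λ ^ 2 / 36) ≤ U2) (hU3 : Real.exp (7 * Λ ^ 2 / 36) ≤ U3)
    (hc1 : m ^ 3 * U1 ≤ c1) (hc2 : m ^ 5 * ((3 + Λ) / 2 * U2) ≤ c2)
    (hc3 : m ^ 7 * ((15 + 10 * Λ + 2 * Λ ^ 2) / 6 * U3) ≤ c3) (hw0 : m * U0 ≤ w0)
    (ht : 1 / |s| ≤ t0)
    (hv4 : w0 * ∑ i ∈ Finset.range 8, ((i + 4).factorial : ℝ) / 2 ^ (i + 4) * k1 ^ (i + 4) * t0 ^ i ≤
      v4)
    (hv11 : w0 * k1 ^ 11 * t0 ^ 7 ≤ v11)
    (hV0 : 0 ≤ V) (hV : t0 ≤ V ^ 2) (hc1' : 0 ≤ c1) (hc2' : 0 ≤ c2) (hc3' : 0 ≤ c3)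
    (hv4' : 0 ≤ v4) (hv11' : 0 ≤ v11)
    (g0 : 1.29 * c1 * t0 + 1.67 * c2 * t0 ^ 2 + 4.6 * c3 * t0 ^ 3 + (15 * v4 + 6e7 * v11) * t0 ^ 4 ≤
      0.0571)
    (g1 : 1.03 * c1 + 2.66 * c2 * t0 + 5.2 * c3 * t0 ^ 2 + (35 * v4 + 3e8 * v11) * t0 ^ 3 ≤ 0.54)
    (g2 : 1.03 * Φ * c1 + 2.23 * c2 + 8.4 * c3 * t0 + (80 * v4 + 1.5e9 * v11) * t0 ^ 2 ≤ 2.75)
    (g3 : (0.54 * c1 * t0 + 14 * c2 * t0 ^ 2 + 21 * c3 * t0 ^ 3 + (28 * v4 + 2.5e8 * v11) * t0 ^ 4) *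
      V ≤ 0.02)
    (g4 : 0.54 * Φ * c1 + 3.5 * c2 + 48.75 * c3 * t0 + (65 * v4 + 1.2e9 * v11) * t0 ^ 2 ≤ 4.4)
    (g5 : 0.54 * Φ ^ 2 * c1 * t0 + 5.8 * Φ * c2 * t0 + 32 * c3 * t0 +
      (150 * v4 + 6e9 * v11) * t0 ^ 2 ≤ 4.8) :
    0.65 * (1 / Real.sqrt |s|) ≤ ‖Asum ε 0 (Bs s)‖ ∧
    ‖Asum ε 1 (Bs s)‖ ≤ 0.54 * (1 / Real.sqrt |s|) ^ 3 ∧
    ‖Asum ε 2 (Bs s)‖ ≤ 2.75 * (1 / Real.sqrt |s|) ^ 5 ∧
    ‖Esum ε 0 (Bs s)‖ ≤ 1.02 ∧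
    ‖Esum ε 1 (Bs s)‖ ≤ 4.4 * (1 / Real.sqrt |s|) ^ 5 ∧
    ‖Esum ε 2 (Bs s)‖ ≤ 4.8 * (1 / Real.sqrt |s|) ^ 5 := by
  obtain ⟨e0, e1, e2, e3, e4, e5⟩ := FA8_norm ε s h0 h1 hs Φ m Λ k1 c1 c2 c3 w0 v4 v11 t0 U1 U2 U3
    U0 hφ hΦ hm0 hm hΛ0 hΛ hk0 hk hU0 hU1 hU2 hU3 hc1 hc2 hc3 hw0 ht hv4 hv11
  have hs0 : 0 < |s| := by linarith
  have hσ : 0 < Real.sqrt |s| := Real.sqrt_pos.2 hs0
  have hu0 : 0 < 1 / Real.sqrt |s| := by positivity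
  have hsu : |s| * (1 / Real.sqrt |s|) ^ 2 = 1 := by
    rw [div_pow, one_pow, Real.sq_sqrt hs0.le]
    field_simp
  have ht' : (1 / Real.sqrt |s|) ^ 2 ≤ t0 := by
    rw [div_pow, one_pow, Real.sq_sqrt hs0.le]
    exact ht
  obtain ⟨p0, p1, p2, p3, p4, p5⟩ := FA8_poly ε s (1 / Real.sqrt |s|) Φ V t0 c1 c2 c3 v4 v11
    ‖ug 0 (qs ε s)‖ ‖ug 1 (qs ε s)‖ ‖ug 2 (qs ε s)‖ ‖ug 3 (qs ε s)‖ (FA8WS (ε ^ 2) (qs ε s))
    (Wm 12 (qs ε s)) h0 hu0 hsu hφ ht' hV0 hV hc1' hc2' hc3' hv4' hv11' (norm_nonneg _)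
    (norm_nonneg _) e0 e1 e2 e3 e4 e5 g0 g1 g2 g3 g4 g5
  obtain ⟨q0, q1, q2, q3, q4, q5⟩ := FA8_six ε h0 h1 s
  exact ⟨p0.trans q0, q1.trans p1, q2.trans p2, q3.trans p3, q4.trans p4, q5.trans p5⟩

theorem FA8_I (ε : ℝ) (h0 : 0 < ε) (h1 : ε ^ 3 ≤ 3 / 1000) (s : ℝ) (hs : 12 ≤ |s|)
    (hs1 : |s| * ε ^ 2 ≤ 1) :
    0.65 * (1 / Real.sqrt |s|) ≤ ‖Asum ε 0 (Bs s)‖ ∧
    ‖Asum ε 1 (Bs s)‖ ≤ 0.54 * (1 / Real.sqrt |s|) ^ 3 ∧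
    ‖Asum ε 2 (Bs s)‖ ≤ 2.75 * (1 / Real.sqrt |s|) ^ 5 ∧
    ‖Esum ε 0 (Bs s)‖ ≤ 1.02 ∧
    ‖Esum ε 1 (Bs s)‖ ≤ 4.4 * (1 / Real.sqrt |s|) ^ 5 ∧
    ‖Esum ε 2 (Bs s)‖ ≤ 4.8 * (1 / Real.sqrt |s|) ^ 5 := by
  have hs0 : 0 < |s| := by linarith
  have h2 : ε ^ 2 ≤ 0.020802 := by
    by_contra hc
    push Not at hc
    have h2 : (0.020802 : ℝ) ^ 3 < (ε ^ 2) ^ 3 := pow_lt_pow_left₀ hc (by norm_num) (by norm_num)
    have h3 : (ε ^ 3) ^ 2 ≤ (3 / 1000) ^ 2 := pow_le_pow_left₀ (pow_pos h0 3).le h1 2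
    have h4 : (ε ^ 2) ^ 3 = (ε ^ 3) ^ 2 := by ring
    rw [h4] at h2
    norm_num at h2 h3
    linarith
  rcases le_total |s| 16 with hc | hc
  · have hφ : |s| * ε ^ 2 ≤ 1 / 3 := by nlinarith
    have ht : 1 / |s| ≤ 1 / 12 := one_div_le_one_div_of_le (by norm_num) hs
    refine FA8_box ε s h0 h1 hs (1 / 3) 0.709 0.8166 1.019 0.3768 0.3751 0.4187 0.9483 1.981 3.29e-8
      (1 / 12) 1.0572 1.0971 1.1385 1.3375 0.2887 hφ (by norm_num) (by norm_num) (by norm_num)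
      (by norm_num) (by norm_num) (by norm_num) (by norm_num) ?_ ?_ ?_ ?_ (by norm_num)
      (by norm_num) (by norm_num) (by norm_num) ht ?_ (by norm_num) (by norm_num) (by norm_num)
      (by norm_num) (by norm_num) (by norm_num) (by norm_num) (by norm_num) (by norm_num)
      (by norm_num) (by norm_num) (by norm_num) (by norm_num) (by norm_num)
    · exact FA8_exp _ _ (by norm_num) (by norm_num) (by norm_num)
    · exact FA8_exp _ _ (by norm_num) (by norm_num) (by norm_num)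
    · exact FA8_exp _ _ (by norm_num) (by norm_num) (by norm_num)
    · exact FA8_exp _ _ (by norm_num) (by norm_num) (by norm_num)
    · norm_num [Finset.sum_range_succ, Nat.factorial]
  rcases le_total |s| 28 with hc' | hc'
  · have hφ : |s| * ε ^ 2 ≤ 0.5825 := by nlinarith
    have ht : 1 / |s| ≤ 1 / 16 := one_div_le_one_div_of_le (by norm_num) hc
    refine FA8_box ε s h0 h1 hs 0.5825 0.7124 1.0795 1.06 0.3985 0.4401 0.5476 1.0546 2.415 7.53e-9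
      (1 / 16) 1.102 1.1757 1.2544 1.4803 0.25 hφ (by norm_num) (by norm_num) (by norm_num)
      (by norm_num) (by norm_num) (by norm_num) (by norm_num) ?_ ?_ ?_ ?_ (by norm_num)
      (by norm_num) (by norm_num) (by norm_num) ht ?_ (by norm_num) (by norm_num) (by norm_num)
      (by norm_num) (by norm_num) (by norm_num) (by norm_num) (by norm_num) (by norm_num)
      (by norm_num) (by norm_num) (by norm_num) (by norm_num) (by norm_num)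
    · exact FA8_exp _ _ (by norm_num) (by norm_num) (by norm_num)
    · exact FA8_exp _ _ (by norm_num) (by norm_num) (by norm_num)
    · exact FA8_exp _ _ (by norm_num) (by norm_num) (by norm_num)
    · exact FA8_exp _ _ (by norm_num) (by norm_num) (by norm_num)
    · norm_num [Finset.sum_range_succ, Nat.factorial]
  · have ht : 1 / |s| ≤ 1 / 28 := one_div_le_one_div_of_le (by norm_num) hc'
    refine FA8_box ε s h0 h1 hs 1 0.7226 1.4143 1.2 0.4458 0.5742 0.8385 1.2241 4.278 6.81e-10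
      (1 / 28) 1.1814 1.3203 1.4755 1.6939 0.189 hs1 (by norm_num) (by norm_num) (by norm_num)
      (by norm_num) (by norm_num) (by norm_num) (by norm_num) ?_ ?_ ?_ ?_ (by norm_num)
      (by norm_num) (by norm_num) (by norm_num) ht ?_ (by norm_num) (by norm_num) (by norm_num)
      (by norm_num) (by norm_num) (by norm_num) (by norm_num) (by norm_num) (by norm_num)
      (by norm_num) (by norm_num) (by norm_num) (by norm_num) (by norm_num)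
    · exact FA8_exp _ _ (by norm_num) (by norm_num) (by norm_num)
    · exact FA8_exp _ _ (by norm_num) (by norm_num) (by norm_num)
    · exact FA8_exp _ _ (by norm_num) (by norm_num) (by norm_num)
    · exact FA8_exp _ _ (by norm_num) (by norm_num) (by norm_num)
    · norm_num [Finset.sum_range_succ, Nat.factorial]

theorem far_I (ε : ℝ) (h0 : 0 < ε) (h1 : ε ^ 3 ≤ 3 / 1000) (s : ℝ) (hs : 12 ≤ |s|)
    (hs1 : |s| * ε ^ 2 ≤ 1) :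
    0.65 / Real.sqrt |s| ≤ ‖Asum ε 0 (Bs s)‖ ∧
    ‖Asum ε 1 (Bs s)‖ ≤ 0.54 / (|s| * Real.sqrt |s|) ∧
    ‖Asum ε 2 (Bs s)‖ ≤ 2.75 / (s ^ 2 * Real.sqrt |s|) ∧
    ‖Esum ε 0 (Bs s)‖ ≤ 1.02 ∧
    ‖Esum ε 1 (Bs s)‖ ≤ 4.4 / (s ^ 2 * Real.sqrt |s|) ∧
    ‖Esum ε 2 (Bs s)‖ ≤ 4.8 / (s ^ 2 * Real.sqrt |s|) := by
  obtain ⟨p0, p1, p2, p3, p4, p5⟩ := FA8_I ε h0 h1 s hs hs1
  have hs0 : 0 < |s| := by linarith
  have hσ : 0 < Real.sqrt |s| := Real.sqrt_pos.2 hs0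
  have hσ2 : Real.sqrt |s| ^ 2 = |s| := Real.sq_sqrt hs0.le
  have e3 : |s| * Real.sqrt |s| = Real.sqrt |s| ^ 3 := by
    rw [pow_succ, hσ2]
  have e5 : s ^ 2 * Real.sqrt |s| = Real.sqrt |s| ^ 5 := by
    rw [← sq_abs s]
    nth_rewrite 1 [← hσ2]
    ring
  rw [e3, e5]
  have f : ∀ (c : ℝ) (k : ℕ), c * (1 / Real.sqrt |s|) ^ k = c / Real.sqrt |s| ^ k := by
    intro c k
    rw [div_pow, one_pow]; ring
  rw [f] at p1 p2 p4 p5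
  refine ⟨?_, p1, p2, p3, p4, p5⟩
  refine le_trans (le_of_eq ?_) p0
  ring


theorem FA8_H2 (ε : ℝ) (B : ℂ) (D M1 M2 N0 N1 N2 : ℝ) (hD : 0 < D) (hA0 : D ≤ ‖Asum ε 0 B‖)
    (hA1 : ‖Asum ε 1 B‖ ≤ M1) (hA2 : ‖Asum ε 2 B‖ ≤ M2) (hE0 : ‖Esum ε 0 B‖ ≤ N0)
    (hE1 : ‖Esum ε 1 B‖ ≤ N1) (hE2 : ‖Esum ε 2 B‖ ≤ N2) :
    ‖H2 ε B‖ ≤ N2 / D + 2 * (N1 * M1) / D ^ 2 + N0 * M2 / D ^ 2 + 2 * (N0 * M1 ^ 2) / D ^ 3 := by
  have hA0' : 0 < ‖Asum ε 0 B‖ := lt_of_lt_of_le hD hA0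
  have n0 : 0 ≤ N0 := (norm_nonneg _).trans hE0
  have n1 : 0 ≤ N1 := (norm_nonneg _).trans hE1
  have n2 : 0 ≤ N2 := (norm_nonneg _).trans hE2
  have m1 : 0 ≤ M1 := (norm_nonneg _).trans hA1
  have m2 : 0 ≤ M2 := (norm_nonneg _).trans hA2
  have t1 : ‖Esum ε 2 B / Asum ε 0 B‖ ≤ N2 / D := by
    rw [norm_div]
    exact div_le_div₀ n2 hE2 hD hA0
  have t2 : ‖2 * Esum ε 1 B * Asum ε 1 B / Asum ε 0 B ^ 2‖ ≤ 2 * (N1 * M1) / D ^ 2 := by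
    rw [norm_div, norm_mul, norm_mul, norm_pow, Complex.norm_ofNat, mul_assoc]
    refine div_le_div₀ (by positivity) ?_ (by positivity) (pow_le_pow_left₀ hD.le hA0 2)
    exact mul_le_mul_of_nonneg_left (mul_le_mul hE1 hA1 (norm_nonneg _) n1) (by norm_num)
  have t3 : ‖Esum ε 0 B * Asum ε 2 B / Asum ε 0 B ^ 2‖ ≤ N0 * M2 / D ^ 2 := by
    rw [norm_div, norm_mul, norm_pow]
    refine div_le_div₀ (by positivity) ?_ (by positivity) (pow_le_pow_left₀ hD.le hA0 2)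
    exact mul_le_mul hE0 hA2 (norm_nonneg _) n0
  have t4 : ‖2 * Esum ε 0 B * Asum ε 1 B ^ 2 / Asum ε 0 B ^ 3‖ ≤ 2 * (N0 * M1 ^ 2) / D ^ 3 := by
    rw [norm_div, norm_mul, norm_mul, norm_pow, norm_pow, Complex.norm_ofNat, mul_assoc]
    refine div_le_div₀ (by positivity) ?_ (by positivity) (pow_le_pow_left₀ hD.le hA0 3)
    exact mul_le_mul_of_nonneg_left (mul_le_mul hE0 (pow_le_pow_left₀ (norm_nonneg _) hA1 2)
      (by positivity) n0) (by norm_num)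
  unfold H2
  refine (norm_add_le _ _).trans (add_le_add ?_ t4)
  refine (norm_sub_le _ _).trans (add_le_add ?_ t3)
  exact (norm_sub_le _ _).trans (add_le_add t1 t2)

theorem FA8_boxII (ε s l : ℝ) (h0 : 0 < ε) (h1 : ε ^ 3 ≤ 3 / 1000) (hs : 1 ≤ |s| * ε ^ 2)
    (hs1 : |s| * ε ^ 2 ≤ Real.pi) (q : ℂ) (hq : q = ((Real.exp (-(ε ^ 2 / 50)) : ℝ) : ℂ) *
        Complex.exp (((|s| * ε ^ 2 : ℝ) : ℂ) * Complex.I))
    (hu : ∀ i, ‖ug i (qs ε s)‖ = ‖ug i q‖) (hW : ∀ m, Wm m (qs ε s) = Wm m q)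
    (hl0 : 0 < l) (hl2 : l ^ 2 = 2 * ‖1 - q‖)
    (la lb U0 U1 U2 U3 a1 a2 a3 w α0 α1 α2 e0 β1 β2 : ℝ) (hla0 : 0 < la) (hla : la ≤ l)
    (hlb : l ≤ lb)
    (hU0 : Real.exp (lb / 3 + lb ^ 2 / 36) ≤ U0) (hU1 : Real.exp (lb ^ 2 / 12) ≤ U1)
    (hU2 : Real.exp (5 * lb ^ 2 / 36) ≤ U2) (hU3 : Real.exp (7 * lb ^ 2 / 36) ≤ U3)
    (ha1 : U1 ≤ a1 * la ^ 3) (ha2 : (3 + lb) / 2 * U2 ≤ a2 * la ^ 5)
    (ha3 : (15 + 10 * lb + 2 * lb ^ 2) / 6 * U3 ≤ a3 * la ^ 7) (hw : U0 ≤ w * la) (hw1 : 1 ≤ w)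
    (hα0' : 0 < α0)
    (hα0 : α0 ≤ 1 / lb - (1.29 * 0.020802 * a1 + 1.67 * 0.020802 ^ 2 * a2 +
      4.6 * 0.020802 ^ 3 * a3 + 50 * w * 0.020802 ^ 4))
    (hα1 : 1.03 * a1 + 2.66 * 0.020802 * a2 + 5.2 * 0.020802 ^ 2 * a3 +
      117 * w * 0.020802 ^ 3 ≤ α1)
    (hα2 : 1.03 * a1 + 2.23 * a2 + 8.4 * 0.020802 * a3 + 267 * w * 0.020802 ^ 2 ≤ α2)
    (he0 : 1 + 0.1443 * (0.54 * 0.020802 * a1 + 14 * 0.020802 ^ 2 * a2 +
      21 * 0.020802 ^ 3 * a3 + 94 * w * 0.020802 ^ 4) ≤ e0)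
    (hβ1 : 0.54 * a1 + 3.5 * a2 + 48.75 * 0.020802 * a3 + 217 * w * 0.020802 ^ 2 ≤ β1)
    (hβ2 : 0.54 * a1 + 5.8 * a2 + 32 * a3 + 500 * w * 0.020802 ≤ β2)
    (hfin : β2 * 0.003 / α0 + 2 * (β1 * α1) * 0.003 / α0 ^ 2 + e0 * α2 / α0 ^ 2 +
      2 * (e0 * α1 ^ 2) / α0 ^ 3 ≤ 5.8) :
    Asum ε 0 (Bs s) ≠ 0 ∧ ‖H2 ε (Bs s)‖ ≤ 5.8 * ε ^ 3 := by
  have hs0 : 0 < |s| := by
    by_contra hc
    push Not at hc
    have : |s| * ε ^ 2 ≤ 0 := mul_nonpos_of_nonpos_of_nonneg hc (sq_nonneg ε)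
    linarith
  have hh0 : 0 < ε ^ 2 := pow_pos h0 2
  have hh : ε ^ 2 ≤ 0.020802 := by
    by_contra hc
    push Not at hc
    have h2 : (0.020802 : ℝ) ^ 3 < (ε ^ 2) ^ 3 := pow_lt_pow_left₀ hc (by norm_num) (by norm_num)
    have h3 : (ε ^ 3) ^ 2 ≤ (3 / 1000) ^ 2 := pow_le_pow_left₀ (pow_pos h0 3).le h1 2
    have h4 : (ε ^ 2) ^ 3 = (ε ^ 3) ^ 2 := by ring
    rw [h4] at h2
    norm_num at h2 h3
    linarith
  have hε : ε ≤ 0.1443 := by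
    by_contra hc
    push Not at hc
    have := pow_lt_pow_left₀ hc (by norm_num) (show (2 : ℕ) ≠ 0 by norm_num)
    norm_num at this hh
    linarith
  set φ : ℝ := |s| * ε ^ 2 with hφdef
  have hφ0 : 0 < φ := by linarith
  have hqn : ‖q‖ < 1 := by
    rw [hq, norm_mul, Complex.norm_exp_ofReal_mul_I, mul_one, Complex.norm_real, Real.norm_eq_abs,
      abs_of_pos (Real.exp_pos _)]
    exact Real.exp_lt_one_iff.2 (by linarith)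
  obtain ⟨b0, b0', b1, b2, b3⟩ := ug_bounds q hqn l hl0 hl2
  have hlb0 : 0 < lb := by linarith
  have hl2b : l ^ 2 ≤ lb ^ 2 := pow_le_pow_left₀ hl0.le hlb 2
  have hexp : ∀ a b U : ℝ, a ≤ b → Real.exp b ≤ U → Real.exp a ≤ U := fun a b U hab hb =>
    (Real.exp_le_exp.2 hab).trans hb
  have hE0 := hexp (l / 3 + l ^ 2 / 36) _ U0 (by linarith) hU0
  have hE1 := hexp (l ^ 2 / 12) _ U1 (by linarith) hU1
  have hE2 := hexp (5 * l ^ 2 / 36) _ U2 (by linarith) hU2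
  have hE3 := hexp (7 * l ^ 2 / 36) _ U3 (by linarith) hU3
  have hU0p : 0 < U0 := lt_of_lt_of_le (Real.exp_pos _) hE0
  have hU1p : 0 < U1 := lt_of_lt_of_le (Real.exp_pos _) hE1
  have hU2p : 0 < U2 := lt_of_lt_of_le (Real.exp_pos _) hE2
  have hU3p : 0 < U3 := lt_of_lt_of_le (Real.exp_pos _) hE3
  have hup : ∀ (X Y a : ℝ) (k : ℕ), 0 ≤ Y → X ≤ Y → Y ≤ a * la ^ k → X / l ^ k ≤ a := by
    intro X Y a k hY hXY hYa
    rw [div_le_iff₀ (pow_pos hl0 k)]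
    have ha : 0 ≤ a := by
      by_contra hc
      push Not at hc
      have := mul_neg_of_neg_of_pos hc (pow_pos hla0 k)
      linarith
    have := mul_le_mul_of_nonneg_left (pow_le_pow_left₀ hla0.le hla k) ha
    linarith
  have hA1 : ‖ug 1 q‖ ≤ a1 := b1.trans (hup _ U1 a1 3 hU1p.le hE1 ha1)
  have hA2 : ‖ug 2 q‖ ≤ a2 := by
    refine b2.trans (hup _ ((3 + lb) / 2 * U2) a2 5 (by positivity) ?_ ha2)
    exact mul_le_mul (by linarith) hE2 (Real.exp_pos _).le (by positivity)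
  have hA3 : ‖ug 3 q‖ ≤ a3 := by
    refine b3.trans (hup _ ((15 + 10 * lb + 2 * lb ^ 2) / 6 * U3) a3 7 (by positivity) ?_ ha3)
    exact mul_le_mul (by linarith) hE3 (Real.exp_pos _).le (by positivity)
  have hu0w : ‖ug 0 q‖ ≤ w := by
    refine b0'.trans ?_
    have := hup (Real.exp (l / 3 + l ^ 2 / 36)) U0 w 1 hU0p.le hE0 (by rw [pow_one]; exact hw)
    rw [pow_one] at this
    exact this
  have hWb : ∀ i : ℕ, 1 ≤ i → Wm (i + 1) q ≤ w * 1.2 ^ i := by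
    intro i hi
    rcases le_total φ (Real.pi / 2) with hc | hc
    · have h3 := Wm_le_sin (i + 1) (by omega) (Real.exp (-(ε ^ 2 / 50))) φ (Real.exp_pos _)
        (Real.exp_lt_one_iff.2 (by linarith)) hφ0 hc q hq
      rw [Nat.add_sub_cancel] at h3
      refine h3.trans ?_
      have hsin : 5 / 6 ≤ Real.sin φ := by
        have h4 : Real.sin 1 ≤ Real.sin φ :=
          Real.sin_le_sin_of_le_of_le_pi_div_two (by linarith [Real.pi_pos]) hc hs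
        have h5 := Real.sin_ge_sub_cube (x := 1) (by norm_num)
        norm_num at h5
        linarith
      have hpow : (5 / 6 : ℝ) ^ i ≤ Real.sin φ ^ i := pow_le_pow_left₀ (by norm_num) hsin i
      rw [div_le_iff₀ (by positivity)]
      have h6 : w * 1.2 ^ i * (5 / 6) ^ i = w := by
        rw [mul_assoc, ← mul_pow]
        norm_num
      calc ‖ug 0 q‖ ≤ w := hu0w
        _ = w * 1.2 ^ i * (5 / 6) ^ i := h6.symm
        _ ≤ w * 1.2 ^ i * Real.sin φ ^ i := mul_le_mul_of_nonneg_left hpow (by positivity)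
    · have h3 := Wm_le_one (i + 1) (Real.exp (-(ε ^ 2 / 50))) φ (Real.exp_pos _)
        (Real.exp_lt_one_iff.2 (by linarith)) hc hs1 q hq
      refine h3.trans ?_
      have : (1 : ℝ) ≤ 1.2 ^ i := one_le_pow₀ (by norm_num)
      nlinarith
  have hWSb : FA8WS (ε ^ 2) q ≤ 3.33 * w * (ε ^ 2) ^ 4 := by
    have h3 : FA8WS (ε ^ 2) q ≤ ∑ i ∈ Finset.range 8,
        ((i + 4).factorial : ℝ) / 2 ^ (i + 4) * ((ε ^ 2) ^ 4 * 0.020802 ^ i * (w * 1.2 ^ (i + 4))) := by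
      unfold FA8WS
      refine Finset.sum_le_sum fun i _ => ?_
      rw [mul_assoc]
      refine mul_le_mul_of_nonneg_left ?_ (by positivity)
      refine mul_le_mul ?_ (hWb (i + 4) (by omega)) (Wm_nonneg _ _) (by positivity)
      rw [pow_add, mul_comm]
      exact mul_le_mul_of_nonneg_left (pow_le_pow_left₀ hh0.le hh i) (by positivity)
    refine h3.trans ?_
    have h4 : (∑ i ∈ Finset.range 8,
        ((i + 4).factorial : ℝ) / 2 ^ (i + 4) * ((ε ^ 2) ^ 4 * 0.020802 ^ i * (w * 1.2 ^ (i + 4)))) =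
        (∑ i ∈ Finset.range 8,
        ((i + 4).factorial : ℝ) / 2 ^ (i + 4) * 0.020802 ^ i * 1.2 ^ (i + 4)) *
          (w * (ε ^ 2) ^ 4) := by
      rw [Finset.sum_mul]
      exact Finset.sum_congr rfl fun i _ => by ring
    rw [h4, mul_assoc]
    refine mul_le_mul_of_nonneg_right ?_ (by positivity)
    norm_num [Finset.sum_range_succ, Nat.factorial]
  have hW12b : ε ^ 22 * Wm 12 q ≤ 1.26e-11 * w * (ε ^ 2) ^ 4 := by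
    have h3 := hWb 11 (by norm_num)
    have h4 : ε ^ 22 * Wm 12 q ≤ ((ε ^ 2) ^ 4 * 0.020802 ^ 7) * (w * 1.2 ^ 11) := by
      refine mul_le_mul ?_ h3 (Wm_nonneg _ _) (by positivity)
      have : ε ^ 22 = (ε ^ 2) ^ 4 * (ε ^ 2) ^ 7 := by ring
      rw [this]
      exact mul_le_mul_of_nonneg_left (pow_le_pow_left₀ hh0.le hh 7) (by positivity)
    refine h4.trans ?_
    have h5 : (ε ^ 2) ^ 4 * 0.020802 ^ 7 * (w * 1.2 ^ 11) =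
        (0.020802 ^ 7 * 1.2 ^ 11) * (w * (ε ^ 2) ^ 4) := by ring
    have h6 : (0.020802 : ℝ) ^ 7 * 1.2 ^ 11 ≤ 1.26e-11 := by norm_num
    rw [h5, mul_assoc 1.26e-11]
    exact mul_le_mul_of_nonneg_right h6 (by positivity)
  have hWS : FA8WS (ε ^ 2) (qs ε s) = FA8WS (ε ^ 2) q := by
    unfold FA8WS
    exact Finset.sum_congr rfl fun i _ => by rw [hW]
  obtain ⟨q0, q1, q2, q3, q4, q5⟩ := FA8_six ε h0 h1 s
  rw [hu, hu, hu, hWS, hW] at q1 q2 q3 q4 q5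
  rw [hu, hu, hu, hu, hWS, hW] at q0
  set x0 := ‖ug 0 q‖
  set x1 := ‖ug 1 q‖ with hx1
  set x2 := ‖ug 2 q‖ with hx2
  set x3 := ‖ug 3 q‖ with hx3
  set ws := FA8WS (ε ^ 2) q
  set w12 := Wm 12 q
  have x1n : 0 ≤ x1 := norm_nonneg _
  have x2n : 0 ≤ x2 := norm_nonneg _
  have x3n : 0 ≤ x3 := norm_nonneg _
  set h := ε ^ 2 with hhdef
  have e4 : ε ^ 4 = h ^ 2 := by rw [hhdef]; ring
  have e6 : ε ^ 6 = h ^ 3 := by rw [hhdef]; ring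
  rw [e4, e6] at q0 q1 q2 q3
  rw [e4, e6] at q4
  rw [e6] at q5
  have a1n : 0 ≤ a1 := x1n.trans hA1
  have a2n : 0 ≤ a2 := x2n.trans hA2
  have a3n : 0 ≤ a3 := x3n.trans hA3
  have w0 : 0 ≤ w := by linarith
  have k1 : ∀ k : ℕ, h ^ k ≤ 0.020802 ^ k := fun k => pow_le_pow_left₀ hh0.le hh k
  have y1 : ∀ k : ℕ, h ^ k * x1 ≤ 0.020802 ^ k * a1 := fun k =>
    mul_le_mul (k1 k) hA1 x1n (by positivity)
  have y2 : ∀ k : ℕ, h ^ k * x2 ≤ 0.020802 ^ k * a2 := fun k =>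
    mul_le_mul (k1 k) hA2 x2n (by positivity)
  have y3 : ∀ k : ℕ, h ^ k * x3 ≤ 0.020802 ^ k * a3 := fun k =>
    mul_le_mul (k1 k) hA3 x3n (by positivity)
  have yw : ∀ k : ℕ, h ^ k * w ≤ 0.020802 ^ k * w := fun k =>
    mul_le_mul_of_nonneg_right (k1 k) w0
  have tail : ∀ M CC T : ℝ, 0 ≤ M → 0 ≤ CC → M * 3.33 + CC * 1.26e-11 ≤ T →
      M * ws + CC * ε ^ 22 * w12 ≤ T * (h ^ 4 * w) := by
    intro M CC T hM hCC hT
    have h3 := mul_le_mul_of_nonneg_left hWSb hM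
    have h4 := mul_le_mul_of_nonneg_left hW12b hCC
    have h5 := mul_le_mul_of_nonneg_right hT (by positivity : 0 ≤ h ^ 4 * w)
    linarith
  have t0 := tail 15 6e7 50 (by norm_num) (by norm_num) (by norm_num)
  have t1 := tail 35 3e8 117 (by norm_num) (by norm_num) (by norm_num)
  have t2 := tail 80 1.5e9 267 (by norm_num) (by norm_num) (by norm_num)
  have t3 := tail 28 2.5e8 94 (by norm_num) (by norm_num) (by norm_num)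
  have t4 := tail 65 1.2e9 217 (by norm_num) (by norm_num) (by norm_num)
  have t5 := tail 150 6e9 500 (by norm_num) (by norm_num) (by norm_num)
  have r0 : ε * α0 ≤ ‖Asum ε 0 (Bs s)‖ := by
    have i0 : 1 / lb ≤ x0 := (one_div_le_one_div_of_le hl0 hlb).trans b0
    have i1 := y1 1
    have i2 := y2 2
    have i3 := y3 3
    have i4 := yw 4
    rw [pow_one, pow_one] at i1
    have inner : α0 ≤ x0 - (1.29 * h * x1 + 1.67 * h ^ 2 * x2 + 4.6 * h ^ 3 * x3 + 15 * ws +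
        6e7 * ε ^ 22 * w12) := by linarith
    have := mul_le_mul_of_nonneg_left inner h0.le
    linarith
  have r1 : ‖Asum ε 1 (Bs s)‖ ≤ ε * h * α1 := by
    have i2 := y2 1
    have i3 := y3 2
    have i4 := yw 3
    rw [pow_one, pow_one] at i2
    have inner : 1.03 * x1 + 2.66 * (h * x2) + 5.2 * (h ^ 2 * x3) + 117 * (h ^ 3 * w) ≤ α1 := by
      linarith
    have := mul_le_mul_of_nonneg_left inner (by positivity : 0 ≤ ε * h)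
    have t1' := mul_le_mul_of_nonneg_left t1 h0.le
    linarith
  have r2 : ‖Asum ε 2 (Bs s)‖ ≤ ε * h ^ 2 * α2 := by
    have i3 := y3 1
    have i4 := yw 2
    rw [pow_one, pow_one] at i3
    have inner : 1.03 * x1 + 2.23 * x2 + 8.4 * (h * x3) + 267 * (h ^ 2 * w) ≤ α2 := by
      linarith
    have := mul_le_mul_of_nonneg_left inner (by positivity : 0 ≤ ε * h ^ 2)
    have t2' := mul_le_mul_of_nonneg_left t2 h0.le
    linarith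
  have r3 : ‖Esum ε 0 (Bs s)‖ ≤ e0 := by
    have i1 := y1 1
    have i2 := y2 2
    have i3 := y3 3
    have i4 := yw 4
    rw [pow_one, pow_one] at i1
    have hS : 0 ≤ 0.54 * 0.020802 * a1 + 14 * 0.020802 ^ 2 * a2 + 21 * 0.020802 ^ 3 * a3 +
        94 * w * 0.020802 ^ 4 := by positivity
    have inner : 0.54 * h * x1 + 14 * h ^ 2 * x2 + 21 * h ^ 3 * x3 + 28 * ws +
        2.5e8 * ε ^ 22 * w12 ≤ 0.54 * 0.020802 * a1 + 14 * 0.020802 ^ 2 * a2 +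
        21 * 0.020802 ^ 3 * a3 + 94 * w * 0.020802 ^ 4 := by linarith
    have h3 := mul_le_mul_of_nonneg_left inner h0.le
    have h4 := mul_le_mul_of_nonneg_right hε hS
    linarith
  have r4 : ‖Esum ε 1 (Bs s)‖ ≤ ε * h ^ 2 * β1 := by
    have i3 := y3 1
    have i4 := yw 2
    rw [pow_one, pow_one] at i3
    have inner : 0.54 * x1 + 3.5 * x2 + 48.75 * (h * x3) + 217 * (h ^ 2 * w) ≤ β1 := by
      linarith
    have := mul_le_mul_of_nonneg_left inner (by positivity : 0 ≤ ε * h ^ 2)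
    have t4' := mul_le_mul_of_nonneg_left t4 h0.le
    linarith
  have r5 : ‖Esum ε 2 (Bs s)‖ ≤ ε * h ^ 3 * β2 := by
    have i4 := yw 1
    rw [pow_one, pow_one] at i4
    have inner : 0.54 * x1 + 5.8 * x2 + 32 * x3 + 500 * (h * w) ≤ β2 := by
      linarith
    have := mul_le_mul_of_nonneg_left inner (by positivity : 0 ≤ ε * h ^ 3)
    have t5' := mul_le_mul_of_nonneg_left t5 h0.le
    linarith
  have hD : 0 < ε * α0 := mul_pos h0 hα0'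
  refine ⟨fun hc => ?_, ?_⟩
  · rw [hc, norm_zero] at r0
    linarith
  · have hb := FA8_H2 ε (Bs s) (ε * α0) _ _ _ _ _ hD r0 r1 r2 r3 r4 r5
    refine hb.trans ?_
    have hβ1n : 0 ≤ β1 := le_trans (by positivity) hβ1
    have hβ2n : 0 ≤ β2 := le_trans (by positivity) hβ2
    have hα1n : 0 ≤ α1 := le_trans (by positivity) hα1
    have f1 : ε * h ^ 3 * β2 / (ε * α0) = ε ^ 3 * (ε ^ 3 * (β2 / α0)) := by
      rw [hhdef]; field_simp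
    have f2 : 2 * (ε * h ^ 2 * β1 * (ε * h * α1)) / (ε * α0) ^ 2 =
        ε ^ 3 * (ε ^ 3 * (2 * (β1 * α1) / α0 ^ 2)) := by
      rw [hhdef]; field_simp
    have f3 : e0 * (ε * h ^ 2 * α2) / (ε * α0) ^ 2 = ε ^ 3 * (e0 * α2 / α0 ^ 2) := by
      rw [hhdef]; field_simp
    have f4 : 2 * (e0 * (ε * h * α1) ^ 2) / (ε * α0) ^ 3 =
        ε ^ 3 * (2 * (e0 * α1 ^ 2) / α0 ^ 3) := by
      rw [hhdef]; field_simp
    rw [f1, f2, f3, f4]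
    have g1 : ε ^ 3 * (β2 / α0) ≤ 0.003 * (β2 / α0) :=
      mul_le_mul_of_nonneg_right (by norm_num at h1 ⊢; linarith) (by positivity)
    have g2 : ε ^ 3 * (2 * (β1 * α1) / α0 ^ 2) ≤ 0.003 * (2 * (β1 * α1) / α0 ^ 2) :=
      mul_le_mul_of_nonneg_right (by norm_num at h1 ⊢; linarith) (by positivity)
    have g3 : ε ^ 3 * (β2 / α0) + ε ^ 3 * (2 * (β1 * α1) / α0 ^ 2) + e0 * α2 / α0 ^ 2 +
        2 * (e0 * α1 ^ 2) / α0 ^ 3 ≤ 5.8 := by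
      have e1 : β2 * 0.003 / α0 = 0.003 * (β2 / α0) := by ring
      have e2 : 2 * (β1 * α1) * 0.003 / α0 ^ 2 = 0.003 * (2 * (β1 * α1) / α0 ^ 2) := by ring
      rw [e1, e2] at hfin
      linarith
    have g4 := mul_le_mul_of_nonneg_left g3 (pow_pos h0 3).le
    linarith


theorem far_II (ε : ℝ) (h0 : 0 < ε) (h1 : ε ^ 3 ≤ 3 / 1000) (s : ℝ)
    (hs : 1 ≤ |s| * ε ^ 2) (hs1 : |s| * ε ^ 2 ≤ Real.pi) :
    Asum ε 0 (Bs s) ≠ 0 ∧ ‖H2 ε (Bs s)‖ ≤ 5.8 * ε ^ 3 := by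
  obtain ⟨q, hq, hu, hW⟩ := FA8_q ε s
  have hh0 : 0 < ε ^ 2 := pow_pos h0 2
  have hh := FA8_eps2 ε h0 h1
  obtain ⟨L1, -, L3⟩ := FA8_L (ε ^ 2) (|s| * ε ^ 2) hh0 hh (by linarith) hs1
  rw [← hq] at L1 L3
  have hsin : 23 / 48 ≤ Real.sin (|s| * ε ^ 2 / 2) := by
    have h4 : Real.sin (1 / 2) ≤ Real.sin (|s| * ε ^ 2 / 2) :=
      Real.sin_le_sin_of_le_of_le_pi_div_two (by linarith [Real.pi_pos]) (by linarith)
        (by linarith)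
    have h5 := Real.sin_ge_sub_cube (x := 1 / 2) (by norm_num)
    norm_num at h5
    linarith
  obtain ⟨l, hl⟩ : ∃ l, l = Real.sqrt (2 * ‖1 - q‖) := ⟨_, rfl⟩
  have hl2 : l ^ 2 = 2 * ‖1 - q‖ := by
    rw [hl]; exact Real.sq_sqrt (by positivity)
  have hla : 1.3842 ≤ l := by
    rw [hl]
    apply Real.le_sqrt_of_sq_le
    refine le_trans ?_ L1
    norm_num at hsin ⊢
    linarith
  have hl0 : 0 < l := by linarith
  have hl2' : l ≤ 2 := by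
    have : l ^ 2 ≤ 2 ^ 2 := by rw [hl2]; linarith
    exact (abs_le_of_sq_le_sq' this (by norm_num)).2
  rcases le_total l 1.4062 with hb0 | hb0
  · refine FA8_boxII ε s l h0 h1 hs hs1 q hq hu hW hl0 hl2 1.3842 1.4062 1.6883 1.1792 1.3161 1.4689 0.4447 0.5706 0.8303 1.2197 0.6987 0.4928 2.0165 1.00125 3.194 42.806
      (by norm_num) hla hb0 (FA8_exp _ _ (by norm_num) (by norm_num) (by norm_num))
      (FA8_exp _ _ (by norm_num) (by norm_num) (by norm_num))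
      (FA8_exp _ _ (by norm_num) (by norm_num) (by norm_num))
      (FA8_exp _ _ (by norm_num) (by norm_num) (by norm_num)) ?_ ?_ ?_ ?_ ?_ ?_ ?_ ?_ ?_ ?_ ?_ ?_ ?_ <;>
      norm_num
  rcases le_total l 1.4442 with hb1 | hb1
  · refine FA8_boxII ε s l h0 h1 hs hs1 q hq hu hW hl0 hl2 1.4062 1.4442 1.7149 1.1899 1.3361 1.5002 0.428 0.54 0.7731 1.2196 0.6805 0.4738 1.9211 1.0012 3.02 40.788
      (by norm_num) hb0 hb1 (FA8_exp _ _ (by norm_num) (by norm_num) (by norm_num))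
      (FA8_exp _ _ (by norm_num) (by norm_num) (by norm_num))
      (FA8_exp _ _ (by norm_num) (by norm_num) (by norm_num))
      (FA8_exp _ _ (by norm_num) (by norm_num) (by norm_num)) ?_ ?_ ?_ ?_ ?_ ?_ ?_ ?_ ?_ ?_ ?_ ?_ ?_ <;>
      norm_num
  rcases le_total l 1.5062 with hb2 | hb2
  · refine FA8_boxII ε s l h0 h1 hs hs1 q hq hu hW hl0 hl2 1.4442 1.5062 1.7597 1.2082 1.3704 1.5545 0.4012 0.4915 0.6841 1.2185 0.6527 0.4433 1.7697 1.00111 2.746 37.633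
      (by norm_num) hb1 hb2 (FA8_exp _ _ (by norm_num) (by norm_num) (by norm_num))
      (FA8_exp _ _ (by norm_num) (by norm_num) (by norm_num))
      (FA8_exp _ _ (by norm_num) (by norm_num) (by norm_num))
      (FA8_exp _ _ (by norm_num) (by norm_num) (by norm_num)) ?_ ?_ ?_ ?_ ?_ ?_ ?_ ?_ ?_ ?_ ?_ ?_ ?_ <;>
      norm_num
  rcases le_total l 1.6082 with hb3 | hb3
  · refine FA8_boxII ε s l h0 h1 hs hs1 q hq hu hW hl0 hl2 1.5062 1.6082 1.8366 1.2406 1.4323 1.6536 0.3631 0.4258 0.5682 1.2194 0.6117 0.4002 1.5637 1.00098 2.378 33.532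
      (by norm_num) hb2 hb3 (FA8_exp _ _ (by norm_num) (by norm_num) (by norm_num))
      (FA8_exp _ _ (by norm_num) (by norm_num) (by norm_num))
      (FA8_exp _ _ (by norm_num) (by norm_num) (by norm_num))
      (FA8_exp _ _ (by norm_num) (by norm_num) (by norm_num)) ?_ ?_ ?_ ?_ ?_ ?_ ?_ ?_ ?_ ?_ ?_ ?_ ?_ <;>
      norm_num
  rcases le_total l 1.7722 with hb4 | hb4
  · refine FA8_boxII ε s l h0 h1 hs hs1 q hq hu hW hl0 hl2 1.6082 1.7722 1.9699 1.2992 1.5469 1.8418 0.3124 0.3432 0.4304 1.225 0.5556 0.3431 1.3039 1.00083 1.922 28.674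
      (by norm_num) hb3 hb4 (FA8_exp _ _ (by norm_num) (by norm_num) (by norm_num))
      (FA8_exp _ _ (by norm_num) (by norm_num) (by norm_num))
      (FA8_exp _ _ (by norm_num) (by norm_num) (by norm_num))
      (FA8_exp _ _ (by norm_num) (by norm_num) (by norm_num)) ?_ ?_ ?_ ?_ ?_ ?_ ?_ ?_ ?_ ?_ ?_ ?_ ?_ <;>
      norm_num
  refine FA8_boxII ε s l h0 h1 hs hs1 q hq hu hW hl0 hl2 1.7722 2 2.1767 1.3957 1.743 2.1767 0.2508 0.2493 0.2842 1.2283 0.493 0.2741 1.0059 1.00064 1.412 23.452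
    (by norm_num) hb4 hl2' (FA8_exp _ _ (by norm_num) (by norm_num) (by norm_num))
    (FA8_exp _ _ (by norm_num) (by norm_num) (by norm_num))
    (FA8_exp _ _ (by norm_num) (by norm_num) (by norm_num))
    (FA8_exp _ _ (by norm_num) (by norm_num) (by norm_num)) ?_ ?_ ?_ ?_ ?_ ?_ ?_ ?_ ?_ ?_ ?_ ?_ ?_ <;>
    norm_num

end MP_d1b55a
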