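import Pool.Agent.Lib.MP_d1b55a_co.FS
import Pool.Agent.Lib.MP_d1b55a_co.FA3
import Pool.Agent.Lib.MP_d1b55a_co.FA5
import Pool.Agent.Lib.MP_d1b55a_co.FA6
import Pool.Agent.Lib.MP_d1b55a_co.FA7

/-!
FA8N. Far arc: general bounds (Euler transform) and the normalised quantities for `12 ≤ |s|`, `|s| ε² ≤ 1`.
-/

open Finset

namespace MP_d1b55a

/-- the sum of the middle terms -/
noncomputable def FA8WS (h : ℝ) (q : ℂ) : ℝ :=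
  ∑ i ∈ Finset.range 8, ((i + 4).factorial : ℝ) / 2 ^ (i + 4) * h ^ (i + 4) * Wm (i + 5) q

theorem FA8_gen (q : ℂ) (hq : ‖q‖ < 1) (f : ℕ → ℂ) (C : ℝ) (hf : ∀ n, ‖f n‖ ≤ C)
    (hs : Summable fun n => ‖dlt^[12] f n‖) :
    ‖(∑' n : ℕ, ((Gn n : ℝ) : ℂ) * f n * q ^ n) - f 0 * ug 0 q‖ ≤
      ‖dlt^[1] f 0‖ * ‖ug 1 q‖ + ‖dlt^[2] f 0‖ * ‖ug 2 q‖ + ‖dlt^[3] f 0‖ * ‖ug 3 q‖ +
      ∑ i ∈ Finset.range 8, ‖dlt^[i + 4] f 0‖ * Wm (i + 5) q +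
      (∑' n : ℕ, ‖dlt^[12] f n‖) * Wm 12 q := by
  have h := euler_bound 12 q hq f C hf hs
  have e : (∑' n : ℕ, ((Gn n : ℝ) : ℂ) * f n * q ^ n) - f 0 * ug 0 q =
      ((∑' n : ℕ, ((Gn n : ℝ) : ℂ) * f n * q ^ n) - ∑ i ∈ Finset.range 12, dlt^[i] f 0 * ug i q) +
      (dlt^[1] f 0 * ug 1 q + dlt^[2] f 0 * ug 2 q + dlt^[3] f 0 * ug 3 q +
        ∑ i ∈ Finset.range 8, dlt^[i + 4] f 0 * ug (i + 4) q) := by
    simp only [Finset.sum_range_succ, Finset.sum_range_zero, Nat.reduceAdd, Function.iterate_zero,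
      id]
    ring
  rw [e]
  refine (norm_add_le _ _).trans ?_
  have h2 : ‖dlt^[1] f 0 * ug 1 q + dlt^[2] f 0 * ug 2 q + dlt^[3] f 0 * ug 3 q +
        ∑ i ∈ Finset.range 8, dlt^[i + 4] f 0 * ug (i + 4) q‖ ≤
      ‖dlt^[1] f 0‖ * ‖ug 1 q‖ + ‖dlt^[2] f 0‖ * ‖ug 2 q‖ + ‖dlt^[3] f 0‖ * ‖ug 3 q‖ +
      ∑ i ∈ Finset.range 8, ‖dlt^[i + 4] f 0‖ * Wm (i + 5) q := by
    refine (norm_add_le _ _).trans (add_le_add ?_ ?_)
    · refine (norm_add_le _ _).trans (add_le_add ?_ (norm_mul_le _ _))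
      exact (norm_add_le _ _).trans (add_le_add (norm_mul_le _ _) (norm_mul_le _ _))
    · refine (norm_sum_le _ _).trans (Finset.sum_le_sum fun i _ => ?_)
      rw [norm_mul]
      exact mul_le_mul_of_nonneg_left (ug_norm_le (i + 4) q hq) (norm_nonneg _)
  linarith


/-- the six bounds from the differences -/
theorem FA8_six (ε : ℝ) (h0 : 0 < ε) (h1 : ε ^ 3 ≤ 3 / 1000) (s : ℝ) :
    ε * ‖ug 0 (qs ε s)‖ - ε * (1.29 * ε ^ 2 * ‖ug 1 (qs ε s)‖ + 1.67 * ε ^ 4 * ‖ug 2 (qs ε s)‖ +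
      4.6 * ε ^ 6 * ‖ug 3 (qs ε s)‖ + 15 * FA8WS (ε ^ 2) (qs ε s) +
      6e7 * ε ^ 22 * Wm 12 (qs ε s)) ≤ ‖Asum ε 0 (Bs s)‖ ∧
    ‖Asum ε 1 (Bs s)‖ ≤ ε * (1.03 * ε ^ 2 * ‖ug 1 (qs ε s)‖ + 2.66 * ε ^ 4 * ‖ug 2 (qs ε s)‖ +
      5.2 * ε ^ 6 * ‖ug 3 (qs ε s)‖ + 35 * FA8WS (ε ^ 2) (qs ε s) +
      3e8 * ε ^ 22 * Wm 12 (qs ε s)) ∧
    ‖Asum ε 2 (Bs s)‖ ≤ ε * (1.03 * ε ^ 4 * ‖ug 1 (qs ε s)‖ + 2.23 * ε ^ 4 * ‖ug 2 (qs ε s)‖ +
      8.4 * ε ^ 6 * ‖ug 3 (qs ε s)‖ + 80 * FA8WS (ε ^ 2) (qs ε s) +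
      1.5e9 * ε ^ 22 * Wm 12 (qs ε s)) ∧
    ‖Esum ε 0 (Bs s)‖ ≤ 1 + ε * (0.54 * ε ^ 2 * ‖ug 1 (qs ε s)‖ + 14 * ε ^ 4 * ‖ug 2 (qs ε s)‖ +
      21 * ε ^ 6 * ‖ug 3 (qs ε s)‖ + 28 * FA8WS (ε ^ 2) (qs ε s) +
      2.5e8 * ε ^ 22 * Wm 12 (qs ε s)) ∧
    ‖Esum ε 1 (Bs s)‖ ≤ ε * (0.54 * ε ^ 4 * ‖ug 1 (qs ε s)‖ + 3.5 * ε ^ 4 * ‖ug 2 (qs ε s)‖ +
      48.75 * ε ^ 6 * ‖ug 3 (qs ε s)‖ + 65 * FA8WS (ε ^ 2) (qs ε s) +
      1.2e9 * ε ^ 22 * Wm 12 (qs ε s)) ∧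
    ‖Esum ε 2 (Bs s)‖ ≤ ε * (0.54 * ε ^ 6 * ‖ug 1 (qs ε s)‖ + 5.8 * ε ^ 6 * ‖ug 2 (qs ε s)‖ +
      32 * ε ^ 6 * ‖ug 3 (qs ε s)‖ + 150 * FA8WS (ε ^ 2) (qs ε s) +
      6e9 * ε ^ 22 * Wm 12 (qs ε s)) := by
  have hq : ‖qs ε s‖ < 1 := by
    rw [norm_qs]
    exact Real.exp_lt_one_iff.2 (by have := pow_pos h0 2; linarith)
  have key : ∀ (g : ℕ → ℂ) (C d1 d2 d3 M CC : ℝ), (∀ n, ‖g n‖ ≤ C) →
      (Summable fun n => ‖dlt^[12] g n‖) → ‖dlt^[1] g 0‖ ≤ d1 → ‖dlt^[2] g 0‖ ≤ d2 →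
      ‖dlt^[3] g 0‖ ≤ d3 →
      (∀ i, i ≤ 11 → ‖dlt^[i] g 0‖ ≤ (i.factorial : ℝ) / 2 ^ i * M * ε ^ (2 * i)) →
      (∑' n : ℕ, ‖dlt^[12] g n‖) ≤ CC * ε ^ 22 →
      ‖(ε : ℂ) * (∑' n : ℕ, ((Gn n : ℝ) : ℂ) * g n * qs ε s ^ n) -
        (ε : ℂ) * (g 0 * ug 0 (qs ε s))‖ ≤
      ε * (d1 * ‖ug 1 (qs ε s)‖ + d2 * ‖ug 2 (qs ε s)‖ + d3 * ‖ug 3 (qs ε s)‖ +
        M * FA8WS (ε ^ 2) (qs ε s) + CC * ε ^ 22 * Wm 12 (qs ε s)) := by
    intro g C d1 d2 d3 M CC hC hS h1 h2 h3 hi hCC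
    rw [← mul_sub, norm_mul, Complex.norm_real, Real.norm_eq_abs, abs_of_pos h0]
    refine mul_le_mul_of_nonneg_left ?_ h0.le
    refine (FA8_gen (qs ε s) hq g C hC hS).trans ?_
    have e1 := mul_le_mul_of_nonneg_right h1 (norm_nonneg (ug 1 (qs ε s)))
    have e2 := mul_le_mul_of_nonneg_right h2 (norm_nonneg (ug 2 (qs ε s)))
    have e3 := mul_le_mul_of_nonneg_right h3 (norm_nonneg (ug 3 (qs ε s)))
    have e5 := mul_le_mul_of_nonneg_right hCC (Wm_nonneg 12 (qs ε s))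
    have e4 : ∑ i ∈ Finset.range 8, ‖dlt^[i + 4] g 0‖ * Wm (i + 5) (qs ε s) ≤
        M * FA8WS (ε ^ 2) (qs ε s) := by
      unfold FA8WS
      rw [Finset.mul_sum]
      refine Finset.sum_le_sum fun i hi' => ?_
      have hi2 : i + 4 ≤ 11 := by have := Finset.mem_range.1 hi'; omega
      have := mul_le_mul_of_nonneg_right (hi (i + 4) hi2) (Wm_nonneg (i + 5) (qs ε s))
      refine this.trans (le_of_eq ?_)
      rw [← pow_mul]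
      ring
    linarith
  have z0 : (0 : ℕ) ≤ 2 := by norm_num
  have z1 : (1 : ℕ) ≤ 2 := by norm_num
  have z2 : (2 : ℕ) ≤ 2 := by norm_num
  obtain ⟨cA0, hcA0⟩ := gA_bdd ε h0 h1 0 (by norm_num)
  obtain ⟨cA1, hcA1⟩ := gA_bdd ε h0 h1 1 (by norm_num)
  obtain ⟨cA2, hcA2⟩ := gA_bdd ε h0 h1 2 (by norm_num)
  obtain ⟨cE0, hcE0⟩ := gE_bdd ε h0 h1 0 (by norm_num)
  obtain ⟨cE1, hcE1⟩ := gE_bdd ε h0 h1 1 (by norm_num)
  obtain ⟨cE2, hcE2⟩ := gE_bdd ε h0 h1 2 (by norm_num)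
  obtain ⟨a00, a01, a02, a03⟩ := gA0_small ε h0 h1
  obtain ⟨a10, a11, a12, a13⟩ := gA1_small ε h0 h1
  obtain ⟨a20, a21, a22, a23⟩ := gA2_small ε h0 h1
  obtain ⟨b00, b01⟩ := gE0_small ε h0 h1
  obtain ⟨b10, b11, b12⟩ := gE1_small ε h0 h1
  obtain ⟨b20, b21, b22, b23⟩ := gE2_small ε h0 h1
  have b02 : ‖dlt^[2] (gE ε 0) 0‖ ≤ 14 * ε ^ 4 := by
    have := gE_dlt_zero ε h0 h1 0 (by norm_num) 2 (by norm_num)
    refine this.trans (le_of_eq ?_)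
    norm_num [Nat.factorial]
  have b03 : ‖dlt^[3] (gE ε 0) 0‖ ≤ 21 * ε ^ 6 := by
    have := gE_dlt_zero ε h0 h1 0 (by norm_num) 3 (by norm_num)
    refine this.trans (le_of_eq ?_)
    norm_num [Nat.factorial]
  have b13 : ‖dlt^[3] (gE ε 1) 0‖ ≤ 48.75 * ε ^ 6 := by
    have := gE_dlt_zero ε h0 h1 1 (by norm_num) 3 (by norm_num)
    refine this.trans (le_of_eq ?_)
    norm_num [Nat.factorial]
  obtain ⟨sA0, tA0⟩ := gA_dlt12 ε h0 h1 0 (by norm_num)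
  obtain ⟨sA1, tA1⟩ := gA_dlt12 ε h0 h1 1 (by norm_num)
  obtain ⟨sA2, tA2⟩ := gA_dlt12 ε h0 h1 2 (by norm_num)
  obtain ⟨sE0, tE0⟩ := gE_dlt12 ε h0 h1 0 (by norm_num)
  obtain ⟨sE1, tE1⟩ := gE_dlt12 ε h0 h1 1 (by norm_num)
  obtain ⟨sE2, tE2⟩ := gE_dlt12 ε h0 h1 2 (by norm_num)
  have kA0 := key (gA ε 0) cA0 _ _ _ 15 6e7 hcA0 sA0 a01 a02 a03
    (fun i hi => gA_dlt_zero ε h0 h1 0 z0 i hi) tA0
  have kA1 := key (gA ε 1) cA1 _ _ _ 35 3e8 hcA1 sA1 a11 a12 a13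
    (fun i hi => gA_dlt_zero ε h0 h1 1 z1 i hi) tA1
  have kA2 := key (gA ε 2) cA2 _ _ _ 80 1.5e9 hcA2 sA2 a21 a22 a23
    (fun i hi => gA_dlt_zero ε h0 h1 2 z2 i hi) tA2
  have kE0 := key (gE ε 0) cE0 _ _ _ 28 2.5e8 hcE0 sE0 b01 b02 b03
    (fun i hi => gE_dlt_zero ε h0 h1 0 z0 i hi) tE0
  have kE1 := key (gE ε 1) cE1 _ _ _ 65 1.2e9 hcE1 sE1 b11 b12 b13
    (fun i hi => gE_dlt_zero ε h0 h1 1 z1 i hi) tE1
  have kE2 := key (gE ε 2) cE2 _ _ _ 150 6e9 hcE2 sE2 b21 b22 b23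
    (fun i hi => gE_dlt_zero ε h0 h1 2 z2 i hi) tE2
  rw [← Asum_far ε h0] at kA0 kA1 kA2
  rw [a00, one_mul] at kA0
  rw [a10, zero_mul, mul_zero, sub_zero] at kA1
  rw [a20, zero_mul, mul_zero, sub_zero] at kA2
  rw [b00, zero_mul, mul_zero, sub_zero] at kE0
  rw [b10, zero_mul, mul_zero, sub_zero] at kE1
  rw [b20, zero_mul, mul_zero, sub_zero] at kE2
  refine ⟨?_, kA1, kA2, ?_, ?_, ?_⟩
  · have h2 := norm_sub_norm_le ((ε : ℂ) * ug 0 (qs ε s)) (Asum ε 0 (Bs s))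
    rw [norm_sub_rev, norm_mul, Complex.norm_real, Real.norm_eq_abs, abs_of_pos h0] at h2
    linarith
  · rw [Esum_far ε h0, if_pos rfl]
    refine (norm_add_le _ _).trans ?_
    rw [norm_one]
    linarith
  · rw [Esum_far ε h0, if_neg one_ne_zero, zero_add]
    exact kE1
  · rw [Esum_far ε h0, if_neg two_ne_zero, zero_add]
    exact kE2


theorem FA8_q (ε : ℝ) (s : ℝ) :
    ∃ q0 : ℂ, q0 = ((Real.exp (-(ε ^ 2 / 50)) : ℝ) : ℂ) *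
        Complex.exp (((|s| * ε ^ 2 : ℝ) : ℂ) * Complex.I) ∧
      (∀ i, ‖ug i (qs ε s)‖ = ‖ug i q0‖) ∧ (∀ m, Wm m (qs ε s) = Wm m q0) := by
  have e : ∀ s : ℝ, qs ε s = ((Real.exp (-(ε ^ 2 / 50)) : ℝ) : ℂ) *
      Complex.exp (((s * ε ^ 2 : ℝ) : ℂ) * Complex.I) := by
    intro s
    unfold qs
    rw [Complex.ofReal_exp, ← Complex.exp_add]
    congr 1
    apply Complex.ext
    · simp
      ring
    · simp
      ring
  rcases le_total 0 s with hs | hs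
  · refine ⟨qs ε s, ?_, fun i => rfl, fun m => rfl⟩
    rw [abs_of_nonneg hs, e]
  · refine ⟨starRingEnd ℂ (qs ε s), ?_, fun i => (ug_conj i _).symm, fun m => (Wm_conj m _).symm⟩
    rw [abs_of_nonpos hs, e, map_mul, Complex.conj_ofReal, ← Complex.exp_conj, map_mul,
      Complex.conj_ofReal, Complex.conj_I]
    congr 2
    push_cast
    ring

theorem FA8_norm_sq (r φ : ℝ) :
    ‖1 - (r : ℂ) * Complex.exp ((φ : ℂ) * Complex.I)‖ ^ 2 =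
      (1 - r) ^ 2 + 4 * r * Real.sin (φ / 2) ^ 2 := by
  rw [← Complex.normSq_eq_norm_sq, Complex.normSq_apply]
  have hre : (1 - (r : ℂ) * Complex.exp ((φ : ℂ) * Complex.I)).re = 1 - r * Real.cos φ := by
    simp [Complex.exp_ofReal_mul_I_re]
  have him : (1 - (r : ℂ) * Complex.exp ((φ : ℂ) * Complex.I)).im = -(r * Real.sin φ) := by
    simp [Complex.exp_ofReal_mul_I_im]
  rw [hre, him]
  have h1 : Real.cos φ = 1 - 2 * Real.sin (φ / 2) ^ 2 := by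
    have := Real.cos_sq' (φ / 2)
    have h2 := Real.cos_two_mul (φ / 2)
    rw [show 2 * (φ / 2) = φ by ring] at h2
    linarith
  have h3 := Real.sin_sq_add_cos_sq φ
  linear_combination r ^ 2 * h3 - 2 * r * h1

/-- two sided bounds of `2 |1 - q|` -/
theorem FA8_L (h φ : ℝ) (h0 : 0 < h) (h1 : h ≤ 21 / 1000) (hφ : 12 * h ≤ φ) (hφ1 : φ ≤ Real.pi) :
    4 * 0.9997 * Real.sin (φ / 2) ≤
      2 * ‖1 - ((Real.exp (-(h / 50)) : ℝ) : ℂ) * Complex.exp ((φ : ℂ) * Complex.I)‖ ∧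
    2 * ‖1 - ((Real.exp (-(h / 50)) : ℝ) : ℂ) * Complex.exp ((φ : ℂ) * Complex.I)‖ ≤
      2.00002 * φ ∧
    2 * ‖1 - ((Real.exp (-(h / 50)) : ℝ) : ℂ) * Complex.exp ((φ : ℂ) * Complex.I)‖ ≤ 4 := by
  set r := Real.exp (-(h / 50)) with hr
  have hr1 : r ≤ 1 := by
    rw [hr]; exact Real.exp_le_one_iff.2 (by linarith)
  have hr0 : 1 - h / 50 ≤ r := by
    have := Real.add_one_le_exp (-(h / 50))
    linarith
  have hφ0 : 0 < φ := by linarith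
  have hs0 : 0 ≤ Real.sin (φ / 2) :=
    Real.sin_nonneg_of_nonneg_of_le_pi (by linarith) (by linarith)
  have hs1 : Real.sin (φ / 2) ≤ φ / 2 := Real.sin_le (by linarith)
  have hs2 : Real.sin (φ / 2) ≤ 1 := Real.sin_le_one _
  have hn := FA8_norm_sq r φ
  set N := ‖1 - (r : ℂ) * Complex.exp ((φ : ℂ) * Complex.I)‖ with hN
  have hN0 : 0 ≤ N := norm_nonneg _
  refine ⟨?_, ?_, ?_⟩
  · have h3 : (2 * 0.9997 * Real.sin (φ / 2)) ^ 2 ≤ N ^ 2 := by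
      rw [hn]
      have : 0.99958 ≤ r := by linarith
      have h5 := mul_le_mul_of_nonneg_right this (sq_nonneg (Real.sin (φ / 2)))
      nlinarith [sq_nonneg (1 - r), sq_nonneg (Real.sin (φ / 2))]
    have := abs_le_of_sq_le_sq' h3 hN0
    linarith [this.2]
  · have h3 : N ^ 2 ≤ (1.00001 * φ) ^ 2 := by
      rw [hn]
      have a1 : (1 - r) ^ 2 ≤ (φ / 600) ^ 2 := by
        apply pow_le_pow_left₀ (by linarith)
        linarith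
      have a2 : Real.sin (φ / 2) ^ 2 ≤ (φ / 2) ^ 2 := pow_le_pow_left₀ hs0 hs1 2
      have a3 : r * Real.sin (φ / 2) ^ 2 ≤ 1 * (φ / 2) ^ 2 :=
        mul_le_mul hr1 a2 (sq_nonneg _) (by norm_num)
      nlinarith
    have := abs_le_of_sq_le_sq' h3 (by positivity)
    linarith [this.2]
  · have h3 : N ^ 2 ≤ 2 ^ 2 := by
      rw [hn]
      have a2 : Real.sin (φ / 2) ^ 2 ≤ 1 := by nlinarith
      have hr00 : 0 ≤ r := by rw [hr]; exact (Real.exp_pos _).le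
      nlinarith
    have := abs_le_of_sq_le_sq' h3 (by norm_num)
    linarith [this.2]


theorem FA8_eps2 (ε : ℝ) (h0 : 0 < ε) (h1 : ε ^ 3 ≤ 3 / 1000) : ε ^ 2 ≤ 21 / 1000 := by
  by_contra hc
  push Not at hc
  have h2 : ((21 : ℝ) / 1000) ^ 3 < (ε ^ 2) ^ 3 := pow_lt_pow_left₀ hc (by norm_num) (by norm_num)
  have h3 : (ε ^ 3) ^ 2 ≤ (3 / 1000) ^ 2 := pow_le_pow_left₀ (pow_pos h0 3).le h1 2
  have h4 : (ε ^ 2) ^ 3 = (ε ^ 3) ^ 2 := by ring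
  rw [h4] at h2
  norm_num at h2 h3
  linarith

/-- normalised bounds; `u = 1 / sqrt s` -/
theorem FA8_norm (ε s : ℝ) (h0 : 0 < ε) (h1 : ε ^ 3 ≤ 3 / 1000) (hs : 12 ≤ |s|)
    (Φ m Λ k1 c1 c2 c3 w0 v4 v11 t0 U1 U2 U3 U0 : ℝ) (hφ : |s| * ε ^ 2 ≤ Φ) (hΦ : Φ ≤ 1)
    (hm0 : 0 < m) (hm : 1 ≤ 2 * m ^ 2 * (0.9997 * (1 - Φ ^ 2 / 24))) (hΛ0 : 0 ≤ Λ)
    (hΛ : 2.00002 * Φ ≤ Λ ^ 2) (hk0 : 0 ≤ k1) (hk : 1 ≤ k1 * (1 - Φ ^ 2 / 6))
    (hU0 : Real.exp (Λ / 3 + Λ ^ 2 / 36) ≤ U0) (hU1 : Real.exp (Λ ^ 2 / 12) ≤ U1)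
    (hU2 : Real.exp (5 * Λ ^ 2 / 36) ≤ U2) (hU3 : Real.exp (7 * Λ ^ 2 / 36) ≤ U3)
    (hc1 : m ^ 3 * U1 ≤ c1) (hc2 : m ^ 5 * ((3 + Λ) / 2 * U2) ≤ c2)
    (hc3 : m ^ 7 * ((15 + 10 * Λ + 2 * Λ ^ 2) / 6 * U3) ≤ c3) (hw0 : m * U0 ≤ w0)
    (ht : 1 / |s| ≤ t0)
    (hv4 : w0 * ∑ i ∈ Finset.range 8, ((i + 4).factorial : ℝ) / 2 ^ (i + 4) * k1 ^ (i + 4) * t0 ^ i ≤
      v4)
    (hv11 : w0 * k1 ^ 11 * t0 ^ 7 ≤ v11) :
    0.7071 * (1 / Real.sqrt |s|) ≤ ε * ‖ug 0 (qs ε s)‖ ∧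
    ε ^ 3 * ‖ug 1 (qs ε s)‖ ≤ c1 * (1 / Real.sqrt |s|) ^ 3 ∧
    ε ^ 5 * ‖ug 2 (qs ε s)‖ ≤ c2 * (1 / Real.sqrt |s|) ^ 5 ∧
    ε ^ 7 * ‖ug 3 (qs ε s)‖ ≤ c3 * (1 / Real.sqrt |s|) ^ 7 ∧
    ε * FA8WS (ε ^ 2) (qs ε s) ≤ v4 * (1 / Real.sqrt |s|) ^ 9 ∧
    ε * (ε ^ 22 * Wm 12 (qs ε s)) ≤ v11 * (1 / Real.sqrt |s|) ^ 9 := by
  obtain ⟨q, hq, hu, hW⟩ := FA8_q ε s
  rw [hu, hu, hu, hu, hW]
  have hWS : FA8WS (ε ^ 2) (qs ε s) = FA8WS (ε ^ 2) q := by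
    unfold FA8WS
    exact Finset.sum_congr rfl fun i _ => by rw [hW]
  rw [hWS]
  have hs0 : 0 < |s| := by linarith
  set φ : ℝ := |s| * ε ^ 2 with hφdef
  have hε2 : 0 < ε ^ 2 := pow_pos h0 2
  have hε2u : ε ^ 2 ≤ 21 / 1000 := FA8_eps2 ε h0 h1
  have hφ0 : 0 < φ := mul_pos hs0 hε2
  have hφ12 : 12 * ε ^ 2 ≤ φ := mul_le_mul_of_nonneg_right hs hε2.le
  have hφ1 : φ ≤ 1 := hφ.trans hΦ
  have hpi := Real.pi_gt_three
  obtain ⟨L1, L2, -⟩ := FA8_L (ε ^ 2) φ hε2 hε2u hφ12 (by linarith)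
  have hqn : ‖q‖ < 1 := by
    rw [hq, norm_mul, Complex.norm_exp_ofReal_mul_I, mul_one, Complex.norm_real, Real.norm_eq_abs,
      abs_of_pos (Real.exp_pos _)]
    exact Real.exp_lt_one_iff.2 (by linarith)
  rw [← hq] at L1 L2
  have hsin : φ / 2 * (1 - φ ^ 2 / 24) ≤ Real.sin (φ / 2) := by
    have := Real.sin_ge_sub_cube (x := φ / 2) (by linarith)
    refine le_trans (le_of_eq ?_) this
    ring
  have hΦ0 : 0 < Φ := by linarith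
  have hφΦ : φ ^ 2 ≤ Φ ^ 2 := pow_le_pow_left₀ hφ0.le hφ 2
  -- the variable l
  set N := 2 * ‖1 - q‖ with hN
  have hNpos : 0 < N := by
    refine lt_of_lt_of_le ?_ L1
    have : 0 < φ / 2 * (1 - φ ^ 2 / 24) := by
      apply mul_pos (by linarith)
      nlinarith
    nlinarith
  set l := Real.sqrt N with hl
  have hl0 : 0 < l := Real.sqrt_pos.2 hNpos
  have hl2 : l ^ 2 = N := Real.sq_sqrt hNpos.le
  obtain ⟨b0, b0', b1, b2, b3⟩ := ug_bounds q hqn l hl0 (by rw [hl2])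
  set σ := Real.sqrt |s| with hσ
  have hσ0 : 0 < σ := Real.sqrt_pos.2 hs0
  have hσ2 : σ ^ 2 = |s| := Real.sq_sqrt hs0.le
  set u := 1 / σ with hudef
  have hu0 : 0 < u := by positivity
  have huσ : u * σ = 1 := by rw [hudef]; field_simp
  have hu2 : u ^ 2 = 1 / |s| := by rw [hudef, div_pow, one_pow, hσ2]
  -- lower and upper bound of l
  have hlow : σ * ε ≤ m * l := by
    have : (σ * ε) ^ 2 ≤ (m * l) ^ 2 := by
      rw [mul_pow, mul_pow, hσ2, hl2, ← hφdef]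
      have h3 : φ * (0.9997 * (1 - Φ ^ 2 / 24)) * 2 ≤ N := by
        refine le_trans ?_ L1
        have h4 : φ / 2 * (1 - Φ ^ 2 / 24) ≤ φ / 2 * (1 - φ ^ 2 / 24) :=
          mul_le_mul_of_nonneg_left (by linarith) (by linarith)
        linarith
      have h5 := mul_le_mul_of_nonneg_left h3 (sq_nonneg m)
      have h6 := mul_le_mul_of_nonneg_left hm hφ0.le
      linarith
    exact (abs_le_of_sq_le_sq' this (by positivity)).2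
  have hup : 0.7071 * l ≤ σ * ε := by
    have : (0.7071 * l) ^ 2 ≤ (σ * ε) ^ 2 := by
      rw [mul_pow, mul_pow, hσ2, hl2, ← hφdef]
      linarith
    exact (abs_le_of_sq_le_sq' this (by positivity)).2
  have hlΛ : l ≤ Λ := by
    have : l ^ 2 ≤ Λ ^ 2 := by rw [hl2]; linarith
    exact (abs_le_of_sq_le_sq' this hΛ0).2
  set x := ε / l with hx
  have hx0 : 0 < x := div_pos h0 hl0
  have hxl : x * l = ε := by rw [hx]; field_simp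
  have hxm : x ≤ m * u := by
    rw [hx, div_le_iff₀ hl0]
    have := mul_le_mul_of_nonneg_left hlow hu0.le
    calc ε = (u * σ) * ε := by rw [huσ, one_mul]
      _ = u * (σ * ε) := by ring
      _ ≤ u * (m * l) := this
      _ = m * u * l := by ring
  have hxu : 0.7071 * u ≤ x := by
    rw [hx, le_div_iff₀ hl0]
    have := mul_le_mul_of_nonneg_left hup hu0.le
    calc 0.7071 * u * l = u * (0.7071 * l) := by ring
      _ ≤ u * (σ * ε) := this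
      _ = (u * σ) * ε := by ring
      _ = ε := by rw [huσ, one_mul]
  have hl2Λ : l ^ 2 ≤ Λ ^ 2 := pow_le_pow_left₀ hl0.le hlΛ 2
  have hexp : ∀ a b U : ℝ, a ≤ b → Real.exp b ≤ U → Real.exp a ≤ U := fun a b U hab hb =>
    (Real.exp_le_exp.2 hab).trans hb
  have hE0 := hexp (l / 3 + l ^ 2 / 36) _ U0 (by linarith) hU0
  have hE1 := hexp (l ^ 2 / 12) _ U1 (by linarith) hU1
  have hE2 := hexp (5 * l ^ 2 / 36) _ U2 (by linarith) hU2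
  have hE3 := hexp (7 * l ^ 2 / 36) _ U3 (by linarith) hU3
  have hxp : ∀ k : ℕ, x ^ k ≤ m ^ k * u ^ k := fun k => by
    rw [← mul_pow]; exact pow_le_pow_left₀ hx0.le hxm k
  have hu0ε : ε * ‖ug 0 q‖ ≤ w0 * u := by
    have h3 : ε * ‖ug 0 q‖ ≤ ε * (Real.exp (l / 3 + l ^ 2 / 36) / l) :=
      mul_le_mul_of_nonneg_left b0' h0.le
    have h4 : ε * (Real.exp (l / 3 + l ^ 2 / 36) / l) = x * Real.exp (l / 3 + l ^ 2 / 36) := by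
      rw [hx]; ring
    have h5 : x * Real.exp (l / 3 + l ^ 2 / 36) ≤ (m * u) * U0 :=
      mul_le_mul hxm hE0 (Real.exp_pos _).le (by positivity)
    have h6 : m * u * U0 ≤ w0 * u := by
      have := mul_le_mul_of_nonneg_right hw0 hu0.le
      linarith
    linarith
  have hw00 : 0 ≤ w0 := by
    have : 0 ≤ w0 * u := le_trans (by positivity) hu0ε
    by_contra hc
    push Not at hc
    nlinarith
  have hsinφ : φ * (1 - Φ ^ 2 / 6) ≤ Real.sin φ := by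
    have := Real.sin_ge_sub_cube (x := φ) hφ0.le
    refine le_trans ?_ this
    have h3 := mul_le_mul_of_nonneg_left hφΦ hφ0.le
    nlinarith
  have hsinpos : 0 < Real.sin φ := by
    refine lt_of_lt_of_le (mul_pos hφ0 ?_) hsinφ
    nlinarith
  have hratio : ε ^ 2 / Real.sin φ ≤ k1 * u ^ 2 := by
    rw [div_le_iff₀ hsinpos, hu2]
    have h3 : φ ≤ k1 * Real.sin φ := by
      have := mul_le_mul_of_nonneg_left hsinφ hk0
      have h4 := mul_le_mul_of_nonneg_left hk hφ0.le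
      nlinarith
    have h5 : ε ^ 2 = φ * (1 / |s|) := by rw [hφdef]; field_simp
    rw [h5]
    have := mul_le_mul_of_nonneg_right h3 (by positivity : (0 : ℝ) ≤ 1 / |s|)
    linarith
  have hWm : ∀ i : ℕ, 2 ≤ i + 1 → ε * ((ε ^ 2) ^ i * Wm (i + 1) q) ≤ w0 * u * (k1 * u ^ 2) ^ i := by
    intro i hi
    have h3 := Wm_le_sin (i + 1) hi (Real.exp (-(ε ^ 2 / 50))) φ (Real.exp_pos _)
      (Real.exp_lt_one_iff.2 (by linarith)) hφ0 (by linarith) q hq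
    rw [Nat.add_sub_cancel] at h3
    have h4 : ε * ((ε ^ 2) ^ i * Wm (i + 1) q) ≤
        ε * ((ε ^ 2) ^ i * (‖ug 0 q‖ / Real.sin φ ^ i)) :=
      mul_le_mul_of_nonneg_left (mul_le_mul_of_nonneg_left h3 (by positivity)) h0.le
    have h5 : ε * ((ε ^ 2) ^ i * (‖ug 0 q‖ / Real.sin φ ^ i)) =
        (ε * ‖ug 0 q‖) * (ε ^ 2 / Real.sin φ) ^ i := by
      rw [div_pow]; ring
    rw [h5] at h4
    refine h4.trans ?_
    exact mul_le_mul hu0ε (pow_le_pow_left₀ (by positivity) hratio i) (by positivity)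
      (by positivity)
  have ht2 : u ^ 2 ≤ t0 := by rw [hu2]; exact ht
  refine ⟨?_, ?_, ?_, ?_, ?_, ?_⟩
  · refine hxu.trans ?_
    have := mul_le_mul_of_nonneg_left b0 h0.le
    refine le_trans (le_of_eq ?_) this
    rw [hx]; ring
  · have h3 := mul_le_mul_of_nonneg_left b1 (pow_pos h0 3).le
    have h4 : ε ^ 3 * (Real.exp (l ^ 2 / 12) / l ^ 3) = x ^ 3 * Real.exp (l ^ 2 / 12) := by
      rw [hx, div_pow]; ring
    have h5 : x ^ 3 * Real.exp (l ^ 2 / 12) ≤ (m ^ 3 * u ^ 3) * U1 :=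
      mul_le_mul (hxp 3) hE1 (Real.exp_pos _).le (by positivity)
    have h6 := mul_le_mul_of_nonneg_right hc1 (pow_pos hu0 3).le
    linarith
  · have h3 := mul_le_mul_of_nonneg_left b2 (pow_pos h0 5).le
    have h4 : ε ^ 5 * ((3 + l) / 2 * Real.exp (5 * l ^ 2 / 36) / l ^ 5) =
        x ^ 5 * ((3 + l) / 2 * Real.exp (5 * l ^ 2 / 36)) := by
      rw [hx, div_pow]; ring
    have h5 : x ^ 5 * ((3 + l) / 2 * Real.exp (5 * l ^ 2 / 36)) ≤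
        (m ^ 5 * u ^ 5) * ((3 + Λ) / 2 * U2) := by
      refine mul_le_mul (hxp 5) ?_ (by positivity) (by positivity)
      exact mul_le_mul (by linarith) hE2 (Real.exp_pos _).le (by positivity)
    have h6 := mul_le_mul_of_nonneg_right hc2 (pow_pos hu0 5).le
    linarith
  · have h3 := mul_le_mul_of_nonneg_left b3 (pow_pos h0 7).le
    have h4 : ε ^ 7 * ((15 + 10 * l + 2 * l ^ 2) / 6 * Real.exp (7 * l ^ 2 / 36) / l ^ 7) =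
        x ^ 7 * ((15 + 10 * l + 2 * l ^ 2) / 6 * Real.exp (7 * l ^ 2 / 36)) := by
      rw [hx, div_pow]; ring
    have h5 : x ^ 7 * ((15 + 10 * l + 2 * l ^ 2) / 6 * Real.exp (7 * l ^ 2 / 36)) ≤
        (m ^ 7 * u ^ 7) * ((15 + 10 * Λ + 2 * Λ ^ 2) / 6 * U3) := by
      refine mul_le_mul (hxp 7) ?_ (by positivity) (by positivity)
      exact mul_le_mul (by linarith) hE3 (Real.exp_pos _).le (by positivity)
    have h6 := mul_le_mul_of_nonneg_right hc3 (pow_pos hu0 7).le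
    linarith
  · have h3 : ε * FA8WS (ε ^ 2) q ≤ ∑ i ∈ Finset.range 8,
        ((i + 4).factorial : ℝ) / 2 ^ (i + 4) * (w0 * u * (k1 ^ (i + 4) * u ^ 8 * t0 ^ i)) := by
      unfold FA8WS
      rw [Finset.mul_sum]
      refine Finset.sum_le_sum fun i _ => ?_
      have h4 := hWm (i + 4) (by omega)
      have h5 : (k1 * u ^ 2) ^ (i + 4) ≤ k1 ^ (i + 4) * u ^ 8 * t0 ^ i := by
        have : (k1 * u ^ 2) ^ (i + 4) = k1 ^ (i + 4) * u ^ 8 * (u ^ 2) ^ i := by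
          rw [mul_pow, ← pow_mul, ← pow_mul, mul_assoc, ← pow_add]; ring
        rw [this]
        exact mul_le_mul_of_nonneg_left (pow_le_pow_left₀ (by positivity) ht2 i) (by positivity)
      have h6 := mul_le_mul_of_nonneg_left h5 (by positivity : 0 ≤ w0 * u)
      have h7 := mul_le_mul_of_nonneg_left (h4.trans h6)
        (by positivity : (0 : ℝ) ≤ ((i + 4).factorial : ℝ) / 2 ^ (i + 4))
      refine le_trans (le_of_eq ?_) h7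
      ring
    have h8 : (∑ i ∈ Finset.range 8,
        ((i + 4).factorial : ℝ) / 2 ^ (i + 4) * (w0 * u * (k1 ^ (i + 4) * u ^ 8 * t0 ^ i))) =
        (w0 * ∑ i ∈ Finset.range 8,
          ((i + 4).factorial : ℝ) / 2 ^ (i + 4) * k1 ^ (i + 4) * t0 ^ i) * u ^ 9 := by
      rw [Finset.mul_sum, Finset.sum_mul]
      refine Finset.sum_congr rfl fun i _ => ?_
      ring
    rw [h8] at h3
    exact h3.trans (mul_le_mul_of_nonneg_right hv4 (pow_pos hu0 9).le)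
  · have h4 := hWm 11 (by omega)
    have h5 : (k1 * u ^ 2) ^ 11 ≤ k1 ^ 11 * u ^ 8 * t0 ^ 7 := by
      have : (k1 * u ^ 2) ^ 11 = k1 ^ 11 * u ^ 8 * (u ^ 2) ^ 7 := by ring
      rw [this]
      exact mul_le_mul_of_nonneg_left (pow_le_pow_left₀ (by positivity) ht2 7) (by positivity)
    have h6 := mul_le_mul_of_nonneg_left h5 (by positivity : 0 ≤ w0 * u)
    have h7 := mul_le_mul_of_nonneg_right hv11 (pow_pos hu0 9).le
    have h8 : ε * (ε ^ 22 * Wm 12 q) = ε * ((ε ^ 2) ^ 11 * Wm (11 + 1) q) := by ring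
    rw [h8]
    refine (h4.trans h6).trans (le_trans (le_of_eq ?_) h7)
    ring

end MP_d1b55a
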