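import Pool.Agent.Lib.MP_d1b55a_co.FDefs

/-!
FB1. Differences of a holomorphic function. PROOF. (i) Cauchy: |f^{(k)}(t)| ≤ k!/R^k M for t in [a, a + k h]
(Complex.norm_iteratedDeriv_le_of_forall_mem_sphere_norm_le). (ii) Induction on k over all functions:
if f is analytic near [a, a + k h] (real segment) and |f^{(k)}| ≤ M' on it then |(Δ_h^k f)(a)| ≤ h^k M'; step:
F(z) = f(z + h) - f(z) has F^{(k-1)}(t) = f^{(k-1)}(t+h) - f^{(k-1)}(t), norm ≤ h M' by the mean value inequality.
(iii) `dlt^[k]` of the sequence n ↦ f (a + n h) at 0 is (Δ_h^k f)(a); dlt^[k] g n = dlt^[k] (fun m => g (n + m)) 0.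
-/

open Finset

namespace MP_d1b55a

theorem dlt_shift (k : ℕ) (g : ℕ → ℂ) (n : ℕ) :
    dlt^[k] g n = dlt^[k] (fun m => g (n + m)) 0 := by
  induction k generalizing g with
  | zero => simp
  | succ k ih =>
    rw [Function.iterate_succ_apply, Function.iterate_succ_apply, ih]
    rfl

theorem dlt_le_choose (k : ℕ) (g : ℕ → ℂ) (n : ℕ) :
    ‖dlt^[k] g n‖ ≤ ∑ i ∈ Finset.range (k + 1), (k.choose i : ℝ) * ‖g (n + i)‖ := by
  induction k generalizing n with
  | zero => simp
  | succ k ih =>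
    rw [Function.iterate_succ_apply']
    have h1 : ‖dlt (dlt^[k] g) n‖ ≤ ‖dlt^[k] g (n + 1)‖ + ‖dlt^[k] g n‖ := norm_sub_le _ _
    refine h1.trans ((add_le_add (ih (n + 1)) (ih n)).trans (le_of_eq ?_))
    symm
    rw [Finset.sum_range_succ']
    have h2 : ∀ i ∈ Finset.range (k + 1), ((k + 1).choose (i + 1) : ℝ) * ‖g (n + (i + 1))‖ =
        (k.choose i : ℝ) * ‖g (n + 1 + i)‖ + (k.choose (i + 1) : ℝ) * ‖g (n + (i + 1))‖ := by
      intro i _
      rw [Nat.choose_succ_succ, show n + 1 + i = n + (i + 1) by ring]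
      push_cast
      ring
    rw [Finset.sum_congr rfl h2, Finset.sum_add_distrib, add_assoc]
    congr 1
    have h3 : ∑ i ∈ Finset.range (k + 1 + 1), (k.choose i : ℝ) * ‖g (n + i)‖ =
        ∑ i ∈ Finset.range (k + 1), (k.choose i : ℝ) * ‖g (n + i)‖ := by
      rw [Finset.sum_range_succ _ (k + 1), Nat.choose_succ_self]
      simp
    rw [← h3, Finset.sum_range_succ' _ (k + 1)]
    simp

/-- the real segment in `ℂ` -/
theorem fb1_convex (s t : ℝ) : Convex ℝ ((fun r : ℝ => (r : ℂ)) '' Set.Icc s t) := by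
  have h := (convex_Icc s t).linear_image Complex.ofRealCLM.toLinearMap
  exact h

theorem fb1_main (k : ℕ) : ∀ (f : ℂ → ℂ) (a h M : ℝ) (U : Set ℂ), 0 < h → IsOpen U →
    DifferentiableOn ℂ f U → (∀ t ∈ Set.Icc a (a + k * h), (t : ℂ) ∈ U) →
    (∀ t ∈ Set.Icc a (a + k * h), ‖iteratedDeriv k f (t : ℂ)‖ ≤ M) →
    ‖dlt^[k] (fun n : ℕ => f (((a + n * h : ℝ)) : ℂ)) 0‖ ≤ h ^ k * M := by
  induction k with
  | zero =>
    intro f a h M U h0 hU hf hd hM
    have h1 := hM a (by simp)
    simpa using h1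
  | succ k ih =>
    intro f a h M U h0 hU hf hd hM
    have hk0 : 0 ≤ (k : ℝ) * h := by positivity
    rw [Function.iterate_succ_apply]
    -- the difference function
    set F : ℂ → ℂ := fun z => f (z + (h : ℂ)) - f z with hF
    set U' : Set ℂ := U ∩ (fun z : ℂ => z + (h : ℂ)) ⁻¹' U with hU'
    have hU'o : IsOpen U' := hU.inter (hU.preimage (by fun_prop))
    have hFd : DifferentiableOn ℂ F U' := by
      refine DifferentiableOn.sub ?_ (hf.mono Set.inter_subset_left)
      exact hf.comp (by fun_prop) (fun z hz => hz.2)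
    have hsub : ∀ t ∈ Set.Icc a (a + k * h), (t : ℂ) ∈ U ∧ ((t + h : ℝ) : ℂ) ∈ U := by
      intro t ht
      refine ⟨hd t ⟨ht.1, ?_⟩, hd (t + h) ⟨?_, ?_⟩⟩
      · push_cast
        linarith [ht.2]
      · linarith [ht.1]
      · push_cast
        linarith [ht.2]
    have h1 := ih F a h (h * M) U' h0 hU'o hFd (fun t ht => ⟨(hsub t ht).1, by
      have := (hsub t ht).2
      push_cast at this
      exact this⟩) (by
      intro t ht
      have hA1 : AnalyticAt ℂ f (t : ℂ) :=
        hf.analyticAt (hU.mem_nhds (hsub t ht).1)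
      have hA2 : AnalyticAt ℂ f ((t : ℂ) + (h : ℂ)) := by
        have := (hsub t ht).2
        push_cast at this
        exact hf.analyticAt (hU.mem_nhds this)
      have e1 : iteratedDeriv k F (t : ℂ) =
          iteratedDeriv k f ((t : ℂ) + (h : ℂ)) - iteratedDeriv k f (t : ℂ) := by
        have e2 : F = (fun z => f (z + (h : ℂ))) - f := rfl
        rw [e2, iteratedDeriv_sub]
        · rw [iteratedDeriv_comp_add_const]
        · have hc : AnalyticAt ℂ (fun z : ℂ => f (z + (h : ℂ))) (t : ℂ) :=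
            AnalyticAt.fun_comp (g := f) (f := fun z : ℂ => z + (h : ℂ)) hA2 (by fun_prop)
          exact hc.contDiffAt
        · exact hA1.contDiffAt
      rw [e1]
      -- mean value
      have hmv := (fb1_convex t (t + h)).norm_image_sub_le_of_norm_deriv_le
        (f := iteratedDeriv k f) (C := M) (x := (t : ℂ)) (y := (t : ℂ) + (h : ℂ)) ?_ ?_ ?_ ?_
      · refine hmv.trans (le_of_eq ?_)
        rw [add_sub_cancel_left, Complex.norm_real, Real.norm_of_nonneg h0.le, mul_comm]
      · rintro _ ⟨r, hr, rfl⟩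
        have hrU : (r : ℂ) ∈ U := by
          refine hd r ⟨ht.1.trans hr.1, ?_⟩
          push_cast
          linarith [ht.2, hr.2]
        exact (hf.analyticAt (hU.mem_nhds hrU)).iterated_deriv k |>.differentiableAt
          |> fun h => by simpa [iteratedDeriv_eq_iterate] using h
      · rintro _ ⟨r, hr, rfl⟩
        rw [← iteratedDeriv_succ]
        refine hM r ⟨ht.1.trans hr.1, ?_⟩
        push_cast
        linarith [ht.2, hr.2]
      · exact ⟨t, ⟨le_rfl, by linarith⟩, rfl⟩
      · exact ⟨t + h, ⟨by linarith, le_rfl⟩, by push_cast; rfl⟩)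
    have h2 : dlt (fun n : ℕ => f (((a + n * h : ℝ)) : ℂ)) =
        fun n : ℕ => F (((a + n * h : ℝ)) : ℂ) := by
      funext n
      simp only [dlt, hF]
      congr 2
      push_cast
      ring
    rw [h2]
    refine h1.trans (le_of_eq ?_)
    ring

theorem dlt_le_of_disc (f : ℂ → ℂ) (k : ℕ) (a h R M : ℝ) (h0 : 0 < h) (hR : 0 < R) (U : Set ℂ)
    (hU : IsOpen U) (hf : DifferentiableOn ℂ f U)
    (hd : ∀ t ∈ Set.Icc a (a + k * h), Metric.closedBall (t : ℂ) R ⊆ U)
    (hM : ∀ t ∈ Set.Icc a (a + k * h), ∀ z ∈ Metric.sphere (t : ℂ) R, ‖f z‖ ≤ M) :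
    ‖dlt^[k] (fun n : ℕ => f (((a + n * h : ℝ)) : ℂ)) 0‖ ≤ (k.factorial : ℝ) / R ^ k * h ^ k * M := by
  have h1 := fb1_main k f a h ((k.factorial : ℝ) * M / R ^ k) U h0 hU hf
    (fun t ht => hd t ht (Metric.mem_closedBall_self hR.le))
    (fun t ht => Complex.norm_iteratedDeriv_le_of_forall_mem_sphere_norm_le k hR
      (hf.diffContOnCl_ball (hd t ht)) (hM t ht))
  refine h1.trans (le_of_eq ?_)
  ring

end MP_d1b55a
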