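import Pool.Agent.Lib.MP_d1b55a_co.SDefs

/-!
MP_d1b55a_co, far arcs: definitions.
`gv v ∈ [0,1]` with `G_n = (1/π) ∫_0^π gv^n`; `ug i q = ∑ G_n C(n,i) q^n`;
`Wm m q = (1/π) ∫ |1 - gv q|^{-m}`; `dlt` = forward difference;
`gA ε j n = w_n^j e^{127/100 w_n} S_n`, `gE ε j n = w_n^j e^{127/100 w_n} K_n / ε`, `qs ε s` = the
point of the disc that belongs to `5/4 + i s` after the factor `e^{127/100 w}` is taken out.
`csinc`, `Scx`, `kapx`, `gAx`, `gEx`: the complex extensions (`ζ` in the place of `w_n`).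
-/

open Finset

namespace MP_d1b55a

/-- `exp (v cot v - 1) sin v / v` -/
noncomputable def gv (v : ℝ) : ℝ := Real.exp (v * Real.cos v / Real.sin v - 1) * Real.sin v / v

/-- forward difference -/
def dlt (f : ℕ → ℂ) : ℕ → ℂ := fun n => f (n + 1) - f n

/-- `∑ G_n C(n,i) q^n` -/
noncomputable def ug (i : ℕ) (q : ℂ) : ℂ := ∑' n : ℕ, ((Gn n : ℝ) : ℂ) * (n.choose i : ℂ) * q ^ n

/-- `(1/π) ∫_0^π |1 - gv q|^{-m}` -/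
noncomputable def Wm (m : ℕ) (q : ℂ) : ℝ :=
  (1 / Real.pi) * ∫ v in (0 : ℝ)..Real.pi, (‖1 - ((gv v : ℝ) : ℂ) * q‖⁻¹) ^ m

noncomputable def gA (ε : ℝ) (j : ℕ) (n : ℕ) : ℂ :=
  ((wn ε n ^ j * Real.exp (127 / 100 * wn ε n) * Sn ε n : ℝ) : ℂ)

noncomputable def gE (ε : ℝ) (j : ℕ) (n : ℕ) : ℂ :=
  ((wn ε n ^ j * Real.exp (127 / 100 * wn ε n) / ε : ℝ) : ℂ) * Kn ε n

/-- `exp (ε² (-1/50 + i s))` -/
noncomputable def qs (ε s : ℝ) : ℂ := Complex.exp (((ε ^ 2 : ℝ) : ℂ) * ⟨-(1 / 50), s⟩)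

/-- `sin z / z` -/
noncomputable def csinc (z : ℂ) : ℂ := dslope Complex.sin 0 z

/-- complex extension of `S_n`, `ζ = w_n` -/
noncomputable def Scx (ε : ℝ) (ζ : ℂ) : ℂ :=
  Complex.exp (ζ / ((ε ^ 2 : ℝ) : ℂ) * Complex.log (csinc (ζ * ((ε / 2 : ℝ) : ℂ))))

/-- `1 - x cot x - i x` -/
noncomputable def kapx (x : ℂ) : ℂ := 1 - Complex.cos x / csinc x - Complex.I * x

noncomputable def gAx (ε : ℝ) (j : ℕ) (ζ : ℂ) : ℂ :=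
  ζ ^ j * Complex.exp (127 / 100 * ζ) * Scx ε ζ

noncomputable def gEx (ε : ℝ) (j : ℕ) (ζ : ℂ) : ℂ :=
  ζ ^ j * Complex.exp (127 / 100 * ζ) * Scx ε ζ * (kapx (ζ * ((ε / 2 : ℝ) : ℂ)) / (ε : ℂ))

end MP_d1b55a
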