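import Pool.Agent.Lib.MP_d1b55a_co.Defs

/-!
MP_d1b55a_co, P1: recursions of the jets `a1, b1, d1` of `aP n` at `1`.
-/

open Polynomial Finset

namespace MP_d1b55a

theorem qn_succ (k : ℕ) : qn (k + 1) = qn k + X ^ k := by
  simp [qn, Finset.sum_range_succ]

theorem qn_zero : qn 0 = 0 := by simp [qn]

theorem qn_eval (k : ℕ) : (qn k).eval 1 = (k : ℚ) := by
  induction k with
  | zero => simp [qn]
  | succ k ih => rw [qn_succ]; simp [ih]

theorem qn_d1 (k : ℕ) : (derivative (qn k)).eval 1 = (k : ℚ) * (k - 1) / 2 := by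
  induction k with
  | zero => simp [qn]
  | succ k ih =>
    rw [qn_succ, derivative_add, eval_add, ih, derivative_X_pow]
    simp
    ring

theorem qn_d2 (k : ℕ) :
    (derivative (derivative (qn k))).eval 1 = (k : ℚ) * (k - 1) * (k - 2) / 3 := by
  induction k with
  | zero => simp [qn]
  | succ k ih =>
    rw [qn_succ, derivative_add, derivative_add, eval_add, ih, derivative_X_pow]
    rcases k with _ | k
    · simp
    · have h : (derivative (C ((k + 1 : ℕ) : ℚ) * X ^ (k + 1 - 1))).eval 1 = ((k : ℚ) + 1) * k := by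
        rw [derivative_C_mul, derivative_X_pow]
        simp
      rw [h]
      push_cast
      ring

theorem jets_zero : a1 0 = 0 ∧ b1 0 = 0 ∧ d1 0 = 0 := by
  simp [a1, b1, d1, aP_zero]

theorem jets_one : a1 1 = 1 ∧ b1 1 = 0 ∧ d1 1 = 0 := by
  simp [a1, b1, d1, aP_one]

theorem a1_rec (n : ℕ) : ((n : ℚ) + 1) * a1 (n + 2) =
    ∑ k ∈ Finset.range (n + 1), ((k : ℚ) + 1) * a1 (k + 1) * a1 (n + 1 - k) := by
  have h := congrArg (eval 1) (aP_rec n)
  rw [eval_mul, eval_C, eval_finsetSum] at h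
  unfold a1
  rw [h]
  apply Finset.sum_congr rfl
  intro k _
  rw [eval_mul, eval_mul, qn_eval]
  push_cast
  ring

theorem b1_rec (n : ℕ) : ((n : ℚ) + 1) * b1 (n + 2) =
    ∑ k ∈ Finset.range (n + 1), (((k : ℚ) + 1) * k / 2 * a1 (k + 1) * a1 (n + 1 - k)
      + ((k : ℚ) + 1) * (b1 (k + 1) * a1 (n + 1 - k) + a1 (k + 1) * b1 (n + 1 - k))) := by
  have h := congrArg (fun p => (derivative p).eval 1) (aP_rec n)
  simp only [derivative_C_mul, derivative_sum, eval_mul, eval_C, eval_finsetSum] at h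
  unfold a1 b1
  rw [h]
  apply Finset.sum_congr rfl
  intro k _
  rw [derivative_mul, derivative_mul]
  simp only [eval_mul, eval_add, qn_eval, qn_d1]
  push_cast
  ring

theorem d1_rec (n : ℕ) : ((n : ℚ) + 1) * d1 (n + 2) =
    ∑ k ∈ Finset.range (n + 1), (((k : ℚ) + 1) * k * (k - 1) / 3 * a1 (k + 1) * a1 (n + 1 - k)
      + ((k : ℚ) + 1) * k * (b1 (k + 1) * a1 (n + 1 - k) + a1 (k + 1) * b1 (n + 1 - k))
      + ((k : ℚ) + 1) * (d1 (k + 1) * a1 (n + 1 - k) + 2 * (b1 (k + 1) * b1 (n + 1 - k))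
        + a1 (k + 1) * d1 (n + 1 - k))) := by
  have h := congrArg (fun p => (derivative (derivative p)).eval 1) (aP_rec n)
  simp only [derivative_C_mul, derivative_sum, eval_mul, eval_C, eval_finsetSum] at h
  unfold a1 b1 d1
  rw [h]
  apply Finset.sum_congr rfl
  intro k _
  simp only [derivative_mul, derivative_add, eval_mul, eval_add, qn_eval, qn_d1, qn_d2]
  push_cast
  ring

end MP_d1b55a
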