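import Pool.Agent.Lib.MP_d1b55a_co.KBase

/-!
MP_d1b55a_co, P4: the computation of the values `a_k` by Taylor models: one step and its checks.
-/

open Finset Polynomial

namespace MP_d1b55a.K

variable {c : Cfg} (hc : c.Ok) {t : ℝ} (ht : |t| ≤ 1)

theorem CQ.add {W b e : ℕ} {v : ℂ} {W' b' e' : ℕ} {v' : ℂ} (h : CQ c t W b e v)
    (h' : CQ c t W' b' e' v') : CQ c t ((W + W') % c.N) (b + b') (e + e') (v + v') := by
  obtain ⟨f, g, h1, h2, h3, h4, h5⟩ := h
  obtain ⟨f', g', h1', h2', h3', h4', h5'⟩ := h'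
  refine ⟨f + f', g + g', ?_, ?_, ?_, ?_, ?_⟩
  · refine (mod_congr _ _).trans ?_
    push_cast
    rw [eval_add, eval_add]
    have := h1.add h1'
    have e : f.eval (c.B : ℤ) + c.BL * g.eval (c.B : ℤ) + (f'.eval (c.B : ℤ) +
        c.BL * g'.eval (c.B : ℤ)) = f.eval (c.B : ℤ) + f'.eval (c.B : ℤ) +
        c.BL * (g.eval (c.B : ℤ) + g'.eval (c.B : ℤ)) := by ring
    rwa [e] at this
  · exact (natDegree_add_le _ _).trans (by omega)
  · exact (natDegree_add_le _ _).trans (by omega)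
  · have := nm_add f f'
    have := nm_add g g'
    push_cast
    linarith
  · have : (c.one : ℂ) * (v + v') - (((aeval t (f + f') : ℝ) : ℂ) +
        ((aeval t (g + g') : ℝ) : ℂ) * Complex.I) = ((c.one : ℂ) * v - (((aeval t f : ℝ) : ℂ) +
        ((aeval t g : ℝ) : ℂ) * Complex.I)) + ((c.one : ℂ) * v' - (((aeval t f' : ℝ) : ℂ) +
        ((aeval t g' : ℝ) : ℂ) * Complex.I)) := by
      rw [map_add, map_add]; push_cast; ring
    rw [this]
    push_cast
    exact (norm_add_le _ _).trans (by linarith)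

theorem TL.length_eq {lW lM lS : List ℕ} {lv : List ℂ} (h : TL c t lW lM lS lv) :
    lW.length = lv.length := by
  induction h with
  | nil => rfl
  | cons _ _ _ ih => simp [ih]

theorem dl_length (f : ℕ → ℂ) (k : ℕ) : (dl f k).length = k := by
  induction k with
  | zero => rfl
  | succ k ih => simp [dl, ih]

theorem revA_length {α : Type} (l acc : List α) : (revA l acc).length = l.length + acc.length := by
  rw [revA_eq]; simp

/-- one step of the recursion for `b_k` -/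
def stA (c : Cfg) (lm k : ℕ) (AW AM AS : List ℕ) (Wb Mb eb : ℕ) (bW bM bS : List ℕ) (QW Qe : ℕ)
    (K : List ℕ → List ℕ → List ℕ → ℕ → ℕ → ℕ → Bool) : Bool :=
  nrmC c (Nat.mul QW Wb) c.one fun WA _ er =>
  frc (Nat.mul k lm) fun kl =>
  frc (Nat.add (Nat.add (Nat.div (Nat.add (Nat.add (Nat.mul kl eb) (Nat.mul Mb Qe))
    (Nat.mul Qe eb)) c.one) 1) er) fun eA =>
  frc (Nat.succ (Nat.div (Nat.mul kl Mb) c.one)) fun MA =>
  frc (Nat.add MA eA) fun SA =>
  frc (Nat.mul k c.one) fun ko =>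
  frc (dot (revA (WA :: AW) []) bW) fun S =>
  frc (dot (revA (MA :: AM) []) bM) fun M1 =>
  frc (dot (revA (SA :: AS) []) bS) fun S1 =>
  nrmC c S ko fun W' _ er' =>
  frc (Nat.add (Nat.add (Nat.div (Nat.sub S1 M1) ko) 1) er') fun e' =>
  frc (Nat.succ (Nat.div M1 ko)) fun M' =>
  K (WA :: AW) (MA :: AM) (SA :: AS) W' M' e'

include hc ht in
theorem stA_spec (lm m : ℕ) (hn : (m + 1) * (c.Mx * c.Mx) < c.H) (A b : ℕ → ℂ) (Q : ℂ)
    {AW AM AS bW bM bS : List ℕ} {Wb Mb eb QW Qe : ℕ}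
    (hA : TL c t AW AM AS (dl A m)) (hb : TL c t bW bM bS (dl b (m + 1)))
    (hWb : CT c t Wb eb (b (m + 1))) (hMb : (c.one : ℝ) * ‖b (m + 1)‖ ≤ Mb)
    (hQ : CT c t QW Qe Q) (hQm : (c.one : ℝ) * ‖Q‖ ≤ ((m + 1) * lm : ℕ))
    (hAm : A (m + 1) = Q * b (m + 1))
    (hbr : ((m : ℂ) + 1) * b (m + 2) = ∑ j ∈ range (m + 1), A (j + 1) * b (m + 1 - j))
    (K : List ℕ → List ℕ → List ℕ → ℕ → ℕ → ℕ → Bool)
    (h : stA c lm (m + 1) AW AM AS Wb Mb eb bW bM bS QW Qe K = true) :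
    ∃ AW' AM' AS' W' M' e', K AW' AM' AS' W' M' e' = true ∧ TL c t AW' AM' AS' (dl A (m + 1)) ∧
      CT c t W' e' (b (m + 2)) ∧ (c.one : ℝ) * ‖b (m + 2)‖ ≤ (M' : ℕ) := by
  have hone := hc.hone
  have honeR : (0 : ℝ) < c.one := by exact_mod_cast hone
  have honeC : (c.one : ℂ) ≠ 0 := by exact_mod_cast hone.ne'
  have hMM : 1 * (c.Mx * c.Mx) < c.H := by
    refine lt_of_le_of_lt ?_ hn
    exact Nat.mul_le_mul_right _ (by omega)
  unfold stA at h
  set kl := (m + 1) * lm with hkl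
  have h1 := (hQ.mulS hc hWb (kl : ℝ) Mb hQm hMb).mono
    (E' := ((kl * eb + Mb * Qe + Qe * eb : ℕ) : ℝ)) (by push_cast; linarith)
  obtain ⟨WA, ks, er, h2, _, h3, _⟩ := h1.nrm hc ht hMM c.one hone _ le_rfl _ h
  simp only [frc_eq] at h2
  set eA := (kl * eb + Mb * Qe + Qe * eb) / c.one + 1 + er with heA
  have hv : (c.one : ℂ) * Q * (c.one * b (m + 1)) / (c.one * c.one) = A (m + 1) := by
    rw [hAm]; field_simp
  rw [hv] at h3
  set MA := kl * Mb / c.one + 1 with hMA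
  have hMAn : (c.one : ℝ) * ‖A (m + 1)‖ ≤ (MA : ℕ) := by
    rw [hAm, norm_mul]
    have e1 : (c.one : ℝ) * (‖Q‖ * ‖b (m + 1)‖) =
      (c.one * ‖Q‖) * (c.one * ‖b (m + 1)‖) / c.one := by field_simp
    rw [e1]
    have e2 : (c.one * ‖Q‖) * (c.one * ‖b (m + 1)‖) ≤ (kl : ℝ) * Mb :=
      mul_le_mul hQm hMb (by positivity) (by positivity)
    have e3 := div_floor (kl * Mb) c.one hone
    have e4 : (c.one * ‖Q‖) * (c.one * ‖b (m + 1)‖) / c.one ≤ ((kl * Mb : ℕ) : ℝ) / c.one := by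
      apply div_le_div_of_nonneg_right _ honeR.le
      push_cast
      exact e2
    rw [hMA]
    push_cast at e3 e4 ⊢
    linarith
  have hTA : TL c t (WA :: AW) (MA :: AM) ((MA + eA) :: AS) (dl A (m + 1)) :=
    TL.cons (h3.mono (by assumption) le_rfl) hMAn hA
  have hrev := hTA.rev TL.nil
  obtain ⟨d1, d2, d3⟩ := hrev.dots hc hb
  rw [dotV_dl] at d2 d3
  have hlen : (revA (WA :: AW) []).length = m + 1 := by
    rw [revA_length, List.length_cons, hA.length_eq, dl_length]; simp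
  rw [hlen, ← hbr] at d2
  rw [← hbr] at d3
  set S := dot (revA (WA :: AW) []) bW with hS
  set M1 := dot (revA (MA :: AM) []) bM with hM1
  set S1 := dot (revA ((MA + eA) :: AS) []) bS with hS1
  have hko : 0 < (m + 1) * c.one := Nat.mul_pos (by omega) hone
  have d2' := d2.mono (E' := ((S1 - M1 : ℕ) : ℝ)) (by rw [Nat.cast_sub d1])
  obtain ⟨W', ks', er', h4, h4k, h5, _⟩ := d2'.nrm hc ht hn ((m + 1) * c.one) hko _ le_rfl _ h2
  have hv2 : (c.one : ℂ) * c.one * (((m : ℂ) + 1) * b (m + 2)) / (c.one * (((m + 1) * c.one : ℕ) : ℂ)) =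
      b (m + 2) := by
    have : ((m : ℂ) + 1) ≠ 0 := by exact_mod_cast Nat.succ_ne_zero m
    push_cast
    field_simp
  rw [hv2] at h5
  refine ⟨_, _, _, _, _, _, h4, hTA, h5.mono h4k le_rfl, ?_⟩
  rw [norm_mul] at d3
  have hm1 : ‖((m : ℂ) + 1)‖ = (m : ℝ) + 1 := by
    have : ((m : ℂ) + 1) = ((m + 1 : ℕ) : ℂ) := by push_cast; ring
    rw [this, Complex.norm_natCast]; push_cast; ring
  rw [hm1] at d3
  have e3 := div_floor M1 ((m + 1) * c.one) hko
  have e5 : (c.one : ℝ) * ‖b (m + 2)‖ ≤ (M1 : ℝ) / (((m + 1) * c.one : ℕ) : ℝ) := by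
    rw [le_div_iff₀ (by exact_mod_cast hko)]
    push_cast
    calc (c.one : ℝ) * ‖b (m + 2)‖ * ((m + 1) * c.one) =
        c.one * c.one * ((m + 1) * ‖b (m + 2)‖) := by ring
      _ ≤ _ := d3
  have e6 : ((Nat.succ (Nat.div M1 (Nat.mul (m + 1) c.one)) : ℕ) : ℝ) =
    ((M1 / ((m + 1) * c.one) : ℕ) : ℝ) + 1 := by
    have : Nat.succ (Nat.div M1 (Nat.mul (m + 1) c.one)) = M1 / ((m + 1) * c.one) + 1 := rfl
    rw [this]; push_cast; ring
  exact (e5.trans e3).trans (le_of_eq e6.symm)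

/-- error of the product of two values with bounds -/
def perr (M e M' e' : ℕ) : ℕ := Nat.sub (Nat.mul (Nat.add M e) (Nat.add M' e')) (Nat.mul M M')

theorem perr_eq (M e M' e' : ℕ) : ((perr M e M' e' : ℕ) : ℝ) = M * e' + M' * e + e * e' := by
  have : perr M e M' e' = (M + e) * (M' + e') - M * M' := rfl
  rw [this]
  have h : (M + e) * (M' + e') - M * M' = M * e' + M' * e + e * e' := by
    have : (M + e) * (M' + e') = M * M' + (M * e' + M' * e + e * e') := by ring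
    omega
  rw [h]; push_cast; ring

/-- check of `Re + Im > 0` for `b' * conj b` -/
def rchk (c : Cfg) (W' M' e' Wb Mb eb : ℕ) : Bool :=
  lowR c (Nat.mul (Nat.mul W' (cjW c Wb)) (Nat.sub (Nat.succ c.N) c.BL))
    (Nat.mul 2 (perr M' e' Mb eb))

/-- check of `Re > 0` for `b' * conj b` -/
def rchk2 (c : Cfg) (W' M' e' Wb Mb eb : ℕ) : Bool :=
  lowR c (Nat.mul W' (cjW c Wb)) (perr M' e' Mb eb)

theorem cv_re (f g : ℤ[X]) : (cv t f g).re = aeval t f := by simp [cv]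
theorem cv_im (f g : ℤ[X]) : (cv t f g).im = aeval t g := by simp [cv]

include hc ht in
theorem rchk_spec (h4 : 4 * (c.Mx * c.Mx) ≤ c.H) (hMx : 0 < c.Mx) {W' M' e' Wb Mb eb : ℕ} {v' v : ℂ}
    (h1 : CT c t W' e' v') (h2 : CT c t Wb eb v) (hm1 : (c.one : ℝ) * ‖v'‖ ≤ M')
    (hm2 : (c.one : ℝ) * ‖v‖ ≤ Mb) (h : rchk c W' M' e' Wb Mb eb = true) :
    0 < (v' * (starRingEnd ℂ) v).re + (v' * (starRingEnd ℂ) v).im := by
  have honeR : (0 : ℝ) < c.one := by exact_mod_cast hc.hone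
  have hMH : c.Mx < c.H := by nlinarith
  have hcj := h2.conj hc hMH
  have hm2' : (c.one : ℝ) * ‖(starRingEnd ℂ) v‖ ≤ Mb := by rw [Complex.norm_conj]; exact hm2
  obtain ⟨f, g, a1, a2, a3, a4, a5⟩ := h1.mulS hc hcj M' Mb hm1 hm2'
  unfold rchk at h
  simp only [Nat.cast_one, one_mul] at a4
  have hZ : ((c.Mx : ℤ) * c.Mx) * 4 ≤ c.H := by
    have : c.Mx * c.Mx * 4 ≤ c.H := by omega
    exact_mod_cast this
  have hMx2 : (0 : ℤ) < (c.Mx : ℤ) * c.Mx := by positivity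
  have n1 := nm_add f g
  have n2 := nm_sub g f
  have n3 := nm_nonneg f
  have n4 := nm_nonneg g
  have hBN : c.BL ≤ c.N + 1 := by have := hc.BL_lt_N; omega
  have hrep : (((W' * cjW c Wb) * (c.N + 1 - c.BL) : ℕ) : ℤ) ≡
      (f + g).eval (c.B : ℤ) + c.BL * (g - f).eval (c.B : ℤ) [ZMOD c.N] := by
    rw [Nat.cast_mul, Nat.cast_sub hBN]
    have e1 := a1.mul_right (((c.N + 1 : ℕ) : ℤ) - c.BL)
    refine e1.trans ?_
    have hB := (BL_sq hc).mul_right (-(g.eval (c.B : ℤ)))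
    rw [Int.modEq_iff_dvd] at hB ⊢
    obtain ⟨q, hq⟩ := hB
    refine ⟨q - (f.eval (c.B : ℤ) + c.BL * g.eval (c.B : ℤ)), ?_⟩
    simp only [eval_add, eval_sub]
    push_cast
    linear_combination hq
  have hlow := lowR_spec hc ht (f + g) (g - f) ((natDegree_add_le _ _).trans (by omega))
    ((natDegree_sub_le _ _).trans (by omega)) (by linarith) (by linarith) _ hrep _ h
  have e2 : ((Nat.mul 2 (perr M' e' Mb eb) : ℕ) : ℝ) = 2 * (M' * eb + Mb * e' + e' * eb) := by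
    have : Nat.mul 2 (perr M' e' Mb eb) = 2 * perr M' e' Mb eb := rfl
    rw [this, Nat.cast_mul, perr_eq]; push_cast; ring
  rw [e2, map_add] at hlow
  set z := v' * (starRingEnd ℂ) v with hz
  have e3 : (c.one : ℂ) * v' * (c.one * (starRingEnd ℂ) v) = (((c.one : ℝ) * c.one : ℝ) : ℂ) * z := by
    rw [hz]; push_cast; ring
  rw [e3] at a5
  have r1 := (Complex.abs_re_le_norm _).trans a5
  have r2 := (Complex.abs_im_le_norm _).trans a5
  rw [Complex.sub_re, Complex.re_ofReal_mul, cv_re] at r1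
  rw [Complex.sub_im, Complex.im_ofReal_mul, cv_im] at r2
  have r1' := (abs_le.mp r1).1
  have r2' := (abs_le.mp r2).1
  have r3 : 0 < (c.one : ℝ) * c.one * (z.re + z.im) := by
    rw [mul_add]; linarith
  exact (pos_iff_pos_of_mul_pos r3).mp (by positivity)

include hc ht in
theorem rchk2_spec (h4 : 4 * (c.Mx * c.Mx) ≤ c.H) (hMx : 0 < c.Mx) {W' M' e' Wb Mb eb : ℕ} {v' v : ℂ}
    (h1 : CT c t W' e' v') (h2 : CT c t Wb eb v) (hm1 : (c.one : ℝ) * ‖v'‖ ≤ M')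
    (hm2 : (c.one : ℝ) * ‖v‖ ≤ Mb) (h : rchk2 c W' M' e' Wb Mb eb = true) :
    0 < (v' * (starRingEnd ℂ) v).re := by
  have honeR : (0 : ℝ) < c.one := by exact_mod_cast hc.hone
  have hMH : c.Mx < c.H := by nlinarith
  have hcj := h2.conj hc hMH
  have hm2' : (c.one : ℝ) * ‖(starRingEnd ℂ) v‖ ≤ Mb := by rw [Complex.norm_conj]; exact hm2
  obtain ⟨f, g, a1, a2, a3, a4, a5⟩ := h1.mulS hc hcj M' Mb hm1 hm2'
  unfold rchk2 at h
  simp only [Nat.cast_one, one_mul] at a4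
  have hZ : ((c.Mx : ℤ) * c.Mx) * 4 ≤ c.H := by
    have : c.Mx * c.Mx * 4 ≤ c.H := by omega
    exact_mod_cast this
  have hMx2 : (0 : ℤ) < (c.Mx : ℤ) * c.Mx := by positivity
  have n3 := nm_nonneg f
  have n4 := nm_nonneg g
  have hlow := lowR_spec hc ht f g a2 a3 (by linarith) (by linarith) _ a1 _ h
  rw [perr_eq] at hlow
  set z := v' * (starRingEnd ℂ) v with hz
  have e3 : (c.one : ℂ) * v' * (c.one * (starRingEnd ℂ) v) = (((c.one : ℝ) * c.one : ℝ) : ℂ) * z := by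
    rw [hz]; push_cast; ring
  rw [e3] at a5
  have r1 := (Complex.abs_re_le_norm _).trans a5
  rw [Complex.sub_re, Complex.re_ofReal_mul, cv_re] at r1
  have r1' := (abs_le.mp r1).1
  have r3 : 0 < (c.one : ℝ) * c.one * z.re := by linarith
  exact (pos_iff_pos_of_mul_pos r3).mp (by positivity)

end MP_d1b55a.K
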