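import Pool.Agent.Lib.MP_d1b55a_co.KA
import Pool.Agent.Lib.MP_d1b55a_co.Final

/-!
MP_d1b55a_co, P4: the loop for the values `a_k` and the theorem about one cell.
-/

open Finset Polynomial

namespace MP_d1b55a.K

variable {c : Cfg} (hc : c.Ok) {t : ℝ} (ht : |t| ≤ 1)

/-- the loop -/
def aL (c : Cfg) (lm Y ey fuel : ℕ) : ℕ → List ℕ → List ℕ → List ℕ → ℕ → ℕ → ℕ → List ℕ → List ℕ →
    List ℕ → ℕ → ℕ → ℕ → ℕ → ℕ → ℕ →
    (List ℕ → List ℕ → List ℕ → ℕ → ℕ → ℕ → List ℕ → List ℕ → List ℕ → ℕ → ℕ → Bool) → Bool :=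
  Nat.rec (motive := fun _ => ℕ → List ℕ → List ℕ → List ℕ → ℕ → ℕ → ℕ → List ℕ → List ℕ →
      List ℕ → ℕ → ℕ → ℕ → ℕ → ℕ → ℕ →
      (List ℕ → List ℕ → List ℕ → ℕ → ℕ → ℕ → List ℕ → List ℕ → List ℕ → ℕ → ℕ → Bool) → Bool)
    (fun _ AW AM AS Wb Mb eb bW bM bS _ _ _ QW _ eQ K => K AW AM AS Wb Mb eb bW bM bS QW eQ)
    (fun _ ih k AW AM AS Wb Mb eb bW bM bS zW kz ez QW qb eQ K =>
      stA c lm k AW AM AS Wb Mb eb bW bM bS QW eQ fun AW' AM' AS' W' M' e' =>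
      chk (rchk c W' M' e' Wb Mb eb) <|
      frc (Nat.mod (Nat.add QW zW) c.N) fun QW' =>
      frc (Nat.add qb kz) fun qb' =>
      frc (Nat.add eQ ez) fun eQ' =>
      chk (Nat.ble qb' c.Mx) <|
      frc (Nat.add M' e') fun S' =>
      nrmC c (Nat.mul zW Y) c.one fun zW' kz' er =>
      frc (Nat.add (Nat.add (Nat.div (Nat.add (Nat.add (Nat.mul lm ey) (Nat.mul c.one ez))
        (Nat.mul ez ey)) c.one) 1) er) fun ez' =>
      frc (Nat.succ k) fun k' =>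
      ih k' AW' AM' AS' W' M' e' (W' :: bW) (M' :: bM) (S' :: bS) zW' kz' ez' QW' qb' eQ' K) fuel

/-- hypotheses on the sequences -/
structure Seqs (c : Cfg) (lm : ℕ) (A b z Q : ℕ → ℂ) (y : ℂ) : Prop where
  hA : ∀ m, A (m + 1) = Q (m + 1) * b (m + 1)
  hb : ∀ m : ℕ, ((m : ℂ) + 1) * b (m + 2) = ∑ j ∈ range (m + 1), A (j + 1) * b (m + 1 - j)
  hQ : ∀ m, Q (m + 2) = Q (m + 1) + z (m + 1)
  hz : ∀ m, z (m + 2) = z (m + 1) * y
  hQn : ∀ m, (c.one : ℝ) * ‖Q (m + 1)‖ ≤ ((m + 1) * lm : ℕ)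
  hzn : ∀ m, (c.one : ℝ) * ‖z m‖ ≤ (lm : ℕ)
  hy : ‖y‖ = 1

include hc ht in
theorem aL_spec (h4 : 4 * (c.Mx * c.Mx) ≤ c.H) (hMx : 0 < c.Mx) (lm Y ey : ℕ) (A b z Q : ℕ → ℂ)
    (y : ℂ) (hs : Seqs c lm A b z Q y) (hY : CT c t Y ey y)
    (K : List ℕ → List ℕ → List ℕ → ℕ → ℕ → ℕ → List ℕ → List ℕ → List ℕ → ℕ → ℕ → Bool)
    (fuel : ℕ) : ∀ (m : ℕ) (AW AM AS : List ℕ) (Wb Mb eb : ℕ) (bW bM bS : List ℕ)
      (zW kz ez QW qb eQ : ℕ), (m + fuel) * (c.Mx * c.Mx) < c.H →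
      TL c t AW AM AS (dl A m) → TL c t bW bM bS (dl b (m + 1)) → CT c t Wb eb (b (m + 1)) →
      (c.one : ℝ) * ‖b (m + 1)‖ ≤ Mb → CQ c t zW kz ez (z (m + 1)) → kz ≤ c.Mx →
      CQ c t QW qb eQ (Q (m + 1)) → qb ≤ c.Mx →
      aL c lm Y ey fuel (m + 1) AW AM AS Wb Mb eb bW bM bS zW kz ez QW qb eQ K = true →
      ∃ AW' AM' AS' Wb' Mb' eb' bW' bM' bS' QW' eQ',
        K AW' AM' AS' Wb' Mb' eb' bW' bM' bS' QW' eQ' = true ∧
        TL c t AW' AM' AS' (dl A (m + fuel)) ∧ TL c t bW' bM' bS' (dl b (m + fuel + 1)) ∧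
        CT c t Wb' eb' (b (m + fuel + 1)) ∧ (c.one : ℝ) * ‖b (m + fuel + 1)‖ ≤ (Mb' : ℕ) ∧
        CT c t QW' eQ' (Q (m + fuel + 1)) ∧
        ∀ j, m < j → j ≤ m + fuel →
          0 < (b (j + 1) * (starRingEnd ℂ) (b j)).re + (b (j + 1) * (starRingEnd ℂ) (b j)).im := by
  have hone := hc.hone
  induction fuel with
  | zero =>
    intro m AW AM AS Wb Mb eb bW bM bS zW kz ez QW qb eQ _ hA hb hWb hMb _ _ hQ hqb h
    exact ⟨AW, AM, AS, Wb, Mb, eb, bW, bM, bS, QW, eQ, h, hA, hb, hWb, hMb, hQ.mono hqb le_rfl,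
      fun j h1 h2 => by omega⟩
  | succ fuel ih =>
    intro m AW AM AS Wb Mb eb bW bM bS zW kz ez QW qb eQ hn hA hb hWb hMb hz hkz hQ hqb h
    have h0 : aL c lm Y ey (fuel + 1) (m + 1) AW AM AS Wb Mb eb bW bM bS zW kz ez QW qb eQ K =
      stA c lm (m + 1) AW AM AS Wb Mb eb bW bM bS QW eQ fun AW' AM' AS' W' M' e' =>
      chk (rchk c W' M' e' Wb Mb eb) <|
      frc ((QW + zW) % c.N) fun QW' =>
      frc (qb + kz) fun qb' =>
      frc (eQ + ez) fun eQ' =>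
      chk (Nat.ble qb' c.Mx) <|
      frc (M' + e') fun S' =>
      nrmC c (zW * Y) c.one fun zW' kz' er =>
      frc ((lm * ey + c.one * ez + ez * ey) / c.one + 1 + er) fun ez' =>
      frc (m + 2) fun k' =>
      aL c lm Y ey fuel k' AW' AM' AS' W' M' e' (W' :: bW) (M' :: bM) (S' :: bS) zW' kz' ez' QW' qb'
        eQ' K := rfl
    rw [h0] at h
    have hn1 : (m + 1) * (c.Mx * c.Mx) < c.H :=
      lt_of_le_of_lt (Nat.mul_le_mul_right _ (by omega)) hn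
    have hMM : 1 * (c.Mx * c.Mx) < c.H :=
      lt_of_le_of_lt (Nat.mul_le_mul_right _ (by omega)) hn
    obtain ⟨AW', AM', AS', W', M', e', h1, h2, h3, h5⟩ := stA_spec hc ht lm m hn1 A b (Q (m + 1))
      hA hb hWb hMb (hQ.mono hqb le_rfl) (hs.hQn m) (hs.hA m) (hs.hb m) _ h
    simp only [chk_true, frc_eq, Nat.ble_eq] at h1
    obtain ⟨g1, g2, g3⟩ := h1
    have g1' := rchk_spec hc ht h4 hMx h3 hWb h5 hMb g1
    have hQ' := hQ.add hz
    rw [← hs.hQ m] at hQ'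
    have hzC : CT c t zW ez (z (m + 1)) := hz.mono hkz le_rfl
    have hzz := (hzC.mulS hc hY (lm : ℝ) c.one
      (hs.hzn _) (by rw [hs.hy, mul_one])).mono
      (E' := ((lm * ey + c.one * ez + ez * ey : ℕ) : ℝ)) (by push_cast; linarith)
    obtain ⟨zW', kz', er, g4, g5, g6, _⟩ := hzz.nrm hc ht hMM c.one hone _ le_rfl _ g3
    have hv : (c.one : ℂ) * z (m + 1) * (c.one * y) / (c.one * c.one) = z (m + 2) := by
      have : (c.one : ℂ) ≠ 0 := by exact_mod_cast hone.ne'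
      rw [hs.hz]; field_simp
    rw [hv] at g6
    obtain ⟨AW'', AM'', AS'', Wb'', Mb'', eb'', bW'', bM'', bS'', QW'', eQ'', r1, r2, r3, r4, r5,
      r6, r7⟩ := ih (m + 1) AW' AM' AS' W' M' e' (W' :: bW) (M' :: bM) ((M' + e') :: bS) zW' kz' _
      ((QW + zW) % c.N) (qb + kz) (eQ + ez) (by
        have : m + 1 + fuel = m + (fuel + 1) := by ring
        rw [this]; exact hn) h2 (TL.cons h3 h5 hb) h3 h5 g6 g5 hQ' g2 g4
    have e1 : m + 1 + fuel = m + (fuel + 1) := by ring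
    rw [e1] at r2 r3 r4 r5 r6 r7
    refine ⟨AW'', AM'', AS'', Wb'', Mb'', eb'', bW'', bM'', bS'', QW'', eQ'', r1, r2, r3, r4, r5,
      r6, ?_⟩
    intro j hj1 hj2
    by_cases hj : j = m + 1
    · rw [hj]; exact g1'
    · exact r7 j (by omega) hj2

/-- the lower bound of `λ^n |a_n| / (2 sin (θ/2))` -/
def pchk (c : Cfg) (WC LW lm eL Wb Mb eb qn qd : ℕ) : Bool :=
  nrmC c (Nat.mul LW Wb) c.one fun YW _ er =>
  frc (Nat.add (Nat.add (Nat.div (Nat.add (Nat.add (Nat.mul lm eb) (Nat.mul Mb eL))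
    (Nat.mul eL eb)) c.one) 1) er) fun eY =>
  frc (Nat.succ (Nat.div (Nat.mul lm Mb) c.one)) fun MY =>
  chk (Nat.ble (Nat.succ (Nat.mul (Nat.add qd (Nat.mul 8 qn)) (Nat.mul c.Mx c.Mx))) c.H) <|
  lowR c (Nat.add (Nat.add (Nat.mul qd (Nat.mul YW (cjW c YW))) (Nat.mul (Nat.mul 4 qn)
    (Nat.mul WC WC))) (Nat.sub c.N (Nat.mul (Nat.mul 4 qn) (Nat.mul c.one c.one))))
    (Nat.mul qd (perr MY eY MY eY))

/-- the polynomial `c0 + c1 X` -/
noncomputable def lp (c0 c1 : ℕ) : ℤ[X] := C (c0 : ℤ) + C (c1 : ℤ) * X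

theorem lp_natDegree (c0 c1 : ℕ) : (lp c0 c1).natDegree ≤ 1 := by
  unfold lp
  refine (natDegree_add_le _ _).trans (max_le (by simp) ?_)
  exact (natDegree_C_mul_le _ _).trans natDegree_X_le

theorem lp_eval (c0 c1 : ℕ) (B : ℕ) : (lp c0 c1).eval (B : ℤ) = ((c0 + c1 * B : ℕ) : ℤ) := by
  unfold lp; simp

theorem lp_aeval (c0 c1 : ℕ) (t : ℝ) : aeval t (lp c0 c1) = (c0 : ℝ) + c1 * t := by
  unfold lp; simp

theorem lp_nm (c0 c1 : ℕ) : nm (lp c0 c1) ≤ ((c0 + c1 : ℕ) : ℤ) := by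
  have h1 := nm_add (C (c0 : ℤ)) (C (c1 : ℤ) * X)
  have h2 : nm (C (c0 : ℤ)) = c0 := by
    have := nm_eq (C (c0 : ℤ)) 1 (by simp)
    rw [this]; simp
  have h3 : nm (C (c1 : ℤ) * X) = c1 := by
    rw [nm_C_mul]
    have : nm (X : ℤ[X]) = 1 := by
      have := nm_monomial_mul 1 1 (1 : ℤ[X])
      rw [monomial_one_one_eq_X, mul_one] at this
      rw [this]
      have h4 := nm_eq (1 : ℤ[X]) 1 (by simp)
      rw [h4]; simp
    rw [this]; simp
  unfold lp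
  push_cast
  linarith

/-- Taylor model of an affine function -/
theorem CT_lp (hp : 1 ≤ c.p) (c0 c1 : ℕ) (h : c0 + c1 ≤ c.Mx) (v : ℝ)
    (hv : (c.one : ℝ) * v = c0 + c1 * t) : CT c t (c0 + c1 * c.B) 0 (v : ℂ) := by
  refine ⟨lp c0 c1, 0, ?_, ?_, by simp, ?_, ?_⟩
  · rw [lp_eval]; simp
  · exact (lp_natDegree c0 c1).trans hp
  · rw [nm_zero, add_zero]
    exact (lp_nm c0 c1).trans (by exact_mod_cast h)
  · rw [lp_aeval, ← hv]; push_cast; simp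

include hc ht in
theorem pchk_spec (h1m : c.one ≤ c.Mx) (hp : 1 ≤ c.p) (c0 c1 LW lm eL Wb Mb eb qn qd : ℕ)
    (h4 : 4 * (c.Mx * c.Mx) ≤ c.H)
    (h01 : c0 + c1 ≤ c.Mx) (θ : ℝ) (hcos : (c.one : ℝ) * Real.cos (θ / 2) = c0 + c1 * t)
    (L b : ℂ) (hL : CT c t LW eL L) (hb : CT c t Wb eb b) (hLm : (c.one : ℝ) * ‖L‖ ≤ lm)
    (hbm : (c.one : ℝ) * ‖b‖ ≤ Mb)
    (h : pchk c (c0 + c1 * c.B) LW lm eL Wb Mb eb qn qd = true) :
    (qn : ℝ) * (2 * Real.sin (θ / 2)) ^ 2 < qd * ‖L * b‖ ^ 2 := by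
  have hone := hc.hone
  have honeR : (0 : ℝ) < c.one := by exact_mod_cast hone
  have honeC : (c.one : ℂ) ≠ 0 := by exact_mod_cast hone.ne'
  have hMx : 0 < c.Mx := by omega
  have hMH : c.Mx < c.H := by nlinarith
  have hMM : 1 * (c.Mx * c.Mx) < c.H := by nlinarith
  unfold pchk at h
  have h1 := (hL.mulS hc hb (lm : ℝ) Mb hLm hbm).mono
    (E' := ((lm * eb + Mb * eL + eL * eb : ℕ) : ℝ)) (by push_cast; linarith)
  obtain ⟨YW, ks, er, h2, h2k, h3, _⟩ := h1.nrm hc ht hMM c.one hone _ le_rfl _ h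
  simp only [frc_eq, chk_true, Nat.ble_eq] at h2
  obtain ⟨g1, g2⟩ := h2
  have hv : (c.one : ℂ) * L * (c.one * b) / (c.one * c.one) = L * b := by field_simp
  rw [hv] at h3
  have h3' : CT c t YW ((lm * eb + Mb * eL + eL * eb) / c.one + 1 + er) (L * b) := h3.mono h2k le_rfl
  have eeY : Nat.add (Nat.add (Nat.div (Nat.add (Nat.add (Nat.mul lm eb) (Nat.mul Mb eL))
    (Nat.mul eL eb)) c.one) 1) er =
    (lm * eb + Mb * eL + eL * eb) / c.one + 1 + er := rfl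
  rw [eeY] at g2
  set eY := (lm * eb + Mb * eL + eL * eb) / c.one + 1 + er with heY
  have eMY : Nat.succ (Nat.div (Nat.mul lm Mb) c.one) = lm * Mb / c.one + 1 := rfl
  rw [eMY] at g2
  set MY := lm * Mb / c.one + 1 with hMY
  have hMYn : (c.one : ℝ) * ‖L * b‖ ≤ (MY : ℕ) := by
    rw [norm_mul]
    have e1 : (c.one : ℝ) * (‖L‖ * ‖b‖) =
      (c.one * ‖L‖) * (c.one * ‖b‖) / c.one := by field_simp
    rw [e1]
    have e2 : (c.one * ‖L‖) * (c.one * ‖b‖) ≤ (lm : ℝ) * Mb :=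
      mul_le_mul hLm hbm (by positivity) (by positivity)
    have e3 := div_floor (lm * Mb) c.one hone
    have e4 : (c.one * ‖L‖) * (c.one * ‖b‖) / c.one ≤ ((lm * Mb : ℕ) : ℝ) / c.one := by
      apply div_le_div_of_nonneg_right _ honeR.le
      push_cast
      exact e2
    rw [hMY]
    push_cast at e3 e4 ⊢
    linarith
  have hcj := h3'.conj hc hMH
  have hMYn' : (c.one : ℝ) * ‖(starRingEnd ℂ) (L * b)‖ ≤ (MY : ℕ) := by
    rw [Complex.norm_conj]; exact hMYn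
  obtain ⟨f, g, a1, a2, a3, a4, a5⟩ := h3'.mulS hc hcj MY MY hMYn hMYn'
  simp only [Nat.cast_one, one_mul] at a4
  have n3 := nm_nonneg f
  have n4 := nm_nonneg g
  -- the combined polynomial
  set q := lp c0 c1 with hq
  set F : ℤ[X] := C (qd : ℤ) * f + C ((4 * qn : ℕ) : ℤ) * (q * q) - C ((4 * qn * (c.one * c.one) : ℕ) : ℤ)
    with hF
  set G : ℤ[X] := C (qd : ℤ) * g with hG
  have hqn : nm q ≤ (c.Mx : ℤ) := (lp_nm c0 c1).trans (by exact_mod_cast h01)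
  have hqd : q.natDegree ≤ 1 := lp_natDegree c0 c1
  have hFd : F.natDegree ≤ 2 * c.p := by
    refine (natDegree_sub_le _ _).trans (max_le ?_ ((natDegree_C _).le.trans (Nat.zero_le _)))
    refine (natDegree_add_le _ _).trans (max_le ?_ ?_)
    · exact (natDegree_C_mul_le _ _).trans a2
    · refine (natDegree_C_mul_le _ _).trans (natDegree_mul_le.trans ?_)
      omega
  have hGd : G.natDegree ≤ 2 * c.p := (natDegree_C_mul_le _ _).trans a3
  have g1' : (qd + 8 * qn) * (c.Mx * c.Mx) < c.H := g1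
  have gZ : ((qd : ℤ) + 8 * qn) * (c.Mx * c.Mx) < c.H := by exact_mod_cast g1'
  have hqq : nm q * nm q ≤ (c.Mx : ℤ) * c.Mx :=
    mul_le_mul hqn hqn (nm_nonneg _) (by positivity)
  have hoo : (c.one : ℤ) * c.one ≤ (c.Mx : ℤ) * c.Mx := by
    have : (c.one : ℤ) ≤ c.Mx := by exact_mod_cast h1m
    exact mul_le_mul this this (by positivity) (by positivity)
  have hfle : nm f ≤ (c.Mx : ℤ) * c.Mx := by linarith
  have hgle : nm g ≤ (c.Mx : ℤ) * c.Mx := by linarith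
  have hqd0 : (0 : ℤ) ≤ qd := by positivity
  have hqn0 : (0 : ℤ) ≤ qn := by positivity
  have hFn : nm F < (c.H : ℤ) := by
    have h1 := nm_sub (C (qd : ℤ) * f + C ((4 * qn : ℕ) : ℤ) * (q * q))
      (C ((4 * qn * (c.one * c.one) : ℕ) : ℤ))
    have h2 := nm_add (C (qd : ℤ) * f) (C ((4 * qn : ℕ) : ℤ) * (q * q))
    have h3 : nm (C (qd : ℤ) * f) = qd * nm f := by
      rw [nm_C_mul, abs_of_nonneg hqd0]
    have h4 : nm (C ((4 * qn : ℕ) : ℤ) * (q * q)) = (4 * qn : ℤ) * nm (q * q) := by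
      rw [nm_C_mul, abs_of_nonneg (by positivity)]; push_cast; ring
    have h5 : nm (C ((4 * qn * (c.one * c.one) : ℕ) : ℤ)) = 4 * qn * (c.one * c.one) := by
      have := nm_eq (C ((4 * qn * (c.one * c.one) : ℕ) : ℤ)) 1 (by rw [natDegree_C]; exact one_pos)
      rw [this, Finset.sum_range_one, coeff_C_zero, abs_of_nonneg (by positivity)]
      push_cast; ring
    have h6 := nm_mul q q
    have h7 : (4 * qn : ℤ) * nm (q * q) ≤ 4 * qn * (c.Mx * c.Mx) :=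
      mul_le_mul_of_nonneg_left (h6.trans hqq) (by positivity)
    have h8 : (4 * qn : ℤ) * (c.one * c.one) ≤ 4 * qn * (c.Mx * c.Mx) :=
      mul_le_mul_of_nonneg_left hoo (by positivity)
    have h9 : (qd : ℤ) * nm f ≤ qd * (c.Mx * c.Mx) := mul_le_mul_of_nonneg_left hfle hqd0
    rw [hF]
    nlinarith
  have hGn : nm G < (c.H : ℤ) := by
    have h3 : nm G = qd * nm g := by
      rw [hG, nm_C_mul, abs_of_nonneg hqd0]
    have h9 : (qd : ℤ) * nm g ≤ qd * (c.Mx * c.Mx) := mul_le_mul_of_nonneg_left hgle hqd0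
    have h10 : (0 : ℤ) ≤ 8 * qn * (c.Mx * c.Mx) := by positivity
    rw [h3]
    nlinarith
  have hoN : 4 * qn * (c.one * c.one) ≤ c.N := by
    have e1 : 4 * qn * (c.one * c.one) ≤ (qd + 8 * qn) * (c.Mx * c.Mx) :=
      Nat.mul_le_mul (by omega) (Nat.mul_le_mul h1m h1m)
    have e2 : c.H ≤ c.BL := by
      rw [hc.hBL, hc.hB]
      calc c.H ≤ 2 * c.H := by omega
        _ = (2 * c.H) ^ 1 := (pow_one _).symm
        _ ≤ (2 * c.H) ^ (2 * c.p + 1) := Nat.pow_le_pow_right (by have := hc.hH; omega) (by omega)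
    have := hc.BL_lt_N
    omega
  have eSF : Nat.add (Nat.add (Nat.mul qd (Nat.mul YW (cjW c YW))) (Nat.mul (Nat.mul 4 qn)
    (Nat.mul (c0 + c1 * c.B) (c0 + c1 * c.B)))) (Nat.sub c.N (Nat.mul (Nat.mul 4 qn) (Nat.mul c.one c.one))) =
    qd * (YW * cjW c YW) + 4 * qn * ((c0 + c1 * c.B) * (c0 + c1 * c.B)) +
      (c.N - 4 * qn * (c.one * c.one)) := rfl
  rw [eSF] at g2
  have hrep : (((qd * (YW * cjW c YW) + 4 * qn * ((c0 + c1 * c.B) * (c0 + c1 * c.B)) +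
      (c.N - 4 * qn * (c.one * c.one)) : ℕ)) : ℤ) ≡
      F.eval (c.B : ℤ) + c.BL * G.eval (c.B : ℤ) [ZMOD c.N] := by
    rw [Nat.cast_add, Nat.cast_sub hoN, Nat.cast_add, Nat.cast_mul qd, Nat.cast_mul (4 * qn),
      Nat.cast_mul (c0 + c1 * c.B), ← lp_eval c0 c1 c.B, hF, hG, eval_sub, eval_add, eval_mul,
      eval_mul, eval_mul, eval_mul, eval_C, eval_C, eval_C]
    have h2 := (a1.mul_left (qd : ℤ))
    rw [Int.modEq_iff_dvd] at h2 ⊢
    obtain ⟨r, hr⟩ := h2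
    refine ⟨r - 1, ?_⟩
    linear_combination hr
  have hlow := lowR_spec hc ht F G hFd hGd hFn hGn _ hrep _ g2
  have e2 : ((Nat.mul qd (perr MY eY MY eY) : ℕ) : ℝ) = qd * (MY * eY + MY * eY + eY * eY) := by
    have : Nat.mul qd (perr MY eY MY eY) = qd * perr MY eY MY eY := rfl
    rw [this, Nat.cast_mul, perr_eq]
  rw [e2] at hlow
  have hFt : aeval t F = qd * aeval t f + 4 * qn * ((c.one : ℝ) * Real.cos (θ / 2)) ^ 2 -
      4 * qn * (c.one * c.one) := by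
    rw [hF, map_sub, map_add, map_mul, map_mul, map_mul, hcos, ← lp_aeval c0 c1 t, ← hq,
      aeval_C, aeval_C, aeval_C]
    simp only [eq_intCast]
    push_cast
    ring
  rw [hFt] at hlow
  have e3 : (c.one : ℂ) * (L * b) * (c.one * (starRingEnd ℂ) (L * b)) =
      (((c.one : ℝ) * c.one * ‖L * b‖ ^ 2 : ℝ) : ℂ) := by
    have := Complex.mul_conj (L * b)
    rw [Complex.normSq_eq_norm_sq] at this
    push_cast at this ⊢
    linear_combination (c.one : ℂ) * c.one * this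
  rw [e3] at a5
  have r1 := (Complex.abs_re_le_norm _).trans a5
  rw [Complex.sub_re, Complex.ofReal_re, cv_re] at r1
  have r1' := (abs_le.mp r1).1
  have hsc := Real.sin_sq_add_cos_sq (θ / 2)
  have hqdR : (0 : ℝ) ≤ qd := by positivity
  have r2 : (qd : ℝ) * (aeval t f - (MY * eY + MY * eY + eY * eY)) ≤
      qd * (c.one * c.one * ‖L * b‖ ^ 2) := mul_le_mul_of_nonneg_left (by linarith) hqdR
  have r3 : 0 < (c.one : ℝ) * c.one * (qd * ‖L * b‖ ^ 2 - qn * (2 * Real.sin (θ / 2)) ^ 2) := by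
    have e5 : Real.cos (θ / 2) ^ 2 = 1 - Real.sin (θ / 2) ^ 2 := by linarith
    have e6 : 4 * (qn : ℝ) * ((c.one : ℝ) * Real.cos (θ / 2)) ^ 2 =
      4 * qn * (c.one * c.one) - c.one * c.one * (qn * (2 * Real.sin (θ / 2)) ^ 2) := by
      rw [mul_pow, e5]; ring
    rw [e6] at hlow
    have e7 : (c.one : ℝ) * c.one * (qd * ‖L * b‖ ^ 2 - qn * (2 * Real.sin (θ / 2)) ^ 2) =
      qd * (c.one * c.one * ‖L * b‖ ^ 2) - c.one * c.one * (qn * (2 * Real.sin (θ / 2)) ^ 2) := by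
      ring
    rw [e7]
    rw [mul_sub] at r2
    linarith
  have r4 := (pos_iff_pos_of_mul_pos r3).mp (by positivity)
  linarith

end MP_d1b55a.K
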