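import Pool.Agent.Lib.MP_d1b55a_co.KFun

/-!
MP_d1b55a_co, P4: the Taylor models of `sin (θ/2)` and `e^{iθ/2}` on a cell
`cos (θ/2) = (c0 + c1 t)/one`.
-/

open Finset Polynomial

namespace MP_d1b55a.K

variable {c : Cfg} (hc : c.Ok) {t : ℝ} (ht : |t| ≤ 1)

/-- sum of a list -/
def sml (l : List ℕ) : ℕ := List.rec (motive := fun _ => ℕ) 0 (fun a _ ih => Nat.add a ih) l

theorem sml_eq (l : List ℕ) : sml l = l.sum := by
  induction l with
  | nil => rfl
  | cons a l ih => rw [List.sum_cons, ← ih]; rfl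

/-- length of a list -/
def lng (l : List ℕ) : ℕ := List.rec (motive := fun _ => ℕ) 0 (fun _ _ ih => Nat.succ ih) l

theorem lng_eq (l : List ℕ) : lng l = l.length := by
  induction l with
  | nil => rfl
  | cons a l ih => rw [List.length_cons, ← ih]; rfl

/-- the start of every computation: Taylor models of `sin (θ/2)` and `e^{iθ/2}` -/
def base (c : Cfg) (c0 c1 : ℕ) (sp sn : List ℕ) (fl : ℕ) (k : ℕ → ℕ → ℕ → Bool) : Bool :=
  chk (Nat.ble (pk c.B sn) c.N) <|
  chk (Nat.ble (Nat.add (Nat.add c0 c1) (Nat.add (sml sp) (sml sn))) c.Mx) <|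
  chk (Nat.ble c.one c.Mx) <|
  chk (Nat.ble (Nat.mul 4 (Nat.mul c.Mx c.Mx)) c.H) <|
  chk (Nat.ble (lng sp) (Nat.succ c.p)) <|
  chk (Nat.ble (lng sn) (Nat.succ c.p)) <|
  chk (Nat.ble 1 c.p) <|
  chk (Nat.ble 1 fl) <|
  frc (Nat.mod (Nat.add (pk c.B sp) (Nat.sub c.N (pk c.B sn))) c.N) fun WS =>
  chk (lowR c WS fl) <|
  frc (Nat.add c0 (Nat.mul c1 c.B)) fun WC =>
  frc (Nat.add (Nat.div (upR c (Nat.add (Nat.add (Nat.mul WS WS) (Nat.mul WC WC))
    (Nat.sub c.N (Nat.mul c.one c.one)))) fl) 1) fun eS =>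
  k WS eS (Nat.add WC (Nat.mul c.BL WS))

theorem one_sq_le (h1 : c.one ≤ c.Mx) (h4 : 4 * (c.Mx * c.Mx) ≤ c.H) (hc : c.Ok) :
    c.one * c.one ≤ c.N := by
  have h2 : c.one * c.one ≤ c.Mx * c.Mx := Nat.mul_le_mul h1 h1
  have h5 := hc.BL_lt_N
  have h6 : c.H ≤ c.BL := by
    rw [hc.hBL, hc.hB]
    calc c.H ≤ 2 * c.H := by omega
      _ = (2 * c.H) ^ 1 := (pow_one _).symm
      _ ≤ (2 * c.H) ^ (2 * c.p + 1) := Nat.pow_le_pow_right (by have := hc.hH; omega) (by omega)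
  omega

include hc ht in
theorem base_spec (c0 c1 : ℕ) (sp sn : List ℕ) (fl : ℕ) (k : ℕ → ℕ → ℕ → Bool)
    (θ : ℝ) (hcos : (c.one : ℝ) * Real.cos (θ / 2) = c0 + c1 * t) (hsin : 0 ≤ Real.sin (θ / 2))
    (h : base c c0 c1 sp sn fl k = true) :
    ∃ WS eS, k WS eS ((c0 + c1 * c.B) + c.BL * WS) = true ∧
      CT c t WS eS ((Real.sin (θ / 2) : ℝ) : ℂ) ∧
      CT c t ((c0 + c1 * c.B) + c.BL * WS) eS (Complex.exp (((θ / 2 : ℝ) : ℂ) * Complex.I)) ∧
      c.one ≤ c.Mx ∧ 4 * (c.Mx * c.Mx) ≤ c.H ∧ 1 ≤ c.p ∧ c0 + c1 ≤ c.Mx := by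
  unfold base at h
  simp only [chk_true, frc_eq, Nat.ble_eq, sml_eq, lng_eq] at h
  obtain ⟨g1, g2, g3, g4, g5, g6, g7, g8, g9, g10⟩ := h
  have g2' : c0 + c1 + (sp.sum + sn.sum) ≤ c.Mx := g2
  have g4' : 4 * (c.Mx * c.Mx) ≤ c.H := g4
  have g5' : sp.length ≤ c.p + 1 := g5
  have g6' : sn.length ≤ c.p + 1 := g6
  set WS := (pk c.B sp + (c.N - pk c.B sn)) % c.N with hWS
  have eWS : Nat.mod (Nat.add (pk c.B sp) (Nat.sub c.N (pk c.B sn))) c.N = WS := rfl
  rw [eWS] at g9 g10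
  set f := tp sp - tp sn with hf
  have hfd : f.natDegree ≤ c.p := by
    refine (natDegree_sub_le _ _).trans (max_le ?_ ?_)
    · have := tp_natDegree sp; omega
    · have := tp_natDegree sn; omega
  have hfn : nm f ≤ ((sp.sum + sn.sum : ℕ) : ℤ) := by
    have h1 := nm_sub (tp sp) (tp sn)
    have h2 := tp_nm sp
    have h3 := tp_nm sn
    rw [Nat.cast_add]
    linarith
  have hfM : nm f ≤ (c.Mx : ℤ) := by
    have : ((sp.sum + sn.sum : ℕ) : ℤ) ≤ c.Mx := by exact_mod_cast (by omega : sp.sum + sn.sum ≤ c.Mx)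
    linarith
  have hMH : (c.Mx : ℤ) * c.Mx * 4 ≤ c.H := by
    have : c.Mx * c.Mx * 4 ≤ c.H := by omega
    exact_mod_cast this
  have hone := hc.hone
  have hMx1 : (1 : ℤ) ≤ c.Mx := by exact_mod_cast (by omega : 1 ≤ c.Mx)
  have hMxH : (c.Mx : ℤ) < c.H := by nlinarith
  have hrep : (WS : ℤ) ≡ f.eval (c.B : ℤ) [ZMOD c.N] := by
    refine (mod_congr _ _).trans ?_
    rw [Nat.cast_add, Nat.cast_sub g1, hf, eval_sub, tp_eval, tp_eval, Int.modEq_iff_dvd]
    exact ⟨-1, by ring⟩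
  have hrep' : (WS : ℤ) ≡ f.eval (c.B : ℤ) + c.BL * (0 : ℤ[X]).eval (c.B : ℤ) [ZMOD c.N] := by
    simpa using hrep
  have hlow := lowR_spec hc ht f 0 (by omega) (by simp) (by linarith) (by rw [nm_zero]; linarith)
    WS hrep' fl g9
  have hfl : (1 : ℝ) ≤ fl := by exact_mod_cast g8
  -- the residual
  set WC := c0 + c1 * c.B with hWC
  have eWC : Nat.add c0 (Nat.mul c1 c.B) = WC := rfl
  rw [eWC] at g10
  set q : ℤ[X] := C (c0 : ℤ) + C (c1 : ℤ) * X with hq
  have hqd : q.natDegree ≤ c.p := by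
    refine (natDegree_add_le _ _).trans (max_le (by simp) ?_)
    exact (natDegree_C_mul_le _ _).trans (natDegree_X_le.trans g7)
  have hqe : q.eval (c.B : ℤ) = (WC : ℤ) := by
    rw [hq, eval_add, eval_C, eval_mul, eval_C, eval_X, hWC]; push_cast; ring
  have hqn : nm q ≤ ((c0 + c1 : ℕ) : ℤ) := by
    have h1 := nm_add (C (c0 : ℤ)) (C (c1 : ℤ) * X)
    have h2 : nm (C (c0 : ℤ)) = c0 := by
      have := nm_eq (C (c0 : ℤ)) 1 (by simp)
      rw [this]; simp
    have h3 : nm (C (c1 : ℤ) * X) = c1 := by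
      rw [nm_C_mul]
      have : nm (X : ℤ[X]) = 1 := by
        have := nm_monomial_mul 1 1 (1 : ℤ[X])
        rw [monomial_one_one_eq_X, mul_one] at this
        rw [this]
        have h4 := nm_eq (1 : ℤ[X]) 1 (by simp)
        rw [h4]; simp
      rw [this]; simp
    push_cast
    linarith
  have hqt : aeval t q = (c.one : ℝ) * Real.cos (θ / 2) := by
    rw [hcos, hq]; simp
  set F : ℤ[X] := f * f + q * q - C ((c.one : ℤ) * c.one) with hF
  have hcn : nm q ≤ (c.Mx : ℤ) := by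
    have : ((c0 + c1 : ℕ) : ℤ) ≤ c.Mx := by exact_mod_cast (by omega : c0 + c1 ≤ c.Mx)
    linarith
  have hFd : F.natDegree ≤ 2 * c.p := by
    refine (natDegree_sub_le _ _).trans (max_le ?_ ((natDegree_C _).le.trans (Nat.zero_le _)))
    refine (natDegree_add_le _ _).trans (max_le ?_ ?_)
    · exact natDegree_mul_le.trans (by omega)
    · exact natDegree_mul_le.trans (by omega)
  have hFn : nm F < (c.H : ℤ) := by
    have h1 := nm_sub (f * f + q * q) (C ((c.one : ℤ) * c.one))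
    have h2 := nm_add (f * f) (q * q)
    have h3 := nm_mul f f
    have h4 := nm_mul q q
    have h5 : nm (C ((c.one : ℤ) * c.one)) = (c.one : ℤ) * c.one := by
      have := nm_eq (C ((c.one : ℤ) * c.one)) 1 (by rw [natDegree_C]; exact one_pos)
      rw [this, Finset.sum_range_one, coeff_C_zero]
      exact abs_of_nonneg (by positivity)
    have h6 : nm f * nm f ≤ (c.Mx : ℤ) * c.Mx :=
      mul_le_mul hfM hfM (nm_nonneg _) (by linarith)
    have h7 : nm q * nm q ≤ (c.Mx : ℤ) * c.Mx :=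
      mul_le_mul hcn hcn (nm_nonneg _) (by linarith)
    have h8 : (c.one : ℤ) * c.one ≤ (c.Mx : ℤ) * c.Mx := by
      have : (c.one : ℤ) ≤ c.Mx := by exact_mod_cast g3
      exact mul_le_mul this this (by positivity) (by linarith)
    nlinarith
  have h1sq : c.one * c.one ≤ c.N := one_sq_le g3 g4' hc
  set SF := WS * WS + WC * WC + (c.N - c.one * c.one) with hSF
  have eSF : Nat.add (Nat.add (Nat.mul WS WS) (Nat.mul WC WC)) (Nat.sub c.N (Nat.mul c.one c.one)) =
    SF := rfl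
  rw [eSF] at g10
  have hrepF : (SF : ℤ) ≡ F.eval (c.B : ℤ) + c.BL * (0 : ℤ[X]).eval (c.B : ℤ) [ZMOD c.N] := by
    rw [hSF, Nat.cast_add, Nat.cast_sub h1sq, Nat.cast_add, Nat.cast_mul, Nat.cast_mul, Nat.cast_mul,
      hF, eval_sub, eval_add, eval_mul, eval_mul, eval_C, hqe, eval_zero, mul_zero, add_zero]
    have h2 := hrep.mul hrep
    have h3 := h2.add_right ((WC : ℤ) * WC + (c.N - c.one * c.one))
    refine (Int.ModEq.trans ?_ h3).trans ?_
    · rw [show (WS : ℤ) * WS + WC * WC + (c.N - c.one * c.one) =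
        WS * WS + (WC * WC + (c.N - c.one * c.one)) by ring]
    · rw [Int.modEq_iff_dvd]
      exact ⟨-1, by ring⟩
  have hup := upR_spec hc ht F 0 hFd (by simp) hFn (by rw [nm_zero]; linarith) SF hrepF
  set u := upR c SF with hu
  refine ⟨WS, u / fl + 1, ?_, ?_, ?_, g3, g4', g7, by omega⟩
  · exact g10
  all_goals
    have hsc := Real.sin_sq_add_cos_sq (θ / 2)
    have hFt : aeval t F = aeval t f ^ 2 - ((c.one : ℝ) * Real.sin (θ / 2)) ^ 2 := by
      rw [hF, map_sub, map_add, map_mul, map_mul, hqt]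
      rw [aeval_C]
      simp only [eq_intCast]
      push_cast
      have : Real.cos (θ / 2) ^ 2 = 1 - Real.sin (θ / 2) ^ 2 := by linarith
      linear_combination (c.one : ℝ) ^ 2 * this
    have hoS : 0 ≤ (c.one : ℝ) * Real.sin (θ / 2) := by positivity
    have hdiff : |(c.one : ℝ) * Real.sin (θ / 2) - aeval t f| ≤ ((u / fl + 1 : ℕ) : ℝ) := by
      have h1 : |aeval t f - (c.one : ℝ) * Real.sin (θ / 2)| * fl ≤ u := by
        calc |aeval t f - (c.one : ℝ) * Real.sin (θ / 2)| * fl ≤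
            |aeval t f - (c.one : ℝ) * Real.sin (θ / 2)| *
              |aeval t f + (c.one : ℝ) * Real.sin (θ / 2)| := by
              apply mul_le_mul_of_nonneg_left _ (abs_nonneg _)
              rw [abs_of_pos (by linarith)]
              linarith
          _ = |aeval t F| := by rw [← abs_mul, hFt]; congr 1; ring
          _ ≤ u := hup
      have h2 := div_floor u fl (by omega)
      have h3 : |aeval t f - (c.one : ℝ) * Real.sin (θ / 2)| ≤ (u : ℝ) / fl := by
        rw [le_div_iff₀ (by linarith)]; exact h1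
      rw [abs_sub_comm]
      push_cast
      linarith
  · refine ⟨f, 0, hrep', hfd, by simp, by rw [nm_zero, add_zero]; exact hfM, ?_⟩
    have : (c.one : ℂ) * ((Real.sin (θ / 2) : ℝ) : ℂ) - (((aeval t f : ℝ) : ℂ) +
        ((aeval t (0 : ℤ[X]) : ℝ) : ℂ) * Complex.I) =
        (((c.one : ℝ) * Real.sin (θ / 2) - aeval t f : ℝ) : ℂ) := by
      rw [map_zero]; push_cast; ring
    rw [this, Complex.norm_real]
    exact hdiff
  · refine ⟨q, f, ?_, hqd, hfd, ?_, ?_⟩
    · rw [hqe, Nat.cast_add, Nat.cast_mul]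
      exact (hrep.mul_left _).add_left _
    · have : ((c0 + c1 : ℕ) : ℤ) + ((sp.sum + sn.sum : ℕ) : ℤ) ≤ c.Mx := by exact_mod_cast g2'
      linarith
    · have : (c.one : ℂ) * Complex.exp (((θ / 2 : ℝ) : ℂ) * Complex.I) -
          (((aeval t q : ℝ) : ℂ) + ((aeval t f : ℝ) : ℂ) * Complex.I) =
          (((c.one : ℝ) * Real.sin (θ / 2) - aeval t f : ℝ) : ℂ) * Complex.I := by
        rw [hqt, Complex.exp_mul_I, ← Complex.ofReal_cos, ← Complex.ofReal_sin]
        push_cast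
        ring
      rw [this, norm_mul, Complex.norm_I, mul_one, Complex.norm_real]
      exact hdiff

end MP_d1b55a.K
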