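import Pool.Agent.Lib.MP_d1b55a_co.KB

/-!
MP_d1b55a_co, P4: the computation of the values `a_k` on one cell and its meaning.
-/

open Finset Polynomial

namespace MP_d1b55a.K

variable {c : Cfg} (hc : c.Ok) {t : ℝ} (ht : |t| ≤ 1)

/-- polynomial with integer coefficients from two lists -/
noncomputable def t2 (lp ln : List ℕ) : ℤ[X] := tp lp - tp ln

theorem t2_natDegree (lp ln : List ℕ) (m : ℕ) (h1 : lp.length ≤ m + 1) (h2 : ln.length ≤ m + 1) :
    (t2 lp ln).natDegree ≤ m := by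
  unfold t2
  refine (natDegree_sub_le _ _).trans (max_le ?_ ?_)
  · have := tp_natDegree lp; omega
  · have := tp_natDegree ln; omega

theorem t2_nm (lp ln : List ℕ) : nm (t2 lp ln) ≤ ((lp.sum + ln.sum : ℕ) : ℤ) := by
  unfold t2
  have h1 := nm_sub (tp lp) (tp ln)
  have h2 := tp_nm lp
  have h3 := tp_nm ln
  rw [Nat.cast_add]
  linarith

theorem t2_rep (c : Cfg) (lp ln : List ℕ) (h : pk c.B ln ≤ c.N) :
    (((pk c.B lp + (c.N - pk c.B ln)) % c.N : ℕ) : ℤ) ≡ (t2 lp ln).eval (c.B : ℤ) [ZMOD c.N] := by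
  refine (mod_congr _ _).trans ?_
  unfold t2
  rw [Nat.cast_add, Nat.cast_sub h, eval_sub, tp_eval, tp_eval, Int.modEq_iff_dvd]
  exact ⟨-1, by ring⟩

/-- start of both computations: additionally the scale `ℓ` and `λ = ℓ sin (θ/2)` -/
def base2 (c : Cfg) (c0 c1 : ℕ) (sp sn : List ℕ) (fl : ℕ) (lp ln : List ℕ) (lo : ℕ)
    (k : ℕ → ℕ → ℕ → ℕ → ℕ → ℕ → ℕ → ℕ → Bool) : Bool :=
  base c c0 c1 sp sn fl fun WS eS WO =>
  frc (Nat.add (sml lp) (sml ln)) fun lb =>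
  chk (Nat.ble lb c.Mx) <|
  chk (Nat.ble (lng lp) (Nat.succ c.p)) <|
  chk (Nat.ble (lng ln) (Nat.succ c.p)) <|
  chk (Nat.ble (pk c.B ln) c.N) <|
  frc (Nat.mod (Nat.add (pk c.B lp) (Nat.sub c.N (pk c.B ln))) c.N) fun WL =>
  chk (lowR c WL lo) <|
  nrmC c (Nat.mul WL WS) c.one fun LW kL erL =>
  frc (Nat.add (Nat.add (Nat.div (Nat.mul lb eS) c.one) 1) erL) fun eL =>
  k WS eS WO LW kL eL lb WL

/-- the run for the values `a_k`, `k ≤ n + 2`, index `n + 1` -/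
def aRun (c : Cfg) (c0 c1 : ℕ) (sp sn : List ℕ) (fl : ℕ) (lp ln : List ℕ) (lo n qn qd : ℕ) : Bool :=
  base2 c c0 c1 sp sn fl lp ln lo fun _ eS WO LW kL eL _ _ =>
  chk (Nat.ble (Nat.succ (Nat.mul (Nat.succ n) (Nat.mul c.Mx c.Mx))) c.H) <|
  frc (Nat.add kL eL) fun lm =>
  nrmC c (Nat.mul WO WO) c.one fun Y _ erY =>
  frc (Nat.add (Nat.add (Nat.div (Nat.add (Nat.mul (Nat.mul 2 c.one) eS) (Nat.mul eS eS)) c.one) 1)
    erY) fun ey =>
  nrmC c (Nat.mul LW Y) c.one fun z kz erz =>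
  frc (Nat.add (Nat.add (Nat.div (Nat.add (Nat.add (Nat.mul lm ey) (Nat.mul c.one eL))
    (Nat.mul eL ey)) c.one) 1) erz) fun ez =>
  aL c lm Y ey n 1 [] [] [] c.one c.one 0 [c.one] [c.one] [c.one] z kz ez LW kL eL
    fun AW AM AS Wb Mb eb bW bM bS QW eQ =>
  stA c lm (Nat.succ n) AW AM AS Wb Mb eb bW bM bS QW eQ fun _ _ _ W' M' e' =>
  chk (rchk2 c W' M' e' Wb Mb eb) <|
  frc (Nat.add c0 (Nat.mul c1 c.B)) fun WC => pchk c WC LW lm eL Wb Mb eb qn qd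

include hc ht in
theorem base2_spec (c0 c1 : ℕ) (sp sn : List ℕ) (fl : ℕ) (lp ln : List ℕ) (lo : ℕ)
    (k : ℕ → ℕ → ℕ → ℕ → ℕ → ℕ → ℕ → ℕ → Bool)
    (θ : ℝ) (hcos : (c.one : ℝ) * Real.cos (θ / 2) = c0 + c1 * t) (hsin : 0 ≤ Real.sin (θ / 2))
    (ℓ : ℝ) (hℓ : (c.one : ℝ) * ℓ = aeval t (t2 lp ln))
    (h : base2 c c0 c1 sp sn fl lp ln lo k = true) :
    ∃ WS eS LW kL eL lb WL, k WS eS ((c0 + c1 * c.B) + c.BL * WS) LW kL eL lb WL = true ∧
      CT c t WS eS ((Real.sin (θ / 2) : ℝ) : ℂ) ∧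
      CT c t ((c0 + c1 * c.B) + c.BL * WS) eS (Complex.exp (((θ / 2 : ℝ) : ℂ) * Complex.I)) ∧
      c.one ≤ c.Mx ∧ 4 * (c.Mx * c.Mx) ≤ c.H ∧ 1 ≤ c.p ∧ c0 + c1 ≤ c.Mx ∧
      (lo : ℝ) < c.one * ℓ ∧ lb ≤ c.Mx ∧ kL ≤ c.Mx ∧
      CQ c t LW kL eL ((ℓ * Real.sin (θ / 2) : ℝ) : ℂ) ∧
      (c.one : ℝ) * ‖((ℓ * Real.sin (θ / 2) : ℝ) : ℂ)‖ ≤ ((kL + eL : ℕ) : ℝ) ∧
      (c.one : ℝ) * ℓ ≤ lb ∧ lb = lp.sum + ln.sum ∧
      ((WL : ℤ) ≡ (t2 lp ln).eval (c.B : ℤ) [ZMOD c.N]) ∧ (t2 lp ln).natDegree ≤ c.p ∧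
      nm (t2 lp ln) ≤ (lb : ℤ) := by
  have hone := hc.hone
  have honeR : (0 : ℝ) < c.one := by exact_mod_cast hone
  have honeC : (c.one : ℂ) ≠ 0 := by exact_mod_cast hone.ne'
  unfold base2 at h
  obtain ⟨WS, eS, h1, h2, h3, h4, h5, h6, h7⟩ := base_spec hc ht c0 c1 sp sn fl _ θ hcos hsin h
  simp only [chk_true, frc_eq, Nat.ble_eq, sml_eq, lng_eq] at h1
  obtain ⟨g1, g2, g3, g4, g5, g6⟩ := h1
  set lb := lp.sum + ln.sum with hlb
  have g1' : lb ≤ c.Mx := g1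
  have g2' : lp.length ≤ c.p + 1 := g2
  have g3' : ln.length ≤ c.p + 1 := g3
  set WL := (pk c.B lp + (c.N - pk c.B ln)) % c.N with hWL
  have eWL : Nat.mod (Nat.add (pk c.B lp) (Nat.sub c.N (pk c.B ln))) c.N = WL := rfl
  rw [eWL] at g5 g6
  have hrep : (WL : ℤ) ≡ (t2 lp ln).eval (c.B : ℤ) [ZMOD c.N] := t2_rep c lp ln g4
  have hdeg : (t2 lp ln).natDegree ≤ c.p := t2_natDegree lp ln c.p g2' g3'
  have hnm : nm (t2 lp ln) ≤ (lb : ℤ) := t2_nm lp ln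
  have hMM : 1 * (c.Mx * c.Mx) < c.H := by
    have := hc.hone
    nlinarith
  have hMxH : (c.Mx : ℤ) < c.H := by
    have : c.Mx < c.H := by nlinarith
    exact_mod_cast this
  have hlbM : (lb : ℤ) ≤ c.Mx := by exact_mod_cast g1'
  have hlow := lowR_spec hc ht (t2 lp ln) 0 (by omega) (by simp) (by linarith)
    (by rw [nm_zero]; have := hc.hH; exact_mod_cast this) WL (by simpa using hrep) lo g5
  rw [← hℓ] at hlow
  have hlo0 : (0 : ℝ) ≤ lo := by positivity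
  have hℓ0 : 0 < ℓ := by
    have : 0 < (c.one : ℝ) * ℓ := by linarith
    exact (pos_iff_pos_of_mul_pos this).mp honeR
  have hℓle : (c.one : ℝ) * ℓ ≤ (lb : ℝ) := by
    rw [hℓ]
    refine (le_abs_self _).trans ((abs_aev_le _ t ht).trans ?_)
    exact_mod_cast hnm
  have hℓm : (c.one : ℝ) * ‖((ℓ : ℝ) : ℂ)‖ ≤ (lb : ℝ) := by
    rw [Complex.norm_real, Real.norm_eq_abs, abs_of_pos hℓ0]
    exact hℓle
  have hsm : (c.one : ℝ) * ‖((Real.sin (θ / 2) : ℝ) : ℂ)‖ ≤ (c.one : ℝ) := by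
    rw [Complex.norm_real, Real.norm_eq_abs]
    have := Real.abs_sin_le_one (θ / 2)
    nlinarith
  have hCl : CT c t WL 0 ((ℓ : ℝ) : ℂ) := by
    refine ⟨t2 lp ln, 0, by simpa using hrep, hdeg, by simp, by rw [nm_zero]; linarith, ?_⟩
    rw [← hℓ]; push_cast; simp
  have h8 := (hCl.mulS hc h2 (lb : ℝ) c.one hℓm hsm).mono
    (E' := ((lb * eS : ℕ) : ℝ)) (by push_cast; linarith)
  obtain ⟨LW, kL, erL, h9, h10, h11, h12⟩ := h8.nrm hc ht hMM c.one hone _ le_rfl _ g6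
  have hv : (c.one : ℂ) * ((ℓ : ℝ) : ℂ) * (c.one * ((Real.sin (θ / 2) : ℝ) : ℂ)) / (c.one * c.one) =
      ((ℓ * Real.sin (θ / 2) : ℝ) : ℂ) := by
    push_cast; field_simp
  rw [hv] at h11 h12
  have h12' : (c.one : ℝ) * ‖((ℓ * Real.sin (θ / 2) : ℝ) : ℂ)‖ ≤
      ((kL + (lb * eS / c.one + 1 + erL) : ℕ) : ℝ) := by
    rw [Nat.cast_add]; exact h12
  exact ⟨WS, eS, LW, kL, _, lb, WL, h9, h2, h3, h4, h5, h6, h7, hlow, g1', h10, h11, h12', hℓle,
    hlb, hrep, hdeg, hnm⟩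

/-- from the checks to `GoodAt` -/
theorem goodAt_of_pos (y : ℂ) (m : ℕ) (s : ℝ) (hs : 0 < s)
    (h : 0 < ((av (m + 1) y * s) * (starRingEnd ℂ) (av m y)).re +
      ((av (m + 1) y * s) * (starRingEnd ℂ) (av m y)).im) : GoodAt m y := by
  constructor
  · intro h0
    rw [h0] at h
    simp at h
  · intro l hl h1
    have h2 : av (m + 1) y = -(l : ℂ) * av m y := by linear_combination h1
    have h3 : (av (m + 1) y * s) * (starRingEnd ℂ) (av m y) =
      (((-(l * s) * Complex.normSq (av m y) : ℝ)) : ℂ) := by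
      rw [h2]
      have := Complex.mul_conj (av m y)
      push_cast
      linear_combination (-(l : ℂ) * s) * this
    rw [h3, Complex.ofReal_re, Complex.ofReal_im, add_zero] at h
    have h4 := Complex.normSq_nonneg (av m y)
    have h5 : 0 ≤ l * s * Complex.normSq (av m y) := by positivity
    linarith

include hc ht in
theorem aRun_spec (c0 c1 : ℕ) (sp sn : List ℕ) (fl : ℕ) (lp ln : List ℕ) (lo n qn qd : ℕ)
    (θ : ℝ) (hcos : (c.one : ℝ) * Real.cos (θ / 2) = c0 + c1 * t) (hsin : 0 < Real.sin (θ / 2))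
    (ℓ : ℝ) (hℓ : (c.one : ℝ) * ℓ = aeval t (t2 lp ln))
    (h : aRun c c0 c1 sp sn fl lp ln lo n qn qd = true) :
    (∀ m, 1 ≤ m → m < n + 1 → GoodAt m (yy θ)) ∧
    0 < (av (n + 2) (yy θ) * (starRingEnd ℂ) (av (n + 1) (yy θ))).re ∧
    (qn : ℝ) * (2 * Real.sin (θ / 2)) ^ 2 <
      qd * ((ℓ * Real.sin (θ / 2)) ^ (n + 1) * ‖av (n + 1) (yy θ)‖) ^ 2 := by
  have hone := hc.hone
  have honeR : (0 : ℝ) < c.one := by exact_mod_cast hone
  have honeC : (c.one : ℂ) ≠ 0 := by exact_mod_cast hone.ne'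
  unfold aRun at h
  obtain ⟨WS, eS, LW, kL, eL, lb, WL, h1, h2, h3, h4, h5, h6, h7, h8, h9, h10, h11, h12, _, _, _, _⟩ :=
    base2_spec hc ht c0 c1 sp sn fl lp ln lo _ θ hcos hsin.le ℓ hℓ h
  have hℓ0 : 0 < ℓ := by
    have h20 : (0 : ℝ) ≤ lo := by positivity
    have : 0 < (c.one : ℝ) * ℓ := by linarith
    exact (pos_iff_pos_of_mul_pos this).mp honeR
  rw [chk_true, frc_eq, Nat.ble_eq] at h1
  obtain ⟨g1, g2⟩ := h1
  have g1' : (n + 1) * (c.Mx * c.Mx) < c.H := g1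
  have elm : Nat.add kL eL = kL + eL := rfl
  rw [elm] at g2
  set lm := kL + eL with hlm
  set lam : ℝ := ℓ * Real.sin (θ / 2) with hlam
  have hlam0 : 0 < lam := by positivity
  have hlamn : ‖(lam : ℂ)‖ = lam := by
    rw [Complex.norm_real, Real.norm_eq_abs, abs_of_pos hlam0]
  have hMM : 1 * (c.Mx * c.Mx) < c.H := by
    have := hc.hone
    nlinarith
  have hMx : 0 < c.Mx := by omega
  set y := yy θ with hy
  set om := Complex.exp (((θ / 2 : ℝ) : ℂ) * Complex.I) with hom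
  have hyom : y = om * om := by
    rw [hy, hom, yy, ← Complex.exp_add]
    congr 1
    push_cast
    ring
  have homn : ‖om‖ = 1 := Complex.norm_exp_ofReal_mul_I _
  have hyn : ‖y‖ = 1 := by rw [hyom, norm_mul, homn, one_mul]
  -- y
  have k1 := (h3.mulS hc h3 (c.one : ℝ) c.one (by rw [homn, mul_one]) (by rw [homn, mul_one])).mono
    (E' := ((2 * c.one * eS + eS * eS : ℕ) : ℝ)) (by push_cast; linarith)
  obtain ⟨Y, kY, erY, k2, k3, k4, _⟩ := k1.nrm hc ht hMM c.one hone _ le_rfl _ g2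
  have hv1 : (c.one : ℂ) * om * (c.one * om) / (c.one * c.one) = y := by
    rw [hyom]; field_simp
  rw [hv1] at k4
  have k4' : CT c t Y ((2 * c.one * eS + eS * eS) / c.one + 1 + erY) y := k4.mono k3 le_rfl
  rw [frc_eq] at k2
  have eey : Nat.add (Nat.add (Nat.div (Nat.add (Nat.mul (Nat.mul 2 c.one) eS) (Nat.mul eS eS))
    c.one) 1) erY = (2 * c.one * eS + eS * eS) / c.one + 1 + erY := rfl
  rw [eey] at k2
  set ey := (2 * c.one * eS + eS * eS) / c.one + 1 + erY with hey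
  -- z_1
  have h11C : CT c t LW eL (lam : ℂ) := h11.mono h10 le_rfl
  have k5 := (h11C.mulS hc k4' (lm : ℝ) c.one h12 (by rw [hyn, mul_one])).mono
    (E' := ((lm * ey + c.one * eL + eL * ey : ℕ) : ℝ)) (by push_cast; linarith)
  obtain ⟨z1, kz, erz, k6, k7, k8, _⟩ := k5.nrm hc ht hMM c.one hone _ le_rfl _ k2
  have hv2 : (c.one : ℂ) * lam * (c.one * y) / (c.one * c.one) = lam * y := by
    field_simp
  rw [hv2] at k8
  rw [frc_eq] at k6
  -- the sequences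
  set b : ℕ → ℂ := fun k => av k y * (lam : ℂ) ^ (k - 1) with hb
  set Q : ℕ → ℂ := fun k => (lam : ℂ) * ∑ j ∈ range k, y ^ j with hQ
  set z : ℕ → ℂ := fun k => (lam : ℂ) * y ^ k with hz
  set A : ℕ → ℂ := fun k => Q k * b k with hA
  have hseq : Seqs c lm A b z Q y := by
    refine ⟨fun m => rfl, ?_, ?_, ?_, ?_, ?_, hyn⟩
    · intro m
      have hr := av_rec m y
      simp only [hA, hQ, hb]
      have e1 : m + 2 - 1 = m + 1 := by omega
      rw [e1, ← mul_assoc, hr, sum_mul]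
      apply sum_congr rfl
      intro j hj
      rw [mem_range] at hj
      have e2 : m + 1 - j - 1 = m - j := by omega
      have e3 : j + 1 - 1 = j := by omega
      have e4 : (lam : ℂ) ^ (m + 1) = lam ^ j * lam ^ (m - j) * lam := by
        rw [← pow_add, ← pow_succ]; congr 1; omega
      rw [e2, e3, e4]
      ring
    · intro m
      simp only [hQ, hz]
      rw [sum_range_succ (fun j => y ^ j) (m + 1)]
      ring
    · intro m
      simp only [hz]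
      rw [pow_succ y (m + 1)]
      ring
    · intro m
      simp only [hQ]
      rw [norm_mul, hlamn]
      have e1 : ‖∑ j ∈ range (m + 1), y ^ j‖ ≤ (m : ℝ) + 1 := by
        refine (norm_sum_le _ _).trans ?_
        simp [norm_pow, hyn]
      rw [hlamn] at h12
      push_cast
      calc (c.one : ℝ) * (lam * ‖∑ j ∈ range (m + 1), y ^ j‖) =
          ‖∑ j ∈ range (m + 1), y ^ j‖ * (c.one * lam) := by ring
        _ ≤ ((m : ℝ) + 1) * lm := mul_le_mul e1 h12 (by positivity) (by positivity)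
    · intro m
      simp only [hz]
      rw [norm_mul, norm_pow, hyn, one_pow, mul_one]
      exact h12
  have hQ1 : Q 1 = lam := by simp [hQ]
  have hb1 : b 1 = 1 := by simp [hb, av_one]
  have hz1 : z 1 = lam * y := by simp [hz]
  have hCb : CT c t c.one 0 (b 1) := by
    rw [hb1]
    refine ⟨C (c.one : ℤ), 0, by simp, by simp, by simp, ?_, ?_⟩
    · rw [nm_zero, add_zero]
      have := nm_eq (C (c.one : ℤ)) 1 (by simp)
      rw [this]
      simpa using h4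
    · simp
  have hbm1 : (c.one : ℝ) * ‖b 1‖ ≤ (c.one : ℕ) := by rw [hb1]; simp
  obtain ⟨AW, AM, AS, Wb, Mb, eb, bW, bM, bS, QW, eQ, r1, r2, r3, r4, r5, r6, r7⟩ :=
    aL_spec hc ht h5 hMx lm Y ey A b z Q y hseq k4' _ n 0 [] [] [] c.one c.one 0 [c.one] [c.one]
      [c.one] z1 kz _ LW kL eL (by
        refine lt_of_le_of_lt (Nat.mul_le_mul_right _ ?_) g1'
        omega) TL.nil (TL.cons hCb hbm1 TL.nil) hCb hbm1 (by rw [hz1]; exact k8) k7
      (by rw [hQ1]; exact h11) h10 k6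
  rw [zero_add] at r2 r3 r4 r5 r6 r7
  obtain ⟨_, _, _, W', M', e', s1, _, s3, s4⟩ := stA_spec hc ht lm n g1' A b (Q (n + 1)) r2 r3 r4 r5
    r6 (hseq.hQn n) (hseq.hA n) (hseq.hb n) _ r1
  rw [chk_true, frc_eq] at s1
  obtain ⟨s5, s6⟩ := s1
  have s7 := rchk2_spec hc ht h5 hMx s3 r4 s4 r5 s5
  have s8 := pchk_spec hc ht h4 h6 c0 c1 LW lm eL Wb Mb eb qn qd h5 h7 θ hcos (lam : ℂ) (b (n + 1))
    h11C r4 h12 r5 s6
  refine ⟨?_, ?_, ?_⟩
  · intro m hm1 hm2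
    have s9 := r7 m (by omega) (by omega)
    apply goodAt_of_pos y m (lam ^ m * lam ^ (m - 1)) (by positivity)
    have e1 : b (m + 1) * (starRingEnd ℂ) (b m) =
        av (m + 1) y * ((lam ^ m * lam ^ (m - 1) : ℝ) : ℂ) * (starRingEnd ℂ) (av m y) := by
      simp only [hb]
      rw [map_mul, map_pow, Complex.conj_ofReal, Nat.add_sub_cancel]
      push_cast
      ring
    rw [e1] at s9
    exact s9
  · have e1 : b (n + 2) * (starRingEnd ℂ) (b (n + 1)) =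
        ((lam ^ (n + 1) * lam ^ n : ℝ) : ℂ) * (av (n + 2) y * (starRingEnd ℂ) (av (n + 1) y)) := by
      simp only [hb]
      rw [map_mul, map_pow, Complex.conj_ofReal, Nat.add_sub_cancel]
      have e2 : n + 2 - 1 = n + 1 := by omega
      rw [e2]
      push_cast
      ring
    rw [e1, Complex.re_ofReal_mul] at s7
    exact (pos_iff_pos_of_mul_pos s7).mp (by positivity)
  · have e1 : ‖(lam : ℂ) * b (n + 1)‖ = lam ^ (n + 1) * ‖av (n + 1) y‖ := by
      simp only [hb]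
      rw [Nat.add_sub_cancel, norm_mul, norm_mul, norm_pow, hlamn]
      ring
    rw [e1] at s8
    exact s8

end MP_d1b55a.K
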