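import Pool.Agent.Lib.MP_d1b55a_co.KDig

/-!
MP_d1b55a_co, P4: packed integer arithmetic for the kernel, part 2: polynomials with integer
coefficients, packed in one natural number modulo `N = B^(2L) + 1`, and their rounding.
-/

open Finset Polynomial

namespace MP_d1b55a.K

/-! ### the `ℓ¹` norm of an integer polynomial -/

/-- the `ℓ¹` norm -/
noncomputable def nm (f : ℤ[X]) : ℤ := ∑ i ∈ range (f.natDegree + 1), |f.coeff i|

theorem nm_eq (f : ℤ[X]) (n : ℕ) (hn : f.natDegree < n) : nm f = ∑ i ∈ range n, |f.coeff i| := by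
  unfold nm
  apply sum_subset
  · intro i hi
    rw [mem_range] at hi ⊢; omega
  · intro i _ hi
    rw [mem_range] at hi
    rw [coeff_eq_zero_of_natDegree_lt (by omega), abs_zero]

theorem nm_nonneg (f : ℤ[X]) : 0 ≤ nm f := sum_nonneg fun _ _ => abs_nonneg _

theorem nm_add (f g : ℤ[X]) : nm (f + g) ≤ nm f + nm g := by
  set n := max f.natDegree g.natDegree + 1 with hn
  rw [nm_eq (f + g) n (by have := natDegree_add_le f g; omega), nm_eq f n (by omega),
    nm_eq g n (by omega), ← sum_add_distrib]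
  apply sum_le_sum
  intro i _
  rw [coeff_add]
  exact abs_add_le _ _

theorem nm_neg (f : ℤ[X]) : nm (-f) = nm f := by
  unfold nm; simp

theorem nm_sub (f g : ℤ[X]) : nm (f - g) ≤ nm f + nm g := by
  rw [sub_eq_add_neg, ← nm_neg g]; exact nm_add _ _

theorem nm_zero : nm 0 = 0 := by simp [nm]

theorem nm_sum {ι : Type*} (s : Finset ι) (f : ι → ℤ[X]) : nm (∑ i ∈ s, f i) ≤ ∑ i ∈ s, nm (f i) := by
  classical
  induction s using Finset.induction_on with
  | empty => simp [nm_zero]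
  | insert a s ha ih =>
    rw [sum_insert ha, sum_insert ha]
    exact (nm_add _ _).trans (by linarith)

theorem coeff_le_nm (f : ℤ[X]) (i : ℕ) : |f.coeff i| ≤ nm f := by
  by_cases h : i ≤ f.natDegree
  · unfold nm
    exact single_le_sum (f := fun i => |f.coeff i|) (fun _ _ => abs_nonneg _)
      (mem_range.mpr (by omega))
  · rw [coeff_eq_zero_of_natDegree_lt (by omega), abs_zero]
    exact nm_nonneg f

theorem nm_monomial_mul (a : ℤ) (k : ℕ) (g : ℤ[X]) : nm (monomial k a * g) = |a| * nm g := by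
  have h1 : (monomial k a * g).natDegree < k + (g.natDegree + 1) := by
    have := natDegree_mul_le (p := monomial k a) (q := g)
    have h2 := natDegree_monomial_le a (m := k)
    omega
  rw [nm_eq _ _ h1]
  unfold nm
  rw [sum_range_add]
  have h2 : ∑ i ∈ range k, |(monomial k a * g).coeff i| = 0 := by
    apply sum_eq_zero
    intro i hi
    rw [mem_range] at hi
    rw [← C_mul_X_pow_eq_monomial, mul_assoc, coeff_C_mul, coeff_X_pow_mul', if_neg (by omega),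
      mul_zero, abs_zero]
  rw [h2, zero_add, mul_sum]
  apply sum_congr rfl
  intro i _
  rw [← C_mul_X_pow_eq_monomial, mul_assoc, coeff_C_mul, coeff_X_pow_mul', if_pos (by omega),
    Nat.add_sub_cancel_left, abs_mul]

theorem nm_mul (f g : ℤ[X]) : nm (f * g) ≤ nm f * nm g := by
  conv_lhs => rw [as_sum_range f, sum_mul]
  refine (nm_sum _ _).trans ?_
  unfold nm
  rw [sum_mul]
  apply sum_le_sum
  intro i _
  exact (nm_monomial_mul _ _ _).le

theorem nm_C_mul (a : ℤ) (g : ℤ[X]) : nm (C a * g) = |a| * nm g := by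
  rw [← monomial_zero_left]; exact nm_monomial_mul a 0 g

theorem aev_eq (f : ℤ[X]) (n : ℕ) (hn : f.natDegree < n) (t : ℝ) :
    aeval t f = ∑ i ∈ range n, (f.coeff i : ℝ) * t ^ i := by
  rw [aeval_eq_sum_range' hn]
  simp

theorem abs_aev_le (f : ℤ[X]) (t : ℝ) (ht : |t| ≤ 1) : |aeval t f| ≤ (nm f : ℝ) := by
  rw [aev_eq f (f.natDegree + 1) (by omega) t, nm]
  push_cast
  refine (abs_sum_le_sum_abs _ _).trans ?_
  apply sum_le_sum
  intro i _
  rw [abs_mul, abs_pow]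
  calc |(f.coeff i : ℝ)| * |t| ^ i ≤ |(f.coeff i : ℝ)| * 1 := by
        gcongr
        exact pow_le_one₀ (abs_nonneg t) ht
    _ = _ := mul_one _

/-! ### configurations -/

structure Cfg where
  p : ℕ
  B : ℕ
  H : ℕ
  BL : ℕ
  N : ℕ
  OFR : ℕ
  OFC : ℕ
  ON : ℕ
  one : ℕ
  Mx : ℕ

structure Cfg.Ok (c : Cfg) : Prop where
  hH : 0 < c.H
  hB : c.B = 2 * c.H
  hBL : c.BL = c.B ^ (2 * c.p + 1)
  hN : c.N = c.BL * c.BL + 1
  hOFR : c.OFR = ∑ i ∈ range (2 * c.p + 1), c.H * c.B ^ i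
  hOFC : c.OFC = c.OFR + c.BL * c.OFR
  hON : c.ON = ∑ i ∈ range (c.p + 1), c.B ^ i
  hone : 0 < c.one

namespace Cfg.Ok
variable {c : Cfg} (hc : c.Ok)
include hc

theorem B_pos : 0 < c.B := by have := hc.hB; have := hc.hH; omega

theorem BL_pos : 0 < c.BL := by rw [hc.hBL]; exact Nat.pow_pos hc.B_pos

theorem OFR_lt : c.OFR < c.BL := by
  rw [hc.hOFR, hc.hBL]
  exact sum_lt_pow c.B (fun _ => c.H) (fun _ => by have := hc.hB; have := hc.hH; omega) _

theorem ON_le : c.H * c.ON < c.BL := by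
  rw [hc.hON, hc.hBL, mul_sum]
  have h1 := sum_lt_pow c.B (fun _ => c.H) (fun _ => by have := hc.hB; have := hc.hH; omega)
    (c.p + 1)
  refine lt_of_lt_of_le h1 (Nat.pow_le_pow_right hc.B_pos (by omega))

theorem BL_lt_N : c.BL < c.N := by
  rw [hc.hN]
  have := hc.BL_pos
  nlinarith

/-- the polynomial part of a packed number with offset -/
theorem off_eq (f : ℤ[X]) (hf : f.natDegree ≤ 2 * c.p) :
    f.eval (c.B : ℤ) + (c.OFR : ℤ) =
      ∑ i ∈ range (2 * c.p + 1), (f.coeff i + c.H) * (c.B : ℤ) ^ i := by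
  rw [eval_eq_sum_range' (show f.natDegree < 2 * c.p + 1 by omega), hc.hOFR]
  push_cast
  rw [← sum_add_distrib]
  apply sum_congr rfl
  intro i _
  ring

end Cfg.Ok

/-- natural digits of a polynomial with offset -/
def wd (c : Cfg) (f : ℤ[X]) (i : ℕ) : ℕ := (f.coeff i + c.H).toNat

theorem wd_cast (c : Cfg) (f : ℤ[X]) (hb : ∀ i, |f.coeff i| < c.H) (i : ℕ) :
    ((wd c f i : ℕ) : ℤ) = f.coeff i + c.H := by
  unfold wd
  rw [Int.toNat_of_nonneg]
  have := (abs_lt.mp (hb i)).1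
  linarith

theorem wd_lt (c : Cfg) (hc : c.Ok) (f : ℤ[X]) (hb : ∀ i, |f.coeff i| < c.H) (i : ℕ) :
    wd c f i < c.B := by
  have h1 := wd_cast c f hb i
  have h2 := (abs_lt.mp (hb i)).2
  have h3 : ((wd c f i : ℕ) : ℤ) < (c.B : ℤ) := by
    rw [h1, hc.hB]; push_cast; linarith
  exact_mod_cast h3

theorem off_nat (c : Cfg) (hc : c.Ok) (f : ℤ[X]) (hf : f.natDegree ≤ 2 * c.p)
    (hb : ∀ i, |f.coeff i| < c.H) :
    f.eval (c.B : ℤ) + (c.OFR : ℤ) = ((∑ i ∈ range (2 * c.p + 1), wd c f i * c.B ^ i : ℕ) : ℤ) := by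
  rw [hc.off_eq f hf]
  push_cast
  apply sum_congr rfl
  intro i _
  rw [wd_cast c f hb]

theorem off_lt (c : Cfg) (hc : c.Ok) (f : ℤ[X]) (hb : ∀ i, |f.coeff i| < c.H) :
    ∑ i ∈ range (2 * c.p + 1), wd c f i * c.B ^ i < c.BL := by
  rw [hc.hBL]
  exact sum_lt_pow c.B _ (wd_lt c hc f hb) _

/-- recovery of a real packed polynomial -/
theorem recR (c : Cfg) (hc : c.Ok) (f : ℤ[X]) (hf : f.natDegree ≤ 2 * c.p)
    (hb : ∀ i, |f.coeff i| < c.H) (S : ℕ) (hS : (S : ℤ) ≡ f.eval (c.B : ℤ) [ZMOD c.N]) :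
    (S + c.OFR) % c.N = ∑ i ∈ range (2 * c.p + 1), wd c f i * c.B ^ i := by
  have h1 := off_nat c hc f hf hb
  have h2 := off_lt c hc f hb
  have h3 : (((S + c.OFR : ℕ)) : ℤ) ≡
      ((∑ i ∈ range (2 * c.p + 1), wd c f i * c.B ^ i : ℕ) : ℤ) [ZMOD c.N] := by
    rw [← h1]; push_cast
    exact hS.add_right _
  have h4 := (Int.natCast_modEq_iff.mp h3)
  rw [Nat.ModEq] at h4
  rw [h4]
  exact Nat.mod_eq_of_lt (h2.trans hc.BL_lt_N)

/-- recovery of a complex packed polynomial -/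
theorem recC (c : Cfg) (hc : c.Ok) (f g : ℤ[X]) (hf : f.natDegree ≤ 2 * c.p)
    (hg : g.natDegree ≤ 2 * c.p) (hb : ∀ i, |f.coeff i| < c.H) (hb' : ∀ i, |g.coeff i| < c.H)
    (S : ℕ) (hS : (S : ℤ) ≡ f.eval (c.B : ℤ) + c.BL * g.eval (c.B : ℤ) [ZMOD c.N]) :
    (S + c.OFC) % c.N % c.BL = ∑ i ∈ range (2 * c.p + 1), wd c f i * c.B ^ i ∧
    (S + c.OFC) % c.N / c.BL = ∑ i ∈ range (2 * c.p + 1), wd c g i * c.B ^ i := by
  have h1 := off_nat c hc f hf hb
  have h1' := off_nat c hc g hg hb'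
  have h2 := off_lt c hc f hb
  have h2' := off_lt c hc g hb'
  set F := ∑ i ∈ range (2 * c.p + 1), wd c f i * c.B ^ i with hF
  set G := ∑ i ∈ range (2 * c.p + 1), wd c g i * c.B ^ i with hG
  have h3 : (((S + c.OFC : ℕ)) : ℤ) ≡ ((F + c.BL * G : ℕ) : ℤ) [ZMOD c.N] := by
    push_cast
    rw [← h1, ← h1', hc.hOFC]
    push_cast
    have := hS.add_right ((c.OFR : ℤ) + c.BL * c.OFR)
    refine this.trans ?_
    have e : f.eval (c.B : ℤ) + c.BL * g.eval (c.B : ℤ) + ((c.OFR : ℤ) + c.BL * c.OFR) =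
      f.eval (c.B : ℤ) + c.OFR + c.BL * (g.eval (c.B : ℤ) + c.OFR) := by ring
    rw [e]
  have h4 := (Int.natCast_modEq_iff.mp h3)
  rw [Nat.ModEq] at h4
  have h5 : F + c.BL * G < c.N := by
    rw [hc.hN]
    have : c.BL * G + c.BL ≤ c.BL * c.BL := by
      calc c.BL * G + c.BL = c.BL * (G + 1) := by ring
        _ ≤ c.BL * c.BL := Nat.mul_le_mul_left _ h2'
    omega
  rw [h4, Nat.mod_eq_of_lt h5]
  constructor
  · rw [Nat.add_mul_mod_self_left, Nat.mod_eq_of_lt h2]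
  · rw [Nat.add_mul_div_left _ _ hc.BL_pos, Nat.div_eq_of_lt h2, zero_add]

/-! ### rounding of a block -/

theorem dg_block (c : Cfg) (hc : c.Ok) (f : ℤ[X]) (hb : ∀ i, |f.coeff i| < c.H) (j : ℕ)
    (hj : j < 2 * c.p + 1) :
    dg c.B j (∑ i ∈ range (2 * c.p + 1), wd c f i * c.B ^ i) = wd c f j := by
  have := dg_sum c.B hc.B_pos (wd c f) (wd_lt c hc f hb) (2 * c.p + 1) 0 j hj
  rwa [zero_mul, add_zero] at this

/-- the rounded polynomial -/
noncomputable def rd (c : Cfg) (f : ℤ[X]) (D : ℕ) : ℤ[X] :=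
  ∑ i ∈ range (c.p + 1), monomial i (((wd c f i / D : ℕ) : ℤ) - ((c.H / D : ℕ) : ℤ))

theorem rd_coeff (c : Cfg) (f : ℤ[X]) (D i : ℕ) :
    (rd c f D).coeff i =
      if i < c.p + 1 then ((wd c f i / D : ℕ) : ℤ) - ((c.H / D : ℕ) : ℤ) else 0 := by
  unfold rd
  rw [finsetSum_coeff]
  simp only [coeff_monomial]
  rw [Finset.sum_ite_eq']
  simp

theorem rd_natDegree (c : Cfg) (f : ℤ[X]) (D : ℕ) : (rd c f D).natDegree ≤ c.p := by
  rw [natDegree_le_iff_coeff_eq_zero]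
  intro i hi
  rw [rd_coeff, if_neg (by omega)]

theorem rd_eval (c : Cfg) (hc : c.Ok) (f : ℤ[X]) (D : ℕ) (x : ℤ) (hx : x = c.B) :
    (rd c f D).eval x =
      ((∑ i ∈ range (c.p + 1), wd c f i / D * c.B ^ i : ℕ) : ℤ) - ((c.H / D * c.ON : ℕ) : ℤ) := by
  subst hx
  unfold rd
  rw [eval_finsetSum]
  simp only [eval_monomial]
  rw [hc.hON]
  push_cast
  rw [mul_sum, ← sum_sub_distrib]
  apply sum_congr rfl
  intro i _
  ring

theorem rd_nm (c : Cfg) (f : ℤ[X]) (D : ℕ) :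
    nm (rd c f D) = ((∑ i ∈ range (c.p + 1), ad (wd c f i / D) (c.H / D) : ℕ) : ℤ) := by
  rw [nm_eq _ (c.p + 1) (by have := rd_natDegree c f D; omega)]
  push_cast
  apply sum_congr rfl
  intro i hi
  rw [mem_range] at hi
  rw [rd_coeff, if_pos hi, ad_cast]

theorem round_err (w H D : ℕ) (hD : 0 < D) :
    |((w : ℝ) - H) / D - (((w / D : ℕ) : ℝ) - ((H / D : ℕ) : ℝ))| ≤ 1 := by
  have hD' : (0 : ℝ) < D := by exact_mod_cast hD
  have h : ∀ x : ℕ, 0 ≤ (x : ℝ) / D - ((x / D : ℕ) : ℝ) ∧ (x : ℝ) / D - ((x / D : ℕ) : ℝ) ≤ 1 := by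
    intro x
    constructor
    · have := Nat.cast_div_le (α := ℝ) (m := x) (n := D)
      linarith
    · have h1 : x < D * (x / D) + D := by
        have := Nat.div_add_mod x D
        have := Nat.mod_lt x hD
        omega
      have h2 : (x : ℝ) < D * ((x / D : ℕ) : ℝ) + D := by exact_mod_cast h1
      have h3 : (x : ℝ) / D < ((x / D : ℕ) : ℝ) + 1 := by
        rw [div_lt_iff₀ hD']; linarith
      linarith
  have h1 := h w
  have h2 := h H
  rw [sub_div, abs_le]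
  constructor <;> linarith [h1.1, h1.2, h2.1, h2.2]

theorem rd_err (c : Cfg) (f : ℤ[X]) (hf : f.natDegree ≤ 2 * c.p)
    (hb : ∀ i, |f.coeff i| < c.H) (D : ℕ) (hD : 0 < D) (t : ℝ) (ht : |t| ≤ 1) :
    |aeval t f / D - aeval t (rd c f D)| ≤
      (c.p + 1 : ℕ) + ((∑ i ∈ range c.p, ad (wd c f (c.p + 1 + i)) c.H : ℕ) : ℝ) / D := by
  have hD' : (0 : ℝ) < D := by exact_mod_cast hD
  rw [aev_eq f (2 * c.p + 1) (by omega) t,
    aev_eq (rd c f D) (c.p + 1) (by have := rd_natDegree c f D; omega) t]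
  have h0 : 2 * c.p + 1 = (c.p + 1) + c.p := by ring
  rw [h0, sum_range_add, add_div]
  have h1 : (∑ i ∈ range (c.p + 1), (f.coeff i : ℝ) * t ^ i) / D -
      ∑ i ∈ range (c.p + 1), ((rd c f D).coeff i : ℝ) * t ^ i =
      ∑ i ∈ range (c.p + 1), ((f.coeff i : ℝ) / D - ((rd c f D).coeff i : ℝ)) * t ^ i := by
    rw [sum_div, ← sum_sub_distrib]
    apply sum_congr rfl
    intro i _
    ring
  have hti : ∀ i : ℕ, |t ^ i| ≤ 1 := fun i => by
    rw [abs_pow]; exact pow_le_one₀ (abs_nonneg t) ht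
  have h2 : |∑ i ∈ range (c.p + 1), ((f.coeff i : ℝ) / D - ((rd c f D).coeff i : ℝ)) * t ^ i| ≤
      (c.p + 1 : ℕ) := by
    refine (abs_sum_le_sum_abs _ _).trans ?_
    have h3 : ∀ i ∈ range (c.p + 1),
        |((f.coeff i : ℝ) / D - ((rd c f D).coeff i : ℝ)) * t ^ i| ≤ 1 := by
      intro i hi
      rw [mem_range] at hi
      rw [abs_mul, rd_coeff, if_pos hi]
      have h4 := round_err (wd c f i) c.H D hD
      have h5 : ((wd c f i : ℕ) : ℝ) = (f.coeff i : ℝ) + c.H := by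
        exact_mod_cast wd_cast c f hb i
      rw [h5, add_sub_cancel_right] at h4
      push_cast
      calc _ ≤ 1 * 1 := mul_le_mul h4 (hti i) (abs_nonneg _) zero_le_one
        _ = 1 := one_mul 1
    refine (sum_le_sum h3).trans ?_
    simp
  have h3 : |(∑ i ∈ range c.p, (f.coeff (c.p + 1 + i) : ℝ) * t ^ (c.p + 1 + i)) / D| ≤
      ((∑ i ∈ range c.p, ad (wd c f (c.p + 1 + i)) c.H : ℕ) : ℝ) / D := by
    rw [abs_div, abs_of_pos hD']
    apply div_le_div_of_nonneg_right _ hD'.le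
    refine (abs_sum_le_sum_abs _ _).trans ?_
    rw [Nat.cast_sum]
    apply sum_le_sum
    intro i _
    rw [abs_mul]
    have h5 : ((ad (wd c f (c.p + 1 + i)) c.H : ℕ) : ℝ) = |(f.coeff (c.p + 1 + i) : ℝ)| := by
      have h6 := ad_cast (wd c f (c.p + 1 + i)) c.H
      rw [wd_cast c f hb, add_sub_cancel_right] at h6
      exact_mod_cast h6
    rw [h5]
    calc _ ≤ |(f.coeff (c.p + 1 + i) : ℝ)| * 1 :=
          mul_le_mul_of_nonneg_left (hti _) (abs_nonneg _)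
      _ = _ := mul_one _
  rw [add_sub_right_comm, h1]
  exact (abs_add_le _ _).trans (add_le_add h2 h3)

end MP_d1b55a.K
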