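import Pool.Agent.Lib.MP_d1b55a_co.KK

/-!
MP_d1b55a_co, P4: data of cells, verified by the kernel.
-/

namespace MP_d1b55a.K

/-- cell 0, angles about 0.00299 to 0.00337 -/
def z00 : Cell where
  c0 := 72057502576706047
  c1 := 10935974829
  sp := [114808287283740, 0, 0, 0, 0, 0, 0]
  sn := [0, 6863781814565, 205175172926, 12266341168, 916675248, 76724492, 6880433]
  fl := 107618337611232
  lp := [16975317853675393024, 1001271088549794432, 89654803370576640, 8927163361936725, 950412229427200, 102303677781333]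
  ln := [0, 0, 0, 0, 0, 0]
  lo := 15872824641277628416
  pn := 198
  pd := 240
  N := ⟨63, 369, 408, 919, 640, 3707, 21, 189, 188, 155⟩
  Cn0 := 521
  Cd0 := 512
  Bp0 := [0, 0, 0, 0, 0, 0, 0, 0, 0, 0, 0, 0, 0, 0, 2057, 4297, 6207, 7816, 9149, 10222, 11048, 11636, 11992, 12116, 12006, 11654, 11047, 10161, 8956, 7366, 5270, 2417, 0, 0]
  Bn0 := [509767, 214460, 129401, 89212, 65475, 49551, 37967, 29067, 21961, 16131, 11256, 7123, 3589, 554, 0, 0, 0, 0, 0, 0, 0, 0, 0, 0, 0, 0, 0, 0, 0, 0, 0, 0, 1857, 10489]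
  M0 := 729
  En0 := 1169511
  Cn1 := 1065
  Cd1 := 1024
  Bp1 := [0, 0, 0, 0, 0, 11407, 32888, 46137, 53423, 56273, 55786, 52797, 47963, 41818, 34805, 27294, 19600, 11988, 4685, 0, 0, 0, 0, 0, 0, 0, 0, 0, 0, 0, 0, 0, 0, 0, 1110, 6593, 11924, 16828, 20981, 23981, 25319, 24295, 19851, 10113, 0, 0]
  Bn1 := [803917, 324784, 160201, 74169, 22003, 0, 0, 0, 0, 0, 0, 0, 0, 0, 0, 0, 0, 0, 0, 2120, 8268, 13633, 18114, 21635, 24148, 25626, 26065, 25483, 23920, 21438, 18119, 14066, 9407, 4291, 0, 0, 0, 0, 0, 0, 0, 0, 0, 0, 9251, 55666]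
  M1 := 756
  En1 := 1974259
  rn := 1057070
  rd := 1048576

theorem z00_A : z00.A c6 = true := by decide +kernel

theorem z00_X0 : z00.X0 c6 = true := by decide +kernel

theorem z00_X1 : z00.X1 c6 = true := by decide +kernel

theorem z00_F : z00.F c6 = true := by decide +kernel

end MP_d1b55a.K
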