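import Pool.Agent.Lib.MP_d1b55a_co.KK

/-!
MP_d1b55a_co, P4: data of cells, verified by the kernel.
-/

namespace MP_d1b55a.K

/-- cell 1, angles about 0.00337 to 0.00380 -/
def z01 : Cell where
  c0 := 72057477734370982
  c1 := 13906360237
  sp := [129464649452271, 0, 0, 0, 0, 0, 0]
  sn := [0, 7740006614803, 231367775055, 13832255499, 1033697409, 86519085, 7758784]
  fl := 121356836516803
  lp := [15078828456933638144, 888401668308534656, 79539034590410304, 7919469143953407, 843100232491008, 90750256878933]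
  ln := [0, 0, 0, 0, 0, 0]
  lo := 14100624230957930496
  pn := 201
  pd := 240
  N := ⟨63, 341, 418, 931, 661, 3618, 20, 189, 188, 155⟩
  Cn0 := 261
  Cd0 := 256
  Bp0 := [0, 0, 0, 0, 0, 0, 0, 0, 0, 0, 0, 0, 27, 3277, 6038, 8366, 10303, 11882, 13125, 14052, 14673, 14998, 15029, 14765, 14199, 13316, 12091, 10484, 8428, 5811, 2420, 0, 0, 0]
  Bn0 := [524577, 222303, 134172, 92031, 66867, 49826, 37335, 27681, 19946, 13591, 8279, 3790, 0, 0, 0, 0, 0, 0, 0, 0, 0, 0, 0, 0, 0, 0, 0, 0, 0, 0, 0, 2193, 9244, 24327]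
  M0 := 652
  En0 := 1184734
  Cn1 := 1069
  Cd1 := 1024
  Bp1 := [0, 0, 0, 0, 0, 21663, 42945, 55305, 61243, 62458, 60187, 55371, 48754, 40939, 32421, 23612, 14855, 6434, 0, 0, 0, 0, 0, 0, 0, 0, 0, 0, 0, 0, 0, 0, 0, 362, 6225, 11941, 17254, 21873, 25461, 27613, 27819, 25381, 19233, 7448, 0, 0]
  Bn1 := [832264, 331488, 157779, 67042, 12558, 0, 0, 0, 0, 0, 0, 0, 0, 0, 0, 0, 0, 0, 1414, 8499, 14670, 19813, 23847, 26723, 28419, 28942, 28325, 26625, 23921, 20316, 15931, 10911, 5418, 0, 0, 0, 0, 0, 0, 0, 0, 0, 0, 0, 14562, 65825]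
  M1 := 679
  En1 := 2045553
  rn := 1057770
  rd := 1048576

theorem z01_A : z01.A c6 = true := by decide +kernel

theorem z01_X0 : z01.X0 c6 = true := by decide +kernel

theorem z01_X1 : z01.X1 c6 = true := by decide +kernel

theorem z01_F : z01.F c6 = true := by decide +kernel

end MP_d1b55a.K
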