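import Pool.Agent.Lib.MP_d1b55a_co.KK

/-!
MP_d1b55a_co, P4: data of cells, verified by the kernel.
-/

namespace MP_d1b55a.K

/-- cell 2, angles about 0.00380 to 0.00429 -/
def z02 : Cell where
  c0 := 72057446144461539
  c1 := 17683549206
  sp := [145992030099305, 0, 0, 0, 0, 0, 0]
  sn := [0, 8728088743526, 260904125283, 15598073110, 1165658478, 97564040, 8749263]
  fl := 136849181018418
  lp := [13396087319467012096, 788290114540914816, 70567075278431928, 7025735286668629, 747925406225749, 80503638084267]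
  ln := [0, 0, 0, 0, 0, 0]
  lo := 12528123027720155136
  pn := 204
  pd := 240
  N := ⟨63, 315, 425, 934, 661, 3519, 17, 189, 188, 172⟩
  Cn0 := 523
  Cd0 := 512
  Bp0 := [0, 0, 0, 0, 0, 0, 0, 0, 0, 0, 0, 0, 3143, 6545, 9398, 11764, 13686, 15198, 16326, 17089, 17500, 17567, 17294, 16678, 15710, 14372, 12633, 10442, 7716, 4308, 0, 0, 0, 0]
  Bn0 := [536906, 228809, 138080, 94281, 67902, 49911, 36651, 26365, 18106, 11318, 5655, 887, 0, 0, 0, 0, 0, 0, 0, 0, 0, 0, 0, 0, 0, 0, 0, 0, 0, 0, 55, 5961, 15028, 34796]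
  M0 := 585
  En0 := 1196601
  Cn1 := 1073
  Cd1 := 1024
  Bp1 := [0, 0, 0, 0, 0, 31722, 52055, 62851, 66872, 66016, 61669, 54889, 46509, 37194, 27486, 17820, 8552, 0, 0, 0, 0, 0, 0, 0, 0, 0, 0, 0, 0, 0, 0, 0, 0, 5261, 10340, 14961, 18908, 21949, 23838, 24297, 22990, 19470, 13042, 2396, 0, 0]
  Bn1 := [857738, 335706, 153364, 58581, 2533, 0, 0, 0, 0, 0, 0, 0, 0, 0, 0, 0, 0, 38, 7729, 14357, 19807, 24008, 26928, 28571, 28974, 28202, 26345, 23519, 19856, 15508, 10639, 5428, 62, 0, 0, 0, 0, 0, 0, 0, 0, 0, 0, 0, 15766, 55936]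
  M1 := 611
  En1 := 2119081
  rn := 1058532
  rd := 1048576

theorem z02_A : z02.A c6 = true := by decide +kernel

theorem z02_X0 : z02.X0 c6 = true := by decide +kernel

theorem z02_X1 : z02.X1 c6 = true := by decide +kernel

theorem z02_F : z02.F c6 = true := by decide +kernel

end MP_d1b55a.K
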