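import Pool.Agent.Lib.MP_d1b55a_co.KK

/-!
MP_d1b55a_co, P4: data of cells, verified by the kernel.
-/

namespace MP_d1b55a.K

/-- cell 3, angles about 0.00429 to 0.00483 -/
def z03 : Cell where
  c0 := 72057405974230354
  c1 := 22486681979
  sp := [164629279835989, 0, 0, 0, 0, 0, 0]
  sn := [0, 9842307358621, 294211090181, 17589313279, 1314465510, 110018975, 9866185]
  fl := 154319263985513
  lp := [11902935577968566272, 699492877110616576, 62609489418710144, 6233065101737301, 663514162364416, 71415924443819]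
  ln := [0, 0, 0, 0, 0, 0]
  lo := 11132751829729069056
  pn := 207
  pd := 240
  N := ⟨63, 291, 410, 932, 611, 3337, 14, 189, 188, 195⟩
  Cn0 := 1047
  Cd0 := 1024
  Bp0 := [0, 0, 0, 0, 0, 0, 0, 0, 0, 0, 0, 0, 3853, 7277, 10137, 12492, 14390, 15863, 16938, 17636, 17970, 17950, 17581, 16861, 15783, 14329, 12471, 10159, 7310, 3777, 0, 0, 0, 0]
  Bn0 := [538623, 229823, 138713, 94639, 68041, 49867, 36450, 26031, 17659, 10779, 5041, 216, 0, 0, 0, 0, 0, 0, 0, 0, 0, 0, 0, 0, 0, 0, 0, 0, 0, 0, 714, 6764, 16026, 36239]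
  M0 := 524
  En0 := 1196683
  Cn1 := 1077
  Cd1 := 1024
  Bp1 := [0, 0, 0, 0, 9700, 43536, 62299, 70835, 72238, 68656, 61668, 52476, 42019, 31037, 20118, 9720, 198, 0, 0, 0, 0, 0, 0, 0, 0, 0, 0, 0, 0, 0, 0, 2243, 6833, 10909, 14293, 16829, 18384, 18851, 18148, 16224, 13048, 8597, 2812, 0, 0, 0]
  Bn1 := [886333, 339276, 146972, 47767, 0, 0, 0, 0, 0, 0, 0, 0, 0, 0, 0, 0, 0, 8185, 15245, 20868, 25000, 27640, 28835, 28672, 27274, 24789, 21392, 17275, 12641, 7701, 2669, 0, 0, 0, 0, 0, 0, 0, 0, 0, 0, 0, 0, 4538, 14426, 32687]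
  M1 := 550
  En1 := 2159104
  rn := 1059358
  rd := 1048576

theorem z03_A : z03.A c6 = true := by decide +kernel

theorem z03_X0 : z03.X0 c6 = true := by decide +kernel

theorem z03_X1 : z03.X1 c6 = true := by decide +kernel

theorem z03_F : z03.F c6 = true := by decide +kernel

end MP_d1b55a.K
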