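import Pool.Agent.Lib.MP_d1b55a_co.KK

/-!
MP_d1b55a_co, P4: data of cells, verified by the kernel.
-/

namespace MP_d1b55a.K

/-- cell 4, angles about 0.00483 to 0.00545 -/
def z04 : Cell where
  c0 := 72057354893127936
  c1 := 28594420440
  sp := [185645739620191, 0, 0, 0, 0, 0, 0]
  sn := [0, 11098764269106, 331770031982, 19834752923, 1482268996, 124063880, 11125690]
  fl := 174019559354505
  lp := [10577947886195097600, 620729795266223232, 55551491952644672, 5530021713256448, 588648394661888, 63355960191659]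
  ln := [0, 0, 0, 0, 0, 0]
  lo := 9894495024450830336
  pn := 220
  pd := 240
  N := ⟨63, 261, 399, 882, 616, 2703, 12, 189, 188, 170⟩
  Cn0 := 1049
  Cd0 := 1024
  Bp0 := [0, 0, 0, 0, 0, 0, 0, 0, 0, 0, 1583, 6617, 10726, 14021, 16584, 18471, 19723, 20364, 20405, 19845, 18666, 16825, 14245, 10783, 6166, 0, 0, 0]
  Bn0 := [556015, 237919, 142517, 95648, 66996, 47228, 32550, 21135, 11992, 4541, 0, 0, 0, 0, 0, 0, 0, 0, 0, 0, 0, 0, 0, 0, 0, 193, 9895, 30248]
  M0 := 464
  En0 := 1216532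
  Cn1 := 135
  Cd1 := 128
  Bp1 := [0, 0, 0, 0, 25655, 60114, 77820, 84096, 82406, 75199, 64316, 51184, 36943, 22508, 8616, 0, 0, 0, 0, 0, 0, 0, 0, 0, 0, 0, 0, 0, 8615, 17891, 26202, 32805, 36800, 37027, 31818, 18344, 0, 0]
  Bn1 := [922291, 345580, 140534, 34800, 0, 0, 0, 0, 0, 0, 0, 0, 0, 0, 0, 4147, 15322, 24570, 31653, 36428, 38843, 38924, 36776, 32573, 26558, 19035, 10371, 991, 0, 0, 0, 0, 0, 0, 0, 0, 9754, 77663]
  M1 := 487
  En1 := 2012987
  rn := 1060604
  rd := 1048576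

theorem z04_A : z04.A c6 = true := by decide +kernel

theorem z04_X0 : z04.X0 c6 = true := by decide +kernel

theorem z04_X1 : z04.X1 c6 = true := by decide +kernel

theorem z04_F : z04.F c6 = true := by decide +kernel

end MP_d1b55a.K
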