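import Pool.Agent.Lib.MP_d1b55a_co.KK

/-!
MP_d1b55a_co, P4: data of cells, verified by the kernel.
-/

namespace MP_d1b55a.K

/-- cell 5, angles about 0.00545 to 0.00615 -/
def z05 : Cell where
  c0 := 72057289937592566
  c1 := 36361114930
  sp := [209345132613024, 0, 0, 0, 0, 0, 0]
  sn := [0, 12515616524070, 374123766703, 22366842439, 1671493934, 139901722, 12545979]
  fl := 196234770336637
  lp := [9402123021812537344, 550865602092992832, 49291290313128592, 4906462810988544, 522247878907221, 56207435803307]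
  ln := [0, 0, 0, 0, 0, 0]
  lo := 8795601563159588864
  pn := 222
  pd := 240
  N := ⟨63, 241, 412, 871, 630, 2464, 10, 189, 188, 184⟩
  Cn0 := 263
  Cd0 := 256
  Bp0 := [0, 0, 0, 0, 0, 0, 0, 0, 0, 426, 6952, 12232, 16440, 19699, 22097, 23697, 24543, 24663, 24072, 22765, 20721, 17887, 14163, 9364, 3129, 0, 0, 0]
  Bn0 := [575316, 247470, 147638, 97923, 67198, 45837, 29908, 17506, 7599, 0, 0, 0, 0, 0, 0, 0, 0, 0, 0, 0, 0, 0, 0, 0, 0, 5333, 18213, 45712]
  M0 := 417
  En0 := 1236183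
  Cn1 := 271
  Cd1 := 256
  Bp1 := [0, 0, 0, 0, 33495, 67261, 83551, 88021, 84381, 75266, 62653, 48072, 32728, 17576, 3364, 0, 0, 0, 0, 0, 0, 0, 0, 0, 0, 0, 0, 3289, 12297, 20594, 27593, 32642, 34986, 33681, 27396, 13842, 0, 0]
  Bn1 := [939347, 346924, 135720, 27474, 0, 0, 0, 0, 0, 0, 0, 0, 0, 0, 0, 9331, 20081, 28592, 34687, 38297, 39447, 38249, 34892, 29633, 22790, 14736, 5889, 0, 0, 0, 0, 0, 0, 0, 0, 0, 12279, 72776]
  M1 := 439
  En1 := 1996203
  rn := 1061608
  rd := 1048576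

theorem z05_A : z05.A c6 = true := by decide +kernel

theorem z05_X0 : z05.X0 c6 = true := by decide +kernel

theorem z05_X1 : z05.X1 c6 = true := by decide +kernel

theorem z05_F : z05.F c6 = true := by decide +kernel

end MP_d1b55a.K
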