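import Pool.Agent.Lib.MP_d1b55a_co.KK

/-!
MP_d1b55a_co, P4: data of cells, verified by the kernel.
-/

namespace MP_d1b55a.K

/-- cell 6, angles about 0.00615 to 0.00693 -/
def z06 : Cell where
  c0 := 72057207339115566
  c1 := 46237362070
  sp := [236069952635741, 0, 0, 0, 0, 0, 0]
  sn := [0, 14113338645146, 421884410494, 25222174563, 1884874860, 157761371, 14147578]
  fl := 221285943171106
  lp := [8358609517005824000, 488893522216340352, 43738613610866056, 4353394096453632, 463354663581013, 49867207073792]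
  ln := [0, 0, 0, 0, 0, 0]
  lo := 7820328654134987776
  pn := 223
  pd := 240
  N := ⟨63, 223, 408, 884, 602, 2564, 8, 189, 188, 206⟩
  Cn0 := 527
  Cd0 := 512
  Bp0 := [0, 0, 0, 0, 0, 0, 0, 0, 0, 2771, 9412, 14727, 18896, 22049, 24279, 25655, 26228, 26032, 25087, 23395, 20940, 17674, 13499, 8230, 1496, 0, 0, 0]
  Bn0 := [583100, 251302, 149589, 98637, 67003, 44946, 28478, 15666, 5457, 0, 0, 0, 0, 0, 0, 0, 0, 0, 0, 0, 0, 0, 0, 0, 0, 7532, 21173, 50331]
  M0 := 375
  En0 := 1242699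
  Cn1 := 545
  Cd1 := 512
  Bp1 := [0, 0, 0, 0, 55554, 86185, 97495, 96168, 86647, 72098, 54871, 36741, 19053, 2807, 0, 0, 0, 0, 0, 0, 0, 0, 0, 0, 0, 0, 6753, 13852, 19634, 23709, 25757, 25533, 22871, 17671, 9851, 0, 0, 0]
  Bn1 := [986996, 348216, 119946, 5636, 0, 0, 0, 0, 0, 0, 0, 0, 0, 0, 11279, 22727, 31265, 36797, 39379, 39195, 36538, 31784, 25375, 17800, 9573, 1217, 0, 0, 0, 0, 0, 0, 0, 0, 0, 829, 15507, 41675]
  M1 := 397
  En1 := 2163211
  rn := 1062667
  rd := 1048576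

theorem z06_A : z06.A c6 = true := by decide +kernel

theorem z06_X0 : z06.X0 c6 = true := by decide +kernel

theorem z06_X1 : z06.X1 c6 = true := by decide +kernel

theorem z06_F : z06.F c6 = true := by decide +kernel

end MP_d1b55a.K
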