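import Pool.Agent.Lib.MP_d1b55a_co.KK

/-!
MP_d1b55a_co, P4: data of cells, verified by the kernel.
-/

namespace MP_d1b55a.K

/-- cell 7, angles about 0.00693 to 0.00782 -/
def z07 : Cell where
  c0 := 72057102305607301
  c1 := 58796146196
  sp := [266206412527225, 0, 0, 0, 0, 0, 0]
  sn := [0, 15915018279987, 475742228436, 28442013061, 2125495349, 177900914, 15953629]
  fl := 249535105765192
  lp := [7432462347746436096, 433920726553582208, 38813408368803960, 3862839326071125, 411119228171605, 44243804887723]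
  ln := [0, 0, 0, 0, 0, 0]
  lo := 6954714469463873536
  pn := 224
  pd := 240
  N := ⟨63, 206, 402, 876, 570, 2423, 7, 189, 188, 227⟩
  Cn0 := 33
  Cd0 := 32
  Bp0 := [0, 0, 0, 0, 0, 0, 0, 0, 0, 4982, 11659, 16930, 20984, 23957, 25953, 27048, 27302, 26759, 25449, 23384, 20558, 16935, 12430, 6868, 0, 0, 0, 0]
  Bn0 := [589843, 254521, 151096, 99015, 66557, 43881, 26949, 13802, 3370, 0, 0, 0, 0, 0, 0, 0, 0, 0, 0, 0, 0, 0, 0, 0, 107, 9317, 23085, 52464]
  M0 := 337
  En0 := 1248142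
  Cn1 := 1095
  Cd1 := 1024
  Bp1 := [0, 0, 0, 12085, 73028, 100720, 107638, 101320, 86830, 67786, 46852, 26009, 6708, 0, 0, 0, 0, 0, 0, 0, 0, 0, 0, 0, 2979, 10970, 17477, 22036, 24303, 24082, 21350, 16289, 9317, 1147, 0, 0, 0, 0]
  Bn1 := [1022841, 348088, 106660, 0, 0, 0, 0, 0, 0, 0, 0, 0, 0, 10025, 23521, 33413, 39590, 42154, 41391, 37730, 31712, 23958, 15137, 5934, 0, 0, 0, 0, 0, 0, 0, 0, 0, 0, 7130, 13850, 16255, 8009]
  M1 := 359
  En1 := 2199763
  rn := 1063838
  rd := 1048576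

theorem z07_A : z07.A c6 = true := by decide +kernel

theorem z07_X0 : z07.X0 c6 = true := by decide +kernel

theorem z07_X1 : z07.X1 c6 = true := by decide +kernel

theorem z07_F : z07.F c6 = true := by decide +kernel

end MP_d1b55a.K
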