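import Pool.Agent.Lib.MP_d1b55a_co.KK

/-!
MP_d1b55a_co, P4: data of cells, verified by the kernel.
-/

namespace MP_d1b55a.K

/-- cell 8, angles about 0.00782 to 0.00909 -/
def z08 : Cell where
  c0 := 72056946996236265
  c1 := 96513224840
  sp := [305365545576339, 0, 0, 0, 0, 0, 0, 0]
  sn := [0, 22774174845450, 849264696374, 63338195698, 5904727732, 616527300, 68971242, 8083272]
  fl := 281390497359740
  lp := [6501230237700020224, 472396657706886272, 52695167659339976, 6541509707296085, 877241921084075, 117802814144512]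
  ln := [0, 0, 0, 0, 0, 0]
  lo := 5968004997705480192
  pn := 230
  pd := 240
  N := ⟨63, 183, 401, 810, 636, 2120, 10, 189, 187, 156⟩
  Cn0 := 265
  Cd0 := 256
  Bp0 := [0, 0, 0, 0, 0, 0, 0, 4734, 16218, 24722, 30664, 34303, 35787, 35177, 32434, 27389, 19628, 8179, 0, 0]
  Bn0 := [633170, 271600, 155735, 95560, 57305, 30380, 10411, 0, 0, 0, 0, 0, 0, 0, 0, 0, 0, 0, 9682, 46394]
  M0 := 296
  En0 := 1305100
  Cn1 := 549
  Cd1 := 512
  Bp1 := [0, 0, 0, 25025, 87817, 114906, 119347, 109191, 89987, 65824, 39820, 14379, 0, 0, 0, 0, 0, 0, 0, 0, 0, 0, 11301, 27941, 41877, 50725, 51331, 38861, 3509, 0]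
  Bn1 := [1046560, 350252, 98823, 0, 0, 0, 0, 0, 0, 0, 0, 0, 8662, 27946, 42534, 51865, 55722, 54202, 47697, 36864, 22614, 6097, 0, 0, 0, 0, 0, 0, 0, 90322]
  M1 := 316
  En1 := 2174773
  rn := 1065772
  rd := 1048576

theorem z08_A : z08.A c7 = true := by decide +kernel

theorem z08_X0 : z08.X0 c7 = true := by decide +kernel

theorem z08_X1 : z08.X1 c7 = true := by decide +kernel

theorem z08_F : z08.F c7 = true := by decide +kernel

end MP_d1b55a.K
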