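import Pool.Agent.Lib.MP_d1b55a_co.KK

/-!
MP_d1b55a_co, P4: data of cells, verified by the kernel.
-/

namespace MP_d1b55a.K

/-- cell 9, angles about 0.00909 to 0.01056 -/
def z09 : Cell where
  c0 := 72056720130370486
  c1 := 130352640940
  sp := [354883908184634, 0, 0, 0, 0, 0, 0, 0]
  sn := [0, 26467201103921, 986984348868, 73609179355, 6862238466, 716502911, 80155520, 9394039]
  fl := 327021096816291
  lp := [5616866535496208384, 407001281557133632, 45388218633593784, 5633702540640939, 755437595092309, 101440159623851]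
  ln := [0, 0, 0, 0, 0, 0]
  lo := 5157470656364622848
  pn := 231
  pd := 240
  N := ⟨63, 165, 391, 807, 595, 2022, 8, 189, 187, 179⟩
  Cn0 := 1063
  Cd0 := 1024
  Bp0 := [0, 0, 0, 0, 0, 0, 0, 9388, 21147, 29663, 35372, 38548, 39355, 37864, 34042, 27715, 18435, 5116, 0, 0]
  Bn0 := [645741, 277126, 157772, 95271, 55327, 27163, 6318, 0, 0, 0, 0, 0, 0, 0, 0, 0, 0, 0, 15340, 57341]
  M0 := 259
  En0 := 1315853
  Cn1 := 553
  Cd1 := 512
  Bp1 := [0, 0, 0, 48245, 108873, 130465, 127948, 110662, 85056, 55819, 26422, 0, 0, 0, 0, 0, 0, 0, 0, 0, 0, 5882, 21652, 35022, 44345, 47835, 43352, 27740, 0, 0]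
  Bn1 := [1090919, 347329, 79727, 0, 0, 0, 0, 0, 0, 0, 0, 584, 23395, 40838, 52281, 57558, 56910, 50921, 40461, 26632, 10714, 0, 0, 0, 0, 0, 0, 0, 5684, 83723]
  M1 := 279
  En1 := 2268576
  rn := 1067664
  rd := 1048576

theorem z09_A : z09.A c7 = true := by decide +kernel

theorem z09_X0 : z09.X0 c7 = true := by decide +kernel

theorem z09_X1 : z09.X1 c7 = true := by decide +kernel

theorem z09_F : z09.F c7 = true := by decide +kernel

end MP_d1b55a.K
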