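import Pool.Agent.Lib.MP_d1b55a_co.KK

/-!
MP_d1b55a_co, P4: data of cells, verified by the kernel.
-/

namespace MP_d1b55a.K

/-- cell 10, angles about 0.01056 to 0.01227 -/
def z10 : Cell where
  c0 := 72056413720979024
  c1 := 176056750522
  sp := [412432062203551, 0, 0, 0, 0, 0, 0, 0]
  sn := [0, 30759049105458, 1147037517884, 85545685148, 7975013985, 832689765, 93153325, 10917343]
  fl := 380051086602521
  lp := [4854882096315657216, 350702906597560896, 39098448116995392, 4852308914014891, 650598116869461, 87356791777963]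
  ln := [0, 0, 0, 0, 0, 0]
  lo := 4459044528730660864
  pn := 232
  pd := 240
  N := ⟨63, 150, 400, 810, 588, 2006, 6, 189, 187, 206⟩
  Cn0 := 267
  Cd0 := 256
  Bp0 := [0, 0, 0, 0, 0, 0, 1758, 18180, 30093, 38269, 43208, 45240, 44584, 41359, 35578, 27095, 15455, 0, 0, 0]
  Bn0 := [671184, 287482, 160940, 93858, 50769, 20455, 0, 0, 0, 0, 0, 0, 0, 0, 0, 0, 0, 524, 24373, 72984]
  M0 := 228
  En0 := 1342156
  Cn1 := 1115
  Cd1 := 1024
  Bp1 := [0, 0, 0, 83127, 137630, 148554, 133946, 105257, 70340, 34735, 2304, 0, 0, 0, 0, 0, 0, 0, 0, 0, 11130, 23599, 32158, 35846, 34144, 27050, 15136, 0, 0, 0]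
  Bn1 := [1152021, 337860, 48167, 0, 0, 0, 0, 0, 0, 0, 0, 24404, 43908, 55616, 59666, 56792, 48181, 35347, 20002, 3930, 0, 0, 0, 0, 0, 0, 0, 428, 18112, 38896]
  M1 := 247
  En1 := 2434751
  rn := 1069592
  rd := 1048576

theorem z10_A : z10.A c7 = true := by decide +kernel

theorem z10_X0 : z10.X0 c7 = true := by decide +kernel

theorem z10_X1 : z10.X1 c7 = true := by decide +kernel

theorem z10_F : z10.F c7 = true := by decide +kernel

end MP_d1b55a.K
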