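import Pool.Agent.Lib.MP_d1b55a_co.KK

/-!
MP_d1b55a_co, P4: data of cells, verified by the kernel.
-/

namespace MP_d1b55a.K

/-- cell 11, angles about 0.01227 to 0.01441 -/
def z11 : Cell where
  c0 := 72055981261991198
  c1 := 256402237304
  sp := [482102589083474, 0, 0, 0, 0, 0, 0, 0]
  sn := [0, 38322372094772, 1523192343635, 121078677208, 12030799481, 1338874553, 159642564, 19941645]
  fl := 441680274312905
  lp := [4174797946120977408, 320289409810881728, 38044398364449824, 5031537963461803, 721756235829248, 103297521050283]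
  ln := [0, 0, 0, 0, 0, 0]
  lo := 3810226485470682112
  pn := 232
  pd := 240
  N := ⟨63, 131, 388, 782, 574, 2045, 6, 189, 187, 196⟩
  Cn0 := 1073
  Cd0 := 1024
  Bp0 := [0, 0, 0, 0, 0, 0, 16551, 33353, 44571, 51040, 53288, 51643, 46260, 37081, 23677, 4772, 0, 0]
  Bn0 := [703472, 298506, 161615, 87921, 40383, 7208, 0, 0, 0, 0, 0, 0, 0, 0, 0, 0, 23619, 80783]
  M0 := 199
  En0 := 1381684
  Cn1 := 1125
  Cd1 := 1024
  Bp1 := [0, 0, 0, 130699, 175964, 171402, 139460, 94607, 46730, 2600, 0, 0, 0, 0, 0, 0, 0, 0, 16266, 35447, 48368, 52730, 46580, 27944, 0, 0]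
  Bn1 := [1232349, 323465, 4370, 0, 0, 0, 0, 0, 0, 0, 33367, 58645, 72259, 74513, 66724, 50987, 29934, 6505, 0, 0, 0, 0, 0, 0, 6987, 77022]
  M1 := 216
  En1 := 2802207
  rn := 1072675
  rd := 1048576

theorem z11_A : z11.A c7 = true := by decide +kernel

theorem z11_X0 : z11.X0 c7 = true := by decide +kernel

theorem z11_X1 : z11.X1 c7 = true := by decide +kernel

theorem z11_F : z11.F c7 = true := by decide +kernel

/-- cell 12, angles about 0.01441 to 0.01691 -/
def z12 : Cell where
  c0 := 72055371520049232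
  c1 := 353339704662
  sp := [565944911193358, 0, 0, 0, 0, 0, 0, 0]
  sn := [0, 44986752577242, 1788100499150, 142135450196, 14123042490, 1571711787, 187404939, 23409528]
  fl := 518493005080927
  lp := [3577354457842075648, 273335153241064960, 32455032042493688, 4291533270195370, 615530889509547, 88087359936512]
  ln := [0, 0, 0, 0, 0, 0]
  lo := 3266242464126771712
  pn := 233
  pd := 240
  N := ⟨63, 118, 385, 784, 542, 2015, 5, 189, 187, 223⟩
  Cn0 := 539
  Cd0 := 512
  Bp0 := [0, 0, 0, 0, 0, 0, 24000, 40365, 50567, 55576, 56059, 52489, 45176, 34229, 19410, 0, 0, 0]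
  Bn0 := [721757, 304427, 161500, 84131, 34363, 38, 0, 0, 0, 0, 0, 0, 0, 0, 0, 331, 28651, 84163]
  M0 := 174
  En0 := 1399803
  Cn1 := 1137
  Cd1 := 1024
  Bp1 := [0, 0, 53280, 184538, 210893, 182371, 127733, 65389, 7359, 0, 0, 0, 0, 0, 0, 0, 9534, 31574, 45387, 48720, 40909, 23248, 0, 0, 0, 0]
  Bn1 := [1321053, 295412, 0, 0, 0, 0, 0, 0, 0, 38919, 69558, 83498, 81900, 67590, 44524, 17262, 0, 0, 0, 0, 0, 0, 566, 23638, 33670, 1669]
  M1 := 191
  En1 := 3073502
  rn := 1075363
  rd := 1048576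

theorem z12_A : z12.A c7 = true := by decide +kernel

theorem z12_X0 : z12.X0 c7 = true := by decide +kernel

theorem z12_X1 : z12.X1 c7 = true := by decide +kernel

theorem z12_F : z12.F c7 = true := by decide +kernel

end MP_d1b55a.K
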