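import Pool.Agent.Lib.MP_d1b55a_co.KK

/-!
MP_d1b55a_co, P4: data of cells, verified by the kernel.
-/

namespace MP_d1b55a.K

/-- cell 13, angles about 0.01691 to 0.01985 -/
def z13 : Cell where
  c0 := 72054531254742588
  c1 := 486925601983
  sp := [664367514370740, 0, 0, 0, 0, 0, 0, 0]
  sn := [0, 52809921087201, 2099082812937, 166854030802, 16579110642, 1845035958, 219994597, 27480380]
  fl := 608663711833403
  lp := [3067450594963544576, 233307579229304352, 27691040200111220, 3660852406257152, 525002960106837, 75125280305835]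
  ln := [0, 0, 0, 0, 0, 0]
  lo := 2801910775787970560
  pn := 235
  pd := 240
  N := ⟨63, 106, 383, 786, 519, 1950, 4, 189, 187, 243⟩
  Cn0 := 271
  Cd0 := 256
  Bp0 := [0, 0, 0, 0, 0, 10170, 33718, 48574, 56516, 58777, 56297, 49833, 39992, 27214, 11648, 0, 0, 0]
  Bn0 := [745387, 310540, 159310, 77218, 24970, 0, 0, 0, 0, 0, 0, 0, 0, 0, 0, 7217, 32033, 77931]
  M0 := 153
  En0 := 1426738
  Cn1 := 1151
  Cd1 := 1024
  Bp1 := [0, 0, 124852, 248064, 248442, 189146, 107024, 25232, 0, 0, 0, 0, 0, 0, 0, 25888, 54704, 70293, 69804, 52921, 22230, 0, 0, 0, 0, 80544]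
  Bn1 := [1426545, 257518, 0, 0, 0, 0, 0, 0, 42028, 87170, 107736, 105212, 83967, 50252, 11235, 0, 0, 0, 0, 0, 0, 16431, 53413, 73801, 52093, 0]
  M1 := 169
  En1 := 3340490
  rn := 1078438
  rd := 1048576

theorem z13_A : z13.A c7 = true := by decide +kernel

theorem z13_X0 : z13.X0 c7 = true := by decide +kernel

theorem z13_X1 : z13.X1 c7 = true := by decide +kernel

theorem z13_F : z13.F c7 = true := by decide +kernel

/-- cell 14, angles about 0.01985 to 0.02330 -/
def z14 : Cell where
  c0 := 72053373314277851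
  c1 := 671014862754
  sp := [779905486671354, 0, 0, 0, 0, 0, 0, 0]
  sn := [0, 61993261019097, 2464154143300, 195871106958, 19462251183, 2165884259, 258250472, 32258978]
  fl := 714515051475348
  lp := [2631626561342747648, 199196013702069376, 23631287227439592, 3124317907979093, 447840232108715, 63236650981376]
  ln := [0, 0, 0, 0, 0, 0]
  lo := 2404923349235607552
  pn := 232
  pd := 240
  N := ⟨63, 95, 387, 783, 516, 1854, 4, 189, 187, 254⟩
  Cn0 := 273
  Cd0 := 256
  Bp0 := [0, 0, 0, 0, 0, 27174, 48663, 59786, 62883, 59743, 51866, 40572, 27050, 12358, 0, 0, 0, 0]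
  Bn0 := [782741, 317971, 153010, 63638, 8182, 0, 0, 0, 0, 0, 0, 0, 0, 0, 2626, 17369, 32389, 54555]
  M0 := 135
  En0 := 1475839
  Cn1 := 583
  Cd1 := 512
  Bp1 := [0, 0, 189543, 296806, 267873, 179390, 75695, 0, 0, 0, 0, 0, 0, 0, 22961, 56981, 76154, 77773, 62165, 32629, 0, 0, 0, 0, 0, 94398]
  Bn1 := [1512205, 215144, 0, 0, 0, 0, 0, 16705, 83334, 118545, 123207, 102742, 65349, 20401, 0, 0, 0, 0, 0, 0, 4849, 42022, 68701, 72402, 34881, 0]
  M1 := 151
  En1 := 3583393
  rn := 1081950
  rd := 1048576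

theorem z14_A : z14.A c7 = true := by decide +kernel

theorem z14_X0 : z14.X0 c7 = true := by decide +kernel

theorem z14_X1 : z14.X1 c7 = true := by decide +kernel

theorem z14_F : z14.F c7 = true := by decide +kernel

end MP_d1b55a.K
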