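import Pool.Agent.Lib.MP_d1b55a_co.KK

/-!
MP_d1b55a_co, P4: the dedicated cell at the angle .003.
-/

namespace MP_d1b55a.K

/-- cell around the angle .003 -/
def zS : Cell where
  c0 := 72057512973149842
  c1 := 16384
  sp := [108086350525152, 0, 0, 0, 0, 0, 0]
  sn := [0, 10922658, 1, 0, 0, 0, 0]
  fl := 107978253262889
  lp := [18016743106153781248, 1797254855339, 278422, 110592, 0, 0]
  ln := [0, 0, 0, 0, 13653, 103765]
  lo := 18016741308898419476
  pn := 240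
  pd := 240
  N := ⟨63, 385, 355, 936, 480, 2300, 3, 189, 188, 227⟩
  Cn0 := 1039
  Cd0 := 1024
  Bp0 := [0, 0, 0, 0, 0, 0, 0, 0, 0, 0, 0, 0, 0, 0, 0, 0, 0, 391, 1823, 3097, 4227, 5225, 6102, 6866, 7526, 8089, 8565, 8964, 9305, 9613, 9943, 10425, 11456, 15137]
  Bn0 := [481231, 199404, 120184, 83662, 62581, 48723, 38812, 31294, 25346, 20487, 16423, 12960, 9969, 7357, 5059, 3025, 1218, 0, 0, 0, 0, 0, 0, 0, 0, 0, 0, 0, 0, 0, 0, 0, 0, 0]
  M0 := 724
  En0 := 1134175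
  Cn1 := 133
  Cd1 := 128
  Bp1 := [0, 0, 0, 0, 0, 11196, 32653, 45901, 53204, 56088, 55648, 52714, 47942, 41860, 34909, 27456, 19813, 12243, 4970, 0, 0, 0, 0, 0, 0, 0, 0, 0, 0, 0, 0, 0, 0, 0, 777, 6259, 11608, 16550, 20761, 23839, 25269, 24349, 20011, 10370, 0, 0]
  Bn1 := [803739, 324670, 160197, 74260, 22167, 0, 0, 0, 0, 0, 0, 0, 0, 0, 0, 0, 0, 0, 0, 1816, 7959, 13331, 17833, 21388, 23945, 25476, 25976, 25460, 23965, 21550, 18295, 14300, 9688, 4605, 0, 0, 0, 0, 0, 0, 0, 0, 0, 0, 8925, 55326]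
  M1 := 753
  En1 := 1527622
  rn := 1056715
  rd := 1048576

theorem zS_A : zS.A c6 = true := by decide +kernel

theorem zS_X0 : zS.X0 c6 = true := by decide +kernel

theorem zS_X1 : zS.X1 c6 = true := by decide +kernel

theorem zS_F : zS.F c6 = true := by decide +kernel

end MP_d1b55a.K
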