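import Mathlib

/-!
MP_d1b55a_co, P4: packed integer arithmetic for the kernel, part 1: digits.
-/

open Finset

namespace MP_d1b55a.K

/-- forcing of an argument in kernel evaluation -/
def frc {α : Type} (n : ℕ) (f : ℕ → α) : α :=
  Nat.rec (motive := fun _ => α) (f 0) (fun k _ => f (Nat.succ k)) n

theorem frc_eq {α : Type} (n : ℕ) (f : ℕ → α) : frc n f = f n := by
  cases n <;> rfl

/-- absolute difference -/
def ad (a b : ℕ) : ℕ := Nat.add (Nat.sub a b) (Nat.sub b a)

theorem ad_cast (a b : ℕ) : ((ad a b : ℕ) : ℤ) = |(a : ℤ) - b| := by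
  have h : ad a b = (a - b) + (b - a) := rfl
  rw [h]
  rcases le_total a b with h1 | h1
  · rw [Nat.sub_eq_zero_of_le h1, zero_add, abs_of_nonpos (by omega)]
    omega
  · rw [Nat.sub_eq_zero_of_le h1, add_zero, abs_of_nonneg (by omega)]
    omega

/-- conditional continuation -/
def chk (b k : Bool) : Bool := Bool.rec (motive := fun _ => Bool) false k b

theorem chk_true {b k : Bool} : chk b k = true ↔ b = true ∧ k = true := by
  cases b <;> simp [chk]

/-- the digit of index `i` in base `B` -/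
def dg (B i W : ℕ) : ℕ := W / B ^ i % B

theorem dg_zero (B W : ℕ) : dg B 0 W = W % B := by simp [dg]

theorem dg_succ (B i W : ℕ) : dg B (i + 1) W = dg B i (W / B) := by
  unfold dg
  rw [pow_succ', Nat.div_div_eq_div_mul]

/-- loop over the kept digits -/
def kpL (B D HD : ℕ) (f : ℕ) : ℕ → ℕ → ℕ → ℕ → (ℕ → ℕ → ℕ → Bool) → Bool :=
  Nat.rec (motive := fun _ => ℕ → ℕ → ℕ → ℕ → (ℕ → ℕ → ℕ → Bool) → Bool)
    (fun W _ out ks k => k W out ks)
    (fun _ ih W pw out ks k => frc (Nat.div (Nat.mod W B) D) fun d => frc (Nat.div W B) fun W' =>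
      ih W' (Nat.mul pw B) (Nat.add out (Nat.mul pw d)) (Nat.add ks (ad d HD)) k) f

theorem kpL_eq (B D HD : ℕ) (f : ℕ) : ∀ (W pw out ks : ℕ) (k : ℕ → ℕ → ℕ → Bool),
    kpL B D HD f W pw out ks k =
      k (W / B ^ f) (out + pw * ∑ i ∈ range f, (dg B i W / D) * B ^ i)
        (ks + ∑ i ∈ range f, ad (dg B i W / D) HD) := by
  induction f with
  | zero => intro W pw out ks k; simp [kpL]
  | succ f ih =>
    intro W pw out ks k
    have h1 : kpL B D HD (f + 1) W pw out ks k =
        frc (W % B / D) fun d => frc (W / B) fun W' =>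
          kpL B D HD f W' (pw * B) (out + pw * d) (ks + ad d HD) k := rfl
    rw [h1, frc_eq, frc_eq, ih]
    congr 1
    · rw [pow_succ', Nat.div_div_eq_div_mul]
    · rw [sum_range_succ' (fun i => (dg B i W / D) * B ^ i), dg_zero, pow_zero, mul_one, mul_add]
      have h2 : ∑ i ∈ range f, dg B (i + 1) W / D * B ^ (i + 1) =
          B * ∑ i ∈ range f, dg B i (W / B) / D * B ^ i := by
        rw [mul_sum]
        apply sum_congr rfl
        intro i _
        rw [dg_succ]; ring
      rw [h2]; ring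
    · rw [sum_range_succ' (fun i => ad (dg B i W / D) HD), dg_zero]
      have h2 : ∑ i ∈ range f, ad (dg B (i + 1) W / D) HD =
          ∑ i ∈ range f, ad (dg B i (W / B) / D) HD := by
        apply sum_congr rfl
        intro i _
        rw [dg_succ]
      rw [h2]; ring

/-- sum of the distances of the digits to `H` -/
def dsR (B H : ℕ) (f : ℕ) : ℕ → ℕ :=
  Nat.rec (motive := fun _ => ℕ → ℕ) (fun _ => 0)
    (fun _ ih W => Nat.add (ad (Nat.mod W B) H) (ih (Nat.div W B))) f

theorem dsR_eq (B H : ℕ) (f : ℕ) : ∀ W : ℕ, dsR B H f W = ∑ i ∈ range f, ad (dg B i W) H := by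
  induction f with
  | zero => intro W; simp [dsR]
  | succ f ih =>
    intro W
    have h1 : dsR B H (f + 1) W = ad (W % B) H + dsR B H f (W / B) := rfl
    rw [h1, ih, sum_range_succ' (fun i => ad (dg B i W) H), dg_zero, add_comm]
    congr 1
    apply sum_congr rfl
    intro i _
    rw [dg_succ]

/-- the digits of a sum of powers -/
theorem dg_sum (B : ℕ) (hB : 0 < B) (w : ℕ → ℕ) (hw : ∀ i, w i < B) (n : ℕ) :
    ∀ R j : ℕ, j < n → dg B j (∑ i ∈ range n, w i * B ^ i + R * B ^ n) = w j := by
  induction n generalizing w with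
  | zero => intro R j hj; omega
  | succ n ih =>
    intro R j hj
    have h1 : ∑ i ∈ range (n + 1), w i * B ^ i + R * B ^ (n + 1) =
        w 0 + B * (∑ i ∈ range n, w (i + 1) * B ^ i + R * B ^ n) := by
      rw [sum_range_succ' (fun i => w i * B ^ i), pow_zero, mul_one, mul_add, mul_sum]
      have : ∑ i ∈ range n, w (i + 1) * B ^ (i + 1) = ∑ i ∈ range n, B * (w (i + 1) * B ^ i) := by
        apply sum_congr rfl
        intro i _
        ring
      rw [this]; ring
    rw [h1]
    cases j with
    | zero =>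
      rw [dg_zero, Nat.add_mul_mod_self_left]
      exact Nat.mod_eq_of_lt (hw 0)
    | succ j =>
      rw [dg_succ, Nat.add_mul_div_left _ _ hB, Nat.div_eq_of_lt (hw 0), zero_add]
      exact ih (fun i => w (i + 1)) (fun i => hw (i + 1)) R j (by omega)

theorem sum_lt_pow (B : ℕ) (w : ℕ → ℕ) (hw : ∀ i, w i < B) (n : ℕ) :
    ∑ i ∈ range n, w i * B ^ i < B ^ n := by
  induction n with
  | zero => simp
  | succ n ih =>
    rw [sum_range_succ, pow_succ]
    have h1 : w n * B ^ n + B ^ n ≤ B ^ n * B := by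
      have : w n + 1 ≤ B := hw n
      calc w n * B ^ n + B ^ n = B ^ n * (w n + 1) := by ring
        _ ≤ B ^ n * B := Nat.mul_le_mul_left _ this
    omega

end MP_d1b55a.K
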