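import Pool.Agent.Lib.MP_d1b55a_co.KD00
import Pool.Agent.Lib.MP_d1b55a_co.KD01
import Pool.Agent.Lib.MP_d1b55a_co.KD02
import Pool.Agent.Lib.MP_d1b55a_co.KD03
import Pool.Agent.Lib.MP_d1b55a_co.KD04
import Pool.Agent.Lib.MP_d1b55a_co.KD05
import Pool.Agent.Lib.MP_d1b55a_co.KD06
import Pool.Agent.Lib.MP_d1b55a_co.KD07
import Pool.Agent.Lib.MP_d1b55a_co.KD08
import Pool.Agent.Lib.MP_d1b55a_co.KD09
import Pool.Agent.Lib.MP_d1b55a_co.KD10
import Pool.Agent.Lib.MP_d1b55a_co.KD11
import Pool.Agent.Lib.MP_d1b55a_co.KD12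
import Pool.Agent.Lib.MP_d1b55a_co.KD13
import Pool.Agent.Lib.MP_d1b55a_co.KD14
import Pool.Agent.Lib.MP_d1b55a_co.KD15
import Pool.Agent.Lib.MP_d1b55a_co.KD16

/-!
MP_d1b55a_co, P4: `Good θ` for `.003 ≤ θ ≤ π` (over Newton's identities for the roots of `F_M`).
-/

namespace MP_d1b55a.K

open MP_d1b55a

/-- the cell `X` covers the angles with `e0 ≤ 2^56 cos (θ/2) ≤ e1` -/
theorem cell_cover (hN1 : N1Stmt) (c : Cfg) (hc : c.Ok) (X : Cell) (hA : X.A c = true)
    (hX0 : X.X0 c = true) (hX1 : X.X1 c = true) (hF : X.F c = true) (hone : c.one = 2 ^ 56)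
    (e0 e1 : ℕ) (h0 : X.c0 ≤ e0 + X.c1) (h1 : e1 ≤ X.c0 + X.c1) (θ : ℝ) (hθ : 0 < θ)
    (hpi : θ ≤ Real.pi) (hlo : (e0 : ℝ) ≤ 2 ^ 56 * Real.cos (θ / 2))
    (hhi : 2 ^ 56 * Real.cos (θ / 2) ≤ e1) : Good θ := by
  have hone' : (c.one : ℝ) = 2 ^ 56 := by rw [hone]; norm_num
  have h0' : (X.c0 : ℝ) ≤ e0 + X.c1 := by exact_mod_cast h0
  have h1' : (e1 : ℝ) ≤ X.c0 + X.c1 := by exact_mod_cast h1
  refine cell_good hN1 c hc X hA hX0 hX1 hF θ hθ hpi ?_ ?_
  · rw [hone']; linarith
  · rw [hone']; linarith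

/-- **P4**: all angles from `.00299` to `π` -/
theorem good_cover (hN1 : N1Stmt) (θ : ℝ) (hθ : 0 < θ) (hpi : θ ≤ Real.pi)
    (hhi : 2 ^ 56 * Real.cos (θ / 2) ≤ 72057513512680876) : Good θ := by
  have hcos : 0 ≤ Real.cos (θ / 2) :=
    Real.cos_nonneg_of_neg_pi_div_two_le_of_le (by linarith) (by linarith)
  have hx0 : 0 ≤ 2 ^ 56 * Real.cos (θ / 2) := by positivity
  by_cases h0 : (72057491640731219 : ℝ) ≤ 2 ^ 56 * Real.cos (θ / 2)
  · exact cell_cover hN1 c6 c6_ok z00 z00_A z00_X0 z00_X1 z00_F (by decide +kernel) 72057491640731219 72057513512680876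
      (by decide +kernel) (by decide +kernel) θ hθ hpi (by rw [Nat.cast_ofNat]; exact h0) (by rw [Nat.cast_ofNat]; linarith)
  by_cases h1 : (72057463828010745 : ℝ) ≤ 2 ^ 56 * Real.cos (θ / 2)
  · exact cell_cover hN1 c6 c6_ok z01 z01_A z01_X0 z01_X1 z01_F (by decide +kernel) 72057463828010745 72057491640731219
      (by decide +kernel) (by decide +kernel) θ hθ hpi (by rw [Nat.cast_ofNat]; exact h1) (by rw [Nat.cast_ofNat]; linarith)
  by_cases h2 : (72057428460912333 : ℝ) ≤ 2 ^ 56 * Real.cos (θ / 2)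
  · exact cell_cover hN1 c6 c6_ok z02 z02_A z02_X0 z02_X1 z02_F (by decide +kernel) 72057428460912333 72057463828010745
      (by decide +kernel) (by decide +kernel) θ hθ hpi (by rw [Nat.cast_ofNat]; exact h2) (by rw [Nat.cast_ofNat]; linarith)
  by_cases h3 : (72057383487548376 : ℝ) ≤ 2 ^ 56 * Real.cos (θ / 2)
  · exact cell_cover hN1 c6 c6_ok z03 z03_A z03_X0 z03_X1 z03_F (by decide +kernel) 72057383487548376 72057428460912333
      (by decide +kernel) (by decide +kernel) θ hθ hpi (by rw [Nat.cast_ofNat]; exact h3) (by rw [Nat.cast_ofNat]; linarith)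
  by_cases h4 : (72057326298707496 : ℝ) ≤ 2 ^ 56 * Real.cos (θ / 2)
  · exact cell_cover hN1 c6 c6_ok z04 z04_A z04_X0 z04_X1 z04_F (by decide +kernel) 72057326298707496 72057383487548376
      (by decide +kernel) (by decide +kernel) θ hθ hpi (by rw [Nat.cast_ofNat]; exact h4) (by rw [Nat.cast_ofNat]; linarith)
  by_cases h5 : (72057253576477636 : ℝ) ≤ 2 ^ 56 * Real.cos (θ / 2)
  · exact cell_cover hN1 c6 c6_ok z05 z05_A z05_X0 z05_X1 z05_F (by decide +kernel) 72057253576477636 72057326298707496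
      (by decide +kernel) (by decide +kernel) θ hθ hpi (by rw [Nat.cast_ofNat]; exact h5) (by rw [Nat.cast_ofNat]; linarith)
  by_cases h6 : (72057161101753497 : ℝ) ≤ 2 ^ 56 * Real.cos (θ / 2)
  · exact cell_cover hN1 c6 c6_ok z06 z06_A z06_X0 z06_X1 z06_F (by decide +kernel) 72057161101753497 72057253576477636
      (by decide +kernel) (by decide +kernel) θ hθ hpi (by rw [Nat.cast_ofNat]; exact h6) (by rw [Nat.cast_ofNat]; linarith)
  by_cases h7 : (72057043509461105 : ℝ) ≤ 2 ^ 56 * Real.cos (θ / 2)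
  · exact cell_cover hN1 c6 c6_ok z07 z07_A z07_X0 z07_X1 z07_F (by decide +kernel) 72057043509461105 72057161101753497
      (by decide +kernel) (by decide +kernel) θ hθ hpi (by rw [Nat.cast_ofNat]; exact h7) (by rw [Nat.cast_ofNat]; linarith)
  by_cases h8 : (72056850483011426 : ℝ) ≤ 2 ^ 56 * Real.cos (θ / 2)
  · exact cell_cover hN1 c7 c7_ok z08 z08_A z08_X0 z08_X1 z08_F (by decide +kernel) 72056850483011426 72057043509461105
      (by decide +kernel) (by decide +kernel) θ hθ hpi (by rw [Nat.cast_ofNat]; exact h8) (by rw [Nat.cast_ofNat]; linarith)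
  by_cases h9 : (72056589777729546 : ℝ) ≤ 2 ^ 56 * Real.cos (θ / 2)
  · exact cell_cover hN1 c7 c7_ok z09 z09_A z09_X0 z09_X1 z09_F (by decide +kernel) 72056589777729546 72056850483011426
      (by decide +kernel) (by decide +kernel) θ hθ hpi (by rw [Nat.cast_ofNat]; exact h9) (by rw [Nat.cast_ofNat]; linarith)
  by_cases h10 : (72056237664228502 : ℝ) ≤ 2 ^ 56 * Real.cos (θ / 2)
  · exact cell_cover hN1 c7 c7_ok z10 z10_A z10_X0 z10_X1 z10_F (by decide +kernel) 72056237664228502 72056589777729546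
      (by decide +kernel) (by decide +kernel) θ hθ hpi (by rw [Nat.cast_ofNat]; exact h10) (by rw [Nat.cast_ofNat]; linarith)
  by_cases h11 : (72055724859753894 : ℝ) ≤ 2 ^ 56 * Real.cos (θ / 2)
  · exact cell_cover hN1 c7 c7_ok z11 z11_A z11_X0 z11_X1 z11_F (by decide +kernel) 72055724859753894 72056237664228502
      (by decide +kernel) (by decide +kernel) θ hθ hpi (by rw [Nat.cast_ofNat]; exact h11) (by rw [Nat.cast_ofNat]; linarith)
  by_cases h12 : (72055018180344571 : ℝ) ≤ 2 ^ 56 * Real.cos (θ / 2)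
  · exact cell_cover hN1 c7 c7_ok z12 z12_A z12_X0 z12_X1 z12_F (by decide +kernel) 72055018180344571 72055724859753894
      (by decide +kernel) (by decide +kernel) θ hθ hpi (by rw [Nat.cast_ofNat]; exact h12) (by rw [Nat.cast_ofNat]; linarith)
  by_cases h13 : (72054044329140605 : ℝ) ≤ 2 ^ 56 * Real.cos (θ / 2)
  · exact cell_cover hN1 c7 c7_ok z13 z13_A z13_X0 z13_X1 z13_F (by decide +kernel) 72054044329140605 72055018180344571
      (by decide +kernel) (by decide +kernel) θ hθ hpi (by rw [Nat.cast_ofNat]; exact h13) (by rw [Nat.cast_ofNat]; linarith)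
  by_cases h14 : (72052702299415097 : ℝ) ≤ 2 ^ 56 * Real.cos (θ / 2)
  · exact cell_cover hN1 c7 c7_ok z14 z14_A z14_X0 z14_X1 z14_F (by decide +kernel) 72052702299415097 72054044329140605
      (by decide +kernel) (by decide +kernel) θ hθ hpi (by rw [Nat.cast_ofNat]; exact h14) (by rw [Nat.cast_ofNat]; linarith)
  by_cases h15 : (72050852899702602 : ℝ) ≤ 2 ^ 56 * Real.cos (θ / 2)
  · exact cell_cover hN1 c7 c7_ok z15 z15_A z15_X0 z15_X1 z15_F (by decide +kernel) 72050852899702602 72052702299415097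
      (by decide +kernel) (by decide +kernel) θ hθ hpi (by rw [Nat.cast_ofNat]; exact h15) (by rw [Nat.cast_ofNat]; linarith)
  by_cases h16 : (72048304319976062 : ℝ) ≤ 2 ^ 56 * Real.cos (θ / 2)
  · exact cell_cover hN1 c7 c7_ok z16 z16_A z16_X0 z16_X1 z16_F (by decide +kernel) 72048304319976062 72050852899702602
      (by decide +kernel) (by decide +kernel) θ hθ hpi (by rw [Nat.cast_ofNat]; exact h16) (by rw [Nat.cast_ofNat]; linarith)
  by_cases h17 : (72044531847015111 : ℝ) ≤ 2 ^ 56 * Real.cos (θ / 2)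
  · exact cell_cover hN1 c7 c7_ok z17 z17_A z17_X0 z17_X1 z17_F (by decide +kernel) 72044531847015111 72048304319976062
      (by decide +kernel) (by decide +kernel) θ hθ hpi (by rw [Nat.cast_ofNat]; exact h17) (by rw [Nat.cast_ofNat]; linarith)
  by_cases h18 : (72039227470967002 : ℝ) ≤ 2 ^ 56 * Real.cos (θ / 2)
  · exact cell_cover hN1 c7 c7_ok z18 z18_A z18_X0 z18_X1 z18_F (by decide +kernel) 72039227470967002 72044531847015111
      (by decide +kernel) (by decide +kernel) θ hθ hpi (by rw [Nat.cast_ofNat]; exact h18) (by rw [Nat.cast_ofNat]; linarith)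
  by_cases h19 : (72031769189454054 : ℝ) ≤ 2 ^ 56 * Real.cos (θ / 2)
  · exact cell_cover hN1 c7 c7_ok z19 z19_A z19_X0 z19_X1 z19_F (by decide +kernel) 72031769189454054 72039227470967002
      (by decide +kernel) (by decide +kernel) θ hθ hpi (by rw [Nat.cast_ofNat]; exact h19) (by rw [Nat.cast_ofNat]; linarith)
  by_cases h20 : (72021282509085554 : ℝ) ≤ 2 ^ 56 * Real.cos (θ / 2)
  · exact cell_cover hN1 c7 c7_ok z20 z20_A z20_X0 z20_X1 z20_F (by decide +kernel) 72021282509085554 72031769189454054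
      (by decide +kernel) (by decide +kernel) θ hθ hpi (by rw [Nat.cast_ofNat]; exact h20) (by rw [Nat.cast_ofNat]; linarith)
  by_cases h21 : (72006538011859271 : ℝ) ≤ 2 ^ 56 * Real.cos (θ / 2)
  · exact cell_cover hN1 c7 c7_ok z21 z21_A z21_X0 z21_X1 z21_F (by decide +kernel) 72006538011859271 72021282509085554
      (by decide +kernel) (by decide +kernel) θ hθ hpi (by rw [Nat.cast_ofNat]; exact h21) (by rw [Nat.cast_ofNat]; linarith)
  by_cases h22 : (71985807424410083 : ℝ) ≤ 2 ^ 56 * Real.cos (θ / 2)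
  · exact cell_cover hN1 c7 c7_ok z22 z22_A z22_X0 z22_X1 z22_F (by decide +kernel) 71985807424410083 72006538011859271
      (by decide +kernel) (by decide +kernel) θ hθ hpi (by rw [Nat.cast_ofNat]; exact h22) (by rw [Nat.cast_ofNat]; linarith)
  by_cases h23 : (71956661437101272 : ℝ) ≤ 2 ^ 56 * Real.cos (θ / 2)
  · exact cell_cover hN1 c7 c7_ok z23 z23_A z23_X0 z23_X1 z23_F (by decide +kernel) 71956661437101272 71985807424410083
      (by decide +kernel) (by decide +kernel) θ hθ hpi (by rw [Nat.cast_ofNat]; exact h23) (by rw [Nat.cast_ofNat]; linarith)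
  by_cases h24 : (71915685813307136 : ℝ) ≤ 2 ^ 56 * Real.cos (θ / 2)
  · exact cell_cover hN1 c7 c7_ok z24 z24_A z24_X0 z24_X1 z24_F (by decide +kernel) 71915685813307136 71956661437101272
      (by decide +kernel) (by decide +kernel) θ hθ hpi (by rw [Nat.cast_ofNat]; exact h24) (by rw [Nat.cast_ofNat]; linarith)
  by_cases h25 : (71858082993481262 : ℝ) ≤ 2 ^ 56 * Real.cos (θ / 2)
  · exact cell_cover hN1 c7 c7_ok z25 z25_A z25_X0 z25_X1 z25_F (by decide +kernel) 71858082993481262 71915685813307136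
      (by decide +kernel) (by decide +kernel) θ hθ hpi (by rw [Nat.cast_ofNat]; exact h25) (by rw [Nat.cast_ofNat]; linarith)
  by_cases h26 : (71777113458187167 : ℝ) ≤ 2 ^ 56 * Real.cos (θ / 2)
  · exact cell_cover hN1 c7 c7_ok z26 z26_A z26_X0 z26_X1 z26_F (by decide +kernel) 71777113458187167 71858082993481262
      (by decide +kernel) (by decide +kernel) θ hθ hpi (by rw [Nat.cast_ofNat]; exact h26) (by rw [Nat.cast_ofNat]; linarith)
  by_cases h27 : (71663313287141425 : ℝ) ≤ 2 ^ 56 * Real.cos (θ / 2)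
  · exact cell_cover hN1 c7 c7_ok z27 z27_A z27_X0 z27_X1 z27_F (by decide +kernel) 71663313287141425 71777113458187167
      (by decide +kernel) (by decide +kernel) θ hθ hpi (by rw [Nat.cast_ofNat]; exact h27) (by rw [Nat.cast_ofNat]; linarith)
  by_cases h28 : (71503400011515727 : ℝ) ≤ 2 ^ 56 * Real.cos (θ / 2)
  · exact cell_cover hN1 c7 c7_ok z28 z28_A z28_X0 z28_X1 z28_F (by decide +kernel) 71503400011515727 71663313287141425
      (by decide +kernel) (by decide +kernel) θ hθ hpi (by rw [Nat.cast_ofNat]; exact h28) (by rw [Nat.cast_ofNat]; linarith)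
  by_cases h29 : (71278746065708103 : ℝ) ≤ 2 ^ 56 * Real.cos (θ / 2)
  · exact cell_cover hN1 c7 c7_ok z29 z29_A z29_X0 z29_X1 z29_F (by decide +kernel) 71278746065708103 71503400011515727
      (by decide +kernel) (by decide +kernel) θ hθ hpi (by rw [Nat.cast_ofNat]; exact h29) (by rw [Nat.cast_ofNat]; linarith)
  by_cases h30 : (70963255859564693 : ℝ) ≤ 2 ^ 56 * Real.cos (θ / 2)
  · exact cell_cover hN1 c7 c7_ok z30 z30_A z30_X0 z30_X1 z30_F (by decide +kernel) 70963255859564693 71278746065708103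
      (by decide +kernel) (by decide +kernel) θ hθ hpi (by rw [Nat.cast_ofNat]; exact h30) (by rw [Nat.cast_ofNat]; linarith)
  by_cases h31 : (70520427177188068 : ℝ) ≤ 2 ^ 56 * Real.cos (θ / 2)
  · exact cell_cover hN1 c7 c7_ok z31 z31_A z31_X0 z31_X1 z31_F (by decide +kernel) 70520427177188068 70963255859564693
      (by decide +kernel) (by decide +kernel) θ hθ hpi (by rw [Nat.cast_ofNat]; exact h31) (by rw [Nat.cast_ofNat]; linarith)
  by_cases h32 : (69984062278710699 : ℝ) ≤ 2 ^ 56 * Real.cos (θ / 2)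
  · exact cell_cover hN1 c7 c7_ok z32 z32_A z32_X0 z32_X1 z32_F (by decide +kernel) 69984062278710699 70520427177188068
      (by decide +kernel) (by decide +kernel) θ hθ hpi (by rw [Nat.cast_ofNat]; exact h32) (by rw [Nat.cast_ofNat]; linarith)
  by_cases h33 : (69261772208201716 : ℝ) ≤ 2 ^ 56 * Real.cos (θ / 2)
  · exact cell_cover hN1 c7 c7_ok z33 z33_A z33_X0 z33_X1 z33_F (by decide +kernel) 69261772208201716 69984062278710699
      (by decide +kernel) (by decide +kernel) θ hθ hpi (by rw [Nat.cast_ofNat]; exact h33) (by rw [Nat.cast_ofNat]; linarith)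
  by_cases h34 : (68290119654757245 : ℝ) ≤ 2 ^ 56 * Real.cos (θ / 2)
  · exact cell_cover hN1 c7 c7_ok z34 z34_A z34_X0 z34_X1 z34_F (by decide +kernel) 68290119654757245 69261772208201716
      (by decide +kernel) (by decide +kernel) θ hθ hpi (by rw [Nat.cast_ofNat]; exact h34) (by rw [Nat.cast_ofNat]; linarith)
  by_cases h35 : (66984856880160057 : ℝ) ≤ 2 ^ 56 * Real.cos (θ / 2)
  · exact cell_cover hN1 c7 c7_ok z35 z35_A z35_X0 z35_X1 z35_F (by decide +kernel) 66984856880160057 68290119654757245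
      (by decide +kernel) (by decide +kernel) θ hθ hpi (by rw [Nat.cast_ofNat]; exact h35) (by rw [Nat.cast_ofNat]; linarith)
  by_cases h36 : (65234792066974176 : ℝ) ≤ 2 ^ 56 * Real.cos (θ / 2)
  · exact cell_cover hN1 c7 c7_ok z36 z36_A z36_X0 z36_X1 z36_F (by decide +kernel) 65234792066974176 66984856880160057
      (by decide +kernel) (by decide +kernel) θ hθ hpi (by rw [Nat.cast_ofNat]; exact h36) (by rw [Nat.cast_ofNat]; linarith)
  by_cases h37 : (62894438373114772 : ℝ) ≤ 2 ^ 56 * Real.cos (θ / 2)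
  · exact cell_cover hN1 c7 c7_ok z37 z37_A z37_X0 z37_X1 z37_F (by decide +kernel) 62894438373114772 65234792066974176
      (by decide +kernel) (by decide +kernel) θ hθ hpi (by rw [Nat.cast_ofNat]; exact h37) (by rw [Nat.cast_ofNat]; linarith)
  by_cases h38 : (59775751703283744 : ℝ) ≤ 2 ^ 56 * Real.cos (θ / 2)
  · exact cell_cover hN1 c7 c7_ok z38 z38_A z38_X0 z38_X1 z38_F (by decide +kernel) 59775751703283744 62894438373114772
      (by decide +kernel) (by decide +kernel) θ hθ hpi (by rw [Nat.cast_ofNat]; exact h38) (by rw [Nat.cast_ofNat]; linarith)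
  by_cases h39 : (55639922251015392 : ℝ) ≤ 2 ^ 56 * Real.cos (θ / 2)
  · exact cell_cover hN1 c7 c7_ok z39 z39_A z39_X0 z39_X1 z39_F (by decide +kernel) 55639922251015392 59775751703283744
      (by decide +kernel) (by decide +kernel) θ hθ hpi (by rw [Nat.cast_ofNat]; exact h39) (by rw [Nat.cast_ofNat]; linarith)
  by_cases h40 : (51795343332348729 : ℝ) ≤ 2 ^ 56 * Real.cos (θ / 2)
  · exact cell_cover hN1 c7 c7_ok z40 z40_A z40_X0 z40_X1 z40_F (by decide +kernel) 51795343332348729 55639922251015392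
      (by decide +kernel) (by decide +kernel) θ hθ hpi (by rw [Nat.cast_ofNat]; exact h40) (by rw [Nat.cast_ofNat]; linarith)
  by_cases h41 : (47111577910071612 : ℝ) ≤ 2 ^ 56 * Real.cos (θ / 2)
  · exact cell_cover hN1 c7 c7_ok z41 z41_A z41_X0 z41_X1 z41_F (by decide +kernel) 47111577910071612 51795343332348729
      (by decide +kernel) (by decide +kernel) θ hθ hpi (by rw [Nat.cast_ofNat]; exact h41) (by rw [Nat.cast_ofNat]; linarith)
  by_cases h42 : (41439112993585967 : ℝ) ≤ 2 ^ 56 * Real.cos (θ / 2)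
  · exact cell_cover hN1 c7 c7_ok z42 z42_A z42_X0 z42_X1 z42_F (by decide +kernel) 41439112993585967 47111577910071612
      (by decide +kernel) (by decide +kernel) θ hθ hpi (by rw [Nat.cast_ofNat]; exact h42) (by rw [Nat.cast_ofNat]; linarith)
  by_cases h43 : (34620979004749783 : ℝ) ≤ 2 ^ 56 * Real.cos (θ / 2)
  · exact cell_cover hN1 c7 c7_ok z43 z43_A z43_X0 z43_X1 z43_F (by decide +kernel) 34620979004749783 41439112993585967
      (by decide +kernel) (by decide +kernel) θ hθ hpi (by rw [Nat.cast_ofNat]; exact h43) (by rw [Nat.cast_ofNat]; linarith)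
  by_cases h44 : (28858084828118525 : ℝ) ≤ 2 ^ 56 * Real.cos (θ / 2)
  · exact cell_cover hN1 c7 c7_ok z44 z44_A z44_X0 z44_X1 z44_F (by decide +kernel) 28858084828118525 34620979004749783
      (by decide +kernel) (by decide +kernel) θ hθ hpi (by rw [Nat.cast_ofNat]; exact h44) (by rw [Nat.cast_ofNat]; linarith)
  by_cases h45 : (22357868570310389 : ℝ) ≤ 2 ^ 56 * Real.cos (θ / 2)
  · exact cell_cover hN1 c7 c7_ok z45 z45_A z45_X0 z45_X1 z45_F (by decide +kernel) 22357868570310389 28858084828118525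
      (by decide +kernel) (by decide +kernel) θ hθ hpi (by rw [Nat.cast_ofNat]; exact h45) (by rw [Nat.cast_ofNat]; linarith)
  by_cases h46 : (15082844082435779 : ℝ) ≤ 2 ^ 56 * Real.cos (θ / 2)
  · exact cell_cover hN1 c7 c7_ok z46 z46_A z46_X0 z46_X1 z46_F (by decide +kernel) 15082844082435779 22357868570310389
      (by decide +kernel) (by decide +kernel) θ hθ hpi (by rw [Nat.cast_ofNat]; exact h46) (by rw [Nat.cast_ofNat]; linarith)
  by_cases h47 : (7018020321553158 : ℝ) ≤ 2 ^ 56 * Real.cos (θ / 2)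
  · exact cell_cover hN1 c7 c7_ok z47 z47_A z47_X0 z47_X1 z47_F (by decide +kernel) 7018020321553158 15082844082435779
      (by decide +kernel) (by decide +kernel) θ hθ hpi (by rw [Nat.cast_ofNat]; exact h47) (by rw [Nat.cast_ofNat]; linarith)
  exact cell_cover hN1 c7 c7_ok z48 z48_A z48_X0 z48_X1 z48_F (by decide +kernel) 0 7018020321553158
      (by decide +kernel) (by decide +kernel) θ hθ hpi (by rw [Nat.cast_zero]; exact hx0) (by rw [Nat.cast_ofNat]; linarith)

/-- **P4**: all angles from `.003` to `π` -/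
theorem good_large (hN1 : N1Stmt) (θ : ℝ) (h : 0.003 ≤ θ) (hpi : θ ≤ Real.pi) : Good θ := by
  have hθ : 0 < θ := by linarith
  refine good_cover hN1 θ hθ hpi ?_
  have h1 : Real.cos (θ / 2) ≤ Real.cos 0.0015 := by
    apply Real.cos_le_cos_of_nonneg_of_le_pi (by norm_num) (by linarith [Real.pi_pos]) (by linarith)
  have h2 := Real.cos_bound (x := 0.0015) (by rw [abs_of_nonneg] <;> norm_num)
  have h3 := (abs_le.mp h2).2
  rw [abs_of_nonneg (by norm_num)] at h3
  have h4 : Real.cos 0.0015 ≤ 72057513512680876 / 2 ^ 56 := by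
    norm_num at h3 ⊢
    linarith
  have h5 : Real.cos (θ / 2) ≤ 72057513512680876 / 2 ^ 56 := h1.trans h4
  rw [le_div_iff₀ (by norm_num)] at h5
  linarith

end MP_d1b55a.K
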