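import Pool.Agent.Lib.MP_d1b55a_co.Chord

/-!
MP_d1b55a_co, P4: the chord lemma with two nodes, scaled, and its numerical form.
-/

open Finset Real

namespace MP_d1b55a.K

open MP_d1b55a

theorem slp_shift (n : ℕ) (s a b : ℝ) : slp n (s + a) (s + b) = psi n s * slp n a b := by
  unfold slp
  rw [psi_add, psi_add, add_sub_add_left_eq_sub, ← mul_sub, mul_div_assoc]

theorem s0T_shift (n : ℕ) (s a D : ℝ) : s0T n (s + a) D = psi n s * s0T n a D := by
  unfold s0T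
  rw [psi_add]; ring

theorem KT_shift (n : ℕ) (s a D : ℝ) : KT n (s + a) D = psi n s * (Real.exp s * KT n a D) := by
  unfold KT
  rw [psi_add, Real.exp_add]; ring

/-- the affine function of the chord lemma for two nodes, scaled -/
noncomputable def A2 (n : ℕ) (s G0 G1 T0 T1 D u : ℝ) : ℝ :=
  -psi n G0 - slp n G0 G1 * (T0 - G0 + u) + (slp n G0 G1 - s0T n G1 D) * (T1 - G1 + u) +
    Real.exp s * KT n G1 D

theorem chord2 {ι : Type*} [Fintype ι] [DecidableEq ι] (n : ℕ) (hn : 2 ≤ n) (g : ι → ℝ)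
    (s G0 G1 T0 T1 D P E u : ℝ) (h01 : G0 < G1) (hD : 0 < D)
    (htriv : ∀ b, s + G1 ≤ b → NC g b ≤ Real.exp b)
    (hT0 : NC g (s + G0) ≤ T0) (hT1 : NC g (s + G1) ≤ T1) (hT0p : 0 < T0)
    (hu : u < G0 - T0 / 2) (hP : psi n s * P ≤ ∑ k, psi n (g k))
    (hsep : psi n u + psi n (2 * G0 - T0 - u) + A2 n s G0 G1 T0 T1 D u < P)
    (hE : psi n (2 * G0 - T0 - u) + A2 n s G0 G1 T0 T1 D u ≤ E * psi n u)
    (hs : s0T n G1 D ≤ (n : ℝ) * A2 n s G0 G1 T0 T1 D u) :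
    ∃ k0, psi n (s + u) ≤ psi n (g k0) ∧
      ∑ k ∈ Finset.univ.erase k0, psi n (g k) ≤ E * psi n (g k0) := by
  set G : ℕ → ℝ := fun i => if i = 0 then s + G0 else s + G1 with hG
  set T : ℕ → ℝ := fun i => if i = 0 then T0 else T1 with hT
  have hG0 : G 0 = s + G0 := by simp [hG]
  have hG1 : G 1 = s + G1 := by simp [hG]
  have hTT0 : T 0 = T0 := by simp [hT]
  have hTT1 : T 1 = T1 := by simp [hT]
  have hAff : Aff n G T 1 D (s + u) = psi n s * A2 n s G0 G1 T0 T1 D u := by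
    unfold Aff A2
    rw [Finset.sum_range_one]
    have t0 : tt n G 1 D 0 = psi n s * slp n G0 G1 := by
      unfold tt
      rw [if_pos one_pos, zero_add, hG0, hG1, slp_shift]
    have t1 : tt n G 1 D (0 + 1) = psi n s * s0T n G1 D := by
      unfold tt
      rw [zero_add, if_neg (lt_irrefl 1), hG1, s0T_shift]
    rw [t0, t1, zero_add, hG0, hG1, hTT0, hTT1, KT_shift, psi_add]
    ring
  have hpos := psi_pos n s
  refine chord_lemma n hn g G T 1 ?_ D hD ?_ ?_ ?_ (psi n s * P) E (s + u) (s + G0 - T0 / 2) ?_ ?_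
    hP ?_ ?_ ?_
  · intro i hi
    have : i = 0 := by omega
    subst this
    rw [zero_add, hG0, hG1]
    linarith
  · intro b hb
    rw [hG1] at hb
    exact htriv b hb
  · intro i hi
    rcases Nat.le_one_iff_eq_zero_or_eq_one.mp hi with rfl | rfl
    · rw [hG0, hTT0]; exact hT0
    · rw [hG1, hTT1]; exact hT1
  · rw [hTT0]; exact hT0p
  · rw [hG0, hTT0]
  · linarith
  · rw [hAff]
    have e1 : 2 * (s + G0 - T0 / 2) - (s + u) = s + (2 * G0 - T0 - u) := by ring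
    rw [e1, psi_add, psi_add, ← mul_add, ← mul_add]
    exact mul_lt_mul_of_pos_left hsep hpos
  · rw [hAff]
    have e1 : 2 * (s + G0 - T0 / 2) - (s + u) = s + (2 * G0 - T0 - u) := by ring
    rw [e1, psi_add, psi_add, ← mul_add]
    calc psi n s * (psi n (2 * G0 - T0 - u) + A2 n s G0 G1 T0 T1 D u) ≤
        psi n s * (E * psi n u) := mul_le_mul_of_nonneg_left hE hpos.le
      _ = _ := by ring
  · rw [hAff, hG1, s0T_shift]
    calc psi n s * s0T n G1 D ≤ psi n s * ((n : ℝ) * A2 n s G0 G1 T0 T1 D u) :=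
        mul_le_mul_of_nonneg_left hs hpos.le
      _ = _ := by ring

/-! ### numerical form: `q = Q/(Q+1)`, all logarithms multiples of `L/n`, `L = log (1/q)` -/

/-- `q = Q/(Q+1)` -/
noncomputable def qq (Q : ℕ) : ℝ := (Q : ℝ) / (Q + 1)

noncomputable def LL (Q : ℕ) : ℝ := -Real.log (qq Q)

theorem qq_pos {Q : ℕ} (hQ : 1 ≤ Q) : 0 < qq Q := by
  unfold qq
  have : (0 : ℝ) < Q := by exact_mod_cast hQ
  positivity

theorem qq_lt_one (Q : ℕ) : qq Q < 1 := by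
  unfold qq
  rw [div_lt_one (by positivity)]
  linarith

theorem exp_LL {Q : ℕ} (hQ : 1 ≤ Q) (a : ℕ) : Real.exp (-(a : ℝ) * LL Q) = qq Q ^ a := by
  unfold LL
  have : -(a : ℝ) * -Real.log (qq Q) = (a : ℝ) * Real.log (qq Q) := by ring
  rw [this, mul_comm, Real.exp_mul, Real.exp_log (qq_pos hQ), Real.rpow_natCast]

theorem psi_LL {Q : ℕ} (hQ : 1 ≤ Q) (n : ℕ) (hn : 1 ≤ n) (a : ℕ) :
    psi n ((a : ℝ) * (LL Q / n)) = qq Q ^ a := by
  have hn' : (0 : ℝ) < n := by exact_mod_cast hn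
  unfold psi
  rw [← exp_LL hQ]
  congr 1
  field_simp

/-- `2/(2Q+1) ≤ L` -/
theorem LL_ge {Q : ℕ} (hQ : 1 ≤ Q) : 2 / (2 * (Q : ℝ) + 1) ≤ LL Q := by
  have hQ' : (0 : ℝ) < Q := by exact_mod_cast hQ
  have h1 : LL Q = Real.log (1 + 1 / (Q : ℝ)) := by
    unfold LL qq
    rw [← Real.log_inv]
    congr 1
    field_simp
  rw [h1]
  have h2 := Real.le_log_one_add_of_nonneg (x := 1 / (Q : ℝ)) (by positivity)
  refine le_trans (le_of_eq ?_) h2
  field_simp
  ring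

/-- `L ≤ 1/Q` -/
theorem LL_le {Q : ℕ} (hQ : 1 ≤ Q) : LL Q ≤ 1 / (Q : ℝ) := by
  have hQ' : (0 : ℝ) < Q := by exact_mod_cast hQ
  have h1 : LL Q = Real.log (1 + 1 / (Q : ℝ)) := by
    unfold LL qq
    rw [← Real.log_inv]
    congr 1
    field_simp
  rw [h1]
  have := Real.log_le_sub_one_of_pos (x := 1 + 1 / (Q : ℝ)) (by positivity)
  linarith

theorem LL_pos {Q : ℕ} (hQ : 1 ≤ Q) : 0 < LL Q :=
  lt_of_lt_of_le (by positivity) (LL_ge hQ)

end MP_d1b55a.K
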