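import Pool.Agent.Lib.MP_d1b55a_co.KOps

/-!
MP_d1b55a_co, P4: packed integer arithmetic for the kernel, part 5: lower and upper bounds,
conjugation, imaginary part, powers, constants.
-/

open Finset Polynomial

namespace MP_d1b55a.K

variable {c : Cfg} (hc : c.Ok) {t : ℝ} (ht : |t| ≤ 1)

/-! ### bounds -/

/-- lower bound check of the real part -/
def lowR (c : Cfg) (S err : ℕ) : Bool :=
  frc (Nat.mod (Nat.mod (Nat.add S c.OFC) c.N) c.BL) fun W =>
  Nat.ble (Nat.succ (Nat.add c.H (Nat.add (dsR c.B c.H (Nat.mul 2 c.p) (Nat.div W c.B)) err)))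
    (Nat.mod W c.B)

/-- upper bound of the modulus of the real part -/
def upR (c : Cfg) (S : ℕ) : ℕ :=
  dsR c.B c.H (Nat.succ (Nat.mul 2 c.p)) (Nat.mod (Nat.mod (Nat.add S c.OFC) c.N) c.BL)

include hc in
theorem ad_wd (f : ℤ[X]) (hb : ∀ i, |f.coeff i| < c.H) (i : ℕ) :
    ((ad (wd c f i) c.H : ℕ) : ℝ) = |(f.coeff i : ℝ)| := by
  have h6 := ad_cast (wd c f i) c.H
  rw [wd_cast c f hb, add_sub_cancel_right] at h6
  have _ := hc
  exact_mod_cast h6

include hc ht in
theorem lowR_spec (f g : ℤ[X]) (hf : f.natDegree ≤ 2 * c.p) (hg : g.natDegree ≤ 2 * c.p)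
    (hb : nm f < c.H) (hb' : nm g < c.H) (S : ℕ)
    (hS : (S : ℤ) ≡ f.eval (c.B : ℤ) + c.BL * g.eval (c.B : ℤ) [ZMOD c.N]) (err : ℕ)
    (h : lowR c S err = true) : (err : ℝ) < aeval t f := by
  have hbf : ∀ i, |f.coeff i| < c.H := fun i => lt_of_le_of_lt (coeff_le_nm f i) hb
  have hbg : ∀ i, |g.coeff i| < c.H := fun i => lt_of_le_of_lt (coeff_le_nm g i) hb'
  unfold lowR at h
  rw [frc_eq] at h
  have hW : Nat.mod (Nat.mod (Nat.add S c.OFC) c.N) c.BL =
    ∑ i ∈ range (2 * c.p + 1), wd c f i * c.B ^ i := (recC c hc f g hf hg hbf hbg S hS).1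
  rw [hW, Nat.ble_eq, dsR_eq] at h
  have h1 : Nat.mod (∑ i ∈ range (2 * c.p + 1), wd c f i * c.B ^ i) c.B = wd c f 0 := by
    have := dg_block c hc f hbf 0 (by omega)
    rwa [dg_zero] at this
  have h2 : ∑ i ∈ range (Nat.mul 2 c.p), ad (dg c.B i (Nat.div
      (∑ i ∈ range (2 * c.p + 1), wd c f i * c.B ^ i) c.B)) c.H =
      ∑ i ∈ range (2 * c.p), ad (wd c f (i + 1)) c.H := by
    apply sum_congr rfl
    intro i hi
    rw [mem_range] at hi
    have hi' : i < 2 * c.p := hi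
    have e : dg c.B i (Nat.div (∑ i ∈ range (2 * c.p + 1), wd c f i * c.B ^ i) c.B) =
      dg c.B (i + 1) (∑ i ∈ range (2 * c.p + 1), wd c f i * c.B ^ i) := (dg_succ _ _ _).symm
    rw [e, dg_block c hc f hbf (i + 1) (by omega)]
  rw [h1, h2] at h
  have h3 : c.H + (∑ i ∈ range (2 * c.p), ad (wd c f (i + 1)) c.H + err) < wd c f 0 := h
  have h4 : ((c.H : ℕ) : ℝ) + (((∑ i ∈ range (2 * c.p), ad (wd c f (i + 1)) c.H : ℕ) : ℝ) + err) <
      ((wd c f 0 : ℕ) : ℝ) := by exact_mod_cast h3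
  have h5 : ((wd c f 0 : ℕ) : ℝ) = (f.coeff 0 : ℝ) + c.H := by exact_mod_cast wd_cast c f hbf 0
  rw [h5, Nat.cast_sum] at h4
  rw [aev_eq f (2 * c.p + 1) (by omega) t, sum_range_succ' (fun i => (f.coeff i : ℝ) * t ^ i)]
  rw [pow_zero, mul_one]
  have h6 : |∑ i ∈ range (2 * c.p), (f.coeff (i + 1) : ℝ) * t ^ (i + 1)| ≤
      ∑ i ∈ range (2 * c.p), ((ad (wd c f (i + 1)) c.H : ℕ) : ℝ) := by
    refine (abs_sum_le_sum_abs _ _).trans ?_
    apply sum_le_sum
    intro i _
    rw [ad_wd hc f hbf, abs_mul, abs_pow]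
    calc _ ≤ |(f.coeff (i + 1) : ℝ)| * 1 :=
          mul_le_mul_of_nonneg_left (pow_le_one₀ (abs_nonneg t) ht) (abs_nonneg _)
      _ = _ := mul_one _
  have h7 := (abs_le.mp h6).1
  linarith

include hc ht in
theorem upR_spec (f g : ℤ[X]) (hf : f.natDegree ≤ 2 * c.p) (hg : g.natDegree ≤ 2 * c.p)
    (hb : nm f < c.H) (hb' : nm g < c.H) (S : ℕ)
    (hS : (S : ℤ) ≡ f.eval (c.B : ℤ) + c.BL * g.eval (c.B : ℤ) [ZMOD c.N]) :
    |aeval t f| ≤ (upR c S : ℝ) := by
  have hbf : ∀ i, |f.coeff i| < c.H := fun i => lt_of_le_of_lt (coeff_le_nm f i) hb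
  have hbg : ∀ i, |g.coeff i| < c.H := fun i => lt_of_le_of_lt (coeff_le_nm g i) hb'
  unfold upR
  have hW : Nat.mod (Nat.mod (Nat.add S c.OFC) c.N) c.BL =
    ∑ i ∈ range (2 * c.p + 1), wd c f i * c.B ^ i := (recC c hc f g hf hg hbf hbg S hS).1
  rw [hW, dsR_eq]
  have h2 : ∑ i ∈ range (Nat.succ (Nat.mul 2 c.p)), ad (dg c.B i
      (∑ i ∈ range (2 * c.p + 1), wd c f i * c.B ^ i)) c.H =
      ∑ i ∈ range (2 * c.p + 1), ad (wd c f i) c.H := by
    apply sum_congr rfl
    intro i hi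
    rw [mem_range] at hi
    have hi' : i < 2 * c.p + 1 := hi
    rw [dg_block c hc f hbf i hi']
  rw [h2, aev_eq f (2 * c.p + 1) (by omega) t, Nat.cast_sum]
  refine (abs_sum_le_sum_abs _ _).trans ?_
  apply sum_le_sum
  intro i _
  rw [ad_wd hc f hbf, abs_mul, abs_pow]
  calc _ ≤ |(f.coeff i : ℝ)| * 1 :=
        mul_le_mul_of_nonneg_left (pow_le_one₀ (abs_nonneg t) ht) (abs_nonneg _)
    _ = _ := mul_one _

/-! ### conjugation and imaginary part -/

/-- conjugate -/
def cjW (c : Cfg) (W : ℕ) : ℕ :=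
  frc (Nat.mod (Nat.add W c.OFC) c.N) fun V =>
  Nat.mod (Nat.add (Nat.add (Nat.mod V c.BL) (Nat.mul c.BL (Nat.sub (Nat.mul 2 c.OFR) (Nat.div V c.BL))))
    (Nat.sub c.N c.OFC)) c.N

/-- imaginary part as a real packed polynomial -/
def imW (c : Cfg) (W : ℕ) : ℕ :=
  Nat.mod (Nat.add (Nat.div (Nat.mod (Nat.add W c.OFC) c.N) c.BL) (Nat.sub c.N c.OFR)) c.N

include hc in
theorem OFC_le : c.OFC ≤ c.N := by
  have h1 := hc.OFR_lt
  rw [hc.hOFC, hc.hN]
  have h2 : c.BL * c.OFR + c.BL ≤ c.BL * c.BL := by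
    calc c.BL * c.OFR + c.BL = c.BL * (c.OFR + 1) := by ring
      _ ≤ c.BL * c.BL := Nat.mul_le_mul_left _ h1
  omega

theorem mod_congr (a n : ℕ) : ((a % n : ℕ) : ℤ) ≡ (a : ℤ) [ZMOD n] := by
  rw [Int.natCast_modEq_iff]; exact Nat.mod_modEq _ _

include hc in
theorem CT.conj (hM : c.Mx < c.H) {W e : ℕ} {v : ℂ} (h : CT c t W e v) :
    CT c t (cjW c W) e ((starRingEnd ℂ) v) := by
  obtain ⟨f, g, h1, h2, h3, h4, h5⟩ := h
  have hM' : (c.Mx : ℤ) < c.H := by exact_mod_cast hM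
  have hbf : ∀ i, |f.coeff i| < c.H := fun i => by
    have := coeff_le_nm f i; have := nm_nonneg g; linarith
  have hbg : ∀ i, |g.coeff i| < c.H := fun i => by
    have := coeff_le_nm g i; have := nm_nonneg f; linarith
  obtain ⟨r1, r2⟩ := recC c hc f g (by omega) (by omega) hbf hbg W h1
  refine ⟨f, -g, ?_, h2, by rw [natDegree_neg]; exact h3, by rw [nm_neg]; exact h4, ?_⟩
  · unfold cjW
    rw [frc_eq]
    have o1 := off_nat c hc f (by omega) hbf
    have o2 := off_nat c hc g (by omega) hbg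
    have e1 : Nat.mod (Nat.mod (Nat.add W c.OFC) c.N) c.BL =
      ∑ i ∈ range (2 * c.p + 1), wd c f i * c.B ^ i := r1
    have e2 : Nat.div (Nat.mod (Nat.add W c.OFC) c.N) c.BL =
      ∑ i ∈ range (2 * c.p + 1), wd c g i * c.B ^ i := r2
    rw [e1, e2]
    set F := ∑ i ∈ range (2 * c.p + 1), wd c f i * c.B ^ i
    set G := ∑ i ∈ range (2 * c.p + 1), wd c g i * c.B ^ i with hG
    have hle : G ≤ 2 * c.OFR := by
      have h6 : G ≤ ∑ i ∈ range (2 * c.p + 1), (2 * c.H) * c.B ^ i := by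
        apply sum_le_sum
        intro i _
        apply Nat.mul_le_mul_right
        have := wd_lt c hc g hbg i
        rw [hc.hB] at this
        omega
      rw [hc.hOFR, mul_sum]
      refine h6.trans (le_of_eq ?_)
      apply sum_congr rfl
      intro i _
      ring
    have e3 : Nat.mod (Nat.add (Nat.add F (Nat.mul c.BL (Nat.sub (Nat.mul 2 c.OFR) G)))
      (Nat.sub c.N c.OFC)) c.N = (F + c.BL * (2 * c.OFR - G) + (c.N - c.OFC)) % c.N := rfl
    rw [e3]
    refine (mod_congr _ _).trans ?_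
    rw [Nat.cast_add, Nat.cast_add, Nat.cast_mul, Nat.cast_sub hle, Nat.cast_sub (OFC_le hc),
      eval_neg, ← o1, ← o2, Int.modEq_iff_dvd]
    refine ⟨-1, ?_⟩
    rw [hc.hOFC]
    push_cast
    ring
  · have h6 : (c.one : ℂ) * (starRingEnd ℂ) v - (((aeval t f : ℝ) : ℂ) +
        ((aeval t (-g) : ℝ) : ℂ) * Complex.I) = (starRingEnd ℂ) ((c.one : ℂ) * v -
        (((aeval t f : ℝ) : ℂ) + ((aeval t g : ℝ) : ℂ) * Complex.I)) := by
      rw [map_neg]
      simp only [map_sub, map_add, map_mul, Complex.conj_ofReal, Complex.conj_I]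
      rw [map_natCast]
      push_cast
      ring
    rw [h6, Complex.norm_conj]
    exact h5

include hc in
theorem CT.im (hM : c.Mx < c.H) {W e : ℕ} {v : ℂ} (h : CT c t W e v) :
    RT c t (imW c W) c.Mx e v.im := by
  obtain ⟨f, g, h1, h2, h3, h4, h5⟩ := h
  have hM' : (c.Mx : ℤ) < c.H := by exact_mod_cast hM
  have hbf : ∀ i, |f.coeff i| < c.H := fun i => by
    have := coeff_le_nm f i; have := nm_nonneg g; linarith
  have hbg : ∀ i, |g.coeff i| < c.H := fun i => by
    have := coeff_le_nm g i; have := nm_nonneg f; linarith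
  obtain ⟨r1, r2⟩ := recC c hc f g (by omega) (by omega) hbf hbg W h1
  refine ⟨le_rfl, g, ?_, h3, by have := nm_nonneg f; linarith, ?_⟩
  · unfold imW
    have e2 : Nat.div (Nat.mod (Nat.add W c.OFC) c.N) c.BL =
      ∑ i ∈ range (2 * c.p + 1), wd c g i * c.B ^ i := r2
    rw [e2]
    have o2 := off_nat c hc g (by omega) hbg
    set G := ∑ i ∈ range (2 * c.p + 1), wd c g i * c.B ^ i with hG
    have e3 : Nat.mod (Nat.add G (Nat.sub c.N c.OFR)) c.N = (G + (c.N - c.OFR)) % c.N := rfl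
    rw [e3]
    refine (mod_congr _ _).trans ?_
    have h7 : c.OFR ≤ c.N := (hc.OFR_lt.trans hc.BL_lt_N).le
    rw [Nat.cast_add, Nat.cast_sub h7, ← o2, Int.modEq_iff_dvd]
    exact ⟨-1, by ring⟩
  · have h6 : (c.one : ℝ) * v.im - aeval t g = ((c.one : ℂ) * v -
        (((aeval t f : ℝ) : ℂ) + ((aeval t g : ℝ) : ℂ) * Complex.I)).im := by
      simp
    rw [h6]
    exact (Complex.abs_im_le_norm _).trans h5

/-! ### powers -/

/-- conditional -/
def bif2 (b x y : Bool) : Bool := Bool.rec (motive := fun _ => Bool) y x b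

theorem bif2_true (x y : Bool) : bif2 true x y = x := rfl
theorem bif2_false (x y : Bool) : bif2 false x y = y := rfl

/-- powers by repeated squaring -/
def powR (c : Cfg) (fuel : ℕ) : ℕ → ℕ → ℕ → ℕ → (ℕ → ℕ → ℕ → Bool) → Bool :=
  Nat.rec (motive := fun _ => ℕ → ℕ → ℕ → ℕ → (ℕ → ℕ → ℕ → Bool) → Bool)
    (fun _ _ _ _ _ => false)
    (fun _ ih m W b e k => bif2 (Nat.ble m 1) (k W b e)
      (ih (Nat.div m 2) W b e fun W1 b1 e1 =>
        nrmR c (Nat.mul W1 W1) c.one fun W2 b2 er =>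
        frc (Nat.add (Nat.add (Nat.div (Nat.add (Nat.mul (Nat.mul 2 b1) e1) (Nat.mul e1 e1)) c.one) 1) er)
          fun e2 =>
        bif2 (Nat.beq (Nat.mod m 2) 1)
          (nrmR c (Nat.mul W2 W) c.one fun W3 b3 er3 =>
            frc (Nat.add (Nat.add (Nat.div (Nat.add (Nat.add (Nat.mul b2 e) (Nat.mul b e2))
              (Nat.mul e2 e)) c.one) 1) er3) fun e3 => k W3 b3 e3)
          (k W2 b2 e2))) fuel

include hc ht in
theorem powR_spec (hM : 1 * (c.Mx * c.Mx) < c.H) (fuel : ℕ) : ∀ (m W b e : ℕ)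
    (k : ℕ → ℕ → ℕ → Bool) (v : ℝ), 1 ≤ m → RT c t W b e v → powR c fuel m W b e k = true →
    ∃ W' b' e', k W' b' e' = true ∧ RT c t W' b' e' (v ^ m) := by
  have hone : (c.one : ℝ) ≠ 0 := by exact_mod_cast hc.hone.ne'
  induction fuel with
  | zero => intro m W b e k v _ _ h; exact absurd h (by simp [powR])
  | succ fuel ih =>
    intro m W b e k v hm hv h
    have h0 : powR c (fuel + 1) m W b e k = bif2 (Nat.ble m 1) (k W b e)
      (powR c fuel (m / 2) W b e fun W1 b1 e1 =>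
        nrmR c (W1 * W1) c.one fun W2 b2 er =>
        frc ((2 * b1 * e1 + e1 * e1) / c.one + 1 + er) fun e2 =>
        bif2 (Nat.beq (m % 2) 1)
          (nrmR c (W2 * W) c.one fun W3 b3 er3 =>
            frc ((b2 * e + b * e2 + e2 * e) / c.one + 1 + er3) fun e3 => k W3 b3 e3)
          (k W2 b2 e2)) := rfl
    rw [h0] at h
    by_cases hm1 : m ≤ 1
    · have h1 : Nat.ble m 1 = true := Nat.ble_eq.mpr hm1
      rw [h1, bif2_true] at h
      have : m = 1 := by omega
      subst this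
      exact ⟨W, b, e, h, by rwa [pow_one]⟩
    · have h1 : Nat.ble m 1 = false := by
        rw [Bool.eq_false_iff]
        intro h2
        exact hm1 (Nat.ble_eq.mp h2)
      rw [h1, bif2_false] at h
      obtain ⟨W1, b1, e1, h2, h3⟩ := ih (m / 2) W b e _ v (by omega) hv h
      have h4 := (h3.mulS ht h3).mono
        (E' := ((2 * b1 * e1 + e1 * e1 : ℕ) : ℝ)) (by push_cast; linarith)
      obtain ⟨W2, b2, er, h5, h6⟩ := h4.nrm hc ht hM c.one hc.hone _ le_rfl _ h2
      rw [frc_eq] at h5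
      set e2 := (2 * b1 * e1 + e1 * e1) / c.one + 1 + er with he2
      have hv2 : (c.one * v ^ (m / 2)) * (c.one * v ^ (m / 2)) / (c.one * c.one) =
          v ^ (m / 2) * v ^ (m / 2) := by field_simp
      rw [hv2, ← pow_add] at h6
      by_cases hodd : m % 2 = 1
      · have h7 : Nat.beq (m % 2) 1 = true := by rw [hodd]; rfl
        rw [h7, bif2_true] at h5
        have h8 := (h6.mulS ht hv).mono
          (E' := ((b2 * e + b * e2 + e2 * e : ℕ) : ℝ)) (by push_cast; linarith)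
        obtain ⟨W3, b3, er3, h9, h10⟩ := h8.nrm hc ht hM c.one hc.hone _ le_rfl _ h5
        rw [frc_eq] at h9
        refine ⟨W3, b3, _, h9, ?_⟩
        have hv3 : (c.one * v ^ (m / 2 + m / 2)) * (c.one * v) / (c.one * c.one) = v ^ m := by
          have : m = (m / 2 + m / 2) + 1 := by omega
          conv_rhs => rw [this, pow_succ]
          field_simp
        rwa [hv3] at h10
      · have h7 : Nat.beq (m % 2) 1 = false := by
          have : m % 2 = 0 := by omega
          rw [this]; rfl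
        rw [h7, bif2_false] at h5
        refine ⟨W2, b2, e2, h5, ?_⟩
        have : m / 2 + m / 2 = m := by omega
        rwa [this] at h6

/-! ### constants -/

/-- packing of a list of natural numbers -/
def pk (B : ℕ) (l : List ℕ) : ℕ :=
  List.rec (motive := fun _ => ℕ) 0 (fun a _ ih => Nat.add a (Nat.mul B ih)) l

/-- the polynomial of a list -/
noncomputable def tp : List ℕ → ℤ[X]
  | [] => 0
  | a :: l => C (a : ℤ) + X * tp l

theorem pk_cons (B a : ℕ) (l : List ℕ) : pk B (a :: l) = a + B * pk B l := rfl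

theorem tp_eval (B : ℕ) (l : List ℕ) : (tp l).eval (B : ℤ) = ((pk B l : ℕ) : ℤ) := by
  induction l with
  | nil => simp [tp, pk]
  | cons a l ih => rw [tp, pk_cons, eval_add, eval_C, eval_mul, eval_X, ih]; push_cast; ring

theorem tp_natDegree (l : List ℕ) : (tp l).natDegree ≤ l.length - 1 := by
  induction l with
  | nil => simp [tp]
  | cons a l ih =>
    rw [tp]
    cases l with
    | nil => simp [tp]
    | cons b l =>
      refine (natDegree_add_le _ _).trans (max_le ?_ ?_)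
      · simp
      · refine natDegree_mul_le.trans ?_
        simp only [List.length_cons] at ih ⊢
        have := natDegree_X_le (R := ℤ)
        omega

theorem tp_nm (l : List ℕ) : nm (tp l) ≤ ((l.sum : ℕ) : ℤ) := by
  induction l with
  | nil => simp [tp, nm_zero]
  | cons a l ih =>
    rw [tp, List.sum_cons]
    refine (nm_add _ _).trans ?_
    have h1 : nm (C (a : ℤ)) = a := by
      have := nm_eq (C (a : ℤ)) 1 (by simp)
      rw [this]; simp
    have h2 : nm (X * tp l) = nm (tp l) := by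
      have := nm_monomial_mul 1 1 (tp l)
      rw [monomial_one_one_eq_X] at this
      rw [this]; simp
    rw [h1, h2, Nat.cast_add]; linarith

end MP_d1b55a.K
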