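import Pool.Agent.Lib.MP_d1b55a_co.KF

/-!
MP_d1b55a_co, P4: numerical form of the chord lemma with two nodes.
-/

open Finset Real

namespace MP_d1b55a.K

open MP_d1b55a

/-- slope between the nodes, in units -/
noncomputable def sl (q : ℝ) (a0 a1 : ℕ) : ℝ := (q ^ a0 - q ^ a1) / ((a1 : ℝ) - a0)

/-- slope of the tail, in units -/
noncomputable def s1 (q : ℝ) (a1 d : ℕ) : ℝ := q ^ a1 * (1 - q ^ d) / d

/-- the part without the tail constant -/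
noncomputable def bq (q : ℝ) (a0 a1 τ0 τ1 υ d : ℕ) : ℝ :=
  -q ^ a0 - sl q a0 a1 * ((τ0 : ℝ) - a0 + υ) + (sl q a0 a1 - s1 q a1 d) * ((τ1 : ℝ) - a1 + υ)

noncomputable def kHi (q : ℝ) (Q n a1 d dp : ℕ) (lh C1 rD : ℝ) : ℝ :=
  q ^ a1 * (lh * C1) * (1 - q ^ d) ^ 2 * rD * n * (2 * Q + 1) / (2 * d * (1 - q ^ dp))

noncomputable def kLo (q : ℝ) (Q n a1 d : ℕ) (ll : ℝ) : ℝ :=
  q ^ a1 * ll * (1 - q ^ d) ^ 2 * n * Q / d

theorem exp_le_of_pow {Q : ℕ} (hQ : 1 ≤ Q) (n : ℕ) (hn : 1 ≤ n) (a : ℕ) (C : ℝ) (hC : 0 ≤ C)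
    (h : 1 ≤ qq Q ^ a * C ^ n) : Real.exp ((a : ℝ) * (LL Q / n)) ≤ C := by
  have hn' : (0 : ℝ) < n := by exact_mod_cast hn
  have hq := pow_pos (qq_pos hQ) a
  have h1 : Real.exp ((a : ℝ) * (LL Q / n)) ^ n = (qq Q ^ a)⁻¹ := by
    rw [← Real.exp_nat_mul, ← exp_LL hQ, ← Real.exp_neg]
    congr 1
    field_simp
  have h2 : Real.exp ((a : ℝ) * (LL Q / n)) ^ n ≤ C ^ n := by
    rw [h1, inv_le_iff_one_le_mul₀ hq]
    linarith
  exact le_of_pow_le_pow_left₀ (by omega) hC h2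

theorem A2_bounds (Q n a0 a1 τ0 τ1 υ d dp : ℕ) (hQ : 1 ≤ Q) (hn : 2 ≤ n) (h01 : a0 < a1)
    (hd : 1 ≤ d) (hdp : 1 ≤ dp) (hdn : dp * n ≤ d * (n - 1)) (s ll lh C1 rD : ℝ)
    (hll : 0 ≤ ll) (hs1 : ll ≤ Real.exp s) (hs2 : Real.exp s ≤ lh) (hC1 : 0 ≤ C1) (hrD : 0 ≤ rD)
    (c1 : 1 ≤ qq Q ^ a1 * C1 ^ n) (c2 : 1 ≤ qq Q ^ d * rD ^ n) :
    A2 n s (a0 * (LL Q / n)) (a1 * (LL Q / n)) (τ0 * (LL Q / n)) (τ1 * (LL Q / n))
        (d * (LL Q / n)) (υ * (LL Q / n)) ≤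
      bq (qq Q) a0 a1 τ0 τ1 υ d + kHi (qq Q) Q n a1 d dp lh C1 rD ∧
    bq (qq Q) a0 a1 τ0 τ1 υ d + kLo (qq Q) Q n a1 d ll ≤
      A2 n s (a0 * (LL Q / n)) (a1 * (LL Q / n)) (τ0 * (LL Q / n)) (τ1 * (LL Q / n))
        (d * (LL Q / n)) (υ * (LL Q / n)) := by
  have hn' : (0 : ℝ) < n := by exact_mod_cast (by omega : 0 < n)
  have hd' : (0 : ℝ) < d := by exact_mod_cast hd
  have hL := LL_pos hQ
  have hLn : 0 < LL Q / n := by positivity
  have hq0 := qq_pos hQ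
  have hq1 := qq_lt_one Q
  have h01' : (0 : ℝ) < (a1 : ℝ) - a0 := by
    have : (a0 : ℝ) < a1 := by exact_mod_cast h01
    linarith
  have e1 : psi n (d * (LL Q / n)) = qq Q ^ d := psi_LL hQ n (by omega) d
  have e2 : Real.exp (-(n : ℝ) * (d * (LL Q / n))) = qq Q ^ d := e1
  have eslp : slp n (a0 * (LL Q / n)) (a1 * (LL Q / n)) = sl (qq Q) a0 a1 / (LL Q / n) := by
    unfold slp sl
    rw [psi_LL hQ n (by omega), psi_LL hQ n (by omega), ← sub_mul, div_div]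
  have es0 : s0T n (a1 * (LL Q / n)) (d * (LL Q / n)) = s1 (qq Q) a1 d / (LL Q / n) := by
    unfold s0T s1
    rw [psi_LL hQ n (by omega), e2]
    field_simp
  have hmain : A2 n s (a0 * (LL Q / n)) (a1 * (LL Q / n)) (τ0 * (LL Q / n)) (τ1 * (LL Q / n))
        (d * (LL Q / n)) (υ * (LL Q / n)) =
      bq (qq Q) a0 a1 τ0 τ1 υ d + Real.exp s * KT n (a1 * (LL Q / n)) (d * (LL Q / n)) := by
    unfold A2 bq
    rw [eslp, es0, psi_LL hQ n (by omega)]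
    field_simp
  rw [hmain]
  set D := (d : ℝ) * (LL Q / n) with hD
  have hD0 : 0 < D := by positivity
  set x := Real.exp (-((n : ℝ) - 1) * D) with hx
  have hx1 : x ≤ qq Q ^ dp := by
    rw [hx, ← exp_LL hQ]
    apply Real.exp_le_exp.mpr
    have h1 : (dp : ℝ) * n ≤ d * ((n : ℝ) - 1) := by
      have h2 : ((dp * n : ℕ) : ℝ) ≤ ((d * (n - 1) : ℕ) : ℝ) := by exact_mod_cast hdn
      rw [Nat.cast_mul, Nat.cast_mul, Nat.cast_sub (by omega)] at h2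
      push_cast at h2
      linarith
    have h3 : ((n : ℝ) - 1) * D = (d * ((n : ℝ) - 1)) * (LL Q / n) := by rw [hD]; ring
    have h4 : (dp : ℝ) * LL Q = (dp * n) * (LL Q / n) := by field_simp
    have h5 := mul_le_mul_of_nonneg_right h1 hLn.le
    linarith
  have hqdp : qq Q ^ dp < 1 := pow_lt_one₀ hq0.le hq1 (by omega)
  have hx0 : 0 < x := Real.exp_pos _
  have hqd : qq Q ^ d < 1 := pow_lt_one₀ hq0.le hq1 (by omega)
  have hKT : KT n (a1 * (LL Q / n)) D = qq Q ^ a1 * Real.exp (a1 * (LL Q / n)) *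
      (1 - qq Q ^ d) ^ 2 * Real.exp D / (D * (1 - x)) := by
    unfold KT
    rw [psi_LL hQ n (by omega), e2]
  have hG1 := exp_le_of_pow hQ n (by omega) a1 C1 hC1 c1
  have hDr := exp_le_of_pow hQ n (by omega) d rD hrD c2
  rw [← hD] at hDr
  have hG1' : 1 ≤ Real.exp (a1 * (LL Q / n)) := Real.one_le_exp (by positivity)
  have hDr' : 1 ≤ Real.exp D := Real.one_le_exp hD0.le
  have hqa := pow_pos hq0 a1
  have hes := Real.exp_pos s
  have hlh : 0 < lh := lt_of_lt_of_le hes hs2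
  constructor
  · apply add_le_add_right
    rw [hKT]
    unfold kHi
    have hDlo : (d : ℝ) * 2 / (n * (2 * Q + 1)) ≤ D := by
      have := LL_ge hQ
      rw [hD]
      calc (d : ℝ) * 2 / (n * (2 * Q + 1)) = d * (2 / (2 * (Q : ℝ) + 1) / n) := by field_simp
        _ ≤ d * (LL Q / n) := by gcongr
    have h6 : Real.exp s * (qq Q ^ a1 * Real.exp (a1 * (LL Q / n)) *
      (1 - qq Q ^ d) ^ 2 * Real.exp D / (D * (1 - x))) =
      (Real.exp s * (qq Q ^ a1 * Real.exp (a1 * (LL Q / n)) *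
      (1 - qq Q ^ d) ^ 2 * Real.exp D)) / (D * (1 - x)) := by ring
    rw [h6]
    have h7 : Real.exp s * (qq Q ^ a1 * Real.exp (a1 * (LL Q / n)) *
      (1 - qq Q ^ d) ^ 2 * Real.exp D) ≤ lh * (qq Q ^ a1 * C1 * (1 - qq Q ^ d) ^ 2 * rD) := by
      gcongr
    have h8 : (d : ℝ) * 2 / (n * (2 * Q + 1)) * (1 - qq Q ^ dp) ≤ D * (1 - x) := by
      apply mul_le_mul hDlo (by linarith) (by linarith) hD0.le
    have h9 : 0 < (d : ℝ) * 2 / (n * (2 * Q + 1)) * (1 - qq Q ^ dp) := by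
      have : 0 < 1 - qq Q ^ dp := by linarith
      positivity
    have h10 : (Real.exp s * (qq Q ^ a1 * Real.exp (a1 * (LL Q / n)) *
      (1 - qq Q ^ d) ^ 2 * Real.exp D)) / (D * (1 - x)) ≤
      lh * (qq Q ^ a1 * C1 * (1 - qq Q ^ d) ^ 2 * rD) /
        ((d : ℝ) * 2 / (n * (2 * Q + 1)) * (1 - qq Q ^ dp)) := by
      apply div_le_div₀ _ h7 h9 h8
      positivity
    refine h10.trans (le_of_eq ?_)
    have : (1 - qq Q ^ dp) ≠ 0 := by
      have : 0 < 1 - qq Q ^ dp := by linarith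
      exact this.ne'
    field_simp
  · apply add_le_add_right
    rw [hKT]
    unfold kLo
    have hDhi : D ≤ (d : ℝ) / (n * Q) := by
      have := LL_le hQ
      rw [hD]
      calc (d : ℝ) * (LL Q / n) ≤ d * (1 / (Q : ℝ) / n) := by gcongr
        _ = _ := by
          have : (0 : ℝ) < Q := by exact_mod_cast hQ
          field_simp
    have h6 : Real.exp s * (qq Q ^ a1 * Real.exp (a1 * (LL Q / n)) *
      (1 - qq Q ^ d) ^ 2 * Real.exp D / (D * (1 - x))) =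
      (Real.exp s * (qq Q ^ a1 * Real.exp (a1 * (LL Q / n)) *
      (1 - qq Q ^ d) ^ 2 * Real.exp D)) / (D * (1 - x)) := by ring
    rw [h6]
    have h7 : ll * (qq Q ^ a1 * 1 * (1 - qq Q ^ d) ^ 2 * 1) ≤
      Real.exp s * (qq Q ^ a1 * Real.exp (a1 * (LL Q / n)) *
      (1 - qq Q ^ d) ^ 2 * Real.exp D) := by
      gcongr
    have hx2 : 0 < 1 - x := by linarith
    have h8 : D * (1 - x) ≤ (d : ℝ) / (n * Q) := by
      calc D * (1 - x) ≤ D * 1 := by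
            apply mul_le_mul_of_nonneg_left _ hD0.le
            linarith
        _ ≤ _ := by rw [mul_one]; exact hDhi
    have h10 : ll * (qq Q ^ a1 * 1 * (1 - qq Q ^ d) ^ 2 * 1) / ((d : ℝ) / (n * Q)) ≤
      (Real.exp s * (qq Q ^ a1 * Real.exp (a1 * (LL Q / n)) *
      (1 - qq Q ^ d) ^ 2 * Real.exp D)) / (D * (1 - x)) := by
      apply div_le_div₀ _ h7 (by positivity) h8
      positivity
    refine le_trans (le_of_eq ?_) h10
    have : (0 : ℝ) < Q := by exact_mod_cast hQ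
    field_simp

/-- **chord lemma, numerical form** -/
theorem chord3 {ι : Type*} [Fintype ι] [DecidableEq ι] (g : ι → ℝ)
    (Q n a0 a1 τ0 τ1 υ d dp w : ℕ) (hQ : 1 ≤ Q) (hn : 2 ≤ n) (h01 : a0 < a1)
    (hd : 1 ≤ d) (hdp : 1 ≤ dp) (hdn : dp * n ≤ d * (n - 1)) (hτ : 1 ≤ τ0)
    (hw : w + τ0 + υ = 2 * a0) (hwu : 2 * υ + τ0 < 2 * a0) (s ll lh C1 rD P E : ℝ)
    (hll : 0 ≤ ll) (hs1 : ll ≤ Real.exp s) (hs2 : Real.exp s ≤ lh) (hC1 : 0 ≤ C1) (hrD : 0 ≤ rD)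
    (c1 : 1 ≤ qq Q ^ a1 * C1 ^ n) (c2 : 1 ≤ qq Q ^ d * rD ^ n)
    (c3 : qq Q ^ υ + qq Q ^ w + (bq (qq Q) a0 a1 τ0 τ1 υ d + kHi (qq Q) Q n a1 d dp lh C1 rD) < P)
    (c4 : qq Q ^ w + (bq (qq Q) a0 a1 τ0 τ1 υ d + kHi (qq Q) Q n a1 d dp lh C1 rD) ≤ E * qq Q ^ υ)
    (c5 : s1 (qq Q) a1 d * (2 * Q + 1) / 2 ≤ bq (qq Q) a0 a1 τ0 τ1 υ d + kLo (qq Q) Q n a1 d ll)
    (htriv : ∀ b, s + a1 * (LL Q / n) ≤ b → NC g b ≤ Real.exp b)
    (hT0 : NC g (s + a0 * (LL Q / n)) ≤ τ0 * (LL Q / n))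
    (hT1 : NC g (s + a1 * (LL Q / n)) ≤ τ1 * (LL Q / n))
    (hP : psi n s * P ≤ ∑ k, psi n (g k)) :
    ∃ k0, psi n (s + υ * (LL Q / n)) ≤ psi n (g k0) ∧
      ∑ k ∈ Finset.univ.erase k0, psi n (g k) ≤ E * psi n (g k0) := by
  have hn' : (0 : ℝ) < n := by exact_mod_cast (by omega : 0 < n)
  have hd' : (0 : ℝ) < d := by exact_mod_cast hd
  have hL := LL_pos hQ
  have hLn : 0 < LL Q / n := by positivity
  obtain ⟨hA1, hA2⟩ := A2_bounds Q n a0 a1 τ0 τ1 υ d dp hQ hn h01 hd hdp hdn s ll lh C1 rD hll hs1 hs2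
    hC1 hrD c1 c2
  have hwR : (w : ℝ) = 2 * a0 - τ0 - υ := by
    have : ((w + τ0 + υ : ℕ) : ℝ) = ((2 * a0 : ℕ) : ℝ) := by exact_mod_cast hw
    push_cast at this
    linarith
  have hwe : 2 * ((a0 : ℝ) * (LL Q / n)) - τ0 * (LL Q / n) - υ * (LL Q / n) = w * (LL Q / n) := by
    rw [hwR]; ring
  have hs1pos : 0 ≤ s1 (qq Q) a1 d := by
    unfold s1
    have h1 := qq_pos hQ
    have h2 : qq Q ^ d ≤ 1 := pow_le_one₀ h1.le (qq_lt_one Q).le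
    have : 0 ≤ 1 - qq Q ^ d := by linarith
    positivity
  refine chord2 n hn g s (a0 * (LL Q / n)) (a1 * (LL Q / n)) (τ0 * (LL Q / n)) (τ1 * (LL Q / n))
    (d * (LL Q / n)) P E (υ * (LL Q / n)) ?_ ?_ htriv hT0 hT1 ?_ ?_ hP ?_ ?_ ?_
  · apply mul_lt_mul_of_pos_right _ hLn
    exact_mod_cast h01
  · positivity
  · have : (0 : ℝ) < τ0 := by exact_mod_cast hτ
    positivity
  · have h1 : (2 : ℝ) * υ + τ0 < 2 * a0 := by exact_mod_cast hwu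
    have h2 : ((υ : ℝ)) < a0 - τ0 / 2 := by linarith
    have h3 := mul_lt_mul_of_pos_right h2 hLn
    linarith
  · rw [hwe, psi_LL hQ n (by omega), psi_LL hQ n (by omega)]
    linarith
  · rw [hwe, psi_LL hQ n (by omega), psi_LL hQ n (by omega)]
    linarith
  · have es0 : s0T n (a1 * (LL Q / n)) (d * (LL Q / n)) = s1 (qq Q) a1 d / (LL Q / n) := by
      unfold s0T s1
      have e2 : Real.exp (-(n : ℝ) * (d * (LL Q / n))) = qq Q ^ d := psi_LL hQ n (by omega) d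
      rw [psi_LL hQ n (by omega), e2]
      field_simp
    rw [es0, div_le_iff₀ hLn]
    have h1 := LL_ge hQ
    have h2 : s1 (qq Q) a1 d ≤ LL Q * (s1 (qq Q) a1 d * (2 * Q + 1) / 2) := by
      calc s1 (qq Q) a1 d = 2 / (2 * (Q : ℝ) + 1) * (s1 (qq Q) a1 d * (2 * Q + 1) / 2) := by
            field_simp
        _ ≤ _ := by gcongr
    have h3 : LL Q * (s1 (qq Q) a1 d * (2 * Q + 1) / 2) ≤
        LL Q * A2 n s (a0 * (LL Q / n)) (a1 * (LL Q / n)) (τ0 * (LL Q / n)) (τ1 * (LL Q / n))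
        (d * (LL Q / n)) (υ * (LL Q / n)) := by
      apply mul_le_mul_of_nonneg_left _ hL.le
      exact c5.trans hA2
    refine (h2.trans h3).trans (le_of_eq ?_)
    field_simp

end MP_d1b55a.K
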