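import Pool.Agent.Lib.MP_d1b55a_co.KG
import Pool.Agent.Lib.MP_d1b55a_co.Mahler
import Pool.Agent.Lib.MP_d1b55a_co.Final

/-!
MP_d1b55a_co, P4: from the bounds of `N` at two radii and the values `a_n`, `a_{n+1}` to `Good θ`.
-/

open Finset Real Polynomial

namespace MP_d1b55a.K

open MP_d1b55a

/-- Newton's identities for the roots of `F_M` (statement) -/
def N1Stmt : Prop := ∀ (y : ℂ) (M j : ℕ), 1 ≤ j → j ≤ M →
  ((FM y M).roots.map (fun r => ((-r)⁻¹) ^ j)).sum = pv j y

theorem NC_mono {ι : Type*} [Fintype ι] (g : ι → ℝ) {b b' : ℝ} (h : b ≤ b') :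
    NC g b ≤ NC g b' := by
  unfold NC
  apply Finset.sum_le_sum
  intro k _
  exact max_le_max (by linarith) le_rfl

/-- the reciprocals of the roots as a finite family -/
theorem roots_fin (y : ℂ) (M : ℕ) : ∃ (m : ℕ) (z : Fin m → ℂ), (∀ k, z k ≠ 0) ∧
    (∀ j : ℕ, ∑ k, z k ^ j = ((FM y M).roots.map (fun r => ((-r)⁻¹) ^ j)).sum) ∧
    (∀ b : ℝ, NC (fun k => -Real.log ‖z k‖) b = NM y M (Real.exp b)) ∧
    (∀ k, (FM y M).eval (-(z k)⁻¹) = 0) ∧
    (∀ f : ℂ → ℝ, ((FM y M).roots.map f).sum = ∑ k, f (-(z k)⁻¹)) := by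
  set l := (FM y M).roots.toList with hl
  have hcoe : (l : Multiset ℂ) = (FM y M).roots := Multiset.coe_toList _
  have hF0 : FM y M ≠ 0 := by
    intro h
    have := FM_coeff_zero y M
    rw [h] at this
    simp at this
  have hroot : ∀ r ∈ l, (FM y M).eval r = 0 ∧ r ≠ 0 := by
    intro r hr
    rw [hl, Multiset.mem_toList, mem_roots hF0] at hr
    refine ⟨hr, ?_⟩
    intro h0
    rw [h0, IsRoot.def, ← coeff_zero_eq_eval_zero, FM_coeff_zero] at hr
    exact one_ne_zero hr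
  have hsum : ∀ {α : Type} [AddCommMonoid α] (f : ℂ → α), ((FM y M).roots.map f).sum =
      ∑ k : Fin l.length, f (l.get k) := by
    intro α _ f
    rw [← hcoe, Multiset.map_coe, Multiset.sum_coe, ← List.sum_ofFn]
    congr 1
    apply List.ext_get
    · simp
    · intro i h1 h2
      simp
  refine ⟨l.length, fun k => -(l.get k)⁻¹, ?_, ?_, ?_, ?_, ?_⟩
  · intro k
    have := (hroot _ (List.get_mem l k)).2
    simpa using this
  · intro j
    rw [hsum]
    apply Finset.sum_congr rfl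
    intro k _
    change (-(l.get k)⁻¹) ^ j = ((-(l.get k))⁻¹) ^ j
    rw [inv_neg]
  · intro b
    unfold NM NC
    rw [hsum]
    apply Finset.sum_congr rfl
    intro k _
    have hne := (hroot _ (List.get_mem l k)).2
    have hpos : 0 < ‖l.get k‖ := norm_pos_iff.mpr hne
    change max (b - -Real.log ‖-(l.get k)⁻¹‖) 0 = _
    rw [norm_neg, norm_inv, Real.log_inv, neg_neg, Real.posLog,
      Real.log_div (Real.exp_pos b).ne' hpos.ne', Real.log_exp, max_comm]
  · intro k
    have := (hroot _ (List.get_mem l k)).1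
    simpa using this
  · intro f
    rw [hsum]
    apply Finset.sum_congr rfl
    intro k _
    change f (l.get k) = f (-(-(l.get k)⁻¹)⁻¹)
    rw [inv_neg, inv_inv, neg_neg]

theorem norm_one_sub_yy (θ : ℝ) (h : 0 ≤ Real.sin (θ / 2)) :
    ‖1 - yy θ‖ = 2 * Real.sin (θ / 2) := by
  have h1 : 1 - yy θ = ((2 * Real.sin (θ / 2) : ℝ) : ℂ) *
      (-Complex.I * Complex.exp (((θ / 2 : ℝ) : ℂ) * Complex.I)) := by
    have h2 : ((2 * Real.sin (θ / 2) : ℝ) : ℂ) = (Complex.exp (-(((θ / 2 : ℝ) : ℂ)) * Complex.I) -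
        Complex.exp ((((θ / 2 : ℝ) : ℂ)) * Complex.I)) * Complex.I := by
      push_cast
      rw [Complex.sin]
      ring
    rw [h2]
    unfold yy
    have h3 : Complex.exp (-(((θ / 2 : ℝ) : ℂ)) * Complex.I) *
        Complex.exp ((((θ / 2 : ℝ) : ℂ)) * Complex.I) = 1 := by
      rw [← Complex.exp_add]; simp
    have h4 : Complex.exp ((((θ / 2 : ℝ) : ℂ)) * Complex.I) *
        Complex.exp ((((θ / 2 : ℝ) : ℂ)) * Complex.I) = Complex.exp ((θ : ℂ) * Complex.I) := by
      rw [← Complex.exp_add]; congr 1; push_cast; ring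
    linear_combination (Complex.I ^ 2) * h3 - (Complex.I ^ 2) * h4 +
      (1 - Complex.exp ((θ : ℂ) * Complex.I)) * Complex.I_sq
  rw [h1, norm_mul, norm_mul, norm_neg, Complex.norm_I, one_mul, Complex.norm_exp_ofReal_mul_I,
    mul_one, Complex.norm_real, Real.norm_eq_abs, abs_of_nonneg (by positivity)]

end MP_d1b55a.K
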