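import Pool.Agent.Lib.MP_d1b55a_co.KH

/-!
MP_d1b55a_co, P4: separation of one root from the others, and `Good θ`.
-/

open Finset Real Polynomial

namespace MP_d1b55a.K

open MP_d1b55a

/-- numerical data of a cell (chord lemma) -/
structure Num where
  Q : ℕ
  n : ℕ
  a0 : ℕ
  a1 : ℕ
  τ0 : ℕ
  τ1 : ℕ
  υ : ℕ
  d : ℕ
  dp : ℕ
  w : ℕ

/-- the conditions on the numerical data -/
structure Num.Ok (N : Num) (ll lh C0 C1 rD P E : ℝ) : Prop where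
  hQ : 1 ≤ N.Q
  hn : 2 ≤ N.n
  h01 : N.a0 < N.a1
  hd : 1 ≤ N.d
  hdp : 1 ≤ N.dp
  hdn : N.dp * N.n ≤ N.d * (N.n - 1)
  hτ : 1 ≤ N.τ0
  hw : N.w + N.τ0 + N.υ = 2 * N.a0
  hwu : 2 * N.υ + N.τ0 < 2 * N.a0
  hll : 0 ≤ ll
  hC0 : 0 < C0
  hC1 : 0 < C1
  hrD : 0 ≤ rD
  c0 : 1 ≤ qq N.Q ^ N.a0 * C0 ^ N.n
  c1 : 1 ≤ qq N.Q ^ N.a1 * C1 ^ N.n
  c2 : 1 ≤ qq N.Q ^ N.d * rD ^ N.n
  c3 : qq N.Q ^ N.υ + qq N.Q ^ N.w + (bq (qq N.Q) N.a0 N.a1 N.τ0 N.τ1 N.υ N.d +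
    kHi (qq N.Q) N.Q N.n N.a1 N.d N.dp lh C1 rD) < P
  c4 : qq N.Q ^ N.w + (bq (qq N.Q) N.a0 N.a1 N.τ0 N.τ1 N.υ N.d +
    kHi (qq N.Q) N.Q N.n N.a1 N.d N.dp lh C1 rD) ≤ E * qq N.Q ^ N.υ
  c5 : s1 (qq N.Q) N.a1 N.d * (2 * N.Q + 1) / 2 ≤ bq (qq N.Q) N.a0 N.a1 N.τ0 N.τ1 N.υ N.d +
    kLo (qq N.Q) N.Q N.n N.a1 N.d ll

/-- unit of the logarithms -/
noncomputable def Num.L (N : Num) : ℝ := LL N.Q / N.n

theorem psi_log (n : ℕ) (x : ℝ) (hx : 0 < x) : psi n (-Real.log x) = x ^ n := by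
  unfold psi
  have : -(n : ℝ) * -Real.log x = n * Real.log x := by ring
  rw [this, mul_comm, Real.exp_mul, Real.exp_log hx, Real.rpow_natCast]

/-- **separation** -/
theorem sep (hN1 : N1Stmt) (θ : ℝ) (hσ : 0 < Real.sin (θ / 2)) (ℓ : ℝ) (hℓ : 0 < ℓ)
    (N : Num) (ll lh C0 C1 rD P E : ℝ) (hll : ll ≤ ℓ / 2) (hlh : ℓ / 2 ≤ lh)
    (ok : N.Ok ll lh C0 C1 rD P E) (B0 B1 : ℝ[X]) (hB0 : B0.coeff 0 = 1) (hB1 : B1.coeff 0 = 1)
    (hS0 : ∑' n, (dd θ 0 (ℓ * Real.sin (θ / 2) * C0) B0 n) ^ 2 < Real.exp (4 * (N.τ0 * N.L)))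
    (hS1 : ∑' n, (dd θ 0 (ℓ * Real.sin (θ / 2) * C1) B1 n) ^ 2 < Real.exp (4 * (N.τ1 * N.L)))
    (hP : P * (2 * Real.sin (θ / 2)) ≤ (ℓ * Real.sin (θ / 2)) ^ N.n * ‖av N.n (yy θ)‖) :
    ∃ M0 : ℕ, ∀ M ≥ M0, ∃ (m : ℕ) (z : Fin m → ℂ) (k0 : Fin m), (∀ k, z k ≠ 0) ∧
      (∀ j, 1 ≤ j → j ≤ M → ∑ k, z k ^ j = pv j (yy θ)) ∧
      (∀ f : ℂ → ℝ, ((FM (yy θ) M).roots.map f).sum = ∑ k, f (-(z k)⁻¹)) ∧
      ∑ k ∈ Finset.univ.erase k0, ‖z k‖ ^ N.n ≤ E * ‖z k0‖ ^ N.n ∧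
      -Real.log ‖z k0‖ ≤ Real.log (ℓ / 2) + N.υ * N.L ∧
      ∀ k, k ≠ k0 → Real.log (ℓ / 2) + N.w * N.L ≤ -Real.log ‖z k‖ := by
  have hℓ2 : 0 < ℓ / 2 := by positivity
  have hn := ok.hn
  have hn0 : 0 < N.n := by omega
  have hnR : (0 : ℝ) < N.n := by exact_mod_cast hn0
  have hLn : 0 < N.L := by
    have := LL_pos ok.hQ
    unfold Num.L; positivity
  set s := Real.log (ℓ / 2) with hs
  have hexps : Real.exp s = ℓ / 2 := Real.exp_log hℓ2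
  have hyn : ‖yy θ‖ = 1 := Complex.norm_exp_ofReal_mul_I θ
  obtain ⟨M1, hM1⟩ := N2 θ 0 (ℓ * Real.sin (θ / 2) * C0) hσ
    (by have := ok.hC0; positivity) B0 hB0 (N.τ0 * N.L) hS0
  obtain ⟨M2, hM2⟩ := N2 θ 0 (ℓ * Real.sin (θ / 2) * C1) hσ
    (by have := ok.hC1; positivity) B1 hB1 (N.τ1 * N.L) hS1
  refine ⟨max (max M1 M2) N.n, fun M hM => ?_⟩
  have hM1' := hM1 M (le_trans (le_max_left _ _) (le_trans (le_max_left _ _) hM))
  have hM2' := hM2 M (le_trans (le_max_right _ _) (le_trans (le_max_left _ _) hM))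
  have hMn : N.n ≤ M := le_trans (le_max_right _ _) hM
  obtain ⟨m, z, hz0, hz1, hz2, _, hz4⟩ := roots_fin (yy θ) M
  have hzp : ∀ k, 0 < ‖z k‖ := fun k => norm_pos_iff.mpr (hz0 k)
  set g : Fin m → ℝ := fun k => -Real.log ‖z k‖ with hg
  have hpsi : ∀ k, psi N.n (g k) = ‖z k‖ ^ N.n := fun k => psi_log _ _ (hzp k)
  have hNC : ∀ b, NC g b = NM (yy θ) M (Real.exp b) := hz2
  have hrad : ∀ (C : ℝ) (a : ℕ) (τ : ℝ), 0 < C → 1 ≤ qq N.Q ^ a * C ^ N.n →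
      NM (Complex.exp (θ * Complex.I)) M (ℓ * Real.sin (θ / 2) * C / (2 * Real.sin (θ / 2))) ≤ τ →
      NC g (s + a * N.L) ≤ τ := by
    intro C a τ hC hCa hN
    have h1 : Real.exp ((a : ℝ) * N.L) ≤ C := exp_le_of_pow ok.hQ N.n (by omega) a C hC.le hCa
    have h2 : (a : ℝ) * N.L ≤ Real.log C := by
      rw [Real.le_log_iff_exp_le hC]; exact h1
    refine (NC_mono g (b' := s + Real.log C) (by linarith)).trans ?_
    rw [hNC, Real.exp_add, hexps, Real.exp_log hC]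
    have h3 : ℓ * Real.sin (θ / 2) * C / (2 * Real.sin (θ / 2)) = ℓ / 2 * C := by
      field_simp
    rw [h3] at hN
    exact hN
  have hT0 : NC g (s + N.a0 * (LL N.Q / N.n)) ≤ N.τ0 * (LL N.Q / N.n) :=
    hrad C0 N.a0 _ ok.hC0 ok.c0 hM1'
  have hT1 : NC g (s + N.a1 * (LL N.Q / N.n)) ≤ N.τ1 * (LL N.Q / N.n) :=
    hrad C1 N.a1 _ ok.hC1 ok.c1 hM2'
  have htriv : ∀ b, s + N.a1 * (LL N.Q / N.n) ≤ b → NC g b ≤ Real.exp b := by
    intro b _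
    rw [hNC]
    exact N3 (yy θ) hyn.le M _ (Real.exp_pos b)
  have hpn : ∑ k, z k ^ N.n = pv N.n (yy θ) := by
    rw [hz1, hN1 (yy θ) M N.n (by omega) hMn]
  have hPs : psi N.n s * P ≤ ∑ k, psi N.n (g k) := by
    have h1 : ‖pv N.n (yy θ)‖ ≤ ∑ k, psi N.n (g k) := by
      rw [← hpn]
      refine (norm_sum_le _ _).trans (le_of_eq ?_)
      apply Finset.sum_congr rfl
      intro k _
      rw [hpsi, norm_pow]
    refine le_trans ?_ h1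
    unfold pv
    rw [norm_mul, norm_pow, norm_one_sub_yy θ hσ.le]
    have h2 : psi N.n s = ((ℓ / 2) ^ N.n)⁻¹ := by
      have := psi_log N.n (ℓ / 2)⁻¹ (by positivity)
      rw [Real.log_inv, neg_neg, ← hs] at this
      rw [this, inv_pow]
    have h3 : P ≤ (ℓ * Real.sin (θ / 2)) ^ N.n * ‖av N.n (yy θ)‖ / (2 * Real.sin (θ / 2)) := by
      rw [le_div_iff₀ (by positivity)]; exact hP
    have h4 : ((ℓ / 2) ^ N.n)⁻¹ * ((ℓ * Real.sin (θ / 2)) ^ N.n * ‖av N.n (yy θ)‖ /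
        (2 * Real.sin (θ / 2))) = (2 * Real.sin (θ / 2)) ^ (N.n - 1) * ‖av N.n (yy θ)‖ := by
      obtain ⟨k, hk⟩ : ∃ k, N.n = k + 1 := ⟨N.n - 1, by omega⟩
      rw [hk, Nat.add_sub_cancel]
      have e1 : (ℓ * Real.sin (θ / 2)) ^ (k + 1) =
        (ℓ / 2) ^ (k + 1) * ((2 * Real.sin (θ / 2)) ^ k * (2 * Real.sin (θ / 2))) := by
        rw [← pow_succ, ← mul_pow]; congr 1; ring
      rw [e1]
      field_simp
    rw [h2, ← h4]
    exact mul_le_mul_of_nonneg_left h3 (by positivity)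
  obtain ⟨k0, hk1, hk2⟩ := chord3 g N.Q N.n N.a0 N.a1 N.τ0 N.τ1 N.υ N.d N.dp N.w ok.hQ ok.hn ok.h01
    ok.hd ok.hdp ok.hdn ok.hτ ok.hw ok.hwu s ll lh C1 rD P E ok.hll (by rw [hexps]; exact hll)
    (by rw [hexps]; exact hlh) ok.hC1.le ok.hrD ok.c1 ok.c2 ok.c3 ok.c4 ok.c5 htriv hT0 hT1 hPs
  have hg0 : g k0 ≤ s + N.υ * N.L := by
    unfold psi at hk1
    rw [Real.exp_le_exp] at hk1
    have h5 : (N.n : ℝ) * g k0 ≤ N.n * (s + N.υ * (LL N.Q / N.n)) := by linarith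
    exact le_of_mul_le_mul_left h5 hnR
  refine ⟨m, z, k0, hz0, ?_, hz4, ?_, hg0, ?_⟩
  · intro j hj1 hj2
    rw [hz1, hN1 (yy θ) M j hj1 hj2]
  · simp only [hpsi] at hk2
    exact hk2
  · intro k hk
    by_contra hcon
    push Not at hcon
    have h1 : (s + N.a0 * N.L - g k0) + (s + N.a0 * N.L - g k) ≤ NC g (s + N.a0 * N.L) := by
      unfold NC
      rw [← Finset.add_sum_erase _ _ (Finset.mem_univ k0)]
      apply add_le_add (le_max_left _ _)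
      have hke : k ∈ Finset.univ.erase k0 := by simp [hk]
      exact (le_max_left _ _).trans (Finset.single_le_sum
        (f := fun i => max (s + N.a0 * N.L - g i) 0) (fun i _ => le_max_right _ _) hke)
    have h2 := h1.trans hT0
    have hwR : (N.w : ℝ) + N.τ0 + N.υ = 2 * N.a0 := by exact_mod_cast ok.hw
    have h3 : (N.w : ℝ) * N.L + N.τ0 * N.L + N.υ * N.L = 2 * (N.a0 * N.L) := by
      rw [← add_mul, ← add_mul, hwR]; ring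
    have h4 : N.τ0 * (LL N.Q / N.n) = N.τ0 * N.L := rfl
    rw [h4] at h2
    have h5 : g k < s + N.w * N.L := hcon
    linarith

theorem arcsin_bound : Real.arcsin (19 / 50) ≤ Real.pi / 8 := by
  rw [← Real.arcsin_sin (x := Real.pi / 8) (by have := Real.pi_pos; linarith)
    (by have := Real.pi_pos; linarith)]
  apply Real.monotone_arcsin
  rw [Real.sin_pi_div_eight]
  have h2 : Real.sqrt 2 ≤ 1.4224 := by
    rw [Real.sqrt_le_left (by norm_num)]; norm_num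
  have h3 : (0.76 : ℝ) ≤ Real.sqrt (2 - Real.sqrt 2) := by
    apply Real.le_sqrt_of_sq_le
    norm_num at h2 ⊢
    linarith
  norm_num at h3 ⊢
  linarith

/-- polar form from a positive real part -/
theorem polar_of_re (a b : ℂ) (h : 0 < (a * (starRingEnd ℂ) b).re) :
    ∃ ρ γ : ℝ, 0 < ρ ∧ |γ| < Real.pi / 2 ∧
      a = (ρ : ℂ) * Complex.exp ((γ : ℂ) * Complex.I) * b := by
  have hb : b ≠ 0 := by
    rintro rfl; simp at h
  have hb2 : 0 < Complex.normSq b := Complex.normSq_pos.mpr hb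
  have hr : a / b = (a * (starRingEnd ℂ) b) / (Complex.normSq b : ℝ) := by
    have := Complex.mul_conj b
    have hbc : (Complex.normSq b : ℂ) ≠ 0 := by exact_mod_cast hb2.ne'
    have hcb : (starRingEnd ℂ) b ≠ 0 := by simpa using hb
    rw [← this]
    field_simp
  have hre : 0 < (a / b).re := by
    rw [hr, Complex.div_ofReal_re]
    positivity
  have hab : a / b ≠ 0 := by
    intro h0; rw [h0] at hre; simp at hre
  refine ⟨‖a / b‖, (a / b).arg, norm_pos_iff.mpr hab, ?_, ?_⟩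
  · rw [Complex.abs_arg_lt_pi_div_two_iff]
    exact Or.inl hre
  · rw [Complex.norm_mul_exp_arg_mul_I]
    field_simp

/-- **`Good θ` from the data of a cell** -/
theorem core (hN1 : N1Stmt) (θ : ℝ) (h0 : 0 < θ) (hpi : θ ≤ Real.pi) (ℓ : ℝ) (hℓ : 0 < ℓ)
    (N : Num) (ll lh C0 C1 rD P : ℝ) (hll : ll ≤ ℓ / 2) (hlh : ℓ / 2 ≤ lh)
    (ok : N.Ok ll lh C0 C1 rD P (19 / 50)) (B0 B1 : ℝ[X]) (hB0 : B0.coeff 0 = 1)
    (hB1 : B1.coeff 0 = 1)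
    (hS0 : ∑' n, (dd θ 0 (ℓ * Real.sin (θ / 2) * C0) B0 n) ^ 2 < Real.exp (4 * (N.τ0 * N.L)))
    (hS1 : ∑' n, (dd θ 0 (ℓ * Real.sin (θ / 2) * C1) B1 n) ^ 2 < Real.exp (4 * (N.τ1 * N.L)))
    (hP : P * (2 * Real.sin (θ / 2)) ≤ (ℓ * Real.sin (θ / 2)) ^ N.n * ‖av N.n (yy θ)‖)
    (hI : ∀ m, 1 ≤ m → m < N.n → GoodAt m (yy θ))
    (hre : 0 < (av (N.n + 1) (yy θ) * (starRingEnd ℂ) (av N.n (yy θ))).re) : Good θ := by
  have hσ : 0 < Real.sin (θ / 2) :=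
    Real.sin_pos_of_pos_of_lt_pi (by linarith) (by linarith [Real.pi_pos])
  obtain ⟨M0, hM0⟩ := sep hN1 θ hσ ℓ hℓ N ll lh C0 C1 rD P (19 / 50) hll hlh ok B0 B1 hB0 hB1 hS0 hS1
    hP
  have hD : Dom (yy θ) N.n (19 / 50) (19 / 50) := by
    intro K
    obtain ⟨m, z, k0, h1, h2, _, h4, _, _⟩ := hM0 (max M0 K) (le_max_left _ _)
    refine ⟨m, z, k0, ?_, h1 k0, h4, ?_⟩
    · intro j hj1 hj2
      exact h2 j hj1 (hj2.trans (le_max_right _ _))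
    · exact tail_mono z k0 N.n (N.n + 1) (by omega) (19 / 50) (by norm_num) (h1 k0) h4
  obtain ⟨ρ, γ, hρ, hγ, hr⟩ := polar_of_re _ _ hre
  have hn : 1 ≤ N.n := by have := ok.hn; omega
  refine good_of_dom θ h0 hpi N.n hn hI (19 / 50) (19 / 50) (by norm_num) le_rfl hD ρ γ hρ hr ?_
  have := arcsin_bound
  linarith

end MP_d1b55a.K
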