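import Pool.Agent.Lib.MP_d1b55a_co.KY

/-!
MP_d1b55a_co, P4: the complete bound of `∑ d_n²` on one cell.
-/

open Finset Polynomial

namespace MP_d1b55a.K

/-- factorial -/
def fct (n : ℕ) : ℕ := Nat.rec (motive := fun _ => ℕ) 1 (fun k ih => Nat.mul (Nat.succ k) ih) n

theorem fct_eq (n : ℕ) : fct n = n.factorial := by
  induction n with
  | zero => rfl
  | succ n ih => rw [Nat.factorial_succ, ← ih]; rfl

theorem a_half (R : ℝ) (hR : 0 ≤ R) (m1 : ℕ) (h : 2 * R ≤ m1 + 1) (i : ℕ) :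
    R ^ (m1 + i) / ((m1 + i).factorial : ℝ) ≤ R ^ m1 / (m1.factorial : ℝ) * (1 / 2) ^ i := by
  induction i with
  | zero => simp
  | succ i ih =>
    have h1 : R ^ (m1 + (i + 1)) / ((m1 + (i + 1)).factorial : ℝ) =
        R ^ (m1 + i) / ((m1 + i).factorial : ℝ) * (R / ((m1 : ℝ) + i + 1)) := by
      rw [← add_assoc, pow_succ, Nat.factorial_succ]
      have : ((m1 + i).factorial : ℝ) ≠ 0 := by exact_mod_cast (m1 + i).factorial_ne_zero
      have h2 : (m1 : ℝ) + i + 1 ≠ 0 := by positivity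
      push_cast
      field_simp
    have h2 : R / ((m1 : ℝ) + i + 1) ≤ 1 / 2 := by
      rw [div_le_iff₀ (by positivity)]
      have : (0 : ℝ) ≤ i := Nat.cast_nonneg i
      linarith
    rw [h1, pow_succ, ← mul_assoc]
    exact mul_le_mul ih h2 (by positivity) (by positivity)

theorem tail_sum (θ ρ R : ℝ) (hσ : 0 < Real.sin (θ / 2)) (hρ : 0 < ρ)
    (hR : ρ / Real.sin (θ / 2) = R) (BD : ℕ) (hBD : 0 < BD) (l : List ℤ) (M Lb : ℕ)
    (hl : l.length ≤ Lb) (hM : Lb ≤ M + 1) (h : 2 * R ≤ ((M + 2 - Lb : ℕ) : ℝ) + 1) :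
    ∑' n, (dd θ 0 ρ (bP BD l) n) ^ 2 ≤ ∑ n ∈ range (M + 1), (dd θ 0 ρ (bP BD l) n) ^ 2 +
      4 / 3 * (R ^ (M + 2 - Lb) / ((M + 2 - Lb).factorial : ℝ) * (((ab l : ℤ) : ℝ) / BD)) ^ 2 := by
  have hR0 : 0 ≤ R := by rw [← hR]; positivity
  have hsum := summable_dd_sq θ 0 ρ hσ hρ (bP BD l)
  generalize hm1 : M + 2 - Lb = m1 at h ⊢
  set A := R ^ m1 / (m1.factorial : ℝ) * (((ab l : ℤ) : ℝ) / BD) with hA
  have hbd : ∀ i, (dd θ 0 ρ (bP BD l) (i + (M + 1))) ^ 2 ≤ A ^ 2 * (1 / 4) ^ i := by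
    intro i
    have hs : 0 ≤ R ^ m1 / (m1.factorial : ℝ) * (1 / 2) ^ i := by positivity
    have h1 := dd_tail θ 0 ρ BD hBD l (i + (M + 1)) _ hs (by
      intro j _ hj2
      have h2 := abs_ph_le θ 0 ρ hσ hρ (i + (M + 1) - j)
      have h3 : 2 * (ρ / (2 * Real.sin (θ / 2))) = R := by
        rw [← hR]; field_simp
      rw [h3] at h2
      obtain ⟨k, hk⟩ : ∃ k, i + (M + 1) - j = m1 + (i + k) := ⟨M + 1 - j - m1, by omega⟩
      rw [hk] at h2 ⊢
      have h7 := a_half R hR0 m1 h (i + k)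
      have h8 : ((1 : ℝ) / 2) ^ (i + k) ≤ (1 / 2) ^ i :=
        pow_le_pow_of_le_one (by norm_num) (by norm_num) (by omega)
      have h9 : R ^ m1 / (m1.factorial : ℝ) * (1 / 2) ^ (i + k) ≤
          R ^ m1 / (m1.factorial : ℝ) * (1 / 2) ^ i := mul_le_mul_of_nonneg_left h8 (by positivity)
      exact (h2.trans h7).trans h9)
    have h4 : A ^ 2 * (1 / 4) ^ i = (R ^ m1 / (m1.factorial : ℝ) * (1 / 2) ^ i *
        (((ab l : ℤ) : ℝ) / BD)) ^ 2 := by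
      have h5 : ((1 : ℝ) / 4) ^ i = ((1 / 2) ^ i) ^ 2 := by
        rw [← pow_mul, mul_comm i 2, pow_mul]; norm_num
      rw [h5, hA]; ring
    rw [h4]
    exact sq_le_sq' (by have := (abs_le.mp h1).1; linarith) (abs_le.mp h1).2
  have hgeo : HasSum (fun i : ℕ => A ^ 2 * ((1 : ℝ) / 4) ^ i) (A ^ 2 * (1 - 1 / 4)⁻¹) :=
    (hasSum_geometric_of_lt_one (by norm_num) (by norm_num)).mul_left _
  have hs2 : Summable (fun i => (dd θ 0 ρ (bP BD l) (i + (M + 1))) ^ 2) :=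
    (summable_nat_add_iff (f := fun n => (dd θ 0 ρ (bP BD l) n) ^ 2) (M + 1)).mpr hsum
  have h6 := hs2.tsum_le_tsum hbd hgeo.summable
  rw [hgeo.tsum_eq] at h6
  have h7 : A ^ 2 * (1 - 1 / 4)⁻¹ = 4 / 3 * A ^ 2 := by norm_num; ring
  rw [h7] at h6
  have h8 := hsum.sum_add_tsum_nat_add (M + 1)
  rw [← h8]
  linarith

variable {c : Cfg} (hc : c.Ok) {t : ℝ} (ht : |t| ≤ 1)

/-- the run for one radius -/
def xRun (c : Cfg) (c0 c1 : ℕ) (sp sn : List ℕ) (fl : ℕ) (lp ln : List ℕ) (lo Cn Cd : ℕ)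
    (Bp Bn : List ℕ) (BD M En : ℕ) : Bool :=
  base2 c c0 c1 sp sn fl lp ln lo fun _ eS WO _ _ _ lb WL =>
  mkB c (BD :: Bp) (0 :: Bn) fun BR BA =>
  frc (sml BA) fun NB =>
  chk (Nat.ble (Nat.succ (Nat.mul (Nat.succ M) (Nat.mul c.Mx c.Mx))) c.H) <|
  chk (Nat.ble (Nat.succ (Nat.mul NB c.Mx)) c.H) <|
  chk (Nat.ble (Nat.mul 87 lb) c.Mx) <|
  chk (Nat.ble 1 BD) <|
  chk (Nat.ble 1 Cn) <|
  chk (Nat.ble 1 Cd) <|
  frc (Nat.succ (lng Bp)) fun Lb =>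
  chk (Nat.ble Lb (Nat.succ M)) <|
  frc (Nat.sub (Nat.add M 2) Lb) fun m1 =>
  frc (Nat.mul lb Cn) fun Rn =>
  frc (Nat.mul c.one Cd) fun Rd =>
  chk (Nat.ble (Nat.mul 2 Rn) (Nat.mul Rd (Nat.succ m1))) <|
  frc (Nat.mul (Nat.mul NB c.one) (Nat.pow Rn m1)) fun nu =>
  frc (Nat.mul (Nat.mul BD (Nat.pow Rd m1)) (fct m1)) fun de =>
  frc (Nat.succ (Nat.div (Nat.mul 4 (Nat.mul nu nu)) (Nat.mul 3 (Nat.mul de de)))) fun TL =>
  frc (Nat.mul 87 lb) fun l87 =>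
  frc (Nat.mod (Nat.mul 87 WL) c.N) fun L87 =>
  frc (Nat.mul 87 Cd) fun C87 =>
  frc (Nat.mul c.one c.one) fun S0 =>
  xL c L87 l87 Cn C87 WO eS BD BR BA M 1 [c.one] [0] WO eS 1 S0 0 fun S Es =>
  Nat.ble (Nat.mul (Nat.add (Nat.add (upR c S) Es) TL) 1048576) (Nat.mul En S0)

theorem bI_length (l l' : List ℕ) : (bI l l').length ≤ l.length := by
  induction l generalizing l' with
  | nil => simp [bI]
  | cons a l ih =>
    cases l' with
    | nil => simp [bI]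
    | cons b l' => simp only [bI, List.length_cons]; have := ih l'; omega

theorem BT.ab_le {lr ls : List ℕ} {lb : List ℤ} (h : BT c lr ls lb) : ab lb ≤ (ls.sum : ℕ) := by
  induction h with
  | nil => simp [ab]
  | cons _ h2 _ ih => simp only [ab, List.sum_cons, Nat.cast_add]; linarith

include hc ht in
theorem xRun_spec (c0 c1 : ℕ) (sp sn : List ℕ) (fl : ℕ) (lp ln : List ℕ) (lo Cn Cd : ℕ)
    (Bp Bn : List ℕ)
    (BD M En : ℕ) (θ : ℝ) (hcos : (c.one : ℝ) * Real.cos (θ / 2) = c0 + c1 * t)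
    (hsin : 0 < Real.sin (θ / 2)) (ℓ : ℝ) (hℓ : (c.one : ℝ) * ℓ = aeval t (t2 lp ln))
    (h : xRun c c0 c1 sp sn fl lp ln lo Cn Cd Bp Bn BD M En = true) :
    ∃ B : ℝ[X], B.coeff 0 = 1 ∧
      ∑' n, (dd θ 0 (ℓ * Real.sin (θ / 2) * ((Cn : ℝ) / Cd)) B n) ^ 2 ≤ (En : ℝ) / 1048576 := by
  have hone := hc.hone
  have honeR : (0 : ℝ) < c.one := by exact_mod_cast hone
  unfold xRun at h
  obtain ⟨WS, eS, LW, kL, eL, lb, WL, h1, h2, h3, h4, h5, h6, h7, h8, h9, h10, h11, h12, hℓle, _,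
    hWL, hdeg, hnm⟩ := base2_spec hc ht c0 c1 sp sn fl lp ln lo _ θ hcos hsin.le ℓ hℓ h
  have hℓ0 : 0 < ℓ := by
    have h20 : (0 : ℝ) ≤ lo := by positivity
    have : 0 < (c.one : ℝ) * ℓ := by linarith
    exact (pos_iff_pos_of_mul_pos this).mp honeR
  obtain ⟨BR, BA, h13, h14⟩ := mkB_spec _ _ _ h1
  simp only [frc_eq, chk_true, Nat.ble_eq, sml_eq, lng_eq] at h13
  obtain ⟨g1, g2, g3, g4, g5, g6, g7, g8, g9⟩ := h13
  have g1' : (M + 1) * (c.Mx * c.Mx) < c.H := g1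
  have g2' : BA.sum * c.Mx < c.H := g2
  have g3' : 87 * lb ≤ c.Mx := g3
  have g4' : 0 < BD := g4
  have g5' : 0 < Cn := g5
  have g6' : 0 < Cd := g6
  have g7' : Bp.length + 1 ≤ M + 1 := g7
  set Lb := Bp.length + 1 with hLb
  set m1 := M + 2 - Lb with hm1
  have g8' : 2 * (lb * Cn) ≤ (c.one * Cd) * (m1 + 1) := g8
  set ib := bI (BD :: Bp) (0 :: Bn) with hib
  have hlen : ib.length ≤ Lb := bI_length _ _
  have hMx : 0 < c.Mx := by omega
  have hCdR : (0 : ℝ) < Cd := by exact_mod_cast g6'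
  have hCnR : (0 : ℝ) < Cn := by exact_mod_cast g5'
  have hBDR : (0 : ℝ) < BD := by exact_mod_cast g4'
  set ρ := ℓ * Real.sin (θ / 2) * ((Cn : ℝ) / Cd) with hρ
  have hρ0 : 0 < ρ := by positivity
  have hB0 : (bP BD ib).coeff 0 = 1 := by
    have : ib = ((BD : ℤ) - (0 : ℕ)) :: bI Bp Bn := rfl
    rw [this, bP_coeff_zero]
    push_cast
    rw [sub_zero]
    field_simp
  refine ⟨bP BD ib, hB0, ?_⟩
  set R := ℓ * ((Cn : ℝ) / Cd) with hR
  have hRρ : ρ / Real.sin (θ / 2) = R := by rw [hρ, hR]; field_simp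
  set Rn := lb * Cn with hRn
  set Rd := c.one * Cd with hRd
  have hRd0 : (0 : ℝ) < (Rd : ℝ) := by rw [hRd]; push_cast; positivity
  have hRle : R ≤ (Rn : ℝ) / Rd := by
    rw [le_div_iff₀ hRd0, hR, hRn, hRd]
    push_cast at hℓle ⊢
    calc ℓ * ((Cn : ℝ) / Cd) * (c.one * Cd) = (c.one * ℓ) * Cn := by field_simp
      _ ≤ _ := mul_le_mul_of_nonneg_right hℓle hCnR.le
  have hR2 : 2 * R ≤ (m1 : ℝ) + 1 := by
    have h15 : (2 : ℝ) * Rn ≤ Rd * (m1 + 1) := by exact_mod_cast g8'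
    have h16 : 2 * ((Rn : ℝ) / Rd) ≤ (m1 : ℝ) + 1 := by
      rw [mul_div_assoc', div_le_iff₀ hRd0]; linarith
    linarith
  have hR0 : 0 ≤ R := by positivity
  have htail := tail_sum θ ρ R hsin hρ0 hRρ BD g4' ib M Lb hlen (by omega) hR2
  rw [← hm1] at htail
  -- the tail in integers
  set nu := BA.sum * c.one * Rn ^ m1 with hnu
  set de := BD * Rd ^ m1 * fct m1 with hde
  have hde0 : 0 < de := by
    rw [hde, fct_eq]
    have : 0 < Rd := by rw [hRd]; positivity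
    have := m1.factorial_pos
    positivity
  have hdeR : (0 : ℝ) < de := by exact_mod_cast hde0
  set TL := 4 * (nu * nu) / (3 * (de * de)) + 1 with hTL
  have hA : (c.one : ℝ) * c.one * (4 / 3 * (R ^ m1 / (m1.factorial : ℝ) *
      (((ab ib : ℤ) : ℝ) / BD)) ^ 2) ≤ TL := by
    have u1 : R ^ m1 / (m1.factorial : ℝ) * (((ab ib : ℤ) : ℝ) / BD) ≤
        ((Rn : ℝ) / Rd) ^ m1 / (m1.factorial : ℝ) * ((BA.sum : ℝ) / BD) := by
      have u2 : ((ab ib : ℤ) : ℝ) ≤ (BA.sum : ℝ) := by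
        have h' : ((ab ib : ℤ) : ℝ) ≤ (((BA.sum : ℕ) : ℤ) : ℝ) := Int.cast_le.mpr h14.ab_le
        rwa [Int.cast_natCast] at h'
      have hab : (0 : ℝ) ≤ ((ab ib : ℤ) : ℝ) := by
        have := (bP_abs_sum BD g4' ib 0)
        simp only [range_zero, sum_empty] at this
        by_contra hcon
        push Not at hcon
        have := div_neg_of_neg_of_pos hcon hBDR
        linarith
      gcongr
    have u3 : (c.one : ℝ) * (((Rn : ℝ) / Rd) ^ m1 / (m1.factorial : ℝ) * ((BA.sum : ℝ) / BD)) =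
        (nu : ℝ) / de := by
      rw [hnu, hde, fct_eq, div_pow]
      have : ((m1.factorial : ℕ) : ℝ) ≠ 0 := by exact_mod_cast m1.factorial_ne_zero
      push_cast
      field_simp
    have hnn : 0 ≤ R ^ m1 / (m1.factorial : ℝ) * (((ab ib : ℤ) : ℝ) / BD) := by
      have hab : (0 : ℝ) ≤ ((ab ib : ℤ) : ℝ) / BD := by
        have := (bP_abs_sum BD g4' ib 0)
        simpa using this
      positivity
    have u4 : (c.one : ℝ) * (R ^ m1 / (m1.factorial : ℝ) * (((ab ib : ℤ) : ℝ) / BD)) ≤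
        (nu : ℝ) / de := by
      rw [← u3]; exact mul_le_mul_of_nonneg_left u1 honeR.le
    have u5 : (c.one : ℝ) * c.one * (4 / 3 * (R ^ m1 / (m1.factorial : ℝ) *
        (((ab ib : ℤ) : ℝ) / BD)) ^ 2) = 4 / 3 * ((c.one : ℝ) * (R ^ m1 / (m1.factorial : ℝ) *
        (((ab ib : ℤ) : ℝ) / BD))) ^ 2 := by ring
    rw [u5]
    have u6 : ((c.one : ℝ) * (R ^ m1 / (m1.factorial : ℝ) * (((ab ib : ℤ) : ℝ) / BD))) ^ 2 ≤
        ((nu : ℝ) / de) ^ 2 := pow_le_pow_left₀ (by positivity) u4 2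
    have u7 := div_floor (4 * (nu * nu)) (3 * (de * de)) (by positivity)
    have u8 : 4 / 3 * ((nu : ℝ) / de) ^ 2 = ((4 * (nu * nu) : ℕ) : ℝ) / ((3 * (de * de) : ℕ) : ℝ) := by
      push_cast
      field_simp
    rw [hTL]
    push_cast at u7 u8 ⊢
    linarith
  -- the loop
  have hL87 : RT c t (87 * WL % c.N) (87 * lb) 0 (87 * ℓ) := by
    refine ⟨g3', C (87 : ℤ) * t2 lp ln, ?_, (natDegree_C_mul_le _ _).trans hdeg, ?_, ?_⟩
    · refine (mod_congr _ _).trans ?_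
      rw [eval_mul, eval_C, Nat.cast_mul]
      exact hWL.mul_left _
    · rw [nm_C_mul]
      push_cast
      have : |(87 : ℤ)| = 87 := by norm_num
      rw [this]
      linarith
    · rw [map_mul, aeval_C, ← hℓ]
      simp only [eq_intCast]
      push_cast
      rw [show (c.one : ℝ) * (87 * ℓ) - 87 * (c.one * ℓ) = 0 by ring, abs_zero]
  have hO : CT c t ((c0 + c1 * c.B) + c.BL * WS) eS (om θ 1) := by
    have : om θ 1 = Complex.exp (((θ / 2 : ℝ) : ℂ) * Complex.I) := by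
      unfold om; simp
    rw [this]; exact h3
  have hd0 : dd θ 0 ρ (bP BD ib) 0 = 1 := by
    unfold dd
    rw [Finset.Nat.antidiagonal_zero, sum_singleton, hB0, mul_one]
    simp [ph]
  have hX0 : TR c t [c.one] [0] (dr (ph θ 0 ρ) 0) := by
    have hp0 : ph θ 0 ρ 0 = 1 := by simp [ph]
    simp only [dr]
    rw [hp0]
    refine TR.cons (b := c.one) ⟨h4, C (c.one : ℤ), by simp, by simp, ?_, by simp⟩ TR.nil
    have := nm_eq (C (c.one : ℤ)) 1 (by simp)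
    rw [this]; simp
  have hS0 : RS c t (c.one * c.one) (0 + 1) ((0 : ℕ) : ℝ)
      (c.one * c.one * ∑ n ∈ range (0 + 1), (dd θ 0 ρ (bP BD ib) n) ^ 2) := by
    rw [zero_add, sum_range_one, hd0]
    refine ⟨C ((c.one * c.one : ℕ) : ℤ), by simp, (natDegree_C _).le.trans (Nat.zero_le _), ?_, ?_⟩
    · have := nm_eq (C ((c.one * c.one : ℕ) : ℤ)) 1 (by rw [natDegree_C]; exact one_pos)
      rw [this, Finset.sum_range_one, coeff_C_zero, abs_of_nonneg (by positivity)]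
      have : c.one * c.one ≤ c.Mx * c.Mx := Nat.mul_le_mul h4 h4
      have h' : ((c.one * c.one : ℕ) : ℤ) ≤ ((c.Mx * c.Mx : ℕ) : ℤ) := by exact_mod_cast this
      push_cast at h' ⊢
      linarith
    · rw [aeval_C]; simp
  obtain ⟨S, Es, s1, s2⟩ := xL_spec hc ht h5 hMx _ (87 * lb) Cn Cd _ eS BD BR BA ib h14 g2'
    g4' _ θ ℓ hsin hL87 g6' hO ρ hρ M 0 [c.one] [0] _ eS 1 (c.one * c.one) 0 hX0
    (by rw [zero_add]; exact hO) (by simp) hS0 g9
  rw [zero_add] at s2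
  obtain ⟨f, f1, f2, f3, f4⟩ := s2
  have f3' : nm f < (c.H : ℤ) := by
    have : (((M + 1) * (c.Mx * c.Mx) : ℕ) : ℤ) < c.H := by exact_mod_cast g1'
    push_cast at this f3
    linarith
  have hup := upR_spec hc ht f 0 f2 (by simp) f3' (by rw [nm_zero]; have := hc.hH; exact_mod_cast this)
    S (by simpa using f1)
  have s1' : (upR c S + Es + TL) * 1048576 ≤ En * (c.one * c.one) := by
    rw [Nat.ble_eq] at s1
    exact s1
  have s1R : ((upR c S : ℝ) + Es + TL) * 1048576 ≤ En * (c.one * c.one) := by exact_mod_cast s1'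
  have k1 := (abs_le.mp f4).2
  have k2 := (abs_le.mp hup).2
  have k3 : (c.one : ℝ) * c.one * ∑' n, (dd θ 0 ρ (bP BD ib) n) ^ 2 ≤
      (c.one : ℝ) * c.one * (∑ n ∈ range (M + 1), (dd θ 0 ρ (bP BD ib) n) ^ 2 +
      4 / 3 * (R ^ m1 / (m1.factorial : ℝ) * (((ab ib : ℤ) : ℝ) / BD)) ^ 2) :=
    mul_le_mul_of_nonneg_left htail (by positivity)
  rw [mul_add] at k3
  rw [le_div_iff₀ (by norm_num)]
  have k4 : (c.one : ℝ) * c.one * ((∑' n, (dd θ 0 ρ (bP BD ib) n) ^ 2) * 1048576) ≤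
      c.one * c.one * En := by
    nlinarith
  exact le_of_mul_le_mul_left k4 (by positivity)

end MP_d1b55a.K
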