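import Pool.Agent.Lib.MP_d1b55a_co.KI
import Pool.Agent.Lib.MP_d1b55a_co.KZ

/-!
MP_d1b55a_co, P4: rational form of the conditions, the theorem about one cell.
-/

open Finset Real Polynomial

namespace MP_d1b55a.K

open MP_d1b55a

def qQ (Q : ℕ) : ℚ := (Q : ℚ) / (Q + 1)
def slQ (q : ℚ) (a0 a1 : ℕ) : ℚ := (q ^ a0 - q ^ a1) / ((a1 : ℚ) - a0)
def s1Q (q : ℚ) (a1 d : ℕ) : ℚ := q ^ a1 * (1 - q ^ d) / d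
def bqQ (q : ℚ) (a0 a1 τ0 τ1 υ d : ℕ) : ℚ :=
  -q ^ a0 - slQ q a0 a1 * ((τ0 : ℚ) - a0 + υ) + (slQ q a0 a1 - s1Q q a1 d) * ((τ1 : ℚ) - a1 + υ)
def kHiQ (q : ℚ) (Q n a1 d dp : ℕ) (lh C1 rD : ℚ) : ℚ :=
  q ^ a1 * (lh * C1) * (1 - q ^ d) ^ 2 * rD * n * (2 * Q + 1) / (2 * d * (1 - q ^ dp))
def kLoQ (q : ℚ) (Q n a1 d : ℕ) (ll : ℚ) : ℚ :=
  q ^ a1 * ll * (1 - q ^ d) ^ 2 * n * Q / d

/-- the conditions in rational numbers -/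
structure OkQ (N : Num) (ll lh C0 C1 rD P : ℚ) : Prop where
  hQ : 1 ≤ N.Q
  hn : 2 ≤ N.n
  h01 : N.a0 < N.a1
  hd : 1 ≤ N.d
  hdp : 1 ≤ N.dp
  hdn : N.dp * N.n ≤ N.d * (N.n - 1)
  hτ : 1 ≤ N.τ0
  hw : N.w + N.τ0 + N.υ = 2 * N.a0
  hwu : 2 * N.υ + N.τ0 < 2 * N.a0
  hll : 0 ≤ ll
  hC0 : 0 < C0
  hC1 : 0 < C1
  hrD : 0 ≤ rD
  c0 : 1 ≤ qQ N.Q ^ N.a0 * C0 ^ N.n
  c1 : 1 ≤ qQ N.Q ^ N.a1 * C1 ^ N.n
  c2 : 1 ≤ qQ N.Q ^ N.d * rD ^ N.n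
  c3 : qQ N.Q ^ N.υ + qQ N.Q ^ N.w + (bqQ (qQ N.Q) N.a0 N.a1 N.τ0 N.τ1 N.υ N.d +
    kHiQ (qQ N.Q) N.Q N.n N.a1 N.d N.dp lh C1 rD) < P
  c4 : qQ N.Q ^ N.w + (bqQ (qQ N.Q) N.a0 N.a1 N.τ0 N.τ1 N.υ N.d +
    kHiQ (qQ N.Q) N.Q N.n N.a1 N.d N.dp lh C1 rD) ≤ 19 / 50 * qQ N.Q ^ N.υ
  c5 : s1Q (qQ N.Q) N.a1 N.d * (2 * N.Q + 1) / 2 ≤ bqQ (qQ N.Q) N.a0 N.a1 N.τ0 N.τ1 N.υ N.d +
    kLoQ (qQ N.Q) N.Q N.n N.a1 N.d ll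

/-- boolean form of the conditions -/
def okB (N : Num) (ll lh C0 C1 rD P : ℚ) : Bool :=
  decide (1 ≤ N.Q) && decide (2 ≤ N.n) && decide (N.a0 < N.a1) && decide (1 ≤ N.d) &&
  decide (1 ≤ N.dp) && decide (N.dp * N.n ≤ N.d * (N.n - 1)) && decide (1 ≤ N.τ0) &&
  decide (N.w + N.τ0 + N.υ = 2 * N.a0) && decide (2 * N.υ + N.τ0 < 2 * N.a0) &&
  decide (0 ≤ ll) && decide (0 < C0) && decide (0 < C1) && decide (0 ≤ rD) &&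
  decide (1 ≤ qQ N.Q ^ N.a0 * C0 ^ N.n) && decide (1 ≤ qQ N.Q ^ N.a1 * C1 ^ N.n) &&
  decide (1 ≤ qQ N.Q ^ N.d * rD ^ N.n) &&
  decide (qQ N.Q ^ N.υ + qQ N.Q ^ N.w + (bqQ (qQ N.Q) N.a0 N.a1 N.τ0 N.τ1 N.υ N.d +
    kHiQ (qQ N.Q) N.Q N.n N.a1 N.d N.dp lh C1 rD) < P) &&
  decide (qQ N.Q ^ N.w + (bqQ (qQ N.Q) N.a0 N.a1 N.τ0 N.τ1 N.υ N.d +
    kHiQ (qQ N.Q) N.Q N.n N.a1 N.d N.dp lh C1 rD) ≤ 19 / 50 * qQ N.Q ^ N.υ) &&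
  decide (s1Q (qQ N.Q) N.a1 N.d * (2 * N.Q + 1) / 2 ≤ bqQ (qQ N.Q) N.a0 N.a1 N.τ0 N.τ1 N.υ N.d +
    kLoQ (qQ N.Q) N.Q N.n N.a1 N.d ll)

theorem okQ_of_okB (N : Num) (ll lh C0 C1 rD P : ℚ) (h : okB N ll lh C0 C1 rD P = true) :
    OkQ N ll lh C0 C1 rD P := by
  unfold okB at h
  simp only [Bool.and_eq_true, decide_eq_true_eq] at h
  obtain ⟨⟨⟨⟨⟨⟨⟨⟨⟨⟨⟨⟨⟨⟨⟨⟨⟨⟨h1, h2⟩, h3⟩, h4⟩, h5⟩, h6⟩, h7⟩, h8⟩, h9⟩, h10⟩, h11⟩, h12⟩, h13⟩, h14⟩,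
    h15⟩, h16⟩, h17⟩, h18⟩, h19⟩ := h
  exact ⟨h1, h2, h3, h4, h5, h6, h7, h8, h9, h10, h11, h12, h13, h14, h15, h16, h17, h18, h19⟩

theorem qQ_cast (Q : ℕ) : ((qQ Q : ℚ) : ℝ) = qq Q := by unfold qQ qq; push_cast; rfl

theorem bqQ_cast (Q a0 a1 τ0 τ1 υ d : ℕ) :
    ((bqQ (qQ Q) a0 a1 τ0 τ1 υ d : ℚ) : ℝ) = bq (qq Q) a0 a1 τ0 τ1 υ d := by
  unfold bqQ bq slQ sl s1Q s1
  push_cast
  rw [qQ_cast]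

theorem kHiQ_cast (Q n a1 d dp : ℕ) (lh C1 rD : ℚ) :
    ((kHiQ (qQ Q) Q n a1 d dp lh C1 rD : ℚ) : ℝ) = kHi (qq Q) Q n a1 d dp lh C1 rD := by
  unfold kHiQ kHi
  push_cast
  rw [qQ_cast]

theorem kLoQ_cast (Q n a1 d : ℕ) (ll : ℚ) :
    ((kLoQ (qQ Q) Q n a1 d ll : ℚ) : ℝ) = kLo (qq Q) Q n a1 d ll := by
  unfold kLoQ kLo
  push_cast
  rw [qQ_cast]

theorem s1Q_cast (Q a1 d : ℕ) : ((s1Q (qQ Q) a1 d : ℚ) : ℝ) = s1 (qq Q) a1 d := by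
  unfold s1Q s1
  push_cast
  rw [qQ_cast]

theorem ok_of_okQ (N : Num) (ll lh C0 C1 rD P : ℚ) (h : OkQ N ll lh C0 C1 rD P) :
    N.Ok (ll : ℝ) lh C0 C1 rD P (19 / 50) where
  hQ := h.hQ
  hn := h.hn
  h01 := h.h01
  hd := h.hd
  hdp := h.hdp
  hdn := h.hdn
  hτ := h.hτ
  hw := h.hw
  hwu := h.hwu
  hll := by exact_mod_cast h.hll
  hC0 := by exact_mod_cast h.hC0
  hC1 := by exact_mod_cast h.hC1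
  hrD := by exact_mod_cast h.hrD
  c0 := by
    have := h.c0
    rw [← qQ_cast]
    exact_mod_cast this
  c1 := by
    have := h.c1
    rw [← qQ_cast]
    exact_mod_cast this
  c2 := by
    have := h.c2
    rw [← qQ_cast]
    exact_mod_cast this
  c3 := by
    have := h.c3
    rw [← bqQ_cast, ← kHiQ_cast, ← qQ_cast]
    exact_mod_cast this
  c4 := by
    have h1 := h.c4
    rw [← bqQ_cast, ← kHiQ_cast, ← qQ_cast]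
    have h2 : ((qQ N.Q ^ N.w + (bqQ (qQ N.Q) N.a0 N.a1 N.τ0 N.τ1 N.υ N.d +
      kHiQ (qQ N.Q) N.Q N.n N.a1 N.d N.dp lh C1 rD) : ℚ) : ℝ) ≤ ((19 / 50 * qQ N.Q ^ N.υ : ℚ) : ℝ) :=
      Rat.cast_le.mpr h1
    push_cast at h2
    exact h2
  c5 := by
    have h1 := h.c5
    rw [← bqQ_cast, ← kLoQ_cast, ← s1Q_cast]
    have h2 := (Rat.cast_le (K := ℝ)).mpr h1
    push_cast at h2
    exact h2

/-- bound of the energy by an exponential -/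
def expB (Q n τ En : ℕ) : Bool :=
  Nat.blt (Nat.mul (Nat.pow En n) (Nat.pow Q (Nat.mul 4 τ)))
    (Nat.mul (Nat.pow 1048576 n) (Nat.pow (Nat.succ Q) (Nat.mul 4 τ)))

theorem expB_spec (N : Num) (τ En : ℕ) (hQ : 1 ≤ N.Q) (hn : 2 ≤ N.n) (x : ℝ)
    (hx : x ≤ (En : ℝ) / 1048576) (h : expB N.Q N.n τ En = true) :
    x < Real.exp (4 * (τ * N.L)) := by
  unfold expB at h
  have h1 : En ^ N.n * N.Q ^ (4 * τ) < 1048576 ^ N.n * (N.Q + 1) ^ (4 * τ) := by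
    have := Nat.blt_eq.mp h
    exact this
  have hnR : (0 : ℝ) < N.n := by exact_mod_cast (by omega : 0 < N.n)
  have h1R : (En : ℝ) ^ N.n * (N.Q : ℝ) ^ (4 * τ) < 1048576 ^ N.n * ((N.Q : ℝ) + 1) ^ (4 * τ) := by
    exact_mod_cast h1
  refine lt_of_le_of_lt hx ?_
  have hq := pow_pos (qq_pos hQ) (4 * τ)
  have h2 : Real.exp (4 * (τ * N.L)) ^ N.n = (qq N.Q ^ (4 * τ))⁻¹ := by
    rw [← Real.exp_nat_mul, ← exp_LL hQ, ← Real.exp_neg]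
    congr 1
    unfold Num.L
    push_cast
    field_simp
  apply lt_of_pow_lt_pow_left₀ N.n (Real.exp_pos _).le
  rw [h2, inv_eq_one_div, lt_div_iff₀ hq]
  unfold qq
  rw [div_pow, div_pow, div_mul_div_comm, div_lt_one (by positivity)]
  exact h1R

/-- data of a cell -/
structure Cell where
  c0 : ℕ
  c1 : ℕ
  sp : List ℕ
  sn : List ℕ
  fl : ℕ
  lp : List ℕ
  ln : List ℕ
  lo : ℕ
  pn : ℕ
  pd : ℕ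
  N : Num
  Cn0 : ℕ
  Cd0 : ℕ
  Bp0 : List ℕ
  Bn0 : List ℕ
  M0 : ℕ
  En0 : ℕ
  Cn1 : ℕ
  Cd1 : ℕ
  Bp1 : List ℕ
  Bn1 : List ℕ
  M1 : ℕ
  En1 : ℕ
  rn : ℕ
  rd : ℕ

/-- the run for the values `a_k` -/
def Cell.A (c : Cfg) (X : Cell) : Bool :=
  aRun c X.c0 X.c1 X.sp X.sn X.fl X.lp X.ln X.lo (Nat.pred X.N.n) (Nat.mul X.pn X.pn)
    (Nat.mul X.pd X.pd)

/-- the run for the smaller radius -/
def Cell.X0 (c : Cfg) (X : Cell) : Bool :=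
  xRun c X.c0 X.c1 X.sp X.sn X.fl X.lp X.ln X.lo X.Cn0 X.Cd0 X.Bp0 X.Bn0 1048576 X.M0 X.En0

/-- the run for the larger radius -/
def Cell.X1 (c : Cfg) (X : Cell) : Bool :=
  xRun c X.c0 X.c1 X.sp X.sn X.fl X.lp X.ln X.lo X.Cn1 X.Cd1 X.Bp1 X.Bn1 1048576 X.M1 X.En1

/-- the final conditions -/
def Cell.F (c : Cfg) (X : Cell) : Bool :=
  Nat.ble 1 X.c1 && Nat.ble 1 X.pd &&
  expB X.N.Q X.N.n X.N.τ0 X.En0 && expB X.N.Q X.N.n X.N.τ1 X.En1 &&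
  okB X.N ((X.lo : ℚ) / (2 * c.one)) (((sml X.lp + sml X.ln : ℕ) : ℚ) / (2 * c.one))
    ((X.Cn0 : ℚ) / X.Cd0) ((X.Cn1 : ℚ) / X.Cd1) ((X.rn : ℚ) / X.rd) ((X.pn : ℚ) / X.pd)

theorem cell_hyp (c : Cfg) (hc : c.Ok) (X : Cell) (hA : X.A c = true) (hX0 : X.X0 c = true)
    (hX1 : X.X1 c = true) (hF : X.F c = true) (θ : ℝ) (h0 : 0 < θ) (hpi : θ ≤ Real.pi)
    (hlo : (X.c0 : ℝ) - X.c1 ≤ c.one * Real.cos (θ / 2))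
    (hhi : (c.one : ℝ) * Real.cos (θ / 2) ≤ X.c0 + X.c1) :
    ∃ (ℓ : ℝ) (ll lh C0 C1 rD P : ℝ) (B0 B1 : ℝ[X]), 0 < ℓ ∧ ll ≤ ℓ / 2 ∧ ℓ / 2 ≤ lh ∧
      ll = (X.lo : ℝ) / (2 * c.one) ∧ lh = ((sml X.lp + sml X.ln : ℕ) : ℝ) / (2 * c.one) ∧
      X.N.Ok ll lh C0 C1 rD P (19 / 50) ∧ B0.coeff 0 = 1 ∧ B1.coeff 0 = 1 ∧
      ∑' n, (dd θ 0 (ℓ * Real.sin (θ / 2) * C0) B0 n) ^ 2 < Real.exp (4 * (X.N.τ0 * X.N.L)) ∧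
      ∑' n, (dd θ 0 (ℓ * Real.sin (θ / 2) * C1) B1 n) ^ 2 < Real.exp (4 * (X.N.τ1 * X.N.L)) ∧
      P * (2 * Real.sin (θ / 2)) ≤ (ℓ * Real.sin (θ / 2)) ^ X.N.n * ‖av X.N.n (yy θ)‖ ∧
      (∀ m, 1 ≤ m → m < X.N.n → GoodAt m (yy θ)) ∧
      0 < (av (X.N.n + 1) (yy θ) * (starRingEnd ℂ) (av X.N.n (yy θ))).re := by
  have hone := hc.hone
  have honeR : (0 : ℝ) < c.one := by exact_mod_cast hone
  have hσ : 0 < Real.sin (θ / 2) :=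
    Real.sin_pos_of_pos_of_lt_pi (by linarith) (by linarith [Real.pi_pos])
  unfold Cell.F at hF
  simp only [Bool.and_eq_true, Nat.ble_eq] at hF
  obtain ⟨⟨⟨⟨f1, f3⟩, f4⟩, f5⟩, f6⟩ := hF
  have ok := ok_of_okQ _ _ _ _ _ _ _ (okQ_of_okB _ _ _ _ _ _ _ f6)
  have hc1 : (0 : ℝ) < X.c1 := by exact_mod_cast f1
  set t : ℝ := (c.one * Real.cos (θ / 2) - X.c0) / X.c1 with htd
  have ht : |t| ≤ 1 := by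
    rw [htd, abs_div, abs_of_pos hc1, div_le_one hc1, abs_le]
    constructor <;> linarith
  have hcos : (c.one : ℝ) * Real.cos (θ / 2) = X.c0 + X.c1 * t := by
    rw [htd]; field_simp; ring
  set ℓ : ℝ := aeval t (t2 X.lp X.ln) / c.one with hℓd
  have hℓ : (c.one : ℝ) * ℓ = aeval t (t2 X.lp X.ln) := by rw [hℓd]; field_simp
  have hn : X.N.n - 1 + 1 = X.N.n := by have := ok.hn; omega
  have hbnd : (X.lo : ℝ) < c.one * ℓ ∧ (c.one : ℝ) * ℓ ≤ ((sml X.lp + sml X.ln : ℕ) : ℝ) := by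
    have hA' := hA
    unfold Cell.A aRun at hA'
    obtain ⟨_, _, _, _, _, lb, _, _, _, _, _, _, _, _, h8, _, _, _, _, h13, h14, _, _, _⟩ :=
      base2_spec hc ht X.c0 X.c1 X.sp X.sn X.fl X.lp X.ln X.lo _ θ hcos hσ.le ℓ hℓ hA'
    rw [sml_eq, sml_eq, ← h14]
    exact ⟨h8, h13⟩
  obtain ⟨a1, a2, a3⟩ := aRun_spec hc ht X.c0 X.c1 X.sp X.sn X.fl X.lp X.ln X.lo (X.N.n - 1)
    (X.pn * X.pn) (X.pd * X.pd) θ hcos hσ ℓ hℓ hA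
  have hn2 : X.N.n - 1 + 2 = X.N.n + 1 := by have := ok.hn; omega
  rw [hn] at a1 a2 a3
  rw [hn2] at a2
  obtain ⟨B0, b1, b2⟩ := xRun_spec hc ht X.c0 X.c1 X.sp X.sn X.fl X.lp X.ln X.lo X.Cn0 X.Cd0 X.Bp0
    X.Bn0 1048576 X.M0 X.En0 θ hcos hσ ℓ hℓ hX0
  obtain ⟨B1, b3, b4⟩ := xRun_spec hc ht X.c0 X.c1 X.sp X.sn X.fl X.lp X.ln X.lo X.Cn1 X.Cd1 X.Bp1
    X.Bn1 1048576 X.M1 X.En1 θ hcos hσ ℓ hℓ hX1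
  have e1 := expB_spec X.N X.N.τ0 X.En0 ok.hQ ok.hn _ b2 f4
  have e2 := expB_spec X.N X.N.τ1 X.En1 ok.hQ ok.hn _ b4 f5
  have hpd : (0 : ℝ) < X.pd := by exact_mod_cast f3
  have hℓ0 : 0 < ℓ := by
    have h20 : (0 : ℝ) ≤ X.lo := by positivity
    have : 0 < (c.one : ℝ) * ℓ := by linarith [hbnd.1]
    exact (pos_iff_pos_of_mul_pos this).mp honeR
  refine ⟨ℓ, _, _, _, _, _, _, B0, B1, hℓ0, ?_, ?_, ?_, ?_, ok, b1, b3, ?_, ?_, ?_, a1, a2⟩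
  · push_cast
    rw [div_le_div_iff₀ (by positivity) (by positivity)]
    nlinarith [hbnd.1]
  · have h21 := hbnd.2
    push_cast at h21 ⊢
    rw [div_le_div_iff₀ (by positivity) (by positivity)]
    nlinarith
  · push_cast; ring
  · push_cast; ring
  · push_cast; exact e1
  · push_cast; exact e2
  · push_cast
    have h1 : ((X.pn : ℝ) * (2 * Real.sin (θ / 2))) ^ 2 <
        (X.pd * ((ℓ * Real.sin (θ / 2)) ^ X.N.n * ‖av X.N.n (yy θ)‖)) ^ 2 := by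
      push_cast at a3
      calc ((X.pn : ℝ) * (2 * Real.sin (θ / 2))) ^ 2 =
          X.pn * X.pn * (2 * Real.sin (θ / 2)) ^ 2 := by ring
        _ < _ := a3
        _ = _ := by ring
    have h2 := lt_of_pow_lt_pow_left₀ 2 (by positivity) h1
    rw [div_mul_eq_mul_div, div_le_iff₀ hpd]
    linarith

/-- **the theorem about one cell** -/
theorem cell_good (hN1 : N1Stmt) (c : Cfg) (hc : c.Ok) (X : Cell) (hA : X.A c = true)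
    (hX0 : X.X0 c = true) (hX1 : X.X1 c = true) (hF : X.F c = true) (θ : ℝ) (h0 : 0 < θ)
    (hpi : θ ≤ Real.pi) (hlo : (X.c0 : ℝ) - X.c1 ≤ c.one * Real.cos (θ / 2))
    (hhi : (c.one : ℝ) * Real.cos (θ / 2) ≤ X.c0 + X.c1) : Good θ := by
  obtain ⟨ℓ, ll, lh, C0, C1, rD, P, B0, B1, h1, h2, h3, _, _, h4, h5, h6, h7, h8, h9, h10, h11⟩ :=
    cell_hyp c hc X hA hX0 hX1 hF θ h0 hpi hlo hhi
  exact core hN1 θ h0 hpi ℓ h1 X.N ll lh C0 C1 rD P h2 h3 h4 B0 B1 h5 h6 h7 h8 h9 h10 h11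

/-- **separation on one cell**: for all large `M` one root of `F_M` is small and the others are
large. -/
theorem cell_sep (hN1 : N1Stmt) (c : Cfg) (hc : c.Ok) (X : Cell) (hA : X.A c = true)
    (hX0 : X.X0 c = true) (hX1 : X.X1 c = true) (hF : X.F c = true) (θ : ℝ) (h0 : 0 < θ)
    (hpi : θ ≤ Real.pi) (hlo : (X.c0 : ℝ) - X.c1 ≤ c.one * Real.cos (θ / 2))
    (hhi : (c.one : ℝ) * Real.cos (θ / 2) ≤ X.c0 + X.c1) :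
    ∃ ℓ : ℝ, 0 < ℓ ∧ (X.lo : ℝ) / (2 * c.one) ≤ ℓ / 2 ∧
      ℓ / 2 ≤ ((sml X.lp + sml X.ln : ℕ) : ℝ) / (2 * c.one) ∧
      ∃ M0 : ℕ, ∀ M ≥ M0, ∃ (m : ℕ) (z : Fin m → ℂ) (k0 : Fin m), (∀ k, z k ≠ 0) ∧
      (∀ j, 1 ≤ j → j ≤ M → ∑ k, z k ^ j = pv j (yy θ)) ∧
      (∀ f : ℂ → ℝ, ((FM (yy θ) M).roots.map f).sum = ∑ k, f (-(z k)⁻¹)) ∧
      ∑ k ∈ Finset.univ.erase k0, ‖z k‖ ^ X.N.n ≤ (19 / 50) * ‖z k0‖ ^ X.N.n ∧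
      -Real.log ‖z k0‖ ≤ Real.log (ℓ / 2) + X.N.υ * X.N.L ∧
      ∀ k, k ≠ k0 → Real.log (ℓ / 2) + X.N.w * X.N.L ≤ -Real.log ‖z k‖ := by
  obtain ⟨ℓ, ll, lh, C0, C1, rD, P, B0, B1, h1, h2, h3, e1, e2, h4, h5, h6, h7, h8, h9, h10, h11⟩ :=
    cell_hyp c hc X hA hX0 hX1 hF θ h0 hpi hlo hhi
  have hσ : 0 < Real.sin (θ / 2) :=
    Real.sin_pos_of_pos_of_lt_pi (by linarith) (by linarith [Real.pi_pos])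
  exact ⟨ℓ, h1, e1 ▸ h2, e2 ▸ h3, sep hN1 θ hσ ℓ h1 X.N ll lh C0 C1 rD P (19 / 50) h2 h3 h4 B0 B1 h5
    h6 h7 h8 h9⟩

end MP_d1b55a.K
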