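import Pool.Agent.Lib.MP_d1b55a_co.KTM

/-!
MP_d1b55a_co, P4: packed integer arithmetic for the kernel, part 4: exact sums of products, real and
complex, before rounding; dot products of lists.
-/

open Finset Polynomial

namespace MP_d1b55a.K

/-- the complex value of a pair of polynomials -/
noncomputable def cv (t : ℝ) (f g : ℤ[X]) : ℂ :=
  ((aeval t f : ℝ) : ℂ) + ((aeval t g : ℝ) : ℂ) * Complex.I

theorem cv_add (t : ℝ) (f g f' g' : ℤ[X]) : cv t (f + f') (g + g') = cv t f g + cv t f' g' := by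
  unfold cv; rw [map_add, map_add]; push_cast; ring

theorem cv_mul (t : ℝ) (f g f' g' : ℤ[X]) :
    cv t (f * f' - g * g') (f * g' + g * f') = cv t f g * cv t f' g' := by
  unfold cv
  simp only [map_add, map_sub, map_mul]
  push_cast
  linear_combination (-((aeval t g : ℝ) : ℂ) * ((aeval t g' : ℝ) : ℂ)) * Complex.I_sq

theorem norm_cv_le (t : ℝ) (ht : |t| ≤ 1) (f g : ℤ[X]) : ‖cv t f g‖ ≤ ((nm f + nm g : ℤ) : ℝ) := by
  unfold cv
  refine (norm_add_le _ _).trans ?_
  rw [norm_mul, Complex.norm_I, mul_one, Complex.norm_real, Complex.norm_real,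
    Real.norm_eq_abs, Real.norm_eq_abs]
  have := abs_aev_le f t ht
  have := abs_aev_le g t ht
  push_cast
  linarith

/-- sums of products of complex Taylor models, exact (degree `≤ 2p`, scale `one²`) -/
def CS (c : Cfg) (t : ℝ) (S K : ℕ) (E : ℝ) (V : ℂ) : Prop :=
  ∃ f g : ℤ[X], (S : ℤ) ≡ f.eval (c.B : ℤ) + c.BL * g.eval (c.B : ℤ) [ZMOD c.N] ∧
    f.natDegree ≤ 2 * c.p ∧ g.natDegree ≤ 2 * c.p ∧ nm f + nm g ≤ K * (c.Mx * c.Mx) ∧
    ‖V - cv t f g‖ ≤ E

/-- sums of products of real Taylor models, exact (degree `≤ 2p`, scale `one²`) -/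
def RS (c : Cfg) (t : ℝ) (S K : ℕ) (E : ℝ) (V : ℝ) : Prop :=
  ∃ f : ℤ[X], (S : ℤ) ≡ f.eval (c.B : ℤ) [ZMOD c.N] ∧
    f.natDegree ≤ 2 * c.p ∧ nm f ≤ K * (c.Mx * c.Mx) ∧ |V - aeval t f| ≤ E

variable {c : Cfg} (hc : c.Ok) {t : ℝ} (ht : |t| ≤ 1)

include hc in
theorem BL_sq : (c.BL : ℤ) * c.BL ≡ -1 [ZMOD c.N] := by
  rw [Int.modEq_iff_dvd]
  exact ⟨-1, by rw [hc.hN]; push_cast; ring⟩

theorem CS.zero : CS c t 0 0 0 0 :=
  ⟨0, 0, by simp, by simp, by simp, by simp [nm_zero], by simp [cv]⟩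

theorem CS.add {S K E V S' K' E' V'} (h : CS c t S K E V) (h' : CS c t S' K' E' V') :
    CS c t (S + S') (K + K') (E + E') (V + V') := by
  obtain ⟨f, g, h1, h2, h3, h4, h5⟩ := h
  obtain ⟨f', g', h1', h2', h3', h4', h5'⟩ := h'
  refine ⟨f + f', g + g', ?_, ?_, ?_, ?_, ?_⟩
  · push_cast
    rw [eval_add, eval_add]
    have := h1.add h1'
    have e : f.eval (c.B : ℤ) + c.BL * g.eval (c.B : ℤ) + (f'.eval (c.B : ℤ) +
        c.BL * g'.eval (c.B : ℤ)) = f.eval (c.B : ℤ) + f'.eval (c.B : ℤ) +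
        c.BL * (g.eval (c.B : ℤ) + g'.eval (c.B : ℤ)) := by ring
    rwa [e] at this
  · exact (natDegree_add_le _ _).trans (by omega)
  · exact (natDegree_add_le _ _).trans (by omega)
  · have := nm_add f f'
    have := nm_add g g'
    push_cast
    linarith
  · rw [cv_add]
    have : V + V' - (cv t f g + cv t f' g') = (V - cv t f g) + (V' - cv t f' g') := by ring
    rw [this]
    exact (norm_add_le _ _).trans (by linarith)

theorem CS.mono {S K E V E'} (h : CS c t S K E V) (hE : E ≤ E') : CS c t S K E' V := by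
  obtain ⟨f, g, h1, h2, h3, h4, h5⟩ := h
  exact ⟨f, g, h1, h2, h3, h4, h5.trans hE⟩

theorem RS.zero : RS c t 0 0 0 0 := ⟨0, by simp, by simp, by simp [nm_zero], by simp⟩

theorem RS.add {S K E V S' K' E' V'} (h : RS c t S K E V) (h' : RS c t S' K' E' V') :
    RS c t (S + S') (K + K') (E + E') (V + V') := by
  obtain ⟨f, h1, h2, h4, h5⟩ := h
  obtain ⟨f', h1', h2', h4', h5'⟩ := h'
  refine ⟨f + f', ?_, ?_, ?_, ?_⟩
  · push_cast
    rw [eval_add]
    exact h1.add h1'
  · exact (natDegree_add_le _ _).trans (by omega)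
  · have := nm_add f f'
    push_cast
    linarith
  · rw [map_add]
    have : V + V' - (aeval t f + aeval t f') = (V - aeval t f) + (V' - aeval t f') := by ring
    rw [this]
    exact (abs_add_le _ _).trans (by linarith)

theorem RS.mono {S K E V E'} (h : RS c t S K E V) (hE : E ≤ E') : RS c t S K E' V := by
  obtain ⟨f, h1, h2, h4, h5⟩ := h
  exact ⟨f, h1, h2, h4, h5.trans hE⟩

theorem RS.modN {S K E V} (h : RS c t S K E V) : RS c t (S % c.N) K E V := by
  obtain ⟨f, h1, h2, h4, h5⟩ := h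
  refine ⟨f, ?_, h2, h4, h5⟩
  have : ((S % c.N : ℕ) : ℤ) ≡ (S : ℤ) [ZMOD c.N] := by
    rw [Int.natCast_modEq_iff]; exact Nat.mod_modEq _ _
  exact this.trans h1

include hc in
/-- product of two complex Taylor models -/
theorem CT.mulS {W1 e1 v1 W2 e2 v2} (h1 : CT c t W1 e1 v1) (h2 : CT c t W2 e2 v2)
    (m1 m2 : ℝ) (hm1 : c.one * ‖v1‖ ≤ m1) (hm2 : c.one * ‖v2‖ ≤ m2) :
    CS c t (W1 * W2) 1 (m1 * e2 + m2 * e1 + e1 * e2) ((c.one * v1) * (c.one * v2)) := by
  obtain ⟨f, g, a1, a2, a3, a4, a5⟩ := h1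
  obtain ⟨f', g', b1, b2, b3, b4, b5⟩ := h2
  refine ⟨f * f' - g * g', f * g' + g * f', ?_, ?_, ?_, ?_, ?_⟩
  · push_cast
    have h := a1.mul b1
    refine h.trans ?_
    simp only [eval_add, eval_sub, eval_mul]
    have hB := (BL_sq hc).mul_right (g.eval (c.B : ℤ) * g'.eval (c.B : ℤ))
    rw [Int.modEq_iff_dvd] at hB ⊢
    obtain ⟨q, hq⟩ := hB
    refine ⟨q, ?_⟩
    rw [← hq]; ring
  · refine (natDegree_sub_le _ _).trans (max_le ?_ ?_)
    · exact natDegree_mul_le.trans (by omega)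
    · exact natDegree_mul_le.trans (by omega)
  · refine (natDegree_add_le _ _).trans (max_le ?_ ?_)
    · exact natDegree_mul_le.trans (by omega)
    · exact natDegree_mul_le.trans (by omega)
  · have e1 := nm_sub (f * f') (g * g')
    have e2 := nm_add (f * g') (g * f')
    have e3 := nm_mul f f'
    have e4 := nm_mul g g'
    have e5 := nm_mul f g'
    have e6 := nm_mul g f'
    have e7 : (nm f + nm g) * (nm f' + nm g') ≤ (c.Mx : ℤ) * c.Mx :=
      mul_le_mul a4 b4 (by have := nm_nonneg f'; have := nm_nonneg g'; linarith)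
        (by positivity)
    push_cast
    nlinarith
  · rw [cv_mul]
    have a5' : ‖(c.one : ℂ) * v1 - cv t f g‖ ≤ e1 := a5
    have b5' : ‖(c.one : ℂ) * v2 - cv t f' g'‖ ≤ e2 := b5
    have n1 : ‖(c.one : ℂ) * v1‖ ≤ m1 := by rw [norm_mul, Complex.norm_natCast]; exact hm1
    have n2 : ‖(c.one : ℂ) * v2‖ ≤ m2 := by rw [norm_mul, Complex.norm_natCast]; exact hm2
    have n3 : ‖cv t f' g'‖ ≤ m2 + e2 := by
      have : cv t f' g' = (c.one : ℂ) * v2 - ((c.one : ℂ) * v2 - cv t f' g') := by ring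
      rw [this]
      exact (norm_sub_le _ _).trans (by linarith)
    have e : (c.one : ℂ) * v1 * (c.one * v2) - cv t f g * cv t f' g' =
      (c.one : ℂ) * v1 * ((c.one : ℂ) * v2 - cv t f' g') +
        ((c.one : ℂ) * v1 - cv t f g) * cv t f' g' := by ring
    rw [e]
    refine (norm_add_le _ _).trans ?_
    rw [norm_mul ((c.one : ℂ) * v1) _, norm_mul ((c.one : ℂ) * v1 - cv t f g) _]
    have p1 : ‖(c.one : ℂ) * v1‖ * ‖(c.one : ℂ) * v2 - cv t f' g'‖ ≤ m1 * e2 :=
      mul_le_mul n1 b5' (norm_nonneg _) ((norm_nonneg _).trans n1)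
    have p2 : ‖(c.one : ℂ) * v1 - cv t f g‖ * ‖cv t f' g'‖ ≤ e1 * (m2 + e2) :=
      mul_le_mul a5' n3 (norm_nonneg _) ((norm_nonneg _).trans a5')
    nlinarith

include ht in
/-- product of two real Taylor models -/
theorem RT.mulS {W1 b1 e1 v1 W2 b2 e2 v2} (h1 : RT c t W1 b1 e1 v1) (h2 : RT c t W2 b2 e2 v2) :
    RS c t (W1 * W2) 1 (b1 * e2 + b2 * e1 + e1 * e2) ((c.one * v1) * (c.one * v2)) := by
  obtain ⟨x1, f, a1, a2, a4, a5⟩ := h1
  obtain ⟨x2, f', c1, c2, c4, c5⟩ := h2
  refine ⟨f * f', ?_, ?_, ?_, ?_⟩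
  · push_cast
    rw [eval_mul]
    exact a1.mul c1
  · exact natDegree_mul_le.trans (by omega)
  · refine (nm_mul f f').trans ?_
    have h3 : nm f * nm f' ≤ (c.Mx : ℤ) * c.Mx :=
      mul_le_mul (a4.trans (by exact_mod_cast x1)) (c4.trans (by exact_mod_cast x2))
        (nm_nonneg _) (by positivity)
    simpa using h3
  · rw [map_mul]
    have n1 : |aeval t f| ≤ (b1 : ℝ) := (abs_aev_le f t ht).trans (by exact_mod_cast a4)
    have n2 : |aeval t f'| ≤ (b2 : ℝ) := (abs_aev_le f' t ht).trans (by exact_mod_cast c4)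
    have e : (c.one : ℝ) * v1 * (c.one * v2) - aeval t f * aeval t f' =
      aeval t f * ((c.one : ℝ) * v2 - aeval t f') + aeval t f' * ((c.one : ℝ) * v1 - aeval t f) +
        ((c.one : ℝ) * v1 - aeval t f) * ((c.one : ℝ) * v2 - aeval t f') := by ring
    rw [e]
    refine (abs_add_le _ _).trans ?_
    refine (add_le_add_left (abs_add_le _ _) _).trans ?_
    rw [abs_mul, abs_mul, abs_mul]
    have p1 := mul_le_mul n1 c5 (abs_nonneg _) ((abs_nonneg _).trans n1)
    have p2 := mul_le_mul n2 a5 (abs_nonneg _) ((abs_nonneg _).trans n2)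
    have p3 := mul_le_mul a5 c5 (abs_nonneg _) ((abs_nonneg _).trans a5)
    linarith

include hc ht in
/-- rounding of a complex sum -/
theorem CS.nrm {S K : ℕ} {E : ℝ} {V : ℂ} (h : CS c t S K E V) (hK : K * (c.Mx * c.Mx) < c.H)
    (D : ℕ) (hD : 0 < D) (e : ℕ) (he : E ≤ e) (k : ℕ → ℕ → ℕ → Bool) (hk : nrmC c S D k = true) :
    ∃ W ks er, k W ks er = true ∧ ks ≤ c.Mx ∧ CQ c t W ks (e / D + 1 + er) (V / (c.one * D)) ∧
      (c.one : ℝ) * ‖V / (c.one * D)‖ ≤ ks + (e / D + 1 + er : ℕ) := by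
  obtain ⟨f, g, h1, h2, h3, h4, h5⟩ := h
  have hone : (c.one : ℂ) ≠ 0 := by exact_mod_cast hc.hone.ne'
  have hDc : (D : ℂ) ≠ 0 := by exact_mod_cast hD.ne'
  have hK' : ((K : ℤ) * (c.Mx * c.Mx)) < c.H := by exact_mod_cast hK
  refine CT_of_poly c hc t ht f g h2 h3 (by have := nm_nonneg g; linarith)
    (by have := nm_nonneg f; linarith) S h1 D hD (V / (c.one * D)) e ?_ k hk
  have : (c.one : ℂ) * D * (V / (c.one * D)) = V := by field_simp
  rw [this]
  exact h5.trans he

include hc ht in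
/-- rounding of a real sum -/
theorem RS.nrm {S K : ℕ} {E : ℝ} {V : ℝ} (h : RS c t S K E V) (hK : K * (c.Mx * c.Mx) < c.H)
    (D : ℕ) (hD : 0 < D) (e : ℕ) (he : E ≤ e) (k : ℕ → ℕ → ℕ → Bool) (hk : nrmR c S D k = true) :
    ∃ W ks er, k W ks er = true ∧ RT c t W ks (e / D + 1 + er) (V / (c.one * D)) := by
  obtain ⟨f, h1, h2, h4, h5⟩ := h
  have hone : (c.one : ℝ) ≠ 0 := by exact_mod_cast hc.hone.ne'
  have hDc : (D : ℝ) ≠ 0 := by exact_mod_cast hD.ne'
  have hK' : ((K : ℤ) * (c.Mx * c.Mx)) < c.H := by exact_mod_cast hK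
  refine RT_of_poly c hc t ht f h2 (by linarith) S h1 D hD (V / (c.one * D)) e ?_ k hk
  have : (c.one : ℝ) * D * (V / (c.one * D)) = V := by field_simp
  rw [this]
  exact h5.trans he

/-! ### lists -/

/-- dot product -/
def dot (l : List ℕ) : List ℕ → ℕ :=
  List.rec (motive := fun _ => List ℕ → ℕ) (fun _ => 0)
    (fun a _ ih bs => List.rec (motive := fun _ => ℕ) 0
      (fun b bs' _ => Nat.add (Nat.mul a b) (ih bs')) bs) l

theorem dot_nil (l : List ℕ) : dot [] l = 0 := rfl
theorem dot_nil' (a : ℕ) (l : List ℕ) : dot (a :: l) [] = 0 := rfl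
theorem dot_cons (a b : ℕ) (l l' : List ℕ) : dot (a :: l) (b :: l') = a * b + dot l l' := rfl

/-- reversal onto an accumulator -/
def revA {α : Type} (l : List α) : List α → List α :=
  List.rec (motive := fun _ => List α → List α) (fun acc => acc) (fun a _ ih acc => ih (a :: acc)) l

theorem revA_nil {α : Type} (acc : List α) : revA ([] : List α) acc = acc := rfl
theorem revA_cons {α : Type} (a : α) (l acc : List α) : revA (a :: l) acc = revA l (a :: acc) := rfl

/-- lists of complex Taylor models with bounds -/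
inductive TL (c : Cfg) (t : ℝ) : List ℕ → List ℕ → List ℕ → List ℂ → Prop
  | nil : TL c t [] [] [] []
  | cons {W M e : ℕ} {v : ℂ} {lW lM lS : List ℕ} {lv : List ℂ} :
      CT c t W e v → (c.one : ℝ) * ‖v‖ ≤ M → TL c t lW lM lS lv →
      TL c t (W :: lW) (M :: lM) ((M + e) :: lS) (v :: lv)

theorem TL.rev {lW lM lS : List ℕ} {lv : List ℂ} (h : TL c t lW lM lS lv) :
    ∀ {aW aM aS : List ℕ} {av : List ℂ}, TL c t aW aM aS av →
      TL c t (revA lW aW) (revA lM aM) (revA lS aS) (revA lv av) := by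
  induction h with
  | nil => intro _ _ _ _ h; exact h
  | cons h1 h2 _ ih => intro _ _ _ _ h; exact ih (TL.cons h1 h2 h)

/-- complex dot product -/
def dotV : List ℂ → List ℂ → ℂ
  | a :: l, b :: l' => a * b + dotV l l'
  | _, _ => 0

include hc in
theorem TL.dots {lW lM lS : List ℕ} {lv : List ℂ} (h : TL c t lW lM lS lv) :
    ∀ {aW aM aS : List ℕ} {av : List ℂ}, TL c t aW aM aS av →
      dot lM aM ≤ dot lS aS ∧
      CS c t (dot lW aW) lW.length ((dot lS aS : ℕ) - (dot lM aM : ℕ) : ℝ)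
        ((c.one : ℂ) * c.one * dotV lv av) ∧
      (c.one : ℝ) * c.one * ‖dotV lv av‖ ≤ (dot lM aM : ℕ) := by
  induction h with
  | nil =>
    intro _ _ _ _ h
    refine ⟨le_rfl, ?_, ?_⟩
    · have := CS.zero (c := c) (t := t)
      simpa [dot_nil, dotV] using this
    · simp [dot_nil, dotV]
  | @cons W M e v lW lM lS lv h1 h2 _ ih =>
    intro aW aM aS av h
    cases h with
    | nil =>
      refine ⟨le_rfl, ?_, ?_⟩
      · have h0 := CS.zero (c := c) (t := t)
        obtain ⟨f, g, a1, a2, a3, a4, a5⟩ := h0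
        refine ⟨f, g, ?_, a2, a3, ?_, ?_⟩
        · simpa [dot_nil'] using a1
        · have : (0 : ℤ) ≤ ((W :: lW).length : ℤ) * (c.Mx * c.Mx) := by positivity
          have a4' : nm f + nm g ≤ 0 := by simpa using a4
          linarith
        · simpa [dotV, dot_nil'] using a5
      · simp [dot_nil', dotV]
    | @cons W' M' e' v' lW' lM' lS' lv' h1' h2' h3' =>
      obtain ⟨i1, i2, i3⟩ := ih h3'
      have hp := h1.mulS hc h1' M M' h2 h2'
      rw [dot_cons, dot_cons, dot_cons]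
      refine ⟨?_, ?_, ?_⟩
      · have : M * M' ≤ (M + e) * (M' + e') := Nat.mul_le_mul (by omega) (by omega)
        omega
      · have h4 := hp.add i2
        have e1 : ((W :: lW).length : ℕ) = 1 + lW.length := by simp [add_comm]
        have e2 : (c.one : ℂ) * c.one * dotV (v :: lv) (v' :: lv') =
          c.one * v * (c.one * v') + c.one * c.one * dotV lv lv' := by
          simp only [dotV]; ring
        rw [e1, e2]
        refine h4.mono (le_of_eq ?_)
        push_cast
        ring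
      · simp only [dotV]
        push_cast
        calc (c.one : ℝ) * c.one * ‖v * v' + dotV lv lv'‖ ≤
            (c.one : ℝ) * c.one * (‖v‖ * ‖v'‖ + ‖dotV lv lv'‖) := by
              gcongr
              refine (norm_add_le _ _).trans ?_
              rw [norm_mul]
          _ = (c.one * ‖v‖) * (c.one * ‖v'‖) + c.one * c.one * ‖dotV lv lv'‖ := by ring
          _ ≤ M * M' + (dot lM lM' : ℕ) := by
              have := mul_le_mul h2 h2' (by positivity) (by positivity)
              linarith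

/-- descending list of values `f k, …, f 1` -/
def dl (f : ℕ → ℂ) : ℕ → List ℂ
  | 0 => []
  | k + 1 => f (k + 1) :: dl f k

theorem revA_eq {α : Type} (l acc : List α) : revA l acc = l.reverse ++ acc := by
  induction l generalizing acc with
  | nil => rfl
  | cons a l ih => rw [revA_cons, ih, List.reverse_cons, List.append_assoc]; rfl

theorem rev_dl (f : ℕ → ℂ) (k : ℕ) : (dl f k).reverse = (List.range k).map fun j => f (j + 1) := by
  induction k with
  | zero => rfl
  | succ k ih => rw [dl, List.reverse_cons, ih, List.range_succ, List.map_append]; rfl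

theorem dl_eq (f : ℕ → ℂ) (k : ℕ) : dl f k = (List.range k).map fun j => f (k - j) := by
  induction k with
  | zero => rfl
  | succ k ih =>
    rw [dl, ih, List.range_succ_eq_map, List.map_cons, List.map_map]
    congr 1
    apply List.map_congr_left
    intro j _
    simp only [Function.comp]
    congr 1
    omega

theorem dotV_map {α : Type} (l : List α) (f g : α → ℂ) :
    dotV (l.map f) (l.map g) = (l.map fun j => f j * g j).sum := by
  induction l with
  | nil => rfl
  | cons a l ih => simp only [List.map_cons, dotV, ih, List.sum_cons]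

theorem dotV_dl (A b : ℕ → ℂ) (k : ℕ) :
    dotV (revA (dl A k) []) (dl b k) = ∑ j ∈ range k, A (j + 1) * b (k - j) := by
  rw [revA_eq, List.append_nil, rev_dl, dl_eq, dotV_map]
  rw [← List.sum_toFinset _ (List.nodup_range), List.toFinset_range]

end MP_d1b55a.K
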