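import Pool.Agent.Lib.MP_d1b55a_co.KCfg

/-!
MP_d1b55a_co, P4: packed integer arithmetic for the kernel, part 3: normalisation (rounding) of
real and complex packed polynomials, Taylor models at a fixed parameter `t ∈ [-1,1]`.
-/

open Finset Polynomial

namespace MP_d1b55a.K

/-- rounding of a real packed polynomial: division by `D`, truncation to degree `p` -/
def nrmR (c : Cfg) (S D : ℕ) (k : ℕ → ℕ → ℕ → Bool) : Bool :=
  frc (Nat.mod (Nat.add S c.OFR) c.N) fun W =>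
  frc (Nat.div c.H D) fun HD =>
  kpL c.B D HD (Nat.succ c.p) W 1 0 0 fun W' out ks =>
  frc ks fun ks => frc (Nat.div (dsR c.B c.H c.p W') D) fun ds =>
  frc (Nat.mod (Nat.add out (Nat.sub c.N (Nat.mul HD c.ON))) c.N) fun W2 =>
  chk (Nat.ble ks c.Mx) (k W2 ks (Nat.add ds (Nat.add c.p 2)))

/-- rounding of a complex packed polynomial -/
def nrmC (c : Cfg) (S D : ℕ) (k : ℕ → ℕ → ℕ → Bool) : Bool :=
  frc (Nat.mod (Nat.add S c.OFC) c.N) fun W =>
  frc (Nat.div c.H D) fun HD =>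
  kpL c.B D HD (Nat.succ c.p) (Nat.mod W c.BL) 1 0 0 fun W1 o1 k1 =>
  kpL c.B D HD (Nat.succ c.p) (Nat.div W c.BL) 1 0 0 fun W2 o2 k2 =>
  frc (Nat.add k1 k2) fun ks =>
  frc (Nat.div (Nat.add (dsR c.B c.H c.p W1) (dsR c.B c.H c.p W2)) D) fun ds =>
  frc (Nat.mod (Nat.add (Nat.add o1 (Nat.mul c.BL o2))
    (Nat.sub c.N (Nat.mul HD (Nat.add c.ON (Nat.mul c.BL c.ON))))) c.N) fun W3 =>
  chk (Nat.ble ks c.Mx) (k W3 ks (Nat.add ds (Nat.add (Nat.mul 2 c.p) 3)))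

theorem dg_div (B i j W : ℕ) : dg B i (W / B ^ j) = dg B (j + i) W := by
  unfold dg
  rw [pow_add, Nat.div_div_eq_div_mul]

theorem div_floor (a D : ℕ) (hD : 0 < D) : (a : ℝ) / D ≤ ((a / D : ℕ) : ℝ) + 1 := by
  have hD' : (0 : ℝ) < D := by exact_mod_cast hD
  have h1 : a < D * (a / D) + D := by
    have := Nat.div_add_mod a D
    have := Nat.mod_lt a hD
    omega
  have h2 : (a : ℝ) < D * ((a / D : ℕ) : ℝ) + D := by exact_mod_cast h1
  rw [div_le_iff₀ hD']; linarith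

theorem nrmR_spec (c : Cfg) (hc : c.Ok) (f : ℤ[X]) (hf : f.natDegree ≤ 2 * c.p)
    (hb : ∀ i, |f.coeff i| < c.H) (S : ℕ) (hS : (S : ℤ) ≡ f.eval (c.B : ℤ) [ZMOD c.N])
    (D : ℕ) (hD : 0 < D) (k : ℕ → ℕ → ℕ → Bool) (h : nrmR c S D k = true) :
    ∃ W ks er, k W ks er = true ∧ ks ≤ c.Mx ∧ ∃ g : ℤ[X],
      (W : ℤ) ≡ g.eval (c.B : ℤ) [ZMOD c.N] ∧ g.natDegree ≤ c.p ∧ nm g ≤ ks ∧
      ∀ t : ℝ, |t| ≤ 1 → |aeval t f / D - aeval t g| ≤ (er : ℝ) := by
  unfold nrmR at h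
  simp only [frc_eq, kpL_eq, dsR_eq] at h
  rw [chk_true] at h
  obtain ⟨h1, h2⟩ := h
  have hW : Nat.mod (Nat.add S c.OFR) c.N = ∑ i ∈ range (2 * c.p + 1), wd c f i * c.B ^ i :=
    recR c hc f hf hb S hS
  rw [hW] at h1 h2
  refine ⟨_, _, _, h2, Nat.ble_eq.mp h1, rd c f D, ?_, rd_natDegree c f D, ?_, ?_⟩
  · have h3 := rd_eval c hc f D c.B rfl
    have e1 : ∑ i ∈ range (Nat.succ c.p), dg c.B i (∑ i ∈ range (2 * c.p + 1), wd c f i * c.B ^ i) / D *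
        c.B ^ i = ∑ i ∈ range (c.p + 1), wd c f i / D * c.B ^ i := by
      apply sum_congr rfl
      intro i hi
      rw [mem_range] at hi
      rw [dg_block c hc f hb i (by omega)]
    rw [e1]
    have h4 : c.H / D * c.ON ≤ c.N := by
      have h5 := hc.ON_le
      have h6 : c.H / D * c.ON ≤ c.H * c.ON := Nat.mul_le_mul_right _ (Nat.div_le_self _ _)
      have := hc.BL_lt_N
      omega
    rw [h3]
    have e2 : Nat.mod (Nat.add (0 + 1 * ∑ i ∈ range (c.p + 1), wd c f i / D * c.B ^ i)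
        (Nat.sub c.N (Nat.mul (Nat.div c.H D) c.ON))) c.N =
        ((∑ i ∈ range (c.p + 1), wd c f i / D * c.B ^ i) + (c.N - c.H / D * c.ON)) % c.N := by
      rw [zero_add, one_mul]; rfl
    rw [e2]
    have h7 : ((((∑ i ∈ range (c.p + 1), wd c f i / D * c.B ^ i) + (c.N - c.H / D * c.ON)) % c.N : ℕ) : ℤ)
        ≡ ((((∑ i ∈ range (c.p + 1), wd c f i / D * c.B ^ i) + (c.N - c.H / D * c.ON)) : ℕ) : ℤ)
        [ZMOD c.N] := by
      rw [Int.natCast_modEq_iff]; exact Nat.mod_modEq _ _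
    refine h7.trans ?_
    rw [Nat.cast_add, Nat.cast_sub h4, Int.modEq_iff_dvd]
    exact ⟨-1, by ring⟩
  · rw [rd_nm]
    apply le_of_eq
    rw [zero_add]
    congr 1
    apply sum_congr rfl
    intro i hi
    rw [mem_range] at hi
    rw [dg_block c hc f hb i (by omega)]
    rfl
  · intro t ht
    have h3 := rd_err c f hf hb D hD t ht
    refine h3.trans ?_
    have e1 : ∑ i ∈ range c.p, ad (dg c.B i ((∑ i ∈ range (2 * c.p + 1), wd c f i * c.B ^ i) /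
        c.B ^ (Nat.succ c.p))) c.H = ∑ i ∈ range c.p, ad (wd c f (c.p + 1 + i)) c.H := by
      apply sum_congr rfl
      intro i hi
      rw [mem_range] at hi
      rw [dg_div, dg_block c hc f hb _ (by omega)]
    rw [e1]
    have h4 := div_floor (∑ i ∈ range c.p, ad (wd c f (c.p + 1 + i)) c.H) D hD
    have e2 : ((Nat.add (Nat.div (∑ i ∈ range c.p, ad (wd c f (c.p + 1 + i)) c.H) D)
        (Nat.add c.p 2) : ℕ) : ℝ) =
        (((∑ i ∈ range c.p, ad (wd c f (c.p + 1 + i)) c.H) / D : ℕ) : ℝ) + (c.p + 2) := by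
      have : Nat.add (Nat.div (∑ i ∈ range c.p, ad (wd c f (c.p + 1 + i)) c.H) D)
        (Nat.add c.p 2) = (∑ i ∈ range c.p, ad (wd c f (c.p + 1 + i)) c.H) / D + (c.p + 2) := rfl
      rw [this]; push_cast; ring
    rw [e2]
    push_cast at h4 ⊢
    linarith

theorem nrmC_spec (c : Cfg) (hc : c.Ok) (f g : ℤ[X]) (hf : f.natDegree ≤ 2 * c.p)
    (hg : g.natDegree ≤ 2 * c.p)
    (hb : ∀ i, |f.coeff i| < c.H) (hb' : ∀ i, |g.coeff i| < c.H)
    (S : ℕ) (hS : (S : ℤ) ≡ f.eval (c.B : ℤ) + c.BL * g.eval (c.B : ℤ) [ZMOD c.N])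
    (D : ℕ) (hD : 0 < D) (k : ℕ → ℕ → ℕ → Bool) (h : nrmC c S D k = true) :
    ∃ W ks er, k W ks er = true ∧ ks ≤ c.Mx ∧ ∃ f' g' : ℤ[X],
      (W : ℤ) ≡ f'.eval (c.B : ℤ) + c.BL * g'.eval (c.B : ℤ) [ZMOD c.N] ∧
      f'.natDegree ≤ c.p ∧ g'.natDegree ≤ c.p ∧ nm f' + nm g' ≤ ks ∧
      ∀ t : ℝ, |t| ≤ 1 → |aeval t f / D - aeval t f'| + |aeval t g / D - aeval t g'| ≤ (er : ℝ) := by
  unfold nrmC at h
  simp only [frc_eq, kpL_eq, dsR_eq] at h
  rw [chk_true] at h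
  obtain ⟨h1, h2⟩ := h
  obtain ⟨hW1, hW2⟩ := recC c hc f g hf hg hb hb' S hS
  have hW1' : Nat.mod (Nat.mod (Nat.add S c.OFC) c.N) c.BL =
    ∑ i ∈ range (2 * c.p + 1), wd c f i * c.B ^ i := hW1
  have hW2' : Nat.div (Nat.mod (Nat.add S c.OFC) c.N) c.BL =
    ∑ i ∈ range (2 * c.p + 1), wd c g i * c.B ^ i := hW2
  rw [hW1', hW2'] at h1 h2
  have key : ∀ q : ℤ[X], (∀ i, |q.coeff i| < c.H) →
      ∑ i ∈ range (Nat.succ c.p), dg c.B i (∑ i ∈ range (2 * c.p + 1), wd c q i * c.B ^ i) / D *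
        c.B ^ i = ∑ i ∈ range (c.p + 1), wd c q i / D * c.B ^ i := by
    intro q hq
    apply sum_congr rfl
    intro i hi
    rw [mem_range] at hi
    rw [dg_block c hc q hq i (by omega)]
  have key2 : ∀ q : ℤ[X], (∀ i, |q.coeff i| < c.H) →
      ∑ i ∈ range (Nat.succ c.p), ad (dg c.B i (∑ i ∈ range (2 * c.p + 1), wd c q i * c.B ^ i) / D)
        (Nat.div c.H D) = ∑ i ∈ range (c.p + 1), ad (wd c q i / D) (c.H / D) := by
    intro q hq
    apply sum_congr rfl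
    intro i hi
    rw [mem_range] at hi
    rw [dg_block c hc q hq i (by omega)]
    rfl
  have key3 : ∀ q : ℤ[X], (∀ i, |q.coeff i| < c.H) →
      ∑ i ∈ range c.p, ad (dg c.B i ((∑ i ∈ range (2 * c.p + 1), wd c q i * c.B ^ i) /
        c.B ^ (Nat.succ c.p))) c.H = ∑ i ∈ range c.p, ad (wd c q (c.p + 1 + i)) c.H := by
    intro q hq
    apply sum_congr rfl
    intro i hi
    rw [mem_range] at hi
    rw [dg_div, dg_block c hc q hq _ (by omega)]
  rw [key f hb, key g hb', key2 f hb, key2 g hb', key3 f hb, key3 g hb'] at h2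
  rw [key2 f hb, key2 g hb'] at h1
  refine ⟨_, _, _, h2, Nat.ble_eq.mp h1, rd c f D, rd c g D, ?_, rd_natDegree c f D,
    rd_natDegree c g D, ?_, ?_⟩
  · have h3 := rd_eval c hc f D c.B rfl
    have h3' := rd_eval c hc g D c.B rfl
    set F := ∑ i ∈ range (c.p + 1), wd c f i / D * c.B ^ i with hF
    set G := ∑ i ∈ range (c.p + 1), wd c g i / D * c.B ^ i with hG
    have h4 : c.H / D * (c.ON + c.BL * c.ON) ≤ c.N := by
      have h5 := hc.ON_le
      have h6 : c.H / D * c.ON ≤ c.H * c.ON := Nat.mul_le_mul_right _ (Nat.div_le_self _ _)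
      have h7 := hc.hN
      have h8 : c.H / D * (c.ON + c.BL * c.ON) = c.H / D * c.ON * (1 + c.BL) := by ring
      rw [h8, h7]
      have h9 : c.H / D * c.ON + 1 ≤ c.BL := by omega
      have h10 : (c.H / D * c.ON + 1) * (1 + c.BL) ≤ c.BL * (1 + c.BL) :=
        Nat.mul_le_mul_right _ h9
      have h11 : (c.H / D * c.ON + 1) * (1 + c.BL) = c.H / D * c.ON * (1 + c.BL) + (1 + c.BL) := by
        ring
      have h12 : c.BL * (1 + c.BL) = c.BL * c.BL + c.BL := by ring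
      omega
    rw [h3, h3']
    have e2 : Nat.mod (Nat.add (Nat.add (0 + 1 * F) (Nat.mul c.BL (0 + 1 * G)))
        (Nat.sub c.N (Nat.mul (Nat.div c.H D) (Nat.add c.ON (Nat.mul c.BL c.ON))))) c.N =
        ((F + c.BL * G) + (c.N - c.H / D * (c.ON + c.BL * c.ON))) % c.N := by
      rw [zero_add, one_mul, zero_add, one_mul]; rfl
    rw [e2]
    have h7 : ((((F + c.BL * G) + (c.N - c.H / D * (c.ON + c.BL * c.ON))) % c.N : ℕ) : ℤ)
        ≡ ((((F + c.BL * G) + (c.N - c.H / D * (c.ON + c.BL * c.ON))) : ℕ) : ℤ)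
        [ZMOD c.N] := by
      rw [Int.natCast_modEq_iff]; exact Nat.mod_modEq _ _
    refine h7.trans ?_
    rw [Nat.cast_add, Nat.cast_sub h4, Int.modEq_iff_dvd]
    exact ⟨-1, by push_cast; ring⟩
  · rw [rd_nm, rd_nm]
    apply le_of_eq
    have e : ((Nat.add (0 + ∑ i ∈ range (c.p + 1), ad (wd c f i / D) (c.H / D))
      (0 + ∑ i ∈ range (c.p + 1), ad (wd c g i / D) (c.H / D)) : ℕ) : ℤ) =
      ((∑ i ∈ range (c.p + 1), ad (wd c f i / D) (c.H / D) +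
        ∑ i ∈ range (c.p + 1), ad (wd c g i / D) (c.H / D) : ℕ) : ℤ) := by
      rw [zero_add, zero_add]; rfl
    rw [e]; push_cast; ring
  · intro t ht
    have h3 := rd_err c f hf hb D hD t ht
    have h3' := rd_err c g hg hb' D hD t ht
    refine (add_le_add h3 h3').trans ?_
    set F := ∑ i ∈ range c.p, ad (wd c f (c.p + 1 + i)) c.H with hF
    set G := ∑ i ∈ range c.p, ad (wd c g (c.p + 1 + i)) c.H with hG
    have h4 := div_floor (F + G) D hD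
    have e2 : ((Nat.add (Nat.div (Nat.add F G) D) (Nat.add (Nat.mul 2 c.p) 3) : ℕ) : ℝ) =
        (((F + G) / D : ℕ) : ℝ) + (2 * c.p + 3) := by
      have : Nat.add (Nat.div (Nat.add F G) D) (Nat.add (Nat.mul 2 c.p) 3) =
        (F + G) / D + (2 * c.p + 3) := rfl
      rw [this]; push_cast; ring
    rw [e2]
    push_cast at h4 ⊢
    rw [add_div] at h4
    linarith

/-! ### Taylor models at a fixed parameter -/

/-- real Taylor model -/
def RT (c : Cfg) (t : ℝ) (W b e : ℕ) (v : ℝ) : Prop :=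
  b ≤ c.Mx ∧ ∃ f : ℤ[X], (W : ℤ) ≡ f.eval (c.B : ℤ) [ZMOD c.N] ∧ f.natDegree ≤ c.p ∧
    nm f ≤ b ∧ |(c.one : ℝ) * v - aeval t f| ≤ e

/-- complex Taylor model with a bound of the norm -/
def CQ (c : Cfg) (t : ℝ) (W b e : ℕ) (v : ℂ) : Prop :=
  ∃ f g : ℤ[X], (W : ℤ) ≡ f.eval (c.B : ℤ) + c.BL * g.eval (c.B : ℤ) [ZMOD c.N] ∧
    f.natDegree ≤ c.p ∧ g.natDegree ≤ c.p ∧ nm f + nm g ≤ b ∧
    ‖(c.one : ℂ) * v - (((aeval t f : ℝ) : ℂ) + ((aeval t g : ℝ) : ℂ) * Complex.I)‖ ≤ e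

/-- complex Taylor model -/
def CT (c : Cfg) (t : ℝ) (W e : ℕ) (v : ℂ) : Prop := CQ c t W c.Mx e v

theorem CQ.mono {c : Cfg} {t : ℝ} {W b e : ℕ} {v : ℂ} (h : CQ c t W b e v) {b' e' : ℕ}
    (hb : b ≤ b') (he : e ≤ e') : CQ c t W b' e' v := by
  obtain ⟨f, g, h1, h2, h3, h4, h5⟩ := h
  have hb' : (b : ℤ) ≤ b' := by exact_mod_cast hb
  have he' : (e : ℝ) ≤ e' := by exact_mod_cast he
  exact ⟨f, g, h1, h2, h3, h4.trans hb', h5.trans he'⟩

theorem RT_of_poly (c : Cfg) (hc : c.Ok) (t : ℝ) (ht : |t| ≤ 1) (f : ℤ[X])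
    (hf : f.natDegree ≤ 2 * c.p) (hb : nm f < c.H) (S : ℕ)
    (hS : (S : ℤ) ≡ f.eval (c.B : ℤ) [ZMOD c.N]) (D : ℕ) (hD : 0 < D) (v : ℝ) (e : ℕ)
    (he : |(c.one : ℝ) * D * v - aeval t f| ≤ e) (k : ℕ → ℕ → ℕ → Bool)
    (h : nrmR c S D k = true) :
    ∃ W ks er, k W ks er = true ∧ RT c t W ks (e / D + 1 + er) v := by
  obtain ⟨W, ks, er, h1, h2, g, h3, h4, h5, h6⟩ := nrmR_spec c hc f hf
    (fun i => lt_of_le_of_lt (coeff_le_nm f i) hb) S hS D hD k h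
  refine ⟨W, ks, er, h1, h2, g, h3, h4, h5, ?_⟩
  have hD' : (0 : ℝ) < D := by exact_mod_cast hD
  have h7 := h6 t ht
  have h8 : |(c.one : ℝ) * v - aeval t f / D| ≤ e / D := by
    have : (c.one : ℝ) * v - aeval t f / D = ((c.one : ℝ) * D * v - aeval t f) / D := by
      field_simp
    rw [this, abs_div, abs_of_pos hD']
    exact div_le_div_of_nonneg_right he hD'.le
  have h9 := div_floor e D hD
  have h10 : (c.one : ℝ) * v - aeval t g =
      ((c.one : ℝ) * v - aeval t f / D) + (aeval t f / D - aeval t g) := by ring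
  rw [h10]
  refine (abs_add_le _ _).trans ?_
  push_cast
  linarith

theorem CT_of_poly (c : Cfg) (hc : c.Ok) (t : ℝ) (ht : |t| ≤ 1) (f g : ℤ[X])
    (hf : f.natDegree ≤ 2 * c.p) (hg : g.natDegree ≤ 2 * c.p) (hb : nm f < c.H) (hb' : nm g < c.H)
    (S : ℕ) (hS : (S : ℤ) ≡ f.eval (c.B : ℤ) + c.BL * g.eval (c.B : ℤ) [ZMOD c.N])
    (D : ℕ) (hD : 0 < D) (v : ℂ) (e : ℕ)
    (he : ‖(c.one : ℂ) * D * v - (((aeval t f : ℝ) : ℂ) + ((aeval t g : ℝ) : ℂ) * Complex.I)‖ ≤ e)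
    (k : ℕ → ℕ → ℕ → Bool) (h : nrmC c S D k = true) :
    ∃ W ks er, k W ks er = true ∧ ks ≤ c.Mx ∧ CQ c t W ks (e / D + 1 + er) v ∧
      (c.one : ℝ) * ‖v‖ ≤ ks + (e / D + 1 + er : ℕ) := by
  obtain ⟨W, ks, er, h1, h2, f', g', h3, h4, h4', h5, h6⟩ := nrmC_spec c hc f g hf hg
    (fun i => lt_of_le_of_lt (coeff_le_nm f i) hb) (fun i => lt_of_le_of_lt (coeff_le_nm g i) hb')
    S hS D hD k h
  have hD' : (0 : ℝ) < D := by exact_mod_cast hD
  have hDc : (D : ℂ) ≠ 0 := by exact_mod_cast hD.ne'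
  have h7 := h6 t ht
  have herr : ‖(c.one : ℂ) * v - (((aeval t f' : ℝ) : ℂ) + ((aeval t g' : ℝ) : ℂ) * Complex.I)‖ ≤
      ((e / D + 1 + er : ℕ) : ℝ) := by
    have h8 : ‖(c.one : ℂ) * v - (((aeval t f : ℝ) : ℂ) + ((aeval t g : ℝ) : ℂ) * Complex.I) / D‖ ≤
        e / D := by
      have : (c.one : ℂ) * v - (((aeval t f : ℝ) : ℂ) + ((aeval t g : ℝ) : ℂ) * Complex.I) / D =
        ((c.one : ℂ) * D * v - (((aeval t f : ℝ) : ℂ) + ((aeval t g : ℝ) : ℂ) * Complex.I)) / D := by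
        field_simp
      rw [this, norm_div, Complex.norm_natCast]
      exact div_le_div_of_nonneg_right he hD'.le
    have h9 := div_floor e D hD
    have h11 : ‖(((aeval t f : ℝ) : ℂ) + ((aeval t g : ℝ) : ℂ) * Complex.I) / D -
        (((aeval t f' : ℝ) : ℂ) + ((aeval t g' : ℝ) : ℂ) * Complex.I)‖ ≤ er := by
      have e1 : (((aeval t f : ℝ) : ℂ) + ((aeval t g : ℝ) : ℂ) * Complex.I) / D -
        (((aeval t f' : ℝ) : ℂ) + ((aeval t g' : ℝ) : ℂ) * Complex.I) =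
        ((aeval t f / D - aeval t f' : ℝ) : ℂ) + ((aeval t g / D - aeval t g' : ℝ) : ℂ) * Complex.I := by
        push_cast; ring
      rw [e1]
      refine (norm_add_le _ _).trans ?_
      rw [norm_mul, Complex.norm_I, mul_one, Complex.norm_real, Complex.norm_real,
        Real.norm_eq_abs, Real.norm_eq_abs]
      exact h7
    have h10 : (c.one : ℂ) * v - (((aeval t f' : ℝ) : ℂ) + ((aeval t g' : ℝ) : ℂ) * Complex.I) =
        ((c.one : ℂ) * v - (((aeval t f : ℝ) : ℂ) + ((aeval t g : ℝ) : ℂ) * Complex.I) / D) +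
        ((((aeval t f : ℝ) : ℂ) + ((aeval t g : ℝ) : ℂ) * Complex.I) / D -
        (((aeval t f' : ℝ) : ℂ) + ((aeval t g' : ℝ) : ℂ) * Complex.I)) := by ring
    rw [h10]
    refine (norm_add_le _ _).trans ?_
    push_cast
    linarith
  refine ⟨W, ks, er, h1, h2, ⟨f', g', h3, h4, h4', h5, herr⟩, ?_⟩
  · have e1 : (c.one : ℝ) * ‖v‖ = ‖(c.one : ℂ) * v‖ := by
      rw [norm_mul, Complex.norm_natCast]
    rw [e1]
    have h12 : (c.one : ℂ) * v = ((c.one : ℂ) * v - (((aeval t f' : ℝ) : ℂ) +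
      ((aeval t g' : ℝ) : ℂ) * Complex.I)) + (((aeval t f' : ℝ) : ℂ) +
      ((aeval t g' : ℝ) : ℂ) * Complex.I) := by ring
    rw [h12]
    refine (norm_add_le _ _).trans ?_
    have h13 : ‖(((aeval t f' : ℝ) : ℂ) + ((aeval t g' : ℝ) : ℂ) * Complex.I)‖ ≤ ks := by
      refine (norm_add_le _ _).trans ?_
      rw [norm_mul, Complex.norm_I, mul_one, Complex.norm_real, Complex.norm_real,
        Real.norm_eq_abs, Real.norm_eq_abs]
      have := abs_aev_le f' t ht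
      have := abs_aev_le g' t ht
      have h14 : ((nm f' : ℤ) : ℝ) + ((nm g' : ℤ) : ℝ) ≤ (ks : ℝ) := by exact_mod_cast h5
      linarith
    linarith

end MP_d1b55a.K
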