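import Pool.Agent.Lib.MP_d1b55a_co.KC
import Pool.Agent.Lib.MP_d1b55a_co.Mahler

/-!
MP_d1b55a_co, P4: real lists, the polynomial `B`, the coefficients of `Φ * B`.
-/

open Finset Polynomial

namespace MP_d1b55a.K

variable {c : Cfg} (hc : c.Ok) {t : ℝ} (ht : |t| ≤ 1)

/-- lists of real Taylor models -/
inductive TR (c : Cfg) (t : ℝ) : List ℕ → List ℕ → List ℝ → Prop
  | nil : TR c t [] [] []
  | cons {W b e : ℕ} {v : ℝ} {lW le : List ℕ} {lv : List ℝ} :
      RT c t W b e v → TR c t lW le lv → TR c t (W :: lW) (e :: le) (v :: lv)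

/-- residues and absolute values of a list of integers -/
inductive BT (c : Cfg) : List ℕ → List ℕ → List ℤ → Prop
  | nil : BT c [] [] []
  | cons {r s : ℕ} {β : ℤ} {lr ls : List ℕ} {lb : List ℤ} :
      ((r : ℤ) ≡ β [ZMOD c.N]) → |β| ≤ (s : ℤ) → BT c lr ls lb → BT c (r :: lr) (s :: ls) (β :: lb)

/-- real dot product with integer coefficients -/
def Bdot : List ℤ → List ℝ → ℝ
  | a :: l, v :: l' => (a : ℝ) * v + Bdot l l'
  | _, _ => 0

theorem Bdot_nil (l : List ℤ) : Bdot l [] = 0 := by cases l <;> rfl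

theorem BT.dot {lr ls : List ℕ} {lb : List ℤ} (h : BT c lr ls lb) :
    ∀ {lW le : List ℕ} {lv : List ℝ}, TR c t lW le lv →
      ∃ F : ℤ[X], ((dot lr lW : ℕ) : ℤ) ≡ F.eval (c.B : ℤ) [ZMOD c.N] ∧ F.natDegree ≤ c.p ∧
        nm F ≤ (ls.sum : ℕ) * (c.Mx : ℤ) ∧
        |(c.one : ℝ) * Bdot lb lv - aeval t F| ≤ ((dot ls le : ℕ) : ℝ) := by
  induction h with
  | nil =>
    intro lW le lv _
    exact ⟨0, by simp [dot_nil], by simp, by simp [nm_zero], by simp [Bdot, dot_nil]⟩
  | @cons r s β lr ls lb h1 h2 _ ih =>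
    intro lW le lv h
    cases h with
    | nil =>
      refine ⟨0, by simp [dot_nil'], by simp, ?_, by simp [Bdot, dot_nil']⟩
      rw [nm_zero]; positivity
    | @cons W b e v lW le lv h3 h4 =>
      obtain ⟨F, f1, f2, f3, f4⟩ := ih h4
      obtain ⟨g1, f, g2, g3, g4, g5⟩ := h3
      refine ⟨C β * f + F, ?_, ?_, ?_, ?_⟩
      · rw [dot_cons, Nat.cast_add, Nat.cast_mul, eval_add, eval_mul, eval_C]
        exact (h1.mul g2).add f1
      · exact (natDegree_add_le _ _).trans (max_le ((natDegree_C_mul_le _ _).trans g3) f2)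
      · refine (nm_add _ _).trans ?_
        rw [nm_C_mul, List.sum_cons, Nat.cast_add, add_mul]
        have g1' : (b : ℤ) ≤ c.Mx := by exact_mod_cast g1
        have : |β| * nm f ≤ s * (c.Mx : ℤ) :=
          mul_le_mul h2 (g4.trans g1') (nm_nonneg _) (by positivity)
        linarith
      · rw [map_add, map_mul, aeval_C, dot_cons]
        simp only [Bdot, eq_intCast]
        push_cast
        have e1 : (c.one : ℝ) * ((β : ℝ) * v + Bdot lb lv) - ((β : ℝ) * aeval t f + aeval t F) =
          (β : ℝ) * ((c.one : ℝ) * v - aeval t f) + ((c.one : ℝ) * Bdot lb lv - aeval t F) := by ring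
        rw [e1]
        refine (abs_add_le _ _).trans (add_le_add ?_ f4)
        rw [abs_mul]
        have h2' : |(β : ℝ)| ≤ (s : ℝ) := by exact_mod_cast h2
        exact mul_le_mul h2' g5 (abs_nonneg _) (by positivity)

/-- preparation of the list of residues -/
def mkB (c : Cfg) (Bp : List ℕ) : List ℕ → (List ℕ → List ℕ → Bool) → Bool :=
  List.rec (motive := fun _ => List ℕ → (List ℕ → List ℕ → Bool) → Bool) (fun _ K => K [] [])
    (fun a _ ih bs => List.rec (motive := fun _ => (List ℕ → List ℕ → Bool) → Bool)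
      (fun K => K [] [])
      (fun b bs' _ K => chk (Nat.ble b c.N) <|
        frc (Nat.mod (Nat.add a (Nat.sub c.N b)) c.N) fun r => frc (Nat.add a b) fun s =>
        ih bs' fun BR BA => K (r :: BR) (s :: BA)) bs) Bp

/-- the integer list -/
def bI : List ℕ → List ℕ → List ℤ
  | a :: l, b :: l' => ((a : ℤ) - b) :: bI l l'
  | _, _ => []

theorem mkB_spec (Bp : List ℕ) : ∀ (Bn : List ℕ) (K : List ℕ → List ℕ → Bool),
    mkB c Bp Bn K = true → ∃ BR BA, K BR BA = true ∧ BT c BR BA (bI Bp Bn) := by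
  induction Bp with
  | nil => intro Bn K h; exact ⟨[], [], h, BT.nil⟩
  | cons a l ih =>
    intro Bn K h
    cases Bn with
    | nil => exact ⟨[], [], h, BT.nil⟩
    | cons b l' =>
      have h0 : mkB c (a :: l) (b :: l') K = chk (Nat.ble b c.N) (
        frc ((a + (c.N - b)) % c.N) fun r => frc (a + b) fun s =>
        mkB c l l' fun BR BA => K (r :: BR) (s :: BA)) := rfl
      rw [h0] at h
      rw [chk_true, frc_eq, frc_eq, Nat.ble_eq] at h
      obtain ⟨g1, g2⟩ := h
      obtain ⟨BR, BA, g3, g4⟩ := ih l' _ g2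
      refine ⟨_, _, g3, BT.cons ?_ ?_ g4⟩
      · refine (mod_congr _ _).trans ?_
        rw [Nat.cast_add, Nat.cast_sub g1, Int.modEq_iff_dvd]
        exact ⟨-1, by ring⟩
      · rw [abs_le]
        constructor <;> push_cast <;> omega

/-- the real polynomial of an integer list -/
noncomputable def bP (BD : ℕ) : List ℤ → ℝ[X]
  | [] => 0
  | a :: l => C ((a : ℝ) / BD) + X * bP BD l

theorem bP_coeff_zero (BD : ℕ) (a : ℤ) (l : List ℤ) : (bP BD (a :: l)).coeff 0 = (a : ℝ) / BD := by
  simp [bP]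

theorem bP_coeff_succ (BD : ℕ) (a : ℤ) (l : List ℤ) (j : ℕ) :
    (bP BD (a :: l)).coeff (j + 1) = (bP BD l).coeff j := by
  simp [bP, coeff_C_succ]

theorem bP_coeff_big (BD : ℕ) (l : List ℤ) : ∀ j, l.length ≤ j → (bP BD l).coeff j = 0 := by
  induction l with
  | nil => intro j _; simp [bP]
  | cons a l ih =>
    intro j hj
    rw [List.length_cons] at hj
    obtain ⟨i, rfl⟩ : ∃ i, j = i + 1 := ⟨j - 1, by omega⟩
    rw [bP_coeff_succ]
    exact ih i (by omega)

/-- sum of the absolute values -/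
def ab : List ℤ → ℤ
  | [] => 0
  | a :: l => |a| + ab l

theorem bP_abs_sum (BD : ℕ) (hBD : 0 < BD) (l : List ℤ) : ∀ n,
    ∑ j ∈ range n, |(bP BD l).coeff j| ≤ ((ab l : ℤ) : ℝ) / BD := by
  have hD : (0 : ℝ) < BD := by exact_mod_cast hBD
  induction l with
  | nil => intro n; simp [bP, ab]
  | cons a l ih =>
    intro n
    have h0 : |(a : ℝ) / BD| = |(a : ℝ)| / BD := by rw [abs_div, abs_of_pos hD]
    cases n with
    | zero =>
      simp only [range_zero, sum_empty]
      have h1 := ih 0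
      simp only [range_zero, sum_empty] at h1
      simp only [ab]
      push_cast
      rw [add_div]
      positivity
    | succ n =>
      rw [sum_range_succ', bP_coeff_zero, h0]
      simp only [bP_coeff_succ, ab]
      have := ih n
      push_cast
      rw [add_div]
      linarith

/-- descending list `f n, …, f 0` -/
def dr (f : ℕ → ℝ) : ℕ → List ℝ
  | 0 => [f 0]
  | n + 1 => f (n + 1) :: dr f n

theorem Bdot_dd (θ e ρ : ℝ) (BD : ℕ) (hBD : 0 < BD) (l : List ℤ) : ∀ n,
    Bdot l (dr (ph θ e ρ) n) = BD * dd θ e ρ (bP BD l) n := by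
  have hD : (BD : ℝ) ≠ 0 := by exact_mod_cast hBD.ne'
  induction l with
  | nil => intro n; simp [Bdot, dd, bP]
  | cons a l ih =>
    intro n
    cases n with
    | zero =>
      simp only [dr, Bdot, Bdot_nil, dd]
      rw [Finset.Nat.antidiagonal_zero, sum_singleton, bP_coeff_zero]
      field_simp
      ring
    | succ n =>
      simp only [dr, Bdot, ih n, dd]
      rw [Finset.Nat.sum_antidiagonal_succ']
      simp only [bP_coeff_zero, bP_coeff_succ]
      field_simp

theorem dd_tail (θ e ρ : ℝ) (BD : ℕ) (hBD : 0 < BD) (l : List ℤ) (n : ℕ) (s : ℝ) (hs : 0 ≤ s)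
    (h : ∀ j, j ≤ n → j < l.length → |ph θ e ρ (n - j)| ≤ s) :
    |dd θ e ρ (bP BD l) n| ≤ s * (((ab l : ℤ) : ℝ) / BD) := by
  unfold dd
  rw [Finset.Nat.sum_antidiagonal_eq_sum_range_succ_mk]
  have h1 : ∑ k ∈ range (n + 1), ph θ e ρ k * (bP BD l).coeff (n - k) =
      ∑ k ∈ range (n + 1), ph θ e ρ (n - k) * (bP BD l).coeff k := by
    rw [← sum_range_reflect]
    apply sum_congr rfl
    intro k hk
    rw [mem_range] at hk
    have : n + 1 - 1 - k = n - k := by omega
    rw [this]
    congr 2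
    omega
  simp only
  rw [h1]
  refine (abs_sum_le_sum_abs _ _).trans ?_
  refine le_trans ?_ (mul_le_mul_of_nonneg_left (bP_abs_sum BD hBD l (n + 1)) hs)
  rw [mul_sum]
  apply sum_le_sum
  intro k hk
  rw [mem_range] at hk
  rw [abs_mul]
  by_cases hk2 : k < l.length
  · exact mul_le_mul_of_nonneg_right (h k (by omega) hk2) (abs_nonneg _)
  · rw [bP_coeff_big BD l k (by omega), abs_zero, mul_zero, mul_zero]

end MP_d1b55a.K
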