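import Pool.Agent.Lib.MP_d1b55a_co.KX

/-!
MP_d1b55a_co, P4: the loop for the coefficients of `Φ * B`.
-/

open Finset Polynomial

namespace MP_d1b55a.K

variable {c : Cfg} (hc : c.Ok) {t : ℝ} (ht : |t| ≤ 1)

/-- real Taylor model of an affine function -/
theorem RT_lp (hp : 1 ≤ c.p) (c0 c1 : ℕ) (h : c0 + c1 ≤ c.Mx) (v : ℝ)
    (hv : (c.one : ℝ) * v = c0 + c1 * t) : RT c t (c0 + c1 * c.B) (c0 + c1) 0 v := by
  refine ⟨h, lp c0 c1, ?_, (lp_natDegree c0 c1).trans hp, lp_nm c0 c1, ?_⟩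
  · rw [lp_eval]
  · rw [lp_aeval, ← hv]; simp

/-- computation of `X_m` -/
def xS (c : Cfg) (L87 l87 Cn m Wo eo F : ℕ) (K : ℕ → ℕ → Bool) : Bool :=
  frc (imW c Wo) fun Sm =>
  frc (Nat.mul (Nat.mul 32 m) c.one) fun D =>
  nrmR c (Nat.mul L87 Sm) D fun Wβ kβ er =>
  frc (Nat.add (Nat.add (Nat.div (Nat.mul l87 eo) D) 1) er) fun eβ =>
  powR c 12 m Wβ kβ eβ fun Wp bp ep =>
  frc (Nat.div (Nat.mul (Nat.pow (Nat.mul (Nat.mul 32 m) Cn) m) c.one) F) fun G =>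
  chk (Nat.ble (Nat.succ (Nat.mul G bp)) c.H) <|
  nrmR c (Nat.mul G Wp) c.one fun WX _ er' =>
  frc (Nat.add (Nat.add (Nat.div (Nat.add (Nat.add bp ep) (Nat.mul G ep)) c.one) 1) er') fun eX =>
  K WX eX

include hc ht in
theorem xS_spec (h4 : 4 * (c.Mx * c.Mx) ≤ c.H) (hMx : 0 < c.Mx) (L87 l87 Cn Cd m Wo eo F : ℕ)
    (K : ℕ → ℕ → Bool) (ℓ : ℝ) (hL : RT c t L87 l87 0 (87 * ℓ)) (hm : 1 ≤ m) (hCd : 0 < Cd)
    (o : ℂ) (ho : CT c t Wo eo o) (hF : F = (87 * Cd) ^ m * m.factorial)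
    (h : xS c L87 l87 Cn m Wo eo F K = true) :
    ∃ WX kX eX, K WX eX = true ∧
      RT c t WX kX eX ((ℓ * ((Cn : ℝ) / Cd) * o.im) ^ m / (m.factorial : ℝ)) := by
  have hone := hc.hone
  have honeR : (0 : ℝ) < c.one := by exact_mod_cast hone
  have hMH : c.Mx < c.H := by nlinarith
  have hMM : 1 * (c.Mx * c.Mx) < c.H := by nlinarith
  unfold xS at h
  rw [frc_eq, frc_eq] at h
  have h1 := ho.im hc hMH
  have h2 := (hL.mulS ht h1).mono (E' := ((l87 * eo : ℕ) : ℝ)) (by push_cast; linarith)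
  have hD : 0 < 32 * m * c.one := by positivity
  obtain ⟨Wβ, kβ, er, h3, h5⟩ := h2.nrm hc ht hMM (32 * m * c.one) hD _ le_rfl _ h
  rw [frc_eq] at h3
  have hmR : (0 : ℝ) < m := by exact_mod_cast hm
  have hv : (c.one : ℝ) * (87 * ℓ) * (c.one * o.im) / (c.one * ((32 * m * c.one : ℕ) : ℝ)) =
      87 * ℓ * o.im / (32 * m) := by
    push_cast; field_simp
  rw [hv] at h5
  set β : ℝ := 87 * ℓ * o.im / (32 * m) with hβ
  obtain ⟨Wp, bp, ep, h6, h7⟩ := powR_spec hc ht hMM 12 m Wβ kβ _ _ β hm h5 h3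
  rw [frc_eq] at h6
  set G := (32 * m * Cn) ^ m * c.one / F with hG
  have eG : Nat.div (Nat.mul (Nat.pow (Nat.mul (Nat.mul 32 m) Cn) m) c.one) F = G := rfl
  rw [eG, chk_true, Nat.ble_eq] at h6
  obtain ⟨g1, g2⟩ := h6
  have g1' : G * bp < c.H := g1
  obtain ⟨b1, f, f1, f2, f3, f4⟩ := h7
  have hCdR : (0 : ℝ) < Cd := by exact_mod_cast hCd
  have hfac : (0 : ℝ) < (m.factorial : ℝ) := by exact_mod_cast m.factorial_pos
  have hF0 : 0 < F := by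
    rw [hF]; exact Nat.mul_pos (Nat.pow_pos (by omega)) m.factorial_pos
  have hF0R : (0 : ℝ) < F := by exact_mod_cast hF0
  set g : ℝ := (32 * m * Cn / (87 * Cd)) ^ m / (m.factorial : ℝ) with hg
  have hgF : (c.one : ℝ) * g = (((32 * m * Cn) ^ m * c.one : ℕ) : ℝ) / F := by
    rw [hg, hF, div_pow]
    push_cast
    field_simp
  have hG1 : |(c.one : ℝ) * g - G| ≤ 1 := by
    rw [hgF, abs_le]
    have u1 := div_floor ((32 * m * Cn) ^ m * c.one) F hF0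
    have u2 := Nat.cast_div_le (α := ℝ) (m := (32 * m * Cn) ^ m * c.one) (n := F)
    rw [← hG] at u1 u2
    constructor <;> linarith
  have hval : (ℓ * ((Cn : ℝ) / Cd) * o.im) ^ m / (m.factorial : ℝ) = β ^ m * g := by
    have e0 : ℓ * ((Cn : ℝ) / Cd) * o.im =
        (87 * ℓ * o.im / (32 * m)) * (32 * m * Cn / (87 * Cd)) := by field_simp
    rw [hβ, hg, e0, mul_pow, mul_div_assoc]
  have hbp : |(c.one : ℝ) * β ^ m| ≤ bp + ep := by
    have u1 : |aeval t f| ≤ (bp : ℝ) := (abs_aev_le f t ht).trans (by exact_mod_cast f3)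
    have u2 : (c.one : ℝ) * β ^ m = ((c.one : ℝ) * β ^ m - aeval t f) + aeval t f := by ring
    rw [u2]
    exact (abs_add_le _ _).trans (by linarith)
  have herr : |(c.one : ℝ) * c.one * (β ^ m * g) - aeval t (C (G : ℤ) * f)| ≤
      ((bp + ep + G * ep : ℕ) : ℝ) := by
    rw [map_mul, aeval_C]
    simp only [eq_intCast]
    push_cast
    have u1 : (c.one : ℝ) * c.one * (β ^ m * g) - (G : ℝ) * aeval t f =
      ((c.one : ℝ) * β ^ m) * ((c.one : ℝ) * g - G) + G * ((c.one : ℝ) * β ^ m - aeval t f) := by ring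
    rw [u1]
    refine (abs_add_le _ _).trans ?_
    rw [abs_mul ((c.one : ℝ) * β ^ m) _, abs_mul (G : ℝ) _, Nat.abs_cast]
    have u2 : |(c.one : ℝ) * β ^ m| * |(c.one : ℝ) * g - G| ≤ (bp + ep) * 1 :=
      mul_le_mul hbp hG1 (abs_nonneg _) (by positivity)
    have u3 : (G : ℝ) * |(c.one : ℝ) * β ^ m - aeval t f| ≤ G * ep :=
      mul_le_mul_of_nonneg_left f4 (by positivity)
    linarith
  have hnm : nm (C (G : ℤ) * f) < (c.H : ℤ) := by
    rw [nm_C_mul, Nat.abs_cast]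
    have u1 : (G : ℤ) * nm f ≤ G * bp := mul_le_mul_of_nonneg_left f3 (by positivity)
    have u2 : (G : ℤ) * bp < c.H := by exact_mod_cast g1'
    linarith
  have hrep : ((G * Wp : ℕ) : ℤ) ≡ (C (G : ℤ) * f).eval (c.B : ℤ) [ZMOD c.N] := by
    rw [eval_mul, eval_C, Nat.cast_mul]
    exact f1.mul_left _
  obtain ⟨WX, kX, er', g3, g4⟩ := RT_of_poly c hc t ht (C (G : ℤ) * f)
    ((natDegree_C_mul_le _ _).trans (by omega)) hnm _ hrep c.one hone (β ^ m * g) _ herr _ g2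
  rw [frc_eq] at g3
  refine ⟨WX, kX, _, g3, ?_⟩
  rw [hval]
  exact g4

/-- the loop -/
def xL (c : Cfg) (L87 l87 Cn C87 WO eS BD : ℕ) (BR BA : List ℕ) (fuel : ℕ) :
    ℕ → List ℕ → List ℕ → ℕ → ℕ → ℕ → ℕ → ℕ → (ℕ → ℕ → Bool) → Bool :=
  Nat.rec (motive := fun _ => ℕ → List ℕ → List ℕ → ℕ → ℕ → ℕ → ℕ → ℕ → (ℕ → ℕ → Bool) → Bool)
    (fun _ _ _ _ _ _ S Es K => K S Es)
    (fun _ ih m XW XE Wo eo F S Es K =>
      frc (Nat.mul F (Nat.mul C87 m)) fun F' =>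
      xS c L87 l87 Cn m Wo eo F' fun WX eX =>
      nrmR c (dot BR (WX :: XW)) BD fun Wd kd er =>
      frc (Nat.add (Nat.add (Nat.div (dot BA (eX :: XE)) BD) 1) er) fun ed =>
      frc (Nat.mod (Nat.add S (Nat.mul Wd Wd)) c.N) fun S' =>
      frc (Nat.add Es (Nat.mul (Nat.add (Nat.mul 2 kd) ed) ed)) fun Es' =>
      nrmC c (Nat.mul Wo WO) c.one fun Wo' _ er' =>
      frc (Nat.add (Nat.add (Nat.div (Nat.add (Nat.add (Nat.mul c.one eS) (Nat.mul c.one eo))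
        (Nat.mul eo eS)) c.one) 1) er') fun eo' =>
      frc (Nat.succ m) fun m' =>
      ih m' (WX :: XW) (eX :: XE) Wo' eo' F' S' Es' K) fuel

/-- `e^{i m θ/2}` -/
noncomputable def om (θ : ℝ) (m : ℕ) : ℂ := Complex.exp (((m * (θ / 2) : ℝ) : ℂ) * Complex.I)

theorem om_norm (θ : ℝ) (m : ℕ) : ‖om θ m‖ = 1 := Complex.norm_exp_ofReal_mul_I _

theorem om_im (θ : ℝ) (m : ℕ) : (om θ m).im = Real.sin (m * (θ / 2)) :=
  Complex.exp_ofReal_mul_I_im _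

theorem om_succ (θ : ℝ) (m : ℕ) : om θ (m + 1) = om θ m * om θ 1 := by
  unfold om
  rw [← Complex.exp_add]
  congr 1
  push_cast
  ring

include hc ht in
theorem xL_spec (h4 : 4 * (c.Mx * c.Mx) ≤ c.H) (hMx : 0 < c.Mx) (L87 l87 Cn Cd WO eS BD : ℕ)
    (BR BA : List ℕ) (lb : List ℤ) (hB : BT c BR BA lb) (hBA : BA.sum * c.Mx < c.H)
    (hBD : 0 < BD) (K : ℕ → ℕ → Bool) (θ ℓ : ℝ) (hσ : 0 < Real.sin (θ / 2))
    (hL : RT c t L87 l87 0 (87 * ℓ)) (hCd : 0 < Cd)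
    (hO : CT c t WO eS (om θ 1)) (ρ : ℝ) (hρ : ρ = ℓ * Real.sin (θ / 2) * ((Cn : ℝ) / Cd))
    (fuel : ℕ) : ∀ (j : ℕ) (XW XE : List ℕ) (Wo eo F S Es : ℕ),
      TR c t XW XE (dr (ph θ 0 ρ) j) → CT c t Wo eo (om θ (j + 1)) →
      F = (87 * Cd) ^ j * j.factorial →
      RS c t S (j + 1) Es (c.one * c.one * ∑ n ∈ range (j + 1), (dd θ 0 ρ (bP BD lb) n) ^ 2) →
      xL c L87 l87 Cn (87 * Cd) WO eS BD BR BA fuel (j + 1) XW XE Wo eo F S Es K = true →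
      ∃ S' Es' : ℕ, K S' Es' = true ∧ RS c t S' (j + fuel + 1) Es'
        (c.one * c.one * ∑ n ∈ range (j + fuel + 1), (dd θ 0 ρ (bP BD lb) n) ^ 2) := by
  have hone := hc.hone
  have honeR : (0 : ℝ) < c.one := by exact_mod_cast hone
  have honeC : (c.one : ℂ) ≠ 0 := by exact_mod_cast hone.ne'
  have hMM : 1 * (c.Mx * c.Mx) < c.H := by nlinarith
  have hBDR : (0 : ℝ) < BD := by exact_mod_cast hBD
  induction fuel with
  | zero => intro j XW XE Wo eo F S Es _ _ _ hS h; exact ⟨S, Es, h, hS⟩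
  | succ fuel ih =>
    intro j XW XE Wo eo F S Es hX hW hF hS h
    have h0 : xL c L87 l87 Cn (87 * Cd) WO eS BD BR BA (fuel + 1) (j + 1) XW XE Wo eo F S Es K =
      frc (F * ((87 * Cd) * (j + 1))) fun F' =>
      xS c L87 l87 Cn (j + 1) Wo eo F' fun WX eX =>
      nrmR c (dot BR (WX :: XW)) BD fun Wd kd er =>
      frc (dot BA (eX :: XE) / BD + 1 + er) fun ed =>
      frc ((S + Wd * Wd) % c.N) fun S' =>
      frc (Es + (2 * kd + ed) * ed) fun Es' =>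
      nrmC c (Wo * WO) c.one fun Wo' _ er' =>
      frc ((c.one * eS + c.one * eo + eo * eS) / c.one + 1 + er') fun eo' =>
      frc (j + 2) fun m' =>
      xL c L87 l87 Cn (87 * Cd) WO eS BD BR BA fuel m' (WX :: XW) (eX :: XE) Wo' eo' F' S' Es' K := rfl
    rw [h0, frc_eq] at h
    have hF' : F * ((87 * Cd) * (j + 1)) = (87 * Cd) ^ (j + 1) * (j + 1).factorial := by
      rw [hF, Nat.factorial_succ, pow_succ]; ring
    obtain ⟨WX, kX, eX, h1, h2⟩ := xS_spec hc ht h4 hMx L87 l87 Cn Cd (j + 1) Wo eo _ _ ℓ hL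
      (by omega) hCd (om θ (j + 1)) hW hF' h
    have hph : (ℓ * ((Cn : ℝ) / Cd) * (om θ (j + 1)).im) ^ (j + 1) / ((j + 1).factorial : ℝ) =
        ph θ 0 ρ (j + 1) := by
      unfold ph
      rw [om_im, hρ]
      congr 2
      have : (((j + 1 : ℕ) : ℝ) + 0) * θ / 2 = ((j + 1 : ℕ) : ℝ) * (θ / 2) := by ring
      rw [this]
      field_simp
    rw [hph] at h2
    have hX' : TR c t (WX :: XW) (eX :: XE) (dr (ph θ 0 ρ) (j + 1)) := TR.cons h2 hX
    obtain ⟨G, g1, g2, g3, g4⟩ := hB.dot hX'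
    have hGn : nm G < (c.H : ℤ) := by
      have : ((BA.sum * c.Mx : ℕ) : ℤ) < c.H := by exact_mod_cast hBA
      push_cast at this g3
      linarith
    rw [Bdot_dd θ 0 ρ BD hBD lb] at g4
    obtain ⟨Wd, kd, er, h5, h6⟩ := RT_of_poly c hc t ht G (by omega) hGn _ g1 BD hBD
      (dd θ 0 ρ (bP BD lb) (j + 1)) _ (by rw [mul_assoc]; exact g4) _ h1
    simp only [frc_eq] at h5
    set ed := dot BA (eX :: XE) / BD + 1 + er with hed
    have hsq := (h6.mulS ht h6).mono (E' := (((2 * kd + ed) * ed : ℕ) : ℝ))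
      (by push_cast; linarith)
    have hS' := (hS.add hsq).modN
    have hOW := (hW.mulS hc hO (c.one : ℝ) c.one (by rw [om_norm, mul_one])
      (by rw [om_norm, mul_one])).mono
      (E' := ((c.one * eS + c.one * eo + eo * eS : ℕ) : ℝ)) (by push_cast; linarith)
    obtain ⟨Wo', ko', er', h7, h8, h9, _⟩ := hOW.nrm hc ht hMM c.one hone _ le_rfl _ h5
    have hv : (c.one : ℂ) * om θ (j + 1) * (c.one * om θ 1) / (c.one * c.one) = om θ (j + 1 + 1) := by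
      rw [om_succ θ (j + 1)]; field_simp
    rw [hv] at h9
    have hsum : c.one * c.one * ∑ n ∈ range (j + 1), (dd θ 0 ρ (bP BD lb) n) ^ 2 +
        (c.one * dd θ 0 ρ (bP BD lb) (j + 1)) * (c.one * dd θ 0 ρ (bP BD lb) (j + 1)) =
        c.one * c.one * ∑ n ∈ range (j + 1 + 1), (dd θ 0 ρ (bP BD lb) n) ^ 2 := by
      rw [sum_range_succ (fun n => (dd θ 0 ρ (bP BD lb) n) ^ 2) (j + 1)]
      ring
    rw [hsum] at hS'
    have e1 : j + (fuel + 1) + 1 = (j + 1) + fuel + 1 := by ring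
    rw [e1]
    refine ih (j + 1) _ _ _ _ _ _ _ hX' (h9.mono h8 le_rfl) hF' ?_ h7
    have e2 : ((Es + (2 * kd + ed) * ed : ℕ) : ℝ) = (Es : ℝ) + (((2 * kd + ed) * ed : ℕ) : ℝ) := by
      push_cast; ring
    have hS'' : RS c t ((S + Wd * Wd) % c.N) (j + 1 + 1) ((Es + (2 * kd + ed) * ed : ℕ) : ℝ)
        (c.one * c.one * ∑ n ∈ range (j + 1 + 1), (dd θ 0 ρ (bP BD lb) n) ^ 2) := by
      rw [e2]; exact hS'
    exact hS''

end MP_d1b55a.K
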