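import Pool.Agent.Lib.MP_d1b55a_co.Reduction
import Pool.Agent.Lib.MP_d1b55a_co.SDefs

/-!
MP_d1b55a_co, the third logarithmic derivative of `F` on the circle.

With `x = -i e^{iθ/2} v` one has `F_j(x) = ∑ n^j (-i)^n e^{iθ n²/2} v^n / n!`; with
`g_j = ∑ n^j i^n e^{-iθ n²/2} v^n / n!` the Cauchy products are
`F_0 g_0 = ∑ (2 sin(nθ/2))^n v^n / n!` and
`F_1 g_0 = ∑_{n ≥ 1} (-i) e^{i n θ/2} (2 sin(nθ/2))^{n-1} v^n / (n-1)!`.
-/

open Finset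

namespace MP_d1b55a

/-- the scaled variable `v` -/
noncomputable def vB (ε : ℝ) (B : ℂ) : ℂ :=
  Complex.exp (B * ((ε ^ 2 : ℝ) : ℂ)) / (((Real.exp 1 * ε ^ 3 : ℝ)) : ℂ)

/-- coefficients of `f` -/
noncomputable def cf (θ : ℝ) (n : ℕ) : ℂ :=
  (-Complex.I) ^ n * Complex.exp (Complex.I * (θ : ℂ) * (n : ℂ) ^ 2 / 2) / (n.factorial : ℂ)

/-- coefficients of the conjugate series -/
noncomputable def cg (θ : ℝ) (n : ℕ) : ℂ :=
  Complex.I ^ n * Complex.exp (-(Complex.I * (θ : ℂ) * (n : ℂ) ^ 2 / 2)) / (n.factorial : ℂ)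

/-- `f_j = ∑ n^j cf n v^n` -/
noncomputable def fs (θ : ℝ) (v : ℂ) (j : ℕ) : ℂ := ∑' n : ℕ, (n : ℂ) ^ j * cf θ n * v ^ n

/-- `g_j = ∑ n^j cg n v^n` -/
noncomputable def gs (θ : ℝ) (v : ℂ) (j : ℕ) : ℂ := ∑' n : ℕ, (n : ℂ) ^ j * cg θ n * v ^ n

theorem LD_norm_cf (θ : ℝ) (n : ℕ) : ‖cf θ n‖ = 1 / (n.factorial : ℝ) := by
  unfold cf
  rw [norm_div, norm_mul, norm_pow, norm_neg, Complex.norm_I, one_pow, one_mul]
  have : Complex.I * (θ : ℂ) * (n : ℂ) ^ 2 / 2 = ((θ * (n : ℝ) ^ 2 / 2 : ℝ) : ℂ) * Complex.I := by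
    push_cast; ring
  rw [this, Complex.norm_exp_ofReal_mul_I]
  simp

theorem LD_norm_cg (θ : ℝ) (n : ℕ) : ‖cg θ n‖ = 1 / (n.factorial : ℝ) := by
  unfold cg
  rw [norm_div, norm_mul, norm_pow, Complex.norm_I, one_pow, one_mul]
  have : -(Complex.I * (θ : ℂ) * (n : ℂ) ^ 2 / 2) =
      ((-(θ * (n : ℝ) ^ 2 / 2) : ℝ) : ℂ) * Complex.I := by
    push_cast; ring
  rw [this, Complex.norm_exp_ofReal_mul_I]
  simp

/-- `n^j r^n / n!` is summable -/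
theorem LD_summable (r : ℝ) (j : ℕ) :
    Summable (fun n : ℕ => (n : ℝ) ^ j * (1 / (n.factorial : ℝ)) * |r| ^ n) := by
  induction j with
  | zero =>
    have := Real.summable_pow_div_factorial |r|
    refine this.congr (fun n => ?_)
    rw [pow_zero]; ring
  | succ j ih =>
    rw [← summable_nat_add_iff 1]
    have h2 : Summable (fun n : ℕ => (2 ^ j * |r|) *
        ((n : ℝ) ^ j * (1 / (n.factorial : ℝ)) * |r| ^ n) + |r| * (|r| ^ n / (n.factorial : ℝ))) :=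
      (ih.mul_left _).add ((Real.summable_pow_div_factorial |r|).mul_left _)
    refine Summable.of_nonneg_of_le (fun n => by positivity) (fun n => ?_) h2
    have hfac : ((n + 1).factorial : ℝ) = ((n : ℝ) + 1) * (n.factorial : ℝ) := by
      rw [Nat.factorial_succ]; push_cast; ring
    have hf : (0 : ℝ) < (n.factorial : ℝ) := by exact_mod_cast Nat.factorial_pos n
    have hn1 : (0 : ℝ) < (n : ℝ) + 1 := by positivity
    have e1 : ((n + 1 : ℕ) : ℝ) ^ (j + 1) * (1 / ((n + 1).factorial : ℝ)) * |r| ^ (n + 1) =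
        |r| * (((n : ℝ) + 1) ^ j * (|r| ^ n / (n.factorial : ℝ))) := by
      rw [hfac]; push_cast; field_simp; ring
    have e2 : 2 ^ j * |r| * ((n : ℝ) ^ j * (1 / (n.factorial : ℝ)) * |r| ^ n) +
        |r| * (|r| ^ n / (n.factorial : ℝ)) =
        |r| * ((2 ^ j * (n : ℝ) ^ j + 1) * (|r| ^ n / (n.factorial : ℝ))) := by
      field_simp
    rw [e1, e2]
    refine mul_le_mul_of_nonneg_left ?_ (abs_nonneg r)
    refine mul_le_mul_of_nonneg_right ?_ (by positivity)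
    rcases Nat.eq_zero_or_pos n with h0 | h0
    · subst h0
      simp only [Nat.cast_zero, zero_add, one_pow]
      have : (0 : ℝ) ≤ 2 ^ j * 0 ^ j := by positivity
      linarith
    · have h1 : (1 : ℝ) ≤ (n : ℝ) := by exact_mod_cast h0
      have : ((n : ℝ) + 1) ^ j ≤ (2 * (n : ℝ)) ^ j := by
        apply pow_le_pow_left₀ (by positivity); linarith
      rw [mul_pow] at this
      linarith

theorem LD_summable_f (θ : ℝ) (v : ℂ) (j : ℕ) :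
    Summable (fun n : ℕ => ‖(n : ℂ) ^ j * cf θ n * v ^ n‖) := by
  refine (LD_summable ‖v‖ j).congr (fun n => ?_)
  rw [norm_mul, norm_mul, norm_pow, norm_pow, LD_norm_cf, abs_norm, Complex.norm_natCast]

theorem LD_summable_g (θ : ℝ) (v : ℂ) (j : ℕ) :
    Summable (fun n : ℕ => ‖(n : ℂ) ^ j * cg θ n * v ^ n‖) := by
  refine (LD_summable ‖v‖ j).congr (fun n => ?_)
  rw [norm_mul, norm_mul, norm_pow, norm_pow, LD_norm_cg, abs_norm, Complex.norm_natCast]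

/-- the Cauchy product -/
theorem LD_cauchy (θ : ℝ) (v : ℂ) (i j : ℕ) :
    HasSum (fun N : ℕ => (∑ p ∈ antidiagonal N,
      (p.1 : ℂ) ^ i * (p.2 : ℂ) ^ j * (cf θ p.1 * cg θ p.2)) * v ^ N) (fs θ v i * gs θ v j) := by
  have h1 := LD_summable_f θ v i
  have h2 := LD_summable_g θ v j
  have h3 := tsum_mul_tsum_eq_tsum_sum_antidiagonal_of_summable_norm h1 h2
  have h4 := (summable_norm_sum_mul_antidiagonal_of_summable_norm h1 h2).of_norm.hasSum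
  rw [← h3] at h4
  have h5 : (fun N : ℕ => (∑ p ∈ antidiagonal N,
      (p.1 : ℂ) ^ i * (p.2 : ℂ) ^ j * (cf θ p.1 * cg θ p.2)) * v ^ N) =
      fun N : ℕ => ∑ kl ∈ antidiagonal N, (kl.1 : ℂ) ^ i * cf θ kl.1 * v ^ kl.1 *
        ((kl.2 : ℂ) ^ j * cg θ kl.2 * v ^ kl.2) := by
    funext N
    rw [Finset.sum_mul]
    refine Finset.sum_congr rfl (fun p hp => ?_)
    rw [HasAntidiagonal.mem_antidiagonal] at hp
    rw [← hp, pow_add]; ring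
  rw [h5]
  exact h4

/-- the product of the coefficients in exponential form -/
theorem LD_cfcg (θ : ℝ) (N : ℕ) (p : ℕ × ℕ) (hp : p ∈ antidiagonal N) :
    cf θ p.1 * cg θ p.2 =
      ((-Complex.I * Complex.exp (Complex.I * ((N : ℂ) * (θ : ℂ) / 2))) ^ p.1 /
        (p.1.factorial : ℂ)) *
      ((Complex.I * Complex.exp (-(Complex.I * ((N : ℂ) * (θ : ℂ) / 2)))) ^ p.2 /
        (p.2.factorial : ℂ)) := by
  rw [HasAntidiagonal.mem_antidiagonal] at hp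
  unfold cf cg
  rw [mul_pow, mul_pow, ← Complex.exp_nat_mul, ← Complex.exp_nat_mul]
  have key : Complex.exp (Complex.I * (θ : ℂ) * (p.1 : ℂ) ^ 2 / 2) *
      Complex.exp (-(Complex.I * (θ : ℂ) * (p.2 : ℂ) ^ 2 / 2)) =
      Complex.exp ((p.1 : ℂ) * (Complex.I * ((N : ℂ) * (θ : ℂ) / 2))) *
      Complex.exp ((p.2 : ℂ) * (-(Complex.I * ((N : ℂ) * (θ : ℂ) / 2)))) := by
    rw [← Complex.exp_add, ← Complex.exp_add]
    congr 1
    rw [← hp]; push_cast; ring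
  linear_combination ((-Complex.I) ^ p.1 / (p.1.factorial : ℂ) *
    (Complex.I ^ p.2 / (p.2.factorial : ℂ))) * key

theorem LD_binom (x y : ℂ) (N : ℕ) :
    ∑ p ∈ antidiagonal N, (x ^ p.1 / (p.1.factorial : ℂ)) * (y ^ p.2 / (p.2.factorial : ℂ)) =
      (x + y) ^ N / (N.factorial : ℂ) := by
  rw [(Commute.all x y).add_pow', Finset.sum_div]
  refine Finset.sum_congr rfl (fun p hp => ?_)
  rw [HasAntidiagonal.mem_antidiagonal] at hp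
  have h1 : ((p.1 + p.2).choose p.1 * p.1.factorial * p.2.factorial : ℂ) =
      ((p.1 + p.2).factorial : ℂ) := by
    rw [Nat.choose_symm_add]
    exact_mod_cast Nat.add_choose_mul_factorial_mul_factorial p.1 p.2
  have h2 : (p.1.factorial : ℂ) ≠ 0 := by exact_mod_cast Nat.factorial_ne_zero _
  have h3 : (p.2.factorial : ℂ) ≠ 0 := by exact_mod_cast Nat.factorial_ne_zero _
  have h4 : ((p.1 + p.2).factorial : ℂ) ≠ 0 := by exact_mod_cast Nat.factorial_ne_zero _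
  rw [← hp, nsmul_eq_mul]
  field_simp
  linear_combination -(x ^ p.1 * y ^ p.2) * h1

theorem LD_binom1 (x y : ℂ) (N : ℕ) :
    ∑ p ∈ antidiagonal (N + 1), (p.1 : ℂ) *
      ((x ^ p.1 / (p.1.factorial : ℂ)) * (y ^ p.2 / (p.2.factorial : ℂ))) =
      x * ((x + y) ^ N / (N.factorial : ℂ)) := by
  rw [Finset.Nat.sum_antidiagonal_succ, ← LD_binom, Finset.mul_sum]
  simp only [Nat.cast_zero, zero_mul, zero_add]
  refine Finset.sum_congr rfl (fun p _ => ?_)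
  have h2 : (p.1.factorial : ℂ) ≠ 0 := by exact_mod_cast Nat.factorial_ne_zero _
  have h5 : ((p.1 : ℂ) + 1) ≠ 0 := by exact_mod_cast Nat.succ_ne_zero p.1
  rw [Nat.factorial_succ]
  push_cast
  field_simp
  ring

theorem LD_two_sin (φ : ℂ) : -Complex.I * Complex.exp (Complex.I * φ) +
    Complex.I * Complex.exp (-(Complex.I * φ)) = 2 * Complex.sin φ := by
  rw [Complex.sin]
  have e1 : Complex.I * φ = φ * Complex.I := by ring
  have e2 : -(Complex.I * φ) = -φ * Complex.I := by ring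
  rw [e1, ← neg_mul]
  ring

/-- `r_N = (2 sin (Nθ/2))^N / N!` -/
noncomputable def rN (θ : ℝ) (N : ℕ) : ℂ :=
  (2 * Complex.sin ((N : ℂ) * (θ : ℂ) / 2)) ^ N / (N.factorial : ℂ)

/-- `p_N = -i e^{iNθ/2} (2 sin (Nθ/2))^(N-1) / (N-1)!`, `p_0 = 0` -/
noncomputable def pN (θ : ℝ) (N : ℕ) : ℂ :=
  ∑ p ∈ antidiagonal N, (p.1 : ℂ) * (cf θ p.1 * cg θ p.2)

theorem LD_rN (θ : ℝ) (N : ℕ) : ∑ p ∈ antidiagonal N, cf θ p.1 * cg θ p.2 = rN θ N := by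
  rw [Finset.sum_congr rfl (fun p hp => LD_cfcg θ N p hp), LD_binom, LD_two_sin]
  rfl

theorem LD_pN_zero (θ : ℝ) : pN θ 0 = 0 := by
  simp [pN]

theorem LD_pN_succ (θ : ℝ) (N : ℕ) : pN θ (N + 1) =
    -Complex.I * Complex.exp (Complex.I * (((N + 1 : ℕ) : ℂ) * (θ : ℂ) / 2)) *
      ((2 * Complex.sin (((N + 1 : ℕ) : ℂ) * (θ : ℂ) / 2)) ^ N / (N.factorial : ℂ)) := by
  unfold pN
  rw [Finset.sum_congr rfl (fun p hp => by rw [LD_cfcg θ (N + 1) p hp]), LD_binom1, LD_two_sin]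

/-- `R_j` -/
noncomputable def RR (θ : ℝ) (v : ℂ) (j : ℕ) : ℂ := ∑' N : ℕ, (N : ℂ) ^ j * rN θ N * v ^ N

/-- `P_j` -/
noncomputable def PP (θ : ℝ) (v : ℂ) (j : ℕ) : ℂ := ∑' N : ℕ, (N : ℂ) ^ j * pN θ N * v ^ N

theorem LD_R0 (θ : ℝ) (v : ℂ) : HasSum (fun N : ℕ => (N : ℂ) ^ 0 * rN θ N * v ^ N)
    (fs θ v 0 * gs θ v 0) := by
  have h := LD_cauchy θ v 0 0
  refine h.congr_fun ?_
  intro N
  rw [← LD_rN]
  simp

theorem LD_R1 (θ : ℝ) (v : ℂ) : HasSum (fun N : ℕ => (N : ℂ) ^ 1 * rN θ N * v ^ N)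
    (fs θ v 1 * gs θ v 0 + fs θ v 0 * gs θ v 1) := by
  have h := (LD_cauchy θ v 1 0).add (LD_cauchy θ v 0 1)
  refine h.congr_fun ?_
  intro N
  rw [← LD_rN, ← add_mul, ← Finset.sum_add_distrib, Finset.mul_sum]
  congr 1
  refine Finset.sum_congr rfl (fun p hp => ?_)
  rw [HasAntidiagonal.mem_antidiagonal] at hp
  rw [← hp]; push_cast; ring

theorem LD_R2 (θ : ℝ) (v : ℂ) : HasSum (fun N : ℕ => (N : ℂ) ^ 2 * rN θ N * v ^ N)
    (fs θ v 2 * gs θ v 0 + 2 * (fs θ v 1 * gs θ v 1) + fs θ v 0 * gs θ v 2) := by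
  have h := ((LD_cauchy θ v 2 0).add ((LD_cauchy θ v 1 1).mul_left 2)).add (LD_cauchy θ v 0 2)
  refine h.congr_fun ?_
  intro N
  rw [← LD_rN, ← mul_assoc, ← add_mul, ← add_mul, Finset.mul_sum, Finset.mul_sum,
    ← Finset.sum_add_distrib, ← Finset.sum_add_distrib]
  congr 1
  refine Finset.sum_congr rfl (fun p hp => ?_)
  rw [HasAntidiagonal.mem_antidiagonal] at hp
  rw [← hp]; push_cast; ring

theorem LD_P0 (θ : ℝ) (v : ℂ) : HasSum (fun N : ℕ => (N : ℂ) ^ 0 * pN θ N * v ^ N)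
    (fs θ v 1 * gs θ v 0) := by
  have h := LD_cauchy θ v 1 0
  refine h.congr_fun ?_
  intro N
  unfold pN
  simp

theorem LD_P1 (θ : ℝ) (v : ℂ) : HasSum (fun N : ℕ => (N : ℂ) ^ 1 * pN θ N * v ^ N)
    (fs θ v 2 * gs θ v 0 + fs θ v 1 * gs θ v 1) := by
  have h := (LD_cauchy θ v 2 0).add (LD_cauchy θ v 1 1)
  refine h.congr_fun ?_
  intro N
  unfold pN
  rw [← add_mul, ← Finset.sum_add_distrib, Finset.mul_sum]
  congr 1
  refine Finset.sum_congr rfl (fun p hp => ?_)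
  rw [HasAntidiagonal.mem_antidiagonal] at hp
  rw [← hp]; push_cast; ring

theorem LD_P2 (θ : ℝ) (v : ℂ) : HasSum (fun N : ℕ => (N : ℂ) ^ 2 * pN θ N * v ^ N)
    (fs θ v 3 * gs θ v 0 + 2 * (fs θ v 2 * gs θ v 1) + fs θ v 1 * gs θ v 2) := by
  have h := ((LD_cauchy θ v 3 0).add ((LD_cauchy θ v 2 1).mul_left 2)).add (LD_cauchy θ v 1 2)
  refine h.congr_fun ?_
  intro N
  unfold pN
  rw [← mul_assoc, ← add_mul, ← add_mul, Finset.mul_sum, Finset.mul_sum,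
    ← Finset.sum_add_distrib, ← Finset.sum_add_distrib]
  congr 1
  refine Finset.sum_congr rfl (fun p hp => ?_)
  rw [HasAntidiagonal.mem_antidiagonal] at hp
  rw [← hp]; push_cast; ring

/-- `F_j` in terms of `v` -/
theorem LD_FD (θ : ℝ) (v : ℂ) (j : ℕ) :
    FD j (yy θ) (-Complex.I * Complex.exp (Complex.I * ((θ / 2 : ℝ) : ℂ)) * v) = fs θ v j := by
  unfold FD fs cf yy
  refine tsum_congr (fun n => ?_)
  have h1 : ((n * (n - 1) / 2 : ℕ) : ℂ) = (n : ℂ) * ((n : ℂ) - 1) / 2 := by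
    rw [← Nat.choose_two_right, Nat.cast_choose_two]
  rw [← Complex.exp_nat_mul, h1, mul_pow, mul_pow, ← Complex.exp_nat_mul]
  have key : Complex.exp ((n : ℂ) * ((n : ℂ) - 1) / 2 * ((θ : ℂ) * Complex.I)) *
      Complex.exp ((n : ℂ) * (Complex.I * ((θ / 2 : ℝ) : ℂ))) =
      Complex.exp (Complex.I * (θ : ℂ) * (n : ℂ) ^ 2 / 2) := by
    rw [← Complex.exp_add]
    congr 1
    push_cast; ring
  linear_combination ((n : ℂ) ^ j * (-Complex.I) ^ n * v ^ n / (n.factorial : ℂ)) * key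

theorem LD_xB (ε : ℝ) (B : ℂ) :
    xB ε B = -Complex.I * Complex.exp (Complex.I * ((ε ^ 3 / 2 : ℝ) : ℂ)) * vB ε B := by
  unfold xB vB
  rw [mul_div_assoc]

/-- termwise form of `A_j` -/
theorem LD_Aterm (ε : ℝ) (hε : 0 < ε) (B : ℂ) (n : ℕ) :
    ((Gn n * Sn ε n : ℝ) : ℂ) * Complex.exp (B * ((wn ε n : ℝ) : ℂ)) =
      rN (ε ^ 3) n * vB ε B ^ n := by
  have hsin : Real.sinc (xn ε n) ^ n * (2 * xn ε n) ^ n = (2 * Real.sin (xn ε n)) ^ n := by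
    rw [← mul_pow]
    congr 1
    by_cases h0 : xn ε n = 0
    · rw [h0]; simp
    · rw [Real.sinc_of_ne_zero h0]; field_simp
  have hx : (n : ℂ) * ((ε ^ 3 : ℝ) : ℂ) / 2 = ((xn ε n : ℝ) : ℂ) := by
    unfold xn; push_cast; ring
  have hv : vB ε B ^ n = Complex.exp (B * ((wn ε n : ℝ) : ℂ)) /
      ((Real.exp n * (ε ^ 3) ^ n : ℝ) : ℂ) := by
    unfold vB wn
    rw [div_pow, ← Complex.exp_nat_mul]
    congr 1
    · congr 1; push_cast; ring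
    · rw [← Complex.ofReal_pow, mul_pow, ← Real.exp_nat_mul, mul_one]
  unfold rN
  rw [hx, hv]
  have h2 : (2 * Complex.sin ((xn ε n : ℝ) : ℂ)) ^ n =
      (((2 * Real.sin (xn ε n)) ^ n : ℝ) : ℂ) := by
    push_cast; ring
  rw [h2, ← hsin]
  have h3 : (2 * xn ε n) ^ n = (n : ℝ) ^ n * (ε ^ 3) ^ n := by
    rw [← mul_pow]; congr 1; unfold xn; ring
  rw [h3]
  unfold Gn Sn
  rw [Real.exp_neg]
  have hf : (n.factorial : ℂ) ≠ 0 := by exact_mod_cast Nat.factorial_ne_zero _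
  have he : (Real.exp (n : ℝ) : ℂ) ≠ 0 := by
    rw [Complex.ofReal_ne_zero]; exact (Real.exp_pos _).ne'
  have hE : (((ε ^ 3) ^ n : ℝ) : ℂ) ≠ 0 := by
    rw [Complex.ofReal_ne_zero]; positivity
  push_cast at *
  field_simp

/-- termwise form of `E_j` for `n ≥ 1` -/
theorem LD_Eterm (ε : ℝ) (hε : 0 < ε) (B : ℂ) (m : ℕ) :
    ((Gn (m + 1) : ℝ) : ℂ) * Kn ε (m + 1) * Complex.exp (B * ((wn ε (m + 1) : ℝ) : ℂ)) =
      rN (ε ^ 3) (m + 1) * vB ε B ^ (m + 1) -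
        Complex.I * ((ε ^ 3 : ℝ) : ℂ) * (pN (ε ^ 3) (m + 1) * vB ε B ^ (m + 1)) := by
  have hx0 : xn ε (m + 1) ≠ 0 := by
    unfold xn; positivity
  have hsc : Real.sinc (xn ε (m + 1)) * xn ε (m + 1) = Real.sin (xn ε (m + 1)) := by
    rw [Real.sinc_of_ne_zero hx0]; field_simp
  have hA := LD_Aterm ε hε B (m + 1)
  have hx : ((m + 1 : ℕ) : ℂ) * ((ε ^ 3 : ℝ) : ℂ) / 2 = ((xn ε (m + 1) : ℝ) : ℂ) := by
    unfold xn; push_cast; ring
  have hv : vB ε B ^ (m + 1) = Complex.exp (B * ((wn ε (m + 1) : ℝ) : ℂ)) /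
      ((Real.exp ((m + 1 : ℕ) : ℝ) * (ε ^ 3) ^ (m + 1) : ℝ) : ℂ) := by
    unfold vB wn
    rw [div_pow, ← Complex.exp_nat_mul]
    congr 1
    · congr 1; push_cast; ring
    · rw [← Complex.ofReal_pow, mul_pow, ← Real.exp_nat_mul, mul_one]
  have hp : Complex.I * ((ε ^ 3 : ℝ) : ℂ) * (pN (ε ^ 3) (m + 1) * vB ε B ^ (m + 1)) =
      ((Gn (m + 1) : ℝ) : ℂ) * (((Real.sinc (xn ε (m + 1)) ^ m : ℝ) : ℂ) *
        Complex.exp (Complex.I * ((xn ε (m + 1) : ℝ) : ℂ))) *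
        Complex.exp (B * ((wn ε (m + 1) : ℝ) : ℂ)) := by
    rw [LD_pN_succ, hx, hv]
    have h2 : (2 * Complex.sin ((xn ε (m + 1) : ℝ) : ℂ)) ^ m =
        (((2 * Real.sin (xn ε (m + 1))) ^ m : ℝ) : ℂ) := by
      push_cast; ring
    rw [h2, ← hsc]
    have h3 : (2 * (Real.sinc (xn ε (m + 1)) * xn ε (m + 1))) ^ m =
        Real.sinc (xn ε (m + 1)) ^ m * (((m + 1 : ℕ) : ℝ) ^ m * (ε ^ 3) ^ m) := by
      rw [← mul_pow, ← mul_pow]; congr 1; unfold xn; ring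
    rw [h3]
    unfold Gn
    rw [Real.exp_neg]
    have hf : (m.factorial : ℂ) ≠ 0 := by exact_mod_cast Nat.factorial_ne_zero _
    have he : (Real.exp ((m + 1 : ℕ) : ℝ) : ℂ) ≠ 0 := by
      rw [Complex.ofReal_ne_zero]; exact (Real.exp_pos _).ne'
    have hE : (ε : ℂ) ≠ 0 := by
      rw [Complex.ofReal_ne_zero]; exact hε.ne'
    have hm : ((m : ℂ) + 1) ≠ 0 := by exact_mod_cast Nat.succ_ne_zero m
    rw [Nat.factorial_succ]
    push_cast at *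
    field_simp
    ring_nf
    rw [Complex.I_sq]
    ring
  rw [hp, ← hA]
  have hK : Kn ε (m + 1) = ((Sn ε (m + 1) : ℝ) : ℂ) -
      ((Real.sinc (xn ε (m + 1)) ^ m : ℝ) : ℂ) *
        Complex.exp (Complex.I * ((xn ε (m + 1) : ℝ) : ℂ)) := by
    unfold Kn Sn
    rw [if_neg (Nat.succ_ne_zero m), Nat.add_sub_cancel, mul_comm Complex.I,
      Complex.exp_mul_I, ← Complex.ofReal_cos, ← Complex.ofReal_sin, ← hsc]
    push_cast
    ring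
  rw [hK]
  push_cast
  ring

theorem LD_A (ε : ℝ) (hε : 0 < ε) (B : ℂ) (j : ℕ) :
    Asum ε j B = (ε : ℂ) * ((ε : ℂ) ^ 2) ^ j * RR (ε ^ 3) (vB ε B) j := by
  unfold Asum RR
  rw [mul_assoc]
  congr 1
  rw [← tsum_mul_left]
  refine tsum_congr (fun n => ?_)
  have h := LD_Aterm ε hε B n
  have h2 : ((Gn n * Sn ε n * wn ε n ^ j : ℝ) : ℂ) =
      ((Gn n * Sn ε n : ℝ) : ℂ) * (((ε : ℂ) ^ 2) ^ j * (n : ℂ) ^ j) := by
    unfold wn; push_cast; rw [mul_pow]; ring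
  rw [h2]
  linear_combination (((ε : ℂ) ^ 2) ^ j * (n : ℂ) ^ j) * h

theorem LD_E (ε : ℝ) (hε : 0 < ε) (B : ℂ) (j : ℕ)
    (hR : Summable (fun N : ℕ => (N : ℂ) ^ j * rN (ε ^ 3) N * vB ε B ^ N))
    (hP : Summable (fun N : ℕ => (N : ℂ) ^ j * pN (ε ^ 3) N * vB ε B ^ N)) :
    Esum ε j B = ((ε : ℂ) ^ 2) ^ j * (RR (ε ^ 3) (vB ε B) j -
      Complex.I * ((ε ^ 3 : ℝ) : ℂ) * PP (ε ^ 3) (vB ε B) j) := by
  have hs : Summable (fun N : ℕ => ((ε : ℂ) ^ 2) ^ j *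
      ((N : ℂ) ^ j * rN (ε ^ 3) N * vB ε B ^ N -
        Complex.I * ((ε ^ 3 : ℝ) : ℂ) * ((N : ℂ) ^ j * pN (ε ^ 3) N * vB ε B ^ N))) :=
    (hR.sub (hP.mul_left _)).mul_left _
  have e1 : ((ε : ℂ) ^ 2) ^ j * (RR (ε ^ 3) (vB ε B) j -
      Complex.I * ((ε ^ 3 : ℝ) : ℂ) * PP (ε ^ 3) (vB ε B) j) =
      ∑' N : ℕ, ((ε : ℂ) ^ 2) ^ j *
      ((N : ℂ) ^ j * rN (ε ^ 3) N * vB ε B ^ N -
        Complex.I * ((ε ^ 3 : ℝ) : ℂ) * ((N : ℂ) ^ j * pN (ε ^ 3) N * vB ε B ^ N)) := by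
    unfold RR PP
    rw [tsum_mul_left, hR.tsum_sub (hP.mul_left _), tsum_mul_left]
  rw [e1, hs.tsum_eq_zero_add]
  have hterm : ∀ m : ℕ, ((ε : ℂ) ^ 2) ^ j *
      (((m + 1 : ℕ) : ℂ) ^ j * rN (ε ^ 3) (m + 1) * vB ε B ^ (m + 1) -
        Complex.I * ((ε ^ 3 : ℝ) : ℂ) * (((m + 1 : ℕ) : ℂ) ^ j * pN (ε ^ 3) (m + 1) *
        vB ε B ^ (m + 1))) =
      ((Gn (m + 1) * wn ε (m + 1) ^ j : ℝ) : ℂ) * Kn ε (m + 1) *
        Complex.exp (B * ((wn ε (m + 1) : ℝ) : ℂ)) := by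
    intro m
    have h := LD_Eterm ε hε B m
    have h2 : ((Gn (m + 1) * wn ε (m + 1) ^ j : ℝ) : ℂ) =
        ((Gn (m + 1) : ℝ) : ℂ) * (((ε : ℂ) ^ 2) ^ j * ((m + 1 : ℕ) : ℂ) ^ j) := by
      unfold wn; push_cast; rw [mul_pow]; ring
    rw [h2]
    linear_combination -(((ε : ℂ) ^ 2) ^ j * ((m + 1 : ℕ) : ℂ) ^ j) * h
  have hs2 : Summable (fun n : ℕ => ((Gn n * wn ε n ^ j : ℝ) : ℂ) * Kn ε n *
      Complex.exp (B * ((wn ε n : ℝ) : ℂ))) := by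
    have hs3 := (summable_nat_add_iff (f := fun N : ℕ => ((ε : ℂ) ^ 2) ^ j *
      ((N : ℂ) ^ j * rN (ε ^ 3) N * vB ε B ^ N -
        Complex.I * ((ε ^ 3 : ℝ) : ℂ) * ((N : ℂ) ^ j * pN (ε ^ 3) N * vB ε B ^ N))) 1).2 hs
    rw [← summable_nat_add_iff 1]
    exact hs3.congr (fun m => hterm m)
  unfold Esum
  rw [hs2.tsum_eq_zero_add, tsum_congr hterm, LD_pN_zero]
  have hK0 : Kn ε 0 = 0 := by simp [Kn]
  rw [hK0]
  have hr0 : rN (ε ^ 3) 0 = 1 := by simp [rN]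
  rw [hr0]
  by_cases hj : j = 0
  · subst hj; simp
  · simp [hj]

/-- zero freeness of `F` on the circle from `A_0 ≠ 0` -/
theorem FD_ne_zero_of_Asum (ε : ℝ) (hε : 0 < ε) (B : ℂ) (hA : Asum ε 0 B ≠ 0) :
    FD 0 (yy (ε ^ 3)) (xB ε B) ≠ 0 := by
  rw [LD_xB, LD_FD]
  intro h
  apply hA
  rw [LD_A ε hε]
  unfold RR
  rw [(LD_R0 (ε ^ 3) (vB ε B)).tsum_eq, h]
  ring

/-- the third logarithmic derivative of `F` on the circle -/
theorem logDeriv3_eq (ε : ℝ) (hε : 0 < ε) (B : ℂ) (hA : Asum ε 0 B ≠ 0) :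
    FD 3 (yy (ε ^ 3)) (xB ε B) / FD 0 (yy (ε ^ 3)) (xB ε B) -
      3 * FD 2 (yy (ε ^ 3)) (xB ε B) * FD 1 (yy (ε ^ 3)) (xB ε B) /
        FD 0 (yy (ε ^ 3)) (xB ε B) ^ 2 +
      2 * (FD 1 (yy (ε ^ 3)) (xB ε B) / FD 0 (yy (ε ^ 3)) (xB ε B)) ^ 3 =
      Complex.I / ((ε ^ 6 : ℝ) : ℂ) * H2 ε B := by
  rw [LD_xB]
  simp only [LD_FD]
  have hR0 := LD_R0 (ε ^ 3) (vB ε B)
  have hR1 := LD_R1 (ε ^ 3) (vB ε B)
  have hR2 := LD_R2 (ε ^ 3) (vB ε B)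
  have hP0 := LD_P0 (ε ^ 3) (vB ε B)
  have hP1 := LD_P1 (ε ^ 3) (vB ε B)
  have hP2 := LD_P2 (ε ^ 3) (vB ε B)
  unfold H2
  rw [LD_E ε hε B 0 hR0.summable hP0.summable, LD_E ε hε B 1 hR1.summable hP1.summable,
    LD_E ε hε B 2 hR2.summable hP2.summable]
  rw [LD_A ε hε] at hA ⊢
  rw [LD_A ε hε, LD_A ε hε]
  unfold RR PP at *
  rw [hR0.tsum_eq] at hA ⊢
  rw [hR1.tsum_eq, hR2.tsum_eq, hP0.tsum_eq, hP1.tsum_eq, hP2.tsum_eq]
  have hE : (ε : ℂ) ≠ 0 := by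
    rw [Complex.ofReal_ne_zero]; exact hε.ne'
  generalize fs (ε ^ 3) (vB ε B) 0 = f0 at *
  generalize fs (ε ^ 3) (vB ε B) 1 = f1 at *
  generalize fs (ε ^ 3) (vB ε B) 2 = f2 at *
  generalize fs (ε ^ 3) (vB ε B) 3 = f3 at *
  generalize gs (ε ^ 3) (vB ε B) 0 = g0 at *
  generalize gs (ε ^ 3) (vB ε B) 1 = g1 at *
  generalize gs (ε ^ 3) (vB ε B) 2 = g2 at *
  have hf0 : f0 ≠ 0 := by
    rintro rfl
    exact hA (by ring)
  have hg0 : g0 ≠ 0 := by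
    rintro rfl
    exact hA (by ring)
  push_cast
  field_simp
  ring_nf
  simp only [Complex.I_sq]
  ring

end MP_d1b55a
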