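import Pool.Agent.Lib.MP_d1b55a_co.FS

/-!
MP_d1b55a_co, near arc: definitions.
`S(w;h) = (sin (w √h / 2) / (w √h / 2))^(w/h)` is approximated on the chord `0 ≤ h ≤ h2 = 0.0209` by
`ns ε w = ∑_k nm ε k exp (- λ_k w)`, `λ_k = 3 - (3/5)(k-8) i`, `k = 0..16`.
-/

open Finset

namespace MP_d1b55a

/-- exponents `λ_k = 3 - (3/5) (k - 8) i` -/
noncomputable def nlam (k : ℕ) : ℂ := ⟨3, -(3 / 5 * ((k : ℝ) - 8))⟩

/-- integer data of the two fits (`t = 0`: `h = 0`, `t = 1`: `h = h2`): cosine coefficients -/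
def nPl (t : ℕ) : List ℤ :=
  if t = 0 then [4212249744562, -7009593339706, 4118009554371, -1799063609913, 621516708169,
    -179419311779, 46300560630, -9976335626, 1049361736]
  else [4105513426089, -6822260200036, 3992247013397, -1735901485299, 598596654965,
    -173892058652, 45982521531, -10360148337, 1147566365]

/-- sine coefficients -/
def nQl (t : ℕ) : List ℤ :=
  if t = 0 then [0, 1780039936189, -2069490164447, 1287468043413, -520863790942,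
    148985220283, -29962189566, 2458607705, 380569990]
  else [0, 1814111088668, -2118592862185, 1329509783300, -545821924390,
    160004452101, -33656742000, 3201865505, 345017107]

/-- twice the coefficient, times `2^30`: real and imaginary parts (`k = 0..16`) -/
def ncr (t k : ℕ) : ℤ :=
  if k = 8 then 2 * (nPl t).getD 0 0 else (nPl t).getD (if k < 8 then 8 - k else k - 8) 0

def nci (t k : ℕ) : ℤ :=
  if k < 8 then (nQl t).getD (8 - k) 0 else if k = 8 then 0 else -(nQl t).getD (k - 8) 0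

/-- the coefficient `c_k` of the fit number `t` -/
noncomputable def nc (t k : ℕ) : ℂ := ⟨(ncr t k : ℝ) / 2 ^ 31, (nci t k : ℝ) / 2 ^ 31⟩

/-- right end of the chord -/
noncomputable def nh2 : ℝ := 209 / 10000

/-- coefficients on the chord -/
noncomputable def nm (ε : ℝ) (k : ℕ) : ℂ :=
  ((1 - ε ^ 2 / nh2 : ℝ) : ℂ) * nc 0 k + ((ε ^ 2 / nh2 : ℝ) : ℂ) * nc 1 k

/-- the two fits and the chord -/
noncomputable def nsf (t : ℕ) (w : ℝ) : ℂ :=
  ∑ k ∈ range 17, nc t k * Complex.exp (-(nlam k) * (w : ℂ))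

noncomputable def ns (ε w : ℝ) : ℂ :=
  ∑ k ∈ range 17, nm ε k * Complex.exp (-(nlam k) * (w : ℂ))

/-- `S(w;h)` -/
noncomputable def nS (h w : ℝ) : ℝ := Real.sinc (w * √h / 2) ^ (w / h)

/-- `U_j(μ) = ε ∑ G_n w_n^j exp (- μ w_n)` -/
noncomputable def nU (ε : ℝ) (j : ℕ) (μ : ℂ) : ℂ :=
  (ε : ℂ) * ∑' n : ℕ, ((Gn n * wn ε n ^ j : ℝ) : ℂ) * Complex.exp (-μ * ((wn ε n : ℝ) : ℂ))

/-- coefficients of `1/p` in powers of `z`, `z^2/2 = - p - log (1 - p)` -/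
def nr : ℕ → ℚ := fun m => [1, 1/3, 1/12, 2/135, 1/864, -1/2835, -139/777600, -1/25515,
  -571/261273600, 281/151559100, 163879/197522841600].getD m 0

/-- `Z(μ) = (2μ)^(1/2)` -/
noncomputable def nZ (μ : ℂ) : ℂ := (2 * μ) ^ ((1 / 2 : ℝ) : ℂ)

/-- `∏_{i<j} (2i + 1 - m)` -/
def npf (m j : ℕ) : ℤ := ∏ i ∈ range j, (2 * (i : ℤ) + 1 - m)

/-- `(-d/dμ)^j ∑_{m ≤ 10} r_m ε^m Z^(m-1)` -/
noncomputable def nD (ε : ℝ) (j : ℕ) (μ : ℂ) : ℂ :=
  ∑ m ∈ range 11, ((nr m : ℚ) : ℂ) * (ε : ℂ) ^ m * ((npf m j : ℤ) : ℂ) *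
    nZ μ ^ ((m : ℤ) - 1 - 2 * (j : ℤ))

/-- the explicit approximation of `Asum ε j B` -/
noncomputable def nA0 (ε : ℝ) (j : ℕ) (B : ℂ) : ℂ :=
  ∑ k ∈ range 17, nm ε k * nD ε j (nlam k - B)

/-- the explicit approximation of `Esum ε j B` -/
noncomputable def nE0 (ε : ℝ) (j : ℕ) (B : ℂ) : ℂ :=
  (if j = 0 then 1 else 0) - Complex.I / 2 * nA0 ε (j + 1) B + (ε : ℂ) / 12 * nA0 ε (j + 2) B +
    (ε : ℂ) ^ 3 / 720 * nA0 ε (j + 4) B

end MP_d1b55a
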