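import Pool.Agent.Lib.MP_d1b55a_co.NA0

/-! MP_d1b55a_co, near arc NA1: the fit at `h = 0` (numerical certificate).
The maximum of the left side is `3.90e-4` (near `w = 0.07`). For `w ≥ 10.5` use the period `2π/0.6` of the
trigonometric polynomial: `nsf` decreases by the factor `exp (-3 * 10.47)`.
On `[0, 10.5]`: cells `[m/160, (m+2)/160]`, jets of order `5` in the centre, with the five values
`G = exp (7w/4 - w^3/24)`, its first two quotients, `exp (-5w/4)` and `exp (3iw/5)` carried along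
with integers at scale `2 ^ 100`. -/

set_option maxRecDepth 100000

namespace MP_d1b55a

open Finset Complex

theorem na1_taylor (n : ℕ) : ∀ (F : ℕ → ℝ → ℝ) (r M : ℝ),
    (∀ k < n, ∀ x ∈ Set.Icc 0 r, HasDerivAt (F k) (F (k + 1) x) x) →
    (∀ x ∈ Set.Icc 0 r, |F n x| ≤ M) → ∀ x ∈ Set.Icc 0 r,
    |F 0 x| ≤ ∑ k ∈ range n, |F k 0| * x ^ k / (k.factorial : ℝ) + M * x ^ n / (n.factorial : ℝ) := by
  induction n with
  | zero => intro F r M _ h x hx; simpa using h x hx
  | succ n ih =>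
    intro F r M hd hM x hx
    have h1 : ∀ y ∈ Set.Icc 0 r, |F 1 y| ≤ ∑ k ∈ range n, |F (k + 1) 0| * y ^ k / (k.factorial : ℝ)
        + M * y ^ n / (n.factorial : ℝ) :=
      ih (fun k => F (k + 1)) r M (fun k hk y hy => hd (k + 1) (by omega) y hy) hM
    have hB : ∀ y : ℝ, HasDerivAt (fun y => |F 0 0| + (∑ k ∈ range n, |F (k + 1) 0| * y ^ (k + 1) /
        ((k + 1).factorial : ℝ) + M * y ^ (n + 1) / ((n + 1).factorial : ℝ)))
        (∑ k ∈ range n, |F (k + 1) 0| * y ^ k / (k.factorial : ℝ)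
        + M * y ^ n / (n.factorial : ℝ)) y := by
      intro y
      have hm : ∀ (c : ℝ) (k : ℕ), HasDerivAt (fun y : ℝ => c * y ^ (k + 1) / ((k + 1).factorial : ℝ))
          (c * y ^ k / (k.factorial : ℝ)) y := by
        intro c k
        have h := ((hasDerivAt_pow (k + 1) y).const_mul c).div_const ((k + 1).factorial : ℝ)
        have hk : (k.factorial : ℝ) ≠ 0 := by exact_mod_cast k.factorial_ne_zero
        have hk1 : ((k : ℝ) + 1) ≠ 0 := by positivity
        refine h.congr_deriv ?_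
        rw [Nat.factorial_succ]
        push_cast
        field_simp
      have h2 := HasDerivAt.fun_sum (u := range n) (fun k _ => hm (|F (k + 1) 0|) k)
      exact ((h2.add (hm M n)).const_add _)
    have h3 := image_norm_le_of_norm_deriv_right_le_deriv_boundary (f := F 0) (f' := F 1) (a := 0) (b := r)
      (fun y hy => (hd 0 (by omega) y hy).continuousAt.continuousWithinAt)
      (fun y hy => (hd 0 (by omega) y ⟨hy.1, hy.2.le⟩).hasDerivWithinAt)
      (B := fun y => |F 0 0| + (∑ k ∈ range n, |F (k + 1) 0| * y ^ (k + 1) /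
        ((k + 1).factorial : ℝ) + M * y ^ (n + 1) / ((n + 1).factorial : ℝ)))
      (by simp) hB (fun y hy => h1 y ⟨hy.1, hy.2.le⟩) hx
    refine h3.trans (le_of_eq ?_)
    rw [sum_range_succ']
    simp
    ring

/-- exponents `μ_j = - 5/4 + (3/5) j i` -/
noncomputable def na1m (j : ℕ) : ℂ := ⟨-(5 / 4), 3 / 5 * (j : ℝ)⟩

def na1A : ℕ → ℕ → ℤ × ℤ
  | 0, j => ((nPl 0).getD j 0, -(nQl 0).getD j 0)
  | k + 1, j => (-25 * (na1A k j).1 - 12 * j * (na1A k j).2, 12 * j * (na1A k j).1 - 25 * (na1A k j).2)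

noncomputable def na1c (p : ℤ × ℤ) : ℂ := ⟨(p.1 : ℝ), (p.2 : ℝ)⟩

noncomputable def na1K (k : ℕ) (w : ℝ) : ℂ := ∑ j ∈ range 9, na1c (na1A k j) * Complex.exp (na1m j * (w : ℂ))

theorem na1c_succ (k j : ℕ) : na1c (na1A (k + 1) j) = 20 * (na1c (na1A k j) * na1m j) := by
  apply Complex.ext
  · simp [na1c, na1m, na1A]; ring
  · simp [na1c, na1m, na1A]; ring

theorem na1K_deriv (k : ℕ) (w : ℝ) : HasDerivAt (fun w => (na1K k w).re) ((na1K (k + 1) w).re / 20) w := by
  have h1 : HasDerivAt (na1K k) (∑ j ∈ range 9, na1c (na1A k j) * (Complex.exp (na1m j * (w : ℂ)) * (na1m j * 1))) w := by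
    unfold na1K
    refine HasDerivAt.fun_sum fun j _ => ?_
    refine HasDerivAt.const_mul _ ?_
    have h2 : HasDerivAt (fun w : ℝ => (w : ℂ)) 1 w := by
      simpa using (hasDerivAt_id w).ofReal_comp
    exact (h2.const_mul (na1m j)).cexp
  have h3 := (Complex.reCLM.hasFDerivAt.comp_hasDerivAt w h1)
  refine h3.congr_deriv ?_
  have : (na1K (k + 1) w) = 20 * (∑ j ∈ range 9, na1c (na1A k j) * (Complex.exp (na1m j * (w : ℂ)) * (na1m j * 1))) := by
    unfold na1K
    rw [mul_sum]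
    refine sum_congr rfl fun j _ => ?_
    rw [na1c_succ]; ring
  rw [this]
  simp

noncomputable def na1q1 (w : ℝ) : ℝ := 7 / 4 - w ^ 2 / 8
noncomputable def na1q2 (w : ℝ) : ℝ := -(w / 4)
noncomputable def na1G (w : ℝ) : ℝ := Real.exp (7 / 4 * w - w ^ 3 / 24)

def na1p {R : Type} [CommRing R] (k : ℕ) (a b c : R) : R :=
  match k with
  | 0 => 1
  | 1 => a
  | 2 => a * a + b
  | 3 => a * a * a + 3 * a * b + c
  | 4 => a * a * a * a + 6 * a * a * b + 4 * a * c + 3 * b * b
  | 5 => a * a * a * a * a + 10 * a * a * a * b + 10 * a * a * c + 15 * a * b * b + 10 * b * c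
  | _ => a ^ 6 + 15 * a ^ 4 * b + 20 * a ^ 3 * c + 45 * a ^ 2 * b ^ 2 + 60 * a * b * c + 15 * b ^ 3 + 10 * c ^ 2

noncomputable def na1F (k : ℕ) (w : ℝ) : ℝ :=
  na1p k (na1q1 w) (na1q2 w) (-(1 / 4)) * na1G w - (na1K k w).re / (2 ^ 30 * 20 ^ k)

theorem na1F_deriv (k : ℕ) (hk : k < 6) (w : ℝ) : HasDerivAt (na1F k) (na1F (k + 1) w) w := by
  have ha : HasDerivAt na1q1 (na1q2 w) w := by
    have := ((hasDerivAt_pow 2 w).div_const 8).const_sub (7 / 4)
    refine this.congr_deriv ?_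
    simp [na1q2]; ring
  have hb : HasDerivAt na1q2 (-(1 / 4)) w := by
    have := ((hasDerivAt_id w).div_const 4).neg
    exact this
  have hG : HasDerivAt na1G (na1q1 w * na1G w) w := by
    have h1 : HasDerivAt (fun w : ℝ => 7 / 4 * w - w ^ 3 / 24) (7 / 4 * 1 - (3 : ℕ) * w ^ 2 / 24) w := by
      exact ((hasDerivAt_id w).const_mul (7 / 4)).sub ((hasDerivAt_pow 3 w).div_const 24)
    refine h1.exp.congr_deriv ?_
    simp only [na1q1, na1G]
    push_cast
    ring
  have hK := (na1K_deriv k w).div_const (2 ^ 30 * 20 ^ k)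
  have hP : HasDerivAt (fun w => na1p k (na1q1 w) (na1q2 w) (-(1 / 4) : ℝ))
      (na1p (k + 1) (na1q1 w) (na1q2 w) (-(1 / 4)) - na1q1 w * na1p k (na1q1 w) (na1q2 w) (-(1 / 4))) w := by
    interval_cases k
    · simp only [na1p]
      refine (hasDerivAt_const w (1 : ℝ)).congr_deriv (by ring)
    · simp only [na1p]
      refine ha.congr_deriv (by ring)
    · simp only [na1p]
      refine ((ha.mul ha).add hb).congr_deriv (by ring)
    · simp only [na1p]
      refine ((((ha.mul ha).mul ha).add ((ha.const_mul 3).mul hb)).add_const _).congr_deriv (by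
        simp only [Pi.mul_apply]; ring)
    · simp only [na1p]
      refine ((((((ha.mul ha).mul ha).mul ha).add (((ha.const_mul 6).mul ha).mul hb)).add
        ((ha.const_mul 4).mul_const _)).add ((hb.const_mul 3).mul hb)).congr_deriv (by simp; ring)
    · simp only [na1p]
      refine ((((((((ha.mul ha).mul ha).mul ha).mul ha).add ((((ha.const_mul 10).mul ha).mul ha).mul hb)).add
        (((ha.const_mul 10).mul ha).mul_const _)).add (((ha.const_mul 15).mul hb).mul hb)).add
        ((hb.const_mul 10).mul_const _)).congr_deriv (by simp; ring)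
  refine ((hP.mul hG).sub hK).congr_deriv ?_
  simp only [na1F]
  rw [pow_succ (20 : ℝ) k]
  field_simp
  ring

theorem na1_ns (w : ℝ) : nsf 0 w * ((Real.exp (7 / 4 * w) : ℝ) : ℂ) = (((na1K 0 w).re / 2 ^ 30 : ℝ) : ℂ) := by
  set z : ℕ → ℂ := fun j => na1c (na1A 0 j) * Complex.exp (na1m j * (w : ℂ)) with hz
  have hp : ∀ j, 1 ≤ j → j ≤ 8 → nc 0 (8 + j) * Complex.exp (-(nlam (8 + j)) * (w : ℂ)) *
      ((Real.exp (7 / 4 * w) : ℝ) : ℂ) = z j / 2 ^ 31 := by
    intro j h1 h8
    have e1 : nc 0 (8 + j) = na1c (na1A 0 j) / 2 ^ 31 := by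
      have h2 : ((2 : ℂ) ^ 31) = ((2 ^ 31 : ℝ) : ℂ) := by push_cast; rfl
      rw [h2]
      apply Complex.ext
      · rw [Complex.div_ofReal_re]
        simp only [nc, na1c, na1A, ncr]
        rw [if_neg (by omega), if_neg (by omega)]
        simp
      · rw [Complex.div_ofReal_im]
        simp only [nc, na1c, na1A, nci]
        rw [if_neg (by omega), if_neg (by omega)]
        simp
    have e2 : Complex.exp (-(nlam (8 + j)) * (w : ℂ)) * ((Real.exp (7 / 4 * w) : ℝ) : ℂ) =
        Complex.exp (na1m j * (w : ℂ)) := by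
      rw [Complex.ofReal_exp, ← Complex.exp_add]
      congr 1
      apply Complex.ext
      · simp [nlam, na1m]; ring
      · simp [nlam, na1m]
    rw [mul_assoc, e2, e1, hz]
    ring
  have hm : ∀ j, 1 ≤ j → j ≤ 8 → nc 0 (8 - j) * Complex.exp (-(nlam (8 - j)) * (w : ℂ)) *
      ((Real.exp (7 / 4 * w) : ℝ) : ℂ) = (starRingEnd ℂ) (z j) / 2 ^ 31 := by
    intro j h1 h8
    have hj : ((8 - j : ℕ) : ℝ) = 8 - (j : ℝ) := by rw [Nat.cast_sub h8]; norm_num
    have e1 : nc 0 (8 - j) = (starRingEnd ℂ) (na1c (na1A 0 j)) / 2 ^ 31 := by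
      have h2 : ((2 : ℂ) ^ 31) = ((2 ^ 31 : ℝ) : ℂ) := by push_cast; rfl
      have h3 : 8 - (8 - j) = j := by omega
      rw [h2]
      apply Complex.ext
      · rw [Complex.div_ofReal_re]
        simp only [nc, na1c, na1A, ncr, Complex.conj_re]
        rw [if_neg (by omega), if_pos (by omega), h3]
      · rw [Complex.div_ofReal_im]
        simp only [nc, na1c, na1A, nci, Complex.conj_im]
        rw [if_pos (by omega), h3]
        push_cast
        ring
    have e2 : Complex.exp (-(nlam (8 - j)) * (w : ℂ)) * ((Real.exp (7 / 4 * w) : ℝ) : ℂ) =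
        (starRingEnd ℂ) (Complex.exp (na1m j * (w : ℂ))) := by
      rw [Complex.ofReal_exp, ← Complex.exp_add, ← Complex.exp_conj]
      congr 1
      apply Complex.ext
      · simp [nlam, na1m]; ring
      · simp [nlam, na1m, hj]
    rw [mul_assoc, e2, e1, hz]
    simp only [map_mul]
    ring
  have h0 : nc 0 8 * Complex.exp (-(nlam 8) * (w : ℂ)) *
      ((Real.exp (7 / 4 * w) : ℝ) : ℂ) = (((z 0).re / 2 ^ 30 : ℝ) : ℂ) := by
    have e1 : nc 0 8 = (((na1A 0 0).1 / 2 ^ 30 : ℝ) : ℂ) := by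
      apply Complex.ext
      · rw [Complex.ofReal_re]; simp [nc, na1A, ncr]; ring
      · rw [Complex.ofReal_im]; simp [nc, nci]
    have e2 : Complex.exp (-(nlam 8) * (w : ℂ)) * ((Real.exp (7 / 4 * w) : ℝ) : ℂ) =
        ((Real.exp (-(5 / 4) * w) : ℝ) : ℂ) := by
      rw [Complex.ofReal_exp, Complex.ofReal_exp, ← Complex.exp_add]
      congr 1
      apply Complex.ext
      · simp [nlam]; ring
      · simp [nlam]
    have e3 : Complex.exp (na1m 0 * (w : ℂ)) = ((Real.exp (-(5 / 4) * w) : ℝ) : ℂ) := by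
      rw [Complex.ofReal_exp]
      congr 1
      apply Complex.ext
      · simp [na1m]
      · simp [na1m]
    rw [mul_assoc, e2, e1, hz]
    simp only [e3]
    rw [Complex.mul_re, Complex.ofReal_re, Complex.ofReal_im, ← Complex.ofReal_mul]
    congr 1
    simp [na1c]
    ring
  have hre : ∀ j, z j / 2 ^ 31 + (starRingEnd ℂ) (z j) / 2 ^ 31 = (((z j).re / 2 ^ 30 : ℝ) : ℂ) := by
    intro j
    rw [← add_div, Complex.add_conj]
    push_cast
    ring
  have hs : nsf 0 w * ((Real.exp (7 / 4 * w) : ℝ) : ℂ) = (((z 0).re / 2 ^ 30 : ℝ) : ℂ) +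
      ∑ j ∈ range 8, (((z (j + 1)).re / 2 ^ 30 : ℝ) : ℂ) := by
    have h4 : ∀ j ∈ range 8, (((z (j + 1)).re / 2 ^ 30 : ℝ) : ℂ) =
        nc 0 (8 + (j + 1)) * Complex.exp (-(nlam (8 + (j + 1))) * (w : ℂ)) * ((Real.exp (7 / 4 * w) : ℝ) : ℂ) +
        nc 0 (8 - (j + 1)) * Complex.exp (-(nlam (8 - (j + 1))) * (w : ℂ)) * ((Real.exp (7 / 4 * w) : ℝ) : ℂ) := by
      intro j hj
      rw [mem_range] at hj
      rw [hp (j + 1) (by omega) (by omega), hm (j + 1) (by omega) (by omega), hre]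
    rw [sum_congr rfl h4, ← h0]
    unfold nsf
    simp only [sum_range_succ, sum_range_zero, Nat.reduceAdd, Nat.reduceSub]
    ring
  rw [hs]
  have : (na1K 0 w).re / 2 ^ 30 = (z 0).re / 2 ^ 30 + ∑ j ∈ range 8, (z (j + 1)).re / 2 ^ 30 := by
    unfold na1K
    rw [sum_range_succ', Complex.add_re, Complex.re_sum, ← sum_div, ← add_div, add_comm]
  rw [this]
  push_cast
  rfl

theorem na1_abs (w : ℝ) :
    ‖((Real.exp (-(w ^ 3) / 24) : ℝ) : ℂ) - nsf 0 w‖ * Real.exp (7 / 4 * w) = |na1F 0 w| := by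
  have h1 : ‖((Real.exp (-(w ^ 3) / 24) : ℝ) : ℂ) - nsf 0 w‖ * Real.exp (7 / 4 * w) =
      ‖(((Real.exp (-(w ^ 3) / 24) : ℝ) : ℂ) - nsf 0 w) * ((Real.exp (7 / 4 * w) : ℝ) : ℂ)‖ := by
    rw [norm_mul, Complex.norm_real, Real.norm_of_nonneg (Real.exp_pos _).le]
  rw [h1, sub_mul, na1_ns, ← Complex.ofReal_mul, ← Complex.ofReal_sub, Complex.norm_real, Real.norm_eq_abs]
  congr 1
  simp only [na1F, na1p, na1G, pow_zero, mul_one, one_mul]
  rw [← Real.exp_add]
  congr 2
  ring

theorem na1_K_le (k : ℕ) (L : ℤ) (hL : ∑ j ∈ range 9, (|(na1A k j).1| + |(na1A k j).2|) ≤ L) (w : ℝ) (hw : 0 ≤ w) :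
    |(na1K k w).re| ≤ (L : ℝ) := by
  refine (Complex.abs_re_le_norm _).trans ?_
  unfold na1K
  refine (norm_sum_le _ _).trans ?_
  have h1 : ∀ j ∈ range 9, ‖na1c (na1A k j) * Complex.exp (na1m j * (w : ℂ))‖ ≤
      ((|(na1A k j).1| + |(na1A k j).2| : ℤ) : ℝ) := by
    intro j _
    rw [norm_mul, Complex.norm_exp]
    have h2 : (na1m j * (w : ℂ)).re = -(5 / 4 * w) := by simp [na1m]
    rw [h2]
    have h3 : Real.exp (-(5 / 4 * w)) ≤ 1 := by
      rw [Real.exp_le_one_iff]; linarith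
    have h4 : ‖na1c (na1A k j)‖ ≤ ((|(na1A k j).1| + |(na1A k j).2| : ℤ) : ℝ) := by
      refine (Complex.norm_le_abs_re_add_abs_im _).trans ?_
      simp [na1c]
    calc _ ≤ ‖na1c (na1A k j)‖ * 1 := by gcongr
      _ ≤ _ := by rw [mul_one]; exact h4
  refine (sum_le_sum h1).trans ?_
  rw [← Int.cast_sum]
  exact_mod_cast hL

theorem na1_G_le (w : ℝ) (hw : 0 ≤ w) : na1G w ≤ 149 := by
  have h1 : 7 / 4 * w - w ^ 3 / 24 ≤ 5 := by
    nlinarith [mul_nonneg (by linarith : (0 : ℝ) ≤ w + 2 * (15 / 4)) (sq_nonneg (w - 15 / 4))]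
  have h2 : Real.exp 5 ≤ 149 := by
    have h3 := Real.exp_one_lt_d9
    have h4 : Real.exp 5 = Real.exp 1 ^ 5 := by rw [← Real.exp_nat_mul]; norm_num
    rw [h4]
    calc Real.exp 1 ^ 5 ≤ (2.7182818286 : ℝ) ^ 5 := by gcongr
      _ ≤ 149 := by norm_num
  exact (Real.exp_le_exp.2 h1).trans h2

theorem na1_F6 (w : ℝ) (hw : 0 ≤ w) (hw2 : w ≤ 21 / 2) : |na1F 6 w| ≤ 600000000 := by
  have hG := na1_G_le w hw
  have hG0 : 0 ≤ na1G w := (Real.exp_pos _).le
  have hK := na1_K_le 6 106110302818678882821163 (by decide +kernel) w hw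
  have ha : |na1q1 w| ≤ 1204 / 100 := by
    rw [abs_le]; unfold na1q1; constructor <;> nlinarith
  have hb : |na1q2 w| ≤ 263 / 100 := by
    rw [abs_le]; unfold na1q2; constructor <;> linarith
  have hp : |na1p 6 (na1q1 w) (na1q2 w) (-(1 / 4))| ≤ 3950000 := by
    set a := na1q1 w
    set b := na1q2 w
    have e : na1p 6 a b (-(1 / 4)) = a ^ 6 + 15 * a ^ 4 * b + 20 * a ^ 3 * (-(1 / 4)) + 45 * a ^ 2 * b ^ 2 +
      60 * a * b * (-(1 / 4)) + 15 * b ^ 3 + 10 * (-(1 / 4)) ^ 2 := rfl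
    rw [e]
    have k1 : |a ^ 6| ≤ (1204 / 100) ^ 6 := by rw [abs_pow]; gcongr
    have k2 : |15 * a ^ 4 * b| ≤ 15 * (1204 / 100) ^ 4 * (263 / 100) := by
      rw [abs_mul, abs_mul, abs_pow, abs_of_pos (by norm_num : (0 : ℝ) < 15)]; gcongr
    have k3 : |20 * a ^ 3 * (-(1 / 4))| ≤ 20 * (1204 / 100) ^ 3 * (1 / 4) := by
      rw [abs_mul, abs_mul, abs_pow, abs_of_pos (by norm_num : (0 : ℝ) < 20), abs_neg,
        abs_of_pos (by norm_num : (0 : ℝ) < 1 / 4)]; gcongr
    have k4 : |45 * a ^ 2 * b ^ 2| ≤ 45 * (1204 / 100) ^ 2 * (263 / 100) ^ 2 := by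
      rw [abs_mul, abs_mul, abs_pow, abs_pow, abs_of_pos (by norm_num : (0 : ℝ) < 45)]; gcongr
    have k5 : |60 * a * b * (-(1 / 4))| ≤ 60 * (1204 / 100) * (263 / 100) * (1 / 4) := by
      rw [abs_mul, abs_mul, abs_mul, abs_of_pos (by norm_num : (0 : ℝ) < 60), abs_neg,
        abs_of_pos (by norm_num : (0 : ℝ) < 1 / 4)]; gcongr
    have k6 : |15 * b ^ 3| ≤ 15 * (263 / 100) ^ 3 := by
      rw [abs_mul, abs_pow, abs_of_pos (by norm_num : (0 : ℝ) < 15)]; gcongr
    rw [abs_le] at k1 k2 k3 k4 k5 k6 ⊢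
    constructor <;> linarith [k1.1, k1.2, k2.1, k2.2, k3.1, k3.2, k4.1, k4.2, k5.1, k5.2, k6.1, k6.2]
  have h1 : |na1p 6 (na1q1 w) (na1q2 w) (-(1 / 4)) * na1G w| ≤ 3950000 * 149 := by
    rw [abs_mul, abs_of_nonneg hG0]; gcongr
  have h2 : |(na1K 6 w).re / (2 ^ 30 * 20 ^ 6)| ≤ 2000000 := by
    rw [abs_div, abs_of_pos (by positivity : (0 : ℝ) < 2 ^ 30 * 20 ^ 6), div_le_iff₀ (by positivity)]
    refine hK.trans ?_
    norm_num
  unfold na1F
  rw [abs_le] at h1 h2 ⊢
  constructor <;> linarith [h1.1, h1.2, h2.1, h2.2]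

/-- value on a cell from the jet in its centre -/
theorem na1_cell (c r : ℝ) (hr : 0 ≤ r) (h0 : 0 ≤ c - r) (h1 : c + r ≤ 21 / 2) (w : ℝ) (hw : |w - c| ≤ r) :
    |na1F 0 w| ≤ ∑ k ∈ range 6, |na1F k c| * r ^ k / (k.factorial : ℝ) + 600000000 * r ^ 6 / 720 := by
  have key : ∀ s : ℝ, (s = 1 ∨ s = -1) → ∀ x ∈ Set.Icc 0 r, |na1F 0 (c + s * x)| ≤
      ∑ k ∈ range 6, |na1F k c| * r ^ k / (k.factorial : ℝ) + 600000000 * r ^ 6 / 720 := by
    intro s hs x hx
    have hs1 : |s| = 1 := by rcases hs with h | h <;> simp [h]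
    have ht := na1_taylor 6 (fun k x => s ^ k * na1F k (c + s * x)) r 600000000 (by
      intro k hk y hy
      have e := na1F_deriv k hk (c + s * y)
      have e2 : HasDerivAt (fun y : ℝ => c + s * y) (s * 1) y := ((hasDerivAt_id y).const_mul s).const_add c
      refine ((e.comp y e2).const_mul (s ^ k)).congr_deriv ?_
      ring) (by
      intro y hy
      simp only [abs_mul, abs_pow, hs1, one_pow, one_mul]
      apply na1_F6
      · rcases hs with h | h <;> subst h <;> linarith [hy.1, hy.2]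
      · rcases hs with h | h <;> subst h <;> linarith [hy.1, hy.2]) x hx
    simp only [abs_mul, abs_pow, hs1, one_pow, one_mul, mul_zero, add_zero] at ht
    refine ht.trans ?_
    have hxr := hx.2
    have hx0 := hx.1
    have : ((6 : ℕ).factorial : ℝ) = 720 := by norm_num [Nat.factorial]
    rw [this]
    gcongr
  rcases le_total c w with h | h
  · have := key 1 (Or.inl rfl) (w - c) ⟨by linarith, by rw [abs_le] at hw; linarith [hw.2]⟩
    rwa [show c + 1 * (w - c) = w by ring] at this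
  · have := key (-1) (Or.inr rfl) (c - w) ⟨by linarith, by rw [abs_le] at hw; linarith [hw.1]⟩
    rwa [show c + -1 * (c - w) = w by ring] at this

/-! ### computing -/

/-- scale `2 ^ 100` -/
def na1S : ℤ := 1267650600228229401496703205376

def na1fN (n : ℕ) (k : ℕ → Bool) : Bool :=
  Nat.rec (motive := fun _ => Bool) (k 0) (fun m _ => k (Nat.succ m)) n
def na1fZ (x : ℤ) (k : ℤ → Bool) : Bool :=
  match x with
  | Int.ofNat n => na1fN n fun m => k (Int.ofNat m)
  | Int.negSucc n => na1fN n fun m => k (Int.negSucc m)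
theorem na1fN_eq (n : ℕ) (k : ℕ → Bool) : na1fN n k = k n := by cases n <;> rfl
theorem na1fZ_eq (x : ℤ) (k : ℤ → Bool) : na1fZ x k = k x := by
  cases x <;> simp only [na1fZ, na1fN_eq]

/-- complex product -/
def na1cm (a b c d : ℤ) (k : ℤ → ℤ → Bool) : Bool :=
  na1fZ (Int.ediv (Int.sub (Int.mul a c) (Int.mul b d)) na1S) fun x =>
  na1fZ (Int.ediv (Int.add (Int.mul a d) (Int.mul b c)) na1S) fun y => k x y

theorem na1cm_eq (a b c d : ℤ) (k : ℤ → ℤ → Bool) :
    na1cm a b c d k = k ((a * c - b * d) / na1S) ((a * d + b * c) / na1S) := by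
  simp only [na1cm, na1fZ_eq]; rfl

/-- list of powers -/
def na1pw (C S : ℤ) (n : ℕ) : ℤ → ℤ → (List (ℤ × ℤ) → Bool) → Bool :=
  Nat.rec (motive := fun _ => ℤ → ℤ → (List (ℤ × ℤ) → Bool) → Bool)
    (fun x y k => k [(x, y)])
    (fun _ ih x y k => na1cm x y C S fun x' y' => ih x' y' fun l => k ((x, y) :: l)) n

def na1pl (C S : ℤ) : ℕ → ℤ → ℤ → List (ℤ × ℤ)
  | 0, x, y => [(x, y)]
  | n + 1, x, y => (x, y) :: na1pl C S n ((x * C - y * S) / na1S) ((x * S + y * C) / na1S)

theorem na1pw_eq (C S : ℤ) (n : ℕ) : ∀ (x y : ℤ) (k : List (ℤ × ℤ) → Bool),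
    na1pw C S n x y k = k (na1pl C S n x y) := by
  induction n with
  | zero => intro x y k; rfl
  | succ n ih =>
    intro x y k
    change na1cm x y C S (fun x' y' => na1pw C S n x' y' fun l => k ((x, y) :: l)) = _
    rw [na1cm_eq, ih]
    rfl

def na1dot (l : List (ℤ × ℤ)) : List (ℤ × ℤ) → ℤ :=
  List.rec (motive := fun _ => List (ℤ × ℤ) → ℤ) (fun _ => 0)
    (fun p _ ih m => List.rec (motive := fun _ => ℤ) 0
      (fun q m' _ => Int.add (Int.sub (Int.mul p.1 q.1) (Int.mul p.2 q.2)) (ih m')) m) l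

theorem na1dot_nil (m : List (ℤ × ℤ)) : na1dot [] m = 0 := rfl
theorem na1dot_cons (p q : ℤ × ℤ) (l m : List (ℤ × ℤ)) :
    na1dot (p :: l) (q :: m) = p.1 * q.1 - p.2 * q.2 + na1dot l m := rfl

def na1LL : List (ℤ × ℤ) → ℤ
  | [] => 0
  | p :: l => |p.1| + |p.2| + na1LL l

theorem na1LL_nonneg (l : List (ℤ × ℤ)) : 0 ≤ na1LL l := by
  induction l with
  | nil => simp [na1LL]
  | cons p l ih => simp only [na1LL]; positivity

noncomputable def na1cd : List (ℤ × ℤ) → ℂ → ℂ → ℂ
  | [], _, _ => 0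
  | p :: l, v, z => na1c p * v + na1cd l (v * z) z

theorem na1c_le (p : ℤ × ℤ) : ‖na1c p‖ ≤ ((|p.1| + |p.2| : ℤ) : ℝ) := by
  refine (Complex.norm_le_abs_re_add_abs_im _).trans ?_
  simp [na1c]

theorem na1cd_le (z : ℂ) (hz : ‖z‖ ≤ 1) (l : List (ℤ × ℤ)) : ∀ v : ℂ, ‖v‖ ≤ 1 → ‖na1cd l v z‖ ≤ na1LL l := by
  induction l with
  | nil => intro v _; simp [na1cd, na1LL]
  | cons p l ih =>
    intro v hv
    have h1 : ‖v * z‖ ≤ 1 := by
      rw [norm_mul]; exact mul_le_one₀ hv (norm_nonneg _) hz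
    have h2 := ih _ h1
    have h3 : ‖na1c p * v‖ ≤ ((|p.1| + |p.2| : ℤ) : ℝ) := by
      rw [norm_mul]
      calc _ ≤ ‖na1c p‖ * 1 := by gcongr
        _ ≤ _ := by rw [mul_one]; exact na1c_le p
    simp only [na1cd, na1LL]
    refine (norm_add_le _ _).trans ?_
    push_cast at h3 h2 ⊢
    linarith

theorem na1S_pos : (0 : ℝ) < (na1S : ℝ) := by norm_num [na1S]
theorem na1S_pos' : 0 < na1S := by norm_num [na1S]
theorem na1S_big : (2 : ℝ) ^ 80 ≤ (na1S : ℝ) := by norm_num [na1S]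

theorem na1_floor (a : ℤ) : |(a : ℝ) / (na1S : ℝ) - ((a / na1S : ℤ) : ℝ)| ≤ 1 := by
  have h1 : ((a / na1S : ℤ) : ℝ) * (na1S : ℝ) ≤ a := by exact_mod_cast Int.ediv_mul_le a na1S_pos'.ne'
  have h2 : (a : ℝ) ≤ (((a / na1S : ℤ) : ℝ) + 1) * (na1S : ℝ) := by
    exact_mod_cast (Int.lt_ediv_add_one_mul_self a na1S_pos').le
  have h3 := na1S_pos
  rw [abs_le]
  constructor
  · have : ((a / na1S : ℤ) : ℝ) ≤ (a : ℝ) / (na1S : ℝ) := by rwa [le_div_iff₀ h3]
    linarith
  · have : (a : ℝ) / (na1S : ℝ) ≤ ((a / na1S : ℤ) : ℝ) + 1 := by rwa [div_le_iff₀ h3]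
    linarith

/-- complex ball product, both factors of norm at most `1` -/
theorem na1_cmul (v z : ℂ) (hv : ‖v‖ ≤ 1) (hz : ‖z‖ ≤ 1) (x y C S : ℤ) (e f : ℝ) (he : 0 ≤ e) (hf : 0 ≤ f)
    (he' : e ≤ 2 ^ 40) (hf' : f ≤ 2 ^ 40)
    (h1 : ‖v * (na1S : ℂ) - (⟨(x : ℝ), (y : ℝ)⟩ : ℂ)‖ ≤ e) (h2 : ‖z * (na1S : ℂ) - (⟨(C : ℝ), (S : ℝ)⟩ : ℂ)‖ ≤ f) :
    ‖v * z * (na1S : ℂ) - (⟨(((x * C - y * S) / na1S : ℤ) : ℝ), (((x * S + y * C) / na1S : ℤ) : ℝ)⟩ : ℂ)‖ ≤
      e + (f + 3) := by
  set X : ℂ := ⟨(x : ℝ), (y : ℝ)⟩ with hX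
  set Y : ℂ := ⟨(C : ℝ), (S : ℝ)⟩ with hY
  have hS := na1S_pos
  have hSC : (na1S : ℂ) ≠ 0 := by
    have : ((na1S : ℝ) : ℂ) ≠ 0 := by exact_mod_cast hS.ne'
    simpa using this
  have hnS : ‖(na1S : ℂ)‖ = (na1S : ℝ) := by
    have : (na1S : ℂ) = ((na1S : ℝ) : ℂ) := by simp
    rw [this, Complex.norm_real, Real.norm_of_nonneg hS.le]
  have hYn : ‖Y‖ ≤ na1S + f := by
    have h3 : ‖z * (na1S : ℂ)‖ ≤ na1S := by
      rw [norm_mul, hnS]
      calc _ ≤ 1 * (na1S : ℝ) := by gcongr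
        _ = _ := one_mul _
    have h4 : Y = z * (na1S : ℂ) - (z * (na1S : ℂ) - Y) := by ring
    rw [h4]
    refine (norm_sub_le _ _).trans (add_le_add h3 h2)
  have hm : ‖v * z * (na1S : ℂ) - X * Y / (na1S : ℂ)‖ ≤ e + f + 1 := by
    have h5 : v * z * (na1S : ℂ) - X * Y / (na1S : ℂ) =
        v * (z * (na1S : ℂ) - Y) + Y * (v * (na1S : ℂ) - X) / (na1S : ℂ) := by
      field_simp
      ring
    rw [h5]
    refine (norm_add_le _ _).trans ?_
    rw [norm_mul, norm_div, norm_mul, hnS]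
    have h6 : ‖v‖ * ‖z * (na1S : ℂ) - Y‖ ≤ f := by
      calc _ ≤ 1 * f := by gcongr
        _ = f := one_mul _
    have h7 : ‖Y‖ * ‖v * (na1S : ℂ) - X‖ / (na1S : ℝ) ≤ e + 1 := by
      rw [div_le_iff₀ hS]
      have h8 : ‖Y‖ * ‖v * (na1S : ℂ) - X‖ ≤ (na1S + f) * e := by gcongr
      have h9 : f * e ≤ 2 ^ 40 * 2 ^ 40 := by gcongr
      have h10 := na1S_big
      nlinarith
    linarith
  have hfl : ‖X * Y / (na1S : ℂ) - (⟨(((x * C - y * S) / na1S : ℤ) : ℝ), (((x * S + y * C) / na1S : ℤ) : ℝ)⟩ : ℂ)‖ ≤ 2 := by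
    refine (Complex.norm_le_abs_re_add_abs_im _).trans ?_
    have e1 : (X * Y / (na1S : ℂ)).re = (((x * C - y * S : ℤ) : ℝ)) / (na1S : ℝ) := by
      have : (na1S : ℂ) = ((na1S : ℝ) : ℂ) := by simp
      rw [this, Complex.div_ofReal_re, hX, hY]
      simp
    have e2 : (X * Y / (na1S : ℂ)).im = (((x * S + y * C : ℤ) : ℝ)) / (na1S : ℝ) := by
      have : (na1S : ℂ) = ((na1S : ℝ) : ℂ) := by simp
      rw [this, Complex.div_ofReal_im, hX, hY]
      simp
    rw [Complex.sub_re, Complex.sub_im, e1, e2]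
    have f1 := na1_floor (x * C - y * S)
    have f2 := na1_floor (x * S + y * C)
    linarith
  calc _ = ‖(v * z * (na1S : ℂ) - X * Y / (na1S : ℂ)) + (X * Y / (na1S : ℂ) -
        (⟨(((x * C - y * S) / na1S : ℤ) : ℝ), (((x * S + y * C) / na1S : ℤ) : ℝ)⟩ : ℂ))‖ := by
        congr 1; ring
    _ ≤ _ := (norm_add_le _ _).trans (by linarith)

theorem na1_pl_dot (z : ℂ) (hz : ‖z‖ ≤ 1) (C S : ℤ) (e : ℝ) (he0 : 0 ≤ e) (heb : e ≤ 2 ^ 40)
    (hC : ‖z * (na1S : ℂ) - (⟨(C : ℝ), (S : ℝ)⟩ : ℂ)‖ ≤ e) (l : List (ℤ × ℤ)) : ∀ (n : ℕ), l.length ≤ n + 1 →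
    ∀ (v : ℂ) (x y : ℤ) (ε : ℝ), ‖v‖ ≤ 1 → 0 ≤ ε → ε + n * (e + 3) ≤ 2 ^ 40 →
    ‖v * (na1S : ℂ) - (⟨(x : ℝ), (y : ℝ)⟩ : ℂ)‖ ≤ ε →
    |(na1cd l v z).re * (na1S : ℝ) - (na1dot l (na1pl C S n x y) : ℝ)| ≤ (na1LL l : ℝ) * (ε + n * (e + 3)) := by
  induction l with
  | nil => intro n _ v x y ε _ _ _ _; simp [na1cd, na1dot_nil, na1LL]
  | cons p l ih =>
    intro n hn v x y ε hv hε hb hx
    have hhead : |(na1c p * v).re * (na1S : ℝ) - ((p.1 * x - p.2 * y : ℤ) : ℝ)| ≤ ((|p.1| + |p.2| : ℤ) : ℝ) * ε := by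
      have e1 : (na1c p * v).re * (na1S : ℝ) - ((p.1 * x - p.2 * y : ℤ) : ℝ) =
          (na1c p * (v * (na1S : ℂ) - (⟨(x : ℝ), (y : ℝ)⟩ : ℂ))).re := by
        have : (na1S : ℂ) = ((na1S : ℝ) : ℂ) := by simp
        rw [mul_sub, Complex.sub_re, ← mul_assoc, this, Complex.re_mul_ofReal]
        simp [na1c]
      rw [e1]
      refine (Complex.abs_re_le_norm _).trans ?_
      rw [norm_mul]
      have := na1c_le p
      gcongr
    have hpos : (0 : ℝ) ≤ ((|p.1| + |p.2| : ℤ) : ℝ) := by exact_mod_cast (by positivity : (0 : ℤ) ≤ |p.1| + |p.2|)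
    have hLL : (0 : ℝ) ≤ (na1LL l : ℝ) := by exact_mod_cast na1LL_nonneg l
    cases n with
    | zero =>
      have hl : l = [] := by
        cases l with
        | nil => rfl
        | cons a b => simp at hn
      subst hl
      simp only [na1pl, na1dot_cons, na1cd, na1LL, na1dot_nil, add_zero, Nat.cast_zero, zero_mul]
      exact hhead
    | succ n =>
      simp only [na1pl, na1dot_cons, na1cd, na1LL]
      have hn' : l.length ≤ n + 1 := by simpa using hn
      have hvz : ‖v * z‖ ≤ 1 := by rw [norm_mul]; exact mul_le_one₀ hv (norm_nonneg _) hz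
      have hnn : (0 : ℝ) ≤ (n : ℝ) * (e + 3) := by positivity
      push_cast at hb
      have hstep := na1_cmul v z hv hz x y C S ε e hε he0 (by nlinarith) heb hx hC
      have := ih n hn' (v * z) _ _ (ε + (e + 3)) hvz (by linarith) (by nlinarith) hstep
      have e3 : ε + (e + 3) + n * (e + 3) = ε + ((n + 1 : ℕ) : ℝ) * (e + 3) := by push_cast; ring
      rw [e3] at this
      have h5 : ((|p.1| + |p.2| : ℤ) : ℝ) * ε ≤ ((|p.1| + |p.2| : ℤ) : ℝ) * (ε + ((n + 1 : ℕ) : ℝ) * (e + 3)) := by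
        have : (0 : ℝ) ≤ ((n + 1 : ℕ) : ℝ) * (e + 3) := by positivity
        gcongr
        linarith
      rw [Complex.add_re, Int.cast_add, Int.cast_add]
      have h6 := abs_add_le ((na1c p * v).re * (na1S : ℝ) - ((p.1 * x - p.2 * y : ℤ) : ℝ))
        ((na1cd l (v * z) z).re * (na1S : ℝ) - (na1dot l (na1pl C S n ((x * C - y * S) / na1S)
          ((x * S + y * C) / na1S)) : ℝ))
      calc _ = |((na1c p * v).re * (na1S : ℝ) - ((p.1 * x - p.2 * y : ℤ) : ℝ)) +
        ((na1cd l (v * z) z).re * (na1S : ℝ) - (na1dot l (na1pl C S n ((x * C - y * S) / na1S)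
          ((x * S + y * C) / na1S)) : ℝ))| := by congr 1; ring
        _ ≤ _ := h6.trans (by rw [add_mul]; linarith)

def na1c0 : List (ℤ × ℤ) := [(4212249744562, 0), (-7009593339706, -1780039936189), (4118009554371, 2069490164447), (-1799063609913, -1287468043413), (621516708169, 520863790942), (-179419311779, -148985220283), (46300560630, 29962189566), (-9976335626, -2458607705), (1049361736, -380569990)]
def na1c1 : List (ℤ × ℤ) := [(-105306243614050, 0), (196600312726918, -39614121671747), (-152618002806003, 47094975193729), (91325439810693, -32579588871543), (-40539379669441, 16811207218562), (13424596011455, -7040528199665), (-3314791664502, 2584585626210), (455931437870, -776546999959), (10300675640, 110252976406)]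
def na1c2 : List (ℤ × ℤ) := [(2632656090351250, 0), (-4439638358111986, 3349556794516691), (2685170665500579, -4840206447187297), (-1110270795891777, 4102205554973523), (206546545245049, -2366170404597218), (86816791693525, 981488965678925), (-103220373474570, -303279640499394), (53831662049806, 57711915780055), (-10841802625976, -1767459548710)]
def na1c3 : List (ℤ × ℤ) := [(-65816402258781250, 0), (70796277418599358, -137014580160261107), (49035688094980653, 185449257151696321), (-119922630081752403, -142524887526442047), (108412515789540239, 69068494286692802), (-61059757733073625, -19328216640361625), (24416643452820618, 150124122315810), (-6193592476769770, 3079061717682329), (440721182325560, -996626563375946)]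
def na1c4 : List (ℤ × ℤ) := [(1645410056469531250, 0), (-125731973541850666, 4274919833029719971), (-5676674374015228029, -3459374914512872353), (8128961702995723767, -754092494782035333), (-6025600620499760471, 3477088400730611422), (2686186941748538125, -3180380047975376875), (-621225023127253770, 1754245225545189246), (-103801372366071386, -597238310990718905), (84658120525951816, 67224897587652410)]
def na1c5 : List (ℤ × ℤ) := [(-41135251411738281250, 0), (-48155738657810373002, -108381779508245207267), (224941857298689637197, -49755812113543663871), (-176076712762739822187, 311494933677396938937), (-16260227722575336481, -376156039802253788158), (123668129334809159375, 240680717704296709375), (-110775030661072281462, -88584332303792002590), (52763052432372172670, 6211642496017976201), (-8570043181563426760, 6446557130800064086)]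

/-- one term of the cell sum -/
def na1t (Gl dG El dE ez P U L A B D : ℤ) (k : ℤ → Bool) : Bool :=
  na1fZ P fun P => na1fZ U fun U =>
  na1fZ (Int.ediv (Int.mul El U) na1S) fun V =>
  na1fZ (Int.sub (Int.mul (Int.mul Gl P) A) (Int.mul V B)) fun t =>
  na1fZ (Int.add (Int.add (Int.mul (Int.mul dG (Int.natAbs P)) A)
    (Int.mul (Int.add (Int.add (Int.mul dE L) (Int.mul L ez)) 2) B)) (Int.natAbs t)) fun e =>
  na1fZ (Int.add (Int.ediv e (Int.mul (Int.mul A B) D)) 1) k

def na1tv (Gl dG El dE ez P U L A B D : ℤ) : ℤ :=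
  (dG * |P| * A + (dE * L + L * ez + 2) * B + |Gl * P * A - El * U / na1S * B|) / (A * B * D) + 1

theorem na1t_eq (Gl dG El dE ez P U L A B D : ℤ) (k : ℤ → Bool) :
    na1t Gl dG El dE ez P U L A B D k = k (na1tv Gl dG El dE ez P U L A B D) := by
  simp only [na1t, na1fZ_eq, na1tv, ← Int.natCast_natAbs]
  rfl

def na1chk (i : ℤ) (Gl dG El dE ez C S : ℤ) : Bool :=
  na1pw C S 8 na1S 0 fun l =>
  na1fZ (Int.sub 358400 (Int.mul i i)) fun a =>
  na1fZ (Int.neg (Int.mul 65536000 i)) fun b =>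
  na1fZ (-2147483648000000) fun c =>
  na1t Gl dG El dE ez (na1p 0 a b c) (na1dot na1c0 l) 23836827049027 1073741824 1 1 fun t0 =>
  na1t Gl dG El dE ez (na1p 1 a b c) (na1dot na1c1 l) 750206805174393 21474836480 204800 160 fun t1 =>
  na1t Gl dG El dE ez (na1p 2 a b c) (na1dot na1c2 l) 27331380267726331 429496729600 41943040000 51200 fun t2 =>
  na1t Gl dG El dE ez (na1p 3 a b c) (na1dot na1c3 l) 1063705476657471463 8589934592000 8589934592000000 24576000 fun t3 =>
  na1t Gl dG El dE ez (na1p 4 a b c) (na1dot na1c4 l) 42662814310444085795 171798691840000 1759218604441600000000 15728640000 fun t4 =>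
  na1t Gl dG El dE ez (na1p 5 a b c) (na1dot na1c5 l) 1990057858199716840869 3435973836800000 360287970189639680000000000 12582912000000 fun t5 =>
  decide (t0 + t1 + t2 + t3 + t4 + t5 ≤ 503257288290607072394191172)


def na1step (Gl Gh Rl Rh Vl Vh El Eh C S : ℤ) (k : ℤ → ℤ → ℤ → ℤ → ℤ → ℤ → ℤ → ℤ → ℤ → ℤ → Bool) : Bool :=
  na1fZ (Int.ediv (Int.mul Gl Rl) na1S) fun Gl' =>
  na1fZ (Int.add (Int.ediv (Int.mul Gh Rh) na1S) 1) fun Gh' =>
  na1fZ (Int.ediv (Int.mul Rl Vl) na1S) fun Rl' =>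
  na1fZ (Int.add (Int.ediv (Int.mul Rh Vh) na1S) 1) fun Rh' =>
  na1fZ (Int.ediv (Int.mul Vl 1267650522856979307343629420608) na1S) fun Vl' =>
  na1fZ (Int.add (Int.ediv (Int.mul Vh 1267650522856979307343629420609) na1S) 1) fun Vh' =>
  na1fZ (Int.ediv (Int.mul El 1257785664992813950470626777492) na1S) fun El' =>
  na1fZ (Int.add (Int.ediv (Int.mul Eh 1257785664992813950470626777493) na1S) 1) fun Eh' =>
  na1cm C S 1267641687070391660944045987813 4753678609403340523878328968 fun C' S' => k Gl' Gh' Rl' Rh' Vl' Vh' El' Eh' C' S'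

theorem na1step_eq (Gl Gh Rl Rh Vl Vh El Eh C S : ℤ) (k : ℤ → ℤ → ℤ → ℤ → ℤ → ℤ → ℤ → ℤ → ℤ → ℤ → Bool) :
    na1step Gl Gh Rl Rh Vl Vh El Eh C S k = k (Gl * Rl / na1S) (Gh * Rh / na1S + 1) (Rl * Vl / na1S)
      (Rh * Vh / na1S + 1) (Vl * 1267650522856979307343629420608 / na1S) (Vh * 1267650522856979307343629420609 / na1S + 1)
      (El * 1257785664992813950470626777492 / na1S) (Eh * 1257785664992813950470626777493 / na1S + 1)
      ((C * 1267641687070391660944045987813 - S * 4753678609403340523878328968) / na1S) ((C * 4753678609403340523878328968 + S * 1267641687070391660944045987813) / na1S) := by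
  simp only [na1step, na1fZ_eq, na1cm_eq]
  rfl

def na1run (n : ℕ) : ℤ → ℤ → ℤ → ℤ → ℤ → ℤ → ℤ → ℤ → ℤ → ℤ → ℤ →
    (ℤ → ℤ → ℤ → ℤ → ℤ → ℤ → ℤ → ℤ → ℤ → ℤ → Bool) → Bool :=
  Nat.rec (motive := fun _ => ℤ → ℤ → ℤ → ℤ → ℤ → ℤ → ℤ → ℤ → ℤ → ℤ → ℤ →
    (ℤ → ℤ → ℤ → ℤ → ℤ → ℤ → ℤ → ℤ → ℤ → ℤ → Bool) → Bool)
    (fun _ Gl Gh Rl Rh Vl Vh El Eh C S k => k Gl Gh Rl Rh Vl Vh El Eh C S)
    (fun _ ih i Gl Gh Rl Rh Vl Vh El Eh C S k =>
      na1step Gl Gh Rl Rh Vl Vh El Eh C S fun Gl Gh Rl Rh Vl Vh El Eh C S =>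
        Bool.rec (motive := fun _ => Bool) false
          (na1step Gl Gh Rl Rh Vl Vh El Eh C S fun Gl Gh Rl Rh Vl Vh El Eh C S =>
            na1fZ (Int.add i 2) fun j => ih j Gl Gh Rl Rh Vl Vh El Eh C S k)
          (na1chk i Gl (Int.sub Gh Gl) El (Int.sub Eh El) 131072 C S)) n

/-- comparison with the stored state -/
def na1fin (a1 a2 a3 a4 a5 a6 a7 a8 a9 a10 b1 b2 b3 b4 b5 b6 b7 b8 b9 b10 : ℤ) : Bool :=
  decide (a1 = b1 ∧ a2 = b2 ∧ a3 = b3 ∧ a4 = b4 ∧ a5 = b5 ∧ a6 = b6 ∧ a7 = b7 ∧ a8 = b8 ∧ a9 = b9 ∧ a10 = b10)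

theorem na1tv_spec (Gl dG El dE ez P U L A B D : ℤ) (G E u p : ℝ) (hA : 0 < A) (hB : 0 < B) (hD : 0 < D)
    (hEl : 0 ≤ El) (hEl1 : El ≤ na1S) (hL : 0 ≤ L) (hez : 0 ≤ ez)
    (hG1 : (Gl : ℝ) ≤ G * na1S) (hG2 : G * na1S ≤ Gl + dG) (hE1 : (El : ℝ) ≤ E * na1S)
    (hE2 : E * na1S ≤ El + dE) (hU : |u * na1S - U| ≤ L * ez) (hu : |u| ≤ L) (hP : (P : ℝ) = p * B) :
    |p * G - E * u / A| / D * na1S ≤ (na1tv Gl dG El dE ez P U L A B D : ℝ) := by
  have hS := na1S_pos
  have hA' : (0 : ℝ) < A := by exact_mod_cast hA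
  have hB' : (0 : ℝ) < B := by exact_mod_cast hB
  have hD' : (0 : ℝ) < D := by exact_mod_cast hD
  have hL' : (0 : ℝ) ≤ L := by exact_mod_cast hL
  have hez' : (0 : ℝ) ≤ ez := by exact_mod_cast hez
  have hEl' : (0 : ℝ) ≤ El := by exact_mod_cast hEl
  have hEl1' : (El : ℝ) ≤ na1S := by exact_mod_cast hEl1
  set N : ℤ := dG * |P| * A + (dE * L + L * ez + 2) * B + |Gl * P * A - El * U / na1S * B| with hN
  have hfl := na1_floor (El * U)
  set V : ℤ := El * U / na1S with hV
  have h1 : |(G * na1S - Gl) * P * A| ≤ dG * |(P : ℝ)| * A := by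
    rw [abs_mul, abs_mul, abs_of_pos hA', abs_of_nonneg (by linarith : (0 : ℝ) ≤ G * na1S - Gl)]
    gcongr
    linarith
  have h2 : |E * na1S * u - V| ≤ dE * L + L * ez + 1 := by
    have e1 : E * na1S * u - V = (E * na1S - El) * u + El * (u * na1S - U) / na1S + (((El * U : ℤ) : ℝ) / na1S - V) := by
      push_cast
      field_simp
      ring
    have e2 : |(E * na1S - El) * u| ≤ dE * L := by
      rw [abs_mul, abs_of_nonneg (by linarith : (0 : ℝ) ≤ E * na1S - El)]
      have : (0 : ℝ) ≤ dE := by linarith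
      gcongr
      linarith
    have e3 : |(El : ℝ) * (u * na1S - U) / na1S| ≤ L * ez := by
      rw [abs_div, abs_mul, abs_of_pos hS, abs_of_nonneg hEl', div_le_iff₀ hS]
      calc (El : ℝ) * |u * na1S - U| ≤ na1S * (L * ez) := by gcongr
        _ = L * ez * na1S := mul_comm _ _
    rw [e1]
    refine (abs_add_le _ _).trans ?_
    have := abs_add_le ((E * na1S - El) * u) ((El : ℝ) * (u * na1S - U) / na1S)
    linarith
  have h3 : |(p * G - E * u / A) * na1S * (A * B)| ≤ (N : ℝ) := by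
    have e1 : (p * G - E * u / A) * na1S * (A * B) =
        (G * na1S - Gl) * P * A - (E * na1S * u - V) * B + ((Gl * P * A - V * B : ℤ) : ℝ) := by
      rw [hP]
      push_cast
      rw [hP]
      field_simp
      ring
    rw [e1, hN]
    have e2 : |(E * na1S * u - V) * B| ≤ (dE * L + L * ez + 1) * B := by
      rw [abs_mul, abs_of_pos hB']; gcongr
    have e3 := abs_add_le ((G * na1S - Gl) * P * A - (E * na1S * u - V) * B) (((Gl * P * A - V * B : ℤ) : ℝ))
    have e4 := abs_sub ((G * na1S - Gl) * P * A) ((E * na1S * u - V) * B)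
    push_cast at e3 ⊢
    nlinarith
  have hABD : (0 : ℝ) < A * B * D := by positivity
  have h4 : |p * G - E * u / A| / D * na1S = |(p * G - E * u / A) * na1S * (A * B)| / (A * B * D) := by
    rw [abs_mul, abs_mul, abs_of_pos hS, abs_of_pos (by positivity : (0 : ℝ) < A * B)]
    field_simp
  rw [h4]
  have h5 : (N : ℝ) / (A * B * D) ≤ ((N / (A * B * D) : ℤ) : ℝ) + 1 := by
    rw [div_le_iff₀ hABD]
    have := (Int.lt_ediv_add_one_mul_self N (b := A * B * D) (by positivity)).le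
    exact_mod_cast this
  calc _ ≤ (N : ℝ) / (A * B * D) := by gcongr
    _ ≤ _ := h5.trans (le_of_eq (by simp only [na1tv]; push_cast; rfl))

theorem na1_list0 : na1c0 = (List.range 9).map (na1A 0) := by decide +kernel
theorem na1_list1 : na1c1 = (List.range 9).map (na1A 1) := by decide +kernel
theorem na1_list2 : na1c2 = (List.range 9).map (na1A 2) := by decide +kernel
theorem na1_list3 : na1c3 = (List.range 9).map (na1A 3) := by decide +kernel
theorem na1_list4 : na1c4 = (List.range 9).map (na1A 4) := by decide +kernel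
theorem na1_list5 : na1c5 = (List.range 9).map (na1A 5) := by decide +kernel

noncomputable def na1z (w : ℝ) : ℂ := Complex.exp (((3 / 5 * w : ℝ) : ℂ) * Complex.I)

theorem na1_K_eq (k : ℕ) (w : ℝ) : (na1K k w).re =
    Real.exp (-(5 / 4) * w) * (na1cd ((List.range 9).map (na1A k)) 1 (na1z w)).re := by
  have h1 : na1K k w = ((Real.exp (-(5 / 4) * w) : ℝ) : ℂ) * na1cd ((List.range 9).map (na1A k)) 1 (na1z w) := by
    have h2 : ∀ j : ℕ, Complex.exp (na1m j * (w : ℂ)) = ((Real.exp (-(5 / 4) * w) : ℝ) : ℂ) * na1z w ^ j := by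
      intro j
      rw [na1z, ← Complex.exp_nat_mul, Complex.ofReal_exp, ← Complex.exp_add]
      congr 1
      apply Complex.ext
      · simp [na1m]
      · simp [na1m]; ring
    unfold na1K
    simp only [h2, sum_range_succ, sum_range_zero, na1cd, List.range_succ, List.range_zero,
      List.map_cons, List.map_nil, List.nil_append, List.cons_append]
    ring
  rw [h1, Complex.re_ofReal_mul]

theorem na1_z_norm (w : ℝ) : ‖na1z w‖ ≤ 1 := by
  rw [na1z, Complex.norm_exp_ofReal_mul_I]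

theorem na1chk_spec (m : ℕ) (hm : m ≤ 1680) (Gl Gh El Eh C S : ℤ) (hEl : 0 ≤ El)
    (hG1 : (Gl : ℝ) ≤ na1G ((m : ℝ) / 160) * na1S) (hG2 : na1G ((m : ℝ) / 160) * na1S ≤ Gh)
    (hE1 : (El : ℝ) ≤ Real.exp (-(5 / 4) * ((m : ℝ) / 160)) * na1S)
    (hE2 : Real.exp (-(5 / 4) * ((m : ℝ) / 160)) * na1S ≤ Eh)
    (hz : ‖na1z ((m : ℝ) / 160) * (na1S : ℂ) - (⟨(C : ℝ), (S : ℝ)⟩ : ℂ)‖ ≤ 5 * m)
    (h : na1chk (m : ℤ) Gl (Int.sub Gh Gl) El (Int.sub Eh El) 131072 C S = true) :
    ∑ k ∈ range 6, |na1F k ((m : ℝ) / 160)| * (1 / 160) ^ k / (k.factorial : ℝ) ≤ 397 / 1000000 := by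
  set c : ℝ := (m : ℝ) / 160 with hc
  have hmR : (m : ℝ) ≤ 1680 := by exact_mod_cast hm
  have hm0 : (0 : ℝ) ≤ m := Nat.cast_nonneg m
  have hS := na1S_pos
  have hE3 : Real.exp (-(5 / 4) * c) ≤ 1 := by
    rw [Real.exp_le_one_iff]
    have : 0 ≤ c := by positivity
    linarith
  have hEl1 : El ≤ na1S := by
    have : (El : ℝ) ≤ na1S := hE1.trans (by nlinarith)
    exact_mod_cast this
  have hdot : ∀ (l : List (ℤ × ℤ)), l.length ≤ 9 →
      |(na1cd l 1 (na1z c)).re * na1S - (na1dot l (na1pl C S 8 na1S 0) : ℝ)| ≤ (na1LL l : ℝ) * ((131072 : ℤ) : ℝ) := by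
    intro l hl
    have h1 := na1_pl_dot (na1z c) (na1_z_norm c) C S (5 * m) (by positivity) (by linarith) hz l 8 hl 1 na1S 0 0
      (by simp) le_rfl (by push_cast; linarith) (by
        have : ((⟨(na1S : ℝ), ((0 : ℤ) : ℝ)⟩ : ℂ)) = (na1S : ℂ) := by
          apply Complex.ext <;> simp
        rw [this]; simp)
    refine h1.trans ?_
    have hLL : (0 : ℝ) ≤ (na1LL l : ℝ) := by exact_mod_cast na1LL_nonneg l
    have : (0 : ℝ) + ((8 : ℕ) : ℝ) * (5 * (m : ℝ) + 3) ≤ ((131072 : ℤ) : ℝ) := by push_cast; linarith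
    gcongr
  have hcd : ∀ (l : List (ℤ × ℤ)), |(na1cd l 1 (na1z c)).re| ≤ (na1LL l : ℝ) := by
    intro l
    exact (Complex.abs_re_le_norm _).trans (na1cd_le _ (na1_z_norm c) l 1 (by simp))
  have hG2' : na1G c * na1S ≤ (Gl : ℝ) + ((Int.sub Gh Gl : ℤ) : ℝ) := by
    have : Int.sub Gh Gl = Gh - Gl := rfl
    rw [this]; push_cast; linarith
  have hE2' : Real.exp (-(5 / 4) * c) * na1S ≤ (El : ℝ) + ((Int.sub Eh El : ℤ) : ℝ) := by
    have : Int.sub Eh El = Eh - El := rfl
    rw [this]; push_cast; linarith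
  have hterm : ∀ (k : ℕ) (l : List (ℤ × ℤ)) (P L A B D : ℤ), l = (List.range 9).map (na1A k) → na1LL l = L →
      (A : ℝ) = 2 ^ 30 * 20 ^ k → (D : ℝ) = 160 ^ k * (k.factorial : ℝ) → 0 < B →
      (P : ℝ) = na1p k (na1q1 c) (na1q2 c) (-(1 / 4)) * B →
      |na1F k c| * (1 / 160) ^ k / (k.factorial : ℝ) * na1S ≤
        (na1tv Gl (Int.sub Gh Gl) El (Int.sub Eh El) 131072 P (na1dot l (na1pl C S 8 na1S 0)) L A B D : ℝ) := by
    intro k l P L A B D hl hL hA hD hB hP
    have hA0 : (0 : ℝ) < A := by rw [hA]; positivity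
    have hk : (0 : ℝ) < (k.factorial : ℝ) := by exact_mod_cast k.factorial_pos
    have hD0 : (0 : ℝ) < D := by rw [hD]; positivity
    have h2 := na1tv_spec Gl (Int.sub Gh Gl) El (Int.sub Eh El) 131072 P (na1dot l (na1pl C S 8 na1S 0)) L A B D
      (na1G c) (Real.exp (-(5 / 4) * c)) ((na1cd l 1 (na1z c)).re) (na1p k (na1q1 c) (na1q2 c) (-(1 / 4)))
      (by exact_mod_cast hA0) hB (by exact_mod_cast hD0) hEl hEl1 (by rw [← hL]; exact na1LL_nonneg l) (by norm_num)
      hG1 hG2' hE1 hE2' (by rw [← hL]; exact hdot l (by rw [hl]; simp)) (by rw [← hL]; exact hcd l) hP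
    refine le_trans (le_of_eq ?_) h2
    congr 1
    rw [na1F, na1_K_eq, ← hl, hA, hD]
    have e160 : ((1 : ℝ) / 160) ^ k = 1 / 160 ^ k := by rw [one_div, inv_pow, one_div]
    rw [e160]
    field_simp
  rw [na1chk, na1pw_eq] at h
  simp only [na1fZ_eq, na1t_eq, decide_eq_true_eq] at h
  set a : ℤ := Int.sub 358400 (Int.mul (m : ℤ) (m : ℤ)) with ha
  set b : ℤ := Int.neg (Int.mul 65536000 (m : ℤ)) with hb
  have ha' : (a : ℝ) = na1q1 c * 204800 := by
    have : a = 358400 - (m : ℤ) * m := rfl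
    rw [this, na1q1, hc]; push_cast; ring
  have hb' : (b : ℝ) = na1q2 c * 204800 ^ 2 := by
    have : b = -(65536000 * (m : ℤ)) := rfl
    rw [this, na1q2, hc]; push_cast; ring
  have t0 := hterm 0 na1c0 (na1p 0 a b (-2147483648000000)) 23836827049027 1073741824 1 1 na1_list0
    (by decide +kernel) (by norm_num) (by norm_num [Nat.factorial]) (by norm_num)
    (by simp [na1p])
  have t1 := hterm 1 na1c1 (na1p 1 a b (-2147483648000000)) 750206805174393 21474836480 204800 160 na1_list1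
    (by decide +kernel) (by norm_num) (by norm_num [Nat.factorial]) (by norm_num)
    (by simp only [na1p]; push_cast; rw [ha'])
  have t2 := hterm 2 na1c2 (na1p 2 a b (-2147483648000000)) 27331380267726331 429496729600 41943040000 51200 na1_list2
    (by decide +kernel) (by norm_num) (by norm_num [Nat.factorial]) (by norm_num)
    (by simp only [na1p]; push_cast; rw [ha', hb']; ring)
  have t3 := hterm 3 na1c3 (na1p 3 a b (-2147483648000000)) 1063705476657471463 8589934592000 8589934592000000 24576000 na1_list3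
    (by decide +kernel) (by norm_num) (by norm_num [Nat.factorial]) (by norm_num)
    (by simp only [na1p]; push_cast; rw [ha', hb']; ring)
  have t4 := hterm 4 na1c4 (na1p 4 a b (-2147483648000000)) 42662814310444085795 171798691840000 1759218604441600000000 15728640000 na1_list4
    (by decide +kernel) (by norm_num) (by norm_num [Nat.factorial]) (by norm_num)
    (by simp only [na1p]; push_cast; rw [ha', hb']; ring)
  have t5 := hterm 5 na1c5 (na1p 5 a b (-2147483648000000)) 1990057858199716840869 3435973836800000 360287970189639680000000000 12582912000000 na1_list5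
    (by decide +kernel) (by norm_num) (by norm_num [Nat.factorial]) (by norm_num)
    (by simp only [na1p]; push_cast; rw [ha', hb']; ring)
  have hR : (∑ k ∈ range 6, |na1F k c| * (1 / 160) ^ k / (k.factorial : ℝ)) * na1S ≤
      ((503257288290607072394191172 : ℤ) : ℝ) := by
    simp only [sum_range_succ, sum_range_zero, zero_add, add_mul]
    refine le_trans ?_ (Int.cast_le.2 h)
    push_cast
    linarith
  have h6 : ((503257288290607072394191172 : ℤ) : ℝ) ≤ 397 / 1000000 * na1S := by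
    norm_num [na1S]
  exact le_of_mul_le_mul_right (hR.trans h6) hS

/-! ### constants -/

theorem na1_pexp (x : ℝ) (lo hi : ℤ) (hx : |x| ≤ 1)
    (h1 : (lo : ℝ) / na1S ≤ ∑ m ∈ range 16, x ^ m / (m.factorial : ℝ) - |x| ^ 16 * (((16 : ℕ).succ : ℕ) / (((16 : ℕ).factorial : ℕ) * (16 : ℕ) : ℝ)))
    (h2 : ∑ m ∈ range 16, x ^ m / (m.factorial : ℝ) + |x| ^ 16 * (((16 : ℕ).succ : ℕ) / (((16 : ℕ).factorial : ℕ) * (16 : ℕ) : ℝ)) ≤ (hi : ℝ) / na1S) :
    (lo : ℝ) ≤ Real.exp x * na1S ∧ Real.exp x * na1S ≤ hi := by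
  have h := Real.exp_bound hx (n := 16) (by norm_num)
  rw [abs_le] at h
  have hS := na1S_pos
  constructor
  · rw [← div_le_iff₀ hS]; linarith [h.1]
  · rw [← le_div_iff₀ hS]; linarith [h.2]

theorem na1_rho : ((1281591616657195144704438160103 : ℤ) : ℝ) ≤ Real.exp (7 / 640 - 1 / 98304000) * na1S ∧
    Real.exp (7 / 640 - 1 / 98304000) * na1S ≤ ((1281591616657195144704438160104 : ℤ) : ℝ) := by
  apply na1_pexp
  · rw [abs_of_pos] <;> norm_num
  · rw [abs_of_pos (by norm_num)]; norm_num [sum_range_succ, Nat.factorial, na1S]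
  · rw [abs_of_pos (by norm_num)]; norm_num [sum_range_succ, Nat.factorial, na1S]

theorem na1_tau : ((1267650522856979307343629420608 : ℤ) : ℝ) ≤ Real.exp (-(1 / 16384000)) * na1S ∧
    Real.exp (-(1 / 16384000)) * na1S ≤ ((1267650522856979307343629420609 : ℤ) : ℝ) := by
  apply na1_pexp
  · rw [abs_of_neg] <;> norm_num
  · rw [abs_of_neg (by norm_num)]; norm_num [sum_range_succ, Nat.factorial, na1S]
  · rw [abs_of_neg (by norm_num)]; norm_num [sum_range_succ, Nat.factorial, na1S]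

theorem na1_eps : ((1257785664992813950470626777492 : ℤ) : ℝ) ≤ Real.exp (-(1 / 128)) * na1S ∧
    Real.exp (-(1 / 128)) * na1S ≤ ((1257785664992813950470626777493 : ℤ) : ℝ) := by
  apply na1_pexp
  · rw [abs_of_neg] <;> norm_num
  · rw [abs_of_neg (by norm_num)]; norm_num [sum_range_succ, Nat.factorial, na1S]
  · rw [abs_of_neg (by norm_num)]; norm_num [sum_range_succ, Nat.factorial, na1S]

theorem na1_kap : ‖na1z (1 / 160) * (na1S : ℂ) - (⟨((1267641687070391660944045987813 : ℤ) : ℝ), ((4753678609403340523878328968 : ℤ) : ℝ)⟩ : ℂ)‖ ≤ 2 := by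
  set x : ℝ := 3 / 800 with hx
  have hz : na1z (1 / 160) = Complex.exp ((x : ℂ) * Complex.I) := by
    rw [na1z, hx]; norm_num
  have hn : ‖(x : ℂ) * Complex.I‖ = x := by
    rw [norm_mul, Complex.norm_I, mul_one, Complex.norm_real, Real.norm_of_nonneg (by norm_num [hx])]
  have h := Complex.exp_bound (x := (x : ℂ) * Complex.I) (by rw [hn, hx]; norm_num) (n := 12) (by norm_num)
  rw [hn] at h
  have hI2 : Complex.I ^ 2 = -1 := Complex.I_sq
  have hI3 : Complex.I ^ 3 = -Complex.I := by rw [pow_succ, hI2]; ring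
  have hI4 : Complex.I ^ 4 = 1 := Complex.I_pow_four
  have hI5 : Complex.I ^ 5 = Complex.I := by rw [pow_succ, hI4]; ring
  have hI6 : Complex.I ^ 6 = -1 := by rw [pow_succ, hI5, ← pow_two, hI2]
  have hI7 : Complex.I ^ 7 = -Complex.I := by rw [pow_succ, hI6]; ring
  have hI8 : Complex.I ^ 8 = 1 := by rw [pow_succ, hI7, neg_mul, ← pow_two, hI2]; ring
  have hI9 : Complex.I ^ 9 = Complex.I := by rw [pow_succ, hI8]; ring
  have hI10 : Complex.I ^ 10 = -1 := by rw [pow_succ, hI9, ← pow_two, hI2]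
  have hI11 : Complex.I ^ 11 = -Complex.I := by rw [pow_succ, hI10]; ring
  have hs : ∑ m ∈ range 12, ((x : ℂ) * Complex.I) ^ m / (m.factorial : ℂ) =
      ⟨1 - x ^ 2 / 2 + x ^ 4 / 24 - x ^ 6 / 720 + x ^ 8 / 40320 - x ^ 10 / 3628800,
       x - x ^ 3 / 6 + x ^ 5 / 120 - x ^ 7 / 5040 + x ^ 9 / 362880 - x ^ 11 / 39916800⟩ := by
    have e : (⟨1 - x ^ 2 / 2 + x ^ 4 / 24 - x ^ 6 / 720 + x ^ 8 / 40320 - x ^ 10 / 3628800,
       x - x ^ 3 / 6 + x ^ 5 / 120 - x ^ 7 / 5040 + x ^ 9 / 362880 - x ^ 11 / 39916800⟩ : ℂ) =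
      ((1 - x ^ 2 / 2 + x ^ 4 / 24 - x ^ 6 / 720 + x ^ 8 / 40320 - x ^ 10 / 3628800 : ℝ) : ℂ) +
      ((x - x ^ 3 / 6 + x ^ 5 / 120 - x ^ 7 / 5040 + x ^ 9 / 362880 - x ^ 11 / 39916800 : ℝ) : ℂ) * Complex.I := by
      apply Complex.ext <;> simp [-Complex.ofReal_sub, -Complex.ofReal_add]
    rw [e]
    simp only [sum_range_succ, sum_range_zero, mul_pow, hI2, hI3, hI4, hI5, hI6, hI7, hI8, hI9, hI10, hI11]
    norm_num [Nat.factorial]
    ring
  rw [hs] at h
  set T : ℂ := ⟨1 - x ^ 2 / 2 + x ^ 4 / 24 - x ^ 6 / 720 + x ^ 8 / 40320 - x ^ 10 / 3628800,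
       x - x ^ 3 / 6 + x ^ 5 / 120 - x ^ 7 / 5040 + x ^ 9 / 362880 - x ^ 11 / 39916800⟩ with hT
  have hS := na1S_pos
  have hnS : ‖(na1S : ℂ)‖ = (na1S : ℝ) := by
    have : (na1S : ℂ) = ((na1S : ℝ) : ℂ) := by simp
    rw [this, Complex.norm_real, Real.norm_of_nonneg hS.le]
  have h1 : ‖(na1z (1 / 160) - T) * (na1S : ℂ)‖ ≤ 1 / 10 := by
    rw [norm_mul, hnS, hz]
    calc _ ≤ (x ^ 12 * (((12 : ℕ).succ : ℝ) * (((12 : ℕ).factorial : ℝ) * ((12 : ℕ) : ℝ))⁻¹)) * (na1S : ℝ) := by gcongr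
      _ ≤ 1 / 10 := by rw [hx]; norm_num [Nat.factorial, na1S]
  have h2 : ‖T * (na1S : ℂ) - (⟨((1267641687070391660944045987813 : ℤ) : ℝ), ((4753678609403340523878328968 : ℤ) : ℝ)⟩ : ℂ)‖ ≤ 19 / 10 := by
    refine (Complex.norm_le_abs_re_add_abs_im _).trans ?_
    have : (na1S : ℂ) = ((na1S : ℝ) : ℂ) := by simp
    rw [Complex.sub_re, Complex.sub_im, this, Complex.re_mul_ofReal, Complex.im_mul_ofReal, hT]
    simp only
    rw [hx]
    norm_num [na1S, abs_of_nonneg, abs_of_pos]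
  calc _ = ‖(na1z (1 / 160) - T) * (na1S : ℂ) + (T * (na1S : ℂ) - (⟨((1267641687070391660944045987813 : ℤ) : ℝ), ((4753678609403340523878328968 : ℤ) : ℝ)⟩ : ℂ))‖ := by
        congr 1; ring
    _ ≤ 1 / 10 + 19 / 10 := (norm_add_le _ _).trans (add_le_add h1 h2)
    _ = 2 := by norm_num

/-! ### the run -/

noncomputable def na1rho (m : ℕ) : ℝ := Real.exp (7 / 640 - (3 * (m : ℝ) ^ 2 + 3 * m + 1) / 98304000)
noncomputable def na1sig (m : ℕ) : ℝ := Real.exp (-(((m : ℝ) + 1) / 16384000))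

theorem na1_mulpos (x y : ℝ) (a b c d : ℤ) (ha : 0 ≤ a) (hc : 0 ≤ c) (h1 : (a : ℝ) ≤ x * na1S) (h2 : x * na1S ≤ b)
    (h3 : (c : ℝ) ≤ y * na1S) (h4 : y * na1S ≤ d) :
    0 ≤ a * c / na1S ∧ ((a * c / na1S : ℤ) : ℝ) ≤ x * y * na1S ∧ x * y * na1S ≤ ((b * d / na1S + 1 : ℤ) : ℝ) := by
  have hS := na1S_pos
  have ha' : (0 : ℝ) ≤ a := by exact_mod_cast ha
  have hc' : (0 : ℝ) ≤ c := by exact_mod_cast hc
  refine ⟨Int.ediv_nonneg (mul_nonneg ha hc) na1S_pos'.le, ?_, ?_⟩
  · have h5 : ((a * c / na1S : ℤ) : ℝ) * (na1S : ℝ) ≤ ((a * c : ℤ) : ℝ) := by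
      exact_mod_cast Int.ediv_mul_le (a * c) na1S_pos'.ne'
    have h6 : ((a * c : ℤ) : ℝ) ≤ (x * na1S) * (y * na1S) := by
      push_cast
      exact mul_le_mul h1 h3 hc' (ha'.trans h1)
    have h7 : ((a * c / na1S : ℤ) : ℝ) * (na1S : ℝ) ≤ (x * y * na1S) * na1S := by
      refine (h5.trans h6).trans (le_of_eq ?_); ring
    exact le_of_mul_le_mul_right h7 hS
  · have h5 : ((b * d : ℤ) : ℝ) ≤ (((b * d / na1S : ℤ) : ℝ) + 1) * (na1S : ℝ) := by
      exact_mod_cast (Int.lt_ediv_add_one_mul_self (b * d) na1S_pos').le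
    have h6 : (x * na1S) * (y * na1S) ≤ ((b * d : ℤ) : ℝ) := by
      push_cast
      exact mul_le_mul h2 h4 (hc'.trans h3) ((ha'.trans h1).trans h2)
    have h7 : (x * y * na1S) * na1S ≤ (((b * d / na1S : ℤ) : ℝ) + 1) * (na1S : ℝ) := by
      refine le_trans (le_of_eq ?_) (h6.trans h5); ring
    push_cast
    exact le_of_mul_le_mul_right h7 hS

structure na1Inv (m : ℕ) (Gl Gh Rl Rh Vl Vh El Eh C S : ℤ) : Prop where
  g0 : 0 ≤ Gl
  g1 : (Gl : ℝ) ≤ na1G ((m : ℝ) / 160) * na1S
  g2 : na1G ((m : ℝ) / 160) * na1S ≤ Gh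
  r0 : 0 ≤ Rl
  r1 : (Rl : ℝ) ≤ na1rho m * na1S
  r2 : na1rho m * na1S ≤ Rh
  v0 : 0 ≤ Vl
  v1 : (Vl : ℝ) ≤ na1sig m * na1S
  v2 : na1sig m * na1S ≤ Vh
  e0 : 0 ≤ El
  e1 : (El : ℝ) ≤ Real.exp (-(5 / 4) * ((m : ℝ) / 160)) * na1S
  e2 : Real.exp (-(5 / 4) * ((m : ℝ) / 160)) * na1S ≤ Eh
  z1 : ‖na1z ((m : ℝ) / 160) * (na1S : ℂ) - (⟨(C : ℝ), (S : ℝ)⟩ : ℂ)‖ ≤ 5 * m

theorem na1step_spec (m : ℕ) (hm : m ≤ 1680) (Gl Gh Rl Rh Vl Vh El Eh C S : ℤ)
    (h : na1Inv m Gl Gh Rl Rh Vl Vh El Eh C S) :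
    na1Inv (m + 1) (Gl * Rl / na1S) (Gh * Rh / na1S + 1) (Rl * Vl / na1S)
      (Rh * Vh / na1S + 1) (Vl * 1267650522856979307343629420608 / na1S) (Vh * 1267650522856979307343629420609 / na1S + 1)
      (El * 1257785664992813950470626777492 / na1S) (Eh * 1257785664992813950470626777493 / na1S + 1)
      ((C * 1267641687070391660944045987813 - S * 4753678609403340523878328968) / na1S) ((C * 4753678609403340523878328968 + S * 1267641687070391660944045987813) / na1S) := by
  have hmR : (m : ℝ) ≤ 1680 := by exact_mod_cast hm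
  have hm0 : (0 : ℝ) ≤ m := Nat.cast_nonneg m
  have eG : na1G (((m + 1 : ℕ) : ℝ) / 160) = na1G ((m : ℝ) / 160) * na1rho m := by
    simp only [na1G, na1rho]
    rw [← Real.exp_add]
    congr 1
    push_cast
    ring
  have eR : na1rho (m + 1) = na1rho m * na1sig m := by
    simp only [na1rho, na1sig]
    rw [← Real.exp_add]
    congr 1
    push_cast
    ring
  have eV : na1sig (m + 1) = na1sig m * Real.exp (-(1 / 16384000)) := by
    simp only [na1sig]
    rw [← Real.exp_add]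
    congr 1
    push_cast
    ring
  have eE : Real.exp (-(5 / 4) * (((m + 1 : ℕ) : ℝ) / 160)) = Real.exp (-(5 / 4) * ((m : ℝ) / 160)) *
      Real.exp (-(1 / 128)) := by
    rw [← Real.exp_add]
    congr 1
    push_cast
    ring
  have eZ : na1z (((m + 1 : ℕ) : ℝ) / 160) = na1z ((m : ℝ) / 160) * na1z (1 / 160) := by
    simp only [na1z]
    rw [← Complex.exp_add]
    congr 1
    push_cast
    ring
  obtain ⟨p1, p2, p3⟩ := na1_mulpos _ _ Gl Gh Rl Rh h.g0 h.r0 h.g1 h.g2 h.r1 h.r2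
  obtain ⟨q1, q2, q3⟩ := na1_mulpos _ _ Rl Rh Vl Vh h.r0 h.v0 h.r1 h.r2 h.v1 h.v2
  obtain ⟨s1, s2, s3⟩ := na1_mulpos _ _ Vl Vh _ _ h.v0 (by norm_num) h.v1 h.v2 na1_tau.1 na1_tau.2
  obtain ⟨t1, t2, t3⟩ := na1_mulpos _ _ El Eh _ _ h.e0 (by norm_num) h.e1 h.e2 na1_eps.1 na1_eps.2
  refine ⟨p1, ?_, ?_, q1, ?_, ?_, s1, ?_, ?_, t1, ?_, ?_, ?_⟩
  · rw [eG]; exact p2
  · rw [eG]; exact p3
  · rw [eR]; exact q2
  · rw [eR]; exact q3
  · rw [eV]; exact s2
  · rw [eV]; exact s3
  · rw [eE]; exact t2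
  · rw [eE]; exact t3
  · rw [eZ]
    have := na1_cmul _ _ (na1_z_norm _) (na1_z_norm _) C S _ _ (5 * m) 2 (by positivity) (by norm_num)
      (by linarith) (by norm_num) h.z1 na1_kap
    refine this.trans ?_
    push_cast
    linarith

/-- the bound on `[a, b]`, in units of `1 / 160` -/
def na1OK (a b : ℕ) : Prop := ∀ w : ℝ, (a : ℝ) / 160 ≤ w → w < (b : ℝ) / 160 → |na1F 0 w| ≤ 4 / 10000

theorem na1run_spec (n : ℕ) : ∀ (m : ℕ) (Gl Gh Rl Rh Vl Vh El Eh C S : ℤ)
    (k : ℤ → ℤ → ℤ → ℤ → ℤ → ℤ → ℤ → ℤ → ℤ → ℤ → Bool), m + 2 * n ≤ 1680 →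
    na1Inv m Gl Gh Rl Rh Vl Vh El Eh C S → na1run n ((m + 1 : ℕ) : ℤ) Gl Gh Rl Rh Vl Vh El Eh C S k = true →
    na1OK m (m + 2 * n) ∧ ∃ Gl' Gh' Rl' Rh' Vl' Vh' El' Eh' C' S', na1Inv (m + 2 * n) Gl' Gh' Rl' Rh' Vl' Vh' El' Eh' C' S' ∧
      k Gl' Gh' Rl' Rh' Vl' Vh' El' Eh' C' S' = true := by
  induction n with
  | zero =>
    intro m Gl Gh Rl Rh Vl Vh El Eh C S k hm hi hr
    refine ⟨?_, Gl, Gh, Rl, Rh, Vl, Vh, El, Eh, C, S, hi, hr⟩
    intro w h1 h2
    simp only [mul_zero, add_zero] at h2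
    exact absurd h2 (not_lt.2 h1)
  | succ n ih =>
    intro m Gl Gh Rl Rh Vl Vh El Eh C S k hm hi hr
    change na1step Gl Gh Rl Rh Vl Vh El Eh C S (fun Gl Gh Rl Rh Vl Vh El Eh C S =>
        Bool.rec (motive := fun _ => Bool) false
          (na1step Gl Gh Rl Rh Vl Vh El Eh C S fun Gl Gh Rl Rh Vl Vh El Eh C S =>
            na1fZ (Int.add ((m + 1 : ℕ) : ℤ) 2) fun j => na1run n j Gl Gh Rl Rh Vl Vh El Eh C S k)
          (na1chk ((m + 1 : ℕ) : ℤ) Gl (Int.sub Gh Gl) El (Int.sub Eh El) 131072 C S)) = true at hr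
    rw [na1step_eq] at hr
    have hi1 := na1step_spec m (by omega) _ _ _ _ _ _ _ _ _ _ hi
    revert hr hi1
    generalize Gl * Rl / na1S = Gl
    generalize Gh * Rh / na1S + 1 = Gh
    generalize Rl * Vl / na1S = Rl
    generalize Rh * Vh / na1S + 1 = Rh
    generalize Vl * 1267650522856979307343629420608 / na1S = Vl
    generalize Vh * 1267650522856979307343629420609 / na1S + 1 = Vh
    generalize El * 1257785664992813950470626777492 / na1S = El
    generalize Eh * 1257785664992813950470626777493 / na1S + 1 = Eh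
    generalize (C * 1267641687070391660944045987813 - S * 4753678609403340523878328968) / na1S = C'
    generalize (C * 4753678609403340523878328968 + S * 1267641687070391660944045987813) / na1S = S'
    intro hr hi1
    have hcell : na1chk ((m + 1 : ℕ) : ℤ) Gl (Int.sub Gh Gl) El (Int.sub Eh El) 131072 C' S' = true := by
      revert hr
      cases na1chk ((m + 1 : ℕ) : ℤ) Gl (Int.sub Gh Gl) El (Int.sub Eh El) 131072 C' S' with
      | false => intro hr; exact hr
      | true => intro _; rfl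
    rw [hcell] at hr
    change na1step Gl Gh Rl Rh Vl Vh El Eh C' S' (fun Gl Gh Rl Rh Vl Vh El Eh C S =>
            na1fZ (Int.add ((m + 1 : ℕ) : ℤ) 2) fun j => na1run n j Gl Gh Rl Rh Vl Vh El Eh C S k) = true at hr
    rw [na1step_eq, na1fZ_eq] at hr
    have hi2 := na1step_spec (m + 1) (by omega) _ _ _ _ _ _ _ _ _ _ hi1
    have e2 : Int.add ((m + 1 : ℕ) : ℤ) 2 = ((m + 2 + 1 : ℕ) : ℤ) := by
      change ((m + 1 : ℕ) : ℤ) + 2 = _
      push_cast; ring
    rw [e2] at hr
    obtain ⟨h3, h4⟩ := ih (m + 2) _ _ _ _ _ _ _ _ _ _ k (by omega) hi2 hr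
    have e3 : m + 2 + 2 * n = m + 2 * (n + 1) := by ring
    rw [e3] at h3 h4
    refine ⟨?_, h4⟩
    intro w h5 h6
    rcases lt_or_ge w (((m + 2 : ℕ) : ℝ) / 160) with h7 | h7
    · have hm2 : (m : ℝ) + 2 ≤ 1680 := by
        have : m + 2 ≤ 1680 := by omega
        exact_mod_cast this
      have hm0 : (0 : ℝ) ≤ m := Nat.cast_nonneg m
      have h8 := na1chk_spec (m + 1) (by omega) Gl Gh El Eh C' S' hi1.e0 hi1.g1 hi1.g2 hi1.e1 hi1.e2 hi1.z1 hcell
      have h9 := na1_cell (((m + 1 : ℕ) : ℝ) / 160) (1 / 160) (by norm_num) (by push_cast; linarith)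
        (by push_cast; linarith) w (by
          push_cast at h7 ⊢
          rw [abs_le]
          constructor <;> linarith)
      refine h9.trans ?_
      have h10 : (600000000 : ℝ) * (1 / 160) ^ 6 / 720 ≤ 1 / 1000000 := by norm_num
      linarith
    · exact h3 w h7 h6

theorem na1_inv0 : na1Inv 0 na1S na1S 1281591616657195144704438160103 1281591616657195144704438160104 1267650522856979307343629420608 1267650522856979307343629420609 na1S na1S na1S 0 := by
  have h1 := na1_rho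
  have h2 := na1_tau
  have eG : na1G (((0 : ℕ) : ℝ) / 160) = 1 := by simp [na1G]
  have eE : Real.exp (-(5 / 4) * (((0 : ℕ) : ℝ) / 160)) = 1 := by simp
  have eR : na1rho 0 = Real.exp (7 / 640 - 1 / 98304000) := by simp only [na1rho]; norm_num
  have eV : na1sig 0 = Real.exp (-(1 / 16384000)) := by simp only [na1sig]; norm_num
  refine ⟨na1S_pos'.le, ?_, ?_, by norm_num, ?_, ?_, by norm_num, ?_, ?_, na1S_pos'.le, ?_, ?_, ?_⟩
  · rw [eG, one_mul]
  · rw [eG, one_mul]
  · rw [eR]; exact h1.1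
  · rw [eR]; exact h1.2
  · rw [eV]; exact h2.1
  · rw [eV]; exact h2.2
  · rw [eE, one_mul]
  · rw [eE, one_mul]
  · have : ((⟨(na1S : ℝ), ((0 : ℤ) : ℝ)⟩ : ℂ)) = (na1S : ℂ) := by
      apply Complex.ext <;> simp
    rw [this]
    simp [na1z]

theorem na1_run0 : na1run 105 1 1267650600228229401496703205376 1267650600228229401496703205376 1281591616657195144704438160103 1281591616657195144704438160104 1267650522856979307343629420608 1267650522856979307343629420609 1267650600228229401496703205376 1267650600228229401496703205376 1267650600228229401496703205376 0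
    (na1fin 11471119198099222370280034269223 11471119198099222370280062205995 1279859776234763861611630051831 1279859776234763861611630096574 1267634274999083113368323003311 1267634274999083113368323003732 245745278236323120120401821133 245745278236323120120401821273 894478345672671248614922818039 898246365637886407868879605507) = true := by
  decide +kernel

theorem na1_run1 : na1run 105 211 11471119198099222370280034269223 11471119198099222370280062205995 1279859776234763861611630051831 1279859776234763861611630096574 1267634274999083113368323003311 1267634274999083113368323003732 245745278236323120120401821133 245745278236323120120401821273 894478345672671248614922818039 898246365637886407868879605507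
    (na1fin 58983229444593310142536601809612 58983229444593310142537750944764 1274694622090073208836235740806 1274694622090073208836235918610 1267618027349440599295215860212 1267618027349440599295215861053 47639895223948177033286895535 47639895223948177033286895673 (-5328773167572027470032673820) 1267639400001245953669002800616) = true := by
  decide +kernel

theorem na1_run2 : na1run 105 421 58983229444593310142536601809612 58983229444593310142537750944764 1274694622090073208836235740806 1274694622090073208836235918610 1267618027349440599295215860212 1267618027349440599295215861053 47639895223948177033286895535 47639895223948177033286895673 (-5328773167572027470032673820) 1267639400001245953669002800616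
    (na1fin 97922920827614825106458960987344 97922920827614825106465399610749 1266137722269959606600439850715 1266137722269959606600440247776 1267601779908049095874277009269 1267601779908049095874277010530 9235414951762443434457664302 9235414951762443434457664434 (-901998512833143677965424989254) 890694519521585141786272509340) = true := by
  decide +kernel

theorem na1_run3 : na1run 105 631 97922920827614825106458960987344 97922920827614825106465399610749 1266137722269959606600439850715 1266137722269959606600440247776 1267601779908049095874277009269 1267601779908049095874277010530 9235414951762443434457664302 9235414951762443434457664434 (-901998512833143677965424989254) 890694519521585141786272509340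
    (na1fin 29825638953461497724678327879311 29825638953461497724682976377319 1254257693251667309315622574334 1254257693251667309315623273319 1267585532674905933889688048644 1267585532674905933889688050325 1790366853879251880010775209 1790366853879251880010775338 (-1267605799518213055983927535644) (-10657452171233259066993702259)) = true := by
  decide +kernel

theorem na1_run4 : na1run 105 841 29825638953461497724678327879311 29825638953461497724682976377319 1254257693251667309315622574334 1254257693251667309315623273319 1267585532674905933889688048644 1267585532674905933889688050325 1790366853879251880010775209 1790366853879251880010775338 (-1267605799518213055983927535644) (-10657452171233259066993702259)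
    (na1fin 947024615676563553105535712588 947024615676563553105823993564 1239149283729752238212066322845 1239149283729752238212067401616 1267569285650008444159842718187 1267569285650008444159842720288 347078446199949502414579135 347078446199949502414579264 (-886894954048023648336482044476) (-905734720954841333598948822974)) = true := by
  decide +kernel

theorem na1_run5 : na1run 105 1051 947024615676563553105535712588 947024615676563553105823993564 1239149283729752238212066322845 1239149283729752238212067401616 1267569285650008444159842718187 1267569285650008444159842720288 347078446199949502414579135 347078446199949502414579264 (-886894954048023648336482044476) (-905734720954841333598948822974)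
    (na1fin 1781211217257897770800376447 1781211217257897770801313429 1220932116353520482742271222637 1220932116353520482742272753015 1267553038833353957537346460966 1267553038833353957537346463487 67284225886755433070470894 67284225886755433070471023 15985942848736854544658505667 (-1267549799372879548467563596844)) = true := by
  decide +kernel

theorem na1_run6 : na1run 105 1261 1781211217257897770800376447 1781211217257897770801313429 1220932116353520482742271222637 1220932116353520482742272753015 1267553038833353957537346460966 1267553038833353957537346463487 67284225886755433070470894 67284225886755433070471023 15985942848736854544658505667 (-1267549799372879548467563596844)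
    (na1fin 112763551705073982026031 112763551705073982026142 1199749110786733296190869465327 1199749110786733296190871511997 1267536792224939804909015984722 1267536792224939804909015987663 13043642158556455517926343 13043642158556455517926472 909454923981034506237170358893 (-883079716393509416065075913742)) = true := by
  decide +kernel

theorem na1_run7 : na1run 105 1471 112763551705073982026031 112763551705073982026142 1199749110786733296190869465327 1199749110786733296190871511997 1267536792224939804909015984722 1267536792224939804909015987663 13043642158556455517926343 13043642158556455517926472 909454923981034506237170358893 (-883079716393509416065075913742)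
    (na1fin 136533043340480911 136533043340480925 1175764617163433578687738591171 1175764617163433578687741210741 1267520545824763317195878823380 1267520545824763317195878826741 2528625372711048136740702 2528625372711048136740831 1267471400554815173331883872923 21314151041163855506999005840) = true := by
  decide +kernel

theorem na1_link (n m : ℕ) (a1 a2 a3 a4 a5 a6 a7 a8 a9 a10 b1 b2 b3 b4 b5 b6 b7 b8 b9 b10 : ℤ)
    (hm : m + 2 * n ≤ 1680) (hi : na1Inv m a1 a2 a3 a4 a5 a6 a7 a8 a9 a10)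
    (hr : na1run n ((m + 1 : ℕ) : ℤ) a1 a2 a3 a4 a5 a6 a7 a8 a9 a10 (na1fin b1 b2 b3 b4 b5 b6 b7 b8 b9 b10) = true) :
    na1OK m (m + 2 * n) ∧ na1Inv (m + 2 * n) b1 b2 b3 b4 b5 b6 b7 b8 b9 b10 := by
  obtain ⟨h1, c1, c2, c3, c4, c5, c6, c7, c8, c9, c10, h2, h3⟩ := na1run_spec n m _ _ _ _ _ _ _ _ _ _ _ hm hi hr
  simp only [na1fin, decide_eq_true_eq] at h3
  obtain ⟨e1, e2, e3, e4, e5, e6, e7, e8, e9, e10⟩ := h3
  subst e1 e2 e3 e4 e5 e6 e7 e8 e9 e10
  exact ⟨h1, h2⟩

theorem na1OK_trans {a b c : ℕ} (h1 : na1OK a b) (h2 : na1OK b c) : na1OK a c := by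
  intro w h3 h4
  rcases lt_or_ge w ((b : ℝ) / 160) with h | h
  · exact h1 w h3 h
  · exact h2 w h h4

theorem na1_all : na1OK 0 1680 := by
  obtain ⟨k0, i1⟩ := na1_link 105 0 _ _ _ _ _ _ _ _ _ _ _ _ _ _ _ _ _ _ _ _ (by norm_num) na1_inv0 na1_run0
  obtain ⟨k1, i2⟩ := na1_link 105 210 _ _ _ _ _ _ _ _ _ _ _ _ _ _ _ _ _ _ _ _ (by norm_num) i1 na1_run1
  obtain ⟨k2, i3⟩ := na1_link 105 420 _ _ _ _ _ _ _ _ _ _ _ _ _ _ _ _ _ _ _ _ (by norm_num) i2 na1_run2
  obtain ⟨k3, i4⟩ := na1_link 105 630 _ _ _ _ _ _ _ _ _ _ _ _ _ _ _ _ _ _ _ _ (by norm_num) i3 na1_run3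
  obtain ⟨k4, i5⟩ := na1_link 105 840 _ _ _ _ _ _ _ _ _ _ _ _ _ _ _ _ _ _ _ _ (by norm_num) i4 na1_run4
  obtain ⟨k5, i6⟩ := na1_link 105 1050 _ _ _ _ _ _ _ _ _ _ _ _ _ _ _ _ _ _ _ _ (by norm_num) i5 na1_run5
  obtain ⟨k6, i7⟩ := na1_link 105 1260 _ _ _ _ _ _ _ _ _ _ _ _ _ _ _ _ _ _ _ _ (by norm_num) i6 na1_run6
  obtain ⟨k7, _⟩ := na1_link 105 1470 _ _ _ _ _ _ _ _ _ _ _ _ _ _ _ _ _ _ _ _ (by norm_num) i7 na1_run7
  exact na1OK_trans k0 (na1OK_trans k1 (na1OK_trans k2 (na1OK_trans k3 (na1OK_trans k4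
    (na1OK_trans k5 (na1OK_trans k6 k7))))))

theorem na1_small (w : ℝ) (hw : 0 ≤ w) (hw2 : w < 21 / 2) : |na1F 0 w| ≤ 4 / 10000 :=
  na1_all w (by simpa using hw) (by norm_num; linarith)

theorem na1_period (w : ℝ) (n : ℤ) : na1K 0 (w + n * (10 * Real.pi / 3)) =
    ((Real.exp (-(5 / 4) * (n * (10 * Real.pi / 3))) : ℝ) : ℂ) * na1K 0 w := by
  unfold na1K
  rw [mul_sum]
  refine sum_congr rfl fun j _ => ?_
  have h1 : Complex.exp (na1m j * ((w + n * (10 * Real.pi / 3) : ℝ) : ℂ)) =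
      ((Real.exp (-(5 / 4) * (n * (10 * Real.pi / 3))) : ℝ) : ℂ) * Complex.exp (na1m j * (w : ℂ)) := by
    have h2 : na1m j * ((w + n * (10 * Real.pi / 3) : ℝ) : ℂ) = (((-(5 / 4) * (n * (10 * Real.pi / 3)) : ℝ)) : ℂ) +
        na1m j * (w : ℂ) + ((j * n : ℤ) : ℂ) * (2 * Real.pi * Complex.I) := by
      apply Complex.ext
      · simp [na1m]; ring
      · simp [na1m]; ring
    rw [h2, Complex.exp_add, Complex.exp_int_mul_two_pi_mul_I, mul_one, Complex.exp_add, Complex.ofReal_exp]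
  rw [h1]; ring

theorem na1_main (w : ℝ) (hw : 0 ≤ w) : |na1F 0 w| ≤ 4 / 10000 := by
  rcases lt_or_ge w (21 / 2) with h | h
  · exact na1_small w hw h
  set P : ℝ := 10 * Real.pi / 3 with hP
  have hpi1 := Real.pi_gt_d2
  have hpi2 := Real.pi_lt_d2
  have hP1 : 1046 / 100 ≤ P := by rw [hP]; linarith
  have hP2 : P < 21 / 2 := by rw [hP]; linarith
  have hP0 : 0 < P := by linarith
  set n : ℤ := ⌊w / P⌋ with hn
  set w0 : ℝ := w - n * P with hw0
  have hn1 : (1 : ℝ) ≤ n := by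
    have : (1 : ℤ) ≤ n := by
      rw [hn, Int.le_floor, le_div_iff₀ hP0]
      push_cast; linarith
    exact_mod_cast this
  have h1 : 0 ≤ w0 := by
    have := Int.floor_le (w / P)
    rw [← hn, le_div_iff₀ hP0] at this
    linarith
  have h2 : w0 < P := by
    have := Int.lt_floor_add_one (w / P)
    rw [← hn, div_lt_iff₀ hP0] at this
    linarith
  have hs := na1_small w0 h1 (by linarith)
  have hG := na1_G_le w0 h1
  have hG0 : 0 ≤ na1G w0 := (Real.exp_pos _).le
  have hww : w = w0 + n * P := by rw [hw0]; ring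
  have hK : (na1K 0 w).re = Real.exp (-(5 / 4) * (n * P)) * (na1K 0 w0).re := by
    rw [hww, na1_period, Complex.re_ofReal_mul]
  have he : Real.exp (-(5 / 4) * (n * P)) ≤ Real.exp (-13) := by
    apply Real.exp_le_exp.2
    nlinarith
  have he13 : Real.exp (-13) ≤ 1 / 440000 := by
    rw [Real.exp_neg, one_div]
    apply inv_anti₀ (by norm_num)
    have h3 := Real.exp_one_gt_d9
    have h4 : Real.exp 13 = Real.exp 1 ^ 13 := by rw [← Real.exp_nat_mul]; norm_num
    rw [h4]
    calc (440000 : ℝ) ≤ (2.7182818283 : ℝ) ^ 13 := by norm_num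
      _ ≤ Real.exp 1 ^ 13 := by gcongr
  have hGw : na1G w ≤ 1 / 440000 := by
    refine le_trans ?_ he13
    apply Real.exp_le_exp.2
    nlinarith [mul_self_nonneg (w - 21 / 2), mul_nonneg (by linarith : (0 : ℝ) ≤ w - 21 / 2) (mul_self_nonneg (w - 21 / 2)),
      mul_nonneg (by linarith : (0 : ℝ) ≤ w - 21 / 2) (by linarith : (0 : ℝ) ≤ w)]
  have hGw0 : 0 ≤ na1G w := (Real.exp_pos _).le
  have hK0 : |(na1K 0 w0).re / (2 ^ 30 * 20 ^ 0)| ≤ 150 := by
    have e1 : (na1K 0 w0).re / (2 ^ 30 * 20 ^ 0) = 1 * na1G w0 - na1F 0 w0 := by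
      simp only [na1F, na1p]; ring
    rw [e1]
    refine (abs_sub _ _).trans ?_
    rw [one_mul, abs_of_nonneg hG0]
    linarith
  have h5 : |(na1K 0 w).re / (2 ^ 30 * 20 ^ 0)| ≤ 150 / 440000 := by
    rw [hK, mul_div_assoc, abs_mul, abs_of_pos (Real.exp_pos _)]
    calc _ ≤ (1 / 440000 : ℝ) * 150 := by
          gcongr
          exact he.trans he13
      _ = _ := by norm_num
  have h6 : na1F 0 w = na1G w - (na1K 0 w).re / (2 ^ 30 * 20 ^ 0) := by
    simp only [na1F, na1p]; ring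
  rw [h6]
  refine (abs_sub _ _).trans ?_
  rw [abs_of_nonneg hGw0]
  linarith

theorem na_fit0 (w : ℝ) (hw : 0 ≤ w) :
    ‖((Real.exp (-(w ^ 3) / 24) : ℝ) : ℂ) - nsf 0 w‖ * Real.exp (7 / 4 * w) ≤ 4 / 10000 := by
  rw [na1_abs]
  exact na1_main w hw

end MP_d1b55a
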