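import Pool.Agent.Lib.MP_d1b55a_co.NA0

/-!
MP_d1b55a_co, near arc: the expansion of `log (sinc z)` up to `z^8`.
-/

open Finset

namespace MP_d1b55a

/-- the Taylor polynomial of `1 - sinc z` in `X = z^2` -/
noncomputable def nls4 (X : ℝ) : ℝ := X / 6 - X ^ 2 / 120 + X ^ 3 / 5040 - X ^ 4 / 362880

/-- the remainder polynomial -/
noncomputable def nlsR (X : ℝ) : ℝ :=
    (23/10886400) + (2419/13716864000) * X ^ 1 + (-13583/27433728000) * X ^ 2 +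
    (694823/6584094720000) * X ^ 3 + (-561413/46088663040000) * X ^ 4 +
    (6690359/6913299456000000) * X ^ 5 + (-1449389/24887878041600000) * X ^ 6 +
    (174993563/62717452664832000000) * X ^ 7 + (-27485621/250869810659328000000) * X ^ 8 +
    (10800691/3010437727911936000000) * X ^ 9 + (-37535347/379315153716903936000000) * X ^ 10 +
    (5605163/2427616983788185190400000) * X ^ 11 +
    (-829421/18207127378411388928000000) * X ^ 12 +
    (578101/764699349893278334976000000) * X ^ 13 +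
    (-15961/1529398699786556669952000000) * X ^ 14 +
    (12949/110116706384632080236544000000) * X ^ 15 +
    (-277/264280095323116992567705600000) * X ^ 16 +
    (37/5285601906462339851354112000000) * X ^ 17 +
    (-1/31713611438774039108124672000000) * X ^ 18 +
    (1/13700280141550384894709858304000000) * X ^ 19

theorem nls_sum (X : ℝ) : ∑ i ∈ range 6, nls4 X ^ (i + 1) / ((i : ℝ) + 1) =
    X / 6 + X ^ 2 / 180 + X ^ 3 / 2835 + X ^ 4 / 37800 + X ^ 5 * nlsR X := by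
  simp only [sum_range_succ, sum_range_zero, nls4, nlsR]
  push_cast
  ring

theorem nlsR_le (X : ℝ) (h0 : 0 ≤ X) (h1 : X ≤ 29 / 50) : |nlsR X| ≤ 25 / 10 ^ 7 := by
  have h2 : X ^ 2 ≤ (29 / 50) ^ 2 := pow_le_pow_left₀ h0 h1 2
  have g2 : 0 ≤ X ^ 2 := pow_nonneg h0 2
  have h3 : X ^ 3 ≤ (29 / 50) ^ 3 := pow_le_pow_left₀ h0 h1 3
  have g3 : 0 ≤ X ^ 3 := pow_nonneg h0 3
  have h4 : X ^ 4 ≤ (29 / 50) ^ 4 := pow_le_pow_left₀ h0 h1 4
  have g4 : 0 ≤ X ^ 4 := pow_nonneg h0 4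
  have h5 : X ^ 5 ≤ (29 / 50) ^ 5 := pow_le_pow_left₀ h0 h1 5
  have g5 : 0 ≤ X ^ 5 := pow_nonneg h0 5
  have h6 : X ^ 6 ≤ (29 / 50) ^ 6 := pow_le_pow_left₀ h0 h1 6
  have g6 : 0 ≤ X ^ 6 := pow_nonneg h0 6
  have h7 : X ^ 7 ≤ (29 / 50) ^ 7 := pow_le_pow_left₀ h0 h1 7
  have g7 : 0 ≤ X ^ 7 := pow_nonneg h0 7
  have h8 : X ^ 8 ≤ (29 / 50) ^ 8 := pow_le_pow_left₀ h0 h1 8
  have g8 : 0 ≤ X ^ 8 := pow_nonneg h0 8
  have h9 : X ^ 9 ≤ (29 / 50) ^ 9 := pow_le_pow_left₀ h0 h1 9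
  have g9 : 0 ≤ X ^ 9 := pow_nonneg h0 9
  have h10 : X ^ 10 ≤ (29 / 50) ^ 10 := pow_le_pow_left₀ h0 h1 10
  have g10 : 0 ≤ X ^ 10 := pow_nonneg h0 10
  have h11 : X ^ 11 ≤ (29 / 50) ^ 11 := pow_le_pow_left₀ h0 h1 11
  have g11 : 0 ≤ X ^ 11 := pow_nonneg h0 11
  have h12 : X ^ 12 ≤ (29 / 50) ^ 12 := pow_le_pow_left₀ h0 h1 12
  have g12 : 0 ≤ X ^ 12 := pow_nonneg h0 12
  have h13 : X ^ 13 ≤ (29 / 50) ^ 13 := pow_le_pow_left₀ h0 h1 13
  have g13 : 0 ≤ X ^ 13 := pow_nonneg h0 13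
  have h14 : X ^ 14 ≤ (29 / 50) ^ 14 := pow_le_pow_left₀ h0 h1 14
  have g14 : 0 ≤ X ^ 14 := pow_nonneg h0 14
  have h15 : X ^ 15 ≤ (29 / 50) ^ 15 := pow_le_pow_left₀ h0 h1 15
  have g15 : 0 ≤ X ^ 15 := pow_nonneg h0 15
  have h16 : X ^ 16 ≤ (29 / 50) ^ 16 := pow_le_pow_left₀ h0 h1 16
  have g16 : 0 ≤ X ^ 16 := pow_nonneg h0 16
  have h17 : X ^ 17 ≤ (29 / 50) ^ 17 := pow_le_pow_left₀ h0 h1 17
  have g17 : 0 ≤ X ^ 17 := pow_nonneg h0 17
  have h18 : X ^ 18 ≤ (29 / 50) ^ 18 := pow_le_pow_left₀ h0 h1 18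
  have g18 : 0 ≤ X ^ 18 := pow_nonneg h0 18
  have h19 : X ^ 19 ≤ (29 / 50) ^ 19 := pow_le_pow_left₀ h0 h1 19
  have g19 : 0 ≤ X ^ 19 := pow_nonneg h0 19
  norm_num at h2 h3 h4 h5 h6 h7 h8 h9 h10 h11 h12 h13 h14 h15 h16 h17 h18 h19
  unfold nlsR
  rw [abs_le]
  constructor <;> linarith

/-- Taylor bound of the sine -/
theorem nls_sin (z : ℝ) (h0 : 0 ≤ z) (h1 : z ≤ 1) :
    |Real.sin z - (z - z ^ 3 / 6 + z ^ 5 / 120 - z ^ 7 / 5040 + z ^ 9 / 362880)| ≤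
      z ^ 11 * (28 / 10 ^ 9) := by
  have hn : ‖((z : ℂ) * Complex.I)‖ = z := by
    rw [norm_mul, Complex.norm_I, mul_one, Complex.norm_real, Real.norm_of_nonneg h0]
  have h := Complex.exp_bound (x := (z : ℂ) * Complex.I) (by rw [hn]; exact h1)
    (show 0 < 11 by norm_num)
  rw [hn] at h
  have e : ∑ m ∈ range 11, ((z : ℂ) * Complex.I) ^ m / (m.factorial : ℂ) =
      (((1 - z ^ 2 / 2 + z ^ 4 / 24 - z ^ 6 / 720 + z ^ 8 / 40320 - z ^ 10 / 3628800 : ℝ)) : ℂ) +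
      (((z - z ^ 3 / 6 + z ^ 5 / 120 - z ^ 7 / 5040 + z ^ 9 / 362880 : ℝ)) : ℂ) * Complex.I := by
    have i2 : Complex.I ^ 2 = -1 := Complex.I_sq
    have i3 : Complex.I ^ 3 = -Complex.I := by rw [pow_succ, i2]; ring
    have i4 : Complex.I ^ 4 = 1 := by rw [pow_succ, i3]; linear_combination -i2
    have i5 : Complex.I ^ 5 = Complex.I := by rw [pow_succ, i4]; ring
    have i6 : Complex.I ^ 6 = -1 := by rw [pow_succ, i5]; linear_combination i2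
    have i7 : Complex.I ^ 7 = -Complex.I := by rw [pow_succ, i6]; ring
    have i8 : Complex.I ^ 8 = 1 := by rw [pow_succ, i7]; linear_combination -i2
    have i9 : Complex.I ^ 9 = Complex.I := by rw [pow_succ, i8]; ring
    have i10 : Complex.I ^ 10 = -1 := by rw [pow_succ, i9]; linear_combination i2
    simp only [sum_range_succ, sum_range_zero, mul_pow, i2, i3, i4, i5, i6, i7, i8, i9, i10,
      Nat.factorial]
    push_cast
    ring
  rw [e] at h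
  have h2 := Complex.abs_im_le_norm (Complex.exp ((z : ℂ) * Complex.I) -
    ((((1 - z ^ 2 / 2 + z ^ 4 / 24 - z ^ 6 / 720 + z ^ 8 / 40320 - z ^ 10 / 3628800 : ℝ)) : ℂ) +
      (((z - z ^ 3 / 6 + z ^ 5 / 120 - z ^ 7 / 5040 + z ^ 9 / 362880 : ℝ)) : ℂ) * Complex.I))
  rw [Complex.sub_im, Complex.exp_ofReal_mul_I_im, Complex.add_im, Complex.ofReal_im,
    Complex.im_ofReal_mul, Complex.I_im, mul_one, zero_add] at h2
  refine (h2.trans h).trans ?_
  apply mul_le_mul_of_nonneg_left _ (pow_nonneg h0 11)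
  norm_num [Nat.factorial]

theorem nls_log (z : ℝ) (h0 : 0 < z) (h1 : z ≤ 19 / 25) :
    |Real.log (Real.sinc z) + (z ^ 2 / 6 + z ^ 4 / 180 + z ^ 6 / 2835 + z ^ 8 / 37800)| ≤
      5 / 10 ^ 6 * z ^ 10 := by
  have hs := nls_sin z h0.le (by linarith)
  have hsc : Real.sinc z = Real.sin z / z := Real.sinc_of_ne_zero h0.ne'
  set X := z ^ 2 with hX
  have hX0 : 0 < X := by positivity
  have hX1 : X ≤ 29 / 50 := by
    have : z ^ 2 ≤ (19 / 25) ^ 2 := pow_le_pow_left₀ h0.le h1 2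
    norm_num at this
    linarith
  set y := 1 - Real.sinc z with hy
  have hd : |y - nls4 X| ≤ X ^ 5 * (28 / 10 ^ 9) := by
    have e1 : z * (y - nls4 X) =
        -(Real.sin z - (z - z ^ 3 / 6 + z ^ 5 / 120 - z ^ 7 / 5040 + z ^ 9 / 362880)) := by
      rw [hy, hsc, hX]
      unfold nls4
      field_simp
      ring
    have e2 : |z * (y - nls4 X)| ≤ z ^ 11 * (28 / 10 ^ 9) := by rw [e1, abs_neg]; exact hs
    rw [abs_mul, abs_of_pos h0] at e2
    have e3 : z ^ 11 * (28 / 10 ^ 9) = z * (X ^ 5 * (28 / 10 ^ 9)) := by rw [hX]; ring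
    rw [e3] at e2
    exact le_of_mul_le_mul_left e2 h0
  have hX5 : X ^ 5 ≤ X ^ 2 * (29 / 50) ^ 3 := by
    have : X ^ 3 ≤ (29 / 50) ^ 3 := pow_le_pow_left₀ hX0.le hX1 3
    calc X ^ 5 = X ^ 2 * X ^ 3 := by ring
      _ ≤ _ := mul_le_mul_of_nonneg_left this (by positivity)
  have hX3 : X ^ 3 ≤ X ^ 2 * (29 / 50) := by
    calc X ^ 3 = X ^ 2 * X := by ring
      _ ≤ _ := mul_le_mul_of_nonneg_left hX1 (by positivity)
  have hX4 : 0 < X ^ 4 := by positivity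
  have hX2 : 0 < X ^ 2 := by positivity
  have hX2' : X ^ 2 ≤ X * (29 / 50) := by nlinarith
  have hX4' : X ^ 4 ≤ X ^ 2 * (29 / 50) ^ 2 := by
    have : X ^ 2 ≤ (29 / 50) ^ 2 := pow_le_pow_left₀ hX0.le hX1 2
    calc X ^ 4 = X ^ 2 * X ^ 2 := by ring
      _ ≤ _ := mul_le_mul_of_nonneg_left this (by positivity)
  rw [abs_le] at hd
  have hy6 : y ≤ X / 6 := by
    have := hd.2
    unfold nls4 at this
    norm_num at hX5 hX3 hX4' this
    linarith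
  have hy0 : 0 ≤ y := by
    have := hd.1
    unfold nls4 at this
    norm_num at hX5 hX3 hX4' hX2' this
    have : 0 < X ^ 3 := by positivity
    linarith
  have h46 : nls4 X ≤ X / 6 := by
    unfold nls4
    norm_num at hX5 hX3 hX4'
    linarith
  have h40 : 0 ≤ nls4 X := by
    unfold nls4
    norm_num at hX5 hX3 hX4' hX2'
    have : 0 < X ^ 3 := by positivity
    linarith
  have hy1 : y ≤ 1 / 10 := by linarith
  have h41 : nls4 X ≤ 1 / 10 := by linarith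
  have hyabs : |y| = y := abs_of_nonneg hy0
  have hlog := Real.abs_log_sub_add_sum_range_le (x := y) (by rw [hyabs]; linarith) 6
  have hsy : 1 - y = Real.sinc z := by rw [hy]; ring
  rw [hsy, hyabs] at hlog
  have hlog2 : |(∑ i ∈ range 6, y ^ (i + 1) / ((i : ℝ) + 1)) + Real.log (Real.sinc z)| ≤
      14 / 10 ^ 7 * X ^ 5 := by
    refine hlog.trans ?_
    have hsp : 0 < 1 - y := by linarith
    have e1 : y ^ (6 + 1) ≤ (X / 6) ^ 7 := pow_le_pow_left₀ hy0 hy6 7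
    have e2 : X ^ 7 ≤ X ^ 5 * (29 / 50) ^ 2 := by
      have : X ^ 2 ≤ (29 / 50) ^ 2 := pow_le_pow_left₀ hX0.le hX1 2
      calc X ^ 7 = X ^ 5 * X ^ 2 := by ring
        _ ≤ _ := mul_le_mul_of_nonneg_left this (by positivity)
    rw [div_le_iff₀ hsp, hsy]
    have e3 : (X / 6) ^ 7 = X ^ 7 / 279936 := by ring
    rw [e3] at e1
    have e4 : 9 / 10 ≤ Real.sinc z := by rw [← hsy]; linarith
    have e5 : 14 / 10 ^ 7 * X ^ 5 * (9 / 10) ≤ 14 / 10 ^ 7 * X ^ 5 * Real.sinc z :=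
      mul_le_mul_of_nonneg_left e4 (by positivity)
    norm_num at e2 e5 e1 ⊢
    have : 0 < X ^ 5 := by positivity
    linarith
  have hdiff : |(∑ i ∈ range 6, y ^ (i + 1) / ((i : ℝ) + 1)) -
      ∑ i ∈ range 6, nls4 X ^ (i + 1) / ((i : ℝ) + 1)| ≤ 2 * |y - nls4 X| := by
    set v := nls4 X with hv
    have e : (∑ i ∈ range 6, y ^ (i + 1) / ((i : ℝ) + 1)) -
        ∑ i ∈ range 6, v ^ (i + 1) / ((i : ℝ) + 1) =
        (y - v) * (1 + (y + v) / 2 + (y ^ 2 + y * v + v ^ 2) / 3 +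
          (y ^ 3 + y ^ 2 * v + y * v ^ 2 + v ^ 3) / 4 +
          (y ^ 4 + y ^ 3 * v + y ^ 2 * v ^ 2 + y * v ^ 3 + v ^ 4) / 5 +
          (y ^ 5 + y ^ 4 * v + y ^ 3 * v ^ 2 + y ^ 2 * v ^ 3 + y * v ^ 4 + v ^ 5) / 6) := by
      simp only [sum_range_succ, sum_range_zero]
      push_cast
      ring
    rw [e, abs_mul, mul_comm]
    apply mul_le_mul_of_nonneg_right _ (abs_nonneg _)
    have pw : ∀ i j : ℕ, 0 ≤ y ^ i * v ^ j ∧ y ^ i * v ^ j ≤ (1 / 10) ^ i * (1 / 10) ^ j := by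
      intro i j
      exact ⟨by positivity, mul_le_mul (pow_le_pow_left₀ hy0 hy1 i) (pow_le_pow_left₀ h40 h41 j)
        (by positivity) (by positivity)⟩
    have p10 := pw 1 0
    have p01 := pw 0 1
    have p20 := pw 2 0
    have p11 := pw 1 1
    have p02 := pw 0 2
    have p30 := pw 3 0
    have p21 := pw 2 1
    have p12 := pw 1 2
    have p03 := pw 0 3
    have p40 := pw 4 0
    have p31 := pw 3 1
    have p22 := pw 2 2
    have p13 := pw 1 3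
    have p04 := pw 0 4
    have p50 := pw 5 0
    have p41 := pw 4 1
    have p32 := pw 3 2
    have p23 := pw 2 3
    have p14 := pw 1 4
    have p05 := pw 0 5
    simp only [pow_zero, pow_one, mul_one, one_mul] at *
    rw [abs_of_nonneg (by positivity)]
    norm_num at p10 p01 p20 p11 p02 p30 p21 p12 p03 p40 p31 p22 p13 p04 p50 p41 p32 p23 p14 p05
    linarith [p10.2, p01.2, p20.2, p11.2, p02.2, p30.2, p21.2, p12.2, p03.2, p40.2, p31.2,
      p22.2, p13.2, p04.2, p50.2, p41.2, p32.2, p23.2, p14.2, p05.2]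
  have hR := nlsR_le X hX0.le hX1
  have hsum := nls_sum X
  have hd' : |y - nls4 X| ≤ X ^ 5 * (28 / 10 ^ 9) := abs_le.2 hd
  have e1 : Real.log (Real.sinc z) + (z ^ 2 / 6 + z ^ 4 / 180 + z ^ 6 / 2835 + z ^ 8 / 37800) =
      ((∑ i ∈ range 6, y ^ (i + 1) / ((i : ℝ) + 1)) + Real.log (Real.sinc z)) -
      ((∑ i ∈ range 6, y ^ (i + 1) / ((i : ℝ) + 1)) -
        ∑ i ∈ range 6, nls4 X ^ (i + 1) / ((i : ℝ) + 1)) - X ^ 5 * nlsR X := by
    rw [hsum, hX]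
    ring
  have e2 : |X ^ 5 * nlsR X| ≤ X ^ 5 * (25 / 10 ^ 7) := by
    rw [abs_mul, abs_of_pos (by positivity : (0 : ℝ) < X ^ 5)]
    exact mul_le_mul_of_nonneg_left hR (by positivity)
  have e3 : z ^ 10 = X ^ 5 := by rw [hX]; ring
  have e4 : z ^ 2 / 6 + z ^ 4 / 180 + z ^ 6 / 2835 + z ^ 8 / 37800 =
      X / 6 + z ^ 4 / 180 + z ^ 6 / 2835 + z ^ 8 / 37800 := by rw [hX]
  rw [e3]
  rw [e4] at e1
  rw [e1]
  refine (abs_sub _ _).trans ?_
  have e5 := abs_sub ((∑ i ∈ range 6, y ^ (i + 1) / ((i : ℝ) + 1)) + Real.log (Real.sinc z))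
    ((∑ i ∈ range 6, y ^ (i + 1) / ((i : ℝ) + 1)) -
        ∑ i ∈ range 6, nls4 X ^ (i + 1) / ((i : ℝ) + 1))
  have : 0 < X ^ 5 := by positivity
  linarith

end MP_d1b55a
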