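import Pool.Agent.Lib.MP_d1b55a_co.NTB0
import Pool.Agent.Lib.MP_d1b55a_co.NTB1
import Pool.Agent.Lib.MP_d1b55a_co.NTB2
import Pool.Agent.Lib.MP_d1b55a_co.NTB3
import Pool.Agent.Lib.MP_d1b55a_co.NLS

/-! MP_d1b55a_co, near arc NA2: the fit at `h = h2` (numerical certificate) and the size of the fits for
`w ≥ 20`. The maximum of the left side of `na_fit1` is `4.27e-4` (near `w = 0.07`). -/

open Finset

namespace MP_d1b55a

/-! ### the coefficients -/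

theorem na2_nc0_0 : nc 0 0 = ⟨(1049361736 : ℝ) / 2 ^ 31, (380569990 : ℝ) / 2 ^ 31⟩ := by
  simp [nc, ncr, nci, nPl, nQl]

theorem na2_nc0_1 : nc 0 1 = ⟨(-9976335626 : ℝ) / 2 ^ 31, (2458607705 : ℝ) / 2 ^ 31⟩ := by
  simp [nc, ncr, nci, nPl, nQl]

theorem na2_nc0_2 : nc 0 2 = ⟨(46300560630 : ℝ) / 2 ^ 31, (-29962189566 : ℝ) / 2 ^ 31⟩ := by
  simp [nc, ncr, nci, nPl, nQl]

theorem na2_nc0_3 : nc 0 3 = ⟨(-179419311779 : ℝ) / 2 ^ 31, (148985220283 : ℝ) / 2 ^ 31⟩ := by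
  simp [nc, ncr, nci, nPl, nQl]

theorem na2_nc0_4 : nc 0 4 = ⟨(621516708169 : ℝ) / 2 ^ 31, (-520863790942 : ℝ) / 2 ^ 31⟩ := by
  simp [nc, ncr, nci, nPl, nQl]

theorem na2_nc0_5 : nc 0 5 = ⟨(-1799063609913 : ℝ) / 2 ^ 31, (1287468043413 : ℝ) / 2 ^ 31⟩ := by
  simp [nc, ncr, nci, nPl, nQl]

theorem na2_nc0_6 : nc 0 6 = ⟨(4118009554371 : ℝ) / 2 ^ 31, (-2069490164447 : ℝ) / 2 ^ 31⟩ := by
  simp [nc, ncr, nci, nPl, nQl]

theorem na2_nc0_7 : nc 0 7 = ⟨(-7009593339706 : ℝ) / 2 ^ 31, (1780039936189 : ℝ) / 2 ^ 31⟩ := by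
  simp [nc, ncr, nci, nPl, nQl]

theorem na2_nc0_8 : nc 0 8 = ⟨(8424499489124 : ℝ) / 2 ^ 31, (0 : ℝ) / 2 ^ 31⟩ := by
  simp [nc, ncr, nci, nPl, nQl]

theorem na2_nc0_9 : nc 0 9 = ⟨(-7009593339706 : ℝ) / 2 ^ 31, (-1780039936189 : ℝ) / 2 ^ 31⟩ := by
  simp [nc, ncr, nci, nPl, nQl]

theorem na2_nc0_10 : nc 0 10 = ⟨(4118009554371 : ℝ) / 2 ^ 31, (2069490164447 : ℝ) / 2 ^ 31⟩ := by
  simp [nc, ncr, nci, nPl, nQl]

theorem na2_nc0_11 : nc 0 11 = ⟨(-1799063609913 : ℝ) / 2 ^ 31, (-1287468043413 : ℝ) / 2 ^ 31⟩ := by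
  simp [nc, ncr, nci, nPl, nQl]

theorem na2_nc0_12 : nc 0 12 = ⟨(621516708169 : ℝ) / 2 ^ 31, (520863790942 : ℝ) / 2 ^ 31⟩ := by
  simp [nc, ncr, nci, nPl, nQl]

theorem na2_nc0_13 : nc 0 13 = ⟨(-179419311779 : ℝ) / 2 ^ 31, (-148985220283 : ℝ) / 2 ^ 31⟩ := by
  simp [nc, ncr, nci, nPl, nQl]

theorem na2_nc0_14 : nc 0 14 = ⟨(46300560630 : ℝ) / 2 ^ 31, (29962189566 : ℝ) / 2 ^ 31⟩ := by
  simp [nc, ncr, nci, nPl, nQl]

theorem na2_nc0_15 : nc 0 15 = ⟨(-9976335626 : ℝ) / 2 ^ 31, (-2458607705 : ℝ) / 2 ^ 31⟩ := by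
  simp [nc, ncr, nci, nPl, nQl]

theorem na2_nc0_16 : nc 0 16 = ⟨(1049361736 : ℝ) / 2 ^ 31, (-380569990 : ℝ) / 2 ^ 31⟩ := by
  simp [nc, ncr, nci, nPl, nQl]

theorem na2_nc1_0 : nc 1 0 = ⟨(1147566365 : ℝ) / 2 ^ 31, (345017107 : ℝ) / 2 ^ 31⟩ := by
  simp [nc, ncr, nci, nPl, nQl]

theorem na2_nc1_1 : nc 1 1 = ⟨(-10360148337 : ℝ) / 2 ^ 31, (3201865505 : ℝ) / 2 ^ 31⟩ := by
  simp [nc, ncr, nci, nPl, nQl]

theorem na2_nc1_2 : nc 1 2 = ⟨(45982521531 : ℝ) / 2 ^ 31, (-33656742000 : ℝ) / 2 ^ 31⟩ := by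
  simp [nc, ncr, nci, nPl, nQl]

theorem na2_nc1_3 : nc 1 3 = ⟨(-173892058652 : ℝ) / 2 ^ 31, (160004452101 : ℝ) / 2 ^ 31⟩ := by
  simp [nc, ncr, nci, nPl, nQl]

theorem na2_nc1_4 : nc 1 4 = ⟨(598596654965 : ℝ) / 2 ^ 31, (-545821924390 : ℝ) / 2 ^ 31⟩ := by
  simp [nc, ncr, nci, nPl, nQl]

theorem na2_nc1_5 : nc 1 5 = ⟨(-1735901485299 : ℝ) / 2 ^ 31, (1329509783300 : ℝ) / 2 ^ 31⟩ := by
  simp [nc, ncr, nci, nPl, nQl]

theorem na2_nc1_6 : nc 1 6 = ⟨(3992247013397 : ℝ) / 2 ^ 31, (-2118592862185 : ℝ) / 2 ^ 31⟩ := by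
  simp [nc, ncr, nci, nPl, nQl]

theorem na2_nc1_7 : nc 1 7 = ⟨(-6822260200036 : ℝ) / 2 ^ 31, (1814111088668 : ℝ) / 2 ^ 31⟩ := by
  simp [nc, ncr, nci, nPl, nQl]

theorem na2_nc1_8 : nc 1 8 = ⟨(8211026852178 : ℝ) / 2 ^ 31, (0 : ℝ) / 2 ^ 31⟩ := by
  simp [nc, ncr, nci, nPl, nQl]

theorem na2_nc1_9 : nc 1 9 = ⟨(-6822260200036 : ℝ) / 2 ^ 31, (-1814111088668 : ℝ) / 2 ^ 31⟩ := by
  simp [nc, ncr, nci, nPl, nQl]

theorem na2_nc1_10 : nc 1 10 = ⟨(3992247013397 : ℝ) / 2 ^ 31, (2118592862185 : ℝ) / 2 ^ 31⟩ := by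
  simp [nc, ncr, nci, nPl, nQl]

theorem na2_nc1_11 : nc 1 11 = ⟨(-1735901485299 : ℝ) / 2 ^ 31, (-1329509783300 : ℝ) / 2 ^ 31⟩ := by
  simp [nc, ncr, nci, nPl, nQl]

theorem na2_nc1_12 : nc 1 12 = ⟨(598596654965 : ℝ) / 2 ^ 31, (545821924390 : ℝ) / 2 ^ 31⟩ := by
  simp [nc, ncr, nci, nPl, nQl]

theorem na2_nc1_13 : nc 1 13 = ⟨(-173892058652 : ℝ) / 2 ^ 31, (-160004452101 : ℝ) / 2 ^ 31⟩ := by
  simp [nc, ncr, nci, nPl, nQl]

theorem na2_nc1_14 : nc 1 14 = ⟨(45982521531 : ℝ) / 2 ^ 31, (33656742000 : ℝ) / 2 ^ 31⟩ := by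
  simp [nc, ncr, nci, nPl, nQl]

theorem na2_nc1_15 : nc 1 15 = ⟨(-10360148337 : ℝ) / 2 ^ 31, (-3201865505 : ℝ) / 2 ^ 31⟩ := by
  simp [nc, ncr, nci, nPl, nQl]

theorem na2_nc1_16 : nc 1 16 = ⟨(1147566365 : ℝ) / 2 ^ 31, (-345017107 : ℝ) / 2 ^ 31⟩ := by
  simp [nc, ncr, nci, nPl, nQl]

theorem na2_norm (a b s : ℝ) (hs : 0 ≤ s) (h : a ^ 2 + b ^ 2 ≤ s ^ 2) :
    ‖(⟨a / 2 ^ 31, b / 2 ^ 31⟩ : ℂ)‖ ≤ s / 2 ^ 31 := by
  rw [Complex.norm_def, Complex.normSq_mk, Real.sqrt_le_left (by positivity)]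
  have e1 : a / 2 ^ 31 * (a / 2 ^ 31) + b / 2 ^ 31 * (b / 2 ^ 31) =
      (a ^ 2 + b ^ 2) / (2 ^ 31) ^ 2 := by ring
  have e2 : (s / 2 ^ 31) ^ 2 = s ^ 2 / (2 ^ 31) ^ 2 := by ring
  rw [e1, e2]
  exact div_le_div_of_nonneg_right h (by positivity)

theorem na2_sum0 : ∑ k ∈ range 17, ‖nc 0 k‖ ≤ 18046 := by
  simp only [sum_range_succ, sum_range_zero, zero_add]
  have h0 : ‖nc 0 0‖ ≤ (1116240821 : ℝ) / 2 ^ 31 := by
    rw [na2_nc0_0]
    exact na2_norm _ _ _ (by norm_num) (by norm_num)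
  have h1 : ‖nc 0 1‖ ≤ (10274824786 : ℝ) / 2 ^ 31 := by
    rw [na2_nc0_1]
    exact na2_norm _ _ _ (by norm_num) (by norm_num)
  have h2 : ‖nc 0 2‖ ≤ (55149566801 : ℝ) / 2 ^ 31 := by
    rw [na2_nc0_2]
    exact na2_norm _ _ _ (by norm_num) (by norm_num)
  have h3 : ‖nc 0 3‖ ≤ (233212103679 : ℝ) / 2 ^ 31 := by
    rw [na2_nc0_3]
    exact na2_norm _ _ _ (by norm_num) (by norm_num)
  have h4 : ‖nc 0 4‖ ≤ (810914364929 : ℝ) / 2 ^ 31 := by
    rw [na2_nc0_4]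
    exact na2_norm _ _ _ (by norm_num) (by norm_num)
  have h5 : ‖nc 0 5‖ ≤ (2212284754575 : ℝ) / 2 ^ 31 := by
    rw [na2_nc0_5]
    exact na2_norm _ _ _ (by norm_num) (by norm_num)
  have h6 : ‖nc 0 6‖ ≤ (4608773397623 : ℝ) / 2 ^ 31 := by
    rw [na2_nc0_6]
    exact na2_norm _ _ _ (by norm_num) (by norm_num)
  have h7 : ‖nc 0 7‖ ≤ (7232077223211 : ℝ) / 2 ^ 31 := by
    rw [na2_nc0_7]
    exact na2_norm _ _ _ (by norm_num) (by norm_num)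
  have h8 : ‖nc 0 8‖ ≤ (8424499489125 : ℝ) / 2 ^ 31 := by
    rw [na2_nc0_8]
    exact na2_norm _ _ _ (by norm_num) (by norm_num)
  have h9 : ‖nc 0 9‖ ≤ (7232077223211 : ℝ) / 2 ^ 31 := by
    rw [na2_nc0_9]
    exact na2_norm _ _ _ (by norm_num) (by norm_num)
  have h10 : ‖nc 0 10‖ ≤ (4608773397623 : ℝ) / 2 ^ 31 := by
    rw [na2_nc0_10]
    exact na2_norm _ _ _ (by norm_num) (by norm_num)
  have h11 : ‖nc 0 11‖ ≤ (2212284754575 : ℝ) / 2 ^ 31 := by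
    rw [na2_nc0_11]
    exact na2_norm _ _ _ (by norm_num) (by norm_num)
  have h12 : ‖nc 0 12‖ ≤ (810914364929 : ℝ) / 2 ^ 31 := by
    rw [na2_nc0_12]
    exact na2_norm _ _ _ (by norm_num) (by norm_num)
  have h13 : ‖nc 0 13‖ ≤ (233212103679 : ℝ) / 2 ^ 31 := by
    rw [na2_nc0_13]
    exact na2_norm _ _ _ (by norm_num) (by norm_num)
  have h14 : ‖nc 0 14‖ ≤ (55149566801 : ℝ) / 2 ^ 31 := by
    rw [na2_nc0_14]
    exact na2_norm _ _ _ (by norm_num) (by norm_num)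
  have h15 : ‖nc 0 15‖ ≤ (10274824786 : ℝ) / 2 ^ 31 := by
    rw [na2_nc0_15]
    exact na2_norm _ _ _ (by norm_num) (by norm_num)
  have h16 : ‖nc 0 16‖ ≤ (1116240821 : ℝ) / 2 ^ 31 := by
    rw [na2_nc0_16]
    exact na2_norm _ _ _ (by norm_num) (by norm_num)
  linarith

theorem na2_sum1 : ∑ k ∈ range 17, ‖nc 1 k‖ ≤ 18046 := by
  simp only [sum_range_succ, sum_range_zero, zero_add]
  have h0 : ‖nc 1 0‖ ≤ (1198309379 : ℝ) / 2 ^ 31 := by
    rw [na2_nc1_0]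
    exact na2_norm _ _ _ (by norm_num) (by norm_num)
  have h1 : ‖nc 1 1‖ ≤ (10843644050 : ℝ) / 2 ^ 31 := by
    rw [na2_nc1_1]
    exact na2_norm _ _ _ (by norm_num) (by norm_num)
  have h2 : ‖nc 1 2‖ ≤ (56983932546 : ℝ) / 2 ^ 31 := by
    rw [na2_nc1_2]
    exact na2_norm _ _ _ (by norm_num) (by norm_num)
  have h3 : ‖nc 1 3‖ ≤ (236304618564 : ℝ) / 2 ^ 31 := by
    rw [na2_nc1_3]
    exact na2_norm _ _ _ (by norm_num) (by norm_num)
  have h4 : ‖nc 1 4‖ ≤ (810086124113 : ℝ) / 2 ^ 31 := by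
    rw [na2_nc1_4]
    exact na2_norm _ _ _ (by norm_num) (by norm_num)
  have h5 : ‖nc 1 5‖ ≤ (2186538412778 : ℝ) / 2 ^ 31 := by
    rw [na2_nc1_5]
    exact na2_norm _ _ _ (by norm_num) (by norm_num)
  have h6 : ‖nc 1 6‖ ≤ (4519565458281 : ℝ) / 2 ^ 31 := by
    rw [na2_nc1_6]
    exact na2_norm _ _ _ (by norm_num) (by norm_num)
  have h7 : ‖nc 1 7‖ ≤ (7059336603324 : ℝ) / 2 ^ 31 := by
    rw [na2_nc1_7]
    exact na2_norm _ _ _ (by norm_num) (by norm_num)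
  have h8 : ‖nc 1 8‖ ≤ (8211026852179 : ℝ) / 2 ^ 31 := by
    rw [na2_nc1_8]
    exact na2_norm _ _ _ (by norm_num) (by norm_num)
  have h9 : ‖nc 1 9‖ ≤ (7059336603324 : ℝ) / 2 ^ 31 := by
    rw [na2_nc1_9]
    exact na2_norm _ _ _ (by norm_num) (by norm_num)
  have h10 : ‖nc 1 10‖ ≤ (4519565458281 : ℝ) / 2 ^ 31 := by
    rw [na2_nc1_10]
    exact na2_norm _ _ _ (by norm_num) (by norm_num)
  have h11 : ‖nc 1 11‖ ≤ (2186538412778 : ℝ) / 2 ^ 31 := by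
    rw [na2_nc1_11]
    exact na2_norm _ _ _ (by norm_num) (by norm_num)
  have h12 : ‖nc 1 12‖ ≤ (810086124113 : ℝ) / 2 ^ 31 := by
    rw [na2_nc1_12]
    exact na2_norm _ _ _ (by norm_num) (by norm_num)
  have h13 : ‖nc 1 13‖ ≤ (236304618564 : ℝ) / 2 ^ 31 := by
    rw [na2_nc1_13]
    exact na2_norm _ _ _ (by norm_num) (by norm_num)
  have h14 : ‖nc 1 14‖ ≤ (56983932546 : ℝ) / 2 ^ 31 := by
    rw [na2_nc1_14]
    exact na2_norm _ _ _ (by norm_num) (by norm_num)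
  have h15 : ‖nc 1 15‖ ≤ (10843644050 : ℝ) / 2 ^ 31 := by
    rw [na2_nc1_15]
    exact na2_norm _ _ _ (by norm_num) (by norm_num)
  have h16 : ‖nc 1 16‖ ≤ (1198309379 : ℝ) / 2 ^ 31 := by
    rw [na2_nc1_16]
    exact na2_norm _ _ _ (by norm_num) (by norm_num)
  linarith

theorem na2_nc_ne (t k : ℕ) (ht : t ≠ 0) : nc t k = nc 1 k := by
  simp [nc, ncr, nci, nPl, nQl, ht]

theorem na2_sum (t : ℕ) : ∑ k ∈ range 17, ‖nc t k‖ ≤ 18046 := by
  by_cases h : t = 0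
  · rw [h]; exact na2_sum0
  · rw [sum_congr rfl fun k _ => by rw [na2_nc_ne t k h]]
    exact na2_sum1

theorem na2_eps (ε : ℝ) (h1 : ε ^ 3 ≤ 3 / 1000) : ε ≤ 1443 / 10000 := by
  by_contra h
  push Not at h
  have : (1443 / 10000 : ℝ) ^ 3 < ε ^ 3 := pow_lt_pow_left₀ h (by norm_num) (by norm_num)
  norm_num at this
  linarith

/-- the sum of the absolute values of the coefficients -/
theorem na_sum_nm (ε : ℝ) (h0 : 0 < ε) (h1 : ε ^ 3 ≤ 3 / 1000) :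
    ∑ k ∈ Finset.range 17, ‖nm ε k‖ ≤ 18200 := by
  have he := na2_eps ε h1
  have ht0 : 0 ≤ ε ^ 2 / nh2 := by unfold nh2; positivity
  have ht1 : ε ^ 2 / nh2 ≤ 1 := by
    have h2 : ε ^ 2 ≤ (1443 / 10000) ^ 2 := pow_le_pow_left₀ h0.le he 2
    unfold nh2
    rw [div_le_one (by norm_num)]
    norm_num at h2 ⊢
    linarith
  set τ := ε ^ 2 / nh2 with hτ
  have hk : ∀ k ∈ range 17, ‖nm ε k‖ ≤ (1 - τ) * ‖nc 0 k‖ + τ * ‖nc 1 k‖ := by
    intro k _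
    unfold nm
    rw [← hτ]
    refine (norm_add_le _ _).trans (le_of_eq ?_)
    rw [norm_mul, norm_mul, Complex.norm_real, Complex.norm_real, Real.norm_of_nonneg ht0,
      Real.norm_of_nonneg (by linarith)]
  refine (sum_le_sum hk).trans ?_
  rw [sum_add_distrib, ← mul_sum, ← mul_sum]
  have a := mul_le_mul_of_nonneg_left na2_sum0 (by linarith : 0 ≤ 1 - τ)
  have b := mul_le_mul_of_nonneg_left na2_sum1 ht0
  linarith

theorem na2_exp_norm (k : ℕ) (w : ℝ) :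
    ‖Complex.exp (-(nlam k) * (w : ℂ))‖ = Real.exp (-(3 * w)) := by
  rw [Complex.norm_exp]
  congr 1
  rw [Complex.re_mul_ofReal]
  simp [nlam]

/-- trivial bound: `∑ |c_k| ≤ 22500`, `22500 * exp (- 25) < 1e-6` -/
theorem na_fit_tail (t : ℕ) (w : ℝ) (hw : 20 ≤ w) :
    ‖nsf t w‖ * Real.exp (7 / 4 * w) ≤ 1 / 10 ^ 6 := by
  have h1 : ‖nsf t w‖ ≤ 18046 * Real.exp (-(3 * w)) := by
    unfold nsf
    refine (norm_sum_le _ _).trans ?_
    rw [sum_congr rfl fun k _ => by rw [norm_mul, na2_exp_norm], ← sum_mul]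
    exact mul_le_mul_of_nonneg_right (na2_sum t) (Real.exp_pos _).le
  have h2 : Real.exp (-(3 * w)) * Real.exp (7 / 4 * w) = Real.exp (-(5 / 4 * w)) := by
    rw [← Real.exp_add]; congr 1; ring
  have h3 : Real.exp (-(5 / 4 * w)) ≤ Real.exp (-25) := by
    apply Real.exp_le_exp.2; linarith
  have h4 : Real.exp (-25) ≤ 5 / 10 ^ 11 := by
    have h5 : Real.exp (-25) = (Real.exp 1)⁻¹ ^ 25 := by
      rw [← Real.exp_neg, ← Real.exp_nat_mul]; congr 1; norm_num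
    have h6 : (Real.exp 1)⁻¹ ≤ (27 / 10)⁻¹ := by
      apply inv_anti₀ (by norm_num)
      have := Real.exp_one_gt_d9
      linarith
    have h7 : (Real.exp 1)⁻¹ ^ 25 ≤ (27 / 10)⁻¹ ^ 25 :=
      pow_le_pow_left₀ (by positivity) h6 25
    rw [h5]
    refine h7.trans ?_
    norm_num
  calc ‖nsf t w‖ * Real.exp (7 / 4 * w) ≤ 18046 * Real.exp (-(3 * w)) * Real.exp (7 / 4 * w) :=
        mul_le_mul_of_nonneg_right h1 (Real.exp_pos _).le
    _ = 18046 * Real.exp (-(5 / 4 * w)) := by rw [mul_assoc, h2]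
    _ ≤ 18046 * (5 / 10 ^ 11) := by
        apply mul_le_mul_of_nonneg_left (h3.trans h4) (by norm_num)
    _ ≤ 1 / 10 ^ 6 := by norm_num

/-! ### the trigonometric sum -/

theorem na2_up (m : ℕ) (w : ℝ) : Complex.exp (-(nlam (8 + m)) * (w : ℂ)) *
    ((Real.exp (7 / 4 * w) : ℝ) : ℂ) = Complex.exp (TE.kap m * w) := by
  rw [Complex.ofReal_exp, ← Complex.exp_add]
  congr 1
  apply Complex.ext
  · simp [nlam, TE.kap]; ring
  · simp [nlam, TE.kap]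

theorem na2_dn (m k : ℕ) (hk : k + m = 8) (w : ℝ) : Complex.exp (-(nlam k) * (w : ℂ)) *
    ((Real.exp (7 / 4 * w) : ℝ) : ℂ) = (starRingEnd ℂ) (Complex.exp (TE.kap m * w)) := by
  rw [Complex.ofReal_exp, ← Complex.exp_add, ← Complex.exp_conj]
  congr 1
  have hk' : (k : ℝ) = 8 - m := by
    have : ((k + m : ℕ) : ℝ) = 8 := by rw [hk]; norm_num
    push_cast at this
    linarith
  apply Complex.ext
  · simp [nlam, TE.kap]; ring
  · simp [nlam, TE.kap, hk']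

theorem na2_sv_cons (w : ℝ) (m : ℕ) (p q : ℤ) (P Q : List ℤ) :
    TE.sv w m (p :: P) (q :: Q) = (p : ℝ) * (Complex.exp (TE.kap m * w)).re +
      q * (Complex.exp (TE.kap m * w)).im + TE.sv w (m + 1) P Q := by
  rw [TE.sv]
  simp only [Complex.mul_re, Complex.sub_re, Complex.sub_im, Complex.mul_im,
    Complex.intCast_re, Complex.intCast_im, Complex.I_re, Complex.I_im]
  ring

theorem na2_E0 (w : ℝ) : (Complex.exp (TE.kap 0 * w)).im = 0 := by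
  have e1 : TE.kap 0 * (w : ℂ) = ((-5 / 4 * w : ℝ) : ℂ) := by
    apply Complex.ext
    · simp [TE.kap]
    · simp [TE.kap]
  rw [e1, ← Complex.ofReal_exp, Complex.ofReal_im]

theorem na2_sv (w : ℝ) : nsf 1 w * ((Real.exp (7 / 4 * w) : ℝ) : ℂ) =
    ((TE.sv w 0 (nPl 1) (nQl 1) / 1073741824 : ℝ) : ℂ) := by
  unfold nsf
  rw [sum_mul]
  simp only [sum_range_succ, sum_range_zero, zero_add, mul_assoc]
  rw [na2_dn 8 0 rfl w]
  rw [na2_dn 7 1 rfl w]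
  rw [na2_dn 6 2 rfl w]
  rw [na2_dn 5 3 rfl w]
  rw [na2_dn 4 4 rfl w]
  rw [na2_dn 3 5 rfl w]
  rw [na2_dn 2 6 rfl w]
  rw [na2_dn 1 7 rfl w]
  rw [show ((8 : ℕ)) = 8 + 0 from rfl, na2_up 0 w]
  rw [show ((9 : ℕ)) = 8 + 1 from rfl, na2_up 1 w]
  rw [show ((10 : ℕ)) = 8 + 2 from rfl, na2_up 2 w]
  rw [show ((11 : ℕ)) = 8 + 3 from rfl, na2_up 3 w]
  rw [show ((12 : ℕ)) = 8 + 4 from rfl, na2_up 4 w]
  rw [show ((13 : ℕ)) = 8 + 5 from rfl, na2_up 5 w]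
  rw [show ((14 : ℕ)) = 8 + 6 from rfl, na2_up 6 w]
  rw [show ((15 : ℕ)) = 8 + 7 from rfl, na2_up 7 w]
  rw [show ((16 : ℕ)) = 8 + 8 from rfl, na2_up 8 w]
  have hP : nPl 1 = [4105513426089, -6822260200036, 3992247013397, -1735901485299, 598596654965, -173892058652, 45982521531, -10360148337, 1147566365] := by simp [nPl]
  have hQ : nQl 1 = [0, 1814111088668, -2118592862185, 1329509783300, -545821924390, 160004452101, -33656742000, 3201865505, 345017107] := by simp [nQl]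
  rw [hP, hQ]
  simp only [na2_sv_cons, zero_add, Nat.reduceAdd]
  have hn : TE.sv w 9 [] [] = 0 := rfl
  rw [hn]
  simp only [na2_nc1_0, na2_nc1_1, na2_nc1_2, na2_nc1_3, na2_nc1_4, na2_nc1_5, na2_nc1_6, na2_nc1_7, na2_nc1_8, na2_nc1_9, na2_nc1_10, na2_nc1_11, na2_nc1_12, na2_nc1_13, na2_nc1_14, na2_nc1_15, na2_nc1_16]
  set E0 := Complex.exp (TE.kap 0 * w)
  set E1 := Complex.exp (TE.kap 1 * w)
  set E2 := Complex.exp (TE.kap 2 * w)
  set E3 := Complex.exp (TE.kap 3 * w)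
  set E4 := Complex.exp (TE.kap 4 * w)
  set E5 := Complex.exp (TE.kap 5 * w)
  set E6 := Complex.exp (TE.kap 6 * w)
  set E7 := Complex.exp (TE.kap 7 * w)
  set E8 := Complex.exp (TE.kap 8 * w)
  have h0 : E0.im = 0 := na2_E0 w
  apply Complex.ext
  · simp only [Complex.add_re, Complex.mul_re, Complex.conj_re, Complex.conj_im,
      Complex.ofReal_re]
    push_cast
    ring
  · simp only [Complex.add_im, Complex.mul_im, Complex.conj_re, Complex.conj_im,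
      Complex.ofReal_im, h0]
    push_cast
    ring

theorem na2_eq (w : ℝ) : ‖((nS nh2 w : ℝ) : ℂ) - nsf 1 w‖ * Real.exp (7 / 4 * w) =
    |nS nh2 w * Real.exp (7 / 4 * w) - TE.sv w 0 (nPl 1) (nQl 1) / 1073741824| := by
  have h1 : Real.exp (7 / 4 * w) = ‖((Real.exp (7 / 4 * w) : ℝ) : ℂ)‖ := by
    rw [Complex.norm_real, Real.norm_of_nonneg (Real.exp_pos _).le]
  have h2 : ‖((nS nh2 w : ℝ) : ℂ) - nsf 1 w‖ * ‖((Real.exp (7 / 4 * w) : ℝ) : ℂ)‖ =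
      ‖(((nS nh2 w : ℝ) : ℂ) - nsf 1 w) * ((Real.exp (7 / 4 * w) : ℝ) : ℂ)‖ :=
    (norm_mul _ _).symm
  rw [h1, h2, sub_mul, na2_sv, ← Complex.ofReal_mul, ← Complex.ofReal_sub, Complex.norm_real,
    Real.norm_eq_abs, ← h1]

theorem na2_cert (w : ℝ) (h0 : 0 ≤ w) (h1 : w < 21 / 2) :
    (TE.D : ℝ) * |1073741824 * Real.exp (w * TE.pv (w * w) TE.cs1) -
      TE.sv w 0 (nPl 1) (nQl 1)| ≤ ((567258431794929918416956723967 : ℕ) : ℝ) := by
  have hcs : ∀ p ∈ TE.cs1, 0 < p.2 := by decide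
  rcases lt_or_ge w (21 / 8) with h2 | h2
  · exact TE.cellsK_spec _ _ _ _ 0 21 hcs TE.certB0 w (by push_cast; linarith)
      (by push_cast; linarith)
  rcases lt_or_ge w (42 / 8) with h3 | h3
  · exact TE.cellsK_spec _ _ _ _ 21 21 hcs TE.certB1 w (by push_cast; linarith)
      (by push_cast; linarith)
  rcases lt_or_ge w (63 / 8) with h4 | h4
  · exact TE.cellsK_spec _ _ _ _ 42 21 hcs TE.certB2 w (by push_cast; linarith)
      (by push_cast; linarith)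
  · exact TE.cellsK_spec _ _ _ _ 63 21 hcs TE.certB3 w (by push_cast; linarith)
      (by push_cast; linarith)

theorem na2_cert2 (w : ℝ) (h0 : 0 ≤ w) (h1 : w < 21 / 2) :
    |Real.exp (w * TE.pv (w * w) TE.cs1) - TE.sv w 0 (nPl 1) (nQl 1) / 1073741824| ≤
      437 / 10 ^ 6 := by
  have h := na2_cert w h0 h1
  have e : |Real.exp (w * TE.pv (w * w) TE.cs1) - TE.sv w 0 (nPl 1) (nQl 1) / 1073741824| =
      |1073741824 * Real.exp (w * TE.pv (w * w) TE.cs1) - TE.sv w 0 (nPl 1) (nQl 1)| /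
        1073741824 := by
    rw [← abs_of_pos (by norm_num : (0 : ℝ) < 1073741824), ← abs_div,
      abs_of_pos (by norm_num : (0 : ℝ) < 1073741824)]
    congr 1
    field_simp
  rw [e, div_le_iff₀ (by norm_num)]
  have hD : (TE.D : ℝ) = 1208925819614629174706176 := by
    unfold TE.D
    norm_num
  rw [hD] at h
  norm_num at h ⊢
  linarith

theorem na2_exp_sub (a b M : ℝ) (ha : a ≤ M) (hb : b ≤ M) :
    |Real.exp a - Real.exp b| ≤ Real.exp M * |a - b| := by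
  rcases le_total a b with h | h
  · have h1 := Real.add_one_le_exp (a - b)
    have h2 : Real.exp a = Real.exp (a - b) * Real.exp b := by rw [← Real.exp_add]; congr 1; ring
    have h3 : Real.exp b ≤ Real.exp M := Real.exp_le_exp.2 hb
    have h4 : Real.exp a ≤ Real.exp b := Real.exp_le_exp.2 h
    have h5 := Real.exp_pos b
    rw [abs_of_nonpos (by linarith), abs_of_nonpos (by linarith), h2]
    nlinarith
  · have h1 := Real.add_one_le_exp (b - a)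
    have h2 : Real.exp b = Real.exp (b - a) * Real.exp a := by rw [← Real.exp_add]; congr 1; ring
    have h3 : Real.exp a ≤ Real.exp M := Real.exp_le_exp.2 ha
    have h4 : Real.exp b ≤ Real.exp a := Real.exp_le_exp.2 h
    have h5 := Real.exp_pos a
    rw [abs_of_nonneg (by linarith), abs_of_nonneg (by linarith), h2]
    nlinarith

/-! ### the function `S` -/

theorem na2_sinc_pos (z : ℝ) (h0 : 0 ≤ z) (h1 : z ≤ 3) : 0 < Real.sinc z := by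
  rcases h0.eq_or_lt with h | h
  · rw [← h]; simp
  · rw [Real.sinc_of_ne_zero h.ne']
    exact div_pos (Real.sin_pos_of_pos_of_lt_pi h (by linarith [Real.pi_gt_three])) h

theorem na2_log (z : ℝ) (h0 : 0 ≤ z) (h1 : z ≤ 19 / 25) :
    |Real.log (Real.sinc z) + (z ^ 2 / 6 + z ^ 4 / 180 + z ^ 6 / 2835 + z ^ 8 / 37800)| ≤
      5 / 10 ^ 6 * z ^ 10 := by
  rcases h0.eq_or_lt with h | h
  · rw [← h]; simp
  · exact nls_log z h h1

theorem na2_nS (w : ℝ) (h0 : 0 ≤ w) (h1 : w ≤ 20) : nS nh2 w =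
    Real.exp (Real.log (Real.sinc (w * √nh2 / 2)) * (w / nh2)) := by
  unfold nS
  apply Real.rpow_def_of_pos
  have hs : √nh2 ≤ 3 / 20 := by
    rw [Real.sqrt_le_left (by norm_num)]
    unfold nh2
    norm_num
  have hs0 := Real.sqrt_nonneg nh2
  apply na2_sinc_pos
  · positivity
  · nlinarith

theorem na2_phi (w : ℝ) (h0 : 0 ≤ w) (h1 : w ≤ 21 / 2) :
    let L := Real.log (Real.sinc (w * √nh2 / 2)) * (w / nh2)
    7 / 4 * w + L ≤ 7 / 4 * w - w ^ 3 / 24 ∧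
    w * TE.pv (w * w) TE.cs1 ≤ 7 / 4 * w - w ^ 3 / 24 ∧
    |7 / 4 * w + L - w * TE.pv (w * w) TE.cs1| ≤
      5 / 10 ^ 6 * (209 / 10000) ^ 4 / 1024 * w ^ 11 := by
  intro L
  set z := w * √nh2 / 2 with hz
  have hs : √nh2 ≤ 1446 / 10000 := by
    rw [Real.sqrt_le_left (by norm_num)]
    unfold nh2
    norm_num
  have hs0 := Real.sqrt_nonneg nh2
  have hz0 : 0 ≤ z := by positivity
  have hz1 : z ≤ 19 / 25 := by
    rw [hz]
    nlinarith
  have hz2 : z ^ 2 = w ^ 2 * (209 / 10000) / 4 := by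
    have : √nh2 ^ 2 = nh2 := Real.sq_sqrt (by unfold nh2; norm_num)
    rw [hz, div_pow, mul_pow, this]
    unfold nh2
    norm_num
  have hz4 : z ^ 4 = (w ^ 2 * (209 / 10000) / 4) ^ 2 := by rw [← hz2]; ring
  have hz6 : z ^ 6 = (w ^ 2 * (209 / 10000) / 4) ^ 3 := by rw [← hz2]; ring
  have hz8 : z ^ 8 = (w ^ 2 * (209 / 10000) / 4) ^ 4 := by rw [← hz2]; ring
  have hz10 : z ^ 10 = (w ^ 2 * (209 / 10000) / 4) ^ 5 := by rw [← hz2]; ring
  have hl := na2_log z hz0 hz1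
  have hz41 : z ^ 10 ≤ z ^ 4 := pow_le_pow_of_le_one hz0 (by linarith) (by norm_num)
  have hwh : 0 ≤ w / nh2 := by unfold nh2; positivity
  have hpv : w * TE.pv (w * w) TE.cs1 = 7 / 4 * w -
      (z ^ 2 / 6 + z ^ 4 / 180 + z ^ 6 / 2835 + z ^ 8 / 37800) * (w / nh2) := by
    rw [hz4, hz6, hz8, hz2]
    simp only [TE.pv, TE.cs1, nh2]
    push_cast
    ring
  have h24 : z ^ 2 / 6 * (w / nh2) = w ^ 3 / 24 := by
    rw [hz2]
    unfold nh2
    ring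
  have hLe : Real.log (Real.sinc z) ≤ -(z ^ 2 / 6) := by
    have := (abs_le.1 hl).2
    have h6 : 0 ≤ z ^ 6 := by positivity
    have h8 : 0 ≤ z ^ 8 := by positivity
    have h4 : 0 ≤ z ^ 4 := by positivity
    norm_num at this
    linarith
  refine ⟨?_, ?_, ?_⟩
  · have := mul_le_mul_of_nonneg_right hLe hwh
    have e : -(z ^ 2 / 6) * (w / nh2) = -(w ^ 3 / 24) := by rw [← h24]; ring
    rw [e] at this
    show 7 / 4 * w + Real.log (Real.sinc z) * (w / nh2) ≤ _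
    linarith
  · rw [hpv]
    have h5 : 0 ≤ (z ^ 4 / 180 + z ^ 6 / 2835 + z ^ 8 / 37800) * (w / nh2) := by positivity
    have e : (z ^ 2 / 6 + z ^ 4 / 180 + z ^ 6 / 2835 + z ^ 8 / 37800) * (w / nh2) =
        z ^ 2 / 6 * (w / nh2) + (z ^ 4 / 180 + z ^ 6 / 2835 + z ^ 8 / 37800) * (w / nh2) := by ring
    rw [e, h24]
    linarith
  · rw [hpv]
    have e : 7 / 4 * w + L - (7 / 4 * w -
        (z ^ 2 / 6 + z ^ 4 / 180 + z ^ 6 / 2835 + z ^ 8 / 37800) * (w / nh2)) =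
        (Real.log (Real.sinc z) +
          (z ^ 2 / 6 + z ^ 4 / 180 + z ^ 6 / 2835 + z ^ 8 / 37800)) * (w / nh2) := by
      show 7 / 4 * w + Real.log (Real.sinc z) * (w / nh2) - _ = _
      ring
    rw [e, abs_mul, abs_of_nonneg hwh]
    refine (mul_le_mul_of_nonneg_right hl hwh).trans (le_of_eq ?_)
    rw [hz10]
    unfold nh2
    ring

theorem na2_e3 : Real.exp 3 ≤ 201 / 10 := by
  have h5 : Real.exp 3 = Real.exp 1 ^ 3 := by
    rw [← Real.exp_nat_mul]; congr 1; norm_num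
  have h6 := Real.exp_one_lt_d9
  have h7 : Real.exp 1 ^ 3 ≤ (2.7182818286 : ℝ) ^ 3 :=
    pow_le_pow_left₀ (Real.exp_pos 1).le h6.le 3
  rw [h5]
  refine h7.trans ?_
  norm_num

theorem na2_low (w : ℝ) (h0 : 0 ≤ w) (h1 : w < 21 / 2) :
    |nS nh2 w * Real.exp (7 / 4 * w) - TE.sv w 0 (nPl 1) (nQl 1) / 1073741824| ≤
      44 / 100000 := by
  obtain ⟨p1, p2, p3⟩ := na2_phi w h0 h1.le
  have hc := na2_cert2 w h0 h1
  rw [na2_nS w h0 (by linarith), ← Real.exp_add]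
  set L := Real.log (Real.sinc (w * √nh2 / 2)) * (w / nh2) with hL
  have e1 : Real.exp (L + 7 / 4 * w) = Real.exp (7 / 4 * w + L) := by rw [add_comm]
  rw [e1]
  have h2 := na2_exp_sub _ _ _ p1 p2
  have h3 : Real.exp (7 / 4 * w - w ^ 3 / 24) * |7 / 4 * w + L - w * TE.pv (w * w) TE.cs1| ≤
      3 / 10 ^ 6 := by
    have h4 := mul_le_mul_of_nonneg_left p3 (Real.exp_pos (7 / 4 * w - w ^ 3 / 24)).le
    refine h4.trans ?_
    have h5 : w ^ 11 ≤ (11 / 2) ^ 11 * Real.exp (2 * w - 11) := by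
      have h6 : w / (11 / 2) ≤ Real.exp (w / (11 / 2) - 1) := by
        have := Real.add_one_le_exp (w / (11 / 2) - 1)
        linarith
      have h7 := pow_le_pow_left₀ (by positivity) h6 11
      rw [← Real.exp_nat_mul] at h7
      have e2 : ((11 : ℕ) : ℝ) * (w / (11 / 2) - 1) = 2 * w - 11 := by push_cast; ring
      rw [e2] at h7
      have e3 : w ^ 11 = (11 / 2) ^ 11 * (w / (11 / 2)) ^ 11 := by ring
      rw [e3]
      exact mul_le_mul_of_nonneg_left h7 (by positivity)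
    have h8 : Real.exp (7 / 4 * w - w ^ 3 / 24) * Real.exp (2 * w - 11) ≤ 201 / 10 := by
      rw [← Real.exp_add]
      refine le_trans (Real.exp_le_exp.2 ?_) na2_e3
      nlinarith [mul_nonneg (sq_nonneg (w - 11 / 2)) (by linarith : 0 ≤ w + 11)]
    calc Real.exp (7 / 4 * w - w ^ 3 / 24) * (5 / 10 ^ 6 * (209 / 10000) ^ 4 / 1024 * w ^ 11)
        = 5 / 10 ^ 6 * (209 / 10000) ^ 4 / 1024 * (Real.exp (7 / 4 * w - w ^ 3 / 24) * w ^ 11) := by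
          ring
      _ ≤ 5 / 10 ^ 6 * (209 / 10000) ^ 4 / 1024 *
          (Real.exp (7 / 4 * w - w ^ 3 / 24) * ((11 / 2) ^ 11 * Real.exp (2 * w - 11))) := by
          apply mul_le_mul_of_nonneg_left _ (by positivity)
          exact mul_le_mul_of_nonneg_left h5 (Real.exp_pos _).le
      _ = 5 / 10 ^ 6 * (209 / 10000) ^ 4 / 1024 * (11 / 2) ^ 11 *
          (Real.exp (7 / 4 * w - w ^ 3 / 24) * Real.exp (2 * w - 11)) := by ring
      _ ≤ 5 / 10 ^ 6 * (209 / 10000) ^ 4 / 1024 * (11 / 2) ^ 11 * (201 / 10) :=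
          mul_le_mul_of_nonneg_left h8 (by positivity)
      _ ≤ 3 / 10 ^ 6 := by norm_num
  have e4 : Real.exp (7 / 4 * w + L) - TE.sv w 0 (nPl 1) (nQl 1) / 1073741824 =
      (Real.exp (7 / 4 * w + L) - Real.exp (w * TE.pv (w * w) TE.cs1)) +
      (Real.exp (w * TE.pv (w * w) TE.cs1) - TE.sv w 0 (nPl 1) (nQl 1) / 1073741824) := by ring
  rw [e4]
  refine (abs_add_le _ _).trans ?_
  have := h2.trans h3
  norm_num at this hc ⊢
  linarith

/-! ### large `w` -/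

theorem na2_sinc_half (z : ℝ) (hz : z ≠ 0) :
    Real.sinc z = Real.sinc (z / 2) * Real.cos (z / 2) := by
  have hx2 : z / 2 ≠ 0 := div_ne_zero hz two_ne_zero
  rw [Real.sinc_of_ne_zero hz, Real.sinc_of_ne_zero hx2]
  have h3 : Real.sin z = 2 * Real.sin (z / 2) * Real.cos (z / 2) := by
    rw [← Real.sin_two_mul]
    congr 1
    ring
  rw [h3]
  field_simp

theorem na2_nS_large (w : ℝ) (h0 : 21 / 2 ≤ w) (h1 : w ≤ 20) :
    nS nh2 w * Real.exp (7 / 4 * w) ≤ 1 / 10 ^ 6 := by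
  rw [na2_nS w (by linarith) h1]
  set s := √nh2 with hs
  have hs0 : 0 ≤ s := Real.sqrt_nonneg nh2
  have hs2 : s ^ 2 = 209 / 10000 := by
    rw [hs, Real.sq_sqrt (by unfold nh2; norm_num)]
    rfl
  have hsl : s ≤ 1446 / 10000 := by nlinarith
  have hsg : 1445 / 10000 ≤ s := by nlinarith
  set z := w * s / 2 with hz
  have hz0 : 0 < z := by positivity
  have hz1 : z ≤ 3 / 2 := by nlinarith
  have hy2 : (z / 2) ^ 2 = w ^ 2 * (209 / 10000) / 16 := by rw [← hs2, hz]; ring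
  have hy2l : 144 / 1000 ≤ (z / 2) ^ 2 := by rw [hy2]; nlinarith
  have hy2u : (z / 2) ^ 2 ≤ 6 / 10 := by rw [hy2]; nlinarith
  have hcos := Real.cos_bound (x := z / 2) (by rw [abs_of_pos (by linarith)]; linarith)
  rw [abs_of_pos (by linarith : 0 < z / 2)] at hcos
  have hcos2 := (abs_le.1 hcos).2
  have e4 : (z / 2) ^ 4 = ((z / 2) ^ 2) ^ 2 := by ring
  rw [e4] at hcos2
  have hc : Real.cos (z / 2) ≤ 93 / 100 := by nlinarith
  have hc0 : 0 ≤ Real.cos (z / 2) :=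
    Real.cos_nonneg_of_mem_Icc ⟨by linarith [Real.pi_gt_three], by linarith [Real.pi_gt_three]⟩
  have hsp := na2_sinc_pos z hz0.le (by linarith)
  have hle : Real.sinc z ≤ 93 / 100 := by
    rw [na2_sinc_half z hz0.ne']
    calc Real.sinc (z / 2) * Real.cos (z / 2) ≤ 1 * Real.cos (z / 2) :=
          mul_le_mul_of_nonneg_right (Real.sinc_le_one _) hc0
      _ ≤ 93 / 100 := by rw [one_mul]; exact hc
  have hlog : Real.log (Real.sinc z) ≤ -(7 / 100) := by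
    have := Real.log_le_sub_one_of_pos hsp
    linarith
  have hwh : 0 ≤ w / nh2 := by unfold nh2; positivity
  have h2 := mul_le_mul_of_nonneg_right hlog hwh
  have h3 : -(7 / 100) * (w / nh2) ≤ -(33 / 10 * w) := by
    unfold nh2
    have : -(7 / 100) * (w / (209 / 10000)) = -(700 / 209 * w) := by ring
    rw [this]
    nlinarith
  rw [← Real.exp_add]
  have h4 : Real.exp (Real.log (Real.sinc z) * (w / nh2) + 7 / 4 * w) ≤ Real.exp (-16) := by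
    apply Real.exp_le_exp.2
    linarith
  refine h4.trans ?_
  have h5 : Real.exp (-16) = (Real.exp 1)⁻¹ ^ 16 := by
    rw [← Real.exp_neg, ← Real.exp_nat_mul]; congr 1; norm_num
  have h6 : (Real.exp 1)⁻¹ ≤ (27 / 10)⁻¹ := by
    apply inv_anti₀ (by norm_num)
    have := Real.exp_one_gt_d9
    linarith
  have h7 : (Real.exp 1)⁻¹ ^ 16 ≤ (27 / 10)⁻¹ ^ 16 :=
    pow_le_pow_left₀ (by positivity) h6 16
  rw [h5]
  refine h7.trans ?_
  norm_num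

/-- the period of the trigonometric polynomial -/
theorem na2_period (w : ℝ) : nsf 1 w =
    ((Real.exp (-(10 * Real.pi)) : ℝ) : ℂ) * nsf 1 (w - 10 * Real.pi / 3) := by
  unfold nsf
  rw [mul_sum]
  apply sum_congr rfl
  intro k _
  have e1 : -(nlam k) * (w : ℂ) = -(nlam k) * ((w - 10 * Real.pi / 3 : ℝ) : ℂ) +
      ((-(10 * Real.pi) : ℝ) : ℂ) + ((k : ℤ) - 8 : ℤ) * (2 * Real.pi * Complex.I) := by
    apply Complex.ext
    · simp [nlam]; ring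
    · simp [nlam]; ring
  rw [e1, Complex.exp_add, Complex.exp_add, Complex.exp_int_mul_two_pi_mul_I, mul_one,
    Complex.ofReal_exp]
  ring

theorem na2_T_large (w : ℝ) (h0 : 21 / 2 ≤ w) (h1 : w ≤ 20) :
    ‖nsf 1 w‖ * Real.exp (7 / 4 * w) ≤ 38 / 10 ^ 5 := by
  have hp1 := Real.pi_gt_d2
  have hp2 := Real.pi_lt_d2
  set v := w - 10 * Real.pi / 3 with hv
  have hv0 : 0 ≤ v := by rw [hv]; norm_num at hp2; linarith
  have hv1 : v < 21 / 2 := by rw [hv]; norm_num at hp1; linarith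
  have hlow := na2_low v hv0 hv1
  rw [← na2_eq] at hlow
  obtain ⟨p1, _, _⟩ := na2_phi v hv0 hv1.le
  have hS : nS nh2 v * Real.exp (7 / 4 * v) ≤ Real.exp 5 := by
    rw [na2_nS v hv0 (by linarith), ← Real.exp_add]
    apply Real.exp_le_exp.2
    have : 7 / 4 * v - v ^ 3 / 24 ≤ 5 := by
      nlinarith [mul_nonneg (sq_nonneg (v - 15 / 4)) (by linarith : 0 ≤ v + 15 / 2)]
    linarith
  have h5 : Real.exp 5 ≤ 150 := by
    have e5 : Real.exp 5 = Real.exp 1 ^ 5 := by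
      rw [← Real.exp_nat_mul]; congr 1; norm_num
    have h6 := Real.exp_one_lt_d9
    have h7 : Real.exp 1 ^ 5 ≤ (2.7182818286 : ℝ) ^ 5 :=
      pow_le_pow_left₀ (Real.exp_pos 1).le h6.le 5
    rw [e5]
    refine h7.trans ?_
    norm_num
  have hT : ‖nsf 1 v‖ * Real.exp (7 / 4 * v) ≤ 151 := by
    have h6 : ‖nsf 1 v‖ ≤ ‖((nS nh2 v : ℝ) : ℂ)‖ + ‖((nS nh2 v : ℝ) : ℂ) - nsf 1 v‖ := by
      have : nsf 1 v = ((nS nh2 v : ℝ) : ℂ) - (((nS nh2 v : ℝ) : ℂ) - nsf 1 v) := by ring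
      calc ‖nsf 1 v‖ = ‖((nS nh2 v : ℝ) : ℂ) - (((nS nh2 v : ℝ) : ℂ) - nsf 1 v)‖ := by
            rw [← this]
        _ ≤ _ := norm_sub_le _ _
    have hpos : 0 ≤ nS nh2 v := by
      rw [na2_nS v hv0 (by linarith)]; exact (Real.exp_pos _).le
    rw [Complex.norm_real, Real.norm_of_nonneg hpos] at h6
    have h7 := mul_le_mul_of_nonneg_right h6 (Real.exp_pos (7 / 4 * v)).le
    rw [add_mul] at h7
    norm_num at hlow
    linarith
  rw [na2_period, norm_mul, Complex.norm_real, Real.norm_of_nonneg (Real.exp_pos _).le, ← hv]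
  have e1 : Real.exp (-(10 * Real.pi)) * ‖nsf 1 v‖ * Real.exp (7 / 4 * w) =
      Real.exp (-(25 / 6 * Real.pi)) * (‖nsf 1 v‖ * Real.exp (7 / 4 * v)) := by
    have e2 : Real.exp (-(10 * Real.pi)) * Real.exp (7 / 4 * w) =
        Real.exp (-(25 / 6 * Real.pi)) * Real.exp (7 / 4 * v) := by
      rw [← Real.exp_add, ← Real.exp_add]
      congr 1
      rw [hv]
      ring
    linear_combination ‖nsf 1 v‖ * e2
  rw [e1]
  have h8 : Real.exp (-(25 / 6 * Real.pi)) ≤ Real.exp (-13) := by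
    apply Real.exp_le_exp.2
    norm_num at hp1
    linarith
  have h9 : Real.exp (-13) ≤ 25 / 10 ^ 7 := by
    have h5 : Real.exp (-13) = (Real.exp 1)⁻¹ ^ 13 := by
      rw [← Real.exp_neg, ← Real.exp_nat_mul]; congr 1; norm_num
    have h6 : (Real.exp 1)⁻¹ ≤ (27 / 10)⁻¹ := by
      apply inv_anti₀ (by norm_num)
      have := Real.exp_one_gt_d9
      linarith
    have h7 : (Real.exp 1)⁻¹ ^ 13 ≤ (27 / 10)⁻¹ ^ 13 :=
      pow_le_pow_left₀ (by positivity) h6 13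
    rw [h5]
    refine h7.trans ?_
    norm_num
  calc Real.exp (-(25 / 6 * Real.pi)) * (‖nsf 1 v‖ * Real.exp (7 / 4 * v))
      ≤ 25 / 10 ^ 7 * 151 :=
        mul_le_mul (h8.trans h9) hT (by positivity) (by norm_num)
    _ ≤ 38 / 10 ^ 5 := by norm_num

theorem na_fit1 (w : ℝ) (hw : 0 ≤ w) (hw2 : w ≤ 20) :
    ‖((nS nh2 w : ℝ) : ℂ) - nsf 1 w‖ * Real.exp (7 / 4 * w) ≤ 44 / 100000 := by
  rcases lt_or_ge w (21 / 2) with h | h
  · rw [na2_eq]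
    exact na2_low w hw h
  · have h1 := na2_nS_large w h hw2
    have h2 := na2_T_large w h hw2
    have hpos : 0 ≤ nS nh2 w := by
      rw [na2_nS w hw hw2]; exact (Real.exp_pos _).le
    have h3 : ‖((nS nh2 w : ℝ) : ℂ) - nsf 1 w‖ ≤ nS nh2 w + ‖nsf 1 w‖ := by
      refine (norm_sub_le _ _).trans (le_of_eq ?_)
      rw [Complex.norm_real, Real.norm_of_nonneg hpos]
    have h4 := mul_le_mul_of_nonneg_right h3 (Real.exp_pos (7 / 4 * w)).le
    rw [add_mul] at h4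
    norm_num at h1 h2 ⊢
    linarith

end MP_d1b55a
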