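import Pool.Agent.Lib.MP_d1b55a_co.NA0
import Pool.Agent.Lib.MP_d1b55a_co.FA5

/-! MP_d1b55a_co, near arc NA7: expansion of `Esum`.
`κ(x) = 1 - x cot x - i x = -i x + x^2/3 + x^4/45 + ρ(x)`, `0 ≤ ρ(x) ≤ (2/945) x^6 exp (x^2/8)` for `0 ≤ x ≤ 3/2`;
`x_n = ε w_n/2`. So the difference is at most `∑ G_n S_n ρ(x_n) w^j e^{5w/4}` plus the terms with `w_n > 20` (negligible),
`≤ 3.31e-5 ε^5 * sup_w (w^(6+j) e^{1.35 w - w^3/24 + ..}) * nU ε 0 (1/10)`, `nU ε 0 (1/10) ≤ ε + 1/√(1/5) ≤ 2.39`;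
the values are `4.1e-4, 1.9e-3, 9.0e-3`. -/

namespace MP_d1b55a

/-- tolerances for the expansion of `Esum` -/
noncomputable def dEt : ℕ → ℝ := fun j => [42 / 100000, 20 / 10000, 95 / 10000].getD j 0

theorem na7_mono (f f' : ℝ → ℝ) (hf : ∀ x, HasDerivAt f (f' x) x) (h0 : f 0 = 0)
    (h : ∀ x, 0 ≤ x → 0 ≤ f' x) (x : ℝ) (hx : 0 ≤ x) : 0 ≤ f x := by
  have h2 : MonotoneOn f (Set.Ici 0) := by
    refine monotoneOn_of_deriv_nonneg (convex_Ici 0)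
      (fun y _ => (hf y).continuousAt.continuousWithinAt)
      (fun y _ => (hf y).differentiableAt.differentiableWithinAt) ?_
    intro y hy
    rw [interior_Ici] at hy
    rw [(hf y).deriv]
    exact h y (le_of_lt hy)
  have := h2 (Set.mem_Ici.2 le_rfl) (Set.mem_Ici.2 hx) hx
  rwa [h0] at this

theorem na7_s3 (x : ℝ) (hx : 0 ≤ x) : 0 ≤ Real.sin x - (x - x ^ 3 / 6) := by
  refine na7_mono (fun x => Real.sin x - (x - x ^ 3 / 6)) (fun x => Real.cos x - (1 - x ^ 2 / 2))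
    (fun y => ?_) (by simp) (fun y _ => ?_) x hx
  · have h1 := (hasDerivAt_id y).sub ((hasDerivAt_pow 3 y).div_const 6)
    refine ((Real.hasDerivAt_sin y).sub h1).congr_deriv ?_
    norm_num
    ring
  · have := Real.one_sub_sq_div_two_le_cos (x := y)
    linarith

theorem na7_c4 (x : ℝ) (hx : 0 ≤ x) : 0 ≤ (1 - x ^ 2 / 2 + x ^ 4 / 24) - Real.cos x := by
  refine na7_mono (fun x => (1 - x ^ 2 / 2 + x ^ 4 / 24) - Real.cos x)
    (fun x => Real.sin x - (x - x ^ 3 / 6)) (fun y => ?_) (by simp) na7_s3 x hx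
  have h1 := (((hasDerivAt_pow 2 y).div_const 2).const_sub 1).add ((hasDerivAt_pow 4 y).div_const 24)
  refine (h1.sub (Real.hasDerivAt_cos y)).congr_deriv ?_
  norm_num
  ring

theorem na7_s5 (x : ℝ) (hx : 0 ≤ x) : 0 ≤ (x - x ^ 3 / 6 + x ^ 5 / 120) - Real.sin x := by
  refine na7_mono (fun x => (x - x ^ 3 / 6 + x ^ 5 / 120) - Real.sin x)
    (fun x => (1 - x ^ 2 / 2 + x ^ 4 / 24) - Real.cos x) (fun y => ?_) (by simp) na7_c4 x hx
  have h1 := ((hasDerivAt_id y).sub ((hasDerivAt_pow 3 y).div_const 6)).add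
    ((hasDerivAt_pow 5 y).div_const 120)
  refine (h1.sub (Real.hasDerivAt_sin y)).congr_deriv ?_
  norm_num
  ring

theorem na7_c6 (x : ℝ) (hx : 0 ≤ x) :
    0 ≤ Real.cos x - (1 - x ^ 2 / 2 + x ^ 4 / 24 - x ^ 6 / 720) := by
  refine na7_mono (fun x => Real.cos x - (1 - x ^ 2 / 2 + x ^ 4 / 24 - x ^ 6 / 720))
    (fun x => (x - x ^ 3 / 6 + x ^ 5 / 120) - Real.sin x) (fun y => ?_) (by simp) na7_s5 x hx
  have h1 := ((((hasDerivAt_pow 2 y).div_const 2).const_sub 1).add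
    ((hasDerivAt_pow 4 y).div_const 24)).sub ((hasDerivAt_pow 6 y).div_const 720)
  refine ((Real.hasDerivAt_cos y).sub h1).congr_deriv ?_
  norm_num
  ring

theorem na7_s7 (x : ℝ) (hx : 0 ≤ x) :
    0 ≤ Real.sin x - (x - x ^ 3 / 6 + x ^ 5 / 120 - x ^ 7 / 5040) := by
  refine na7_mono (fun x => Real.sin x - (x - x ^ 3 / 6 + x ^ 5 / 120 - x ^ 7 / 5040))
    (fun x => Real.cos x - (1 - x ^ 2 / 2 + x ^ 4 / 24 - x ^ 6 / 720)) (fun y => ?_) (by simp)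
    na7_c6 x hx
  have h1 := (((hasDerivAt_id y).sub ((hasDerivAt_pow 3 y).div_const 6)).add
    ((hasDerivAt_pow 5 y).div_const 120)).sub ((hasDerivAt_pow 7 y).div_const 5040)
  refine ((Real.hasDerivAt_sin y).sub h1).congr_deriv ?_
  norm_num
  ring

theorem na7_c8 (x : ℝ) (hx : 0 ≤ x) :
    0 ≤ (1 - x ^ 2 / 2 + x ^ 4 / 24 - x ^ 6 / 720 + x ^ 8 / 40320) - Real.cos x := by
  refine na7_mono (fun x => (1 - x ^ 2 / 2 + x ^ 4 / 24 - x ^ 6 / 720 + x ^ 8 / 40320) - Real.cos x)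
    (fun x => Real.sin x - (x - x ^ 3 / 6 + x ^ 5 / 120 - x ^ 7 / 5040)) (fun y => ?_) (by simp)
    na7_s7 x hx
  have h1 := (((((hasDerivAt_pow 2 y).div_const 2).const_sub 1).add
    ((hasDerivAt_pow 4 y).div_const 24)).sub ((hasDerivAt_pow 6 y).div_const 720)).add
    ((hasDerivAt_pow 8 y).div_const 40320)
  refine (h1.sub (Real.hasDerivAt_cos y)).congr_deriv ?_
  norm_num
  ring

theorem na7_s9 (x : ℝ) (hx : 0 ≤ x) :
    0 ≤ (x - x ^ 3 / 6 + x ^ 5 / 120 - x ^ 7 / 5040 + x ^ 9 / 362880) - Real.sin x := by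
  refine na7_mono
    (fun x => (x - x ^ 3 / 6 + x ^ 5 / 120 - x ^ 7 / 5040 + x ^ 9 / 362880) - Real.sin x)
    (fun x => (1 - x ^ 2 / 2 + x ^ 4 / 24 - x ^ 6 / 720 + x ^ 8 / 40320) - Real.cos x)
    (fun y => ?_) (by simp) na7_c8 x hx
  have h1 := ((((hasDerivAt_id y).sub ((hasDerivAt_pow 3 y).div_const 6)).add
    ((hasDerivAt_pow 5 y).div_const 120)).sub ((hasDerivAt_pow 7 y).div_const 5040)).add
    ((hasDerivAt_pow 9 y).div_const 362880)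
  refine (h1.sub (Real.hasDerivAt_sin y)).congr_deriv ?_
  norm_num
  ring

/-- `sinc x (1 - x²/3 - x⁴/45) - cos x` -/
noncomputable def na7_sg (x : ℝ) : ℝ :=
  Real.sinc x * (1 - x ^ 2 / 3 - x ^ 4 / 45) - Real.cos x

theorem na7_sg_le (x : ℝ) (h0 : 0 < x) (h1 : x ≤ 3 / 2) : |na7_sg x| ≤ 2 / 945 * x ^ 6 := by
  have hP : 0 ≤ 1 - x ^ 2 / 3 - x ^ 4 / 45 := by
    have h2 : x ^ 2 ≤ 9 / 4 := by nlinarith
    nlinarith
  have h2 : x ^ 2 ≤ 9 / 4 := by nlinarith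
  have e : na7_sg x = (Real.sin x * (1 - x ^ 2 / 3 - x ^ 4 / 45) - x * Real.cos x) / x := by
    unfold na7_sg
    rw [Real.sinc_of_ne_zero h0.ne']
    field_simp
  have a1 := na7_s9 x h0.le
  have a2 := na7_s7 x h0.le
  have a3 := na7_c6 x h0.le
  have a4 := na7_c4 x h0.le
  have hx7 : 0 ≤ x ^ 7 := by positivity
  rw [e, abs_div, abs_of_pos h0, div_le_iff₀ h0, abs_le]
  have b1 := mul_nonneg a1 hP
  have b2 := mul_nonneg a2 hP
  have b3 := mul_nonneg h0.le a3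
  have b4 := mul_nonneg h0.le a4
  constructor
  · have key : 0 ≤ x ^ 7 * (2 / 945 + (2 / 945 - 1 / 720) +
        x ^ 2 * ((1 / 3) / 5040 - (1 / 45) / 120 + x ^ 2 * ((1 / 45) / 5040))) := by
      refine mul_nonneg hx7 ?_
      nlinarith
    nlinarith
  · have key : 0 ≤ x ^ 7 * x ^ 2 * (-(1 / 362880 + (1 / 3) / 5040 - (1 / 45) / 120) -
        x ^ 2 * (-(1 / 3) / 362880 + (1 / 45) / 5040) + x ^ 4 * ((1 / 45) / 362880)) := by
      refine mul_nonneg (by positivity) ?_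
      nlinarith [pow_nonneg h0.le 4]
    nlinarith

theorem na7_sinc_le (x : ℝ) (h0 : 0 < x) (h1 : x ≤ 3 / 2) :
    |Real.sinc x| ≤ Real.exp (-(x ^ 2 / 6)) := by
  have hpos : 0 ≤ Real.sinc x := by
    rw [Real.sinc_of_ne_zero h0.ne']
    refine div_nonneg (Real.sin_nonneg_of_nonneg_of_le_pi h0.le ?_) h0.le
    linarith [Real.pi_gt_three]
  rw [abs_of_nonneg hpos]
  have h2 : Real.sinc x ≤ 1 - x ^ 2 / 6 + x ^ 4 / 120 := by
    rw [Real.sinc_of_ne_zero h0.ne', div_le_iff₀ h0]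
    have := na7_s5 x h0.le
    linarith
  have h3 : x ^ 2 ≤ 9 / 4 := by nlinarith
  have h4 : 1 - x ^ 2 / 18 ≤ Real.exp (-(x ^ 2 / 18)) := by
    have := Real.add_one_le_exp (-(x ^ 2 / 18))
    linarith
  have h5 : (1 - x ^ 2 / 18) ^ 3 ≤ Real.exp (-(x ^ 2 / 18)) ^ 3 := by
    refine pow_le_pow_left₀ ?_ h4 3
    linarith
  have h6 : Real.exp (-(x ^ 2 / 18)) ^ 3 = Real.exp (-(x ^ 2 / 6)) := by
    rw [← Real.exp_nat_mul]
    congr 1
    push_cast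
    ring
  rw [← h6]
  refine h2.trans (le_trans ?_ h5)
  have h7 : 0 ≤ x ^ 4 * (9 / 4 - x ^ 2) := mul_nonneg (by positivity) (by linarith)
  nlinarith [pow_nonneg h0.le 4]

theorem na7_sup (k : ℕ) (w v : ℝ) (hw : 0 ≤ w) (hv : 0 < v) (h : (k : ℝ) / v + 7 / 4 ≤ v ^ 2 / 8) :
    w ^ k * Real.exp (7 / 4 * w - w ^ 3 / 24) ≤ v ^ k * Real.exp (-(k : ℝ) + v ^ 3 / 12) := by
  have h1 : w ≤ v * Real.exp (w / v - 1) := by
    have := Real.add_one_le_exp (w / v - 1)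
    calc w = v * (w / v - 1 + 1) := by field_simp; ring
      _ ≤ _ := mul_le_mul_of_nonneg_left this hv.le
  have h2 : w ^ k ≤ v ^ k * Real.exp (k * (w / v - 1)) := by
    rw [Real.exp_nat_mul, ← mul_pow]
    exact pow_le_pow_left₀ hw h1 k
  calc w ^ k * Real.exp (7 / 4 * w - w ^ 3 / 24)
      ≤ v ^ k * Real.exp (k * (w / v - 1)) * Real.exp (7 / 4 * w - w ^ 3 / 24) :=
        mul_le_mul_of_nonneg_right h2 (Real.exp_pos _).le
    _ = v ^ k * Real.exp (k * (w / v - 1) + (7 / 4 * w - w ^ 3 / 24)) := by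
        rw [mul_assoc, ← Real.exp_add]
    _ ≤ _ := by
        refine mul_le_mul_of_nonneg_left (Real.exp_le_exp.2 ?_) (by positivity)
        have h3 : 0 ≤ (w - v) ^ 2 * (w + 2 * v) := by positivity
        have h4 : w * ((k : ℝ) / v + 7 / 4) ≤ w * (v ^ 2 / 8) := mul_le_mul_of_nonneg_left h hw
        have h5 : (k : ℝ) * (w / v - 1) = w * ((k : ℝ) / v) - k := by ring
        rw [h5]
        nlinarith

/-- weights of the comparison -/
noncomputable def na7_C : ℕ → ℝ := fun j => [41 / 100000, 196 / 100000, 93 / 10000].getD j 0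

theorem na7_exp1 : Real.exp 1 ≤ 2.7182818286 := Real.exp_one_lt_d9.le

theorem na7_e4 : Real.exp 4 ≤ 54.61 := by
  have h : Real.exp 4 = Real.exp 1 ^ 4 := by rw [← Real.exp_nat_mul]; norm_num
  rw [h]
  calc Real.exp 1 ^ 4 ≤ 2.7182818286 ^ 4 := pow_le_pow_left₀ (Real.exp_pos _).le na7_exp1 4
    _ ≤ _ := by norm_num

theorem na7_e375 : Real.exp (15 / 4) ≤ 42.6 := by
  have h : Real.exp (15 / 4) ^ 4 = Real.exp 1 ^ 15 := by
    rw [← Real.exp_nat_mul, ← Real.exp_nat_mul]; norm_num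
  by_contra hc
  push Not at hc
  have h1 : (42.6 : ℝ) ^ 4 < Real.exp (15 / 4) ^ 4 := pow_lt_pow_left₀ hc (by norm_num) (by norm_num)
  rw [h] at h1
  have h2 : Real.exp 1 ^ 15 ≤ 2.7182818286 ^ 15 := pow_le_pow_left₀ (Real.exp_pos _).le na7_exp1 15
  norm_num at h1 h2
  linarith

theorem na7_e36 : Real.exp (18 / 5) ≤ 36.7 := by
  have h : Real.exp (18 / 5) ^ 5 = Real.exp 1 ^ 18 := by
    rw [← Real.exp_nat_mul, ← Real.exp_nat_mul]; norm_num
  by_contra hc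
  push Not at hc
  have h1 : (36.7 : ℝ) ^ 5 < Real.exp (18 / 5) ^ 5 := pow_lt_pow_left₀ hc (by norm_num) (by norm_num)
  rw [h] at h1
  have h2 : Real.exp 1 ^ 18 ≤ 2.7182818286 ^ 18 := pow_le_pow_left₀ (Real.exp_pos _).le na7_exp1 18
  norm_num at h1 h2
  linarith

theorem na7_e38 : Real.exp (3 / 8) ≤ 1.4551 := by
  have h : Real.exp (3 / 8) ^ 8 = Real.exp 1 ^ 3 := by
    rw [← Real.exp_nat_mul, ← Real.exp_nat_mul]; norm_num
  by_contra hc
  push Not at hc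
  have h1 : (1.4551 : ℝ) ^ 8 < Real.exp (3 / 8) ^ 8 :=
    pow_lt_pow_left₀ hc (by norm_num) (by norm_num)
  rw [h] at h1
  have h2 : Real.exp 1 ^ 3 ≤ 2.7182818286 ^ 3 := pow_le_pow_left₀ (Real.exp_pos _).le na7_exp1 3
  norm_num at h1 h2
  linarith

/-- the numerical suprema -/
theorem na7_num (j : ℕ) (hj : j ≤ 2) (w : ℝ) (hw : 0 ≤ w) :
    2 / 945 / 64 * 1.4551 * (1443 / 10000) ^ 5 * (w ^ (5 + j) * Real.exp (7 / 4 * w - w ^ 3 / 24)) ≤
      na7_C j := by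
  have hk : j = 0 ∨ j = 1 ∨ j = 2 := by omega
  rcases hk with rfl | rfl | rfl
  · have h1 := na7_sup 5 w (19 / 4) hw (by norm_num) (by norm_num)
    have h2 : Real.exp (-((5 : ℕ) : ℝ) + (19 / 4 : ℝ) ^ 3 / 12) ≤ 54.61 :=
      (Real.exp_le_exp.2 (by norm_num)).trans na7_e4
    have h3 : w ^ 5 * Real.exp (7 / 4 * w - w ^ 3 / 24) ≤ (19 / 4) ^ 5 * 54.61 :=
      h1.trans (mul_le_mul_of_nonneg_left h2 (by positivity))
    calc _ ≤ 2 / 945 / 64 * 1.4551 * (1443 / 10000) ^ 5 * ((19 / 4) ^ 5 * 54.61) :=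
          mul_le_mul_of_nonneg_left h3 (by norm_num)
      _ ≤ na7_C 0 := by norm_num [na7_C]
  · have h1 := na7_sup 6 w (489 / 100) hw (by norm_num) (by norm_num)
    have h2 : Real.exp (-((6 : ℕ) : ℝ) + (489 / 100 : ℝ) ^ 3 / 12) ≤ 42.6 :=
      (Real.exp_le_exp.2 (by norm_num)).trans na7_e375
    have h3 : w ^ 6 * Real.exp (7 / 4 * w - w ^ 3 / 24) ≤ (489 / 100) ^ 6 * 42.6 :=
      h1.trans (mul_le_mul_of_nonneg_left h2 (by positivity))
    calc _ ≤ 2 / 945 / 64 * 1.4551 * (1443 / 10000) ^ 5 * ((489 / 100) ^ 6 * 42.6) :=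
          mul_le_mul_of_nonneg_left h3 (by norm_num)
      _ ≤ na7_C 1 := by norm_num [na7_C]
  · have h1 := na7_sup 7 w (251 / 50) hw (by norm_num) (by norm_num)
    have h2 : Real.exp (-((7 : ℕ) : ℝ) + (251 / 50 : ℝ) ^ 3 / 12) ≤ 36.7 :=
      (Real.exp_le_exp.2 (by norm_num)).trans na7_e36
    have h3 : w ^ 7 * Real.exp (7 / 4 * w - w ^ 3 / 24) ≤ (251 / 50) ^ 7 * 36.7 :=
      h1.trans (mul_le_mul_of_nonneg_left h2 (by positivity))
    calc _ ≤ 2 / 945 / 64 * 1.4551 * (1443 / 10000) ^ 5 * ((251 / 50) ^ 7 * 36.7) :=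
          mul_le_mul_of_nonneg_left h3 (by norm_num)
      _ ≤ na7_C 2 := by norm_num [na7_C]

theorem na7_eps (ε : ℝ) (h0 : 0 < ε) (h1 : ε ^ 3 ≤ 3 / 1000) :
    ε ≤ 1443 / 10000 ∧ ε ^ 2 ≤ 2083 / 100000 := by
  have h2 : ε ≤ 1443 / 10000 := by
    by_contra hc
    push Not at hc
    have : (1443 / 10000 : ℝ) ^ 3 < ε ^ 3 := by gcongr
    norm_num at this h1
    linarith
  exact ⟨h2, by nlinarith⟩

theorem na7_w (ε : ℝ) (n : ℕ) : xn ε n = ε * wn ε n / 2 := by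
  unfold xn wn
  ring

/-- small `x` -/
theorem na7_reg1 (ε : ℝ) (h0 : 0 < ε) (h1 : ε ^ 3 ≤ 3 / 1000) (j : ℕ) (hj : j ≤ 2) (n : ℕ)
    (hn : 1 ≤ n) (hx : xn ε n ≤ 3 / 2) :
    wn ε n ^ j * Real.exp (5 / 4 * wn ε n) *
      (|Real.sinc (xn ε n)| ^ (n - 1) * |na7_sg (xn ε n)|) ≤
      na7_C j * (ε * wn ε n * Real.exp (-(wn ε n / 2))) := by
  obtain ⟨he1, he2⟩ := na7_eps ε h0 h1
  have hn0 : (0 : ℝ) < n := by exact_mod_cast hn
  have hx0 : 0 < xn ε n := by unfold xn; positivity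
  have hw0 : 0 < wn ε n := by unfold wn; positivity
  have a1 := na7_sg_le (xn ε n) hx0 hx
  have a2 := na7_sinc_le (xn ε n) hx0 hx
  obtain ⟨m, rfl⟩ : ∃ m, n = m + 1 := ⟨n - 1, by omega⟩
  rw [Nat.add_sub_cancel]
  set x := xn ε (m + 1) with hxd
  set w := wn ε (m + 1) with hwd
  have hxw : x = ε * w / 2 := na7_w ε (m + 1)
  have a3 : |Real.sinc x| ^ m ≤ Real.exp (3 / 8) * Real.exp (-(w ^ 3 / 24)) := by
    calc |Real.sinc x| ^ m ≤ Real.exp (-(x ^ 2 / 6)) ^ m := pow_le_pow_left₀ (abs_nonneg _) a2 m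
      _ = Real.exp (m * (-(x ^ 2 / 6))) := by rw [Real.exp_nat_mul]
      _ ≤ Real.exp (3 / 8 + -(w ^ 3 / 24)) := by
          refine Real.exp_le_exp.2 ?_
          have h2 : ((m : ℝ) + 1) * (x ^ 2 / 6) = w ^ 3 / 24 := by
            rw [hxw]
            have : w = ((m : ℝ) + 1) * ε ^ 2 := by
              rw [hwd]; unfold wn; push_cast; ring
            calc ((m : ℝ) + 1) * ((ε * w / 2) ^ 2 / 6) = (((m : ℝ) + 1) * ε ^ 2) * w ^ 2 / 24 := by
                  ring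
              _ = w ^ 3 / 24 := by rw [← this]; ring
          nlinarith
      _ = _ := Real.exp_add _ _
  have a4 := na7_e38
  have a5 : |Real.sinc x| ^ m ≤ 1.4551 * Real.exp (-(w ^ 3 / 24)) :=
    a3.trans (mul_le_mul_of_nonneg_right a4 (Real.exp_pos _).le)
  have a6 : |Real.sinc x| ^ m * |na7_sg x| ≤
      1.4551 * Real.exp (-(w ^ 3 / 24)) * (2 / 945 * x ^ 6) :=
    mul_le_mul a5 a1 (abs_nonneg _) (by positivity)
  have a7 := na7_num j hj w hw0.le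
  have a8 : ε ^ 5 ≤ (1443 / 10000) ^ 5 := pow_le_pow_left₀ h0.le he1 5
  have e1 : Real.exp (5 / 4 * w) = Real.exp (7 / 4 * w) * Real.exp (-(w / 2)) := by
    rw [← Real.exp_add]; congr 1; ring
  have e2 : Real.exp (7 / 4 * w - w ^ 3 / 24) = Real.exp (7 / 4 * w) * Real.exp (-(w ^ 3 / 24)) := by
    rw [← Real.exp_add]; congr 1
  calc w ^ j * Real.exp (5 / 4 * w) * (|Real.sinc x| ^ m * |na7_sg x|)
      ≤ w ^ j * Real.exp (5 / 4 * w) * (1.4551 * Real.exp (-(w ^ 3 / 24)) * (2 / 945 * x ^ 6)) :=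
        mul_le_mul_of_nonneg_left a6 (by positivity)
    _ = (2 / 945 / 64 * 1.4551 * ε ^ 5 * (w ^ (5 + j) * Real.exp (7 / 4 * w - w ^ 3 / 24))) *
        (ε * w * Real.exp (-(w / 2))) := by
        rw [e1, e2, hxw, pow_add]
        ring
    _ ≤ (2 / 945 / 64 * 1.4551 * (1443 / 10000) ^ 5 *
        (w ^ (5 + j) * Real.exp (7 / 4 * w - w ^ 3 / 24))) *
        (ε * w * Real.exp (-(w / 2))) := by gcongr
    _ ≤ _ := mul_le_mul_of_nonneg_right a7 (by positivity)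

/-- large `x` -/
theorem na7_reg2 (ε : ℝ) (h0 : 0 < ε) (h1 : ε ^ 3 ≤ 3 / 1000) (j : ℕ) (hj : j ≤ 2) (n : ℕ)
    (hn : 1 ≤ n) (hx : 3 / 2 < xn ε n) :
    wn ε n ^ j * Real.exp (5 / 4 * wn ε n) *
      (|Real.sinc (xn ε n)| ^ (n - 1) * |na7_sg (xn ε n)|) ≤
      na7_C j * (ε * wn ε n * Real.exp (-(wn ε n / 2))) := by
  obtain ⟨he1, he2⟩ := na7_eps ε h0 h1
  have hn0 : (0 : ℝ) < n := by exact_mod_cast hn
  have hx0 : 0 < xn ε n := by linarith
  have hw0 : 0 < wn ε n := by unfold wn; positivity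
  have hC : 4 / 10000 ≤ na7_C j := by
    have hk : j = 0 ∨ j = 1 ∨ j = 2 := by omega
    rcases hk with rfl | rfl | rfl <;> norm_num [na7_C]
  have hxn : xn ε n = n * ε ^ 3 / 2 := rfl
  have hn1 : (1000 : ℝ) ≤ n := by
    have h2 : (n : ℝ) * ε ^ 3 ≤ n * (3 / 1000) := mul_le_mul_of_nonneg_left h1 hn0.le
    rw [hxn] at hx
    linarith
  have hn2 : 1000 ≤ n := by exact_mod_cast hn1
  have hen : 1 ≤ (n : ℝ) * ε := by
    by_contra hc
    push Not at hc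
    have h2 : (n : ℝ) * ε ^ 3 = (n * ε) * ε ^ 2 := by ring
    have h3 : ((n : ℝ) * ε) * ε ^ 2 ≤ 1 * ε ^ 2 := mul_le_mul_of_nonneg_right hc.le (by positivity)
    rw [hxn] at hx
    linarith
  have hwn : wn ε n ≤ n * (2083 / 100000) := by
    unfold wn
    exact mul_le_mul_of_nonneg_left he2 hn0.le
  have hw1 : 1 ≤ wn ε n := by
    have h2 : xn ε n = ε * wn ε n / 2 := na7_w ε n
    nlinarith
  obtain ⟨m, rfl⟩ : ∃ m, n = m + 4 := ⟨n - 4, by omega⟩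
  clear hn2 hxn hn0 hn
  have e0 : m + 4 - 1 = m + 3 := rfl
  rw [e0]
  have hm : ((m + 4 : ℕ) : ℝ) = (m : ℝ) + 4 := by push_cast; ring
  rw [hm] at hn1 hen hwn
  set x := xn ε (m + 4) with hxd
  set w := wn ε (m + 4) with hwd
  have s1 : |Real.sinc x| ≤ 1 / x := by
    have h2 := fs_sinc_mul_abs x
    rw [abs_of_pos hx0] at h2
    rwa [le_div_iff₀ hx0]
  have s2 : |na7_sg x| ≤ x ^ 3 := by
    unfold na7_sg
    have h2 : |Real.sinc x * (1 - x ^ 2 / 3 - x ^ 4 / 45)| ≤ 1 / x * (1 + x ^ 2 / 3 + x ^ 4 / 45) := by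
      rw [abs_mul]
      refine mul_le_mul s1 ?_ (abs_nonneg _) (by positivity)
      rw [abs_le]
      constructor <;> nlinarith [pow_nonneg hx0.le 4, pow_nonneg hx0.le 2]
    have h3 := abs_sub (Real.sinc x * (1 - x ^ 2 / 3 - x ^ 4 / 45)) (Real.cos x)
    have h4 := Real.abs_cos_le_one x
    have h5 : 1 / x * (1 + x ^ 2 / 3 + x ^ 4 / 45) = 1 / x + x / 3 + x ^ 3 / 45 := by
      field_simp
    have h6 : 1 / x ≤ 1 := by
      rw [div_le_one hx0]; linarith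
    have h7 : x ≤ x ^ 3 * (4 / 9) := by
      have : 9 / 4 ≤ x ^ 2 := by nlinarith
      nlinarith
    have h8 : 27 / 8 ≤ x ^ 3 := by
      have : (3 / 2 : ℝ) ^ 3 ≤ x ^ 3 := pow_le_pow_left₀ (by norm_num) hx.le 3
      norm_num at this
      linarith
    rw [h5] at h2
    linarith
  have s3 : |Real.sinc x| ^ (m + 3) * |na7_sg x| ≤ (1 / x) ^ m := by
    calc |Real.sinc x| ^ (m + 3) * |na7_sg x| ≤ (1 / x) ^ (m + 3) * x ^ 3 := by gcongr
      _ = (1 / x) ^ m := by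
          rw [pow_add, mul_assoc, ← mul_pow, one_div_mul_cancel hx0.ne', one_pow, mul_one]
  have s4 : 1 / x ≤ Real.exp (-(2 / 5)) := by
    rw [Real.exp_neg, one_div]
    refine inv_anti₀ (Real.exp_pos _) ?_
    have h2 : Real.exp (2 / 5) ^ 5 = Real.exp 1 ^ 2 := by
      rw [← Real.exp_nat_mul, ← Real.exp_nat_mul]; norm_num
    have h3 : Real.exp 1 ^ 2 ≤ 2.7182818286 ^ 2 := pow_le_pow_left₀ (Real.exp_pos _).le na7_exp1 2
    have h4 : Real.exp (2 / 5) ≤ 3 / 2 := by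
      by_contra hc
      push Not at hc
      have h5 : (3 / 2 : ℝ) ^ 5 < Real.exp (2 / 5) ^ 5 :=
        pow_lt_pow_left₀ hc (by norm_num) (by norm_num)
      rw [h2] at h5
      norm_num at h5 h3
      linarith
    linarith
  have s5 : |Real.sinc x| ^ (m + 3) * |na7_sg x| ≤ Real.exp (-(2 / 5) * m) := by
    refine s3.trans ((pow_le_pow_left₀ (by positivity) s4 m).trans (le_of_eq ?_))
    rw [← Real.exp_nat_mul]
    congr 1
    ring
  have s6 : w ^ j ≤ w * Real.exp w := by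
    have h2 := Real.add_one_le_exp w
    have h3 : w ^ j ≤ w ^ 2 := pow_le_pow_right₀ hw1 hj
    nlinarith
  have s7 : w ^ j * Real.exp (5 / 4 * w) * (|Real.sinc x| ^ (m + 3) * |na7_sg x|) ≤
      w * Real.exp w * Real.exp (5 / 4 * w) * Real.exp (-(2 / 5) * m) := by
    refine mul_le_mul (mul_le_mul_of_nonneg_right s6 (Real.exp_pos _).le) s5 (by positivity)
      (by positivity)
  refine s7.trans ?_
  set N : ℝ := (m : ℝ) + 4 with hN
  have s8 : 2500 * N ≤ Real.exp (17 / 50 * N) := by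
    have h2 := Real.pow_div_factorial_le_exp (17 / 50 * N) (by positivity) 3
    have h3 : 2500 * N ≤ (17 / 50 * N) ^ 3 / ((Nat.factorial 3 : ℕ) : ℝ) := by
      have h4 : ((Nat.factorial 3 : ℕ) : ℝ) = 6 := by norm_num [Nat.factorial]
      rw [h4]
      have h5 : 1000000 ≤ N ^ 2 := by nlinarith
      have h6 : 1000000 * N ≤ N ^ 2 * N := mul_le_mul_of_nonneg_right h5 (by linarith)
      nlinarith
    exact h3.trans h2
  have s9 : Real.exp (11 / 4 * w + -(2 / 5) * m) ≤ Real.exp (-(17 / 50 * N)) := by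
    refine Real.exp_le_exp.2 ?_
    have : (m : ℝ) = N - 4 := by rw [hN]; ring
    rw [this]
    linarith
  have s10 : Real.exp (-(17 / 50 * N)) ≤ 4 / 10000 * ε := by
    rw [Real.exp_neg]
    have h2 : (Real.exp (17 / 50 * N))⁻¹ ≤ (2500 * N)⁻¹ := inv_anti₀ (by positivity) s8
    refine h2.trans ?_
    rw [inv_le_iff_one_le_mul₀ (by positivity)]
    nlinarith
  have e1 : w * Real.exp w * Real.exp (5 / 4 * w) * Real.exp (-(2 / 5) * m) =
      Real.exp (11 / 4 * w + -(2 / 5) * m) * (w * Real.exp (-(w / 2))) := by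
    have h2 : Real.exp w * Real.exp (5 / 4 * w) * Real.exp (-(2 / 5) * m) =
      Real.exp (11 / 4 * w + -(2 / 5) * m) * Real.exp (-(w / 2)) := by
      rw [← Real.exp_add, ← Real.exp_add, ← Real.exp_add]
      congr 1
      ring
    calc _ = w * (Real.exp w * Real.exp (5 / 4 * w) * Real.exp (-(2 / 5) * m)) := by ring
      _ = _ := by rw [h2]; ring
  rw [e1]
  calc Real.exp (11 / 4 * w + -(2 / 5) * m) * (w * Real.exp (-(w / 2)))
      ≤ (4 / 10000 * ε) * (w * Real.exp (-(w / 2))) :=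
        mul_le_mul_of_nonneg_right (s9.trans s10) (by positivity)
    _ ≤ (na7_C j * ε) * (w * Real.exp (-(w / 2))) := by gcongr
    _ = _ := by ring

theorem na7_all (ε : ℝ) (h0 : 0 < ε) (h1 : ε ^ 3 ≤ 3 / 1000) (j : ℕ) (hj : j ≤ 2) (n : ℕ)
    (hn : 1 ≤ n) :
    wn ε n ^ j * Real.exp (5 / 4 * wn ε n) *
      (|Real.sinc (xn ε n)| ^ (n - 1) * |na7_sg (xn ε n)|) ≤
      na7_C j * (ε * wn ε n * Real.exp (-(wn ε n / 2))) := by
  rcases le_or_gt (xn ε n) (3 / 2) with h | h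
  · exact na7_reg1 ε h0 h1 j hj n hn h
  · exact na7_reg2 ε h0 h1 j hj n hn h

theorem na7_q (ε : ℝ) (n : ℕ) : ε * (Gn n * wn ε n) * Real.exp (-(wn ε n / 2)) =
    ε ^ 3 * (Gn n * n * Real.exp (-(ε ^ 2 / 2)) ^ n) := by
  have : Real.exp (-(wn ε n / 2)) = Real.exp (-(ε ^ 2 / 2)) ^ n := by
    rw [← Real.exp_nat_mul]
    congr 1
    unfold wn
    ring
  rw [this]
  unfold wn
  ring

theorem na7_q_summable (ε : ℝ) (h0 : 0 < ε) :
    Summable fun n : ℕ => Gn n * n * Real.exp (-(ε ^ 2 / 2)) ^ n := by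
  have hq0 : 0 < Real.exp (-(ε ^ 2 / 2)) := Real.exp_pos _
  have hq1 : Real.exp (-(ε ^ 2 / 2)) < 1 := by
    rw [Real.exp_lt_one_iff]
    have : 0 < ε ^ 2 := by positivity
    linarith
  have h2 := summable_pow_mul_geometric_of_norm_lt_one (R := ℝ) 1
    (r := Real.exp (-(ε ^ 2 / 2))) (by rw [Real.norm_of_nonneg hq0.le]; exact hq1)
  refine h2.of_nonneg_of_le (fun n => ?_) (fun n => ?_)
  · have := Gn_nonneg n
    positivity
  · have := Gn_le_one n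
    rw [pow_one]
    refine mul_le_mul_of_nonneg_right ?_ (by positivity)
    have hn : (0 : ℝ) ≤ n := Nat.cast_nonneg n
    nlinarith

theorem na7_sum (ε : ℝ) (h0 : 0 < ε) (h1 : ε ^ 3 ≤ 3 / 1000) :
    ε ^ 3 * ∑' n : ℕ, Gn n * n * Real.exp (-(ε ^ 2 / 2)) ^ n ≤ 102 / 100 := by
  obtain ⟨he1, he2⟩ := na7_eps ε h0 h1
  set q : ℝ := Real.exp (-(ε ^ 2 / 2)) with hq
  have hq0 : 0 < q := Real.exp_pos _
  have he0 : 0 < ε ^ 2 := by positivity
  have hq1 : q < 1 := by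
    rw [hq, Real.exp_lt_one_iff]
    linarith
  have hqn : ‖((q : ℝ) : ℂ)‖ < 1 := by
    rw [Complex.norm_real, Real.norm_of_nonneg hq0.le]
    exact hq1
  have hu1 : 1 - q ≤ ε ^ 2 / 2 := by
    have := Real.add_one_le_exp (-(ε ^ 2 / 2))
    rw [← hq] at this
    linarith
  have hu2 : ε ^ 2 / 2 - ε ^ 4 / 8 ≤ 1 - q := by
    have h2 := Real.quadratic_le_exp_of_nonneg (x := ε ^ 2 / 2) (by positivity)
    have h3 : q * Real.exp (ε ^ 2 / 2) = 1 := by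
      rw [hq, ← Real.exp_add]; simp
    have h4 : q * (1 + ε ^ 2 / 2 + (ε ^ 2 / 2) ^ 2 / 2) ≤ 1 :=
      (mul_le_mul_of_nonneg_left h2 hq0.le).trans h3.le
    have h5 : 0 < 1 + ε ^ 2 / 2 + (ε ^ 2 / 2) ^ 2 / 2 := by positivity
    by_contra hc
    push Not at hc
    have h6 : 1 - ε ^ 2 / 2 + ε ^ 4 / 8 < q := by linarith
    have h7 : (1 - ε ^ 2 / 2 + ε ^ 4 / 8) * (1 + ε ^ 2 / 2 + (ε ^ 2 / 2) ^ 2 / 2) <
        q * (1 + ε ^ 2 / 2 + (ε ^ 2 / 2) ^ 2 / 2) := mul_lt_mul_of_pos_right h6 h5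
    have h8 : (1 - ε ^ 2 / 2 + ε ^ 4 / 8) * (1 + ε ^ 2 / 2 + (ε ^ 2 / 2) ^ 2 / 2) =
        1 + ε ^ 8 / 64 := by ring
    have h9 : 0 ≤ ε ^ 8 := by positivity
    linarith
  have hq2 : 0 < 1 - q := by linarith
  set l : ℝ := Real.sqrt (2 * (1 - q)) with hl
  have hl0 : 0 < l := Real.sqrt_pos.2 (by linarith)
  have hl2 : l ^ 2 = 2 * (1 - q) := Real.sq_sqrt (by linarith)
  have hnorm : ‖1 - ((q : ℝ) : ℂ)‖ = 1 - q := by
    rw [← Complex.ofReal_one, ← Complex.ofReal_sub, Complex.norm_real, Real.norm_of_nonneg hq2.le]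
  have hb := (ug_bounds (q : ℂ) hqn l hl0 (by rw [hnorm]; exact hl2)).2.2.1
  have e1 : ug 1 (q : ℂ) = ((∑' n : ℕ, Gn n * n * q ^ n : ℝ) : ℂ) := by
    unfold ug
    rw [Complex.ofReal_tsum]
    refine tsum_congr (fun n => ?_)
    rw [Nat.choose_one_right]
    push_cast
    ring
  rw [e1, Complex.norm_real, Real.norm_of_nonneg (tsum_nonneg (fun n => by
    have := Gn_nonneg n
    positivity))] at hb
  have hle : l ^ 2 ≤ ε ^ 2 := by linarith
  have hE : Real.exp (l ^ 2 / 12) ≤ 1 + 18 / 10000 := by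
    have h2 : Real.exp (l ^ 2 / 12) ≤ Real.exp (1 / 570) :=
      Real.exp_le_exp.2 (by linarith)
    refine h2.trans ?_
    have h3 := Real.add_one_le_exp (-(1 / 570) : ℝ)
    have h4 : Real.exp (1 / 570) * Real.exp (-(1 / 570)) = 1 := by
      rw [← Real.exp_add]; simp
    have h5 := Real.exp_pos (1 / 570 : ℝ)
    by_contra hc
    push Not at hc
    nlinarith
  have hlow : (ε * (9973 / 10000)) ^ 2 ≤ l ^ 2 := by
    rw [hl2]
    have h2 : ε ^ 4 = ε ^ 2 * ε ^ 2 := by ring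
    nlinarith
  have hlow1 : ε * (9973 / 10000) ≤ l :=
    (sq_le_sq₀ (by positivity) hl0.le).1 hlow
  have hlow3 : (ε * (9973 / 10000)) ^ 3 ≤ l ^ 3 := pow_le_pow_left₀ (by positivity) hlow1 3
  calc ε ^ 3 * ∑' n : ℕ, Gn n * n * q ^ n ≤ ε ^ 3 * (Real.exp (l ^ 2 / 12) / l ^ 3) :=
        mul_le_mul_of_nonneg_left hb (by positivity)
    _ ≤ ε ^ 3 * ((1 + 18 / 10000) / (ε * (9973 / 10000)) ^ 3) := by gcongr
    _ = (1 + 18 / 10000) / (9973 / 10000) ^ 3 := by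
        field_simp
    _ ≤ 102 / 100 := by norm_num

/-- the general term of the difference -/
theorem na7_term (ε : ℝ) (n : ℕ) (hn : 1 ≤ n) :
    Kn ε n - ((Sn ε n : ℝ) : ℂ) * (-Complex.I * ((xn ε n : ℝ) : ℂ) + ((xn ε n : ℝ) : ℂ) ^ 2 / 3 +
      ((xn ε n : ℝ) : ℂ) ^ 4 / 45) =
      ((Real.sinc (xn ε n) ^ (n - 1) * na7_sg (xn ε n) : ℝ) : ℂ) := by
  obtain ⟨m, rfl⟩ : ∃ m, n = m + 1 := ⟨n - 1, by omega⟩
  unfold Kn na7_sg Sn
  rw [if_neg (Nat.succ_ne_zero m), Nat.add_sub_cancel, pow_succ]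
  push_cast
  ring

theorem na_E (ε : ℝ) (h0 : 0 < ε) (h1 : ε ^ 3 ≤ 3 / 1000) (j : ℕ) (hj : j ≤ 2) (s : ℝ) :
    ‖Esum ε j (Bs s) - ((if j = 0 then 1 else 0) - Complex.I / 2 * Asum ε (j + 1) (Bs s) +
      (ε : ℂ) / 12 * Asum ε (j + 2) (Bs s) + (ε : ℂ) ^ 3 / 720 * Asum ε (j + 4) (Bs s))‖ ≤
      dEt j := by
  have sE := (Esum_summable ε h0 j (Bs s)).of_norm
  have sA1 := (Asum_summable ε h0 (j + 1) (Bs s)).of_norm
  have sA2 := (Asum_summable ε h0 (j + 2) (Bs s)).of_norm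
  have sA4 := (Asum_summable ε h0 (j + 4) (Bs s)).of_norm
  have key : Esum ε j (Bs s) - ((if j = 0 then 1 else 0) - Complex.I / 2 * Asum ε (j + 1) (Bs s) +
      (ε : ℂ) / 12 * Asum ε (j + 2) (Bs s) + (ε : ℂ) ^ 3 / 720 * Asum ε (j + 4) (Bs s)) =
      ∑' n : ℕ, (((Gn n * wn ε n ^ j : ℝ) : ℂ) *
        (Kn ε n - ((Sn ε n : ℝ) : ℂ) * (-Complex.I * ((xn ε n : ℝ) : ℂ) +
          ((xn ε n : ℝ) : ℂ) ^ 2 / 3 + ((xn ε n : ℝ) : ℂ) ^ 4 / 45)) *
        Complex.exp (Bs s * ((wn ε n : ℝ) : ℂ))) := by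
    have t1 := sA1.mul_left (Complex.I / 2 * (ε : ℂ))
    have t2 := sA2.mul_left ((ε : ℂ) / 12 * (ε : ℂ))
    have t4 := sA4.mul_left ((ε : ℂ) ^ 3 / 720 * (ε : ℂ))
    have e : ∀ n : ℕ, (((Gn n * wn ε n ^ j : ℝ) : ℂ) *
        (Kn ε n - ((Sn ε n : ℝ) : ℂ) * (-Complex.I * ((xn ε n : ℝ) : ℂ) +
          ((xn ε n : ℝ) : ℂ) ^ 2 / 3 + ((xn ε n : ℝ) : ℂ) ^ 4 / 45)) *
        Complex.exp (Bs s * ((wn ε n : ℝ) : ℂ))) =
        (((Gn n * wn ε n ^ j : ℝ) : ℂ) * Kn ε n * Complex.exp (Bs s * ((wn ε n : ℝ) : ℂ)) +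
        Complex.I / 2 * (ε : ℂ) * (((Gn n * Sn ε n * wn ε n ^ (j + 1) : ℝ) : ℂ) *
          Complex.exp (Bs s * ((wn ε n : ℝ) : ℂ)))) -
        ((ε : ℂ) / 12 * (ε : ℂ) * (((Gn n * Sn ε n * wn ε n ^ (j + 2) : ℝ) : ℂ) *
          Complex.exp (Bs s * ((wn ε n : ℝ) : ℂ))) +
        (ε : ℂ) ^ 3 / 720 * (ε : ℂ) * (((Gn n * Sn ε n * wn ε n ^ (j + 4) : ℝ) : ℂ) *
          Complex.exp (Bs s * ((wn ε n : ℝ) : ℂ)))) := by
      intro n
      have hx : ((xn ε n : ℝ) : ℂ) = (ε : ℂ) * ((wn ε n : ℝ) : ℂ) / 2 := by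
        rw [na7_w]
        push_cast
        ring
      rw [hx]
      push_cast
      ring
    rw [tsum_congr e, ((sE.add t1).tsum_sub (t2.add t4)), sE.tsum_add t1, t2.tsum_add t4,
      tsum_mul_left, tsum_mul_left, tsum_mul_left]
    unfold Esum Asum
    ring
  rw [key]
  have hs := (na7_q_summable ε h0).mul_left (na7_C j * ε ^ 3)
  have hb : ∀ n : ℕ, ‖(((Gn n * wn ε n ^ j : ℝ) : ℂ) *
        (Kn ε n - ((Sn ε n : ℝ) : ℂ) * (-Complex.I * ((xn ε n : ℝ) : ℂ) +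
          ((xn ε n : ℝ) : ℂ) ^ 2 / 3 + ((xn ε n : ℝ) : ℂ) ^ 4 / 45)) *
        Complex.exp (Bs s * ((wn ε n : ℝ) : ℂ)))‖ ≤
        na7_C j * ε ^ 3 * (Gn n * n * Real.exp (-(ε ^ 2 / 2)) ^ n) := by
    intro n
    have hG := Gn_nonneg n
    have hC : 0 ≤ na7_C j := by
      have hk : j = 0 ∨ j = 1 ∨ j = 2 := by omega
      rcases hk with rfl | rfl | rfl <;> norm_num [na7_C]
    rcases Nat.eq_zero_or_pos n with rfl | hn
    · have hx : xn ε 0 = 0 := by unfold xn; simp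
      have hK : Kn ε 0 = 0 := by unfold Kn; simp
      rw [hx, hK]
      simp
    · rw [na7_term ε n hn, norm_mul, norm_mul, Complex.norm_real, Complex.norm_real, fs_norm_exp,
        Real.norm_eq_abs, Real.norm_eq_abs, abs_mul, abs_mul, abs_pow, abs_of_nonneg hG,
        abs_of_nonneg (fs_wn_nonneg ε n), abs_pow]
      have hre : (Bs s).re = 5 / 4 := rfl
      rw [hre]
      have h2 := na7_all ε h0 h1 j hj n hn
      calc Gn n * wn ε n ^ j * (|Real.sinc (xn ε n)| ^ (n - 1) * |na7_sg (xn ε n)|) *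
          Real.exp (5 / 4 * wn ε n) = Gn n * (wn ε n ^ j * Real.exp (5 / 4 * wn ε n) *
            (|Real.sinc (xn ε n)| ^ (n - 1) * |na7_sg (xn ε n)|)) := by ring
        _ ≤ Gn n * (na7_C j * (ε * wn ε n * Real.exp (-(wn ε n / 2)))) :=
            mul_le_mul_of_nonneg_left h2 hG
        _ = na7_C j * (ε * (Gn n * wn ε n) * Real.exp (-(wn ε n / 2))) := by ring
        _ = _ := by rw [na7_q]; ring
  refine (tsum_of_norm_bounded hs.hasSum hb).trans ?_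
  rw [tsum_mul_left, mul_assoc]
  have h3 := na7_sum ε h0 h1
  have hC : 0 ≤ na7_C j ∧ na7_C j * (102 / 100) ≤ dEt j := by
    have hk : j = 0 ∨ j = 1 ∨ j = 2 := by omega
    rcases hk with rfl | rfl | rfl <;> norm_num [na7_C, dEt]
  exact (mul_le_mul_of_nonneg_left h3 hC.1).trans hC.2

end MP_d1b55a
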