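import Pool.Agent.Lib.MP_d1b55a_co.NA0
import Pool.Agent.Lib.MP_d1b55a_co.NA7

/-! MP_d1b55a_co, near arc NA3: the chord in `h`.
`Λ(y) = - log (sinc y)` lies between `y²/6 + y⁴/180 + y⁶/2835` and the same plus `y⁸/29000` for `y ≤ 1.4461`,
so `S(h) = S0 F(h) e^{-ρ}`, `F(h) = exp (-(a h + b h²))`, `a = w⁵/2880`, `b = w⁷/181440`, `0 ≤ ρ ≤ w⁹ h³/7424000`.
`F'' = ((a+2bh)² - 2b) F`, `X² - 2b ≤ X⁴/(8b)`, `2b - a² ≤ b²/a²`. -/

open Finset

namespace MP_d1b55a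

theorem na3_c10 (x : ℝ) (hx : 0 ≤ x) :
    0 ≤ Real.cos x - (1 - x ^ 2 / 2 + x ^ 4 / 24 - x ^ 6 / 720 + x ^ 8 / 40320 - x ^ 10 / 3628800) := by
  refine na7_mono (fun x => Real.cos x - (1 - x ^ 2 / 2 + x ^ 4 / 24 - x ^ 6 / 720 + x ^ 8 / 40320 -
    x ^ 10 / 3628800))
    (fun x => (x - x ^ 3 / 6 + x ^ 5 / 120 - x ^ 7 / 5040 + x ^ 9 / 362880) - Real.sin x)
    (fun y => ?_) (by simp) na7_s9 x hx
  have h1 := ((((((hasDerivAt_pow 2 y).div_const 2).const_sub 1).add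
    ((hasDerivAt_pow 4 y).div_const 24)).sub ((hasDerivAt_pow 6 y).div_const 720)).add
    ((hasDerivAt_pow 8 y).div_const 40320)).sub ((hasDerivAt_pow 10 y).div_const 3628800)
  refine ((Real.hasDerivAt_cos y).sub h1).congr_deriv ?_
  push_cast
  ring

/-- lower trigonometric inequality -/
theorem na3_trig1 (y : ℝ) (h0 : 0 < y) (h1 : y ≤ 14461 / 10000) :
    y * Real.cos y ≤ Real.sin y * (1 - y ^ 2 / 3 - y ^ 4 / 45 - 2 * y ^ 6 / 945) := by
  have hs := na7_s7 y h0.le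
  have hc := na7_c8 y h0.le
  set v := y ^ 2 with hv
  have hv0 : 0 < v := by positivity
  have hv1 : v ≤ 20913 / 10000 := by rw [hv]; nlinarith
  have hP : 0 ≤ 1 - v / 3 - v ^ 2 / 45 - 2 * v ^ 3 / 945 := by
    have h2 : v ^ 2 ≤ (20913 / 10000) ^ 2 := pow_le_pow_left₀ hv0.le hv1 2
    have h3 : v ^ 3 ≤ (20913 / 10000) ^ 3 := pow_le_pow_left₀ hv0.le hv1 3
    norm_num at h2 h3
    linarith
  have e4 : y ^ 4 = v ^ 2 := by rw [hv]; ring
  have e6 : y ^ 6 = v ^ 3 := by rw [hv]; ring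
  have e8 : y ^ 8 = v ^ 4 := by rw [hv]; ring
  have e3 : y ^ 3 = y * v := by rw [hv]; ring
  have e5 : y ^ 5 = y * v ^ 2 := by rw [hv]; ring
  have e7 : y ^ 7 = y * v ^ 3 := by rw [hv]; ring
  rw [e4, e6, e8] at hc
  rw [e3, e5, e7] at hs
  rw [e4, e6]
  have hs' : y * (1 - v / 6 + v ^ 2 / 120 - v ^ 3 / 5040) ≤ Real.sin y := by linarith
  have hc' : Real.cos y ≤ 1 - v / 2 + v ^ 2 / 24 - v ^ 3 / 720 + v ^ 4 / 40320 := by linarith
  have h5 := mul_le_mul_of_nonneg_right hs' hP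
  have h6 := mul_le_mul_of_nonneg_left hc' h0.le
  have h7 : 1 - v / 2 + v ^ 2 / 24 - v ^ 3 / 720 + v ^ 4 / 40320 ≤
      (1 - v / 6 + v ^ 2 / 120 - v ^ 3 / 5040) * (1 - v / 3 - v ^ 2 / 45 - 2 * v ^ 3 / 945) := by
    have h8 : (1 - v / 6 + v ^ 2 / 120 - v ^ 3 / 5040) *
        (1 - v / 3 - v ^ 2 / 45 - 2 * v ^ 3 / 945) -
        (1 - v / 2 + v ^ 2 / 24 - v ^ 3 / 720 + v ^ 4 / 40320) =
        v ^ 4 * (1 / 4725 - 1 / 362880 * 0 + (1 / 4725) * 0 +
          ((1 / 5040 * (1 / 3) - 1 / 120 * (1 / 45) + 1 / 6 * (2 / 945)) - 1 / 40320 - 1 / 4725) +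
          v * (1 / 5040 * (1 / 45) - 1 / 120 * (2 / 945)) + v ^ 2 * (1 / 5040 * (2 / 945))) := by
      ring
    have h9 : 0 ≤ v ^ 4 * (1 / 4725 - 1 / 362880 * 0 + (1 / 4725) * 0 +
          ((1 / 5040 * (1 / 3) - 1 / 120 * (1 / 45) + 1 / 6 * (2 / 945)) - 1 / 40320 - 1 / 4725) +
          v * (1 / 5040 * (1 / 45) - 1 / 120 * (2 / 945)) + v ^ 2 * (1 / 5040 * (2 / 945))) := by
      apply mul_nonneg (by positivity)
      nlinarith [sq_nonneg v]
    linarith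
  have h10 := mul_le_mul_of_nonneg_left h7 h0.le
  linarith

/-- upper trigonometric inequality -/
theorem na3_trig2 (y : ℝ) (h0 : 0 < y) (h1 : y ≤ 14461 / 10000) :
    Real.sin y * (1 - y ^ 2 / 3 - y ^ 4 / 45 - 2 * y ^ 6 / 945 - 8 * y ^ 8 / 29000) ≤
      y * Real.cos y := by
  have hs := na7_s9 y h0.le
  have hc := na3_c10 y h0.le
  set v := y ^ 2 with hv
  have hv0 : 0 < v := by positivity
  have hv1 : v ≤ 20913 / 10000 := by rw [hv]; nlinarith
  have hP : 0 ≤ 1 - v / 3 - v ^ 2 / 45 - 2 * v ^ 3 / 945 - 8 * v ^ 4 / 29000 := by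
    have h2 : v ^ 2 ≤ (20913 / 10000) ^ 2 := pow_le_pow_left₀ hv0.le hv1 2
    have h3 : v ^ 3 ≤ (20913 / 10000) ^ 3 := pow_le_pow_left₀ hv0.le hv1 3
    have h4 : v ^ 4 ≤ (20913 / 10000) ^ 4 := pow_le_pow_left₀ hv0.le hv1 4
    norm_num at h2 h3 h4
    linarith
  have e4 : y ^ 4 = v ^ 2 := by rw [hv]; ring
  have e6 : y ^ 6 = v ^ 3 := by rw [hv]; ring
  have e8 : y ^ 8 = v ^ 4 := by rw [hv]; ring
  have e10 : y ^ 10 = v ^ 5 := by rw [hv]; ring
  have e3 : y ^ 3 = y * v := by rw [hv]; ring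
  have e5 : y ^ 5 = y * v ^ 2 := by rw [hv]; ring
  have e7 : y ^ 7 = y * v ^ 3 := by rw [hv]; ring
  have e9 : y ^ 9 = y * v ^ 4 := by rw [hv]; ring
  rw [e4, e6, e8, e10] at hc
  rw [e3, e5, e7, e9] at hs
  rw [e4, e6, e8]
  have hs' : Real.sin y ≤ y * (1 - v / 6 + v ^ 2 / 120 - v ^ 3 / 5040 + v ^ 4 / 362880) := by
    linarith
  have hc' : 1 - v / 2 + v ^ 2 / 24 - v ^ 3 / 720 + v ^ 4 / 40320 - v ^ 5 / 3628800 ≤
      Real.cos y := by linarith
  have h5 := mul_le_mul_of_nonneg_right hs' hP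
  have h6 := mul_le_mul_of_nonneg_left hc' h0.le
  have h7 : (1 - v / 6 + v ^ 2 / 120 - v ^ 3 / 5040 + v ^ 4 / 362880) *
      (1 - v / 3 - v ^ 2 / 45 - 2 * v ^ 3 / 945 - 8 * v ^ 4 / 29000) ≤
      1 - v / 2 + v ^ 2 / 24 - v ^ 3 / 720 + v ^ 4 / 40320 - v ^ 5 / 3628800 := by
    have h9 : 0 ≤ v ^ 4 * ((1 - v / 2 + v ^ 2 / 24 - v ^ 3 / 720 + v ^ 4 / 40320 - v ^ 5 / 3628800 -
      (1 - v / 6 + v ^ 2 / 120 - v ^ 3 / 5040 + v ^ 4 / 362880) *
      (1 - v / 3 - v ^ 2 / 45 - 2 * v ^ 3 / 945 - 8 * v ^ 4 / 29000)) / v ^ 4) := by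
      apply mul_nonneg (by positivity)
      have h2 : v ^ 2 ≤ (20913 / 10000) ^ 2 := pow_le_pow_left₀ hv0.le hv1 2
      have h11 : (1 - v / 2 + v ^ 2 / 24 - v ^ 3 / 720 + v ^ 4 / 40320 - v ^ 5 / 3628800 -
        (1 - v / 6 + v ^ 2 / 120 - v ^ 3 / 5040 + v ^ 4 / 362880) *
        (1 - v / 3 - v ^ 2 / 45 - 2 * v ^ 3 / 945 - 8 * v ^ 4 / 29000)) / v ^ 4 =
        (1 / 40320 - 1 / 5040 * (1 / 3) + 1 / 120 * (1 / 45) - 1 / 6 * (2 / 945) + 8 / 29000 -
          1 / 362880) +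
        v * (-1 / 3628800 - 1 / 5040 * (1 / 45) + 1 / 120 * (2 / 945) - 1 / 6 * (8 / 29000) +
          1 / 362880 * (1 / 3)) +
        v ^ 2 * (-1 / 5040 * (2 / 945) + 1 / 120 * (8 / 29000) + 1 / 362880 * (1 / 45)) +
        v ^ 3 * (-1 / 5040 * (8 / 29000) + 1 / 362880 * (2 / 945)) +
        v ^ 4 * (1 / 362880 * (8 / 29000)) := by
        field_simp
        ring
      rw [h11]
      have h3 : v ^ 3 ≤ (20913 / 10000) * v ^ 2 := by
        have : v ^ 3 = v * v ^ 2 := by ring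
        rw [this]; exact mul_le_mul_of_nonneg_right hv1 (by positivity)
      have h4 : 0 ≤ v ^ 4 := by positivity
      nlinarith [sq_nonneg v]
    have h10 : v ^ 4 * ((1 - v / 2 + v ^ 2 / 24 - v ^ 3 / 720 + v ^ 4 / 40320 - v ^ 5 / 3628800 -
      (1 - v / 6 + v ^ 2 / 120 - v ^ 3 / 5040 + v ^ 4 / 362880) *
      (1 - v / 3 - v ^ 2 / 45 - 2 * v ^ 3 / 945 - 8 * v ^ 4 / 29000)) / v ^ 4) =
      (1 - v / 2 + v ^ 2 / 24 - v ^ 3 / 720 + v ^ 4 / 40320 - v ^ 5 / 3628800 -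
      (1 - v / 6 + v ^ 2 / 120 - v ^ 3 / 5040 + v ^ 4 / 362880) *
      (1 - v / 3 - v ^ 2 / 45 - 2 * v ^ 3 / 945 - 8 * v ^ 4 / 29000)) := by
      field_simp
    rw [h10] at h9
    linarith
  have h10 := mul_le_mul_of_nonneg_left h7 h0.le
  linarith


theorem na3_sinc_pos (y : ℝ) (h0 : 0 ≤ y) (h1 : y ≤ 14461 / 10000) : 0 < Real.sinc y := by
  rcases h0.eq_or_lt with h | h
  · rw [← h, Real.sinc_zero]; exact one_pos
  · rw [Real.sinc_of_ne_zero h.ne']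
    have := Real.pi_gt_three
    exact div_pos (Real.sin_pos_of_pos_of_lt_pi h (by linarith)) h

theorem na3_mono (P P' : ℝ → ℝ) (hP : ∀ y, HasDerivAt P (P' y) y) (hP0 : P 0 = 0) (c : ℝ)
    (h : ∀ y, 0 < y → y ≤ 14461 / 10000 →
      0 ≤ c * (Real.sin y * (1 - y * P' y) - y * Real.cos y)) (y : ℝ) (h0 : 0 ≤ y)
    (h1 : y ≤ 14461 / 10000) : 0 ≤ c * (-Real.log (Real.sinc y) - P y) := by
  set f : ℝ → ℝ := fun y => c * (-Real.log (Real.sinc y) - P y) with hf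
  have hcont : ContinuousOn f (Set.Icc 0 (14461 / 10000)) := by
    have hPc : Continuous P := continuous_iff_continuousAt.2 fun y => (hP y).continuousAt
    exact continuousOn_const.mul (((Real.continuous_sinc.continuousOn.log
      fun x hx => (na3_sinc_pos x hx.1 hx.2).ne').neg).sub hPc.continuousOn)
  have hder : ∀ x ∈ Set.Ioo (0 : ℝ) (14461 / 10000),
      HasDerivAt f (c * (-(Real.cos x / Real.sin x - 1 / x) - P' x)) x := by
    intro x hx
    have hx0 : x ≠ 0 := hx.1.ne'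
    have hpi := Real.pi_gt_three
    have hsp : 0 < Real.sin x := Real.sin_pos_of_pos_of_lt_pi hx.1 (by linarith [hx.2])
    have h3 : HasDerivAt (fun x => Real.log (Real.sin x / x))
        (((Real.cos x * x - Real.sin x * 1) / x ^ 2) / (Real.sin x / x)) x :=
      ((Real.hasDerivAt_sin x).div (hasDerivAt_id x) hx0).log (div_pos hsp hx.1).ne'
    have h4 : HasDerivAt (fun x => Real.log (Real.sinc x))
        (((Real.cos x * x - Real.sin x * 1) / x ^ 2) / (Real.sin x / x)) x := by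
      refine h3.congr_of_eventuallyEq ?_
      filter_upwards [isOpen_ne.mem_nhds hx0] with t ht
      rw [Real.sinc_of_ne_zero ht]
    refine ((h4.neg.sub (hP x)).const_mul c).congr_deriv ?_
    have : (Real.cos x * x - Real.sin x * 1) / x ^ 2 / (Real.sin x / x) =
        Real.cos x / Real.sin x - 1 / x := by
      field_simp
    rw [this]
  have hm : MonotoneOn f (Set.Icc 0 (14461 / 10000)) := by
    refine monotoneOn_of_deriv_nonneg (convex_Icc _ _) hcont ?_ ?_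
    · rw [interior_Icc]
      exact fun x hx => (hder x hx).differentiableAt.differentiableWithinAt
    · rw [interior_Icc]
      intro x hx
      rw [(hder x hx).deriv]
      have hpi := Real.pi_gt_three
      have hsp : 0 < Real.sin x := Real.sin_pos_of_pos_of_lt_pi hx.1 (by linarith [hx.2])
      have h5 := h x hx.1 hx.2.le
      have hx0 := hx.1
      have h6 : c * (-(Real.cos x / Real.sin x - 1 / x) - P' x) =
          c * (Real.sin x * (1 - x * P' x) - x * Real.cos x) / (x * Real.sin x) := by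
        field_simp
        ring
      rw [h6]
      positivity
  have h7 := hm (Set.left_mem_Icc.2 (by norm_num)) ⟨h0, h1⟩ h0
  have h8 : f 0 = 0 := by simp [hf, hP0]
  rw [h8] at h7
  exact h7

theorem na3_log1 (y : ℝ) (h0 : 0 ≤ y) (h1 : y ≤ 14461 / 10000) :
    y ^ 2 / 6 + y ^ 4 / 180 + y ^ 6 / 2835 ≤ -Real.log (Real.sinc y) := by
  have := na3_mono (fun y => y ^ 2 / 6 + y ^ 4 / 180 + y ^ 6 / 2835)
    (fun y => y / 3 + y ^ 3 / 45 + 2 * y ^ 5 / 945) (fun y => ?_) (by norm_num) 1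
    (fun y h2 h3 => ?_) y h0 h1
  · linarith
  · have h3 := (((hasDerivAt_pow 2 y).div_const 6).add ((hasDerivAt_pow 4 y).div_const 180)).add
      ((hasDerivAt_pow 6 y).div_const 2835)
    refine h3.congr_deriv ?_
    push_cast
    ring
  · have h4 := na3_trig1 y h2 h3
    have h5 : 1 - y * (y / 3 + y ^ 3 / 45 + 2 * y ^ 5 / 945) =
      1 - y ^ 2 / 3 - y ^ 4 / 45 - 2 * y ^ 6 / 945 := by ring
    rw [h5]
    linarith

theorem na3_log2 (y : ℝ) (h0 : 0 ≤ y) (h1 : y ≤ 14461 / 10000) :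
    -Real.log (Real.sinc y) ≤ y ^ 2 / 6 + y ^ 4 / 180 + y ^ 6 / 2835 + y ^ 8 / 29000 := by
  have := na3_mono (fun y => y ^ 2 / 6 + y ^ 4 / 180 + y ^ 6 / 2835 + y ^ 8 / 29000)
    (fun y => y / 3 + y ^ 3 / 45 + 2 * y ^ 5 / 945 + 8 * y ^ 7 / 29000) (fun y => ?_)
    (by norm_num) (-1) (fun y h2 h3 => ?_) y h0 h1
  · linarith
  · have h3 := ((((hasDerivAt_pow 2 y).div_const 6).add ((hasDerivAt_pow 4 y).div_const 180)).add
      ((hasDerivAt_pow 6 y).div_const 2835)).add ((hasDerivAt_pow 8 y).div_const 29000)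
    refine h3.congr_deriv ?_
    push_cast
    ring
  · have h4 := na3_trig2 y h2 h3
    have h5 : 1 - y * (y / 3 + y ^ 3 / 45 + 2 * y ^ 5 / 945 + 8 * y ^ 7 / 29000) =
      1 - y ^ 2 / 3 - y ^ 4 / 45 - 2 * y ^ 6 / 945 - 8 * y ^ 8 / 29000 := by ring
    rw [h5]
    linarith

/-- `F(h)` -/
noncomputable def na3_F (w h : ℝ) : ℝ := Real.exp (-(w ^ 5 / 2880 * h + w ^ 7 / 181440 * h ^ 2))

/-- `S(w;h)` against `e^{-w³/24} F(h)` -/
theorem na3_S (w h : ℝ) (hw : 0 ≤ w) (hw2 : w ≤ 20) (h0 : 0 < h) (h1 : h ≤ 209 / 10000) :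
    |nS h w - Real.exp (-(w ^ 3) / 24) * na3_F w h| ≤
      Real.exp (-(w ^ 3) / 24) * (w ^ 9 * h ^ 3 / 7424000) := by
  have hs0 : 0 ≤ √h := Real.sqrt_nonneg h
  have hss : √h ^ 2 = h := Real.sq_sqrt h0.le
  have hs1 : √h ≤ 14461 / 100000 := by
    rw [← sq_le_sq₀ hs0 (by norm_num), hss]
    norm_num
    linarith
  set y : ℝ := w * √h / 2 with hy
  have hy0 : 0 ≤ y := by positivity
  have hy1 : y ≤ 14461 / 10000 := by
    have : w * √h ≤ 20 * (14461 / 100000) := mul_le_mul hw2 hs1 hs0 (by norm_num)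
    rw [hy]
    linarith
  have hpos := na3_sinc_pos y hy0 hy1
  have l1 := na3_log1 y hy0 hy1
  have l2 := na3_log2 y hy0 hy1
  have hy2 : y ^ 2 = w ^ 2 * h / 4 := by rw [hy, div_pow, mul_pow, hss]; ring
  have hy4 : y ^ 4 = w ^ 4 * h ^ 2 / 16 := by
    have : y ^ 4 = (y ^ 2) ^ 2 := by ring
    rw [this, hy2]; ring
  have hy6 : y ^ 6 = w ^ 6 * h ^ 3 / 64 := by
    have : y ^ 6 = (y ^ 2) ^ 3 := by ring
    rw [this, hy2]; ring
  have hy8 : y ^ 8 = w ^ 8 * h ^ 4 / 256 := by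
    have : y ^ 8 = (y ^ 2) ^ 4 := by ring
    rw [this, hy2]; ring
  rw [hy2, hy4, hy6] at l1
  rw [hy2, hy4, hy6, hy8] at l2
  have hwh : 0 ≤ w / h := by positivity
  have m1 := mul_le_mul_of_nonneg_left l1 hwh
  have m2 := mul_le_mul_of_nonneg_left l2 hwh
  have e1 : w / h * (w ^ 2 * h / 4 / 6 + w ^ 4 * h ^ 2 / 16 / 180 + w ^ 6 * h ^ 3 / 64 / 2835) =
      w ^ 3 / 24 + (w ^ 5 / 2880 * h + w ^ 7 / 181440 * h ^ 2) := by
    field_simp
    ring
  have e2 : w / h * (w ^ 2 * h / 4 / 6 + w ^ 4 * h ^ 2 / 16 / 180 + w ^ 6 * h ^ 3 / 64 / 2835 +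
      w ^ 8 * h ^ 4 / 256 / 29000) =
      w ^ 3 / 24 + (w ^ 5 / 2880 * h + w ^ 7 / 181440 * h ^ 2) + w ^ 9 * h ^ 3 / 7424000 := by
    field_simp
    ring
  rw [e1] at m1
  rw [e2] at m2
  have hS : nS h w = Real.exp (-(w / h * -Real.log (Real.sinc y))) := by
    unfold nS
    rw [← hy, Real.rpow_def_of_pos hpos]
    congr 1
    ring
  have hF : Real.exp (-(w ^ 3) / 24) * na3_F w h =
      Real.exp (-(w ^ 3 / 24 + (w ^ 5 / 2880 * h + w ^ 7 / 181440 * h ^ 2))) := by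
    unfold na3_F
    rw [← Real.exp_add]
    congr 1
    ring
  have hF1 : na3_F w h ≤ 1 := by
    unfold na3_F
    rw [Real.exp_le_one_iff]
    have : 0 ≤ w ^ 5 / 2880 * h + w ^ 7 / 181440 * h ^ 2 := by positivity
    linarith
  have hF0 : 0 < na3_F w h := Real.exp_pos _
  have hup : nS h w ≤ Real.exp (-(w ^ 3) / 24) * na3_F w h := by
    rw [hS, hF]
    exact Real.exp_le_exp.2 (by linarith)
  have hlo : Real.exp (-(w ^ 3) / 24) * na3_F w h * (1 - w ^ 9 * h ^ 3 / 7424000) ≤ nS h w := by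
    have h5 : Real.exp (-(w ^ 3) / 24) * na3_F w h * Real.exp (-(w ^ 9 * h ^ 3 / 7424000)) ≤
        nS h w := by
      rw [hS, hF, ← Real.exp_add]
      exact Real.exp_le_exp.2 (by linarith)
    have h6 := Real.add_one_le_exp (-(w ^ 9 * h ^ 3 / 7424000))
    have h7 : 0 < Real.exp (-(w ^ 3) / 24) * na3_F w h := mul_pos (Real.exp_pos _) hF0
    have h8 := mul_le_mul_of_nonneg_left h6 h7.le
    linarith
  have hE := Real.exp_pos (-(w ^ 3) / 24)
  have hr : 0 ≤ w ^ 9 * h ^ 3 / 7424000 := by positivity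
  have h9 : Real.exp (-(w ^ 3) / 24) * na3_F w h * (w ^ 9 * h ^ 3 / 7424000) ≤
      Real.exp (-(w ^ 3) / 24) * 1 * (w ^ 9 * h ^ 3 / 7424000) :=
    mul_le_mul_of_nonneg_right (mul_le_mul_of_nonneg_left hF1 hE.le) hr
  rw [abs_le]
  constructor <;> nlinarith

/-- a function with bounded second derivative is near to its chord -/
theorem na3_chord_gen (g g' g'' : ℝ → ℝ) (h1 : ∀ x, HasDerivAt g (g' x) x)
    (h2 : ∀ x, HasDerivAt g' (g'' x) x) (H M : ℝ) (hH : 0 < H)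
    (hM : ∀ x, 0 ≤ x → x ≤ H → g'' x ≤ M) (x : ℝ) (hx0 : 0 ≤ x) (hx1 : x ≤ H) :
    (1 - x / H) * g 0 + x / H * g H - g x ≤ M * (x * (H - x) / 2) := by
  -- k = M x (H-x)/2 + g - chord, k'' = g'' - M ≤ 0, k(0)=k(H)=0
  set k : ℝ → ℝ := fun x => (1 - x / H) * g 0 + x / H * g H - g x - M * (x * (H - x) / 2) with hk
  have d1 : ∀ x, HasDerivAt k (-(1 / H) * g 0 + 1 / H * g H - g' x - M * ((H - 2 * x) / 2)) x := by
    intro x
    have a1 : HasDerivAt (fun x : ℝ => (1 - x / H) * g 0) (-(1 / H) * g 0) x :=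
      (((hasDerivAt_id x).div_const H).const_sub 1).mul_const (g 0)
    have a2 : HasDerivAt (fun x : ℝ => x / H * g H) (1 / H * g H) x :=
      ((hasDerivAt_id x).div_const H).mul_const (g H)
    have a3 : HasDerivAt (fun x : ℝ => M * (x * (H - x) / 2)) (M * ((H - 2 * x) / 2)) x := by
      have := (((hasDerivAt_id x).mul ((hasDerivAt_id x).const_sub H)).div_const 2).const_mul M
      refine this.congr_deriv ?_
      simp only [id]
      ring
    exact ((a1.add a2).sub (h1 x)).sub a3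
  have d2 : ∀ x, HasDerivAt (fun x => -(1 / H) * g 0 + 1 / H * g H - g' x - M * ((H - 2 * x) / 2))
      (-g'' x + M) x := by
    intro x
    have a3 : HasDerivAt (fun x : ℝ => M * ((H - 2 * x) / 2)) (-M) x := by
      have := ((((hasDerivAt_id x).const_mul 2).const_sub H).div_const 2).const_mul M
      refine this.congr_deriv ?_
      ring
    have a4 := ((h2 x).const_sub (-(1 / H) * g 0 + 1 / H * g H)).sub a3
    refine a4.congr_deriv ?_
    ring
  have hconv : ConvexOn ℝ (Set.Icc 0 H) k := by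
    refine convexOn_of_deriv2_nonneg (convex_Icc 0 H)
      (fun x _ => (d1 x).continuousAt.continuousWithinAt)
      (fun x _ => (d1 x).differentiableAt.differentiableWithinAt) ?_ ?_
    · have : deriv k = fun x => -(1 / H) * g 0 + 1 / H * g H - g' x - M * ((H - 2 * x) / 2) :=
        funext fun x => (d1 x).deriv
      rw [this]
      exact fun x _ => (d2 x).differentiableAt.differentiableWithinAt
    · intro x hx
      rw [interior_Icc] at hx
      have e : deriv k = fun x => -(1 / H) * g 0 + 1 / H * g H - g' x - M * ((H - 2 * x) / 2) :=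
        funext fun x => (d1 x).deriv
      rw [Function.iterate_succ, Function.iterate_one, Function.comp_apply, e, (d2 x).deriv]
      have := hM x hx.1.le hx.2.le
      linarith
  have hmax := hconv.le_max_of_mem_Icc (Set.left_mem_Icc.2 hH.le) (Set.right_mem_Icc.2 hH.le)
    ⟨hx0, hx1⟩
  have k0 : k 0 = 0 := by simp [hk]
  have kH : k H = 0 := by
    simp only [hk]
    rw [div_self hH.ne']
    ring
  rw [k0, kH, max_self] at hmax
  simp only [hk] at hmax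
  linarith

theorem na3_F_deriv (w h : ℝ) : HasDerivAt (na3_F w)
    (-((w ^ 5 / 2880 + 2 * (w ^ 7 / 181440) * h) * na3_F w h)) h := by
  have h1 : HasDerivAt (fun h : ℝ => -(w ^ 5 / 2880 * h + w ^ 7 / 181440 * h ^ 2))
      (-(w ^ 5 / 2880 + 2 * (w ^ 7 / 181440) * h)) h := by
    have := (((hasDerivAt_id h).const_mul (w ^ 5 / 2880)).add
      ((hasDerivAt_pow 2 h).const_mul (w ^ 7 / 181440))).neg
    refine this.congr_deriv ?_
    push_cast
    ring
  have h2 := h1.exp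
  unfold na3_F
  refine h2.congr_deriv ?_
  ring

theorem na3_F_deriv2 (w h : ℝ) : HasDerivAt
    (fun h => -((w ^ 5 / 2880 + 2 * (w ^ 7 / 181440) * h) * na3_F w h))
    (((w ^ 5 / 2880 + 2 * (w ^ 7 / 181440) * h) ^ 2 - 2 * (w ^ 7 / 181440)) * na3_F w h) h := by
  have h1 : HasDerivAt (fun h : ℝ => w ^ 5 / 2880 + 2 * (w ^ 7 / 181440) * h)
      (2 * (w ^ 7 / 181440)) h := by
    have := ((hasDerivAt_id h).const_mul (2 * (w ^ 7 / 181440))).const_add (w ^ 5 / 2880)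
    refine this.congr_deriv ?_
    ring
  have h2 := (h1.mul (na3_F_deriv w h)).neg
  refine h2.congr_deriv ?_
  ring

theorem na3_F_pos (w h : ℝ) : 0 < na3_F w h := Real.exp_pos _

theorem na3_F_zero (w : ℝ) : na3_F w 0 = 1 := by simp [na3_F]

/-- upper bound of `F''` -/
theorem na3_up (w ξ : ℝ) (hw : 0 < w) (h0 : 0 ≤ ξ) (h1 : ξ ≤ 209 / 10000) :
    ((w ^ 5 / 2880 + 2 * (w ^ 7 / 181440) * ξ) ^ 2 - 2 * (w ^ 7 / 181440)) * na3_F w ξ ≤
      w ^ 13 / 3033380571 * Real.exp (4431 / 100000) := by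
  set a : ℝ := w ^ 5 / 2880 with ha
  set b : ℝ := w ^ 7 / 181440 with hb
  have hb0 : 0 < b := by positivity
  have ha0 : 0 < a := by positivity
  set X : ℝ := a + 2 * b * ξ with hX
  have hF := na3_F_pos w ξ
  have h2 : X ^ 2 - 2 * b ≤ X ^ 4 / (8 * b) := by
    rw [le_div_iff₀ (by positivity)]
    nlinarith [sq_nonneg (X ^ 2 - 4 * b)]
  have hκ : X = a * (1 + w ^ 2 * (2 / 63) * ξ) := by
    rw [hX, ha, hb]; ring
  have h3 : 1 + w ^ 2 * (2 / 63) * ξ ≤ Real.exp (w ^ 2 * (2 / 63) * ξ) := by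
    have := Real.add_one_le_exp (w ^ 2 * (2 / 63) * ξ)
    linarith
  have h4 : (1 + w ^ 2 * (2 / 63) * ξ) ^ 4 ≤ Real.exp (4 * (w ^ 2 * (2 / 63) * ξ)) := by
    have h5 : Real.exp (4 * (w ^ 2 * (2 / 63) * ξ)) = Real.exp (w ^ 2 * (2 / 63) * ξ) ^ 4 := by
      rw [← Real.exp_nat_mul]; norm_num
    rw [h5]
    exact pow_le_pow_left₀ (by positivity) h3 4
  have hFle : na3_F w ξ ≤ Real.exp (-(a * ξ)) := by
    unfold na3_F
    rw [← ha, ← hb]
    apply Real.exp_le_exp.2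
    have : 0 ≤ b * ξ ^ 2 := by positivity
    linarith
  have h6 : (1 + w ^ 2 * (2 / 63) * ξ) ^ 4 * na3_F w ξ ≤ Real.exp (4431 / 100000) := by
    calc (1 + w ^ 2 * (2 / 63) * ξ) ^ 4 * na3_F w ξ ≤
        Real.exp (4 * (w ^ 2 * (2 / 63) * ξ)) * Real.exp (-(a * ξ)) :=
          mul_le_mul h4 hFle hF.le (Real.exp_pos _).le
      _ = Real.exp ((8 / 63 * w ^ 2 - a) * ξ) := by rw [← Real.exp_add]; congr 1; ring
      _ ≤ Real.exp (4431 / 100000) := by
          apply Real.exp_le_exp.2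
          have h7 : 8 / 63 * w ^ 2 - a ≤ 212 / 100 := by
            rw [ha]
            have h8 : 0 ≤ (2 * w ^ 3 + 4 * (527 / 100) * w ^ 2 + 6 * (527 / 100) ^ 2 * w +
              3 * (527 / 100) ^ 3) * (w - 527 / 100) ^ 2 := by positivity
            nlinarith [sq_nonneg w]
          calc (8 / 63 * w ^ 2 - a) * ξ ≤ 212 / 100 * ξ := mul_le_mul_of_nonneg_right h7 h0
            _ ≤ 4431 / 100000 := by linarith
  have h9 : a ^ 4 / (8 * b) ≤ w ^ 13 / 3033380571 := by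
    rw [ha, hb]
    have : (w ^ 5 / 2880) ^ 4 / (8 * (w ^ 7 / 181440)) = w ^ 13 * (22680 / 2880 ^ 4) := by
      field_simp
      ring
    rw [this]
    have h10 : 0 < w ^ 13 := by positivity
    norm_num
    linarith
  calc (X ^ 2 - 2 * b) * na3_F w ξ ≤ X ^ 4 / (8 * b) * na3_F w ξ :=
        mul_le_mul_of_nonneg_right h2 hF.le
    _ = a ^ 4 / (8 * b) * ((1 + w ^ 2 * (2 / 63) * ξ) ^ 4 * na3_F w ξ) := by
        rw [hκ]; ring
    _ ≤ w ^ 13 / 3033380571 * Real.exp (4431 / 100000) :=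
        mul_le_mul h9 h6 (by positivity) (by positivity)

theorem na3_low (w ξ : ℝ) (hw : 0 < w) (h0 : 0 ≤ ξ) :
    -(((w ^ 5 / 2880 + 2 * (w ^ 7 / 181440) * ξ) ^ 2 - 2 * (w ^ 7 / 181440)) * na3_F w ξ) ≤
      w ^ 4 / 3969 := by
  set a : ℝ := w ^ 5 / 2880 with ha
  set b : ℝ := w ^ 7 / 181440 with hb
  have hb0 : 0 < b := by positivity
  have ha0 : 0 < a := by positivity
  set X : ℝ := a + 2 * b * ξ with hX
  have hF := na3_F_pos w ξ
  have hF1 : na3_F w ξ ≤ 1 := by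
    unfold na3_F
    rw [← ha, ← hb, Real.exp_le_one_iff]
    have : 0 ≤ a * ξ + b * ξ ^ 2 := by positivity
    linarith
  have haX : a ≤ X := by
    rw [hX]
    have : 0 ≤ 2 * b * ξ := by positivity
    linarith
  have h1 : 2 * b - X ^ 2 ≤ w ^ 4 / 3969 := by
    have h2 : a ^ 2 ≤ X ^ 2 := pow_le_pow_left₀ ha0.le haX 2
    have h3 : w ^ 4 / 3969 = b ^ 2 / a ^ 2 := by
      rw [ha, hb]; field_simp; ring
    rw [h3, le_div_iff₀ (by positivity)]
    have h4 : (2 * b - X ^ 2) * a ^ 2 ≤ (2 * b - a ^ 2) * a ^ 2 :=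
      mul_le_mul_of_nonneg_right (by linarith) (by positivity)
    nlinarith [sq_nonneg (b - a ^ 2)]
  have h5 : 0 ≤ w ^ 4 / 3969 := by positivity
  have : -((X ^ 2 - 2 * b) * na3_F w ξ) = (2 * b - X ^ 2) * na3_F w ξ := by ring
  rw [this]
  rcases le_total (2 * b - X ^ 2) 0 with h | h
  · have := mul_nonpos_of_nonpos_of_nonneg h hF.le
    linarith
  · calc (2 * b - X ^ 2) * na3_F w ξ ≤ (2 * b - X ^ 2) * 1 := mul_le_mul_of_nonneg_left hF1 h
      _ ≤ _ := by linarith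

theorem na3_e1 : Real.exp (23435 / 10000) ≤ 1047 / 100 := by
  have h1 : Real.exp (23435 / 10000) = Real.exp 1 ^ 2 * Real.exp (3435 / 10000) := by
    rw [← Real.exp_nat_mul, ← Real.exp_add]; norm_num
  have h2 := Real.exp_bound' (x := 3435 / 10000) (by norm_num) (by norm_num) (n := 3) (by norm_num)
  have h3 : Real.exp (3435 / 10000) ≤ 1412 / 1000 := by
    refine h2.trans ?_
    norm_num [Finset.sum_range_succ, Nat.factorial]
  rw [h1]
  calc Real.exp 1 ^ 2 * Real.exp (3435 / 10000) ≤ 2.7182818286 ^ 2 * (1412 / 1000) :=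
        mul_le_mul (pow_le_pow_left₀ (Real.exp_pos _).le na7_exp1 2) h3 (Real.exp_pos _).le
          (by norm_num)
    _ ≤ _ := by norm_num

theorem na3_e2 : Real.exp (31417 / 10000) ≤ 234 / 10 := by
  have h1 : Real.exp (31417 / 10000) = Real.exp 1 ^ 3 * Real.exp (1417 / 10000) := by
    rw [← Real.exp_nat_mul, ← Real.exp_add]; norm_num
  have h2 := Real.exp_bound' (x := 1417 / 10000) (by norm_num) (by norm_num) (n := 3) (by norm_num)
  have h3 : Real.exp (1417 / 10000) ≤ 1153 / 1000 := by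
    refine h2.trans ?_
    norm_num [Finset.sum_range_succ, Nat.factorial]
  rw [h1]
  calc Real.exp 1 ^ 3 * Real.exp (1417 / 10000) ≤ 2.7182818286 ^ 3 * (1153 / 1000) :=
        mul_le_mul (pow_le_pow_left₀ (Real.exp_pos _).le na7_exp1 3) h3 (Real.exp_pos _).le
          (by norm_num)
    _ ≤ _ := by norm_num

theorem na3_e3 : Real.exp 5 ≤ 149 := by
  have h1 : Real.exp 5 = Real.exp 1 ^ 5 := by rw [← Real.exp_nat_mul]; norm_num
  rw [h1]
  calc Real.exp 1 ^ 5 ≤ 2.7182818286 ^ 5 := pow_le_pow_left₀ (Real.exp_pos _).le na7_exp1 5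
    _ ≤ _ := by norm_num

theorem na3_sup13 (w : ℝ) (hw : 0 ≤ w) :
    w ^ 13 / 3033380571 * Real.exp (4431 / 100000) * Real.exp (7 / 4 * w - w ^ 3 / 24) ≤ 223 / 10 := by
  have h := na7_sup 13 w (11367 / 2000) hw (by norm_num) (by norm_num)
  have h1 : Real.exp (-((13 : ℕ) : ℝ) + (11367 / 2000) ^ 3 / 12) * Real.exp (4431 / 100000) ≤
      1047 / 100 := by
    rw [← Real.exp_add]
    refine (Real.exp_le_exp.2 ?_).trans na3_e1
    norm_num
  have hE := Real.exp_pos (4431 / 100000)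
  calc w ^ 13 / 3033380571 * Real.exp (4431 / 100000) * Real.exp (7 / 4 * w - w ^ 3 / 24)
      = (w ^ 13 * Real.exp (7 / 4 * w - w ^ 3 / 24)) * (Real.exp (4431 / 100000) / 3033380571) := by
        ring
    _ ≤ ((11367 / 2000) ^ 13 * Real.exp (-((13 : ℕ) : ℝ) + (11367 / 2000) ^ 3 / 12)) *
        (Real.exp (4431 / 100000) / 3033380571) := mul_le_mul_of_nonneg_right h (by positivity)
    _ = (11367 / 2000) ^ 13 / 3033380571 *
        (Real.exp (-((13 : ℕ) : ℝ) + (11367 / 2000) ^ 3 / 12) * Real.exp (4431 / 100000)) := by ring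
    _ ≤ (11367 / 2000) ^ 13 / 3033380571 * (1047 / 100) :=
        mul_le_mul_of_nonneg_left h1 (by norm_num)
    _ ≤ 223 / 10 := by norm_num

theorem na3_sup9 (w : ℝ) (hw : 0 ≤ w) :
    w ^ 9 / 7424000 * Real.exp (7 / 4 * w - w ^ 3 / 24) ≤ 975 / 100 := by
  have h := na7_sup 9 w (2631 / 500) hw (by norm_num) (by norm_num)
  have h1 : Real.exp (-((9 : ℕ) : ℝ) + (2631 / 500) ^ 3 / 12) ≤ 234 / 10 := by
    refine (Real.exp_le_exp.2 ?_).trans na3_e2
    norm_num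
  calc w ^ 9 / 7424000 * Real.exp (7 / 4 * w - w ^ 3 / 24)
      = (w ^ 9 * Real.exp (7 / 4 * w - w ^ 3 / 24)) * (1 / 7424000) := by ring
    _ ≤ ((2631 / 500) ^ 9 * Real.exp (-((9 : ℕ) : ℝ) + (2631 / 500) ^ 3 / 12)) * (1 / 7424000) :=
        mul_le_mul_of_nonneg_right h (by norm_num)
    _ ≤ ((2631 / 500) ^ 9 * (234 / 10)) * (1 / 7424000) :=
        mul_le_mul_of_nonneg_right (mul_le_mul_of_nonneg_left h1 (by norm_num)) (by norm_num)
    _ ≤ 975 / 100 := by norm_num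

theorem na3_sup4 (w : ℝ) (hw : 0 ≤ w) :
    w ^ 4 / 3969 * Real.exp (7 / 4 * w - w ^ 3 / 24) ≤ 223 / 10 := by
  have h := na7_sup 4 w (459 / 100) hw (by norm_num) (by norm_num)
  have h1 : Real.exp (-((4 : ℕ) : ℝ) + (459 / 100) ^ 3 / 12) ≤ 149 := by
    refine (Real.exp_le_exp.2 ?_).trans na3_e3
    norm_num
  calc w ^ 4 / 3969 * Real.exp (7 / 4 * w - w ^ 3 / 24)
      = (w ^ 4 * Real.exp (7 / 4 * w - w ^ 3 / 24)) * (1 / 3969) := by ring
    _ ≤ ((459 / 100) ^ 4 * Real.exp (-((4 : ℕ) : ℝ) + (459 / 100) ^ 3 / 12)) * (1 / 3969) :=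
        mul_le_mul_of_nonneg_right h (by norm_num)
    _ ≤ ((459 / 100) ^ 4 * 149) * (1 / 3969) :=
        mul_le_mul_of_nonneg_right (mul_le_mul_of_nonneg_left h1 (by norm_num)) (by norm_num)
    _ ≤ 223 / 10 := by norm_num

theorem na_chord (ε w : ℝ) (h0 : 0 < ε) (h1 : ε ^ 2 ≤ nh2) (hw : 0 ≤ w) (hw2 : w ≤ 20) :
    |nS (ε ^ 2) w - ((1 - ε ^ 2 / nh2) * Real.exp (-(w ^ 3) / 24) + ε ^ 2 / nh2 * nS nh2 w)| *
      Real.exp (7 / 4 * w) ≤ 13 / 10000 := by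
  rcases hw.eq_or_lt with hw0 | hwpos
  · -- w = 0
    rw [← hw0]
    have e : ∀ h : ℝ, nS h 0 = 1 := by intro h; unfold nS; simp
    rw [e, e]
    have : (1 : ℝ) - ((1 - ε ^ 2 / nh2) * Real.exp (-(0 ^ 3) / 24) + ε ^ 2 / nh2 * 1) = 0 := by
      norm_num
    rw [this]
    norm_num
  set h : ℝ := ε ^ 2 with hh
  have hpos : 0 < h := by positivity
  have hH : nh2 = 209 / 10000 := rfl
  have hHpos : (0 : ℝ) < nh2 := by rw [hH]; norm_num
  have hle : h ≤ 209 / 10000 := by rw [← hH]; exact h1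
  set t : ℝ := h / nh2 with ht
  have ht0 : 0 ≤ t := by positivity
  have s1 := na3_S w h hw hw2 hpos hle
  have s2 := na3_S w nh2 hw hw2 hHpos (by rw [hH])
  set S0 : ℝ := Real.exp (-(w ^ 3) / 24) with hS0
  have hS0p : 0 < S0 := Real.exp_pos _
  set Φ : ℝ := Real.exp (7 / 4 * w - w ^ 3 / 24) with hΦ
  have hSE : S0 * Real.exp (7 / 4 * w) = Φ := by
    rw [hS0, hΦ, ← Real.exp_add]; congr 1; ring
  have hΦp : 0 < Φ := Real.exp_pos _
  -- chord of F
  have c1 := na3_chord_gen (na3_F w) _ _ (na3_F_deriv w) (na3_F_deriv2 w) nh2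
    (w ^ 13 / 3033380571 * Real.exp (4431 / 100000)) hHpos
    (fun x a b => na3_up w x hwpos a (by rw [← hH]; exact b)) h hpos.le h1
  have c2 := na3_chord_gen (fun x => -na3_F w x) _ _ (fun x => (na3_F_deriv w x).neg)
    (fun x => (na3_F_deriv2 w x).neg) nh2 (w ^ 4 / 3969) hHpos
    (fun x a _ => na3_low w x hwpos a) h hpos.le h1
  rw [na3_F_zero] at c1
  simp only [na3_F_zero] at c2
  rw [← ht] at c1 c2
  set D : ℝ := (1 - t) * 1 + t * na3_F w nh2 - na3_F w h with hD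
  have hhH : 0 ≤ h * (nh2 - h) / 2 := by
    have : 0 ≤ nh2 - h := by linarith
    positivity
  have hDΦ : |D| * Φ ≤ 223 / 10 * (h * (nh2 - h) / 2) := by
    have u1 : D * Φ ≤ 223 / 10 * (h * (nh2 - h) / 2) := by
      calc D * Φ ≤ (w ^ 13 / 3033380571 * Real.exp (4431 / 100000) * (h * (nh2 - h) / 2)) * Φ :=
            mul_le_mul_of_nonneg_right c1 hΦp.le
        _ = (w ^ 13 / 3033380571 * Real.exp (4431 / 100000) * Φ) * (h * (nh2 - h) / 2) := by ring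
        _ ≤ _ := mul_le_mul_of_nonneg_right (na3_sup13 w hw) hhH
    have u2 : -D * Φ ≤ 223 / 10 * (h * (nh2 - h) / 2) := by
      have c3 : -D ≤ w ^ 4 / 3969 * (h * (nh2 - h) / 2) := by
        rw [hD]; linarith
      calc -D * Φ ≤ (w ^ 4 / 3969 * (h * (nh2 - h) / 2)) * Φ :=
            mul_le_mul_of_nonneg_right c3 hΦp.le
        _ = (w ^ 4 / 3969 * Φ) * (h * (nh2 - h) / 2) := by ring
        _ ≤ _ := mul_le_mul_of_nonneg_right (na3_sup4 w hw) hhH
    rcases abs_cases D with ⟨e, -⟩ | ⟨e, -⟩ <;> rw [e] <;> assumption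
  have hsplit : nS h w - ((1 - t) * S0 + t * nS nh2 w) =
      (nS h w - S0 * na3_F w h) - t * (nS nh2 w - S0 * na3_F w nh2) - S0 * D := by
    rw [hD]; ring
  have habs : |nS h w - ((1 - t) * S0 + t * nS nh2 w)| ≤
      S0 * (w ^ 9 * h ^ 3 / 7424000) + t * (S0 * (w ^ 9 * nh2 ^ 3 / 7424000)) + S0 * |D| := by
    rw [hsplit]
    refine (abs_sub _ _).trans (add_le_add ((abs_sub _ _).trans (add_le_add s1 ?_)) ?_)
    · rw [abs_mul, abs_of_nonneg ht0]
      exact mul_le_mul_of_nonneg_left s2 ht0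
    · rw [abs_mul, abs_of_pos hS0p]
  have hE := Real.exp_pos (7 / 4 * w)
  have h9 := na3_sup9 w hw
  rw [← hΦ] at h9
  calc |nS h w - ((1 - t) * S0 + t * nS nh2 w)| * Real.exp (7 / 4 * w)
      ≤ (S0 * (w ^ 9 * h ^ 3 / 7424000) + t * (S0 * (w ^ 9 * nh2 ^ 3 / 7424000)) + S0 * |D|) *
        Real.exp (7 / 4 * w) := mul_le_mul_of_nonneg_right habs hE.le
    _ = (w ^ 9 / 7424000 * Φ) * (h ^ 3 + t * nh2 ^ 3) + |D| * Φ := by rw [← hSE]; ring
    _ ≤ 975 / 100 * (h ^ 3 + t * nh2 ^ 3) + 223 / 10 * (h * (nh2 - h) / 2) :=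
        add_le_add (mul_le_mul_of_nonneg_right h9 (by positivity)) hDΦ
    _ ≤ 13 / 10000 := by
        have e : t * nh2 ^ 3 = h * nh2 ^ 2 := by rw [ht]; field_simp
        rw [e, hH]
        have h3 : h ^ 3 ≤ 209 / 10000 * h ^ 2 := by
          have : h ^ 3 = h * h ^ 2 := by ring
          rw [this]
          exact mul_le_mul_of_nonneg_right hle (by positivity)
        nlinarith [sq_nonneg (h - 1084 / 100000)]

end MP_d1b55a
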