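import Pool.Agent.Lib.MP_d1b55a_co.NA1
import Pool.Agent.Lib.MP_d1b55a_co.NA2
import Pool.Agent.Lib.MP_d1b55a_co.NA3

/-! MP_d1b55a_co, near arc NA4: the fit at all indices.
`w_n ≤ 20`: `Sn ε n = nS (ε^2) (w_n)`, combine `na_fit0, na_fit1, na_chord` (`4.4e-4 + 1.3e-3 = 1.74e-3`).
`w_n > 20`: `na_fit_tail` and `|Sn ε n| exp (7/4 w_n) ≤ 1e-6`: for `x_n ≤ 3/2` use `|sinc x| ≤ exp (-x^2/6)`-type
bound `|Sn| ≤ exp (- c w^3)`, for `x_n > 3/2` `|sinc x| ≤ 1/x ≤ 2/3` and `n = w_n/ε^2 ≥ 48 w_n`. -/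

namespace MP_d1b55a

theorem na4_Sn_eq (ε : ℝ) (h0 : 0 < ε) (n : ℕ) : Sn ε n = nS (ε ^ 2) (wn ε n) := by
  unfold Sn nS
  have h1 : √(ε ^ 2) = ε := Real.sqrt_sq h0.le
  have h2 : wn ε n * √(ε ^ 2) / 2 = xn ε n := by
    rw [h1]
    unfold wn xn
    ring
  have h3 : wn ε n / ε ^ 2 = (n : ℝ) := by
    unfold wn
    field_simp
  rw [h2, h3, Real.rpow_natCast]

theorem na4_ns (ε w : ℝ) : ns ε w = ((1 - ε ^ 2 / nh2 : ℝ) : ℂ) * nsf 0 w +
    ((ε ^ 2 / nh2 : ℝ) : ℂ) * nsf 1 w := by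
  unfold ns nsf nm
  rw [Finset.mul_sum, Finset.mul_sum, ← Finset.sum_add_distrib]
  refine Finset.sum_congr rfl fun k _ => ?_
  ring

theorem na4_sinc (x : ℝ) (h0 : 0 ≤ x) (h1 : x ≤ 2) : |Real.sinc x| ≤ Real.exp (-(x ^ 2 / 20)) := by
  have h2 : Real.sinc x = Real.sinc (x / 2) * Real.cos (x / 2) := by
    by_cases hx : x = 0
    · subst hx
      simp
    · have hx2 : x / 2 ≠ 0 := div_ne_zero hx two_ne_zero
      rw [Real.sinc_of_ne_zero hx, Real.sinc_of_ne_zero hx2]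
      have h3 : Real.sin x = 2 * Real.sin (x / 2) * Real.cos (x / 2) := by
        rw [← Real.sin_two_mul]
        congr 1
        ring
      rw [h3]
      field_simp
  have hpi : (3 : ℝ) < Real.pi := Real.pi_gt_three
  have hpi2 : Real.pi < 3.15 := Real.pi_lt_d2
  have h4 : 0 ≤ Real.cos (x / 2) :=
    Real.cos_nonneg_of_mem_Icc ⟨by linarith, by linarith⟩
  have h5 : Real.cos (x / 2) ≤ 1 - 2 / Real.pi ^ 2 * (x / 2) ^ 2 :=
    Real.cos_le_one_sub_mul_cos_sq (by rw [abs_of_nonneg (by linarith)]; linarith)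
  have h6 : (1 : ℝ) / 5 ≤ 2 / Real.pi ^ 2 := by
    rw [div_le_div_iff₀ (by norm_num) (by positivity)]
    nlinarith
  have h7 : Real.cos (x / 2) ≤ 1 - x ^ 2 / 20 := by
    have h8 : 1 / 5 * (x / 2) ^ 2 ≤ 2 / Real.pi ^ 2 * (x / 2) ^ 2 :=
      mul_le_mul_of_nonneg_right h6 (by positivity)
    linarith
  rw [h2, abs_mul]
  calc |Real.sinc (x / 2)| * |Real.cos (x / 2)| ≤ 1 * |Real.cos (x / 2)| :=
        mul_le_mul_of_nonneg_right (Real.abs_sinc_le_one _) (abs_nonneg _)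
    _ = Real.cos (x / 2) := by rw [one_mul, abs_of_nonneg h4]
    _ ≤ 1 - x ^ 2 / 20 := h7
    _ ≤ Real.exp (-(x ^ 2 / 20)) := by
        have := Real.add_one_le_exp (-(x ^ 2 / 20))
        linarith

theorem na4_tail (ε : ℝ) (h0 : 0 < ε) (hε : ε ≤ 1443 / 10000) (n : ℕ) (hw : 20 < wn ε n) :
    |Sn ε n| ≤ 1 / 1000 * Real.exp (-(7 / 4 * wn ε n)) := by
  have hx : xn ε n = wn ε n * ε / 2 := by
    unfold xn wn
    ring
  have hx0 : 0 ≤ xn ε n := by
    rw [hx]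
    positivity
  have hkey : |Sn ε n| ≤ Real.exp (-(5 * wn ε n)) := by
    unfold Sn
    rw [abs_pow]
    rcases le_or_gt (xn ε n) 2 with h | h
    · have h1 := pow_le_pow_left₀ (abs_nonneg _) (na4_sinc _ hx0 h) n
      refine h1.trans ?_
      rw [← Real.exp_nat_mul]
      apply Real.exp_le_exp.2
      have h2 : (n : ℝ) * -(xn ε n ^ 2 / 20) = -(wn ε n ^ 3 / 80) := by
        rw [hx]
        unfold wn
        ring
      rw [h2]
      have h3 : 400 ≤ wn ε n ^ 2 := by nlinarith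
      have h4 : 400 * wn ε n ≤ wn ε n ^ 3 := by
        calc 400 * wn ε n ≤ wn ε n ^ 2 * wn ε n := mul_le_mul_of_nonneg_right h3 (by linarith)
          _ = _ := by ring
      linarith
    · have h1 : |Real.sinc (xn ε n)| ≤ Real.exp (-(1 / 2)) := by
        have h2 := fs_sinc_mul_abs (xn ε n)
        rw [abs_of_nonneg hx0] at h2
        have h3 : |Real.sinc (xn ε n)| ≤ 1 / 2 := by
          have h4 := abs_nonneg (Real.sinc (xn ε n))
          nlinarith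
        have h5 : (1 : ℝ) / 2 ≤ Real.exp (-(1 / 2)) := by
          have := Real.add_one_le_exp (-(1 / 2) : ℝ)
          linarith
        exact h3.trans h5
      refine (pow_le_pow_left₀ (abs_nonneg _) h1 n).trans ?_
      rw [← Real.exp_nat_mul]
      apply Real.exp_le_exp.2
      have h2 : 10 * wn ε n ≤ n := by
        unfold wn
        have h3 : ε ^ 2 ≤ 1 / 10 := by nlinarith
        have h4 : (0 : ℝ) ≤ n := Nat.cast_nonneg n
        have h5 := mul_le_mul_of_nonneg_left h3 h4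
        linarith
      linarith
  refine hkey.trans ?_
  have h1 : Real.exp (-(5 * wn ε n)) =
      Real.exp (-(13 / 4 * wn ε n)) * Real.exp (-(7 / 4 * wn ε n)) := by
    rw [← Real.exp_add]
    congr 1
    ring
  rw [h1]
  apply mul_le_mul_of_nonneg_right _ (Real.exp_pos _).le
  have h2 := Real.quadratic_le_exp_of_nonneg (show (0 : ℝ) ≤ 13 / 4 * wn ε n by linarith)
  have h3 : 1000 ≤ Real.exp (13 / 4 * wn ε n) := by nlinarith
  rw [Real.exp_neg, ← one_div]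
  exact one_div_le_one_div_of_le (by norm_num) h3

theorem na_Sn (ε : ℝ) (h0 : 0 < ε) (h1 : ε ^ 3 ≤ 3 / 1000) (n : ℕ) :
    ‖((Sn ε n : ℝ) : ℂ) - ns ε (wn ε n)‖ ≤ 175 / 100000 * Real.exp (-(7 / 4 * wn ε n)) := by
  have hε : ε ≤ 1443 / 10000 := by
    by_contra h
    push Not at h
    have h2 : (1443 / 10000 : ℝ) ^ 3 < ε ^ 3 := pow_lt_pow_left₀ h (by norm_num) (by norm_num)
    norm_num at h2
    linarith
  have hh : ε ^ 2 ≤ nh2 := by
    unfold nh2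
    nlinarith
  have hh0 : 0 < nh2 := by
    unfold nh2
    norm_num
  obtain ⟨w, hw⟩ : ∃ w, w = wn ε n := ⟨_, rfl⟩
  have hw0 : 0 ≤ w := by
    rw [hw]
    exact fs_wn_nonneg ε n
  obtain ⟨t, ht⟩ : ∃ t : ℝ, t = ε ^ 2 / nh2 := ⟨_, rfl⟩
  have ht0 : 0 ≤ t := by
    rw [ht]
    positivity
  have ht1 : t ≤ 1 := by
    rw [ht]
    exact (div_le_one hh0).2 hh
  have hE : 0 < Real.exp (-(7 / 4 * w)) := Real.exp_pos _
  have hEE : ∀ a c : ℝ, a * Real.exp (7 / 4 * w) ≤ c → a ≤ c * Real.exp (-(7 / 4 * w)) := by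
    intro a c hac
    have h3 := mul_le_mul_of_nonneg_right hac hE.le
    have h4 : Real.exp (7 / 4 * w) * Real.exp (-(7 / 4 * w)) = 1 := by
      rw [← Real.exp_add, add_neg_cancel, Real.exp_zero]
    rw [mul_assoc, h4, mul_one] at h3
    exact h3
  rw [← hw]
  rw [na4_ns, ← ht]
  have n1 : ‖((1 - t : ℝ) : ℂ)‖ = 1 - t := by
    rw [Complex.norm_real, Real.norm_of_nonneg (by linarith)]
  have n2 : ‖((t : ℝ) : ℂ)‖ = t := by
    rw [Complex.norm_real, Real.norm_of_nonneg ht0]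
  rcases le_or_gt w 20 with h20 | h20
  · have c0 := hEE _ _ (na_fit0 w hw0)
    have c1 := hEE _ _ (na_fit1 w hw0 h20)
    have c2 := hEE _ _ (na_chord ε w h0 hh hw0 h20)
    rw [← ht] at c2
    rw [na4_Sn_eq ε h0 n, ← hw]
    have e : ((nS (ε ^ 2) w : ℝ) : ℂ) - (((1 - t : ℝ) : ℂ) * nsf 0 w + ((t : ℝ) : ℂ) * nsf 1 w) =
        ((nS (ε ^ 2) w - ((1 - t) * Real.exp (-(w ^ 3) / 24) + t * nS nh2 w) : ℝ) : ℂ) +
        (((1 - t : ℝ) : ℂ) * (((Real.exp (-(w ^ 3) / 24) : ℝ) : ℂ) - nsf 0 w) +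
        ((t : ℝ) : ℂ) * (((nS nh2 w : ℝ) : ℂ) - nsf 1 w)) := by
      push_cast
      ring
    rw [e]
    have d2 : ‖((nS (ε ^ 2) w - ((1 - t) * Real.exp (-(w ^ 3) / 24) + t * nS nh2 w) : ℝ) : ℂ)‖ ≤
        13 / 10000 * Real.exp (-(7 / 4 * w)) := by
      rw [Complex.norm_real, Real.norm_eq_abs]
      exact c2
    have d0 : ‖((1 - t : ℝ) : ℂ) * (((Real.exp (-(w ^ 3) / 24) : ℝ) : ℂ) - nsf 0 w)‖ ≤
        (1 - t) * (4 / 10000 * Real.exp (-(7 / 4 * w))) := by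
      rw [norm_mul, n1]
      exact mul_le_mul_of_nonneg_left c0 (by linarith)
    have d1 : ‖((t : ℝ) : ℂ) * (((nS nh2 w : ℝ) : ℂ) - nsf 1 w)‖ ≤
        t * (44 / 100000 * Real.exp (-(7 / 4 * w))) := by
      rw [norm_mul, n2]
      exact mul_le_mul_of_nonneg_left c1 ht0
    refine (norm_add_le _ _).trans ((add_le_add d2 ((norm_add_le _ _).trans
      (add_le_add d0 d1))).trans ?_)
    have h6 : t * Real.exp (-(7 / 4 * w)) ≤ 1 * Real.exp (-(7 / 4 * w)) :=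
      mul_le_mul_of_nonneg_right ht1 hE.le
    nlinarith
  · have c0 := hEE _ _ (na_fit_tail 0 w h20.le)
    have c1 := hEE _ _ (na_fit_tail 1 w h20.le)
    have c2 := na4_tail ε h0 hε n (by rw [← hw]; exact h20)
    rw [← hw] at c2
    have d2 : ‖((Sn ε n : ℝ) : ℂ)‖ ≤ 1 / 1000 * Real.exp (-(7 / 4 * w)) := by
      rw [Complex.norm_real, Real.norm_eq_abs]
      exact c2
    have d0 : ‖((1 - t : ℝ) : ℂ) * nsf 0 w‖ ≤
        (1 - t) * (1 / 10 ^ 6 * Real.exp (-(7 / 4 * w))) := by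
      rw [norm_mul, n1]
      exact mul_le_mul_of_nonneg_left c0 (by linarith)
    have d1 : ‖((t : ℝ) : ℂ) * nsf 1 w‖ ≤ t * (1 / 10 ^ 6 * Real.exp (-(7 / 4 * w))) := by
      rw [norm_mul, n2]
      exact mul_le_mul_of_nonneg_left c1 ht0
    refine (norm_sub_le _ _).trans ((add_le_add d2 ((norm_add_le _ _).trans
      (add_le_add d0 d1))).trans ?_)
    nlinarith

end MP_d1b55a
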