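import Pool.Agent.Lib.MP_d1b55a_co.NA0
import Pool.Agent.Lib.MP_d1b55a_co.FA5

/-! MP_d1b55a_co, near arc NA5: the expansion of `U_0` in powers of `Z = (2μ)^(1/2)`.
`P(z)` = the solution of `P P' = z (1 - P)` up to `z^11`; `R(z) = P P' - z (1 - P) = z^12 R1(z)`.
With `ω = μ h`, `z = √(2ω) = ε Z`, `q = e^{-ω}`: `F(t) = (1-P(tz)) e^{P(tz) + (tz)^2/2}` has `F(0) = 1`,
`F' = - z R(tz) e^{..}`, so `q' := (1-P)e^P = q F(1)` is very near to `q`. `u(q') = 1/P` by uniqueness,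
`|u(q) - u(q')|` by the derivative `u_1/q`, and `1/P - (P' + z)/z = - R/(z P)`. -/

open Finset

namespace MP_d1b55a

/-- injectivity of `T e^{-T}` on the closed unit disc -/
theorem na5_inj (T₁ T₂ : ℂ) (h1 : ‖T₁‖ ≤ 1) (h2 : ‖T₂‖ ≤ 1)
    (h : T₁ * Complex.exp (-T₁) = T₂ * Complex.exp (-T₂)) : T₁ = T₂ := by
  set d := T₁ - T₂ with hd
  have e1 : T₁ = T₂ * Complex.exp d := by
    have h3 : T₁ * Complex.exp (-T₁) * Complex.exp T₁ = T₂ * Complex.exp (-T₂) * Complex.exp T₁ := by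
      rw [h]
    rw [mul_assoc, ← Complex.exp_add, mul_assoc, ← Complex.exp_add] at h3
    rw [show -T₁ + T₁ = 0 by ring, show -T₂ + T₁ = d by rw [hd]; ring, Complex.exp_zero,
      mul_one] at h3
    exact h3
  have e2 : T₂ * (Complex.exp d - 1) = d := by
    rw [mul_sub, ← e1, mul_one]
  have e3 : T₁ * (1 - Complex.exp (-d)) = d := by
    have h4 : T₁ * Complex.exp (-d) = T₂ := by
      rw [e1, mul_assoc, ← Complex.exp_add, show d + -d = 0 by ring, Complex.exp_zero, mul_one]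
    rw [mul_sub, h4, mul_one]
  have f2 : ‖d‖ ≤ ‖Complex.exp d - 1‖ := by
    calc ‖d‖ = ‖T₂‖ * ‖Complex.exp d - 1‖ := by rw [← norm_mul, e2]
      _ ≤ 1 * ‖Complex.exp d - 1‖ := mul_le_mul_of_nonneg_right h2 (norm_nonneg _)
      _ = _ := one_mul _
  have f3 : ‖d‖ ≤ ‖Complex.exp (-d) - 1‖ := by
    calc ‖d‖ = ‖T₁‖ * ‖1 - Complex.exp (-d)‖ := by rw [← norm_mul, e3]
      _ ≤ 1 * ‖1 - Complex.exp (-d)‖ := mul_le_mul_of_nonneg_right h1 (norm_nonneg _)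
      _ = _ := by rw [one_mul, norm_sub_rev]
  -- the norm of `exp - 1`
  have nrm : ∀ a : ℂ, ‖Complex.exp a - 1‖ ^ 2 =
      (1 - Real.exp a.re) ^ 2 + 2 * Real.exp a.re * (1 - Real.cos a.im) := by
    intro a
    rw [← Complex.normSq_eq_norm_sq, Complex.normSq_apply, Complex.sub_re, Complex.sub_im,
      Complex.exp_re, Complex.exp_im, Complex.one_re, Complex.one_im]
    have := Real.sin_sq_add_cos_sq a.im
    linear_combination (Real.exp a.re) ^ 2 * this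
  have key : ∀ a : ℂ, a.re ≤ 0 → ‖a‖ ≤ ‖Complex.exp a - 1‖ → a = 0 := by
    intro a ha hn
    have h5 : ‖a‖ ^ 2 ≤ ‖Complex.exp a - 1‖ ^ 2 := pow_le_pow_left₀ (norm_nonneg _) hn 2
    rw [nrm, ← Complex.normSq_eq_norm_sq, Complex.normSq_apply] at h5
    have hc : 1 - Real.cos a.im ≤ a.im ^ 2 / 2 := by
      have := Real.one_sub_sq_div_two_le_cos (x := a.im)
      linarith
    have hc0 : 0 ≤ 1 - Real.cos a.im := by linarith [Real.cos_le_one a.im]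
    have hE : Real.exp a.re ≤ 1 := Real.exp_le_one_iff.2 ha
    have hE0 := Real.exp_pos a.re
    have hx : a.re = 0 := by
      by_contra hx
      have h6 : a.re + 1 < Real.exp a.re := Real.add_one_lt_exp hx
      nlinarith
    have hy : a.im = 0 := by
      by_contra hy
      have h7 := Real.one_sub_sq_div_two_lt_cos hy
      rw [hx, Real.exp_zero] at h5
      nlinarith
    exact Complex.ext hx hy
  have hd0 : d = 0 := by
    rcases le_total d.re 0 with hr | hr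
    · exact key d hr f2
    · have : -d = 0 := key (-d) (by simpa using hr) (by rw [norm_neg]; exact f3)
      exact neg_eq_zero.1 this
  exact sub_eq_zero.1 hd0

/-- consequence for the tree function -/
theorem na5_ug (P : ℂ) (h1 : ‖1 - P‖ ≤ 1) (h2 : ‖(1 - P) * Complex.exp P‖ < 1) :
    ug 0 ((1 - P) * Complex.exp P) * P = 1 := by
  obtain ⟨p, hp1, hp2, hp3⟩ := ug_T _ h2
  have h : (1 - p) = (1 - P) := by
    apply na5_inj _ _ hp3 h1
    have e : ∀ x : ℂ, (1 - x) * Complex.exp (-(1 - x)) = (1 - x) * Complex.exp x * Complex.exp (-1) := by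
      intro x
      rw [mul_assoc, ← Complex.exp_add]
      congr 2
      ring
    rw [e, e, hp2]
  have : p = P := by linear_combination -h
  rw [← this] at hp1 ⊢
  exact hp1

/-- the derivative of `u` -/
theorem na5_deriv (q : ℂ) (hq : ‖q‖ < 1) : ∃ D : ℂ, HasDerivAt (ug 0) D q ∧ q * D = ug 1 q := by
  obtain ⟨r, hr1, hr2⟩ := exists_between hq
  have hr0 : 0 < r := (norm_nonneg q).trans_lt hr1
  have hsum : Summable fun n : ℕ => (n : ℝ) * r ^ (n - 1) := by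
    have h1 : Summable fun n : ℕ => (n : ℝ) ^ 1 * r ^ n :=
      summable_pow_mul_geometric_of_norm_lt_one 1 (by rw [Real.norm_of_nonneg hr0.le]; exact hr2)
    have h2 := h1.mul_right (r⁻¹)
    refine h2.congr fun n => ?_
    rcases n with _ | n
    · simp
    · rw [pow_one, Nat.add_sub_cancel, pow_succ]
      field_simp
  have h := hasDerivAt_tsum_of_isPreconnected
    (g := fun (n : ℕ) (z : ℂ) => ((Gn n : ℝ) : ℂ) * (n.choose 0 : ℂ) * z ^ n)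
    (g' := fun (n : ℕ) (z : ℂ) => ((Gn n : ℝ) : ℂ) * (n.choose 0 : ℂ) * ((n : ℂ) * z ^ (n - 1)))
    (t := Metric.ball (0 : ℂ) r) (y₀ := q) (y := q) hsum Metric.isOpen_ball
    (convex_ball _ _).isPreconnected
    (fun n y _ => (hasDerivAt_pow n y).const_mul _)
    (fun n y hy => by
      rw [mem_ball_zero_iff] at hy
      rw [norm_mul, norm_mul, norm_mul, norm_pow, Nat.choose_zero_right, Nat.cast_one, norm_one,
        mul_one, Complex.norm_real, Real.norm_of_nonneg (fa4_Gn_nonneg n), Complex.norm_natCast]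
      have h3 : ‖y‖ ^ (n - 1) ≤ r ^ (n - 1) := pow_le_pow_left₀ (norm_nonneg _) hy.le _
      have h4 : (n : ℝ) * ‖y‖ ^ (n - 1) ≤ n * r ^ (n - 1) :=
        mul_le_mul_of_nonneg_left h3 (Nat.cast_nonneg n)
      have h5 : 0 ≤ (n : ℝ) * ‖y‖ ^ (n - 1) := by positivity
      calc Gn n * ((n : ℝ) * ‖y‖ ^ (n - 1)) ≤ 1 * ((n : ℝ) * ‖y‖ ^ (n - 1)) :=
            mul_le_mul_of_nonneg_right (fa4_Gn_le n) h5
        _ ≤ n * r ^ (n - 1) := by rw [one_mul]; exact h4)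
    (by rw [mem_ball_zero_iff]; exact hr1)
    (by
      refine Summable.of_norm_bounded (g := fun n : ℕ => ‖q‖ ^ n)
        (summable_geometric_of_lt_one (norm_nonneg _) hq) fun n => ?_
      rw [norm_mul, norm_mul, norm_pow, Nat.choose_zero_right, Nat.cast_one, norm_one, mul_one,
        Complex.norm_real, Real.norm_of_nonneg (fa4_Gn_nonneg n)]
      calc Gn n * ‖q‖ ^ n ≤ 1 * ‖q‖ ^ n := mul_le_mul_of_nonneg_right (fa4_Gn_le n) (by positivity)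
        _ = _ := one_mul _)
    (by rw [mem_ball_zero_iff]; exact hr1)
  refine ⟨_, h, ?_⟩
  rw [← tsum_mul_left]
  unfold ug
  refine tsum_congr fun n => ?_
  rcases n with _ | n
  · simp
  · rw [Nat.choose_zero_right, Nat.choose_one_right, Nat.add_sub_cancel, pow_succ]
    push_cast
    ring


/-- `P` -/
noncomputable def na5_P (z : ℂ) : ℂ := z - z ^ 2 / 3 + z ^ 3 / 36 + z ^ 4 / 270 + z ^ 5 / 4320 -
  z ^ 6 / 17010 - 139 * z ^ 7 / 5443200 - z ^ 8 / 204120 - 571 * z ^ 9 / 2351462400 +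
  281 * z ^ 10 / 1515591000 + 163879 * z ^ 11 / 2172751257600

/-- `P'` -/
noncomputable def na5_dP (z : ℂ) : ℂ := 1 - 2 * z / 3 + z ^ 2 / 12 + 2 * z ^ 3 / 135 + z ^ 4 / 864 -
  z ^ 5 / 2835 - 139 * z ^ 6 / 777600 - z ^ 7 / 25515 - 571 * z ^ 8 / 261273600 +
  281 * z ^ 9 / 151559100 + 163879 * z ^ 10 / 197522841600

/-- coefficients of `R1` -/
def na5_r : ℕ → ℚ := fun k => [-5221/27280638000, 1119541/23944605696000, 4062349/586642839552000,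
  2614657/6599731944960000, -15666367/115495309036800000, -217131977/4300625325588480000,
  -785942657/99787947007795200000, -4752266581/210752144080463462400000,
  46049999/156809631012249600000, 26856326641/429168002491125596160000].getD k 0

/-- `R1` -/
noncomputable def na5_R (z : ℂ) : ℂ := ∑ k ∈ range 10, ((na5_r k : ℚ) : ℂ) * z ^ k

theorem na5_R_eq (z : ℂ) : na5_P z * na5_dP z - z * (1 - na5_P z) = z ^ 12 * na5_R z := by
  unfold na5_P na5_dP na5_R na5_r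
  simp only [Finset.sum_range_succ, Finset.sum_range_zero, List.getD_cons_zero,
    List.getD_cons_succ]
  push_cast
  ring

theorem na5_hasDeriv (z : ℂ) : HasDerivAt na5_P (na5_dP z) z := by
  have h : HasDerivAt na5_P (1 - (2 : ℕ) * z ^ (2 - 1) / 3 + (3 : ℕ) * z ^ (3 - 1) / 36 +
      (4 : ℕ) * z ^ (4 - 1) / 270 + (5 : ℕ) * z ^ (5 - 1) / 4320 - (6 : ℕ) * z ^ (6 - 1) / 17010 -
      139 * ((7 : ℕ) * z ^ (7 - 1)) / 5443200 - (8 : ℕ) * z ^ (8 - 1) / 204120 -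
      571 * ((9 : ℕ) * z ^ (9 - 1)) / 2351462400 + 281 * ((10 : ℕ) * z ^ (10 - 1)) / 1515591000 +
      163879 * ((11 : ℕ) * z ^ (11 - 1)) / 2172751257600) z := by
    unfold na5_P
    exact (((((((((((hasDerivAt_id z).sub ((hasDerivAt_pow 2 z).div_const 3)).add
      ((hasDerivAt_pow 3 z).div_const 36)).add ((hasDerivAt_pow 4 z).div_const 270)).add
      ((hasDerivAt_pow 5 z).div_const 4320)).sub ((hasDerivAt_pow 6 z).div_const 17010)).sub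
      (((hasDerivAt_pow 7 z).const_mul 139).div_const 5443200)).sub
      ((hasDerivAt_pow 8 z).div_const 204120)).sub
      (((hasDerivAt_pow 9 z).const_mul 571).div_const 2351462400)).add
      (((hasDerivAt_pow 10 z).const_mul 281).div_const 1515591000)).add
      (((hasDerivAt_pow 11 z).const_mul 163879).div_const 2172751257600))
  convert h using 1
  unfold na5_dP
  push_cast
  ring

/-- norm of a polynomial with rational coefficients -/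
theorem na5_poly (ρ : ℕ → ℚ) (n : ℕ) (w : ℂ) (X : ℚ) (h : ‖w‖ ≤ X) :
    ‖∑ k ∈ range n, ((ρ k : ℚ) : ℂ) * w ^ k‖ ≤ ((∑ k ∈ range n, |ρ k| * X ^ k : ℚ) : ℝ) := by
  refine (norm_sum_le _ _).trans ?_
  push_cast
  apply Finset.sum_le_sum
  intro k _
  rw [norm_mul, norm_pow]
  have : ‖((ρ k : ℚ) : ℂ)‖ = |(ρ k : ℝ)| := by
    rw [show ((ρ k : ℚ) : ℂ) = (((ρ k : ℚ) : ℝ) : ℂ) by push_cast; rfl, Complex.norm_real,
      Real.norm_eq_abs]
  rw [this]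
  exact mul_le_mul_of_nonneg_left (pow_le_pow_left₀ (norm_nonneg _) h k) (abs_nonneg _)

/-- the region: `|Im w| ≤ Re w`, `|w|^2 ≤ 0.7562` -/
def na5_reg (w : ℂ) : Prop := 0 ≤ w.re ∧ w.im ^ 2 ≤ w.re ^ 2 ∧ w.re ^ 2 + w.im ^ 2 ≤ 7562 / 10000

theorem na5_sq (w : ℂ) : ‖w‖ ^ 2 = w.re ^ 2 + w.im ^ 2 := by
  rw [← Complex.normSq_eq_norm_sq, Complex.normSq_apply]; ring

theorem na5_reg_norm {w : ℂ} (h : na5_reg w) : ‖w‖ ≤ ((87 / 100 : ℚ) : ℝ) := by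
  have h1 := na5_sq w
  have h2 := h.2.2
  push_cast
  rw [← h1] at h2
  nlinarith [norm_nonneg w]

theorem na5_R_le {w : ℂ} (h : na5_reg w) : ‖na5_R w‖ ≤ 2 / 10 ^ 7 := by
  have hx := na5_reg_norm h
  have e : na5_R w = (((-5221/27280638000 : ℚ) : ℂ) + ((1119541/23944605696000 : ℚ) : ℂ) * w) +
      w ^ 2 * ∑ k ∈ range 8, ((na5_r (k + 2) : ℚ) : ℂ) * w ^ k := by
    unfold na5_R na5_r
    simp only [Finset.sum_range_succ, Finset.sum_range_zero, List.getD_cons_zero,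
      List.getD_cons_succ]
    push_cast
    ring
  rw [e]
  have h1 : ‖((-5221/27280638000 : ℚ) : ℂ) + ((1119541/23944605696000 : ℚ) : ℂ) * w‖ ≤
      5221/27280638000 := by
    have h3 := na5_sq (((-5221/27280638000 : ℚ) : ℂ) + ((1119541/23944605696000 : ℚ) : ℂ) * w)
    have hre : (((-5221/27280638000 : ℚ) : ℂ) + ((1119541/23944605696000 : ℚ) : ℂ) * w).re =
        -5221/27280638000 + 1119541/23944605696000 * w.re := by
      rw [show ((-5221/27280638000 : ℚ) : ℂ) = ((-5221/27280638000 : ℝ) : ℂ) by push_cast; ring,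
        show ((1119541/23944605696000 : ℚ) : ℂ) = ((1119541/23944605696000 : ℝ) : ℂ) by
          push_cast; ring, Complex.add_re, Complex.ofReal_re, Complex.re_ofReal_mul]
    have him : (((-5221/27280638000 : ℚ) : ℂ) + ((1119541/23944605696000 : ℚ) : ℂ) * w).im =
        1119541/23944605696000 * w.im := by
      rw [show ((-5221/27280638000 : ℚ) : ℂ) = ((-5221/27280638000 : ℝ) : ℂ) by push_cast; ring,
        show ((1119541/23944605696000 : ℚ) : ℂ) = ((1119541/23944605696000 : ℝ) : ℂ) by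
          push_cast; ring, Complex.add_im, Complex.ofReal_im, Complex.im_ofReal_mul]
      ring
    rw [hre, him] at h3
    rw [← sq_le_sq₀ (norm_nonneg _) (by norm_num), h3]
    have hc : w.re ≤ 1 := by
      have := h.2.2
      nlinarith [h.1, sq_nonneg w.im]
    have : w.re ^ 2 + w.im ^ 2 ≤ 2 * w.re := by nlinarith [h.1, h.2.1]
    nlinarith [h.1]
  have h2 : ‖∑ k ∈ range 8, ((na5_r (k + 2) : ℚ) : ℂ) * w ^ k‖ ≤ 8 / 10 ^ 9 := by
    refine (na5_poly (fun k => na5_r (k + 2)) 8 w (87 / 100) hx).trans ?_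
    have : (∑ k ∈ range 8, |na5_r (k + 2)| * (87 / 100) ^ k : ℚ) ≤ 8 / 10 ^ 9 := by
      unfold na5_r
      simp only [Finset.sum_range_succ, Finset.sum_range_zero, List.getD_cons_zero,
        List.getD_cons_succ]
      norm_num [abs_of_pos, abs_of_neg]
    exact (Rat.cast_le.2 this).trans (by norm_num)
  refine (norm_add_le _ _).trans ?_
  rw [norm_mul, norm_pow, na5_sq]
  have h4 : (w.re ^ 2 + w.im ^ 2) * ‖∑ k ∈ range 8, ((na5_r (k + 2) : ℚ) : ℂ) * w ^ k‖ ≤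
      7562 / 10000 * (8 / 10 ^ 9) := mul_le_mul h.2.2 h2 (norm_nonneg _) (by norm_num)
  norm_num at h1 h4 ⊢
  linarith


/-- the remainder of `P` after two terms -/
def na5_e : ℕ → ℚ := fun k => [1/36, 1/270, 1/4320, -1/17010, -139/5443200, -1/204120,
  -571/2351462400, 281/1515591000, 163879/2172751257600].getD k 0

theorem na5_P_eq (w : ℂ) : na5_P w = w * (1 - w / 3) +
    w ^ 3 * ∑ k ∈ range 9, ((na5_e k : ℚ) : ℂ) * w ^ k := by
  unfold na5_P na5_e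
  simp only [Finset.sum_range_succ, Finset.sum_range_zero, List.getD_cons_zero,
    List.getD_cons_succ]
  push_cast
  ring

theorem na5_e_le {w : ℂ} (h : na5_reg w) :
    ‖∑ k ∈ range 9, ((na5_e k : ℚ) : ℂ) * w ^ k‖ ≤ 313 / 10000 := by
  refine (na5_poly na5_e 9 w (87 / 100) (na5_reg_norm h)).trans ?_
  have : (∑ k ∈ range 9, |na5_e k| * (87 / 100) ^ k : ℚ) ≤ 313 / 10000 := by
    unfold na5_e
    simp only [Finset.sum_range_succ, Finset.sum_range_zero, List.getD_cons_zero,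
      List.getD_cons_succ]
    norm_num [abs_of_pos, abs_of_neg]
  exact (Rat.cast_le.2 this).trans (by norm_num)

theorem na5_third (w : ℂ) : ‖1 - w / 3‖ ^ 2 = 1 - 2 * w.re / 3 + (w.re ^ 2 + w.im ^ 2) / 9 := by
  rw [na5_sq]
  have h1 : (1 - w / 3).re = 1 - w.re / 3 := by
    rw [show w / 3 = w * ((1 / 3 : ℝ) : ℂ) by push_cast; ring, Complex.sub_re, Complex.re_mul_ofReal,
      Complex.one_re]
    ring
  have h2 : (1 - w / 3).im = - w.im / 3 := by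
    rw [show w / 3 = w * ((1 / 3 : ℝ) : ℂ) by push_cast; ring, Complex.sub_im, Complex.im_mul_ofReal,
      Complex.one_im]
    ring
  rw [h1, h2]
  ring

theorem na5_P_upper {w : ℂ} (h : na5_reg w) : ‖na5_P w‖ ≤ 1024 / 1000 * ‖w‖ := by
  rw [na5_P_eq]
  refine (norm_add_le _ _).trans ?_
  rw [norm_mul, norm_mul, norm_pow]
  have h1 : ‖1 - w / 3‖ ≤ 1 := by
    rw [← sq_le_sq₀ (norm_nonneg _) (by norm_num), na5_third]
    have hc : w.re ≤ 1 := by nlinarith [h.1, sq_nonneg w.im, h.2.2]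
    nlinarith [h.1, h.2.1]
  have h2 := na5_e_le h
  have h3 : ‖w‖ ^ 2 ≤ 7562 / 10000 := by rw [na5_sq]; exact h.2.2
  have h4 := norm_nonneg w
  have h5 : ‖w‖ * ‖1 - w / 3‖ ≤ ‖w‖ * 1 := mul_le_mul_of_nonneg_left h1 h4
  have h6 : ‖w‖ ^ 3 * ‖∑ k ∈ range 9, ((na5_e k : ℚ) : ℂ) * w ^ k‖ ≤ ‖w‖ * (24 / 1000) := by
    have h7 : ‖w‖ ^ 2 * ‖∑ k ∈ range 9, ((na5_e k : ℚ) : ℂ) * w ^ k‖ ≤
      7562 / 10000 * (313 / 10000) := mul_le_mul h3 h2 (norm_nonneg _) (by norm_num)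
    calc ‖w‖ ^ 3 * ‖∑ k ∈ range 9, ((na5_e k : ℚ) : ℂ) * w ^ k‖ =
        ‖w‖ * (‖w‖ ^ 2 * ‖∑ k ∈ range 9, ((na5_e k : ℚ) : ℂ) * w ^ k‖) := by ring
      _ ≤ ‖w‖ * (24 / 1000) := mul_le_mul_of_nonneg_left (h7.trans (by norm_num)) h4
  linarith

/-- bounds at the end point -/
theorem na5_P_lower {z : ℂ} (h : na5_reg z) (h2 : z.re ^ 2 - z.im ^ 2 ≤ 10401 / 100000) :
    76 / 100 * ‖z‖ ≤ ‖na5_P z‖ := by
  have h1 : 79 / 100 ≤ ‖1 - z / 3‖ := by
    rw [← sq_le_sq₀ (by norm_num) (norm_nonneg _), na5_third]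
    set X := z.re ^ 2 + z.im ^ 2 with hX
    have hc : z.re ^ 2 ≤ (56385 / 100000 + X / 6) ^ 2 := by
      have h3 : 2 * z.re ^ 2 ≤ X + 10401 / 100000 := by rw [hX]; linarith
      have h4 := h.2.2
      rw [← hX] at h4
      have h5 : 0 ≤ X := by positivity
      nlinarith
    have hc2 : z.re ≤ 56385 / 100000 + X / 6 := by
      have h5 : 0 ≤ X := by positivity
      exact (sq_le_sq₀ h.1 (by positivity)).1 hc
    linarith
  have h3 := na5_e_le h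
  have h4 : ‖z‖ ^ 2 ≤ 7562 / 10000 := by rw [na5_sq]; exact h.2.2
  have h5 := norm_nonneg z
  have h6 : ‖z * (1 - z / 3)‖ - ‖z ^ 3 * ∑ k ∈ range 9, ((na5_e k : ℚ) : ℂ) * z ^ k‖ ≤ ‖na5_P z‖ := by
    rw [na5_P_eq]
    have := norm_sub_le (z * (1 - z / 3) + z ^ 3 * ∑ k ∈ range 9, ((na5_e k : ℚ) : ℂ) * z ^ k)
      (z ^ 3 * ∑ k ∈ range 9, ((na5_e k : ℚ) : ℂ) * z ^ k)
    rw [add_sub_cancel_right] at this
    linarith
  rw [norm_mul, norm_mul, norm_pow] at h6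
  have h7 : ‖z‖ * (79 / 100) ≤ ‖z‖ * ‖1 - z / 3‖ := mul_le_mul_of_nonneg_left h1 h5
  have h8 : ‖z‖ ^ 3 * ‖∑ k ∈ range 9, ((na5_e k : ℚ) : ℂ) * z ^ k‖ ≤ ‖z‖ * (24 / 1000) := by
    have h7 : ‖z‖ ^ 2 * ‖∑ k ∈ range 9, ((na5_e k : ℚ) : ℂ) * z ^ k‖ ≤
      7562 / 10000 * (313 / 10000) := mul_le_mul h4 h3 (norm_nonneg _) (by norm_num)
    calc ‖z‖ ^ 3 * ‖∑ k ∈ range 9, ((na5_e k : ℚ) : ℂ) * z ^ k‖ =
        ‖z‖ * (‖z‖ ^ 2 * ‖∑ k ∈ range 9, ((na5_e k : ℚ) : ℂ) * z ^ k‖) := by ring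
      _ ≤ ‖z‖ * (24 / 1000) := mul_le_mul_of_nonneg_left (h7.trans (by norm_num)) h5
  linarith

theorem na5_one_sub_P {z : ℂ} (h : na5_reg z) (h2 : z.re ^ 2 - z.im ^ 2 ≤ 10401 / 100000) :
    ‖1 - na5_P z‖ ≤ 1 := by
  have hu := na5_P_upper h
  set Y := ∑ k ∈ range 9, ((na5_e k : ℚ) : ℂ) * z ^ k with hY
  have he := na5_e_le h
  rw [← hY] at he
  have hre : z.re - (z.re ^ 2 - z.im ^ 2) / 3 - 313 / 10000 * ‖z‖ ^ 3 ≤ (na5_P z).re := by
    rw [na5_P_eq, ← hY, Complex.add_re]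
    have h3 : (z * (1 - z / 3)).re = z.re - (z.re ^ 2 - z.im ^ 2) / 3 := by
      rw [show z * (1 - z / 3) = z - z * z * ((1 / 3 : ℝ) : ℂ) by push_cast; ring, Complex.sub_re,
        Complex.re_mul_ofReal, Complex.mul_re]
      ring
    have h4 : -(‖z‖ ^ 3 * (313 / 10000)) ≤ (z ^ 3 * Y).re := by
      have h5 := Complex.abs_re_le_norm (z ^ 3 * Y)
      rw [norm_mul, norm_pow] at h5
      have h6 := mul_le_mul_of_nonneg_left he (pow_nonneg (norm_nonneg z) 3)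
      have := neg_abs_le (z ^ 3 * Y).re
      linarith
    rw [h3]
    linarith
  have hsq : ‖na5_P z‖ ^ 2 ≤ (1024 / 1000) ^ 2 * (z.re ^ 2 + z.im ^ 2) := by
    rw [← na5_sq z]
    calc ‖na5_P z‖ ^ 2 ≤ (1024 / 1000 * ‖z‖) ^ 2 := pow_le_pow_left₀ (norm_nonneg _) hu 2
      _ = _ := by ring
  have hx3 : ‖z‖ ^ 3 ≤ 87 / 100 * (z.re ^ 2 + z.im ^ 2) := by
    have h7 := na5_reg_norm h
    push_cast at h7
    have : ‖z‖ ^ 3 = ‖z‖ * ‖z‖ ^ 2 := by ring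
    rw [this, na5_sq z]
    exact mul_le_mul_of_nonneg_right h7 (by positivity)
  rw [← sq_le_sq₀ (norm_nonneg _) (by norm_num), na5_sq]
  have h8 := na5_sq (na5_P z)
  rw [Complex.sub_re, Complex.sub_im, Complex.one_re, Complex.one_im]
  have hc : z.re ≤ 66 / 100 := by
    have := h.2.2
    nlinarith [h.1]
  have h9 := h.2.1
  have h10 := h.1
  nlinarith


theorem na5_exp {ω : ℂ} (h1 : ‖ω‖ ≤ 3781 / 10000) (h2 : ω.re ≤ 52005 / 1000000) :
    94 / 100 * ‖ω‖ ≤ ‖1 - Complex.exp (-ω)‖ ∧ ‖1 - Complex.exp (-ω)‖ ≤ 5 / 4 * ‖ω‖ := by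
  have hb := Complex.exp_bound (x := -ω) (by rw [norm_neg]; linarith) (n := 4) (by norm_num)
  rw [norm_neg] at hb
  have hs : ∑ m ∈ range 4, (-ω) ^ m / (m.factorial : ℂ) = 1 - ω * (1 - ω / 2 + ω ^ 2 / 6) := by
    simp only [Finset.sum_range_succ, Finset.sum_range_zero, Nat.factorial]
    push_cast
    ring
  rw [hs] at hb
  have hn := norm_nonneg ω
  have herr : ‖Complex.exp (-ω) - (1 - ω * (1 - ω / 2 + ω ^ 2 / 6))‖ ≤ 3 / 1000 * ‖ω‖ := by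
    refine hb.trans ?_
    have h3 : ‖ω‖ ^ 3 ≤ (3781 / 10000) ^ 3 := pow_le_pow_left₀ hn h1 3
    have : ‖ω‖ ^ 4 = ‖ω‖ * ‖ω‖ ^ 3 := by ring
    rw [this]
    have h4 : ‖ω‖ * ‖ω‖ ^ 3 ≤ ‖ω‖ * (3781 / 10000) ^ 3 := mul_le_mul_of_nonneg_left h3 hn
    norm_num [Nat.factorial] at h4 ⊢
    linarith
  have hre : 950 / 1000 ≤ (1 - ω / 2 + ω ^ 2 / 6).re := by
    have e : 1 - ω / 2 + ω ^ 2 / 6 = 1 - ω * ((1 / 2 : ℝ) : ℂ) + ω * ω * ((1 / 6 : ℝ) : ℂ) := by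
      push_cast; ring
    rw [e, Complex.add_re, Complex.sub_re, Complex.re_mul_ofReal, Complex.re_mul_ofReal,
      Complex.mul_re, Complex.one_re]
    have h5 : ω.im ^ 2 ≤ (3781 / 10000) ^ 2 := by
      have h6 := na5_sq ω
      have h7 : ‖ω‖ ^ 2 ≤ (3781 / 10000) ^ 2 := pow_le_pow_left₀ hn h1 2
      nlinarith [sq_nonneg ω.re]
    nlinarith [sq_nonneg ω.re]
  have hlow : 950 / 1000 * ‖ω‖ ≤ ‖ω * (1 - ω / 2 + ω ^ 2 / 6)‖ := by
    rw [norm_mul, mul_comm]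
    exact mul_le_mul_of_nonneg_left (hre.trans (Complex.re_le_norm _)) hn
  have hup : ‖ω * (1 - ω / 2 + ω ^ 2 / 6)‖ ≤ 122 / 100 * ‖ω‖ := by
    rw [norm_mul, mul_comm]
    apply mul_le_mul_of_nonneg_right _ hn
    have h8 : ‖1 - ω / 2 + ω ^ 2 / 6‖ ≤ 1 + ‖ω‖ / 2 + ‖ω‖ ^ 2 / 6 := by
      refine (norm_add_le _ _).trans (add_le_add ((norm_sub_le _ _).trans ?_) ?_)
      · rw [norm_one, norm_div]; simp
      · rw [norm_div, norm_pow]; simp
    have h7 : ‖ω‖ ^ 2 ≤ (3781 / 10000) ^ 2 := pow_le_pow_left₀ hn h1 2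
    norm_num at h7
    linarith
  have hd : 1 - Complex.exp (-ω) = ω * (1 - ω / 2 + ω ^ 2 / 6) -
      (Complex.exp (-ω) - (1 - ω * (1 - ω / 2 + ω ^ 2 / 6))) := by ring
  rw [hd]
  constructor
  · have := norm_sub_norm_le (ω * (1 - ω / 2 + ω ^ 2 / 6))
      (Complex.exp (-ω) - (1 - ω * (1 - ω / 2 + ω ^ 2 / 6)))
    linarith
  · refine (norm_sub_le _ _).trans ?_
    linarith

/-- the homotopy function -/
noncomputable def na5_F (z : ℂ) (t : ℝ) : ℂ :=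
  (1 - na5_P (t * z)) * Complex.exp (na5_P (t * z) + (t * z) ^ 2 / 2)

theorem na5_F_deriv (z : ℂ) (t : ℝ) : HasDerivAt (na5_F z)
    (-z * ((t * z) ^ 12 * na5_R (t * z)) *
      Complex.exp (na5_P (t * z) + (t * z) ^ 2 / 2)) t := by
  have h1 : HasDerivAt (fun w : ℂ => w * z) z ((t : ℝ) : ℂ) := by
    simpa using (hasDerivAt_id ((t : ℝ) : ℂ)).mul_const z
  have h2 : HasDerivAt (fun w : ℂ => na5_P (w * z)) (na5_dP (((t : ℝ) : ℂ) * z) * z) ((t : ℝ) : ℂ) :=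
    HasDerivAt.comp (h₂ := na5_P) (h := fun w : ℂ => w * z) ((t : ℝ) : ℂ)
      (na5_hasDeriv (((t : ℝ) : ℂ) * z)) h1
  have h3 : HasDerivAt (fun w : ℂ => (w * z) ^ 2 / 2) ((((t : ℝ) : ℂ) * z) * z) ((t : ℝ) : ℂ) := by
    have h30 : HasDerivAt (fun w : ℂ => (w * z) ^ 2 / 2)
      (((2 : ℕ) : ℂ) * (((t : ℝ) : ℂ) * z) ^ (2 - 1) * z / 2) ((t : ℝ) : ℂ) := (h1.pow 2).div_const 2
    refine h30.congr_deriv ?_
    push_cast
    ring
  have h4 : HasDerivAt (fun w : ℂ => Complex.exp (na5_P (w * z) + (w * z) ^ 2 / 2))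
      (Complex.exp (na5_P (((t : ℝ) : ℂ) * z) + (((t : ℝ) : ℂ) * z) ^ 2 / 2) *
        (na5_dP (((t : ℝ) : ℂ) * z) * z + (((t : ℝ) : ℂ) * z) * z)) ((t : ℝ) : ℂ) := (h2.add h3).cexp
  have h5 : HasDerivAt (fun w : ℂ => (1 - na5_P (w * z)) *
      Complex.exp (na5_P (w * z) + (w * z) ^ 2 / 2))
      (-(na5_dP (((t : ℝ) : ℂ) * z) * z) *
        Complex.exp (na5_P (((t : ℝ) : ℂ) * z) + (((t : ℝ) : ℂ) * z) ^ 2 / 2) +
      (1 - na5_P (((t : ℝ) : ℂ) * z)) *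
        (Complex.exp (na5_P (((t : ℝ) : ℂ) * z) + (((t : ℝ) : ℂ) * z) ^ 2 / 2) *
        (na5_dP (((t : ℝ) : ℂ) * z) * z + (((t : ℝ) : ℂ) * z) * z))) ((t : ℝ) : ℂ) :=
    (h2.const_sub 1).mul h4
  have h6 := h5.comp_ofReal
  unfold na5_F
  refine h6.congr_deriv ?_
  rw [← na5_R_eq]
  ring

theorem na5_reg_smul {z : ℂ} (h : na5_reg z) {t : ℝ} (h0 : 0 ≤ t) (h1 : t ≤ 1) :
    na5_reg ((t : ℂ) * z) := by
  obtain ⟨a, b, c⟩ := h
  have ht : t ^ 2 ≤ 1 := by nlinarith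
  refine ⟨?_, ?_, ?_⟩
  · rw [Complex.re_ofReal_mul]; positivity
  · rw [Complex.re_ofReal_mul, Complex.im_ofReal_mul, mul_pow, mul_pow]
    exact mul_le_mul_of_nonneg_left b (sq_nonneg t)
  · rw [Complex.re_ofReal_mul, Complex.im_ofReal_mul]
    nlinarith [sq_nonneg z.re, sq_nonneg z.im]

theorem na5_F_le {z : ℂ} (h : na5_reg z) (hd : z.re ^ 2 - z.im ^ 2 ≤ 10401 / 100000) :
    ‖na5_F z 1 - 1‖ ≤ 4 / 10 ^ 8 * ‖z‖ ^ 13 := by
  have hexp : Real.exp (9429 / 10000) ≤ 26 / 10 := by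
    have h1 := Real.exp_one_lt_d9
    have h2 : Real.exp (9429 / 10000) * Real.exp (571 / 10000) = Real.exp 1 := by
      rw [← Real.exp_add]; norm_num
    have h3 : 1 + 571 / 10000 ≤ Real.exp (571 / 10000) := by
      have := Real.add_one_le_exp (571 / 10000 : ℝ)
      linarith
    have h4 := Real.exp_pos (9429 / 10000)
    nlinarith
  have key := image_norm_le_of_norm_deriv_right_le_deriv_boundary
    (f := fun t => na5_F z t - 1)
    (f' := fun t : ℝ => -z * (((t : ℂ) * z) ^ 12 * na5_R (t * z)) *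
      Complex.exp (na5_P (t * z) + (t * z) ^ 2 / 2)) (a := 0) (b := 1)
    (B := fun t => 4 / 10 ^ 8 * ‖z‖ ^ 13 * t ^ 13)
    (B' := fun t => 4 / 10 ^ 8 * ‖z‖ ^ 13 * (13 * t ^ 12)) ?_ ?_ ?_ ?_ ?_ (x := 1)
    (by norm_num)
  · simpa using key
  · exact fun t _ => ((na5_F_deriv z t).sub_const 1).continuousAt.continuousWithinAt
  · exact fun t _ => ((na5_F_deriv z t).sub_const 1).hasDerivWithinAt
  · simp [na5_F, na5_P]
  · intro t
    have := (hasDerivAt_pow 13 t).const_mul (4 / 10 ^ 8 * ‖z‖ ^ 13)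
    simpa using this
  · intro t ht
    have hr := na5_reg_smul h ht.1 ht.2.le
    rw [norm_mul, norm_mul, norm_mul, norm_neg, norm_pow, norm_mul, Complex.norm_real,
      Real.norm_of_nonneg ht.1, Complex.norm_exp]
    have h1 := na5_R_le hr
    have h2 : Real.exp (na5_P (t * z) + (t * z) ^ 2 / 2).re ≤ 26 / 10 := by
      refine (Real.exp_le_exp.2 ?_).trans hexp
      rw [Complex.add_re]
      have h3 := (Complex.re_le_norm _).trans (na5_P_upper hr)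
      have h4 := na5_reg_norm hr
      push_cast at h4
      have h5 : (((t : ℂ) * z) ^ 2 / 2).re = t ^ 2 * (z.re ^ 2 - z.im ^ 2) / 2 := by
        rw [show ((t : ℂ) * z) ^ 2 / 2 = ((t : ℂ) * z) * ((t : ℂ) * z) * ((1 / 2 : ℝ) : ℂ) by
          push_cast; ring, Complex.re_mul_ofReal, Complex.mul_re, Complex.re_ofReal_mul,
          Complex.im_ofReal_mul]
        ring
      rw [h5]
      have h6 : t ^ 2 ≤ 1 := by nlinarith [ht.1, ht.2]
      have h7 : t ^ 2 * (z.re ^ 2 - z.im ^ 2) ≤ 10401 / 100000 := by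
        have : 0 ≤ z.re ^ 2 - z.im ^ 2 := by linarith [h.2.1]
        nlinarith [sq_nonneg t]
      linarith
    have h8 : 0 ≤ ‖z‖ * ((t * ‖z‖) ^ 12) := by have := ht.1; positivity
    calc ‖z‖ * ((t * ‖z‖) ^ 12 * ‖na5_R (t * z)‖) *
          Real.exp (na5_P (t * z) + (t * z) ^ 2 / 2).re
        = ‖z‖ * ((t * ‖z‖) ^ 12) * (‖na5_R (t * z)‖ *
          Real.exp (na5_P (t * z) + (t * z) ^ 2 / 2).re) := by ring
      _ ≤ ‖z‖ * ((t * ‖z‖) ^ 12) * (2 / 10 ^ 7 * (26 / 10)) :=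
          mul_le_mul_of_nonneg_left (mul_le_mul h1 h2 (Real.exp_pos _).le (by norm_num)) h8
      _ = 4 / 10 ^ 8 * ‖z‖ ^ 13 * (13 * t ^ 12) := by ring


/-- comparison of `u` at two near points -/
theorem na5_path (z : ℂ) (hz : na5_reg z) (hd : z.re ^ 2 - z.im ^ 2 ≤ 10401 / 100000)
    (h : ℝ) (h0 : 0 < h) (h1 : h ≤ (z ^ 2 / 2).re) (h2 : ‖z‖ ^ 2 ≤ 37 * h) (η : ℂ)
    (hη : ‖η‖ ≤ 4 / 10 ^ 8 * ‖z‖ ^ 13) :
    (∀ τ : ℝ, 0 ≤ τ → τ ≤ 1 → ‖Complex.exp (-(z ^ 2 / 2)) * (1 + τ * η)‖ < 1) ∧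
    ‖ug 0 (Complex.exp (-(z ^ 2 / 2)) * (1 + η)) - ug 0 (Complex.exp (-(z ^ 2 / 2)))‖ ≤
      5 / 10 ^ 8 * ‖z‖ ^ 10 := by
  set ω : ℂ := z ^ 2 / 2 with hω
  set q := Complex.exp (-ω) with hq
  have hx := na5_reg_norm hz
  push_cast at hx
  have hx0 := norm_nonneg z
  have hωn : ‖ω‖ = ‖z‖ ^ 2 / 2 := by rw [hω, norm_div, norm_pow]; simp
  have hωre : ω.re = (z.re ^ 2 - z.im ^ 2) / 2 := by
    rw [hω, show z ^ 2 / 2 = z * z * ((1 / 2 : ℝ) : ℂ) by push_cast; ring, Complex.re_mul_ofReal,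
      Complex.mul_re]
    ring
  have hz2 : ‖z‖ ^ 2 ≤ 7562 / 10000 := by rw [na5_sq]; exact hz.2.2
  have hhω : h ≤ ‖ω‖ := h1.trans (Complex.re_le_norm _)
  have hzpos : 0 < ‖z‖ := by
    rcases hx0.eq_or_lt with h3 | h3
    · rw [hωn, ← h3] at hhω; norm_num at hhω; linarith
    · exact h3
  have hηh : ‖η‖ ≤ 2 / 10 ^ 6 * h := by
    refine hη.trans ?_
    have h4 : ‖z‖ ^ 11 ≤ 1 := pow_le_one₀ hx0 (by linarith)
    have h5 : ‖z‖ ^ 13 = ‖z‖ ^ 2 * ‖z‖ ^ 11 := by ring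
    have h6 : ‖z‖ ^ 13 ≤ 37 * h := by
      rw [h5]
      calc ‖z‖ ^ 2 * ‖z‖ ^ 11 ≤ ‖z‖ ^ 2 * 1 := mul_le_mul_of_nonneg_left h4 (by positivity)
        _ ≤ 37 * h := by linarith
    norm_num at h6 ⊢
    linarith
  have hh1 : h ≤ 1 := by linarith
  have hη1 : ‖η‖ ≤ 1 / 1000 := by linarith
  have hqn : ‖q‖ ≤ 1 / (1 + h) := by
    rw [hq, Complex.norm_exp, Complex.neg_re]
    have h3 : Real.exp (-ω.re) ≤ Real.exp (-h) := Real.exp_le_exp.2 (by linarith)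
    refine h3.trans ?_
    rw [Real.exp_neg, ← one_div]
    apply one_div_le_one_div_of_le (by linarith)
    have := Real.add_one_le_exp h
    linarith
  have hqn1 : ‖q‖ < 1 := hqn.trans_lt (by rw [div_lt_one (by linarith)]; linarith)
  have hτn : ∀ τ : ℝ, 0 ≤ τ → τ ≤ 1 → ‖(τ : ℂ) * η‖ ≤ ‖η‖ := by
    intro τ a b
    rw [norm_mul, Complex.norm_real, Real.norm_of_nonneg a]
    exact mul_le_of_le_one_left (norm_nonneg _) b
  have hlt : ∀ τ : ℝ, 0 ≤ τ → τ ≤ 1 → ‖q * (1 + τ * η)‖ < 1 := by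
    intro τ a b
    rw [norm_mul]
    have h3 : ‖1 + (τ : ℂ) * η‖ ≤ 1 + 2 / 10 ^ 6 * h := by
      refine (norm_add_le _ _).trans ?_
      rw [norm_one]
      linarith [hτn τ a b]
    calc ‖q‖ * ‖1 + (τ : ℂ) * η‖ ≤ 1 / (1 + h) * (1 + 2 / 10 ^ 6 * h) :=
          mul_le_mul hqn h3 (norm_nonneg _) (by positivity)
      _ < 1 := by
          rw [div_mul_eq_mul_div, one_mul, div_lt_one (by linarith)]
          linarith
  refine ⟨hlt, ?_⟩
  obtain ⟨e1, e2⟩ := na5_exp (ω := ω) (by rw [hωn]; linarith) (by rw [hωre]; linarith)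
  -- bounds of `1 - q_τ`
  have hb : ∀ τ : ℝ, 0 ≤ τ → τ ≤ 1 → 93 / 100 * ‖ω‖ ≤ ‖1 - q * (1 + τ * η)‖ ∧
      ‖1 - q * (1 + τ * η)‖ ≤ 13 / 10 * ‖ω‖ := by
    intro τ a b
    have h3 : 1 - q * (1 + (τ : ℂ) * η) = (1 - q) - q * ((τ : ℂ) * η) := by ring
    have h4 : ‖q * ((τ : ℂ) * η)‖ ≤ 2 / 10 ^ 6 * ‖ω‖ := by
      rw [norm_mul]
      calc ‖q‖ * ‖(τ : ℂ) * η‖ ≤ 1 * ‖η‖ :=
            mul_le_mul hqn1.le (hτn τ a b) (norm_nonneg _) zero_le_one
        _ ≤ 2 / 10 ^ 6 * ‖ω‖ := by rw [one_mul]; linarith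
    rw [h3]
    have h5 := norm_sub_norm_le (1 - q) (q * ((τ : ℂ) * η))
    have h6 := norm_sub_le (1 - q) (q * ((τ : ℂ) * η))
    constructor <;> linarith
  -- the derivative along the path
  set K : ℝ := 5 / 10 ^ 8 * ‖z‖ ^ 10 with hK
  have hder : ∀ τ ∈ Set.Icc (0 : ℝ) 1, ∃ D' : ℂ,
      HasDerivAt (fun τ : ℝ => ug 0 (q * (1 + τ * η))) D' τ ∧ ‖D'‖ ≤ K := by
    intro τ hτ
    obtain ⟨D, hD1, hD2⟩ := na5_deriv (q * (1 + τ * η)) (hlt τ hτ.1 hτ.2)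
    have hin : HasDerivAt (fun w : ℂ => q * (1 + w * η)) (q * η) ((τ : ℝ) : ℂ) := by
      simpa using (((hasDerivAt_id ((τ : ℝ) : ℂ)).mul_const η).const_add 1).const_mul q
    have hcomp : HasDerivAt (fun w : ℂ => ug 0 (q * (1 + w * η))) (D * (q * η)) ((τ : ℝ) : ℂ) :=
      HasDerivAt.comp (h₂ := ug 0) (h := fun w : ℂ => q * (1 + w * η)) ((τ : ℝ) : ℂ) hD1 hin
    refine ⟨D * (q * η), hcomp.comp_ofReal, ?_⟩
    have hn1 : 999 / 1000 ≤ ‖1 + (τ : ℂ) * η‖ := by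
      have h3 := norm_sub_le (1 + (τ : ℂ) * η) ((τ : ℂ) * η)
      rw [add_sub_cancel_right, norm_one] at h3
      have := hτn τ hτ.1 hτ.2
      linarith
    have hDq : D * (q * η) * (1 + (τ : ℂ) * η) = ug 1 (q * (1 + τ * η)) * η := by
      rw [← hD2]; ring
    have hDn : ‖D * (q * η)‖ * ‖1 + (τ : ℂ) * η‖ = ‖ug 1 (q * (1 + τ * η))‖ * ‖η‖ := by
      rw [← norm_mul, hDq, norm_mul]
    obtain ⟨b1, b2⟩ := hb τ hτ.1 hτ.2
    set l : ℝ := √(2 * ‖1 - q * (1 + τ * η)‖) with hl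
    have hl2 : l ^ 2 = 2 * ‖1 - q * (1 + τ * η)‖ := Real.sq_sqrt (by positivity)
    have hωpos : 0 < ‖ω‖ := by linarith
    have hlpos : 0 < l := Real.sqrt_pos.2 (by linarith)
    have hu := (ug_bounds (q * (1 + τ * η)) (hlt τ hτ.1 hτ.2) l hlpos hl2).2.2.1
    have hlx : 96 / 100 * ‖z‖ ≤ l := by
      rw [← sq_le_sq₀ (by positivity) hlpos.le, hl2]
      nlinarith
    have hle1 : l ^ 2 / 12 ≤ 82 / 1000 := by
      rw [hl2]
      linarith
    have hexp : Real.exp (l ^ 2 / 12) ≤ 109 / 100 := by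
      refine (Real.exp_le_exp.2 hle1).trans ?_
      have h3 := Real.add_one_le_exp (-(82 / 1000) : ℝ)
      have h4 : Real.exp (82 / 1000) * Real.exp (-(82 / 1000)) = 1 := by
        rw [← Real.exp_add]; simp
      have h5 := Real.exp_pos (82 / 1000)
      nlinarith
    have hl3 : (96 / 100 * ‖z‖) ^ 3 ≤ l ^ 3 := pow_le_pow_left₀ (by positivity) hlx 3
    have hu2 : ‖ug 1 (q * (1 + τ * η))‖ * ‖z‖ ^ 3 ≤ 1233 / 1000 := by
      have hz3 : 0 < ‖z‖ ^ 3 := by positivity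
      have h3 : ‖ug 1 (q * (1 + τ * η))‖ ≤ 109 / 100 / (96 / 100 * ‖z‖) ^ 3 :=
        hu.trans (div_le_div₀ (by norm_num) hexp (by positivity) hl3)
      calc ‖ug 1 (q * (1 + τ * η))‖ * ‖z‖ ^ 3 ≤ 109 / 100 / (96 / 100 * ‖z‖) ^ 3 * ‖z‖ ^ 3 :=
            mul_le_mul_of_nonneg_right h3 hz3.le
        _ = 109 / 100 / (96 / 100) ^ 3 := by field_simp
        _ ≤ 1233 / 1000 := by norm_num
    have hfin : ‖D * (q * η)‖ * ‖1 + (τ : ℂ) * η‖ ≤ 1233 / 1000 * (4 / 10 ^ 8 * ‖z‖ ^ 10) := by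
      rw [hDn]
      calc ‖ug 1 (q * (1 + τ * η))‖ * ‖η‖ ≤ ‖ug 1 (q * (1 + τ * η))‖ * (4 / 10 ^ 8 * ‖z‖ ^ 13) :=
            mul_le_mul_of_nonneg_left hη (norm_nonneg _)
        _ = (‖ug 1 (q * (1 + τ * η))‖ * ‖z‖ ^ 3) * (4 / 10 ^ 8 * ‖z‖ ^ 10) := by ring
        _ ≤ _ := mul_le_mul_of_nonneg_right hu2 (by positivity)
    have hDnn := norm_nonneg (D * (q * η))
    have h7 : ‖D * (q * η)‖ * (999 / 1000) ≤ ‖D * (q * η)‖ * ‖1 + (τ : ℂ) * η‖ :=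
      mul_le_mul_of_nonneg_left hn1 hDnn
    have hz10 : 0 ≤ ‖z‖ ^ 10 := by positivity
    rw [hK]
    norm_num at h7 hfin ⊢
    linarith
  choose! D' hD1 hD2 using hder
  have hmv := norm_image_sub_le_of_norm_deriv_le_segment_01'
    (f := fun τ : ℝ => ug 0 (q * (1 + τ * η))) (f' := D') (C := K)
    (fun τ hτ => (hD1 τ hτ).hasDerivWithinAt) (fun τ hτ => hD2 τ ⟨hτ.1, hτ.2.le⟩)
  simpa using hmv

/-- the expansion of `u` in the variable `z` -/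
theorem na5_main (z : ℂ) (hz : na5_reg z) (hd : z.re ^ 2 - z.im ^ 2 ≤ 10401 / 100000)
    (h : ℝ) (h0 : 0 < h) (h1 : h ≤ (z ^ 2 / 2).re) (h2 : ‖z‖ ^ 2 ≤ 37 * h) :
    ‖ug 0 (Complex.exp (-(z ^ 2 / 2))) - (na5_dP z + z) / z‖ ≤ 314 / 10 ^ 9 * ‖z‖ ^ 10 := by
  have hη := na5_F_le hz hd
  obtain ⟨hlt, hpath⟩ := na5_path z hz hd h h0 h1 h2 _ hη
  have hF : Complex.exp (-(z ^ 2 / 2)) * (1 + (na5_F z 1 - 1)) =
      (1 - na5_P z) * Complex.exp (na5_P z) := by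
    unfold na5_F
    rw [Complex.ofReal_one, one_mul, add_sub_cancel, Complex.exp_add]
    have : Complex.exp (-(z ^ 2 / 2)) * Complex.exp (z ^ 2 / 2) = 1 := by
      rw [← Complex.exp_add]; simp
    linear_combination ((1 - na5_P z) * Complex.exp (na5_P z)) * this
  have hP1 := na5_one_sub_P hz hd
  have hq' : ‖(1 - na5_P z) * Complex.exp (na5_P z)‖ < 1 := by
    rw [← hF]
    simpa using hlt 1 zero_le_one le_rfl
  have hug := na5_ug (na5_P z) hP1 hq'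
  rw [hF] at hpath
  have hx0 := norm_nonneg z
  have hzpos : 0 < ‖z‖ := by
    rcases hx0.eq_or_lt with h3 | h3
    · have h4 := h1.trans (Complex.re_le_norm _)
      rw [norm_div, norm_pow, ← h3] at h4
      norm_num at h4
      linarith
    · exact h3
  have hz0 : z ≠ 0 := norm_pos_iff.1 hzpos
  have hPl := na5_P_lower hz hd
  have hPpos : 0 < ‖na5_P z‖ := by nlinarith
  have hP0 : na5_P z ≠ 0 := norm_pos_iff.1 hPpos
  have hdiff : ug 0 ((1 - na5_P z) * Complex.exp (na5_P z)) - (na5_dP z + z) / z =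
      -(z ^ 12 * na5_R z) / (z * na5_P z) := by
    have : ug 0 ((1 - na5_P z) * Complex.exp (na5_P z)) = 1 / na5_P z := by
      field_simp
      linear_combination hug
    rw [this, ← na5_R_eq]
    field_simp
    ring
  have hR := na5_R_le hz
  have hn : ‖-(z ^ 12 * na5_R z) / (z * na5_P z)‖ ≤ 264 / 10 ^ 9 * ‖z‖ ^ 10 := by
    rw [norm_div, norm_neg, norm_mul, norm_mul, norm_pow, div_le_iff₀ (by positivity)]
    calc ‖z‖ ^ 12 * ‖na5_R z‖ ≤ ‖z‖ ^ 12 * (2 / 10 ^ 7) :=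
          mul_le_mul_of_nonneg_left hR (by positivity)
      _ ≤ 264 / 10 ^ 9 * ‖z‖ ^ 10 * (‖z‖ * (76 / 100 * ‖z‖)) := by
          have : 0 ≤ ‖z‖ ^ 12 := by positivity
          nlinarith
      _ ≤ 264 / 10 ^ 9 * ‖z‖ ^ 10 * (‖z‖ * ‖na5_P z‖) := by
          apply mul_le_mul_of_nonneg_left _ (by positivity)
          exact mul_le_mul_of_nonneg_left hPl hx0
  have hsplit : ug 0 (Complex.exp (-(z ^ 2 / 2))) - (na5_dP z + z) / z =
      -(ug 0 ((1 - na5_P z) * Complex.exp (na5_P z)) - ug 0 (Complex.exp (-(z ^ 2 / 2)))) +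
      (ug 0 ((1 - na5_P z) * Complex.exp (na5_P z)) - (na5_dP z + z) / z) := by ring
  rw [hsplit]
  refine (norm_add_le _ _).trans ?_
  rw [norm_neg, hdiff]
  refine (add_le_add hpath hn).trans ?_
  have : 0 ≤ ‖z‖ ^ 10 := by positivity
  norm_num
  linarith

theorem na5_nD (ε : ℝ) (h0 : 0 < ε) (μ : ℂ) (hZ : nZ μ ≠ 0) :
    nD ε 0 μ = ε * ((na5_dP (ε * nZ μ) + ε * nZ μ) / (ε * nZ μ)) := by
  have hε : (ε : ℂ) ≠ 0 := by exact_mod_cast h0.ne'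
  unfold nD npf nr na5_dP
  simp only [Finset.sum_range_succ, Finset.sum_range_zero, List.getD_cons_zero,
    List.getD_cons_succ, Finset.prod_range_zero]
  have hz : ∀ m : ℕ, nZ μ ^ ((m : ℤ) - 1 - 2 * ((0 : ℕ) : ℤ)) = nZ μ ^ m / nZ μ := by
    intro m
    rw [show ((m : ℤ) - 1 - 2 * ((0 : ℕ) : ℤ)) = (m : ℤ) - 1 by simp, zpow_sub₀ hZ, zpow_natCast,
      zpow_one]
  simp only [hz]
  field_simp
  push_cast
  ring

theorem na5_nZ_sq (μ : ℂ) : nZ μ ^ 2 = 2 * μ := by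
  unfold nZ
  have : ((1 / 2 : ℝ) : ℂ) = ((2 : ℕ) : ℂ)⁻¹ := by push_cast; norm_num
  rw [this, Complex.cpow_nat_inv_pow _ two_ne_zero]

theorem na5_nZ_re (μ : ℂ) : 0 ≤ (nZ μ).re := by
  unfold nZ
  rw [Complex.cpow_ofReal]
  have h1 := Complex.arg_le_pi (2 * μ)
  have h2 := Complex.neg_pi_lt_arg (2 * μ)
  have h3 : 0 ≤ Real.cos (Complex.arg (2 * μ) * (1 / 2)) :=
    Real.cos_nonneg_of_mem_Icc ⟨by linarith, by linarith⟩
  rw [Complex.re_ofReal_mul]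
  have h4 : (((Real.cos (Complex.arg (2 * μ) * (1 / 2)) : ℝ) : ℂ) +
      ((Real.sin (Complex.arg (2 * μ) * (1 / 2)) : ℝ) : ℂ) * Complex.I).re =
      Real.cos (Complex.arg (2 * μ) * (1 / 2)) := by
    rw [Complex.add_re, Complex.ofReal_re, Complex.re_ofReal_mul, Complex.I_re, mul_zero, add_zero]
  rw [h4]
  positivity

theorem na5_nU (ε : ℝ) (μ : ℂ) : nU ε 0 μ = ε * ug 0 (Complex.exp (-((ε : ℂ) ^ 2 * μ))) := by
  unfold nU ug
  congr 1
  refine tsum_congr fun n => ?_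
  rw [← Complex.exp_nat_mul, Nat.choose_zero_right]
  unfold wn
  push_cast
  rw [show -μ * ((n : ℂ) * (ε : ℂ) ^ 2) = (n : ℂ) * -((ε : ℂ) ^ 2 * μ) by ring]
  ring

theorem na_U0 (ε : ℝ) (h0 : 0 < ε) (h1 : ε ^ 3 ≤ 3 / 1000) (μ : ℂ) (hr : 1 ≤ μ.re)
    (hr2 : μ.re ≤ 5 / 2) (hi : |μ.im| ≤ 18) : ‖nU ε 0 μ - nD ε 0 μ‖ ≤ 125 / 10 ^ 10 := by
  have hε : ε ≤ 144226 / 1000000 := by
    by_contra h
    push Not at h
    have : (144226 / 1000000 : ℝ) ^ 3 < ε ^ 3 := pow_lt_pow_left₀ h (by norm_num) (by norm_num)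
    norm_num at this
    linarith
  have hε2 : ε ^ 2 ≤ 20801140 / 10 ^ 9 := by
    have := pow_le_pow_left₀ h0.le hε 2
    norm_num at this ⊢
    linarith
  have hZ2 := na5_nZ_sq μ
  have hZre := na5_nZ_re μ
  have hμ0 : μ ≠ 0 := by
    intro h; rw [h] at hr; norm_num at hr
  have hZ0 : nZ μ ≠ 0 := by
    intro h
    rw [h] at hZ2
    exact hμ0 (by linear_combination -hZ2 / 2)
  set z : ℂ := (ε : ℂ) * nZ μ with hz
  have hzsq : z ^ 2 / 2 = (ε : ℂ) ^ 2 * μ := by rw [hz, mul_pow, hZ2]; ring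
  have hzsq2 : z ^ 2 / 2 = ((ε ^ 2 : ℝ) : ℂ) * μ := by rw [hzsq]; push_cast; ring
  have hre2 : z.re ^ 2 - z.im ^ 2 = 2 * (ε ^ 2 * μ.re) := by
    have h3 : (z ^ 2 / 2).re = (z.re ^ 2 - z.im ^ 2) / 2 := by
      rw [show z ^ 2 / 2 = z * z * ((1 / 2 : ℝ) : ℂ) by push_cast; ring, Complex.re_mul_ofReal,
        Complex.mul_re]
      ring
    rw [hzsq2, Complex.re_ofReal_mul] at h3
    linarith
  have hn2 : ‖z‖ ^ 2 = 2 * (ε ^ 2 * ‖μ‖) := by
    have h3 : ‖z ^ 2 / 2‖ = ‖z‖ ^ 2 / 2 := by rw [norm_div, norm_pow]; simp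
    rw [hzsq2, norm_mul, Complex.norm_real, Real.norm_of_nonneg (by positivity)] at h3
    linarith
  have hμn : ‖μ‖ ≤ 181728 / 10000 := by
    rw [← sq_le_sq₀ (norm_nonneg _) (by norm_num), na5_sq]
    have h3 := abs_le.1 hi
    nlinarith
  have he0 : 0 < ε ^ 2 := by positivity
  have hreg : na5_reg z := by
    refine ⟨?_, ?_, ?_⟩
    · rw [hz, Complex.re_ofReal_mul]; positivity
    · have : 0 ≤ 2 * (ε ^ 2 * μ.re) := by positivity
      linarith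
    · rw [← na5_sq, hn2]
      have : ε ^ 2 * ‖μ‖ ≤ 20801140 / 10 ^ 9 * (181728 / 10000) :=
        mul_le_mul hε2 hμn (norm_nonneg _) (by norm_num)
      norm_num at this ⊢
      linarith
  have hd : z.re ^ 2 - z.im ^ 2 ≤ 10401 / 100000 := by
    rw [hre2]
    have : ε ^ 2 * μ.re ≤ 20801140 / 10 ^ 9 * (5 / 2) :=
      mul_le_mul hε2 hr2 (by linarith) (by norm_num)
    norm_num at this ⊢
    linarith
  have hm := na5_main z hreg hd (ε ^ 2) he0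
    (by rw [hzsq2, Complex.re_ofReal_mul]; nlinarith)
    (by rw [hn2]; nlinarith)
  rw [na5_nU, na5_nD ε h0 μ hZ0, ← mul_sub, norm_mul, Complex.norm_real, Real.norm_of_nonneg h0.le,
    ← hzsq]
  have hz10 : ‖z‖ ^ 10 ≤ (7562 / 10000) ^ 5 := by
    have h3 : ‖z‖ ^ 2 ≤ 7562 / 10000 := by rw [na5_sq]; exact hreg.2.2
    calc ‖z‖ ^ 10 = (‖z‖ ^ 2) ^ 5 := by ring
      _ ≤ _ := pow_le_pow_left₀ (by positivity) h3 5
  calc ε * ‖ug 0 (Complex.exp (-(z ^ 2 / 2))) - (na5_dP z + z) / z‖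
      ≤ 144226 / 1000000 * (314 / 10 ^ 9 * (7562 / 10000) ^ 5) :=
        mul_le_mul hε (hm.trans (mul_le_mul_of_nonneg_left hz10 (by norm_num))) (norm_nonneg _)
          (by norm_num)
    _ ≤ 125 / 10 ^ 10 := by norm_num

end MP_d1b55a
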