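import Pool.Agent.Lib.MP_d1b55a_co.NA4
import Pool.Agent.Lib.MP_d1b55a_co.NA5
import Pool.Agent.Lib.MP_d1b55a_co.FA5

/-! MP_d1b55a_co, near arc NA6: `Asum` against `nA0`.
(1) Cauchy estimate (radius `3/4`) for the derivatives of `nU ε 0 - nD ε 0` at `μ = λ_k - B`, `Re μ = 7/4`,
`|Im μ| ≤ 4.8 + 12`: error `1e-8 * j!/(3/4)^j`; times `∑ |nm| ≤ 22500`.
(2) `Asum - ∑_k nm_k nU ε j (λ_k - B) = ε ∑ G_n w^j (S_n - ns) e^{B w}`, norm `≤ 1.75e-3 * nU ε j (1/2)` and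
`nU ε j (1/2) ≤ 1.052, 1.01, 3.22, 17.1` (`j = 0..3`, from `ug_bounds`), `134` (`j = 4`: `w e^{-w/9} ≤ 9/e`),
`j!/(2/5)^j * 2.4` (`j = 5, 6`). -/

namespace MP_d1b55a

/-! ### the moments -/

/-- `ε ∑ G_n w_n^j exp (- ρ w_n)` -/
noncomputable def na6_V (ε : ℝ) (j : ℕ) (ρ : ℝ) : ℝ :=
  ε * ∑' n : ℕ, Gn n * wn ε n ^ j * Real.exp (-(ρ * wn ε n))

/-- `∑ G_n C(n,i) x^n` -/
noncomputable def na6_W (i : ℕ) (x : ℝ) : ℝ := ∑' n : ℕ, Gn n * (n.choose i : ℝ) * x ^ n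

theorem na6_pw (ε ρ : ℝ) (n : ℕ) :
    Real.exp (-(ρ * wn ε n)) = Real.exp (-(ρ * ε ^ 2)) ^ n := by
  rw [← Real.exp_nat_mul]
  congr 1
  unfold wn
  ring

theorem na6_x {ε ρ : ℝ} (h0 : 0 < ε) (hρ : 0 < ρ) :
    0 ≤ Real.exp (-(ρ * ε ^ 2)) ∧ Real.exp (-(ρ * ε ^ 2)) < 1 := by
  refine ⟨(Real.exp_pos _).le, ?_⟩
  have h1 : -(ρ * ε ^ 2) < 0 := by
    have : 0 < ρ * ε ^ 2 := by positivity
    linarith
  have h2 := Real.exp_lt_exp.2 h1
  rwa [Real.exp_zero] at h2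

theorem na6_pow_exp (δ : ℝ) (hδ : 0 < δ) (i : ℕ) (w : ℝ) (hw : 0 ≤ w) :
    w ^ i ≤ i.factorial / δ ^ i * Real.exp (δ * w) := by
  have h2 := Real.pow_div_factorial_le_exp (δ * w) (by positivity) i
  rw [div_le_iff₀ (by positivity), mul_pow] at h2
  rw [div_mul_eq_mul_div, le_div_iff₀ (by positivity)]
  linarith

theorem na6_geo {ε ρ : ℝ} (h0 : 0 < ε) (hρ : 0 < ρ) :
    Summable fun n : ℕ => Real.exp (-(ρ * wn ε n)) := by
  have hx := na6_x h0 hρ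
  refine (summable_geometric_of_lt_one hx.1 hx.2).congr fun n => ?_
  rw [na6_pw]

theorem na6_sum {ε ρ : ℝ} (h0 : 0 < ε) (hρ : 0 < ρ) (i : ℕ) :
    Summable fun n : ℕ => wn ε n ^ i * Real.exp (-(ρ * wn ε n)) := by
  refine ((na6_geo h0 (half_pos hρ)).mul_left (i.factorial / (ρ / 2) ^ i : ℝ)).of_nonneg_of_le
    (fun n => by
      have := fs_wn_nonneg ε n
      positivity) (fun n => ?_)
  have hw := fs_wn_nonneg ε n
  have h1 := na6_pow_exp (ρ / 2) (half_pos hρ) i (wn ε n) hw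
  have h2 : Real.exp (-(ρ * wn ε n)) =
      Real.exp (-(ρ / 2 * wn ε n)) * Real.exp (-(ρ / 2 * wn ε n)) := by
    rw [← Real.exp_add]
    congr 1
    ring
  have h3 : Real.exp (ρ / 2 * wn ε n) * Real.exp (-(ρ / 2 * wn ε n)) = 1 := by
    rw [← Real.exp_add, add_neg_cancel, Real.exp_zero]
  calc wn ε n ^ i * Real.exp (-(ρ * wn ε n))
      ≤ (i.factorial / (ρ / 2) ^ i * Real.exp (ρ / 2 * wn ε n)) * Real.exp (-(ρ * wn ε n)) :=
        mul_le_mul_of_nonneg_right h1 (Real.exp_pos _).le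
    _ = i.factorial / (ρ / 2) ^ i * (Real.exp (ρ / 2 * wn ε n) * Real.exp (-(ρ / 2 * wn ε n))) *
        Real.exp (-(ρ / 2 * wn ε n)) := by rw [h2]; ring
    _ = _ := by rw [h3, mul_one]

theorem na6_Vsum {ε ρ : ℝ} (h0 : 0 < ε) (hρ : 0 < ρ) (i : ℕ) :
    Summable fun n : ℕ => Gn n * wn ε n ^ i * Real.exp (-(ρ * wn ε n)) := by
  refine (na6_sum h0 hρ i).of_nonneg_of_le (fun n => ?_) (fun n => ?_)
  · have := fs_wn_nonneg ε n
    have := Gn_nonneg n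
    positivity
  · have hw := fs_wn_nonneg ε n
    have h1 : 0 ≤ wn ε n ^ i * Real.exp (-(ρ * wn ε n)) := by positivity
    calc Gn n * wn ε n ^ i * Real.exp (-(ρ * wn ε n)) =
          Gn n * (wn ε n ^ i * Real.exp (-(ρ * wn ε n))) := by ring
      _ ≤ 1 * (wn ε n ^ i * Real.exp (-(ρ * wn ε n))) :=
          mul_le_mul_of_nonneg_right (Gn_le_one n) h1
      _ = _ := one_mul _

theorem na6_Wsum (i : ℕ) {x : ℝ} (hx : 0 ≤ x) (hx1 : x < 1) :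
    Summable fun n : ℕ => Gn n * (n.choose i : ℝ) * x ^ n := by
  have h := summable_pow_mul_geometric_of_norm_lt_one i
    (show ‖x‖ < 1 by rw [Real.norm_of_nonneg hx]; exact hx1)
  refine h.of_nonneg_of_le (fun n => ?_) (fun n => ?_)
  · have := Gn_nonneg n
    positivity
  · apply mul_le_mul_of_nonneg_right _ (by positivity)
    have h1 : (n.choose i : ℝ) ≤ (n : ℝ) ^ i := by exact_mod_cast Nat.choose_le_pow n i
    calc Gn n * (n.choose i : ℝ) ≤ 1 * (n : ℝ) ^ i :=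
          mul_le_mul (Gn_le_one n) h1 (Nat.cast_nonneg _) zero_le_one
      _ = _ := one_mul _

theorem na6_W_nonneg (i : ℕ) {x : ℝ} (hx : 0 ≤ x) : 0 ≤ na6_W i x := by
  refine tsum_nonneg fun n => ?_
  have := Gn_nonneg n
  positivity

theorem na6_ug (i : ℕ) {x : ℝ} (hx : 0 ≤ x) : ‖ug i (x : ℂ)‖ = na6_W i x := by
  have h : ug i (x : ℂ) = ((na6_W i x : ℝ) : ℂ) := by
    unfold ug na6_W
    rw [Complex.ofReal_tsum]
    refine tsum_congr fun n => ?_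
    push_cast
    ring
  rw [h, Complex.norm_real, Real.norm_of_nonneg (na6_W_nonneg i hx)]

theorem na6_choose_three (n : ℕ) : (n.choose 3 : ℝ) = (n : ℝ) * (n - 1) * (n - 2) / 6 := by
  have h := fa4_choose_three n
  exact_mod_cast h

theorem na6_V0 (ε ρ : ℝ) : na6_V ε 0 ρ = ε * na6_W 0 (Real.exp (-(ρ * ε ^ 2))) := by
  unfold na6_V na6_W
  congr 1
  refine tsum_congr fun n => ?_
  rw [na6_pw, Nat.choose_zero_right]
  simp

theorem na6_V1 (ε ρ : ℝ) : na6_V ε 1 ρ = ε * (ε ^ 2 * na6_W 1 (Real.exp (-(ρ * ε ^ 2)))) := by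
  unfold na6_V na6_W
  congr 1
  rw [← tsum_mul_left]
  refine tsum_congr fun n => ?_
  rw [na6_pw, Nat.choose_one_right]
  unfold wn
  ring

theorem na6_V2 {ε ρ : ℝ} (h0 : 0 < ε) (hρ : 0 < ρ) : na6_V ε 2 ρ =
    ε * ((ε ^ 2) ^ 2 * (2 * na6_W 2 (Real.exp (-(ρ * ε ^ 2))) +
      na6_W 1 (Real.exp (-(ρ * ε ^ 2))))) := by
  have hx := na6_x h0 hρ
  unfold na6_V na6_W
  congr 1
  rw [← tsum_mul_left, ← Summable.tsum_add ((na6_Wsum 2 hx.1 hx.2).mul_left 2)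
    (na6_Wsum 1 hx.1 hx.2), ← tsum_mul_left]
  refine tsum_congr fun n => ?_
  rw [na6_pw, Nat.choose_one_right, Nat.cast_choose_two ℝ n]
  unfold wn
  ring

theorem na6_V3 {ε ρ : ℝ} (h0 : 0 < ε) (hρ : 0 < ρ) : na6_V ε 3 ρ =
    ε * ((ε ^ 2) ^ 3 * (6 * na6_W 3 (Real.exp (-(ρ * ε ^ 2))) +
      6 * na6_W 2 (Real.exp (-(ρ * ε ^ 2))) + na6_W 1 (Real.exp (-(ρ * ε ^ 2))))) := by
  have hx := na6_x h0 hρ
  unfold na6_V na6_W
  congr 1
  rw [← tsum_mul_left, ← tsum_mul_left, ← Summable.tsum_add ((na6_Wsum 3 hx.1 hx.2).mul_left 6)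
    ((na6_Wsum 2 hx.1 hx.2).mul_left 6), ← Summable.tsum_add
    (((na6_Wsum 3 hx.1 hx.2).mul_left 6).add ((na6_Wsum 2 hx.1 hx.2).mul_left 6))
    (na6_Wsum 1 hx.1 hx.2), ← tsum_mul_left]
  refine tsum_congr fun n => ?_
  rw [na6_pw, Nat.choose_one_right, Nat.cast_choose_two ℝ n, na6_choose_three]
  unfold wn
  ring

/-- the number `l` -/
theorem na6_l {ε ρ : ℝ} (h0 : 0 < ε) (hρ : 0 < ρ) (a b : ℝ) (ha : 0 < a) (hb : 0 < b)
    (hε : ε ≤ 1443 / 10000) (hb2 : 2 * ρ ≤ b ^ 2)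
    (ha2 : a ^ 2 ≤ 2 * ρ * (1 - ρ / 2 * (1443 / 10000) ^ 2)) :
    ∃ l : ℝ, 0 < l ∧ l ^ 2 = 2 * ‖1 - ((Real.exp (-(ρ * ε ^ 2)) : ℝ) : ℂ)‖ ∧
      a * ε ≤ l ∧ l ≤ b * ε := by
  have hx := na6_x h0 hρ
  set x := Real.exp (-(ρ * ε ^ 2)) with hxd
  have hn : ‖1 - (x : ℂ)‖ = 1 - x := by
    rw [← Complex.ofReal_one, ← Complex.ofReal_sub, Complex.norm_real, Real.norm_of_nonneg]
    linarith [hx.2]
  obtain ⟨t, ht⟩ : ∃ t : ℝ, t = ρ * ε ^ 2 := ⟨_, rfl⟩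
  have ht0 : 0 < t := by rw [ht]; positivity
  have hup : 1 - x ≤ t := by
    have := Real.add_one_le_exp (-t)
    rw [hxd, ← ht]
    linarith
  have hlo : t - t ^ 2 / 2 ≤ 1 - x := by
    have h1 := Real.quadratic_le_exp_of_nonneg ht0.le
    have h2 : x * Real.exp t = 1 := by
      rw [hxd, ← ht, ← Real.exp_add, neg_add_cancel, Real.exp_zero]
    have h3 : x * (1 + t + t ^ 2 / 2) ≤ 1 :=
      (mul_le_mul_of_nonneg_left h1 hx.1).trans h2.le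
    have h4 : (1 - t + t ^ 2 / 2) * (1 + t + t ^ 2 / 2) = 1 + t ^ 4 / 4 := by ring
    have h5 : 0 < 1 + t + t ^ 2 / 2 := by positivity
    have h6 : x ≤ 1 - t + t ^ 2 / 2 := by
      by_contra hc
      push Not at hc
      have := mul_lt_mul_of_pos_right hc h5
      have h7 : 0 ≤ t ^ 4 := by positivity
      linarith
    linarith
  refine ⟨Real.sqrt (2 * (1 - x)), Real.sqrt_pos.2 (by linarith [hx.2]), ?_, ?_, ?_⟩
  · rw [hn, Real.sq_sqrt (by linarith [hx.2])]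
  · apply Real.le_sqrt_of_sq_le
    have h8 : ε ^ 2 ≤ (1443 / 10000) ^ 2 := pow_le_pow_left₀ h0.le hε 2
    have h9 : t - t ^ 2 / 2 = ε ^ 2 * (ρ * (1 - ρ / 2 * ε ^ 2)) := by rw [ht]; ring
    have h10 : ρ / 2 * ε ^ 2 ≤ ρ / 2 * (1443 / 10000) ^ 2 :=
      mul_le_mul_of_nonneg_left h8 (by positivity)
    have h11 : a ^ 2 ≤ 2 * (ρ * (1 - ρ / 2 * ε ^ 2)) := by
      refine ha2.trans ?_
      nlinarith
    calc (a * ε) ^ 2 = ε ^ 2 * a ^ 2 := by ring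
      _ ≤ ε ^ 2 * (2 * (ρ * (1 - ρ / 2 * ε ^ 2))) := mul_le_mul_of_nonneg_left h11 (by positivity)
      _ = 2 * (t - t ^ 2 / 2) := by rw [h9]; ring
      _ ≤ 2 * (1 - x) := by linarith
  · apply Real.sqrt_le_iff.2
    refine ⟨by positivity, ?_⟩
    have h8 : 0 ≤ ε ^ 2 := by positivity
    calc 2 * (1 - x) ≤ 2 * t := by linarith
      _ = 2 * ρ * ε ^ 2 := by rw [ht]; ring
      _ ≤ b ^ 2 * ε ^ 2 := mul_le_mul_of_nonneg_right hb2 h8
      _ = (b * ε) ^ 2 := by ring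

/-- `(ε / l)^m ≤ (1 / a)^m` -/
theorem na6_rat {ε l a : ℝ} (h0 : 0 < ε) (ha : 0 < a) (h : a * ε ≤ l) (m : ℕ) :
    ε ^ m / l ^ m ≤ (1 / a) ^ m := by
  have hl : 0 < l := lt_of_lt_of_le (by positivity) h
  rw [← div_pow]
  apply pow_le_pow_left₀ (by positivity)
  rw [div_le_div_iff₀ hl ha]
  linarith

theorem na6_W_bd {ε ρ : ℝ} (h0 : 0 < ε) (hρ : 0 < ρ) (a b : ℝ) (ha : 0 < a) (hb : 0 < b)
    (hb1 : b ≤ 1) (hε : ε ≤ 1443 / 10000) (hb2 : 2 * ρ ≤ b ^ 2)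
    (ha2 : a ^ 2 ≤ 2 * ρ * (1 - ρ / 2 * (1443 / 10000) ^ 2)) (c : ℝ) (hc : c = b * (1443 / 10000)) :
    ε * na6_W 0 (Real.exp (-(ρ * ε ^ 2))) ≤
      (1 / a) ^ 1 * (1 + (c / 3 + c ^ 2 / 36) + (c / 3 + c ^ 2 / 36) ^ 2) ∧
    ε ^ 3 * na6_W 1 (Real.exp (-(ρ * ε ^ 2))) ≤
      (1 / a) ^ 3 * (1 + c ^ 2 / 12 + (c ^ 2 / 12) ^ 2) ∧
    ε ^ 5 * na6_W 2 (Real.exp (-(ρ * ε ^ 2))) ≤
      (1 / a) ^ 5 * ((3 + c) / 2 * (1 + 5 * c ^ 2 / 36 + (5 * c ^ 2 / 36) ^ 2)) ∧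
    ε ^ 7 * na6_W 3 (Real.exp (-(ρ * ε ^ 2))) ≤
      (1 / a) ^ 7 * ((15 + 10 * c + 2 * c ^ 2) / 6 *
        (1 + 7 * c ^ 2 / 36 + (7 * c ^ 2 / 36) ^ 2)) := by
  have hx := na6_x h0 hρ
  obtain ⟨l, hl0, hl2, hla, hlb⟩ := na6_l h0 hρ a b ha hb hε hb2 ha2
  have hq : ‖((Real.exp (-(ρ * ε ^ 2)) : ℝ) : ℂ)‖ < 1 := by
    rw [Complex.norm_real, Real.norm_of_nonneg hx.1]
    exact hx.2
  obtain ⟨-, u0, u1, u2, u3⟩ := ug_bounds _ hq l hl0 hl2
  rw [na6_ug 0 hx.1] at u0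
  rw [na6_ug 1 hx.1] at u1
  rw [na6_ug 2 hx.1] at u2
  rw [na6_ug 3 hx.1] at u3
  have hlc : l ≤ c := by
    rw [hc]
    exact hlb.trans (mul_le_mul_of_nonneg_left hε hb.le)
  have hc0 : 0 < c := lt_of_lt_of_le hl0 hlc
  have hc1 : c ≤ 1443 / 10000 := by
    rw [hc]
    calc b * (1443 / 10000) ≤ 1 * (1443 / 10000) :=
          mul_le_mul_of_nonneg_right hb1 (by norm_num)
      _ = _ := one_mul _
  have hl22 : l ^ 2 ≤ c ^ 2 := pow_le_pow_left₀ hl0.le hlc 2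
  have hc2 : c ^ 2 ≤ 1 := by nlinarith
  have hex : ∀ t T : ℝ, t ≤ T → 0 ≤ T → T ≤ 1 → Real.exp t ≤ 1 + T + T ^ 2 := by
    intro t T h1 _ h3
    exact (Real.exp_le_exp.2 h1).trans (fa5_exp_le h3)
  have key : ∀ (m : ℕ) (W Y X : ℝ), W ≤ Y / l ^ m → 0 ≤ Y → Y ≤ X →
      ε ^ m * W ≤ (1 / a) ^ m * X := by
    intro m W Y X h1 h2 h3
    have h4 := na6_rat h0 ha hla m
    calc ε ^ m * W ≤ ε ^ m * (Y / l ^ m) := mul_le_mul_of_nonneg_left h1 (by positivity)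
      _ = ε ^ m / l ^ m * Y := by ring
      _ ≤ (1 / a) ^ m * X := mul_le_mul h4 h3 h2 (by positivity)
  refine ⟨?_, ?_, ?_, ?_⟩
  · have h := key 1 (na6_W 0 (Real.exp (-(ρ * ε ^ 2)))) (Real.exp (l / 3 + l ^ 2 / 36)) _
      (by rw [pow_one]; exact u0)
      (Real.exp_pos _).le (hex _ (c / 3 + c ^ 2 / 36) (by linarith) (by positivity) (by nlinarith))
    rw [pow_one ε] at h
    exact h
  · exact key 3 _ (Real.exp (l ^ 2 / 12)) _ u1 (Real.exp_pos _).le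
      (hex _ (c ^ 2 / 12) (by linarith) (by positivity) (by linarith))
  · refine key 5 _ ((3 + l) / 2 * Real.exp (5 * l ^ 2 / 36)) _ u2 (by positivity) ?_
    apply mul_le_mul (by linarith) _ (Real.exp_pos _).le (by positivity)
    exact hex _ (5 * c ^ 2 / 36) (by linarith) (by positivity) (by linarith)
  · refine key 7 _ ((15 + 10 * l + 2 * l ^ 2) / 6 * Real.exp (7 * l ^ 2 / 36)) _ u3
      (by positivity) ?_
    apply mul_le_mul (by linarith) _ (Real.exp_pos _).le (by positivity)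
    exact hex _ (7 * c ^ 2 / 36) (by linarith) (by positivity) (by linarith)

/-- bounds of the moments -/
noncomputable def na6_M : ℕ → ℝ := fun j =>
  [1055 / 1000, 1011 / 1000, 322 / 100, 171 / 10, 134, 27000, 403000].getD j 0

theorem na6_mono {ε ρ ρ' C : ℝ} (h0 : 0 < ε) (hρ : 0 < ρ) (hρ' : 0 < ρ') (i j : ℕ)
    (h : ∀ w : ℝ, 0 ≤ w → w ^ i * Real.exp (-(ρ * w)) ≤ C * (w ^ j * Real.exp (-(ρ' * w)))) :
    na6_V ε i ρ ≤ C * na6_V ε j ρ' := by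
  unfold na6_V
  calc ε * ∑' n : ℕ, Gn n * wn ε n ^ i * Real.exp (-(ρ * wn ε n))
      ≤ ε * ∑' n : ℕ, C * (Gn n * wn ε n ^ j * Real.exp (-(ρ' * wn ε n))) := by
        apply mul_le_mul_of_nonneg_left _ h0.le
        refine Summable.tsum_le_tsum (fun n => ?_) (na6_Vsum h0 hρ i)
          ((na6_Vsum h0 hρ' j).mul_left C)
        have h1 := mul_le_mul_of_nonneg_left (h (wn ε n) (fs_wn_nonneg ε n)) (Gn_nonneg n)
        calc Gn n * wn ε n ^ i * Real.exp (-(ρ * wn ε n)) =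
            Gn n * (wn ε n ^ i * Real.exp (-(ρ * wn ε n))) := by ring
          _ ≤ _ := h1
          _ = _ := by ring
    _ = C * (ε * ∑' n : ℕ, Gn n * wn ε n ^ j * Real.exp (-(ρ' * wn ε n))) := by
        rw [tsum_mul_left]
        ring

theorem na6_Vb (ε : ℝ) (h0 : 0 < ε) (h1 : ε ^ 3 ≤ 3 / 1000) (j : ℕ) (hj : j ≤ 6) :
    na6_V ε j (1 / 2) ≤ na6_M j := by
  have hε : ε ≤ 1443 / 10000 := by
    by_contra h
    push Not at h
    have h2 : (1443 / 10000 : ℝ) ^ 3 < ε ^ 3 := pow_lt_pow_left₀ h (by norm_num) (by norm_num)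
    norm_num at h2
    linarith
  have hε2 : ε ^ 2 ≤ (1443 / 10000) ^ 2 := pow_le_pow_left₀ h0.le hε 2
  have hε2' : 0 ≤ ε ^ 2 := by positivity
  obtain ⟨w0, w1, w2, w3⟩ := na6_W_bd h0 (show (0 : ℝ) < 1 / 2 by norm_num) (9973 / 10000) 1
    (by norm_num) (by norm_num) le_rfl hε (by norm_num) (by norm_num) _ rfl
  obtain ⟨v0, v1, v2, v3⟩ := na6_W_bd h0 (show (0 : ℝ) < 7 / 18 by norm_num) (88 / 100)
    (882 / 1000) (by norm_num) (by norm_num) (by norm_num) hε (by norm_num) (by norm_num) _ rfl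
  obtain ⟨z0, -, -, -⟩ := na6_W_bd h0 (show (0 : ℝ) < 1 / 10 by norm_num) (4469 / 10000)
    (448 / 1000) (by norm_num) (by norm_num) (by norm_num) hε (by norm_num) (by norm_num) _ rfl
  have hxh := na6_x (ρ := 1 / 2) h0 (by norm_num)
  have hxs := na6_x (ρ := 7 / 18) h0 (by norm_num)
  have a1 := na6_W_nonneg 1 hxh.1
  have a2 := na6_W_nonneg 2 hxh.1
  have b1 := na6_W_nonneg 1 hxs.1
  have b2 := na6_W_nonneg 2 hxs.1
  have W0 : ε * na6_W 0 (Real.exp (-(1 / 2 * ε ^ 2))) ≤ 1055 / 1000 := w0.trans (by norm_num)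
  have W1 : ε ^ 3 * na6_W 1 (Real.exp (-(1 / 2 * ε ^ 2))) ≤ 10101 / 10000 :=
    w1.trans (by norm_num)
  have W2 : ε ^ 5 * na6_W 2 (Real.exp (-(1 / 2 * ε ^ 2))) ≤ 1599 / 1000 := w2.trans (by norm_num)
  have W3 : ε ^ 7 * na6_W 3 (Real.exp (-(1 / 2 * ε ^ 2))) ≤ 28125 / 10000 :=
    w3.trans (by norm_num)
  have Y1 : ε ^ 3 * na6_W 1 (Real.exp (-(7 / 18 * ε ^ 2))) ≤ 147 / 100 := v1.trans (by norm_num)
  have Y2 : ε ^ 5 * na6_W 2 (Real.exp (-(7 / 18 * ε ^ 2))) ≤ 297 / 100 := v2.trans (by norm_num)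
  have Y3 : ε ^ 7 * na6_W 3 (Real.exp (-(7 / 18 * ε ^ 2))) ≤ 6671 / 1000 := v3.trans (by norm_num)
  have Z0 : ε * na6_W 0 (Real.exp (-(1 / 10 * ε ^ 2))) ≤ 229 / 100 := z0.trans (by norm_num)
  have hε4 : (ε ^ 2) ^ 2 ≤ ((1443 / 10000) ^ 2) ^ 2 := pow_le_pow_left₀ hε2' hε2 2
  have hV0 : na6_V ε 0 (1 / 2) ≤ 1055 / 1000 := by
    rw [na6_V0]
    exact W0
  have hV1 : na6_V ε 1 (1 / 2) ≤ 1011 / 1000 := by
    rw [na6_V1]
    calc ε * (ε ^ 2 * na6_W 1 (Real.exp (-(1 / 2 * ε ^ 2)))) =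
        ε ^ 3 * na6_W 1 (Real.exp (-(1 / 2 * ε ^ 2))) := by ring
      _ ≤ 10101 / 10000 := W1
      _ ≤ _ := by norm_num
  have hV2 : na6_V ε 2 (1 / 2) ≤ 322 / 100 := by
    rw [na6_V2 h0 (by norm_num)]
    have p1 : ε ^ 2 * (ε ^ 3 * na6_W 1 (Real.exp (-(1 / 2 * ε ^ 2)))) ≤
        (1443 / 10000) ^ 2 * (10101 / 10000) := mul_le_mul hε2 W1 (by positivity) (by norm_num)
    calc ε * ((ε ^ 2) ^ 2 * (2 * na6_W 2 (Real.exp (-(1 / 2 * ε ^ 2))) +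
          na6_W 1 (Real.exp (-(1 / 2 * ε ^ 2))))) =
        2 * (ε ^ 5 * na6_W 2 (Real.exp (-(1 / 2 * ε ^ 2)))) +
          ε ^ 2 * (ε ^ 3 * na6_W 1 (Real.exp (-(1 / 2 * ε ^ 2)))) := by ring
      _ ≤ 2 * (1599 / 1000) + (1443 / 10000) ^ 2 * (10101 / 10000) := by linarith
      _ ≤ _ := by norm_num
  have hV3 : na6_V ε 3 (1 / 2) ≤ 171 / 10 := by
    rw [na6_V3 h0 (by norm_num)]
    have p1 : (ε ^ 2) ^ 2 * (ε ^ 3 * na6_W 1 (Real.exp (-(1 / 2 * ε ^ 2)))) ≤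
        ((1443 / 10000) ^ 2) ^ 2 * (10101 / 10000) :=
      mul_le_mul hε4 W1 (by positivity) (by norm_num)
    have p2 : ε ^ 2 * (ε ^ 5 * na6_W 2 (Real.exp (-(1 / 2 * ε ^ 2)))) ≤
        (1443 / 10000) ^ 2 * (1599 / 1000) := mul_le_mul hε2 W2 (by positivity) (by norm_num)
    calc ε * ((ε ^ 2) ^ 3 * (6 * na6_W 3 (Real.exp (-(1 / 2 * ε ^ 2))) +
          6 * na6_W 2 (Real.exp (-(1 / 2 * ε ^ 2))) + na6_W 1 (Real.exp (-(1 / 2 * ε ^ 2))))) =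
        6 * (ε ^ 7 * na6_W 3 (Real.exp (-(1 / 2 * ε ^ 2)))) +
          6 * (ε ^ 2 * (ε ^ 5 * na6_W 2 (Real.exp (-(1 / 2 * ε ^ 2))))) +
          (ε ^ 2) ^ 2 * (ε ^ 3 * na6_W 1 (Real.exp (-(1 / 2 * ε ^ 2)))) := by ring
      _ ≤ 6 * (28125 / 10000) + 6 * ((1443 / 10000) ^ 2 * (1599 / 1000)) +
          ((1443 / 10000) ^ 2) ^ 2 * (10101 / 10000) := by linarith
      _ ≤ _ := by norm_num
  have hS3 : na6_V ε 3 (7 / 18) ≤ 404 / 10 := by
    rw [na6_V3 h0 (by norm_num)]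
    have p1 : (ε ^ 2) ^ 2 * (ε ^ 3 * na6_W 1 (Real.exp (-(7 / 18 * ε ^ 2)))) ≤
        ((1443 / 10000) ^ 2) ^ 2 * (147 / 100) :=
      mul_le_mul hε4 Y1 (by positivity) (by norm_num)
    have p2 : ε ^ 2 * (ε ^ 5 * na6_W 2 (Real.exp (-(7 / 18 * ε ^ 2)))) ≤
        (1443 / 10000) ^ 2 * (297 / 100) := mul_le_mul hε2 Y2 (by positivity) (by norm_num)
    calc ε * ((ε ^ 2) ^ 3 * (6 * na6_W 3 (Real.exp (-(7 / 18 * ε ^ 2))) +
          6 * na6_W 2 (Real.exp (-(7 / 18 * ε ^ 2))) + na6_W 1 (Real.exp (-(7 / 18 * ε ^ 2))))) =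
        6 * (ε ^ 7 * na6_W 3 (Real.exp (-(7 / 18 * ε ^ 2)))) +
          6 * (ε ^ 2 * (ε ^ 5 * na6_W 2 (Real.exp (-(7 / 18 * ε ^ 2))))) +
          (ε ^ 2) ^ 2 * (ε ^ 3 * na6_W 1 (Real.exp (-(7 / 18 * ε ^ 2)))) := by ring
      _ ≤ 6 * (6671 / 1000) + 6 * ((1443 / 10000) ^ 2 * (297 / 100)) +
          ((1443 / 10000) ^ 2) ^ 2 * (147 / 100) := by linarith
      _ ≤ _ := by norm_num
  have hT0 : na6_V ε 0 (1 / 10) ≤ 229 / 100 := by
    rw [na6_V0]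
    exact Z0
  have hV4 : na6_V ε 4 (1 / 2) ≤ 134 := by
    have h4 := na6_mono (C := 9 * Real.exp (-1)) h0 (show (0 : ℝ) < 1 / 2 by norm_num)
      (show (0 : ℝ) < 7 / 18 by norm_num) 4 3 (by
        intro w hw
        have e1 : Real.exp (-(7 / 18 * w)) * Real.exp (-(w / 9)) = Real.exp (-(1 / 2 * w)) := by
          rw [← Real.exp_add]
          congr 1
          ring
        have e2 : w ≤ 9 * Real.exp (-1) * Real.exp (w / 9) := by
          have e3 := Real.add_one_le_exp (w / 9 - 1)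
          have e4 : Real.exp (w / 9 - 1) = Real.exp (-1) * Real.exp (w / 9) := by
            rw [← Real.exp_add]
            congr 1
            ring
          rw [e4] at e3
          linarith
        have e5 : Real.exp (w / 9) * Real.exp (-(w / 9)) = 1 := by
          rw [← Real.exp_add, add_neg_cancel, Real.exp_zero]
        have e6 : w * Real.exp (-(w / 9)) ≤ 9 * Real.exp (-1) := by
          calc w * Real.exp (-(w / 9)) ≤ 9 * Real.exp (-1) * Real.exp (w / 9) *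
                Real.exp (-(w / 9)) := mul_le_mul_of_nonneg_right e2 (Real.exp_pos _).le
            _ = 9 * Real.exp (-1) * (Real.exp (w / 9) * Real.exp (-(w / 9))) := by ring
            _ = _ := by rw [e5, mul_one]
        rw [← e1]
        calc w ^ 4 * (Real.exp (-(7 / 18 * w)) * Real.exp (-(w / 9))) =
            (w * Real.exp (-(w / 9))) * (w ^ 3 * Real.exp (-(7 / 18 * w))) := by ring
          _ ≤ _ := mul_le_mul_of_nonneg_right e6 (by positivity))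
    have e7 : Real.exp (-1) < 0.3678794412 := Real.exp_neg_one_lt_d9
    have e8 : 0 ≤ na6_V ε 3 (7 / 18) := by
      unfold na6_V
      apply mul_nonneg h0.le
      refine tsum_nonneg fun n => ?_
      have := Gn_nonneg n
      have := fs_wn_nonneg ε n
      positivity
    calc na6_V ε 4 (1 / 2) ≤ 9 * Real.exp (-1) * na6_V ε 3 (7 / 18) := h4
      _ ≤ 9 * 0.3678794412 * (404 / 10) :=
          mul_le_mul (by linarith) hS3 e8 (by norm_num)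
      _ ≤ 134 := by norm_num
  have hV5 : na6_V ε 5 (1 / 2) ≤ 27000 := by
    have h4 := na6_mono (C := ((5).factorial : ℝ) / (2 / 5) ^ 5) h0
      (show (0 : ℝ) < 1 / 2 by norm_num) (show (0 : ℝ) < 1 / 10 by norm_num) 5 0 (by
        intro w hw
        have e1 := na6_pow_exp (2 / 5) (by norm_num) 5 w hw
        have e2 : Real.exp (2 / 5 * w) * Real.exp (-(1 / 2 * w)) = Real.exp (-(1 / 10 * w)) := by
          rw [← Real.exp_add]
          congr 1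
          ring
        rw [pow_zero, one_mul, ← e2, ← mul_assoc]
        exact mul_le_mul_of_nonneg_right e1 (Real.exp_pos _).le)
    have e3 : ((5).factorial : ℝ) / (2 / 5) ^ 5 = 46875 / 4 := by norm_num [Nat.factorial]
    rw [e3] at h4
    linarith
  have hV6 : na6_V ε 6 (1 / 2) ≤ 403000 := by
    have h4 := na6_mono (C := ((6).factorial : ℝ) / (2 / 5) ^ 6) h0
      (show (0 : ℝ) < 1 / 2 by norm_num) (show (0 : ℝ) < 1 / 10 by norm_num) 6 0 (by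
        intro w hw
        have e1 := na6_pow_exp (2 / 5) (by norm_num) 6 w hw
        have e2 : Real.exp (2 / 5 * w) * Real.exp (-(1 / 2 * w)) = Real.exp (-(1 / 10 * w)) := by
          rw [← Real.exp_add]
          congr 1
          ring
        rw [pow_zero, one_mul, ← e2, ← mul_assoc]
        exact mul_le_mul_of_nonneg_right e1 (Real.exp_pos _).le)
    have e3 : ((6).factorial : ℝ) / (2 / 5) ^ 6 = 703125 / 4 := by norm_num [Nat.factorial]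
    rw [e3] at h4
    linarith
  unfold na6_M
  interval_cases j
  · exact hV0
  · exact hV1
  · exact hV2
  · exact hV3
  · exact hV4
  · exact hV5
  · exact hV6

/-! ### derivatives -/

theorem na6_norm (ε : ℝ) (j : ℕ) (μ : ℂ) (n : ℕ) :
    ‖((Gn n * wn ε n ^ j : ℝ) : ℂ) * Complex.exp (-μ * ((wn ε n : ℝ) : ℂ))‖ =
      Gn n * wn ε n ^ j * Real.exp (-(μ.re * wn ε n)) := by
  have h1 := Gn_nonneg n
  have h2 := fs_wn_nonneg ε n
  rw [norm_mul, fs_norm_exp, Complex.norm_real, Real.norm_of_nonneg (by positivity),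
    Complex.neg_re, neg_mul]

theorem na6_Usum {ε : ℝ} (h0 : 0 < ε) (j : ℕ) {μ : ℂ} (hμ : 0 < μ.re) :
    Summable fun n : ℕ => ((Gn n * wn ε n ^ j : ℝ) : ℂ) *
      Complex.exp (-μ * ((wn ε n : ℝ) : ℂ)) := by
  apply Summable.of_norm
  refine (na6_Vsum h0 hμ j).congr fun n => ?_
  rw [na6_norm]

theorem na6_nU_deriv {ε : ℝ} (h0 : 0 < ε) (j : ℕ) {μ : ℂ} (hμ : 0 < μ.re) :
    HasDerivAt (nU ε j) (-nU ε (j + 1) μ) μ := by
  have hd : HasDerivAt (fun μ : ℂ => ∑' n : ℕ, ((Gn n * wn ε n ^ j : ℝ) : ℂ) *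
      Complex.exp (-μ * ((wn ε n : ℝ) : ℂ)))
      (∑' n : ℕ, -(((Gn n * wn ε n ^ (j + 1) : ℝ) : ℂ) *
        Complex.exp (-μ * ((wn ε n : ℝ) : ℂ)))) μ := by
    have hu := na6_Vsum h0 (half_pos hμ) (j + 1)
    have hc : Convex ℝ {z : ℂ | μ.re / 2 < z.re} := convex_halfSpace_re_gt _
    refine hasDerivAt_tsum_of_isPreconnected
      (g := fun n (z : ℂ) => ((Gn n * wn ε n ^ j : ℝ) : ℂ) * Complex.exp (-z * ((wn ε n : ℝ) : ℂ)))
      (g' := fun n (z : ℂ) => -(((Gn n * wn ε n ^ (j + 1) : ℝ) : ℂ) *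
        Complex.exp (-z * ((wn ε n : ℝ) : ℂ))))
      (y₀ := μ) hu (t := {z : ℂ | μ.re / 2 < z.re})
      (isOpen_lt continuous_const Complex.continuous_re) hc.isPreconnected ?_ ?_ ?_ ?_ ?_
    · intro n y _
      have h2 : HasDerivAt (fun z : ℂ => -z * ((wn ε n : ℝ) : ℂ)) (-((wn ε n : ℝ) : ℂ)) y := by
        simpa using ((hasDerivAt_id y).neg).mul_const ((wn ε n : ℝ) : ℂ)
      have h3 := (h2.cexp).const_mul ((Gn n * wn ε n ^ j : ℝ) : ℂ)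
      have e : -(((Gn n * wn ε n ^ (j + 1) : ℝ) : ℂ) * Complex.exp (-y * ((wn ε n : ℝ) : ℂ))) =
          ((Gn n * wn ε n ^ j : ℝ) : ℂ) *
            (Complex.exp (-y * ((wn ε n : ℝ) : ℂ)) * -((wn ε n : ℝ) : ℂ)) := by
        push_cast
        ring
      rw [e]
      exact h3
    · intro n y hy
      rw [norm_neg, na6_norm]
      have h1 := Gn_nonneg n
      have h2 := fs_wn_nonneg ε n
      apply mul_le_mul_of_nonneg_left _ (by positivity)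
      apply Real.exp_le_exp.2
      have h3 : μ.re / 2 < y.re := hy
      have h4 := mul_le_mul_of_nonneg_right h3.le h2
      linarith
    · show μ.re / 2 < μ.re
      linarith
    · exact na6_Usum h0 j hμ
    · show μ.re / 2 < μ.re
      linarith
  have h2 := hd.const_mul (ε : ℂ)
  have e : -nU ε (j + 1) μ = (ε : ℂ) * ∑' n : ℕ, -(((Gn n * wn ε n ^ (j + 1) : ℝ) : ℂ) *
        Complex.exp (-μ * ((wn ε n : ℝ) : ℂ))) := by
    rw [tsum_neg]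
    unfold nU
    ring
  rw [e]
  exact h2

theorem na6_nZ {μ : ℂ} (hμ : 0 < μ.re) : nZ μ ≠ 0 ∧ HasDerivAt nZ (nZ μ)⁻¹ μ := by
  have hm : μ ≠ 0 := by
    rintro rfl
    simp at hμ
  have h2m : (2 : ℂ) * μ ≠ 0 := mul_ne_zero two_ne_zero hm
  have hs : (2 : ℂ) * μ ∈ Complex.slitPlane := by
    rw [Complex.mem_slitPlane_iff]
    left
    rw [show ((2 : ℂ) * μ).re = 2 * μ.re by simp]
    linarith
  have hne : nZ μ ≠ 0 := by
    unfold nZ
    rw [Complex.cpow_ne_zero_iff_of_exponent_ne_zero]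
    · exact h2m
    · norm_num
  refine ⟨hne, ?_⟩
  have h1 : HasDerivAt (fun z : ℂ => 2 * z) 2 μ := by
    simpa using (hasDerivAt_id μ).const_mul (2 : ℂ)
  have h3 := h1.cpow_const (c := ((1 / 2 : ℝ) : ℂ)) hs
  have e : (nZ μ)⁻¹ = ((1 / 2 : ℝ) : ℂ) * (2 * μ) ^ (((1 / 2 : ℝ) : ℂ) - 1) * 2 := by
    have e1 : (((1 / 2 : ℝ) : ℂ) - 1) = -((1 / 2 : ℝ) : ℂ) := by
      push_cast
      ring
    rw [e1, Complex.cpow_neg]
    unfold nZ
    push_cast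
    ring
  rw [e]
  exact h3

theorem na6_npf (m j : ℕ) : ((npf m (j + 1) : ℤ) : ℂ) = ((npf m j : ℤ) : ℂ) *
    (2 * (j : ℂ) + 1 - m) := by
  unfold npf
  rw [Finset.prod_range_succ]
  push_cast
  ring

theorem na6_nD_deriv (ε : ℝ) (j : ℕ) {μ : ℂ} (hμ : 0 < μ.re) :
    HasDerivAt (nD ε j) (-nD ε (j + 1) μ) μ := by
  obtain ⟨hne, hz⟩ := na6_nZ hμ
  have h1 : ∀ p : ℤ, HasDerivAt (fun z : ℂ => nZ z ^ p) ((p : ℂ) * nZ μ ^ (p - 2)) μ := by
    intro p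
    have h2 := (hasDerivAt_zpow p (nZ μ) (Or.inl hne)).comp μ hz
    have e : (p : ℂ) * nZ μ ^ (p - 2) = (p : ℂ) * nZ μ ^ (p - 1) * (nZ μ)⁻¹ := by
      rw [mul_assoc, ← zpow_sub_one₀ hne]
      congr 2
      ring
    rw [e]
    exact h2
  have h3 : HasDerivAt (nD ε j) (∑ m ∈ Finset.range 11, ((nr m : ℚ) : ℂ) * (ε : ℂ) ^ m *
      ((npf m j : ℤ) : ℂ) * ((((m : ℤ) - 1 - 2 * (j : ℤ) : ℤ) : ℂ) *
        nZ μ ^ ((m : ℤ) - 1 - 2 * (j : ℤ) - 2))) μ := by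
    unfold nD
    have h4 := HasDerivAt.fun_sum (u := Finset.range 11)
      (A := fun m (z : ℂ) => ((nr m : ℚ) : ℂ) * (ε : ℂ) ^ m *
        ((npf m j : ℤ) : ℂ) * nZ z ^ ((m : ℤ) - 1 - 2 * (j : ℤ)))
      (A' := fun m => ((nr m : ℚ) : ℂ) * (ε : ℂ) ^ m *
      ((npf m j : ℤ) : ℂ) * ((((m : ℤ) - 1 - 2 * (j : ℤ) : ℤ) : ℂ) *
        nZ μ ^ ((m : ℤ) - 1 - 2 * (j : ℤ) - 2))) (x := μ)
      (fun m _ => (h1 ((m : ℤ) - 1 - 2 * (j : ℤ))).const_mul _)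
    exact h4
  have e : -nD ε (j + 1) μ = ∑ m ∈ Finset.range 11, ((nr m : ℚ) : ℂ) * (ε : ℂ) ^ m *
      ((npf m j : ℤ) : ℂ) * ((((m : ℤ) - 1 - 2 * (j : ℤ) : ℤ) : ℂ) *
        nZ μ ^ ((m : ℤ) - 1 - 2 * (j : ℤ) - 2)) := by
    unfold nD
    rw [← Finset.sum_neg_distrib]
    refine Finset.sum_congr rfl fun m _ => ?_
    rw [na6_npf]
    have e2 : (m : ℤ) - 1 - 2 * ((j + 1 : ℕ) : ℤ) = (m : ℤ) - 1 - 2 * (j : ℤ) - 2 := by
      push_cast
      ring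
    rw [e2]
    push_cast
    ring
  rw [e]
  exact h3

theorem na6_iter {ε : ℝ} (h0 : 0 < ε) (j : ℕ) : ∀ μ : ℂ, 0 < μ.re →
    iteratedDeriv j (fun z => nU ε 0 z - nD ε 0 z) μ = (-1) ^ j * (nU ε j μ - nD ε j μ) := by
  induction j with
  | zero =>
    intro μ _
    rw [iteratedDeriv_zero, pow_zero, one_mul]
  | succ j ih =>
    intro μ hμ
    rw [iteratedDeriv_succ]
    have h1 : iteratedDeriv j (fun z => nU ε 0 z - nD ε 0 z) =ᶠ[nhds μ]
        fun z => (-1) ^ j * (nU ε j z - nD ε j z) := by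
      have h2 : {z : ℂ | 0 < z.re} ∈ nhds μ :=
        (isOpen_lt continuous_const Complex.continuous_re).mem_nhds hμ
      filter_upwards [h2] with z hz
      exact ih z hz
    rw [h1.deriv_eq]
    have h3 := ((na6_nU_deriv h0 j hμ).sub (na6_nD_deriv ε j hμ)).const_mul ((-1 : ℂ) ^ j)
    have h4 := h3.deriv
    have e : (-1 : ℂ) ^ (j + 1) * (nU ε (j + 1) μ - nD ε (j + 1) μ) =
        (-1) ^ j * (-nU ε (j + 1) μ - -nD ε (j + 1) μ) := by ring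
    rw [e]
    exact h4

theorem na6_cauchy (ε : ℝ) (h0 : 0 < ε) (h1 : ε ^ 3 ≤ 3 / 1000) (j : ℕ) (μ : ℂ)
    (hr : μ.re = 7 / 4) (hi : |μ.im| ≤ 17) :
    ‖nU ε j μ - nD ε j μ‖ ≤ j.factorial * (125 / 10 ^ 10) / (3 / 4) ^ j := by
  have hμ : 0 < μ.re := by rw [hr]; norm_num
  have hball : ∀ z ∈ Metric.closedBall μ (3 / 4 : ℝ), 1 ≤ z.re ∧ z.re ≤ 5 / 2 ∧ |z.im| ≤ 18 := by
    intro z hz
    rw [Metric.mem_closedBall, dist_eq_norm] at hz
    have e1 := (Complex.abs_re_le_norm (z - μ)).trans hz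
    have e2 := (Complex.abs_im_le_norm (z - μ)).trans hz
    rw [Complex.sub_re, hr] at e1
    rw [Complex.sub_im] at e2
    have e1' := abs_le.1 e1
    have e2' := abs_le.1 e2
    have hi' := abs_le.1 hi
    refine ⟨by linarith, by linarith, ?_⟩
    rw [abs_le]
    constructor <;> linarith
  have hd : DifferentiableOn ℂ (fun z => nU ε 0 z - nD ε 0 z) (Metric.closedBall μ (3 / 4 : ℝ)) := by
    intro z hz
    have hz1 : 0 < z.re := lt_of_lt_of_le one_pos (hball z hz).1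
    exact (((na6_nU_deriv h0 0 hz1).sub (na6_nD_deriv ε 0 hz1)).differentiableAt).differentiableWithinAt
  have hcl : DiffContOnCl ℂ (fun z => nU ε 0 z - nD ε 0 z) (Metric.ball μ (3 / 4 : ℝ)) := by
    apply DifferentiableOn.diffContOnCl
    exact hd.mono Metric.closure_ball_subset_closedBall
  have h2 := Complex.norm_iteratedDeriv_le_of_forall_mem_sphere_norm_le (c := μ) (R := 3 / 4)
    (C := 125 / 10 ^ 10) j (by norm_num) hcl (by
      intro z hz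
      obtain ⟨z1, z2, z3⟩ := hball z (Metric.sphere_subset_closedBall hz)
      exact na_U0 ε h0 h1 z z1 z2 z3)
  rw [na6_iter h0 j μ hμ, norm_mul, norm_pow, norm_neg, norm_one, one_pow, one_mul] at h2
  exact h2

/-! ### assembly -/

theorem na6_comb (ε : ℝ) (h0 : 0 < ε) (j : ℕ) (s : ℝ) :
    ∑ k ∈ Finset.range 17, nm ε k * nU ε j (nlam k - Bs s) =
      (ε : ℂ) * ∑' n : ℕ, ((Gn n * wn ε n ^ j : ℝ) : ℂ) * ns ε (wn ε n) *
        Complex.exp (Bs s * ((wn ε n : ℝ) : ℂ)) := by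
  have hre : ∀ k, (nlam k - Bs s).re = 7 / 4 := by
    intro k
    unfold nlam Bs
    rw [Complex.sub_re]
    norm_num
  have hs : ∀ k ∈ Finset.range 17, Summable fun n : ℕ => nm ε k *
      (((Gn n * wn ε n ^ j : ℝ) : ℂ) * Complex.exp (-(nlam k - Bs s) * ((wn ε n : ℝ) : ℂ))) := by
    intro k _
    exact (na6_Usum h0 j (by rw [hre]; norm_num)).mul_left _
  have e1 : ∀ n : ℕ, ((Gn n * wn ε n ^ j : ℝ) : ℂ) * ns ε (wn ε n) *
        Complex.exp (Bs s * ((wn ε n : ℝ) : ℂ)) = ∑ k ∈ Finset.range 17, nm ε k *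
      (((Gn n * wn ε n ^ j : ℝ) : ℂ) * Complex.exp (-(nlam k - Bs s) * ((wn ε n : ℝ) : ℂ))) := by
    intro n
    unfold ns
    rw [Finset.mul_sum, Finset.sum_mul]
    refine Finset.sum_congr rfl fun k _ => ?_
    have e2 : Complex.exp (-(nlam k - Bs s) * ((wn ε n : ℝ) : ℂ)) =
        Complex.exp (-(nlam k) * ((wn ε n : ℝ) : ℂ)) *
          Complex.exp (Bs s * ((wn ε n : ℝ) : ℂ)) := by
      rw [← Complex.exp_add]
      congr 1
      ring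
    rw [e2]
    ring
  simp only [e1]
  rw [Summable.tsum_finsetSum hs, Finset.mul_sum]
  refine Finset.sum_congr rfl fun k _ => ?_
  rw [tsum_mul_left]
  unfold nU
  ring

/-- tolerances for `Asum` -/
noncomputable def tA : ℕ → ℝ := fun j => [21 / 10000, 21 / 10000, 65 / 10000, 335 / 10000, 26 / 100, 50, 740].getD j 0

theorem na_A (ε : ℝ) (h0 : 0 < ε) (h1 : ε ^ 3 ≤ 3 / 1000) (j : ℕ) (hj : j ≤ 6) (s : ℝ)
    (hs : |s| ≤ 12) : ‖Asum ε j (Bs s) - nA0 ε j (Bs s)‖ ≤ tA j := by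
  have hBre : (Bs s).re = 5 / 4 := rfl
  -- first part
  have p1 : ‖Asum ε j (Bs s) - ∑ k ∈ Finset.range 17, nm ε k * nU ε j (nlam k - Bs s)‖ ≤
      175 / 100000 * na6_M j := by
    rw [na6_comb ε h0 j s]
    have sA : Summable fun n : ℕ => ((Gn n * Sn ε n * wn ε n ^ j : ℝ) : ℂ) *
        Complex.exp (Bs s * ((wn ε n : ℝ) : ℂ)) := (Asum_summable ε h0 j (Bs s)).of_norm
    have hb : ∀ n : ℕ, ‖((Gn n * Sn ε n * wn ε n ^ j : ℝ) : ℂ) *
        Complex.exp (Bs s * ((wn ε n : ℝ) : ℂ)) - ((Gn n * wn ε n ^ j : ℝ) : ℂ) * ns ε (wn ε n) *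
        Complex.exp (Bs s * ((wn ε n : ℝ) : ℂ))‖ ≤
        175 / 100000 * (Gn n * wn ε n ^ j * Real.exp (-(1 / 2 * wn ε n))) := by
      intro n
      have g0 := Gn_nonneg n
      have w0 := fs_wn_nonneg ε n
      have e1 : ((Gn n * Sn ε n * wn ε n ^ j : ℝ) : ℂ) *
        Complex.exp (Bs s * ((wn ε n : ℝ) : ℂ)) - ((Gn n * wn ε n ^ j : ℝ) : ℂ) * ns ε (wn ε n) *
        Complex.exp (Bs s * ((wn ε n : ℝ) : ℂ)) = ((Gn n * wn ε n ^ j : ℝ) : ℂ) *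
          (((Sn ε n : ℝ) : ℂ) - ns ε (wn ε n)) * Complex.exp (Bs s * ((wn ε n : ℝ) : ℂ)) := by
        push_cast
        ring
      rw [e1, norm_mul, norm_mul, fs_norm_exp, hBre, Complex.norm_real,
        Real.norm_of_nonneg (by positivity)]
      have h2 := na_Sn ε h0 h1 n
      calc Gn n * wn ε n ^ j * ‖((Sn ε n : ℝ) : ℂ) - ns ε (wn ε n)‖ * Real.exp (5 / 4 * wn ε n)
          ≤ Gn n * wn ε n ^ j * (175 / 100000 * Real.exp (-(7 / 4 * wn ε n))) *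
              Real.exp (5 / 4 * wn ε n) := by
            apply mul_le_mul_of_nonneg_right _ (Real.exp_pos _).le
            exact mul_le_mul_of_nonneg_left h2 (by positivity)
        _ = 175 / 100000 * (Gn n * wn ε n ^ j * (Real.exp (-(7 / 4 * wn ε n)) *
              Real.exp (5 / 4 * wn ε n))) := by ring
        _ = _ := by
            rw [← Real.exp_add]
            congr 3
            ring
    have sV := (na6_Vsum (ρ := 1 / 2) h0 (by norm_num) j).mul_left (175 / 100000 : ℝ)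
    have sD : Summable fun n : ℕ => ((Gn n * Sn ε n * wn ε n ^ j : ℝ) : ℂ) *
        Complex.exp (Bs s * ((wn ε n : ℝ) : ℂ)) - ((Gn n * wn ε n ^ j : ℝ) : ℂ) * ns ε (wn ε n) *
        Complex.exp (Bs s * ((wn ε n : ℝ) : ℂ)) := Summable.of_norm_bounded sV hb
    have sN : Summable fun n : ℕ => ((Gn n * wn ε n ^ j : ℝ) : ℂ) * ns ε (wn ε n) *
        Complex.exp (Bs s * ((wn ε n : ℝ) : ℂ)) := by
      refine (sA.sub sD).congr fun n => ?_
      ring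
    unfold Asum
    rw [← mul_sub, ← Summable.tsum_sub sA sN, norm_mul, Complex.norm_real,
      Real.norm_of_nonneg h0.le]
    have h5 : ‖∑' n : ℕ, (((Gn n * Sn ε n * wn ε n ^ j : ℝ) : ℂ) *
        Complex.exp (Bs s * ((wn ε n : ℝ) : ℂ)) - ((Gn n * wn ε n ^ j : ℝ) : ℂ) * ns ε (wn ε n) *
        Complex.exp (Bs s * ((wn ε n : ℝ) : ℂ)))‖ ≤
        ∑' n : ℕ, 175 / 100000 * (Gn n * wn ε n ^ j * Real.exp (-(1 / 2 * wn ε n))) :=
      tsum_of_norm_bounded sV.hasSum hb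
    refine (mul_le_mul_of_nonneg_left h5 h0.le).trans ?_
    rw [tsum_mul_left]
    have h6 := na6_Vb ε h0 h1 j hj
    unfold na6_V at h6
    have h7 := mul_le_mul_of_nonneg_left h6 (show (0 : ℝ) ≤ 175 / 100000 by norm_num)
    linarith
  -- second part
  have p2 : ‖∑ k ∈ Finset.range 17, nm ε k * nU ε j (nlam k - Bs s) - nA0 ε j (Bs s)‖ ≤
      18200 * (j.factorial * (125 / 10 ^ 10) / (3 / 4) ^ j) := by
    unfold nA0
    rw [← Finset.sum_sub_distrib]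
    refine (norm_sum_le _ _).trans ?_
    have hk : ∀ k ∈ Finset.range 17, ‖nm ε k * nU ε j (nlam k - Bs s) -
        nm ε k * nD ε j (nlam k - Bs s)‖ ≤
        ‖nm ε k‖ * (j.factorial * (125 / 10 ^ 10) / (3 / 4) ^ j) := by
      intro k hk
      rw [← mul_sub, norm_mul]
      apply mul_le_mul_of_nonneg_left _ (norm_nonneg _)
      apply na6_cauchy ε h0 h1 j
      · unfold nlam Bs
        rw [Complex.sub_re]
        norm_num
      · unfold nlam Bs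
        rw [Complex.sub_im]
        simp only
        have hk2 : (k : ℝ) ≤ 16 := by
          have := Finset.mem_range.1 hk
          exact_mod_cast (by omega : k ≤ 16)
        have hk0 : (0 : ℝ) ≤ k := Nat.cast_nonneg k
        have hs' := abs_le.1 hs
        rw [abs_le]
        constructor <;> linarith
    refine (Finset.sum_le_sum hk).trans ?_
    rw [← Finset.sum_mul]
    exact mul_le_mul_of_nonneg_right (na_sum_nm ε h0 h1) (by positivity)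
  have h3 : ‖Asum ε j (Bs s) - nA0 ε j (Bs s)‖ ≤ 175 / 100000 * na6_M j +
      18200 * (j.factorial * (125 / 10 ^ 10) / (3 / 4) ^ j) := by
    calc ‖Asum ε j (Bs s) - nA0 ε j (Bs s)‖ =
        ‖(Asum ε j (Bs s) - ∑ k ∈ Finset.range 17, nm ε k * nU ε j (nlam k - Bs s)) +
          (∑ k ∈ Finset.range 17, nm ε k * nU ε j (nlam k - Bs s) - nA0 ε j (Bs s))‖ := by
          congr 1; ring
      _ ≤ _ := (norm_add_le _ _).trans (add_le_add p1 p2)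
  refine h3.trans ?_
  unfold na6_M tA
  interval_cases j <;> norm_num [Nat.factorial]

end MP_d1b55a
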