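import Pool.Agent.Lib.MP_d1b55a_co.KFun

/-!
MP_d1b55a_co, near arc, kernel engine, part 1: Taylor models in one real variable with sharp bounds of
the modulus; dot products.
-/

open Finset Polynomial

namespace MP_d1b55a.K

/-- a model: packed polynomial, bound of the norm, bound plus error -/
structure V3 where
  W : ℕ
  M : ℕ
  S : ℕ

/-- upper bound of the modulus -/
def cmod (a b : ℕ) : ℕ :=
  frc (Nat.add (Nat.div (Nat.add (Nat.mul 7 (Nat.add a b)) (Nat.mul 3 (ad a b))) 10) 1) fun g =>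
  Nat.add (Nat.div (Nat.add g (Nat.div (Nat.add (Nat.mul a a) (Nat.mul b b)) g)) 2) 1

theorem cmod_spec (a b : ℕ) : (a : ℝ) ^ 2 + (b : ℝ) ^ 2 ≤ (cmod a b : ℝ) ^ 2 := by
  unfold cmod
  rw [frc_eq]
  set g := Nat.add (Nat.div (Nat.add (Nat.mul 7 (Nat.add a b)) (Nat.mul 3 (ad a b))) 10) 1 with hg
  have hg1 : 0 < g := Nat.succ_pos _
  have h1 : Nat.add (Nat.div (Nat.add g (Nat.div (Nat.add (Nat.mul a a) (Nat.mul b b)) g)) 2) 1 =
    (g + (a * a + b * b) / g) / 2 + 1 := rfl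
  rw [h1]
  set q := (a * a + b * b) / g with hq
  have h2 : a * a + b * b < g * (q + 1) := by
    have h0 := Nat.div_add_mod (a * a + b * b) g
    have h3 := Nat.mod_lt (a * a + b * b) hg1
    rw [← hq] at h0
    rw [mul_add, mul_one]
    omega
  have h4 : g + q + 1 ≤ 2 * ((g + q) / 2 + 1) := by omega
  have h5 : ((g : ℝ) + q + 1) ≤ 2 * (((g + q) / 2 + 1 : ℕ) : ℝ) := by exact_mod_cast h4
  have h6 : (a : ℝ) * a + b * b ≤ g * (q + 1) := by exact_mod_cast h2.le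
  have h7 : (0 : ℝ) ≤ g := by positivity
  have h8 : (0 : ℝ) ≤ q := by positivity
  have h9 : ((g : ℝ) + q + 1) ^ 2 ≤ (2 * (((g + q) / 2 + 1 : ℕ) : ℝ)) ^ 2 :=
    pow_le_pow_left₀ (by positivity) h5 2
  nlinarith [sq_nonneg ((g : ℝ) - (q + 1))]

theorem cmod_add (a b : ℕ) : a + b ≤ 2 * cmod a b := by
  have h := cmod_spec a b
  have h1 : ((a : ℝ) + b) ^ 2 ≤ (2 * (cmod a b : ℝ)) ^ 2 := by
    nlinarith [sq_nonneg ((a : ℝ) - b), sq_nonneg ((cmod a b : ℝ))]
  have h2 : ((a : ℝ) + b) ≤ 2 * (cmod a b : ℝ) :=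
    le_of_sq_le_sq h1 (by positivity)
  exact_mod_cast h2

theorem cmod_norm (x y : ℤ) (a b : ℕ) (ha : (a : ℤ) = |x|) (hb : (b : ℤ) = |y|) :
    ‖((x : ℝ) : ℂ) + ((y : ℝ) : ℂ) * Complex.I‖ ≤ cmod a b := by
  have h := cmod_spec a b
  have ha' : (a : ℝ) ^ 2 = (x : ℝ) ^ 2 := by
    have : (a : ℝ) = |(x : ℝ)| := by exact_mod_cast ha
    rw [this, sq_abs]
  have hb' : (b : ℝ) ^ 2 = (y : ℝ) ^ 2 := by
    have : (b : ℝ) = |(y : ℝ)| := by exact_mod_cast hb
    rw [this, sq_abs]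
  rw [ha', hb'] at h
  have h2 : ‖((x : ℝ) : ℂ) + ((y : ℝ) : ℂ) * Complex.I‖ = Real.sqrt ((x : ℝ) ^ 2 + (y : ℝ) ^ 2) := by
    rw [Complex.norm_add_mul_I]
  rw [h2]
  exact Real.sqrt_le_iff.mpr ⟨by positivity, h⟩

/-- loop over the kept digits of both blocks -/
def kpM (B D HD : ℕ) (f : ℕ) : ℕ → ℕ → ℕ → ℕ → ℕ → ℕ → (ℕ → ℕ → ℕ → ℕ → ℕ → Bool) → Bool :=
  Nat.rec (motive := fun _ => ℕ → ℕ → ℕ → ℕ → ℕ → ℕ → (ℕ → ℕ → ℕ → ℕ → ℕ → Bool) → Bool)
    (fun W1 W2 _ o1 o2 ms k => k W1 W2 o1 o2 ms)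
    (fun _ ih W1 W2 pw o1 o2 ms k =>
      frc (Nat.div (Nat.mod W1 B) D) fun d1 => frc (Nat.div W1 B) fun W1' =>
      frc (Nat.div (Nat.mod W2 B) D) fun d2 => frc (Nat.div W2 B) fun W2' =>
      ih W1' W2' (Nat.mul pw B) (Nat.add o1 (Nat.mul pw d1)) (Nat.add o2 (Nat.mul pw d2))
        (Nat.add ms (cmod (ad d1 HD) (ad d2 HD))) k) f

theorem kpM_eq (B D HD : ℕ) (f : ℕ) : ∀ (W1 W2 pw o1 o2 ms : ℕ) (k : ℕ → ℕ → ℕ → ℕ → ℕ → Bool),
    kpM B D HD f W1 W2 pw o1 o2 ms k =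
      k (W1 / B ^ f) (W2 / B ^ f) (o1 + pw * ∑ i ∈ range f, (dg B i W1 / D) * B ^ i)
        (o2 + pw * ∑ i ∈ range f, (dg B i W2 / D) * B ^ i)
        (ms + ∑ i ∈ range f, cmod (ad (dg B i W1 / D) HD) (ad (dg B i W2 / D) HD)) := by
  induction f with
  | zero => intro W1 W2 pw o1 o2 ms k; simp [kpM]
  | succ f ih =>
    intro W1 W2 pw o1 o2 ms k
    have h1 : kpM B D HD (f + 1) W1 W2 pw o1 o2 ms k =
        frc (W1 % B / D) fun d1 => frc (W1 / B) fun W1' =>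
        frc (W2 % B / D) fun d2 => frc (W2 / B) fun W2' =>
          kpM B D HD f W1' W2' (pw * B) (o1 + pw * d1) (o2 + pw * d2)
            (ms + cmod (ad d1 HD) (ad d2 HD)) k := rfl
    rw [h1, frc_eq, frc_eq, frc_eq, frc_eq, ih]
    have key : ∀ W o : ℕ, o + pw * (W % B / D) + pw * B * ∑ i ∈ range f, dg B i (W / B) / D * B ^ i =
        o + pw * ∑ i ∈ range (f + 1), (dg B i W / D) * B ^ i := by
      intro W o
      rw [sum_range_succ' (fun i => (dg B i W / D) * B ^ i), dg_zero, pow_zero, mul_one, mul_add]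
      have h2 : ∑ i ∈ range f, dg B (i + 1) W / D * B ^ (i + 1) =
          B * ∑ i ∈ range f, dg B i (W / B) / D * B ^ i := by
        rw [mul_sum]
        apply sum_congr rfl
        intro i _
        rw [dg_succ]; ring
      rw [h2]; ring
    rw [key, key]
    congr 1
    · rw [pow_succ', Nat.div_div_eq_div_mul]
    · rw [pow_succ', Nat.div_div_eq_div_mul]
    · rw [sum_range_succ' (fun i => cmod (ad (dg B i W1 / D) HD) (ad (dg B i W2 / D) HD)), dg_zero,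
        dg_zero]
      have h2 : ∑ i ∈ range f, cmod (ad (dg B (i + 1) W1 / D) HD) (ad (dg B (i + 1) W2 / D) HD) =
          ∑ i ∈ range f, cmod (ad (dg B i (W1 / B) / D) HD) (ad (dg B i (W2 / B) / D) HD) := by
        apply sum_congr rfl
        intro i _
        rw [dg_succ, dg_succ]
      rw [h2]; ring

/-- rounding of a complex packed polynomial, with a sharp bound of the modulus -/
def nrmT (c : Cfg) (S D : ℕ) (k : ℕ → ℕ → ℕ → Bool) : Bool :=
  frc (Nat.mod (Nat.add S c.OFC) c.N) fun W =>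
  frc (Nat.div c.H D) fun HD =>
  kpM c.B D HD (Nat.succ c.p) (Nat.mod W c.BL) (Nat.div W c.BL) 1 0 0 0 fun W1 W2 o1 o2 m =>
  frc m fun ms =>
  frc (Nat.div (Nat.add (dsR c.B c.H c.p W1) (dsR c.B c.H c.p W2)) D) fun ds =>
  frc (Nat.mod (Nat.add (Nat.add o1 (Nat.mul c.BL o2))
    (Nat.sub c.N (Nat.mul HD (Nat.add c.ON (Nat.mul c.BL c.ON))))) c.N) fun W3 =>
  chk (Nat.ble (Nat.mul 2 ms) c.Mx) (k W3 ms (Nat.add ds (Nat.add (Nat.mul 2 c.p) 3)))

theorem cv_sum (t : ℝ) (f g : ℤ[X]) (n : ℕ) (hf : f.natDegree < n) (hg : g.natDegree < n) :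
    cv t f g = ∑ i ∈ range n, (((f.coeff i : ℝ) : ℂ) + ((g.coeff i : ℝ) : ℂ) * Complex.I) *
      (t : ℂ) ^ i := by
  unfold cv
  rw [aev_eq f n hf t, aev_eq g n hg t]
  push_cast
  rw [sum_mul, ← sum_add_distrib]
  apply sum_congr rfl
  intro i _
  ring

theorem nrmT_spec (c : Cfg) (hc : c.Ok) (f g : ℤ[X]) (hf : f.natDegree ≤ 2 * c.p)
    (hg : g.natDegree ≤ 2 * c.p)
    (hb : ∀ i, |f.coeff i| < c.H) (hb' : ∀ i, |g.coeff i| < c.H)
    (S : ℕ) (hS : (S : ℤ) ≡ f.eval (c.B : ℤ) + c.BL * g.eval (c.B : ℤ) [ZMOD c.N])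
    (D : ℕ) (hD : 0 < D) (k : ℕ → ℕ → ℕ → Bool) (h : nrmT c S D k = true) :
    ∃ W ms er, k W ms er = true ∧ ∃ f' g' : ℤ[X],
      (W : ℤ) ≡ f'.eval (c.B : ℤ) + c.BL * g'.eval (c.B : ℤ) [ZMOD c.N] ∧
      f'.natDegree ≤ c.p ∧ g'.natDegree ≤ c.p ∧ nm f' + nm g' ≤ c.Mx ∧
      ∀ t : ℝ, |t| ≤ 1 → ‖cv t f' g'‖ ≤ ms ∧ ‖cv t f g / D - cv t f' g'‖ ≤ er := by
  unfold nrmT at h
  simp only [frc_eq, kpM_eq, dsR_eq] at h
  rw [chk_true] at h
  obtain ⟨h1, h2⟩ := h
  obtain ⟨hW1, hW2⟩ := recC c hc f g hf hg hb hb' S hS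
  have hW1' : Nat.mod (Nat.mod (Nat.add S c.OFC) c.N) c.BL =
    ∑ i ∈ range (2 * c.p + 1), wd c f i * c.B ^ i := hW1
  have hW2' : Nat.div (Nat.mod (Nat.add S c.OFC) c.N) c.BL =
    ∑ i ∈ range (2 * c.p + 1), wd c g i * c.B ^ i := hW2
  rw [hW1', hW2'] at h1 h2
  have key : ∀ q : ℤ[X], (∀ i, |q.coeff i| < c.H) →
      ∑ i ∈ range (Nat.succ c.p), dg c.B i (∑ i ∈ range (2 * c.p + 1), wd c q i * c.B ^ i) / D *
        c.B ^ i = ∑ i ∈ range (c.p + 1), wd c q i / D * c.B ^ i := by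
    intro q hq
    apply sum_congr rfl
    intro i hi
    rw [mem_range] at hi
    rw [dg_block c hc q hq i (by omega)]
  have key2 : ∑ i ∈ range (Nat.succ c.p),
      cmod (ad (dg c.B i (∑ i ∈ range (2 * c.p + 1), wd c f i * c.B ^ i) / D) (Nat.div c.H D))
        (ad (dg c.B i (∑ i ∈ range (2 * c.p + 1), wd c g i * c.B ^ i) / D) (Nat.div c.H D)) =
      ∑ i ∈ range (c.p + 1), cmod (ad (wd c f i / D) (c.H / D)) (ad (wd c g i / D) (c.H / D)) := by
    apply sum_congr rfl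
    intro i hi
    rw [mem_range] at hi
    rw [dg_block c hc f hb i (by omega), dg_block c hc g hb' i (by omega)]
    rfl
  have key3 : ∀ q : ℤ[X], (∀ i, |q.coeff i| < c.H) →
      ∑ i ∈ range c.p, ad (dg c.B i ((∑ i ∈ range (2 * c.p + 1), wd c q i * c.B ^ i) /
        c.B ^ (Nat.succ c.p))) c.H = ∑ i ∈ range c.p, ad (wd c q (c.p + 1 + i)) c.H := by
    intro q hq
    apply sum_congr rfl
    intro i hi
    rw [mem_range] at hi
    rw [dg_div, dg_block c hc q hq _ (by omega)]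
  rw [key f hb, key g hb', key2, key3 f hb, key3 g hb'] at h2
  rw [key2] at h1
  set ms := ∑ i ∈ range (c.p + 1), cmod (ad (wd c f i / D) (c.H / D)) (ad (wd c g i / D) (c.H / D))
    with hms
  have hcf : ∀ i ∈ range (c.p + 1), ((ad (wd c f i / D) (c.H / D) : ℕ) : ℤ) =
      |(rd c f D).coeff i| := by
    intro i hi
    rw [mem_range] at hi
    rw [rd_coeff, if_pos hi, ad_cast]
  have hcg : ∀ i ∈ range (c.p + 1), ((ad (wd c g i / D) (c.H / D) : ℕ) : ℤ) =
      |(rd c g D).coeff i| := by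
    intro i hi
    rw [mem_range] at hi
    rw [rd_coeff, if_pos hi, ad_cast]
  refine ⟨_, _, _, h2, rd c f D, rd c g D, ?_, rd_natDegree c f D,
    rd_natDegree c g D, ?_, ?_⟩
  · have h3 := rd_eval c hc f D c.B rfl
    have h3' := rd_eval c hc g D c.B rfl
    set F := ∑ i ∈ range (c.p + 1), wd c f i / D * c.B ^ i with hF
    set G := ∑ i ∈ range (c.p + 1), wd c g i / D * c.B ^ i with hG
    have h4 : c.H / D * (c.ON + c.BL * c.ON) ≤ c.N := by
      have h5 := hc.ON_le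
      have h6 : c.H / D * c.ON ≤ c.H * c.ON := Nat.mul_le_mul_right _ (Nat.div_le_self _ _)
      have h7 := hc.hN
      have h8 : c.H / D * (c.ON + c.BL * c.ON) = c.H / D * c.ON * (1 + c.BL) := by ring
      rw [h8, h7]
      have h9 : c.H / D * c.ON + 1 ≤ c.BL := by omega
      have h10 : (c.H / D * c.ON + 1) * (1 + c.BL) ≤ c.BL * (1 + c.BL) :=
        Nat.mul_le_mul_right _ h9
      have h11 : (c.H / D * c.ON + 1) * (1 + c.BL) = c.H / D * c.ON * (1 + c.BL) + (1 + c.BL) := by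
        ring
      have h12 : c.BL * (1 + c.BL) = c.BL * c.BL + c.BL := by ring
      omega
    rw [h3, h3']
    have e2 : Nat.mod (Nat.add (Nat.add (0 + 1 * F) (Nat.mul c.BL (0 + 1 * G)))
        (Nat.sub c.N (Nat.mul (Nat.div c.H D) (Nat.add c.ON (Nat.mul c.BL c.ON))))) c.N =
        ((F + c.BL * G) + (c.N - c.H / D * (c.ON + c.BL * c.ON))) % c.N := by
      rw [zero_add, one_mul, zero_add, one_mul]; rfl
    rw [e2]
    have h7 : ((((F + c.BL * G) + (c.N - c.H / D * (c.ON + c.BL * c.ON))) % c.N : ℕ) : ℤ)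
        ≡ ((((F + c.BL * G) + (c.N - c.H / D * (c.ON + c.BL * c.ON))) : ℕ) : ℤ)
        [ZMOD c.N] := by
      rw [Int.natCast_modEq_iff]; exact Nat.mod_modEq _ _
    refine h7.trans ?_
    rw [Nat.cast_add, Nat.cast_sub h4, Int.modEq_iff_dvd]
    exact ⟨-1, by push_cast; ring⟩
  · have h5 : (0 + ms) * 2 ≤ c.Mx := by
      have := Nat.ble_eq.mp h1
      have h6 : Nat.mul 2 (0 + ms) = (0 + ms) * 2 := by
        show 2 * (0 + ms) = _
        ring
      rwa [h6] at this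
    rw [nm_eq (rd c f D) (c.p + 1) (by have := rd_natDegree c f D; omega),
      nm_eq (rd c g D) (c.p + 1) (by have := rd_natDegree c g D; omega), ← sum_add_distrib]
    have h7 : ∑ i ∈ range (c.p + 1), (|(rd c f D).coeff i| + |(rd c g D).coeff i|) ≤
        ((2 * ms : ℕ) : ℤ) := by
      rw [hms, mul_sum]
      push_cast
      apply sum_le_sum
      intro i hi
      rw [← hcf i hi, ← hcg i hi]
      exact_mod_cast cmod_add _ _
    have h8 : ((2 * ms : ℕ) : ℤ) ≤ c.Mx := by exact_mod_cast (by omega : 2 * ms ≤ c.Mx)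
    linarith
  · intro t ht
    constructor
    · rw [cv_sum t (rd c f D) (rd c g D) (c.p + 1) (by have := rd_natDegree c f D; omega)
        (by have := rd_natDegree c g D; omega)]
      refine (norm_sum_le _ _).trans ?_
      rw [zero_add, hms, Nat.cast_sum]
      apply sum_le_sum
      intro i hi
      rw [norm_mul, norm_pow, Complex.norm_real, Real.norm_eq_abs]
      have h3 := cmod_norm ((rd c f D).coeff i) ((rd c g D).coeff i) _ _ (hcf i hi) (hcg i hi)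
      calc _ ≤ (cmod (ad (wd c f i / D) (c.H / D)) (ad (wd c g i / D) (c.H / D)) : ℝ) * 1 :=
            mul_le_mul h3 (pow_le_one₀ (abs_nonneg t) ht) (by positivity) (by positivity)
        _ = _ := mul_one _
    · have h3 := rd_err c f hf hb D hD t ht
      have h3' := rd_err c g hg hb' D hD t ht
      have h0 : cv t f g / D - cv t (rd c f D) (rd c g D) =
          ((aeval t f / D - aeval t (rd c f D) : ℝ) : ℂ) +
          ((aeval t g / D - aeval t (rd c g D) : ℝ) : ℂ) * Complex.I := by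
        unfold cv; push_cast; ring
      rw [h0]
      refine (norm_add_le _ _).trans ?_
      rw [norm_mul, Complex.norm_I, mul_one, Complex.norm_real, Complex.norm_real,
        Real.norm_eq_abs, Real.norm_eq_abs]
      refine (add_le_add h3 h3').trans ?_
      set F := ∑ i ∈ range c.p, ad (wd c f (c.p + 1 + i)) c.H with hF
      set G := ∑ i ∈ range c.p, ad (wd c g (c.p + 1 + i)) c.H with hG
      have h4 := div_floor (F + G) D hD
      have e2 : ((Nat.add (Nat.div (Nat.add F G) D) (Nat.add (Nat.mul 2 c.p) 3) : ℕ) : ℝ) =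
          (((F + G) / D : ℕ) : ℝ) + (2 * c.p + 3) := by
        have : Nat.add (Nat.div (Nat.add F G) D) (Nat.add (Nat.mul 2 c.p) 3) =
          (F + G) / D + (2 * c.p + 3) := rfl
        rw [this]; push_cast; ring
      rw [e2]
      push_cast at h4 ⊢
      rw [add_div] at h4
      linarith

end MP_d1b55a.K
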