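import Pool.Agent.Lib.MP_d1b55a_co.NE1

/-!
MP_d1b55a_co, near arc, kernel engine, part 2: models of functions on `[-1,1]`, dot products.
-/

open Finset Polynomial

namespace MP_d1b55a.K

/-- the model `x` describes the function `v` on `[-1,1]` -/
def Md (c : Cfg) (x : V3) (v : ℝ → ℂ) : Prop :=
  ∃ f g : ℤ[X], (x.W : ℤ) ≡ f.eval (c.B : ℤ) + c.BL * g.eval (c.B : ℤ) [ZMOD c.N] ∧
    f.natDegree ≤ c.p ∧ g.natDegree ≤ c.p ∧ nm f + nm g ≤ c.Mx ∧ ∃ e : ℕ, x.S = x.M + e ∧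
    ∀ t : ℝ, |t| ≤ 1 → ‖(c.one : ℂ) * v t - cv t f g‖ ≤ e ∧ (c.one : ℝ) * ‖v t‖ ≤ x.M

/-- exact sums of products: degree `≤ 2p`, norms at most `K * Mx²` -/
def Sm (c : Cfg) (S M Z K : ℕ) (V : ℝ → ℂ) : Prop :=
  ∃ f g : ℤ[X], (S : ℤ) ≡ f.eval (c.B : ℤ) + c.BL * g.eval (c.B : ℤ) [ZMOD c.N] ∧
    f.natDegree ≤ 2 * c.p ∧ g.natDegree ≤ 2 * c.p ∧ nm f + nm g ≤ K * (c.Mx * c.Mx) ∧
    M ≤ Z ∧ ∀ t : ℝ, |t| ≤ 1 → ‖V t - cv t f g‖ ≤ (Z : ℝ) - M ∧ ‖V t‖ ≤ M

variable {c : Cfg} (hc : c.Ok)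

theorem Md.congr {x : V3} {v w : ℝ → ℂ} (h : Md c x v) (hw : ∀ t, |t| ≤ 1 → w t = v t) :
    Md c x w := by
  obtain ⟨f, g, h1, h2, h3, h4, e, h5, h6⟩ := h
  exact ⟨f, g, h1, h2, h3, h4, e, h5, fun t ht => by rw [hw t ht]; exact h6 t ht⟩

/-- forget the error -/
def exa (x : V3) : V3 := ⟨x.W, x.S, x.S⟩

include hc in
theorem Md.exact {x : V3} {v : ℝ → ℂ} (h : Md c x v) :
    ∃ f g : ℤ[X], (x.W : ℤ) ≡ f.eval (c.B : ℤ) + c.BL * g.eval (c.B : ℤ) [ZMOD c.N] ∧
      f.natDegree ≤ c.p ∧ g.natDegree ≤ c.p ∧ nm f + nm g ≤ c.Mx ∧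
      Md c (exa x) (fun t => cv t f g / c.one) := by
  obtain ⟨f, g, h1, h2, h3, h4, e, h5, h6⟩ := h
  have hone : (c.one : ℂ) ≠ 0 := by exact_mod_cast hc.hone.ne'
  refine ⟨f, g, h1, h2, h3, h4, f, g, h1, h2, h3, h4, 0, rfl, fun t ht => ⟨?_, ?_⟩⟩
  · rw [mul_div_cancel₀ _ hone]; simp
  · have h7 := h6 t ht
    rw [norm_div, Complex.norm_natCast, mul_div_cancel₀ _ (by exact_mod_cast hc.hone.ne')]
    have h8 : cv t f g = (c.one : ℂ) * v t - ((c.one : ℂ) * v t - cv t f g) := by ring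
    rw [h8]
    refine (norm_sub_le _ _).trans ?_
    rw [norm_mul, Complex.norm_natCast]
    have : (exa x).M = x.M + e := h5
    rw [this]
    push_cast
    linarith [h7.1, h7.2]

theorem Sm.add {S M Z K S' M' Z' K'} {V V' : ℝ → ℂ} (h : Sm c S M Z K V)
    (h' : Sm c S' M' Z' K' V') : Sm c (S + S') (M + M') (Z + Z') (K + K') (fun t => V t + V' t) := by
  obtain ⟨f, g, h1, h2, h3, h4, h5, h6⟩ := h
  obtain ⟨f', g', h1', h2', h3', h4', h5', h6'⟩ := h'
  refine ⟨f + f', g + g', ?_, ?_, ?_, ?_, by omega, fun t ht => ⟨?_, ?_⟩⟩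
  · push_cast
    rw [eval_add, eval_add]
    have := h1.add h1'
    have e : f.eval (c.B : ℤ) + c.BL * g.eval (c.B : ℤ) + (f'.eval (c.B : ℤ) +
        c.BL * g'.eval (c.B : ℤ)) = f.eval (c.B : ℤ) + f'.eval (c.B : ℤ) +
        c.BL * (g.eval (c.B : ℤ) + g'.eval (c.B : ℤ)) := by ring
    rwa [e] at this
  · exact (natDegree_add_le _ _).trans (by omega)
  · exact (natDegree_add_le _ _).trans (by omega)
  · have := nm_add f f'
    have := nm_add g g'
    push_cast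
    linarith
  · rw [cv_add]
    have : V t + V' t - (cv t f g + cv t f' g') = (V t - cv t f g) + (V' t - cv t f' g') := by ring
    rw [this]
    refine (norm_add_le _ _).trans ?_
    push_cast
    linarith [(h6 t ht).1, (h6' t ht).1]
  · refine (norm_add_le _ _).trans ?_
    push_cast
    linarith [(h6 t ht).2, (h6' t ht).2]

theorem Sm.zero : Sm c 0 0 0 0 (fun _ => 0) :=
  ⟨0, 0, by simp, by simp, by simp, by simp [nm_zero], le_rfl, fun t _ => by simp [cv]⟩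

theorem Sm.congr {S M Z K} {V V' : ℝ → ℂ} (h : Sm c S M Z K V) (hw : ∀ t, |t| ≤ 1 → V' t = V t) :
    Sm c S M Z K V' := by
  obtain ⟨f, g, h1, h2, h3, h4, h5, h6⟩ := h
  exact ⟨f, g, h1, h2, h3, h4, h5, fun t ht => by rw [hw t ht]; exact h6 t ht⟩

include hc in
theorem Md.mul {x y : V3} {v w : ℝ → ℂ} (h : Md c x v) (h' : Md c y w) :
    Sm c (x.W * y.W) (x.M * y.M) (x.S * y.S) 1 (fun t => (c.one * v t) * (c.one * w t)) := by
  obtain ⟨f, g, a1, a2, a3, a4, e, a5, a6⟩ := h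
  obtain ⟨f', g', b1, b2, b3, b4, e', b5, b6⟩ := h'
  refine ⟨f * f' - g * g', f * g' + g * f', ?_, ?_, ?_, ?_, ?_, fun t ht => ⟨?_, ?_⟩⟩
  · push_cast
    have h := a1.mul b1
    refine h.trans ?_
    simp only [eval_add, eval_sub, eval_mul]
    have hB := (BL_sq hc).mul_right (g.eval (c.B : ℤ) * g'.eval (c.B : ℤ))
    rw [Int.modEq_iff_dvd] at hB ⊢
    obtain ⟨q, hq⟩ := hB
    refine ⟨q, ?_⟩
    rw [← hq]; ring
  · refine (natDegree_sub_le _ _).trans (max_le ?_ ?_)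
    · exact natDegree_mul_le.trans (by omega)
    · exact natDegree_mul_le.trans (by omega)
  · refine (natDegree_add_le _ _).trans (max_le ?_ ?_)
    · exact natDegree_mul_le.trans (by omega)
    · exact natDegree_mul_le.trans (by omega)
  · have e1 := nm_sub (f * f') (g * g')
    have e2 := nm_add (f * g') (g * f')
    have e3 := nm_mul f f'
    have e4 := nm_mul g g'
    have e5 := nm_mul f g'
    have e6 := nm_mul g f'
    have e7 : (nm f + nm g) * (nm f' + nm g') ≤ (c.Mx : ℤ) * c.Mx :=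
      mul_le_mul a4 b4 (by have := nm_nonneg f'; have := nm_nonneg g'; linarith)
        (by positivity)
    push_cast
    nlinarith
  · exact Nat.mul_le_mul (by omega) (by omega)
  · rw [cv_mul]
    have n1 := (a6 t ht).2
    have n2 := (b6 t ht).2
    have a5' := (a6 t ht).1
    have b5' := (b6 t ht).1
    have n1' : ‖(c.one : ℂ) * v t‖ ≤ x.M := by rw [norm_mul, Complex.norm_natCast]; exact n1
    have n2' : ‖(c.one : ℂ) * w t‖ ≤ y.M := by rw [norm_mul, Complex.norm_natCast]; exact n2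
    have n3 : ‖cv t f' g'‖ ≤ y.M + e' := by
      have : cv t f' g' = (c.one : ℂ) * w t - ((c.one : ℂ) * w t - cv t f' g') := by ring
      rw [this]
      exact (norm_sub_le _ _).trans (by linarith)
    have e0 : (c.one : ℂ) * v t * (c.one * w t) - cv t f g * cv t f' g' =
      (c.one : ℂ) * v t * ((c.one : ℂ) * w t - cv t f' g') +
        ((c.one : ℂ) * v t - cv t f g) * cv t f' g' := by ring
    rw [e0]
    refine (norm_add_le _ _).trans ?_
    rw [norm_mul ((c.one : ℂ) * v t) _, norm_mul ((c.one : ℂ) * v t - cv t f g) _]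
    have p1 : ‖(c.one : ℂ) * v t‖ * ‖(c.one : ℂ) * w t - cv t f' g'‖ ≤ x.M * e' :=
      mul_le_mul n1' b5' (norm_nonneg _) ((norm_nonneg _).trans n1')
    have p2 : ‖(c.one : ℂ) * v t - cv t f g‖ * ‖cv t f' g'‖ ≤ e * (y.M + e') :=
      mul_le_mul a5' n3 (norm_nonneg _) ((norm_nonneg _).trans a5')
    rw [a5, b5]
    push_cast
    nlinarith
  · rw [norm_mul, norm_mul, norm_mul, Complex.norm_natCast]
    push_cast
    exact mul_le_mul (a6 t ht).2 (b6 t ht).2 (by positivity) (by positivity)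

/-! ### finishing a sum -/

/-- rounding of a sum of products -/
def fin3 (c : Cfg) (D S M Z : ℕ) (k : V3 → Bool) : Bool :=
  nrmT c S D fun W ks er =>
  frc (Nat.add (Nat.add (Nat.div (Nat.sub Z M) D) 1) er) fun e =>
  frc (Nat.add ks e) fun M' => frc (Nat.add M' e) fun S' => k ⟨W, M', S'⟩

include hc in
theorem fin3_spec (hM : 31 * (c.Mx * c.Mx) < c.H) {D S M Z K : ℕ} {V : ℝ → ℂ} (hD : 0 < D)
    (h : Sm c S M Z K V) (hK : K ≤ 31) (k : V3 → Bool) (hk : fin3 c D S M Z k = true) :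
    ∃ x, k x = true ∧ Md c x (fun t => V t / (c.one * D)) := by
  obtain ⟨f, g, h1, h2, h3, h4, h5, h6⟩ := h
  have hK' : ((K : ℤ) * (c.Mx * c.Mx)) < c.H := by
    have : K * (c.Mx * c.Mx) < c.H := lt_of_le_of_lt (Nat.mul_le_mul_right _ hK) hM
    exact_mod_cast this
  have hnf := nm_nonneg f
  have hng := nm_nonneg g
  unfold fin3 at hk
  obtain ⟨W, ks, er, k1, f', g', k2, k3, k4, k5, k6⟩ := nrmT_spec c hc f g h2 h3
    (fun i => lt_of_le_of_lt (coeff_le_nm f i) (by linarith))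
    (fun i => lt_of_le_of_lt (coeff_le_nm g i) (by linarith)) S h1 D hD _ hk
  simp only [frc_eq] at k1
  refine ⟨_, k1, f', g', k2, k3, k4, k5, (Z - M) / D + 1 + er, rfl, fun t ht => ?_⟩
  have hD' : (0 : ℝ) < D := by exact_mod_cast hD
  have hDc : (D : ℂ) ≠ 0 := by exact_mod_cast hD.ne'
  have hone : (c.one : ℂ) ≠ 0 := by exact_mod_cast hc.hone.ne'
  obtain ⟨m1, m2⟩ := k6 t ht
  obtain ⟨m3, m4⟩ := h6 t ht
  have hfl := div_floor (Z - M) D hD
  rw [Nat.cast_sub h5] at hfl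
  have e1 : (c.one : ℂ) * (V t / (c.one * D)) = V t / D := by field_simp
  have herr : ‖V t / D - cv t f' g'‖ ≤ (((Z - M) / D + 1 + er : ℕ) : ℝ) := by
    have : V t / D - cv t f' g' = (V t - cv t f g) / D + (cv t f g / D - cv t f' g') := by ring
    rw [this]
    refine (norm_add_le _ _).trans ?_
    rw [norm_div, Complex.norm_natCast]
    have h7 : ‖V t - cv t f g‖ / D ≤ ((Z : ℝ) - M) / D := div_le_div_of_nonneg_right m3 hD'.le
    push_cast
    linarith
  refine ⟨by rw [e1]; exact herr, ?_⟩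
  have e2 : (c.one : ℝ) * ‖V t / (c.one * D)‖ = ‖V t / D‖ := by
    rw [← e1, norm_mul, Complex.norm_natCast]
  rw [e2]
  have e3 : V t / D = (V t / D - cv t f' g') + cv t f' g' := by ring
  rw [e3]
  refine (norm_add_le _ _).trans ?_
  have e4 : ((V3.M ⟨W, Nat.add ks (Nat.add (Nat.add (Nat.div (Nat.sub Z M) D) 1) er),
      Nat.add (Nat.add ks (Nat.add (Nat.add (Nat.div (Nat.sub Z M) D) 1) er))
        (Nat.add (Nat.add (Nat.div (Nat.sub Z M) D) 1) er)⟩ : ℕ) : ℝ) =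
      ks + (((Z - M) / D + 1 + er : ℕ) : ℝ) := by
    have : (V3.M ⟨W, Nat.add ks (Nat.add (Nat.add (Nat.div (Nat.sub Z M) D) 1) er),
      Nat.add (Nat.add ks (Nat.add (Nat.add (Nat.div (Nat.sub Z M) D) 1) er))
        (Nat.add (Nat.add (Nat.div (Nat.sub Z M) D) 1) er)⟩) = ks + ((Z - M) / D + 1 + er) := rfl
    rw [this]; push_cast; ring
  rw [e4]
  linarith

/-! ### dot products -/

/-- dot product of one coordinate -/
def dt (π : V3 → ℕ) (l : List V3) : List V3 → ℕ :=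
  List.rec (motive := fun _ => List V3 → ℕ) (fun _ => 0)
    (fun a _ ih bs => List.rec (motive := fun _ => ℕ) 0
      (fun b bs' _ => Nat.add (Nat.mul (π a) (π b)) (ih bs')) bs) l

theorem dt_nil (π : V3 → ℕ) (l : List V3) : dt π [] l = 0 := rfl
theorem dt_nil' (π : V3 → ℕ) (a : V3) (l : List V3) : dt π (a :: l) [] = 0 := rfl
theorem dt_cons (π : V3 → ℕ) (a b : V3) (l l' : List V3) :
    dt π (a :: l) (b :: l') = π a * π b + dt π l l' := rfl

/-- the list `l` models the functions `F s, F (s+1), …` -/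
def LM (c : Cfg) (F : ℕ → ℝ → ℂ) : ℕ → List V3 → Prop
  | _, [] => True
  | s, x :: l => Md c x (F s) ∧ LM c F (s + 1) l

theorem LM.drop {F : ℕ → ℝ → ℂ} : ∀ (n s : ℕ) (l : List V3), LM c F s l →
    LM c F (s + n) (l.drop n)
  | 0, s, l, h => by simpa using h
  | n + 1, s, [], h => by simp [LM]
  | n + 1, s, x :: l, h => by
    have := LM.drop n (s + 1) l h.2
    rw [List.drop_succ_cons]
    have e : s + (n + 1) = s + 1 + n := by ring
    rw [e]; exact this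

theorem LM.congr {F G : ℕ → ℝ → ℂ} : ∀ (s : ℕ) (l : List V3), LM c F s l →
    (∀ i t, s ≤ i → i < s + l.length → |t| ≤ 1 → G i t = F i t) → LM c G s l
  | _, [], _, _ => trivial
  | s, x :: l, h, hG => ⟨h.1.congr fun t ht => hG s t le_rfl (by simp) ht,
      LM.congr (s + 1) l h.2 fun i t h1 h2 ht => hG i t (by omega)
        (by simp only [List.length_cons]; omega) ht⟩

include hc in
theorem dt_spec {F G : ℕ → ℝ → ℂ} : ∀ (l a : List V3) (s r : ℕ), LM c F s l → LM c G r a →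
    Sm c (dt V3.W l a) (dt V3.M l a) (dt V3.S l a) (min l.length a.length)
      (fun t => c.one * c.one * ∑ i ∈ range (min l.length a.length), F (s + i) t * G (r + i) t)
  | [], a, s, r, _, _ => by
    have := Sm.zero (c := c)
    simpa [dt_nil] using this
  | x :: l, [], s, r, _, _ => by
    have := Sm.zero (c := c)
    simpa [dt_nil'] using this
  | x :: l, y :: a, s, r, hl, ha => by
    have h1 := hl.1.mul hc ha.1
    have h2 := dt_spec l a (s + 1) (r + 1) hl.2 ha.2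
    have h3 := h1.add h2
    rw [dt_cons, dt_cons, dt_cons]
    have e1 : min (x :: l).length (y :: a).length = 1 + min l.length a.length := by
      simp only [List.length_cons]; omega
    rw [e1]
    refine h3.congr fun t _ => ?_
    rw [add_comm 1 (min l.length a.length), sum_range_succ']
    have e2 : ∀ i, F (s + (i + 1)) t * G (r + (i + 1)) t = F (s + 1 + i) t * G (r + 1 + i) t := by
      intro i
      rw [show s + (i + 1) = s + 1 + i by ring, show r + (i + 1) = r + 1 + i by ring]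
    simp only [e2, add_zero]
    ring

/-- rounded dot product -/
def dotN (c : Cfg) (D : ℕ) (l a : List V3) (k : V3 → Bool) : Bool :=
  fin3 c D (dt V3.W l a) (dt V3.M l a) (dt V3.S l a) k

include hc in
theorem dotN_spec (hM : 31 * (c.Mx * c.Mx) < c.H) {F G : ℕ → ℝ → ℂ} {D : ℕ} (hD : 0 < D)
    (l a : List V3) (s r : ℕ) (hl : LM c F s l) (ha : LM c G r a)
    (hK : min l.length a.length ≤ 31) (k : V3 → Bool) (hk : dotN c D l a k = true) :
    ∃ x, k x = true ∧ Md c x (fun t => c.one / D *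
      ∑ i ∈ range (min l.length a.length), F (s + i) t * G (r + i) t) := by
  obtain ⟨x, h1, h2⟩ := fin3_spec hc hM hD (dt_spec hc l a s r hl ha) hK k hk
  refine ⟨x, h1, h2.congr fun t _ => ?_⟩
  have hone : (c.one : ℂ) ≠ 0 := by exact_mod_cast hc.hone.ne'
  have hDc : (D : ℂ) ≠ 0 := by exact_mod_cast hD.ne'
  field_simp

/-- product of two models -/
def mul1 (c : Cfg) (D : ℕ) (x y : V3) (k : V3 → Bool) : Bool :=
  fin3 c D (Nat.mul x.W y.W) (Nat.mul x.M y.M) (Nat.mul x.S y.S) k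

include hc in
theorem mul1_spec (hM : 31 * (c.Mx * c.Mx) < c.H) {D : ℕ} (hD : 0 < D) {x y : V3} {v w : ℝ → ℂ}
    (hx : Md c x v) (hy : Md c y w) (k : V3 → Bool) (hk : mul1 c D x y k = true) :
    ∃ z, k z = true ∧ Md c z (fun t => c.one / D * (v t * w t)) := by
  obtain ⟨x, h1, h2⟩ := fin3_spec hc hM hD (hx.mul hc hy) (by norm_num) k hk
  refine ⟨x, h1, h2.congr fun t _ => ?_⟩
  have hone : (c.one : ℂ) ≠ 0 := by exact_mod_cast hc.hone.ne'
  have hDc : (D : ℂ) ≠ 0 := by exact_mod_cast hD.ne'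
  field_simp

/-- `x1 y1 + x2 y2` -/
def mul2 (c : Cfg) (D : ℕ) (x1 y1 x2 y2 : V3) (k : V3 → Bool) : Bool :=
  fin3 c D (Nat.add (Nat.mul x1.W y1.W) (Nat.mul x2.W y2.W))
    (Nat.add (Nat.mul x1.M y1.M) (Nat.mul x2.M y2.M))
    (Nat.add (Nat.mul x1.S y1.S) (Nat.mul x2.S y2.S)) k

include hc in
theorem mul2_spec (hM : 31 * (c.Mx * c.Mx) < c.H) {D : ℕ} (hD : 0 < D) {x1 y1 x2 y2 : V3}
    {v1 w1 v2 w2 : ℝ → ℂ} (hx1 : Md c x1 v1) (hy1 : Md c y1 w1) (hx2 : Md c x2 v2)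
    (hy2 : Md c y2 w2) (k : V3 → Bool) (hk : mul2 c D x1 y1 x2 y2 k = true) :
    ∃ z, k z = true ∧ Md c z (fun t => c.one / D * (v1 t * w1 t + v2 t * w2 t)) := by
  obtain ⟨x, h1, h2⟩ := fin3_spec hc hM hD ((hx1.mul hc hy1).add (hx2.mul hc hy2))
    (by norm_num) k hk
  refine ⟨x, h1, h2.congr fun t _ => ?_⟩
  have hone : (c.one : ℂ) ≠ 0 := by exact_mod_cast hc.hone.ne'
  have hDc : (D : ℂ) ≠ 0 := by exact_mod_cast hD.ne'
  field_simp

/-- `x1 y1 + x2 y2 + x3 y3` -/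
def mul3 (c : Cfg) (D : ℕ) (x1 y1 x2 y2 x3 y3 : V3) (k : V3 → Bool) : Bool :=
  fin3 c D (Nat.add (Nat.add (Nat.mul x1.W y1.W) (Nat.mul x2.W y2.W)) (Nat.mul x3.W y3.W))
    (Nat.add (Nat.add (Nat.mul x1.M y1.M) (Nat.mul x2.M y2.M)) (Nat.mul x3.M y3.M))
    (Nat.add (Nat.add (Nat.mul x1.S y1.S) (Nat.mul x2.S y2.S)) (Nat.mul x3.S y3.S)) k

include hc in
theorem mul3_spec (hM : 31 * (c.Mx * c.Mx) < c.H) {D : ℕ} (hD : 0 < D) {x1 y1 x2 y2 x3 y3 : V3}
    {v1 w1 v2 w2 v3 w3 : ℝ → ℂ} (hx1 : Md c x1 v1) (hy1 : Md c y1 w1) (hx2 : Md c x2 v2)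
    (hy2 : Md c y2 w2) (hx3 : Md c x3 v3) (hy3 : Md c y3 w3) (k : V3 → Bool)
    (hk : mul3 c D x1 y1 x2 y2 x3 y3 k = true) :
    ∃ z, k z = true ∧ Md c z (fun t => c.one / D * (v1 t * w1 t + v2 t * w2 t + v3 t * w3 t)) := by
  obtain ⟨x, h1, h2⟩ := fin3_spec hc hM hD
    (((hx1.mul hc hy1).add (hx2.mul hc hy2)).add (hx3.mul hc hy3)) (by norm_num) k hk
  refine ⟨x, h1, h2.congr fun t _ => ?_⟩
  have hone : (c.one : ℂ) ≠ 0 := by exact_mod_cast hc.hone.ne'
  have hDc : (D : ℂ) ≠ 0 := by exact_mod_cast hD.ne'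
  field_simp

/-- products of the elements of two lists -/
def mulL (c : Cfg) (l : List V3) : List V3 → (List V3 → Bool) → Bool :=
  List.rec (motive := fun _ => List V3 → (List V3 → Bool) → Bool) (fun _ k => k [])
    (fun x _ ih a k => List.rec (motive := fun _ => Bool) false
      (fun y a' _ => mul1 c c.one x y fun z => ih a' fun zs => k (z :: zs)) a) l

include hc in
theorem mulL_spec (hM : 31 * (c.Mx * c.Mx) < c.H) {F G : ℕ → ℝ → ℂ} : ∀ (l a : List V3) (s : ℕ),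
    LM c F s l → LM c G s a → l.length = a.length → ∀ k : List V3 → Bool, mulL c l a k = true →
    ∃ r, k r = true ∧ r.length = l.length ∧ LM c (fun i t => F i t * G i t) s r
  | [], a, s, _, _, _, k, hk => ⟨[], hk, rfl, trivial⟩
  | x :: l, [], s, _, _, h, k, hk => absurd h (by simp)
  | x :: l, y :: a, s, hl, ha, h, k, hk => by
    have h0 : mulL c (x :: l) (y :: a) k =
      mul1 c c.one x y fun z => mulL c l a fun zs => k (z :: zs) := rfl
    rw [h0] at hk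
    obtain ⟨z, h1, h2⟩ := mul1_spec hc hM hc.hone hl.1 ha.1 _ hk
    obtain ⟨r, h3, h4, h5⟩ := mulL_spec hM l a (s + 1) hl.2 ha.2 (by simpa using h) _ h1
    have hone : (c.one : ℂ) ≠ 0 := by exact_mod_cast hc.hone.ne'
    refine ⟨z :: r, h3, by simp [h4], h2.congr fun t _ => ?_, h5⟩
    rw [div_self hone, one_mul]

/-- negative -/
def ngV (c : Cfg) (x : V3) : V3 := ⟨Nat.sub c.N (Nat.mod x.W c.N), x.M, x.S⟩

theorem cv_neg (t : ℝ) (f g : ℤ[X]) : cv t (-f) (-g) = -cv t f g := by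
  unfold cv; rw [map_neg, map_neg]; push_cast; ring

include hc in
theorem ngV_spec {x : V3} {v : ℝ → ℂ} (h : Md c x v) : Md c (ngV c x) (fun t => -v t) := by
  obtain ⟨f, g, h1, h2, h3, h4, e, h5, h6⟩ := h
  have hN : 0 < c.N := by rw [hc.hN]; omega
  refine ⟨-f, -g, ?_, by rwa [natDegree_neg], by rwa [natDegree_neg], by rwa [nm_neg, nm_neg],
    e, h5, fun t ht => ⟨?_, ?_⟩⟩
  · have e1 : (ngV c x).W = c.N - x.W % c.N := rfl
    rw [e1, Nat.cast_sub (Nat.mod_lt _ hN).le, eval_neg, eval_neg]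
    have h7 : ((x.W % c.N : ℕ) : ℤ) ≡ f.eval (c.B : ℤ) + c.BL * g.eval (c.B : ℤ) [ZMOD c.N] :=
      (mod_congr _ _).trans h1
    have h8 := h7.neg
    have h9 := h8.add_left (c.N : ℤ)
    have e2 : (c.N : ℤ) - ((x.W % c.N : ℕ) : ℤ) = c.N + -((x.W % c.N : ℕ) : ℤ) := by ring
    rw [e2]
    refine h9.trans ?_
    rw [Int.modEq_iff_dvd]
    exact ⟨-1, by ring⟩
  · rw [cv_neg]
    have : (c.one : ℂ) * -v t - -cv t f g = -((c.one : ℂ) * v t - cv t f g) := by ring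
    rw [this, norm_neg]
    exact (h6 t ht).1
  · rw [norm_neg]; exact (h6 t ht).2

end MP_d1b55a.K
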