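import Pool.Agent.Lib.MP_d1b55a_co.NE2

/-!
MP_d1b55a_co, near arc, kernel engine, part 3: constants, inverses, inverse square roots.
-/

open Finset Polynomial

namespace MP_d1b55a.K

variable {c : Cfg} (hc : c.Ok)

theorem nm_C (a : ℤ) : nm (C a) = |a| := by
  have := nm_eq (C a) 1 (by rw [natDegree_C]; exact one_pos)
  rw [this, Finset.sum_range_one, coeff_C_zero]

theorem nm_C_mul_X (a : ℤ) : nm (C a * X) = |a| := by
  rw [nm_C_mul]
  have : nm (X : ℤ[X]) = 1 := by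
    have := nm_monomial_mul 1 1 (1 : ℤ[X])
    rw [monomial_one_one_eq_X, mul_one] at this
    rw [this]
    have h4 := nm_eq (1 : ℤ[X]) 1 (by simp)
    rw [h4]; simp
  rw [this, mul_one]

/-- linear models -/
theorem Md_lin (hp : 1 ≤ c.p) (W : ℕ) (x0 x1 y0 y1 : ℤ)
    (hW : (W : ℤ) ≡ (x0 + x1 * c.B) + c.BL * (y0 + y1 * c.B) [ZMOD c.N])
    (hxy : |x0| + |x1| + (|y0| + |y1|) ≤ c.Mx) (M e : ℕ) (v : ℝ → ℂ)
    (h : ∀ t : ℝ, |t| ≤ 1 → ‖(c.one : ℂ) * v t - (((x0 : ℂ) + x1 * t) + ((y0 : ℂ) + y1 * t) *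
      Complex.I)‖ ≤ e ∧ (c.one : ℝ) * ‖v t‖ ≤ M) : Md c ⟨W, M, M + e⟩ v := by
  have hd : ∀ x y : ℤ, (C x + C y * X : ℤ[X]).natDegree ≤ c.p := by
    intro x y
    refine (natDegree_add_le _ _).trans (max_le (by simp) ?_)
    exact (natDegree_C_mul_le _ _).trans (natDegree_X_le.trans hp)
  refine ⟨C x0 + C x1 * X, C y0 + C y1 * X, ?_, hd _ _, hd _ _, ?_, e, rfl, fun t ht => ?_⟩
  · simpa [eval_add, eval_mul] using hW
  · have h1 := nm_add (C x0) (C x1 * X)
    have h2 := nm_add (C y0) (C y1 * X)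
    rw [nm_C, nm_C_mul_X] at h1 h2
    linarith
  · have e1 : cv t (C x0 + C x1 * X) (C y0 + C y1 * X) =
      (((x0 : ℂ) + x1 * t) + ((y0 : ℂ) + y1 * t) * Complex.I) := by
      unfold cv
      simp
    rw [e1]
    exact h t ht

theorem Md_const (hp : 1 ≤ c.p) (W : ℕ) (x0 y0 : ℤ)
    (hW : (W : ℤ) ≡ x0 + c.BL * y0 [ZMOD c.N])
    (hxy : |x0| + |y0| ≤ c.Mx) (M e : ℕ) (z : ℂ)
    (h1 : ‖(c.one : ℂ) * z - ((x0 : ℂ) + (y0 : ℂ) * Complex.I)‖ ≤ e)
    (h2 : (c.one : ℝ) * ‖z‖ ≤ M) : Md c ⟨W, M, M + e⟩ (fun _ => z) := by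
  refine Md_lin hp W x0 0 y0 0 (by simpa using hW) (by simpa using hxy) M e _ fun t _ => ⟨?_, h2⟩
  simpa using h1

/-- the constants `1, -1, 2, -2, i, -i/2` -/
def one3 (c : Cfg) : V3 := ⟨c.one, c.one, c.one⟩
def mone3 (c : Cfg) : V3 := ⟨Nat.sub c.N c.one, c.one, c.one⟩
def two3 (c : Cfg) : V3 := ⟨Nat.mul 2 c.one, Nat.mul 2 c.one, Nat.mul 2 c.one⟩
def mtwo3 (c : Cfg) : V3 := ⟨Nat.sub c.N (Nat.mul 2 c.one), Nat.mul 2 c.one, Nat.mul 2 c.one⟩
def im3 (c : Cfg) : V3 := ⟨Nat.mul c.BL c.one, c.one, c.one⟩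
def mih3 (c : Cfg) : V3 := ⟨Nat.sub c.N (Nat.mul c.BL (Nat.div c.one 2)), Nat.div c.one 2,
  Nat.div c.one 2⟩

/-- standing assumptions -/
structure Cfg.Go (c : Cfg) : Prop extends c.Ok where
  hM : 31 * (c.Mx * c.Mx) < c.H
  hp : 1 ≤ c.p
  h1 : 2 * c.one ≤ c.Mx
  h2 : 2 ∣ c.one

variable (hg : c.Go)

include hg in
theorem Mx_le_BL : c.Mx ≤ c.BL := by
  have h2 := hg.hM
  have h3 : c.H ≤ c.BL := by
    rw [hg.hBL, hg.hB]
    calc c.H ≤ 2 * c.H := by omega
      _ = (2 * c.H) ^ 1 := (pow_one _).symm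
      _ ≤ (2 * c.H) ^ (2 * c.p + 1) := Nat.pow_le_pow_right (by have := hg.hH; omega) (by omega)
  rcases Nat.eq_zero_or_pos c.Mx with h | h
  · omega
  · have : c.Mx * 1 ≤ c.Mx * c.Mx := Nat.mul_le_mul_left _ h
    omega

include hg in
theorem BLMx_le : c.BL * c.Mx ≤ c.N := by
  have := Mx_le_BL hg
  have h2 : c.BL * c.Mx ≤ c.BL * c.BL := Nat.mul_le_mul_left _ this
  rw [hg.hN]; omega

include hg in
theorem one_le_N2 : 2 * c.one ≤ c.N := by
  have h1 := hg.h1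
  have h2 := BLMx_le hg
  have h3 := hg.toOk.BL_pos
  have : 1 * c.Mx ≤ c.BL * c.Mx := Nat.mul_le_mul_right _ h3
  omega

include hg in
theorem one3_spec : Md c (one3 c) (fun _ => 1) := by
  have h := hg.h1
  refine Md_const hg.hp c.one c.one 0 (by simp) ?_ c.one 0 1 (by simp) (by simp)
  have : (c.one : ℤ) ≤ c.Mx := by exact_mod_cast (by omega : c.one ≤ c.Mx)
  simpa using this

include hg in
theorem mone3_spec : Md c (mone3 c) (fun _ => -1) := by
  have h := hg.h1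
  have hN := one_le_N2 hg
  refine Md_const hg.hp _ (-c.one) 0 ?_ ?_ c.one 0 (-1) (by simp) (by simp)
  · rw [show Nat.sub c.N c.one = c.N - c.one from rfl, Nat.cast_sub (by omega), Int.modEq_iff_dvd]
    exact ⟨-1, by ring⟩
  · have : (c.one : ℤ) ≤ c.Mx := by exact_mod_cast (by omega : c.one ≤ c.Mx)
    simpa using this

include hg in
theorem two3_spec : Md c (two3 c) (fun _ => 2) := by
  have h := hg.h1
  refine Md_const hg.hp _ (2 * c.one) 0 (by simp) ?_ _ 0 2 (by simp [mul_comm]) ?_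
  · have : 2 * (c.one : ℤ) ≤ c.Mx := by exact_mod_cast h
    simpa using this
  · have : ((Nat.mul 2 c.one : ℕ) : ℝ) = 2 * c.one := by
      show (((2 * c.one : ℕ)) : ℝ) = _
      push_cast; ring
    rw [this]; simp [mul_comm]

include hg in
theorem mtwo3_spec : Md c (mtwo3 c) (fun _ => -2) := by
  have h := hg.h1
  have hN := one_le_N2 hg
  refine Md_const hg.hp _ (-(2 * c.one)) 0 ?_ ?_ _ 0 (-2) (by simp [mul_comm]) ?_
  · rw [show Nat.sub c.N (Nat.mul 2 c.one) = c.N - 2 * c.one from rfl, Nat.cast_sub hN,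
      Int.modEq_iff_dvd]
    exact ⟨-1, by push_cast; ring⟩
  · have : 2 * (c.one : ℤ) ≤ c.Mx := by exact_mod_cast h
    simpa using this
  · have : ((Nat.mul 2 c.one : ℕ) : ℝ) = 2 * c.one := by
      show (((2 * c.one : ℕ)) : ℝ) = _
      push_cast; ring
    rw [this]; simp [mul_comm]

include hg in
theorem im3_spec : Md c (im3 c) (fun _ => Complex.I) := by
  have h := hg.h1
  refine Md_const hg.hp _ 0 c.one ?_ ?_ c.one 0 Complex.I (by simp) (by simp)
  · rw [show Nat.mul c.BL c.one = c.BL * c.one from rfl]; push_cast; rw [zero_add]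
  · have : (c.one : ℤ) ≤ c.Mx := by exact_mod_cast (by omega : c.one ≤ c.Mx)
    simpa using this

include hg in
theorem mih3_spec : Md c (mih3 c) (fun _ => -(Complex.I / 2)) := by
  have h := hg.h1
  obtain ⟨m, hm⟩ := hg.h2
  have e : Nat.div c.one 2 = m := by
    show c.one / 2 = m
    omega
  have hN := BLMx_le hg
  have hle : c.BL * m ≤ c.N := by
    have : c.BL * m ≤ c.BL * c.Mx := Nat.mul_le_mul_left _ (by omega)
    omega
  have hmc : (c.one : ℂ) = 2 * m := by rw [hm]; push_cast; ring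
  have hmr : (c.one : ℝ) = 2 * m := by rw [hm]; push_cast; ring
  unfold mih3
  rw [e]
  refine Md_const hg.hp _ 0 (-m) ?_ ?_ m 0 (-(Complex.I / 2)) ?_ ?_
  · rw [show Nat.sub c.N (Nat.mul c.BL m) = c.N - c.BL * m from rfl, Nat.cast_sub hle,
      Int.modEq_iff_dvd]
    exact ⟨-1, by push_cast; ring⟩
  · have : (m : ℤ) ≤ c.Mx := by exact_mod_cast (by omega : m ≤ c.Mx)
    simpa using this
  · rw [hmc]
    have : (2 * (m : ℂ)) * -(Complex.I / 2) - (((0 : ℤ) : ℂ) + ((-(m : ℤ) : ℤ) : ℂ) * Complex.I) = 0 := by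
      push_cast; ring
    rw [this]; simp
  · rw [hmr, norm_neg, norm_div, Complex.norm_I, Complex.norm_ofNat]
    apply le_of_eq
    ring

/-! ### inverse -/

/-- Newton iteration for the inverse -/
def newt (c : Cfg) (a : V3) (n : ℕ) : V3 → (V3 → Bool) → Bool :=
  Nat.rec (motive := fun _ => V3 → (V3 → Bool) → Bool) (fun y k => k (exa y))
    (fun _ ih y k => mul2 c c.one a y (one3 c) (mone3 c) fun r =>
      mul2 c c.one y (one3 c) y (ngV c r) fun y' => ih (exa y') k) n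

include hg in
theorem newt_spec {a : V3} {v : ℝ → ℂ} (ha : Md c a v) (n : ℕ) : ∀ (y : V3) (w : ℝ → ℂ),
    Md c y w → ∀ k : V3 → Bool, newt c a n y k = true →
    ∃ y' w', k (exa y') = true ∧ Md c y' w' := by
  induction n with
  | zero => intro y w hy k hk; exact ⟨y, w, hk, hy⟩
  | succ n ih =>
    intro y w hy k hk
    have h0 : newt c a (n + 1) y k = mul2 c c.one a y (one3 c) (mone3 c) fun r =>
      mul2 c c.one y (one3 c) y (ngV c r) fun y' => newt c a n (exa y') k := rfl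
    rw [h0] at hk
    obtain ⟨r, h1, h2⟩ := mul2_spec hg.toOk hg.hM hg.hone ha hy (one3_spec hg) (mone3_spec hg) _ hk
    obtain ⟨y', h3, h4⟩ := mul2_spec hg.toOk hg.hM hg.hone hy (one3_spec hg) hy
      (ngV_spec hg.toOk h2) _ h1
    obtain ⟨f, g, _, _, _, _, h5⟩ := h4.exact hg.toOk
    exact ih _ _ h5 k h3

/-- certified inverse; also returns the approximate inverse -/
def inv3 (c : Cfg) (a : V3) (n : ℕ) (y0 : V3) (k : V3 → V3 → Bool) : Bool :=
  newt c (exa a) n y0 fun y => mul2 c c.one a y (one3 c) (mone3 c) fun r =>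
    chk (Nat.ble (Nat.succ r.M) c.one)
      (frc (Nat.add (Nat.div (Nat.mul y.M r.M) (Nat.sub c.one r.M)) 1) fun e =>
        frc (Nat.add y.M e) fun M => frc (Nat.add M e) fun S => k ⟨y.W, M, S⟩ y)

include hg in
theorem inv3_spec {a y0 : V3} {v w0 : ℝ → ℂ} (ha : Md c a v) (hy : Md c y0 w0) (n : ℕ)
    (k : V3 → V3 → Bool) (hk : inv3 c a n y0 k = true) :
    ∃ x y, k x y = true ∧ (∃ w, Md c y w) ∧ Md c x (fun t => (v t)⁻¹) ∧
      ∀ t : ℝ, |t| ≤ 1 → v t ≠ 0 := by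
  unfold inv3 at hk
  obtain ⟨fa, ga, _, _, _, _, hae⟩ := ha.exact hg.toOk
  obtain ⟨y1, w1, h1, h2⟩ := newt_spec hg hae n y0 w0 hy _ hk
  obtain ⟨f, g, f1, f2, f3, f4, f5⟩ := h2.exact hg.toOk
  set y := exa y1 with hyd
  set w : ℝ → ℂ := fun t => cv t f g / c.one with hw
  obtain ⟨r, h3, h4⟩ := mul2_spec hg.toOk hg.hM hg.hone ha f5 (one3_spec hg) (mone3_spec hg) _ h1
  rw [chk_true, Nat.ble_eq] at h3
  obtain ⟨h5, h6⟩ := h3
  simp only [frc_eq] at h6
  have hone : (c.one : ℂ) ≠ 0 := by exact_mod_cast hg.hone.ne'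
  have hone' : (0 : ℝ) < c.one := by exact_mod_cast hg.hone
  obtain ⟨_, _, _, _, _, _, e0, _, hr⟩ := h4
  have hlt : r.M < c.one := h5
  have hltR : (r.M : ℝ) < c.one := by exact_mod_cast hlt
  have hd : ∀ t : ℝ, |t| ≤ 1 → (c.one : ℝ) * ‖v t * w t - 1‖ ≤ r.M := by
    intro t ht
    have h7 := (hr t ht).2
    have e : v t * w t - 1 = (c.one : ℂ) / c.one * (v t * w t + 1 * -1) := by
      rw [div_self hone]; ring
    rw [e]; exact h7
  have hne : ∀ t : ℝ, |t| ≤ 1 → v t ≠ 0 := by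
    intro t ht h0
    have := hd t ht
    rw [h0, zero_mul, zero_sub, norm_neg, norm_one, mul_one] at this
    linarith
  refine ⟨_, y, h6, ⟨w, f5⟩, ?_, hne⟩
  obtain ⟨_, _, _, _, _, _, e1, hS1, hy1⟩ := f5
  have hq := div_floor (y.M * r.M) (c.one - r.M) (by omega)
  rw [Nat.cast_sub hlt.le] at hq
  set E := y.M * r.M / (c.one - r.M) + 1 with hE
  have eE : Nat.add (Nat.div (Nat.mul y.M r.M) (Nat.sub c.one r.M)) 1 = E := rfl
  have hqE : (y.M : ℝ) * r.M / ((c.one : ℝ) - r.M) ≤ E := by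
    rw [hE]; push_cast at hq ⊢; linarith
  have hdiff : ∀ t : ℝ, |t| ≤ 1 → (c.one : ℝ) * ‖(v t)⁻¹ - w t‖ ≤ E := by
    intro t ht
    have h7 := hd t ht
    have h8 := hne t ht
    have h9 := (hy1 t ht).2
    have h10 : (0 : ℝ) < (c.one : ℝ) - r.M := by linarith
    refine le_trans ?_ hqE
    rw [le_div_iff₀ h10]
    have h11 : (c.one : ℝ) - r.M ≤ c.one * ‖v t * w t‖ := by
      have h12 : (1 : ℝ) ≤ ‖v t * w t‖ + ‖v t * w t - 1‖ := by
        have : (1 : ℂ) = v t * w t - (v t * w t - 1) := by ring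
        calc (1 : ℝ) = ‖(1 : ℂ)‖ := norm_one.symm
          _ = ‖v t * w t - (v t * w t - 1)‖ := by rw [← this]
          _ ≤ _ := norm_sub_le _ _
      nlinarith
    have h13 : ‖(v t)⁻¹ - w t‖ * ‖v t * w t‖ = ‖w t‖ * ‖v t * w t - 1‖ := by
      rw [← norm_mul, ← norm_mul]
      have : ((v t)⁻¹ - w t) * (v t * w t) = -(w t * (v t * w t - 1)) := by
        field_simp
        ring
      rw [this, norm_neg]
    have h14 : (c.one : ℝ) * ‖(v t)⁻¹ - w t‖ * ((c.one : ℝ) - r.M) ≤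
        c.one * ‖(v t)⁻¹ - w t‖ * (c.one * ‖v t * w t‖) :=
      mul_le_mul_of_nonneg_left h11 (by positivity)
    have h15 : (c.one : ℝ) * ‖(v t)⁻¹ - w t‖ * (c.one * ‖v t * w t‖) =
        (c.one * ‖w t‖) * (c.one * ‖v t * w t - 1‖) := by
      calc _ = (c.one : ℝ) * c.one * (‖(v t)⁻¹ - w t‖ * ‖v t * w t‖) := by ring
        _ = _ := by rw [h13]; ring
    have h16 : (c.one * ‖w t‖) * (c.one * ‖v t * w t - 1‖) ≤ (y.M : ℝ) * r.M :=
      mul_le_mul h9 h7 (by positivity) (by positivity)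
    linarith
  refine ⟨f, g, f1, f2, f3, f4, E, ?_, fun t ht => ⟨?_, ?_⟩⟩
  · rfl
  · have h7 := hdiff t ht
    have e3 : (c.one : ℂ) * (v t)⁻¹ - cv t f g = c.one * ((v t)⁻¹ - w t) := by
      rw [hw]; field_simp
    rw [e3, norm_mul, Complex.norm_natCast]
    exact h7
  · have h7 := hdiff t ht
    have h9 := (hy1 t ht).2
    have e4 : ((V3.M ⟨y.W, Nat.add y.M E, Nat.add (Nat.add y.M E) E⟩ : ℕ) : ℝ) = y.M + E := by
      show (((y.M + E : ℕ)) : ℝ) = _
      push_cast; ring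
    rw [eE, e4]
    have h10 : ‖(v t)⁻¹‖ ≤ ‖w t‖ + ‖(v t)⁻¹ - w t‖ := by
      have : (v t)⁻¹ = w t + ((v t)⁻¹ - w t) := by ring
      calc ‖(v t)⁻¹‖ = ‖w t + ((v t)⁻¹ - w t)‖ := by rw [← this]
        _ ≤ _ := norm_add_le _ _
    nlinarith

/-! ### inverse square root -/

/-- Newton iteration for the inverse square root -/
def newS (c : Cfg) (m : V3) (n : ℕ) : V3 → (V3 → Bool) → Bool :=
  Nat.rec (motive := fun _ => V3 → (V3 → Bool) → Bool) (fun y k => k (exa y))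
    (fun _ ih y k => mul1 c c.one y y fun q => mul2 c c.one q m (one3 c) (mone3 c) fun r =>
      mul2 c (Nat.mul 2 c.one) y (two3 c) y (ngV c r) fun y' => ih (exa y') k) n

include hg in
theorem newS_spec {m : V3} {v : ℝ → ℂ} (hm : Md c m v) (n : ℕ) : ∀ (y : V3) (w : ℝ → ℂ),
    Md c y w → ∀ k : V3 → Bool, newS c m n y k = true →
    ∃ y' w', k (exa y') = true ∧ Md c y' w' := by
  induction n with
  | zero => intro y w hy k hk; exact ⟨y, w, hk, hy⟩
  | succ n ih =>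
    intro y w hy k hk
    have h0 : newS c m (n + 1) y k = mul1 c c.one y y fun q =>
      mul2 c c.one q m (one3 c) (mone3 c) fun r =>
      mul2 c (2 * c.one) y (two3 c) y (ngV c r) fun y' => newS c m n (exa y') k := rfl
    rw [h0] at hk
    obtain ⟨q, h1, h2⟩ := mul1_spec hg.toOk hg.hM hg.hone hy hy _ hk
    obtain ⟨r, h3, h4⟩ := mul2_spec hg.toOk hg.hM hg.hone h2 hm (one3_spec hg) (mone3_spec hg) _ h1
    obtain ⟨y', h5, h6⟩ := mul2_spec hg.toOk hg.hM (by have := hg.hone; omega) hy (two3_spec hg) hy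
      (ngV_spec hg.toOk h4) _ h3
    obtain ⟨f, g, _, _, _, _, h7⟩ := h6.exact hg.toOk
    exact ih _ _ h7 k h5

/-- certified inverse square root -/
def sq3 (c : Cfg) (m : V3) (n : ℕ) (y0 : V3) (k : V3 → Bool) : Bool :=
  newS c m n y0 fun y => chk (lowR c y.W 0)
    (mul1 c c.one y y fun q => mul2 c c.one q m (one3 c) (mone3 c) fun r =>
      frc (Nat.add y.M r.M) fun M => frc (Nat.add M r.M) fun S => k ⟨y.W, M, S⟩)

include hg in
theorem sq3_spec {m y0 : V3} {v w0 u : ℝ → ℂ} (hm : Md c m v) (hy : Md c y0 w0) (n : ℕ)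
    (hu : ∀ t : ℝ, |t| ≤ 1 → u t ^ 2 * v t = 1 ∧ |(u t).im| ≤ (u t).re ∧ ‖u t‖ ^ 2 ≤ 1 / 2)
    (k : V3 → Bool) (hk : sq3 c m n y0 k = true) :
    ∃ x, k x = true ∧ Md c x u := by
  unfold sq3 at hk
  obtain ⟨y1, w1, h1, h2⟩ := newS_spec hg hm n y0 w0 hy _ hk
  obtain ⟨f, g, f1, f2, f3, f4, f5⟩ := h2.exact hg.toOk
  set y := exa y1 with hyd
  set w : ℝ → ℂ := fun t => cv t f g / c.one with hw
  rw [chk_true] at h1
  obtain ⟨hlow, h1⟩ := h1
  obtain ⟨q, h3, h4⟩ := mul1_spec hg.toOk hg.hM hg.hone f5 f5 _ h1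
  obtain ⟨r, h5, h6⟩ := mul2_spec hg.toOk hg.hM hg.hone h4 hm (one3_spec hg) (mone3_spec hg) _ h3
  simp only [frc_eq] at h5
  have hone : (c.one : ℂ) ≠ 0 := by exact_mod_cast hg.hone.ne'
  have hone' : (0 : ℝ) < c.one := by exact_mod_cast hg.hone
  obtain ⟨_, _, _, _, _, _, e0, _, hr⟩ := h6
  have hMH : (c.Mx : ℤ) < c.H := by
    have h7 := hg.hM
    have h8 : c.Mx ≤ c.Mx * c.Mx ∨ c.Mx = 0 := by
      rcases Nat.eq_zero_or_pos c.Mx with h | h
      · exact Or.inr h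
      · exact Or.inl (Nat.le_mul_of_pos_left _ h)
    have h9 := hg.hH
    exact_mod_cast (by rcases h8 with h | h <;> omega : c.Mx < c.H)
  have hwre : ∀ t : ℝ, |t| ≤ 1 → 0 < (w t).re := by
    intro t ht
    have h7 := lowR_spec hg.toOk ht f g (by omega) (by omega)
      (by have := nm_nonneg g; linarith) (by have := nm_nonneg f; linarith) y.W f1 0 hlow
    have h8 : (w t).re = aeval t f / c.one := by
      rw [hw]
      have : (cv t f g / (c.one : ℂ)).re = (cv t f g).re / c.one := by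
        rw [← Complex.ofReal_natCast, Complex.div_ofReal_re]
      simp only [this]
      congr 1
      unfold cv
      simp
    rw [h8]
    push_cast at h7
    positivity
  have hd : ∀ t : ℝ, |t| ≤ 1 → (c.one : ℝ) * ‖w t ^ 2 * v t - 1‖ ≤ r.M := by
    intro t ht
    have h7 := (hr t ht).2
    have e : w t ^ 2 * v t - 1 =
        (c.one : ℂ) / c.one * ((c.one : ℂ) / c.one * (w t * w t) * v t + 1 * -1) := by
      rw [div_self hone]; ring
    rw [e]; exact h7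
  have hdiff : ∀ t : ℝ, |t| ≤ 1 → (c.one : ℝ) * ‖u t - w t‖ ≤ r.M := by
    intro t ht
    obtain ⟨u1, u2, u3⟩ := hu t ht
    have hpos : 0 < (u t).re := by
      rcases (abs_nonneg _).trans u2 |>.lt_or_eq with h | h
      · exact h
      · exfalso
        have him : (u t).im = 0 := by
          rw [← h] at u2
          exact abs_nonpos_iff.mp u2
        have : u t = 0 := Complex.ext h.symm him
        rw [this] at u1
        simp at u1
    have hn : ‖u t‖ ^ 2 ≤ 2 * (u t).re ^ 2 := by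
      rw [← Complex.normSq_eq_norm_sq, Complex.normSq_apply]
      nlinarith [sq_abs (u t).im, abs_nonneg (u t).im]
    have hn2 : ‖u t‖ ^ 2 ≤ (u t).re := by
      have h7 : (‖u t‖ ^ 2) ^ 2 ≤ (u t).re ^ 2 := by nlinarith [norm_nonneg (u t)]
      exact le_of_sq_le_sq h7 hpos.le
    have h8 : ‖u t - w t‖ * ‖u t + w t‖ = ‖u t‖ ^ 2 * ‖w t ^ 2 * v t - 1‖ := by
      rw [← norm_mul, ← norm_pow, ← norm_mul]
      have : (u t - w t) * (u t + w t) = -(u t ^ 2 * (w t ^ 2 * v t - 1)) := by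
        linear_combination (w t ^ 2) * u1
      rw [this, norm_neg]
    have h9 : (u t).re ≤ ‖u t + w t‖ := by
      have h10 := Complex.re_le_norm (u t + w t)
      rw [Complex.add_re] at h10
      linarith [hwre t ht]
    have h10 : ‖u t - w t‖ ≤ ‖w t ^ 2 * v t - 1‖ := by
      have h11 : ‖u t - w t‖ * (u t).re ≤ (u t).re * ‖w t ^ 2 * v t - 1‖ := by
        calc ‖u t - w t‖ * (u t).re ≤ ‖u t - w t‖ * ‖u t + w t‖ :=
              mul_le_mul_of_nonneg_left h9 (norm_nonneg _)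
          _ = ‖u t‖ ^ 2 * ‖w t ^ 2 * v t - 1‖ := h8
          _ ≤ _ := mul_le_mul_of_nonneg_right hn2 (norm_nonneg _)
      by_contra hcon
      push Not at hcon
      nlinarith
    exact (mul_le_mul_of_nonneg_left h10 hone'.le).trans (hd t ht)
  obtain ⟨_, _, _, _, _, _, e1, hS1, hy1⟩ := f5
  refine ⟨_, h5, f, g, f1, f2, f3, f4, r.M, rfl, fun t ht => ⟨?_, ?_⟩⟩
  · have e3 : (c.one : ℂ) * u t - cv t f g = c.one * (u t - w t) := by
      rw [hw]; field_simp
    rw [e3, norm_mul, Complex.norm_natCast]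
    exact hdiff t ht
  · have h7 := hdiff t ht
    have h9 := (hy1 t ht).2
    have e4 : ((V3.M ⟨y.W, Nat.add y.M r.M, Nat.add (Nat.add y.M r.M) r.M⟩ : ℕ) : ℝ) =
        y.M + r.M := by
      show (((y.M + r.M : ℕ)) : ℝ) = _
      push_cast; ring
    rw [e4]
    have h10 : ‖u t‖ ≤ ‖w t‖ + ‖u t - w t‖ := by
      have : u t = w t + (u t - w t) := by ring
      calc ‖u t‖ = ‖w t + (u t - w t)‖ := by rw [← this]
        _ ≤ _ := norm_add_le _ _
    nlinarith

end MP_d1b55a.K
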