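import Pool.Agent.Lib.MP_d1b55a_co.NE4

/-!
MP_d1b55a_co, near arc, kernel engine, part 5: the sums `∑ c_k Z_k^e` on a cell.
-/

open Finset Polynomial

namespace MP_d1b55a.K

/-- the point of the cell -/
noncomputable def sA (u rr : ℕ) (t : ℝ) : ℝ := ((u : ℝ) - 240 + rr * t) / 20

/-- `μ_k` on the cell -/
noncomputable def muF (u rr k : ℕ) (t : ℝ) : ℂ := nlam k - Bs (sA u rr t)

theorem two_mu (u rr k : ℕ) (t : ℝ) : 2 * muF u rr k t =
    ⟨7 / 2, -(((u : ℝ) + 12 * k - 336 + rr * t) / 10)⟩ := by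
  unfold muF nlam Bs sA
  apply Complex.ext
  · simp only [Complex.mul_re, Complex.re_ofNat, Complex.sub_re, Complex.im_ofNat, zero_mul,
      sub_zero]
    norm_num
  · simp only [Complex.mul_im, Complex.re_ofNat, Complex.sub_im, Complex.im_ofNat, zero_mul,
      add_zero]
    ring

theorem nZ_sq (μ : ℂ) : nZ μ ^ 2 = 2 * μ := by
  unfold nZ
  rw [← Complex.cpow_mul_nat]
  simp

theorem nZ_spec (μ : ℂ) (h : 7 / 2 ≤ (2 * μ).re) :
    nZ μ ≠ 0 ∧ |((nZ μ)⁻¹).im| ≤ ((nZ μ)⁻¹).re ∧ ‖(nZ μ)⁻¹‖ ^ 2 ≤ 1 / 2 := by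
  have hne : 2 * μ ≠ 0 := by
    intro h0; rw [h0] at h; norm_num at h
  have hsq := nZ_sq μ
  have hz : nZ μ ≠ 0 := by
    intro h0; rw [h0] at hsq; simp at hsq; exact hne (by rw [hsq]; simp)
  have hre : 0 ≤ (nZ μ).re := by
    unfold nZ
    rw [Complex.cpow_def_of_ne_zero hne, Complex.exp_re]
    apply mul_nonneg (Real.exp_pos _).le
    apply Real.cos_nonneg_of_neg_pi_div_two_le_of_le
    · rw [Complex.mul_im, Complex.ofReal_im, Complex.ofReal_re, mul_zero, zero_add, Complex.log_im]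
      linarith [Complex.neg_pi_lt_arg (2 * μ)]
    · rw [Complex.mul_im, Complex.ofReal_im, Complex.ofReal_re, mul_zero, zero_add, Complex.log_im]
      linarith [Complex.arg_le_pi (2 * μ)]
  have h1 : (nZ μ).re ^ 2 - (nZ μ).im ^ 2 = (2 * μ).re := by
    rw [← hsq, pow_two (nZ μ), Complex.mul_re]; ring
  have h2 : |(nZ μ).im| ≤ (nZ μ).re := by
    apply abs_le_of_sq_le_sq' _ hre |> abs_le.mpr
    linarith
  refine ⟨hz, ?_, ?_⟩
  · rw [Complex.inv_re, Complex.inv_im, abs_div, abs_neg,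
      abs_of_nonneg (Complex.normSq_nonneg (nZ μ))]
    exact div_le_div_of_nonneg_right h2 (Complex.normSq_nonneg _)
  · rw [norm_inv, inv_pow, ← norm_pow, hsq]
    have h3 : 7 / 2 ≤ ‖2 * μ‖ := h.trans (Complex.re_le_norm _)
    have h4 : (1 / 2 : ℝ)⁻¹ = 2 := by norm_num
    rw [inv_le_comm₀ (by linarith) (by norm_num), h4]
    linarith

/-- model of `2 μ_k` -/
def m2V (c : Cfg) (u rr i : ℕ) (k : V3 → Bool) : Bool :=
  frc (Nat.add (Nat.add (Nat.mul 35 17592186044416) (Nat.mul c.BL (Nat.mul 336 17592186044416)))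
    (Nat.sub c.N (Nat.mul c.BL (Nat.add (Nat.mul (Nat.add u (Nat.mul 12 i)) 17592186044416)
      (Nat.mul (Nat.mul rr 17592186044416) c.B))))) fun W =>
  k ⟨W, Nat.mul 400 17592186044416, Nat.mul 400 17592186044416⟩

theorem m2V_spec (u rr i : ℕ) (hu : u ≤ 480) (hr : rr ≤ 4) (hi : i ≤ 16) (k : V3 → Bool)
    (hk : m2V cN u rr i k = true) : ∃ x, k x = true ∧ Md cN x (fun t => 2 * muF u rr i t) := by
  unfold m2V at hk
  rw [frc_eq] at hk
  refine ⟨_, hk, ?_⟩
  have hone : (cN.one : ℂ) = 175921860444160 := by rw [cN_one]; norm_num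
  have hone' : (cN.one : ℝ) = 175921860444160 := by rw [cN_one]; norm_num
  have hle : cN.BL * ((u + 12 * i) * 17592186044416 + rr * 17592186044416 * cN.B) ≤ cN.N := by
    have h1 : (u + 12 * i) * 17592186044416 + rr * 17592186044416 * cN.B ≤
        672 * 17592186044416 + 4 * 17592186044416 * cN.B := by
      gcongr
      omega
    have h2 : cN.BL * (672 * 17592186044416 + 4 * 17592186044416 * cN.B) ≤ cN.N := by
      decide +kernel
    exact (Nat.mul_le_mul_left _ h1).trans h2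
  have hub : |(u : ℤ) + 12 * i - 336| ≤ 336 := by
    rw [abs_le]; constructor <;> omega
  refine Md_lin cN_go.hp _ (35 * 17592186044416) 0
    ((336 - u - 12 * i) * 17592186044416) (-(rr * 17592186044416)) ?_ ?_ _ 0 _ fun t ht => ⟨?_, ?_⟩
  · have e2 : Nat.add (Nat.add (Nat.mul 35 17592186044416) (Nat.mul cN.BL (Nat.mul 336 17592186044416)))
      (Nat.sub cN.N (Nat.mul cN.BL (Nat.add (Nat.mul (Nat.add u (Nat.mul 12 i)) 17592186044416)
      (Nat.mul (Nat.mul rr 17592186044416) cN.B)))) =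
      35 * 17592186044416 + cN.BL * (336 * 17592186044416) +
        (cN.N - cN.BL * ((u + 12 * i) * 17592186044416 + rr * 17592186044416 * cN.B)) := rfl
    rw [e2, Nat.cast_add, Nat.cast_sub hle, Int.modEq_iff_dvd]
    exact ⟨-1, by push_cast; ring⟩
  · rw [cN_Mx]
    have h1 : |(336 - (u : ℤ) - 12 * i) * 17592186044416| ≤ 336 * 17592186044416 := by
      rw [abs_mul, abs_of_nonneg (show (0 : ℤ) ≤ 17592186044416 by norm_num)]
      have : |336 - (u : ℤ) - 12 * i| ≤ 336 := by rw [abs_le]; constructor <;> omega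
      linarith
    have h2 : |-((rr : ℤ) * 17592186044416)| ≤ 4 * 17592186044416 := by
      rw [abs_neg, abs_mul, abs_of_nonneg (show (0 : ℤ) ≤ 17592186044416 by norm_num),
        abs_of_nonneg (by positivity)]
      have : (rr : ℤ) ≤ 4 := by exact_mod_cast hr
      linarith
    rw [abs_zero, add_zero]
    norm_num at h1 h2 ⊢
    linarith
  · rw [hone, two_mu]
    have e : (175921860444160 : ℂ) * (⟨7 / 2, -(((u : ℝ) + 12 * i - 336 + rr * t) / 10)⟩ : ℂ) -
      ((((35 * 17592186044416 : ℤ) : ℂ) + ((0 : ℤ) : ℂ) * t) +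
      ((((336 - u - 12 * i) * 17592186044416 : ℤ) : ℂ) +
        ((-(rr * 17592186044416) : ℤ) : ℂ) * t) * Complex.I) = 0 := by
      apply Complex.ext
      · simp
        norm_num
      · simp
        ring
    rw [e, norm_zero]; simp
  · rw [hone', two_mu]
    have h1 : ‖(⟨7 / 2, -(((u : ℝ) + 12 * i - 336 + rr * t) / 10)⟩ : ℂ)‖ ≤ 40 := by
      refine (Complex.norm_le_abs_re_add_abs_im _).trans ?_
      simp only []
      have e7 : |(7 / 2 : ℝ)| = 7 / 2 := by norm_num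
      rw [e7, abs_neg, abs_div, abs_of_pos (show (0 : ℝ) < 10 by norm_num)]
      have h2 : |(u : ℝ) + 12 * i - 336 + rr * t| ≤ 340 := by
        have h3 : |(u : ℝ) + 12 * i - 336| ≤ 336 := by exact_mod_cast hub
        have h4 : |(rr : ℝ) * t| ≤ 4 := by
          rw [abs_mul, abs_of_nonneg (by positivity : (0 : ℝ) ≤ rr)]
          have : (rr : ℝ) ≤ 4 := by exact_mod_cast hr
          nlinarith [abs_nonneg t]
        exact (abs_add_le _ _).trans (by linarith)
      linarith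
    have e4 : ((Nat.mul 400 17592186044416 : ℕ) : ℝ) = 400 * 17592186044416 := by
      show (((400 * 17592186044416 : ℕ)) : ℝ) = _
      push_cast; ring
    rw [e4]
    linarith

/-- a start value `((a - 8192) + i (v - 8192)) / 1024` -/
def st3 (c : Cfg) (a v : ℕ) (k : V3 → Bool) : Bool :=
  chk (Nat.ble a 16384) (chk (Nat.ble v 16384)
    (frc (Nat.add (Nat.mul 171798691840 (Nat.add a (Nat.mul c.BL v)))
      (Nat.sub c.N (Nat.mul 171798691840 (Nat.mul 8192 (Nat.succ c.BL))))) fun W =>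
      k ⟨W, Nat.mul 32 c.one, Nat.mul 32 c.one⟩))

theorem st3_spec (a v : ℕ) (k : V3 → Bool) (hk : st3 cN a v k = true) :
    ∃ x w, k x = true ∧ Md cN x w := by
  unfold st3 at hk
  simp only [frc_eq, chk_true, Nat.ble_eq] at hk
  obtain ⟨h1, h2, h3⟩ := hk
  have hone : (cN.one : ℂ) ≠ 0 := by exact_mod_cast cN_go.hone.ne'
  have ha : |(171798691840 : ℤ) * ((a : ℤ) - 8192)| ≤ 171798691840 * 8192 := by
    rw [abs_mul, abs_of_nonneg (show (0 : ℤ) ≤ 171798691840 by norm_num)]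
    have : |(a : ℤ) - 8192| ≤ 8192 := by rw [abs_le]; constructor <;> omega
    linarith
  have hv : |(171798691840 : ℤ) * ((v : ℤ) - 8192)| ≤ 171798691840 * 8192 := by
    rw [abs_mul, abs_of_nonneg (show (0 : ℤ) ≤ 171798691840 by norm_num)]
    have : |(v : ℤ) - 8192| ≤ 8192 := by rw [abs_le]; constructor <;> omega
    linarith
  have hle : 171798691840 * (8192 * (cN.BL + 1)) ≤ cN.N := by decide +kernel
  refine ⟨_, fun _ => ((((171798691840 * ((a : ℤ) - 8192) : ℤ)) : ℂ) +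
    (((171798691840 * ((v : ℤ) - 8192) : ℤ)) : ℂ) * Complex.I) / cN.one, h3, ?_⟩
  refine Md_const cN_go.hp _ (171798691840 * ((a : ℤ) - 8192)) (171798691840 * ((v : ℤ) - 8192))
    ?_ ?_ _ 0 _ ?_ ?_
  · have e2 : Nat.add (Nat.mul 171798691840 (Nat.add a (Nat.mul cN.BL v)))
      (Nat.sub cN.N (Nat.mul 171798691840 (Nat.mul 8192 (Nat.succ cN.BL)))) =
      171798691840 * (a + cN.BL * v) + (cN.N - 171798691840 * (8192 * (cN.BL + 1))) := rfl
    rw [e2, Nat.cast_add, Nat.cast_sub hle, Int.modEq_iff_dvd]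
    exact ⟨-1, by push_cast; ring⟩
  · rw [cN_Mx]
    norm_num at ha hv ⊢
    linarith
  · rw [mul_div_cancel₀ _ hone, sub_self, norm_zero]; simp
  · rw [norm_div, Complex.norm_natCast, mul_div_cancel₀ _ (by exact_mod_cast cN_go.hone.ne')]
    refine (norm_add_le _ _).trans ?_
    rw [norm_mul, Complex.norm_I, mul_one, Complex.norm_intCast, Complex.norm_intCast]
    have e4 : ((Nat.mul 32 cN.one : ℕ) : ℝ) = 32 * 175921860444160 := by
      show (((32 * cN.one : ℕ)) : ℝ) = _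
      rw [cN_one]; push_cast; ring
    rw [e4]
    have ha' : |((171798691840 * ((a : ℤ) - 8192) : ℤ) : ℝ)| ≤ 171798691840 * 8192 := by
      rw [← Int.cast_abs]; exact_mod_cast ha
    have hv' : |((171798691840 * ((v : ℤ) - 8192) : ℤ) : ℝ)| ≤ 171798691840 * 8192 := by
      rw [← Int.cast_abs]; exact_mod_cast hv
    linarith

/-- models of `2 μ_k` and `1 / Z_k` -/
def sqL (c : Cfg) (u rr : ℕ) (d : List (ℕ × ℕ)) : ℕ → (List V3 → List V3 → Bool) → Bool :=
  List.rec (motive := fun _ => ℕ → (List V3 → List V3 → Bool) → Bool) (fun _ k => k [] [])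
    (fun p _ ih i k => m2V c u rr i fun m => st3 c p.1 p.2 fun y0 => sq3 c m 3 y0 fun x =>
      ih (Nat.succ i) fun lm lx => k (m :: lm) (x :: lx)) d

theorem sqL_cons (c : Cfg) (u rr : ℕ) (p : ℕ × ℕ) (d : List (ℕ × ℕ)) (i : ℕ)
    (k : List V3 → List V3 → Bool) : sqL c u rr (p :: d) i k = m2V c u rr i fun m =>
      st3 c p.1 p.2 fun y0 => sq3 c m 3 y0 fun x => sqL c u rr d (i + 1) fun lm lx =>
        k (m :: lm) (x :: lx) := rfl

theorem sqL_nil (c : Cfg) (u rr : ℕ) (i : ℕ)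
    (k : List V3 → List V3 → Bool) : sqL c u rr [] i k = k [] [] := rfl

theorem sqL_spec (u rr : ℕ) (hu : u ≤ 480) (hr : rr ≤ 4) (d : List (ℕ × ℕ)) : ∀ (i : ℕ),
    i + d.length ≤ 17 → ∀ k : List V3 → List V3 → Bool, sqL cN u rr d i k = true →
    ∃ lm lx, k lm lx = true ∧ lm.length = d.length ∧ lx.length = d.length ∧
      LM cN (fun j t => 2 * muF u rr j t) i lm ∧ LM cN (fun j t => (nZ (muF u rr j t))⁻¹) i lx := by
  induction d with
  | nil =>
    intro i _ k hk
    rw [sqL_nil] at hk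
    exact ⟨[], [], hk, rfl, rfl, trivial, trivial⟩
  | cons p d ih =>
    intro i hi k hk
    rw [sqL_cons] at hk
    simp only [List.length_cons] at hi
    obtain ⟨m, h1, h2⟩ := m2V_spec u rr i hu hr (by omega) _ hk
    obtain ⟨y0, w0, h3, h4⟩ := st3_spec p.1 p.2 _ h1
    have hre : ∀ t : ℝ, 7 / 2 ≤ (2 * muF u rr i t).re := by
      intro t; rw [two_mu]
    obtain ⟨x, h5, h6⟩ := sq3_spec cN_go h2 h4 3 (u := fun t => (nZ (muF u rr i t))⁻¹)
      (fun t _ => by
        obtain ⟨n1, n2, n3⟩ := nZ_spec (muF u rr i t) (hre t)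
        refine ⟨?_, n2, n3⟩
        rw [← nZ_sq]
        field_simp) _ h3
    obtain ⟨lm, lx, h7, h8, h9, h10, h11⟩ := ih (i + 1) (by omega) _ h5
    exact ⟨m :: lm, x :: lx, h7, by simp [h8], by simp [h9], ⟨h2, h10⟩, ⟨h6, h11⟩⟩

end MP_d1b55a.K
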