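import Pool.Agent.Lib.MP_d1b55a_co.NE5

/-!
MP_d1b55a_co, near arc, kernel engine, part 6: the lists of the sums `∑ c_k Z_k^e`, `e = -13 … 9`.
-/

open Finset Polynomial

namespace MP_d1b55a.K

/-- `l` models `F (n-1), …, F 0` -/
def LD (c : Cfg) (F : ℕ → ℝ → ℂ) : ℕ → List V3 → Prop
  | 0, l => l = []
  | n + 1, l => ∃ x l', l = x :: l' ∧ Md c x (F n) ∧ LD c F n l'

theorem LD.length {c : Cfg} {F : ℕ → ℝ → ℂ} : ∀ {n : ℕ} {l : List V3}, LD c F n l → l.length = n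
  | 0, l, h => by rw [LD] at h; rw [h]; rfl
  | n + 1, l, h => by
    obtain ⟨x, l', h1, _, h3⟩ := h
    rw [h1, List.length_cons, h3.length]

theorem LM.append {c : Cfg} {F : ℕ → ℝ → ℂ} : ∀ (l l' : List V3) (s : ℕ), LM c F s l →
    LM c F (s + l.length) l' → LM c F s (l ++ l')
  | [], l', s, _, h => by simpa using h
  | x :: l, l', s, h, h' => ⟨h.1, LM.append l l' (s + 1) h.2 (by
      rw [List.length_cons] at h'
      have : s + 1 + l.length = s + (l.length + 1) := by ring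
      rwa [this])⟩

theorem LD.rev {c : Cfg} {F : ℕ → ℝ → ℂ} : ∀ {n : ℕ} {l : List V3}, LD c F n l →
    LM c F 0 l.reverse
  | 0, l, h => by rw [LD] at h; rw [h]; trivial
  | n + 1, l, h => by
    obtain ⟨x, l', h1, h2, h3⟩ := h
    rw [h1, List.reverse_cons]
    refine LM.append _ _ 0 h3.rev ?_
    rw [List.length_reverse, h3.length, zero_add]
    exact ⟨h2, trivial⟩

theorem LD.desc {c : Cfg} {F : ℕ → ℝ → ℂ} (N : ℕ) : ∀ {n : ℕ} {l : List V3}, n ≤ N → LD c F n l →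
    LM c (fun i => F (N - 1 - i)) (N - n) l
  | 0, l, _, h => by rw [LD] at h; rw [h]; trivial
  | n + 1, l, hn, h => by
    obtain ⟨x, l', h1, h2, h3⟩ := h
    rw [h1]
    refine ⟨?_, ?_⟩
    · have : N - 1 - (N - (n + 1)) = n := by omega
      show Md c x (F (N - 1 - (N - (n + 1))))
      rw [this]; exact h2
    · have : N - (n + 1) + 1 = N - n := by omega
      rw [this]
      exact LD.desc N (by omega) h3

/-- one pair of sums -/
def stp (c : Cfg) (c0 cD P aw ad : List V3) (k : List V3 → List V3 → Bool) : Bool :=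
  dotN c c.one c0 P fun w => dotN c c.one cD P fun d => k (w :: aw) (d :: ad)

/-- loop of multiplications and sums -/
def lpw (c : Cfg) (c0 cD R : List V3) (n : ℕ) : List V3 → List V3 → List V3 →
    (List V3 → List V3 → Bool) → Bool :=
  Nat.rec (motive := fun _ => List V3 → List V3 → List V3 → (List V3 → List V3 → Bool) → Bool)
    (fun _ aw ad k => k aw ad)
    (fun _ ih P aw ad k => mulL c R P fun P' => stp c c0 cD P' aw ad fun aw' ad' =>
      ih P' aw' ad' k) n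

theorem lpw_zero (c : Cfg) (c0 cD R P aw ad : List V3) (k : List V3 → List V3 → Bool) :
    lpw c c0 cD R 0 P aw ad k = k aw ad := rfl

theorem lpw_succ (c : Cfg) (c0 cD R : List V3) (n : ℕ) (P aw ad : List V3)
    (k : List V3 → List V3 → Bool) : lpw c c0 cD R (n + 1) P aw ad k =
      mulL c R P fun P' => stp c c0 cD P' aw ad fun aw' ad' => lpw c c0 cD R n P' aw' ad' k := rfl

/-- the sum `∑ q_k f_k(t)` -/
noncomputable def sw (q : ℕ → ℂ) (f : ℕ → ℝ → ℂ) (t : ℝ) : ℂ := ∑ k ∈ range 17, q k * f k t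

section
variable {c : Cfg} (hg : c.Go) {A Bq : ℕ → ℂ} {c0 cD : List V3}
  (h0 : LM c (fun i _ => A i) 0 c0) (hD : LM c (fun i _ => Bq i) 0 cD)
  (l0 : c0.length = 17) (lD : cD.length = 17)
include hg h0 hD l0 lD

theorem stp_spec {f : ℕ → ℝ → ℂ} {P : List V3} (hP : LM c f 0 P) (lP : P.length = 17)
    {F G : ℕ → ℝ → ℂ} {n : ℕ} {aw ad : List V3} (ha : LD c F n aw) (hd : LD c G n ad)
    (hF : ∀ t, F n t = sw A f t) (hG : ∀ t, G n t = sw Bq f t) (k : List V3 → List V3 → Bool)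
    (hk : stp c c0 cD P aw ad k = true) :
    ∃ aw' ad', k aw' ad' = true ∧ LD c F (n + 1) aw' ∧ LD c G (n + 1) ad' := by
  unfold stp at hk
  have hone : (c.one : ℂ) ≠ 0 := by exact_mod_cast hg.hone.ne'
  obtain ⟨w, h1, h2⟩ := dotN_spec hg.toOk hg.hM hg.hone c0 P 0 0 h0 hP (by rw [l0, lP]; norm_num)
    _ hk
  obtain ⟨d, h3, h4⟩ := dotN_spec hg.toOk hg.hM hg.hone cD P 0 0 hD hP (by rw [lD, lP]; norm_num)
    _ h1
  refine ⟨w :: aw, d :: ad, h3, ⟨w, aw, rfl, h2.congr fun t _ => ?_, ha⟩,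
    ⟨d, ad, rfl, h4.congr fun t _ => ?_, hd⟩⟩
  · rw [hF, div_self hone, one_mul, l0, lP]
    simp [sw]
  · rw [hG, div_self hone, one_mul, lD, lP]
    simp [sw]

theorem lpw_spec {R : List V3} {h : ℕ → ℝ → ℂ} (hR : LM c h 0 R) (lR : R.length = 17)
    {f : ℕ → ℕ → ℝ → ℂ} (hf : ∀ j i t, f (j + 1) i t = h i t * f j i t)
    {F G : ℕ → ℝ → ℂ} (n : ℕ) : ∀ (j m : ℕ) (P aw ad : List V3), LM c (f j) 0 P → P.length = 17 →
    LD c F m aw → LD c G m ad → (∀ i t, F (m + i) t = sw A (f (j + 1 + i)) t) →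
    (∀ i t, G (m + i) t = sw Bq (f (j + 1 + i)) t) → ∀ k : List V3 → List V3 → Bool,
    lpw c c0 cD R n P aw ad k = true →
    ∃ aw' ad', k aw' ad' = true ∧ LD c F (m + n) aw' ∧ LD c G (m + n) ad' := by
  induction n with
  | zero =>
    intro j m P aw ad _ _ ha hd _ _ k hk
    rw [lpw_zero] at hk
    exact ⟨aw, ad, hk, ha, hd⟩
  | succ n ih =>
    intro j m P aw ad hP lP ha hd hF hG k hk
    rw [lpw_succ] at hk
    obtain ⟨P', h1, h2, h3⟩ := mulL_spec hg.toOk hg.hM R P 0 hR hP (by rw [lR, lP]) _ hk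
    have h4 : LM c (f (j + 1)) 0 P' := h3.congr 0 P' fun i t _ _ _ => hf j i t
    obtain ⟨aw', ad', h5, h6, h7⟩ := stp_spec hg h0 hD l0 lD h4 (by rw [h2, lR]) ha hd
      (fun t => by have := hF 0 t; simpa using this) (fun t => by have := hG 0 t; simpa using this)
      _ h1
    obtain ⟨aw2, ad2, h8, h9, h10⟩ := ih (j + 1) (m + 1) P' aw' ad' h4 (by rw [h2, lR]) h6 h7
      (fun i t => by
        have := hF (i + 1) t
        rw [show m + 1 + i = m + (i + 1) by ring, show j + 1 + 1 + i = j + 1 + (i + 1) by ring]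
        exact this)
      (fun i t => by
        have := hG (i + 1) t
        rw [show m + 1 + i = m + (i + 1) by ring, show j + 1 + 1 + i = j + 1 + (i + 1) by ring]
        exact this) k h5
    refine ⟨aw2, ad2, h8, ?_, ?_⟩
    · rw [show m + (n + 1) = m + 1 + n by ring]; exact h9
    · rw [show m + (n + 1) = m + 1 + n by ring]; exact h10

end

/-- `∑ q_k Z_k^e` -/
noncomputable def Wz (u rr : ℕ) (q : ℕ → ℂ) (e : ℤ) (t : ℝ) : ℂ :=
  ∑ k ∈ range 17, q k * nZ (muF u rr k t) ^ e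

/-- seventeen ones -/
def ones (c : Cfg) : List V3 := [one3 c, one3 c, one3 c, one3 c, one3 c, one3 c, one3 c, one3 c,
  one3 c, one3 c, one3 c, one3 c, one3 c, one3 c, one3 c, one3 c, one3 c]

/-- the lists of sums on a cell -/
def sSt (c : Cfg) (u rr : ℕ) (d : List (ℕ × ℕ))
    (k : List V3 → List V3 → List V3 → List V3 → Bool) : Bool :=
  cIL c 81920 q0 fun c0 => cIL c 81920 qD fun cD =>
  sqL c u rr d 0 fun lm lx =>
  mulL c lx lx fun x2 =>
  stp c c0 cD lx [] [] fun aw ad => lpw c c0 cD x2 6 lx aw ad fun aA dA =>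
  lpw c c0 cD lm 5 lx [] [] fun aB dB =>
  stp c c0 cD (ones c) [] [] fun aw ad => lpw c c0 cD lm 4 (ones c) aw ad fun aC dC =>
  k (revA (revA aA []) (revA aB [])) (revA (revA dA []) (revA dB [])) (revA aC []) (revA dC [])

theorem LM.shift {c : Cfg} {F G : ℕ → ℝ → ℂ} : ∀ (l : List V3) (s r : ℕ), LM c F s l →
    (∀ i, G (r + i) = F (s + i)) → LM c G r l
  | [], _, _, _, _ => trivial
  | x :: l, s, r, h, hG => ⟨by have := hG 0; rw [add_zero, add_zero] at this; rw [this]; exact h.1,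
      LM.shift l (s + 1) (r + 1) h.2 fun i => by
        have := hG (i + 1)
        rw [show r + 1 + i = r + (i + 1) by ring, show s + 1 + i = s + (i + 1) by ring]
        exact this⟩

/-- the odd sums -/
theorem LD.odd {c : Cfg} {u rr : ℕ} {q : ℕ → ℂ} {aA aB : List V3}
    (hA : LD c (fun j => Wz u rr q (-1 - 2 * (j : ℤ))) 7 aA)
    (hB : LD c (fun j => Wz u rr q (2 * (j : ℤ) + 1)) 5 aB) :
    LM c (fun i => Wz u rr q (2 * (i : ℤ) - 13)) 0 (revA (revA aA []) (revA aB [])) ∧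
      (revA (revA aA []) (revA aB [])).length = 12 := by
  have e : revA (revA aA []) (revA aB []) = aA ++ aB.reverse := by
    simp [revA_eq]
  rw [e]
  refine ⟨LM.append _ _ 0 ?_ ?_, by rw [List.length_append, List.length_reverse, hA.length,
    hB.length]⟩
  · have h1 := LD.desc 7 le_rfl hA
    refine h1.congr _ _ fun i t _ hi _ => ?_
    rw [hA.length] at hi
    have h2 : i ≤ 6 := by omega
    have h3 : ((7 - 1 - i : ℕ) : ℤ) = 6 - i := by omega
    simp only [h3]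
    congr 1
    ring
  · rw [hA.length]
    refine LM.shift _ 0 _ hB.rev fun i => ?_
    simp only [zero_add]
    congr 1
    push_cast
    ring

theorem LD.even {c : Cfg} {u rr : ℕ} {q : ℕ → ℂ} {aC : List V3}
    (hC : LD c (fun j => Wz u rr q (2 * (j : ℤ))) 5 aC) :
    LM c (fun i => Wz u rr q (2 * (i : ℤ))) 0 (revA aC []) ∧ (revA aC []).length = 5 := by
  have e : revA aC [] = aC.reverse := by simp [revA_eq]
  rw [e]
  exact ⟨hC.rev, by rw [List.length_reverse, hC.length]⟩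

theorem ones_spec {c : Cfg} (hg : c.Go) : LM c (fun _ _ => 1) 0 (ones c) := by
  have h := one3_spec hg
  exact ⟨h, h, h, h, h, h, h, h, h, h, h, h, h, h, h, h, h, trivial⟩

theorem q0_len : q0.length = 17 := rfl
theorem qD_len : qD.length = 17 := rfl
theorem ones_len (c : Cfg) : (ones c).length = 17 := rfl

/-- the four lists -/
structure SL (c : Cfg) (u rr : ℕ) (Lo Do Le De : List V3) : Prop where
  h1 : LM c (fun i => Wz u rr (nc 0) (2 * (i : ℤ) - 13)) 0 Lo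
  h2 : LM c (fun i => Wz u rr (fun k => nc 1 k - nc 0 k) (2 * (i : ℤ) - 13)) 0 Do
  h3 : LM c (fun i => Wz u rr (nc 0) (2 * (i : ℤ))) 0 Le
  h4 : LM c (fun i => Wz u rr (fun k => nc 1 k - nc 0 k) (2 * (i : ℤ))) 0 De
  l1 : Lo.length = 12
  l2 : Do.length = 12
  l3 : Le.length = 5
  l4 : De.length = 5

theorem zA (z : ℂ) (hz : z ≠ 0) (j : ℕ) : z ^ (-1 - 2 * ((j + 1 : ℕ) : ℤ)) =
    z⁻¹ * z⁻¹ * z ^ (-1 - 2 * (j : ℤ)) := by
  have e : (-1 - 2 * ((j + 1 : ℕ) : ℤ)) = -1 + (-1 + (-1 - 2 * (j : ℤ))) := by push_cast; ring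
  rw [e, zpow_add₀ hz, zpow_add₀ hz, zpow_neg_one, mul_assoc]

theorem zB (μ : ℂ) (hz : nZ μ ≠ 0) (e e' : ℤ) (he : e' = 2 + e) :
    nZ μ ^ e' = 2 * μ * nZ μ ^ e := by
  rw [he, zpow_add₀ hz, ← nZ_sq]
  norm_cast

theorem sSt_spec (u rr : ℕ) (hu : u ≤ 480) (hr : rr ≤ 4) (d : List (ℕ × ℕ)) (hd : d.length = 17)
    (k : List V3 → List V3 → List V3 → List V3 → Bool) (hk : sSt cN u rr d k = true) :
    ∃ Lo Do Le De, k Lo Do Le De = true ∧ SL cN u rr Lo Do Le De := by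
  unfold sSt at hk
  have hg := cN_go
  obtain ⟨c0, a1, a2, a3⟩ := cIL_spec hg 81920 q0 0 q0_ok _ hk
  obtain ⟨cD, b1, b2, b3⟩ := cIL_spec hg 81920 qD 0 qD_ok _ a1
  obtain ⟨lm, lx, s1, s2, s3, s4, s5⟩ := sqL_spec u rr hu hr d 0 (by omega) _ b1
  rw [q0_len] at a2
  rw [qD_len] at b2
  rw [hd] at s2 s3
  obtain ⟨x2, m1, m2, m3⟩ := mulL_spec hg.toOk hg.hM lx lx 0 s5 s5 rfl _ s1
  have hne : ∀ i t, nZ (muF u rr i t) ≠ 0 := fun i t =>
    (nZ_spec (muF u rr i t) (by rw [two_mu])).1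
  -- first family
  have sA1 : LM cN (fun i t => nZ (muF u rr i t) ^ (-1 - 2 * ((0 : ℕ) : ℤ))) 0 lx :=
    s5.congr _ _ fun i t _ _ _ => by
      rw [Nat.cast_zero, mul_zero, sub_zero, zpow_neg_one]
  obtain ⟨aw, ad, t1, t2, t3⟩ := stp_spec hg a3 b3 a2 b2 (f := fun i t => nZ (muF u rr i t) ^
    (-1 - 2 * ((0 : ℕ) : ℤ))) (P := lx) sA1 s3
    (F := fun j => Wz u rr (nc 0) (-1 - 2 * (j : ℤ)))
    (G := fun j => Wz u rr (fun k => nc 1 k - nc 0 k) (-1 - 2 * (j : ℤ)))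
    (n := 0) (aw := []) (ad := []) rfl rfl (fun t => rfl) (fun t => rfl) _ m1
  obtain ⟨aA, dA, u1, u2, u3⟩ := lpw_spec hg a3 b3 a2 b2 (R := x2)
    (h := fun i t => (nZ (muF u rr i t))⁻¹ * (nZ (muF u rr i t))⁻¹) m3 (by rw [m2, s3])
    (f := fun j i t => nZ (muF u rr i t) ^ (-1 - 2 * (j : ℤ)))
    (fun j i t => zA _ (hne i t) j)
    (F := fun j => Wz u rr (nc 0) (-1 - 2 * (j : ℤ)))
    (G := fun j => Wz u rr (fun k => nc 1 k - nc 0 k) (-1 - 2 * (j : ℤ)))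
    6 0 1 lx aw ad sA1 s3 t2 t3
    (fun i t => by rw [Nat.zero_add]; rfl) (fun i t => by rw [Nat.zero_add]; rfl) _ t1
  -- second family
  have hB : ∀ j i t, nZ (muF u rr i t) ^ (2 * ((j + 1 : ℕ) : ℤ) - 1) =
      2 * muF u rr i t * nZ (muF u rr i t) ^ (2 * (j : ℤ) - 1) := by
    intro j i t
    exact zB _ (hne i t) _ _ (by push_cast; ring)
  have sB1 : LM cN (fun i t => nZ (muF u rr i t) ^ (2 * ((0 : ℕ) : ℤ) - 1)) 0 lx :=
    s5.congr _ _ fun i t _ _ _ => by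
      rw [Nat.cast_zero, mul_zero, zero_sub, zpow_neg_one]
  obtain ⟨aB, dB, v1, v2, v3⟩ := lpw_spec hg a3 b3 a2 b2 (R := lm)
    (h := fun i t => 2 * muF u rr i t) s4 s2
    (f := fun j i t => nZ (muF u rr i t) ^ (2 * (j : ℤ) - 1)) hB
    (F := fun j => Wz u rr (nc 0) (2 * (j : ℤ) + 1))
    (G := fun j => Wz u rr (fun k => nc 1 k - nc 0 k) (2 * (j : ℤ) + 1))
    5 0 0 lx [] [] sB1 s3 rfl rfl
    (fun i t => by
      have e : (2 * ((0 + 1 + i : ℕ) : ℤ) - 1) = 2 * ((0 + i : ℕ) : ℤ) + 1 := by push_cast; ring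
      simp only [sw, Wz, e])
    (fun i t => by
      have e : (2 * ((0 + 1 + i : ℕ) : ℤ) - 1) = 2 * ((0 + i : ℕ) : ℤ) + 1 := by push_cast; ring
      simp only [sw, Wz, e]) _ u1
  -- third family
  have hC : ∀ j i t, nZ (muF u rr i t) ^ (2 * ((j + 1 : ℕ) : ℤ)) =
      2 * muF u rr i t * nZ (muF u rr i t) ^ (2 * (j : ℤ)) := by
    intro j i t
    exact zB _ (hne i t) _ _ (by push_cast; ring)
  have sC1 : LM cN (fun i t => nZ (muF u rr i t) ^ (2 * ((0 : ℕ) : ℤ))) 0 (ones cN) :=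
    (ones_spec hg).congr _ _ fun i t _ _ _ => by
      rw [Nat.cast_zero, mul_zero, zpow_zero]
  obtain ⟨aw', ad', w1, w2, w3⟩ := stp_spec hg a3 b3 a2 b2 (f := fun i t => nZ (muF u rr i t) ^
    (2 * ((0 : ℕ) : ℤ))) (P := ones cN) sC1 (ones_len cN)
    (F := fun j => Wz u rr (nc 0) (2 * (j : ℤ)))
    (G := fun j => Wz u rr (fun k => nc 1 k - nc 0 k) (2 * (j : ℤ)))
    (n := 0) (aw := []) (ad := []) rfl rfl (fun t => rfl) (fun t => rfl) _ v1
  obtain ⟨aC, dC, x1, x2', x3⟩ := lpw_spec hg a3 b3 a2 b2 (R := lm)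
    (h := fun i t => 2 * muF u rr i t) s4 s2
    (f := fun j i t => nZ (muF u rr i t) ^ (2 * (j : ℤ))) hC
    (F := fun j => Wz u rr (nc 0) (2 * (j : ℤ)))
    (G := fun j => Wz u rr (fun k => nc 1 k - nc 0 k) (2 * (j : ℤ)))
    4 0 1 (ones cN) aw' ad' sC1 (ones_len cN) w2 w3
    (fun i t => by rw [Nat.zero_add]; rfl) (fun i t => by rw [Nat.zero_add]; rfl) _ w1
  have r1 := LD.odd u2 v2
  have r2 := LD.odd u3 v3
  have r3 := LD.even x2'
  have r4 := LD.even x3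
  exact ⟨_, _, _, _, x1, r1.1, r2.1, r3.1, r4.1, r1.2, r2.2, r3.2, r4.2⟩

end MP_d1b55a.K
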