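import Pool.Agent.Lib.MP_d1b55a_co.NE6

/-!
MP_d1b55a_co, near arc, kernel engine, part 7: constants that depend on `ε`, the sums `nA0`.
-/

open Finset Polynomial

namespace MP_d1b55a.K

/-- `⌊one * A * (n * 1803 / 400000)^m / D⌋` -/
def fN (c : Cfg) (A D m n : ℕ) : ℕ :=
  Nat.div (Nat.mul (Nat.mul c.one A) (Nat.pow (Nat.mul n 1803) m)) (Nat.mul D (Nat.pow 400000 m))

/-- model of `± A / D * ε^m`, `ε` in the cell number `i` -/
def cst (c : Cfg) (sg : Bool) (A D m i : ℕ) (k : V3 → Bool) : Bool :=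
  frc (fN c A D m (Nat.mul 2 i)) fun x0 => frc (fN c A D m (Nat.succ (Nat.mul 2 i))) fun x =>
  frc (Nat.succ (fN c A D m (Nat.succ (Nat.succ (Nat.mul 2 i))))) fun y =>
  frc (Nat.add (Nat.sub y x) (Nat.sub (Nat.sub x x0) (Nat.sub y x))) fun e =>
  frc (Bool.rec (motive := fun _ => ℕ) x (Nat.sub c.N x) sg) fun W => frc (Nat.add y e) fun S =>
  chk (Nat.ble (Nat.add x y) c.Mx) (k ⟨W, y, S⟩)

/-- the cell number `i` of `ε` -/
def inC (ε : ℝ) (i : ℕ) : Prop := (2 * i : ℕ) * 1803 / 400000 ≤ ε ∧ ε ≤ (2 * i + 2 : ℕ) * 1803 / 400000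

/-- value of an entry of the tables -/
noncomputable def tv (d : Bool × ℕ × ℕ × ℕ) (ε : ℝ) : ℂ :=
  (if d.1 then (-1 : ℂ) else 1) * ((d.2.1 : ℂ) / d.2.2.1) * (ε : ℂ) ^ d.2.2.2

theorem fN_spec (c : Cfg) (A D m n : ℕ) (hD : 0 < D) :
    (fN c A D m n : ℝ) ≤ c.one * (A / D * ((n : ℝ) * 1803 / 400000) ^ m) ∧
    c.one * (A / D * ((n : ℝ) * 1803 / 400000) ^ m) ≤ (fN c A D m n : ℝ) + 1 := by
  have h0 : fN c A D m n = (c.one * A * (n * 1803) ^ m) / (D * 400000 ^ m) := rfl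
  rw [h0]
  have hp : 0 < D * 400000 ^ m := by positivity
  have e : (c.one : ℝ) * (A / D * ((n : ℝ) * 1803 / 400000) ^ m) =
      ((c.one * A * (n * 1803) ^ m : ℕ) : ℝ) / ((D * 400000 ^ m : ℕ) : ℝ) := by
    have hD' : (D : ℝ) ≠ 0 := by exact_mod_cast hD.ne'
    push_cast
    rw [div_pow]
    field_simp
  rw [e]
  exact ⟨Nat.cast_div_le, div_floor _ _ hp⟩

theorem cst_spec {c : Cfg} (hg : c.Go) (sg : Bool) (A D m i : ℕ) (hD : 0 < D) (ε : ℝ)
    (hε : inC ε i) (k : V3 → Bool) (hk : cst c sg A D m i k = true) :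
    ∃ x, k x = true ∧ Md c x (fun _ => tv (sg, A, D, m) ε) := by
  unfold cst at hk
  simp only [frc_eq, chk_true, Nat.ble_eq] at hk
  obtain ⟨h1, h2⟩ := hk
  refine ⟨_, h2, ?_⟩
  obtain ⟨l1, l2⟩ := hε
  have hε0 : 0 ≤ ε := le_trans (by positivity) l1
  have e0 : fN c A D m (Nat.mul 2 i) = fN c A D m (2 * i) := rfl
  have e1 : fN c A D m (Nat.succ (Nat.mul 2 i)) = fN c A D m (2 * i + 1) := rfl
  have e2 : Nat.succ (fN c A D m (Nat.succ (Nat.succ (Nat.mul 2 i)))) =
    fN c A D m (2 * i + 2) + 1 := rfl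
  rw [e0, e1, e2] at *
  set x0 := fN c A D m (2 * i) with hx0
  set x := fN c A D m (2 * i + 1) with hx
  set y := fN c A D m (2 * i + 2) + 1 with hy
  set R : ℝ := A / D * ε ^ m with hR
  have hR0 : 0 ≤ R := by positivity
  have hlow : (x0 : ℝ) ≤ c.one * R := by
    refine (fN_spec c A D m (2 * i) hD).1.trans ?_
    have := pow_le_pow_left₀ (by positivity) l1 m
    have h3 : (A : ℝ) / D * (((2 * i : ℕ) : ℝ) * 1803 / 400000) ^ m ≤ R :=
      mul_le_mul_of_nonneg_left this (by positivity)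
    exact mul_le_mul_of_nonneg_left h3 (by positivity)
  have hup : c.one * R ≤ (y : ℝ) := by
    have h4 := (fN_spec c A D m (2 * i + 2) hD).2
    have := pow_le_pow_left₀ hε0 l2 m
    have h3 : R ≤ (A : ℝ) / D * (((2 * i + 2 : ℕ) : ℝ) * 1803 / 400000) ^ m :=
      mul_le_mul_of_nonneg_left this (by positivity)
    have h5 := mul_le_mul_of_nonneg_left h3 (by positivity : (0 : ℝ) ≤ c.one)
    rw [hy]
    push_cast at h4 h5 ⊢
    linarith
  have h1' : x + y ≤ c.Mx := h1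
  set e := Nat.add (Nat.sub y x) (Nat.sub (Nat.sub x x0) (Nat.sub y x)) with he
  have he1 : y - x ≤ e := by
    have : e = (y - x) + ((x - x0) - (y - x)) := rfl
    omega
  have he2 : x - x0 ≤ e := by
    have : e = (y - x) + ((x - x0) - (y - x)) := rfl
    omega
  have hd1 : c.one * R - x ≤ e := by
    have h3 : (y : ℝ) ≤ x + e := by exact_mod_cast (by omega : y ≤ x + e)
    linarith
  have hd2 : (x : ℝ) - c.one * R ≤ e := by
    have h3 : (x : ℝ) ≤ x0 + e := by exact_mod_cast (by omega : x ≤ x0 + e)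
    linarith
  have hN := BLMx_le hg
  have hBL := hg.toOk.BL_pos
  have hxN : x ≤ c.N := by
    have : 1 * c.Mx ≤ c.BL * c.Mx := Nat.mul_le_mul_right _ hBL
    omega
  have hMx : (x : ℤ) ≤ c.Mx := by exact_mod_cast (by omega : x ≤ c.Mx)
  have hnorm : (c.one : ℝ) * ‖tv (sg, A, D, m) ε‖ = c.one * R := by
    congr 1
    unfold tv
    cases sg
    · simp only [Bool.false_eq_true, if_false, one_mul, norm_mul, norm_div, Complex.norm_natCast,
        norm_pow, Complex.norm_real, Real.norm_eq_abs, abs_of_nonneg hε0]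
      rw [hR]
    · simp only [if_true, norm_mul, norm_neg, norm_one, one_mul, norm_div, Complex.norm_natCast,
        norm_pow, Complex.norm_real, Real.norm_eq_abs, abs_of_nonneg hε0]
      rw [hR]
  cases sg with
  | false =>
    refine Md_const hg.hp _ x 0 (by simp) (by simpa using hMx) y e _ ?_ (by rw [hnorm]; exact hup)
    have e3 : (c.one : ℂ) * tv (false, A, D, m) ε - (((x : ℤ) : ℂ) + ((0 : ℤ) : ℂ) * Complex.I) =
        ((c.one * R - x : ℝ) : ℂ) := by
      unfold tv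
      simp only [Bool.false_eq_true, if_false, hR]
      push_cast
      ring
    rw [e3, Complex.norm_real, Real.norm_eq_abs, abs_le]
    constructor <;> linarith
  | true =>
    refine Md_const hg.hp _ (-x) 0 ?_ (by simpa using hMx) y e _ ?_ (by rw [hnorm]; exact hup)
    · have e4 : ((Bool.rec (motive := fun _ => ℕ) x (Nat.sub c.N x) true : ℕ) : ℤ) =
        ((c.N - x : ℕ) : ℤ) := rfl
      rw [e4, Nat.cast_sub hxN, Int.modEq_iff_dvd]
      exact ⟨-1, by ring⟩
    · have e3 : (c.one : ℂ) * tv (true, A, D, m) ε - (((-(x : ℤ) : ℤ) : ℂ) + ((0 : ℤ) : ℂ) * Complex.I) =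
          ((-(c.one * R - x) : ℝ) : ℂ) := by
        unfold tv
        simp only [if_true, hR]
        push_cast
        ring
      rw [e3, Complex.norm_real, Real.norm_eq_abs, abs_neg, abs_le]
      constructor <;> linarith

/-- lists of constants -/
def csL (c : Cfg) (i : ℕ) (l : List (Bool × ℕ × ℕ × ℕ)) : (List V3 → Bool) → Bool :=
  List.rec (motive := fun _ => (List V3 → Bool) → Bool) (fun k => k [])
    (fun d _ ih k => cst c d.1 d.2.1 d.2.2.1 d.2.2.2 i fun x => ih fun xs => k (x :: xs)) l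

/-- the entries of the table are `F s, F (s+1), …` -/
def LT (F : ℕ → ℝ → ℂ) : ℕ → List (Bool × ℕ × ℕ × ℕ) → Prop
  | _, [] => True
  | s, d :: l => ((∀ ε, tv d ε = F s ε) ∧ 0 < d.2.2.1) ∧ LT F (s + 1) l

theorem csL_spec {c : Cfg} (hg : c.Go) (i : ℕ) (ε : ℝ) (hε : inC ε i) {F : ℕ → ℝ → ℂ} :
    ∀ (l : List (Bool × ℕ × ℕ × ℕ)) (s : ℕ), LT F s l → ∀ k : List V3 → Bool,
    csL c i l k = true → ∃ r, k r = true ∧ r.length = l.length ∧ LM c (fun j _ => F j ε) s r
  | [], s, _, k, hk => ⟨[], hk, rfl, trivial⟩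
  | d :: l, s, h, k, hk => by
    have h0 : csL c i (d :: l) k = cst c d.1 d.2.1 d.2.2.1 d.2.2.2 i fun x =>
      csL c i l fun xs => k (x :: xs) := rfl
    rw [h0] at hk
    obtain ⟨x, h1, h2⟩ := cst_spec hg d.1 d.2.1 d.2.2.1 d.2.2.2 i h.1.2 ε hε _ hk
    obtain ⟨r, h3, h4, h5⟩ := csL_spec hg i ε hε l (s + 1) h.2 _ h1
    exact ⟨x :: r, h3, by simp [h4], h2.congr fun t _ => (h.1.1 ε).symm, h5⟩

/-- multiplication by `ε² * 10000 / 209` -/
def td (d : Bool × ℕ × ℕ × ℕ) : Bool × ℕ × ℕ × ℕ := (d.1, Nat.mul 10000 d.2.1, Nat.mul 209 d.2.2.1,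
  Nat.succ (Nat.succ d.2.2.2))

theorem td_spec (d : Bool × ℕ × ℕ × ℕ) (ε : ℝ) :
    tv (td d) ε = tv d ε * (((ε ^ 2 / nh2 : ℝ)) : ℂ) := by
  obtain ⟨sg, A, D, m⟩ := d
  have e1 : td (sg, A, D, m) = (sg, 10000 * A, 209 * D, m + 2) := rfl
  rw [e1]
  unfold tv nh2
  simp only
  push_cast
  rw [pow_add]
  by_cases hD : (D : ℂ) = 0
  · rw [hD]; simp
  · field_simp

theorem LT.td {F : ℕ → ℝ → ℂ} : ∀ (l : List (Bool × ℕ × ℕ × ℕ)) (s : ℕ), LT F s l →
    LT (fun i ε => F i ε * (((ε ^ 2 / nh2 : ℝ)) : ℂ)) s (l.map td)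
  | [], _, _ => trivial
  | d :: l, s, h => ⟨⟨fun ε => by rw [td_spec, h.1.1 ε], by
      have : 0 < 209 * d.2.2.1 := by have := h.1.2; omega
      exact this⟩, LT.td l (s + 1) h.2⟩

/-- coefficients at even powers -/
def tE1 : List (List (Bool × ℕ × ℕ × ℕ)) :=
  [[(false, 1, 1, 0),
    (false, 1, 12, 2),
    (false, 1, 864, 4),
    (true, 139, 777600, 6),
    (true, 571, 261273600, 8),
    (false, 163879, 197522841600, 10)],
   [(false, 1, 1, 0),
    (true, 1, 12, 2),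
    (true, 1, 288, 4),
    (false, 139, 155520, 6),
    (false, 571, 37324800, 8),
    (true, 163879, 21946982400, 10)],
   [(false, 3, 1, 0),
    (true, 1, 12, 2),
    (false, 1, 288, 4),
    (true, 139, 51840, 6),
    (true, 571, 7464960, 8),
    (false, 163879, 3135283200, 10)],
   [(false, 15, 1, 0),
    (true, 1, 4, 2),
    (false, 1, 288, 4),
    (false, 139, 51840, 6),
    (false, 571, 2488320, 8),
    (true, 163879, 627056640, 10)],
   [(false, 105, 1, 0),
    (true, 5, 4, 2),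
    (false, 1, 96, 4),
    (false, 139, 51840, 6),
    (true, 571, 2488320, 8),
    (false, 163879, 209018880, 10)],
   [(false, 945, 1, 0),
    (true, 35, 4, 2),
    (false, 5, 96, 4),
    (false, 139, 17280, 6),
    (true, 571, 2488320, 8),
    (true, 163879, 209018880, 10)],
   [(false, 10395, 1, 0),
    (true, 315, 4, 2),
    (false, 35, 96, 4),
    (false, 139, 3456, 6),
    (true, 571, 829440, 8),
    (true, 163879, 209018880, 10)]]

/-- coefficients at odd powers -/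
def tO1 : List (List (Bool × ℕ × ℕ × ℕ)) :=
  [[(false, 1, 3, 1),
    (false, 2, 135, 3),
    (true, 1, 2835, 5),
    (true, 1, 25515, 7),
    (false, 281, 151559100, 9)],
   [(true, 4, 135, 3),
    (false, 4, 2835, 5),
    (false, 2, 8505, 7),
    (true, 562, 37889775, 9)],
   [(true, 8, 2835, 5),
    (true, 8, 8505, 7),
    (false, 1124, 12629925, 9)],
   [(false, 16, 8505, 7),
    (true, 4496, 12629925, 9)],
   [(false, 8992, 12629925, 9)],
   [],
   []]


/-- encoding of a rational number -/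
def enc (q : ℚ) (m : ℕ) : Bool × ℕ × ℕ × ℕ := (decide (q < 0), q.num.natAbs, q.den, m)

theorem enc_tv (q : ℚ) (m : ℕ) (ε : ℝ) : tv (enc q m) ε = (q : ℂ) * (ε : ℂ) ^ m := by
  unfold tv enc
  simp only
  congr 1
  have hq : ((q.num : ℤ) : ℂ) / q.den = (q : ℂ) := by
    conv_rhs => rw [← Rat.num_div_den q]
    push_cast
    rfl
  obtain ⟨n, hn⟩ : ∃ n : ℕ, n = q.num.natAbs := ⟨_, rfl⟩
  rw [← hn]
  by_cases h : q < 0
  · have h1 : (n : ℤ) = -q.num := by
      have := Rat.num_neg.mpr h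
      omega
    have h2 : (n : ℂ) = -(q.num : ℂ) := by exact_mod_cast congrArg (Int.cast (R := ℂ)) h1
    simp only [h, decide_true, if_true, h2]
    rw [← hq]; ring
  · have h1 : (n : ℤ) = q.num := by
      have : 0 ≤ q.num := Rat.num_nonneg.mpr (not_lt.mp h)
      omega
    have h2 : (n : ℂ) = (q.num : ℂ) := by exact_mod_cast congrArg (Int.cast (R := ℂ)) h1
    simp only [h, decide_false, Bool.false_eq_true, if_false, h2]
    rw [← hq]; ring

theorem LT_enc (q : ℕ → ℚ) (m : ℕ → ℕ) : ∀ (n s : ℕ),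
    LT (fun i ε => (q i : ℂ) * (ε : ℂ) ^ m i) s ((List.range' s n).map fun i => enc (q i) (m i))
  | 0, _ => trivial
  | n + 1, s => by
    rw [List.range'_succ, List.map_cons]
    exact ⟨⟨fun ε => enc_tv _ _ _, (q s).den_pos⟩, LT_enc q m n (s + 1)⟩

theorem tE1_eq : ∀ j < 7, tE1.getD j [] = (List.range' 0 6).map fun i =>
    enc (nr (2 * i) * (npf (2 * i) j : ℤ)) (2 * i) := by decide +kernel

theorem tO1_eq : ∀ j < 7, tO1.getD j [] = (List.range' 0 (5 - j)).map fun i =>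
    enc (nr (2 * j + 1 + 2 * i) * (npf (2 * j + 1 + 2 * i) j : ℤ)) (2 * j + 1 + 2 * i) := by
  decide +kernel

end MP_d1b55a.K
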