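import Pool.Agent.Lib.MP_d1b55a_co.NE7

/-!
MP_d1b55a_co, near arc, kernel engine, part 8: the models of `nA0 ε j`.
-/

open Finset Polynomial

namespace MP_d1b55a.K

/-- four lists of constants -/
structure Q4 where
  g : List V3
  gp : List V3
  dd : List V3
  dp : List V3

/-- coefficient of `ε^m W_{m-1-2j}` -/
def cq (j m : ℕ) : ℚ := nr m * (npf m j : ℤ)

structure Q4ok (c : Cfg) (ε : ℝ) (j : ℕ) (q : Q4) : Prop where
  h1 : LM c (fun i _ => (cq j (2 * i) : ℂ) * (ε : ℂ) ^ (2 * i)) 0 q.g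
  h2 : LM c (fun i _ => (cq j (2 * j + 1 + 2 * i) : ℂ) * (ε : ℂ) ^ (2 * j + 1 + 2 * i)) 0 q.gp
  h3 : LM c (fun i _ => (cq j (2 * i) : ℂ) * (ε : ℂ) ^ (2 * i) * (((ε ^ 2 / nh2 : ℝ)) : ℂ)) 0 q.dd
  h4 : LM c (fun i _ => (cq j (2 * j + 1 + 2 * i) : ℂ) * (ε : ℂ) ^ (2 * j + 1 + 2 * i) *
    (((ε ^ 2 / nh2 : ℝ)) : ℂ)) 0 q.dp
  l1 : q.g.length = 6
  l2 : q.gp.length = 5 - j
  l3 : q.dd.length = 6
  l4 : q.dp.length = 5 - j

/-- the constants of index `j` on the cell `i` -/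
def ecJ (c : Cfg) (i j : ℕ) (k : Q4 → Bool) : Bool :=
  csL c i (tE1.getD j []) fun g => csL c i (tO1.getD j []) fun gp =>
  csL c i ((tE1.getD j []).map td) fun dd => csL c i ((tO1.getD j []).map td) fun dp =>
  k ⟨g, gp, dd, dp⟩

theorem ecJ_spec {c : Cfg} (hg : c.Go) (i j : ℕ) (hj : j < 7) (ε : ℝ) (hε : inC ε i)
    (k : Q4 → Bool) (hk : ecJ c i j k = true) : ∃ q, k q = true ∧ Q4ok c ε j q := by
  unfold ecJ at hk
  have t1 : LT (fun i ε => (cq j (2 * i) : ℂ) * (ε : ℂ) ^ (2 * i)) 0 (tE1.getD j []) := by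
    rw [tE1_eq j hj]
    exact LT_enc (fun i => cq j (2 * i)) (fun i => 2 * i) 6 0
  have t2 : LT (fun i ε => (cq j (2 * j + 1 + 2 * i) : ℂ) * (ε : ℂ) ^ (2 * j + 1 + 2 * i)) 0
      (tO1.getD j []) := by
    rw [tO1_eq j hj]
    exact LT_enc (fun i => cq j (2 * j + 1 + 2 * i)) (fun i => 2 * j + 1 + 2 * i) (5 - j) 0
  have n1 : (tE1.getD j []).length = 6 := by rw [tE1_eq j hj]; simp
  have n2 : (tO1.getD j []).length = 5 - j := by rw [tO1_eq j hj]; simp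
  obtain ⟨g, a1, a2, a3⟩ := csL_spec hg i ε hε _ 0 t1 _ hk
  obtain ⟨gp, b1, b2, b3⟩ := csL_spec hg i ε hε _ 0 t2 _ a1
  obtain ⟨dd, c1, c2, c3⟩ := csL_spec hg i ε hε _ 0 (LT.td _ 0 t1) _ b1
  obtain ⟨dp, d1, d2, d3⟩ := csL_spec hg i ε hε _ 0 (LT.td _ 0 t2) _ c1
  refine ⟨_, d1, a3, b3, c3, d3, by rw [a2, n1], by rw [b2, n2], ?_, ?_⟩
  · rw [c2, List.length_map, n1]
  · rw [d2, List.length_map, n2]

/-- expansion of `nA0` -/
theorem nA0_expand (ε : ℝ) (j u rr : ℕ) (t : ℝ) :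
    nA0 ε j (Bs (sA u rr t)) = ∑ m ∈ range 11, (cq j m : ℂ) * (ε : ℂ) ^ m *
      (Wz u rr (nc 0) ((m : ℤ) - 1 - 2 * (j : ℤ)) t + (((ε ^ 2 / nh2 : ℝ)) : ℂ) *
        Wz u rr (fun k => nc 1 k - nc 0 k) ((m : ℤ) - 1 - 2 * (j : ℤ)) t) := by
  unfold nA0 nD Wz muF cq
  simp only [mul_sum, mul_add, sum_add_distrib]
  rw [← sum_comm]
  simp only [← sum_add_distrib]
  rw [sum_comm]
  rw [sum_comm]
  apply sum_congr rfl
  intro m _
  apply sum_congr rfl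
  intro k _
  unfold MP_d1b55a.nm
  push_cast
  ring

theorem npf_odd (i j : ℕ) (h : i < j) : npf (2 * i + 1) j = 0 := by
  unfold npf
  apply prod_eq_zero (mem_range.mpr h)
  push_cast
  ring

theorem split_sum (G : ℕ → ℂ) (j : ℕ) (hj : j ≤ 6) (h : ∀ i < j, G (2 * i + 1) = 0) :
    ∑ m ∈ range 11, G m = ∑ i ∈ range 6, G (2 * i) + ∑ i ∈ range (5 - j), G (2 * j + 1 + 2 * i) := by
  have h1 : ∑ m ∈ range 11, G m = ∑ i ∈ range 6, G (2 * i) + ∑ i ∈ range 5, G (2 * i + 1) := by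
    simp only [sum_range_succ, sum_range_zero]
    ring
  rw [h1]
  congr 1
  by_cases hj5 : j ≤ 5
  · have h2 : 5 = j + (5 - j) := by omega
    conv_lhs => rw [h2, sum_range_add]
    rw [sum_eq_zero fun i hi => h i (mem_range.mp hi), zero_add]
    apply sum_congr rfl
    intro i _
    congr 1
    ring
  · have h2 : 5 - j = 0 := by omega
    rw [h2, sum_range_zero]
    exact sum_eq_zero fun i hi => h i (by have := mem_range.mp hi; omega)

/-- the model of `nA0 ε j`, `n = 6 - j` -/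
def aj (c : Cfg) (n : ℕ) (Lo Do Le De : List V3) (q : Q4) (k : V3 → Bool) : Bool :=
  fin3 c c.one
    (Nat.add (Nat.add (dt V3.W (List.drop n Lo) q.g) (dt V3.W Le q.gp))
      (Nat.add (dt V3.W (List.drop n Do) q.dd) (dt V3.W De q.dp)))
    (Nat.add (Nat.add (dt V3.M (List.drop n Lo) q.g) (dt V3.M Le q.gp))
      (Nat.add (dt V3.M (List.drop n Do) q.dd) (dt V3.M De q.dp)))
    (Nat.add (Nat.add (dt V3.S (List.drop n Lo) q.g) (dt V3.S Le q.gp))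
      (Nat.add (dt V3.S (List.drop n Do) q.dd) (dt V3.S De q.dp))) k

theorem aj_spec {c : Cfg} (hg : c.Go) {u rr : ℕ} {Lo Do Le De : List V3}
    (hS : SL c u rr Lo Do Le De) {ε : ℝ} {j n : ℕ} (hj : j ≤ 6) (hn : n = 6 - j) {q : Q4}
    (hq : Q4ok c ε j q) (k : V3 → Bool) (hk : aj c n Lo Do Le De q k = true) :
    ∃ x, k x = true ∧ Md c x (fun t => nA0 ε j (Bs (sA u rr t))) := by
  unfold aj at hk
  have d1 := LM.drop n 0 Lo hS.h1
  have d2 := LM.drop n 0 Do hS.h2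
  have s1 := dt_spec hg.toOk _ _ _ _ d1 hq.h1
  have s2 := dt_spec hg.toOk _ _ _ _ hS.h3 hq.h2
  have s3 := dt_spec hg.toOk _ _ _ _ d2 hq.h3
  have s4 := dt_spec hg.toOk _ _ _ _ hS.h4 hq.h4
  have m1 : min (List.drop n Lo).length q.g.length = 6 := by
    rw [List.length_drop, hS.l1, hq.l1]; omega
  have m2 : min Le.length q.gp.length = 5 - j := by rw [hS.l3, hq.l2]; omega
  have m3 : min (List.drop n Do).length q.dd.length = 6 := by
    rw [List.length_drop, hS.l2, hq.l3]; omega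
  have m4 : min De.length q.dp.length = 5 - j := by rw [hS.l4, hq.l4]; omega
  rw [m1] at s1
  rw [m2] at s2
  rw [m3] at s3
  rw [m4] at s4
  obtain ⟨x, h1, h2⟩ := fin3_spec hg.toOk hg.hM hg.hone ((s1.add s2).add (s3.add s4))
    (by omega) k hk
  refine ⟨x, h1, h2.congr fun t _ => ?_⟩
  have hone : (c.one : ℂ) ≠ 0 := by exact_mod_cast hg.hone.ne'
  rw [nA0_expand, split_sum _ j hj fun i hi => by
    unfold cq; rw [npf_odd i j hi]; simp]
  rw [eq_div_iff (mul_ne_zero hone hone)]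
  have e1 : ∀ i : ℕ, (2 * ((n + i : ℕ) : ℤ) - 13) = ((2 * i : ℕ) : ℤ) - 1 - 2 * (j : ℤ) := by
    intro i; omega
  have e2 : ∀ i : ℕ, (2 * (i : ℤ)) = ((2 * j + 1 + 2 * i : ℕ) : ℤ) - 1 - 2 * (j : ℤ) := by
    intro i; omega
  simp only [zero_add, e1]
  simp only [← e2]
  rw [← mul_add, ← mul_add, ← mul_add, mul_comm]
  congr 1
  rw [add_add_add_comm (∑ x ∈ range 6, _) _ _ _, ← sum_add_distrib, ← sum_add_distrib]
  congr 1
  · apply sum_congr rfl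
    intro i _
    ring
  · apply sum_congr rfl
    intro i _
    ring

end MP_d1b55a.K
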