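import Pool.Agent.Lib.MP_d1b55a_co.NE8

/-!
MP_d1b55a_co, near arc, kernel engine, part 9: one cell of `ε`.
-/

open Finset Polynomial

namespace MP_d1b55a.K

/-- constants of a cell of `ε` -/
structure EC where
  q0 : Q4
  q1 : Q4
  q2 : Q4
  q3 : Q4
  q4 : Q4
  q5 : Q4
  q6 : Q4
  e12 : V3
  e720 : V3
  e6 : V3

structure ECok (c : Cfg) (ε : ℝ) (e : EC) : Prop where
  h0 : Q4ok c ε 0 e.q0
  h1 : Q4ok c ε 1 e.q1
  h2 : Q4ok c ε 2 e.q2
  h3 : Q4ok c ε 3 e.q3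
  h4 : Q4ok c ε 4 e.q4
  h5 : Q4ok c ε 5 e.q5
  h6 : Q4ok c ε 6 e.q6
  h12 : Md c e.e12 (fun _ => (ε : ℂ) / 12)
  h720 : Md c e.e720 (fun _ => (ε : ℂ) ^ 3 / 720)
  h6' : Md c e.e6 (fun _ => (ε : ℂ) / 6)

/-- computation of the constants -/
def mkEC (c : Cfg) (i : ℕ) (k : EC → Bool) : Bool :=
  ecJ c i 0 fun q0 => ecJ c i 1 fun q1 => ecJ c i 2 fun q2 => ecJ c i 3 fun q3 =>
  ecJ c i 4 fun q4 => ecJ c i 5 fun q5 => ecJ c i 6 fun q6 =>
  cst c false 1 12 1 i fun e12 => cst c false 1 720 3 i fun e720 => cst c false 1 6 1 i fun e6 =>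
  k ⟨q0, q1, q2, q3, q4, q5, q6, e12, e720, e6⟩

theorem mkEC_spec {c : Cfg} (hg : c.Go) (i : ℕ) (ε : ℝ) (hε : inC ε i) (k : EC → Bool)
    (hk : mkEC c i k = true) : ∃ e, k e = true ∧ ECok c ε e := by
  unfold mkEC at hk
  obtain ⟨q0, hk, r0⟩ := ecJ_spec hg i 0 (by norm_num) ε hε _ hk
  obtain ⟨q1, hk, r1⟩ := ecJ_spec hg i 1 (by norm_num) ε hε _ hk
  obtain ⟨q2, hk, r2⟩ := ecJ_spec hg i 2 (by norm_num) ε hε _ hk
  obtain ⟨q3, hk, r3⟩ := ecJ_spec hg i 3 (by norm_num) ε hε _ hk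
  obtain ⟨q4, hk, r4⟩ := ecJ_spec hg i 4 (by norm_num) ε hε _ hk
  obtain ⟨q5, hk, r5⟩ := ecJ_spec hg i 5 (by norm_num) ε hε _ hk
  obtain ⟨q6, hk, r6⟩ := ecJ_spec hg i 6 (by norm_num) ε hε _ hk
  obtain ⟨e12, hk, s1⟩ := cst_spec hg false 1 12 1 i (by norm_num) ε hε _ hk
  obtain ⟨e720, hk, s2⟩ := cst_spec hg false 1 720 3 i (by norm_num) ε hε _ hk
  obtain ⟨e6, hk, s3⟩ := cst_spec hg false 1 6 1 i (by norm_num) ε hε _ hk
  refine ⟨_, hk, r0, r1, r2, r3, r4, r5, r6, s1.congr fun t _ => ?_, s2.congr fun t _ => ?_,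
    s3.congr fun t _ => ?_⟩ <;>
  · simp only [tv]
    push_cast
    simp
    try ring

/-- enlarged error -/
def wd3 (τ : ℕ) (x : V3) : V3 := ⟨x.W, Nat.add x.M τ, Nat.add x.S (Nat.mul 2 τ)⟩

theorem wd3_spec {c : Cfg} {x : V3} {v w : ℝ → ℂ} (h : Md c x v) (τ : ℕ)
    (hw : ∀ t : ℝ, |t| ≤ 1 → (c.one : ℝ) * ‖w t - v t‖ ≤ τ) : Md c (wd3 τ x) w := by
  obtain ⟨f, g, h1, h2, h3, h4, e, h5, h6⟩ := h
  have e1 : (wd3 τ x).M = x.M + τ := rfl
  have e2 : (wd3 τ x).S = x.S + 2 * τ := rfl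
  refine ⟨f, g, h1, h2, h3, h4, e + τ, by rw [e1, e2, h5]; ring, fun t ht => ⟨?_, ?_⟩⟩
  · have e3 : (c.one : ℂ) * w t - cv t f g = c.one * (w t - v t) + (c.one * v t - cv t f g) := by
      ring
    rw [e3]
    refine (norm_add_le _ _).trans ?_
    rw [norm_mul, Complex.norm_natCast]
    push_cast
    linarith [hw t ht, (h6 t ht).1]
  · rw [e1]
    have e4 : ‖w t‖ ≤ ‖v t‖ + ‖w t - v t‖ := by
      have : w t = v t + (w t - v t) := by ring
      calc ‖w t‖ = ‖v t + (w t - v t)‖ := by rw [← this]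
        _ ≤ _ := norm_add_le _ _
    push_cast
    have h7 := hw t ht
    have h8 := (h6 t ht).2
    have h9 : (0 : ℝ) ≤ c.one := by positivity
    nlinarith

/-- `x1 y1 + x2 y2 + x3 y3 + x4 y4` -/
def mul4 (c : Cfg) (D : ℕ) (x1 y1 x2 y2 x3 y3 x4 y4 : V3) (k : V3 → Bool) : Bool :=
  fin3 c D (Nat.add (Nat.add (Nat.add (Nat.mul x1.W y1.W) (Nat.mul x2.W y2.W)) (Nat.mul x3.W y3.W))
      (Nat.mul x4.W y4.W))
    (Nat.add (Nat.add (Nat.add (Nat.mul x1.M y1.M) (Nat.mul x2.M y2.M)) (Nat.mul x3.M y3.M))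
      (Nat.mul x4.M y4.M))
    (Nat.add (Nat.add (Nat.add (Nat.mul x1.S y1.S) (Nat.mul x2.S y2.S)) (Nat.mul x3.S y3.S))
      (Nat.mul x4.S y4.S)) k

theorem mul4_spec {c : Cfg} (hc : c.Ok) (hM : 31 * (c.Mx * c.Mx) < c.H) {D : ℕ} (hD : 0 < D)
    {x1 y1 x2 y2 x3 y3 x4 y4 : V3}
    {v1 w1 v2 w2 v3 w3 v4 w4 : ℝ → ℂ} (hx1 : Md c x1 v1) (hy1 : Md c y1 w1) (hx2 : Md c x2 v2)
    (hy2 : Md c y2 w2) (hx3 : Md c x3 v3) (hy3 : Md c y3 w3) (hx4 : Md c x4 v4) (hy4 : Md c y4 w4)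
    (k : V3 → Bool)
    (hk : mul4 c D x1 y1 x2 y2 x3 y3 x4 y4 k = true) :
    ∃ z, k z = true ∧ Md c z (fun t => c.one / D *
      (v1 t * w1 t + v2 t * w2 t + v3 t * w3 t + v4 t * w4 t)) := by
  obtain ⟨x, h1, h2⟩ := fin3_spec hc hM hD
    ((((hx1.mul hc hy1).add (hx2.mul hc hy2)).add (hx3.mul hc hy3)).add (hx4.mul hc hy4))
    (by norm_num) k hk
  refine ⟨x, h1, h2.congr fun t _ => ?_⟩
  have hone : (c.one : ℂ) ≠ 0 := by exact_mod_cast hc.hone.ne'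
  have hDc : (D : ℂ) ≠ 0 := by exact_mod_cast hD.ne'
  field_simp

/-- `.3221 + i (s + 1.6071)` -/
def zV (c : Cfg) (u rr : ℕ) (k : V3 → Bool) : Bool :=
  frc (Nat.add (Nat.add 56664431249063 (Nat.mul c.BL (Nat.add (Nat.add (Nat.mul u 8796093022208)
    282724021919809) (Nat.mul (Nat.mul rr 8796093022208) c.B))))
    (Nat.sub c.N (Nat.mul c.BL (Nat.mul 12 175921860444160)))) fun W =>
  k ⟨W, Nat.mul 15 175921860444160, Nat.add (Nat.mul 15 175921860444160) 2⟩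

theorem sA_bd (u rr : ℕ) (hu : u ≤ 480) (hr : rr ≤ 4) (t : ℝ) (ht : |t| ≤ 1) :
    ‖(⟨3221 / 10000, sA u rr t + 16071 / 10000⟩ : ℂ)‖ ≤ 15 := by
  have hu' : (u : ℝ) ≤ 480 := by exact_mod_cast hu
  have hr' : (rr : ℝ) ≤ 4 := by exact_mod_cast hr
  refine (Complex.norm_le_abs_re_add_abs_im _).trans ?_
  simp only []
  have h2 : |sA u rr t + 16071 / 10000| ≤ 14 := by
    unfold sA
    have h3 := abs_le.mp ht
    have h4 : |(rr : ℝ) * t| ≤ 4 := by
      rw [abs_mul, abs_of_nonneg (by positivity : (0 : ℝ) ≤ rr)]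
      nlinarith [abs_nonneg t]
    have h5 := abs_le.mp h4
    have h6 : (0 : ℝ) ≤ u := by positivity
    rw [abs_le]
    constructor <;> linarith
  have h7 : |(3221 / 10000 : ℝ)| = 3221 / 10000 := by norm_num
  rw [h7]
  linarith

theorem zV_spec (u rr : ℕ) (hu : u ≤ 480) (hr : rr ≤ 4) (k : V3 → Bool)
    (hk : zV cN u rr k = true) :
    ∃ x, k x = true ∧ Md cN x (fun t => (⟨3221 / 10000, sA u rr t + 16071 / 10000⟩ : ℂ)) := by
  unfold zV at hk
  rw [frc_eq] at hk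
  refine ⟨_, hk, ?_⟩
  have hone : (cN.one : ℂ) = 175921860444160 := by rw [cN_one]; norm_num
  have hone' : (cN.one : ℝ) = 175921860444160 := by rw [cN_one]; norm_num
  have h1 : |(u : ℤ) * 8796093022208 + 282724021919809 - 12 * 175921860444160| ≤
      480 * 8796093022208 + 282724021919809 + 12 * 175921860444160 := by
    rw [abs_le]; constructor <;> omega
  have h2 : |(rr : ℤ) * 8796093022208| ≤ 4 * 8796093022208 := by
    rw [abs_le]; constructor <;> omega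
  have hle : cN.BL * (12 * 175921860444160) ≤ cN.N := by decide +kernel
  have hu' : (u : ℝ) ≤ 480 := by exact_mod_cast hu
  have hr' : (rr : ℝ) ≤ 4 := by exact_mod_cast hr
  refine Md_lin cN_go.hp _ 56664431249063 0
    (u * 8796093022208 + 282724021919809 - 12 * 175921860444160) (rr * 8796093022208)
    ?_ ?_ _ 2 _ fun t ht => ⟨?_, ?_⟩
  · have e2 : Nat.add (Nat.add 56664431249063 (Nat.mul cN.BL (Nat.add (Nat.add (Nat.mul u 8796093022208)
      282724021919809) (Nat.mul (Nat.mul rr 8796093022208) cN.B))))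
      (Nat.sub cN.N (Nat.mul cN.BL (Nat.mul 12 175921860444160))) =
      56664431249063 + cN.BL * (u * 8796093022208 + 282724021919809 + rr * 8796093022208 * cN.B) +
        (cN.N - cN.BL * (12 * 175921860444160)) := rfl
    rw [e2, Nat.cast_add, Nat.cast_sub hle, Int.modEq_iff_dvd]
    exact ⟨-1, by push_cast; ring⟩
  · rw [cN_Mx]
    rw [abs_zero, add_zero]
    norm_num at h1 h2 ⊢
    linarith
  · rw [hone]
    have e : (175921860444160 : ℂ) * (⟨3221 / 10000, sA u rr t + 16071 / 10000⟩ : ℂ) -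
      ((((56664431249063 : ℤ) : ℂ) + ((0 : ℤ) : ℂ) * t) +
      (((u * 8796093022208 + 282724021919809 - 12 * 175921860444160 : ℤ) : ℂ) +
        ((rr * 8796093022208 : ℤ) : ℂ) * t) * Complex.I) =
        ⟨175921860444160 * (3221 / 10000) - 56664431249063,
          175921860444160 * (16071 / 10000) - 282724021919809⟩ := by
      unfold sA
      apply Complex.ext
      · simp
      · simp
        ring
    rw [e]
    refine (Complex.norm_le_abs_re_add_abs_im _).trans ?_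
    norm_num
  · clear hle
    rw [hone']
    have h1 := sA_bd u rr hu hr t ht
    have e4 : ((Nat.mul 15 175921860444160 : ℕ) : ℝ) = 15 * 175921860444160 := by
      show (((15 * 175921860444160 : ℕ)) : ℝ) = _
      push_cast; ring
    rw [e4]
    linarith

end MP_d1b55a.K
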