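import Pool.Agent.Lib.MP_d1b55a_co.NE3

/-!
MP_d1b55a_co, near arc, kernel engine: the mean of the modulus of a model on `[-1,1]`.
-/

open Finset Polynomial MeasureTheory intervalIntegral

namespace MP_d1b55a.K

/-- weights `45045/(i+1)`, `i` even -/
def wts : List ℕ := [45045, 0, 15015, 0, 9009, 0, 6435, 0, 5005, 0, 4095, 0, 3465]

/-- weighted sum of digits -/
def wsum (B : ℕ) (ws : List ℕ) : ℕ → ℕ :=
  List.rec (motive := fun _ => ℕ → ℕ) (fun _ => 0)
    (fun w _ ih V => Nat.add (Nat.mul w (Nat.mod V B)) (ih (Nat.div V B))) ws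

theorem wsum_eq (B : ℕ) : ∀ (ws : List ℕ) (V : ℕ),
    wsum B ws V = ∑ i ∈ range ws.length, ws.getD i 0 * dg B i V
  | [], V => by simp [wsum]
  | w :: ws, V => by
    have h : wsum B (w :: ws) V = w * (V % B) + wsum B ws (V / B) := rfl
    rw [h, wsum_eq B ws, List.length_cons, sum_range_succ']
    simp only [List.getD_cons_succ, List.getD_cons_zero, dg_zero, dg_succ]
    ring

/-- check of the mean square -/
def l2c (c : Cfg) (G : V3) (bb : ℕ) : Bool :=
  frc (Nat.mod (Nat.mod (Nat.add (Nat.mul G.W (cjW c G.W)) c.OFC) c.N) c.BL) fun V =>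
  frc (Nat.mul 2 (Nat.sub G.S G.M)) fun e2 =>
  chk (Nat.ble (Nat.succ e2) bb)
  (Nat.ble (Nat.mul 4 (wsum c.B wts V)) (Nat.add (Nat.mul 45045 (Nat.mul (Nat.sub bb e2)
    (Nat.sub bb e2))) (Nat.mul 4 (Nat.mul c.H 88069))))

theorem cjW_rep {c : Cfg} (hc : c.Ok) (hM : c.Mx < c.H) {W : ℕ} {f g : ℤ[X]}
    (h1 : (W : ℤ) ≡ f.eval (c.B : ℤ) + c.BL * g.eval (c.B : ℤ) [ZMOD c.N])
    (h2 : f.natDegree ≤ c.p) (h3 : g.natDegree ≤ c.p) (h4 : nm f + nm g ≤ c.Mx) :
    ((cjW c W : ℕ) : ℤ) ≡ f.eval (c.B : ℤ) - c.BL * g.eval (c.B : ℤ) [ZMOD c.N] := by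
  have hM' : (c.Mx : ℤ) < c.H := by exact_mod_cast hM
  have hbf : ∀ i, |f.coeff i| < c.H := fun i => by
    have := coeff_le_nm f i; have := nm_nonneg g; linarith
  have hbg : ∀ i, |g.coeff i| < c.H := fun i => by
    have := coeff_le_nm g i; have := nm_nonneg f; linarith
  obtain ⟨r1, r2⟩ := recC c hc f g (by omega) (by omega) hbf hbg W h1
  unfold cjW
  rw [frc_eq]
  have o1 := off_nat c hc f (by omega) hbf
  have o2 := off_nat c hc g (by omega) hbg
  have e1 : Nat.mod (Nat.mod (Nat.add W c.OFC) c.N) c.BL =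
    ∑ i ∈ range (2 * c.p + 1), wd c f i * c.B ^ i := r1
  have e2 : Nat.div (Nat.mod (Nat.add W c.OFC) c.N) c.BL =
    ∑ i ∈ range (2 * c.p + 1), wd c g i * c.B ^ i := r2
  rw [e1, e2]
  set F := ∑ i ∈ range (2 * c.p + 1), wd c f i * c.B ^ i
  set G := ∑ i ∈ range (2 * c.p + 1), wd c g i * c.B ^ i with hG
  have hle : G ≤ 2 * c.OFR := by
    have h6 : G ≤ ∑ i ∈ range (2 * c.p + 1), (2 * c.H) * c.B ^ i := by
      apply sum_le_sum
      intro i _
      apply Nat.mul_le_mul_right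
      have := wd_lt c hc g hbg i
      rw [hc.hB] at this
      omega
    rw [hc.hOFR, mul_sum]
    refine h6.trans (le_of_eq ?_)
    apply sum_congr rfl
    intro i _
    ring
  have e3 : Nat.mod (Nat.add (Nat.add F (Nat.mul c.BL (Nat.sub (Nat.mul 2 c.OFR) G)))
    (Nat.sub c.N c.OFC)) c.N = (F + c.BL * (2 * c.OFR - G) + (c.N - c.OFC)) % c.N := rfl
  rw [e3]
  refine (mod_congr _ _).trans ?_
  rw [Nat.cast_add, Nat.cast_add, Nat.cast_mul, Nat.cast_sub hle, Nat.cast_sub (OFC_le hc),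
    ← o1, Int.modEq_iff_dvd]
  refine ⟨-1, ?_⟩
  have o2' : (G : ℤ) = g.eval (c.B : ℤ) + c.OFR := o2.symm
  rw [o2', hc.hOFC]
  push_cast
  ring

theorem int_pow_sym (i : ℕ) : ∫ t in (-1 : ℝ)..1, t ^ i = (1 - (-1) ^ (i + 1)) / (i + 1) := by
  rw [integral_pow, one_pow]

theorem cv_normsq (t : ℝ) (f g : ℤ[X]) : ‖cv t f g‖ ^ 2 = aeval t (f * f + g * g) := by
  unfold cv
  rw [← Complex.normSq_eq_norm_sq, Complex.normSq_add_mul_I, map_add, map_mul, map_mul]
  ring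

theorem l2c_spec {c : Cfg} (hg : c.Go) (hp6 : c.p = 6) {G : V3} {v : ℝ → ℂ} (hG : Md c G v)
    (hv : IntervalIntegrable v volume (-1) 1) (bb : ℕ) (h : l2c c G bb = true) :
    (c.one : ℝ) * ∫ t in (-1 : ℝ)..1, ‖v t‖ ≤ bb := by
  obtain ⟨f, g, h1, h2, h3, h4, e, h5, h6⟩ := hG
  have hM := hg.hM
  have hMx : c.Mx < c.H := by
    have h8 : c.Mx ≤ c.Mx * c.Mx ∨ c.Mx = 0 := by
      rcases Nat.eq_zero_or_pos c.Mx with h | h
      · exact Or.inr h
      · exact Or.inl (Nat.le_mul_of_pos_left _ h)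
    have h9 := hg.hH
    rcases h8 with h | h <;> omega
  unfold l2c at h
  simp only [frc_eq] at h
  rw [chk_true, Nat.ble_eq, Nat.ble_eq] at h
  obtain ⟨hb1, hb2⟩ := h
  have eE : Nat.mul 2 (Nat.sub G.S G.M) = 2 * e := by
    show 2 * (G.S - G.M) = 2 * e
    rw [h5]; omega
  rw [eE] at hb1 hb2
  set F : ℤ[X] := f * f + g * g with hF
  have hFd : F.natDegree ≤ 2 * c.p := by
    refine (natDegree_add_le _ _).trans (max_le ?_ ?_)
    · exact natDegree_mul_le.trans (by omega)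
    · exact natDegree_mul_le.trans (by omega)
  have hFn : nm F < (c.H : ℤ) := by
    have e1 := nm_add (f * f) (g * g)
    have e2 := nm_mul f f
    have e3 := nm_mul g g
    have n1 := nm_nonneg f
    have n2 := nm_nonneg g
    have e4 : (nm f + nm g) * (nm f + nm g) ≤ (c.Mx : ℤ) * c.Mx :=
      mul_le_mul h4 h4 (by linarith) (by positivity)
    have e5 : (31 : ℤ) * (c.Mx * c.Mx) < c.H := by exact_mod_cast hM
    have e6 : (0 : ℤ) ≤ c.Mx * c.Mx := by positivity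
    nlinarith
  have hcj := cjW_rep hg.toOk hMx h1 h2 h3 h4
  have hrep : ((G.W * cjW c G.W : ℕ) : ℤ) ≡ F.eval (c.B : ℤ) +
      c.BL * (0 : ℤ[X]).eval (c.B : ℤ) [ZMOD c.N] := by
    push_cast
    refine (h1.mul hcj).trans ?_
    rw [hF, eval_add, eval_mul, eval_mul, eval_zero, mul_zero, add_zero]
    have hB := (BL_sq hg.toOk).mul_right (g.eval (c.B : ℤ) * g.eval (c.B : ℤ))
    rw [Int.modEq_iff_dvd] at hB ⊢
    obtain ⟨q, hq⟩ := hB
    refine ⟨-q, ?_⟩
    have : (c.N : ℤ) * -q = -(c.N * q) := by ring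
    rw [this, ← hq]; ring
  have hbF : ∀ i, |F.coeff i| < c.H := fun i => lt_of_le_of_lt (coeff_le_nm F i) hFn
  have hb0 : ∀ i, |(0 : ℤ[X]).coeff i| < c.H := fun i => by
    have := hg.hH
    simpa using (by exact_mod_cast this : (0 : ℤ) < c.H)
  have hV := (recC c hg.toOk F 0 hFd (by simp) hbF hb0 _ hrep).1
  have hV' : Nat.mod (Nat.mod (Nat.add (Nat.mul G.W (cjW c G.W)) c.OFC) c.N) c.BL =
    ∑ i ∈ range (2 * c.p + 1), wd c F i * c.B ^ i := hV
  rw [hV', wsum_eq] at hb2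
  have hlen : wts.length = 13 := rfl
  have hp : 2 * c.p + 1 = 13 := by omega
  have hsum : ∑ i ∈ range wts.length, wts.getD i 0 * dg c.B i
      (∑ i ∈ range (2 * c.p + 1), wd c F i * c.B ^ i) =
      ∑ i ∈ range 13, wts.getD i 0 * wd c F i := by
    rw [hlen]
    apply sum_congr rfl
    intro i hi
    rw [mem_range] at hi
    rw [dg_block c hg.toOk F hbF i (by omega)]
  rw [hsum] at hb2
  set β := Nat.sub bb (2 * e) with hβ
  have hβb : bb = β + 2 * e := by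
    have : β = bb - 2 * e := rfl
    have h7 : 2 * e + 1 ≤ bb := hb1
    omega
  have hβ0 : 0 < β := by
    have h7 : 2 * e + 1 ≤ bb := hb1
    omega
  have hbZ : 4 * ∑ i ∈ range 13, ((wts.getD i 0 : ℕ) : ℝ) * (F.coeff i : ℝ) ≤ 45045 * ((β : ℝ) * β) := by
    have h7 : 4 * ∑ i ∈ range 13, wts.getD i 0 * wd c F i ≤
      45045 * (β * β) + 4 * (c.H * 88069) := hb2
    have h8 : ((4 * ∑ i ∈ range 13, wts.getD i 0 * wd c F i : ℕ) : ℝ) ≤
      ((45045 * (β * β) + 4 * (c.H * 88069) : ℕ) : ℝ) := by exact_mod_cast h7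
    push_cast at h8
    have h9 : ∀ i, ((wd c F i : ℕ) : ℝ) = (F.coeff i : ℝ) + c.H := fun i => by
      exact_mod_cast wd_cast c F hbF i
    simp only [h9, mul_add, sum_add_distrib, ← sum_mul] at h8
    have h10 : ∑ i ∈ range 13, ((wts.getD i 0 : ℕ) : ℝ) = 88069 := by
      simp [sum_range_succ, wts]
      norm_num
    rw [h10] at h8
    linarith
  have hintF : ∫ t in (-1 : ℝ)..1, aeval t F = 2 / 45045 *
      ∑ i ∈ range 13, ((wts.getD i 0 : ℕ) : ℝ) * (F.coeff i : ℝ) := by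
    have h7 : ∀ t : ℝ, aeval t F = ∑ i ∈ range 13, (F.coeff i : ℝ) * t ^ i := fun t =>
      aev_eq F 13 (by omega) t
    simp only [h7]
    rw [intervalIntegral.integral_finsetSum fun i _ =>
      (Continuous.intervalIntegrable (by fun_prop) _ _)]
    simp only [intervalIntegral.integral_const_mul, int_pow_sym]
    simp only [sum_range_succ, sum_range_zero, wts]
    norm_num
    ring
  have hint : ∫ t in (-1 : ℝ)..1, ‖cv t f g‖ ^ 2 ≤ (β : ℝ) ^ 2 / 2 := by
    simp only [cv_normsq]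
    rw [hintF]
    nlinarith
  have hcont : Continuous fun t : ℝ => cv t f g := by
    have : (fun t : ℝ => cv t f g) = fun t : ℝ => ∑ i ∈ range (c.p + 1),
      (((f.coeff i : ℝ) : ℂ) + ((g.coeff i : ℝ) : ℂ) * Complex.I) * (t : ℂ) ^ i := by
      ext t
      exact cv_sum t f g (c.p + 1) (by omega) (by omega)
    rw [this]
    fun_prop
  have hβ' : (0 : ℝ) < β := by exact_mod_cast hβ0
  have hpt : ∀ t ∈ Set.Icc (-1 : ℝ) 1, (c.one : ℝ) * ‖v t‖ ≤
      (1 / β) * ‖cv t f g‖ ^ 2 + ((β : ℝ) / 4 + e) := by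
    intro t ht
    have ht' : |t| ≤ 1 := abs_le.mpr ht
    have h7 := (h6 t ht').1
    have h8 : (c.one : ℝ) * ‖v t‖ ≤ ‖cv t f g‖ + e := by
      have h9 : (c.one : ℝ) * ‖v t‖ = ‖(c.one : ℂ) * v t‖ := by
        rw [norm_mul, Complex.norm_natCast]
      rw [h9]
      have h10 : (c.one : ℂ) * v t = cv t f g + ((c.one : ℂ) * v t - cv t f g) := by ring
      rw [h10]
      exact (norm_add_le _ _).trans (by linarith)
    have h11 : ‖cv t f g‖ ≤ (1 / β) * ‖cv t f g‖ ^ 2 + (β : ℝ) / 4 := by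
      have h12 : (1 / β) * ‖cv t f g‖ ^ 2 + (β : ℝ) / 4 - ‖cv t f g‖ =
        (‖cv t f g‖ - β / 2) ^ 2 / β := by
        field_simp
        ring
      have h13 : 0 ≤ (‖cv t f g‖ - (β : ℝ) / 2) ^ 2 / β := by positivity
      linarith
    linarith
  have hI : ∫ t in (-1 : ℝ)..1, (c.one : ℝ) * ‖v t‖ ≤
      ∫ t in (-1 : ℝ)..1, ((1 / β) * ‖cv t f g‖ ^ 2 + ((β : ℝ) / 4 + e)) :=
    intervalIntegral.integral_mono_on (by norm_num) (hv.norm.const_mul _)
      (Continuous.intervalIntegrable (by fun_prop) _ _) hpt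
  rw [intervalIntegral.integral_const_mul] at hI
  refine hI.trans ?_
  rw [intervalIntegral.integral_add (Continuous.intervalIntegrable (by fun_prop) _ _)
    (Continuous.intervalIntegrable (by fun_prop) _ _), intervalIntegral.integral_const_mul,
    intervalIntegral.integral_const]
  have h14 : (1 / (β : ℝ)) * ∫ t in (-1 : ℝ)..1, ‖cv t f g‖ ^ 2 ≤ 1 / β * ((β : ℝ) ^ 2 / 2) :=
    mul_le_mul_of_nonneg_left hint (by positivity)
  have h15 : 1 / (β : ℝ) * ((β : ℝ) ^ 2 / 2) = β / 2 := by field_simp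
  rw [h15] at h14
  have h16 : (bb : ℝ) = β + 2 * e := by exact_mod_cast hβb
  rw [h16, smul_eq_mul]
  linarith

end MP_d1b55a.K
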