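import Pool.Agent.Lib.MP_d1b55a_co.NE9
import Pool.Agent.Lib.MP_d1b55a_co.NEL

/-!
MP_d1b55a_co, near arc, kernel engine: the third logarithmic derivative on a cell.
-/

open Finset Polynomial

namespace MP_d1b55a.K

/-- `-i` -/
def mi3 (c : Cfg) : V3 := ⟨Nat.sub c.N (Nat.mul c.BL c.one), c.one, c.one⟩

theorem mi3_spec {c : Cfg} (hg : c.Go) : Md c (mi3 c) (fun _ => -Complex.I) := by
  have h := hg.h1
  have hN := BLMx_le hg
  have hle : c.BL * c.one ≤ c.N := by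
    have : c.BL * c.one ≤ c.BL * c.Mx := Nat.mul_le_mul_left _ (by omega)
    omega
  refine Md_const hg.hp _ 0 (-c.one) ?_ ?_ c.one 0 (-Complex.I) (by simp) (by simp)
  · rw [show Nat.sub c.N (Nat.mul c.BL c.one) = c.N - c.BL * c.one from rfl, Nat.cast_sub hle,
      Int.modEq_iff_dvd]
    exact ⟨-1, by push_cast; ring⟩
  · have : (c.one : ℤ) ≤ c.Mx := by exact_mod_cast (by omega : c.one ≤ c.Mx)
    simpa using this

/-- one cell of `s` and `ε` -/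
def eSt (c : Cfg) (Lo Do Le De : List V3) (zl : V3) (ce : EC) (st : ℕ) (ya yz : V3) (bb : ℕ)
    (k : V3 → V3 → Bool) : Bool :=
  aj c 6 Lo Do Le De ce.q0 fun A0 => aj c 5 Lo Do Le De ce.q1 fun A1 =>
  aj c 4 Lo Do Le De ce.q2 fun A2 => aj c 3 Lo Do Le De ce.q3 fun A3 =>
  aj c 2 Lo Do Le De ce.q4 fun A4 => aj c 1 Lo Do Le De ce.q5 fun A5 =>
  aj c 0 Lo Do Le De ce.q6 fun A6 =>
  mul4 c c.one A1 (mih3 c) A2 ce.e12 A4 ce.e720 (one3 c) (one3 c) fun E0 =>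
  mul3 c c.one A2 (mih3 c) A3 ce.e12 A5 ce.e720 fun E1 =>
  mul3 c c.one A3 (mih3 c) A4 ce.e12 A6 ce.e720 fun E2 =>
  inv3 c (wd3 369435906933 A0) st ya fun x ya' =>
  mul2 c c.one zl (one3 c) ce.e6 (mi3 c) fun z => inv3 c z st yz fun iz yz' =>
  mul1 c c.one (wd3 281474976711 E0) x fun Q =>
  mul2 c c.one (wd3 1037938976621 E1) (one3 c) (ngV c Q) (wd3 369435906933 A1) fun t1 =>
  mul1 c c.one t1 x fun Q1 =>
  mul1 c c.one Q1 (wd3 369435906933 A1) fun t2 =>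
  mul3 c c.one (wd3 5735052650480 E2) (one3 c) t2 (mtwo3 c) (ngV c Q) (wd3 1143492092888 A2)
    fun t3 =>
  mul1 c c.one t3 x fun Q2 =>
  mul1 c c.one iz iz fun i2 => mul1 c c.one i2 iz fun i3 =>
  mul2 c c.one Q2 (im3 c) i3 (mtwo3 c) fun G =>
  chk (l2c c G bb) (k ya' yz')

/-- tolerances -/
noncomputable def tolA (j : ℕ) : ℝ := if j = 2 then 65 / 10000 else 21 / 10000
noncomputable def tolE (j : ℕ) : ℝ :=
  if j = 0 then 16 / 10000 else if j = 1 then 59 / 10000 else 326 / 10000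

/-- the third logarithmic derivative minus the pole -/
noncomputable def vG (ε : ℝ) (u rr : ℕ) (va ve : ℕ → ℝ → ℂ) (t : ℝ) : ℂ :=
  Complex.I * (ve 2 t / va 0 t - 2 * ve 1 t * va 1 t / va 0 t ^ 2 - ve 0 t * va 2 t / va 0 t ^ 2 +
    2 * ve 0 t * va 1 t ^ 2 / va 0 t ^ 3) - 2 / (Bs (sA u rr t) - Bz ε) ^ 3

theorem eSt_spec {u rr : ℕ} {Lo Do Le De : List V3} (hS : SL cN u rr Lo Do Le De) {zl : V3}
    (hz : Md cN zl (fun t => (⟨3221 / 10000, sA u rr t + 16071 / 10000⟩ : ℂ))) {ε : ℝ} {ce : EC}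
    (hE : ECok cN ε ce) {ya yz : V3} {wa wz : ℝ → ℂ} (hya : Md cN ya wa) (hyz : Md cN yz wz)
    (va ve : ℕ → ℝ → ℂ)
    (ha : ∀ t : ℝ, |t| ≤ 1 → ∀ j ≤ 2, ‖va j t - nA0 ε j (Bs (sA u rr t))‖ ≤ tolA j)
    (he : ∀ t : ℝ, |t| ≤ 1 → ∀ j ≤ 2, ‖ve j t - nE0 ε j (Bs (sA u rr t))‖ ≤ tolE j)
    (st bb : ℕ) (k : V3 → V3 → Bool) (hk : eSt cN Lo Do Le De zl ce st ya yz bb k = true) :
    ∃ G ya' yz', k ya' yz' = true ∧ (∃ w, Md cN ya' w) ∧ (∃ w, Md cN yz' w) ∧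
      l2c cN G bb = true ∧ Md cN G (vG ε u rr va ve) ∧ ∀ t : ℝ, |t| ≤ 1 → va 0 t ≠ 0 := by
  unfold eSt at hk
  have hg := cN_go
  have hone : (cN.one : ℂ) ≠ 0 := by exact_mod_cast hg.hone.ne'
  have h11 : (cN.one : ℂ) / cN.one = 1 := div_self hone
  obtain ⟨A0, hk, a0⟩ := aj_spec hg hS (j := 0) (by norm_num) (by norm_num) hE.h0 _ hk
  obtain ⟨A1, hk, a1⟩ := aj_spec hg hS (j := 1) (by norm_num) (by norm_num) hE.h1 _ hk
  obtain ⟨A2, hk, a2⟩ := aj_spec hg hS (j := 2) (by norm_num) (by norm_num) hE.h2 _ hk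
  obtain ⟨A3, hk, a3⟩ := aj_spec hg hS (j := 3) (by norm_num) (by norm_num) hE.h3 _ hk
  obtain ⟨A4, hk, a4⟩ := aj_spec hg hS (j := 4) (by norm_num) (by norm_num) hE.h4 _ hk
  obtain ⟨A5, hk, a5⟩ := aj_spec hg hS (j := 5) (by norm_num) (by norm_num) hE.h5 _ hk
  obtain ⟨A6, hk, a6⟩ := aj_spec hg hS (j := 6) (by norm_num) (by norm_num) hE.h6 _ hk
  obtain ⟨E0, hk, e0⟩ := mul4_spec hg.toOk hg.hM hg.hone a1 (mih3_spec hg) a2 hE.h12 a4 hE.h720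
    (one3_spec hg) (one3_spec hg) _ hk
  obtain ⟨E1, hk, e1⟩ := mul3_spec hg.toOk hg.hM hg.hone a2 (mih3_spec hg) a3 hE.h12 a5 hE.h720
    _ hk
  obtain ⟨E2, hk, e2⟩ := mul3_spec hg.toOk hg.hM hg.hone a3 (mih3_spec hg) a4 hE.h12 a6 hE.h720
    _ hk
  have e0' : Md cN E0 (fun t => nE0 ε 0 (Bs (sA u rr t))) := e0.congr fun t _ => by
    rw [h11]; unfold nE0; simp only [if_true]; ring
  have e1' : Md cN E1 (fun t => nE0 ε 1 (Bs (sA u rr t))) := e1.congr fun t _ => by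
    rw [h11]; unfold nE0; simp only [one_ne_zero, if_false]; ring
  have e2' : Md cN E2 (fun t => nE0 ε 2 (Bs (sA u rr t))) := e2.congr fun t _ => by
    rw [h11]; unfold nE0; simp only [OfNat.ofNat_ne_zero, if_false]; ring
  have one' : (cN.one : ℝ) = 175921860444160 := by rw [cN_one]; norm_num
  have b0 : Md cN (wd3 369435906933 A0) (va 0) := wd3_spec a0 _ fun t ht => by
    have := ha t ht 0 (by norm_num)
    rw [one']; norm_num [tolA] at this ⊢; linarith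
  have b1 : Md cN (wd3 369435906933 A1) (va 1) := wd3_spec a1 _ fun t ht => by
    have := ha t ht 1 (by norm_num)
    rw [one']; norm_num [tolA] at this ⊢; linarith
  have b2 : Md cN (wd3 1143492092888 A2) (va 2) := wd3_spec a2 _ fun t ht => by
    have := ha t ht 2 (by norm_num)
    rw [one']; norm_num [tolA] at this ⊢; linarith
  have d0 : Md cN (wd3 281474976711 E0) (ve 0) := wd3_spec e0' _ fun t ht => by
    have := he t ht 0 (by norm_num)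
    rw [one']; norm_num [tolE] at this ⊢; linarith
  have d1 : Md cN (wd3 1037938976621 E1) (ve 1) := wd3_spec e1' _ fun t ht => by
    have := he t ht 1 (by norm_num)
    rw [one']; norm_num [tolE] at this ⊢; linarith
  have d2 : Md cN (wd3 5735052650480 E2) (ve 2) := wd3_spec e2' _ fun t ht => by
    have := he t ht 2 (by norm_num)
    rw [one']; norm_num [tolE] at this ⊢; linarith
  obtain ⟨x, ya', hk, hya', hx, hne⟩ := inv3_spec hg b0 hya st _ hk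
  obtain ⟨z, hk, hz'⟩ := mul2_spec hg.toOk hg.hM hg.hone hz (one3_spec hg) hE.h6' (mi3_spec hg)
    _ hk
  have hz2 : Md cN z (fun t => Bs (sA u rr t) - Bz ε) := hz'.congr fun t _ => by
    rw [h11]
    unfold Bs Bz
    apply Complex.ext
    · simp
      norm_num
    · simp
      ring
  obtain ⟨iz, yz', hk, hyz', hiz, hzne⟩ := inv3_spec hg hz2 hyz st _ hk
  obtain ⟨Q, hk, hQ⟩ := mul1_spec hg.toOk hg.hM hg.hone d0 hx _ hk
  obtain ⟨t1, hk, ht1⟩ := mul2_spec hg.toOk hg.hM hg.hone d1 (one3_spec hg)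
    (ngV_spec hg.toOk hQ) b1 _ hk
  obtain ⟨Q1, hk, hQ1⟩ := mul1_spec hg.toOk hg.hM hg.hone ht1 hx _ hk
  obtain ⟨t2, hk, ht2⟩ := mul1_spec hg.toOk hg.hM hg.hone hQ1 b1 _ hk
  obtain ⟨t3, hk, ht3⟩ := mul3_spec hg.toOk hg.hM hg.hone d2 (one3_spec hg) ht2 (mtwo3_spec hg)
    (ngV_spec hg.toOk hQ) b2 _ hk
  obtain ⟨Q2, hk, hQ2⟩ := mul1_spec hg.toOk hg.hM hg.hone ht3 hx _ hk
  obtain ⟨i2, hk, hi2⟩ := mul1_spec hg.toOk hg.hM hg.hone hiz hiz _ hk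
  obtain ⟨i3, hk, hi3⟩ := mul1_spec hg.toOk hg.hM hg.hone hi2 hiz _ hk
  obtain ⟨G, hk, hG⟩ := mul2_spec hg.toOk hg.hM hg.hone hQ2 (im3_spec hg) hi3 (mtwo3_spec hg) _ hk
  rw [chk_true] at hk
  refine ⟨G, ya', yz', hk.2, hya', hyz', hk.1, hG.congr fun t ht => ?_, hne⟩
  have n1 := hne t ht
  have n2 := hzne t ht
  simp only [h11]
  unfold vG
  field_simp
  ring

end MP_d1b55a.K
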