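import Pool.Agent.Lib.MP_d1b55a_co.NEM

/-!
MP_d1b55a_co, near arc, kernel engine: cells of `s`, blocks.
-/

open Finset Polynomial MeasureTheory intervalIntegral

namespace MP_d1b55a.K

/-- data of a cell of `s` -/
structure SC where
  u : ℕ
  rr : ℕ
  d : List (ℕ × ℕ)
  sa : ℕ
  va : ℕ
  sz : ℕ
  vz : ℕ
  b : List ℕ

/-- loop over the cells of `ε` -/
def eLp (c : Cfg) (Lo Do Le De : List V3) (zl : V3) (kk : ℕ) (ecs : List EC) :
    List ℕ → ℕ → V3 → V3 → Bool :=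
  List.rec (motive := fun _ => List ℕ → ℕ → V3 → V3 → Bool) (fun _ _ _ _ => true)
    (fun ce _ ih bs st ya yz => List.rec (motive := fun _ => Bool) false
      (fun b bs' _ => eSt c Lo Do Le De zl ce st ya yz (Nat.mul b kk) fun ya' yz' =>
        ih bs' 2 ya' yz') bs) ecs

theorem eLp_cons (c : Cfg) (Lo Do Le De : List V3) (zl : V3) (kk : ℕ) (ce : EC) (ecs : List EC)
    (b : ℕ) (bs : List ℕ) (st : ℕ) (ya yz : V3) :
    eLp c Lo Do Le De zl kk (ce :: ecs) (b :: bs) st ya yz =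
      eSt c Lo Do Le De zl ce st ya yz (b * kk) fun ya' yz' =>
        eLp c Lo Do Le De zl kk ecs bs 2 ya' yz' := rfl

theorem eLp_nil' (c : Cfg) (Lo Do Le De : List V3) (zl : V3) (kk : ℕ) (ce : EC) (ecs : List EC)
    (st : ℕ) (ya yz : V3) : eLp c Lo Do Le De zl kk (ce :: ecs) [] st ya yz = false := rfl

/-- valid constants -/
def LE (c : Cfg) (εs : ℕ → ℝ) : ℕ → List EC → Prop
  | _, [] => True
  | i, ce :: l => ECok c (εs i) ce ∧ LE c εs (i + 1) l

theorem eLp_spec {u rr : ℕ} {Lo Do Le De : List V3} (hS : SL cN u rr Lo Do Le De) {zl : V3}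
    (hz : Md cN zl (fun t => (⟨3221 / 10000, sA u rr t + 16071 / 10000⟩ : ℂ))) (εs : ℕ → ℝ)
    (i0 : ℕ) (va ve : ℕ → ℝ → ℂ)
    (ha : ∀ t : ℝ, |t| ≤ 1 → ∀ j ≤ 2, ‖va j t - nA0 (εs i0) j (Bs (sA u rr t))‖ ≤ tolA j)
    (he : ∀ t : ℝ, |t| ≤ 1 → ∀ j ≤ 2, ‖ve j t - nE0 (εs i0) j (Bs (sA u rr t))‖ ≤ tolE j)
    (kk : ℕ) (ecs : List EC) : ∀ (i : ℕ) (bs : List ℕ) (st : ℕ) (ya yz : V3) (wa wz : ℝ → ℂ),
    LE cN εs i ecs → i ≤ i0 → i0 < i + ecs.length → Md cN ya wa → Md cN yz wz →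
    eLp cN Lo Do Le De zl kk ecs bs st ya yz = true →
    ∃ G, l2c cN G (bs.getD (i0 - i) 0 * kk) = true ∧ Md cN G (vG (εs i0) u rr va ve) ∧
      ∀ t : ℝ, |t| ≤ 1 → va 0 t ≠ 0 := by
  induction ecs with
  | nil => intro i bs st ya yz wa wz _ h1 h2; simp at h2; omega
  | cons ce ecs ih =>
    intro i bs st ya yz wa wz hL h1 h2 hya hyz hk
    cases bs with
    | nil => rw [eLp_nil'] at hk; exact absurd hk (by simp)
    | cons b bs =>
      rw [eLp_cons] at hk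
      by_cases hi : i = i0
      · subst hi
        obtain ⟨G, ya', yz', _, _, _, k1, k2, k3⟩ := eSt_spec hS hz hL.1 hya hyz va ve ha he st
          _ _ hk
        refine ⟨G, ?_, k2, k3⟩
        rw [Nat.sub_self]
        exact k1
      · obtain ⟨G, ya', yz', k0, ⟨w1, k1⟩, ⟨w2, k2⟩, _, _, _⟩ := eSt_spec hS hz hL.1 hya hyz
          (fun j t => nA0 (εs i) j (Bs (sA u rr t))) (fun j t => nE0 (εs i) j (Bs (sA u rr t)))
          (fun t _ j _ => by rw [sub_self, norm_zero]; unfold tolA; split_ifs <;> norm_num)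
          (fun t _ j _ => by rw [sub_self, norm_zero]; unfold tolE; split_ifs <;> norm_num) st
          _ _ hk
        simp only [List.length_cons] at h2
        obtain ⟨G', m1, m2, m3⟩ := ih (i + 1) bs 2 ya' yz' w1 w2 hL.2 (by omega) (by omega) k1 k2 k0
        refine ⟨G', ?_, m2, m3⟩
        have e : i0 - i = (i0 - (i + 1)) + 1 := by omega
        rw [e, List.getD_cons_succ]
        exact m1

/-- computation of all constants -/
def mkECs (c : Cfg) (n : ℕ) : ℕ → (List EC → Bool) → Bool :=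
  Nat.rec (motive := fun _ => ℕ → (List EC → Bool) → Bool) (fun _ k => k [])
    (fun _ ih i k => mkEC c i fun ce => ih (Nat.succ i) fun l => k (ce :: l)) n

theorem mkECs_spec {c : Cfg} (hg : c.Go) (εs : ℕ → ℝ) (n : ℕ) : ∀ (i : ℕ) (k : List EC → Bool),
    (∀ j, i ≤ j → j < i + n → inC (εs j) j) → mkECs c n i k = true →
    ∃ l, k l = true ∧ l.length = n ∧ LE c εs i l := by
  induction n with
  | zero => intro i k _ hk; exact ⟨[], hk, rfl, trivial⟩
  | succ n ih =>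
    intro i k hi hk
    have h0 : mkECs c (n + 1) i k = mkEC c i fun ce => mkECs c n (i + 1) fun l => k (ce :: l) := rfl
    rw [h0] at hk
    obtain ⟨ce, h1, h2⟩ := mkEC_spec hg i (εs i) (hi i le_rfl (by omega)) _ hk
    obtain ⟨l, h3, h4, h5⟩ := ih (i + 1) _ (fun j a b => hi j (by omega) (by omega)) h1
    exact ⟨ce :: l, h3, by simp [h4], h2, h5⟩

/-- check of a cell -/
def scC (c : Cfg) (ecs : List EC) (d : SC) : Bool :=
  chk (Nat.ble (Nat.add d.u d.rr) 480) <| chk (Nat.ble d.rr d.u) <| chk (Nat.ble d.rr 4) <|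
  chk (Nat.ble 1 d.rr) <| chk (Nat.beq d.d.length 17) <|
  sSt c d.u d.rr d.d fun Lo Do Le De => zV c d.u d.rr fun zl => st3 c d.sa d.va fun ya =>
  st3 c d.sz d.vz fun yz =>
  frc (Nat.div 53687091200 d.rr) fun kk => eLp c Lo Do Le De zl kk ecs d.b 4 ya yz

theorem sA_mem (u rr : ℕ) (h1 : u + rr ≤ 480) (h2 : rr ≤ u) (t : ℝ) (ht : |t| ≤ 1) :
    |sA u rr t| ≤ 12 := by
  unfold sA
  have h3 : (u : ℝ) + rr ≤ 480 := by exact_mod_cast h1
  have h4 : (rr : ℝ) ≤ u := by exact_mod_cast h2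
  have h5 : |(rr : ℝ) * t| ≤ rr := by
    rw [abs_mul, abs_of_nonneg (by positivity : (0 : ℝ) ≤ rr)]
    have : (0 : ℝ) ≤ rr := by positivity
    nlinarith [abs_nonneg t]
  have h6 := abs_le.mp h5
  rw [abs_le]
  constructor <;> linarith

section
variable {ε : ℝ} {a e : ℝ → ℕ → ℂ}

/-- the integrand -/
noncomputable def Fs (ε : ℝ) (a e : ℝ → ℕ → ℂ) (s : ℝ) : ℂ :=
  Complex.I * (e s 2 / a s 0 - 2 * e s 1 * a s 1 / a s 0 ^ 2 - e s 0 * a s 2 / a s 0 ^ 2 +
    2 * e s 0 * a s 1 ^ 2 / a s 0 ^ 3) - 2 / (Bs s - Bz ε) ^ 3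

theorem Bs_ne (s : ℝ) : Bs s - Bz ε ≠ 0 := by
  intro h
  have := congrArg Complex.re h
  unfold Bs Bz at this
  simp at this
  norm_num at this

theorem Fs_cont (hca : ∀ j, Continuous fun s => a s j) (hce : ∀ j, Continuous fun s => e s j)
    (s : ℝ) (hs : a s 0 ≠ 0) : ContinuousAt (Fs ε a e) s := by
  have ha := fun j => (hca j).continuousAt (x := s)
  have he := fun j => (hce j).continuousAt (x := s)
  have hB : Continuous fun s : ℝ => Bs s - Bz ε := by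
    have : (fun s : ℝ => Bs s - Bz ε) = fun s : ℝ => ((5 / 4 : ℝ) : ℂ) + (s : ℂ) * Complex.I - Bz ε := by
      ext s
      congr 1
      apply Complex.ext <;> simp [Bs]
    rw [this]
    fun_prop
  unfold Fs
  refine ContinuousAt.sub (ContinuousAt.mul continuousAt_const ?_)
    (continuousAt_const.div (hB.continuousAt.pow 3) (pow_ne_zero 3 (Bs_ne s)))
  refine ContinuousAt.add (ContinuousAt.sub (ContinuousAt.sub ((he 2).div (ha 0) hs) ?_) ?_) ?_
  · exact ((continuousAt_const.mul (he 1)).mul (ha 1)).div ((ha 0).pow 2) (pow_ne_zero 2 hs)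
  · exact ((he 0).mul (ha 2)).div ((ha 0).pow 2) (pow_ne_zero 2 hs)
  · exact ((continuousAt_const.mul (he 0)).mul ((ha 1).pow 2)).div ((ha 0).pow 3)
      (pow_ne_zero 3 hs)

theorem num_fin (I bd r : ℝ) (K : ℕ) (n : ℕ) (hn : 1 ≤ n) (hr : r = n) (hK : K = 53687091200 / n)
    (hbd : 0 ≤ bd) (h : 175921860444160 * I ≤ bd * (K : ℝ)) : r / 20 * I ≤ bd / 65536 := by
  have hrr : (0 : ℝ) < r := by rw [hr]; exact_mod_cast hn
  have h8 : (K : ℝ) ≤ 53687091200 / r := by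
    rw [hK, hr]
    have := Nat.cast_div_le (α := ℝ) (m := 53687091200) (n := n)
    simpa using this
  have h9 : 175921860444160 * I ≤ bd * (53687091200 / r) :=
    h.trans (mul_le_mul_of_nonneg_left h8 hbd)
  rw [mul_div_assoc', le_div_iff₀ hrr] at h9
  rw [div_mul_eq_mul_div, div_le_div_iff₀ (by norm_num) (by norm_num)]
  nlinarith

theorem cont_int (hca : ∀ j, Continuous fun s => a s j) (hce : ∀ j, Continuous fun s => e s j)
    (u rr : ℕ) (k3 : ∀ t : ℝ, |t| ≤ 1 → a (sA u rr t) 0 ≠ 0) :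
    IntervalIntegrable (fun t => Fs ε a e (sA u rr t)) volume (-1) 1 := by
  have hsc : Continuous fun t : ℝ => sA u rr t := by unfold sA; fun_prop
  apply ContinuousOn.intervalIntegrable
  intro t ht
  rw [Set.uIcc_of_le (by norm_num)] at ht
  have ht' : |t| ≤ 1 := abs_le.mpr ht
  exact (ContinuousAt.comp (f := fun t : ℝ => sA u rr t) (g := Fs ε a e)
    (Fs_cont hca hce _ (k3 t ht')) hsc.continuousAt).continuousWithinAt

theorem subst_int (u rr : ℕ) : ∫ s in (((u : ℝ) - 240 - rr) / 20)..(((u : ℝ) - 240 + rr) / 20),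
    ‖Fs ε a e s‖ = (rr : ℝ) / 20 * ∫ t in (-1 : ℝ)..1, ‖Fs ε a e (sA u rr t)‖ := by
  have hsub := intervalIntegral.smul_integral_comp_mul_add (a := -1) (b := 1)
    (fun s => ‖Fs ε a e s‖) ((rr : ℝ) / 20) (((u : ℝ) - 240) / 20)
  have e1 : (rr : ℝ) / 20 * -1 + ((u : ℝ) - 240) / 20 = ((u : ℝ) - 240 - rr) / 20 := by ring
  have e2 : (rr : ℝ) / 20 * 1 + ((u : ℝ) - 240) / 20 = ((u : ℝ) - 240 + rr) / 20 := by ring
  rw [e1, e2] at hsub
  rw [← hsub, smul_eq_mul]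
  congr 1
  apply intervalIntegral.integral_congr
  intro t _
  show ‖Fs ε a e ((rr : ℝ) / 20 * t + ((u : ℝ) - 240) / 20)‖ = ‖Fs ε a e (sA u rr t)‖
  congr 2
  unfold sA
  ring

theorem scC_spec (hca : ∀ j, Continuous fun s => a s j) (hce : ∀ j, Continuous fun s => e s j)
    (ha : ∀ s, |s| ≤ 12 → ∀ j ≤ 2, ‖a s j - nA0 ε j (Bs s)‖ ≤ tolA j)
    (he : ∀ s, |s| ≤ 12 → ∀ j ≤ 2, ‖e s j - nE0 ε j (Bs s)‖ ≤ tolE j)
    (εs : ℕ → ℝ) (i0 : ℕ) (hi0 : i0 < 16) (hεs : εs i0 = ε) (ecs : List EC)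
    (hlen : ecs.length = 16) (hL : LE cN εs 0 ecs) (d : SC) (h : scC cN ecs d = true) :
    (∀ t : ℝ, |t| ≤ 1 → a (sA d.u d.rr t) 0 ≠ 0) ∧
    ∫ s in (((d.u : ℝ) - 240 - d.rr) / 20)..(((d.u : ℝ) - 240 + d.rr) / 20), ‖Fs ε a e s‖ ≤
      (d.b.getD i0 0 : ℝ) / 65536 := by
  unfold scC at h
  simp only [chk_true, Nat.ble_eq, frc_eq] at h
  obtain ⟨g1, g2, g3, g4, g5, h⟩ := h
  have g1' : d.u + d.rr ≤ 480 := g1
  have g5' : d.d.length = 17 := Nat.eq_of_beq_eq_true g5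
  obtain ⟨Lo, Do, Le, De, h, hS⟩ := sSt_spec d.u d.rr (by omega) g3 d.d g5' _ h
  obtain ⟨zl, h, hz⟩ := zV_spec d.u d.rr (by omega) g3 _ h
  obtain ⟨ya, wa, h, hya⟩ := st3_spec _ _ _ h
  obtain ⟨yz, wz, h, hyz⟩ := st3_spec _ _ _ h
  obtain ⟨G, k1, k2, k3⟩ := eLp_spec hS hz εs i0 (fun j t => a (sA d.u d.rr t) j)
    (fun j t => e (sA d.u d.rr t) j)
    (fun t ht j hj => by rw [hεs]; exact ha _ (sA_mem d.u d.rr g1' g2 t ht) j hj)
    (fun t ht j hj => by rw [hεs]; exact he _ (sA_mem d.u d.rr g1' g2 t ht) j hj)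
    _ ecs 0 d.b 4 ya yz wa wz hL (Nat.zero_le _) (by rw [hlen]; omega) hya hyz h
  refine ⟨k3, ?_⟩
  rw [hεs] at k2
  have hv : vG ε d.u d.rr (fun j t => a (sA d.u d.rr t) j) (fun j t => e (sA d.u d.rr t) j) =
    fun t => Fs ε a e (sA d.u d.rr t) := rfl
  rw [hv] at k2
  have h7 := l2c_spec cN_go rfl k2 (cont_int hca hce d.u d.rr k3) _ k1
  have one' : (cN.one : ℝ) = 175921860444160 := by rw [cN_one]; norm_num
  rw [Nat.sub_zero, one', Nat.cast_mul] at h7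
  rw [subst_int]
  exact num_fin _ _ _ _ d.rr g4 rfl rfl (Nat.cast_nonneg _) h7

/-- check of a block -/
def blk (c : Cfg) (ecs : List EC) (L : List SC) : ℕ → ℕ → Bool :=
  List.rec (motive := fun _ => ℕ → ℕ → Bool) (fun p q => Nat.beq p q)
    (fun d _ ih p q => chk (Nat.beq d.u (Nat.add p d.rr)) (chk (scC c ecs d)
      (ih (Nat.add d.u d.rr) q))) L

theorem blk_cons (c : Cfg) (ecs : List EC) (d : SC) (L : List SC) (p q : ℕ) :
    blk c ecs (d :: L) p q = chk (Nat.beq d.u (p + d.rr)) (chk (scC c ecs d)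
      (blk c ecs L (d.u + d.rr) q)) := rfl

/-- sum of the bounds -/
def smB (L : List SC) (i : ℕ) : ℕ := List.rec (motive := fun _ => ℕ) 0
  (fun d _ ih => Nat.add (d.b.getD i 0) ih) L

theorem smB_cons (d : SC) (L : List SC) (i : ℕ) : smB (d :: L) i = d.b.getD i 0 + smB L i := rfl

theorem blk_spec (hca : ∀ j, Continuous fun s => a s j) (hce : ∀ j, Continuous fun s => e s j)
    (ha : ∀ s, |s| ≤ 12 → ∀ j ≤ 2, ‖a s j - nA0 ε j (Bs s)‖ ≤ tolA j)
    (he : ∀ s, |s| ≤ 12 → ∀ j ≤ 2, ‖e s j - nE0 ε j (Bs s)‖ ≤ tolE j)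
    (εs : ℕ → ℝ) (i0 : ℕ) (hi0 : i0 < 16) (hεs : εs i0 = ε) (ecs : List EC)
    (hlen : ecs.length = 16) (hL : LE cN εs 0 ecs) (L : List SC) : ∀ p q : ℕ,
    blk cN ecs L p q = true → p ≤ q ∧
    (∀ s, ((p : ℝ) - 240) / 20 ≤ s → s ≤ ((q : ℝ) - 240) / 20 → L ≠ [] → a s 0 ≠ 0) ∧
    ∫ s in (((p : ℝ) - 240) / 20)..(((q : ℝ) - 240) / 20), ‖Fs ε a e s‖ ≤
      (smB L i0 : ℝ) / 65536 := by
  induction L with
  | nil =>
    intro p q h
    have hpq : p = q := Nat.eq_of_beq_eq_true h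
    subst hpq
    refine ⟨le_rfl, fun s _ _ h => absurd rfl h, ?_⟩
    rw [intervalIntegral.integral_same]
    positivity
  | cons d L ih =>
    intro p q h
    rw [blk_cons, chk_true, chk_true] at h
    obtain ⟨h1, h2, h3⟩ := h
    have hu : d.u = p + d.rr := Nat.eq_of_beq_eq_true h1
    obtain ⟨i1, i2, i3⟩ := ih _ _ h3
    obtain ⟨k1, k2⟩ := scC_spec hca hce ha he εs i0 hi0 hεs ecs hlen hL d h2
    have hrr : 1 ≤ d.rr := by
      unfold scC at h2
      simp only [chk_true, Nat.ble_eq] at h2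
      exact h2.2.2.2.1
    have hrr' : (0 : ℝ) < d.rr := by exact_mod_cast hrr
    have hu' : (d.u : ℝ) = p + d.rr := by exact_mod_cast hu
    have e1 : ((d.u : ℝ) - 240 - d.rr) / 20 = ((p : ℝ) - 240) / 20 := by rw [hu']; ring
    have e2 : ((d.u : ℝ) - 240 + d.rr) / 20 = (((d.u + d.rr : ℕ) : ℝ) - 240) / 20 := by
      push_cast; ring
    rw [e1, e2] at k2
    set m := (((d.u + d.rr : ℕ) : ℝ) - 240) / 20 with hm
    -- nonvanishing on the first cell
    have n1 : ∀ s, ((p : ℝ) - 240) / 20 ≤ s → s ≤ m → a s 0 ≠ 0 := by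
      intro s s1 s2
      have e3 : s = sA d.u d.rr ((20 * s - (d.u - 240)) / d.rr) := by
        unfold sA
        field_simp
        ring
      rw [e3]
      apply k1
      rw [abs_le, le_div_iff₀ hrr', div_le_iff₀ hrr']
      rw [hm] at s2
      push_cast at s2
      constructor <;> linarith
    have n2 : ∀ s, ((p : ℝ) - 240) / 20 ≤ s → s ≤ ((q : ℝ) - 240) / 20 → a s 0 ≠ 0 := by
      intro s s1 s2
      by_cases hs : s ≤ m
      · exact n1 s s1 hs
      · push Not at hs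
        refine i2 s hs.le s2 ?_
        intro hnil
        rw [hnil] at h3
        have hq : d.u + d.rr = q := Nat.eq_of_beq_eq_true h3
        rw [← hq] at s2
        exact absurd s2 (not_le.mpr hs)
    have hpm : ((p : ℝ) - 240) / 20 ≤ m := by
      rw [hm, Nat.cast_add, hu']
      linarith
    have hmq : m ≤ ((q : ℝ) - 240) / 20 := by
      rw [hm]
      have : (((d.u + d.rr : ℕ)) : ℝ) ≤ q := by exact_mod_cast i1
      linarith
    have hint : ∀ x y : ℝ, ((p : ℝ) - 240) / 20 ≤ x → x ≤ y → y ≤ ((q : ℝ) - 240) / 20 →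
        IntervalIntegrable (fun s => ‖Fs ε a e s‖) volume x y := by
      intro x y hx hxy hy
      apply ContinuousOn.intervalIntegrable
      intro s hs
      rw [Set.uIcc_of_le hxy] at hs
      exact (Fs_cont hca hce s (n2 s (hx.trans hs.1) (hs.2.trans hy))).norm.continuousWithinAt
    refine ⟨by omega, fun s s1 s2 _ => n2 s s1 s2, ?_⟩
    rw [← intervalIntegral.integral_add_adjacent_intervals (hint _ _ le_rfl hpm hmq)
      (hint _ _ hpm hmq le_rfl), smB_cons]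
    push_cast
    rw [add_div]
    exact add_le_add k2 i3

end

/-- full check of a block -/
def blkF (c : Cfg) (L : List SC) (p q : ℕ) : Bool := mkECs c 16 0 fun ecs => blk c ecs L p q

/-- the cell of `ε` -/
theorem exists_inC (ε : ℝ) (h0 : 0 < ε) (h1 : ε ^ 3 ≤ 3 / 1000) : ∃ i < 16, inC ε i := by
  have h2 : ε ≤ 14424 / 100000 := by
    by_contra hcon
    push Not at hcon
    have h3 : (14424 / 100000 : ℝ) ^ 3 < ε ^ 3 := pow_lt_pow_left₀ hcon (by norm_num) (by norm_num)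
    norm_num at h3 h1
    linarith
  set x : ℝ := ε * 200000 / 1803 with hx
  have hx0 : 0 ≤ x := by positivity
  have hx16 : x ≤ 16 := by
    rw [hx, div_le_iff₀ (by norm_num)]
    norm_num at h2 ⊢
    linarith
  have hεx : ε = x * 1803 / 200000 := by rw [hx]; ring
  by_cases h : x = 16
  · refine ⟨15, by norm_num, ?_⟩
    unfold inC
    rw [hεx, h]
    constructor <;> norm_num
  · have hlt : x < 16 := lt_of_le_of_ne hx16 h
    have h4 := Nat.floor_le hx0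
    have h5 := Nat.lt_floor_add_one x
    refine ⟨⌊x⌋₊, ?_, ?_⟩
    · rw [Nat.floor_lt hx0]; exact_mod_cast hlt
    · unfold inC
      rw [hεx]
      push_cast
      constructor
      · linarith
      · linarith

/-- the centre of a cell -/
theorem inC_centre (j : ℕ) : inC ((2 * j + 1 : ℕ) * 1803 / 400000) j := by
  unfold inC
  push_cast
  constructor <;> linarith

theorem blkF_spec {ε : ℝ} {a e : ℝ → ℕ → ℂ} (i0 : ℕ) (hi0 : i0 < 16) (hi : inC ε i0)
    (hca : ∀ j, Continuous fun s => a s j) (hce : ∀ j, Continuous fun s => e s j)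
    (ha : ∀ s, |s| ≤ 12 → ∀ j ≤ 2, ‖a s j - nA0 ε j (Bs s)‖ ≤ tolA j)
    (he : ∀ s, |s| ≤ 12 → ∀ j ≤ 2, ‖e s j - nE0 ε j (Bs s)‖ ≤ tolE j)
    (L : List SC) (hL : L ≠ []) (p q : ℕ) (h : blkF cN L p q = true) : p ≤ q ∧
    (∀ s, ((p : ℝ) - 240) / 20 ≤ s → s ≤ ((q : ℝ) - 240) / 20 → a s 0 ≠ 0) ∧
    ∫ s in (((p : ℝ) - 240) / 20)..(((q : ℝ) - 240) / 20), ‖Fs ε a e s‖ ≤
      (smB L i0 : ℝ) / 65536 := by
  unfold blkF at h
  set εs : ℕ → ℝ := fun j => if j = i0 then ε else (2 * j + 1 : ℕ) * 1803 / 400000 with hεs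
  have hin : ∀ j, 0 ≤ j → j < 0 + 16 → inC (εs j) j := by
    intro j _ _
    rw [hεs]
    by_cases hj : j = i0
    · simp only [hj, if_true]; exact hi
    · simp only [hj, if_false]; exact inC_centre j
  obtain ⟨ecs, h1, h2, h3⟩ := mkECs_spec cN_go εs 16 0 _ hin h
  obtain ⟨k1, k2, k3⟩ := blk_spec hca hce ha he εs i0 hi0 (by rw [hεs]; simp) ecs h2 h3 L p q h1
  exact ⟨k1, fun s s1 s2 => k2 s s1 s2 hL, k3⟩

end MP_d1b55a.K
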