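import Pool.Agent.Lib.MP_d1b55a_co.NTF

/-! MP_d1b55a_co, near arc: certificate for the fit at `h = h2`, cells 0 to 20. -/

namespace MP_d1b55a.TE

theorem certB0 : cellsK cs1 (nPl 1) (nQl 1) 567258431794929918416956723967 0 21 = true := by
  decide +kernel

end MP_d1b55a.TE
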