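import Pool.Agent.Lib.MP_d1b55a_co.NA0

/-!
MP_d1b55a_co, near arc: a small engine of real and complex Taylor models with integer coefficients
(scale `D = 2^80`, parameter `t ∈ [-1,1]`) for the numerical certificates NA2, NA3.
-/

open Finset

namespace MP_d1b55a.TE

/-- value of an integer polynomial -/
noncomputable def ev (t : ℝ) : List ℤ → ℝ
  | [] => 0
  | a :: l => a + t * ev t l

/-- sum of the absolute values of the coefficients -/
def nrm : List ℤ → ℕ
  | [] => 0
  | a :: l => a.natAbs + nrm l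

def addL : List ℤ → List ℤ → List ℤ
  | [], m => m
  | a :: l, [] => a :: l
  | a :: l, b :: m => (a + b) :: addL l m

def smL (a : ℤ) : List ℤ → List ℤ
  | [] => []
  | b :: m => (a * b) :: smL a m

def mulL : List ℤ → List ℤ → List ℤ
  | [], _ => []
  | a :: l, m => addL (smL a m) (0 :: mulL l m)

def divL (d : ℤ) : List ℤ → List ℤ
  | [] => []
  | b :: m => (b / d) :: divL d m

theorem abs_ev_le {t : ℝ} (ht : |t| ≤ 1) (l : List ℤ) : |ev t l| ≤ nrm l := by
  induction l with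
  | nil => simp [ev, nrm]
  | cons a l ih =>
    simp only [ev, nrm]
    push_cast
    have h1 : |(a : ℝ)| = ((a.natAbs : ℕ) : ℝ) := by
      rw [Nat.cast_natAbs, Int.cast_abs]
    calc |(a : ℝ) + t * ev t l| ≤ |(a : ℝ)| + |t * ev t l| := abs_add_le _ _
      _ ≤ ((a.natAbs : ℕ) : ℝ) + 1 * nrm l := by
          rw [h1, abs_mul]
          exact add_le_add le_rfl (mul_le_mul ht ih (abs_nonneg _) zero_le_one)
      _ = _ := by rw [one_mul]

theorem ev_addL (t : ℝ) : ∀ l m : List ℤ, ev t (addL l m) = ev t l + ev t m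
  | [], m => by simp [addL, ev]
  | a :: l, [] => by simp [addL, ev]
  | a :: l, b :: m => by
    simp only [addL, ev, ev_addL t l m]
    push_cast
    ring

theorem ev_smL (t : ℝ) (a : ℤ) (m : List ℤ) : ev t (smL a m) = a * ev t m := by
  induction m with
  | nil => simp [smL, ev]
  | cons b m ih =>
    simp only [smL, ev, ih]
    push_cast
    ring

theorem ev_mulL (t : ℝ) (l m : List ℤ) : ev t (mulL l m) = ev t l * ev t m := by
  induction l with
  | nil => simp [mulL, ev]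
  | cons a l ih =>
    simp only [mulL, ev, ev_addL, ev_smL, ih]
    push_cast
    ring

theorem ediv_err (a d : ℤ) (hd : 0 < d) : |(a : ℝ) / d - ((a / d : ℤ) : ℝ)| ≤ 1 := by
  have hd' : (0 : ℝ) < d := by exact_mod_cast hd
  have h1 : d * (a / d) ≤ a := Int.mul_ediv_self_le hd.ne'
  have h2 : a < d * (a / d) + d := Int.lt_mul_ediv_self_add hd
  have h1' : (d : ℝ) * ((a / d : ℤ) : ℝ) ≤ a := by exact_mod_cast h1
  have h2' : (a : ℝ) < d * ((a / d : ℤ) : ℝ) + d := by exact_mod_cast h2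
  rw [abs_le]
  constructor
  · have : ((a / d : ℤ) : ℝ) ≤ a / d := by rw [le_div_iff₀ hd']; linarith
    linarith
  · have : (a : ℝ) / d ≤ ((a / d : ℤ) : ℝ) + 1 := by rw [div_le_iff₀ hd']; linarith
    linarith

theorem ev_divL {t : ℝ} (ht : |t| ≤ 1) (d : ℤ) (hd : 0 < d) (m : List ℤ) :
    |ev t m / d - ev t (divL d m)| ≤ m.length := by
  induction m with
  | nil => simp [divL, ev]
  | cons b m ih =>
    simp only [divL, ev, List.length_cons]
    push_cast
    have h1 := ediv_err b d hd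
    have h2 : (b + t * ev t m) / d - (((b / d : ℤ) : ℝ) + t * ev t (divL d m)) =
        ((b : ℝ) / d - ((b / d : ℤ) : ℝ)) + t * (ev t m / d - ev t (divL d m)) := by ring
    rw [h2]
    calc _ ≤ |(b : ℝ) / d - ((b / d : ℤ) : ℝ)| + |t * (ev t m / d - ev t (divL d m))| :=
          abs_add_le _ _
      _ ≤ 1 + 1 * m.length := by
          rw [abs_mul]
          exact add_le_add h1 (mul_le_mul ht ih (abs_nonneg _) zero_le_one)
      _ = _ := by ring

/-- splitting after `n` coefficients -/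
theorem ev_take_drop (t : ℝ) : ∀ (n : ℕ) (l : List ℤ),
    ev t l = ev t (l.take n) + t ^ n * ev t (l.drop n)
  | 0, l => by simp [ev]
  | n + 1, [] => by simp [ev]
  | n + 1, a :: l => by
    simp only [List.take_succ_cons, List.drop_succ_cons, ev]
    rw [ev_take_drop t n l]
    ring

/-- the scale -/
def D : ℕ := 1208925819614629174706176

theorem D_pos : 0 < D := by decide

/-- number of coefficients kept -/
def nd : ℕ := 10

/-- Taylor model -/
structure TM where
  c : List ℤ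
  e : ℕ

/-- meaning of a Taylor model at `t` -/
def ok (A : TM) (t f : ℝ) : Prop := |(D : ℝ) * f - ev t A.c| ≤ A.e

def TM.mul (A B : TM) : TM :=
  ⟨divL D ((mulL A.c B.c).take nd),
    (nrm A.c * B.e + nrm B.c * A.e + A.e * B.e + nrm ((mulL A.c B.c).drop nd)) / D + 11⟩

def TM.add (A B : TM) : TM := ⟨addL A.c B.c, A.e + B.e⟩

/-- multiplication by an integer -/
def TM.zm (a : ℤ) (A : TM) : TM := ⟨smL a A.c, a.natAbs * A.e⟩

/-- division by a natural number -/
def TM.nd (A : TM) (d : ℕ) : TM := ⟨divL d A.c, A.e / d + 1 + A.c.length⟩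

theorem div_floor (a d : ℕ) (hD : 0 < d) : (a : ℝ) / d ≤ ((a / d : ℕ) : ℝ) + 1 := by
  have hD' : (0 : ℝ) < d := by exact_mod_cast hD
  have h1 : a < d * (a / d) + d := by
    have := Nat.div_add_mod a d
    have := Nat.mod_lt a hD
    omega
  have h2 : (a : ℝ) < d * ((a / d : ℕ) : ℝ) + d := by exact_mod_cast h1
  rw [div_le_iff₀ hD']; linarith

theorem ok_mul {A B : TM} {t f g : ℝ} (ht : |t| ≤ 1) (hA : ok A t f) (hB : ok B t g) :
    ok (A.mul B) t (f * g) := by
  unfold ok at *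
  simp only [TM.mul]
  have hD : (0 : ℝ) < D := by exact_mod_cast D_pos
  set p := mulL A.c B.c with hp
  have e1 : ev t p = ev t A.c * ev t B.c := ev_mulL t _ _
  have e2 := ev_take_drop t TE.nd p
  have hn : |ev t (p.drop TE.nd)| ≤ nrm (p.drop TE.nd) := abs_ev_le ht _
  have htn : |t ^ TE.nd| ≤ 1 := by rw [abs_pow]; exact pow_le_one₀ (abs_nonneg t) ht
  have h3 : |t ^ TE.nd * ev t (p.drop TE.nd)| ≤ nrm (p.drop TE.nd) := by
    rw [abs_mul]
    calc _ ≤ 1 * |ev t (p.drop TE.nd)| := mul_le_mul_of_nonneg_right htn (abs_nonneg _)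
      _ ≤ _ := by rw [one_mul]; exact hn
  have ha := abs_ev_le ht A.c
  have hb := abs_ev_le ht B.c
  have h4 : |(D : ℝ) * f * (D * g) - ev t A.c * ev t B.c| ≤
      nrm A.c * B.e + nrm B.c * A.e + A.e * B.e := by
    have : (D : ℝ) * f * (D * g) - ev t A.c * ev t B.c =
        ev t A.c * (D * g - ev t B.c) + ev t B.c * (D * f - ev t A.c) +
        (D * f - ev t A.c) * (D * g - ev t B.c) := by ring
    rw [this]
    refine (abs_add_le _ _).trans (add_le_add ((abs_add_le _ _).trans (add_le_add ?_ ?_)) ?_)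
    · rw [abs_mul]
      exact mul_le_mul ha hB (abs_nonneg _) (Nat.cast_nonneg _)
    · rw [abs_mul]
      exact mul_le_mul hb hA (abs_nonneg _) (Nat.cast_nonneg _)
    · rw [abs_mul]
      exact mul_le_mul hA hB (abs_nonneg _) (Nat.cast_nonneg _)
  have hDz : (0 : ℤ) < (D : ℤ) := by exact_mod_cast D_pos
  have h5 := ev_divL ht (D : ℤ) hDz (p.take TE.nd)
  have h6 : ((p.take TE.nd).length : ℝ) ≤ 10 := by
    have : (p.take TE.nd).length ≤ 10 := by rw [List.length_take]; exact min_le_left _ _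
    exact_mod_cast this
  set M := nrm A.c * B.e + nrm B.c * A.e + A.e * B.e + nrm (p.drop TE.nd) with hM
  have h7 : |(D : ℝ) * f * (D * g) - ev t (p.take TE.nd)| ≤ M := by
    have : (D : ℝ) * f * (D * g) - ev t (p.take TE.nd) =
        ((D : ℝ) * f * (D * g) - ev t A.c * ev t B.c) + t ^ TE.nd * ev t (p.drop TE.nd) := by
      rw [← e1, e2]; ring
    rw [this, hM]
    push_cast
    exact (abs_add_le _ _).trans (add_le_add h4 h3)
  have h8 : (D : ℝ) * (f * g) - ev t (divL D (p.take TE.nd)) =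
      ((D : ℝ) * f * (D * g) - ev t (p.take TE.nd)) / D +
      (ev t (p.take TE.nd) / ((D : ℤ) : ℝ) - ev t (divL D (p.take TE.nd))) := by
    have : ((D : ℤ) : ℝ) = (D : ℝ) := by norm_cast
    rw [this]
    field_simp
    ring
  rw [h8]
  have h9 := div_floor M D D_pos
  have h11 : ((D : ℤ) : ℝ) = (D : ℝ) := by norm_cast
  rw [h11] at h5 ⊢
  have h10 : |((D : ℝ) * f * (D * g) - ev t (p.take TE.nd)) / D| ≤ M / D := by
    rw [abs_div, abs_of_pos hD]
    exact div_le_div_of_nonneg_right h7 hD.le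
  refine (abs_add_le _ _).trans ?_
  push_cast
  push_cast at h9
  linarith

theorem ok_add {A B : TM} {t f g : ℝ} (hA : ok A t f) (hB : ok B t g) :
    ok (A.add B) t (f + g) := by
  unfold ok at *
  simp only [TM.add]
  rw [ev_addL]
  have : (D : ℝ) * (f + g) - (ev t A.c + ev t B.c) =
      ((D : ℝ) * f - ev t A.c) + (D * g - ev t B.c) := by ring
  rw [this]
  push_cast
  exact (abs_add_le _ _).trans (add_le_add hA hB)

theorem ok_zm {A : TM} {t f : ℝ} (a : ℤ) (hA : ok A t f) : ok (A.zm a) t (a * f) := by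
  unfold ok at *
  simp only [TM.zm]
  rw [ev_smL]
  have : (D : ℝ) * (a * f) - a * ev t A.c = a * (D * f - ev t A.c) := by ring
  rw [this, abs_mul]
  have h1 : |(a : ℝ)| = ((a.natAbs : ℕ) : ℝ) := by rw [Nat.cast_natAbs, Int.cast_abs]
  rw [h1]
  push_cast
  exact mul_le_mul_of_nonneg_left hA (Nat.cast_nonneg _)

theorem ok_nd {A : TM} {t f : ℝ} (ht : |t| ≤ 1) (d : ℕ) (hd : 0 < d) (hA : ok A t f) :
    ok (A.nd d) t (f / d) := by
  unfold ok at *
  simp only [TM.nd]
  have hd' : (0 : ℝ) < d := by exact_mod_cast hd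
  have hdz : (0 : ℤ) < (d : ℤ) := by exact_mod_cast hd
  have h1 := ev_divL ht (d : ℤ) hdz A.c
  have h2 := div_floor A.e d hd
  have h3 : ((d : ℤ) : ℝ) = (d : ℝ) := by norm_cast
  rw [h3] at h1
  have h4 : (D : ℝ) * (f / d) - ev t (divL d A.c) = (D * f - ev t A.c) / d +
      (ev t A.c / d - ev t (divL d A.c)) := by
    field_simp
    ring
  rw [h4]
  have h5 : |(D * f - ev t A.c) / (d : ℝ)| ≤ A.e / d := by
    rw [abs_div, abs_of_pos hd']
    exact div_le_div_of_nonneg_right hA hd'.le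
  refine (abs_add_le _ _).trans ?_
  push_cast
  linarith

theorem ok_mono {A : TM} {t f g : ℝ} (hA : ok A t f) (e : ℕ) (h : (D : ℝ) * |g - f| ≤ e) :
    ok ⟨A.c, A.e + e⟩ t g := by
  unfold ok at *
  have hD : (0 : ℝ) < D := by exact_mod_cast D_pos
  have : (D : ℝ) * g - ev t A.c = (D * f - ev t A.c) + D * (g - f) := by ring
  simp only
  rw [this]
  push_cast
  refine (abs_add_le _ _).trans (add_le_add hA ?_)
  rw [abs_mul, abs_of_pos hD]
  exact h

/-- constant `a/d` -/
def cst (a : ℤ) (d : ℕ) : TM := ⟨[a * D / d], 1⟩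

theorem ok_cst (t : ℝ) (a : ℤ) (d : ℕ) (hd : 0 < d) : ok (cst a d) t (a / d) := by
  unfold ok cst
  simp only [ev, mul_zero, add_zero]
  have hd' : (0 : ℝ) < d := by exact_mod_cast hd
  have hdz : (0 : ℤ) < (d : ℤ) := by exact_mod_cast hd
  have h1 := ediv_err (a * D) d hdz
  push_cast at h1 ⊢
  have : (D : ℝ) * (a / d) = a * D / d := by ring
  rw [this]
  exact h1

/-! ### forcing of arguments in kernel evaluation -/

def frcN {α : Type} (n : ℕ) (f : ℕ → α) : α :=
  Nat.rec (motive := fun _ => α) (f 0) (fun k _ => f (Nat.succ k)) n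

theorem frcN_eq {α : Type} (n : ℕ) (f : ℕ → α) : frcN n f = f n := by
  cases n <;> rfl

def frcI {α : Type} (a : ℤ) (f : ℤ → α) : α :=
  match a with
  | Int.ofNat n => frcN n fun n => f (Int.ofNat n)
  | Int.negSucc n => frcN n fun n => f (Int.negSucc n)

theorem frcI_eq {α : Type} (a : ℤ) (f : ℤ → α) : frcI a f = f a := by
  cases a <;> simp [frcI, frcN_eq]

def frcL {α : Type} (l : List ℤ) : (List ℤ → α) → α :=
  List.rec (motive := fun _ => (List ℤ → α) → α) (fun f => f [])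
    (fun a _ ih f => frcI a fun a => ih fun l => f (a :: l)) l

theorem frcL_eq {α : Type} (l : List ℤ) : ∀ f : List ℤ → α, frcL l f = f l := by
  induction l with
  | nil => intro f; rfl
  | cons a l ih =>
    intro f
    show frcI a (fun a => frcL l fun l => f (a :: l)) = f (a :: l)
    rw [frcI_eq, ih]

def frcT {α : Type} (A : TM) (k : TM → α) : α :=
  frcL A.c fun c => frcN A.e fun e => k ⟨c, e⟩

theorem frcT_eq {α : Type} (A : TM) (k : TM → α) : frcT A k = k A := by
  simp [frcT, frcL_eq, frcN_eq]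

/-- forced product -/
def mulK {α : Type} (A B : TM) (k : TM → α) : α :=
  frcL (mulL A.c B.c) fun p => frcL (divL D (p.take nd)) fun c =>
    frcN ((nrm A.c * B.e + nrm B.c * A.e + A.e * B.e + nrm (p.drop nd)) / D + 11) fun e => k ⟨c, e⟩

theorem mulK_eq {α : Type} (A B : TM) (k : TM → α) : mulK A B k = k (A.mul B) := by
  simp [mulK, frcL_eq, frcN_eq, TM.mul]

/-- Horner scheme of the exponential -/
def horK (A : TM) : ℕ → TM → (TM → Bool) → Bool
  | 0, acc, k => k acc
  | m + 1, acc, k => mulK A acc fun B => frcT ((cst 1 1).add (B.nd (m + 1))) fun acc' =>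
      horK A m acc' k

theorem horK_spec {A : TM} {t z : ℝ} (ht : |t| ≤ 1) (hA : ok A t z) (m : ℕ) :
    ∀ (acc : TM) (k : TM → Bool) (a : ℝ), ok acc t a → horK A m acc k = true →
      ∃ R : TM, ok R t (∑ i ∈ range m, z ^ i / (i.factorial : ℝ) + z ^ m / (m.factorial : ℝ) * a) ∧
        k R = true := by
  induction m with
  | zero =>
    intro acc k a ha h
    exact ⟨acc, by simpa using ha, h⟩
  | succ m ih =>
    intro acc k a ha h
    rw [horK, mulK_eq, frcT_eq] at h
    have h1 := ok_cst t 1 1 one_pos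
    have h2 := ok_nd ht (m + 1) (Nat.succ_pos m) (ok_mul ht hA ha)
    have h3 := ok_add h1 h2
    obtain ⟨R, hR, hk⟩ := ih _ k _ h3 h
    refine ⟨R, ?_, hk⟩
    have e : ∑ i ∈ range m, z ^ i / (i.factorial : ℝ) + z ^ m / (m.factorial : ℝ) *
        (((1 : ℤ) : ℝ) / ((1 : ℕ) : ℝ) + z * a / ((m + 1 : ℕ) : ℝ)) =
        ∑ i ∈ range (m + 1), z ^ i / (i.factorial : ℝ) +
          z ^ (m + 1) / ((m + 1).factorial : ℝ) * a := by
      rw [sum_range_succ, Nat.factorial_succ]
      have h4 : (m.factorial : ℝ) ≠ 0 := by exact_mod_cast m.factorial_ne_zero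
      have h5 : ((m + 1 : ℕ) : ℝ) ≠ 0 := by exact_mod_cast Nat.succ_ne_zero m
      rw [Nat.cast_mul]
      field_simp
      push_cast
      ring
    rwa [← e]

/-- repeated squaring -/
def sqK : ℕ → TM → (TM → Bool) → Bool
  | 0, A, k => k A
  | n + 1, A, k => mulK A A fun B => sqK n B k

theorem sqK_spec {t : ℝ} (ht : |t| ≤ 1) (n : ℕ) : ∀ (A : TM) (k : TM → Bool) (a : ℝ), ok A t a →
    sqK n A k = true → ∃ R : TM, ok R t (a ^ 2 ^ n) ∧ k R = true := by
  induction n with
  | zero =>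
    intro A k a ha h
    exact ⟨A, by simpa using ha, h⟩
  | succ n ih =>
    intro A k a ha h
    rw [sqK, mulK_eq] at h
    obtain ⟨R, hR, hk⟩ := ih _ k _ (ok_mul ht ha ha) h
    refine ⟨R, ?_, hk⟩
    have : (a * a) ^ 2 ^ n = a ^ 2 ^ (n + 1) := by
      rw [← pow_two, ← pow_mul, pow_succ, mul_comm (2 ^ n)]
    rwa [← this]

/-- `exp A` with `n` halvings, `m` terms -/
def expK (A : TM) (n m : ℕ) (k : TM → Bool) : Bool :=
  frcT (A.nd (2 ^ n)) fun B => frcN (nrm B.c + B.e) fun b =>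
    Nat.ble b D && horK B m ⟨[(D : ℤ)], 0⟩ fun R =>
      frcN (R.e + (b ^ (m + 1) * (m + 2) / (D ^ m * ((m + 1).factorial * (m + 1))) + 1)) fun e =>
        sqK n ⟨R.c, e⟩ k

theorem ok_abs {A : TM} {t f : ℝ} (ht : |t| ≤ 1) (hA : ok A t f) :
    (D : ℝ) * |f| ≤ ((nrm A.c + A.e : ℕ) : ℝ) := by
  unfold ok at hA
  have hD : (0 : ℝ) < D := by exact_mod_cast D_pos
  have h1 := abs_ev_le ht A.c
  have h2 : (D : ℝ) * |f| = |D * f| := by rw [abs_mul, abs_of_pos hD]
  rw [h2]
  have h3 : (D : ℝ) * f = (D * f - ev t A.c) + ev t A.c := by ring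
  rw [h3]
  push_cast
  exact (abs_add_le _ _).trans (by linarith)

theorem expK_spec {A : TM} {t x : ℝ} (ht : |t| ≤ 1) (hA : ok A t x) (n m : ℕ) (k : TM → Bool)
    (h : expK A n m k = true) : ∃ R : TM, ok R t (Real.exp x) ∧ k R = true := by
  unfold expK at h
  rw [frcT_eq, frcN_eq, Bool.and_eq_true, Nat.ble_eq] at h
  obtain ⟨hb, h⟩ := h
  have hB := ok_nd ht (2 ^ n) (by positivity) hA
  have hD : (0 : ℝ) < D := by exact_mod_cast D_pos
  set B := A.nd (2 ^ n) with hBd
  set y : ℝ := x / ((2 ^ n : ℕ) : ℝ) with hy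
  have hab := ok_abs ht hB
  set b := nrm B.c + B.e with hbd
  have h1 : ok (⟨[(D : ℤ)], 0⟩ : TM) t 1 := by
    unfold ok; simp [ev]
  obtain ⟨R, hR, hk⟩ := horK_spec ht hB m _ _ 1 h1 h
  rw [frcN_eq] at hk
  have hy1 : |y| ≤ (b : ℝ) / D := by rw [le_div_iff₀ hD, mul_comm]; exact hab
  have hbD : (b : ℝ) / D ≤ 1 := by rw [div_le_one hD]; exact_mod_cast hb
  have h2 := Real.exp_bound (hy1.trans hbD) (Nat.succ_pos m)
  have h3 : ∑ i ∈ range m, y ^ i / (i.factorial : ℝ) + y ^ m / (m.factorial : ℝ) * 1 =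
      ∑ i ∈ range (m + 1), y ^ i / (i.factorial : ℝ) := by
    rw [sum_range_succ, mul_one]
  rw [h3] at hR
  have h4 : |y| ^ (m + 1) ≤ ((b : ℝ) / D) ^ (m + 1) := pow_le_pow_left₀ (abs_nonneg _) hy1 _
  have hfac : (0 : ℝ) < (((m + 1).factorial * (m + 1) : ℕ) : ℝ) := by
    exact_mod_cast Nat.mul_pos (Nat.factorial_pos _) (Nat.succ_pos m)
  have h5 : (D : ℝ) * |Real.exp y - ∑ i ∈ range (m + 1), y ^ i / (i.factorial : ℝ)| ≤
      ((b ^ (m + 1) * (m + 2) / (D ^ m * ((m + 1).factorial * (m + 1))) + 1 : ℕ) : ℝ) := by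
    have h6 := div_floor (b ^ (m + 1) * (m + 2)) (D ^ m * ((m + 1).factorial * (m + 1)))
      (Nat.mul_pos (pow_pos D_pos _) (Nat.mul_pos (Nat.factorial_pos _) (Nat.succ_pos m)))
    push_cast at h6 h2 hfac ⊢
    refine le_trans ?_ h6
    calc (D : ℝ) * |Real.exp y - ∑ i ∈ range (m + 1), y ^ i / (i.factorial : ℝ)|
        ≤ D * (((b : ℝ) / D) ^ (m + 1) * (((m : ℝ) + 1 + 1) / ((m + 1).factorial * (m + 1)))) := by
          apply mul_le_mul_of_nonneg_left _ hD.le
          refine h2.trans ?_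
          apply mul_le_mul_of_nonneg_right h4
          positivity
      _ = _ := by
          rw [div_pow, pow_succ (D : ℝ) m]
          field_simp
          ring
  have h7 := ok_mono hR _ h5
  obtain ⟨R', hR', hk'⟩ := sqK_spec ht n _ _ _ h7 hk
  refine ⟨R', ?_, hk'⟩
  have h8 : Real.exp y ^ 2 ^ n = Real.exp x := by
    rw [← Real.exp_nat_mul, hy]
    congr 1
    field_simp
  rwa [h8] at hR'

/-! ### complex Taylor models -/

structure CM where
  r : TM
  i : TM

def okC (A : CM) (t : ℝ) (z : ℂ) : Prop := ok A.r t z.re ∧ ok A.i t z.im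

def mulCK (A B : CM) (k : CM → Bool) : Bool :=
  mulK A.r B.r fun rr => mulK A.i B.i fun ii => mulK A.r B.i fun ri => mulK A.i B.r fun ir =>
    frcT (rr.add (ii.zm (-1))) fun r => frcT (ri.add ir) fun i => k ⟨r, i⟩

theorem mulCK_spec {A B : CM} {t : ℝ} {z w : ℂ} (ht : |t| ≤ 1) (hA : okC A t z) (hB : okC B t w)
    (k : CM → Bool) (h : mulCK A B k = true) : ∃ R : CM, okC R t (z * w) ∧ k R = true := by
  unfold mulCK at h
  simp only [mulK_eq, frcT_eq] at h
  refine ⟨_, ⟨?_, ?_⟩, h⟩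
  · have h1 := ok_add (ok_mul ht hA.1 hB.1) (ok_zm (-1) (ok_mul ht hA.2 hB.2))
    have e : z.re * w.re + ((-1 : ℤ) : ℝ) * (z.im * w.im) = (z * w).re := by
      rw [Complex.mul_re]; push_cast; ring
    rw [e] at h1
    exact h1
  · have h1 := ok_add (ok_mul ht hA.1 hB.2) (ok_mul ht hA.2 hB.1)
    have e : z.re * w.im + z.im * w.re = (z * w).im := by
      rw [Complex.mul_im]
    rw [e] at h1
    exact h1

def horCK (A : CM) : ℕ → CM → (CM → Bool) → Bool
  | 0, acc, k => k acc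
  | m + 1, acc, k => mulCK A acc fun B => frcT ((cst 1 1).add (B.r.nd (m + 1))) fun r =>
      frcT (B.i.nd (m + 1)) fun i => horCK A m ⟨r, i⟩ k

theorem horCK_spec {A : CM} {t : ℝ} {z : ℂ} (ht : |t| ≤ 1) (hA : okC A t z) (m : ℕ) :
    ∀ (acc : CM) (k : CM → Bool) (a : ℂ), okC acc t a → horCK A m acc k = true →
      ∃ R : CM, okC R t (∑ i ∈ range m, z ^ i / (i.factorial : ℂ) +
        z ^ m / (m.factorial : ℂ) * a) ∧ k R = true := by
  induction m with
  | zero =>
    intro acc k a ha h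
    exact ⟨acc, by simpa using ha, h⟩
  | succ m ih =>
    intro acc k a ha h
    rw [horCK] at h
    obtain ⟨B, hB, h⟩ := mulCK_spec ht hA ha _ h
    simp only [frcT_eq] at h
    have h1 := ok_cst t 1 1 one_pos
    have h2 := ok_add h1 (ok_nd ht (m + 1) (Nat.succ_pos m) hB.1)
    have h3 := ok_nd ht (m + 1) (Nat.succ_pos m) hB.2
    have h4 : okC ⟨(cst 1 1).add (B.r.nd (m + 1)), B.i.nd (m + 1)⟩ t
        (1 + z * a / ((m + 1 : ℕ) : ℂ)) := by
      constructor
      · have e : (((1 : ℤ) : ℝ) / ((1 : ℕ) : ℝ)) + (z * a).re / ((m + 1 : ℕ) : ℝ) =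
            (1 + z * a / ((m + 1 : ℕ) : ℂ)).re := by
          rw [Complex.add_re, Complex.div_natCast_re, Complex.one_re]
          norm_num
        rw [e] at h2
        exact h2
      · have e : (z * a).im / ((m + 1 : ℕ) : ℝ) = (1 + z * a / ((m + 1 : ℕ) : ℂ)).im := by
          rw [Complex.add_im, Complex.div_natCast_im, Complex.one_im, zero_add]
        rw [e] at h3
        exact h3
    obtain ⟨R, hR, hk⟩ := ih _ k _ h4 h
    refine ⟨R, ?_, hk⟩
    have e : ∑ i ∈ range m, z ^ i / (i.factorial : ℂ) + z ^ m / (m.factorial : ℂ) *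
        (1 + z * a / ((m + 1 : ℕ) : ℂ)) =
        ∑ i ∈ range (m + 1), z ^ i / (i.factorial : ℂ) +
          z ^ (m + 1) / ((m + 1).factorial : ℂ) * a := by
      rw [sum_range_succ, Nat.factorial_succ]
      have h4 : (m.factorial : ℂ) ≠ 0 := by exact_mod_cast m.factorial_ne_zero
      have h5 : ((m + 1 : ℕ) : ℂ) ≠ 0 := by exact_mod_cast Nat.succ_ne_zero m
      rw [Nat.cast_mul]
      field_simp
      ring
    rwa [← e]

def sqCK : ℕ → CM → (CM → Bool) → Bool
  | 0, A, k => k A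
  | n + 1, A, k => mulCK A A fun B => sqCK n B k

theorem sqCK_spec {t : ℝ} (ht : |t| ≤ 1) (n : ℕ) : ∀ (A : CM) (k : CM → Bool) (a : ℂ),
    okC A t a → sqCK n A k = true → ∃ R : CM, okC R t (a ^ 2 ^ n) ∧ k R = true := by
  induction n with
  | zero =>
    intro A k a ha h
    exact ⟨A, by simpa using ha, h⟩
  | succ n ih =>
    intro A k a ha h
    rw [sqCK] at h
    obtain ⟨B, hB, h⟩ := mulCK_spec ht ha ha _ h
    obtain ⟨R, hR, hk⟩ := ih _ k _ hB h
    refine ⟨R, ?_, hk⟩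
    have : (a * a) ^ 2 ^ n = a ^ 2 ^ (n + 1) := by
      rw [← pow_two, ← pow_mul, pow_succ, mul_comm (2 ^ n)]
    rwa [← this]

/-- complex exponential, `n` halvings, `m` terms -/
def expCK (A : CM) (n m : ℕ) (k : CM → Bool) : Bool :=
  frcT (A.r.nd (2 ^ n)) fun Br => frcT (A.i.nd (2 ^ n)) fun Bi =>
    frcN ((nrm Br.c + Br.e) + (nrm Bi.c + Bi.e)) fun b =>
    Nat.ble b D && horCK ⟨Br, Bi⟩ m ⟨⟨[(D : ℤ)], 0⟩, ⟨[], 0⟩⟩ fun R =>
      frcN (b ^ (m + 1) * (m + 2) / (D ^ m * ((m + 1).factorial * (m + 1))) + 1) fun e =>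
      frcN (R.r.e + e) fun e1 => frcN (R.i.e + e) fun e2 =>
        sqCK n ⟨⟨R.r.c, e1⟩, ⟨R.i.c, e2⟩⟩ k

theorem expCK_spec {A : CM} {t : ℝ} {x : ℂ} (ht : |t| ≤ 1) (hA : okC A t x) (n m : ℕ)
    (k : CM → Bool) (h : expCK A n m k = true) :
    ∃ R : CM, okC R t (Complex.exp x) ∧ k R = true := by
  unfold expCK at h
  simp only [frcT_eq, frcN_eq, Bool.and_eq_true, Nat.ble_eq] at h
  obtain ⟨hb, h⟩ := h
  have hBr := ok_nd ht (2 ^ n) (by positivity) hA.1
  have hBi := ok_nd ht (2 ^ n) (by positivity) hA.2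
  have hD : (0 : ℝ) < D := by exact_mod_cast D_pos
  set Br := A.r.nd (2 ^ n) with hBrd
  set Bi := A.i.nd (2 ^ n) with hBid
  set y : ℂ := x / ((2 ^ n : ℕ) : ℂ) with hy
  have hyr : x.re / ((2 ^ n : ℕ) : ℝ) = y.re := by rw [hy, Complex.div_natCast_re]
  have hyi : x.im / ((2 ^ n : ℕ) : ℝ) = y.im := by rw [hy, Complex.div_natCast_im]
  rw [hyr] at hBr
  rw [hyi] at hBi
  have hab1 := ok_abs ht hBr
  have hab2 := ok_abs ht hBi
  set b := (nrm Br.c + Br.e) + (nrm Bi.c + Bi.e) with hbd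
  have h1 : okC ⟨⟨[(D : ℤ)], 0⟩, ⟨[], 0⟩⟩ t 1 := by
    constructor <;> simp [ok, ev]
  obtain ⟨R, hR, hk⟩ := horCK_spec (A := ⟨Br, Bi⟩) ht ⟨hBr, hBi⟩ m _ _ 1 h1 h
  have hyn : (D : ℝ) * ‖y‖ ≤ (b : ℝ) := by
    have := Complex.norm_le_abs_re_add_abs_im y
    rw [hbd]
    push_cast at hab1 hab2 ⊢
    nlinarith
  have hy1 : ‖y‖ ≤ (b : ℝ) / D := by rw [le_div_iff₀ hD, mul_comm]; exact hyn
  have hbD : (b : ℝ) / D ≤ 1 := by rw [div_le_one hD]; exact_mod_cast hb
  have h2 := Complex.exp_bound (hy1.trans hbD) (Nat.succ_pos m)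
  have h3 : ∑ i ∈ range m, y ^ i / (i.factorial : ℂ) + y ^ m / (m.factorial : ℂ) * 1 =
      ∑ i ∈ range (m + 1), y ^ i / (i.factorial : ℂ) := by
    rw [sum_range_succ, mul_one]
  rw [h3] at hR
  have h4 : ‖y‖ ^ (m + 1) ≤ ((b : ℝ) / D) ^ (m + 1) := pow_le_pow_left₀ (norm_nonneg _) hy1 _
  set er := b ^ (m + 1) * (m + 2) / (D ^ m * ((m + 1).factorial * (m + 1))) + 1 with her
  have hfac : (0 : ℝ) < (((m + 1).factorial * (m + 1) : ℕ) : ℝ) := by
    exact_mod_cast Nat.mul_pos (Nat.factorial_pos _) (Nat.succ_pos m)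
  set T := ∑ i ∈ range (m + 1), y ^ i / (i.factorial : ℂ) with hT
  have h5 : (D : ℝ) * ‖Complex.exp y - T‖ ≤ (er : ℝ) := by
    have h6 := div_floor (b ^ (m + 1) * (m + 2)) (D ^ m * ((m + 1).factorial * (m + 1)))
      (Nat.mul_pos (pow_pos D_pos _) (Nat.mul_pos (Nat.factorial_pos _) (Nat.succ_pos m)))
    rw [her]
    push_cast at h6 h2 hfac ⊢
    refine le_trans ?_ h6
    calc (D : ℝ) * ‖Complex.exp y - T‖
        ≤ D * (((b : ℝ) / D) ^ (m + 1) * (((m : ℝ) + 1 + 1) / ((m + 1).factorial * (m + 1)))) := by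
          apply mul_le_mul_of_nonneg_left _ hD.le
          refine h2.trans ?_
          apply mul_le_mul_of_nonneg_right h4
          positivity
      _ = _ := by
          rw [div_pow, pow_succ (D : ℝ) m]
          field_simp
          ring
  have h7r := ok_mono hR.1 (g := (Complex.exp y).re) er (by
    refine le_trans (mul_le_mul_of_nonneg_left ?_ hD.le) h5
    rw [← Complex.sub_re]
    exact Complex.abs_re_le_norm _)
  have h7i := ok_mono hR.2 (g := (Complex.exp y).im) er (by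
    refine le_trans (mul_le_mul_of_nonneg_left ?_ hD.le) h5
    rw [← Complex.sub_im]
    exact Complex.abs_im_le_norm _)
  obtain ⟨R', hR', hk'⟩ := sqCK_spec ht n _ _ (Complex.exp y) ⟨h7r, h7i⟩ hk
  refine ⟨R', ?_, hk'⟩
  have h8 : Complex.exp y ^ 2 ^ n = Complex.exp x := by
    rw [← Complex.exp_nat_mul, hy]
    congr 1
    field_simp
  rwa [h8] at hR'

/-! ### range bound of a polynomial by bisection -/

def hsL : List ℤ → List ℤ
  | [] => []
  | a :: l => (2 ^ (l.length + 1) * a) :: hsL l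

theorem hsL_length (l : List ℤ) : (hsL l).length = l.length := by
  induction l with
  | nil => rfl
  | cons a l ih => simp [hsL, ih]

theorem ev_hsL (s : ℝ) (l : List ℤ) : ev s (hsL l) = 2 ^ l.length * ev (s / 2) l := by
  induction l with
  | nil => simp [hsL, ev]
  | cons a l ih =>
    simp only [hsL, ev, ih, List.length_cons]
    push_cast
    ring

/-- `p (s + a)` -/
def shK {α : Type} (a : ℤ) : List ℤ → (List ℤ → α) → α
  | [], k => k []
  | b :: l, k => shK a l fun m => frcL (addL (b :: m) (smL a m)) k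

theorem shK_spec {α : Type} (a : ℤ) (l : List ℤ) : ∀ (k : List ℤ → α),
    ∃ m : List ℤ, shK a l k = k m ∧ ∀ s : ℝ, ev s m = ev (s + a) l := by
  induction l with
  | nil => intro k; exact ⟨[], rfl, fun s => by simp [ev]⟩
  | cons b l ih =>
    intro k
    obtain ⟨m, h1, h2⟩ := ih (fun m => frcL (addL (b :: m) (smL a m)) k)
    refine ⟨addL (b :: m) (smL a m), ?_, ?_⟩
    · rw [shK, h1, frcL_eq]
    · intro s
      rw [ev_addL, ev_smL]
      simp only [ev]
      rw [h2 s]
      ring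

/-- `|p| ≤ B` on `[-1,1]` -/
def bndK : ℕ → List ℤ → ℕ → Bool
  | 0, l, B => Nat.ble (nrm l) B
  | f + 1, l, B => Nat.ble (nrm l) B || (frcL (hsL l) fun h => frcN (2 ^ l.length * B) fun B' =>
      (shK 1 h fun l' => bndK f l' B') && (shK (-1) h fun l' => bndK f l' B'))

theorem bndK_spec (f : ℕ) : ∀ (l : List ℤ) (B : ℕ), bndK f l B = true → ∀ t : ℝ, |t| ≤ 1 →
    |ev t l| ≤ B := by
  induction f with
  | zero =>
    intro l B h t ht
    rw [bndK, Nat.ble_eq] at h
    exact (abs_ev_le ht l).trans (by exact_mod_cast h)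
  | succ f ih =>
    intro l B h t ht
    rw [bndK, Bool.or_eq_true, Nat.ble_eq, frcL_eq, frcN_eq, Bool.and_eq_true] at h
    rcases h with h | ⟨h1, h2⟩
    · exact (abs_ev_le ht l).trans (by exact_mod_cast h)
    · obtain ⟨m1, e1, v1⟩ := shK_spec 1 (hsL l) (fun l' => bndK f l' (2 ^ l.length * B))
      obtain ⟨m2, e2, v2⟩ := shK_spec (-1) (hsL l) (fun l' => bndK f l' (2 ^ l.length * B))
      rw [e1] at h1
      rw [e2] at h2
      have key : |2 ^ l.length * ev t l| ≤ ((2 ^ l.length * B : ℕ) : ℝ) := by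
        rw [abs_le] at ht
        rcases le_total 0 t with h0 | h0
        · have h3 := ih _ _ h1 (2 * t - 1) (by rw [abs_le]; constructor <;> linarith)
          rw [v1, ev_hsL] at h3
          have : (2 * t - 1 + ((1 : ℤ) : ℝ)) / 2 = t := by push_cast; ring
          rwa [this] at h3
        · have h3 := ih _ _ h2 (2 * t + 1) (by rw [abs_le]; constructor <;> linarith)
          rw [v2, ev_hsL] at h3
          have : (2 * t + 1 + ((-1 : ℤ) : ℝ)) / 2 = t := by push_cast; ring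
          rwa [this] at h3
      rw [abs_mul, abs_of_pos (by positivity : (0 : ℝ) < 2 ^ l.length)] at key
      push_cast at key
      exact le_of_mul_le_mul_left key (by positivity)

end MP_d1b55a.TE
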