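import Pool.Agent.Lib.MP_d1b55a_co.NTE

/-!
MP_d1b55a_co, near arc: the cell program which compares `exp (w q(w^2))` with the trigonometric polynomial
`e^{7w/4} nsf`. Cells `w = (n + t)/16`.
-/

open Finset

namespace MP_d1b55a.TE

/-- exponent `-5/4 + (3/5) m i` -/
noncomputable def kap (m : ℕ) : ℂ := ⟨-5 / 4, 3 / 5 * m⟩

/-- `kap m * t / 16` -/
def tblA (m : ℕ) : CM := ⟨⟨[0, -(5 * 18889465931478580854784)], 0⟩, ⟨[0, (3 * m) * D / 80], 1⟩⟩

def tblK : ℕ → List CM → (List CM → Bool) → Bool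
  | 0, acc, k => k acc
  | m + 1, acc, k => expCK (tblA m) 0 11 fun R => tblK m (R :: acc) k

def sumK (z : CM) : List ℤ → List ℤ → List CM → CM → TM → (TM → Bool) → Bool
  | [], _, _, _, acc, k => k acc
  | _ :: _, [], _, _, _, _ => false
  | _ :: _, _ :: _, [], _, _, _ => false
  | p :: P, q :: Q, E :: L, W, acc, k =>
    frcT ((W.r.zm p).add (W.i.zm q)) fun a => frcT ((W.i.zm p).add (W.r.zm (-q))) fun b =>
    mulK a E.r fun x => mulK b E.i fun y => frcT (acc.add (x.add (y.zm (-1)))) fun acc' =>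
    mulCK W z fun W' => sumK z P Q L W' acc' k

/-- polynomial `∑ a_i v^i` -/
def polyK (v : TM) : List (ℤ × ℕ) → (TM → Bool) → Bool
  | [], k => k ⟨[], 0⟩
  | (a, d) :: l, k => polyK v l fun r => mulK r v fun r' => frcT (r'.add (cst a d)) k

/-- `w = (n + t)/16` -/
def wTM (n : ℤ) : TM := ⟨[n * 75557863725914323419136, 75557863725914323419136], 0⟩

def cellK (cs : List (ℤ × ℕ)) (P Q : List ℤ) (B : ℕ) (tb : List CM) (n : ℤ) : Bool :=
  expK (cst (-(5 * n)) 64) 4 18 fun r =>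
  expCK ⟨⟨[], 0⟩, cst (3 * n) 80⟩ 3 20 fun z =>
  sumK z P Q tb ⟨r, ⟨[], 0⟩⟩ ⟨[], 0⟩ fun Y =>
  mulK (wTM n) (wTM n) fun v => polyK v cs fun q => mulK (wTM n) q fun ph =>
  expK ph 6 13 fun G =>
  frcT ((G.zm 1073741824).add (Y.zm (-1))) fun F =>
  Nat.ble F.e B && bndK 12 F.c (B - F.e)

def cellsK (cs : List (ℤ × ℕ)) (P Q : List ℤ) (B : ℕ) (n0 : ℕ) (k : ℕ) : Bool :=
  tblK 9 [] fun tb => (List.range k).all fun j => cellK cs P Q B tb ((2 * (n0 + j) + 1 : ℕ) : ℤ)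

def cs1 : List (ℤ × ℕ) := [(7, 4), (-1, 24), (-209, 28800000), (-43681, 18144000000000),
  (-9129329, 9676800000000000000)]

def cs0 : List (ℤ × ℕ) := [(7, 4), (-1, 24)]

/-! ### meaning -/

/-- `∑_m Re ((p_m - i q_m) exp (kap m w))` -/
noncomputable def sv (w : ℝ) : ℕ → List ℤ → List ℤ → ℝ
  | _, [], _ => 0
  | _, _ :: _, [] => 0
  | m, p :: P, q :: Q =>
    (((p : ℂ) - q * Complex.I) * Complex.exp (kap m * w)).re + sv w (m + 1) P Q

/-- the table from index `m` on -/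
def okL (t : ℝ) : ℕ → List CM → Prop
  | _, [] => True
  | m, E :: L => okC E t (Complex.exp (kap m * ((t / 16 : ℝ) : ℂ))) ∧ okL t (m + 1) L

theorem ok_nil (t : ℝ) : ok ⟨[], 0⟩ t 0 := by simp [ok, ev]

theorem okC_tblA (t : ℝ) (ht : |t| ≤ 1) (m : ℕ) : okC (tblA m) t (kap m * ((t / 16 : ℝ) : ℂ)) := by
  constructor
  · unfold ok tblA
    simp only [ev, Nat.cast_zero]
    rw [Complex.re_mul_ofReal]
    simp only [kap, D]
    push_cast
    apply le_of_eq
    rw [abs_eq_zero]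
    ring
  · unfold ok tblA
    simp only [ev]
    rw [Complex.im_mul_ofReal]
    simp only [kap]
    have h1 := ediv_err ((3 * m) * D) 80 (by norm_num)
    push_cast at h1 ⊢
    have : (D : ℝ) * (3 / 5 * m * (t / 16)) - (0 + t * ((((3 * (m : ℤ)) * (D : ℤ) / 80 : ℤ) : ℝ) + t * 0)) =
        t * (3 * m * D / 80 - (((3 * (m : ℤ)) * (D : ℤ) / 80 : ℤ) : ℝ)) := by ring
    rw [this, abs_mul]
    calc _ ≤ 1 * 1 := mul_le_mul ht h1 (abs_nonneg _) zero_le_one
      _ = _ := by norm_num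

theorem tblK_spec {t : ℝ} (ht : |t| ≤ 1) (m : ℕ) : ∀ (acc : List CM) (k : List CM → Bool),
    okL t m acc → tblK m acc k = true → ∃ L : List CM, okL t 0 L ∧ k L = true := by
  induction m with
  | zero =>
    intro acc k ha h
    exact ⟨acc, ha, h⟩
  | succ m ih =>
    intro acc k ha h
    rw [tblK] at h
    obtain ⟨R, hR, hk⟩ := expCK_spec ht (okC_tblA t ht m) 0 11 _ h
    exact ih (R :: acc) k ⟨hR, ha⟩ hk

theorem kap_succ (m : ℕ) (u : ℝ) : Complex.exp (kap m * u) * Complex.exp (⟨0, 3 / 5 * u⟩ : ℂ) =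
    Complex.exp (kap (m + 1) * u) := by
  rw [← Complex.exp_add]
  congr 1
  apply Complex.ext
  · simp [kap]
  · simp [kap]; ring

theorem sumK_spec {t : ℝ} (ht : |t| ≤ 1) {z : CM} {u : ℝ}
    (hz : okC z t (Complex.exp (⟨0, 3 / 5 * u⟩ : ℂ))) (P : List ℤ) :
    ∀ (Q : List ℤ) (L : List CM) (m : ℕ) (W : CM) (acc : TM) (s : ℝ) (k : TM → Bool),
      okC W t (Complex.exp (kap m * u)) → okL t m L → ok acc t s →
      sumK z P Q L W acc k = true → ∃ R : TM, ok R t (s + sv (u + t / 16) m P Q) ∧ k R = true := by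
  induction P with
  | nil =>
    intro Q L m W acc s k hW hL ha h
    exact ⟨acc, by simpa [sv] using ha, by simpa [sumK] using h⟩
  | cons p P ih =>
    intro Q L m W acc s k hW hL ha h
    cases Q with
    | nil => simp [sumK] at h
    | cons q Q =>
      cases L with
      | nil => simp [sumK] at h
      | cons E L =>
        rw [sumK] at h
        simp only [mulK_eq, frcT_eq] at h
        obtain ⟨hE, hL'⟩ := hL
        have a1 := ok_add (ok_zm p hW.1) (ok_zm q hW.2)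
        have b1 := ok_add (ok_zm p hW.2) (ok_zm (-q) hW.1)
        have s1 := ok_add ha (ok_add (ok_mul ht a1 hE.1) (ok_zm (-1) (ok_mul ht b1 hE.2)))
        obtain ⟨W', hW', h⟩ := mulCK_spec ht hW hz _ h
        rw [kap_succ] at hW'
        obtain ⟨R, hR, hk⟩ := ih Q L (m + 1) W' _ _ k hW' hL' s1 h
        refine ⟨R, ?_, hk⟩
        rw [sv]
        have hexp : Complex.exp (kap m * ((u + t / 16 : ℝ) : ℂ)) =
            Complex.exp (kap m * u) * Complex.exp (kap m * ((t / 16 : ℝ) : ℂ)) := by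
          rw [← Complex.exp_add]
          congr 1
          push_cast
          ring
        rw [hexp]
        set Wv := Complex.exp (kap m * u) with hWv
        set Ev := Complex.exp (kap m * ((t / 16 : ℝ) : ℂ)) with hEv
        have e : (((p : ℂ) - q * Complex.I) * (Wv * Ev)).re =
            ((p : ℝ) * Wv.re + q * Wv.im) * Ev.re +
              ((-1 : ℤ) : ℝ) * (((p : ℝ) * Wv.im + ((-q : ℤ) : ℝ) * Wv.re) * Ev.im) := by
          simp only [Complex.mul_re, Complex.mul_im, Complex.sub_re, Complex.sub_im,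
            Complex.intCast_re, Complex.intCast_im, Complex.I_re, Complex.I_im]
          push_cast
          ring
        rw [e, ← add_assoc]
        exact hR

/-- value of the polynomial -/
noncomputable def pv (v : ℝ) : List (ℤ × ℕ) → ℝ
  | [] => 0
  | (a, d) :: l => pv v l * v + a / d

theorem polyK_spec {t : ℝ} (ht : |t| ≤ 1) {v : TM} {x : ℝ} (hv : ok v t x) (l : List (ℤ × ℕ)) :
    ∀ (k : TM → Bool), (∀ p ∈ l, 0 < p.2) → polyK v l k = true →
      ∃ R : TM, ok R t (pv x l) ∧ k R = true := by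
  induction l with
  | nil =>
    intro k _ h
    exact ⟨_, ok_nil t, h⟩
  | cons p l ih =>
    intro k hp h
    obtain ⟨a, d⟩ := p
    rw [polyK] at h
    obtain ⟨R, hR, h⟩ := ih _ (fun p hp' => hp p (List.mem_cons_of_mem _ hp')) h
    rw [mulK_eq, frcT_eq] at h
    exact ⟨_, ok_add (ok_mul ht hR hv) (ok_cst t a d (hp (a, d) List.mem_cons_self)), h⟩

theorem ok_wTM (t : ℝ) (n : ℤ) : ok (wTM n) t ((n + t) / 16) := by
  unfold ok wTM
  simp only [ev, Nat.cast_zero, D]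
  push_cast
  apply le_of_eq
  rw [abs_eq_zero]
  ring

theorem cellK_spec {t : ℝ} (ht : |t| ≤ 1) (cs : List (ℤ × ℕ)) (P Q : List ℤ) (B : ℕ)
    (tb : List CM) (n : ℤ) (hcs : ∀ p ∈ cs, 0 < p.2) (htb : okL t 0 tb)
    (h : cellK cs P Q B tb n = true) :
    (D : ℝ) * |1073741824 * Real.exp ((n + t) / 16 * pv (((n + t) / 16) * ((n + t) / 16)) cs) -
      sv ((n + t) / 16) 0 P Q| ≤ B := by
  unfold cellK at h
  obtain ⟨r, hr, h⟩ := expK_spec ht (ok_cst t (-(5 * n)) 64 (by norm_num)) 4 18 _ h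
  have hz0 : okC ⟨⟨[], 0⟩, cst (3 * n) 80⟩ t (⟨0, 3 / 5 * (n / 16)⟩ : ℂ) := by
    constructor
    · exact ok_nil t
    · have := ok_cst t (3 * n) 80 (by norm_num)
      have e : ((3 * n : ℤ) : ℝ) / ((80 : ℕ) : ℝ) = 3 / 5 * (n / 16) := by push_cast; ring
      rw [e] at this
      exact this
  obtain ⟨z, hz, h⟩ := expCK_spec ht hz0 3 20 _ h
  have hW : okC ⟨r, ⟨[], 0⟩⟩ t (Complex.exp (kap 0 * ((n / 16 : ℝ) : ℂ))) := by
    have e1 : kap 0 * ((n / 16 : ℝ) : ℂ) = (((-(5 * n) : ℤ) / ((64 : ℕ) : ℝ) : ℝ) : ℂ) := by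
      apply Complex.ext
      · simp [kap]; ring
      · simp [kap]
    rw [e1, ← Complex.ofReal_exp]
    exact ⟨hr, ok_nil t⟩
  obtain ⟨Y, hY, h⟩ := sumK_spec ht hz P Q tb 0 _ _ 0 _ hW htb (ok_nil t) h
  rw [zero_add] at hY
  have hww : (n : ℝ) / 16 + t / 16 = (n + t) / 16 := by ring
  rw [hww] at hY
  rw [mulK_eq] at h
  obtain ⟨q, hq, h⟩ := polyK_spec ht (ok_mul ht (ok_wTM t n) (ok_wTM t n)) cs _ hcs h
  rw [mulK_eq] at h
  obtain ⟨G, hG, h⟩ := expK_spec ht (ok_mul ht (ok_wTM t n) hq) 6 13 _ h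
  rw [frcT_eq, Bool.and_eq_true, Nat.ble_eq] at h
  obtain ⟨hB, h⟩ := h
  have hF := ok_add (ok_zm 1073741824 hG) (ok_zm (-1) hY)
  have hb := bndK_spec 12 _ _ h t ht
  set F := (G.zm 1073741824).add (Y.zm (-1)) with hFd
  unfold ok at hF
  rw [Nat.cast_sub hB] at hb
  have hD : (0 : ℝ) < D := by exact_mod_cast D_pos
  have e1 : (D : ℝ) * |1073741824 * Real.exp ((n + t) / 16 * pv (((n + t) / 16) * ((n + t) / 16)) cs) -
      sv ((n + t) / 16) 0 P Q| = |(D : ℝ) * (((1073741824 : ℤ) : ℝ) *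
        Real.exp ((n + t) / 16 * pv (((n + t) / 16) * ((n + t) / 16)) cs) +
        ((-1 : ℤ) : ℝ) * sv ((n + t) / 16) 0 P Q)| := by
    rw [abs_mul, abs_of_pos hD]
    congr 2
    push_cast
    ring
  rw [e1]
  set V := (D : ℝ) * (((1073741824 : ℤ) : ℝ) *
        Real.exp ((n + t) / 16 * pv (((n + t) / 16) * ((n + t) / 16)) cs) +
        ((-1 : ℤ) : ℝ) * sv ((n + t) / 16) 0 P Q) with hV
  have : V = (V - ev t F.c) + ev t F.c := by ring
  rw [this]
  exact (abs_add_le _ _).trans (by linarith)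

theorem cellsK_spec (cs : List (ℤ × ℕ)) (P Q : List ℤ) (B n0 k : ℕ) (hcs : ∀ p ∈ cs, 0 < p.2)
    (h : cellsK cs P Q B n0 k = true) (w : ℝ) (h1 : (n0 : ℝ) / 8 ≤ w) (h2 : w < (n0 + k) / 8) :
    (D : ℝ) * |1073741824 * Real.exp (w * pv (w * w) cs) - sv w 0 P Q| ≤ B := by
  set j := ⌊8 * w - n0⌋₊ with hj
  have h0 : 0 ≤ 8 * w - n0 := by linarith
  have hj1 : (j : ℝ) ≤ 8 * w - n0 := Nat.floor_le h0
  have hj2 : 8 * w - n0 < j + 1 := Nat.lt_floor_add_one _
  have hjk : j < k := by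
    rw [hj, Nat.floor_lt h0]
    linarith
  set t : ℝ := 16 * w - ((2 * (n0 + j) + 1 : ℕ) : ℝ) with ht
  have ht1 : |t| ≤ 1 := by
    rw [abs_le, ht]
    push_cast
    constructor <;> linarith
  unfold cellsK at h
  obtain ⟨L, hL, h⟩ := tblK_spec ht1 9 [] _ trivial h
  rw [List.all_eq_true] at h
  have h3 := cellK_spec ht1 cs P Q B L _ hcs hL (h j (List.mem_range.2 hjk))
  have e : ((((2 * (n0 + j) + 1 : ℕ) : ℤ) : ℝ) + t) / 16 = w := by
    rw [ht]; push_cast; ring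
  rw [e] at h3
  exact h3

end MP_d1b55a.TE
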