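import Pool.Agent.Lib.MP_d1b55a_co.KE
import Pool.Agent.Lib.MP_d1b55a_co.PR3

/-!
MP_d1b55a_co, P4: `Good θ` for all angles from `.003` to `π`.
-/

namespace MP_d1b55a

/-- **P4** -/
theorem good_from_003 (θ : ℝ) (h : 0.003 ≤ θ) (hpi : θ ≤ Real.pi) : Good θ :=
  K.good_large (fun y M j h1 h2 => N1 y M j h1 h2) θ h hpi

end MP_d1b55a
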