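import Pool.Agent.Lib.MP_d1b55a_co.PR1a

/-!
PR1. The component of a root: `Zv_root` sorts the graphs by the vertex set of the component of the
root, `Cg_rec` is the resulting recursion for the weighted number of connected graphs.
-/

open Finset

namespace MP_d1b55a

section root

variable {V : Type*} (S : Finset V)

/-- glue a graph on `S` and a graph on the complement -/
def pr1Glue (H : SimpleGraph {v // v ∈ S}) (K : SimpleGraph {v // v ∉ S}) : SimpleGraph V :=
  H.map (Function.Embedding.subtype _) ⊔ K.map (Function.Embedding.subtype _)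

theorem pr1Glue_adj_in (H : SimpleGraph {v // v ∈ S}) (K : SimpleGraph {v // v ∉ S}) (u v : V)
    (hu : u ∈ S) (h : (pr1Glue S H K).Adj u v) : ∃ hv : v ∈ S, H.Adj ⟨u, hu⟩ ⟨v, hv⟩ := by
  rcases h with h | h
  · rw [SimpleGraph.map_adj] at h
    obtain ⟨a, b, hab, ha, hb⟩ := h
    simp only [Function.Embedding.subtype_apply] at ha hb
    subst ha; subst hb
    exact ⟨b.2, hab⟩
  · rw [SimpleGraph.map_adj] at h
    obtain ⟨a, b, hab, ha, hb⟩ := h
    simp only [Function.Embedding.subtype_apply] at ha hb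
    subst ha
    exact absurd hu a.2

theorem pr1Glue_adj_out (H : SimpleGraph {v // v ∈ S}) (K : SimpleGraph {v // v ∉ S}) (u v : V)
    (hu : u ∉ S) (h : (pr1Glue S H K).Adj u v) : ∃ hv : v ∉ S, K.Adj ⟨u, hu⟩ ⟨v, hv⟩ := by
  rcases h with h | h
  · rw [SimpleGraph.map_adj] at h
    obtain ⟨a, b, hab, ha, hb⟩ := h
    simp only [Function.Embedding.subtype_apply] at ha hb
    subst ha
    exact absurd a.2 hu
  · rw [SimpleGraph.map_adj] at h
    obtain ⟨a, b, hab, ha, hb⟩ := h
    simp only [Function.Embedding.subtype_apply] at ha hb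
    subst ha; subst hb
    exact ⟨b.2, hab⟩

theorem pr1Glue_in (H : SimpleGraph {v // v ∈ S}) (K : SimpleGraph {v // v ∉ S})
    (a b : {v // v ∈ S}) (h : H.Adj a b) : (pr1Glue S H K).Adj a.1 b.1 :=
  Or.inl ((SimpleGraph.map_adj _ _ _ _).2 ⟨a, b, h, rfl, rfl⟩)

theorem pr1Glue_out (H : SimpleGraph {v // v ∈ S}) (K : SimpleGraph {v // v ∉ S})
    (a b : {v // v ∉ S}) (h : K.Adj a b) : (pr1Glue S H K).Adj a.1 b.1 :=
  Or.inr ((SimpleGraph.map_adj _ _ _ _).2 ⟨a, b, h, rfl, rfl⟩)

theorem pr1_comap_in (H : SimpleGraph {v // v ∈ S}) (K : SimpleGraph {v // v ∉ S}) :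
    (pr1Glue S H K).comap (Subtype.val : {v // v ∈ S} → V) = H := by
  ext a b
  rw [SimpleGraph.comap_adj]
  constructor
  · intro h
    exact (pr1Glue_adj_in S H K a.1 b.1 a.2 h).2
  · intro h
    exact pr1Glue_in S H K a b h

theorem pr1_comap_out (H : SimpleGraph {v // v ∈ S}) (K : SimpleGraph {v // v ∉ S}) :
    (pr1Glue S H K).comap (Subtype.val : {v // v ∉ S} → V) = K := by
  ext a b
  rw [SimpleGraph.comap_adj]
  constructor
  · intro h
    exact (pr1Glue_adj_out S H K a.1 b.1 a.2 h).2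
  · intro h
    exact pr1Glue_out S H K a b h

theorem pr1_glue_comap (G : SimpleGraph V) (hS : ∀ u v, G.Adj u v → u ∈ S → v ∈ S) :
    pr1Glue S (G.comap (Subtype.val : {v // v ∈ S} → V))
      (G.comap (Subtype.val : {v // v ∉ S} → V)) = G := by
  ext u v
  constructor
  · intro h
    by_cases hu : u ∈ S
    · obtain ⟨hv, h'⟩ := pr1Glue_adj_in S _ _ u v hu h
      exact h'
    · obtain ⟨hv, h'⟩ := pr1Glue_adj_out S _ _ u v hu h
      exact h'
  · intro h
    by_cases hu : u ∈ S
    · have hv := hS u v h hu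
      exact pr1Glue_in S _ _ ⟨u, hu⟩ ⟨v, hv⟩ h
    · have hv : v ∉ S := fun hv => hu (hS v u h.symm hv)
      exact pr1Glue_out S _ _ ⟨u, hu⟩ ⟨v, hv⟩ h

/-- the glued graph has component `S` at `r` iff the first part is connected -/
theorem pr1_reach (r : V) (hr : r ∈ S) (H : SimpleGraph {v // v ∈ S})
    (K : SimpleGraph {v // v ∉ S}) (v : V) :
    (pr1Glue S H K).Reachable r v ↔ ∃ hv : v ∈ S, H.Reachable ⟨r, hr⟩ ⟨v, hv⟩ := by
  constructor
  · intro h
    rw [SimpleGraph.reachable_iff_reflTransGen] at h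
    induction h with
    | refl => exact ⟨hr, SimpleGraph.Reachable.refl _⟩
    | tail _ hbc ih =>
      obtain ⟨hb, h1⟩ := ih
      obtain ⟨hc, h2⟩ := pr1Glue_adj_in S H K _ _ hb hbc
      exact ⟨hc, h1.trans h2.reachable⟩
  · rintro ⟨hv, h⟩
    have h' := (SimpleGraph.reachable_iff_reflTransGen _ _).1 h
    rw [SimpleGraph.reachable_iff_reflTransGen]
    exact h'.lift (Subtype.val : {v // v ∈ S} → V)
      (fun a b hab => pr1Glue_in S H K a b hab)

theorem pr1_card_eq [Fintype V] (G : SimpleGraph V) [Fintype G.edgeSet] :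
    G.edgeFinset.card = G.edgeSet.ncard := by
  rw [Set.ncard_eq_toFinset_card']
  rfl

theorem pr1_glue_ncard [Fintype V] (H : SimpleGraph {v // v ∈ S})
    (K : SimpleGraph {v // v ∉ S}) :
    (pr1Glue S H K).edgeSet.ncard = H.edgeSet.ncard + K.edgeSet.ncard := by
  classical
  have hd : Disjoint (H.map (Function.Embedding.subtype (fun v => v ∈ S)))
      (K.map (Function.Embedding.subtype (fun v => v ∉ S))) := by
    rw [SimpleGraph.disjoint_left]
    intro u v h1 h2
    rw [SimpleGraph.map_adj] at h1 h2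
    obtain ⟨a, b, hab, ha, hb⟩ := h1
    obtain ⟨c, d, hcd, hc, hd⟩ := h2
    simp only [Function.Embedding.subtype_apply] at ha hc
    exact c.2 (by rw [hc, ← ha]; exact a.2)
  rw [pr1Glue, SimpleGraph.edgeSet_sup, Set.ncard_union_eq
    (SimpleGraph.disjoint_edgeSet.2 hd) (Set.toFinite _) (Set.toFinite _),
    SimpleGraph.edgeSet_map, SimpleGraph.edgeSet_map,
    Set.ncard_image_of_injective _ (Function.Embedding.injective _),
    Set.ncard_image_of_injective _ (Function.Embedding.injective _)]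

end root

theorem pr1_inst_sum {α : Type*} (i1 i2 : Fintype α) (f g : α → ℂ) (h : ∀ a, f a = g a) :
    @Finset.sum α ℂ _ (@Finset.univ α i1) f = @Finset.sum α ℂ _ (@Finset.univ α i2) g := by
  have : i1 = i2 := Subsingleton.elim _ _
  subst this
  exact Finset.sum_congr rfl fun a _ => h a

theorem pr1_inst_filter {α : Type*} (i1 i2 : Fintype α) (p : α → Prop) (d1 d2 : DecidablePred p)
    (f g : α → ℂ) (h : ∀ a, f a = g a) :
    @Finset.sum α ℂ _ (@Finset.filter α p d1 (@Finset.univ α i1)) f =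
      @Finset.sum α ℂ _ (@Finset.filter α p d2 (@Finset.univ α i2)) g := by
  have e1 : i1 = i2 := Subsingleton.elim _ _
  have e2 : d1 = d2 := Subsingleton.elim _ _
  subst e1
  subst e2
  exact Finset.sum_congr rfl fun a _ => h a

theorem Zv_eq_ncard (V : Type*) [Fintype V] [i : Fintype (SimpleGraph V)] (w : ℂ) :
    Zv V w = ∑ G : SimpleGraph V, w ^ G.edgeSet.ncard := by
  unfold Zv
  exact pr1_inst_sum _ _ _ _ fun G => by rw [pr1_card_eq]

theorem Cv_eq_ncard (V : Type*) [Fintype V] [i : Fintype (SimpleGraph V)]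
    [d : DecidablePred (fun G : SimpleGraph V => G.Connected)] (w : ℂ) :
    Cv V w = ∑ G ∈ (Finset.univ : Finset (SimpleGraph V)).filter (fun G => G.Connected),
      w ^ G.edgeSet.ncard := by
  unfold Cv
  exact pr1_inst_filter _ _ _ _ _ _ _ fun G => by rw [pr1_card_eq]

open Classical in
/-- the component of `r` -/
noncomputable def pr1Comp {V : Type*} [Fintype V] (r : V) (G : SimpleGraph V) : Finset V :=
  Finset.univ.filter fun v => G.Reachable r v

theorem mem_pr1Comp {V : Type*} [Fintype V] (r : V) (G : SimpleGraph V) (v : V) :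
    v ∈ pr1Comp r G ↔ G.Reachable r v := by
  classical
  rw [pr1Comp, Finset.mem_filter]
  exact ⟨fun h => h.2, fun h => ⟨Finset.mem_univ _, h⟩⟩

theorem pr1_fibre {V : Type*} [Fintype V] (r : V) (S : Finset V) (hr : r ∈ S) (w : ℂ)
    [i1 : Fintype (SimpleGraph V)] [i2 : Fintype (SimpleGraph {v // v ∈ S})]
    [i3 : Fintype (SimpleGraph {v // v ∉ S})] [f2 : Fintype {v // v ∈ S}]
    [f3 : Fintype {v // v ∉ S}] [d1 : DecidablePred (fun G : SimpleGraph V => pr1Comp r G = S)]
    [d2 : DecidablePred (fun G : SimpleGraph {v // v ∈ S} => G.Connected)] :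
    ∑ G ∈ (Finset.univ : Finset (SimpleGraph V)).filter (fun G => pr1Comp r G = S),
      w ^ G.edgeSet.ncard = Cv {v // v ∈ S} w * Zv {v // v ∉ S} w := by
  rw [Cv_eq_ncard, Zv_eq_ncard, Finset.sum_mul_sum, ← Finset.sum_product']
  have key : ∀ G : SimpleGraph V, pr1Comp r G = S → ∀ u v, G.Adj u v → u ∈ S → v ∈ S := by
    intro G hG u v huv hu
    rw [← hG, mem_pr1Comp] at hu ⊢
    exact hu.trans huv.reachable
  refine Finset.sum_nbij' (fun G => (G.comap (Subtype.val : {v // v ∈ S} → V),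
      G.comap (Subtype.val : {v // v ∉ S} → V))) (fun p => pr1Glue S p.1 p.2) ?_ ?_ ?_ ?_ ?_
  · intro G hG
    have hG' := (Finset.mem_filter.1 hG).2
    refine Finset.mem_product.2 ⟨Finset.mem_filter.2 ⟨Finset.mem_univ _, ?_⟩, Finset.mem_univ _⟩
    rw [SimpleGraph.connected_iff_exists_forall_reachable]
    refine ⟨⟨r, hr⟩, ?_⟩
    intro v
    have h : G.Reachable r v.1 := by
      rw [← mem_pr1Comp, hG']; exact v.2
    rw [← pr1_glue_comap S G (key G hG')] at h
    exact ((pr1_reach S r hr _ _ v.1).1 h).2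
  · intro p hp
    have hp' := (Finset.mem_filter.1 (Finset.mem_product.1 hp).1).2
    refine Finset.mem_filter.2 ⟨Finset.mem_univ _, ?_⟩
    ext v
    rw [mem_pr1Comp, pr1_reach S r hr]
    exact ⟨fun h => h.1, fun h => ⟨h, hp'.preconnected _ _⟩⟩
  · intro G hG
    exact pr1_glue_comap S G (key G (Finset.mem_filter.1 hG).2)
  · intro p _
    exact Prod.ext (pr1_comap_in S p.1 p.2) (pr1_comap_out S p.1 p.2)
  · intro G hG
    have e := pr1_glue_comap S G (key G (Finset.mem_filter.1 hG).2)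
    have e2 := pr1_glue_ncard S (G.comap (Subtype.val : {v // v ∈ S} → V))
      (G.comap (Subtype.val : {v // v ∉ S} → V))
    rw [e] at e2
    rw [e2, pow_add]

theorem pr1_root_aux {V : Type*} [Fintype V] (r : V) (w : ℂ) [i1 : Fintype (SimpleGraph V)]
    [i2 : DecidableEq (Finset V)]
    (T : Finset (Finset V)) (hT : ∀ S, S ∈ T ↔ r ∈ S)
    (F : Finset V → ℂ) (hF : ∀ S, r ∈ S → ∑ G ∈ (Finset.univ : Finset (SimpleGraph V)).filter
      (fun G => pr1Comp r G = S), w ^ G.edgeSet.ncard = F S) :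
    Zv V w = ∑ S ∈ T, F S := by
  rw [Zv_eq_ncard, ← Finset.sum_fiberwise_of_maps_to (s := (Finset.univ : Finset (SimpleGraph V)))
    (t := T) (g := pr1Comp r) (fun G _ => (hT _).2 ((mem_pr1Comp r G r).2
      (SimpleGraph.Reachable.refl _)))]
  exact Finset.sum_congr rfl fun S hS => hF S ((hT S).1 hS)

theorem Zv_root {V : Type*} [Fintype V] [DecidableEq V] (r : V) (w : ℂ) :
    Zv V w = ∑ S ∈ (Finset.univ : Finset (Finset V)) with r ∈ S,
      Cv {v // v ∈ S} w * Zv {v // v ∉ S} w := by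
  refine pr1_root_aux r w _ ?_ _ ?_
  · intro S
    rw [Finset.mem_filter]
    exact ⟨fun h => h.2, fun h => ⟨Finset.mem_univ _, h⟩⟩
  · intro S hS
    classical
    exact pr1_fibre r S hS w

theorem Cg_rec (n : ℕ) (w : ℂ) :
    Zv (Fin (n + 1)) w = ∑ k ∈ Finset.range (n + 1),
      (n.choose k : ℂ) * Cv (Fin (k + 1)) w * Zv (Fin (n - k)) w := by
  rw [Zv_root (0 : Fin (n + 1)) w]
  have h1 : ∀ S ∈ (Finset.univ : Finset (Finset (Fin (n + 1)))).filter
      (fun S => (0 : Fin (n + 1)) ∈ S),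
      Cv {v // v ∈ S} w * Zv {v // v ∉ S} w = Cv (Fin S.card) w * Zv (Fin (n + 1 - S.card)) w := by
    intro S _
    have e1 : {v // v ∈ S} ≃ Fin S.card := S.equivFin
    have e2 : {v // v ∉ S} ≃ Fin (n + 1 - S.card) := by
      apply Fintype.equivFinOfCardEq
      rw [Fintype.card_subtype_compl, Fintype.card_fin]
      congr 1
      simp
    rw [Cv_equiv e1 w, Zv_equiv e2 w]
  rw [Finset.sum_congr rfl h1, Finset.sum_filter]
  have hu : (Finset.univ : Finset (Finset (Fin (n + 1)))) =
      (insert (0 : Fin (n + 1)) ((Finset.univ : Finset (Fin (n + 1))).erase 0)).powerset := by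
    rw [Finset.insert_erase (Finset.mem_univ _), Finset.powerset_univ]
  rw [hu, Finset.sum_powerset_insert (Finset.notMem_erase _ _)]
  have h0 : ∑ t ∈ ((Finset.univ : Finset (Fin (n + 1))).erase 0).powerset,
      (if (0 : Fin (n + 1)) ∈ t then Cv (Fin t.card) w * Zv (Fin (n + 1 - t.card)) w else 0) = 0 := by
    apply Finset.sum_eq_zero
    intro t ht
    rw [Finset.mem_powerset] at ht
    rw [if_neg]
    intro h
    exact Finset.notMem_erase _ _ (ht h)
  have h2 : ∑ t ∈ ((Finset.univ : Finset (Fin (n + 1))).erase 0).powerset,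
      (if (0 : Fin (n + 1)) ∈ insert (0 : Fin (n + 1)) t then
        Cv (Fin (insert (0 : Fin (n + 1)) t).card) w *
          Zv (Fin (n + 1 - (insert (0 : Fin (n + 1)) t).card)) w else 0) =
      ∑ t ∈ ((Finset.univ : Finset (Fin (n + 1))).erase 0).powerset,
        (fun c => Cv (Fin (c + 1)) w * Zv (Fin (n - c)) w) t.card := by
    apply Finset.sum_congr rfl
    intro t ht
    rw [Finset.mem_powerset] at ht
    have hn : (0 : Fin (n + 1)) ∉ t := fun h => Finset.notMem_erase _ _ (ht h)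
    rw [if_pos (Finset.mem_insert_self _ _), Finset.card_insert_of_notMem hn,
      show n + 1 - (t.card + 1) = n - t.card by omega]
  have hc : ((Finset.univ : Finset (Fin (n + 1))).erase 0).card = n := by
    rw [Finset.card_erase_of_mem (Finset.mem_univ _), Finset.card_univ, Fintype.card_fin]
    rfl
  have h3 := Finset.sum_powerset_apply_card (fun c => Cv (Fin (c + 1)) w * Zv (Fin (n - c)) w)
    (x := (Finset.univ : Finset (Fin (n + 1))).erase 0)
  rw [h0, h2, zero_add, h3, hc]
  apply Finset.sum_congr rfl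
  intro k _
  rw [nsmul_eq_mul, mul_assoc]

end MP_d1b55a
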