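import Pool.Agent.Lib.MP_d1b55a_co.RelDefs

/-!
PR1a. Transport of the sums along an equivalence; the sum over all graphs.
-/

open Finset

namespace MP_d1b55a

theorem Zv_equiv {V W : Type*} [Fintype V] [Fintype W] (e : V ≃ W) (w : ℂ) : Zv V w = Zv W w := by
  classical
  unfold Zv
  apply Fintype.sum_equiv (Equiv.simpleGraph e)
  intro G
  rw [← (SimpleGraph.Iso.comap e.symm G).card_edgeFinset_eq]
  rfl

theorem Cv_equiv {V W : Type*} [Fintype V] [Fintype W] (e : V ≃ W) (w : ℂ) : Cv V w = Cv W w := by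
  classical
  unfold Cv
  rw [Finset.sum_filter, Finset.sum_filter]
  apply Fintype.sum_equiv (Equiv.simpleGraph e)
  intro G
  have h1 : G.Connected ↔ (Equiv.simpleGraph e G).Connected :=
    (SimpleGraph.Iso.comap e.symm G).connected_iff.symm
  by_cases hG : G.Connected
  · rw [if_pos hG, if_pos (h1.mp hG), ← (SimpleGraph.Iso.comap e.symm G).card_edgeFinset_eq]
    rfl
  · rw [if_neg hG, if_neg (fun h => hG (h1.mpr h))]

theorem pr1a_sum {V : Type*} [Fintype V] (U : Finset (SimpleGraph V)) (hU : ∀ G, G ∈ U)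
    (E : Finset (Sym2 V)) (hE : ∀ x, x ∈ E ↔ ¬ x.IsDiag) (f : Finset (Sym2 V) → ℂ) :
    ∑ G ∈ U, f (Set.toFinite G.edgeSet).toFinset = ∑ S ∈ E.powerset, f S := by
  apply Finset.sum_bij' (i := fun (G : SimpleGraph V) _ => (Set.toFinite G.edgeSet).toFinset)
    (j := fun (S : Finset (Sym2 V)) _ => SimpleGraph.fromEdgeSet (S : Set (Sym2 V)))
  · intro G _
    rw [Finset.mem_powerset]
    intro x hx
    rw [Set.Finite.mem_toFinset] at hx
    exact (hE x).mpr (SimpleGraph.not_isDiag_of_mem_edgeSet _ hx)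
  · intro S _
    exact hU _
  · intro G _
    rw [Set.Finite.coe_toFinset, SimpleGraph.fromEdgeSet_edgeSet]
  · intro S hS
    rw [Finset.mem_powerset] at hS
    ext x
    rw [Set.Finite.mem_toFinset, SimpleGraph.edgeSet_fromEdgeSet]
    constructor
    · intro h
      exact Finset.mem_coe.mp h.1
    · intro h
      exact ⟨Finset.mem_coe.mpr h, (hE x).mp (hS h)⟩
  · intro G _
    rfl

theorem pr1a_card {V : Type*} [Fintype V] (G : SimpleGraph V) (i : Fintype G.edgeSet) :
    (@SimpleGraph.edgeFinset V G i).card = (Set.toFinite G.edgeSet).toFinset.card := by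
  apply Finset.card_bij (fun x _ => x)
  · intro x hx
    rw [SimpleGraph.mem_edgeFinset] at hx
    rw [Set.Finite.mem_toFinset]
    exact hx
  · intro x _ y _ h
    exact h
  · intro x hx
    rw [Set.Finite.mem_toFinset] at hx
    exact ⟨x, SimpleGraph.mem_edgeFinset.mpr hx, rfl⟩

theorem pr1a_Zv {V : Type*} [Fintype V] (E : Finset (Sym2 V))
    (hE : ∀ x, x ∈ E ↔ ¬ x.IsDiag) (w : ℂ) : Zv V w = ∑ S ∈ E.powerset, w ^ S.card := by
  classical
  unfold Zv
  refine Eq.trans (Finset.sum_congr rfl (fun G _ => ?_))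
    (pr1a_sum Finset.univ (fun G => Finset.mem_univ G) E hE (fun S => w ^ S.card))
  rw [pr1a_card G _]

theorem pr1a_pow {V : Type*} (E : Finset (Sym2 V)) (w : ℂ) :
    ∑ S ∈ E.powerset, w ^ S.card = (1 + w) ^ E.card := by
  have h2 := Finset.sum_pow_mul_eq_add_pow w 1 E
  rw [add_comm w 1] at h2
  rw [← h2]
  apply Finset.sum_congr rfl
  intro S _
  rw [one_pow, mul_one]

theorem pr1a_top {V : Type*} [Fintype V] [DecidableEq V] : ∃ E : Finset (Sym2 V),
    (∀ x, x ∈ E ↔ ¬ x.IsDiag) ∧ E.card = (Fintype.card V).choose 2 := by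
  refine ⟨(⊤ : SimpleGraph V).edgeFinset, ?_, ?_⟩
  · intro x
    rw [SimpleGraph.mem_edgeFinset, SimpleGraph.edgeSet_top]
    exact Iff.rfl
  · exact SimpleGraph.card_edgeFinset_top_eq_card_choose_two

theorem Zv_choose (n : ℕ) (w : ℂ) : Zv (Fin n) w = (1 + w) ^ (n.choose 2) := by
  obtain ⟨E, hE, hc⟩ := pr1a_top (V := Fin n)
  rw [pr1a_Zv E hE, pr1a_pow, hc, Fintype.card_fin]

end MP_d1b55a
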