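import Pool.Agent.Lib.MP_d1b55a_co.Defs

/-!
PR2. Logarithmic derivative of F = ∑ y^(C(n,2)) x^n/n!. With F' = rescale y F and
L = ∑ (-1)^j (1-y)^j a_(j+1) x^j, L' = L (y rescale y L - L), the series D = F' - F L satisfies
D' = y rescale y D - L D + y D rescale y L and D(0) = 0, so D = 0.
-/

open Finset

namespace MP_d1b55a

/-- the full series `F` -/
noncomputable def nn1F (y : ℂ) : PowerSeries ℂ :=
  PowerSeries.mk (fun n => y ^ (n.choose 2) / (n.factorial : ℂ))

/-- the logarithmic derivative of `F` -/
noncomputable def nn1L (y : ℂ) : PowerSeries ℂ :=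
  PowerSeries.mk (fun j => (-1) ^ j * (1 - y) ^ j * av (j + 1) y)

theorem nn1_F_deriv (y : ℂ) :
    PowerSeries.derivative ℂ (nn1F y) = PowerSeries.rescale y (nn1F y) := by
  ext n
  rw [PowerSeries.coeff_derivative, PowerSeries.coeff_rescale]
  simp only [nn1F, PowerSeries.coeff_mk]
  have h1 : (n + 1).choose 2 = n + n.choose 2 := by
    rw [Nat.choose_succ_succ' n 1, Nat.choose_one_right]
  have h2 : ((n : ℂ) + 1) ≠ 0 := by exact_mod_cast Nat.succ_ne_zero n
  have h3 : (n.factorial : ℂ) ≠ 0 := by exact_mod_cast n.factorial_ne_zero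
  rw [h1, Nat.factorial_succ, pow_add]
  push_cast
  field_simp

theorem nn1_L_deriv (y : ℂ) :
    PowerSeries.derivative ℂ (nn1L y) =
      nn1L y * (PowerSeries.C y * PowerSeries.rescale y (nn1L y) - nn1L y) := by
  ext n
  rw [PowerSeries.coeff_derivative, PowerSeries.coeff_mul,
    Finset.Nat.sum_antidiagonal_eq_sum_range_succ
      (fun p q => (PowerSeries.coeff p) (nn1L y) * (PowerSeries.coeff q)
        (PowerSeries.C y * PowerSeries.rescale y (nn1L y) - nn1L y)),
    ← Finset.sum_range_reflect]
  have hrec := av_rec n y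
  simp only [nn1L, PowerSeries.coeff_mk, map_sub, PowerSeries.coeff_C_mul,
    PowerSeries.coeff_rescale]
  have e : (-1 : ℂ) ^ (n + 1) * (1 - y) ^ (n + 1) * av (n + 1 + 1) y * ((n : ℂ) + 1) =
      (-1 : ℂ) ^ (n + 1) * (1 - y) ^ (n + 1) * (((n : ℂ) + 1) * av (n + 2) y) := by ring
  rw [e, hrec, Finset.mul_sum]
  apply Finset.sum_congr rfl
  intro k hk
  rw [Finset.mem_range] at hk
  have hk' : k ≤ n := by omega
  have e1 : n + 1 - 1 - k = n - k := by omega
  have e2 : n - (n - k) = k := by omega
  have e3 : n - k + 1 = n + 1 - k := by omega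
  rw [Nat.succ_eq_add_one, e1, e2, e3]
  have hg := geom_sum_mul y (k + 1)
  have hp : (-1 : ℂ) ^ (n - k) * (1 - y) ^ (n - k) * ((-1) ^ k * (1 - y) ^ k) =
      (-1) ^ n * (1 - y) ^ n := by
    have : n = (n - k) + k := by omega
    conv_rhs => rw [this, pow_add, pow_add]
    ring
  calc (-1 : ℂ) ^ (n + 1) * (1 - y) ^ (n + 1) *
        ((∑ j ∈ Finset.range (k + 1), y ^ j) * av (k + 1) y * av (n + 1 - k) y)
      = ((-1) ^ n * (1 - y) ^ n) * ((∑ j ∈ Finset.range (k + 1), y ^ j) * (y - 1)) *
          av (k + 1) y * av (n + 1 - k) y := by ring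
    _ = _ := by rw [hg, ← hp]; ring

theorem nn1_main (y : ℂ) : PowerSeries.derivative ℂ (nn1F y) = nn1F y * nn1L y := by
  set F := nn1F y with hF
  set L := nn1L y with hL
  set D := PowerSeries.derivative ℂ F - F * L with hD
  have hF' : PowerSeries.derivative ℂ F = PowerSeries.rescale y F := nn1_F_deriv y
  have hL' : PowerSeries.derivative ℂ L =
      L * (PowerSeries.C y * PowerSeries.rescale y L - L) := nn1_L_deriv y
  have hresc : ∀ G : PowerSeries ℂ, PowerSeries.derivative ℂ (PowerSeries.rescale y G) =
      PowerSeries.C y * PowerSeries.rescale y (PowerSeries.derivative ℂ G) := by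
    intro G
    ext n
    rw [PowerSeries.coeff_derivative, PowerSeries.coeff_rescale, PowerSeries.coeff_C_mul,
      PowerSeries.coeff_rescale, PowerSeries.coeff_derivative]
    ring
  have hD' : PowerSeries.derivative ℂ D =
      PowerSeries.C y * PowerSeries.rescale y D - L * D +
        PowerSeries.C y * (D * PowerSeries.rescale y L) := by
    have h1 : PowerSeries.derivative ℂ D =
        PowerSeries.derivative ℂ (PowerSeries.derivative ℂ F) -
          (F * PowerSeries.derivative ℂ L + L * PowerSeries.derivative ℂ F) := by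
      rw [hD, map_sub, Derivation.leibniz, smul_eq_mul, smul_eq_mul]
    have h2 : PowerSeries.derivative ℂ (PowerSeries.derivative ℂ F) =
        PowerSeries.C y * PowerSeries.rescale y (PowerSeries.derivative ℂ F) := by
      conv_lhs => rw [hF']
      exact hresc F
    have h3 : PowerSeries.rescale y D = PowerSeries.rescale y (PowerSeries.derivative ℂ F) -
        PowerSeries.derivative ℂ F * PowerSeries.rescale y L := by
      rw [hD, map_sub, map_mul, ← hF']
    rw [h1, h2, h3, hL', hD]
    ring
  have hzero : PowerSeries.coeff 0 D = 0 := by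
    rw [hD, map_sub, PowerSeries.coeff_derivative, PowerSeries.coeff_mul]
    simp [hF, hL, nn1F, nn1L, av_one]
  have hDD : PowerSeries.derivative ℂ F = F * L ↔ D = 0 := by
    rw [hD, sub_eq_zero]
  rw [hDD]
  clear_value D
  have hz : ∀ n, PowerSeries.coeff n D = 0 := by
    intro n
    induction n using Nat.strong_induction_on with
    | _ n ih =>
      rcases n with _ | n
      · exact hzero
      · have h1 := congrArg (PowerSeries.coeff n) hD'
        rw [PowerSeries.coeff_derivative, map_add, map_sub, PowerSeries.coeff_C_mul,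
          PowerSeries.coeff_rescale, PowerSeries.coeff_C_mul, PowerSeries.coeff_mul,
          PowerSeries.coeff_mul, ih n (by omega)] at h1
        rw [Finset.sum_eq_zero, Finset.sum_eq_zero] at h1
        · have h2 : ((n : ℂ) + 1) ≠ 0 := by exact_mod_cast Nat.succ_ne_zero n
          have h3 : (PowerSeries.coeff (n + 1)) D * ((n : ℂ) + 1) = 0 := by
            rw [h1]; ring
          exact (mul_eq_zero.mp h3).resolve_right h2
        · intro p hp
          have := (Finset.HasAntidiagonal.mem_antidiagonal).mp hp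
          rw [ih p.1 (by omega), zero_mul]
        · intro p hp
          have := (Finset.HasAntidiagonal.mem_antidiagonal).mp hp
          rw [ih p.2 (by omega), mul_zero]
  ext n
  rw [hz n]
  simp

theorem av_exp (n : ℕ) (y : ℂ) :
    ∑ k ∈ Finset.range (n + 1), (y - 1) ^ k * av (k + 1) y *
      (y ^ ((n - k).choose 2) / ((n - k).factorial : ℂ)) =
    y ^ ((n + 1).choose 2) / (n.factorial : ℂ) := by
  have h := congrArg (PowerSeries.coeff n) (nn1_main y)
  rw [mul_comm (nn1F y), nn1_F_deriv, PowerSeries.coeff_rescale, PowerSeries.coeff_mul,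
    Finset.Nat.sum_antidiagonal_eq_sum_range_succ
      (fun p q => (PowerSeries.coeff p) (nn1L y) * (PowerSeries.coeff q) (nn1F y))] at h
  simp only [nn1L, nn1F, PowerSeries.coeff_mk] at h
  have h1 : (n + 1).choose 2 = n + n.choose 2 := by
    rw [Nat.choose_succ_succ' n 1, Nat.choose_one_right]
  rw [h1, pow_add, mul_div_assoc, h]
  apply Finset.sum_congr rfl
  intro k _
  rw [← mul_pow]
  congr 3
  ring

/-- uniqueness: the linear recursion of `av_exp` determines the sequence -/
theorem av_exp_unique (y : ℂ) (N : ℕ) (d : ℕ → ℂ)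
    (hd : ∀ n, n ≤ N → ∑ k ∈ Finset.range (n + 1), d k *
      (y ^ ((n - k).choose 2) / ((n - k).factorial : ℂ)) =
      y ^ ((n + 1).choose 2) / (n.factorial : ℂ)) :
    ∀ n, n ≤ N → d n = (y - 1) ^ n * av (n + 1) y := by
  intro n
  induction n using Nat.strong_induction_on with
  | _ n ih =>
    intro hn
    have h1 := hd n hn
    rw [← av_exp n y, Finset.sum_range_succ, Finset.sum_range_succ] at h1
    have h2 : ∑ k ∈ Finset.range n, d k * (y ^ ((n - k).choose 2) / ((n - k).factorial : ℂ)) =
        ∑ k ∈ Finset.range n, (y - 1) ^ k * av (k + 1) y *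
          (y ^ ((n - k).choose 2) / ((n - k).factorial : ℂ)) := by
      apply Finset.sum_congr rfl
      intro k hk
      rw [Finset.mem_range] at hk
      rw [ih k hk (by omega)]
    rw [h2] at h1
    have h3 := add_left_cancel h1
    simpa using h3

end MP_d1b55a
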