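import Pool.Agent.Lib.MP_d1b55a_co.PR1
import Pool.Agent.Lib.MP_d1b55a_co.PR2
import Pool.Agent.Lib.MP_d1b55a_co.Final

/-!
PR4. Final assembly: `Rel(K_n; q) = q^(n choose 2) (n-1)! ((1-q)/q)^(n-1) a_n(1/q)` for `q ≠ 0`, and the
location of the roots from `Good θ`.
-/

open Finset

namespace MP_d1b55a

theorem Cv_av (n : ℕ) (y : ℂ) :
    Cv (Fin (n + 1)) (y - 1) = (n.factorial : ℂ) * (y - 1) ^ n * av (n + 1) y := by
  have h := av_exp_unique y n (fun k => Cv (Fin (k + 1)) (y - 1) / (k.factorial : ℂ)) ?_ n le_rfl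
  · have h3 : (n.factorial : ℂ) ≠ 0 := by exact_mod_cast n.factorial_ne_zero
    have h4 : Cv (Fin (n + 1)) (y - 1) =
        (n.factorial : ℂ) * (Cv (Fin (n + 1)) (y - 1) / (n.factorial : ℂ)) := by
      field_simp
    rw [h4]
    rw [h]
    ring
  · intro m _
    have hr := Cg_rec m (y - 1)
    rw [Zv_choose, add_sub_cancel] at hr
    have hm : (m.factorial : ℂ) ≠ 0 := by exact_mod_cast m.factorial_ne_zero
    rw [hr, Finset.sum_div]
    apply Finset.sum_congr rfl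
    intro k hk
    rw [Finset.mem_range] at hk
    have hk' : k ≤ m := by omega
    rw [Zv_choose, add_sub_cancel]
    have h1 : (k.factorial : ℂ) ≠ 0 := by exact_mod_cast k.factorial_ne_zero
    have h2 : ((m - k).factorial : ℂ) ≠ 0 := by exact_mod_cast (m - k).factorial_ne_zero
    have h3 : ((m.choose k : ℕ) : ℂ) * (k.factorial : ℂ) * ((m - k).factorial : ℂ) =
        (m.factorial : ℂ) := by
      exact_mod_cast Nat.choose_mul_factorial_mul_factorial hk'
    rw [← h3] at hm ⊢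
    have hch : ((m.choose k : ℕ) : ℂ) ≠ 0 := by
      intro h0
      rw [h0] at hm
      simp at hm
    field_simp

theorem pr4_sum {V : Type*} [Fintype V] (E : Finset (Sym2 V)) (hE : ∀ x, x ∈ E ↔ ¬ x.IsDiag)
    (w : ℂ) (P : Finset (Sym2 V) → Prop) [DecidablePred P]
    (hP : ∀ S, P S ↔ (SimpleGraph.fromEdgeSet (S : Set (Sym2 V))).Connected) :
    Cv V w = ∑ S ∈ E.powerset.filter P, w ^ S.card := by
  classical
  rw [Finset.sum_filter]
  unfold Cv
  rw [Finset.sum_filter]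
  refine Eq.trans (Finset.sum_congr rfl (fun G _ => ?_))
    (pr1a_sum Finset.univ (fun G => Finset.mem_univ G) E hE
      (fun S => if P S then w ^ S.card else 0))
  have h1 : P (Set.toFinite G.edgeSet).toFinset ↔ G.Connected := by
    rw [hP, Set.Finite.coe_toFinset, SimpleGraph.fromEdgeSet_edgeSet]
  by_cases hG : G.Connected
  · rw [if_pos hG, if_pos (h1.mpr hG), pr1a_card G _]
  · rw [if_neg hG, if_neg (fun h => hG (h1.mp h))]

theorem pr4_mem {V : Type*} (G : SimpleGraph V) (i : Fintype G.edgeSet) (x : Sym2 V) :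
    x ∈ @SimpleGraph.edgeFinset V G i ↔ x ∈ G.edgeSet := SimpleGraph.mem_edgeFinset

theorem Rel_top (n : ℕ) (q : ℂ) (hq : q ≠ 0) :
    Rel (⊤ : SimpleGraph (Fin n)) q = q ^ (n.choose 2) * Cv (Fin n) ((1 - q) / q) := by
  classical
  unfold Rel
  have key : ∀ (E : Finset (Sym2 (Fin n))), (∀ x, x ∈ E ↔ ¬ x.IsDiag) → E.card = n.choose 2 →
      ∀ (P : Finset (Sym2 (Fin n)) → Prop) (_ : DecidablePred P),
      (∀ S, P S ↔ (SimpleGraph.fromEdgeSet (S : Set (Sym2 (Fin n)))).Connected) →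
      ∑ S ∈ E.powerset.filter P, (1 - q) ^ S.card * q ^ (E.card - S.card) =
        q ^ (n.choose 2) * Cv (Fin n) ((1 - q) / q) := by
    intro E hE hc P _ hP
    rw [pr4_sum E hE ((1 - q) / q) P hP, Finset.mul_sum, hc]
    apply Finset.sum_congr rfl
    intro S hS
    have hle : S.card ≤ n.choose 2 := by
      rw [← hc]
      exact Finset.card_le_card (Finset.mem_powerset.mp (Finset.mem_filter.mp hS).1)
    obtain ⟨d, hd⟩ := Nat.exists_eq_add_of_le hle
    rw [hd, Nat.add_sub_cancel_left, div_pow, pow_add]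
    have hq' : q ^ S.card ≠ 0 := pow_ne_zero _ hq
    field_simp
  refine key _ ?_ ?_ _ _ ?_
  · intro x
    rw [pr4_mem, SimpleGraph.edgeSet_top]
    exact Iff.rfl
  · obtain ⟨E, hE, hc⟩ := pr1a_top (V := Fin n)
    rw [Fintype.card_fin] at hc
    rw [← hc]
    apply Finset.card_bij (fun x _ => x)
    · intro x hx
      rw [pr4_mem, SimpleGraph.edgeSet_top] at hx
      exact (hE x).mpr hx
    · intro x _ y _ h
      exact h
    · intro x hx
      refine ⟨x, ?_, rfl⟩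
      rw [pr4_mem, SimpleGraph.edgeSet_top]
      exact (hE x).mp hx
  · intro S
    exact Iff.rfl

theorem rel_of_good (H : ∀ θ : ℝ, 0 < θ → θ ≤ Real.pi → Good θ) (n : ℕ) (hn : 1 ≤ n) (q : ℂ)
    (hq : q ≠ 1) (h0 : Rel (⊤ : SimpleGraph (Fin n)) q = 0) : ‖q‖ < 1 := by
  by_contra hlt
  rw [not_lt] at hlt
  have hq0 : q ≠ 0 := by
    rintro rfl
    rw [norm_zero] at hlt
    linarith
  obtain ⟨m, rfl⟩ : ∃ m, n = m + 1 := ⟨n - 1, by omega⟩
  rw [Rel_top (m + 1) q hq0] at h0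
  have he : (1 - q) / q = q⁻¹ - 1 := by field_simp
  rw [he, Cv_av] at h0
  have hy : ‖q⁻¹‖ ≤ 1 := by
    rw [norm_inv]
    exact inv_le_one_of_one_le₀ hlt
  have h1 : q⁻¹ - 1 ≠ 0 := by
    intro h
    have h2 : q⁻¹ = 1 := sub_eq_zero.mp h
    exact hq (inv_eq_one.mp h2)
  have h2 : av (m + 1) q⁻¹ ≠ 0 := av_ne_zero H (m + 1) (by omega) q⁻¹ hy
  have h3 : ((m.factorial : ℕ) : ℂ) ≠ 0 := by exact_mod_cast m.factorial_ne_zero
  have h4 : q ^ ((m + 1).choose 2) ≠ 0 := pow_ne_zero _ hq0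
  exact absurd h0 (mul_ne_zero h4 (mul_ne_zero (mul_ne_zero h3 (pow_ne_zero _ h1)) h2))

end MP_d1b55a
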