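import Pool.Agent.Lib.MP_d1b55a_co.Moments

/-!
MP_d1b55a_co, P1: `√(πn/2) + 2/3 ≤ 1 + Q(n) ≤ √(πn/2) + 2/3 + √(π/(2n))/12`.
-/

open MeasureTheory Set

namespace MP_d1b55a

theorem intOn_pow_exp (k : ℕ) (r : ℝ) (hr : 0 < r) :
    IntegrableOn (fun x : ℝ => x ^ k * Real.exp (-(r * x))) (Ioi 0) := by
  have h := integrableOn_rpow_mul_exp_neg_mul_rpow (p := 1) (s := (k : ℝ)) (b := r)
    (by have : (0 : ℝ) ≤ k := by positivity
        linarith) one_pos hr
  refine h.congr_fun ?_ measurableSet_Ioi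
  intro x hx
  simp only [Real.rpow_one, Real.rpow_natCast, neg_mul]

theorem int_pow_exp (k : ℕ) (r : ℝ) (hr : 0 < r) :
    ∫ x in Ioi (0 : ℝ), x ^ k * Real.exp (-(r * x)) = (k.factorial : ℝ) / r ^ (k + 1) := by
  have h := Real.integral_rpow_mul_exp_neg_mul_Ioi (a := (k : ℝ) + 1) (r := r) (by positivity) hr
  rw [Real.Gamma_nat_eq_factorial] at h
  have h2 : ∫ x in Ioi (0 : ℝ), x ^ k * Real.exp (-(r * x)) =
      ∫ t : ℝ in Ioi 0, t ^ ((k : ℝ) + 1 - 1) * Real.exp (-(r * t)) := by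
    apply setIntegral_congr_fun measurableSet_Ioi
    intro x _
    simp only [add_sub_cancel_right, Real.rpow_natCast]
  rw [h2, h]
  have : ((k : ℝ) + 1) = ((k + 1 : ℕ) : ℝ) := by push_cast; ring
  rw [this, Real.rpow_natCast, one_div, inv_pow]
  field_simp

theorem intOn_pow_gauss (k : ℕ) (b : ℝ) (hb : 0 < b) :
    IntegrableOn (fun x : ℝ => x ^ k * Real.exp (-b * x ^ 2)) (Ioi 0) := by
  have h := integrableOn_rpow_mul_exp_neg_mul_sq (b := b) hb (s := (k : ℝ))
    (by have : (0 : ℝ) ≤ k := by positivity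
        linarith)
  refine h.congr_fun ?_ measurableSet_Ioi
  intro x hx
  simp only [Real.rpow_natCast]

theorem int_pow_gauss (k : ℕ) (b : ℝ) (hb : 0 < b) :
    ∫ x in Ioi (0 : ℝ), x ^ k * Real.exp (-b * x ^ 2) =
      b ^ (-((k : ℝ) + 1) / 2) * (1 / 2) * Real.Gamma (((k : ℝ) + 1) / 2) := by
  have h := integral_rpow_mul_exp_neg_mul_rpow (p := 2) (q := (k : ℝ)) (b := b) two_pos
    (by have : (0 : ℝ) ≤ k := by positivity
        linarith) hb
  rw [← h]
  apply setIntegral_congr_fun measurableSet_Ioi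
  intro x _
  simp only [Real.rpow_natCast, Real.rpow_two]

theorem gauss0 (n : ℕ) (hn : 1 ≤ n) :
    ∫ x in Ioi (0 : ℝ), Real.exp (-((n : ℝ) / 2) * x ^ 2) = √(2 * Real.pi / n) / 2 := by
  rw [integral_gaussian_Ioi]
  congr 2
  have : (n : ℝ) ≠ 0 := by positivity
  field_simp

theorem gauss1 (n : ℕ) (hn : 1 ≤ n) :
    ∫ x in Ioi (0 : ℝ), x ^ 1 * Real.exp (-((n : ℝ) / 2) * x ^ 2) = 1 / n := by
  have hn' : (0 : ℝ) < n := by exact_mod_cast hn
  rw [int_pow_gauss 1 _ (by positivity)]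
  have : (-(((1 : ℕ) : ℝ) + 1) / 2) = -1 := by norm_num
  rw [this, Real.rpow_neg_one]
  have h2 : ((((1 : ℕ) : ℝ) + 1) / 2) = 1 := by norm_num
  rw [h2, Real.Gamma_one]
  field_simp

theorem gauss2 (n : ℕ) (hn : 1 ≤ n) :
    ∫ x in Ioi (0 : ℝ), x ^ 2 * Real.exp (-((n : ℝ) / 2) * x ^ 2) =
      √(2 * Real.pi / n) / (2 * n) := by
  have hn' : (0 : ℝ) < n := by exact_mod_cast hn
  rw [int_pow_gauss 2 _ (by positivity)]
  have h1 : (((2 : ℕ) : ℝ) + 1) / 2 = 1 / 2 + 1 := by norm_num
  have h2 : (-(((2 : ℕ) : ℝ) + 1) / 2) = -(1 / 2) + -1 := by norm_num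
  have hb : (0 : ℝ) < (n : ℝ) / 2 := by positivity
  rw [h1, h2, Real.Gamma_add_one (by norm_num), Real.Gamma_one_half_eq, Real.rpow_add hb,
    Real.rpow_neg_one, Real.rpow_neg hb.le, ← Real.sqrt_eq_rpow]
  have h3 : √(2 * Real.pi / n) = √Real.pi * (√((n : ℝ) / 2))⁻¹ := by
    rw [← Real.sqrt_inv, ← Real.sqrt_mul Real.pi_pos.le]
    congr 1
    field_simp
  rw [h3]
  field_simp

/-- the integral formula -/
theorem Q1_integral (n : ℕ) (hn : 1 ≤ n) :
    (Q1 n : ℝ) = n * ∫ s in Ioi (0 : ℝ), (1 + s) ^ n * Real.exp (-((n : ℝ) * s)) := by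
  have hn' : (0 : ℝ) < n := by exact_mod_cast hn
  have h1 : ∀ s : ℝ, (1 + s) ^ n * Real.exp (-((n : ℝ) * s)) =
      ∑ k ∈ Finset.range (n + 1), (n.choose k : ℝ) * (s ^ k * Real.exp (-((n : ℝ) * s))) := by
    intro s
    rw [add_comm, add_pow, Finset.sum_mul]
    apply Finset.sum_congr rfl
    intro k _
    rw [one_pow]
    ring
  simp_rw [h1]
  rw [integral_finsetSum]
  · unfold Q1
    rw [Finset.mul_sum]
    push_cast
    apply Finset.sum_congr rfl
    intro k hk
    rw [Finset.mem_range] at hk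
    rw [integral_const_mul, int_pow_exp k _ hn']
    have h2 : (n.descFactorial k : ℝ) = (k.factorial : ℝ) * (n.choose k : ℝ) := by
      exact_mod_cast Nat.descFactorial_eq_factorial_mul_choose n k
    rw [h2]
    field_simp
    ring
  · intro k _
    exact (intOn_pow_exp k _ hn').const_mul _

theorem g_intOn (n : ℕ) (hn : 1 ≤ n) :
    IntegrableOn (fun s : ℝ => (1 + s) ^ n * Real.exp (-((n : ℝ) * s))) (Ioi 0) := by
  have hn' : (0 : ℝ) < n := by exact_mod_cast hn
  have h1 : (fun s : ℝ => (1 + s) ^ n * Real.exp (-((n : ℝ) * s))) =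
      fun s => ∑ k ∈ Finset.range (n + 1), (n.choose k : ℝ) *
        (s ^ k * Real.exp (-((n : ℝ) * s))) := by
    funext s
    rw [add_comm, add_pow, Finset.sum_mul]
    apply Finset.sum_congr rfl
    intro k _
    rw [one_pow]
    ring
  rw [h1]
  apply integrable_finsetSum
  intro k _
  exact (intOn_pow_exp k _ hn').const_mul _

/-! ### the two substitutions -/

/-- general comparison: `G = φ - log (1+φ) - v²/2` -/
theorem G_der (φ φ' : ℝ → ℝ) (hφ : ∀ v, HasDerivAt φ (φ' v) v) (v : ℝ) (hv : 0 < 1 + φ v) :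
    HasDerivAt (fun v => φ v - Real.log (1 + φ v) - v ^ 2 / 2)
      (φ' v - φ' v / (1 + φ v) - v) v := by
  have h1 := (hφ v)
  have h2 : HasDerivAt (fun v => Real.log (1 + φ v)) (φ' v / (1 + φ v)) v :=
    ((hφ v).const_add 1).log hv.ne'
  have h3 : HasDerivAt (fun v : ℝ => v ^ 2 / 2) v v := by
    have := (hasDerivAt_pow 2 v).div_const 2
    simpa using this
  exact (h1.sub h2).sub h3

theorem der_low (v : ℝ) : HasDerivAt (fun v : ℝ => v + v ^ 2 / 3) (1 + 2 * v / 3) v := by
  have h := (hasDerivAt_id' v).fun_add ((hasDerivAt_pow 2 v).div_const 3)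
  simpa using h

theorem der_up (v : ℝ) : HasDerivAt (fun v : ℝ => v + v ^ 2 / 3 + v ^ 3 / 36)
    (1 + 2 * v / 3 + 3 * v ^ 2 / 36) v := by
  have h := ((hasDerivAt_id' v).fun_add ((hasDerivAt_pow 2 v).div_const 3)).fun_add
    ((hasDerivAt_pow 3 v).div_const 36)
  simpa using h

theorem lower_pt (v : ℝ) (hv : 0 ≤ v) :
    (v + v ^ 2 / 3) - Real.log (1 + (v + v ^ 2 / 3)) - v ^ 2 / 2 ≤ 0 := by
  set φ : ℝ → ℝ := fun v => v + v ^ 2 / 3 with hφdef
  have hφ : ∀ v, HasDerivAt φ (1 + 2 * v / 3) v := der_low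
  have hpos : ∀ v, 0 ≤ v → 0 < 1 + φ v := by
    intro v hv
    simp only [hφdef]
    positivity
  set G : ℝ → ℝ := fun v => φ v - Real.log (1 + φ v) - v ^ 2 / 2 with hG
  have hanti : AntitoneOn G (Ici 0) := by
    apply antitoneOn_of_deriv_nonpos (convex_Ici 0)
    · intro x hx
      exact (G_der φ _ hφ x (hpos x hx)).continuousAt.continuousWithinAt
    · intro x hx
      rw [interior_Ici] at hx
      exact (G_der φ _ hφ x (hpos x (le_of_lt hx))).differentiableAt.differentiableWithinAt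
    · intro x hx
      rw [interior_Ici] at hx
      have hx' : 0 < x := hx
      rw [(G_der φ _ hφ x (hpos x hx'.le)).deriv]
      have h1 := hpos x hx'.le
      have h2 : 1 + 2 * x / 3 - (1 + 2 * x / 3) / (1 + φ x) - x =
          -(x ^ 3 / 9) / (1 + φ x) := by
        field_simp
        simp only [hφdef]
        ring
      rw [h2]
      apply div_nonpos_of_nonpos_of_nonneg _ h1.le
      have : 0 ≤ x ^ 3 := by positivity
      linarith
  have h0 : G 0 = 0 := by simp [hG, hφdef]
  have h1 := hanti (Set.mem_Ici.mpr le_rfl) (Set.mem_Ici.mpr hv) hv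
  rw [h0] at h1
  exact h1

theorem upper_pt (v : ℝ) (hv : 0 ≤ v) :
    0 ≤ (v + v ^ 2 / 3 + v ^ 3 / 36) - Real.log (1 + (v + v ^ 2 / 3 + v ^ 3 / 36)) - v ^ 2 / 2 := by
  set φ : ℝ → ℝ := fun v => v + v ^ 2 / 3 + v ^ 3 / 36 with hφdef
  have hφ : ∀ v, HasDerivAt φ (1 + 2 * v / 3 + 3 * v ^ 2 / 36) v := der_up
  have hpos : ∀ v, 0 ≤ v → 0 < 1 + φ v := by
    intro v hv
    simp only [hφdef]
    positivity
  set G : ℝ → ℝ := fun v => φ v - Real.log (1 + φ v) - v ^ 2 / 2 with hG
  have hmono : MonotoneOn G (Ici 0) := by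
    apply monotoneOn_of_deriv_nonneg (convex_Ici 0)
    · intro x hx
      exact (G_der φ _ hφ x (hpos x hx)).continuousAt.continuousWithinAt
    · intro x hx
      rw [interior_Ici] at hx
      exact (G_der φ _ hφ x (hpos x (le_of_lt hx))).differentiableAt.differentiableWithinAt
    · intro x hx
      rw [interior_Ici] at hx
      have hx' : 0 < x := hx
      rw [(G_der φ _ hφ x (hpos x hx'.le)).deriv]
      have h1 := hpos x hx'.le
      have h2 : 1 + 2 * x / 3 + 3 * x ^ 2 / 36 - (1 + 2 * x / 3 + 3 * x ^ 2 / 36) / (1 + φ x) - x =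
          (x ^ 4 / 54 + x ^ 5 / 432) / (1 + φ x) := by
        field_simp
        simp only [hφdef]
        ring
      rw [h2]
      positivity
  have h0 : G 0 = 0 := by simp [hG, hφdef]
  have h1 := hmono (Set.mem_Ici.mpr le_rfl) (Set.mem_Ici.mpr hv) hv
  rw [h0] at h1
  exact h1

theorem g_pow (n : ℕ) (s : ℝ) (hs : 0 ≤ s) : (1 + s) ^ n * Real.exp (-((n : ℝ) * s)) =
    Real.exp ((n : ℝ) * (Real.log (1 + s) - s)) := by
  have h : 0 < 1 + s := by linarith
  rw [mul_sub, sub_eq_add_neg, Real.exp_add]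
  congr 1
  rw [← Real.log_pow, Real.exp_log (by positivity)]

theorem Q1_lower (n : ℕ) (hn : 1 ≤ n) : √(Real.pi * n / 2) + 2 / 3 ≤ (Q1 n : ℝ) := by
  have hn' : (0 : ℝ) < n := by exact_mod_cast hn
  set g : ℝ → ℝ := fun s => (1 + s) ^ n * Real.exp (-((n : ℝ) * s)) with hg
  set φ : ℝ → ℝ := fun v => v + v ^ 2 / 3 with hφdef
  have hφ : ∀ v, HasDerivAt φ (1 + 2 * v / 3) v := der_low
  have hinj : InjOn φ (Ioi 0) := by
    intro a ha b hb hab
    have ha' : 0 < a := ha
    have hb' : 0 < b := hb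
    simp only [hφdef] at hab
    have : (a - b) * (1 + (a + b) / 3) = 0 := by linear_combination hab
    rcases mul_eq_zero.mp this with h | h
    · linarith
    · exfalso; have : 0 < 1 + (a + b) / 3 := by positivity
      linarith
  have himg : φ '' Ioi 0 ⊆ Ioi 0 := by
    rintro _ ⟨v, hv, rfl⟩
    have : 0 < v := hv
    simp only [hφdef, Set.mem_Ioi]
    positivity
  have hgi := g_intOn n hn
  have hgi2 : IntegrableOn g (φ '' Ioi 0) := hgi.mono_set himg
  have hch := integral_image_eq_integral_abs_deriv_smul measurableSet_Ioi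
    (fun x _ => (hφ x).hasDerivWithinAt) hinj g
  have hchi := (integrableOn_image_iff_integrableOn_abs_deriv_smul measurableSet_Ioi
    (fun x _ => (hφ x).hasDerivWithinAt) hinj g).mp hgi2
  have h1 : ∫ s in φ '' Ioi 0, g s ≤ ∫ s in Ioi 0, g s := by
    apply setIntegral_mono_set hgi
    · filter_upwards [ae_restrict_mem measurableSet_Ioi] with s hs
      have : 0 < s := hs
      simp only [Pi.zero_apply]
      positivity
    · exact himg.eventuallyLE
  have h2 : ∫ v in Ioi (0 : ℝ), (Real.exp (-((n : ℝ) / 2) * v ^ 2) +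
      2 / 3 * (v ^ 1 * Real.exp (-((n : ℝ) / 2) * v ^ 2))) ≤
      ∫ v in Ioi (0 : ℝ), |1 + 2 * v / 3| • g (φ v) := by
    apply setIntegral_mono_on
    · have i0 := intOn_pow_gauss 0 ((n : ℝ) / 2) (by positivity)
      have i1 := intOn_pow_gauss 1 ((n : ℝ) / 2) (by positivity)
      simp only [pow_zero, one_mul] at i0
      exact i0.add (i1.const_mul _)
    · exact hchi
    · exact measurableSet_Ioi
    · intro v hv
      have hv' : 0 < v := hv
      have hφ0 : 0 ≤ φ v := by simp only [hφdef]; positivity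
      have h3 : Real.exp (-((n : ℝ) / 2) * v ^ 2) ≤ g (φ v) := by
        simp only [hg]
        rw [g_pow n (φ v) hφ0]
        apply Real.exp_le_exp.mpr
        have := lower_pt v hv'.le
        have h4 : -(v ^ 2 / 2) ≤ Real.log (1 + φ v) - φ v := by
          simp only [hφdef]
          linarith
        calc -((n : ℝ) / 2) * v ^ 2 = n * (-(v ^ 2 / 2)) := by ring
          _ ≤ n * (Real.log (1 + φ v) - φ v) := mul_le_mul_of_nonneg_left h4 hn'.le
      rw [abs_of_pos (by positivity), smul_eq_mul]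
      have h5 : 0 < 1 + 2 * v / 3 := by positivity
      calc Real.exp (-((n : ℝ) / 2) * v ^ 2) + 2 / 3 * (v ^ 1 * Real.exp (-((n : ℝ) / 2) * v ^ 2))
          = (1 + 2 * v / 3) * Real.exp (-((n : ℝ) / 2) * v ^ 2) := by ring
        _ ≤ (1 + 2 * v / 3) * g (φ v) := mul_le_mul_of_nonneg_left h3 h5.le
  have h3 : ∫ v in Ioi (0 : ℝ), (Real.exp (-((n : ℝ) / 2) * v ^ 2) +
      2 / 3 * (v ^ 1 * Real.exp (-((n : ℝ) / 2) * v ^ 2))) =
      √(2 * Real.pi / n) / 2 + 2 / 3 * (1 / n) := by
    have i0 := intOn_pow_gauss 0 ((n : ℝ) / 2) (by positivity)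
    have i1 := intOn_pow_gauss 1 ((n : ℝ) / 2) (by positivity)
    simp only [pow_zero, one_mul] at i0
    rw [integral_add i0 (i1.const_mul _), integral_const_mul, gauss0 n hn, gauss1 n hn]
  rw [h3] at h2
  have h4 : √(2 * Real.pi / n) / 2 + 2 / 3 * (1 / n) ≤ ∫ s in Ioi 0, g s :=
    (h2.trans (le_of_eq hch.symm)).trans h1
  rw [Q1_integral n hn]
  have h5 := mul_le_mul_of_nonneg_left h4 hn'.le
  refine le_trans (le_of_eq ?_) h5
  have h6 : √(Real.pi * n / 2) = n * (√(2 * Real.pi / n) / 2) := by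
    rw [Real.sqrt_eq_iff_mul_self_eq (by positivity) (by positivity)]
    have := Real.mul_self_sqrt (show 0 ≤ 2 * Real.pi / n by positivity)
    symm
    calc (n : ℝ) * (√(2 * Real.pi / n) / 2) * (n * (√(2 * Real.pi / n) / 2)) =
        n ^ 2 / 4 * (√(2 * Real.pi / n) * √(2 * Real.pi / n)) := by ring
      _ = n ^ 2 / 4 * (2 * Real.pi / n) := by rw [this]
      _ = Real.pi * n / 2 := by field_simp; ring
  rw [h6]
  field_simp

theorem Q1_upper (n : ℕ) (hn : 1 ≤ n) :
    (Q1 n : ℝ) ≤ √(Real.pi * n / 2) + 2 / 3 + √(Real.pi / (2 * n)) / 12 := by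
  have hn' : (0 : ℝ) < n := by exact_mod_cast hn
  set g : ℝ → ℝ := fun s => (1 + s) ^ n * Real.exp (-((n : ℝ) * s)) with hg
  set φ : ℝ → ℝ := fun v => v + v ^ 2 / 3 + v ^ 3 / 36 with hφdef
  have hφ : ∀ v, HasDerivAt φ (1 + 2 * v / 3 + 3 * v ^ 2 / 36) v := der_up
  have hinj : InjOn φ (Ioi 0) := by
    intro a ha b hb hab
    have ha' : 0 < a := ha
    have hb' : 0 < b := hb
    simp only [hφdef] at hab
    have : (a - b) * (1 + (a + b) / 3 + (a ^ 2 + a * b + b ^ 2) / 36) = 0 := by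
      linear_combination hab
    rcases mul_eq_zero.mp this with h | h
    · linarith
    · exfalso
      have : 0 < 1 + (a + b) / 3 + (a ^ 2 + a * b + b ^ 2) / 36 := by positivity
      linarith
  have himg : φ '' Ioi 0 = Ioi 0 := by
    apply Set.Subset.antisymm
    · rintro _ ⟨v, hv, rfl⟩
      have : 0 < v := hv
      simp only [hφdef, Set.mem_Ioi]
      positivity
    · intro s hs
      have hs' : 0 < s := hs
      have hcont : Continuous φ := by
        rw [hφdef]; fun_prop
      have hiv := intermediate_value_Icc hs'.le hcont.continuousOn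
      have hmem : s ∈ Icc (φ 0) (φ s) := by
        constructor
        · simp only [hφdef]
          norm_num
          exact hs'.le
        · simp only [hφdef]
          have : 0 ≤ s ^ 2 / 3 + s ^ 3 / 36 := by positivity
          linarith
      obtain ⟨v, hv, hvs⟩ := hiv hmem
      refine ⟨v, ?_, hvs⟩
      rcases eq_or_lt_of_le hv.1 with h | h
      · exfalso
        rw [← h] at hvs
        simp only [hφdef] at hvs
        norm_num at hvs
        linarith
      · exact h
  have hgi := g_intOn n hn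
  have hch := integral_image_eq_integral_abs_deriv_smul measurableSet_Ioi
    (fun x _ => (hφ x).hasDerivWithinAt) hinj g
  have hchi := (integrableOn_image_iff_integrableOn_abs_deriv_smul measurableSet_Ioi
    (fun x _ => (hφ x).hasDerivWithinAt) hinj g).mp (by rw [himg]; exact hgi)
  rw [himg] at hch
  have i0 := intOn_pow_gauss 0 ((n : ℝ) / 2) (by positivity)
  have i1 := intOn_pow_gauss 1 ((n : ℝ) / 2) (by positivity)
  have i2 := intOn_pow_gauss 2 ((n : ℝ) / 2) (by positivity)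
  simp only [pow_zero, one_mul] at i0
  have i01 : IntegrableOn (fun v : ℝ => Real.exp (-((n : ℝ) / 2) * v ^ 2) +
      2 / 3 * (v ^ 1 * Real.exp (-((n : ℝ) / 2) * v ^ 2))) (Ioi 0) := i0.add (i1.const_mul _)
  have h2 : ∫ v in Ioi (0 : ℝ), |1 + 2 * v / 3 + 3 * v ^ 2 / 36| • g (φ v) ≤
      ∫ v in Ioi (0 : ℝ), (Real.exp (-((n : ℝ) / 2) * v ^ 2) +
      2 / 3 * (v ^ 1 * Real.exp (-((n : ℝ) / 2) * v ^ 2)) +
      1 / 12 * (v ^ 2 * Real.exp (-((n : ℝ) / 2) * v ^ 2))) := by
    apply setIntegral_mono_on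
    · exact hchi
    · exact i01.add (i2.const_mul _)
    · exact measurableSet_Ioi
    · intro v hv
      have hv' : 0 < v := hv
      have hφ0 : 0 ≤ φ v := by simp only [hφdef]; positivity
      have h3 : g (φ v) ≤ Real.exp (-((n : ℝ) / 2) * v ^ 2) := by
        simp only [hg]
        rw [g_pow n (φ v) hφ0]
        apply Real.exp_le_exp.mpr
        have := upper_pt v hv'.le
        have h4 : Real.log (1 + φ v) - φ v ≤ -(v ^ 2 / 2) := by
          simp only [hφdef]
          linarith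
        calc n * (Real.log (1 + φ v) - φ v) ≤ n * (-(v ^ 2 / 2)) :=
              mul_le_mul_of_nonneg_left h4 hn'.le
          _ = -((n : ℝ) / 2) * v ^ 2 := by ring
      have h5 : 0 < 1 + 2 * v / 3 + 3 * v ^ 2 / 36 := by positivity
      rw [abs_of_pos h5, smul_eq_mul]
      calc (1 + 2 * v / 3 + 3 * v ^ 2 / 36) * g (φ v) ≤
          (1 + 2 * v / 3 + 3 * v ^ 2 / 36) * Real.exp (-((n : ℝ) / 2) * v ^ 2) :=
            mul_le_mul_of_nonneg_left h3 h5.le
        _ = _ := by ring
  have h3 : ∫ v in Ioi (0 : ℝ), (Real.exp (-((n : ℝ) / 2) * v ^ 2) +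
      2 / 3 * (v ^ 1 * Real.exp (-((n : ℝ) / 2) * v ^ 2)) +
      1 / 12 * (v ^ 2 * Real.exp (-((n : ℝ) / 2) * v ^ 2))) =
      √(2 * Real.pi / n) / 2 + 2 / 3 * (1 / n) + 1 / 12 * (√(2 * Real.pi / n) / (2 * n)) := by
    rw [integral_add i01 (i2.const_mul _), integral_add i0 (i1.const_mul _), integral_const_mul,
      integral_const_mul, gauss0 n hn, gauss1 n hn, gauss2 n hn]
  rw [h3, ← hch] at h2
  rw [Q1_integral n hn]
  have h5 := mul_le_mul_of_nonneg_left h2 hn'.le
  refine le_trans h5 (le_of_eq ?_)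
  have h6 : √(Real.pi * n / 2) = n * (√(2 * Real.pi / n) / 2) := by
    rw [Real.sqrt_eq_iff_mul_self_eq (by positivity) (by positivity)]
    have := Real.mul_self_sqrt (show 0 ≤ 2 * Real.pi / n by positivity)
    symm
    calc (n : ℝ) * (√(2 * Real.pi / n) / 2) * (n * (√(2 * Real.pi / n) / 2)) =
        n ^ 2 / 4 * (√(2 * Real.pi / n) * √(2 * Real.pi / n)) := by ring
      _ = n ^ 2 / 4 * (2 * Real.pi / n) := by rw [this]
      _ = Real.pi * n / 2 := by field_simp; ring
  have h7 : √(Real.pi / (2 * n)) = √(2 * Real.pi / n) / 2 := by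
    rw [Real.sqrt_eq_iff_mul_self_eq (by positivity) (by positivity)]
    have := Real.mul_self_sqrt (show 0 ≤ 2 * Real.pi / n by positivity)
    symm
    calc (√(2 * Real.pi / n) / 2) * (√(2 * Real.pi / n) / 2) =
        1 / 4 * (√(2 * Real.pi / n) * √(2 * Real.pi / n)) := by ring
      _ = 1 / 4 * (2 * Real.pi / n) := by rw [this]
      _ = Real.pi / (2 * n) := by field_simp; ring
  rw [h6, h7]
  field_simp

/-! ### consequences for mean and variance -/

theorem VA_le (n : ℕ) (hn : 1 ≤ n) :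
    VA n ≤ (5 / 12 - Real.pi / 8) * (n : ℝ) ^ 3 + (n : ℝ) ^ 2 / 36 := by
  have hn' : (1 : ℝ) ≤ n := by exact_mod_cast hn
  rw [VA_formula n hn]
  have h1 := Q1_lower n hn
  have hx := Real.sqrt_nonneg (Real.pi * n / 2)
  have hx2 := Real.mul_self_sqrt (show 0 ≤ Real.pi * n / 2 by positivity)
  set x := √(Real.pi * n / 2) with hxdef
  set R := (Q1 n : ℝ) with hR
  have h2 : x * x ≤ (R - 2 / 3) * (R - 2 / 3) :=
    mul_self_le_mul_self hx (by linarith)
  have h3 : (n : ℝ) ^ 2 * (x * x) ≤ (n : ℝ) ^ 2 * ((R - 2 / 3) * (R - 2 / 3)) :=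
    mul_le_mul_of_nonneg_left h2 (by positivity)
  rw [hx2] at h3
  nlinarith [h3, hn']

/-- increments of the mean -/
theorem EA_incr (n : ℕ) (hn : 1 ≤ n) :
    |EA (n + 1) - EA n| ≤ (19 / 12 * √(Real.pi * n / 2) +
      13 * Real.pi / (48 * √(Real.pi * n / 2)) - 7 / 3) / 2 := by
  have hn' : (1 : ℝ) ≤ n := by exact_mod_cast hn
  have hpi := Real.pi_gt_three
  have hpi4 := Real.pi_le_four
  have hxpos : 0 < √(Real.pi * n / 2) := Real.sqrt_pos.mpr (by positivity)
  have hx2 := Real.mul_self_sqrt (show 0 ≤ Real.pi * n / 2 by positivity)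
  have hypos : 0 < √(Real.pi * ((n + 1 : ℕ) : ℝ) / 2) := Real.sqrt_pos.mpr (by positivity)
  have hy2 := Real.mul_self_sqrt (show 0 ≤ Real.pi * ((n + 1 : ℕ) : ℝ) / 2 by positivity)
  have hl := Q1_lower n hn
  have hu := Q1_upper n hn
  have hl' := Q1_lower (n + 1) (by omega)
  have hu' := Q1_upper (n + 1) (by omega)
  have e1 : (n : ℝ) * √(Real.pi / (2 * n)) = √(Real.pi * n / 2) := by
    symm
    rw [Real.sqrt_eq_iff_mul_self_eq (by positivity) (by positivity)]
    have := Real.mul_self_sqrt (show 0 ≤ Real.pi / (2 * n) by positivity)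
    symm
    calc (n : ℝ) * √(Real.pi / (2 * n)) * (n * √(Real.pi / (2 * n))) =
        n ^ 2 * (√(Real.pi / (2 * n)) * √(Real.pi / (2 * n))) := by ring
      _ = n ^ 2 * (Real.pi / (2 * n)) := by rw [this]
      _ = Real.pi * n / 2 := by field_simp
  have e2 : ((n + 1 : ℕ) : ℝ) * √(Real.pi / (2 * ((n + 1 : ℕ) : ℝ))) =
      √(Real.pi * ((n + 1 : ℕ) : ℝ) / 2) := by
    symm
    rw [Real.sqrt_eq_iff_mul_self_eq (by positivity) (by positivity)]
    have := Real.mul_self_sqrt (show 0 ≤ Real.pi / (2 * ((n + 1 : ℕ) : ℝ)) by positivity)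
    symm
    calc ((n + 1 : ℕ) : ℝ) * √(Real.pi / (2 * ((n + 1 : ℕ) : ℝ))) *
          (((n + 1 : ℕ) : ℝ) * √(Real.pi / (2 * ((n + 1 : ℕ) : ℝ)))) =
        ((n + 1 : ℕ) : ℝ) ^ 2 * (√(Real.pi / (2 * ((n + 1 : ℕ) : ℝ))) *
          √(Real.pi / (2 * ((n + 1 : ℕ) : ℝ)))) := by ring
      _ = ((n + 1 : ℕ) : ℝ) ^ 2 * (Real.pi / (2 * ((n + 1 : ℕ) : ℝ))) := by rw [this]
      _ = Real.pi * ((n + 1 : ℕ) : ℝ) / 2 := by field_simp
  rw [EA_formula n hn, EA_formula (n + 1) (by omega)]
  set x := √(Real.pi * n / 2) with hxdef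
  set y := √(Real.pi * ((n + 1 : ℕ) : ℝ) / 2) with hydef
  set R := (Q1 n : ℝ) with hR
  set R' := (Q1 (n + 1) : ℝ) with hR'
  -- upper and lower bounds of (n+1) R' and n R
  have u1 : ((n + 1 : ℕ) : ℝ) * R' ≤ ((n + 1 : ℕ) : ℝ) * (y + 2 / 3) + y / 12 := by
    have := mul_le_mul_of_nonneg_left hu' (show (0 : ℝ) ≤ ((n + 1 : ℕ) : ℝ) by positivity)
    refine this.trans (le_of_eq ?_)
    linear_combination (1 / 12) * e2
  have l1 : ((n + 1 : ℕ) : ℝ) * (y + 2 / 3) ≤ ((n + 1 : ℕ) : ℝ) * R' :=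
    mul_le_mul_of_nonneg_left hl' (by positivity)
  have u0 : (n : ℝ) * R ≤ n * (x + 2 / 3) + x / 12 := by
    have := mul_le_mul_of_nonneg_left hu (show (0 : ℝ) ≤ (n : ℝ) by positivity)
    refine this.trans (le_of_eq ?_)
    linear_combination (1 / 12) * e1
  have l0 : (n : ℝ) * (x + 2 / 3) ≤ n * R := mul_le_mul_of_nonneg_left hl (by positivity)
  -- y versus x
  have hxy : x ≤ y := by
    rw [hxdef, hydef]
    apply Real.sqrt_le_sqrt
    push_cast
    linarith
  have hdiff : y * y = x * x + Real.pi / 2 := by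
    rw [hy2, hx2]; push_cast; ring
  have hyx : (y - x) * (y + x) = Real.pi / 2 := by linear_combination hdiff
  have hyup : y - x ≤ Real.pi / (4 * x) := by
    rw [le_div_iff₀ (by positivity)]
    have h8 : (y - x) * (2 * x) ≤ (y - x) * (y + x) :=
      mul_le_mul_of_nonneg_left (by linarith) (sub_nonneg.mpr hxy)
    rw [hyx] at h8
    linarith
  have hnx : (n : ℝ) * (Real.pi / (4 * x)) = x / 2 := by
    have : (n : ℝ) * Real.pi = 2 * (x * x) := by rw [hx2]; ring
    have h5 : (n : ℝ) * (Real.pi / (4 * x)) = (n : ℝ) * Real.pi / (4 * x) := by ring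
    rw [h5, this]
    field_simp
    ring
  have hny : (n : ℝ) * (y - x) ≤ x / 2 := by
    rw [← hnx]
    exact mul_le_mul_of_nonneg_left hyup (by positivity)
  have hpi48 : 13 * Real.pi / (48 * x) = Real.pi / (4 * x) + Real.pi / (4 * x) / 12 := by
    field_simp
    ring
  rw [abs_le]
  constructor
  · -- lower bound
    rcases Nat.lt_or_ge n 2 with h2 | h2
    · -- n = 1
      have hn1 : n = 1 := by omega
      subst hn1
      have q1 : R = 2 := by
        rw [hR]
        unfold Q1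
        norm_num [Finset.sum_range_succ, Nat.descFactorial]
      have q2 : R' = 5 / 2 := by
        rw [hR']
        unfold Q1
        norm_num [Finset.sum_range_succ, Nat.descFactorial]
      rw [q1, q2]
      have hx1 : 1.22 ≤ x := by
        rw [hxdef]
        apply Real.le_sqrt_of_sq_le
        push_cast
        norm_num
        linarith
      have h13 : 0 < 13 * Real.pi / (48 * x) := by positivity
      push_cast
      have hx15 : x ≤ 1.5 := by
        rw [hxdef, Real.sqrt_le_left (by norm_num)]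
        push_cast
        norm_num
        linarith
      have h6 : 13 * 3 / (48 * 1.5) ≤ 13 * Real.pi / (48 * x) := by
        apply div_le_div₀ (by positivity) (by linarith) (by positivity)
        linarith
      norm_num at h6
      linarith
    · have hn2 : (2 : ℝ) ≤ n := by exact_mod_cast h2
      have h33 : (3 : ℝ) * 2 ≤ Real.pi * n :=
        mul_le_mul hpi.le hn2 (by norm_num) Real.pi_pos.le
      have hx1 : 1.73 ≤ x := by
        rw [hxdef]
        apply Real.le_sqrt_of_sq_le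
        norm_num
        linarith
      have h13 : 0 < 13 * Real.pi / (48 * x) := by positivity
      have hlow : (n : ℝ) * (y - x) ≥ 0 := mul_nonneg (by positivity) (sub_nonneg.mpr hxy)
      have hcast : ((n + 1 : ℕ) : ℝ) = n + 1 := by push_cast; ring
      have hexp : ((n + 1 : ℕ) : ℝ) * (y + 2 / 3) =
          n * (y - x) + n * x + 2 / 3 * n + y + 2 / 3 := by
        rw [hcast]; ring
      have hexp0 : (n : ℝ) * (x + 2 / 3) = n * x + 2 / 3 * n := by ring
      have hkey : 14 / 3 ≤ n * (y - x) + 5 / 2 * x := by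
        rcases le_total 1.87 x with hx3 | hx3
        · linarith
        · have hy3 : y ≤ 2.3 := by
            by_contra hcon
            rw [not_le] at hcon
            have h10 : (2.3 : ℝ) * 2.3 < y * y := mul_self_lt_mul_self (by norm_num) hcon
            have h11 : x * x ≤ 1.87 * 1.87 := mul_self_le_mul_self hxpos.le hx3
            have h12 := Real.pi_lt_d2
            rw [hdiff] at h10
            norm_num at h10 h11 h12
            linarith
          have h7 : 0.35 ≤ y - x := by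
            by_contra hcon
            rw [not_le] at hcon
            have h8 : (y - x) * (y + x) ≤ 0.35 * 4.17 := by
              apply mul_le_mul hcon.le (by linarith) (by linarith) (by norm_num)
            rw [hyx] at h8
            have := Real.pi_gt_three
            norm_num at h8
            linarith
          have h9 : 2 * (y - x) ≤ n * (y - x) :=
            mul_le_mul_of_nonneg_right hn2 (by linarith)
          linarith
      rw [hexp] at l1
      rw [hexp0] at u0
      rw [hcast] at l1 ⊢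
      linarith
  · have hcast : ((n + 1 : ℕ) : ℝ) = n + 1 := by push_cast; ring
    have hexp : ((n + 1 : ℕ) : ℝ) * (y + 2 / 3) =
        n * (y - x) + n * x + 2 / 3 * n + y + 2 / 3 := by
      rw [hcast]; ring
    have hexp0 : (n : ℝ) * (x + 2 / 3) = n * x + 2 / 3 * n := by ring
    rw [hexp] at u1
    rw [hexp0] at l0
    rw [hpi48]
    rw [hcast] at u1 ⊢
    linarith

end MP_d1b55a
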