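import Pool.Agent.Lib.MP_d1b55a_co.Moments

/-!
MP_d1b55a_co, P1: Regime I. Lower bound of `|a_n(e^{iθ})|` and its argument from the variance.
-/

open Finset Polynomial

namespace MP_d1b55a

/-! ### nonnegative coefficients -/

def NN (p : ℚ[X]) : Prop := ∀ j, 0 ≤ p.coeff j

theorem NN.mul {p q : ℚ[X]} (hp : NN p) (hq : NN q) : NN (p * q) := by
  intro j
  rw [coeff_mul]
  exact Finset.sum_nonneg fun x _ => mul_nonneg (hp _) (hq _)

theorem NN.sum {ι : Type*} {s : Finset ι} {f : ι → ℚ[X]} (h : ∀ i ∈ s, NN (f i)) :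
    NN (∑ i ∈ s, f i) := by
  intro j
  rw [finsetSum_coeff]
  exact Finset.sum_nonneg fun x hx => h x hx j

theorem NN.C_mul {c : ℚ} (hc : 0 ≤ c) {p : ℚ[X]} (hp : NN p) : NN (C c * p) := by
  intro j
  rw [coeff_C_mul]
  exact mul_nonneg hc (hp j)

theorem NN_qn (k : ℕ) : NN (qn k) := by
  apply NN.sum
  intro i _ j
  rw [coeff_X_pow]
  split_ifs <;> norm_num

theorem NN_aP (n : ℕ) : NN (aP n) := by
  induction n using Nat.strong_induction_on with
  | _ n ih =>
    rcases n with _ | _ | m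
    · intro j; simp [aP_zero]
    · intro j
      rw [aP_one, coeff_one]
      split_ifs <;> norm_num
    · rw [aP_succ]
      apply NN.C_mul (by positivity)
      apply NN.sum
      intro k hk
      rw [Finset.mem_range] at hk
      exact ((NN_qn _).mul (ih _ (by omega))).mul (ih _ (by omega))

/-! ### moments as sums -/

theorem eval1_sum (p : ℚ[X]) : p.eval 1 = ∑ j ∈ Finset.range (p.natDegree + 1), p.coeff j := by
  simp [eval_eq_sum_range]

theorem der1_sum (p : ℚ[X]) : (derivative p).eval 1 =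
    ∑ j ∈ Finset.range (p.natDegree + 1), (j : ℚ) * p.coeff j := by
  conv_lhs => rw [p.as_sum_range_C_mul_X_pow]
  rw [derivative_sum, eval_finsetSum]
  apply Finset.sum_congr rfl
  intro j _
  rw [derivative_C_mul, derivative_X_pow]
  simp
  ring

theorem der2_sum (p : ℚ[X]) : (derivative (derivative p)).eval 1 =
    ∑ j ∈ Finset.range (p.natDegree + 1), (j : ℚ) * (j - 1) * p.coeff j := by
  conv_lhs => rw [p.as_sum_range_C_mul_X_pow]
  rw [derivative_sum, derivative_sum, eval_finsetSum]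
  apply Finset.sum_congr rfl
  intro j _
  rw [derivative_C_mul, derivative_X_pow, derivative_C_mul, derivative_C_mul, derivative_X_pow]
  rcases j with _ | j
  · simp
  · simp
    ring

/-! ### the tangent parabola -/

open Real in
theorem mul_sin_le_mul_sin {x t : ℝ} (hx : 0 ≤ x) (hxt : x ≤ t) (ht : t ≤ π) :
    x * sin t ≤ t * sin x := by
  rcases eq_or_lt_of_le (hx.trans hxt) with h | h
  · have : x = 0 := by linarith
    subst this
    subst h
    simp
  · have hc := strictConcaveOn_sin_Icc.concaveOn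
    have h1 : x / t ≤ 1 := (div_le_one h).mpr hxt
    have h2 : 0 ≤ x / t := div_nonneg hx h.le
    have := hc.2 (x := 0) (y := t) ⟨le_refl _, pi_pos.le⟩ ⟨h.le, ht⟩ (sub_nonneg.mpr h1) h2 (by ring)
    simp only [smul_eq_mul, mul_zero, zero_add, sin_zero] at this
    have h3 : x / t * t = x := by field_simp
    rw [h3] at this
    have h4 : x / t * sin t * t ≤ sin x * t := mul_le_mul_of_nonneg_right this h.le
    have h5 : x / t * sin t * t = x * sin t := by field_simp
    linarith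

open Real in
theorem cos_tangent (t : ℝ) (h0 : 0 ≤ t) (h1 : t ≤ π / 2) :
    ∃ k : ℝ, ∀ x : ℝ, cos t + k * (t ^ 2 - x ^ 2) ≤ cos x := by
  rcases eq_or_lt_of_le h0 with h | h
  · refine ⟨1 / 2, fun x => ?_⟩
    rw [← h]
    have := one_sub_sq_div_two_le_cos (x := x)
    rw [cos_zero]
    linarith
  · refine ⟨sin t / (2 * t), fun x => ?_⟩
    -- reduce to `x ≥ 0`
    have key : ∀ x : ℝ, 0 ≤ x → cos t + sin t / (2 * t) * (t ^ 2 - x ^ 2) ≤ cos x := by
      intro x hx
      set g : ℝ → ℝ := fun x => cos x - cos t - sin t / (2 * t) * (t ^ 2 - x ^ 2) with hg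
      have hgt : g t = 0 := by simp [hg]
      have hder : ∀ x, HasDerivAt g (-sin x + sin t / t * x) x := by
        intro x
        have h1 : HasDerivAt (fun x : ℝ => t ^ 2 - x ^ 2) (-(2 * x)) x := by
          simpa using ((hasDerivAt_pow 2 x).const_sub (t ^ 2))
        have h2 := ((hasDerivAt_cos x).sub_const (cos t)).sub (h1.const_mul (sin t / (2 * t)))
        have h3 : -sin x - sin t / (2 * t) * (-(2 * x)) = -sin x + sin t / t * x := by
          field_simp
          ring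
        rw [← h3]
        exact h2
      have hsint : 2 / π * t ≤ sin t := mul_le_sin h0 h1
      have hcont : Continuous g := by
        rw [hg]; fun_prop
      have hpi := pi_pos
      have hpi3 := pi_gt_three
      suffices h : 0 ≤ g x by
        simp only [hg] at h
        linarith
      rcases le_total x t with hxt | hxt
      · -- antitone on [0,t]
        have hanti : AntitoneOn g (Set.Icc 0 t) := by
          apply antitoneOn_of_deriv_nonpos (convex_Icc 0 t) hcont.continuousOn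
          · intro y _
            exact (hder y).differentiableAt.differentiableWithinAt
          · intro y hy
            rw [interior_Icc] at hy
            rw [(hder y).deriv]
            have := mul_sin_le_mul_sin hy.1.le hy.2.le (by linarith)
            have h3 : sin t / t * y ≤ sin y := by
              rw [div_mul_eq_mul_div, div_le_iff₀ h]
              linarith
            linarith
        have := hanti ⟨hx, hxt⟩ ⟨h0, le_refl t⟩ hxt
        linarith
      · have hmono : MonotoneOn g (Set.Ici t) := by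
          apply monotoneOn_of_deriv_nonneg (convex_Ici t) hcont.continuousOn
          · intro y _
            exact (hder y).differentiableAt.differentiableWithinAt
          · intro y hy
            rw [interior_Ici] at hy
            have hy' : t < y := hy
            rw [(hder y).deriv]
            rcases le_total y π with hyp | hyp
            · have := mul_sin_le_mul_sin h0 hy'.le hyp
              have h3 : sin y ≤ sin t / t * y := by
                rw [div_mul_eq_mul_div, le_div_iff₀ h]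
                linarith
              linarith
            · have h3 : 2 / π ≤ sin t / t := by
                rw [le_div_iff₀ h]; exact hsint
              have h4 : 2 ≤ sin t / t * y := by
                calc (2 : ℝ) = 2 / π * π := by field_simp
                  _ ≤ sin t / t * y := mul_le_mul h3 hyp hpi.le (by
                      exact le_trans (by positivity) h3)
              have := sin_le_one y
              linarith
        have := hmono (Set.mem_Ici.mpr (le_refl t)) (Set.mem_Ici.mpr hxt) hxt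
        linarith
    have := key |x| (abs_nonneg x)
    rwa [sq_abs, cos_abs] at this

open Real in
theorem sum_cos_ge (s : Finset ℕ) (w x : ℕ → ℝ) (hw : ∀ j ∈ s, 0 ≤ w j) (hs : ∑ j ∈ s, w j = 1)
    (t : ℝ) (h0 : 0 ≤ t) (h1 : t ≤ π / 2) (hx : ∑ j ∈ s, w j * (x j) ^ 2 = t ^ 2) :
    cos t ≤ ∑ j ∈ s, w j * cos (x j) := by
  obtain ⟨k, hk⟩ := cos_tangent t h0 h1
  have h2 : ∑ j ∈ s, w j * (cos t + k * (t ^ 2 - (x j) ^ 2)) ≤ ∑ j ∈ s, w j * cos (x j) :=
    Finset.sum_le_sum fun j hj => mul_le_mul_of_nonneg_left (hk _) (hw j hj)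
  have h3 : ∑ j ∈ s, w j * (cos t + k * (t ^ 2 - (x j) ^ 2)) =
      (cos t + k * t ^ 2) * ∑ j ∈ s, w j - k * ∑ j ∈ s, w j * (x j) ^ 2 := by
    rw [Finset.mul_sum, Finset.mul_sum, ← Finset.sum_sub_distrib]
    apply Finset.sum_congr rfl
    intro j _
    ring
  rw [h3, hs, hx] at h2
  linarith

/-! ### application to `av n (e^{iθ})` -/

/-- probability weights -/
noncomputable def wt (n j : ℕ) : ℝ := (((aP n).coeff j / a1 n : ℚ) : ℝ)

noncomputable def sp (n : ℕ) : Finset ℕ := Finset.range ((aP n).natDegree + 1)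

theorem wt_nonneg (n : ℕ) (hn : 1 ≤ n) (j : ℕ) : 0 ≤ wt n j := by
  unfold wt
  have h := a1_pos n hn
  have h2 : 0 ≤ (aP n).coeff j / a1 n := div_nonneg (NN_aP n j) h.le
  exact_mod_cast h2

theorem wt_sum (n : ℕ) (hn : 1 ≤ n) : ∑ j ∈ sp n, wt n j = 1 := by
  unfold wt sp
  have h := a1_pos n hn
  have h2 : ∑ j ∈ Finset.range ((aP n).natDegree + 1), (aP n).coeff j / a1 n = 1 := by
    rw [← Finset.sum_div, ← eval1_sum]
    exact div_self h.ne'
  exact_mod_cast h2

theorem wt_mean (n : ℕ) : ∑ j ∈ sp n, wt n j * (j : ℝ) = EA n := by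
  unfold wt sp EA
  have h2 : ∑ j ∈ Finset.range ((aP n).natDegree + 1), (aP n).coeff j / a1 n * (j : ℚ) =
      b1 n / a1 n := by
    unfold b1
    rw [der1_sum, Finset.sum_div]
    apply Finset.sum_congr rfl
    intro j _
    ring
  rw [← h2]
  push_cast
  rfl

theorem wt_sec (n : ℕ) : ∑ j ∈ sp n, wt n j * (j : ℝ) ^ 2 = VA n + EA n ^ 2 := by
  unfold wt sp VA EA
  have h2 : ∑ j ∈ Finset.range ((aP n).natDegree + 1), (aP n).coeff j / a1 n * (j : ℚ) ^ 2 =
      (d1 n + b1 n) / a1 n := by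
    unfold b1 d1
    rw [der2_sum, der1_sum, ← Finset.sum_add_distrib, Finset.sum_div]
    apply Finset.sum_congr rfl
    intro j _
    ring
  have h3 : (((d1 n + b1 n) / a1 n - (b1 n / a1 n) ^ 2 : ℚ) : ℝ) + ((b1 n / a1 n : ℚ) : ℝ) ^ 2 =
      (((d1 n + b1 n) / a1 n : ℚ) : ℝ) := by
    push_cast
    ring
  rw [h3, ← h2]
  push_cast
  rfl

theorem wt_var (n : ℕ) (hn : 1 ≤ n) (θ β : ℝ) :
    ∑ j ∈ sp n, wt n j * (θ * ((j : ℝ) - EA n) - β) ^ 2 = θ ^ 2 * VA n + β ^ 2 := by
  have h1 := wt_sum n hn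
  have h2 := wt_mean n
  have h3 := wt_sec n
  have h4 : ∑ j ∈ sp n, wt n j * (θ * ((j : ℝ) - EA n) - β) ^ 2 =
      θ ^ 2 * ∑ j ∈ sp n, wt n j * (j : ℝ) ^ 2
      + (-2 * θ * (θ * EA n + β)) * ∑ j ∈ sp n, wt n j * (j : ℝ)
      + (θ * EA n + β) ^ 2 * ∑ j ∈ sp n, wt n j := by
    rw [Finset.mul_sum, Finset.mul_sum, Finset.mul_sum, ← Finset.sum_add_distrib,
      ← Finset.sum_add_distrib]
    apply Finset.sum_congr rfl
    intro j _
    ring
  rw [h4, h1, h2, h3]
  ring

theorem VA_nonneg (n : ℕ) (hn : 1 ≤ n) : 0 ≤ VA n := by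
  have h := wt_var n hn 1 0
  have h2 : 0 ≤ ∑ j ∈ sp n, wt n j * (1 * ((j : ℝ) - EA n) - 0) ^ 2 :=
    Finset.sum_nonneg fun j _ => mul_nonneg (wt_nonneg n hn j) (sq_nonneg _)
  rw [h] at h2
  linarith

theorem av_eq_sum (n : ℕ) (hn : 1 ≤ n) (y : ℂ) :
    av n y = ((a1 n : ℚ) : ℂ) * ∑ j ∈ sp n, ((wt n j : ℝ) : ℂ) * y ^ j := by
  unfold av sp wt
  rw [aeval_eq_sum_range, Finset.mul_sum]
  apply Finset.sum_congr rfl
  intro j _
  have h := (a1_pos n hn).ne'
  have h2 : ((a1 n : ℚ) : ℂ) ≠ 0 := by exact_mod_cast h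
  rw [Algebra.smul_def]
  push_cast
  rw [eq_ratCast]
  field_simp

open Real in
theorem re_ge (n : ℕ) (hn : 1 ≤ n) (θ β : ℝ) (h : θ ^ 2 * VA n + β ^ 2 ≤ (π / 2) ^ 2) :
    (a1 n : ℝ) * cos (√(θ ^ 2 * VA n + β ^ 2)) ≤
      (Complex.exp (-((θ * EA n + β : ℝ) : ℂ) * Complex.I) *
        av n (Complex.exp ((θ : ℂ) * Complex.I))).re := by
  have hV := VA_nonneg n hn
  have hnn : 0 ≤ θ ^ 2 * VA n + β ^ 2 := by positivity
  have hpi := pi_pos
  have h1 := sum_cos_ge (sp n) (wt n) (fun j => θ * ((j : ℝ) - EA n) - β)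
    (fun j _ => wt_nonneg n hn j) (wt_sum n hn) (√(θ ^ 2 * VA n + β ^ 2)) (sqrt_nonneg _)
    (by rw [← sqrt_sq (by positivity : (0 : ℝ) ≤ π / 2)]; exact sqrt_le_sqrt h)
    (by rw [sq_sqrt hnn]; exact wt_var n hn θ β)
  rw [av_eq_sum n hn]
  have h2 : Complex.exp (-((θ * EA n + β : ℝ) : ℂ) * Complex.I) * (((a1 n : ℚ) : ℂ) *
      ∑ j ∈ sp n, ((wt n j : ℝ) : ℂ) * (Complex.exp ((θ : ℂ) * Complex.I)) ^ j) =
      (((a1 n : ℝ) : ℝ) : ℂ) * ∑ j ∈ sp n, ((wt n j : ℝ) : ℂ) *
        Complex.exp (((θ * ((j : ℝ) - EA n) - β : ℝ) : ℂ) * Complex.I) := by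
    rw [Finset.mul_sum, Finset.mul_sum, Finset.mul_sum]
    apply Finset.sum_congr rfl
    intro j _
    rw [← Complex.exp_nat_mul]
    have h3 : Complex.exp (((θ * ((j : ℝ) - EA n) - β : ℝ) : ℂ) * Complex.I) =
        Complex.exp (-((θ * EA n + β : ℝ) : ℂ) * Complex.I) *
          Complex.exp ((j : ℂ) * ((θ : ℂ) * Complex.I)) := by
      rw [← Complex.exp_add]
      congr 1
      push_cast
      ring
    rw [h3]
    push_cast
    ring
  rw [h2, Complex.re_ofReal_mul, Complex.re_sum]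
  have h4 : ∀ j ∈ sp n, (((wt n j : ℝ) : ℂ) *
      Complex.exp (((θ * ((j : ℝ) - EA n) - β : ℝ) : ℂ) * Complex.I)).re =
      wt n j * cos (θ * ((j : ℝ) - EA n) - β) := by
    intro j _
    rw [Complex.re_ofReal_mul, Complex.exp_ofReal_mul_I_re]
  rw [Finset.sum_congr rfl h4]
  have h5 : (0 : ℝ) ≤ (a1 n : ℝ) := by exact_mod_cast (a1_pos n hn).le
  exact mul_le_mul_of_nonneg_left h1 h5

open Real in
/-- lower bound of the modulus -/
theorem norm_av_ge (n : ℕ) (hn : 1 ≤ n) (θ : ℝ) (h : θ ^ 2 * VA n ≤ (π / 2) ^ 2) :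
    (a1 n : ℝ) * cos (√(θ ^ 2 * VA n)) ≤ ‖av n (Complex.exp ((θ : ℂ) * Complex.I))‖ := by
  have h1 := re_ge n hn θ 0 (by simpa using h)
  simp only [ne_eq, OfNat.ofNat_ne_zero, not_false_eq_true, zero_pow, add_zero] at h1
  refine h1.trans ((Complex.re_le_norm _).trans ?_)
  rw [norm_mul]
  have : ‖Complex.exp (-((θ * EA n : ℝ) : ℂ) * Complex.I)‖ = 1 := by
    have := Complex.norm_exp_ofReal_mul_I (-(θ * EA n))
    rwa [Complex.ofReal_neg] at this
  rw [this, one_mul]

open Real in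
theorem arg_bound (z : ℂ) (s2 : ℝ) (hs : s2 < (π / 2) ^ 2)
    (h : ∀ β : ℝ, s2 + β ^ 2 < (π / 2) ^ 2 →
      0 < (Complex.exp (-((β : ℝ) : ℂ) * Complex.I) * z).re) :
    z ≠ 0 ∧ |z.arg| ≤ π / 2 - √((π / 2) ^ 2 - s2) := by
  have hpi := pi_pos
  have h00 := h 0 (by simpa using hs)
  simp only [Complex.ofReal_zero, neg_zero, zero_mul, Complex.exp_zero, one_mul] at h00
  have hz : z ≠ 0 := by
    rintro rfl
    simp at h00
  refine ⟨hz, ?_⟩
  have hlt : |z.arg| < π / 2 := Complex.abs_arg_lt_pi_div_two_iff.mpr (Or.inl h00)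
  by_contra hcon
  rw [not_le] at hcon
  have hβ : ∀ β : ℝ, s2 + β ^ 2 < (π / 2) ^ 2 → 0 < cos (z.arg - β) := by
    intro β hβ
    have h1 := h β hβ
    have h2 : Complex.exp (-((β : ℝ) : ℂ) * Complex.I) * z =
        ((‖z‖ : ℝ) : ℂ) * Complex.exp (((z.arg - β : ℝ) : ℂ) * Complex.I) := by
      conv_lhs => rw [← Complex.norm_mul_exp_arg_mul_I z]
      rw [mul_left_comm, ← Complex.exp_add]
      congr 2
      push_cast
      ring
    rw [h2, Complex.re_ofReal_mul, Complex.exp_ofReal_mul_I_re] at h1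
    have h3 : 0 < ‖z‖ := norm_pos_iff.mpr hz
    exact (mul_pos_iff_of_pos_left h3).mp h1
  have hr : 0 ≤ π / 2 - |z.arg| := by linarith
  have hlt2 : π / 2 - |z.arg| < √((π / 2) ^ 2 - s2) := by linarith
  have hsq : s2 + (π / 2 - |z.arg|) ^ 2 < (π / 2) ^ 2 := by
    have h5 : (π / 2 - |z.arg|) ^ 2 < (√((π / 2) ^ 2 - s2)) ^ 2 := by
      apply pow_lt_pow_left₀ hlt2 hr (by norm_num)
    rw [sq_sqrt (by linarith)] at h5
    linarith
  rcases le_total 0 z.arg with hpos | hneg
  · rw [abs_of_nonneg hpos] at hsq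
    have h6 := hβ (-(π / 2 - z.arg)) (by rw [neg_sq]; exact hsq)
    have h7 : z.arg - -(π / 2 - z.arg) = π / 2 := by ring
    rw [h7, cos_pi_div_two] at h6
    exact lt_irrefl _ h6
  · rw [abs_of_nonpos hneg] at hsq
    have h6 := hβ (π / 2 - -z.arg) hsq
    have h7 : z.arg - (π / 2 - -z.arg) = -(π / 2) := by ring
    rw [h7, cos_neg, cos_pi_div_two] at h6
    exact lt_irrefl _ h6

open Real in
/-- bound of the deviation of the argument -/
noncomputable def dl (n : ℕ) (θ : ℝ) : ℝ := π / 2 - √((π / 2) ^ 2 - θ ^ 2 * VA n)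

open Real in
/-- polar form of `a_n(e^{iθ})` in Regime I -/
theorem av_polar (n : ℕ) (hn : 1 ≤ n) (θ : ℝ) (h : θ ^ 2 * VA n < (π / 2) ^ 2) :
    ∃ ψ : ℝ, |ψ| ≤ dl n θ ∧ av n (Complex.exp ((θ : ℂ) * Complex.I)) ≠ 0 ∧
      av n (Complex.exp ((θ : ℂ) * Complex.I)) =
        ((‖av n (Complex.exp ((θ : ℂ) * Complex.I))‖ : ℝ) : ℂ) *
          Complex.exp (((θ * EA n + ψ : ℝ) : ℂ) * Complex.I) := by
  set a := av n (Complex.exp ((θ : ℂ) * Complex.I)) with ha
  set z := Complex.exp (-((θ * EA n : ℝ) : ℂ) * Complex.I) * a with hz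
  have hV := VA_nonneg n hn
  have hnn : 0 ≤ θ ^ 2 * VA n := by positivity
  have hpi := pi_pos
  have hb := arg_bound z (θ ^ 2 * VA n) h (by
    intro β hβ
    have h1 := re_ge n hn θ β hβ.le
    have h2 : Complex.exp (-((β : ℝ) : ℂ) * Complex.I) * z =
        Complex.exp (-((θ * EA n + β : ℝ) : ℂ) * Complex.I) * a := by
      rw [hz, ← mul_assoc, ← Complex.exp_add]
      congr 2
      push_cast
      ring
    rw [h2]
    refine lt_of_lt_of_le ?_ h1
    have h5 : (0 : ℝ) < (a1 n : ℝ) := by exact_mod_cast (a1_pos n hn)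
    apply mul_pos h5
    apply cos_pos_of_mem_Ioo
    constructor
    · have := sqrt_nonneg (θ ^ 2 * VA n + β ^ 2)
      linarith
    · rw [← sqrt_sq (by positivity : (0 : ℝ) ≤ π / 2)]
      exact sqrt_lt_sqrt (by positivity) hβ)
  refine ⟨z.arg, hb.2, ?_, ?_⟩
  · intro h0
    apply hb.1
    rw [hz, h0, mul_zero]
  · have h1 : ‖z‖ = ‖a‖ := by
      rw [hz, norm_mul]
      have : ‖Complex.exp (-((θ * EA n : ℝ) : ℂ) * Complex.I)‖ = 1 := by
        have := Complex.norm_exp_ofReal_mul_I (-(θ * EA n))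
        rwa [Complex.ofReal_neg] at this
      rw [this, one_mul]
    have h2 : a = Complex.exp (((θ * EA n : ℝ) : ℂ) * Complex.I) * z := by
      rw [hz, ← mul_assoc, ← Complex.exp_add]
      have : ((θ * EA n : ℝ) : ℂ) * Complex.I + -((θ * EA n : ℝ) : ℂ) * Complex.I = 0 := by ring
      rw [this, Complex.exp_zero, one_mul]
    conv_lhs => rw [h2, ← Complex.norm_mul_exp_arg_mul_I z, h1]
    rw [mul_left_comm, ← Complex.exp_add]
    congr 2
    push_cast
    ring

end MP_d1b55a
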