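import Mathlib

/-!
MP_d1b55a_co: the all-terminal reliability polynomial (as a function of `q`) and the weighted sums over
all graphs / all connected graphs on `Fin n`.
-/

open Finset

namespace MP_d1b55a

open Classical in
/-- `Rel(G; q) = ∑_{S ⊆ E, (V,S) connected} (1 - q)^{|S|} q^{|E| - |S|}` -/
noncomputable def Rel {V : Type*} [Fintype V] (G : SimpleGraph V) (q : ℂ) : ℂ :=
  ∑ S ∈ G.edgeFinset.powerset.filter
      (fun S : Finset (Sym2 V) => (SimpleGraph.fromEdgeSet (S : Set (Sym2 V))).Connected),
    (1 - q) ^ S.card * q ^ (G.edgeFinset.card - S.card)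

open Classical in
/-- `∑_G w^{|E(G)|}` over all graphs on the vertex set `V` -/
noncomputable def Zv (V : Type*) [Fintype V] (w : ℂ) : ℂ :=
  ∑ G : SimpleGraph V, w ^ G.edgeFinset.card

open Classical in
/-- `∑_G w^{|E(G)|}` over the connected graphs on the vertex set `V` -/
noncomputable def Cv (V : Type*) [Fintype V] (w : ℂ) : ℂ :=
  ∑ G : SimpleGraph V with G.Connected, w ^ G.edgeFinset.card

end MP_d1b55a
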