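import Pool.Agent.Lib.MP_d1b55a_co.Jets

/-!
MP_d1b55a_co, P1: generating functions of the jets, closed forms in `U = 1/(1-T)`.
-/

open Finset

namespace MP_d1b55a

open PowerSeries

/-- `θ = z d/dz` -/
noncomputable def th : Derivation ℚ ℚ⟦X⟧ ℚ⟦X⟧ := (X : ℚ⟦X⟧) • PowerSeries.derivative ℚ

theorem coeff_th (f : ℚ⟦X⟧) (n : ℕ) : coeff n (th f) = (n : ℚ) * coeff n f := by
  have : th f = X * PowerSeries.derivative ℚ f := rfl
  rw [this]
  rcases n with _ | n
  · simp
  · rw [coeff_succ_X_mul, PowerSeries.coeff_derivative]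
    push_cast
    ring

theorem cc_th (f : ℚ⟦X⟧) : constantCoeff (th f) = 0 := by
  rw [← coeff_zero_eq_constantCoeff_apply, coeff_th]; simp

theorem th_mul (f g : ℚ⟦X⟧) : th (f * g) = f * th g + g * th f := by
  rw [Derivation.leibniz]
  simp [smul_eq_mul]

theorem th_one : th (1 : ℚ⟦X⟧) = 0 := by simp

noncomputable def sT : ℚ⟦X⟧ := PowerSeries.mk a1
noncomputable def sB : ℚ⟦X⟧ := PowerSeries.mk b1
noncomputable def sD : ℚ⟦X⟧ := PowerSeries.mk d1

/-- convolution coefficient for sequences vanishing at `0` -/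
theorem coeff_mul_range (f g : ℚ⟦X⟧) (hf : coeff 0 f = 0) (hg : coeff 0 g = 0) (n : ℕ) :
    coeff (n + 2) (f * g) =
      ∑ k ∈ Finset.range (n + 1), coeff (k + 1) f * coeff (n + 1 - k) g := by
  rw [coeff_mul, Finset.Nat.sum_antidiagonal_eq_sum_range_succ_mk]
  rw [Finset.sum_range_succ']
  simp only [hf, zero_mul, add_zero]
  rw [Finset.sum_range_succ]
  have : n + 2 - (n + 1 + 1) = 0 := by omega
  rw [this, hg, mul_zero, add_zero]
  apply Finset.sum_congr rfl
  intro k hk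
  have : n + 2 - (k + 1) = n + 1 - k := by omega
  rw [this]

theorem eqT : th sT - sT = th sT * sT := by
  ext n
  rw [map_sub, coeff_th]
  rcases n with _ | _ | n
  · simp [sT, jets_zero, cc_th, coeff_mul]
  · simp [sT, jets_zero, jets_one, coeff_th, coeff_mul, Finset.Nat.antidiagonal_succ]
  · rw [coeff_mul_range _ _ (by simp [cc_th]) (by simp [sT, jets_zero])]
    simp only [coeff_th, sT, coeff_mk]
    have h := a1_rec n
    push_cast at h ⊢
    rw [← sub_eq_zero] at h ⊢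
    rw [← h]
    ring

theorem eqB : th sB - sB = (1 / 2 : ℚ) • ((th (th sT) - th sT) * sT) + th sB * sT + th sT * sB := by
  ext n
  rw [map_sub, coeff_th, map_add, map_add, coeff_smul]
  rcases n with _ | _ | n
  · simp [sT, sB, jets_zero, cc_th, coeff_mul]
  · simp [sT, sB, jets_zero, jets_one, coeff_th, coeff_mul, Finset.Nat.antidiagonal_succ]
  · rw [coeff_mul_range _ _ (by simp [cc_th]) (by simp [sT, jets_zero]),
      coeff_mul_range _ _ (by simp [cc_th]) (by simp [sT, jets_zero]),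
      coeff_mul_range _ _ (by simp [cc_th]) (by simp [sB, jets_zero])]
    simp only [coeff_th, sT, sB, coeff_mk, map_sub, smul_eq_mul]
    have h := b1_rec n
    rw [Finset.mul_sum, ← Finset.sum_add_distrib, ← Finset.sum_add_distrib]
    have h2 : ((n + 1 + 1 : ℕ) : ℚ) * b1 (n + 1 + 1) - b1 (n + 1 + 1) = ((n : ℚ) + 1) * b1 (n + 2) := by
      push_cast; ring
    rw [h2, h]
    apply Finset.sum_congr rfl
    intro k _
    push_cast
    ring

theorem eqD : th sD - sD = (1 / 3 : ℚ) • ((th (th (th sT)) - 3 * th (th sT) + 2 * th sT) * sT)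
    + (th (th sT) - th sT) * sB + (th (th sB) - th sB) * sT + th sD * sT + 2 * (th sB * sB)
    + th sT * sD := by
  have c3 : (3 : ℚ⟦X⟧) = PowerSeries.C (3 : ℚ) := (map_ofNat (PowerSeries.C (R := ℚ)) 3).symm
  have c2 : (2 : ℚ⟦X⟧) = PowerSeries.C (2 : ℚ) := (map_ofNat (PowerSeries.C (R := ℚ)) 2).symm
  ext n
  rw [map_sub, coeff_th, map_add, map_add, map_add, map_add, map_add, coeff_smul]
  rw [c3, c2, coeff_C_mul]
  rcases n with _ | _ | n
  · simp [sT, sB, sD, jets_zero, cc_th, coeff_mul]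
  · simp [sT, sB, sD, jets_zero, jets_one, coeff_th, coeff_mul, Finset.Nat.antidiagonal_succ]
  · rw [coeff_mul_range (th (th (th sT)) - PowerSeries.C (3 : ℚ) * th (th sT)
        + PowerSeries.C (2 : ℚ) * th sT) sT (by simp [cc_th]) (by simp [sT, jets_zero]),
      coeff_mul_range (th (th sT) - th sT) sB (by simp [cc_th]) (by simp [sB, jets_zero]),
      coeff_mul_range (th (th sB) - th sB) sT (by simp [cc_th]) (by simp [sT, jets_zero]),
      coeff_mul_range (th sD) sT (by simp [cc_th]) (by simp [sT, jets_zero]),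
      coeff_mul_range (th sB) sB (by simp [cc_th]) (by simp [sB, jets_zero]),
      coeff_mul_range (th sT) sD (by simp [cc_th]) (by simp [sD, jets_zero])]
    simp only [coeff_th, sT, sB, sD, coeff_mk, map_sub, map_add, smul_eq_mul, coeff_C_mul]
    have h := d1_rec n
    rw [Finset.mul_sum, Finset.mul_sum, ← Finset.sum_add_distrib, ← Finset.sum_add_distrib,
      ← Finset.sum_add_distrib, ← Finset.sum_add_distrib, ← Finset.sum_add_distrib]
    have h2 : ((n + 1 + 1 : ℕ) : ℚ) * d1 (n + 1 + 1) - d1 (n + 1 + 1) = ((n : ℚ) + 1) * d1 (n + 2) := by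
      push_cast; ring
    rw [h2, h]
    apply Finset.sum_congr rfl
    intro k _
    push_cast
    ring

/-- `U = 1 + θT = 1/(1-T)` -/
noncomputable def sU : ℚ⟦X⟧ := 1 + th sT

theorem U_mul : (1 - sT) * sU = 1 := by
  unfold sU
  have h := eqT
  linear_combination h

theorem th_U : th sU = sU ^ 2 * (sU - 1) := by
  have h1 : th ((1 - sT) * sU) = 0 := by rw [U_mul]; exact th_one
  rw [th_mul, map_sub, th_one] at h1
  have h2 : th sT = sU - 1 := by unfold sU; ring
  rw [h2] at h1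
  have h3 := U_mul
  linear_combination sU * h1 - th sU * h3

theorem th_T : th sT = sU - 1 := by unfold sU; ring

theorem T_mul_U : sT * sU = sU - 1 := by
  have h3 := U_mul
  linear_combination -h3

/-- uniqueness for the linear equation `θΔ - Δ = θ(ΔT)` -/
theorem uniq (f : ℚ⟦X⟧) (h0 : coeff 0 f = 0) (h1 : coeff 1 f = 0)
    (h : th f - f = th f * sT + th sT * f) : f = 0 := by
  ext n
  rw [map_zero]
  induction n using Nat.strong_induction_on with
  | _ n ih =>
    rcases n with _ | _ | n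
    · exact h0
    · exact h1
    · have h2 := congrArg (coeff (n + 2)) h
      rw [map_sub, coeff_th, map_add, coeff_mul_range _ _ (by simp [cc_th]) (by simp [sT, jets_zero]),
        coeff_mul_range _ _ (by simp [cc_th]) h0] at h2
      rw [Finset.sum_eq_zero, Finset.sum_eq_zero] at h2
      · push_cast at h2
        have h3 : ((n : ℚ) + 1) * coeff (n + 2) f = 0 := by linarith
        rcases mul_eq_zero.mp h3 with h4 | h4
        · exfalso
          have : (0 : ℚ) < (n : ℚ) + 1 := by positivity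
          linarith
        · exact h4
      · intro k hk
        rw [Finset.mem_range] at hk
        rw [ih (n + 1 - k) (by omega), mul_zero]
      · intro k hk
        rw [Finset.mem_range] at hk
        rw [coeff_th, ih (k + 1) (by omega), mul_zero, zero_mul]

theorem th_sq (f : ℚ⟦X⟧) : th (f ^ 2) = 2 * f * th f := by
  rw [sq, th_mul]; ring

theorem th_ofNat_mul (n : ℕ) (f : ℚ⟦X⟧) : th ((n : ℚ⟦X⟧) * f) = n * th f := by
  rw [th_mul]; simp

theorem th_num_mul (n : ℕ) [n.AtLeastTwo] (f : ℚ⟦X⟧) :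
    th ((OfNat.ofNat n : ℚ⟦X⟧) * f) = (OfNat.ofNat n : ℚ⟦X⟧) * th f := by
  have := th_ofNat_mul (OfNat.ofNat n) f
  rwa [Nat.cast_ofNat] at this

theorem th_two_mul (f : ℚ⟦X⟧) : th (2 * f) = 2 * th f := th_num_mul 2 f

theorem th_twelve_mul (f : ℚ⟦X⟧) : th (12 * f) = 12 * th f := th_num_mul 12 f

theorem two_smul_half (f : ℚ⟦X⟧) : 2 * ((1 / 2 : ℚ) • f) = f := by
  rw [two_mul, ← add_smul]; norm_num

theorem three_smul_third (f : ℚ⟦X⟧) : 3 * ((1 / 3 : ℚ) • f) = f := by
  have : (3 : ℚ⟦X⟧) = PowerSeries.C (3 : ℚ) := (map_ofNat (PowerSeries.C (R := ℚ)) 3).symm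
  rw [this, ← PowerSeries.smul_eq_C_mul, smul_smul]; norm_num

theorem candB_th : th ((sU - 1) ^ 2 * sT) = (sU - 1) ^ 3 * (2 * sU + 1) := by
  have hU := th_U
  have hT := th_T
  have hTU := T_mul_U
  rw [th_mul, th_sq, map_sub, th_one, hU, hT]
  linear_combination (2 * (sU - 1) ^ 2 * sU) * hTU

theorem closedB : 2 * sB = (sU - 1) ^ 2 * sT := by
  have hU := th_U
  have hT := th_T
  have hTU := T_mul_U
  have hone : th (1 : ℚ⟦X⟧) = 0 := th_one
  have hc := candB_th
  have hcand : th ((sU - 1) ^ 2 * sT) - (sU - 1) ^ 2 * sT =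
      (th (th sT) - th sT) * sT + th ((sU - 1) ^ 2 * sT) * sT + th sT * ((sU - 1) ^ 2 * sT) := by
    rw [hc, hT, map_sub, hone, hU]
    linear_combination (-1 + 3 * sU ^ 2 - 2 * sU ^ 3) * hTU
  have hB := eqB
  have hB2 := two_smul_half ((th (th sT) - th sT) * sT)
  rw [← sub_eq_zero]
  apply uniq
  · simp [sB, sT, jets_zero]
  · have h2 : (2 : ℚ⟦X⟧) = PowerSeries.C (2 : ℚ) := (map_ofNat (PowerSeries.C (R := ℚ)) 2).symm
    rw [h2, map_sub, coeff_C_mul, coeff_mul]
    have hU0 : constantCoeff (sU - 1) = 0 := by simp [sU, cc_th]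
    simp [sB, sT, jets_one, jets_zero, Finset.Nat.antidiagonal_succ, hU0]
  · rw [map_sub, th_two_mul]
    linear_combination 2 * hB - hcand + hB2

/-- `12 D = T (15 U^5 - 38 U^4 + 26 U^3 - U - 2)` -/
noncomputable def cD : ℚ⟦X⟧ := sT * (15 * sU ^ 5 - 38 * sU ^ 4 + 26 * sU ^ 3 - sU - 2)

theorem th_U_pow (n : ℕ) : th (sU ^ (n + 1)) = (n + 1 : ℕ) * (sU ^ (n + 3) - sU ^ (n + 2)) := by
  rw [Derivation.leibniz_pow, th_U]
  simp only [smul_eq_mul, nsmul_eq_mul, Nat.add_sub_cancel]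
  ring

theorem th_P : th (15 * sU ^ 5 - 38 * sU ^ 4 + 26 * sU ^ 3 - sU - 2) =
    (75 * sU ^ 4 - 152 * sU ^ 3 + 78 * sU ^ 2 - 1) * (sU ^ 2 * (sU - 1)) := by
  have e1 := th_num_mul 15 (sU ^ 5)
  have e2 := th_num_mul 38 (sU ^ 4)
  have e3 := th_num_mul 26 (sU ^ 3)
  have e4 : th (2 : ℚ⟦X⟧) = 0 := by
    have := th_two_mul 1
    rwa [th_one, mul_zero, mul_one] at this
  rw [map_sub, map_sub, map_add, map_sub, e1, e2, e3, e4, th_U_pow 4, th_U_pow 3, th_U_pow 2, th_U]
  push_cast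
  ring

theorem th_cD : th cD = (sU - 1) * (75 * sU ^ 6 - 212 * sU ^ 5 + 192 * sU ^ 4 - 52 * sU ^ 3
    - sU ^ 2 - 2) := by
  have hTU := T_mul_U
  unfold cD
  rw [th_mul, th_P, th_T]
  linear_combination ((75 * sU ^ 4 - 152 * sU ^ 3 + 78 * sU ^ 2 - 1) * sU * (sU - 1)) * hTU

theorem th_thT : th (th sT) = sU ^ 2 * (sU - 1) := by
  rw [th_T, map_sub, th_one, th_U, sub_zero]

theorem th_th_thT : th (th (th sT)) = (3 * sU ^ 2 - 2 * sU) * (sU ^ 2 * (sU - 1)) := by
  rw [th_thT, th_mul, map_sub, th_one, th_U, th_sq, th_U]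
  ring

theorem th_B2 : 2 * th sB = (sU - 1) ^ 3 * (2 * sU + 1) := by
  rw [← candB_th, ← closedB, th_two_mul]

theorem th_th_B2 : 2 * th (th sB) = sU ^ 2 * (sU - 1) ^ 3 * (8 * sU + 1) := by
  have h : th (2 * th sB) = th ((sU - 1) ^ 3 * (2 * sU + 1)) := by rw [th_B2]
  rw [th_two_mul] at h
  rw [h, th_mul, map_add, th_two_mul, th_one, pow_succ, th_mul, th_sq, map_sub, th_one, th_U]
  ring

theorem closedD : 12 * sD = cD := by
  have hTU := T_mul_U
  have hD := eqD
  have h3 := three_smul_third ((th (th (th sT)) - 3 * th (th sT) + 2 * th sT) * sT)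
  have hB := closedB
  have hB1 := th_B2
  have hB2 := th_th_B2
  have hcd := th_cD
  have hcand : th cD - cD = 4 * ((th (th (th sT)) - 3 * th (th sT) + 2 * th sT) * sT)
      + 6 * ((th (th sT) - th sT) * (2 * sB)) + 6 * ((2 * th (th sB) - 2 * th sB) * sT)
      + th cD * sT + 6 * ((2 * th sB) * (2 * sB)) + th sT * cD := by
    rw [hcd, hB2, hB1, hB, th_th_thT, th_thT, th_T]
    unfold cD
    linear_combination (2 + sU ^ 2 + 52 * sU ^ 3 - 192 * sU ^ 4 + 212 * sU ^ 5 - 75 * sU ^ 6) * hTU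
  rw [← sub_eq_zero]
  apply uniq
  · simp [sD, cD, sT, jets_zero]
  · have h2 : (12 : ℚ⟦X⟧) = PowerSeries.C (12 : ℚ) := (map_ofNat (PowerSeries.C (R := ℚ)) 12).symm
    rw [h2, map_sub, coeff_C_mul]
    unfold cD
    rw [coeff_mul]
    have hU1 : constantCoeff sU = 1 := by simp [sU, cc_th]
    have c2 : constantCoeff (2 : ℚ⟦X⟧) = 2 := map_ofNat _ 2
    have c15 : constantCoeff (15 : ℚ⟦X⟧) = 15 := map_ofNat _ 15
    have c26 : constantCoeff (26 : ℚ⟦X⟧) = 26 := map_ofNat _ 26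
    have c38 : constantCoeff (38 : ℚ⟦X⟧) = 38 := map_ofNat _ 38
    simp [sD, sT, jets_one, jets_zero, Finset.Nat.antidiagonal_succ, hU1, c2, c15, c26, c38]
    norm_num
  · rw [map_sub, th_twelve_mul]
    linear_combination 12 * hD - hcand + 4 * h3

end MP_d1b55a
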